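import Mathlib

/-!
# Rows and columns: the axioms on the excluded set

`E` is the set of excluded differences. Near field: in the open unit cube everything is excluded except
small windows round `k α e₁`, `1 ≤ |k| < m`, and `k α e₂`, `1 ≤ |k| ≤ m`. Far field: `u` is excluded if
`u₁` is near `m α ℤ` and `u₂` is near `(m + 1) α ℤ`. Junk: the other excluded differences are in a
shell of thickness `τ` round the hard core, or each of `u₁`, `u₂` is in a thin set which may depend on the other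
one, or one of the other coordinates is in a thin set.
The unit cube may be replaced by a larger set `N` (the hard core), for example by a ball.
-/

set_option autoImplicit false

namespace Pool.Agent.RC

open MeasureTheory Pointwise

/-- the windows -/
def Win (d : ℕ) (i₁ i₂ : Fin d) (m : ℕ) (α a b : ℝ) (u : Fin d → ℝ) : Prop :=
  (∃ k : ℤ, 1 ≤ |k| ∧ |k| < m ∧ ∀ j, |u j - (if j = i₁ then k * α else 0)| < a) ∨
  (∃ k : ℤ, 1 ≤ |k| ∧ |k| < m + 1 ∧ ∀ j, |u j - (if j = i₂ then k * α else 0)| < b)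

/-- `x` is within `β` of a multiple of `h` -/
def Nr (h β x : ℝ) : Prop := ∃ i : ℤ, |x - i * h| ≤ β

/-- a set which is thin in every interval of length `h` -/
structure Thin (h ε : ℝ) (J : Set ℝ) : Prop where
  meas : MeasurableSet J
  vol : ∀ x, volume (J ∩ Set.Ico x (x + h)) ≤ ENNReal.ofReal (ε * h)

/-- the open cube -/
def OCub (d : ℕ) : Set (Fin d → ℝ) := {u | ∀ j, |u j| < 1}

/-- **The axioms on the excluded set `E` with the hard core `N`.** For `E = K - K` with the body `K` of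
`InstC` the hard core is the cube `OCub d`. -/
structure Geo (d : ℕ) (i₁ i₂ : Fin d) (m : ℕ) (R α a b β β' τ ε : ℝ) (N E : Set (Fin d → ℝ)) :
    Prop where
  ne : i₁ ≠ i₂
  hm : 2 ≤ m
  hb : 0 < b
  hba : b ≤ a
  ha : 40 * a ≤ α
  hα : 2 * (m + 2) * α ≤ 1
  hβ : α / 2 + 4 * a ≤ β
  hββ : β ≤ β'
  hβ' : 5 * β' ≤ 3 * α
  hτ : 0 ≤ τ
  meas : MeasurableSet E
  sym : ∀ u ∈ E, -u ∈ E
  bdd : ∀ u ∈ E, ∀ j, |u j| ≤ 2 * R + 3
  cube : ∀ u : Fin d → ℝ, (∀ j, |u j| < 1) → u ∈ N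
  near : ∀ u ∈ N, u ∉ E → Win d i₁ i₂ m α a b u
  near_in : ∀ u, Win d i₁ i₂ m α (a / 2) (b / 2) u → u ∉ E
  far : ∀ u, u ∉ N → (∀ j, |u j| ≤ R) → Nr (m * α) β (u i₁) → Nr ((m + 1) * α) β (u i₂) → u ∈ E
  junk : ∃ (J₁ J₂ : ℝ → Set ℝ) (J₃ : Set ℝ), (∀ t, Thin (m * α) (ε / 2) (J₁ t)) ∧
    (∀ t, Thin ((m + 1) * α) (ε / 2) (J₂ t)) ∧ Thin α (ε / (2 * d)) J₃ ∧
    ∀ u ∈ E, u ∉ (1 + τ) • N → (Nr (m * α) β' (u i₁) ∧ Nr ((m + 1) * α) β' (u i₂)) ∨
      (u i₁ ∈ J₁ (u i₂) ∧ u i₂ ∈ J₂ (u i₁)) ∨ ∃ l, l ≠ i₁ ∧ l ≠ i₂ ∧ u l ∈ J₃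

theorem not_mem_Cub {d : ℕ} {u : Fin d → ℝ} (h : u ∉ OCub d) : ∃ j, 1 ≤ |u j| := by
  by_contra h1
  push Not at h1
  exact h h1

theorem mem_smul_Cub {d : ℕ} {t : ℝ} (ht : 0 < t) {u : Fin d → ℝ} :
    u ∈ t • OCub d ↔ ∀ j, |u j| < t := by
  rw [Set.mem_smul_set_iff_inv_smul_mem₀ ht.ne']
  constructor
  · intro h j
    have h1 : |t⁻¹ * u j| < 1 := h j
    rw [abs_mul, abs_of_pos (inv_pos.mpr ht), inv_mul_lt_iff₀ ht, mul_one] at h1
    exact h1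
  · intro h j
    change |t⁻¹ * u j| < 1
    rw [abs_mul, abs_of_pos (inv_pos.mpr ht), inv_mul_lt_iff₀ ht, mul_one]
    exact h j

theorem not_mem_smul_Cub {d : ℕ} {t : ℝ} (ht : 0 < t) {u : Fin d → ℝ} (h : u ∉ t • OCub d) :
    ∃ j, t ≤ |u j| := by
  by_contra h1
  push Not at h1
  exact h ((mem_smul_Cub ht).mpr h1)

end Pool.Agent.RC
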