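import Pool.Agent.Lib.MP_09cbbd_rc.Cnt
import Pool.Agent.Lib.MP_09cbbd_rc.Geo

/-!
# Rows and columns: from the contents of a cell to ladders
-/

set_option autoImplicit false

namespace Pool.Agent.RC.Bd

open Finset

variable {d : ℕ}

/-- The parameters of a set `E` which satisfies the axioms `Geo`. -/
def prm (i₁ i₂ : Fin d) (m : ℕ) (R α a b β : ℝ) (N E : Set (Fin d → ℝ)) : Prm d where
  i0 := i₁
  i1 := i₂
  α := α
  mA := m
  mB := m + 1
  δA := a
  δB := b
  β := β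
  R := R
  E := E
  N := N

theorem win_of {i₁ i₂ : Fin d} {m : ℕ} {α a b : ℝ} {u : Fin d → ℝ}
    (h : RC.Win d i₁ i₂ m α a b u) : Win i₁ α a m u ∨ Win i₂ α b (m + 1) u := by
  rcases h with ⟨k, h1, h2, h3⟩ | ⟨k, h1, h2, h3⟩
  · left
    refine ⟨k, fun h => by simp [h] at h1, h2, ?_, fun j hj => ?_⟩
    · have := h3 i₁
      rw [if_pos rfl] at this
      exact this.le
    · have := h3 j
      rw [if_neg hj, sub_zero] at this
      exact this.le
  · right
    refine ⟨k, fun h => by simp [h] at h1, by exact_mod_cast h2, ?_, fun j hj => ?_⟩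
    · have := h3 i₂
      rw [if_pos rfl] at this
      exact this.le
    · have := h3 j
      rw [if_neg hj, sub_zero] at this
      exact this.le

theorem ok_of {i₁ i₂ : Fin d} {m : ℕ} {R α a b β β' τ ε : ℝ} {N E : Set (Fin d → ℝ)}
    (h : Geo d i₁ i₂ m R α a b β β' τ ε N E) :
    (prm i₁ i₂ m R α a b β N E).Ok where
  ne := h.ne
  α_pos := by
    show 0 < α
    linarith [h.hb, h.hba, h.ha]
  δA_nonneg := by
    show 0 ≤ a
    linarith [h.hb, h.hba]
  δB_nonneg := h.hb.le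
  small := by
    show 4 * (a + b) < α
    linarith [h.hb, h.hba, h.ha]
  mA_pos := by
    show 0 < m
    have := h.hm
    omega
  mB_pos := Nat.succ_pos m
  βA := by
    show α / 2 + 3 * a + b ≤ β
    linarith [h.hba, h.hβ]
  βB := by
    show α / 2 + a + 3 * b ≤ β
    linarith [h.hba, h.hβ]
  E_neg := h.sym
  near := by
    intro u hu hE
    exact win_of (h.near u hu hE)
  far := by
    intro u h1 h2 h3 h5
    refine h.far u h1 (fun j => ?_) h3 ?_
    · have := norm_le_pi_norm u j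
      rw [Real.norm_eq_abs] at this
      exact this.trans h2
    · obtain ⟨n, hn⟩ := h5
      refine ⟨n, ?_⟩
      change |u i₂ - n * (((m + 1 : ℕ) : ℝ) * α)| ≤ β at hn
      push_cast at hn
      exact hn

/-- The beads `x` are the beads of the ladder `L`. -/
structure Beads {ι : Type*} (x : ι → Fin d → ℝ) (L : Lad d) : Prop where
  hits : ∀ a, ∃ k ∈ L.S, L.p k = x a
  bead : ∀ k ∈ L.S, ∃ a, L.p k = x a

/-- A family of beads whose differences are in the windows of direction `i` is a ladder. -/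
theorem exists_lad {i : Fin d} {α δ : ℝ} {m : ℕ} (hα : 0 < α) (hδ : 0 ≤ δ) (h3 : 3 * δ < α)
    (hm : 0 < m) {ι : Type*} [Fintype ι] [Nonempty ι] (x : ι → Fin d → ℝ)
    (hx : ∀ a b, a ≠ b → Win i α δ m (x a - x b)) :
    ∃ L : Lad d, L.Is i α δ m ∧ L.S.card = Fintype.card ι ∧ Beads x L ∧ ∃ o, L.b = x o := by
  classical
  obtain ⟨o, k, -, hinj, hlt, hmain, hoth⟩ := slots hα hδ h3 hm x hx
  let p : ℕ → Fin d → ℝ := fun s => if h : ∃ a, k a = s then x h.choose else 0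
  have hp : ∀ a, p (k a) = x a := by
    intro a
    have h : ∃ b, k b = k a := ⟨a, rfl⟩
    show (if h : ∃ b, k b = k a then x h.choose else 0) = x a
    rw [dif_pos h]
    exact congrArg x (hinj h.choose_spec)
  refine ⟨⟨x o, univ.image k, p⟩, ⟨?_, ?_, ?_⟩, ?_, ⟨?_, ?_⟩, o, rfl⟩
  · intro s hs
    obtain ⟨a, -, rfl⟩ := mem_image.1 hs
    exact hlt a
  · intro s hs
    obtain ⟨a, -, rfl⟩ := mem_image.1 hs
    show |p (k a) i - x o i - k a * α| ≤ δ
    rw [hp]
    exact hmain a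
  · intro s hs j hj
    obtain ⟨a, -, rfl⟩ := mem_image.1 hs
    show |p (k a) j - x o j| ≤ δ
    rw [hp]
    exact hoth a j hj
  · show (univ.image k).card = _
    rw [card_image_of_injective _ hinj, card_univ]
  · exact fun a => ⟨k a, mem_image.2 ⟨a, mem_univ a, rfl⟩, hp a⟩
  · intro s hs
    obtain ⟨a, -, rfl⟩ := mem_image.1 hs
    exact ⟨a, hp a⟩

/-- At most `m` beads. -/
theorem card_le {i : Fin d} {α δ : ℝ} {m : ℕ} (hα : 0 < α) (hδ : 0 ≤ δ) (h3 : 3 * δ < α)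
    (hm : 0 < m) {ι : Type*} [Fintype ι] (x : ι → Fin d → ℝ)
    (hx : ∀ a b, a ≠ b → Win i α δ m (x a - x b)) : Fintype.card ι ≤ m := by
  classical
  rcases isEmpty_or_nonempty ι with h | h
  · rw [Fintype.card_eq_zero]
    exact Nat.zero_le _
  obtain ⟨L, hL, hc, -, -⟩ := exists_lad hα hδ h3 hm x hx
  rw [← hc]
  have : L.S ⊆ range m := fun k hk => mem_range.2 (hL.lt k hk)
  simpa using card_le_card this

/-- The count for families of beads. -/
theorem count_beads {P : Prm d} (hP : P.Ok) {ι κ : Type*} (A : Finset ι) (B : Finset κ)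
    {σ : ι → Type*} {τ : κ → Type*} [∀ a, Fintype (σ a)] [∀ b, Fintype (τ b)]
    (x : (a : ι) → σ a → Fin d → ℝ) (y : (b : κ) → τ b → Fin d → ℝ)
    (hx : ∀ a ∈ A, ∀ s t, s ≠ t → Win P.i0 P.α P.δA P.mA (x a s - x a t))
    (hy : ∀ b ∈ B, ∀ s t, s ≠ t → Win P.i1 P.α P.δB P.mB (y b s - y b t))
    (hxc : ∀ a ∈ A, P.mA < 2 * Fintype.card (σ a))
    (hyc : ∀ b ∈ B, P.mB < 2 * Fintype.card (τ b))
    (hxx : ∀ a ∈ A, ∀ b ∈ A, a ≠ b → ∀ s t, x a s - x b t ∉ P.N ∧
      ‖x a s - x b t‖ ≤ P.R ∧ x a s - x b t ∉ P.E)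
    (hyy : ∀ a ∈ B, ∀ b ∈ B, a ≠ b → ∀ s t, y a s - y b t ∉ P.N ∧
      ‖y a s - y b t‖ ≤ P.R ∧ y a s - y b t ∉ P.E)
    (hxy : ∀ a ∈ A, ∀ b ∈ B, ∀ s t, x a s - y b t ∉ P.N ∧
      ‖x a s - y b t‖ ≤ P.R ∧ x a s - y b t ∉ P.E) :
    A.card * B.card ≤ 2 * (∑ a ∈ A, (P.mA - Fintype.card (σ a)) +
      ∑ b ∈ B, (P.mB - Fintype.card (τ b))) := by
  classical
  have hα := hP.α_pos
  have hA := hP.δA_nonneg
  have hB := hP.δB_nonneg
  have hs := hP.small
  have hmA := hP.mA_pos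
  have hmB := hP.mB_pos
  have hX : ∀ a : ι, ∃ L : Lad d, a ∈ A → L.Is P.i0 P.α P.δA P.mA ∧
      L.S.card = Fintype.card (σ a) ∧ Beads (x a) L := by
    intro a
    by_cases ha : a ∈ A
    · have : Nonempty (σ a) := by
        rw [← Fintype.card_pos_iff]
        have := hxc a ha
        omega
      obtain ⟨L, h1, h2, h3, -⟩ := exists_lad hα hA (by linarith) hmA (x a) (hx a ha)
      exact ⟨L, fun _ => ⟨h1, h2, h3⟩⟩
    · exact ⟨⟨0, ∅, fun _ => 0⟩, fun h => absurd h ha⟩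
  have hY : ∀ b : κ, ∃ L : Lad d, b ∈ B → L.Is P.i1 P.α P.δB P.mB ∧
      L.S.card = Fintype.card (τ b) ∧ Beads (y b) L := by
    intro b
    by_cases hb : b ∈ B
    · have : Nonempty (τ b) := by
        rw [← Fintype.card_pos_iff]
        have := hyc b hb
        omega
      obtain ⟨L, h1, h2, h3, -⟩ := exists_lad hα hB (by linarith) hmB (y b) (hy b hb)
      exact ⟨L, fun _ => ⟨h1, h2, h3⟩⟩
    · exact ⟨⟨0, ∅, fun _ => 0⟩, fun h => absurd h hb⟩
  choose X hX using hX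
  choose Y hY using hY
  have h := count hP A B X Y (fun a ha => (hX a ha).1) (fun b hb => (hY b hb).1)
    (fun a ha => by rw [(hX a ha).2.1]; exact hxc a ha)
    (fun b hb => by rw [(hY b hb).2.1]; exact hyc b hb)
    (fun a ha b hb hab k hk l hl => by
      obtain ⟨s, hs⟩ := (hX a ha).2.2.bead k hk
      obtain ⟨t, ht⟩ := (hX b hb).2.2.bead l hl
      rw [hs, ht]
      exact hxx a ha b hb hab s t)
    (fun a ha b hb hab k hk l hl => by
      obtain ⟨s, hs⟩ := (hY a ha).2.2.bead k hk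
      obtain ⟨t, ht⟩ := (hY b hb).2.2.bead l hl
      rw [hs, ht]
      exact hyy a ha b hb hab s t)
    (fun a ha b hb k hk l hl => by
      obtain ⟨s, hs⟩ := (hX a ha).2.2.bead k hk
      obtain ⟨t, ht⟩ := (hY b hb).2.2.bead l hl
      rw [hs, ht]
      exact hxy a ha b hb s t)
  have e1 : ∑ a ∈ A, (P.mA - (X a).S.card) = ∑ a ∈ A, (P.mA - Fintype.card (σ a)) :=
    sum_congr rfl fun a ha => by rw [(hX a ha).2.1]
  have e2 : ∑ b ∈ B, (P.mB - (Y b).S.card) = ∑ b ∈ B, (P.mB - Fintype.card (τ b)) :=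
    sum_congr rfl fun b hb => by rw [(hY b hb).2.1]
  rwa [e1, e2] at h

end Pool.Agent.RC.Bd
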