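import Pool.Agent.Lib.MP_09cbbd_ex.Mod
import Pool.Agent.Lib.MP_09cbbd_rc.Lad

/-!
# Masses of the contents of a cell
-/

set_option autoImplicit false

namespace Pool.Agent.RC.Cell

open MeasureTheory Finset

variable {d : ℕ}

/-! ### Volumes of families of beads near a translated pattern -/

/-- the cube -/
theorem vol_cube (c : Fin d → ℝ) (r : ℝ) :
    volume {x : Fin d → ℝ | ∀ j, |x j - c j| ≤ r} = ENNReal.ofReal (2 * r) ^ d := by
  have e : {x : Fin d → ℝ | ∀ j, |x j - c j| ≤ r} =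
      Set.pi Set.univ fun j => Set.Icc (c j - r) (c j + r) := by
    ext x
    simp only [Set.mem_ofPred_eq, Set.mem_pi, Set.mem_univ, true_implies, Set.mem_Icc]
    refine forall_congr' fun j => ?_
    rw [abs_le]
    constructor
    · rintro ⟨h1, h2⟩
      exact ⟨by linarith, by linarith⟩
    · rintro ⟨h1, h2⟩
      exact ⟨by linarith, by linarith⟩
  rw [e, volume_pi_pi]
  have h : ∀ j : Fin d, volume (Set.Icc (c j - r) (c j + r)) = ENNReal.ofReal (2 * r) := by
    intro j
    rw [Real.volume_Icc]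
    congr 1
    ring
  rw [Finset.prod_congr rfl fun j _ => h j, prod_const, card_univ, Fintype.card_fin]

/-- Beads `1, …, n` near `bead 0 + c i`, and bead `0` in `S`. -/
def star (n : ℕ) (S : Set (Fin d → ℝ)) (c : Fin n → Fin d → ℝ) (r : ℝ) :
    Set (Fin (n + 1) → Fin d → ℝ) :=
  {u | u 0 ∈ S ∧ ∀ i : Fin n, ∀ j, |u i.succ j - u 0 j - c i j| ≤ r}

theorem meas_star (n : ℕ) {S : Set (Fin d → ℝ)} (hS : MeasurableSet S) (c : Fin n → Fin d → ℝ)
    (r : ℝ) : MeasurableSet (star n S c r) := by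
  have e : star n S c r = (fun u : Fin (n + 1) → Fin d → ℝ => u 0) ⁻¹' S ∩
      ⋂ i : Fin n, ⋂ j : Fin d, {u : Fin (n + 1) → Fin d → ℝ |
        |u i.succ j - u 0 j - c i j| ≤ r} := by
    ext u
    simp [star]
  rw [e]
  refine ((measurable_pi_apply 0) hS).inter (MeasurableSet.iInter fun i =>
    MeasurableSet.iInter fun j => ?_)
  have h1 : ∀ l : Fin (n + 1), Measurable fun u : Fin (n + 1) → Fin d → ℝ => u l j := fun l =>
    (measurable_pi_apply j).comp (measurable_pi_apply l)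
  exact measurableSet_le (continuous_abs.measurable.comp (((h1 _).sub (h1 _)).sub_const _))
    measurable_const

theorem vol_star (n : ℕ) {S : Set (Fin d → ℝ)} (hS : MeasurableSet S) (c : Fin n → Fin d → ℝ)
    (r : ℝ) : volume (star n S c r) = volume S * (ENNReal.ofReal (2 * r) ^ d) ^ n := by
  have hmp := volume_preserving_piFinSuccAbove (fun _ : Fin (n + 1) => Fin d → ℝ) 0
  set e := MeasurableEquiv.piFinSuccAbove (fun _ : Fin (n + 1) => Fin d → ℝ) 0 with he
  set S' : Set ((Fin d → ℝ) × (Fin n → Fin d → ℝ)) :=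
    {p | p.1 ∈ S ∧ ∀ i : Fin n, ∀ j, |p.2 i j - p.1 j - c i j| ≤ r} with hS'
  have h1 : star n S c r = e ⁻¹' S' := by
    ext u
    simp [star, hS', he, MeasurableEquiv.piFinSuccAbove, Fin.insertNthEquiv, Fin.tail]
  have hm' : MeasurableSet S' := by
    have e3 : S' = Prod.fst ⁻¹' S ∩ ⋂ i : Fin n, ⋂ j : Fin d,
        {p : (Fin d → ℝ) × (Fin n → Fin d → ℝ) | |p.2 i j - p.1 j - c i j| ≤ r} := by
      ext p
      simp [hS']
    rw [e3]
    refine (measurable_fst hS).inter (MeasurableSet.iInter fun i => MeasurableSet.iInter fun j => ?_)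
    have g1 : Measurable fun p : (Fin d → ℝ) × (Fin n → Fin d → ℝ) => p.2 i j :=
      (measurable_pi_apply j).comp ((measurable_pi_apply i).comp measurable_snd)
    have g2 : Measurable fun p : (Fin d → ℝ) × (Fin n → Fin d → ℝ) => p.1 j :=
      (measurable_pi_apply j).comp measurable_fst
    exact measurableSet_le (continuous_abs.measurable.comp ((g1.sub g2).sub_const _))
      measurable_const
  rw [h1, hmp.measure_preimage hm'.nullMeasurableSet, Measure.volume_eq_prod,
    Measure.prod_apply hm']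
  have h2 : ∀ x : Fin d → ℝ, volume (Prod.mk x ⁻¹' S') =
      S.indicator (fun _ => (ENNReal.ofReal (2 * r) ^ d) ^ n) x := by
    intro x
    by_cases hx : x ∈ S
    · rw [Set.indicator_of_mem hx]
      have e4 : Prod.mk x ⁻¹' S' = Set.pi Set.univ fun i : Fin n =>
          {y : Fin d → ℝ | ∀ j, |y j - (x j + c i j)| ≤ r} := by
        ext v
        simp only [hS', Set.mem_preimage, Set.mem_ofPred_eq, Set.mem_pi, Set.mem_univ,
          true_implies, hx, true_and]
        refine forall_congr' fun i => forall_congr' fun j => ?_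
        rw [sub_sub]
      rw [e4, volume_pi_pi, Finset.prod_congr rfl fun i _ => vol_cube (fun j => x j + c i j) r,
        prod_const, card_univ, Fintype.card_fin]
    · rw [Set.indicator_of_notMem hx]
      have e4 : Prod.mk x ⁻¹' S' = ∅ := by
        ext v
        simp [hS', hx]
      rw [e4, measure_empty]
  rw [lintegral_congr h2, lintegral_indicator hS, setLIntegral_const, mul_comm]

/-- Beads near the pattern `bead 0 + k v`, `|k| < M`: upper bound of the volume. -/
theorem vol_pat_le (n M : ℕ) {S : Set (Fin d → ℝ)} (hS : MeasurableSet S) (v : Fin d → ℝ)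
    (r : ℝ) : volume {u : Fin (n + 1) → Fin d → ℝ | u 0 ∈ S ∧ ∀ i : Fin n, ∃ k : ℤ, |k| < M ∧
      ∀ j, |u i.succ j - u 0 j - k * v j| ≤ r} ≤
      (2 * M) ^ n * (volume S * (ENNReal.ofReal (2 * r) ^ d) ^ n) := by
  classical
  set K : Finset (Fin n → ℤ) := Fintype.piFinset fun _ => Finset.Ioo (-(M : ℤ)) M with hK
  have h1 : {u : Fin (n + 1) → Fin d → ℝ | u 0 ∈ S ∧ ∀ i : Fin n, ∃ k : ℤ, |k| < M ∧
      ∀ j, |u i.succ j - u 0 j - k * v j| ≤ r} ⊆
      ⋃ κ ∈ K, star n S (fun i j => (κ i : ℝ) * v j) r := by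
    rintro u ⟨h0, h⟩
    choose κ hκ using h
    rw [Set.mem_iUnion₂]
    refine ⟨κ, ?_, h0, fun i j => (hκ i).2 j⟩
    rw [hK, Fintype.mem_piFinset]
    intro i
    rw [Finset.mem_Ioo]
    exact abs_lt.1 (hκ i).1
  refine (measure_mono h1).trans ((measure_biUnion_finset_le _ _).trans ?_)
  rw [Finset.sum_congr rfl fun κ _ => vol_star n hS (fun i j => (κ i : ℝ) * v j) r, sum_const,
    nsmul_eq_mul]
  refine mul_le_mul' ?_ le_rfl
  have hc : K.card ≤ (2 * M) ^ n := by
    rw [hK, Fintype.card_piFinset, prod_const, card_univ, Fintype.card_fin, Int.card_Ioo]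
    refine Nat.pow_le_pow_left ?_ n
    omega
  calc (K.card : ENNReal) ≤ (((2 * M) ^ n : ℕ) : ENNReal) := by exact_mod_cast hc
    _ = _ := by push_cast; rfl

/-- The beads `1, …, n` are in windows of direction `i` round bead `0`. -/
def Dir (i : Fin d) (α δ : ℝ) (M : ℕ) (n : ℕ) (S : Set (Fin d → ℝ)) :
    Set (Fin (n + 1) → Fin d → ℝ) :=
  {u | u 0 ∈ S ∧ ∀ l : Fin n, Bd.Win i α δ M (u l.succ - u 0)}

theorem vol_Dir_le (i : Fin d) (α δ : ℝ) (M : ℕ) (n : ℕ) {S : Set (Fin d → ℝ)}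
    (hS : MeasurableSet S) : volume (Dir i α δ M n S) ≤
      (2 * M) ^ n * (volume S * (ENNReal.ofReal (2 * δ) ^ d) ^ n) := by
  refine le_trans (measure_mono ?_) (vol_pat_le n M hS (fun j => if j = i then α else 0) δ)
  rintro u ⟨h0, h⟩
  refine ⟨h0, fun l => ?_⟩
  obtain ⟨k, -, h2, h3, h4⟩ := h l
  refine ⟨k, h2, fun j => ?_⟩
  by_cases hj : j = i
  · subst hj
    rw [if_pos rfl]
    exact h3
  · rw [if_neg hj, mul_zero, sub_zero]
    exact h4 j hj

/-! ### Contents -/

open Pool.Agent.Exg Pool.Agent.Mix Pool.Agent.SquareWell Pool.Agent.ExGas Pool.Agent.SquareWellGas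
  Pool.Agent.StableGas

/-- All differences of beads are in the windows of direction `i`. -/
def InDir (i : Fin d) (α δ : ℝ) (M : ℕ) (x : Ct (Fin d → ℝ)) : Prop :=
  ∀ k, k < x.1 → ∀ l, l < x.1 → k ≠ l → Bd.Win i α δ M (x.2 k - x.2 l)

/-- The beads of the content. -/
def bd (x : Ct (Fin d → ℝ)) (k : Fin x.1) : Fin d → ℝ := x.2 k

variable {i₁ i₂ : Fin d} {m : ℕ} {R α a b β β' τ ε : ℝ} {N E : Set (Fin d → ℝ)}

/-- A content is a row or a column. -/
theorem dir (hG : Geo d i₁ i₂ m R α a b β β' τ ε N E) {x : Ct (Fin d → ℝ)} (hx : Vx E x) :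
    InDir i₁ α a m x ∨ InDir i₂ α b (m + 1) x := by
  have h := Bd.row_or_col (P := Bd.prm i₁ i₂ m R α a b β N E) (Bd.ok_of hG) (bd x)
    (fun k l hkl => hx.2 k k.2 l l.2 fun h => hkl (Fin.ext h)) (fun k l => by
      show bd x k - bd x l ∈ N
      refine hG.cube _ fun j => ?_
      have h1 := hx.1 k k.2 j
      have h2 := hx.1 l l.2 j
      rw [abs_lt, Pi.sub_apply]
      rw [Set.mem_Ico] at h1 h2
      unfold bd
      constructor <;> linarith)
  rcases h with h | h
  · left
    intro k hk l hl hkl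
    exact h ⟨k, hk⟩ ⟨l, hl⟩ fun e => hkl (congrArg Fin.val e)
  · right
    intro k hk l hl hkl
    exact h ⟨k, hk⟩ ⟨l, hl⟩ fun e => hkl (congrArg Fin.val e)

theorem card_row (hG : Geo d i₁ i₂ m R α a b β β' τ ε N E) {x : Ct (Fin d → ℝ)}
    (hx : InDir i₁ α a m x) : x.1 ≤ m := by
  have h1 := hG.hb
  have h2 := hG.hba
  have h3 := hG.ha
  have h := Bd.card_le (i := i₁) (α := α) (δ := a) (m := m) (by linarith) (by linarith)
    (by linarith) (by have := hG.hm; omega) (bd x) fun k l hkl =>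
      hx k k.2 l l.2 fun h => hkl (Fin.ext h)
  simpa using h

theorem card_col (hG : Geo d i₁ i₂ m R α a b β β' τ ε N E) {x : Ct (Fin d → ℝ)}
    (hx : InDir i₂ α b (m + 1) x) : x.1 ≤ m + 1 := by
  have h1 := hG.hb
  have h2 := hG.hba
  have h3 := hG.ha
  have h := Bd.card_le (i := i₂) (α := α) (δ := b) (m := m + 1) (by linarith) (by linarith)
    (by linarith) (by omega) (bd x) fun k l hkl =>
      hx k k.2 l l.2 fun h => hkl (Fin.ext h)
  simpa using h

/-- **Upper bound of integrals over the contents of a cell.** -/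
theorem lint_le (hG : Geo d i₁ i₂ m R α a b β β' τ ε N E) {F : Ct (Fin d → ℝ) → ENNReal}
    (hF : Measurable F) {S : Set (Fin d → ℝ)} (hS : MeasurableSet S) (f g : ℕ → ENNReal)
    (hFS : ∀ x, Vx E x → x.1 ≠ 0 → F x ≠ 0 → x.2 0 ∈ S)
    (hf : ∀ x, Vx E x → x.1 ≠ 0 → InDir i₁ α a m x → F x ≤ f x.1)
    (hg : ∀ x, Vx E x → x.1 ≠ 0 → InDir i₂ α b (m + 1) x → F x ≤ g x.1) :
    ∫⁻ x, F x ∂(sys hG.meas).pg ≤ F e0 +
      (∑ n ∈ range m, f (n + 1) * ((2 * m) ^ n * (volume S * (ENNReal.ofReal (2 * a) ^ d) ^ n)) +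
      ∑ n ∈ range (m + 1), g (n + 1) *
        ((2 * (m + 1)) ^ n * (volume S * (ENNReal.ofReal (2 * b) ^ d) ^ n))) := by
  rw [lint_pg hG.meas hF, tsum_eq_zero_add' ENNReal.summable]
  refine add_le_add ?_ ?_
  · have e1 : ∀ u : Fin 0 → Fin d → ℝ, F (Ct.pad (0 : Fin d → ℝ) u) = F e0 := fun u => by
      rw [pad_zero_eq]
    rw [lintegral_congr e1, setLIntegral_const, Nat.factorial_zero, Nat.cast_one, inv_one, one_mul]
    have h1 : volume (Cf E (Fin 0) (Box d 1)) ≤ 1 := by
      refine (volume_Cf_le (E := E) 0 (Box d 1)).trans ?_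
      rw [pow_zero]
    calc F e0 * volume (Cf E (Fin 0) (Box d 1)) ≤ F e0 * 1 := mul_le_mul' le_rfl h1
      _ = F e0 := mul_one _
  · have key : ∀ n : ℕ, (((n + 1).factorial : ENNReal))⁻¹ *
        ∫⁻ u in Cf E (Fin (n + 1)) (Box d 1), F (Ct.pad (0 : Fin d → ℝ) u) ≤
        (if n < m then f (n + 1) * ((2 * m) ^ n *
          (volume S * (ENNReal.ofReal (2 * a) ^ d) ^ n)) else 0) +
        (if n < m + 1 then g (n + 1) * ((2 * (m + 1)) ^ n *
          (volume S * (ENNReal.ofReal (2 * b) ^ d) ^ n)) else 0) := by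
      intro n
      have h1 : (((n + 1).factorial : ENNReal))⁻¹ ≤ 1 := by
        rw [ENNReal.inv_le_one]
        exact_mod_cast Nat.one_le_iff_ne_zero.2 (Nat.factorial_ne_zero _)
      refine le_trans (mul_le_mul' h1 le_rfl) ?_
      rw [one_mul]
      have hpt : ∀ u ∈ Cf E (Fin (n + 1)) (Box d 1), F (Ct.pad (0 : Fin d → ℝ) u) ≤
          (Dir i₁ α a m n S).indicator (fun _ => if n < m then f (n + 1) else 0) u +
          (Dir i₂ α b (m + 1) n S).indicator (fun _ => if n < m + 1 then g (n + 1) else 0) u := by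
        intro u hu
        have hx : Vx E (Ct.pad (0 : Fin d → ℝ) u) := (Vx_pad_iff u).2 hu
        have hn : (Ct.pad (0 : Fin d → ℝ) u).1 ≠ 0 := Nat.succ_ne_zero n
        by_cases h0 : F (Ct.pad (0 : Fin d → ℝ) u) = 0
        · rw [h0]
          exact zero_le
        have hSu : u 0 ∈ S := by
          have := hFS _ hx hn h0
          rwa [show (Ct.pad (0 : Fin d → ℝ) u).2 0 = u 0 from Ct.pad_snd _ u 0] at this
        rcases dir hG hx with hr | hc
        · have hc := card_row hG hr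
          have hnm : n < m := hc
          have hmem : u ∈ Dir i₁ α a m n S := by
            refine ⟨hSu, fun l => ?_⟩
            have := hr l.succ l.succ.2 0 (Nat.succ_pos n) (Nat.succ_ne_zero l)
            rw [Ct.pad_snd _ u l.succ, show (Ct.pad (0 : Fin d → ℝ) u).2 0 = u 0 from
              Ct.pad_snd _ u 0] at this
            exact this
          rw [Set.indicator_of_mem hmem, if_pos hnm]
          exact (hf _ hx hn hr).trans le_self_add
        · have hc' := card_col hG hc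
          have hnm : n < m + 1 := hc'
          have hmem : u ∈ Dir i₂ α b (m + 1) n S := by
            refine ⟨hSu, fun l => ?_⟩
            have := hc l.succ l.succ.2 0 (Nat.succ_pos n) (Nat.succ_ne_zero l)
            rw [Ct.pad_snd _ u l.succ, show (Ct.pad (0 : Fin d → ℝ) u).2 0 = u 0 from
              Ct.pad_snd _ u 0] at this
            exact this
          rw [Set.indicator_of_mem hmem, if_pos hnm]
          exact (hg _ hx hn hc).trans le_add_self
      obtain ⟨A, hA⟩ : ∃ A, A = toMeasurable volume (Dir i₁ α a m n S) := ⟨_, rfl⟩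
      obtain ⟨B, hB⟩ : ∃ B, B = toMeasurable volume (Dir i₂ α b (m + 1) n S) := ⟨_, rfl⟩
      have mA : MeasurableSet A := by rw [hA]; exact measurableSet_toMeasurable _ _
      have mB : MeasurableSet B := by rw [hB]; exact measurableSet_toMeasurable _ _
      have vA : volume A = volume (Dir i₁ α a m n S) := by rw [hA]; exact measure_toMeasurable _
      have vB : volume B = volume (Dir i₂ α b (m + 1) n S) := by
        rw [hB]
        exact measure_toMeasurable _
      have sA : Dir i₁ α a m n S ⊆ A := by rw [hA]; exact subset_toMeasurable _ _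
      have sB : Dir i₂ α b (m + 1) n S ⊆ B := by rw [hB]; exact subset_toMeasurable _ _
      have h2 : ∫⁻ u in Cf E (Fin (n + 1)) (Box d 1), F (Ct.pad (0 : Fin d → ℝ) u) ≤
          ∫⁻ u, (A.indicator (fun _ => if n < m then f (n + 1) else 0) u +
            B.indicator (fun _ => if n < m + 1 then g (n + 1) else 0) u) := by
        refine (setLIntegral_mono' (measurableSet_Cf hG.meas (CanM.measurableSet_Box 1))
          (fun u hu => (hpt u hu).trans (add_le_add ?_ ?_))).trans
          (setLIntegral_le_lintegral _ _)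
        · exact Set.indicator_le_indicator_of_subset sA (fun _ => zero_le) u
        · exact Set.indicator_le_indicator_of_subset sB (fun _ => zero_le) u
      refine h2.trans ?_
      rw [lintegral_add_left (measurable_const.indicator mA), lintegral_indicator_const mA,
        lintegral_indicator_const mB, vA, vB]
      refine add_le_add ?_ ?_
      · split_ifs with h3
        · exact mul_le_mul' le_rfl (vol_Dir_le i₁ α a m n hS)
        · rw [zero_mul]
      · split_ifs with h3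
        · refine mul_le_mul' le_rfl ((vol_Dir_le i₂ α b (m + 1) n hS).trans (le_of_eq ?_))
          push_cast
          rfl
        · rw [zero_mul]
    refine (ENNReal.tsum_le_tsum key).trans ?_
    rw [ENNReal.tsum_add]
    refine add_le_add ?_ ?_
    · rw [tsum_eq_sum (s := range m)]
      · refine sum_le_sum fun n hn => ?_
        rw [if_pos (mem_range.1 hn)]
      · intro n hn
        rw [if_neg (by simpa using hn)]
    · rw [tsum_eq_sum (s := range (m + 1))]
      · refine sum_le_sum fun n hn => ?_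
        rw [if_pos (mem_range.1 hn)]
      · intro n hn
        rw [if_neg (by simpa using hn)]

theorem ofReal_pow_eq {a : ℝ} (ha : 0 < a) (n : ℕ) :
    (ENNReal.ofReal (2 * a) ^ d) ^ n = ex (n * (d * Real.log (2 * a))) := by
  have h : ENNReal.ofReal (2 * a) = ex (Real.log (2 * a)) := by
    unfold ex
    rw [Real.exp_log (by positivity)]
  rw [h, ex_pow, ex_pow]

/-- **Upper bound of integrals over the contents of a cell, exponential form.** -/
theorem lint_ex (hG : Geo d i₁ i₂ m R α a b β β' τ ε N E) {F : Ct (Fin d → ℝ) → ENNReal}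
    (hF : Measurable F) {S : Set (Fin d → ℝ)} (hS : MeasurableSet S) {ζ X : ℝ} {eA eB : ℕ → ℝ}
    (hFS : ∀ x, Vx E x → x.1 ≠ 0 → F x ≠ 0 → x.2 0 ∈ S)
    (hf : ∀ x, Vx E x → x.1 ≠ 0 → InDir i₁ α a m x → F x ≤ ex (ζ * x.1 + eA x.1))
    (hg : ∀ x, Vx E x → x.1 ≠ 0 → InDir i₂ α b (m + 1) x → F x ≤ ex (ζ * x.1 + eB x.1))
    (hA : ∀ n : ℕ, n < m → ζ * (n + 1 : ℕ) + eA (n + 1) + n * (d * Real.log (2 * a)) ≤ X)
    (hB : ∀ n : ℕ, n < m + 1 → ζ * (n + 1 : ℕ) + eB (n + 1) + n * (d * Real.log (2 * b)) ≤ X) :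
    ∫⁻ x, F x ∂(sys hG.meas).pg ≤ F e0 + (2 * (m + 1)) ^ (m + 1) * (volume S * ex X) := by
  have ha : 0 < a := hG.hb.trans_le hG.hba
  refine (lint_le hG hF hS (fun n => ex (ζ * n + eA n)) (fun n => ex (ζ * n + eB n)) hFS hf
    hg).trans (add_le_add le_rfl ?_)
  have h1 : ∀ n ∈ range m, ex (ζ * (n + 1 : ℕ) + eA (n + 1)) * ((2 * (m : ENNReal)) ^ n *
      (volume S * (ENNReal.ofReal (2 * a) ^ d) ^ n)) ≤
      (2 * (m + 1)) ^ m * (volume S * ex X) := by
    intro n hn
    rw [mem_range] at hn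
    rw [ofReal_pow_eq ha]
    calc ex (ζ * (n + 1 : ℕ) + eA (n + 1)) * ((2 * (m : ENNReal)) ^ n *
          (volume S * ex (n * (d * Real.log (2 * a)))))
        = (2 * (m : ENNReal)) ^ n * (volume S * (ex (ζ * (n + 1 : ℕ) + eA (n + 1)) *
          ex (n * (d * Real.log (2 * a))))) := by ring
      _ ≤ (2 * (m + 1)) ^ m * (volume S * ex X) := by
          refine mul_le_mul' ?_ (mul_le_mul' le_rfl ?_)
          · calc (2 * (m : ENNReal)) ^ n ≤ (2 * (m + 1)) ^ n := by
                  refine pow_le_pow_left' (mul_le_mul' le_rfl le_self_add) n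
              _ ≤ _ := by
                  refine pow_le_pow_right₀ ?_ hn.le
                  calc (1 : ENNReal) ≤ 2 * 1 := by norm_num
                    _ ≤ 2 * (m + 1) := mul_le_mul' le_rfl le_add_self
          · rw [← ex_add]
            exact ex_le_ex.2 (hA n hn)
  have h2 : ∀ n ∈ range (m + 1), ex (ζ * (n + 1 : ℕ) + eB (n + 1)) *
      ((2 * ((m : ENNReal) + 1)) ^ n * (volume S * (ENNReal.ofReal (2 * b) ^ d) ^ n)) ≤
      (2 * (m + 1)) ^ m * (volume S * ex X) := by
    intro n hn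
    rw [mem_range] at hn
    rw [ofReal_pow_eq hG.hb]
    calc ex (ζ * (n + 1 : ℕ) + eB (n + 1)) * ((2 * ((m : ENNReal) + 1)) ^ n *
          (volume S * ex (n * (d * Real.log (2 * b)))))
        = (2 * ((m : ENNReal) + 1)) ^ n * (volume S * (ex (ζ * (n + 1 : ℕ) + eB (n + 1)) *
          ex (n * (d * Real.log (2 * b))))) := by ring
      _ ≤ (2 * (m + 1)) ^ m * (volume S * ex X) := by
          refine mul_le_mul' ?_ (mul_le_mul' le_rfl ?_)
          · refine pow_le_pow_right₀ ?_ (by omega)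
            calc (1 : ENNReal) ≤ 2 * 1 := by norm_num
              _ ≤ 2 * (m + 1) := mul_le_mul' le_rfl le_add_self
          · rw [← ex_add]
            exact ex_le_ex.2 (hB n hn)
  refine (add_le_add (sum_le_sum h1) (sum_le_sum h2)).trans ?_
  rw [sum_const, sum_const, card_range, card_range, nsmul_eq_mul, nsmul_eq_mul, ← add_mul]
  calc ((m : ENNReal) + ((m + 1 : ℕ) : ENNReal)) * ((2 * (m + 1)) ^ m * (volume S * ex X))
      ≤ (2 * (m + 1)) * ((2 * (m + 1)) ^ m * (volume S * ex X)) := by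
        refine mul_le_mul' ?_ le_rfl
        push_cast
        calc (m : ENNReal) + (m + 1) ≤ (m + 1) + (m + 1) := add_le_add le_self_add le_rfl
          _ = 2 * (m + 1) := by ring
    _ = _ := by rw [← mul_assoc, ← pow_succ']

/-- The parameters of the masses: `λ` bounds the weight of a bead from below, `X` bounds the weight
of a full molecule. -/
structure Par (d m : ℕ) (a b ζ lam X : ℝ) : Prop where
  lam0 : 0 ≤ lam
  lamA : lam ≤ ζ + d * Real.log (2 * a)
  lamB : lam ≤ ζ + d * Real.log (2 * b)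
  muA : m * ζ + (m - 1) * (d * Real.log (2 * a)) ≤ X
  muB : (m + 1) * ζ + m * (d * Real.log (2 * b)) ≤ X

theorem Par.row {ζ lam X : ℝ} (h : Par d m a b ζ lam X) {n : ℕ} (hn : n < m) {e : ℝ}
    (he : e ≤ lam * (m - (n + 1 : ℕ))) :
    ζ * (n + 1 : ℕ) + e + n * (d * Real.log (2 * a)) ≤ X := by
  have h1 := h.muA
  have h2 := h.lamA
  have h3 : (0 : ℝ) ≤ m - (n + 1 : ℕ) := by
    rw [sub_nonneg]
    exact_mod_cast hn
  have h4 := mul_le_mul_of_nonneg_right h2 h3
  have e1 : (m : ℝ) * ζ + (m - 1) * (d * Real.log (2 * a)) =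
      ζ * (n + 1 : ℕ) + (ζ + d * Real.log (2 * a)) * (m - (n + 1 : ℕ)) +
        n * (d * Real.log (2 * a)) := by
    push_cast
    ring
  linarith

theorem Par.col {ζ lam X : ℝ} (h : Par d m a b ζ lam X) {n : ℕ} (hn : n < m + 1) {e : ℝ}
    (he : e ≤ lam * (m + 1 - (n + 1 : ℕ))) :
    ζ * (n + 1 : ℕ) + e + n * (d * Real.log (2 * b)) ≤ X := by
  have h1 := h.muB
  have h2 := h.lamB
  have h3 : (0 : ℝ) ≤ m + 1 - (n + 1 : ℕ) := by
    rw [sub_nonneg]
    exact_mod_cast hn
  have h4 := mul_le_mul_of_nonneg_right h2 h3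
  have e1 : ((m : ℝ) + 1) * ζ + m * (d * Real.log (2 * b)) =
      ζ * (n + 1 : ℕ) + (ζ + d * Real.log (2 * b)) * (m + 1 - (n + 1 : ℕ)) +
        n * (d * Real.log (2 * b)) := by
    push_cast
    ring
  linarith

theorem volume_Box_one : volume (Box d 1) = 1 := by
  have h := CanM.volume_Box (d := d) 1
  rwa [ENNReal.ofReal_one, one_pow] at h

theorem e0_fst : (e0 : Ct (Fin d → ℝ)).1 = 0 := rfl

/-- The energies of the contents of a cell: missing beads, few beads, or the wall. -/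
def Enr (E : Set (Fin d → ℝ)) (i₁ i₂ : Fin d) (m : ℕ) (α a b κ c : ℝ) (W : Set (Fin d → ℝ))
    (en : Ct (Fin d → ℝ) → ℝ) : Prop :=
  ∀ x, Vx E x → x.1 ≠ 0 →
    (InDir i₁ α a m x → en x ≤ κ * (m - x.1) ∨ (4 * x.1 < 3 * m ∧ en x ≤ c) ∨
      (x.2 0 ∈ W ∧ en x ≤ c)) ∧
    (InDir i₂ α b (m + 1) x → en x ≤ κ * (m + 1 - x.1) ∨ (4 * x.1 < 3 * m ∧ en x ≤ c) ∨
      (x.2 0 ∈ W ∧ en x ≤ c))

theorem few_row {lam κ c : ℝ} (hκ : κ ≤ 2 * lam) (hc : 2 * c ≤ m * lam) (h0 : 0 ≤ lam) {n : ℕ}
    (hn : n < m) {e : ℝ} (he : e ≤ κ * (m - (n + 1 : ℕ)) ∨ (4 * (n + 1) < 3 * m ∧ e ≤ c)) :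
    e / 2 ≤ lam * (m - (n + 1 : ℕ)) := by
  have h3 : (0 : ℝ) ≤ m - (n + 1 : ℕ) := by
    rw [sub_nonneg]
    exact_mod_cast hn
  rcases he with he | ⟨h1, h2⟩
  · have := mul_le_mul_of_nonneg_right hκ h3
    linarith
  · have h4 : 4 * ((n + 1 : ℕ) : ℝ) ≤ 3 * m := by exact_mod_cast h1.le
    have h5 : (m : ℝ) / 4 ≤ m - (n + 1 : ℕ) := by linarith
    have h6 := mul_le_mul_of_nonneg_left h5 h0
    linarith

theorem few_col {lam κ c : ℝ} (hκ : κ ≤ 2 * lam) (hc : 2 * c ≤ m * lam) (h0 : 0 ≤ lam) {n : ℕ}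
    (hn : n < m + 1) {e : ℝ}
    (he : e ≤ κ * (m + 1 - (n + 1 : ℕ)) ∨ (4 * (n + 1) < 3 * m ∧ e ≤ c)) :
    e / 2 ≤ lam * (m + 1 - (n + 1 : ℕ)) := by
  have h3 : (0 : ℝ) ≤ m + 1 - (n + 1 : ℕ) := by
    rw [sub_nonneg]
    exact_mod_cast hn
  rcases he with he | ⟨h1, h2⟩
  · have := mul_le_mul_of_nonneg_right hκ h3
    linarith
  · have h4 : 4 * ((n + 1 : ℕ) : ℝ) ≤ 3 * m := by exact_mod_cast h1.le
    have h5 : (m : ℝ) / 4 ≤ m + 1 - (n + 1 : ℕ) := by linarith
    have h6 := mul_le_mul_of_nonneg_left h5 h0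
    linarith

theorem measurable_F {en : Ct (Fin d → ℝ) → ℝ} (hen : Measurable en) (ζ : ℝ) :
    Measurable fun x : Ct (Fin d → ℝ) => ex (ζ * x.1 + en x / 2) := by
  have h1 : Measurable fun x : Ct (Fin d → ℝ) => (x.1 : ℝ) :=
    (measurable_of_countable fun n : ℕ => (n : ℝ)).comp measurable_fst
  unfold ex
  exact ((h1.const_mul ζ).add (hen.div_const 2)).exp.ennreal_ofReal

/-- The integral over the contents with the first bead in `S`. -/
theorem M_set (hG : Geo d i₁ i₂ m R α a b β β' τ ε N E) {ζ lam X κ c : ℝ}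
    (hP : Par d m a b ζ lam X) (hκ0 : 0 ≤ κ) (hκ : κ ≤ 2 * lam) (hc0 : 0 ≤ c)
    (hc : 2 * c ≤ m * lam) {W : Set (Fin d → ℝ)} {en : Ct (Fin d → ℝ) → ℝ} (hen : Measurable en)
    (he : Enr E i₁ i₂ m α a b κ c W en) {S : Set (Fin d → ℝ)} (hS : MeasurableSet S)
    {A : Set (Ct (Fin d → ℝ))} (hA : MeasurableSet A)
    (hAS : ∀ x ∈ A, Vx E x → x.1 ≠ 0 → x.2 0 ∈ S) :
    ∫⁻ x in A, ex (ζ * x.1 + en x / 2) ∂(sys hG.meas).pg ≤
      A.indicator (fun _ => ex (en e0 / 2)) e0 +
        (2 * (m + 1)) ^ (m + 1) * (volume S * ex (X + c / 2)) := by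
  have hm := measurable_F hen ζ
  rw [← lintegral_indicator hA]
  have hFe : ∀ x : Ct (Fin d → ℝ), A.indicator (fun x => ex (ζ * x.1 + en x / 2)) x ≤
      ex (ζ * x.1 + en x / 2) := fun x => Set.indicator_le_self' (fun _ _ => zero_le) x
  have h := lint_ex hG (hm.indicator hA) hS (ζ := ζ) (X := X + c / 2)
    (eA := fun n => max (κ * (m - n)) c / 2) (eB := fun n => max (κ * (m + 1 - n)) c / 2)
    (fun x hx hn h0 => by
      by_cases hxA : x ∈ A
      · exact hAS x hxA hx hn
      · exact absurd (Set.indicator_of_notMem hxA _) h0)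
    (fun x hx hn hr => (hFe x).trans (ex_le_ex.2 (by
      have h1 : en x ≤ max (κ * (m - x.1)) c := by
        rcases (he x hx hn).1 hr with h | h | h
        · exact h.trans (le_max_left _ _)
        · exact h.2.trans (le_max_right _ _)
        · exact h.2.trans (le_max_right _ _)
      linarith)))
    (fun x hx hn hr => (hFe x).trans (ex_le_ex.2 (by
      have h1 : en x ≤ max (κ * (m + 1 - x.1)) c := by
        rcases (he x hx hn).2 hr with h | h | h
        · exact h.trans (le_max_left _ _)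
        · exact h.2.trans (le_max_right _ _)
        · exact h.2.trans (le_max_right _ _)
      linarith)))
    (fun n hn => by
      have h3 : (0 : ℝ) ≤ m - (n + 1 : ℕ) := by
        rw [sub_nonneg]
        exact_mod_cast hn
      have h1 : max (κ * (m - (n + 1 : ℕ))) c ≤ κ * (m - (n + 1 : ℕ)) + c :=
        max_le (by linarith) (by have := mul_nonneg hκ0 h3; linarith)
      have h2 := few_row hκ hc hP.lam0 hn (Or.inl (le_refl (κ * ((m : ℝ) - (n + 1 : ℕ)))))
      have h4 := hP.row hn h2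
      linarith)
    (fun n hn => by
      have h3 : (0 : ℝ) ≤ m + 1 - (n + 1 : ℕ) := by
        rw [sub_nonneg]
        exact_mod_cast hn
      have h1 : max (κ * (m + 1 - (n + 1 : ℕ))) c ≤ κ * (m + 1 - (n + 1 : ℕ)) + c :=
        max_le (by linarith) (by have := mul_nonneg hκ0 h3; linarith)
      have h2 := few_col hκ hc hP.lam0 hn (Or.inl (le_refl (κ * ((m : ℝ) + 1 - (n + 1 : ℕ)))))
      have h4 := hP.col hn h2
      linarith)
  refine h.trans (add_le_add (le_of_eq ?_) le_rfl)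
  by_cases h0 : (e0 : Ct (Fin d → ℝ)) ∈ A
  · rw [Set.indicator_of_mem h0, Set.indicator_of_mem h0]
    rw [e0_fst]
    simp
  · rw [Set.indicator_of_notMem h0, Set.indicator_of_notMem h0]

/-- **(M1).** The one-cell integral with half of the energy. -/
theorem M1 (hG : Geo d i₁ i₂ m R α a b β β' τ ε N E) {ζ lam X κ c : ℝ}
    (hP : Par d m a b ζ lam X) (hκ0 : 0 ≤ κ) (hκ : κ ≤ 2 * lam) (hc0 : 0 ≤ c)
    (hc : 2 * c ≤ m * lam) {W : Set (Fin d → ℝ)} (hW : MeasurableSet W)
    {en : Ct (Fin d → ℝ) → ℝ} (hen : Measurable en) (he : Enr E i₁ i₂ m α a b κ c W en) :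
    ∫⁻ x, ex (ζ * x.1 + en x / 2) ∂(sys hG.meas).pg ≤ ex (en e0 / 2) +
        (2 * (m + 1)) ^ (m + 1) * (ex X + volume W * ex (X + c / 2)) := by
  have hm := measurable_F hen ζ
  have hT : MeasurableSet {x : Ct (Fin d → ℝ) | x.1 ≠ 0 ∧ x.2 0 ∈ W} := by
    refine MeasurableSet.inter ?_ ((measurable_at 0) hW)
    exact measurable_fst (MeasurableSet.of_discrete (s := {n : ℕ | n ≠ 0}))
  set T := {x : Ct (Fin d → ℝ) | x.1 ≠ 0 ∧ x.2 0 ∈ W} with hTd
  rw [← lintegral_add_compl _ hT, add_comm]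
  have h1 := M_set hG hP hκ0 hκ hc0 hc hen he hW hT fun x hx _ _ => hx.2
  have h2 : ∫⁻ x in Tᶜ, ex (ζ * x.1 + en x / 2) ∂(sys hG.meas).pg ≤ ex (en e0 / 2) +
      (2 * (m + 1)) ^ (m + 1) * (volume (Box d 1) * ex X) := by
    rw [← lintegral_indicator hT.compl]
    have hFe : ∀ x : Ct (Fin d → ℝ), Tᶜ.indicator (fun x => ex (ζ * x.1 + en x / 2)) x ≤
        ex (ζ * x.1 + en x / 2) := fun x => Set.indicator_le_self' (fun _ _ => zero_le) x
    have h := lint_ex hG (hm.indicator hT.compl) (CanM.measurableSet_Box (d := d) 1) (ζ := ζ)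
      (X := X) (eA := fun n => lam * (m - n)) (eB := fun n => lam * (m + 1 - n))
      (fun x hx hn _ => hx.1 0 (Nat.pos_of_ne_zero hn))
      (fun x hx hn hr => by
        by_cases hxT : x ∈ Tᶜ
        · rw [Set.indicator_of_mem hxT, ex_le_ex]
          have hxW : x.2 0 ∉ W := fun h => hxT ⟨hn, h⟩
          obtain ⟨n, hn'⟩ := Nat.exists_eq_succ_of_ne_zero hn
          have hc' := card_row hG hr
          have := few_row (n := n) (e := en x) hκ hc hP.lam0 (by omega) (by
            rcases (he x hx hn).1 hr with h | h | h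
            · left
              rwa [hn'] at h
            · right
              exact ⟨by omega, h.2⟩
            · exact absurd h.1 hxW)
          rw [hn']
          rw [Nat.succ_eq_add_one]
          linarith
        · rw [Set.indicator_of_notMem hxT]
          exact zero_le)
      (fun x hx hn hr => by
        by_cases hxT : x ∈ Tᶜ
        · rw [Set.indicator_of_mem hxT, ex_le_ex]
          have hxW : x.2 0 ∉ W := fun h => hxT ⟨hn, h⟩
          obtain ⟨n, hn'⟩ := Nat.exists_eq_succ_of_ne_zero hn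
          have hc' := card_col hG hr
          have := few_col (n := n) (e := en x) hκ hc hP.lam0 (by omega) (by
            rcases (he x hx hn).2 hr with h | h | h
            · left
              rwa [hn'] at h
            · right
              exact ⟨by omega, h.2⟩
            · exact absurd h.1 hxW)
          rw [hn']
          rw [Nat.succ_eq_add_one]
          linarith
        · rw [Set.indicator_of_notMem hxT]
          exact zero_le)
      (fun n hn => hP.row hn le_rfl) (fun n hn => hP.col hn le_rfl)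
    refine h.trans (add_le_add ?_ le_rfl)
    refine (hFe e0).trans (le_of_eq ?_)
    rw [e0_fst]
    simp
  rw [Set.indicator_of_notMem (show (e0 : Ct (Fin d → ℝ)) ∉ T from fun h => h.1 rfl),
    zero_add] at h1
  rw [volume_Box_one, one_mul] at h2
  refine (add_le_add h2 h1).trans (le_of_eq ?_)
  ring

/-- All beads are near bead `0`. -/
theorem near_zero (hG : Geo d i₁ i₂ m R α a b β β' τ ε N E) {x : Ct (Fin d → ℝ)} (hx : Vx E x)
    {k : ℕ} (hk : k < x.1) (j : Fin d) : |x.2 k j - x.2 0 j| ≤ (m + 1) * α := by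
  have h1 := hG.hb
  have h2 := hG.hba
  have h3 := hG.ha
  have h4 : 0 < α := by linarith
  have h0 : 0 < x.1 := by omega
  by_cases hk0 : k = 0
  · rw [hk0, sub_self, abs_zero]
    positivity
  have key : ∀ (i : Fin d) (δ : ℝ) (M : ℕ), 0 ≤ δ → δ ≤ a → M ≤ m + 1 →
      Bd.Win i α δ M (x.2 k - x.2 0) → |x.2 k j - x.2 0 j| ≤ (m + 1) * α := by
    rintro i δ M hδ0 hδ hM ⟨q, hq0, hq, h5, h6⟩
    by_cases hj : j = i
    · subst hj
      rw [Pi.sub_apply] at h5
      have h7 : |(q : ℝ)| ≤ m := by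
        have : |q| ≤ m := by omega
        exact_mod_cast this
      have h8 : |(q : ℝ) * α| ≤ m * α := by
        rw [abs_mul, abs_of_pos h4]
        exact mul_le_mul_of_nonneg_right h7 h4.le
      have h9 : |x.2 k j - x.2 0 j| ≤ |x.2 k j - x.2 0 j - q * α| + |(q : ℝ) * α| := by
        have := abs_add_le (x.2 k j - x.2 0 j - q * α) (q * α)
        rwa [sub_add_cancel] at this
      linarith
    · have := h6 j hj
      rw [Pi.sub_apply] at this
      have h7 : (0 : ℝ) ≤ m * α := by positivity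
      linarith
  rcases dir hG hx with h | h
  · exact key i₁ a m (by linarith) le_rfl (by omega) (h k hk 0 h0 hk0)
  · exact key i₂ b (m + 1) h1.le h2 le_rfl (h k hk 0 h0 hk0)

/-- **(M2).** The one-cell integral over the contents with a bead in the region `D` round a bead of a
given content `y`. -/
theorem M2 (hG : Geo d i₁ i₂ m R α a b β β' τ ε N E) {ζ lam X κ c : ℝ}
    (hP : Par d m a b ζ lam X) (hκ0 : 0 ≤ κ) (hκ : κ ≤ 2 * lam) (hc0 : 0 ≤ c)
    (hc : 2 * c ≤ m * lam) {W : Set (Fin d → ℝ)} {en : Ct (Fin d → ℝ) → ℝ} (hen : Measurable en)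
    (he : Enr E i₁ i₂ m α a b κ c W en) {D D' : Set (Fin d → ℝ)} (hD' : MeasurableSet D')
    (hD : ∀ z w : Fin d → ℝ, (∀ j, |w j| ≤ (m + 1) * α) → z + w ∈ D → z ∈ D') (v : Zd d)
    {y : Ct (Fin d → ℝ)} (hy : y.1 ≤ m + 1) {A : Set (Ct (Fin d → ℝ))} (hA : MeasurableSet A)
    (hAD : ∀ x ∈ A, Vx E x → ∃ k < x.1, ∃ l < y.1, x.2 k - tr v (y.2 l) ∈ D) :
    ∫⁻ x in A, ex (ζ * x.1 + en x / 2) ∂(sys hG.meas).pg ≤
      (2 * (m + 1)) ^ (m + 2) * (volume D' * ex (X + c / 2)) := by
  obtain ⟨S, hS⟩ : ∃ S : Set (Fin d → ℝ), S = ⋃ l ∈ range y.1,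
      (fun z : Fin d → ℝ => z - tr v (y.2 l)) ⁻¹' D' := ⟨_, rfl⟩
  have mS : MeasurableSet S := by
    rw [hS]
    exact Finset.measurableSet_biUnion _ fun l _ => (measurable_id.sub_const _) hD'
  have vS : volume S ≤ (2 * (m + 1)) * volume D' := by
    rw [hS]
    refine (measure_biUnion_finset_le _ _).trans ?_
    have h1 : ∀ l ∈ range y.1, volume ((fun z : Fin d → ℝ => z - tr v (y.2 l)) ⁻¹' D') =
        volume D' := fun l _ => by
      simp only [sub_eq_add_neg]
      exact measure_preimage_add_right _ _ _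
    rw [sum_congr rfl h1, sum_const, card_range, nsmul_eq_mul]
    refine mul_le_mul' ?_ le_rfl
    calc (y.1 : ENNReal) ≤ ((m + 1 : ℕ) : ENNReal) := by exact_mod_cast hy
      _ = 1 * (m + 1) := by push_cast; ring
      _ ≤ 2 * (m + 1) := mul_le_mul' (by norm_num) le_rfl
  have h := M_set hG hP hκ0 hκ hc0 hc hen he mS hA (by
    intro x hx hv _
    obtain ⟨k, hk, l, hl, h1⟩ := hAD x hx hv
    rw [hS, Set.mem_iUnion₂]
    refine ⟨l, mem_range.2 hl, ?_⟩
    refine hD _ (x.2 k - x.2 0) (fun j => near_zero hG hv hk j) ?_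
    have e : x.2 0 - tr v (y.2 l) + (x.2 k - x.2 0) = x.2 k - tr v (y.2 l) := by abel
    rwa [e])
  refine h.trans ?_
  have h0 : (e0 : Ct (Fin d → ℝ)) ∉ A := by
    intro h0
    obtain ⟨k, hk, -⟩ := hAD e0 h0 Vx_e0
    exact absurd hk (Nat.not_lt_zero k)
  rw [Set.indicator_of_notMem h0, zero_add]
  calc (2 * ((m : ENNReal) + 1)) ^ (m + 1) * (volume S * ex (X + c / 2))
      ≤ (2 * ((m : ENNReal) + 1)) ^ (m + 1) * ((2 * (m + 1)) * volume D' * ex (X + c / 2)) :=
        mul_le_mul' le_rfl (mul_le_mul' vS le_rfl)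
    _ = _ := by rw [pow_succ (2 * ((m : ENNReal) + 1)) (m + 1)]; ring

/-! ### The cube -/

/-- A shell round the unit cube and a small cube. -/
def shell (d : ℕ) (t s q : ℝ) : Set (Fin d → ℝ) :=
  {z | ((∀ j, |z j| < 1 + t) ∧ ∃ j, 1 - s ≤ |z j|) ∨ ∀ j, |z j| ≤ q}

theorem measurableSet_abs_lt (t : ℝ) : MeasurableSet {z : Fin d → ℝ | ∀ j, |z j| < t} := by
  have e : {z : Fin d → ℝ | ∀ j, |z j| < t} = ⋂ j, {z : Fin d → ℝ | |z j| < t} := by
    ext
    simp
  rw [e]
  exact MeasurableSet.iInter fun j => measurableSet_lt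
    (continuous_abs.measurable.comp (measurable_pi_apply j)) measurable_const

theorem measurableSet_shell (t s q : ℝ) : MeasurableSet (shell d t s q) := by
  have e : shell d t s q = ({z : Fin d → ℝ | ∀ j, |z j| < 1 + t} \ {z | ∀ j, |z j| < 1 - s}) ∪
      {z | ∀ j, |z j| ≤ q} := by
    ext z
    simp only [shell, Set.mem_union, Set.mem_sdiff, Set.mem_ofPred_eq, not_forall, not_lt]
  rw [e]
  refine ((measurableSet_abs_lt _).diff (measurableSet_abs_lt _)).union ?_
  have e : {z : Fin d → ℝ | ∀ j, |z j| ≤ q} = ⋂ j, {z : Fin d → ℝ | |z j| ≤ q} := by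
    ext
    simp
  rw [e]
  exact MeasurableSet.iInter fun j => measurableSet_le
    (continuous_abs.measurable.comp (measurable_pi_apply j)) measurable_const

theorem vol_abs_lt (t : ℝ) : volume {z : Fin d → ℝ | ∀ j, |z j| < t} =
    ENNReal.ofReal (2 * t) ^ d := by
  have e : {z : Fin d → ℝ | ∀ j, |z j| < t} = Set.pi Set.univ fun _ => Set.Ioo (-t) t := by
    ext x
    simp only [Set.mem_ofPred_eq, Set.mem_pi, Set.mem_univ, true_implies, Set.mem_Ioo, abs_lt]
  rw [e, volume_pi_pi, prod_const, card_univ, Fintype.card_fin, Real.volume_Ioo]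
  congr 2
  ring

theorem pow_sub_le {x y : ℝ} (hy : 0 ≤ y) (hxy : y ≤ x) (n : ℕ) :
    x ^ n - y ^ n ≤ n * x ^ (n - 1) * (x - y) := by
  induction n with
  | zero => simp
  | succ n ih =>
    have hx : 0 ≤ x := hy.trans hxy
    have h1 : x ^ (n + 1) - y ^ (n + 1) = x * (x ^ n - y ^ n) + (x - y) * y ^ n := by ring
    have h2 : y ^ n ≤ x ^ n := pow_le_pow_left₀ hy hxy n
    have h3 : x * (x ^ n - y ^ n) ≤ x * (n * x ^ (n - 1) * (x - y)) :=
      mul_le_mul_of_nonneg_left ih hx
    have h4 : (x - y) * y ^ n ≤ (x - y) * x ^ n := mul_le_mul_of_nonneg_left h2 (by linarith)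
    rw [h1, Nat.add_sub_cancel]
    rcases n with _ | n
    · simp at h3 ⊢
    · rw [Nat.add_sub_cancel] at h3
      have h5 : x * (((n + 1 : ℕ) : ℝ) * x ^ n * (x - y)) = ((n + 1 : ℕ) : ℝ) * x ^ (n + 1) * (x - y) := by
        ring
      push_cast at h3 h5 ⊢
      nlinarith

theorem vol_shell {t s q : ℝ} (ht0 : 0 ≤ t) (ht1 : t ≤ 1) (hs0 : 0 ≤ s) (hs1 : s ≤ 1)
    (hq0 : 0 ≤ q) : volume (shell d t s q) ≤ ENNReal.ofReal (4 ^ d * d * (t + s) + (2 * q) ^ d) := by
  have e : shell d t s q = ({z : Fin d → ℝ | ∀ j, |z j| < 1 + t} \ {z | ∀ j, |z j| < 1 - s}) ∪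
      {z | ∀ j, |z j - (0 : Fin d → ℝ) j| ≤ q} := by
    ext z
    simp only [shell, Set.mem_union, Set.mem_sdiff, Set.mem_ofPred_eq, not_forall, not_lt,
      Pi.zero_apply, sub_zero]
  rw [e]
  refine (measure_union_le _ _).trans ?_
  rw [ENNReal.ofReal_add (by positivity) (by positivity), vol_cube,
    ENNReal.ofReal_pow (by positivity)]
  refine add_le_add ?_ le_rfl
  rw [measure_sdiff (fun z hz j => (hz j).trans_le (by linarith))
    (measurableSet_abs_lt _).nullMeasurableSet (by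
      rw [vol_abs_lt]
      exact ENNReal.pow_ne_top ENNReal.ofReal_ne_top), vol_abs_lt, vol_abs_lt,
    ← ENNReal.ofReal_pow (by linarith), ← ENNReal.ofReal_pow (by linarith),
    ← ENNReal.ofReal_sub _ (by
      have : 0 ≤ 2 * (1 - s) := by linarith
      positivity)]
  refine ENNReal.ofReal_le_ofReal ?_
  have h1 := pow_sub_le (x := 2 * (1 + t)) (y := 2 * (1 - s)) (by linarith) (by linarith) d
  refine h1.trans ?_
  rcases d with _ | d
  · simp
  · rw [Nat.add_sub_cancel]
    have h2 : (2 * (1 + t)) ^ d ≤ 4 ^ d := pow_le_pow_left₀ (by linarith) (by linarith) d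
    have h3 : (0 : ℝ) ≤ ((d + 1 : ℕ) : ℝ) * (t + s) := by positivity
    calc ((d + 1 : ℕ) : ℝ) * (2 * (1 + t)) ^ d * (2 * (1 + t) - 2 * (1 - s))
        = 2 * ((((d + 1 : ℕ) : ℝ) * (t + s)) * (2 * (1 + t)) ^ d) := by ring
      _ ≤ 2 * ((((d + 1 : ℕ) : ℝ) * (t + s)) * 4 ^ d) := by
          have := mul_le_mul_of_nonneg_left h2 h3
          linarith
      _ ≤ 4 * ((((d + 1 : ℕ) : ℝ) * (t + s)) * 4 ^ d) := by
          have : 0 ≤ (((d + 1 : ℕ) : ℝ) * (t + s)) * 4 ^ d := by positivity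
          linarith
      _ = 4 ^ (d + 1) * ((d + 1 : ℕ) : ℝ) * (t + s) := by ring

/-- Thickening of the shell. -/
theorem shell_thick {t s q r : ℝ} (z w : Fin d → ℝ) (hw : ∀ j, |w j| ≤ r)
    (h : z + w ∈ shell d t s q) : z ∈ shell d (t + r) (s + r) (q + r) := by
  have h1 : ∀ j, |z j| ≤ |(z + w) j| + r := by
    intro j
    have := abs_sub_le (z j) (z j + w j) 0
    have h2 : |z j - (z j + w j)| = |w j| := by
      rw [show z j - (z j + w j) = -(w j) by ring, abs_neg]
    have h3 := abs_sub_abs_le_abs_sub (z j) (z j + w j)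
    rw [h2] at h3
    rw [Pi.add_apply]
    linarith [hw j]
  have h1' : ∀ j, |(z + w) j| ≤ |z j| + r := by
    intro j
    rw [Pi.add_apply]
    exact (abs_add_le _ _).trans (by linarith [hw j])
  rcases h with ⟨h2, j, h3⟩ | h2
  · left
    refine ⟨fun j => ?_, j, ?_⟩
    · have := h1 j
      have := h2 j
      linarith
    · have := h1' j
      linarith
  · right
    intro j
    have := h1 j
    have := h2 j
    linarith

/-- A pair of beads of different cells which is allowed and closer than `1 + t`. -/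
theorem mem_shell (hG : Geo d i₁ i₂ m R α a b β β' τ ε N E) {t : ℝ} (hτ : 0 ≤ τ) {u : Fin d → ℝ}
    (h1 : ∀ j, |u j| < 1 + t) (h2 : (∀ j, |u j| < 1 + τ) → u ∉ E) :
    u ∈ shell d t 0 ((m + 1) * α) := by
  by_cases h3 : ∀ j, |u j| < 1
  · right
    have h4 := hG.near u (hG.cube u h3) (h2 fun j => (h3 j).trans_le (by linarith))
    have g1 := hG.hb
    have g2 := hG.hba
    have g3 := hG.ha
    have g4 : 0 < α := by linarith
    intro j
    have key : ∀ (i : Fin d) (k : ℤ) (δ : ℝ), |k| ≤ m → δ ≤ a →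
        |u j - (if j = i then k * α else 0)| < δ → |u j| ≤ (m + 1) * α := by
      intro i k δ hk hδ h5
      have h6 : |(if j = i then (k : ℝ) * α else 0)| ≤ m * α := by
        split_ifs
        · rw [abs_mul, abs_of_pos g4]
          have : |(k : ℝ)| ≤ m := by exact_mod_cast hk
          exact mul_le_mul_of_nonneg_right this g4.le
        · rw [abs_zero]
          positivity
      have h7 := abs_add_le (u j - (if j = i then (k : ℝ) * α else 0))
        (if j = i then (k : ℝ) * α else 0)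
      rw [sub_add_cancel] at h7
      linarith
    rcases h4 with ⟨k, -, hk, h5⟩ | ⟨k, -, hk, h5⟩
    · exact key i₁ k a hk.le le_rfl (h5 j)
    · exact key i₂ k b (by omega) g2 (h5 j)
  · left
    push Not at h3
    obtain ⟨j, hj⟩ := h3
    exact ⟨h1, j, by linarith⟩

/-- **(M2) for the cube.** -/
theorem M2_cube (hd : 1 ≤ d) (hG : Geo d i₁ i₂ m R α a b β β' τ ε N E) {ζ lam X κ c : ℝ}
    (hP : Par d m a b ζ lam X) (hκ0 : 0 ≤ κ) (hκ : κ ≤ 2 * lam) (hc0 : 0 ≤ c)
    (hc : 2 * c ≤ m * lam) {W : Set (Fin d → ℝ)} {en : Ct (Fin d → ℝ) → ℝ} (hen : Measurable en)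
    (he : Enr E i₁ i₂ m α a b κ c W en) {t : ℝ} (hτ : 0 ≤ τ) (ht0 : 0 ≤ t)
    (ht1 : t + (m + 1) * α ≤ 1) (v : Zd d) {y : Ct (Fin d → ℝ)} (hy : y.1 ≤ m + 1)
    {A : Set (Ct (Fin d → ℝ))} (hA : MeasurableSet A)
    (hAD : ∀ x ∈ A, Vx E x → ∃ k < x.1, ∃ l < y.1, (∀ j, |(x.2 k - tr v (y.2 l)) j| < 1 + t) ∧
      ((∀ j, |(x.2 k - tr v (y.2 l)) j| < 1 + τ) → x.2 k - tr v (y.2 l) ∉ E)) :
    ∫⁻ x in A, ex (ζ * x.1 + en x / 2) ∂(sys hG.meas).pg ≤ (2 * (m + 1)) ^ (m + 2) *
      (ENNReal.ofReal (4 ^ d * d * (t + 3 * ((m + 1) * α))) * ex (X + c / 2)) := by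
  have g1 := hG.hb
  have g2 := hG.hba
  have g3 := hG.ha
  have g4 : 0 < α := by linarith
  have g5 : (0 : ℝ) ≤ (m + 1) * α := by positivity
  refine (M2 hG hP hκ0 hκ hc0 hc hen he (measurableSet_shell _ _ _) (fun z w hw h =>
    shell_thick z w hw h) v hy hA (fun x hx hv => by
      obtain ⟨k, hk, l, hl, h1, h2⟩ := hAD x hx hv
      exact ⟨k, hk, l, hl, mem_shell hG hτ h1 h2⟩)).trans ?_
  refine mul_le_mul' le_rfl (mul_le_mul' ?_ le_rfl)
  refine (vol_shell (by positivity) ht1 (by positivity) (by linarith) (by positivity)).trans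
    (ENNReal.ofReal_le_ofReal ?_)
  set q : ℝ := (m + 1) * α with hq
  have h6 : (2 * (q + q)) ^ d ≤ 4 ^ d * q := by
    rw [show 2 * (q + q) = 4 * q by ring, mul_pow]
    refine mul_le_mul_of_nonneg_left ?_ (by positivity)
    calc q ^ d ≤ q ^ 1 := pow_le_pow_of_le_one g5 (by linarith) hd
      _ = q := pow_one q
  have h7 : (4 : ℝ) ^ d * q ≤ 4 ^ d * d * q := by
    have : (1 : ℝ) ≤ d := by exact_mod_cast hd
    have h8 : (4 : ℝ) ^ d * 1 ≤ 4 ^ d * d := mul_le_mul_of_nonneg_left this (by positivity)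
    have := mul_le_mul_of_nonneg_right h8 g5
    linarith
  calc (4 : ℝ) ^ d * d * (t + q + (0 + q)) + (2 * (q + q)) ^ d
      ≤ 4 ^ d * d * (t + q + (0 + q)) + 4 ^ d * d * q := by linarith
    _ = _ := by ring

/-- The points of the unit cube near its boundary. -/
def wall (d : ℕ) (w : ℝ) : Set (Fin d → ℝ) := {z | z ∈ Box d 1 ∧ ∃ j, z j < w ∨ 1 - w ≤ z j}

theorem measurableSet_wall (w : ℝ) : MeasurableSet (wall d w) := by
  have e : wall d w = Box d 1 ∩ ⋃ j, ({z : Fin d → ℝ | z j < w} ∪ {z : Fin d → ℝ | 1 - w ≤ z j}) := by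
    ext z
    simp [wall]
  rw [e]
  refine (CanM.measurableSet_Box 1).inter (MeasurableSet.iUnion fun j => ?_)
  exact (measurableSet_lt (measurable_pi_apply j) measurable_const).union
    (measurableSet_le measurable_const (measurable_pi_apply j))

theorem vol_wall {w : ℝ} (hw : 0 ≤ w) : volume (wall d w) ≤ ENNReal.ofReal (2 * d * w) := by
  classical
  have h1 : wall d w ⊆ ⋃ j ∈ (univ : Finset (Fin d)),
      ((Set.pi Set.univ fun l : Fin d => if l = j then Set.Ico (0 : ℝ) w else Set.Ico 0 1) ∪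
        Set.pi Set.univ fun l : Fin d => if l = j then Set.Ico (1 - w) 1 else Set.Ico (0 : ℝ) 1) := by
    rintro z ⟨hz, j, hj⟩
    rw [Set.mem_iUnion₂]
    refine ⟨j, mem_univ j, ?_⟩
    rcases hj with hj | hj
    · left
      intro l _
      have := hz l
      by_cases hl : l = j
      · subst hl
        simp only [if_true]
        exact ⟨this.1, hj⟩
      · simp only [hl, if_false]
        exact this
    · right
      intro l _
      have := hz l
      by_cases hl : l = j
      · subst hl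
        simp only [if_true]
        exact ⟨hj, this.2⟩
      · simp only [hl, if_false]
        exact this
  refine (measure_mono h1).trans ((measure_biUnion_finset_le _ _).trans ?_)
  have h2 : ∀ (j : Fin d) (p q : ℝ), q - p = w → volume (Set.pi Set.univ fun l : Fin d =>
      if l = j then Set.Ico p q else Set.Ico (0 : ℝ) 1) = ENNReal.ofReal w := by
    intro j p q hpq
    rw [volume_pi_pi, Finset.prod_eq_single j]
    · rw [if_pos rfl, Real.volume_Ico, hpq]
    · intro l _ hl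
      rw [if_neg hl, Real.volume_Ico]
      simp
    · intro h
      exact absurd (mem_univ j) h
  calc ∑ j : Fin d, volume _ ≤ ∑ _j : Fin d, ENNReal.ofReal (2 * w) := by
        refine sum_le_sum fun j _ => (measure_union_le _ _).trans ?_
        rw [h2 j 0 w (by ring), h2 j (1 - w) 1 (by ring), ← ENNReal.ofReal_add hw hw]
        exact le_of_eq (by congr 1; ring)
    _ = _ := by
        rw [sum_const, card_univ, Fintype.card_fin, nsmul_eq_mul,
          ← ENNReal.ofReal_natCast, ← ENNReal.ofReal_mul (by positivity)]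
        congr 1
        ring

/-! ### Lower bounds -/

/-- The full molecules of direction `i` with the first bead in `S`. -/
def Full (E : Set (Fin d → ℝ)) (i : Fin d) (α δ : ℝ) (M : ℕ) (S : Set (Fin d → ℝ)) :
    Set (Ct (Fin d → ℝ)) :=
  {x | x.1 = M ∧ Vx E x ∧ InDir i α δ M x ∧ x.2 0 ∈ S}

theorem measurable_Win (i : Fin d) (α δ : ℝ) (M : ℕ) :
    MeasurableSet {u : Fin d → ℝ | Bd.Win i α δ M u} := by
  have e : {u : Fin d → ℝ | Bd.Win i α δ M u} = ⋃ k : ℤ, ({u : Fin d → ℝ | k ≠ 0 ∧ |k| < M} ∩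
      ({u : Fin d → ℝ | |u i - k * α| ≤ δ} ∩ ⋂ j, {u : Fin d → ℝ | j ≠ i → |u j| ≤ δ})) := by
    ext u
    simp only [Bd.Win, Set.mem_ofPred_eq, Set.mem_iUnion, Set.mem_inter_iff, Set.mem_iInter]
    refine exists_congr fun k => ?_
    tauto
  rw [e]
  refine MeasurableSet.iUnion fun k => ?_
  refine (MeasurableSet.const _).inter (MeasurableSet.inter ?_ (MeasurableSet.iInter fun j => ?_))
  · exact measurableSet_le (continuous_abs.measurable.comp ((measurable_pi_apply i).sub_const _))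
      measurable_const
  · by_cases hj : j = i
    · simp [hj]
    · simp only [ne_eq, hj, not_false_eq_true, true_implies]
      exact measurableSet_le (continuous_abs.measurable.comp (measurable_pi_apply j))
        measurable_const

theorem measurable_InDir (i : Fin d) (α δ : ℝ) (M : ℕ) :
    MeasurableSet {x : Ct (Fin d → ℝ) | InDir i α δ M x} := by
  have h : Measurable fun x : Ct (Fin d → ℝ) => InDir i α δ M x := by
    unfold InDir
    refine Measurable.forall fun k => (measurable_lt_fst k measurable_fst).imp ?_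
    refine Measurable.forall fun l => (measurable_lt_fst l measurable_fst).imp ?_
    refine measurable_const.imp ?_
    rw [← measurableSet_setOfPred]
    exact ((measurable_at k).sub (measurable_at l)) (measurable_Win i α δ M)
  exact measurableSet_setOfPred.2 h

theorem measurable_Full (hE : MeasurableSet E) (i : Fin d) (α δ : ℝ) (M : ℕ)
    {S : Set (Fin d → ℝ)} (hS : MeasurableSet S) : MeasurableSet (Full E i α δ M S) := by
  refine MeasurableSet.inter ?_ (MeasurableSet.inter ?_ (MeasurableSet.inter ?_ ?_))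
  · exact measurable_fst (measurableSet_singleton M)
  · exact measurableSet_setOfPred.2 (measurable_Vx hE)
  · exact measurable_InDir i α δ M
  · exact (measurable_at 0) hS

theorem mass_full (hE : MeasurableSet E) {i : Fin d} {α δ q : ℝ} (hα : 0 < α) (hδ : 0 < δ) {n : ℕ}
    (hw : ∀ u : Fin d → ℝ, (∀ j, |u j| < 1) → (∃ k : ℤ, 1 ≤ |k| ∧ |k| < n + 1 ∧
      ∀ j, |u j - (if j = i then k * α else 0)| < δ) → u ∉ E)
    (hq : n * α + δ ≤ q) {S : Set (Fin d → ℝ)} (hS : MeasurableSet S)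
    (hSB : ∀ z ∈ S, ∀ w : Fin d → ℝ, (∀ j, |w j| ≤ q) → z + w ∈ Box d 1) :
    (((n + 1).factorial : ENNReal))⁻¹ * (volume S * (ENNReal.ofReal (2 * (δ / 3)) ^ d) ^ n) ≤
      (sys hE).pg (Full E i α δ (n + 1) S) := by
  rw [pg_apply hE (measurable_Full hE i α δ (n + 1) hS)]
  refine le_trans ?_ (ENNReal.le_tsum (n + 1))
  refine mul_le_mul' le_rfl ?_
  rw [← vol_star n hS (fun l j => if j = i then ((l : ℕ) + 1 : ℝ) * α else 0) (δ / 3)]
  refine measure_mono ?_
  rintro u ⟨h0, h⟩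
  -- position of the bead `k`
  have hpos : ∀ (k : Fin (n + 1)) (j : Fin d),
      |u k j - u 0 j - (if j = i then (k : ℕ) * α else 0)| ≤ δ / 3 := by
    intro k j
    refine Fin.cases ?_ (fun l => ?_) k
    · have e : (if j = i then (((0 : Fin (n + 1)) : ℕ) : ℝ) * α else 0) = 0 := by
        split_ifs <;> simp
      rw [e]
      simp
      positivity
    · have := h l j
      rw [Fin.val_succ]
      push_cast
      exact this
  have hk : ∀ k : Fin (n + 1), ((k : ℕ) : ℝ) ≤ n := fun k => by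
    have := k.2
    exact_mod_cast Nat.lt_succ_iff.1 this
  have hBox : ∀ k, u k ∈ Box d 1 := by
    intro k
    have e : u k = u 0 + (u k - u 0) := by abel
    rw [e]
    refine hSB _ h0 _ fun j => ?_
    have h1 := hpos k j
    rw [Pi.sub_apply]
    have h2 : |(if j = i then ((k : ℕ) : ℝ) * α else 0)| ≤ n * α := by
      split_ifs
      · rw [abs_of_nonneg (by positivity)]
        exact mul_le_mul_of_nonneg_right (hk k) hα.le
      · rw [abs_zero]
        positivity
    have h3 := abs_add_le (u k j - u 0 j - (if j = i then ((k : ℕ) : ℝ) * α else 0))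
      (if j = i then ((k : ℕ) : ℝ) * α else 0)
    rw [sub_add_cancel] at h3
    linarith
  have hdiff : ∀ k l : Fin (n + 1), ∀ j, |(u k - u l) j -
      (if j = i then (((k : ℕ) : ℤ) - ((l : ℕ) : ℤ) : ℤ) * α else 0)| < δ := by
    intro k l j
    have h1 := hpos k j
    have h2 := hpos l j
    have e : (u k - u l) j - (if j = i then ((((k : ℕ) : ℤ) - ((l : ℕ) : ℤ) : ℤ) : ℝ) * α else 0) =
        (u k j - u 0 j - (if j = i then ((k : ℕ) : ℝ) * α else 0)) -
        (u l j - u 0 j - (if j = i then ((l : ℕ) : ℝ) * α else 0)) := by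
      rw [Pi.sub_apply]
      split_ifs
      · push_cast
        ring
      · ring
    rw [e]
    have h3 := abs_sub (u k j - u 0 j - (if j = i then ((k : ℕ) : ℝ) * α else 0))
      (u l j - u 0 j - (if j = i then ((l : ℕ) : ℝ) * α else 0))
    linarith
  have hint : ∀ k l : Fin (n + 1), k ≠ l → 1 ≤ |((k : ℕ) : ℤ) - ((l : ℕ) : ℤ)| ∧
      |((k : ℕ) : ℤ) - ((l : ℕ) : ℤ)| < n + 1 := by
    intro k l hkl
    have h1 : (k : ℕ) ≠ l := fun h => hkl (Fin.ext h)
    have h2 := k.2
    have h3 := l.2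
    constructor
    · rcases abs_cases (((k : ℕ) : ℤ) - ((l : ℕ) : ℤ)) with h | h <;> omega
    · rcases abs_cases (((k : ℕ) : ℤ) - ((l : ℕ) : ℤ)) with h | h <;> omega
  have hE' : ∀ k l : Fin (n + 1), k ≠ l → u k - u l ∉ E := by
    intro k l hkl
    refine hw _ (fun j => ?_) ⟨_, (hint k l hkl).1, (hint k l hkl).2, hdiff k l⟩
    have h1 := hBox k j
    have h2 := hBox l j
    rw [Set.mem_Ico] at h1 h2
    rw [abs_lt, Pi.sub_apply]
    constructor <;> linarith
  have hC : u ∈ Cf E (Fin (n + 1)) (Box d 1) := ⟨hBox, hE'⟩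
  refine ⟨hC, rfl, (Vx_pad_iff u).2 hC, ?_, ?_⟩
  · intro k hk l hl hkl
    have hkl' : (⟨k, hk⟩ : Fin (n + 1)) ≠ ⟨l, hl⟩ := fun h => hkl (congrArg Fin.val h)
    rw [show (Ct.pad (0 : Fin d → ℝ) u).2 k = u ⟨k, hk⟩ from Ct.pad_snd _ u ⟨k, hk⟩,
      show (Ct.pad (0 : Fin d → ℝ) u).2 l = u ⟨l, hl⟩ from Ct.pad_snd _ u ⟨l, hl⟩]
    have h1 := hint ⟨k, hk⟩ ⟨l, hl⟩ hkl'
    refine ⟨(k : ℤ) - (l : ℤ), ?_, ?_, ?_, fun j hj => ?_⟩
    · intro h
      have := h1.1
      simp only at this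
      rw [h] at this
      simp at this
    · have := h1.2
      simpa using this
    · have := hdiff ⟨k, hk⟩ ⟨l, hl⟩ i
      rw [if_pos rfl] at this
      exact this.le
    · have := hdiff ⟨k, hk⟩ ⟨l, hl⟩ j
      rw [if_neg hj, sub_zero] at this
      exact this.le
  · rw [show (Ct.pad (0 : Fin d → ℝ) u).2 0 = u 0 from Ct.pad_snd _ u 0]
    exact h0

theorem low (hE : MeasurableSet E) {i : Fin d} {α δ q : ℝ} (hα : 0 < α) (hδ : 0 < δ) {n : ℕ}
    (hw : ∀ u : Fin d → ℝ, (∀ j, |u j| < 1) → (∃ k : ℤ, 1 ≤ |k| ∧ |k| < n + 1 ∧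
      ∀ j, |u j - (if j = i then k * α else 0)| < δ) → u ∉ E)
    (hq : n * α + δ ≤ q) {S : Set (Fin d → ℝ)} (hS : MeasurableSet S)
    (hSB : ∀ z ∈ S, ∀ w : Fin d → ℝ, (∀ j, |w j| ≤ q) → z + w ∈ Box d 1) (ζ : ℝ) :
    volume S * ex ((n + 1 : ℕ) * ζ + n * (d * Real.log (2 * δ)) -
      (n * (d * Real.log 3) + Real.log ((n + 1).factorial))) ≤
      ∫⁻ x in Full E i α δ (n + 1) S, ex (ζ * x.1) ∂(sys hE).pg := by
  have h := mass_full hE hα hδ hw hq hS hSB
  have e1 : ∫⁻ x in Full E i α δ (n + 1) S, ex (ζ * x.1) ∂(sys hE).pg =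
      ex ((n + 1 : ℕ) * ζ) * (sys hE).pg (Full E i α δ (n + 1) S) := by
    rw [← setLIntegral_const]
    refine setLIntegral_congr_fun (measurable_Full hE i α δ (n + 1) hS) fun x hx => ?_
    have : x.1 = n + 1 := hx.1
    rw [this, mul_comm]
  rw [e1]
  refine le_trans (le_of_eq ?_) (mul_le_mul' le_rfl h)
  have e2 : ENNReal.ofReal (2 * (δ / 3)) = ex (Real.log (2 * δ) - Real.log 3) := by
    unfold ex
    rw [← Real.log_div (by positivity) (by norm_num), Real.exp_log (by positivity)]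
    congr 1
    ring
  have e3 : (((n + 1).factorial : ENNReal))⁻¹ = ex (-Real.log ((n + 1).factorial)) := by
    unfold ex
    rw [Real.exp_neg, Real.exp_log (by positivity), ENNReal.ofReal_inv_of_pos (by positivity),
      ENNReal.ofReal_natCast]
  rw [e2, e3, ex_pow, ex_pow]
  have e4 : ex ((n + 1 : ℕ) * ζ) * (ex (-Real.log ((n + 1).factorial)) *
      (volume S * ex (n * (d * (Real.log (2 * δ) - Real.log 3))))) =
      volume S * (ex ((n + 1 : ℕ) * ζ) * ex (-Real.log ((n + 1).factorial)) *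
        ex (n * (d * (Real.log (2 * δ) - Real.log 3)))) := by ring
  rw [e4, ← ex_add, ← ex_add]
  congr 2
  ring

/-- The constant of the lower bounds. -/
noncomputable def lowC (d m : ℕ) : ℝ := m * (d * Real.log 6) + Real.log ((m + 1).factorial)

theorem Full_mono {E : Set (Fin d → ℝ)} {i : Fin d} {α δ δ' : ℝ} {M : ℕ} {S : Set (Fin d → ℝ)}
    (h : δ ≤ δ') : Full E i α δ M S ⊆ Full E i α δ' M S := by
  rintro x ⟨h1, h2, h3, h4⟩
  refine ⟨h1, h2, fun k hk l hl hkl => ?_, h4⟩
  obtain ⟨n, g1, g2, g3, g4⟩ := h3 k hk l hl hkl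
  exact ⟨n, g1, g2, g3.trans h, fun j hj => (g4 j hj).trans h⟩

/-- **Lower bound of the mass of the full rows.** -/
theorem low_row (hG : Geo d i₁ i₂ m R α a b β β' τ ε N E) {S : Set (Fin d → ℝ)}
    (hS : MeasurableSet S)
    (hSB : ∀ z ∈ S, ∀ w : Fin d → ℝ, (∀ j, |w j| ≤ (m + 1) * α) → z + w ∈ Box d 1) (ζ : ℝ) :
    volume S * ex (m * ζ + (m - 1) * (d * Real.log (2 * a)) - lowC d m) ≤
      ∫⁻ x in Full E i₁ α a m S, ex (ζ * x.1) ∂(sys hG.meas).pg := by
  have g0 := hG.hm
  have g1 := hG.hb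
  have g2 := hG.hba
  have g3 := hG.ha
  have g4 : 0 < α := by linarith
  obtain ⟨n, rfl⟩ : ∃ n, m = n + 1 := ⟨m - 1, by omega⟩
  refine le_trans (mul_le_mul' le_rfl (ex_le_ex.2 ?_)) (le_trans (low hG.meas (i := i₁)
    (q := (((n + 1 : ℕ) : ℝ) + 1) * α) g4 (half_pos (g1.trans_le g2)) (n := n)
    (fun u hu hk => ?_) ?_ hS hSB ζ) (lintegral_mono_set (Full_mono (by linarith))))
  · have h1 : Real.log ((n + 1).factorial) ≤ Real.log ((n + 1 + 1).factorial) := by
      refine Real.log_le_log (by positivity) ?_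
      exact_mod_cast Nat.factorial_le (Nat.le_succ _)
    have h2 : 0 ≤ (d : ℝ) * Real.log 6 := mul_nonneg (Nat.cast_nonneg _) (Real.log_nonneg (by norm_num))
    have h3 : Real.log (2 * (a / 2)) = Real.log (2 * a) - Real.log 2 := by
      rw [← Real.log_div (by linarith) (by norm_num)]
      congr 1
      ring
    have h4 : Real.log 6 = Real.log 2 + Real.log 3 := by
      rw [← Real.log_mul (by norm_num) (by norm_num)]
      norm_num
    unfold lowC
    push_cast
    have e : ((n : ℝ) + 1 - 1) = n := by ring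
    rw [e, h3]
    have h5 : (n : ℝ) * (d * (Real.log (2 * a) - Real.log 2)) =
      n * (d * Real.log (2 * a)) - n * (d * Real.log 2) := by ring
    have h6 : ((n : ℝ) + 1) * (d * Real.log 6) = n * (d * Real.log 2) + n * (d * Real.log 3) +
      d * Real.log 6 := by rw [h4]; ring
    rw [h5, h6]
    linarith
  · refine hG.near_in u (Or.inl ?_)
    obtain ⟨k, h1, h2, h3⟩ := hk
    exact ⟨k, h1, by push_cast; exact h2, h3⟩
  · push_cast
    nlinarith

/-- **Lower bound of the mass of the full columns.** -/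
theorem low_col (hG : Geo d i₁ i₂ m R α a b β β' τ ε N E) {S : Set (Fin d → ℝ)}
    (hS : MeasurableSet S)
    (hSB : ∀ z ∈ S, ∀ w : Fin d → ℝ, (∀ j, |w j| ≤ (m + 1) * α) → z + w ∈ Box d 1) (ζ : ℝ) :
    volume S * ex ((m + 1) * ζ + m * (d * Real.log (2 * b)) - lowC d m) ≤
      ∫⁻ x in Full E i₂ α b (m + 1) S, ex (ζ * x.1) ∂(sys hG.meas).pg := by
  have g1 := hG.hb
  have g2 := hG.hba
  have g3 := hG.ha
  have g4 : 0 < α := by linarith
  refine le_trans (mul_le_mul' le_rfl (ex_le_ex.2 ?_)) (le_trans (low hG.meas (i := i₂)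
    (q := ((m : ℝ) + 1) * α) g4 (half_pos g1) (n := m) (fun u hu hk => ?_) ?_ hS hSB ζ)
    (lintegral_mono_set (Full_mono (by linarith))))
  · have h3 : Real.log (2 * (b / 2)) = Real.log (2 * b) - Real.log 2 := by
      rw [← Real.log_div (by linarith) (by norm_num)]
      congr 1
      ring
    have h4 : Real.log 6 = Real.log 2 + Real.log 3 := by
      rw [← Real.log_mul (by norm_num) (by norm_num)]
      norm_num
    unfold lowC
    push_cast
    rw [h3, h4]
    have h5 : (m : ℝ) * (d * (Real.log (2 * b) - Real.log 2)) =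
      m * (d * Real.log (2 * b)) - m * (d * Real.log 2) := by ring
    rw [h5]
    linarith
  · refine hG.near_in u (Or.inr ?_)
    exact hk
  · linarith

end Pool.Agent.RC.Cell
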