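import Mathlib

/-!
# Rows and columns round a general hard core: the packing constant

`N` is the set of the differences which are excluded by the hard core. `Mx N k` is the maximal number
of points of the cube of side `k` with differences outside `N`, `pk N` is the packing constant:
`pk k ^ d ≤ Mx k ≤ pk (k + D) ^ d`.
-/

set_option autoImplicit false

namespace Pool.Agent.RC

open Finset

variable {d : ℕ}

/-- **The hard core.** -/
structure Core (N : Set (Fin d → ℝ)) (c : ℝ) (D : ℕ) : Prop where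
  meas : MeasurableSet N
  sym : ∀ u ∈ N, -u ∈ N
  cube : ∀ u : Fin d → ℝ, (∀ j, |u j| < 1) → u ∈ N
  bdd : ∀ u ∈ N, ∀ j, |u j| < D
  c_pos : 0 < c
  exp : ∀ u, u ∉ N → ∀ e : ℝ, 0 ≤ e → e ≤ 1 → ∀ v : Fin d → ℝ, (∀ j, |v j| ≤ c * e) →
    (1 + e) • u + v ∉ N

/-- A packing in the cube with corner `o` and side `k`. -/
structure Pk (N : Set (Fin d → ℝ)) (o : Fin d → ℝ) (k : ℝ) (S : Finset (Fin d → ℝ)) : Prop where
  lo : ∀ x ∈ S, ∀ j, o j ≤ x j
  hi : ∀ x ∈ S, ∀ j, x j < o j + k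
  sep : ∀ x ∈ S, ∀ y ∈ S, x ≠ y → x - y ∉ N

namespace Pk

variable {N : Set (Fin d → ℝ)}

theorem empty (o : Fin d → ℝ) (k : ℝ) : Pk N o k ∅ :=
  ⟨fun _ h => absurd h (notMem_empty _), fun _ h => absurd h (notMem_empty _),
    fun _ h => absurd h (notMem_empty _)⟩

theorem mono {o : Fin d → ℝ} {k : ℝ} {S T : Finset (Fin d → ℝ)} (h : Pk N o k T) (hST : S ⊆ T) :
    Pk N o k S :=
  ⟨fun x hx => h.lo x (hST hx), fun x hx => h.hi x (hST hx),
    fun x hx y hy => h.sep x (hST hx) y (hST hy)⟩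

theorem translate [DecidableEq (Fin d → ℝ)] {o : Fin d → ℝ} {k : ℝ} {S : Finset (Fin d → ℝ)}
    (h : Pk N o k S) (v : Fin d → ℝ) : Pk N (o + v) k (S.image fun x => x + v) := by
  refine ⟨fun x hx j => ?_, fun x hx j => ?_, fun x hx y hy hxy => ?_⟩
  · obtain ⟨x', hx', rfl⟩ := mem_image.1 hx
    have := h.lo x' hx' j
    simp only [Pi.add_apply]
    linarith
  · obtain ⟨x', hx', rfl⟩ := mem_image.1 hx
    have := h.hi x' hx' j
    simp only [Pi.add_apply]
    linarith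
  · obtain ⟨x', hx', rfl⟩ := mem_image.1 hx
    obtain ⟨y', hy', rfl⟩ := mem_image.1 hy
    rw [add_sub_add_right_eq_sub]
    exact h.sep x' hx' y' hy' fun h => hxy (by rw [h])

end Pk

section Cube

variable {N : Set (Fin d → ℝ)} (hN : ∀ u : Fin d → ℝ, (∀ j, |u j| < 1) → u ∈ N)

include hN

/-- At most one point in a unit cube. -/
theorem Pk.card_le {o : Fin d → ℝ} {k : ℕ} {S : Finset (Fin d → ℝ)} (h : Pk N o k S) :
    S.card ≤ k ^ d := by
  classical
  have hfl : ∀ x ∈ S, ∀ j, (⌊x j - o j⌋₊ : ℝ) ≤ x j - o j ∧ x j - o j < ⌊x j - o j⌋₊ + 1 :=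
    fun x hx j => ⟨Nat.floor_le (by linarith [h.lo x hx j]), Nat.lt_floor_add_one _⟩
  have hlt : ∀ x ∈ S, ∀ j, ⌊x j - o j⌋₊ < k := by
    intro x hx j
    rw [Nat.floor_lt (by linarith [h.lo x hx j])]
    linarith [h.hi x hx j]
  have h1 : S.card ≤ (Fintype.piFinset fun _ : Fin d => range k).card := by
    refine card_le_card_of_injOn (fun x j => ⌊x j - o j⌋₊) (fun x hx => ?_) ?_
    · rw [mem_coe, Fintype.mem_piFinset]
      exact fun j => mem_range.2 (hlt x hx j)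
    · intro x hx y hy hxy
      by_contra hne
      refine h.sep x hx y hy hne (hN _ fun j => ?_)
      have e : ⌊x j - o j⌋₊ = ⌊y j - o j⌋₊ := congrFun hxy j
      have h1 := hfl x hx j
      have h2 := hfl y hy j
      rw [e] at h1
      rw [Pi.sub_apply, abs_lt]
      constructor <;> linarith [h1.1, h1.2, h2.1, h2.2]
  refine h1.trans (le_of_eq ?_)
  rw [Fintype.card_piFinset]
  simp

end Cube

/-- The maximal number of points of a packing in the cube of side `k`. -/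
noncomputable def Mx (N : Set (Fin d → ℝ)) (k : ℕ) : ℕ :=
  sSup {n | ∃ S : Finset (Fin d → ℝ), Pk N 0 k S ∧ S.card = n}

section Mx

variable {N : Set (Fin d → ℝ)} (hN : ∀ u : Fin d → ℝ, (∀ j, |u j| < 1) → u ∈ N)

include hN

theorem bddAbove_Mx (k : ℕ) :
    BddAbove {n | ∃ S : Finset (Fin d → ℝ), Pk N 0 k S ∧ S.card = n} := by
  refine ⟨k ^ d, ?_⟩
  rintro n ⟨S, h, rfl⟩
  exact h.card_le hN

theorem Pk.le_Mx {o : Fin d → ℝ} {k : ℕ} {S : Finset (Fin d → ℝ)} (h : Pk N o k S) :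
    S.card ≤ Mx N k := by
  classical
  refine le_csSup (bddAbove_Mx hN k) ⟨S.image fun x => x + -o, ?_, ?_⟩
  · have := h.translate (-o)
    rwa [add_neg_cancel] at this
  · exact card_image_of_injective _ (add_left_injective _)

theorem exists_Mx (k : ℕ) : ∃ S : Finset (Fin d → ℝ), Pk N 0 k S ∧ S.card = Mx N k :=
  Nat.sSup_mem (s := {n | ∃ S : Finset (Fin d → ℝ), Pk N 0 k S ∧ S.card = n})
    ⟨0, ∅, Pk.empty _ _, rfl⟩ (bddAbove_Mx hN k)

theorem Mx_le (k : ℕ) : Mx N k ≤ k ^ d := by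
  obtain ⟨S, h, e⟩ := exists_Mx hN k
  rw [← e]
  exact h.card_le hN

theorem one_le_Mx {k : ℕ} (hk : 1 ≤ k) : 1 ≤ Mx N k := by
  classical
  have hk' : (1 : ℝ) ≤ k := by exact_mod_cast hk
  have h : Pk N (0 : Fin d → ℝ) k {0} := by
    refine ⟨fun x hx j => ?_, fun x hx j => ?_, fun x hx y hy hxy => ?_⟩
    · rw [mem_singleton.1 hx]
    · rw [mem_singleton.1 hx]
      simp only [Pi.zero_apply]
      linarith
    · exact absurd ((mem_singleton.1 hx).trans (mem_singleton.1 hy).symm) hxy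
  exact (card_singleton (0 : Fin d → ℝ)) ▸ h.le_Mx hN

/-- Submultiplicativity. -/
theorem Mx_mul_le (k l : ℕ) : Mx N (k * l) ≤ k ^ d * Mx N l := by
  classical
  rcases Nat.eq_zero_or_pos l with hl | hl
  · subst hl
    rcases Nat.eq_zero_or_pos d with hd | hd
    · subst hd
      have h1 := Mx_le hN (k * 0)
      have h2 : 1 ≤ Mx N 0 := by
        have h : Pk N (0 : Fin 0 → ℝ) (0 : ℕ) {0} :=
          ⟨fun x hx j => j.elim0, fun x hx j => j.elim0, fun x hx y hy hxy =>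
            absurd ((mem_singleton.1 hx).trans (mem_singleton.1 hy).symm) hxy⟩
        exact (card_singleton (0 : Fin 0 → ℝ)) ▸ h.le_Mx hN
      simp only [pow_zero] at h1 ⊢
      omega
    · have h1 := Mx_le hN (k * 0)
      rw [mul_zero, zero_pow hd.ne'] at h1
      rw [mul_zero]
      omega
  obtain ⟨S, h, e⟩ := exists_Mx hN (k * l)
  rw [← e]
  have hl' : (0 : ℝ) < l := by exact_mod_cast hl
  have hfl : ∀ x ∈ S, ∀ j, (⌊x j / l⌋₊ : ℝ) * l ≤ x j ∧ x j < (⌊x j / l⌋₊ + 1) * l := by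
    intro x hx j
    have h0 : 0 ≤ x j := h.lo x hx j
    constructor
    · have := Nat.floor_le (div_nonneg h0 hl'.le)
      rwa [le_div_iff₀ hl'] at this
    · have := Nat.lt_floor_add_one (x j / l)
      rwa [div_lt_iff₀ hl'] at this
  have hlt : ∀ x ∈ S, ∀ j, ⌊x j / l⌋₊ < k := by
    intro x hx j
    rw [Nat.floor_lt (div_nonneg (h.lo x hx j) hl'.le), div_lt_iff₀ hl']
    have := h.hi x hx j
    simp only [Pi.zero_apply, zero_add] at this
    push_cast at this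
    exact this
  have h1 : S.card ≤ (Fintype.piFinset fun _ : Fin d => range k).card * Mx N l := by
    rw [mul_comm]
    refine card_le_mul_card_image_of_maps_to (f := fun (x : Fin d → ℝ) j => ⌊x j / l⌋₊)
      (fun x hx => ?_) (Mx N l) (fun v hv => ?_)
    · rw [Fintype.mem_piFinset]
      exact fun j => mem_range.2 (hlt x hx j)
    · have h2 : Pk N (fun j => (v j : ℝ) * l) l (S.filter fun x => (fun j => ⌊x j / l⌋₊) = v) := by
        refine ⟨fun x hx j => ?_, fun x hx j => ?_, fun x hx y hy hxy => ?_⟩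
        · obtain ⟨hx1, hx2⟩ := mem_filter.1 hx
          have e1 : ⌊x j / l⌋₊ = v j := congrFun hx2 j
          have := (hfl x hx1 j).1
          rwa [e1] at this
        · obtain ⟨hx1, hx2⟩ := mem_filter.1 hx
          have e1 : ⌊x j / l⌋₊ = v j := congrFun hx2 j
          have := (hfl x hx1 j).2
          rw [e1] at this
          linarith
        · exact h.sep x (mem_filter.1 hx).1 y (mem_filter.1 hy).1 hxy
      exact h2.le_Mx hN
  refine h1.trans (le_of_eq ?_)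
  rw [Fintype.card_piFinset]
  simp

end Mx

section Core

variable {N : Set (Fin d → ℝ)} {c : ℝ} {D : ℕ} (hN : Core N c D)

include hN

theorem Core.D_pos : 0 < d → 1 ≤ D := by
  intro hd
  have h1 := hN.bdd 0 (hN.cube 0 fun j => by simp) ⟨0, hd⟩
  have h2 : (0 : ℝ) < D := lt_of_le_of_lt (abs_nonneg _) h1
  exact_mod_cast h2

/-- Separated copies of a packing. -/
theorem le_Mx_mul (k l : ℕ) : k ^ d * Mx N l ≤ Mx N (k * (l + D)) := by
  classical
  obtain ⟨S, h, e⟩ := exists_Mx hN.cube l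
  set V := Fintype.piFinset fun _ : Fin d => range k with hV
  set f : (Fin d → ℕ) × (Fin d → ℝ) → (Fin d → ℝ) := fun p j => p.1 j * (l + D : ℕ) + p.2 j
    with hf
  have hx : ∀ x ∈ S, ∀ j, 0 ≤ x j ∧ x j < l := fun x hx j => by
    have h1 := h.lo x hx j
    have h2 := h.hi x hx j
    simp only [Pi.zero_apply, zero_add] at h1 h2
    exact ⟨h1, h2⟩
  have hsep : ∀ p ∈ V ×ˢ S, ∀ q ∈ V ×ˢ S, p ≠ q → f p - f q ∉ N := by
    intro p hp q hq hpq hmem
    obtain ⟨hp1, hp2⟩ := mem_product.1 hp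
    obtain ⟨hq1, hq2⟩ := mem_product.1 hq
    by_cases hv : p.1 = q.1
    · have h1 : f p - f q = p.2 - q.2 := by
        funext j
        simp only [hf, Pi.sub_apply, hv]
        ring
      rw [h1] at hmem
      exact h.sep _ hp2 _ hq2 (fun h2 => hpq (Prod.ext hv h2)) hmem
    · obtain ⟨j, hj⟩ := Function.ne_iff.1 hv
      have h1 := hN.bdd _ hmem j
      have h2 := hx _ hp2 j
      have h3 := hx _ hq2 j
      have h4 : f p j - f q j = ((p.1 j : ℝ) - q.1 j) * (l + D : ℕ) + (p.2 j - q.2 j) := by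
        simp only [hf]
        ring
      rw [Pi.sub_apply, h4, abs_lt] at h1
      have hlD : (0 : ℝ) ≤ ((l + D : ℕ) : ℝ) := Nat.cast_nonneg _
      have hcast : ((l + D : ℕ) : ℝ) = l + D := by push_cast; ring
      rcases Nat.lt_or_gt_of_ne hj with h5 | h5
      · have h6 : (p.1 j : ℝ) + 1 ≤ q.1 j := by exact_mod_cast h5
        have h7 : ((p.1 j : ℝ) - q.1 j) * (l + D : ℕ) ≤ -1 * (l + D : ℕ) :=
          mul_le_mul_of_nonneg_right (by linarith) hlD
        rw [hcast] at h1 h7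
        linarith [h1.1, h2.2, h3.1]
      · have h6 : (q.1 j : ℝ) + 1 ≤ p.1 j := by exact_mod_cast h5
        have h7 : 1 * ((l + D : ℕ) : ℝ) ≤ ((p.1 j : ℝ) - q.1 j) * (l + D : ℕ) :=
          mul_le_mul_of_nonneg_right (by linarith) hlD
        rw [hcast] at h1 h7
        linarith [h1.2, h2.1, h3.2]
  have hz : (0 : Fin d → ℝ) ∈ N := hN.cube 0 fun j => by simp
  have hinj : Set.InjOn f (V ×ˢ S : Finset _) := by
    intro p hp q hq hpq
    by_contra hne
    refine hsep p hp q hq hne ?_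
    rw [hpq, sub_self]
    exact hz
  have h2 : Pk N 0 ((k * (l + D) : ℕ) : ℝ) ((V ×ˢ S).image f) := by
    refine ⟨fun x hx' j => ?_, fun x hx' j => ?_, fun x hx' y hy' hxy => ?_⟩
    · obtain ⟨p, hp, rfl⟩ := mem_image.1 hx'
      have h2 := hx _ (mem_product.1 hp).2 j
      simp only [hf, Pi.zero_apply]
      have := h2.1
      positivity
    · obtain ⟨p, hp, rfl⟩ := mem_image.1 hx'
      have h2 := hx _ (mem_product.1 hp).2 j
      have h3 := mem_range.1 (Fintype.mem_piFinset.1 (mem_product.1 hp).1 j)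
      have h4 : (p.1 j : ℝ) + 1 ≤ k := by exact_mod_cast h3
      have h5 : ((p.1 j : ℝ) + 1) * ((l + D : ℕ) : ℝ) ≤ k * ((l + D : ℕ) : ℝ) :=
        mul_le_mul_of_nonneg_right h4 (Nat.cast_nonneg _)
      simp only [hf, Pi.zero_apply, zero_add]
      push_cast at h5 ⊢
      have hD0 : (0 : ℝ) ≤ D := Nat.cast_nonneg _
      linarith [h2.2]
    · obtain ⟨p, hp, rfl⟩ := mem_image.1 hx'
      obtain ⟨q, hq, rfl⟩ := mem_image.1 hy'
      exact hsep p hp q hq fun h => hxy (by rw [h])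
  have h3 := h2.le_Mx hN.cube
  rw [card_image_of_injOn hinj, card_product, hV, Fintype.card_piFinset, e] at h3
  simpa using h3

end Core

/-- **The packing constant.** -/
noncomputable def pk (N : Set (Fin d → ℝ)) : ℝ := ⨅ k : ℕ, (Mx N (k + 1) : ℝ) / ((k + 1 : ℕ) : ℝ) ^ d

section pk

variable {N : Set (Fin d → ℝ)}

theorem pk_bdd : BddBelow (Set.range fun k : ℕ => (Mx N (k + 1) : ℝ) / ((k + 1 : ℕ) : ℝ) ^ d) :=
  ⟨0, by rintro x ⟨k, rfl⟩; positivity⟩

theorem pk_nonneg : 0 ≤ pk N := le_ciInf fun k => by positivity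

/-- Lower bound of `Mx`. -/
theorem pk_le {k : ℕ} (hk : 1 ≤ k) : pk N * (k : ℝ) ^ d ≤ Mx N k := by
  have h := ciInf_le (pk_bdd (N := N)) (k - 1)
  have e : k - 1 + 1 = k := by omega
  simp only [e] at h
  have hk' : (0 : ℝ) < (k : ℝ) ^ d := by
    have : (0 : ℝ) < k := by exact_mod_cast hk
    positivity
  rwa [le_div_iff₀ hk'] at h

variable {c : ℝ} {D : ℕ} (hN : Core N c D)

include hN

theorem pk_le_one : pk N ≤ 1 := by
  have h := ciInf_le (pk_bdd (N := N)) 0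
  have h1 : (Mx N 1 : ℝ) ≤ 1 := by
    have := Mx_le hN.cube 1
    rw [one_pow] at this
    exact_mod_cast this
  refine h.trans ?_
  simp only [zero_add, Nat.cast_one, one_pow, div_one]
  exact h1

/-- Upper bound of `Mx`. -/
theorem Mx_le_pk {l : ℕ} (hl : 1 ≤ l) : (Mx N l : ℝ) ≤ pk N * ((l : ℝ) + D) ^ d := by
  have hlD : (0 : ℝ) < (l : ℝ) + D := by
    have h1 : (1 : ℝ) ≤ l := by exact_mod_cast hl
    have h2 : (0 : ℝ) ≤ D := Nat.cast_nonneg _
    linarith
  rw [← div_le_iff₀ (by positivity)]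
  refine le_ciInf fun n => ?_
  have hn : (0 : ℝ) < ((n + 1 : ℕ) : ℝ) := by positivity
  have h1 : (n + 1) ^ d * Mx N l ≤ (l + D) ^ d * Mx N (n + 1) := by
    refine (le_Mx_mul hN (n + 1) l).trans ?_
    rw [mul_comm (n + 1) (l + D)]
    exact Mx_mul_le hN.cube (l + D) (n + 1)
  have h2 : ((n + 1 : ℕ) : ℝ) ^ d * Mx N l ≤ ((l : ℝ) + D) ^ d * Mx N (n + 1) := by
    exact_mod_cast h1
  rw [div_le_div_iff₀ (by positivity) (by positivity)]
  linarith

theorem pk_pos : 0 < pk N := by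
  by_contra hcon
  have h0 : pk N = 0 := le_antisymm (not_lt.1 hcon) pk_nonneg
  have h1 := Mx_le_pk hN (le_refl 1)
  rw [h0, zero_mul] at h1
  have h2 := one_le_Mx hN.cube (le_refl 1)
  have h3 : (1 : ℝ) ≤ Mx N 1 := by exact_mod_cast h2
  linarith

/-- The upper bound with a surface term. -/
theorem Mx_le_surf (hd : 0 < d) {l : ℕ} (hl : 1 ≤ l) :
    (Mx N l : ℝ) ≤ pk N * (l : ℝ) ^ d + (1 + D : ℝ) ^ d * (l : ℝ) ^ (d - 1) := by
  refine (Mx_le_pk hN hl).trans ?_
  have hl' : (1 : ℝ) ≤ l := by exact_mod_cast hl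
  have hD : (0 : ℝ) ≤ D := Nat.cast_nonneg _
  have hp := pk_le_one hN
  have hp0 := pk_nonneg (N := N)
  have key : ((l : ℝ) + D) ^ d ≤ (l : ℝ) ^ d + (1 + D : ℝ) ^ d * (l : ℝ) ^ (d - 1) := by
    rw [add_pow (l : ℝ) D d, add_pow (1 : ℝ) D d, sum_range_succ, sum_mul, sum_range_succ]
    have h1 : ∀ i ∈ range d, (l : ℝ) ^ i * (D : ℝ) ^ (d - i) * (d.choose i : ℝ) ≤
        1 ^ i * (D : ℝ) ^ (d - i) * (d.choose i : ℝ) * (l : ℝ) ^ (d - 1) := by
      intro i hi
      have hi' := mem_range.1 hi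
      have h2 : (l : ℝ) ^ i ≤ (l : ℝ) ^ (d - 1) := pow_le_pow_right₀ hl' (by omega)
      rw [one_pow, one_mul]
      calc (l : ℝ) ^ i * (D : ℝ) ^ (d - i) * (d.choose i : ℝ) ≤
          (l : ℝ) ^ (d - 1) * (D : ℝ) ^ (d - i) * (d.choose i : ℝ) := by gcongr
        _ = _ := by ring
    have h3 := sum_le_sum h1
    have h4 : (l : ℝ) ^ d * (D : ℝ) ^ (d - d) * (d.choose d : ℝ) = (l : ℝ) ^ d := by simp
    rw [h4]
    have h5 : 0 ≤ (1 : ℝ) ^ d * (D : ℝ) ^ (d - d) * (d.choose d : ℝ) * (l : ℝ) ^ (d - 1) := by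
      positivity
    linarith
  calc pk N * ((l : ℝ) + D) ^ d ≤
      pk N * ((l : ℝ) ^ d + (1 + D : ℝ) ^ d * (l : ℝ) ^ (d - 1)) := by gcongr
    _ = pk N * (l : ℝ) ^ d + pk N * ((1 + D : ℝ) ^ d * (l : ℝ) ^ (d - 1)) := by ring
    _ ≤ _ := by
      have h6 : 0 ≤ (1 + D : ℝ) ^ d * (l : ℝ) ^ (d - 1) := by positivity
      nlinarith

end pk

end Pool.Agent.RC
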