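import Pool.Agent.Lib.MP_09cbbd_rc.Mov
import Pool.Agent.Lib.MP_09cbbd_rc.Cell
import Pool.Agent.Lib.MP_09cbbd_rc.Pack

/-!
# Rows and columns: the good contents of a cell, and the gas on cells
-/

set_option autoImplicit false

namespace Pool.Agent.RC

open MeasureTheory Finset Pool.Agent.SquareWellGas Pool.Agent.SquareWell.ModA
open Pool.Agent.StableGas hiding tr
open Pool.Agent.Exg
open Pool.Agent.Mix Ct

variable {d : ℕ} {h w : ℝ}

/-! ### The good contents -/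

/-- Differences of the beads of one molecule in the direction `i`. -/
def QW (E : Set (Fin d → ℝ)) (i : Fin d) (α δ : ℝ) (M : ℕ) : Set (Fin d → ℝ) :=
  {u | u ∉ E ∧ Bd.Win i α δ M u}

/-- Good rows: they move in all directions except `i₁`. -/
def GA (E : Set (Fin d → ℝ)) (i₁ _i₂ : Fin d) (m : ℕ) (α a h w : ℝ) : Set (Ct (Fin d → ℝ)) :=
  Ty i₁ (3 * m) m (QW E i₁ α a m) h w

/-- Good columns: they move in all directions except `i₂`. -/
def GB (E : Set (Fin d → ℝ)) (_i₁ i₂ : Fin d) (m : ℕ) (α b h w : ℝ) : Set (Ct (Fin d → ℝ)) :=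
  Ty i₂ (3 * m) (m + 1) (QW E i₂ α b (m + 1)) h w

open Classical in
/-- Number of missing beads of a good content. -/
noncomputable def gms (E : Set (Fin d → ℝ)) (i₁ i₂ : Fin d) (m : ℕ) (α a h w : ℝ)
    (x : Ct (Fin d → ℝ)) : ℕ :=
  if x ∈ GA E i₁ i₂ m α a h w then m - x.1 else m + 1 - x.1

variable {i₁ i₂ : Fin d} {m : ℕ} {R α a b β β' τ ε : ℝ} {N E : Set (Fin d → ℝ)}

theorem measurableSet_QW (hE : MeasurableSet E) (i : Fin d) (α δ : ℝ) (M : ℕ) :
    MeasurableSet (QW E i α δ M) :=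
  hE.compl.inter (Cell.measurable_Win i α δ M)

theorem QW_other {i j : Fin d} (hij : j ≠ i) {δ : ℝ} {M : ℕ} :
    ∀ u ∈ QW E i α δ M, |u j| ≤ δ := by
  rintro u ⟨_, k, _, _, _, h⟩
  exact h j hij

theorem QW_others {i : Fin d} {δ : ℝ} {M : ℕ} :
    ∀ u ∈ QW E i α δ M, ∀ j, j ≠ i → |u j| ≤ δ := fun _ hu _ hj => QW_other hj _ hu

theorem QW_E {i : Fin d} {δ : ℝ} {M : ℕ} : ∀ u ∈ QW E i α δ M, u ∉ E := fun _ h => h.1

theorem measurableSet_GA (hE : MeasurableSet E) : MeasurableSet (GA E i₁ i₂ m α a h w) :=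
  measurableSet_Ty _ _ _ (measurableSet_QW hE _ _ _ _) _ _

theorem measurableSet_GB (hE : MeasurableSet E) : MeasurableSet (GB E i₁ i₂ m α b h w) :=
  measurableSet_Ty _ _ _ (measurableSet_QW hE _ _ _ _) _ _

theorem measurable_gms (hE : MeasurableSet E) : Measurable (gms E i₁ i₂ m α a h w) := by
  classical
  have h1 : ∀ f : ℕ → ℕ, Measurable fun x : Ct (Fin d → ℝ) => f x.1 := fun f =>
    (measurable_of_countable f).comp measurable_fst
  unfold gms
  exact Measurable.ite (measurableSet_GA (i₂ := i₂) hE) (h1 fun n => m - n) (h1 fun n => m + 1 - n)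

theorem gms_A {x : Ct (Fin d → ℝ)} (hx : x ∈ GA E i₁ i₂ m α a h w) :
    gms E i₁ i₂ m α a h w x = m - x.1 := if_pos hx

theorem GA_le {x : Ct (Fin d → ℝ)} (hx : x ∈ GA E i₁ i₂ m α a h w) : x.1 ≤ m := hx.2.1

theorem GB_le {x : Ct (Fin d → ℝ)} (hx : x ∈ GB E i₁ i₂ m α b h w) : x.1 ≤ m + 1 := hx.2.1

theorem GA_few {x : Ct (Fin d → ℝ)} (hx : x ∈ GA E i₁ i₂ m α a h w) : 3 * m ≤ 4 * x.1 := hx.1

theorem GB_few {x : Ct (Fin d → ℝ)} (hx : x ∈ GB E i₁ i₂ m α b h w) : 3 * m ≤ 4 * x.1 := hx.1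

theorem GA_dir {x : Ct (Fin d → ℝ)} (hx : x ∈ GA E i₁ i₂ m α a h w) :
    Cell.InDir i₁ α a m x := fun k hk l hl hkl => (hx.2.2.1 k hk l hl hkl).2

theorem GB_dir {x : Ct (Fin d → ℝ)} (hx : x ∈ GB E i₁ i₂ m α b h w) :
    Cell.InDir i₂ α b (m + 1) x := fun k hk l hl hkl => (hx.2.2.1 k hk l hl hkl).2

section Facts

variable (hG : Geo d i₁ i₂ m R α a b β β' τ ε N E)

include hG

theorem Geo.α_pos : 0 < α := by
  have h1 := hG.hb
  have h2 := hG.hba
  have h3 := hG.ha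
  linarith

theorem Geo.a_pos : 0 < a := hG.hb.trans_le hG.hba

/-- A molecule with at least two beads is not a row and a column. -/
theorem Geo.not_dir {x : Ct (Fin d → ℝ)} (h2 : 2 ≤ x.1) (hA : Cell.InDir i₁ α a m x)
    (hB : Cell.InDir i₂ α b (m + 1) x) : False := by
  obtain ⟨k, hk, -, h3, -⟩ := hA 0 (by omega) 1 (by omega) (by omega)
  obtain ⟨l, -, -, -, h4⟩ := hB 0 (by omega) 1 (by omega) (by omega)
  have h5 := h4 i₁ hG.ne
  have h6 : (1 : ℝ) ≤ |(k : ℝ)| := by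
    have : (1 : ℤ) ≤ |k| := Int.one_le_abs hk
    exact_mod_cast this
  have h7 : α ≤ |(k : ℝ) * α| := by
    rw [abs_mul, abs_of_pos hG.α_pos]
    nlinarith [hG.α_pos]
  have h8 := abs_sub_abs_le_abs_sub ((k : ℝ) * α) ((x.2 0 - x.2 1) i₁)
  rw [abs_sub_comm] at h8
  have h9 := hG.hba
  have h10 := hG.ha
  have h11 := hG.hb
  linarith

theorem Geo.two_le {x : Ct (Fin d → ℝ)} (hx : 3 * m ≤ 4 * x.1) : 2 ≤ x.1 := by
  have := hG.hm
  omega

theorem Geo.disj : Disjoint (GA E i₁ i₂ m α a h w) (GB E i₁ i₂ m α b h w) := by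
  rw [Set.disjoint_left]
  intro x hA hB
  exact hG.not_dir (hG.two_le (GA_few hA)) (GA_dir hA) (GB_dir hB)

theorem Geo.gms_B {x : Ct (Fin d → ℝ)} (hx : x ∈ GB E i₁ i₂ m α b h w) :
    gms E i₁ i₂ m α a h w x = m + 1 - x.1 :=
  if_neg fun hA => Set.disjoint_left.1 (hG.disj (h := h) (w := w)) hA hx

theorem Geo.e0_A : (Exg.e0 : Ct (Fin d → ℝ)) ∉ GA E i₁ i₂ m α a h w := by
  intro hx
  have := hG.two_le (GA_few hx)
  rw [Cell.e0_fst] at this
  omega

theorem Geo.e0_B : (Exg.e0 : Ct (Fin d → ℝ)) ∉ GB E i₁ i₂ m α b h w := by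
  intro hx
  have := hG.two_le (GB_few hx)
  rw [Cell.e0_fst] at this
  omega

theorem Geo.Vx_A (hh : 0 < h) (haw : a < w) {x : Ct (Fin d → ℝ)}
    (hx : x ∈ GA E i₁ i₂ m α a h w) : Vx E x :=
  Ty_Vx (by have := hG.hm; omega) hh hG.a_pos.le haw QW_others QW_E hx

theorem Geo.Vx_B (hh : 0 < h) (haw : a < w) {x : Ct (Fin d → ℝ)}
    (hx : x ∈ GB E i₁ i₂ m α b h w) : Vx E x :=
  Ty_Vx (by have := hG.hm; omega) hh hG.hb.le (hG.hba.trans_lt haw) QW_others QW_E hx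

/-- A molecule of one type with enough beads is good or near a wall. -/
theorem Geo.wall_of (hh : 0 < h) (hhα : (m + 1) * α ≤ h) {i i' : Fin d} {n M : ℕ} {δ : ℝ}
    {x : Ct (Fin d → ℝ)} (hx : Vx E x) (hn : x.1 ≤ n) (h3 : 3 * m ≤ 4 * x.1)
    (hd : Cell.InDir i α δ M x) (hT : x ∉ Ty i' (3 * m) n (QW E i α δ M) h w) :
    x.2 0 ∈ Cell.wall d (w + h) := by
  have hx0 : 0 < x.1 := by
    have := hG.two_le h3
    omega
  refine ⟨hx.1 0 hx0, ?_⟩
  by_contra hcon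
  push Not at hcon
  refine hT ⟨h3, hn, fun k hk l hl hkl => ⟨hx.2 k hk l hl hkl, hd k hk l hl hkl⟩,
    fun k hk => ?_, fun j _ => ?_⟩
  · have h4 := abs_le.1 (Cell.near_zero hG hx hk i')
    have h5 := hcon i'
    constructor
    · linarith [h4.1, h5.1]
    · linarith [h4.2, h5.2]
  · have h4 := base_add hh (x.2 0 j)
    have h5 := fract_bds hh (x.2 0 j)
    have h6 := hcon j
    constructor
    · linarith [h6.1, h5.1, h5.2]
    · linarith [h6.2, h5.1, h5.2]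

end Facts

/-! ### The gas -/

open Pointwise in
/-- The near fields with margins. -/
def cNk (N : Set (Fin d → ℝ)) (c τ h : ℝ) (k : ℕ) : Set (Fin d → ℝ) :=
  (1 + τ + k * (h / c)) • N

theorem cNk_zero (N : Set (Fin d → ℝ)) (c τ h : ℝ) :
    cNk N c τ h 0 = (open Pointwise in (1 + τ) • N) := by
  unfold cNk
  rw [Nat.cast_zero, zero_mul, add_zero]

open Pointwise in
theorem nest_cNk {c : ℝ} {D : ℕ} (hC : Core N c D) (hτ : 0 ≤ τ) (hh : 0 ≤ h) (hhc : h ≤ c) :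
    Nest d h (cNk N c τ h) := by
  have hc := hC.c_pos
  have key : ∀ k : ℕ, ∀ u v : Fin d → ℝ, u ∉ cNk N c τ h (k + 1) → (∀ j, |v j| ≤ h) →
      u + v ∉ cNk N c τ h k := by
    intro k u v hu hv hw
    set s : ℝ := 1 + τ + k * (h / c) with hs
    have hk0 : 0 ≤ (k : ℝ) * (h / c) := by positivity
    have hs1 : 1 ≤ s := by linarith
    have hs0 : 0 < s := by linarith
    set s' : ℝ := 1 + τ + (k + 1 : ℕ) * (h / c) with hs'
    have e1 : s' = s + h / c := by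
      rw [hs', hs]
      push_cast
      ring
    have hhc0 : 0 ≤ h / c := by positivity
    have hs'0 : 0 < s' := by linarith
    have hu' : s'⁻¹ • u ∉ N := by
      intro h1
      exact hu ((Set.mem_smul_set_iff_inv_smul_mem₀ hs'0.ne' _ _).2 h1)
    have hw' : s⁻¹ • (u + v) ∈ N := (Set.mem_smul_set_iff_inv_smul_mem₀ hs0.ne' _ _).1 hw
    have he0 : 0 ≤ h / c / s := by positivity
    have he1 : h / c / s ≤ 1 := by
      rw [div_le_one hs0]
      exact ((div_le_one hc).2 hhc).trans hs1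
    refine hC.exp _ hu' (h / c / s) he0 he1 (s⁻¹ • v) (fun j => ?_) ?_
    · rw [Pi.smul_apply, smul_eq_mul, abs_mul, abs_of_pos (inv_pos.2 hs0)]
      have h2 : c * (h / c / s) = s⁻¹ * h := by
        field_simp
      rw [h2]
      exact mul_le_mul_of_nonneg_left (hv j) (inv_pos.2 hs0).le
    · have e2 : (1 + h / c / s) • s'⁻¹ • u + s⁻¹ • v = s⁻¹ • (u + v) := by
        rw [smul_add, smul_smul]
        congr 2
        rw [e1]
        have h3 : s + h / c ≠ 0 := by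
          rw [← e1]
          exact hs'0.ne'
        rw [eq_comm, inv_eq_one_div, div_eq_iff hs0.ne', mul_assoc, mul_comm _ s, ← mul_assoc,
          add_mul, one_mul, div_mul_cancel₀ _ hs0.ne', mul_inv_cancel₀ h3]
      rw [e2]
      exact hw'
  refine ⟨fun k u hu => ?_, key⟩
  by_contra h1
  have h2 := key k u 0 h1 (fun j => by
    rw [Pi.zero_apply, abs_zero]
    exact hh)
  rw [add_zero] at h2
  exact h2 hu

open Pointwise in
/-- The gas on cells. -/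
noncomputable def Geo.ng (hG : Geo d i₁ i₂ m R α a b β β' τ ε N E) {c : ℝ} {D : ℕ}
    (hC : Core N c D) (hh : 0 ≤ h) (hhc : h ≤ c) {q r : ℕ} (hq : (1 + τ + 2 * (h / c)) * D ≤ q)
    (hr : 2 * R + 3 ≤ r) (hqr : q ≤ r) : Ng d E where
  Nk := cNk N c τ h
  q := q
  r := r
  hE := hG.meas
  hn := hG.sym
  meas := fun k => hC.meas.const_smul₀ _
  sym := fun k u hu => by
    obtain ⟨z, hz, rfl⟩ := hu
    exact ⟨-z, hC.sym z hz, smul_neg _ _⟩
  mono := (nest_cNk hC hG.hτ hh hhc).mono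
  hNq := fun k hk u hu j => by
    obtain ⟨z, hz, rfl⟩ := hu
    have h1 := (hC.bdd z hz j).le
    have h2 : (k : ℝ) ≤ 2 := by exact_mod_cast hk
    have hc := hC.c_pos
    have h3 : 0 ≤ h / c := by positivity
    have h4 := mul_le_mul_of_nonneg_right h2 h3
    have h5 : 0 ≤ 1 + τ + (k : ℝ) * (h / c) := by
      have := hG.hτ
      positivity
    show |(1 + τ + (k : ℝ) * (h / c)) * z j| ≤ q
    rw [abs_mul, abs_of_nonneg h5]
    refine (mul_le_mul_of_nonneg_left h1 h5).trans (le_trans ?_ hq)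
    exact mul_le_mul_of_nonneg_right (by linarith) (Nat.cast_nonneg _)
  hEr := fun u hu j => (hG.bdd u hu j).trans hr
  hqr := hqr

section

variable (hG : Geo d i₁ i₂ m R α a b β β' τ ε N E) {c : ℝ} {D : ℕ} (hC : Core N c D)
  (hh : 0 < h) (hhc : h ≤ c) {q r : ℕ} (hq : (1 + τ + 2 * (h / c)) * D ≤ q)
  (hr : 2 * R + 3 ≤ r) (hqr : q ≤ r)

/-- **The mover of the rows.** -/
theorem Geo.mvr_A (hε : 0 ≤ ε) (haw : a < w) {n : ℕ} (hn : h = n * ((m + 1) * α)) :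
    Mvr (hG.ng hC hh.le hhc hq hr hqr) (insert Exg.e0 (GA E i₁ i₂ m α a h w)) i₁ h
      (ENNReal.ofReal (2 * (β' + 2 * a) / ((m + 1) * α) + m ^ 2 * ε)) := by
  obtain ⟨J₁, J₂, J₃, hJ₁, hJ₂, hJ₃, hJ⟩ := hG.junk
  have hα := hG.α_pos
  have ha := hG.a_pos
  have hβ : 0 ≤ β' := by
    have h1 := hG.hβ
    have h2 := hG.hββ
    linarith
  have hn₃ : h = ((n * (m + 1) : ℕ) : ℝ) * α := by
    rw [hn]
    push_cast
    ring
  refine Ng.mvr _ (nest_cNk hC hG.hτ hh.le hhc) hG.ne.symm (by have := hG.hm; omega) ha.le haw hβ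
    (by positivity) hα (measurableSet_QW hG.meas _ _ _ _) QW_others QW_E hε hJ₂ hJ₃ ?_ hn hn₃ hh
  intro u hu hun
  have hun' : u ∉ cNk N c τ h 0 := hun
  rw [cNk_zero] at hun'
  rcases hJ u hu hun' with h2 | h2 | h2
  · exact Or.inl h2.2
  · exact Or.inr (Or.inl h2.2)
  · exact Or.inr (Or.inr h2)

/-- **The mover of the columns.** -/
theorem Geo.mvr_B (hε : 0 ≤ ε) (haw : a < w) {n : ℕ} (hn : h = n * (m * α)) :
    Mvr (hG.ng hC hh.le hhc hq hr hqr) (insert Exg.e0 (GB E i₁ i₂ m α b h w)) i₂ h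
      (ENNReal.ofReal (2 * (β' + 2 * b) / (m * α) + ((m + 1 : ℕ) : ℝ) ^ 2 * ε)) := by
  obtain ⟨J₁, J₂, J₃, hJ₁, hJ₂, hJ₃, hJ⟩ := hG.junk
  have hα := hG.α_pos
  have hm : (0 : ℝ) < m := by
    have := hG.hm
    exact_mod_cast (by omega : 0 < m)
  have hβ : 0 ≤ β' := by
    have h1 := hG.hβ
    have h2 := hG.hββ
    have ha := hG.a_pos
    linarith
  have hn₃ : h = ((n * m : ℕ) : ℝ) * α := by
    rw [hn]
    push_cast
    ring
  refine Ng.mvr _ (nest_cNk hC hG.hτ hh.le hhc) hG.ne (by have := hG.hm; omega) hG.hb.le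
    (hG.hba.trans_lt haw) hβ (by positivity) hα (measurableSet_QW hG.meas _ _ _ _)
    QW_others QW_E hε hJ₁ hJ₃ ?_ hn hn₃ hh
  intro u hu hun
  have hun' : u ∉ cNk N c τ h 0 := hun
  rw [cNk_zero] at hun'
  rcases hJ u hu hun' with h2 | h2 | ⟨l, h3, h4, h5⟩
  · exact Or.inl h2.1
  · exact Or.inr (Or.inl h2.1)
  · exact Or.inr (Or.inr ⟨l, h4, h3, h5⟩)

end

end Pool.Agent.RC
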