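import Pool.Agent.Lib.MP_09cbbd_vw.Lay
import Pool.Agent.Lib.MP_09cbbd_vw.Sel

/-!
# Rows and columns, Peierls argument: definitions on the blocks
-/

set_option autoImplicit false

namespace Pool.Agent.RC

open MeasureTheory Finset Filter Topology Pool.Agent.StableGas
open Pool.Agent.SquareWell hiding Md cut
open Pool.Agent.Vdw (blk lift ball Lk Yk Wk Kc)

variable {d : ℕ}

/-- The blocks of `A` next to a block outside. -/
noncomputable def rim (A : Finset (Zd d)) : Finset (Zd d) := by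
  classical exact A.filter fun p => ∃ q ∈ ball 1 p, q ∉ A

/-- The layer `κ`. -/
noncomputable def layer (s0 κ : ℕ) (A L DL OL : Finset (Zd d)) : Finset (Zd d) :=
  (Lk s0 (κ + 1) L DL OL \ Lk s0 κ L DL OL) ∩ A

/-- Half of the energy of the neighbourhood `κ` of the contours, minus the number of the unclean
cells in the next layer. `e L p` is the energy of the block `p` in the region `L`, `tA p` and `tB p`
are the numbers of the unclean cells of the block. -/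
noncomputable def QB (K1 : ℝ) (s0 κ : ℕ) (A : Finset (Zd d)) (e : Finset (Zd d) → Zd d → ℝ)
    (tA tB : Zd d → ℝ) (L DL OL : Finset (Zd d)) : ℝ := by
  classical exact 1 / 2 * ∑ p ∈ Lk s0 κ L DL OL ∩ A, e (Lk s0 κ L DL OL ∩ A) p -
    K1 * ∑ p ∈ layer s0 κ A L DL OL, if p ∈ DL then tA p else tB p

/-- Energies and unclean cells of the blocks of `A`, in units of `μ k ^ d` and of `k ^ d`. -/
structure Ben (c2 C1 : ℝ) (A : Finset (Zd d)) (D V : Zd d → Prop)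
    (e : Finset (Zd d) → Zd d → ℝ) (tA tB : Zd d → ℝ) : Prop where
  D_sub : ∀ i, D i → i ∈ A
  V_out : ∀ i, i ∉ A → V i
  D_not_V : ∀ i, D i → ¬ V i
  nonneg : ∀ L p, 0 ≤ e L p
  tA_nonneg : ∀ p, 0 ≤ tA p
  tA_le : ∀ p, tA p ≤ 1
  tB_nonneg : ∀ p, 0 ≤ tB p
  tB_le : ∀ p, tB p ≤ 1
  none : ∀ L ⊆ A, ∀ p ∈ A, ball 1 p ∩ A ⊆ L → ¬ D p → ¬ V p → c2 ≤ ∑ q ∈ ball 1 p ∩ A, e L q
  jump : ∀ L ⊆ A, ∀ p ∈ A, ball 1 p ∩ A ⊆ L → D p → (∃ q ∈ ball 1 p ∩ A, V q) →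
    c2 ≤ ∑ q ∈ ball 1 p ∩ A, e L q
  cleanA : ∀ L ⊆ A, ∀ p ∈ A, ball 1 p ∩ A ⊆ L → D p → tA p ≤ C1 * ∑ q ∈ ball 1 p ∩ A, e L q
  cleanB : ∀ L ⊆ A, ∀ p ∈ A, ball 1 p ∩ A ⊆ L → V p → tB p ≤ C1 * ∑ q ∈ ball 1 p ∩ A, e L q

end Pool.Agent.RC
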