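import Pool.Agent.Lib.MP_09cbbd_rc.CG
import Pool.Agent.Lib.MP_09cbbd_rc.PDef

/-!
# Rows and columns, Peierls argument: definitions on the cells
-/

set_option autoImplicit false

namespace Pool.Agent.RC

open MeasureTheory Finset Filter Topology Pool.Agent.StableGas
open Pool.Agent.SquareWell hiding Md cut
open Pool.Agent.Vdw (blk lift ball Lk Yk Wk Kc)
open Pool.Agent.Mix (Qr mem_Qr)

variable {d : ℕ}

/-- The blocks of `A` near a block outside. -/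
noncomputable def rimm (s : ℕ) (A : Finset (Zd d)) : Finset (Zd d) := by
  classical exact A.filter fun p => ∃ q ∈ ball s p, q ∉ A

/-- The cells of `X` near a cell outside. -/
noncomputable def LI (r : ℕ) (X : Finset (Zd d)) : Finset (Zd d) := by
  classical exact X.filter fun i => ∃ j, j ∉ X ∧ j - i ∈ Qr d r

/-- The cells outside near a cell of `X`. -/
noncomputable def LO (r : ℕ) (X : Finset (Zd d)) : Finset (Zd d) := by
  classical exact (X.biUnion fun i => (Qr d r).image fun v => i + v) \ X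

variable {E : Type} [MeasurableSpace E]

/-- Number of the cells of `X` with content in `S`. -/
noncomputable def cnt (S : Set E) (X : Finset (Zd d)) (ω : Zd d → E) : ℕ := by
  classical exact (X.filter fun i => ω i ∈ S).card

namespace CG

variable (M : CG d E)

/-- The cell `i` of the region `X` is unclean: it is not empty, and its content is not in `S` or
too near to the content of another cell. -/
def Un (S : Set E) (X : Finset (Zd d)) (ω : Zd d → E) (i : Zd d) : Prop :=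
  ω i ≠ M.e0 ∧ (ω i ∉ S ∨ ∃ l ∈ X, l ≠ i ∧ ¬ M.nf 2 (l - i) (ω i) (ω l))

/-- Number of the unclean cells of `T`, in the region `X`. -/
noncomputable def un (S : Set E) (X T : Finset (Zd d)) (ω : Zd d → E) : ℕ := by
  classical exact (T.filter fun i => M.Un S X ω i).card

/-- The gluing inequality for the phase `S`, with the field `h`, the density `ρ` of the cells
outside which are not in the phase, and the pressure `P`. -/
def Gl (S : Set E) (h : E → ℝ) (K ρ C P : ℝ) : Prop :=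
  ∀ X : Finset (Zd d), M.int X (fun ω => M.w h X ω *
      ex (-(K * M.un S X (LI (2 * M.r) X) ω))) ≤
    ex (X.card * P + K * ρ * (LO (2 * M.r) X).card + K * (LI M.q X).card +
      C * ((LI (2 * M.r) X).card + (LO (2 * M.r) X).card))

end CG

/-- The field with an additional field on `S`. -/
noncomputable def fa (h : E → ℝ) (S : Set E) (a : ℝ) (x : E) : ℝ := h x + a * S.indicator 1 x

/-- The block `p` is in the phase `A`. -/
def DA (SA : Set E) (φ : ℝ) (k : ℕ) (Q : Finset (Zd d)) (ω : Zd d → E) (p : Zd d) : Prop :=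
  p ∈ Q ∧ 3 / 4 * φ * (k : ℝ) ^ d ≤ cnt SA (blk k p) ω

/-- The block `p` is in the phase `B`, or outside. -/
def DB (SA SB : Set E) (φ : ℝ) (k : ℕ) (Q : Finset (Zd d)) (ω : Zd d → E) (p : Zd d) : Prop :=
  p ∉ Q ∨ (¬ DA SA φ k Q ω p ∧ 3 / 4 * φ * (k : ℝ) ^ d ≤ cnt SB (blk k p) ω)

/-- Fraction of the unclean cells of the block `p`. -/
noncomputable def tt (M : CG d E) (S : Set E) (k : ℕ) (Q : Finset (Zd d)) (ω : Zd d → E)
    (p : Zd d) : ℝ := M.un S (lift k Q) (blk k p) ω / (k : ℝ) ^ d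

/-- **The assumptions on the blocks.** `φ` is the density of the close packing, `eb L ω p` is the
energy of the block `p` in the region `L`, in units of `μ k ^ d`, and `p a` is the pressure for the
field `h + a` on `SA`. -/
structure Blk (M : CG d E) (SA SB : Set E) (h : E → ℝ) (p : ℝ → ℝ) (φ c2 C1 ε μ : ℝ) (k : ℕ)
    (eb : Finset (Zd d) → (Zd d → E) → Zd d → ℝ) : Prop where
  k_pos : 1 ≤ k
  μ_pos : 0 < μ
  SA_meas : MeasurableSet SA
  SB_meas : MeasurableSet SB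
  e0_A : M.e0 ∉ SA
  e0_B : M.e0 ∉ SB
  disj : Disjoint SA SB
  fld : M.Fld h
  isP : ∀ a, M.IsP (fa h SA a) (p a)
  eb_meas : ∀ L q, Measurable fun ω => eb L ω q
  eb_dep : ∀ L, ∀ q ∈ L, ∀ ω ω', (∀ i ∈ lift k L, ω i = ω' i) → eb L ω q = eb L ω' q
  eb_nonneg : ∀ L ω q, 0 ≤ eb L ω q
  none : ∀ Q ω, M.cp id (lift k Q) ω → ∀ L ⊆ Q, ∀ q ∈ Q, ball 1 q ∩ Q ⊆ L →
    ¬ DA SA φ k Q ω q → ¬ DB SA SB φ k Q ω q → c2 ≤ ∑ z ∈ ball 1 q ∩ Q, eb L ω z
  jump : ∀ Q ω, M.cp id (lift k Q) ω → ∀ L ⊆ Q, ∀ q ∈ Q, ball 1 q ∩ Q ⊆ L →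
    DA SA φ k Q ω q → (∃ z ∈ ball 1 q ∩ Q, DB SA SB φ k Q ω z) → c2 ≤ ∑ z ∈ ball 1 q ∩ Q, eb L ω z
  cleanA : ∀ Q ω, M.cp id (lift k Q) ω → ∀ L ⊆ Q, ∀ q ∈ Q, ball 1 q ∩ Q ⊆ L →
    DA SA φ k Q ω q → tt M SA k Q ω q ≤ C1 * ∑ z ∈ ball 1 q ∩ Q, eb L ω z
  cleanB : ∀ Q ω, M.cp id (lift k Q) ω → ∀ L ⊆ Q, ∀ q ∈ Q, ball 1 q ∩ Q ⊆ L →
    DB SA SB φ k Q ω q → tt M SB k Q ω q ≤ C1 * ∑ z ∈ ball 1 q ∩ Q, eb L ω z
  full : ∀ Q ω, M.cp id (lift k Q) ω → ∀ q ∈ Q, DA SA φ k Q ω q →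
    φ * (k : ℝ) ^ d - cnt SA (blk k q) ω ≤ C1 * (k : ℝ) ^ d * ∑ z ∈ ball 1 q ∩ Q, eb Q ω z
  rare : ∀ Q ω, M.cp id (lift k Q) ω → ∀ q ∈ Q, DB SA SB φ k Q ω q →
    cnt SA (blk k q) ω ≤ C1 * (k : ℝ) ^ d * ∑ z ∈ ball 1 q ∩ Q, eb Q ω z
  other : ∀ Q ω, M.cp id (lift k Q) ω → ∀ q ∈ Q, cnt (SA ∪ SB ∪ {M.e0})ᶜ (blk k q) ω ≤
    C1 * (k : ℝ) ^ d * ∑ z ∈ ball 1 q ∩ Q, eb Q ω z
  pack : ∀ Q ω, M.cp id (lift k Q) ω →
    cnt SA (lift k Q) ω + cnt SB (lift k Q) ω ≤ (φ + ε) * (k : ℝ) ^ d * Q.card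
  cr : ∀ L, M.int (lift k L) (fun ω => M.w h (lift k L) ω *
    ex (1 / 2 * μ * (k : ℝ) ^ d * ∑ q ∈ L, eb L ω q)) ≤ ex ((φ + ε) * μ * (k : ℝ) ^ d * L.card)
  lo : ∀ a, (φ - ε) * μ ≤ p a

/-- A class of configurations in the blocks of `Q`. The energy is at most `τ` per block, `L` is
the union of the large contours, `Y` the region outside in the phase `A`, `DL` and `OL` are the
blocks of `L` in the phase `A` and in no phase, the small contours fill a fraction at most `c0`,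
and the layer `κ` is good. -/
def Cls (M : CG d E) (SA SB : Set E) (φ : ℝ) (eb : Finset (Zd d) → (Zd d → E) → Zd d → ℝ)
    (τ c0 c4 C4 : ℝ) (k Mr st : ℕ) (Q : Finset (Zd d)) (s κ : ℕ)
    (L Y DL OL : Finset (Zd d)) : Set (Zd d → E) :=
  {ω | M.cp id (lift k Q) ω ∧ Cut Mr Q (DA SA φ k Q ω) (DB SA SB φ k Q ω) s L Y ∧
    (∀ i, i ∈ DL ↔ i ∈ L ∧ DA SA φ k Q ω i) ∧
    (∀ i, i ∈ OL ↔ i ∈ L ∧ ¬ DA SA φ k Q ω i ∧ ¬ DB SA SB φ k Q ω i) ∧
    ((∑ G ∈ ((bad Mr Q (DA SA φ k Q ω) (DB SA SB φ k Q ω)).image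
      (comp (bad Mr Q (DA SA φ k Q ω) (DB SA SB φ k Q ω)))).filter
        (fun G => (fill G).card < s), (fill G).card : ℕ) : ℝ) ≤ c0 * Q.card ∧
    ∑ q ∈ Q, eb Q ω q ≤ τ * Q.card ∧
    c4 * L.card - C4 * (rim Q).card ≤
      QB 2 st κ Q (fun L q => eb L ω q) (tt M SA k Q ω) (tt M SB k Q ω) L DL OL}

/-- `s` is a slope of the convex function `p` at `μ`. -/
def Sub (p : ℝ → ℝ) (μ s : ℝ) : Prop := ∀ x, p μ + (x - μ) * s ≤ p x

end Pool.Agent.RC
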