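import Pool.Agent.Lib.MP_09cbbd_rc.AB
import Pool.Agent.Lib.MP_09cbbd_rc.PCell

/-!
# Rows and columns: the shift inequalities
-/

set_option autoImplicit false

namespace Pool.Agent.RC

open MeasureTheory Finset Pool.Agent.SquareWellGas Pool.Agent.SquareWell.ModA
open Pool.Agent.StableGas hiding tr
open Pool.Agent.Exg
open Pool.Agent.Mix Ct

variable {d : ℕ} {h w : ℝ} {i₁ i₂ : Fin d} {m : ℕ} {R α a b β β' τ ε : ℝ}
  {N E : Set (Fin d → ℝ)}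

/-- The probability of a conflict is small. -/
theorem e1_le {γ : ℝ} {M n r : ℕ} (hα : 0 < α) (h1 : 40 * γ ≤ α)
    (h2 : 5 * β' ≤ 3 * α) (hm : 1 ≤ m) (hM : m ≤ M) (hn : n ≤ m + 1) (hε : 0 ≤ ε)
    (hr : 8 * (2 * r + 1) ^ d ≤ m) (hε' : 4 * (2 * (r : ℝ) + 1) ^ d * (m + 1) ^ 2 * ε ≤ 1) :
    ((2 * r + 1) ^ d : ℕ) * ENNReal.ofReal (2 * (β' + 2 * γ) / (M * α) + n ^ 2 * ε) ≤ 1 / 2 := by
  have hm' : (0 : ℝ) < m := by exact_mod_cast (by omega : 0 < m)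
  have hM' : (m : ℝ) ≤ M := by exact_mod_cast hM
  have hM0 : (0 : ℝ) < M := hm'.trans_le hM'
  have hn' : (n : ℝ) ≤ m + 1 := by exact_mod_cast hn
  have h3 : 2 * (β' + 2 * γ) / (M * α) ≤ 2 / m := by
    rw [div_le_div_iff₀ (by positivity) hm']
    have h4 : 2 * (β' + 2 * γ) ≤ 2 * α := by linarith
    have h5 : 2 * α * m ≤ 2 * (M * α) := by nlinarith
    exact (mul_le_mul_of_nonneg_right h4 hm'.le).trans h5
  have h6 : (n : ℝ) ^ 2 * ε ≤ (m + 1) ^ 2 * ε :=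
    mul_le_mul_of_nonneg_right (pow_le_pow_left₀ (Nat.cast_nonneg _) hn' 2) hε
  have h7 : (((2 * r + 1) ^ d : ℕ) : ℝ) * (2 * (β' + 2 * γ) / (M * α) + n ^ 2 * ε) ≤ 1 / 2 := by
    have h8 : 0 ≤ (((2 * r + 1) ^ d : ℕ) : ℝ) := Nat.cast_nonneg _
    refine (mul_le_mul_of_nonneg_left (add_le_add h3 h6) h8).trans ?_
    have h9 : (8 : ℝ) * (((2 * r + 1) ^ d : ℕ) : ℝ) ≤ m := by exact_mod_cast hr
    have h10 : (((2 * r + 1) ^ d : ℕ) : ℝ) * (2 / m) ≤ 1 / 4 := by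
      rw [mul_div_assoc', div_le_div_iff₀ hm' (by norm_num)]
      linarith
    have h11 : (((2 * r + 1) ^ d : ℕ) : ℝ) = (2 * (r : ℝ) + 1) ^ d := by push_cast; rfl
    have h12 : (((2 * r + 1) ^ d : ℕ) : ℝ) * ((m + 1) ^ 2 * ε) ≤ 1 / 4 := by
      rw [h11]
      linarith
    rw [mul_add]
    linarith
  rw [← ENNReal.ofReal_natCast ((2 * r + 1) ^ d), ← ENNReal.ofReal_mul (Nat.cast_nonneg _)]
  refine (ENNReal.ofReal_le_ofReal h7).trans (le_of_eq ?_)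
  rw [ENNReal.ofReal_div_of_pos (by norm_num), ENNReal.ofReal_one]
  norm_num

section

variable (hG : Geo d i₁ i₂ m R α a b β β' τ ε N E) {c : ℝ} {D : ℕ} (hC : Core N c D)
  (hh : 0 < h) (hhc : h ≤ c) {q r : ℕ} (hq : (1 + τ + 2 * (h / c)) * D ≤ q)
  (hr : 2 * R + 3 ≤ r) (hqr : q ≤ r)

theorem measurable_fab (hE : MeasurableSet E) (z t : ℝ) :
    Measurable (fa (fun x : Ct (Fin d → ℝ) => z * x.1) (GA E i₁ i₂ m α a h w) t) := by
  unfold fa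
  exact (((measurable_of_countable (fun n : ℕ => (n : ℝ))).comp measurable_fst).const_mul z).add
    ((measurable_one.indicator (measurableSet_GA hE)).const_mul t)

/-- **The shift inequality for the rows.** -/
theorem Geo.shA (hε : 0 ≤ ε) (haw : a < w) {n : ℕ} (hn : h = n * ((m + 1) * α))
    (hm8 : 8 * (2 * r + 1) ^ d ≤ m) (hε' : 4 * (2 * (r : ℝ) + 1) ^ d * (m + 1) ^ 2 * ε ≤ 1)
    (z t : ℝ) : (hG.ng hC hh.le hhc hq hr hqr).cg.SH
      (fa (fun x : Ct (Fin d → ℝ) => z * x.1) (GA E i₁ i₂ m α a h w) t)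
      (insert Exg.e0 (GA E i₁ i₂ m α a h w)) (insert Exg.e0 (GA E i₁ i₂ m α a h w)) (1 / 2) := by
  have hm := hG.hm
  refine (hG.mvr_A hC hh hhc hq hr hqr hε haw hn).sh_half (measurable_fab hG.meas z t)
    (fun θ x _ => ?_) ?_
  · unfold fa
    show z * (x.1 : ℝ) + _ = z * (x.1 : ℝ) + _
    congr 2
    have h1 : TT h i₁ (cl h θ) x ∈ GA E i₁ i₂ m α a h w ↔ x ∈ GA E i₁ i₂ m α a h w :=
      TT_mem_Ty (cl_nonneg h θ) (cl_lt hh θ) (by omega) x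
    by_cases hx : x ∈ GA E i₁ i₂ m α a h w
    · rw [Set.indicator_of_mem (h1.2 hx), Set.indicator_of_mem hx]
      rfl
    · rw [Set.indicator_of_notMem (fun h2 => hx (h1.1 h2)), Set.indicator_of_notMem hx]
  · have h2 := e1_le (d := d) (β' := β') (M := m + 1) (n := m) (r := r) hG.α_pos hG.ha
      hG.hβ' (by omega) (Nat.le_succ m) (Nat.le_succ m) hε hm8 hε'
    push_cast at h2 ⊢
    exact h2

/-- **The shift inequality for the columns.** -/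
theorem Geo.shB (hε : 0 ≤ ε) (haw : a < w) {n : ℕ} (hn : h = n * (m * α))
    (hm8 : 8 * (2 * r + 1) ^ d ≤ m) (hε' : 4 * (2 * (r : ℝ) + 1) ^ d * (m + 1) ^ 2 * ε ≤ 1)
    (z t : ℝ) : (hG.ng hC hh.le hhc hq hr hqr).cg.SH
      (fa (fun x : Ct (Fin d → ℝ) => z * x.1) (GA E i₁ i₂ m α a h w) t)
      (insert Exg.e0 (GB E i₁ i₂ m α b h w)) (insert Exg.e0 (GB E i₁ i₂ m α b h w)) (1 / 2) := by
  have hm := hG.hm
  refine (hG.mvr_B hC hh hhc hq hr hqr hε haw hn).sh_half (measurable_fab hG.meas z t)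
    (fun θ x hx => ?_) ?_
  · unfold fa
    show z * (x.1 : ℝ) + _ = z * (x.1 : ℝ) + _
    congr 2
    rcases hx with rfl | hx
    · rw [TT_e0]
    · have h1 : TT h i₂ (cl h θ) x ∈ GB E i₁ i₂ m α b h w ↔ x ∈ GB E i₁ i₂ m α b h w :=
        TT_mem_Ty (cl_nonneg h θ) (cl_lt hh θ) (by omega) x
      have h2 : ∀ y ∈ GB E i₁ i₂ m α b h w, y ∉ GA E i₁ i₂ m α a h w := fun y hy hy' =>
        Set.disjoint_left.1 (hG.disj (h := h) (w := w)) hy' hy
      rw [Set.indicator_of_notMem (h2 _ (h1.2 hx)), Set.indicator_of_notMem (h2 x hx)]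
  · have hba := hG.hba
    have ha := hG.ha
    have h2 := e1_le (d := d) (β' := β') (M := m) (n := m + 1) (r := r) hG.α_pos
      (by linarith) hG.hβ' (by omega) le_rfl le_rfl hε hm8 hε'
    exact h2

end

end Pool.Agent.RC
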