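import Pool.Agent.Lib.MP_09cbbd_rc.CubR

/-!
# Rows and columns round a general hard core: new contents and energies, abstract form

`nw S ω` are the new contents of the block `S` (one for every molecule with a piece in the block),
`Mx k` is the largest number of molecules in a cube of side `k`, `od` is a null set of contents. `SA`
are the good rows, `SB` the good columns, `ms` is the number of the missing beads of a good content.
-/

set_option autoImplicit false

namespace Pool.Agent.RC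

open MeasureTheory Finset Filter Topology Pool.Agent.StableGas
open Pool.Agent.SquareWell hiding Md cut
open Pool.Agent.Vdw (blk lift ball Lk Yk Wk Kc)
open Pool.Agent.Mix (Qr mem_Qr)

variable {d : ℕ} {E : Type} [MeasurableSpace E]

/-- The assumptions on the new contents. -/
structure Ldr (M : CG d E) (SA SB od : Set E) (Mx : ℕ → ℕ)
    (nw : Finset (Zd d) → (Zd d → E) → Finset (Zd d)) : Prop where
  od_meas : MeasurableSet od
  e0_od : M.e0 ∉ od
  od_nf : ∀ v x y, x ∈ od → M.nf 2 v x y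
  meas : ∀ S i, MeasurableSet {ω : Zd d → E | i ∈ nw S ω}
  dep : ∀ S (ω ω' : Zd d → E), (∀ i ∈ S, ω i = ω' i) → nw S ω = nw S ω'
  sub : ∀ S ω, nw S ω ⊆ S
  ne : ∀ S ω, ∀ i ∈ nw S ω, ω i ≠ M.e0 ∧ ω i ∉ od
  AB : ∀ S ω, M.cp id S ω → ∀ i ∈ S, ω i ∈ SA ∪ SB → i ∈ nw S ω
  lead : ∀ S ω, M.cp id S ω → ∀ i ∈ S, ω i ≠ M.e0 → ω i ∉ od → i ∉ nw S ω →
    ∃ l ∈ nw S ω, l - i ∈ Qr d 1 ∧ ω l ∉ SA ∪ SB
  pack : ∀ k z ω, M.cp id (blk k z) ω → (nw (blk k z) ω).card ≤ Mx k

open Classical in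
/-- Energy of the cell `i` of the block `S` in the region `X`. -/
noncomputable def ceN (M : CG d E) (SA SB od : Set E) (ms : E → ℕ) (m : ℕ) (c1 μ : ℝ)
    (nw : Finset (Zd d) → (Zd d → E) → Finset (Zd d)) (X S : Finset (Zd d)) (ω : Zd d → E)
    (i : Zd d) : ℝ :=
  (if i ∈ nw S ω then en SA SB ms m c1 μ (ω i) + if Lt M X ω i then c1 * μ else 0 else 0) +
    if ω i ∈ od then c1 * μ else 0

/-- Energy of the block `blk k q` in the region `X`. -/
noncomputable def GN (M : CG d E) (SA SB od : Set E) (ms : E → ℕ) (m : ℕ) (c1 μ : ℝ)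
    (nw : Finset (Zd d) → (Zd d → E) → Finset (Zd d)) (Mx : ℕ → ℕ) (k : ℕ) (X : Finset (Zd d))
    (ω : Zd d → E) (q : Zd d) : ℝ :=
  ∑ i ∈ blk k q, ceN M SA SB od ms m c1 μ nw X (blk k q) ω i +
    μ * ((Mx k - (nw (blk k q) ω).card : ℕ) : ℝ)

/-- Energy of the block `q` in the region `L`, in units of `μ k ^ d`. -/
noncomputable def ebN (M : CG d E) (SA SB od : Set E) (ms : E → ℕ) (m : ℕ) (c1 μ : ℝ)
    (nw : Finset (Zd d) → (Zd d → E) → Finset (Zd d)) (Mx : ℕ → ℕ) (k : ℕ)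
    (L : Finset (Zd d)) (ω : Zd d → E) (q : Zd d) : ℝ :=
  GN M SA SB od ms m c1 μ nw Mx k (lift k L) ω q / (μ * (k : ℝ) ^ d)

section

variable {M : CG d E} {SA SB od : Set E} {ms : E → ℕ} {m : ℕ} {c1 μ : ℝ}
  {nw : Finset (Zd d) → (Zd d → E) → Finset (Zd d)} {Mx : ℕ → ℕ} {k : ℕ}

theorem ceN_nonneg (hc1 : 0 ≤ c1) (hμ : 0 ≤ μ) (X S : Finset (Zd d)) (ω : Zd d → E) (i : Zd d) :
    0 ≤ ceN M SA SB od ms m c1 μ nw X S ω i := by
  have h1 := en_nonneg (SA := SA) (SB := SB) (ms := ms) (m := m) hc1 hμ (ω i)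
  have h2 := mul_nonneg hc1 hμ
  unfold ceN
  split_ifs <;> linarith

theorem GN_nonneg (hc1 : 0 ≤ c1) (hμ : 0 ≤ μ) (X : Finset (Zd d)) (ω : Zd d → E) (q : Zd d) :
    0 ≤ GN M SA SB od ms m c1 μ nw Mx k X ω q := by
  unfold GN
  exact add_nonneg (Finset.sum_nonneg fun i _ => ceN_nonneg hc1 hμ X _ ω i) (by positivity)

theorem ebN_nonneg (hc1 : 0 ≤ c1) (hμ : 0 ≤ μ) (L : Finset (Zd d)) (ω : Zd d → E) (q : Zd d) :
    0 ≤ ebN M SA SB od ms m c1 μ nw Mx k L ω q := by
  unfold ebN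
  exact div_nonneg (GN_nonneg hc1 hμ _ ω q) (by positivity)

theorem measurable_ceN (hA : MeasurableSet SA) (hB : MeasurableSet SB) (hm : Measurable ms)
    (H : Ldr M SA SB od Mx nw) (X S : Finset (Zd d)) (i : Zd d) :
    Measurable fun ω => ceN M SA SB od ms m c1 μ nw X S ω i := by
  unfold ceN
  refine (Measurable.ite (H.meas S i) ?_ measurable_const).add ?_
  · exact ((measurable_en hA hB hm).comp (measurable_pi_apply i)).add
      (Measurable.ite (measurableSet_Lt X i) measurable_const measurable_const)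
  · exact Measurable.ite ((measurable_pi_apply i) H.od_meas) measurable_const measurable_const

theorem measurable_card_nw (H : Ldr M SA SB od Mx nw) (S : Finset (Zd d)) :
    Measurable fun ω => (nw S ω).card := by
  classical
  have e : (fun ω => (nw S ω).card) = fun ω => ∑ i ∈ S, if i ∈ nw S ω then 1 else 0 := by
    funext ω
    rw [← card_filter]
    congr 1
    ext i
    rw [mem_filter]
    exact ⟨fun h => ⟨H.sub S ω h, h⟩, fun h => h.2⟩
  rw [e]
  exact Finset.measurable_sum _ fun i _ => Measurable.ite (H.meas S i) measurable_const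
    measurable_const

theorem measurable_GN (hA : MeasurableSet SA) (hB : MeasurableSet SB) (hm : Measurable ms)
    (H : Ldr M SA SB od Mx nw) (X : Finset (Zd d)) (q : Zd d) :
    Measurable fun ω => GN M SA SB od ms m c1 μ nw Mx k X ω q := by
  unfold GN
  refine (Finset.measurable_sum _ fun i _ => measurable_ceN hA hB hm H X _ i).add ?_
  refine Measurable.const_mul ?_ _
  have h1 : Measurable fun n : ℕ => ((Mx k - n : ℕ) : ℝ) := measurable_of_countable _
  exact h1.comp (measurable_card_nw H _)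

theorem measurable_ebN (hA : MeasurableSet SA) (hB : MeasurableSet SB) (hm : Measurable ms)
    (H : Ldr M SA SB od Mx nw) (L : Finset (Zd d)) (q : Zd d) :
    Measurable fun ω => ebN M SA SB od ms m c1 μ nw Mx k L ω q := by
  unfold ebN
  exact (measurable_GN hA hB hm H _ q).div_const _

theorem ceN_congr (H : Ldr M SA SB od Mx nw) {X S : Finset (Zd d)} (hS : S ⊆ X) {ω ω' : Zd d → E}
    (h : ∀ i ∈ X, ω i = ω' i) {i : Zd d} (hi : i ∈ S) :
    ceN M SA SB od ms m c1 μ nw X S ω i = ceN M SA SB od ms m c1 μ nw X S ω' i := by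
  have e : Lt M X ω i ↔ Lt M X ω' i := Lt_congr (h i (hS hi)) fun j hj _ => h j hj
  have e2 : nw S ω = nw S ω' := H.dep S ω ω' fun j hj => h j (hS hj)
  unfold ceN
  rw [h i (hS hi), e2]
  by_cases hl : Lt M X ω' i
  · rw [if_pos hl, if_pos (e.2 hl)]
  · rw [if_neg hl, if_neg fun h => hl (e.1 h)]

theorem GN_congr (H : Ldr M SA SB od Mx nw) {X : Finset (Zd d)} {q : Zd d} (hS : blk k q ⊆ X)
    {ω ω' : Zd d → E} (h : ∀ i ∈ X, ω i = ω' i) :
    GN M SA SB od ms m c1 μ nw Mx k X ω q = GN M SA SB od ms m c1 μ nw Mx k X ω' q := by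
  unfold GN
  rw [sum_congr rfl fun i hi => ceN_congr H hS h hi, H.dep _ ω ω' fun j hj => h j (hS hj)]

theorem ebN_dep (H : Ldr M SA SB od Mx nw) {L : Finset (Zd d)} {q : Zd d} (hq : q ∈ L)
    {ω ω' : Zd d → E} (h : ∀ i ∈ lift k L, ω i = ω' i) :
    ebN M SA SB od ms m c1 μ nw Mx k L ω q = ebN M SA SB od ms m c1 μ nw Mx k L ω' q := by
  unfold ebN
  rw [GN_congr H (fun i hi => Vdw.mem_lift.2 ⟨q, hq, hi⟩) h]

theorem sum_ebN (hμ : 0 < μ) (hk : 1 ≤ k) (L : Finset (Zd d)) (ω : Zd d → E) :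
    μ * (k : ℝ) ^ d * ∑ q ∈ L, ebN M SA SB od ms m c1 μ nw Mx k L ω q =
      ∑ q ∈ L, GN M SA SB od ms m c1 μ nw Mx k (lift k L) ω q := by
  have hk0 : (0 : ℝ) < μ * (k : ℝ) ^ d := by
    have : (0 : ℝ) < k := by exact_mod_cast hk
    positivity
  rw [mul_sum]
  refine sum_congr rfl fun q _ => ?_
  unfold ebN
  rw [mul_div_cancel₀ _ hk0.ne']

end

end Pool.Agent.RC
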