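import Pool.Agent.Lib.MP_09cbbd_rc.Bal

/-!
# Rows and columns round a general hard core: the crude bound

The pieces of a molecule with two or more pieces in a block are weighted with tilts, so that the
weight of an old piece is bounded and the weight of its leader is at most the weight of a molecule.
-/

set_option autoImplicit false

namespace Pool.Agent.RC

open MeasureTheory Finset Filter Topology Pool.Agent.StableGas
open Pool.Agent.SquareWell hiding Md cut
open Pool.Agent.Vdw (blk lift ball Lk Yk Wk Kc)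
open Pool.Agent.Mix (Qr mem_Qr)

variable {d : ℕ} {E : Type} [MeasurableSpace E]

/-! ### Sequential integration -/

theorem updateFinset_e0_notMem {M : CG d E} {N : Set E} (hN0 : M.π N = 0) {X : Finset (Zd d)}
    {y : X → E} (hy : ∀ j : X, y j ∉ N) (j : Zd d) :
    Function.updateFinset (fun _ : Zd d => M.e0) X y j ∉ N := by
  rw [Function.updateFinset_def]
  dsimp only
  split_ifs with hj
  · exact hy ⟨j, hj⟩
  · intro h
    have h1 : M.π {M.e0} ≤ M.π N := measure_mono (Set.singleton_subset_iff.2 h)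
    rw [M.π_e0, hN0] at h1
    exact absurd h1 (by simp)

theorem ae_pi_notMem (M : CG d E) {N : Set E} (hN0 : M.π N = 0) (X : Finset (Zd d)) :
    ∀ᵐ y ∂(Measure.pi fun _ : X => M.π), ∀ j : X, y j ∉ N := by
  have := M.fin_π
  rw [ae_all_iff]
  intro j
  have h2 : ∀ᵐ e ∂M.π, e ∉ N := by
    rw [ae_iff]
    simpa using hN0
  exact (Measure.tendsto_eval_ae_ae (μ := fun _ : X => M.π) (i := j)).eventually h2

/-- **Sequential integration.** -/
theorem int_seq (M : CG d E) {F : Zd d → (Zd d → E) → E → ENNReal}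
    (hm : ∀ i, Measurable (Function.uncurry (F i)))
    (hdep : ∀ i ω ω' x, (∀ j, toLex j < toLex i → ω j = ω' j) → F i ω x = F i ω' x)
    {N : Set E} (hN0 : M.π N = 0) {K : ENNReal}
    (hK : ∀ i ω, (∀ j, ω j ∉ N) → ∫⁻ x, F i ω x ∂M.π ≤ K) (X : Finset (Zd d)) :
    M.int X (fun ω => ∏ i ∈ X, F i ω (ω i)) ≤ K ^ X.card := by
  classical
  have := M.fin_π
  unfold CG.int
  have hFm : ∀ i, Measurable fun ω : Zd d → E => F i ω (ω i) := fun i =>
    (hm i).comp (measurable_id.prodMk (measurable_pi_apply i))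
  induction X using Finset.induction_on_max_value (f := fun i : Zd d => toLex i) with
  | empty =>
    rw [lmarginal_empty]
    simp
  | insert i X hi hle ih =>
    have hmax : ∀ j ∈ X, toLex j < toLex i := by
      intro j hj
      refine lt_of_le_of_ne (hle j hj) fun h => hi ?_
      rw [← toLex.injective h]
      exact hj
    have hP : ∀ X : Finset (Zd d), Measurable fun ω : Zd d → E => ∏ j ∈ X, F j ω (ω j) := fun X =>
      Finset.measurable_prod _ fun j _ => hFm j
    rw [lmarginal_insert' _ (hP _) hi]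
    have h1 : ∀ ω : Zd d → E, (∀ j, ω j ∉ N) →
        ∫⁻ x, ∏ j ∈ insert i X, F j (Function.update ω i x) (Function.update ω i x j) ∂M.π ≤
        K * ∏ j ∈ X, F j ω (ω j) := by
      intro ω hω
      have e : ∀ x, ∏ j ∈ insert i X, F j (Function.update ω i x) (Function.update ω i x j) =
          F i ω x * ∏ j ∈ X, F j ω (ω j) := by
        intro x
        rw [prod_insert hi, Function.update_self]
        congr 1
        · refine hdep i _ _ x fun j hj => ?_
          have hji : j ≠ i := fun h => by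
            rw [h] at hj
            exact lt_irrefl _ hj
          exact Function.update_of_ne hji _ _
        · refine prod_congr rfl fun j hj => ?_
          have hji : j ≠ i := fun h => hi (h ▸ hj)
          rw [Function.update_of_ne hji]
          refine hdep j _ _ _ fun l hl => ?_
          have hli : l ≠ i := fun h => by
            rw [h] at hl
            exact lt_irrefl _ (hl.trans (hmax j hj))
          exact Function.update_of_ne hli _ _
      simp only [e]
      have hmi : Measurable fun x => F i ω x :=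
        (hm i).comp ((measurable_const : Measurable fun _ : E => ω).prodMk measurable_id)
      rw [lintegral_mul_const _ hmi]
      exact mul_le_mul' (hK i ω hω) le_rfl
    unfold lmarginal
    have h2 : ∫⁻ y, ∫⁻ x, ∏ j ∈ insert i X,
          F j (Function.update (Function.updateFinset (fun _ : Zd d => M.e0) X y) i x)
            (Function.update (Function.updateFinset (fun _ : Zd d => M.e0) X y) i x j) ∂M.π
          ∂(Measure.pi fun _ : X => M.π) ≤
        ∫⁻ y, K * ∏ j ∈ X, F j (Function.updateFinset (fun _ : Zd d => M.e0) X y)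
          (Function.updateFinset (fun _ : Zd d => M.e0) X y j) ∂(Measure.pi fun _ : X => M.π) := by
      refine lintegral_mono_ae ?_
      filter_upwards [ae_pi_notMem M hN0 X] with y hy
      exact h1 _ (updateFinset_e0_notMem hN0 hy)
    refine h2.trans ?_
    have hPu : Measurable fun y : X → E =>
        ∏ j ∈ X, F j (Function.updateFinset (fun _ : Zd d => M.e0) X y)
          (Function.updateFinset (fun _ : Zd d => M.e0) X y j) :=
      (hP X).comp measurable_updateFinset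
    rw [lintegral_const_mul _ hPu, card_insert_of_notMem hi, pow_succ, mul_comm]
    exact mul_le_mul' ih le_rfl

/-- Null sets play no role. -/
theorem int_mono_notMem (M : CG d E) {N : Set E} (hN0 : M.π N = 0) {X : Finset (Zd d)}
    {f g : (Zd d → E) → ENNReal} (h : ∀ ω, (∀ j, ω j ∉ N) → f ω ≤ g ω) :
    M.int X f ≤ M.int X g := by
  unfold CG.int lmarginal
  refine lintegral_mono_ae ?_
  filter_upwards [ae_pi_notMem M hN0 X] with y hy
  exact h _ (updateFinset_e0_notMem hN0 hy)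

/-! ### Pieces and tilts -/

open Classical in
/-- The pieces of the molecules: `LS t` are the leaders of type `t` with other pieces in the block,
`OS t v` are the pairs (old piece, leader), `tl`, `tO` are the tilts. -/
structure Pcs (M : CG d E) (SA SB od : Set E)
    (nw : Finset (Zd d) → (Zd d → E) → Finset (Zd d)) (LS : Bool → Set E)
    (OS : Bool → Zd d → Set (E × E)) (tl tO : Bool → E → ℝ) : Prop where
  LS_meas : ∀ t, MeasurableSet (LS t)
  OS_meas : ∀ t v, MeasurableSet (OS t v)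
  tl_meas : ∀ t, Measurable (tl t)
  tO_meas : ∀ t, Measurable (tO t)
  split : ∀ S ω, M.cp id S ω → (∀ i ∈ S, ω i ∉ od) → ∃ (U : Finset (Zd d)) (t : Zd d → Bool),
    U ⊆ nw S ω ∧ (∀ l ∈ U, ω l ∈ LS (t l) ∧ ω l ∉ SA ∪ SB) ∧
    (∀ i ∈ S, ω i ≠ M.e0 → i ∉ nw S ω → ∃ v ∈ (Qr d 1).erase 0, toLex (i + v) < toLex i ∧
      (ω i, ω (i + v)) ∈ OS (t i) v) ∧
    0 ≤ ∑ l ∈ U, tl (t l) (ω l) +
      ∑ i ∈ S.filter (fun i => ω i ≠ M.e0 ∧ i ∉ nw S ω), tO (t i) (ω i)

/-- The masses of the contents of one cell and of the pieces. -/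
structure MasN (M : CG d E) (SA SB od : Set E) (ms : E → ℕ) (m : ℕ) (c1 ε μ C : ℝ) (h : E → ℝ)
    (LS : Bool → Set E) (OS : Bool → Zd d → Set (E × E)) (tl tO : Bool → E → ℝ) : Prop where
  fld : M.Fld h
  od0 : M.π od = 0
  m1 : ∫⁻ x, ex (h x + 1 / 2 * en SA SB ms m c1 μ x) ∂M.π ≤ ex ((1 + ε) * μ)
  m2 : ∀ v ∈ (Qr d M.q).erase 0, ∀ᵐ y ∂M.π, ∫⁻ x in {x | M.nf 0 v x y ∧ ¬ M.nf 2 v x y},
    ex (h x + 1 / 2 * en SA SB ms m c1 μ x) ∂M.π ≤ ex ((1 - c1) * μ)
  mL : ∀ t, ∫⁻ x in LS t, ex (h x + tl t x) ∂M.π ≤ ex ((1 - c1) * μ)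
  mO : ∀ t, ∀ v ∈ (Qr d 1).erase 0, ∀ᵐ y ∂M.π,
    ∫⁻ x in {x | (x, y) ∈ OS t v}, ex (h x + tO t x) ∂M.π ≤ ex C

/-- The previous neighbours. -/
noncomputable def pv (d n : ℕ) (i : Zd d) : Finset (Zd d) := by
  classical exact ((Qr d n).erase 0).filter fun v => toLex (i + v) < toLex i

theorem mem_pv {n : ℕ} {i v : Zd d} :
    v ∈ pv d n i ↔ v ∈ (Qr d n).erase 0 ∧ toLex (i + v) < toLex i := by
  classical
  exact mem_filter

section

variable (M : CG d E) (SA SB : Set E) (ms : E → ℕ) (m : ℕ) (c1 ε μ : ℝ) (h : E → ℝ)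
  (LS : Bool → Set E) (OS : Bool → Zd d → Set (E × E)) (tl tO : Bool → E → ℝ)

/-- The weight of a content which is alone. -/
noncomputable def fs (x : E) : ENNReal := ex (h x + 1 / 2 * en SA SB ms m c1 μ x - (1 + ε) * μ)

/-- The kernel of the cell `i`. -/
noncomputable def Fk (i : Zd d) (ω : Zd d → E) (x : E) : ENNReal :=
  ({M.e0} : Set E).indicator 1 x + fs SA SB ms m c1 ε μ h x +
    ∑ v ∈ pv d M.q i, {x | M.nf 0 v x (ω (i + v)) ∧ ¬ M.nf 2 v x (ω (i + v))}.indicator
      (fun x => ex (c1 * μ / 2) * fs SA SB ms m c1 ε μ h x) x +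
    ∑ t : Bool, (LS t).indicator (fun x => ex (h x + tl t x + (c1 * μ - (1 + ε) * μ))) x +
    ∑ t : Bool, ∑ v ∈ pv d 1 i, {x | (x, ω (i + v)) ∈ OS t v}.indicator
      (fun x => ex (h x + tO t x)) x

end

section

variable {M : CG d E} {SA SB od : Set E} {ms : E → ℕ} {m : ℕ} {c1 ε μ C : ℝ} {h : E → ℝ}
  {nw : Finset (Zd d) → (Zd d → E) → Finset (Zd d)} {Mx : ℕ → ℕ} {k : ℕ}
  {LS : Bool → Set E} {OS : Bool → Zd d → Set (E × E)} {tl tO : Bool → E → ℝ}

theorem measurable_fs (hh : Measurable h) (hA : MeasurableSet SA) (hB : MeasurableSet SB)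
    (hm : Measurable ms) : Measurable (fs SA SB ms m c1 ε μ h) :=
  CG.measurable_ex ((hh.add ((measurable_en hA hB hm).const_mul _)).sub_const _)

theorem measurable_Fk (hh : Measurable h) (hA : MeasurableSet SA) (hB : MeasurableSet SB)
    (hm : Measurable ms) (hP : Pcs M SA SB od nw LS OS tl tO) (i : Zd d) :
    Measurable (Function.uncurry (Fk M SA SB ms m c1 ε μ h LS OS tl tO i)) := by
  have hfs := measurable_fs (m := m) (c1 := c1) (ε := ε) (μ := μ) hh hA hB hm
  have h2 : Measurable fun p : (Zd d → E) × E => p.2 := measurable_snd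
  have hxy : ∀ v : Zd d, Measurable fun p : (Zd d → E) × E => (p.2, p.1 (i + v)) := fun v =>
    measurable_snd.prodMk ((measurable_pi_apply (i + v)).comp measurable_fst)
  have e : Function.uncurry (Fk M SA SB ms m c1 ε μ h LS OS tl tO i) = fun p : (Zd d → E) × E =>
      ({M.e0} : Set E).indicator 1 p.2 + fs SA SB ms m c1 ε μ h p.2 +
      ∑ v ∈ pv d M.q i, {p : (Zd d → E) × E | M.nf 0 v p.2 (p.1 (i + v)) ∧
        ¬ M.nf 2 v p.2 (p.1 (i + v))}.indicator
          (fun p => ex (c1 * μ / 2) * fs SA SB ms m c1 ε μ h p.2) p +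
      ∑ t : Bool, (LS t).indicator (fun x => ex (h x + tl t x + (c1 * μ - (1 + ε) * μ))) p.2 +
      ∑ t : Bool, ∑ v ∈ pv d 1 i, {p : (Zd d → E) × E | (p.2, p.1 (i + v)) ∈ OS t v}.indicator
        (fun p => ex (h p.2 + tO t p.2)) p := by
    funext p
    rfl
  rw [e]
  refine ((((measurable_const.indicator M.e0_meas).comp h2).add (hfs.comp h2)).add ?_ |>.add
    ?_).add ?_
  · refine Finset.measurable_fun_sum _ fun v _ => ?_
    refine Measurable.indicator ((hfs.comp h2).const_mul _) ?_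
    exact ((hxy v) (M.nf_meas 0 v)).inter ((hxy v) (M.nf_meas 2 v)).compl
  · refine Finset.measurable_fun_sum _ fun t _ => ?_
    exact ((CG.measurable_ex ((hh.add (hP.tl_meas t)).add_const _)).indicator (hP.LS_meas t)).comp h2
  · refine Finset.measurable_fun_sum _ fun t _ => Finset.measurable_fun_sum _ fun v _ => ?_
    refine Measurable.indicator ((CG.measurable_ex (hh.add (hP.tO_meas t))).comp h2) ?_
    exact (hxy v) (hP.OS_meas t v)

theorem Fk_dep (i : Zd d) (ω ω' : Zd d → E) (x : E)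
    (hω : ∀ j, toLex j < toLex i → ω j = ω' j) :
    Fk M SA SB ms m c1 ε μ h LS OS tl tO i ω x = Fk M SA SB ms m c1 ε μ h LS OS tl tO i ω' x := by
  unfold Fk
  congr 1
  · congr 2
    refine sum_congr rfl fun v hv => ?_
    rw [hω _ (mem_pv.1 hv).2]
  · refine sum_congr rfl fun t _ => sum_congr rfl fun v hv => ?_
    rw [hω _ (mem_pv.1 hv).2]

/-- The integrals of the kernels. -/
theorem lint_Fk (hA : MeasurableSet SA) (hB : MeasurableSet SB) (hm : Measurable ms)
    (hP : Pcs M SA SB od nw LS OS tl tO) (hε : 0 ≤ ε) (hμ : 0 ≤ μ) (hc1 : 0 ≤ c1)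
    (H : MasN M SA SB od ms m c1 ε μ C h LS OS tl tO) (i : Zd d) {ω : Zd d → E}
    (h2 : ∀ v ∈ (Qr d M.q).erase 0, ∀ j,
      ∫⁻ x in {x | M.nf 0 v x (ω j) ∧ ¬ M.nf 2 v x (ω j)},
        ex (h x + 1 / 2 * en SA SB ms m c1 μ x) ∂M.π ≤ ex ((1 - c1) * μ))
    (hO : ∀ t, ∀ v ∈ (Qr d 1).erase 0, ∀ j,
      ∫⁻ x in {x | (x, ω j) ∈ OS t v}, ex (h x + tO t x) ∂M.π ≤ ex C) :
    ∫⁻ x, Fk M SA SB ms m c1 ε μ h LS OS tl tO i ω x ∂M.π ≤
      4 + (2 * M.q + 1 : ENNReal) ^ d + 2 * (3 ^ d * ex C) := by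
  classical
  have hh := H.fld.meas
  have hfs := measurable_fs (m := m) (c1 := c1) (ε := ε) (μ := μ) hh hA hB hm
  have hn : ∀ v : Zd d, MeasurableSet
      {x | M.nf 0 v x (ω (i + v)) ∧ ¬ M.nf 2 v x (ω (i + v))} := by
    intro v
    have hp : Measurable fun x : E => (x, ω (i + v)) := measurable_id.prodMk measurable_const
    exact (hp (M.nf_meas 0 v)).inter (hp (M.nf_meas 2 v)).compl
  have hO' : ∀ t v, MeasurableSet {x | (x, ω (i + v)) ∈ OS t v} := fun t v =>
    (measurable_id.prodMk measurable_const : Measurable fun x : E => (x, ω (i + v)))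
      (hP.OS_meas t v)
  have m3 : Measurable fun x => ∑ v ∈ pv d M.q i,
      {x | M.nf 0 v x (ω (i + v)) ∧ ¬ M.nf 2 v x (ω (i + v))}.indicator
      (fun x => ex (c1 * μ / 2) * fs SA SB ms m c1 ε μ h x) x :=
    Finset.measurable_fun_sum _ fun v _ => (hfs.const_mul _).indicator (hn v)
  have m4 : ∀ t, Measurable fun x => (LS t).indicator
      (fun x => ex (h x + tl t x + (c1 * μ - (1 + ε) * μ))) x := fun t =>
    (CG.measurable_ex ((hh.add (hP.tl_meas t)).add_const _)).indicator (hP.LS_meas t)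
  have m5 : ∀ t v, Measurable fun x => {x | (x, ω (i + v)) ∈ OS t v}.indicator
      (fun x => ex (h x + tO t x)) x := fun t v =>
    (CG.measurable_ex (hh.add (hP.tO_meas t))).indicator (hO' t v)
  have hfs_eq : ∀ x, fs SA SB ms m c1 ε μ h x = ex (-((1 + ε) * μ)) *
      ex (h x + 1 / 2 * en SA SB ms m c1 μ x) := by
    intro x
    unfold fs
    rw [← ex_add]
    congr 1
    ring
  have hE : Measurable fun x => ex (h x + 1 / 2 * en SA SB ms m c1 μ x) :=
    CG.measurable_ex (hh.add ((measurable_en hA hB hm).const_mul _))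
  -- the five terms
  have t1 : ∫⁻ x, ({M.e0} : Set E).indicator (1 : E → ENNReal) x ∂M.π = 1 := by
    rw [lintegral_indicator_one M.e0_meas, M.π_e0]
  have t2 : ∫⁻ x, fs SA SB ms m c1 ε μ h x ∂M.π ≤ 1 := by
    simp only [hfs_eq]
    rw [lintegral_const_mul _ hE]
    refine (mul_le_mul' le_rfl H.m1).trans (le_of_eq ?_)
    rw [← ex_add]
    have : -((1 + ε) * μ) + (1 + ε) * μ = 0 := by ring
    rw [this]
    simp [ex]
  have t3 : ∀ v ∈ pv d M.q i, ∫⁻ x, {x | M.nf 0 v x (ω (i + v)) ∧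
      ¬ M.nf 2 v x (ω (i + v))}.indicator
      (fun x => ex (c1 * μ / 2) * fs SA SB ms m c1 ε μ h x) x ∂M.π ≤ 1 := by
    intro v hv
    rw [lintegral_indicator (hn v)]
    simp only [hfs_eq]
    rw [lintegral_const_mul _ (hE.const_mul _), lintegral_const_mul _ hE]
    refine (mul_le_mul' le_rfl (mul_le_mul' le_rfl (h2 v (mem_pv.1 hv).1 _))).trans ?_
    rw [← ex_add, ← ex_add]
    have h0 : c1 * μ / 2 + (-((1 + ε) * μ) + (1 - c1) * μ) ≤ 0 := by
      have := mul_nonneg hc1 hμ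
      have := mul_nonneg hε hμ
      linarith
    calc _ ≤ ex 0 := ex_le_ex.2 h0
      _ = 1 := by simp [ex]
  have t4 : ∀ t, ∫⁻ x, (LS t).indicator
      (fun x => ex (h x + tl t x + (c1 * μ - (1 + ε) * μ))) x ∂M.π ≤ 1 := by
    intro t
    rw [lintegral_indicator (hP.LS_meas t)]
    have e : ∀ x, ex (h x + tl t x + (c1 * μ - (1 + ε) * μ)) =
        ex (c1 * μ - (1 + ε) * μ) * ex (h x + tl t x) := by
      intro x
      rw [← ex_add]
      congr 1
      ring
    simp only [e]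
    have hlt : Measurable fun x => ex (h x + tl t x) :=
      CG.measurable_ex (hh.add (hP.tl_meas t))
    rw [lintegral_const_mul _ hlt]
    refine (mul_le_mul' le_rfl (H.mL t)).trans ?_
    rw [← ex_add]
    have h0 : c1 * μ - (1 + ε) * μ + (1 - c1) * μ ≤ 0 := by
      have := mul_nonneg hε hμ
      linarith
    calc _ ≤ ex 0 := ex_le_ex.2 h0
      _ = 1 := by simp [ex]
  have t5 : ∀ t, ∀ v ∈ pv d 1 i, ∫⁻ x, {x | (x, ω (i + v)) ∈ OS t v}.indicator
      (fun x => ex (h x + tO t x)) x ∂M.π ≤ ex C := by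
    intro t v hv
    rw [lintegral_indicator (hO' t v)]
    exact hO t v (mem_pv.1 hv).1 _
  have c3 : (pv d M.q i).card ≤ (2 * M.q + 1) ^ d := by
    rw [← Mix.Bas.card_Qr M.q]
    exact card_le_card ((filter_subset _ _).trans (erase_subset _ _))
  have c5 : (pv d 1 i).card ≤ 3 ^ d := by
    have h1 : (pv d 1 i).card ≤ (2 * 1 + 1) ^ d := by
      rw [← Mix.Bas.card_Qr 1]
      exact card_le_card ((filter_subset _ _).trans (erase_subset _ _))
    simpa using h1
  unfold Fk
  rw [lintegral_add_left, lintegral_add_left, lintegral_add_left, lintegral_add_left, t1,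
    lintegral_finsetSum, lintegral_finsetSum, lintegral_finsetSum]
  · have s3 : ∑ v ∈ pv d M.q i, ∫⁻ x, {x | M.nf 0 v x (ω (i + v)) ∧
        ¬ M.nf 2 v x (ω (i + v))}.indicator
        (fun x => ex (c1 * μ / 2) * fs SA SB ms m c1 ε μ h x) x ∂M.π ≤
        (2 * M.q + 1 : ENNReal) ^ d := by
      refine (sum_le_sum t3).trans ?_
      rw [sum_const, nsmul_eq_mul, mul_one]
      calc ((pv d M.q i).card : ENNReal) ≤ (((2 * M.q + 1) ^ d : ℕ) : ENNReal) := by
            exact_mod_cast c3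
        _ = _ := by push_cast; rfl
    have s4 : ∑ t : Bool, ∫⁻ x, (LS t).indicator
        (fun x => ex (h x + tl t x + (c1 * μ - (1 + ε) * μ))) x ∂M.π ≤ 2 := by
      rw [Fintype.sum_bool]
      calc _ ≤ (1 : ENNReal) + 1 := add_le_add (t4 _) (t4 _)
        _ = 2 := by norm_num
    have s5 : ∑ t : Bool, ∫⁻ x, ∑ v ∈ pv d 1 i, {x | (x, ω (i + v)) ∈ OS t v}.indicator
        (fun x => ex (h x + tO t x)) x ∂M.π ≤ 2 * (3 ^ d * ex C) := by
      have h1 : ∀ t : Bool, ∫⁻ x, ∑ v ∈ pv d 1 i, {x | (x, ω (i + v)) ∈ OS t v}.indicator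
        (fun x => ex (h x + tO t x)) x ∂M.π ≤ 3 ^ d * ex C := by
        intro t
        rw [lintegral_finsetSum _ fun v _ => m5 t v]
        refine (sum_le_sum (t5 t)).trans ?_
        rw [sum_const, nsmul_eq_mul]
        refine mul_le_mul' ?_ le_rfl
        calc ((pv d 1 i).card : ENNReal) ≤ ((3 ^ d : ℕ) : ENNReal) := by exact_mod_cast c5
          _ = _ := by push_cast; rfl
      rw [Fintype.sum_bool, two_mul]
      exact add_le_add (h1 _) (h1 _)
    calc _ ≤ (1 : ENNReal) + 1 + (2 * M.q + 1 : ENNReal) ^ d + 2 + 2 * (3 ^ d * ex C) :=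
          add_le_add (add_le_add (add_le_add (add_le_add le_rfl t2) s3) s4) s5
      _ = _ := by ring
  · exact fun t _ => Finset.measurable_fun_sum _ fun v _ => m5 t v
  · exact fun t _ => m4 t
  · exact fun v _ => (hfs.const_mul _).indicator (hn v)
  · exact measurable_const.indicator M.e0_meas
  · exact (measurable_const.indicator M.e0_meas).add hfs
  · exact ((measurable_const.indicator M.e0_meas).add hfs).add m3
  · exact (((measurable_const.indicator M.e0_meas).add hfs).add m3).add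
      (Finset.measurable_fun_sum _ fun t _ => m4 t)

/-! ### The pointwise bound -/

/-- The bound in one block. -/
theorem block_le (H : Ldr M SA SB od Mx nw) (hP : Pcs M SA SB od nw LS OS tl tO)
    (hh0 : h M.e0 = 0) (hμ : 0 ≤ μ) (hc1 : 0 ≤ c1) {X S : Finset (Zd d)} (hS : S ⊆ X)
    {ω : Zd d → E} (hω : M.cp id X ω) (hod : ∀ j, ω j ∉ od) :
    ex (∑ i ∈ S, h (ω i) + 1 / 2 * ∑ i ∈ S, ceN M SA SB od ms m c1 μ nw X S ω i -
      (1 + ε) * μ * (nw S ω).card) ≤ ∏ i ∈ S, Fk M SA SB ms m c1 ε μ h LS OS tl tO i ω (ω i) := by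
  classical
  obtain ⟨U, t, hU, hU1, hO, hsum⟩ := hP.split S ω (M.cp_mono id hS hω) fun i _ => hod i
  have hnwS := H.sub S ω
  -- the exponents
  obtain ⟨g, hg⟩ : ∃ g : Zd d → ℝ, g = fun i => h (ω i) +
      (if i ∈ nw S ω then 1 / 2 * (en SA SB ms m c1 μ (ω i) +
        if Lt M X ω i then c1 * μ else 0) - (1 + ε) * μ else 0) +
      ((if i ∈ U then tl (t i) (ω i) else 0) +
        if ω i ≠ M.e0 ∧ i ∉ nw S ω then tO (t i) (ω i) else 0) := ⟨_, rfl⟩
  have h1 : ∑ i ∈ S, h (ω i) + 1 / 2 * ∑ i ∈ S, ceN M SA SB od ms m c1 μ nw X S ω i -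
      (1 + ε) * μ * (nw S ω).card ≤ ∑ i ∈ S, g i := by
    have e1 : ((nw S ω).card : ℝ) = ∑ i ∈ S, if i ∈ nw S ω then (1 : ℝ) else 0 := by
      rw [← sum_filter, sum_const, nsmul_eq_mul, mul_one]
      congr 2
      ext i
      rw [mem_filter]
      exact ⟨fun h => ⟨hnwS h, h⟩, fun h => h.2⟩
    have e2 : ∑ l ∈ U, tl (t l) (ω l) = ∑ i ∈ S, if i ∈ U then tl (t i) (ω i) else 0 := by
      rw [← sum_filter]
      congr 1
      ext i
      rw [mem_filter]
      exact ⟨fun h => ⟨hnwS (hU h), h⟩, fun h => h.2⟩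
    rw [e2, sum_filter, ← sum_add_distrib] at hsum
    have e3 : ∑ i ∈ S, g i = (∑ i ∈ S, h (ω i) +
        1 / 2 * ∑ i ∈ S, ceN M SA SB od ms m c1 μ nw X S ω i - (1 + ε) * μ * (nw S ω).card) +
        ∑ i ∈ S, ((if i ∈ U then tl (t i) (ω i) else 0) +
        if ω i ≠ M.e0 ∧ i ∉ nw S ω then tO (t i) (ω i) else 0) := by
      rw [e1, mul_sum, mul_sum, ← sum_add_distrib, ← sum_sub_distrib, ← sum_add_distrib]
      refine sum_congr rfl fun i _ => ?_
      rw [hg]
      simp only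
      unfold ceN
      rw [if_neg (hod i)]
      by_cases hi : i ∈ nw S ω
      · rw [if_pos hi, if_pos hi, if_pos hi]
        ring
      · rw [if_neg hi, if_neg hi, if_neg hi]
        ring
    rw [e3]
    linarith
  refine (ex_le_ex.2 h1).trans ?_
  rw [← prod_ex]
  refine prod_le_prod' fun i hi => ?_
  -- one cell
  have hμc := mul_nonneg hc1 hμ
  rw [hg]
  simp only
  by_cases h0 : ω i = M.e0
  · have hn : i ∉ nw S ω := fun hi => (H.ne S ω i hi).1 h0
    rw [if_neg hn, if_neg (fun h => hn (hU h)), if_neg (fun h => h.1 h0), h0, hh0]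
    unfold Fk
    refine le_trans ?_ (le_add_right (le_add_right (le_add_right (le_add_right le_rfl))))
    rw [Set.indicator_of_mem (Set.mem_singleton _)]
    simp [ex]
  by_cases hn : i ∈ nw S ω
  · rw [if_pos hn, if_neg (show ¬ (ω i ≠ M.e0 ∧ i ∉ nw S ω) from fun h => h.2 hn)]
    by_cases hiU : i ∈ U
    · obtain ⟨h2, h3⟩ := hU1 i hiU
      rw [if_pos hiU]
      unfold Fk
      refine le_trans ?_ (le_add_right (le_add_left le_rfl))
      refine le_trans ?_ (Finset.single_le_sum (f := fun t : Bool => (LS t).indicator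
        (fun x => ex (h x + tl t x + (c1 * μ - (1 + ε) * μ))) (ω i)) (fun _ _ => zero_le)
        (mem_univ (t i)))
      rw [Set.indicator_of_mem h2, ex_le_ex]
      have e : en SA SB ms m c1 μ (ω i) = c1 * μ := by
        unfold en
        rw [if_neg h3]
      rw [e]
      split_ifs <;> linarith
    · rw [if_neg hiU]
      by_cases hL : Lt M X ω i
      · rw [if_pos hL]
        obtain ⟨j, hj, hlt, hn0, hn2⟩ := hL
        have hv : j - i ∈ pv d M.q i := by
          rw [mem_pv, mem_erase]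
          refine ⟨⟨?_, ?_⟩, ?_⟩
          · intro h
            rw [sub_eq_zero] at h
            rw [h] at hlt
            exact lt_irrefl _ hlt
          · by_contra hv
            exact hn2 (M.nf_r 2 _ _ _ le_rfl hv)
          · rwa [add_sub_cancel]
        unfold Fk
        refine le_trans ?_ (le_add_right (le_add_right (le_add_left le_rfl)))
        refine le_trans ?_ (Finset.single_le_sum (f := fun v => {x | M.nf 0 v x (ω (i + v)) ∧
          ¬ M.nf 2 v x (ω (i + v))}.indicator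
          (fun x => ex (c1 * μ / 2) * fs SA SB ms m c1 ε μ h x) (ω i)) (fun _ _ => zero_le) hv)
        rw [Set.indicator_of_mem (by
          show M.nf 0 (j - i) (ω i) (ω (i + (j - i))) ∧ ¬ M.nf 2 (j - i) (ω i) (ω (i + (j - i)))
          rw [add_sub_cancel]
          exact ⟨hn0, hn2⟩)]
        unfold fs
        rw [← ex_add, ex_le_ex]
        linarith
      · rw [if_neg hL]
        unfold Fk
        refine le_trans ?_ (le_add_right (le_add_right (le_add_right (le_add_left le_rfl))))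
        unfold fs
        rw [ex_le_ex]
        linarith
  · rw [if_neg hn, if_neg (fun h => hn (hU h)), if_pos ⟨h0, hn⟩]
    obtain ⟨v, hv, hlt, hmem⟩ := hO i hi h0 hn
    unfold Fk
    refine le_trans ?_ (le_add_left le_rfl)
    refine le_trans ?_ (Finset.single_le_sum (f := fun t : Bool => ∑ v ∈ pv d 1 i,
      {x | (x, ω (i + v)) ∈ OS t v}.indicator (fun x => ex (h x + tO t x)) (ω i))
      (fun _ _ => zero_le) (mem_univ (t i)))
    refine le_trans ?_ (Finset.single_le_sum (f := fun v =>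
      {x | (x, ω (i + v)) ∈ OS (t i) v}.indicator (fun x => ex (h x + tO (t i) x)) (ω i))
      (fun _ _ => zero_le) (mem_pv.2 ⟨hv, hlt⟩))
    rw [Set.indicator_of_mem (show ω i ∈ {x | (x, ω (i + v)) ∈ OS (t i) v} from hmem), ex_le_ex]
    linarith

/-- The pointwise bound. -/
theorem w_le_prod (H : Ldr M SA SB od Mx nw) (hP : Pcs M SA SB od nw LS OS tl tO)
    (hh0 : h M.e0 = 0) (hε : 0 ≤ ε) (hμ : 0 ≤ μ) (hc1 : 0 ≤ c1) (L : Finset (Zd d))
    {ω : Zd d → E} (hod : ∀ j, ω j ∉ od) :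
    M.w h (lift k L) ω * ex (1 / 2 * ∑ q ∈ L, GN M SA SB od ms m c1 μ nw Mx k (lift k L) ω q) ≤
      ex ((1 + ε) * μ * Mx k * L.card) *
        ∏ i ∈ lift k L, Fk M SA SB ms m c1 ε μ h LS OS tl tO i ω (ω i) := by
  classical
  by_cases hω : M.cp id (lift k L) ω
  swap
  · rw [M.w_of_not hω, zero_mul]
    exact zero_le
  have hdis : (L : Set (Zd d)).PairwiseDisjoint (blk k) := by
    intro p _ q _ hpq
    show Disjoint (blk k p) (blk k q)
    rw [disjoint_left]
    intro i hp hq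
    exact hpq (Vdw.blk_unique hp hq)
  have e : lift k L = L.biUnion (blk k) := rfl
  have hsub : ∀ q ∈ L, blk k q ⊆ lift k L := fun q hq i hi => Vdw.mem_lift.2 ⟨q, hq, hi⟩
  have e1 : ∏ i ∈ lift k L, Fk M SA SB ms m c1 ε μ h LS OS tl tO i ω (ω i) =
      ∏ q ∈ L, ∏ i ∈ blk k q, Fk M SA SB ms m c1 ε μ h LS OS tl tO i ω (ω i) := by
    conv_lhs => enter [1]; rw [e]
    exact prod_biUnion hdis
  have e2 : ∏ i ∈ lift k L, ex (h (ω i)) = ex (∑ q ∈ L, ∑ i ∈ blk k q, h (ω i)) := by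
    rw [prod_ex]
    congr 1
    conv_lhs => enter [1]; rw [e]
    exact sum_biUnion hdis
  have e3 : ex ((1 + ε) * μ * Mx k * L.card) = ∏ _q ∈ L, ex ((1 + ε) * μ * Mx k) := by
    rw [prod_const, ex_pow, mul_comm]
  rw [M.w_of_cp hω, e1, e2, e3, ← prod_mul_distrib, ← ex_add, mul_sum, ← sum_add_distrib,
    ← prod_ex]
  refine prod_le_prod' fun q hq => ?_
  have h1 := block_le (ms := ms) (m := m) (ε := ε) H hP hh0 hμ hc1 (hsub q hq) hω hod
  refine le_trans ?_ (mul_le_mul' le_rfl h1)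
  rw [← ex_add, ex_le_ex]
  have h2 : (nw (blk k q) ω).card ≤ Mx k :=
    H.pack k q ω (M.cp_mono id (hsub q hq) hω)
  unfold GN
  rw [Nat.cast_sub h2]
  have h3 : (0 : ℝ) ≤ Mx k - (nw (blk k q) ω).card := by
    rw [sub_nonneg]
    exact_mod_cast h2
  have h4 := mul_nonneg hμ h3
  have h5 := mul_nonneg hε h4
  linarith

/-- **The crude bound.** -/
theorem MasN.cr (hA : MeasurableSet SA) (hB : MeasurableSet SB) (hm : Measurable ms)
    (H : Ldr M SA SB od Mx nw) (hP : Pcs M SA SB od nw LS OS tl tO) (hε : 0 ≤ ε) (hμ : 0 ≤ μ)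
    (hc1 : 0 ≤ c1) (HM : MasN M SA SB od ms m c1 ε μ C h LS OS tl tO) {K : ℝ}
    (hK : 4 + (2 * M.q + 1 : ENNReal) ^ d + 2 * (3 ^ d * ex C) ≤ ex K) (L : Finset (Zd d)) :
    M.int (lift k L) (fun ω => M.w h (lift k L) ω *
      ex (1 / 2 * ∑ q ∈ L, GN M SA SB od ms m c1 μ nw Mx k (lift k L) ω q)) ≤
      ex ((1 + ε) * μ * Mx k * L.card + K * (k : ℝ) ^ d * L.card) := by
  classical
  have := M.fin_π
  -- the null set
  have h2 : ∀ᵐ y ∂M.π, ∀ v ∈ (Qr d M.q).erase 0,
      ∫⁻ x in {x | M.nf 0 v x y ∧ ¬ M.nf 2 v x y},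
        ex (h x + 1 / 2 * en SA SB ms m c1 μ x) ∂M.π ≤ ex ((1 - c1) * μ) := by
    rw [eventually_all_finset]
    exact HM.m2
  have hO : ∀ᵐ y ∂M.π, ∀ t : Bool, ∀ v ∈ (Qr d 1).erase 0,
      ∫⁻ x in {x | (x, y) ∈ OS t v}, ex (h x + tO t x) ∂M.π ≤ ex C := by
    rw [ae_all_iff]
    intro t
    rw [eventually_all_finset]
    exact HM.mO t
  have hod : ∀ᵐ y ∂M.π, y ∉ od := by
    rw [ae_iff]
    simpa using HM.od0
  obtain ⟨N, hN⟩ : ∃ N : Set E, N = {y | ¬ ((∀ v ∈ (Qr d M.q).erase 0,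
      ∫⁻ x in {x | M.nf 0 v x y ∧ ¬ M.nf 2 v x y},
        ex (h x + 1 / 2 * en SA SB ms m c1 μ x) ∂M.π ≤ ex ((1 - c1) * μ)) ∧
      (∀ t : Bool, ∀ v ∈ (Qr d 1).erase 0,
        ∫⁻ x in {x | (x, y) ∈ OS t v}, ex (h x + tO t x) ∂M.π ≤ ex C) ∧ y ∉ od)} := ⟨_, rfl⟩
  have hN0 : M.π N = 0 := by
    rw [hN]
    exact ae_iff.1 (h2.and (hO.and hod))
  have hNN : ∀ y, y ∉ N → (∀ v ∈ (Qr d M.q).erase 0,
      ∫⁻ x in {x | M.nf 0 v x y ∧ ¬ M.nf 2 v x y},
        ex (h x + 1 / 2 * en SA SB ms m c1 μ x) ∂M.π ≤ ex ((1 - c1) * μ)) ∧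
      (∀ t : Bool, ∀ v ∈ (Qr d 1).erase 0,
        ∫⁻ x in {x | (x, y) ∈ OS t v}, ex (h x + tO t x) ∂M.π ≤ ex C) ∧ y ∉ od := by
    intro y hy
    rw [hN] at hy
    exact not_not.1 hy
  have hFm : ∀ i, Measurable (Function.uncurry (Fk M SA SB ms m c1 ε μ h LS OS tl tO i)) :=
    measurable_Fk HM.fld.meas hA hB hm hP
  have hprod : Measurable fun ω : Zd d → E =>
      ∏ i ∈ lift k L, Fk M SA SB ms m c1 ε μ h LS OS tl tO i ω (ω i) :=
    Finset.measurable_prod _ fun i _ =>
      (hFm i).comp (measurable_id.prodMk (measurable_pi_apply i))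
  refine (int_mono_notMem M hN0 fun ω hω => w_le_prod H hP HM.fld.e0 hε hμ hc1 L
    fun j => (hNN _ (hω j)).2.2).trans ?_
  have e1 : M.int (lift k L) (fun ω => ex ((1 + ε) * μ * Mx k * L.card) *
        ∏ i ∈ lift k L, Fk M SA SB ms m c1 ε μ h LS OS tl tO i ω (ω i)) =
      ex ((1 + ε) * μ * Mx k * L.card) * M.int (lift k L) (fun ω =>
        ∏ i ∈ lift k L, Fk M SA SB ms m c1 ε μ h LS OS tl tO i ω (ω i)) :=
    M.lm_const_mul _ hprod _ _
  rw [e1, ex_add]
  refine mul_le_mul' le_rfl ?_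
  refine (int_seq M hFm (fun i ω ω' x hω => Fk_dep i ω ω' x hω) hN0 (K := ex K)
    (fun i ω hω => ?_) _).trans ?_
  · refine (lint_Fk hA hB hm hP hε hμ hc1 HM i (fun v hv j => (hNN _ (hω j)).1 v hv)
      fun t v hv j => (hNN _ (hω j)).2.1 t v hv).trans hK
  · rw [ex_pow, Vdw.card_lift, ex_le_ex]
    push_cast
    exact le_of_eq (by ring)

end

end Pool.Agent.RC
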