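import Pool.Agent.Lib.MP_09cbbd_rc.CubR
import Pool.Agent.Lib.MP_09cbbd_vw.Det
import Pool.Agent.Lib.MP_09cbbd_vw.Cls

/-!
# Rows and columns: energies of the blocks for a cubic core
-/

set_option autoImplicit false

namespace Pool.Agent.RC

open MeasureTheory Finset Filter Topology Pool.Agent.StableGas
open Pool.Agent.SquareWell hiding Md cut
open Pool.Agent.Vdw (blk lift ball Lk Yk Wk Kc mem_blk card_blk mem_ball mem_lift mem_lift_iff
  card_lift near_blk dist_blk lift_subset)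
open Pool.Agent.Mix (Qr mem_Qr)

set_option linter.unusedSectionVars false

variable {d : ℕ} {E : Type} [MeasurableSpace E]

theorem en_le_ce {M : CG d E} {SA SB : Set E} {ms : E → ℕ} {m : ℕ} {c1 μ : ℝ} (hc : 0 ≤ c1)
    (hμ : 0 ≤ μ) (X : Finset (Zd d)) (ω : Zd d → E) (i : Zd d) :
    en SA SB ms m c1 μ (ω i) ≤ ce M SA SB ms m c1 μ X ω i := by
  unfold ce
  have : (0 : ℝ) ≤ c1 * μ := by positivity
  split_ifs <;> linarith

theorem ce_Lt {M : CG d E} {SA SB : Set E} {ms : E → ℕ} {m : ℕ} {c1 μ : ℝ} (hc : 0 ≤ c1)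
    (hμ : 0 ≤ μ) {X : Finset (Zd d)} {ω : Zd d → E} {i : Zd d} (h : Lt M X ω i) :
    c1 * μ ≤ ce M SA SB ms m c1 μ X ω i := by
  unfold ce
  rw [if_pos h]
  linarith [en_nonneg (SA := SA) (SB := SB) (ms := ms) (m := m) hc hμ (ω i)]

theorem ce_other {M : CG d E} {SA SB : Set E} {ms : E → ℕ} {m : ℕ} {c1 μ : ℝ} (hc : 0 ≤ c1)
    (hμ : 0 ≤ μ) {X : Finset (Zd d)} {ω : Zd d → E} {i : Zd d} (h : ω i ∉ SA ∪ SB) :
    c1 * μ ≤ ce M SA SB ms m c1 μ X ω i := by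
  refine le_trans ?_ (en_le_ce hc hμ X ω i)
  unfold en
  rw [if_neg h]

theorem ms_le {SA SB : Set E} {ms : E → ℕ} {m : ℕ} {c1 μ : ℝ} (hc : 0 ≤ c1) (hμ : 0 < μ)
    (hm : 1 ≤ m) (x : E) : (((SA ∪ SB).indicator ms x : ℕ) : ℝ) ≤
      2 * m / μ * en SA SB ms m c1 μ x := by
  have hm' : (0 : ℝ) < m := by exact_mod_cast hm
  by_cases h : x ∈ SA ∪ SB
  · rw [Set.indicator_of_mem h]
    unfold en
    rw [if_pos h]
    refine le_of_eq ?_
    field_simp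
  · rw [Set.indicator_of_notMem h, Nat.cast_zero]
    have := en_nonneg (SA := SA) (SB := SB) (ms := ms) (m := m) hc hμ.le x
    positivity

/-- Number of the contents which are not good. -/
noncomputable def cntO (SA SB : Set E) (X : Finset (Zd d)) (ω : Zd d → E) : ℕ :=
  cnt (SA ∪ SB)ᶜ X ω

theorem cnt_mono {S T : Set E} (h : S ⊆ T) (X : Finset (Zd d)) (ω : Zd d → E) :
    cnt S X ω ≤ cnt T X ω := by
  classical
  unfold cnt
  exact card_le_card fun i hi => by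
    rw [mem_filter] at hi ⊢
    exact ⟨hi.1, h hi.2⟩

theorem cnt_sub {S : Set E} {X Y : Finset (Zd d)} (h : X ⊆ Y) (ω : Zd d → E) :
    cnt S X ω ≤ cnt S Y ω := by
  classical
  unfold cnt
  exact card_le_card fun i hi => by
    rw [mem_filter] at hi ⊢
    exact ⟨h hi.1, hi.2⟩

theorem cnt_le_card (S : Set E) (X : Finset (Zd d)) (ω : Zd d → E) : cnt S X ω ≤ X.card := by
  classical
  unfold cnt
  exact card_le_card (filter_subset _ _)

theorem cnt_eq (S : Set E) (X : Finset (Zd d)) (ω : Zd d → E) :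
    cnt S X ω = ∑ i ∈ X, S.indicator (fun _ => 1) (ω i) := by
  classical
  unfold cnt
  rw [card_filter]
  refine sum_congr rfl fun i _ => ?_
  by_cases h : ω i ∈ S
  · rw [if_pos h, Set.indicator_of_mem h]
  · rw [if_neg h, Set.indicator_of_notMem h]

theorem mem_of_cnt {S : Set E} {X : Finset (Zd d)} {ω : Zd d → E} {T : Finset (Zd d)}
    (hT : ∀ i, i ∈ T ↔ i ∈ X ∧ ω i ∈ S) : cnt S X ω = T.card := by
  classical
  unfold cnt
  congr 1
  ext i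
  rw [mem_filter, hT]

theorem cnt_add {SA SB : Set E} (h : Disjoint SA SB) (X : Finset (Zd d)) (ω : Zd d → E) :
    cnt SA X ω + cnt SB X ω + cnt (SA ∪ SB)ᶜ X ω = X.card := by
  rw [cnt_eq, cnt_eq, cnt_eq, card_eq_sum_ones, ← sum_add_distrib, ← sum_add_distrib]
  refine sum_congr rfl fun i _ => ?_
  show _ = 1
  by_cases hA : ω i ∈ SA
  · have hB : ω i ∉ SB := fun hB => Set.disjoint_left.1 h hA hB
    have hO : ω i ∉ (SA ∪ SB)ᶜ := fun h => h (Or.inl hA)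
    rw [Set.indicator_of_mem hA, Set.indicator_of_notMem hB, Set.indicator_of_notMem hO]
    rfl
  · by_cases hB : ω i ∈ SB
    · have hO : ω i ∉ (SA ∪ SB)ᶜ := fun h => h (Or.inr hB)
      rw [Set.indicator_of_notMem hA, Set.indicator_of_mem hB, Set.indicator_of_notMem hO]
      rfl
    · have hO : ω i ∈ (SA ∪ SB)ᶜ := fun h => h.elim hA hB
      rw [Set.indicator_of_notMem hA, Set.indicator_of_notMem hB, Set.indicator_of_mem hO]
      rfl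

theorem cnt_other_le {M : CG d E} {SA SB : Set E} {ms : E → ℕ} {m : ℕ} {c1 μ : ℝ} (hc : 0 ≤ c1)
    (hμ : 0 ≤ μ) (X S : Finset (Zd d)) (ω : Zd d → E) :
    c1 * μ * cnt (SA ∪ SB)ᶜ S ω ≤ ∑ i ∈ S, ce M SA SB ms m c1 μ X ω i := by
  classical
  have h1 : cnt (SA ∪ SB)ᶜ S ω = (S.filter fun i => ω i ∉ SA ∪ SB).card :=
    mem_of_cnt fun i => by rw [mem_filter]; rfl
  rw [h1, mul_comm, ← nsmul_eq_mul]
  refine le_trans (card_nsmul_le_sum _ (fun i => ce M SA SB ms m c1 μ X ω i) _ fun i hi =>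
    ce_other hc hμ (mem_filter.1 hi).2) ?_
  exact sum_le_sum_of_subset_of_nonneg (filter_subset _ _) fun i _ _ => ce_nonneg hc hμ X ω i

section

variable {M : CG d E} {SA SB : Set E} {ms : E → ℕ} {rc : ℕ}

/-- Rows times columns. -/
theorem Cub.count_en (hC : Cub M SA SB ms rc) {m : ℕ} (hm : 1 ≤ m) {c1 μ : ℝ} (hc : 0 ≤ c1)
    (hμ : 0 < μ) {S : Finset (Zd d)} {ω : Zd d → E} (hω : M.cp id S ω)
    (hS : ∀ i ∈ S, ∀ j ∈ S, j - i ∈ Qr d rc) (X : Finset (Zd d)) :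
    (cnt SA S ω : ℝ) * cnt SB S ω ≤ 6 * m / μ * ∑ i ∈ S, ce M SA SB ms m c1 μ X ω i := by
  have h := hC.count S ω hω hS
  have h1 : ((cnt SA S ω * cnt SB S ω : ℕ) : ℝ) ≤
      ((3 * ∑ i ∈ S, (SA ∪ SB).indicator ms (ω i) : ℕ) : ℝ) := by exact_mod_cast h
  push_cast at h1
  refine h1.trans ?_
  have hm' : (0 : ℝ) < m := by exact_mod_cast hm
  have h2 : ∑ i ∈ S, (((SA ∪ SB).indicator ms (ω i) : ℕ) : ℝ) ≤
      ∑ i ∈ S, 2 * m / μ * ce M SA SB ms m c1 μ X ω i := by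
    refine sum_le_sum fun i _ => (ms_le hc hμ hm (ω i)).trans ?_
    exact mul_le_mul_of_nonneg_left (en_le_ce hc hμ.le X ω i) (by positivity)
  rw [← mul_sum] at h2
  calc 3 * ∑ i ∈ S, (((SA ∪ SB).indicator ms (ω i) : ℕ) : ℝ)
      ≤ 3 * (2 * m / μ * ∑ i ∈ S, ce M SA SB ms m c1 μ X ω i) := by linarith
    _ = _ := by ring

theorem blk_dist {k : ℕ} {p i j : Zd d} (hi : i ∈ blk k p) (hj : j ∈ blk k p) (hk : 2 * k ≤ rc) :
    j - i ∈ Qr d rc := by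
  rw [mem_Qr]
  intro l
  have h := dist_blk hi hj (Topo.near_self 1 p) l
  have : (2 * (k : ℤ)) ≤ rc := by exact_mod_cast hk
  simp only [Pi.sub_apply]
  omega

theorem blk2_dist {k : ℕ} {p q : Zd d} (hpq : near 1 p q) (hk : 2 * k ≤ rc) :
    ∀ i ∈ blk k p ∪ blk k q, ∀ j ∈ blk k p ∪ blk k q, j - i ∈ Qr d rc := by
  intro i hi j hj
  rw [mem_Qr]
  intro l
  have : (2 * (k : ℤ)) ≤ rc := by exact_mod_cast hk
  simp only [Pi.sub_apply]
  rcases mem_union.1 hi with h1 | h1 <;> rcases mem_union.1 hj with h2 | h2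
  · have h := dist_blk h1 h2 (Topo.near_self 1 p) l
    omega
  · have h := dist_blk h1 h2 hpq l
    omega
  · have h := dist_blk h1 h2 (Topo.near_symm hpq) l
    omega
  · have h := dist_blk h1 h2 (Topo.near_self 1 q) l
    omega

theorem cp_blk {k : ℕ} {Q : Finset (Zd d)} {ω : Zd d → E} (hω : M.cp id (lift k Q) ω) {p : Zd d}
    (hp : p ∈ Q) : M.cp id (blk k p) ω :=
  M.cp_mono id (fun _ hi => mem_lift.2 ⟨p, hp, hi⟩) hω

/-- The energy of some blocks. -/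
theorem sum_ebc' {m : ℕ} {c1 μ : ℝ} {k : ℕ} {L T : Finset (Zd d)} (_hT : T ⊆ L) (ω : Zd d → E) :
    ∑ z ∈ T, ebc M SA SB ms m c1 μ k L ω z =
      (∑ z ∈ T, ∑ i ∈ blk k z, ce M SA SB ms m c1 μ (lift k L) ω i) / (μ * (k : ℝ) ^ d) := by
  rw [sum_div]
  exact sum_congr rfl fun _ _ => rfl

theorem blk_le_tot {m : ℕ} {c1 μ : ℝ} (hc : 0 ≤ c1) (hμ : 0 ≤ μ) {k : ℕ} {X T : Finset (Zd d)}
    {q : Zd d} (hq : q ∈ T) (ω : Zd d → E) :
    ∑ i ∈ blk k q, ce M SA SB ms m c1 μ X ω i ≤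
      ∑ z ∈ T, ∑ i ∈ blk k z, ce M SA SB ms m c1 μ X ω i :=
  single_le_sum (f := fun z => ∑ i ∈ blk k z, ce M SA SB ms m c1 μ X ω i)
    (fun _ _ => sum_nonneg fun i _ => ce_nonneg hc hμ X ω i) hq

theorem tot_nonneg {m : ℕ} {c1 μ : ℝ} (hc : 0 ≤ c1) (hμ : 0 ≤ μ) {k : ℕ} (X T : Finset (Zd d))
    (ω : Zd d → E) : 0 ≤ ∑ z ∈ T, ∑ i ∈ blk k z, ce M SA SB ms m c1 μ X ω i :=
  sum_nonneg fun _ _ => sum_nonneg fun i _ => ce_nonneg hc hμ X ω i

/-- Columns in a block with many rows. -/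
theorem Cub.minority (hC : Cub M SA SB ms rc) {m : ℕ} (hm : 1 ≤ m) {c1 μ Cm : ℝ} (hc : 0 ≤ c1)
    (hμ : 0 < μ) {k : ℕ} (hk : 1 ≤ k) (hkr : 2 * k ≤ rc) (hmk : (m : ℝ) ≤ Cm * (k : ℝ) ^ d)
    {q : Zd d} {ω : Zd d → E} (hω : M.cp id (blk k q) ω) (X : Finset (Zd d))
    (hA : 3 / 4 * (k : ℝ) ^ d ≤ cnt SA (blk k q) ω) :
    (cnt SB (blk k q) ω : ℝ) ≤
      8 * Cm / μ * ∑ i ∈ blk k q, ce M SA SB ms m c1 μ X ω i := by
  have h := hC.count_en hm hc hμ hω (fun i hi j hj => blk_dist hi hj hkr) X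
  have hS : 0 ≤ ∑ i ∈ blk k q, ce M SA SB ms m c1 μ X ω i :=
    sum_nonneg fun i _ => ce_nonneg hc hμ.le X ω i
  have hN : (0 : ℝ) < (k : ℝ) ^ d := by positivity
  have hB : (0 : ℝ) ≤ cnt SB (blk k q) ω := Nat.cast_nonneg _
  generalize ∑ i ∈ blk k q, ce M SA SB ms m c1 μ X ω i = s at *
  generalize (cnt SB (blk k q) ω : ℝ) = b at *
  generalize (cnt SA (blk k q) ω : ℝ) = a at *
  have h1 : 3 / 4 * (k : ℝ) ^ d * b ≤ 6 * (Cm * (k : ℝ) ^ d) / μ * s := by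
    calc 3 / 4 * (k : ℝ) ^ d * b ≤ a * b := mul_le_mul_of_nonneg_right hA hB
      _ ≤ 6 * m / μ * s := h
      _ ≤ _ := by
          refine mul_le_mul_of_nonneg_right ?_ hS
          gcongr
  have h2 : 6 * (Cm * (k : ℝ) ^ d) / μ * s = 3 / 4 * (k : ℝ) ^ d * (8 * Cm / μ * s) := by ring
  rw [h2] at h1
  exact le_of_mul_le_mul_left h1 (by positivity)

/-- Rows in a block with many columns. -/
theorem Cub.swap (hC : Cub M SA SB ms rc) : Cub M SB SA ms rc where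
  SA_meas := hC.SB_meas
  SB_meas := hC.SA_meas
  ms_meas := hC.ms_meas
  e0_A := hC.e0_B
  e0_B := hC.e0_A
  disj := hC.disj.symm
  count := fun S ω h1 h2 => by
    have := hC.count S ω h1 h2
    rw [Set.union_comm SB SA, mul_comm]
    exact this

theorem en_swap (SA SB : Set E) (ms : E → ℕ) (m : ℕ) (c1 μ : ℝ) (x : E) :
    en SB SA ms m c1 μ x = en SA SB ms m c1 μ x := by
  unfold en
  have h : x ∈ SB ∪ SA ↔ x ∈ SA ∪ SB := by rw [Set.union_comm]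
  by_cases h1 : x ∈ SA ∪ SB
  · rw [if_pos h1, if_pos (h.2 h1)]
  · rw [if_neg h1, if_neg fun h2 => h1 (h.1 h2)]

theorem ce_swap (M : CG d E) (SA SB : Set E) (ms : E → ℕ) (m : ℕ) (c1 μ : ℝ)
    (X : Finset (Zd d)) (ω : Zd d → E) (i : Zd d) :
    ce M SB SA ms m c1 μ X ω i = ce M SA SB ms m c1 μ X ω i := by
  unfold ce
  rw [en_swap]

theorem sum_ce_swap (M : CG d E) (SA SB : Set E) (ms : E → ℕ) (m : ℕ) (c1 μ : ℝ)
    (X S : Finset (Zd d)) (ω : Zd d → E) :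
    ∑ i ∈ S, ce M SB SA ms m c1 μ X ω i = ∑ i ∈ S, ce M SA SB ms m c1 μ X ω i :=
  sum_congr rfl fun i _ => ce_swap M SA SB ms m c1 μ X ω i

open Classical in
/-- The cells which are too near to another cell. -/
theorem thin_le {m : ℕ} {c1 μ : ℝ} (hc : 0 ≤ c1) (hμ : 0 ≤ μ) {k rn : ℕ} (hq : M.q ≤ rn)
    (hk : rn ≤ k) {Q L : Finset (Zd d)} {ω : Zd d → E} (hω : M.cp id (lift k Q) ω) {q : Zd d}
    (hqQ : q ∈ Q) (hL : ball 1 q ∩ Q ⊆ L) :
    c1 * μ * ((blk k q).filter fun i => ∃ l ∈ lift k Q, l ≠ i ∧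
        ¬ M.nf 2 (l - i) (ω i) (ω l)).card ≤
      (Qr d rn).card * ∑ z ∈ ball 1 q ∩ Q, ∑ i ∈ blk k z, ce M SA SB ms m c1 μ (lift k L) ω i := by
  set T := (blk k q).filter fun i => ∃ l ∈ lift k Q, l ≠ i ∧ ¬ M.nf 2 (l - i) (ω i) (ω l) with hT
  set F := (lift k (ball 1 q ∩ Q)).filter fun i => Lt M (lift k L) ω i with hF
  have hqb : q ∈ ball 1 q ∩ Q := mem_inter.2 ⟨mem_ball.2 (Topo.near_self 1 q), hqQ⟩
  have hTF : T ⊆ F.biUnion fun j => (Qr d rn).image fun v => j + v := by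
    intro i hi
    obtain ⟨hi1, l, hl, hli, hn⟩ := mem_filter.1 hi
    have hiQ : i ∈ lift k Q := mem_lift.2 ⟨q, hqQ, hi1⟩
    have hv : l - i ∈ Qr d M.q := by
      by_contra h
      exact hn (M.nf_r 2 _ _ _ le_rfl h)
    have hv' : ∀ c, |l c - i c| ≤ rn := by
      intro c
      have h1 := mem_Qr.1 hv c
      have h2 : (M.q : ℤ) ≤ rn := by exact_mod_cast hq
      simp only [Pi.sub_apply] at h1
      exact h1.trans h2
    obtain ⟨z, hz, hlz⟩ := mem_lift.1 hl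
    have hzb : z ∈ ball 1 q ∩ Q := by
      refine mem_inter.2 ⟨mem_ball.2 (near_blk hi1 hlz fun c => ?_), hz⟩
      have h1 := hv' c
      have h2 : (rn : ℤ) ≤ k := by exact_mod_cast hk
      push_cast
      linarith
    have hlL : l ∈ lift k L := mem_lift.2 ⟨z, hL hzb, hlz⟩
    have hiL : i ∈ lift k L := mem_lift.2 ⟨q, hL hqb, hi1⟩
    have hok := M.cp_id.1 hω i hiQ l hl hli.symm
    rcases lt_trichotomy (toLex l) (toLex i) with h | h | h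
    · refine mem_biUnion.2 ⟨i, mem_filter.2 ⟨mem_lift.2 ⟨q, hqb, hi1⟩, l, hlL, h, hok.1, hn⟩, ?_⟩
      refine mem_image.2 ⟨0, mem_Qr.2 fun c => ?_, add_zero i⟩
      simp
    · exact absurd (toLex.injective h) hli
    · refine mem_biUnion.2 ⟨l, mem_filter.2 ⟨mem_lift.2 ⟨z, hzb, hlz⟩, i, hiL, h, ?_, ?_⟩, ?_⟩
      · have h1 := M.nf_symm 0 (l - i) _ _ hok.1
        rwa [neg_sub] at h1
      · intro h1
        have h2 := M.nf_symm 2 (i - l) _ _ h1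
        rw [neg_sub] at h2
        exact hn h2
      · refine mem_image.2 ⟨i - l, mem_Qr.2 fun c => ?_, by abel⟩
        have h1 := hv' c
        simp only [Pi.sub_apply]
        rw [abs_sub_comm]
        exact h1
  have hcard : T.card ≤ F.card * (Qr d rn).card := by
    refine (card_le_card hTF).trans (card_biUnion_le_card_mul _ _ _ fun j _ => card_image_le)
  have hFe : c1 * μ * F.card ≤
      ∑ z ∈ ball 1 q ∩ Q, ∑ i ∈ blk k z, ce M SA SB ms m c1 μ (lift k L) ω i := by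
    have h1 : ∑ i ∈ lift k (ball 1 q ∩ Q), ce M SA SB ms m c1 μ (lift k L) ω i =
        ∑ z ∈ ball 1 q ∩ Q, ∑ i ∈ blk k z, ce M SA SB ms m c1 μ (lift k L) ω i :=
      Pool.Agent.Vdw.ClsA.sum_lift k _ _
    rw [← h1, mul_comm, ← nsmul_eq_mul]
    refine le_trans (card_nsmul_le_sum _ (fun i => ce M SA SB ms m c1 μ (lift k L) ω i) _
      fun i hi => ce_Lt hc hμ (mem_filter.1 hi).2) ?_
    exact sum_le_sum_of_subset_of_nonneg (filter_subset _ _)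
      fun i _ _ => ce_nonneg hc hμ (lift k L) ω i
  have h2 : (T.card : ℝ) ≤ F.card * (Qr d rn).card := by exact_mod_cast hcard
  calc c1 * μ * (T.card : ℝ) ≤ c1 * μ * (F.card * (Qr d rn).card) :=
        mul_le_mul_of_nonneg_left h2 (by positivity)
    _ = (Qr d rn).card * (c1 * μ * F.card) := by ring
    _ ≤ _ := mul_le_mul_of_nonneg_left hFe (Nat.cast_nonneg _)

/-- Blocks in no phase. -/
theorem Cub.none' (hC : Cub M SA SB ms rc) {m : ℕ} (hm : 1 ≤ m) {c1 μ Cm : ℝ} (hc : 0 < c1)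
    (hμ : 0 < μ) (hCm : 0 < Cm) {k : ℕ} (hk : 1 ≤ k) (hkr : 2 * k ≤ rc)
    (hmk : (m : ℝ) ≤ Cm * (k : ℝ) ^ d)
    {q : Zd d} {ω : Zd d → E} (hω : M.cp id (blk k q) ω) (X : Finset (Zd d))
    (hA : (cnt SA (blk k q) ω : ℝ) ≤ 3 / 4 * (k : ℝ) ^ d)
    (hB : (cnt SB (blk k q) ω : ℝ) ≤ 3 / 4 * (k : ℝ) ^ d) :
    min (c1 / 8) (1 / (64 * Cm)) * (μ * (k : ℝ) ^ d) ≤
      ∑ i ∈ blk k q, ce M SA SB ms m c1 μ X ω i := by
  have h := hC.count_en hm hc.le hμ hω (fun i hi j hj => blk_dist hi hj hkr) X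
  have hS : 0 ≤ ∑ i ∈ blk k q, ce M SA SB ms m c1 μ X ω i :=
    sum_nonneg fun i _ => ce_nonneg hc.le hμ.le X ω i
  have hO := cnt_other_le (M := M) (ms := ms) (m := m) (SA := SA) (SB := SB) hc.le hμ.le X
    (blk k q) ω
  have hadd : (cnt SA (blk k q) ω : ℝ) + cnt SB (blk k q) ω + cnt (SA ∪ SB)ᶜ (blk k q) ω =
      (k : ℝ) ^ d := by
    have := cnt_add hC.disj (blk k q) ω
    rw [card_blk] at this
    exact_mod_cast this
  have hN : (0 : ℝ) < (k : ℝ) ^ d := by positivity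
  have hm' : (0 : ℝ) < m := by exact_mod_cast hm
  have hA0 : (0 : ℝ) ≤ cnt SA (blk k q) ω := Nat.cast_nonneg _
  have hB0 : (0 : ℝ) ≤ cnt SB (blk k q) ω := Nat.cast_nonneg _
  generalize ∑ i ∈ blk k q, ce M SA SB ms m c1 μ X ω i = s at *
  generalize (cnt SB (blk k q) ω : ℝ) = b at *
  generalize (cnt SA (blk k q) ω : ℝ) = a at *
  generalize (cnt (SA ∪ SB)ᶜ (blk k q) ω : ℝ) = u at *
  generalize (k : ℝ) ^ d = N at *
  by_cases h8 : N / 8 ≤ u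
  · calc min (c1 / 8) (1 / (64 * Cm)) * (μ * N) ≤ c1 / 8 * (μ * N) :=
          mul_le_mul_of_nonneg_right (min_le_left _ _) (by positivity)
      _ = c1 * μ * (N / 8) := by ring
      _ ≤ c1 * μ * u := mul_le_mul_of_nonneg_left h8 (by positivity)
      _ ≤ s := hO
  · push Not at h8
    have h1 : 3 / 32 * N ^ 2 ≤ a * b := by
      nlinarith [mul_nonneg (show 0 ≤ a - N / 8 by linarith) (show 0 ≤ 3 / 4 * N - a by linarith),
        mul_nonneg (show 0 ≤ a - N / 8 by linarith) (show 0 ≤ a + b - 7 / 8 * N by linarith),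
        mul_nonneg (show 0 ≤ N by linarith) (show 0 ≤ a + b - 7 / 8 * N by linarith)]
    have h2 : 3 / 32 * N ^ 2 ≤ 6 * (Cm * N) / μ * s := by
      refine (h1.trans h).trans (mul_le_mul_of_nonneg_right ?_ hS)
      gcongr
    have h3 : 6 * (Cm * N) / μ * s = N * (6 * Cm / μ * s) := by ring
    rw [h3, show 3 / 32 * N ^ 2 = N * (3 / 32 * N) by ring] at h2
    have h4 := le_of_mul_le_mul_left h2 hN
    have h5 : 1 / (64 * Cm) * (μ * N) ≤ s := by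
      have h6 : 3 / 32 * N * (μ / (6 * Cm)) ≤ 6 * Cm / μ * s * (μ / (6 * Cm)) :=
        mul_le_mul_of_nonneg_right h4 (by positivity)
      have h7 : 6 * Cm / μ * s * (μ / (6 * Cm)) = s := by field_simp
      have h8 : 3 / 32 * N * (μ / (6 * Cm)) = 1 / (64 * Cm) * (μ * N) := by
        field_simp
        ring
      rw [h7, h8] at h6
      exact h6
    exact (mul_le_mul_of_nonneg_right (min_le_right _ _) (by positivity)).trans h5

/-- Opposite phases side by side. -/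
theorem Cub.jump' (hC : Cub M SA SB ms rc) {m : ℕ} (hm : 1 ≤ m) {c1 μ Cm : ℝ} (hc : 0 < c1)
    (hμ : 0 < μ) (hCm : 0 < Cm) {k : ℕ} (hk : 1 ≤ k) (hkr : 2 * k ≤ rc)
    (hmk : (m : ℝ) ≤ Cm * (k : ℝ) ^ d) {q z : Zd d} (hqz : near 1 q z) {ω : Zd d → E}
    (hω : M.cp id (blk k q ∪ blk k z) ω) (X : Finset (Zd d))
    (hA : 3 / 4 * (k : ℝ) ^ d ≤ cnt SA (blk k q) ω)
    (hB : 3 / 4 * (k : ℝ) ^ d ≤ cnt SB (blk k z) ω) :
    3 / (32 * Cm) * (μ * (k : ℝ) ^ d) ≤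
      ∑ i ∈ blk k q ∪ blk k z, ce M SA SB ms m c1 μ X ω i := by
  have h := hC.count_en hm hc.le hμ hω (blk2_dist hqz hkr) X
  have hS : 0 ≤ ∑ i ∈ blk k q ∪ blk k z, ce M SA SB ms m c1 μ X ω i :=
    sum_nonneg fun i _ => ce_nonneg hc.le hμ.le X ω i
  have hN : (0 : ℝ) < (k : ℝ) ^ d := by positivity
  have hm' : (0 : ℝ) < m := by exact_mod_cast hm
  have hA1 : (cnt SA (blk k q) ω : ℝ) ≤ cnt SA (blk k q ∪ blk k z) ω := by
    exact_mod_cast cnt_sub subset_union_left ω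
  have hB1 : (cnt SB (blk k z) ω : ℝ) ≤ cnt SB (blk k q ∪ blk k z) ω := by
    exact_mod_cast cnt_sub subset_union_right ω
  generalize ∑ i ∈ blk k q ∪ blk k z, ce M SA SB ms m c1 μ X ω i = s at *
  generalize (cnt SB (blk k q ∪ blk k z) ω : ℝ) = b at *
  generalize (cnt SA (blk k q ∪ blk k z) ω : ℝ) = a at *
  generalize (cnt SB (blk k z) ω : ℝ) = b' at *
  generalize (cnt SA (blk k q) ω : ℝ) = a' at *
  generalize (k : ℝ) ^ d = N at *
  have h1 : 9 / 16 * N ^ 2 ≤ a * b := by nlinarith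
  have h2 : 9 / 16 * N ^ 2 ≤ 6 * (Cm * N) / μ * s := by
    refine (h1.trans h).trans (mul_le_mul_of_nonneg_right ?_ hS)
    gcongr
  have h3 : 6 * (Cm * N) / μ * s = N * (6 * Cm / μ * s) := by ring
  rw [h3, show 9 / 16 * N ^ 2 = N * (9 / 16 * N) by ring] at h2
  have h4 := le_of_mul_le_mul_left h2 hN
  have h6 : 9 / 16 * N * (μ / (6 * Cm)) ≤ 6 * Cm / μ * s * (μ / (6 * Cm)) :=
    mul_le_mul_of_nonneg_right h4 (by positivity)
  have h7 : 6 * Cm / μ * s * (μ / (6 * Cm)) = s := by field_simp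
  have h8 : 9 / 16 * N * (μ / (6 * Cm)) = 3 / (32 * Cm) * (μ * N) := by
    field_simp
    ring
  rw [h7, h8] at h6
  exact h6

/-- The constant of the clean blocks. -/
noncomputable def CT (d rn : ℕ) (c1 Cm : ℝ) : ℝ := (1 + (Qr d rn).card) / c1 + 8 * Cm

theorem CT_pos {d rn : ℕ} {c1 Cm : ℝ} (hc : 0 < c1) (hCm : 0 < Cm) : 0 < CT d rn c1 Cm := by
  unfold CT
  positivity

theorem one_le_CT {d rn : ℕ} {c1 Cm : ℝ} (hc : 0 < c1) :
    1 / c1 + 8 * Cm ≤ CT d rn c1 Cm := by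
  unfold CT
  have h : (1 : ℝ) / c1 ≤ (1 + (Qr d rn).card) / c1 := by
    gcongr
    have : (0 : ℝ) ≤ (Qr d rn).card := Nat.cast_nonneg _
    linarith
  linarith

/-- Good and not good contents in a block with many rows. -/
theorem Cub.full' (hC : Cub M SA SB ms rc) {m : ℕ} (hm : 1 ≤ m) {c1 μ Cm : ℝ} (hc : 0 < c1)
    (hμ : 0 < μ) {k : ℕ} (hk : 1 ≤ k) (hkr : 2 * k ≤ rc) (hmk : (m : ℝ) ≤ Cm * (k : ℝ) ^ d)
    {q : Zd d} {ω : Zd d → E} (hω : M.cp id (blk k q) ω) (X : Finset (Zd d))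
    (hA : 3 / 4 * (k : ℝ) ^ d ≤ cnt SA (blk k q) ω) :
    (cnt SB (blk k q) ω : ℝ) + cnt (SA ∪ SB)ᶜ (blk k q) ω ≤
      (1 / c1 + 8 * Cm) / μ * ∑ i ∈ blk k q, ce M SA SB ms m c1 μ X ω i := by
  have h1 := hC.minority hm hc.le hμ hk hkr hmk hω X hA
  have h2 := cnt_other_le (M := M) (ms := ms) (m := m) (SA := SA) (SB := SB) hc.le hμ.le X
    (blk k q) ω
  have h3 : (cnt (SA ∪ SB)ᶜ (blk k q) ω : ℝ) ≤
      1 / (c1 * μ) * ∑ i ∈ blk k q, ce M SA SB ms m c1 μ X ω i := by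
    rw [one_div, ← div_eq_inv_mul, le_div_iff₀ (by positivity)]
    linarith
  have e : (1 / c1 + 8 * Cm) / μ * ∑ i ∈ blk k q, ce M SA SB ms m c1 μ X ω i =
      8 * Cm / μ * ∑ i ∈ blk k q, ce M SA SB ms m c1 μ X ω i +
        1 / (c1 * μ) * ∑ i ∈ blk k q, ce M SA SB ms m c1 μ X ω i := by
    field_simp
    ring
  rw [e]
  linarith

/-- Unclean cells of a block with many rows. -/
theorem Cub.clean' (hC : Cub M SA SB ms rc) {m : ℕ} (hm : 1 ≤ m) {c1 μ Cm : ℝ} (hc : 0 < c1)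
    (hμ : 0 < μ) {k rn : ℕ} (hq : M.q ≤ rn) (hrk : rn ≤ k) (hk : 1 ≤ k)
    (hkr : 2 * k ≤ rc) (hmk : (m : ℝ) ≤ Cm * (k : ℝ) ^ d) {Q L : Finset (Zd d)} {ω : Zd d → E}
    (hω : M.cp id (lift k Q) ω) {q : Zd d} (hqQ : q ∈ Q) (hL : ball 1 q ∩ Q ⊆ L)
    (hA : 3 / 4 * (k : ℝ) ^ d ≤ cnt SA (blk k q) ω) :
    (M.un SA (lift k Q) (blk k q) ω : ℝ) ≤ CT d rn c1 Cm / μ *
      ∑ z ∈ ball 1 q ∩ Q, ∑ i ∈ blk k z, ce M SA SB ms m c1 μ (lift k L) ω i := by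
  classical
  have hqb : q ∈ ball 1 q ∩ Q := mem_inter.2 ⟨mem_ball.2 (Topo.near_self 1 q), hqQ⟩
  have h1 := hC.full' hm hc hμ hk hkr hmk (cp_blk hω hqQ) (lift k L) hA
  have h2 := thin_le (SA := SA) (SB := SB) (ms := ms) (m := m) hc.le hμ.le hq hrk hω hqQ hL
  have h0 := blk_le_tot (M := M) (SA := SA) (SB := SB) (ms := ms) (m := m) hc.le hμ.le (k := k)
    (X := lift k L) hqb ω
  have htot := tot_nonneg (M := M) (SA := SA) (SB := SB) (ms := ms) (m := m) hc.le hμ.le (k := k)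
    (lift k L) (ball 1 q ∩ Q) ω
  have h3 : M.un SA (lift k Q) (blk k q) ω ≤ cnt SB (blk k q) ω + cnt (SA ∪ SB)ᶜ (blk k q) ω +
      ((blk k q).filter fun i => ∃ l ∈ lift k Q, l ≠ i ∧ ¬ M.nf 2 (l - i) (ω i) (ω l)).card := by
    have e1 : cnt SB (blk k q) ω = ((blk k q).filter fun i => ω i ∈ SB).card :=
      mem_of_cnt fun i => by rw [mem_filter]
    have e2 : cnt (SA ∪ SB)ᶜ (blk k q) ω = ((blk k q).filter fun i => ω i ∉ SA ∪ SB).card :=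
      mem_of_cnt fun i => by rw [mem_filter]; rfl
    rw [e1, e2]
    refine le_trans (card_le_card ?_) ((card_union_le _ _).trans
      (Nat.add_le_add_right (card_union_le _ _) _))
    intro i hi
    obtain ⟨hi1, hi2, hi3⟩ : i ∈ blk k q ∧ M.Un SA (lift k Q) ω i := mem_filter.1 hi
    rw [mem_union, mem_union, mem_filter, mem_filter, mem_filter]
    rcases hi3 with h | h
    · by_cases hB : ω i ∈ SB
      · exact Or.inl (Or.inl ⟨hi1, hB⟩)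
      · exact Or.inl (Or.inr ⟨hi1, fun h' => h'.elim h hB⟩)
    · exact Or.inr ⟨hi1, h⟩
  have h3' : (M.un SA (lift k Q) (blk k q) ω : ℝ) ≤ cnt SB (blk k q) ω +
      cnt (SA ∪ SB)ᶜ (blk k q) ω + ((blk k q).filter fun i =>
        ∃ l ∈ lift k Q, l ≠ i ∧ ¬ M.nf 2 (l - i) (ω i) (ω l)).card := by exact_mod_cast h3
  generalize (((blk k q).filter fun i =>
        ∃ l ∈ lift k Q, l ≠ i ∧ ¬ M.nf 2 (l - i) (ω i) (ω l)).card : ℝ) = t at *
  generalize ∑ z ∈ ball 1 q ∩ Q, ∑ i ∈ blk k z, ce M SA SB ms m c1 μ (lift k L) ω i = tot at *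
  have hnn : 0 ≤ (1 / c1 + 8 * Cm) / μ := by
    have : 0 ≤ Cm := by
      by_contra hneg
      push Not at hneg
      have h5 : (0 : ℝ) < (k : ℝ) ^ d := by positivity
      have h6 : (0 : ℝ) ≤ m := Nat.cast_nonneg _
      nlinarith
    positivity
  have h4 : (cnt SB (blk k q) ω : ℝ) + cnt (SA ∪ SB)ᶜ (blk k q) ω ≤
      (1 / c1 + 8 * Cm) / μ * tot := h1.trans (mul_le_mul_of_nonneg_left h0 hnn)
  have h5 : t ≤ (Qr d rn).card / (c1 * μ) * tot := by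
    rw [div_mul_eq_mul_div, le_div_iff₀ (by positivity)]
    linarith
  have e : CT d rn c1 Cm / μ * tot = (1 / c1 + 8 * Cm) / μ * tot +
      (Qr d rn).card / (c1 * μ) * tot := by
    unfold CT
    field_simp
    ring
  rw [e]
  linarith

end

theorem not_DA {SA : Set E} {k : ℕ} {Q : Finset (Zd d)} {ω : Zd d → E} {q : Zd d} (hq : q ∈ Q)
    (h : ¬ DA SA 1 k Q ω q) : (cnt SA (blk k q) ω : ℝ) ≤ 3 / 4 * (k : ℝ) ^ d := by
  by_contra hc
  push Not at hc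
  exact h ⟨hq, by rw [mul_one]; exact hc.le⟩

theorem not_DB {SA SB : Set E} {k : ℕ} {Q : Finset (Zd d)} {ω : Zd d → E} {q : Zd d}
    (hA : ¬ DA SA 1 k Q ω q) (h : ¬ DB SA SB 1 k Q ω q) :
    (cnt SB (blk k q) ω : ℝ) ≤ 3 / 4 * (k : ℝ) ^ d := by
  by_contra hc
  push Not at hc
  exact h (Or.inr ⟨hA, by rw [mul_one]; exact hc.le⟩)

theorem DA_cnt {SA : Set E} {k : ℕ} {Q : Finset (Zd d)} {ω : Zd d → E} {q : Zd d}
    (h : DA SA 1 k Q ω q) : 3 / 4 * (k : ℝ) ^ d ≤ cnt SA (blk k q) ω := by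
  have := h.2
  rwa [mul_one] at this

theorem DB_cnt {SA SB : Set E} {k : ℕ} {Q : Finset (Zd d)} {ω : Zd d → E} {q : Zd d} (hq : q ∈ Q)
    (h : DB SA SB 1 k Q ω q) :
    ¬ DA SA 1 k Q ω q ∧ 3 / 4 * (k : ℝ) ^ d ≤ cnt SB (blk k q) ω := by
  rcases h with h | h
  · exact absurd hq h
  · refine ⟨h.1, ?_⟩
    have := h.2
    rwa [mul_one] at this

/-- **The assumptions on the blocks for the cubic core.** -/
theorem cub_blk {c1 Cm : ℝ} (_hd : 1 ≤ d) (hc1 : 0 < c1) (hc1' : c1 ≤ 1) (hCm : 1 ≤ Cm) (rn : ℕ) :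
    ∃ c2 C1 : ℝ, 0 < c2 ∧ 0 < C1 ∧ ∀ ε : ℝ, 0 < ε → ∀ k m : ℕ, 2 * rn + 1 ≤ k → 1 ≤ m →
      (m : ℝ) ≤ Cm * (k : ℝ) ^ d → ∃ μ0 : ℝ,
      ∀ (E : Type) (_ : MeasurableSpace E) (M : CG d E) (SA SB : Set E) (ms : E → ℕ) (rc : ℕ)
      (h : E → ℝ) (p : ℝ → ℝ) (μ : ℝ), Cub M SA SB ms rc → 2 * k ≤ rc → M.q ≤ rn → μ0 ≤ μ →
      Mas M SA SB ms m c1 (ε / 2) μ h → (∀ a, M.IsP (fa h SA a) (p a)) →
      (∀ a, (1 - ε) * μ ≤ p a) →
      Blk M SA SB h p 1 c2 C1 ε μ k (ebc M SA SB ms m c1 μ k) := by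
  have hCm0 : 0 < Cm := by linarith
  refine ⟨min (c1 / 8) (1 / (64 * Cm)), CT d rn c1 Cm, by positivity, CT_pos hc1 hCm0, ?_⟩
  intro ε hε k m hk hm hmk
  obtain ⟨μ0, hμ0⟩ := cub_cr (d := d) hc1 hc1' (half_pos hε) rn
  refine ⟨max μ0 1, ?_⟩
  intro E _ M SA SB ms rc h p μ hC hkr hq hμ hMas hp hlo
  have hμ1 : μ0 ≤ μ := (le_max_left _ _).trans hμ
  have hμp : 0 < μ := lt_of_lt_of_le one_pos ((le_max_right _ _).trans hμ)
  have hk1 : 1 ≤ k := by omega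
  have hrk : rn ≤ k := by omega
  have hN : (0 : ℝ) < (k : ℝ) ^ d := by
    have : (0 : ℝ) < k := by exact_mod_cast hk1
    positivity
  have hμN : 0 < μ * (k : ℝ) ^ d := by positivity
  have hself : ∀ {Q : Finset (Zd d)} {q : Zd d}, q ∈ Q → q ∈ ball 1 q ∩ Q := fun hq =>
    mem_inter.2 ⟨mem_ball.2 (Topo.near_self 1 _), hq⟩
  -- from the sum of the energies of the cells to the energies of the blocks
  have low : ∀ {Q L : Finset (Zd d)} {q : Zd d} {ω : Zd d → E} {c : ℝ}, ball 1 q ∩ Q ⊆ L →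
      c * (μ * (k : ℝ) ^ d) ≤ ∑ z ∈ ball 1 q ∩ Q, ∑ i ∈ blk k z,
        ce M SA SB ms m c1 μ (lift k L) ω i →
      c ≤ ∑ z ∈ ball 1 q ∩ Q, ebc M SA SB ms m c1 μ k L ω z := by
    intro Q L q ω c hL h1
    rw [sum_ebc' hL, le_div_iff₀ hμN]
    exact h1
  have up : ∀ {Q L : Finset (Zd d)} {q : Zd d} {ω : Zd d → E} {x c : ℝ}, ball 1 q ∩ Q ⊆ L →
      x ≤ c / μ * ∑ z ∈ ball 1 q ∩ Q, ∑ i ∈ blk k z, ce M SA SB ms m c1 μ (lift k L) ω i →
      x ≤ c * (k : ℝ) ^ d * ∑ z ∈ ball 1 q ∩ Q, ebc M SA SB ms m c1 μ k L ω z := by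
    intro Q L q ω x c hL h1
    rw [sum_ebc' hL]
    refine h1.trans (le_of_eq ?_)
    field_simp
  have mono : ∀ {Q L : Finset (Zd d)} {q : Zd d} {ω : Zd d → E} {x c : ℝ}, q ∈ Q → 0 ≤ c →
      c ≤ CT d rn c1 Cm → x ≤ c / μ * ∑ i ∈ blk k q, ce M SA SB ms m c1 μ (lift k L) ω i →
      x ≤ CT d rn c1 Cm / μ *
        ∑ z ∈ ball 1 q ∩ Q, ∑ i ∈ blk k z, ce M SA SB ms m c1 μ (lift k L) ω i := by
    intro Q L q ω x c hqQ hc0 hcC h1
    refine h1.trans (mul_le_mul ?_ (blk_le_tot hc1.le hμp.le (hself hqQ) ω)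
      (sum_nonneg fun i _ => ce_nonneg hc1.le hμp.le _ ω i) (by have := CT_pos (d := d) (rn := rn) hc1 hCm0; positivity))
    gcongr
  refine ⟨hk1, hμp, hC.SA_meas, hC.SB_meas, hC.e0_A, hC.e0_B, hC.disj, hMas.fld, hp,
    fun L q => measurable_ebc hC.SA_meas hC.SB_meas hC.ms_meas k L q, ?_,
    fun L ω q => ebc_nonneg hc1.le hμp.le k L ω q, ?_, ?_, ?_, ?_, ?_, ?_, ?_, ?_, ?_, hlo⟩
  · exact fun L q hq ω ω' h => ebc_dep hq h
  · -- none
    intro Q ω hω L _ q hqQ hL hA hB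
    refine low hL ?_
    exact (hC.none' hm hc1 hμp hCm0 hk1 hkr hmk (cp_blk hω hqQ) (lift k L) (not_DA hqQ hA)
      (not_DB hA hB)).trans (blk_le_tot hc1.le hμp.le (hself hqQ) ω)
  · -- jump
    rintro Q ω hω L _ q hqQ hL hA ⟨z, hz, hB⟩
    obtain ⟨hz1, hzQ⟩ := mem_inter.1 hz
    refine low hL ?_
    have h1 := hC.jump' hm hc1 hμp hCm0 hk1 hkr hmk (mem_ball.1 hz1)
      (M.cp_mono id (union_subset (fun i hi => mem_lift.2 ⟨q, hqQ, hi⟩)
        fun i hi => mem_lift.2 ⟨z, hzQ, hi⟩) hω) (lift k L) (DA_cnt hA) (DB_cnt hzQ hB).2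
    have h2 : ∑ i ∈ blk k q ∪ blk k z, ce M SA SB ms m c1 μ (lift k L) ω i ≤
        ∑ z ∈ ball 1 q ∩ Q, ∑ i ∈ blk k z, ce M SA SB ms m c1 μ (lift k L) ω i := by
      rw [← Pool.Agent.Vdw.ClsA.sum_lift k]
      refine sum_le_sum_of_subset_of_nonneg (union_subset
        (fun i hi => mem_lift.2 ⟨q, hself hqQ, hi⟩) fun i hi => mem_lift.2 ⟨z, hz, hi⟩)
        fun i _ _ => ce_nonneg hc1.le hμp.le _ ω i
    refine le_trans (mul_le_mul_of_nonneg_right ?_ hμN.le) (h1.trans h2)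
    refine (min_le_right _ _).trans ?_
    rw [div_le_div_iff₀ (by positivity) (by positivity)]
    linarith
  · -- cleanA
    intro Q ω hω L _ q hqQ hL hA
    have h1 := hC.clean' hm hc1 hμp hq hrk hk1 hkr hmk hω hqQ hL (DA_cnt hA)
    unfold tt
    rw [div_le_iff₀ hN]
    exact (up hL h1).trans (le_of_eq (by ring))
  · -- cleanB
    intro Q ω hω L _ q hqQ hL hB
    have h1 := hC.swap.clean' hm hc1 hμp hq hrk hk1 hkr hmk hω hqQ hL (DB_cnt hqQ hB).2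
    unfold tt
    rw [div_le_iff₀ hN]
    simp only [ce_swap M SA SB] at h1
    exact (up hL h1).trans (le_of_eq (by ring))
  · -- full
    intro Q ω hω q hqQ hA
    have h1 := hC.full' hm hc1 hμp hk1 hkr hmk (cp_blk hω hqQ) (lift k Q) (DA_cnt hA)
    have h2 : (cnt SA (blk k q) ω : ℝ) + cnt SB (blk k q) ω + cnt (SA ∪ SB)ᶜ (blk k q) ω =
        (k : ℝ) ^ d := by
      have := cnt_add hC.disj (blk k q) ω
      rw [card_blk] at this
      exact_mod_cast this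
    refine up inter_subset_right (mono hqQ (by positivity) (one_le_CT hc1) ?_)
    rw [one_mul]
    linarith
  · -- rare
    intro Q ω hω q hqQ hB
    have h1 := hC.swap.minority hm hc1.le hμp hk1 hkr hmk (cp_blk hω hqQ) (lift k Q)
      (DB_cnt hqQ hB).2
    rw [sum_ce_swap M SA SB] at h1
    refine up inter_subset_right (mono (c := 8 * Cm) hqQ (by positivity) ?_ h1)
    have h2 := one_le_CT (d := d) (rn := rn) (Cm := Cm) hc1
    have h3 : 0 < 1 / c1 := by positivity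
    linarith
  · -- other
    intro Q ω hω q hqQ
    have h1 := cnt_other_le (M := M) (ms := ms) (m := m) (SA := SA) (SB := SB) hc1.le hμp.le
      (lift k Q) (blk k q) ω
    have h2 : (cnt (SA ∪ SB ∪ {M.e0})ᶜ (blk k q) ω : ℝ) ≤ cnt (SA ∪ SB)ᶜ (blk k q) ω := by
      exact_mod_cast cnt_mono (Set.compl_subset_compl.2 Set.subset_union_left) _ _
    refine up inter_subset_right (mono (c := 1 / c1) hqQ (by positivity) ?_ ?_)
    · have h3 := one_le_CT (d := d) (rn := rn) (Cm := Cm) hc1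
      linarith
    · refine h2.trans ?_
      rw [div_div, one_div, ← div_eq_inv_mul, le_div_iff₀ (by positivity)]
      linarith
  · -- pack
    intro Q ω _
    have h1 := cnt_add hC.disj (lift k Q) ω
    rw [card_lift] at h1
    have h2 : (cnt SA (lift k Q) ω : ℝ) + cnt SB (lift k Q) ω ≤ (k : ℝ) ^ d * Q.card := by
      exact_mod_cast (by omega : cnt SA (lift k Q) ω + cnt SB (lift k Q) ω ≤ k ^ d * Q.card)
    refine h2.trans ?_
    have h3 : (0 : ℝ) ≤ (k : ℝ) ^ d * Q.card := by positivity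
    nlinarith
  · -- cr
    intro L
    refine ebc_cr hμp hk1 (fun X => ?_) L
    have := hμ0 E _ M SA SB ms m rc h μ hC hMas hq hμ1 X
    rwa [mul_div_cancel₀ ε two_ne_zero] at this

theorem Cub.blk {c1 Cm : ℝ} (hd : 1 ≤ d) (hc1 : 0 < c1) (hc1' : c1 ≤ 1) (hCm : 1 ≤ Cm) (rn : ℕ) :
    ∃ c2 C1 : ℝ, 0 < c2 ∧ 0 < C1 ∧ ∀ ε : ℝ, 0 < ε → ∀ k m : ℕ, 2 * rn + 1 ≤ k → 1 ≤ m →
      (m : ℝ) ≤ Cm * (k : ℝ) ^ d → ∃ μ0 : ℝ,
      ∀ (E : Type) (_ : MeasurableSpace E) (M : CG d E) (SA SB : Set E) (ms : E → ℕ) (rc : ℕ)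
      (h : E → ℝ) (p : ℝ → ℝ) (μ : ℝ), Cub M SA SB ms rc → 2 * k ≤ rc → M.q ≤ rn → μ0 ≤ μ →
      Mas M SA SB ms m c1 (ε / 2) μ h → (∀ a, M.IsP (fa h SA a) (p a)) →
      (∀ a, (1 - ε) * μ ≤ p a) →
      Blk M SA SB h p 1 c2 C1 ε μ k (ebc M SA SB ms m c1 μ k) :=
  cub_blk hd hc1 hc1' hCm rn

end Pool.Agent.RC
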