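import Pool.Agent.Lib.MP_09cbbd_rc.Bal
import Pool.Agent.Lib.MP_09cbbd_rc.CubT

/-!
# Rows and columns round a general hard core: energies of the blocks
-/

set_option autoImplicit false

namespace Pool.Agent.RC

open MeasureTheory Finset Filter Topology Pool.Agent.StableGas
open Pool.Agent.SquareWell hiding Md cut
open Pool.Agent.Vdw (blk lift ball Lk Yk Wk Kc mem_blk card_blk mem_ball mem_lift mem_lift_iff
  card_lift near_blk dist_blk lift_subset)
open Pool.Agent.Mix (Qr mem_Qr)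

set_option linter.unusedSectionVars false

variable {d : ℕ} {E : Type} [MeasurableSpace E]

section

variable {M : CG d E} {SA SB od : Set E} {ms : E → ℕ} {m rc : ℕ} {c1 μ : ℝ}
  {nw : Finset (Zd d) → (Zd d → E) → Finset (Zd d)} {Mx : ℕ → ℕ} {k : ℕ}

open Classical in
/-- The new cells which are not good or too near to a previous cell. -/
noncomputable def chg (M : CG d E) (SA SB : Set E)
    (nw : Finset (Zd d) → (Zd d → E) → Finset (Zd d)) (X S : Finset (Zd d)) (ω : Zd d → E) :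
    Finset (Zd d) :=
  (nw S ω).filter fun i => ω i ∉ SA ∪ SB ∨ Lt M X ω i

open Classical in
theorem chg_le (hc1 : 0 ≤ c1) (hμ : 0 ≤ μ) (H : Ldr M SA SB od Mx nw) (X : Finset (Zd d))
    (ω : Zd d → E) (q : Zd d) :
    c1 * μ * (chg M SA SB nw X (blk k q) ω).card + c1 * μ * cnt od (blk k q) ω +
      μ * ((Mx k - (nw (blk k q) ω).card : ℕ) : ℝ) ≤ GN M SA SB od ms m c1 μ nw Mx k X ω q := by
  unfold GN
  refine add_le_add ?_ le_rfl
  have h0 : 0 ≤ c1 * μ := mul_nonneg hc1 hμ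
  have hsub : chg M SA SB nw X (blk k q) ω ⊆ blk k q := fun i hi =>
    H.sub _ ω (mem_filter.1 hi).1
  have e1 : c1 * μ * (chg M SA SB nw X (blk k q) ω).card =
      ∑ i ∈ blk k q, if i ∈ chg M SA SB nw X (blk k q) ω then c1 * μ else 0 := by
    rw [sum_ite_mem, inter_eq_right.2 hsub, sum_const, nsmul_eq_mul]
    ring
  have e2 : c1 * μ * cnt od (blk k q) ω = ∑ i ∈ blk k q, if ω i ∈ od then c1 * μ else 0 := by
    rw [mem_of_cnt (T := (blk k q).filter fun i => ω i ∈ od) fun i => by rw [mem_filter],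
      ← sum_filter, sum_const, nsmul_eq_mul]
    ring
  rw [e1, e2, ← sum_add_distrib]
  refine sum_le_sum fun i _ => ?_
  unfold ceN
  refine add_le_add ?_ le_rfl
  have hen := en_nonneg (SA := SA) (SB := SB) (ms := ms) (m := m) hc1 hμ (ω i)
  by_cases hn : i ∈ nw (blk k q) ω
  · rw [if_pos hn]
    by_cases hi : i ∈ chg M SA SB nw X (blk k q) ω
    · rw [if_pos hi]
      rcases (mem_filter.1 hi).2 with h | h
      · have h2 : en SA SB ms m c1 μ (ω i) = c1 * μ := if_neg h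
        rw [h2]
        split_ifs <;> linarith
      · rw [if_pos h]
        linarith
    · rw [if_neg hi]
      split_ifs <;> linarith
  · have hn' : i ∉ chg M SA SB nw X (blk k q) ω := fun hi => hn (mem_filter.1 hi).1
    rw [if_neg hn, if_neg hn']

theorem sum_ceN_le (hμ : 0 ≤ μ) (X : Finset (Zd d)) (ω : Zd d → E) (q : Zd d) :
    ∑ i ∈ blk k q, ceN M SA SB od ms m c1 μ nw X (blk k q) ω i ≤
      GN M SA SB od ms m c1 μ nw Mx k X ω q := by
  unfold GN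
  exact le_add_of_nonneg_right (by positivity)

/-- The missing beads of a block. -/
theorem ms_le_GN (hc1 : 0 ≤ c1) (hμ : 0 < μ) (hm : 1 ≤ m) (H : Ldr M SA SB od Mx nw)
    (X : Finset (Zd d)) {ω : Zd d → E} {q : Zd d} (hω : M.cp id (blk k q) ω) :
    ∑ i ∈ blk k q, (((SA ∪ SB).indicator ms (ω i) : ℕ) : ℝ) ≤
      2 * m / μ * GN M SA SB od ms m c1 μ nw Mx k X ω q := by
  have hm' : (0 : ℝ) < m := by exact_mod_cast hm
  have h2 : (0 : ℝ) ≤ 2 * m / μ := by positivity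
  refine le_trans ?_ (mul_le_mul_of_nonneg_left (sum_ceN_le hμ.le X ω q) h2)
  rw [mul_sum]
  refine sum_le_sum fun i hi => ?_
  have h3 := ceN_nonneg (M := M) (SA := SA) (SB := SB) (od := od) (ms := ms) (m := m) (nw := nw)
    hc1 hμ.le X (blk k q) ω i
  by_cases h : ω i ∈ SA ∪ SB
  · refine (ms_le (m := m) hc1 hμ hm (ω i)).trans (mul_le_mul_of_nonneg_left ?_ h2)
    have hn := H.AB _ ω hω i hi h
    have h4 := mul_nonneg hc1 hμ.le
    unfold ceN
    rw [if_pos hn]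
    split_ifs <;> linarith
  · rw [Set.indicator_of_notMem h, Nat.cast_zero]
    positivity

/-- Rows times columns. -/
theorem count_GN (hC : Cub M SA SB ms rc) (hc1 : 0 ≤ c1) (hμ : 0 < μ) (hm : 1 ≤ m)
    (H : Ldr M SA SB od Mx nw) {T S : Finset (Zd d)} (hST : S ⊆ lift k T) {ω : Zd d → E}
    (hω : M.cp id (lift k T) ω) (hS : ∀ i ∈ S, ∀ j ∈ S, j - i ∈ Qr d rc) (X : Finset (Zd d)) :
    (cnt SA S ω : ℝ) * cnt SB S ω ≤
      6 * m / μ * ∑ z ∈ T, GN M SA SB od ms m c1 μ nw Mx k X ω z := by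
  have h := hC.count S ω (M.cp_mono id hST hω) hS
  have h1 : ((cnt SA S ω * cnt SB S ω : ℕ) : ℝ) ≤
      ((3 * ∑ i ∈ S, (SA ∪ SB).indicator ms (ω i) : ℕ) : ℝ) := by exact_mod_cast h
  push_cast at h1
  refine h1.trans ?_
  have h2 : ∑ i ∈ S, (((SA ∪ SB).indicator ms (ω i) : ℕ) : ℝ) ≤
      ∑ z ∈ T, 2 * m / μ * GN M SA SB od ms m c1 μ nw Mx k X ω z := by
    refine (sum_le_sum_of_subset_of_nonneg hST fun i _ _ => Nat.cast_nonneg _).trans ?_
    rw [Pool.Agent.Vdw.ClsA.sum_lift k]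
    exact sum_le_sum fun z hz => ms_le_GN hc1 hμ hm H X (cp_blk hω hz)
  rw [← mul_sum] at h2
  calc 3 * ∑ i ∈ S, (((SA ∪ SB).indicator ms (ω i) : ℕ) : ℝ)
      ≤ 3 * (2 * m / μ * ∑ z ∈ T, GN M SA SB od ms m c1 μ nw Mx k X ω z) := by linarith
    _ = _ := by ring

/-- Rows times columns in one block. -/
theorem count_GN_blk (hC : Cub M SA SB ms rc) (hc1 : 0 ≤ c1) (hμ : 0 < μ) (hm : 1 ≤ m)
    (H : Ldr M SA SB od Mx nw) (hkr : 2 * k ≤ rc) {q : Zd d} {ω : Zd d → E}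
    (hω : M.cp id (blk k q) ω) (X : Finset (Zd d)) :
    (cnt SA (blk k q) ω : ℝ) * cnt SB (blk k q) ω ≤
      6 * m / μ * GN M SA SB od ms m c1 μ nw Mx k X ω q := by
  have e : lift k {q} = blk k q := by
    ext i
    rw [Pool.Agent.Vdw.mem_lift]
    simp
  have h := count_GN hC hc1 hμ hm H (T := {q}) (S := blk k q) (by rw [e]) (by rw [e]; exact hω)
    (fun i hi j hj => blk_dist hi hj hkr) X
  rwa [sum_singleton] at h

open Classical in
/-- The new cells. -/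
theorem card_nw (hd : Disjoint SA SB) (H : Ldr M SA SB od Mx nw) {S : Finset (Zd d)}
    {ω : Zd d → E} (hω : M.cp id S ω) :
    (nw S ω).card = cnt SA S ω + cnt SB S ω +
      ((nw S ω).filter fun i => ω i ∉ SA ∪ SB).card := by
  have h1 := card_filter_add_card_filter_not (s := nw S ω) fun i => ω i ∈ SA ∪ SB
  have h2 : ((nw S ω).filter fun i => ω i ∈ SA ∪ SB).card = cnt SA S ω + cnt SB S ω := by
    have e1 : cnt SA S ω = (S.filter fun i => ω i ∈ SA).card :=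
      mem_of_cnt fun i => by rw [mem_filter]
    have e2 : cnt SB S ω = (S.filter fun i => ω i ∈ SB).card :=
      mem_of_cnt fun i => by rw [mem_filter]
    rw [e1, e2, ← card_union_of_disjoint]
    · congr 1
      ext i
      rw [mem_filter, mem_union, mem_filter, mem_filter]
      constructor
      · rintro ⟨h3, h4⟩
        have h5 := H.sub S ω h3
        exact h4.elim (fun h => Or.inl ⟨h5, h⟩) fun h => Or.inr ⟨h5, h⟩
      · rintro (⟨h3, h4⟩ | ⟨h3, h4⟩)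
        · exact ⟨H.AB S ω hω i h3 (Or.inl h4), Or.inl h4⟩
        · exact ⟨H.AB S ω hω i h3 (Or.inr h4), Or.inr h4⟩
    · rw [disjoint_left]
      intro i h3 h4
      exact Set.disjoint_left.1 hd (mem_filter.1 h3).2 (mem_filter.1 h4).2
  omega

/-- Vacancies and new contents which are not good: `u` with `#rows + #columns + u = Mx`. -/
theorem exists_vac (hc1 : 0 ≤ c1) (hc1' : c1 ≤ 1) (hμ : 0 ≤ μ) (hd : Disjoint SA SB)
    (H : Ldr M SA SB od Mx nw) (X : Finset (Zd d)) {ω : Zd d → E} {q : Zd d}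
    (hω : M.cp id (blk k q) ω) :
    ∃ u : ℝ, 0 ≤ u ∧ (cnt SA (blk k q) ω : ℝ) + cnt SB (blk k q) ω + u = Mx k ∧
      c1 * μ * u ≤ GN M SA SB od ms m c1 μ nw Mx k X ω q := by
  classical
  have h1 := card_nw hd H hω
  have h2 := H.pack k q ω hω
  have h3 := chg_le (ms := ms) (m := m) (k := k) hc1 hμ H X ω q
  have h4 : ((nw (blk k q) ω).filter fun i => ω i ∉ SA ∪ SB).card ≤
      (chg M SA SB nw X (blk k q) ω).card := by
    refine card_le_card fun i hi => ?_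
    rw [mem_filter] at hi
    exact mem_filter.2 ⟨hi.1, Or.inl hi.2⟩
  set c0 := ((nw (blk k q) ω).filter fun i => ω i ∉ SA ∪ SB).card with hc0
  refine ⟨c0 + ((Mx k - (nw (blk k q) ω).card : ℕ) : ℝ), by positivity, ?_, ?_⟩
  · rw [Nat.cast_sub h2, h1]
    push_cast
    ring
  · have h5 : (c0 : ℝ) ≤ (chg M SA SB nw X (blk k q) ω).card := by exact_mod_cast h4
    have h6 : c1 * μ * c0 ≤ c1 * μ * (chg M SA SB nw X (blk k q) ω).card :=
      mul_le_mul_of_nonneg_left h5 (by positivity)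
    have h7 : c1 * μ * ((Mx k - (nw (blk k q) ω).card : ℕ) : ℝ) ≤
        μ * ((Mx k - (nw (blk k q) ω).card : ℕ) : ℝ) := by
      refine mul_le_mul_of_nonneg_right ?_ (Nat.cast_nonneg _)
      nlinarith
    have h8 : 0 ≤ c1 * μ * cnt od (blk k q) ω := by positivity
    rw [mul_add]
    linarith

/-- The energy of one block is at most the energy of some blocks. -/
theorem GN_le_tot (hc1 : 0 ≤ c1) (hμ : 0 ≤ μ) {X T : Finset (Zd d)} {q : Zd d} (hq : q ∈ T)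
    (ω : Zd d → E) : GN M SA SB od ms m c1 μ nw Mx k X ω q ≤
      ∑ z ∈ T, GN M SA SB od ms m c1 μ nw Mx k X ω z :=
  single_le_sum (f := fun z => GN M SA SB od ms m c1 μ nw Mx k X ω z)
    (fun z _ => GN_nonneg hc1 hμ X ω z) hq

open Classical in
/-- The cells which are not empty, and not good or too near to another cell. -/
theorem bad_le (hc1 : 0 ≤ c1) (hμ : 0 ≤ μ) (H : Ldr M SA SB od Mx nw) {rn : ℕ} (hq : M.q ≤ rn)
    (hk : rn ≤ k) {Q L : Finset (Zd d)} {ω : Zd d → E} (hω : M.cp id (lift k Q) ω) {q : Zd d}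
    (hqQ : q ∈ Q) (hL : ball 1 q ∩ Q ⊆ L) :
    c1 * μ * ((blk k q).filter fun i => ω i ≠ M.e0 ∧ (ω i ∉ SA ∪ SB ∨ ∃ l ∈ lift k Q, l ≠ i ∧
        ¬ M.nf 2 (l - i) (ω i) (ω l))).card ≤
      (Qr d (rn + 1)).card *
        ∑ z ∈ ball 1 q ∩ Q, GN M SA SB od ms m c1 μ nw Mx k (lift k L) ω z := by
  set T := (blk k q).filter fun i => ω i ≠ M.e0 ∧ (ω i ∉ SA ∪ SB ∨ ∃ l ∈ lift k Q, l ≠ i ∧
        ¬ M.nf 2 (l - i) (ω i) (ω l)) with hT
  set F := (ball 1 q ∩ Q).biUnion fun z => chg M SA SB nw (lift k L) (blk k z) ω with hF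
  have hqb : q ∈ ball 1 q ∩ Q := mem_inter.2 ⟨mem_ball.2 (Topo.near_self 1 q), hqQ⟩
  -- every cell which is not old and has a previous cell too near, or is not good
  have hlead : ∀ z ∈ ball 1 q ∩ Q, ∀ j ∈ blk k z, ω j ≠ M.e0 → ω j ∉ od →
      (ω j ∉ SA ∪ SB ∨ Lt M (lift k L) ω j) → ∃ c ∈ F, ∀ e, |j e - c e| ≤ 1 := by
    intro z hz j hj h0 h1 h2
    by_cases hn : j ∈ nw (blk k z) ω
    · refine ⟨j, mem_biUnion.2 ⟨z, hz, mem_filter.2 ⟨hn, h2⟩⟩, fun e => ?_⟩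
      simp
    · obtain ⟨l, hl, hlj, hlo⟩ := H.lead _ ω (cp_blk hω (mem_inter.1 hz).2) j hj h0 h1 hn
      refine ⟨l, mem_biUnion.2 ⟨z, hz, mem_filter.2 ⟨hl, Or.inl hlo⟩⟩, fun e => ?_⟩
      have h3 := mem_Qr.1 hlj e
      simp only [Pi.sub_apply] at h3
      rw [abs_sub_comm]
      exact_mod_cast h3
  have hTF : T ⊆ ((blk k q).filter fun i => ω i ∈ od) ∪
      F.biUnion fun j => (Qr d (rn + 1)).image fun v => j + v := by
    intro i hi
    obtain ⟨hi1, hi0, hi2⟩ := mem_filter.1 hi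
    by_cases hod : ω i ∈ od
    · exact mem_union_left _ (mem_filter.2 ⟨hi1, hod⟩)
    refine mem_union_right _ ?_
    have fin : ∀ c ∈ F, (∀ e, |i e - c e| ≤ rn + 1) →
        i ∈ F.biUnion fun j => (Qr d (rn + 1)).image fun v => j + v := by
      intro c hc h
      refine mem_biUnion.2 ⟨c, hc, mem_image.2 ⟨i - c, mem_Qr.2 fun e => ?_, by abel⟩⟩
      simp only [Pi.sub_apply]
      push_cast
      exact h e
    rcases hi2 with hi2 | ⟨l, hl, hli, hn⟩
    · obtain ⟨c, hc, h⟩ := hlead q hqb i hi1 hi0 hod (Or.inl hi2)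
      refine fin c hc fun e => (h e).trans ?_
      have : (0 : ℤ) ≤ rn := by positivity
      linarith
    · have hiQ : i ∈ lift k Q := mem_lift.2 ⟨q, hqQ, hi1⟩
      have hn' : ¬ M.nf 2 (i - l) (ω l) (ω i) := by
        intro h1
        have h2 := M.nf_symm 2 (i - l) _ _ h1
        rw [neg_sub] at h2
        exact hn h2
      have hl0 : ω l ≠ M.e0 := fun h => hn (by rw [h]; exact M.nf_e0' 2 _ _)
      have hlod : ω l ∉ od := fun h => hn' (H.od_nf _ _ _ h)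
      have hv : l - i ∈ Qr d M.q := by
        by_contra h
        exact hn (M.nf_r 2 _ _ _ le_rfl h)
      have hv' : ∀ c, |l c - i c| ≤ rn := by
        intro c
        have h1 := mem_Qr.1 hv c
        have h2 : (M.q : ℤ) ≤ rn := by exact_mod_cast hq
        simp only [Pi.sub_apply] at h1
        exact h1.trans h2
      obtain ⟨z, hz, hlz⟩ := mem_lift.1 hl
      have hzb : z ∈ ball 1 q ∩ Q := by
        refine mem_inter.2 ⟨mem_ball.2 (near_blk hi1 hlz fun c => ?_), hz⟩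
        have h1 := hv' c
        have h2 : (rn : ℤ) ≤ k := by exact_mod_cast hk
        push_cast
        linarith
      have hlL : l ∈ lift k L := mem_lift.2 ⟨z, hL hzb, hlz⟩
      have hiL : i ∈ lift k L := mem_lift.2 ⟨q, hL hqb, hi1⟩
      have hok := M.cp_id.1 hω i hiQ l hl hli.symm
      rcases lt_trichotomy (toLex l) (toLex i) with h | h | h
      · obtain ⟨c, hc, h1⟩ := hlead q hqb i hi1 hi0 hod (Or.inr ⟨l, hlL, h, hok.1, hn⟩)
        refine fin c hc fun e => (h1 e).trans ?_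
        have : (0 : ℤ) ≤ rn := by positivity
        linarith
      · exact absurd (toLex.injective h) hli
      · have hnf0 : M.nf 0 (i - l) (ω l) (ω i) := by
          have h1 := M.nf_symm 0 (l - i) _ _ hok.1
          rwa [neg_sub] at h1
        obtain ⟨c, hc, h1⟩ := hlead z hzb l hlz hl0 hlod (Or.inr ⟨i, hiL, h, hnf0, hn'⟩)
        refine fin c hc fun e => ?_
        have h2 := hv' e
        have h3 := h1 e
        rw [abs_le] at h2 h3 ⊢
        constructor <;> omega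
  have hQ1 : 1 ≤ (Qr d (rn + 1)).card := card_pos.2 ⟨0, mem_Qr.2 fun e => by
    simp only [Pi.zero_apply, abs_zero]
    positivity⟩
  have hod : ((blk k q).filter fun i => ω i ∈ od).card = cnt od (blk k q) ω :=
    (mem_of_cnt fun i => by rw [mem_filter]).symm
  have hcard : T.card ≤ cnt od (blk k q) ω + F.card * (Qr d (rn + 1)).card := by
    refine (card_le_card hTF).trans ((card_union_le _ _).trans ?_)
    rw [hod]
    exact Nat.add_le_add_left (card_biUnion_le_card_mul _ _ _ fun j _ => card_image_le) _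
  have hFc : F.card ≤ ∑ z ∈ ball 1 q ∩ Q, (chg M SA SB nw (lift k L) (blk k z) ω).card :=
    card_biUnion_le
  have h0 : 0 ≤ c1 * μ := mul_nonneg hc1 hμ
  have hE : c1 * μ * cnt od (blk k q) ω + c1 * μ * F.card ≤
      ∑ z ∈ ball 1 q ∩ Q, GN M SA SB od ms m c1 μ nw Mx k (lift k L) ω z := by
    have h1 : ∀ z ∈ ball 1 q ∩ Q, c1 * μ * cnt od (blk k z) ω +
        c1 * μ * (chg M SA SB nw (lift k L) (blk k z) ω).card ≤
        GN M SA SB od ms m c1 μ nw Mx k (lift k L) ω z := by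
      intro z _
      have h2 := chg_le (ms := ms) (m := m) (k := k) hc1 hμ H (lift k L) ω z
      have h3 : 0 ≤ μ * ((Mx k - (nw (blk k z) ω).card : ℕ) : ℝ) := by positivity
      linarith
    refine le_trans ?_ (sum_le_sum h1)
    rw [sum_add_distrib, ← mul_sum, ← mul_sum]
    refine add_le_add ?_ ?_
    · refine mul_le_mul_of_nonneg_left ?_ h0
      exact single_le_sum (f := fun z => (cnt od (blk k z) ω : ℝ)) (fun _ _ => Nat.cast_nonneg _)
        hqb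
    · refine mul_le_mul_of_nonneg_left ?_ h0
      exact_mod_cast hFc
  have h2 : (T.card : ℝ) ≤ cnt od (blk k q) ω + F.card * (Qr d (rn + 1)).card := by
    exact_mod_cast hcard
  have h3 : (1 : ℝ) ≤ (Qr d (rn + 1)).card := by exact_mod_cast hQ1
  have h4 : c1 * μ * cnt od (blk k q) ω ≤ (Qr d (rn + 1)).card * (c1 * μ * cnt od (blk k q) ω) :=
    le_mul_of_one_le_left (by positivity) h3
  calc c1 * μ * (T.card : ℝ)
      ≤ c1 * μ * (cnt od (blk k q) ω + F.card * (Qr d (rn + 1)).card) :=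
        mul_le_mul_of_nonneg_left h2 h0
    _ ≤ (Qr d (rn + 1)).card * (c1 * μ * cnt od (blk k q) ω + c1 * μ * F.card) := by
        rw [mul_add, mul_add]
        refine add_le_add h4 (le_of_eq ?_)
        ring
    _ ≤ _ := mul_le_mul_of_nonneg_left hE (Nat.cast_nonneg _)

/-- The unclean cells of a block. -/
theorem un_le_bad (H : Ldr M SA SB od Mx nw) (hc1 : 0 ≤ c1) (hμ : 0 ≤ μ) {rn : ℕ} (hq : M.q ≤ rn)
    (hk : rn ≤ k) {Q L : Finset (Zd d)} {ω : Zd d → E} (hω : M.cp id (lift k Q) ω) {q : Zd d}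
    (hqQ : q ∈ Q) (hL : ball 1 q ∩ Q ⊆ L) {S S' : Set E} (hS : S ∪ S' = SA ∪ SB) :
    c1 * μ * M.un S (lift k Q) (blk k q) ω ≤ c1 * μ * cnt S' (blk k q) ω +
      (Qr d (rn + 1)).card *
        ∑ z ∈ ball 1 q ∩ Q, GN M SA SB od ms m c1 μ nw Mx k (lift k L) ω z := by
  classical
  have h1 := bad_le (ms := ms) (m := m) (k := k) hc1 hμ H hq hk hω hqQ hL
  have h2 : M.un S (lift k Q) (blk k q) ω ≤ cnt S' (blk k q) ω +
      ((blk k q).filter fun i => ω i ≠ M.e0 ∧ (ω i ∉ SA ∪ SB ∨ ∃ l ∈ lift k Q, l ≠ i ∧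
        ¬ M.nf 2 (l - i) (ω i) (ω l))).card := by
    rw [mem_of_cnt (T := (blk k q).filter fun i => ω i ∈ S') fun i => by rw [mem_filter]]
    refine le_trans (card_le_card ?_) (card_union_le _ _)
    intro i hi
    obtain ⟨hi1, hi2, hi3⟩ : i ∈ blk k q ∧ M.Un S (lift k Q) ω i := mem_filter.1 hi
    rw [mem_union, mem_filter, mem_filter]
    rcases hi3 with h | h
    · by_cases hB : ω i ∈ S'
      · exact Or.inl ⟨hi1, hB⟩
      · refine Or.inr ⟨hi1, hi2, Or.inl ?_⟩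
        rw [← hS]
        exact fun h' => h'.elim h hB
    · exact Or.inr ⟨hi1, hi2, Or.inr h⟩
  have h3 : (M.un S (lift k Q) (blk k q) ω : ℝ) ≤ cnt S' (blk k q) ω +
      ((blk k q).filter fun i => ω i ≠ M.e0 ∧ (ω i ∉ SA ∪ SB ∨ ∃ l ∈ lift k Q, l ≠ i ∧
        ¬ M.nf 2 (l - i) (ω i) (ω l))).card := by exact_mod_cast h2
  have h4 := mul_le_mul_of_nonneg_left h3 (mul_nonneg hc1 hμ)
  rw [mul_add] at h4
  linarith

/-- Contents of the other type in a block with many contents of one type. -/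
theorem minor_alg {a b g N φ Cm : ℝ} (hN : 0 < N) (hφ : 0 < φ) (hμ : 0 < μ) (hb : 0 ≤ b)
    (hg : 0 ≤ g) (ha : 3 / 4 * φ * N ≤ a) (hm : (m : ℝ) ≤ Cm * N) (h : a * b ≤ 6 * m / μ * g) :
    b ≤ 8 * Cm / (φ * μ) * g := by
  have h1 : 3 / 4 * φ * N * b ≤ 6 * (Cm * N) / μ * g := by
    calc 3 / 4 * φ * N * b ≤ a * b := mul_le_mul_of_nonneg_right ha hb
      _ ≤ 6 * m / μ * g := h
      _ ≤ _ := by
          refine mul_le_mul_of_nonneg_right ?_ hg
          gcongr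
  have h2 : 6 * (Cm * N) / μ * g = 3 / 4 * φ * N * (8 * Cm / (φ * μ) * g) := by
    field_simp
    ring
  rw [h2] at h1
  exact le_of_mul_le_mul_left h1 (by positivity)

theorem prod_alg {a b g N t Cm : ℝ} (hN : 0 < N) (hμ : 0 < μ) (hCm : 0 < Cm)
    (hg : 0 ≤ g) (hab : t * N ^ 2 ≤ a * b) (hm : (m : ℝ) ≤ Cm * N) (h : a * b ≤ 6 * m / μ * g) :
    t / (6 * Cm) * (μ * N) ≤ g := by
  have h2 : t * N ^ 2 ≤ 6 * (Cm * N) / μ * g := by
    refine (hab.trans h).trans (mul_le_mul_of_nonneg_right ?_ hg)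
    gcongr
  have h3 : 6 * (Cm * N) / μ * g = N * (6 * Cm / μ * g) := by ring
  rw [h3, show t * N ^ 2 = N * (t * N) by ring] at h2
  have h4 := le_of_mul_le_mul_left h2 hN
  have h6 : t * N * (μ / (6 * Cm)) ≤ 6 * Cm / μ * g * (μ / (6 * Cm)) :=
    mul_le_mul_of_nonneg_right h4 (by positivity)
  have h7 : 6 * Cm / μ * g * (μ / (6 * Cm)) = g := by field_simp
  have h8 : t * N * (μ / (6 * Cm)) = t / (6 * Cm) * (μ * N) := by ring
  rw [h7, h8] at h6
  exact h6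

/-- Blocks in no phase. -/
theorem none_alg {a b u g N φ Cm M0 : ℝ} (hN : 0 < N) (hφ : 0 < φ) (hμ : 0 < μ) (hc1 : 0 < c1)
    (hCm : 0 < Cm) (hg : 0 ≤ g) (h0 : a + b + u = M0) (hM : φ * N ≤ M0)
    (ha : a ≤ 3 / 4 * φ * N) (hb : b ≤ 3 / 4 * φ * N) (hu : c1 * μ * u ≤ g)
    (hm : (m : ℝ) ≤ Cm * N) (h : a * b ≤ 6 * m / μ * g) :
    min (c1 * φ / 8) (φ ^ 2 / (64 * Cm)) * (μ * N) ≤ g := by
  by_cases h8 : φ * N / 8 ≤ u
  · calc min (c1 * φ / 8) (φ ^ 2 / (64 * Cm)) * (μ * N) ≤ c1 * φ / 8 * (μ * N) :=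
          mul_le_mul_of_nonneg_right (min_le_left _ _) (by positivity)
      _ = c1 * μ * (φ * N / 8) := by ring
      _ ≤ c1 * μ * u := mul_le_mul_of_nonneg_left h8 (by positivity)
      _ ≤ g := hu
  · push Not at h8
    have hx : 0 < φ * N := by positivity
    have h1 : 3 / 32 * φ ^ 2 * N ^ 2 ≤ a * b := by
      have e : 3 / 32 * φ ^ 2 * N ^ 2 = 3 / 32 * (φ * N) ^ 2 := by ring
      rw [e]
      rw [mul_assoc] at ha hb
      generalize φ * N = x at *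
      nlinarith [mul_nonneg (show 0 ≤ a - x / 8 by linarith) (show 0 ≤ 3 / 4 * x - a by linarith),
        mul_nonneg (show 0 ≤ a - x / 8 by linarith) (show 0 ≤ a + b - 7 / 8 * x by linarith),
        mul_nonneg (show 0 ≤ x by linarith) (show 0 ≤ a + b - 7 / 8 * x by linarith)]
    have h2 := prod_alg hN hμ hCm hg h1 hm h
    have e : 3 / 32 * φ ^ 2 / (6 * Cm) = φ ^ 2 / (64 * Cm) := by
      field_simp
      ring
    rw [e] at h2
    exact (mul_le_mul_of_nonneg_right (min_le_right _ _) (by positivity)).trans h2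

end

/-- The number of the good contents of some blocks. -/
theorem cnt_lift_eq (S : Set E) (k : ℕ) (Q : Finset (Zd d)) (ω : Zd d → E) :
    (cnt S (lift k Q) ω : ℝ) = ∑ q ∈ Q, (cnt S (blk k q) ω : ℝ) := by
  have e : ∀ X : Finset (Zd d), (cnt S X ω : ℝ) =
      ∑ i ∈ X, ((S.indicator (fun _ => 1) (ω i) : ℕ) : ℝ) := by
    intro X
    rw [cnt_eq]
    push_cast
    rfl
  rw [e, Pool.Agent.Vdw.ClsA.sum_lift k]
  exact sum_congr rfl fun q _ => (e _).symm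

/-- **The assumptions on the blocks for a general hard core.** -/
theorem ldr_blk {c1 Cm φ : ℝ} (hc1 : 0 < c1) (hc1' : c1 ≤ 1) (hCm : 1 ≤ Cm) (hφ : 0 < φ)
    (_hφ1 : φ ≤ 1) (rn : ℕ) :
    ∃ c2 C1 : ℝ, 0 < c2 ∧ 0 < C1 ∧ ∀ k m : ℕ, 2 * rn + 1 ≤ k → 1 ≤ m →
      (m : ℝ) ≤ Cm * (k : ℝ) ^ d →
      ∀ (E : Type) (_ : MeasurableSpace E) (M : CG d E) (SA SB od : Set E) (ms : E → ℕ) (rc : ℕ)
      (Mx : ℕ → ℕ) (nw : Finset (Zd d) → (Zd d → E) → Finset (Zd d)) (h : E → ℝ) (p : ℝ → ℝ)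
      (ε μ : ℝ), 0 < μ → Cub M SA SB ms rc → Ldr M SA SB od Mx nw → 2 * k ≤ rc → M.q ≤ rn →
      φ * (k : ℝ) ^ d ≤ Mx k → (Mx k : ℝ) ≤ (φ + ε) * (k : ℝ) ^ d →
      M.Fld h → (∀ a, M.IsP (fa h SA a) (p a)) → (∀ a, (φ - ε) * μ ≤ p a) →
      (∀ L, M.int (lift k L) (fun ω => M.w h (lift k L) ω *
        ex (1 / 2 * μ * (k : ℝ) ^ d * ∑ q ∈ L, ebN M SA SB od ms m c1 μ nw Mx k L ω q)) ≤
          ex ((φ + ε) * μ * (k : ℝ) ^ d * L.card)) →
      Blk M SA SB h p φ c2 C1 ε μ k (ebN M SA SB od ms m c1 μ nw Mx k) := by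
  have hCm0 : 0 < Cm := by linarith
  set Cq : ℝ := ((Qr d (rn + 1)).card : ℝ) with hCq
  have hCq0 : 0 ≤ Cq := Nat.cast_nonneg _
  set CC : ℝ := (1 + Cq) / c1 + 8 * Cm / φ with hCC
  have hCC0 : 0 < CC := by positivity
  refine ⟨min (c1 * φ / 8) (φ ^ 2 / (64 * Cm)), CC, by positivity, hCC0, ?_⟩
  intro k m hk hm hmk E _ M SA SB od ms rc Mx nw h p ε μ hμp hC H hkr hq hMx1 hMx2 hfld hp hlo hcr
  have hk1 : 1 ≤ k := by omega
  have hrk : rn ≤ k := by omega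
  have hN : (0 : ℝ) < (k : ℝ) ^ d := by
    have : (0 : ℝ) < k := by exact_mod_cast hk1
    positivity
  have hμN : 0 < μ * (k : ℝ) ^ d := by positivity
  have hself : ∀ {Q : Finset (Zd d)} {q : Zd d}, q ∈ Q → q ∈ ball 1 q ∩ Q := fun hq =>
    mem_inter.2 ⟨mem_ball.2 (Topo.near_self 1 _), hq⟩
  have hsum : ∀ (T L : Finset (Zd d)) (ω : Zd d → E),
      ∑ z ∈ T, ebN M SA SB od ms m c1 μ nw Mx k L ω z =
        (∑ z ∈ T, GN M SA SB od ms m c1 μ nw Mx k (lift k L) ω z) / (μ * (k : ℝ) ^ d) := by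
    intro T L ω
    rw [sum_div]
    rfl
  have low : ∀ {T L : Finset (Zd d)} {ω : Zd d → E} {c : ℝ},
      c * (μ * (k : ℝ) ^ d) ≤ ∑ z ∈ T, GN M SA SB od ms m c1 μ nw Mx k (lift k L) ω z →
      c ≤ ∑ z ∈ T, ebN M SA SB od ms m c1 μ nw Mx k L ω z := by
    intro T L ω c h1
    rw [hsum, le_div_iff₀ hμN]
    exact h1
  have up : ∀ {T L : Finset (Zd d)} {ω : Zd d → E} {x c : ℝ},
      x ≤ c / μ * ∑ z ∈ T, GN M SA SB od ms m c1 μ nw Mx k (lift k L) ω z →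
      x ≤ c * (k : ℝ) ^ d * ∑ z ∈ T, ebN M SA SB od ms m c1 μ nw Mx k L ω z := by
    intro T L ω x c h1
    rw [hsum]
    refine h1.trans (le_of_eq ?_)
    field_simp
  have gle : ∀ {Q : Finset (Zd d)} {q : Zd d} (X : Finset (Zd d)) (ω : Zd d → E), q ∈ Q →
      GN M SA SB od ms m c1 μ nw Mx k X ω q ≤
        ∑ z ∈ ball 1 q ∩ Q, GN M SA SB od ms m c1 μ nw Mx k X ω z := fun X ω hqQ =>
    GN_le_tot hc1.le hμp.le (hself hqQ) ω
  have g0 : ∀ (X : Finset (Zd d)) (ω : Zd d → E) (q : Zd d),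
      0 ≤ GN M SA SB od ms m c1 μ nw Mx k X ω q := fun X ω q => GN_nonneg hc1.le hμp.le X ω q
  have t0 : ∀ (T X : Finset (Zd d)) (ω : Zd d → E),
      0 ≤ ∑ z ∈ T, GN M SA SB od ms m c1 μ nw Mx k X ω z := fun T X ω =>
    sum_nonneg fun z _ => g0 X ω z
  have hnA : ∀ {Q : Finset (Zd d)} {q : Zd d} {ω : Zd d → E}, q ∈ Q → ¬ DA SA φ k Q ω q →
      (cnt SA (blk k q) ω : ℝ) ≤ 3 / 4 * φ * (k : ℝ) ^ d := by
    intro Q q ω hqQ h1
    by_contra hcon
    push Not at hcon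
    exact h1 ⟨hqQ, hcon.le⟩
  have hDB : ∀ {Q : Finset (Zd d)} {q : Zd d} {ω : Zd d → E}, q ∈ Q → DB SA SB φ k Q ω q →
      3 / 4 * φ * (k : ℝ) ^ d ≤ cnt SB (blk k q) ω := by
    intro Q q ω hqQ h1
    rcases h1 with h1 | h1
    · exact absurd hqQ h1
    · exact h1.2
  have minB : ∀ {Q : Finset (Zd d)} {q : Zd d} {ω : Zd d → E} (X : Finset (Zd d)),
      M.cp id (lift k Q) ω → q ∈ Q → 3 / 4 * φ * (k : ℝ) ^ d ≤ cnt SA (blk k q) ω →
      (cnt SB (blk k q) ω : ℝ) ≤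
        8 * Cm / (φ * μ) * GN M SA SB od ms m c1 μ nw Mx k X ω q := by
    intro Q q ω X hω hqQ hA
    exact minor_alg hN hφ hμp (Nat.cast_nonneg _) (g0 X ω q) hA hmk
      (count_GN_blk hC hc1.le hμp hm H hkr (cp_blk hω hqQ) X)
  have minA : ∀ {Q : Finset (Zd d)} {q : Zd d} {ω : Zd d → E} (X : Finset (Zd d)),
      M.cp id (lift k Q) ω → q ∈ Q → 3 / 4 * φ * (k : ℝ) ^ d ≤ cnt SB (blk k q) ω →
      (cnt SA (blk k q) ω : ℝ) ≤
        8 * Cm / (φ * μ) * GN M SA SB od ms m c1 μ nw Mx k X ω q := by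
    intro Q q ω X hω hqQ hB
    refine minor_alg hN hφ hμp (Nat.cast_nonneg _) (g0 X ω q) hB hmk ?_
    rw [mul_comm]
    exact count_GN_blk hC hc1.le hμp hm H hkr (cp_blk hω hqQ) X
  have clean : ∀ {Q L : Finset (Zd d)} {q : Zd d} {ω : Zd d → E} {S S' : Set E},
      S ∪ S' = SA ∪ SB → M.cp id (lift k Q) ω → q ∈ Q → ball 1 q ∩ Q ⊆ L →
      (cnt S' (blk k q) ω : ℝ) ≤
        8 * Cm / (φ * μ) * GN M SA SB od ms m c1 μ nw Mx k (lift k L) ω q →
      tt M S k Q ω q ≤ CC * ∑ z ∈ ball 1 q ∩ Q, ebN M SA SB od ms m c1 μ nw Mx k L ω z := by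
    intro Q L q ω S S' hS hω hqQ hL h1
    unfold tt
    rw [div_le_iff₀ hN]
    refine (up (c := CC) ?_).trans (le_of_eq (by ring))
    have h2 := un_le_bad (ms := ms) (m := m) (k := k) H hc1.le hμp.le hq hrk hω hqQ hL hS
    have h3 := gle (lift k L) ω hqQ
    have h4 := t0 (ball 1 q ∩ Q) (lift k L) ω
    rw [← hCq] at h2
    generalize ∑ z ∈ ball 1 q ∩ Q, GN M SA SB od ms m c1 μ nw Mx k (lift k L) ω z = t at *
    have h5 : (cnt S' (blk k q) ω : ℝ) ≤ 8 * Cm / (φ * μ) * t :=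
      h1.trans (mul_le_mul_of_nonneg_left h3 (by positivity))
    have h6 : (M.un S (lift k Q) (blk k q) ω : ℝ) ≤ cnt S' (blk k q) ω + Cq / (c1 * μ) * t := by
      have h7 : 0 < c1 * μ := by positivity
      have e : c1 * μ * (cnt S' (blk k q) ω + Cq / (c1 * μ) * t) =
          c1 * μ * cnt S' (blk k q) ω + Cq * t := by
        field_simp
      rw [← e] at h2
      exact le_of_mul_le_mul_left h2 h7
    have e : CC / μ * t = 8 * Cm / (φ * μ) * t + Cq / (c1 * μ) * t + 1 / (c1 * μ) * t := by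
      rw [hCC]
      field_simp
      ring
    rw [e]
    have h8 : 0 ≤ 1 / (c1 * μ) * t := by positivity
    linarith
  have mono : ∀ {Q L : Finset (Zd d)} {q : Zd d} {ω : Zd d → E} {x c : ℝ}, q ∈ Q → 0 ≤ c →
      c ≤ CC → x ≤ c / μ * GN M SA SB od ms m c1 μ nw Mx k (lift k L) ω q →
      x ≤ CC * (k : ℝ) ^ d * ∑ z ∈ ball 1 q ∩ Q, ebN M SA SB od ms m c1 μ nw Mx k L ω z := by
    intro Q L q ω x c hqQ hc0 hcC h1
    refine up (h1.trans (mul_le_mul ?_ (gle _ _ hqQ) (g0 _ _ _) (by positivity)))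
    gcongr
  refine ⟨hk1, hμp, hC.SA_meas, hC.SB_meas, hC.e0_A, hC.e0_B, hC.disj, hfld, hp,
    fun L q => measurable_ebN hC.SA_meas hC.SB_meas hC.ms_meas H L q,
    fun L q hq ω ω' h => ebN_dep H hq h,
    fun L ω q => ebN_nonneg hc1.le hμp.le L ω q, ?_, ?_, ?_, ?_, ?_, ?_, ?_, ?_, hcr, hlo⟩
  · -- none
    intro Q ω hω L _ q hqQ hL hA hB
    have hA' := hnA hqQ hA
    have hB' : (cnt SB (blk k q) ω : ℝ) ≤ 3 / 4 * φ * (k : ℝ) ^ d := by
      by_contra hcon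
      push Not at hcon
      exact hB (Or.inr ⟨hA, hcon.le⟩)
    obtain ⟨u, -, hu1, hu2⟩ := exists_vac (ms := ms) (m := m) (k := k) hc1.le hc1' hμp.le hC.disj
      H (lift k L) (cp_blk hω hqQ)
    refine low ?_
    exact (none_alg hN hφ hμp hc1 hCm0 (g0 _ _ _) hu1 hMx1 hA' hB' hu2 hmk
      (count_GN_blk hC hc1.le hμp hm H hkr (cp_blk hω hqQ) _)).trans (gle _ _ hqQ)
  · -- jump
    rintro Q ω hω L _ q hqQ hL hA ⟨z, hz, hB⟩
    obtain ⟨hz1, hzQ⟩ := mem_inter.1 hz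
    have hST : blk k q ∪ blk k z ⊆ lift k (ball 1 q ∩ Q) := union_subset
      (fun i hi => mem_lift.2 ⟨q, hself hqQ, hi⟩) fun i hi => mem_lift.2 ⟨z, hz, hi⟩
    have h1 := count_GN hC hc1.le hμp hm H hST
      (M.cp_mono id (lift_subset inter_subset_right) hω) (blk2_dist (mem_ball.1 hz1) hkr)
      (lift k L)
    have hA1 : 3 / 4 * φ * (k : ℝ) ^ d ≤ cnt SA (blk k q ∪ blk k z) ω :=
      hA.2.trans (by exact_mod_cast cnt_sub subset_union_left ω)
    have hB1 : 3 / 4 * φ * (k : ℝ) ^ d ≤ cnt SB (blk k q ∪ blk k z) ω :=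
      (hDB hzQ hB).trans (by exact_mod_cast cnt_sub subset_union_right ω)
    refine low ?_
    have h2 : 9 / 16 * φ ^ 2 * ((k : ℝ) ^ d) ^ 2 ≤
        (cnt SA (blk k q ∪ blk k z) ω : ℝ) * cnt SB (blk k q ∪ blk k z) ω := by
      have h3 := mul_le_mul hA1 hB1 (by positivity) (Nat.cast_nonneg _)
      linarith
    have h3 := prod_alg hN hμp hCm0 (t0 _ _ _) h2 hmk h1
    refine le_trans (mul_le_mul_of_nonneg_right ?_ hμN.le) h3
    refine (min_le_right _ _).trans ?_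
    rw [div_le_div_iff₀ (by positivity) (by positivity)]
    have h4 : 0 ≤ φ ^ 2 * Cm := by positivity
    linarith
  · -- cleanA
    intro Q ω hω L _ q hqQ hL hA
    exact clean rfl hω hqQ hL (minB _ hω hqQ hA.2)
  · -- cleanB
    intro Q ω hω L _ q hqQ hL hB
    exact clean (Set.union_comm _ _) hω hqQ hL (minA _ hω hqQ (hDB hqQ hB))
  · -- full
    intro Q ω hω q hqQ hA
    obtain ⟨u, hu0, hu1, hu2⟩ := exists_vac (ms := ms) (m := m) (k := k) hc1.le hc1' hμp.le hC.disj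
      H (lift k Q) (cp_blk hω hqQ)
    have h1 := minB (lift k Q) hω hqQ hA.2
    have h2 : u ≤ 1 / (c1 * μ) * GN M SA SB od ms m c1 μ nw Mx k (lift k Q) ω q := by
      rw [one_div, ← div_eq_inv_mul, le_div_iff₀ (by positivity)]
      linarith
    refine mono (c := 1 / c1 + 8 * Cm / φ) hqQ (by positivity) ?_ ?_
    · rw [hCC]
      have h3 : (1 : ℝ) / c1 ≤ (1 + Cq) / c1 := by
        gcongr
        linarith
      linarith
    · have e : (1 / c1 + 8 * Cm / φ) / μ * GN M SA SB od ms m c1 μ nw Mx k (lift k Q) ω q =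
          8 * Cm / (φ * μ) * GN M SA SB od ms m c1 μ nw Mx k (lift k Q) ω q +
            1 / (c1 * μ) * GN M SA SB od ms m c1 μ nw Mx k (lift k Q) ω q := by
        field_simp
        ring
      rw [e]
      linarith
  · -- rare
    intro Q ω hω q hqQ hB
    refine mono (c := 8 * Cm / φ) hqQ (by positivity) ?_ ?_
    · rw [hCC]
      have : (0 : ℝ) ≤ (1 + Cq) / c1 := by positivity
      linarith
    · rw [div_div]
      exact minA _ hω hqQ (hDB hqQ hB)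
  · -- other
    intro Q ω hω q hqQ
    classical
    have h1 := bad_le (ms := ms) (m := m) (k := k) (L := Q) hc1.le hμp.le H hq hrk hω hqQ
      inter_subset_right
    refine up ?_
    have h2 : cnt (SA ∪ SB ∪ {M.e0})ᶜ (blk k q) ω ≤
        ((blk k q).filter fun i => ω i ≠ M.e0 ∧ (ω i ∉ SA ∪ SB ∨ ∃ l ∈ lift k Q, l ≠ i ∧
          ¬ M.nf 2 (l - i) (ω i) (ω l))).card := by
      rw [mem_of_cnt (T := (blk k q).filter fun i => ω i ∈ (SA ∪ SB ∪ {M.e0})ᶜ)
        fun i => by rw [mem_filter]]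
      refine card_le_card fun i hi => ?_
      rw [mem_filter] at hi ⊢
      exact ⟨hi.1, fun h => hi.2 (Or.inr h), Or.inl fun h => hi.2 (Or.inl h)⟩
    have h3 : (cnt (SA ∪ SB ∪ {M.e0})ᶜ (blk k q) ω : ℝ) ≤
        ((blk k q).filter fun i => ω i ≠ M.e0 ∧ (ω i ∉ SA ∪ SB ∨ ∃ l ∈ lift k Q, l ≠ i ∧
          ¬ M.nf 2 (l - i) (ω i) (ω l))).card := by exact_mod_cast h2
    have h4 := t0 (ball 1 q ∩ Q) (lift k Q) ω
    rw [← hCq] at h1
    generalize ∑ z ∈ ball 1 q ∩ Q, GN M SA SB od ms m c1 μ nw Mx k (lift k Q) ω z = t at *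
    have h5 := h1.trans' (mul_le_mul_of_nonneg_left h3 (show 0 ≤ c1 * μ by positivity))
    have h6 : (cnt (SA ∪ SB ∪ {M.e0})ᶜ (blk k q) ω : ℝ) ≤ Cq / (c1 * μ) * t := by
      have e : c1 * μ * (Cq / (c1 * μ) * t) = Cq * t := by field_simp
      rw [← e] at h5
      exact le_of_mul_le_mul_left h5 (by positivity)
    have e : CC / μ * t = 8 * Cm / (φ * μ) * t + Cq / (c1 * μ) * t + 1 / (c1 * μ) * t := by
      rw [hCC]
      field_simp
      ring
    rw [e]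
    have h7 : 0 ≤ 8 * Cm / (φ * μ) * t := by positivity
    have h8 : 0 ≤ 1 / (c1 * μ) * t := by positivity
    linarith
  · -- pack
    intro Q ω hω
    rw [cnt_lift_eq, cnt_lift_eq, ← sum_add_distrib]
    have h1 : ∀ q ∈ Q, (cnt SA (blk k q) ω : ℝ) + cnt SB (blk k q) ω ≤
        (φ + ε) * (k : ℝ) ^ d := by
      intro q hqQ
      obtain ⟨u, hu0, hu1, -⟩ := exists_vac (ms := ms) (m := m) (k := k) hc1.le hc1' hμp.le
        hC.disj H (lift k Q) (cp_blk hω hqQ)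
      linarith
    refine (sum_le_sum h1).trans (le_of_eq ?_)
    rw [sum_const, nsmul_eq_mul]
    ring

theorem Ldr.blk {c1 Cm φ : ℝ} (hc1 : 0 < c1) (hc1' : c1 ≤ 1) (hCm : 1 ≤ Cm) (hφ : 0 < φ)
    (hφ1 : φ ≤ 1) (rn : ℕ) :
    ∃ c2 C1 : ℝ, 0 < c2 ∧ 0 < C1 ∧ ∀ k m : ℕ, 2 * rn + 1 ≤ k → 1 ≤ m →
      (m : ℝ) ≤ Cm * (k : ℝ) ^ d →
      ∀ (E : Type) (_ : MeasurableSpace E) (M : CG d E) (SA SB od : Set E) (ms : E → ℕ) (rc : ℕ)
      (Mx : ℕ → ℕ) (nw : Finset (Zd d) → (Zd d → E) → Finset (Zd d)) (h : E → ℝ) (p : ℝ → ℝ)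
      (ε μ : ℝ), 0 < μ → Cub M SA SB ms rc → Ldr M SA SB od Mx nw → 2 * k ≤ rc → M.q ≤ rn →
      φ * (k : ℝ) ^ d ≤ Mx k → (Mx k : ℝ) ≤ (φ + ε) * (k : ℝ) ^ d →
      M.Fld h → (∀ a, M.IsP (fa h SA a) (p a)) → (∀ a, (φ - ε) * μ ≤ p a) →
      (∀ L, M.int (lift k L) (fun ω => M.w h (lift k L) ω *
        ex (1 / 2 * μ * (k : ℝ) ^ d * ∑ q ∈ L, ebN M SA SB od ms m c1 μ nw Mx k L ω q)) ≤
          ex ((φ + ε) * μ * (k : ℝ) ^ d * L.card)) →
      Blk M SA SB h p φ c2 C1 ε μ k (ebN M SA SB od ms m c1 μ nw Mx k) :=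
  ldr_blk hc1 hc1' hCm hφ hφ1 rn

end Pool.Agent.RC
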