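import Pool.Agent.Lib.MP_09cbbd_rc.PCell

/-!
# Rows and columns: the case of a cubic core

Every cell contains at most one molecule. `SA` are the good rows, `SB` the good columns, `ms` is the
number of the missing beads of a good content.
-/

set_option autoImplicit false

namespace Pool.Agent.RC

open MeasureTheory Finset Filter Topology Pool.Agent.StableGas
open Pool.Agent.SquareWell hiding Md cut
open Pool.Agent.Vdw (blk lift ball Lk Yk Wk Kc)
open Pool.Agent.Mix (Qr mem_Qr)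

variable {d : ℕ} {E : Type} [MeasurableSpace E]

/-- Good rows and good columns in a range `rc` have missing beads. -/
structure Cub (M : CG d E) (SA SB : Set E) (ms : E → ℕ) (rc : ℕ) : Prop where
  SA_meas : MeasurableSet SA
  SB_meas : MeasurableSet SB
  ms_meas : Measurable ms
  e0_A : M.e0 ∉ SA
  e0_B : M.e0 ∉ SB
  disj : Disjoint SA SB
  count : ∀ (S : Finset (Zd d)) (ω : Zd d → E), M.cp id S ω →
    (∀ i ∈ S, ∀ j ∈ S, j - i ∈ Qr d rc) → cnt SA S ω * cnt SB S ω ≤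
      3 * ∑ i ∈ S, (SA ∪ SB).indicator ms (ω i)

open Classical in
/-- Energy of a content. -/
noncomputable def en (SA SB : Set E) (ms : E → ℕ) (m : ℕ) (c1 μ : ℝ) (x : E) : ℝ :=
  if x ∈ SA ∪ SB then μ / (2 * m) * ms x else c1 * μ

/-- The content of the cell `i` is too near to the content of a previous cell. -/
def Lt (M : CG d E) (X : Finset (Zd d)) (ω : Zd d → E) (i : Zd d) : Prop :=
  ∃ j ∈ X, toLex j < toLex i ∧ M.nf 0 (j - i) (ω i) (ω j) ∧ ¬ M.nf 2 (j - i) (ω i) (ω j)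

open Classical in
/-- Energy of the cell `i` in the region `X`. -/
noncomputable def ce (M : CG d E) (SA SB : Set E) (ms : E → ℕ) (m : ℕ) (c1 μ : ℝ)
    (X : Finset (Zd d)) (ω : Zd d → E) (i : Zd d) : ℝ :=
  en SA SB ms m c1 μ (ω i) + if Lt M X ω i then c1 * μ else 0

/-- Energy of the block `q` in the region `L`, in units of `μ k ^ d`. -/
noncomputable def ebc (M : CG d E) (SA SB : Set E) (ms : E → ℕ) (m : ℕ) (c1 μ : ℝ) (k : ℕ)
    (L : Finset (Zd d)) (ω : Zd d → E) (q : Zd d) : ℝ :=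
  (∑ i ∈ blk k q, ce M SA SB ms m c1 μ (lift k L) ω i) / (μ * (k : ℝ) ^ d)

/-- The masses of one cell. -/
structure Mas (M : CG d E) (SA SB : Set E) (ms : E → ℕ) (m : ℕ) (c1 ε μ : ℝ) (h : E → ℝ) :
    Prop where
  fld : M.Fld h
  m1 : ∫⁻ x, ex (h x + 1 / 2 * en SA SB ms m c1 μ x) ∂M.π ≤ ex ((1 + ε) * μ)
  m2 : ∀ v ∈ (Qr d M.q).erase 0, ∀ᵐ y ∂M.π, ∫⁻ x in {x | M.nf 0 v x y ∧ ¬ M.nf 2 v x y},
    ex (h x + 1 / 2 * en SA SB ms m c1 μ x) ∂M.π ≤ ex ((1 - c1) * μ)

end Pool.Agent.RC
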