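import Pool.Agent.Lib.MP_09cbbd_rc.Prs
import Pool.Agent.Lib.MP_09cbbd_rc.Cub

/-!
# Rows and columns: the kink inequalities

A further field `D` on the good rows costs at most as much as a change of the activity of the beads.
The lower inequality is proved for a general energy `G` of the configurations in the boxes.
-/

set_option autoImplicit false

namespace Pool.Agent.RC

open MeasureTheory Finset Filter Topology Pool.Agent.StableGas
open Pool.Agent.SquareWell hiding Md cut
open Pool.Agent.Mix (Qr mem_Qr P1b.mem_bx P1b.card_bx)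

variable {d : ℕ}

namespace Kb

variable {E : Type} [MeasurableSpace E]

/-- Only the contents in a set of full measure matter. -/
theorem int_mono_ae (M : CG d E) {V : Set E} (hV : ∀ᵐ x ∂M.π, x ∈ V) (h0 : M.e0 ∈ V)
    (A : Finset (Zd d)) {f g : (Zd d → E) → ENNReal}
    (h : ∀ ω, (∀ i, ω i ∈ V) → f ω ≤ g ω) : M.int A f ≤ M.int A g := by
  have := M.fin_π
  unfold CG.int lmarginal
  refine lintegral_mono_ae ?_
  have h1 : ∀ᵐ z ∂(Measure.pi fun _ : A => M.π), ∀ i, z i ∈ V := by
    rw [ae_all_iff]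
    intro i
    exact (Measure.tendsto_eval_ae_ae (μ := fun _ : A => M.π)).eventually hV
  filter_upwards [h1] with z hz
  refine h _ fun i => ?_
  rw [Function.updateFinset_def]
  dsimp only
  split_ifs with hi
  · exact hz ⟨i, hi⟩
  · exact h0

theorem int_const_mul' (M : CG d E) (A : Finset (Zd d)) (f : (Zd d → E) → ENNReal) {C : ENNReal}
    (hC : C ≠ ⊤) : M.int A (fun ω => C * f ω) = C * M.int A f :=
  lintegral_const_mul' C _ hC

/-- A field bounded above is admissible. -/
theorem fld_of_le {M : CG d E} {h : E → ℝ} (hm : Measurable h) (h0 : h M.e0 = 0) {c : ℝ}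
    (hc : ∀ᵐ x ∂M.π, h x ≤ c) : M.Fld h := by
  refine ⟨hm, h0, ?_⟩
  have h1 : ∫⁻ x, ex (h x) ∂M.π ≤ ∫⁻ _, ex c ∂M.π := by
    refine lintegral_mono_ae ?_
    filter_upwards [hc] with x hx
    exact ex_le_ex.2 hx
  refine ne_top_of_le_ne_top ?_ h1
  rw [lintegral_const]
  exact ENNReal.mul_ne_top (ex_ne_top c) M.π_fin

theorem measurable_nb {nb : E → ℕ} (hnb : Measurable nb) : Measurable fun x => (nb x : ℝ) :=
  (measurable_from_top (f := fun k : ℕ => (k : ℝ))).comp hnb

theorem fld_nb {M : CG d E} {nb : E → ℕ} (hnb : Measurable nb) (hnb0 : nb M.e0 = 0) {b : ℕ}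
    (hb : ∀ᵐ x ∂M.π, nb x ≤ b) (y : ℝ) : M.Fld fun x => y * nb x := by
  refine fld_of_le ((measurable_nb hnb).const_mul y) (by simp [hnb0]) (c := |y| * b) ?_
  filter_upwards [hb] with x hx
  have h1 : (nb x : ℝ) ≤ b := by exact_mod_cast hx
  calc y * (nb x : ℝ) ≤ |y| * nb x := mul_le_mul_of_nonneg_right (le_abs_self y) (by positivity)
    _ ≤ |y| * b := mul_le_mul_of_nonneg_left h1 (abs_nonneg y)

omit [MeasurableSpace E] in
theorem ind_nonneg (SA : Set E) (x : E) : (0 : ℝ) ≤ SA.indicator 1 x :=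
  Set.indicator_nonneg (fun _ _ => zero_le_one) x

omit [MeasurableSpace E] in
theorem ind_le (SA : Set E) (x : E) : SA.indicator (1 : E → ℝ) x ≤ 1 :=
  Set.indicator_le_self' (fun _ _ => zero_le_one) x |>.trans le_rfl

theorem fld_fa {M : CG d E} {SA : Set E} (hSA : MeasurableSet SA) (hA : M.e0 ∉ SA) {nb : E → ℕ}
    (hnb : Measurable nb) (hnb0 : nb M.e0 = 0) {b : ℕ} (hb : ∀ᵐ x ∂M.π, nb x ≤ b) (y a : ℝ) :
    M.Fld (fa (fun x => y * nb x) SA a) := by
  refine fld_of_le (((measurable_nb hnb).const_mul y).add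
    ((measurable_one.indicator hSA).const_mul a)) ?_ (c := |y| * b + |a|) ?_
  · show y * (nb M.e0 : ℝ) + a * SA.indicator 1 M.e0 = 0
    rw [hnb0, Set.indicator_of_notMem hA]
    simp
  · filter_upwards [hb] with x hx
    have h1 : (nb x : ℝ) ≤ b := by exact_mod_cast hx
    have h2 : y * (nb x : ℝ) ≤ |y| * b := by
      calc y * (nb x : ℝ) ≤ |y| * nb x :=
            mul_le_mul_of_nonneg_right (le_abs_self y) (by positivity)
        _ ≤ |y| * b := mul_le_mul_of_nonneg_left h1 (abs_nonneg y)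
    have h3 : a * SA.indicator (1 : E → ℝ) x ≤ |a| := by
      calc a * SA.indicator (1 : E → ℝ) x ≤ |a| * SA.indicator 1 x :=
            mul_le_mul_of_nonneg_right (le_abs_self a) (ind_nonneg SA x)
        _ ≤ |a| * 1 := mul_le_mul_of_nonneg_left (ind_le SA x) (abs_nonneg a)
        _ = |a| := mul_one _
    exact add_le_add h2 h3

/-- Monotonicity of the pressure. -/
theorem isP_le {M : CG d E} {h h' : E → ℝ} (H : M.Fld h) (H' : M.Fld h') {V : Set E}
    (hV : ∀ᵐ x ∂M.π, x ∈ V) (h0 : M.e0 ∈ V) {c : ℝ} (hh : ∀ x ∈ V, h x ≤ h' x + c) {p p' : ℝ}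
    (hp : M.IsP h p) (hp' : M.IsP h' p') : p ≤ p' + c := by
  refine le_of_tendsto_of_tendsto hp (hp'.add_const c) ?_
  filter_upwards [eventually_ge_atTop 1] with L hL
  have hL' : (0 : ℝ) < (L : ℝ) ^ d := by
    have : (0 : ℝ) < L := by exact_mod_cast hL
    positivity
  rw [← sub_le_iff_le_add, div_sub' hL'.ne', div_le_div_iff_of_pos_right hL', sub_le_iff_le_add]
  have h1 : M.xi h (bx d L) ≤ ex (c * (L : ℝ) ^ d) * M.xi h' (bx d L) := by
    unfold CG.xi
    rw [← int_const_mul' M _ _ (ex_ne_top _)]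
    refine int_mono_ae M hV h0 _ fun ω hω => ?_
    by_cases hc : M.cp id (bx d L) ω
    · rw [M.w_of_cp hc, M.w_of_cp hc, prod_ex, prod_ex, ← ex_add, ex_le_ex]
      have e : c * (L : ℝ) ^ d = ∑ _i ∈ bx d L, c := by
        rw [sum_const, P1b.card_bx, nsmul_eq_mul]
        push_cast
        ring
      rw [e, ← sum_add_distrib]
      exact sum_le_sum fun i _ => by linarith [hh _ (hω i)]
    · rw [M.w_of_not hc]
      exact zero_le
  have h2 : ex (c * (L : ℝ) ^ d) * M.xi h' (bx d L) ≠ ⊤ :=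
    ENNReal.mul_ne_top (ex_ne_top _) (M.xi_ne_top H' _)
  have h3 := Real.log_le_log (M.xi_pos H _) (ENNReal.toReal_mono h2 h1)
  rw [ENNReal.toReal_mul, ex_toReal, Real.log_mul (Real.exp_pos _).ne' (M.xi_pos H' _).ne',
    Real.log_exp] at h3
  linarith

omit [MeasurableSpace E] in
/-- Number of the cells with content in `SA`, as a sum. -/
theorem cnt_eq (SA : Set E) (X : Finset (Zd d)) (ω : Zd d → E) :
    (cnt SA X ω : ℝ) = ∑ i ∈ X, SA.indicator (1 : E → ℝ) (ω i) := by
  classical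
  unfold cnt
  rw [card_filter]
  push_cast
  refine sum_congr rfl fun i _ => ?_
  by_cases h : ω i ∈ SA
  · rw [Set.indicator_of_mem h]
    simp [h]
  · rw [Set.indicator_of_notMem h]
    simp [h]

end Kb

open Kb

variable {E : Type} [MeasurableSpace E] in
/-- ROW KB1 (beads): `nb` is the number of the beads. -/
theorem beads_up {M : CG d E} {SA : Set E} (hSA : MeasurableSet SA) (hA : M.e0 ∉ SA)
    {nb : E → ℕ} (hnb : Measurable nb) (hnb0 : nb M.e0 = 0) {m : ℕ}
    (h1 : ∀ᵐ x ∂M.π, nb x + SA.indicator 1 x ≤ m + 1) {z D P P' : ℝ} (hD : 0 ≤ D)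
    (hP : M.IsP (fa (fun x => z * nb x) SA D) P) (hP' : M.IsP (fun x => (z - D) * nb x) P') :
    P ≤ P' + (m + 1) * D := by
  have hb : ∀ᵐ x ∂M.π, nb x ≤ m + 1 := by
    filter_upwards [h1] with x hx
    exact le_trans (Nat.le_add_right _ _) hx
  refine isP_le (fld_fa hSA hA hnb hnb0 hb z D) (fld_nb hnb hnb0 hb (z - D)) h1 ?_ ?_ hP hP'
  · show nb M.e0 + SA.indicator 1 M.e0 ≤ m + 1
    rw [hnb0, Set.indicator_of_notMem hA]
    omega
  · intro x hx
    have h2 : (nb x : ℝ) + SA.indicator (1 : E → ℝ) x ≤ m + 1 := by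
      have h3 : nb x + SA.indicator (1 : E → ℕ) x ≤ m + 1 := hx
      by_cases hxA : x ∈ SA
      · rw [Set.indicator_of_mem hxA] at h3 ⊢
        simp only [Pi.one_apply] at h3 ⊢
        exact_mod_cast h3
      · rw [Set.indicator_of_notMem hxA] at h3 ⊢
        simp only [add_zero] at h3 ⊢
        exact_mod_cast h3
    unfold fa
    nlinarith [mul_le_mul_of_nonneg_left h2 hD]

/-- ROW KB2 (beads), general form: `κ` is the density of the beads of a close packing of columns,
`b` bounds the number of the beads of a cell, `G n` is the energy of the configurations in the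
box of side `u n`. -/
theorem beads_lo_gen {φ Cm : ℝ} (hφ : 0 < φ) (hCm : 0 < Cm) (b : ℕ) :
    ∃ ε0 : ℝ, 0 < ε0 ∧ ∃ μ0 : ℝ, ∀ (E : Type) (_ : MeasurableSpace E) (M : CG d E)
      (SA V : Set E) (nb : E → ℕ) (κ ε μ z : ℝ) (F P : ℝ → ℝ) (u : ℕ → ℕ)
      (G : ℕ → (Zd d → E) → ℝ) (o1 o2 : ℕ → ℝ), ε ≤ ε0 → μ0 ≤ μ → MeasurableSet SA →
      M.e0 ∉ SA → Measurable nb → nb M.e0 = 0 → (∀ᵐ x ∂M.π, x ∈ V) → M.e0 ∈ V →
      (∀ x ∈ V, nb x ≤ b) → Tendsto u atTop atTop →
      (∀ n ω, (∀ i, ω i ∈ V) → M.cp id (bx d (u n)) ω →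
        κ * (u n : ℝ) ^ d - ∑ i ∈ bx d (u n), (nb (ω i) : ℝ) - cnt SA (bx d (u n)) ω ≤
          Cm / μ * G n ω + o1 n) →
      Tendsto (fun n => o1 n / (u n : ℝ) ^ d) atTop (𝓝 0) →
      (∀ n, M.int (bx d (u n)) (fun ω => M.w (fun x => z * nb x) (bx d (u n)) ω *
        ex (1 / 2 * G n ω)) ≤ ex ((φ + ε) * μ * (u n : ℝ) ^ d + o2 n)) →
      Tendsto (fun n => o2 n / (u n : ℝ) ^ d) atTop (𝓝 0) →
      (∀ y, M.IsP (fun x => y * nb x) (F y)) →
      (∀ D, M.IsP (fa (fun x => z * nb x) SA D) (P D)) → (φ - ε) * μ ≤ F z →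
      ∀ D, 0 ≤ D → D ≤ 1 → P (-D) ≤ F (z + D) - κ * D + φ / 16 * D := by
  refine ⟨φ / (128 * Cm), by positivity, max (max 1 (2 * Cm)) (64 * Cm * b / φ), ?_⟩
  intro E _ M SA V nb κ ε μ z F P u G o1 o2 hε hμ hSA hA hnb hnb0 hV h0V hVb hu hpt ho1 hint ho2
    hF hP hFz D hD0 hD1
  have hμ1 : 1 ≤ μ := (le_max_left _ _).trans ((le_max_left _ _).trans hμ)
  have hμ2 : 2 * Cm ≤ μ := (le_max_right _ _).trans ((le_max_left _ _).trans hμ)
  have hμ3 : 64 * Cm * b / φ ≤ μ := (le_max_right _ _).trans hμ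
  have hμ0 : 0 < μ := lt_of_lt_of_le one_pos hμ1
  have hb : ∀ᵐ x ∂M.π, nb x ≤ b := by
    filter_upwards [hV] with x hx
    exact hVb x hx
  set T : ℝ := μ / (2 * Cm) with hT
  have hT1 : 1 ≤ T := by
    rw [hT, le_div_iff₀ (by positivity)]
    linarith
  have hT0 : 0 < T := by linarith
  set s : ℝ := D / T with hs
  have hs0 : 0 ≤ s := by positivity
  have hs1 : s ≤ 1 := by
    rw [hs, div_le_one hT0]
    linarith
  have hsT : s * T = D := by
    rw [hs]
    field_simp
  -- the fields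
  have HA : M.Fld fun x => (z + D) * nb x := fld_nb hnb hnb0 hb (z + D)
  have HZ : M.Fld fun x => z * nb x := fld_nb hnb hnb0 hb z
  have HB : M.Fld (fa (fun x => (z + D - T) * nb x) SA (-T)) :=
    fld_fa hSA hA hnb hnb0 hb (z + D - T) (-T)
  have HI : M.Fld (fa (fun x => z * nb x) SA (-D)) := fld_fa hSA hA hnb hnb0 hb z (-D)
  have e1 : (fun x => (1 - s) * ((z + D) * (nb x : ℝ)) +
      s * fa (fun x => (z + D - T) * (nb x : ℝ)) SA (-T) x) = fa (fun x => z * nb x) SA (-D) := by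
    funext x
    unfold fa
    linear_combination (-(nb x : ℝ) - SA.indicator (1 : E → ℝ) x) * hsT
  -- the partition function of the auxiliary field
  have key : ∀ n, Real.log (M.xi (fa (fun x => (z + D - T) * (nb x : ℝ)) SA (-T))
      (bx d (u n))).toReal ≤ ((φ + ε) * μ + D * b - T * κ) * (u n : ℝ) ^ d +
        (o2 n + T * o1 n) := by
    intro n
    set X := bx d (u n) with hX
    have hXc : (X.card : ℝ) = (u n : ℝ) ^ d := by
      rw [hX, P1b.card_bx]
      push_cast
      rfl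
    have h1 : M.xi (fa (fun x => (z + D - T) * (nb x : ℝ)) SA (-T)) X ≤
        ex (D * b * (u n : ℝ) ^ d + T * o1 n - T * κ * (u n : ℝ) ^ d) *
          M.int X (fun ω => M.w (fun x => z * nb x) X ω * ex (1 / 2 * G n ω)) := by
      unfold CG.xi
      rw [← int_const_mul' M _ _ (ex_ne_top _)]
      refine int_mono_ae M hV h0V _ fun ω hω => ?_
      by_cases hc : M.cp id X ω
      · rw [M.w_of_cp hc, M.w_of_cp hc, prod_ex, prod_ex, ← ex_add, ← ex_add, ex_le_ex]
        have h2 := hpt n ω hω hc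
        have h3 : ∑ i ∈ X, fa (fun x => (z + D - T) * (nb x : ℝ)) SA (-T) (ω i) =
            ∑ i ∈ X, z * (nb (ω i) : ℝ) + D * ∑ i ∈ X, (nb (ω i) : ℝ) -
              T * (∑ i ∈ X, (nb (ω i) : ℝ) + cnt SA X ω) := by
          rw [cnt_eq, ← sum_add_distrib, mul_sum, mul_sum, ← sum_add_distrib, ← sum_sub_distrib]
          refine sum_congr rfl fun i _ => ?_
          unfold fa
          ring
        have h4 : ∑ i ∈ X, (nb (ω i) : ℝ) ≤ b * (u n : ℝ) ^ d := by
          rw [← hXc]
          calc ∑ i ∈ X, (nb (ω i) : ℝ) ≤ ∑ _i ∈ X, (b : ℝ) :=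
                sum_le_sum fun i _ => by exact_mod_cast hVb _ (hω i)
            _ = b * (X.card : ℝ) := by
                rw [sum_const, nsmul_eq_mul]
                ring
        have h5 : T * (Cm / μ * G n ω) = 1 / 2 * G n ω := by
          rw [hT]
          field_simp
        have h6 := mul_le_mul_of_nonneg_left h2 hT0.le
        have h7 := mul_le_mul_of_nonneg_left h4 hD0
        rw [h3]
        linarith
      · rw [M.w_of_not hc]
        exact zero_le
    have h8 : M.xi (fa (fun x => (z + D - T) * (nb x : ℝ)) SA (-T)) X ≤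
        ex (((φ + ε) * μ + D * b - T * κ) * (u n : ℝ) ^ d + (o2 n + T * o1 n)) := by
      refine h1.trans ((mul_le_mul' le_rfl (hint n)).trans (le_of_eq ?_))
      rw [← ex_add]
      congr 1
      ring
    have h9 := Real.log_le_log (M.xi_pos HB X) (ENNReal.toReal_mono (ex_ne_top _) h8)
    rwa [ex_toReal, Real.log_exp] at h9
  -- convexity
  have hlim : P (-D) ≤ (1 - s) * F (z + D) + s * ((φ + ε) * μ + D * b - T * κ) := by
    have t1 := (hP (-D)).comp hu
    have t2 := ((hF (z + D)).comp hu).const_mul (1 - s)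
    have t3 := ((ho2.add (ho1.const_mul T)).const_add ((φ + ε) * μ + D * b - T * κ)).const_mul s
    have t4 := t2.add t3
    rw [mul_zero, add_zero, add_zero] at t4
    refine le_of_tendsto_of_tendsto t1 t4 ?_
    filter_upwards [hu.eventually (eventually_ge_atTop 1)] with n hn
    have hN : (0 : ℝ) < (u n : ℝ) ^ d := by
      have : (0 : ℝ) < (u n : ℝ) := by exact_mod_cast hn
      positivity
    have h1 := CG.xi_interp HA HB (bx d (u n)) (s := 1 - s) (t := s) (by linarith) hs0 (by ring)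
    rw [e1] at h1
    have h2 := CG.log_interp (M.one_le_xi HA _) (M.xi_ne_top HA _) (M.one_le_xi HB _)
      (M.xi_ne_top HB _) (M.one_le_xi HI _) (by linarith : (0 : ℝ) ≤ 1 - s) hs0 h1
    have h3 := mul_le_mul_of_nonneg_left (key n) hs0
    simp only [Function.comp]
    rw [div_le_iff₀ hN]
    have e2 : ((1 - s) * (Real.log (M.xi (fun x => (z + D) * (nb x : ℝ))
        (bx d (u n))).toReal / (u n : ℝ) ^ d) + s * ((φ + ε) * μ + D * b - T * κ +
          (o2 n / (u n : ℝ) ^ d + T * (o1 n / (u n : ℝ) ^ d)))) * (u n : ℝ) ^ d =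
        (1 - s) * Real.log (M.xi (fun x => (z + D) * (nb x : ℝ)) (bx d (u n))).toReal +
          s * (((φ + ε) * μ + D * b - T * κ) * (u n : ℝ) ^ d + (o2 n + T * o1 n)) := by
      field_simp
    rw [e2]
    exact h2.trans (by linarith)
  -- the pressure increases with the activity
  have hmono : F z ≤ F (z + D) := by
    have := isP_le HZ HA hV h0V (c := 0) (fun x _ => by
      have : 0 ≤ D * (nb x : ℝ) := by positivity
      linarith) (hF z) (hF (z + D))
    linarith
  have h1 : (φ - ε) * μ ≤ F (z + D) := hFz.trans hmono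
  have h2 : (φ + ε) * μ + D * b - F (z + D) ≤ 2 * ε * μ + b := by
    have : D * (b : ℝ) ≤ b := by
      calc D * (b : ℝ) ≤ 1 * b := mul_le_mul_of_nonneg_right hD1 (by positivity)
        _ = b := one_mul _
    linarith
  have h3 : s * ((φ + ε) * μ + D * b - F (z + D)) ≤ φ / 16 * D := by
    have h4 : 2 * ε * μ + b ≤ T * (φ / 16) := by
      have h5 : 2 * ε * μ ≤ μ * φ / (64 * Cm) := by
        have : 2 * ε * μ ≤ 2 * (φ / (128 * Cm)) * μ := by
          have := mul_le_mul_of_nonneg_right hε hμ0.le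
          linarith
        refine this.trans (le_of_eq ?_)
        field_simp
        ring
      have h6 : (b : ℝ) ≤ μ * φ / (64 * Cm) := by
        rw [div_le_iff₀ hφ] at hμ3
        rw [le_div_iff₀ (by positivity)]
        linarith
      have h7 : T * (φ / 16) = μ * φ / (64 * Cm) + μ * φ / (64 * Cm) := by
        rw [hT]
        field_simp
        ring
      rw [h7]
      exact add_le_add h5 h6
    calc s * ((φ + ε) * μ + D * b - F (z + D)) ≤ s * (T * (φ / 16)) :=
          mul_le_mul_of_nonneg_left (h2.trans h4) hs0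
      _ = φ / 16 * D := by
          rw [← mul_assoc, hsT]
          ring
  have h4 : s * (T * κ) = κ * D := by
    rw [← mul_assoc, hsT]
    ring
  linarith

/-- ROW KB2 (beads). -/
theorem beads_lo {c1 : ℝ} (hc1 : 0 < c1) (hc1' : c1 ≤ 1) {m : ℕ} (hm : 1 ≤ m) :
    ∃ ε0 : ℝ, 0 < ε0 ∧ ∃ μ0 : ℝ, ∀ (E : Type) (_ : MeasurableSpace E) (M : CG d E)
      (SA SB : Set E) (ms nb : E → ℕ) (μ z : ℝ) (F P : ℝ → ℝ), μ0 ≤ μ → MeasurableSet SA →
      MeasurableSet SB → Measurable nb →
      Measurable ms → M.e0 ∉ SA → nb M.e0 = 0 →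
      (∀ᵐ x ∂M.π, nb x ≤ m + 1) → (∀ x ∈ SA, nb x + ms x = m) → (∀ x ∈ SB, nb x + ms x = m + 1) →
      Mas M SA SB ms m c1 ε0 μ (fun x => z * nb x) →
      (∀ y, M.IsP (fun x => y * nb x) (F y)) →
      (∀ D, M.IsP (fa (fun x => z * nb x) SA D) (P D)) → (1 - ε0) * μ ≤ F z →
      ∀ D, 0 ≤ D → D ≤ 1 → P (-D) ≤ F (z + D) - (m + 1) * D + 1 / 16 * D := by
  have hm0 : (0 : ℝ) < m := by exact_mod_cast hm
  obtain ⟨ε0, hε0, μ0, H⟩ := beads_lo_gen (d := d) (φ := 1) (Cm := 2 * (m + 1) / c1) one_pos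
    (by positivity) (m + 1)
  refine ⟨ε0, hε0, max μ0 1, ?_⟩
  intro E _ M SA SB ms nb μ z F P hμ hSA hSB hnb hms hA hnb0 hb hmsA hmsB hmas hF hP hFz D hD0 hD1
  have hμ1 : 1 ≤ μ := (le_max_right _ _).trans hμ
  have hμp : 0 < μ := lt_of_lt_of_le one_pos hμ1
  have hen : ∀ x, (m + 1 : ℝ) - nb x - SA.indicator (1 : E → ℝ) x ≤
      2 * (m + 1) / c1 / μ * en SA SB ms m c1 μ x := by
    intro x
    have hc : ∀ y : ℝ, 2 * (m + 1) / c1 / μ * (μ / (2 * m) * y) = (m + 1) / (c1 * m) * y := by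
      intro y
      field_simp
    have hge : (1 : ℝ) ≤ (m + 1) / (c1 * m) := by
      rw [one_le_div (by positivity)]
      nlinarith
    unfold en
    by_cases hxA : x ∈ SA
    · have hxu : x ∈ SA ∪ SB := Or.inl hxA
      rw [if_pos hxu, Set.indicator_of_mem hxA, hc]
      have h1 : (nb x : ℝ) + ms x = m := by exact_mod_cast hmsA x hxA
      have h2 : (ms x : ℝ) ≤ (m + 1) / (c1 * m) * ms x := by
        have : (0 : ℝ) ≤ ms x := by positivity
        nlinarith
      simp only [Pi.one_apply]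
      linarith
    · rw [Set.indicator_of_notMem hxA, sub_zero]
      by_cases hxB : x ∈ SB
      · have hxu : x ∈ SA ∪ SB := Or.inr hxB
        rw [if_pos hxu, hc]
        have h1 : (nb x : ℝ) + ms x = m + 1 := by exact_mod_cast hmsB x hxB
        have h2 : (ms x : ℝ) ≤ (m + 1) / (c1 * m) * ms x := by
          have : (0 : ℝ) ≤ ms x := by positivity
          nlinarith
        linarith
      · have hxu : x ∉ SA ∪ SB := by
          rintro (h | h)
          · exact hxA h
          · exact hxB h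
        rw [if_neg hxu]
        have e : 2 * ((m : ℝ) + 1) / c1 / μ * (c1 * μ) = 2 * (m + 1) := by
          field_simp
        rw [e]
        have : (0 : ℝ) ≤ nb x := by positivity
        linarith
  have henm : Measurable fun x => (fun x => z * (nb x : ℝ)) x + 1 / 2 * en SA SB ms m c1 μ x := by
    refine ((measurable_nb hnb).const_mul z).add (Measurable.const_mul ?_ _)
    unfold en
    exact Measurable.ite (hSA.union hSB) ((measurable_nb hms).const_mul _) measurable_const
  have h1 := H E _ M SA {x | nb x ≤ m + 1} nb (m + 1) ε0 μ z F P id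
    (fun n ω => ∑ i ∈ bx d n, en SA SB ms m c1 μ (ω i)) (fun _ => 0) (fun _ => 0) le_rfl
    ((le_max_left _ _).trans hμ) hSA hA hnb hnb0 hb (by
      show nb M.e0 ≤ m + 1
      rw [hnb0]
      omega) (fun x hx => hx) tendsto_id (by
      intro n ω _ _
      have e : (m + 1 : ℝ) * ((id n : ℕ) : ℝ) ^ d = ∑ _i ∈ bx d (id n), (m + 1 : ℝ) := by
        rw [sum_const, P1b.card_bx, nsmul_eq_mul]
        push_cast
        ring
      rw [e, cnt_eq, add_zero, ← sum_sub_distrib, ← sum_sub_distrib, mul_sum]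
      exact sum_le_sum fun i _ => hen (ω i)) (by simp) (by
      intro n
      refine le_trans (M.int_mono (g := fun ω => ∏ i ∈ bx d (id n),
        ex ((fun x => z * (nb x : ℝ)) (ω i) + 1 / 2 * en SA SB ms m c1 μ (ω i))) _
          fun ω => ?_) ?_
      · by_cases hc : M.cp id (bx d (id n)) ω
        · rw [M.w_of_cp hc, prod_ex, prod_ex, ← ex_add, ex_le_ex, sum_add_distrib, mul_sum]
          exact le_rfl
        · rw [M.w_of_not hc, zero_mul]
          exact zero_le
      · rw [M.int_prod (bx d (id n))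
          (f := fun _ x => ex ((fun x => z * (nb x : ℝ)) x + 1 / 2 * en SA SB ms m c1 μ x))
          fun _ => CG.measurable_ex henm, prod_const]
        refine (pow_le_pow_left' hmas.m1 _).trans (le_of_eq ?_)
        rw [ex_pow, P1b.card_bx]
        congr 1
        push_cast
        ring) (by simp) hF hP hFz D hD0 hD1
  linarith

end Pool.Agent.RC
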