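import Pool.Agent.Lib.MP_09cbbd_rc.BalC
import Pool.Agent.Lib.MP_09cbbd_rc.PKb

/-!
# Rows and columns round a general hard core: beads and new contents in a large box
-/

set_option autoImplicit false

namespace Pool.Agent.RC

open MeasureTheory Finset Filter Topology Pool.Agent.StableGas
open Pool.Agent.SquareWell hiding Md cut
open Pool.Agent.Vdw (blk lift ball Lk Yk Wk Kc)
open Pool.Agent.Mix (Qr mem_Qr)

variable {d : ℕ}

theorem blk_zero_eq (k : ℕ) : blk k (0 : Zd d) = bx d k := by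
  unfold blk bx
  refine congrArg _ (funext fun l => ?_)
  rw [Pi.zero_apply, mul_zero, zero_add]

theorem lift_zero_eq (k : ℕ) : lift k ({0} : Finset (Zd d)) = bx d k := by
  rw [← blk_zero_eq]
  ext i
  rw [Vdw.mem_lift]
  simp

theorem tendsto_surf (hd : 1 ≤ d) (A : ℝ) :
    Tendsto (fun L : ℕ => A * (L : ℝ) ^ (d - 1) / (L : ℝ) ^ d) atTop (𝓝 0) := by
  have h1 : Tendsto (fun L : ℕ => A * (1 / (L : ℝ))) atTop (𝓝 (A * 0)) :=
    tendsto_one_div_atTop_nhds_zero_nat.const_mul A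
  rw [mul_zero] at h1
  refine h1.congr' ?_
  filter_upwards [eventually_ge_atTop 1] with L hL
  have hL' : (0 : ℝ) < L := by exact_mod_cast hL
  obtain ⟨n, rfl⟩ : ∃ n, d = n + 1 := ⟨d - 1, by omega⟩
  rw [Nat.add_sub_cancel, pow_succ]
  field_simp

/-- Comparison of pressures with an error. -/
theorem isP_le_err {E : Type} [MeasurableSpace E] {M : CG d E} {h h' : E → ℝ} (H : M.Fld h)
    (H' : M.Fld h') {V : Set E} (hV : ∀ᵐ x ∂M.π, x ∈ V) (h0 : M.e0 ∈ V) {c : ℝ} {o : ℕ → ℝ}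
    (ho : Tendsto (fun L : ℕ => o L / (L : ℝ) ^ d) atTop (𝓝 0))
    (hh : ∀ L : ℕ, 1 ≤ L → ∀ ω : Zd d → E, (∀ i, ω i ∈ V) → M.cp id (bx d L) ω →
      ∑ i ∈ bx d L, h (ω i) ≤ ∑ i ∈ bx d L, h' (ω i) + (c * (L : ℝ) ^ d + o L)) {p p' : ℝ}
    (hp : M.IsP h p) (hp' : M.IsP h' p') : p ≤ p' + c := by
  have h3 : Tendsto (fun L : ℕ => Real.log (M.xi h' (bx d L)).toReal / (L : ℝ) ^ d +
      c + o L / (L : ℝ) ^ d) atTop (𝓝 (p' + c + 0)) := (hp'.add_const c).add ho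
  rw [add_zero] at h3
  refine le_of_tendsto_of_tendsto hp h3 ?_
  filter_upwards [eventually_ge_atTop 1] with L hL
  have hL' : (0 : ℝ) < (L : ℝ) ^ d := by
    have : (0 : ℝ) < L := by exact_mod_cast hL
    positivity
  have h1 : M.xi h (bx d L) ≤ ex (c * (L : ℝ) ^ d + o L) * M.xi h' (bx d L) := by
    unfold CG.xi
    rw [← Kb.int_const_mul' M _ _ (ex_ne_top _)]
    refine Kb.int_mono_ae M hV h0 _ fun ω hω => ?_
    by_cases hc : M.cp id (bx d L) ω
    · rw [M.w_of_cp hc, M.w_of_cp hc, prod_ex, prod_ex, ← ex_add, ex_le_ex]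
      linarith [hh L hL ω hω hc]
    · rw [M.w_of_not hc]
      exact zero_le
  have h2 : ex (c * (L : ℝ) ^ d + o L) * M.xi h' (bx d L) ≠ ⊤ :=
    ENNReal.mul_ne_top (ex_ne_top _) (M.xi_ne_top H' _)
  have h4 := Real.log_le_log (M.xi_pos H _) (ENNReal.toReal_mono h2 h1)
  rw [ENNReal.toReal_mul, ex_toReal, Real.log_mul (Real.exp_pos _).ne' (M.xi_pos H' _).ne',
    Real.log_exp] at h4
  have e : Real.log (M.xi h' (bx d L)).toReal / (L : ℝ) ^ d + c + o L / (L : ℝ) ^ d =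
      (Real.log (M.xi h' (bx d L)).toReal + (c * (L : ℝ) ^ d + o L)) / (L : ℝ) ^ d := by
    field_simp
    ring
  rw [e, div_le_div_iff_of_pos_right hL']
  linarith

section Up

variable {E : Type} [MeasurableSpace E]

/-- **Upper bound for beads and good rows**: `tot` is the bound of the number of the beads of one
molecule. -/
theorem Ldr.up (hd : 1 ≤ d) {M : CG d E} {SA SB od : Set E} {Mx : ℕ → ℕ}
    {nw : Finset (Zd d) → (Zd d → E) → Finset (Zd d)} (H : Ldr M SA SB od Mx nw)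
    (hod : M.π od = 0) (hSA : MeasurableSet SA) (hA : M.e0 ∉ SA) {nb : E → ℕ}
    (hnb : Measurable nb) (hnb0 : nb M.e0 = 0) {b m : ℕ} (hb : ∀ᵐ x ∂M.π, nb x ≤ b)
    (tot : ∀ S ω, M.cp id S ω → (∀ i ∈ S, ω i ∉ od) →
      ∑ i ∈ S, nb (ω i) + cnt SA S ω ≤ (m + 1) * (nw S ω).card) {φ A : ℝ}
    (hMx : ∀ k : ℕ, 1 ≤ k → (Mx k : ℝ) ≤ φ * (k : ℝ) ^ d + A * (k : ℝ) ^ (d - 1)) {z D P P' : ℝ}
    (hD : 0 ≤ D) (hP : M.IsP (fa (fun x => z * nb x) SA D) P)
    (hP' : M.IsP (fun x => (z - D) * nb x) P') : P ≤ P' + (m + 1) * φ * D := by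
  have hV : ∀ᵐ x ∂M.π, x ∈ odᶜ := by
    rw [ae_iff]
    simpa using hod
  refine isP_le_err (Kb.fld_fa hSA hA hnb hnb0 hb z D) (Kb.fld_nb hnb hnb0 hb (z - D)) hV
    H.e0_od (o := fun L => D * (m + 1) * A * (L : ℝ) ^ (d - 1))
    (tendsto_surf hd _) (fun L hL ω hω hc => ?_) hP hP'
  have h1 := tot (bx d L) ω hc fun i _ => hω i
  have h2 : (nw (bx d L) ω).card ≤ Mx L := by
    have := H.pack L 0 ω (by rwa [blk_zero_eq])
    rwa [blk_zero_eq] at this
  have h3 : (∑ i ∈ bx d L, (nb (ω i) : ℝ)) + cnt SA (bx d L) ω ≤ (m + 1) * Mx L := by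
    have h4 : ((∑ i ∈ bx d L, nb (ω i) + cnt SA (bx d L) ω : ℕ) : ℝ) ≤
        (((m + 1) * Mx L : ℕ) : ℝ) := by
      exact_mod_cast h1.trans (Nat.mul_le_mul le_rfl h2)
    push_cast at h4
    exact h4
  have h5 : (m + 1) * (Mx L : ℝ) ≤ (m + 1) * (φ * (L : ℝ) ^ d + A * (L : ℝ) ^ (d - 1)) :=
    mul_le_mul_of_nonneg_left (hMx L hL) (by positivity)
  have e1 : ∑ i ∈ bx d L, fa (fun x => z * nb x) SA D (ω i) =
      ∑ i ∈ bx d L, (z - D) * (nb (ω i) : ℝ) +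
        D * ((∑ i ∈ bx d L, (nb (ω i) : ℝ)) + cnt SA (bx d L) ω) := by
    rw [Kb.cnt_eq, mul_add, mul_sum, mul_sum, ← sum_add_distrib, ← sum_add_distrib]
    refine sum_congr rfl fun i _ => ?_
    unfold fa
    ring
  rw [e1]
  have h6 := mul_le_mul_of_nonneg_left (h3.trans h5) hD
  refine add_le_add le_rfl (h6.trans (le_of_eq ?_))
  ring

end Up

/-- **Lower bound for beads and good rows.** -/
theorem lo_gen {φ c1 : ℝ} (hd : 1 ≤ d) (hφ : 0 < φ) (hφ1 : φ ≤ 1) (hc1 : 0 < c1)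
    (hc1' : c1 ≤ 1) {m : ℕ} (hm : 1 ≤ m) :
    ∃ ε0 : ℝ, 0 < ε0 ∧ ∃ μ0 : ℝ, ∀ (E : Type) (_ : MeasurableSpace E) (M : CG d E)
      (SA SB od : Set E) (ms nb : E → ℕ) (Mx : ℕ → ℕ)
      (nw : Finset (Zd d) → (Zd d → E) → Finset (Zd d)) (LS : Bool → Set E)
      (OS : Bool → Zd d → Set (E × E)) (tl tO : Bool → E → ℝ) (A C K ε μ z : ℝ) (F P : ℝ → ℝ),
      0 ≤ ε → ε ≤ ε0 → μ0 ≤ μ → K ≤ ε * μ → MeasurableSet SA → MeasurableSet SB →
      Measurable ms → M.e0 ∉ SA → Disjoint SA SB → Measurable nb → nb M.e0 = 0 →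
      (∀ᵐ x ∂M.π, nb x ≤ m + 1) → (∀ x ∈ SA, nb x + ms x = m) →
      (∀ x ∈ SB, nb x + ms x = m + 1) → Ldr M SA SB od Mx nw →
      Pcs M SA SB od nw LS OS tl tO →
      MasN M SA SB od ms m c1 ε μ C (fun x => z * nb x) LS OS tl tO →
      4 + (2 * M.q + 1 : ENNReal) ^ d + 2 * (3 ^ d * ex C) ≤ ex K →
      (∀ k : ℕ, 1 ≤ k → φ * (k : ℝ) ^ d ≤ Mx k ∧
        (Mx k : ℝ) ≤ φ * (k : ℝ) ^ d + A * (k : ℝ) ^ (d - 1)) →
      (∀ y, M.IsP (fun x => y * nb x) (F y)) →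
      (∀ D, M.IsP (fa (fun x => z * nb x) SA D) (P D)) → (φ - ε) * μ ≤ F z →
      ∀ D, 0 ≤ D → D ≤ 1 → P (-D) ≤ F (z + D) - (m + 1) * φ * D + φ / 16 * D := by
  obtain ⟨ε1, hε1, μ1, H⟩ := beads_lo_gen (d := d) hφ
    (Cm := 2 * (m + 1) / c1) (by positivity) (m + 1)
  refine ⟨ε1 / 2, by positivity, max μ1 1, ?_⟩
  intro E _ M SA SB od ms nb Mx nw LS OS tl tO A C K ε μ z F P hε0 hε hμ hKε hSA hSB hms hA hAB
    hnb hnb0 hb hA1 hB1 HL HP HM hK hMx hF hP hFz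
  have hμ1 : μ1 ≤ μ := (le_max_left _ _).trans hμ
  have hμ2 : 1 ≤ μ := (le_max_right _ _).trans hμ
  have hμ0 : 0 < μ := by linarith
  have hφ1μ := mul_le_mul_of_nonneg_right hφ1 hμ0.le
  have hm' : (0 : ℝ) < m := by exact_mod_cast hm
  have h90 : 1 ≤ (m + 1 : ℝ) / (c1 * m) := by
    rw [le_div_iff₀ (by positivity)]
    nlinarith
  refine H E _ M SA (odᶜ ∩ {x | nb x ≤ m + 1}) nb ((m + 1) * φ) (2 * ε) μ z F P (fun n => n + 1)
    (fun n ω => GN M SA SB od ms m c1 μ nw Mx (n + 1) (bx d (n + 1)) ω 0) (fun _ => 0)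
    (fun n => (1 + ε) * μ * A * ((n + 1 : ℕ) : ℝ) ^ (d - 1)) (by linarith) hμ1 hSA hA hnb hnb0 ?_
    ⟨HL.e0_od, by
      show nb M.e0 ≤ m + 1
      omega⟩ (fun x hx => hx.2) (tendsto_add_atTop_nat 1) ?_ ?_ ?_ ?_ hF hP ?_
  · have hod : ∀ᵐ x ∂M.π, x ∈ odᶜ := by
      rw [ae_iff]
      simpa using HM.od0
    filter_upwards [hod, hb] with x h1 h2
    exact ⟨h1, h2⟩
  · -- the pointwise bound
    intro n ω hω hc
    obtain ⟨k, hk⟩ : ∃ k, k = n + 1 := ⟨_, rfl⟩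
    rw [← hk] at hc ⊢
    have hk1 : 1 ≤ k := by omega
    have h1 := (hMx k hk1).1
    have h2 : (nw (bx d k) ω).card ≤ Mx k := by
      have := HL.pack k 0 ω (by rwa [blk_zero_eq])
      rwa [blk_zero_eq] at this
    have hsub := HL.sub (bx d k) ω
    -- sums over the new contents
    have h3 : ∑ i ∈ nw (bx d k) ω, ((nb (ω i) : ℝ) + SA.indicator (1 : E → ℝ) (ω i)) ≤
        ∑ i ∈ bx d k, (nb (ω i) : ℝ) + cnt SA (bx d k) ω := by
      rw [Kb.cnt_eq, ← sum_add_distrib]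
      exact sum_le_sum_of_subset_of_nonneg hsub fun i _ _ =>
        add_nonneg (Nat.cast_nonneg _) (Kb.ind_nonneg SA _)
    have h4 : ∀ i ∈ nw (bx d k) ω, (m + 1 : ℝ) - ((nb (ω i) : ℝ) +
        SA.indicator (1 : E → ℝ) (ω i)) ≤
        2 * (m + 1) / c1 / μ * ceN M SA SB od ms m c1 μ nw (bx d k) (bx d k) ω i := by
      intro i hi
      have h5 : en SA SB ms m c1 μ (ω i) ≤ ceN M SA SB od ms m c1 μ nw (bx d k) (bx d k) ω i := by
        unfold ceN
        rw [if_pos hi]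
        have := mul_nonneg hc1.le hμ0.le
        split_ifs <;> linarith
      refine le_trans ?_ (mul_le_mul_of_nonneg_left h5 (by positivity))
      unfold en
      by_cases hiA : ω i ∈ SA
      · have h6 : ((nb (ω i) : ℝ)) + ms (ω i) = m := by exact_mod_cast hA1 _ hiA
        rw [if_pos (Set.mem_union_left SB hiA), Set.indicator_of_mem hiA, Pi.one_apply]
        have hm0 : (0 : ℝ) ≤ m := Nat.cast_nonneg _
        have hms0 : (0 : ℝ) ≤ ms (ω i) := Nat.cast_nonneg _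
        have e : (m + 1 : ℝ) - ((nb (ω i) : ℝ) + 1) = ms (ω i) := by linarith
        rw [e]
        have h8 : 2 * (m + 1) / c1 / μ * (μ / (2 * m) * (ms (ω i) : ℝ)) =
            ((m + 1) / (c1 * m)) * ms (ω i) := by
          field_simp
        rw [h8]
        have := mul_le_mul_of_nonneg_right h90 hms0
        linarith
      · rw [Set.indicator_of_notMem hiA, add_zero]
        by_cases hiB : ω i ∈ SB
        · have h6 : ((nb (ω i) : ℝ)) + ms (ω i) = m + 1 := by exact_mod_cast hB1 _ hiB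
          rw [if_pos (Set.mem_union_right SA hiB)]
          have hm0 : (0 : ℝ) ≤ m := Nat.cast_nonneg _
          have hms0 : (0 : ℝ) ≤ ms (ω i) := Nat.cast_nonneg _
          have e : (m + 1 : ℝ) - (nb (ω i) : ℝ) = ms (ω i) := by linarith
          rw [e]
          have h8 : 2 * (m + 1) / c1 / μ * (μ / (2 * m) * (ms (ω i) : ℝ)) =
              ((m + 1) / (c1 * m)) * ms (ω i) := by
            field_simp
          rw [h8]
          have := mul_le_mul_of_nonneg_right h90 hms0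
          linarith
        · rw [if_neg (by
            rintro (h | h)
            exacts [hiA h, hiB h])]
          have h7 : 2 * (m + 1) / c1 / μ * (c1 * μ) = 2 * ((m : ℝ) + 1) := by
            field_simp
          rw [h7]
          have : (0 : ℝ) ≤ nb (ω i) := Nat.cast_nonneg _
          have hm0 : (0 : ℝ) ≤ m := Nat.cast_nonneg _
          linarith
    have h5 := sum_le_sum h4
    rw [sum_sub_distrib, sum_const, nsmul_eq_mul, ← mul_sum] at h5
    have h6 : ∑ i ∈ nw (bx d k) ω, ceN M SA SB od ms m c1 μ nw (bx d k) (bx d k) ω i ≤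
        ∑ i ∈ bx d k, ceN M SA SB od ms m c1 μ nw (bx d k) (bx d k) ω i :=
      sum_le_sum_of_subset_of_nonneg hsub fun i _ _ => ceN_nonneg hc1.le hμ0.le _ _ _ _
    have h7 : (0 : ℝ) ≤ 2 * (m + 1) / c1 / μ := by positivity
    have h8 := mul_le_mul_of_nonneg_left h6 h7
    unfold GN
    rw [blk_zero_eq, Nat.cast_sub h2, mul_add]
    have h9 : ((m : ℝ) + 1) * (Mx k - (nw (bx d k) ω).card) ≤
        2 * (m + 1) / c1 / μ * (μ * (Mx k - (nw (bx d k) ω).card)) := by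
      have e : 2 * (m + 1) / c1 / μ * (μ * ((Mx k : ℝ) - (nw (bx d k) ω).card)) =
          (2 * (m + 1) / c1) * (Mx k - (nw (bx d k) ω).card) := by
        field_simp
      rw [e]
      have h10 : (0 : ℝ) ≤ Mx k - (nw (bx d k) ω).card := by
        rw [sub_nonneg]
        exact_mod_cast h2
      refine mul_le_mul_of_nonneg_right ?_ h10
      rw [le_div_iff₀ hc1]
      have hm0 : (0 : ℝ) ≤ m := Nat.cast_nonneg _
      nlinarith
    have h11 : (m + 1 : ℝ) * φ * (k : ℝ) ^ d ≤ (m + 1) * Mx k := by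
      rw [mul_assoc]
      exact mul_le_mul_of_nonneg_left h1 (by positivity)
    nlinarith
  · simp
  · intro n
    have h1 := HM.cr (k := n + 1) hSA hSB hms HL HP hε0 hμ0.le hc1.le hK {0}
    rw [lift_zero_eq] at h1
    simp only [sum_singleton, card_singleton, Nat.cast_one, mul_one] at h1
    refine h1.trans (ex_le_ex.2 ?_)
    have h2 := (hMx (n + 1) (by omega)).2
    have h3 : (1 + ε) * μ * Mx (n + 1) ≤ (1 + ε) * μ * (φ * ((n + 1 : ℕ) : ℝ) ^ d +
        A * ((n + 1 : ℕ) : ℝ) ^ (d - 1)) :=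
      mul_le_mul_of_nonneg_left h2 (by positivity)
    have h4 : 0 ≤ ((n + 1 : ℕ) : ℝ) ^ d := by positivity
    have h5 := mul_le_mul_of_nonneg_right hKε h4
    have h6 : φ * (ε * μ * ((n + 1 : ℕ) : ℝ) ^ d) ≤ 1 * (ε * μ * ((n + 1 : ℕ) : ℝ) ^ d) :=
      mul_le_mul_of_nonneg_right hφ1 (by positivity)
    nlinarith
  · have h1 := (tendsto_surf hd ((1 + ε) * μ * A)).comp (tendsto_add_atTop_nat 1)
    exact h1
  · nlinarith

end Pool.Agent.RC
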