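import Pool.Agent.Lib.MP_09cbbd_rc.Cls

/-!
# Rows and columns round a general hard core: new contents
-/

set_option autoImplicit false

namespace Pool.Agent.RC.Bd

open Finset

variable {d : ℕ} {P : Prm d} {ι : Type*} {κ : Type*} [LinearOrder κ] {S : Finset ι}
  {pos : ι → Fin d → ℝ} {ω : ι → ℕ × (ℕ → Fin d → ℝ)}

/-- A previous content of `S` is in the class of the content of `i`. -/
def old (P : Prm d) (o : ι → κ) (pos : ι → Fin d → ℝ) (ω : ι → ℕ × (ℕ → Fin d → ℝ))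
    (S : Finset ι) (i : ι) : Prop := ∃ j ∈ S, o j < o i ∧ sc P pos ω j i

open Classical in
/-- The new contents of `S`. -/
noncomputable def nw (P : Prm d) (o : ι → κ) (pos : ι → Fin d → ℝ)
    (ω : ι → ℕ × (ℕ → Fin d → ℝ)) (S : Finset ι) : Finset ι :=
  S.filter fun i => ¬ old P o pos ω S i

open Classical in
/-- The class of `l`. -/
noncomputable def cl (P : Prm d) (pos : ι → Fin d → ℝ) (ω : ι → ℕ × (ℕ → Fin d → ℝ))
    (S : Finset ι) (l : ι) : Finset ι := S.filter fun i => i = l ∨ sc P pos ω l i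

theorem mem_nw {o : ι → κ} {i : ι} : i ∈ nw P o pos ω S ↔ i ∈ S ∧ ¬ old P o pos ω S i := by
  classical
  exact mem_filter

theorem mem_cl {i l : ι} : i ∈ cl P pos ω S l ↔ i ∈ S ∧ (i = l ∨ sc P pos ω l i) := by
  classical
  exact mem_filter

theorem self_mem_cl {l : ι} (h : l ∈ S) : l ∈ cl P pos ω S l := mem_cl.2 ⟨h, Or.inl rfl⟩

section

variable (hP : P.Ok) (hm : P.Sm) (hC : Conf P S pos ω)

include hP hm hC

/-- The relation is transitive, with equalities. -/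
theorem eqv_trans {i j l : ι} (hi : i ∈ S) (hj : j ∈ S) (hl : l ∈ S)
    (h1 : i = j ∨ sc P pos ω i j) (h2 : j = l ∨ sc P pos ω j l) : i = l ∨ sc P pos ω i l := by
  by_cases hij : i = j
  · rw [hij]
    exact h2
  by_cases hjl : j = l
  · rw [← hjl]
    exact h1
  by_cases hil : i = l
  · exact Or.inl hil
  exact Or.inr (sc_trans hP hm hC hi hj hl hij hjl (h1.resolve_left hij) (h2.resolve_left hjl))

omit hP hC in
theorem eqv_symm {i j : ι} (h : i = j ∨ sc P pos ω i j) : j = i ∨ sc P pos ω j i :=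
  h.imp Eq.symm (sc_symm hm)

/-- Every content has a leader. -/
theorem exists_leader (o : ι → κ) {i : ι} (hi : i ∈ S) :
    ∃ l ∈ nw P o pos ω S, i ∈ cl P pos ω S l := by
  classical
  obtain ⟨l, hl, hmin⟩ := exists_min_image (S.filter fun j => j = i ∨ sc P pos ω j i) o
    ⟨i, mem_filter.2 ⟨hi, Or.inl rfl⟩⟩
  obtain ⟨hlS, hli⟩ := mem_filter.1 hl
  refine ⟨l, mem_nw.2 ⟨hlS, ?_⟩, mem_cl.2 ⟨hi, hli.imp Eq.symm id⟩⟩
  rintro ⟨j, hj, hjl, hsc⟩
  have h1 : j = i ∨ sc P pos ω j i := eqv_trans hP hm hC hj hlS hi (Or.inr hsc) hli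
  exact absurd hjl (not_lt.2 (hmin j (mem_filter.2 ⟨hj, h1⟩)))

/-- The leader is unique. -/
theorem leader_unique {o : ι → κ} (ho : Function.Injective o) {i l l' : ι}
    (hl : l ∈ nw P o pos ω S) (hl' : l' ∈ nw P o pos ω S) (h : i ∈ cl P pos ω S l)
    (h' : i ∈ cl P pos ω S l') : l = l' := by
  by_contra hne
  obtain ⟨hl1, hl2⟩ := mem_nw.1 hl
  obtain ⟨hl1', hl2'⟩ := mem_nw.1 hl'
  obtain ⟨hi, hi2⟩ := mem_cl.1 h
  obtain ⟨-, hi2'⟩ := mem_cl.1 h'
  have h1 : l = l' ∨ sc P pos ω l l' :=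
    eqv_trans hP hm hC hl1 hi hl1' (hi2.imp Eq.symm id)
      (eqv_symm hm (hi2'.imp Eq.symm id))
  have h2 := h1.resolve_left hne
  rcases lt_or_gt_of_ne (fun h => hne (ho h) : o l ≠ o l') with h3 | h3
  · exact hl2' ⟨l, hl1, h3, h2⟩
  · exact hl2 ⟨l', hl1', h3, sc_symm hm h2⟩

theorem cl_subset {l : ι} : cl P pos ω S l ⊆ S := fun _ h => (mem_cl.1 h).1

/-- Sums over the classes. -/
theorem sum_cl {o : ι → κ} (ho : Function.Injective o) {M : Type*} [AddCommMonoid M]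
    (f : ι → M) : ∑ i ∈ S, f i = ∑ l ∈ nw P o pos ω S, ∑ i ∈ cl P pos ω S l, f i := by
  classical
  rw [← sum_biUnion]
  · congr 1
    ext i
    rw [mem_biUnion]
    constructor
    · intro hi
      exact exists_leader hP hm hC o hi
    · rintro ⟨l, -, h⟩
      exact (mem_cl.1 h).1
  · intro l hl l' hl' hne
    refine disjoint_left.2 fun i h h' => hne ?_
    exact leader_unique hP hm hC ho (mem_coe.1 hl) (mem_coe.1 hl') h h'

/-- All pairs of a class are in relation. -/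
theorem cl_pair {l : ι} (hl : l ∈ S) {i j : ι} (hi : i ∈ cl P pos ω S l)
    (hj : j ∈ cl P pos ω S l) (hij : i ≠ j) : sc P pos ω i j := by
  obtain ⟨hi1, hi2⟩ := mem_cl.1 hi
  obtain ⟨hj1, hj2⟩ := mem_cl.1 hj
  exact (eqv_trans hP hm hC hi1 hl hj1 (eqv_symm hm (hi2.imp Eq.symm id))
    (hj2.imp Eq.symm id)).resolve_left hij

/-- The number of the beads of a class. -/
theorem cl_total {l : ι} (hl : l ∈ S) :
    ((∀ i ∈ cl P pos ω S l, ∀ j ∈ cl P pos ω S l, ∀ k < (ω i).1, ∀ n < (ω j).1,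
        (i ≠ j ∨ k ≠ n) → Win P.i0 P.α P.δA P.mA (bd pos ω i k - bd pos ω j n)) ∧
        ∑ i ∈ cl P pos ω S l, (ω i).1 ≤ P.mA) ∨
      ((∀ i ∈ cl P pos ω S l, ∀ j ∈ cl P pos ω S l, ∀ k < (ω i).1, ∀ n < (ω j).1,
        (i ≠ j ∨ k ≠ n) → Win P.i1 P.α P.δB P.mB (bd pos ω i k - bd pos ω j n)) ∧
        ∑ i ∈ cl P pos ω S l, (ω i).1 ≤ P.mB) :=
  cls_total hP hm hC (cl_subset hP hm hC) fun _ hi _ hj hij => cl_pair hP hm hC hl hi hj hij

theorem cl_total_le {l : ι} (hl : l ∈ S) : ∑ i ∈ cl P pos ω S l, (ω i).1 ≤ P.mB := by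
  rcases cl_total hP hm hC hl with h | h
  · exact h.2.trans hm.le
  · exact h.2

/-- **Packing.** -/
theorem card_nw_le {o : ι → κ} (ho : Function.Injective o) (h1 : ∀ i ∈ S, 1 ≤ (ω i).1)
    {k : ℕ} {c : Fin d → ℝ}
    (hbox : ∀ i ∈ S, ∀ j, c j ≤ bd pos ω i 0 j ∧ bd pos ω i 0 j < c j + k) :
    (nw P o pos ω S).card ≤ Mx P.N k := by
  classical
  have hsep : ∀ i ∈ nw P o pos ω S, ∀ j ∈ nw P o pos ω S, i ≠ j →
      bd pos ω i 0 - bd pos ω j 0 ∉ P.N := by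
    intro i hi j hj hij hmem
    obtain ⟨hi1, hi2⟩ := mem_nw.1 hi
    obtain ⟨hj1, hj2⟩ := mem_nw.1 hj
    have hsc : sc P pos ω i j := ⟨0, h1 i hi1, 0, h1 j hj1, hmem⟩
    rcases lt_or_gt_of_ne (fun h => hij (ho h) : o i ≠ o j) with h3 | h3
    · exact hj2 ⟨i, hi1, h3, hsc⟩
    · exact hi2 ⟨j, hj1, h3, sc_symm hm hsc⟩
  have hz : (0 : Fin d → ℝ) ∈ P.N := hm.one 0 (by rw [norm_zero]; exact one_pos)
  have hinj : Set.InjOn (fun i => bd pos ω i 0) (nw P o pos ω S) := by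
    intro i hi j hj hij
    by_contra hne
    refine hsep i hi j hj hne ?_
    have : bd pos ω i 0 = bd pos ω j 0 := hij
    rw [this, sub_self]
    exact hz
  have hpk : Pk P.N c k ((nw P o pos ω S).image fun i => bd pos ω i 0) := by
    refine ⟨fun x hx j => ?_, fun x hx j => ?_, fun x hx y hy hxy => ?_⟩
    · obtain ⟨i, hi, rfl⟩ := mem_image.1 hx
      exact (hbox i (mem_nw.1 hi).1 j).1
    · obtain ⟨i, hi, rfl⟩ := mem_image.1 hx
      exact (hbox i (mem_nw.1 hi).1 j).2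
    · obtain ⟨i, hi, rfl⟩ := mem_image.1 hx
      obtain ⟨j, hj, rfl⟩ := mem_image.1 hy
      exact hsep i hi j hj fun h => hxy (by rw [h])
  rw [← card_image_of_injOn hinj]
  refine hpk.le_Mx fun u hu => hm.one u ?_
  exact (pi_norm_lt_iff one_pos).2 fun j => by rw [Real.norm_eq_abs]; exact hu j

end

end Pool.Agent.RC.Bd
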