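import Pool.Agent.Lib.MP_09cbbd_rc.BalC
import Pool.Agent.Lib.MP_09cbbd_rc.Led
import Pool.Agent.Lib.MP_09cbbd_rc.AB

/-!
# Rows and columns round a general hard core: new contents of the exclusion gas, definitions
-/

set_option autoImplicit false

namespace Pool.Agent.RC

open MeasureTheory Finset Pool.Agent.SquareWellGas
open Pool.Agent.StableGas hiding tr
open Pool.Agent.SquareWell hiding Md cut
open Pool.Agent.SquareWell.ModA
open Pool.Agent.Exg
open Pool.Agent.Mix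

variable {d : ℕ}

/-- The corner of a cell. -/
def ipos (i : Zd d) : Fin d → ℝ := fun j => i j

open Classical in
/-- The cells with beads. -/
noncomputable def va (E : Set (Fin d → ℝ)) (S : Finset (Zd d)) (ω : Zd d → Ct (Fin d → ℝ)) :
    Finset (Zd d) := S.filter fun i => Vx E (ω i) ∧ (ω i).1 ≠ 0

/-- A null set of contents. -/
def odG (E : Set (Fin d → ℝ)) : Set (Ct (Fin d → ℝ)) := {x | Vx E x → x.1 = 0 ∧ x ≠ e0}

/-- The new contents of `S`. -/
noncomputable def nwG (P : Bd.Prm d) (S : Finset (Zd d)) (ω : Zd d → Ct (Fin d → ℝ)) :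
    Finset (Zd d) := Bd.nw P (fun i : Zd d => toLex i) ipos ω (va P.E S ω)

variable {E : Set (Fin d → ℝ)} {S : Finset (Zd d)} {ω : Zd d → Ct (Fin d → ℝ)}

theorem mem_va {i : Zd d} : i ∈ va E S ω ↔ i ∈ S ∧ Vx E (ω i) ∧ (ω i).1 ≠ 0 := by
  classical
  exact mem_filter

theorem not_mem_odG {x : Ct (Fin d → ℝ)} : x ∉ odG E ↔ Vx E x ∧ (x.1 = 0 → x = e0) := by
  unfold odG
  simp only [Set.mem_ofPred_eq, not_forall, not_and, not_not, exists_prop]

theorem ipos_sub (i j : Zd d) (k l : ℕ) : Bd.bd ipos ω i k - Bd.bd ipos ω j l =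
    (ω i).2 k - tr (j - i) ((ω j).2 l) := by
  funext c
  simp only [Bd.bd, ipos, tr, Pi.sub_apply, Pi.add_apply, Int.cast_sub]
  ring

theorem sm_of {i₁ i₂ : Fin d} {m : ℕ} {R α a b β β' τ ε : ℝ} {N : Set (Fin d → ℝ)}
    (h : Geo d i₁ i₂ m R α a b β β' τ ε N E) (hN : ∀ u ∈ N, -u ∈ N)
    (h8 : 8 * ((m + 1) * α) ≤ 1) : (Bd.prm i₁ i₂ m R α a b β N E).Sm where
  toSz := Bd.sz_of h
  le := Nat.le_succ m
  s8 := by
    show 8 * ((m + 1 : ℕ) : ℝ) * α ≤ 1
    push_cast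
    linarith
  N_neg := hN

/-- Compatible valid contents. -/
theorem conf_va {P : Bd.Prm d} (G : Ng d P.E) (hω : G.cg.cp id S ω) : Bd.Conf P (va P.E S ω) ipos ω where
  val := fun i hi => by
    obtain ⟨-, h1, -⟩ := mem_va.1 hi
    exact ⟨fun k hk j => h1.1 k hk j, h1.2⟩
  comp := fun i hi j hj hij k hk l hl => by
    obtain ⟨hi1, hi2, -⟩ := mem_va.1 hi
    obtain ⟨hj1, hj2, -⟩ := mem_va.1 hj
    rw [CG.cp_id] at hω
    have h1 := (G.okc_iff hi2 hj2).1 (hω i hi1 j hj1 hij)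
    have h2 := ipos_sub (ω := ω) i j k l
    unfold Bd.bd at h2
    rw [h2]
    exact h1 k hk l hl

end Pool.Agent.RC
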