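import Pool.Agent.Lib.MP_09cbbd_rc.GDef
import Pool.Agent.Lib.MP_09cbbd_rc.BalN

/-!
# Rows and columns round a general hard core: the number of the beads of the new contents
-/

set_option autoImplicit false

namespace Pool.Agent.RC

open MeasureTheory Finset Filter Topology
open Pool.Agent.StableGas hiding tr
open Pool.Agent.SquareWell hiding Md cut
open Pool.Agent.SquareWell.ModA
open Pool.Agent.Vdw (blk lift ball Lk Yk Wk Kc)
open Pool.Agent.Mix (Qr mem_Qr Trans Ct)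
open Pool.Agent.Exg

variable {d : ℕ}

/-! ### The two families of definitions agree -/

theorem odI_eq_odG (E : Set (Fin d → ℝ)) : odI E = odG E := by
  ext x
  have h0 : Vx E (e0 : Ct (Fin d → ℝ)) := Vx_e0
  have h1 : (e0 : Ct (Fin d → ℝ)).1 = 0 := rfl
  unfold odI odG
  simp only [Set.mem_ofPred_eq]
  constructor
  · rintro ⟨h2, h3⟩ h4
    exact ⟨h3.resolve_left fun h => h h4, h2⟩
  · intro h2
    by_cases h3 : Vx E x
    · exact ⟨(h2 h3).2, Or.inr (h2 h3).1⟩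
    · refine ⟨?_, Or.inl h3⟩
      rintro rfl
      exact h3 h0

theorem occ_eq_va (E : Set (Fin d → ℝ)) (S : Finset (Zd d)) (ω : Zd d → Ct (Fin d → ℝ)) :
    occ E S ω = va E S ω := rfl

theorem nwI_eq_nwG (P : Bd.Prm d) (S : Finset (Zd d)) (ω : Zd d → Ct (Fin d → ℝ)) :
    nwI P S ω = nwG P S ω := rfl

theorem not_mem_odI {E : Set (Fin d → ℝ)} {x : Ct (Fin d → ℝ)} (h : x ∉ odI E) :
    x.1 = 0 ∨ (Vx E x ∧ x.1 ≠ 0) := by
  by_cases h1 : x.1 = 0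
  · exact Or.inl h1
  · refine Or.inr ⟨?_, h1⟩
    by_contra h2
    refine h ⟨?_, Or.inl h2⟩
    rintro rfl
    exact h1 rfl

/-! ### Contents away from the walls are alone in their class -/

/-- A content away from the walls has no bead in the near field of a bead of another cell. -/
theorem away_not_sc {P : Bd.Prm d} (hP : P.Ok) (hm : P.Sm) {S : Finset (Zd d)}
    {ω : Zd d → Ct (Fin d → ℝ)} (hC : Bd.Conf P S ipos ω) {w : ℝ} (hw : P.mB * P.α ≤ w)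
    {i j : Zd d} (hi : i ∈ S) (hj : j ∈ S) (hij : i ≠ j)
    (hA : ∀ k < (ω i).1, ∀ c, w ≤ (ω i).2 k c ∧ (ω i).2 k c ≤ 1 - w)
    (hB : ∀ k < (ω j).1, ∀ c, 0 ≤ (ω j).2 k c ∧ (ω j).2 k c < 1) :
    ¬ Bd.sc P ipos ω i j := by
  rintro ⟨k, hk, l, hl, hN⟩
  have h1 := Bd.win_lt hP hm hN (hC.comp i hi j hj hij k hk l hl)
  obtain ⟨c, hc⟩ := Function.ne_iff.1 hij
  have h2 := norm_le_pi_norm (Bd.bd ipos ω i k - Bd.bd ipos ω j l) c
  rw [Real.norm_eq_abs] at h2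
  have e : (Bd.bd ipos ω i k - Bd.bd ipos ω j l) c =
      ((ω i).2 k c - (ω j).2 l c) + ((i c : ℝ) - j c) := by
    simp only [Bd.bd, ipos, Pi.sub_apply, Pi.add_apply]
    ring
  have h3 := hA k hk c
  have h4 := hB l hl c
  have h5 : w ≤ |(Bd.bd ipos ω i k - Bd.bd ipos ω j l) c| := by
    rw [e]
    rcases lt_or_gt_of_ne hc with h6 | h6
    · have h7 : (i c : ℝ) + 1 ≤ j c := by exact_mod_cast h6
      refine le_trans ?_ (neg_le_abs _)
      linarith [h3.2, h4.1]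
    · have h7 : (j c : ℝ) + 1 ≤ i c := by exact_mod_cast h6
      refine le_trans ?_ (le_abs_self _)
      linarith [h3.1, h4.2]
  linarith

/-- **The number of the beads and of the good rows of a class.** -/
theorem cl_beads {P : Bd.Prm d} (hP : P.Ok) (hm : P.Sm) (hAB : P.mB = P.mA + 1)
    {S : Finset (Zd d)} {ω : Zd d → Ct (Fin d → ℝ)} (hC : Bd.Conf P S ipos ω)
    (hV : ∀ i ∈ S, ∀ k < (ω i).1, ∀ c, 0 ≤ (ω i).2 k c ∧ (ω i).2 k c < 1)
    {A : Set (Ct (Fin d → ℝ))} {w : ℝ}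
    (hA : ∀ x ∈ A, ∀ k < x.1, ∀ j, w ≤ x.2 k j ∧ x.2 k j ≤ 1 - w)
    (hA2 : ∀ x ∈ A, x.1 ≤ P.mA) (hw : P.mB * P.α ≤ w) [DecidablePred (· ∈ A)] {l : Zd d}
    (hl : l ∈ S) :
    ∑ i ∈ Bd.cl P ipos ω S l, ((ω i).1 + if ω i ∈ A then 1 else 0) ≤ P.mA + 1 := by
  classical
  by_cases h : ∃ i ∈ Bd.cl P ipos ω S l, ω i ∈ A
  · obtain ⟨i, hi, hiA⟩ := h
    have hiS := (Bd.mem_cl.1 hi).1
    have hsub : Bd.cl P ipos ω S l ⊆ {i} := by
      intro j hj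
      rw [mem_singleton]
      by_contra hji
      have hjS := (Bd.mem_cl.1 hj).1
      exact away_not_sc hP hm hC hw hiS hjS (Ne.symm hji) (hA _ hiA) (hV j hjS)
        (Bd.cl_pair hP hm hC hl hi hj (Ne.symm hji))
    refine (sum_le_sum_of_subset hsub).trans ?_
    rw [sum_singleton, if_pos hiA]
    exact Nat.add_le_add_right (hA2 _ hiA) 1
  · push Not at h
    have e : ∑ i ∈ Bd.cl P ipos ω S l, ((ω i).1 + if ω i ∈ A then 1 else 0) =
        ∑ i ∈ Bd.cl P ipos ω S l, (ω i).1 :=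
      sum_congr rfl fun i hi => by rw [if_neg (h i hi), add_zero]
    rw [e, ← hAB]
    exact Bd.cl_total_le hP hm hC hl

/-- **The number of the beads and of the good rows** (general form). -/
theorem beadsG {P : Bd.Prm d} (hP : P.Ok) (hm : P.Sm) (G : Ng d P.E) (hAB : P.mB = P.mA + 1)
    {A : Set (Ct (Fin d → ℝ))} {w : ℝ}
    (hA : ∀ x ∈ A, Vx P.E x ∧ x.1 ≠ 0 ∧ ∀ k < x.1, ∀ j, w ≤ x.2 k j ∧ x.2 k j ≤ 1 - w)
    (hA2 : ∀ x ∈ A, x.1 ≤ P.mA) (hw : P.mB * P.α ≤ w) (S : Finset (Zd d))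
    (ω : Zd d → Ct (Fin d → ℝ)) (hω : G.cg.cp id S ω)
    (hod : ∀ i ∈ S, (ω i).1 = 0 ∨ (Vx P.E (ω i) ∧ (ω i).1 ≠ 0)) :
    ∑ i ∈ S, (ω i).1 + cnt A S ω ≤ (P.mA + 1) * (nwG P S ω).card := by
  classical
  have hC := conf_va G hω
  have ho : Function.Injective fun i : Zd d => toLex i := toLex.injective
  have h1 : ∑ i ∈ S, (ω i).1 + cnt A S ω =
      ∑ i ∈ S, ((ω i).1 + if ω i ∈ A then 1 else 0) := by
    unfold cnt
    rw [card_filter, ← sum_add_distrib]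
  have h2 : ∑ i ∈ S, ((ω i).1 + if ω i ∈ A then 1 else 0) =
      ∑ i ∈ va P.E S ω, ((ω i).1 + if ω i ∈ A then 1 else 0) := by
    refine (sum_subset (fun i hi => (mem_va.1 hi).1) fun i hi hni => ?_).symm
    have h3 : (ω i).1 = 0 := by
      refine (hod i hi).resolve_right fun h => hni (mem_va.2 ⟨hi, h⟩)
    rw [h3, if_neg fun h => (hA _ h).2.1 h3, add_zero]
  have hV : ∀ i ∈ va P.E S ω, ∀ k < (ω i).1, ∀ c, 0 ≤ (ω i).2 k c ∧ (ω i).2 k c < 1 := by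
    intro i hi k hk c
    exact (mem_va.1 hi).2.1.1 k hk c
  rw [h1, h2, Bd.sum_cl hP hm hC ho]
  refine (sum_le_sum fun l hl => cl_beads hP hm hAB hC hV (fun x hx => (hA x hx).2.2) hA2 hw
    (Bd.mem_nw.1 hl).1).trans (le_of_eq ?_)
  rw [sum_const, smul_eq_mul, mul_comm]
  rfl

/-- **ROW G10**: the number of the beads. -/
theorem beadsI {P : Bd.Prm d} (hP : P.Ok) (hm : P.Sm) (G : Ng d P.E)
    (hAB : P.mB = P.mA + 1) {A : Set (Ct (Fin d → ℝ))} {w : ℝ}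
    (hA : ∀ x ∈ A, Vx P.E x ∧ x.1 ≠ 0 ∧ ∀ k < x.1, ∀ j, w ≤ x.2 k j ∧ x.2 k j ≤ 1 - w)
    (hA2 : ∀ x ∈ A, Bd.IsA P x) (hw : P.mB * P.α ≤ w) (S : Finset (Zd d))
    (ω : Zd d → Ct (Fin d → ℝ)) (hω : G.cg.cp id S ω) (hod : ∀ i ∈ S, ω i ∉ odI P.E) :
    ∑ i ∈ S, (ω i).1 + cnt A S ω ≤ (P.mA + 1) * (nwI P S ω).card :=
  beadsG hP hm G hAB hA (fun x hx => (hA2 x hx).le hP) hw S ω hω fun i hi =>
    not_mem_odI (hod i hi)

end Pool.Agent.RC
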