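import Mathlib

/-!
# Rows and columns: geometry of the excluded set

The excluded set `E` of displacements: all displacements in the near field `N` except small windows
round `k α e₀` (`0 < |k| < mA`) and `k α e₁` (`0 < |k| < mB`); outside `N` all displacements
whose coordinates `i0`, `i1` are close to `mA α ℤ`, `mB α ℤ`.
-/

set_option autoImplicit false

namespace Pool.Agent.RC.Bd

open Finset

variable {d : ℕ}

/-- The windows round `k α e_i`, `0 < |k| < m`. -/
def Win (i : Fin d) (α δ : ℝ) (m : ℕ) (u : Fin d → ℝ) : Prop :=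
  ∃ k : ℤ, k ≠ 0 ∧ |k| < m ∧ |u i - k * α| ≤ δ ∧ ∀ j, j ≠ i → |u j| ≤ δ

/-- The distance of `t` from `p ℤ` is at most `β`. -/
def Near (β p t : ℝ) : Prop := ∃ n : ℤ, |t - n * p| ≤ β

/-- Parameters of the excluded set `E`. -/
structure Prm (d : ℕ) where
  i0 : Fin d
  i1 : Fin d
  α : ℝ
  mA : ℕ
  mB : ℕ
  δA : ℝ
  δB : ℝ
  β : ℝ
  R : ℝ
  E : Set (Fin d → ℝ)
  N : Set (Fin d → ℝ)

/-- Exchange of rows and columns. -/
def Prm.swap (P : Prm d) : Prm d :=
  { P with i0 := P.i1, i1 := P.i0, mA := P.mB, mB := P.mA, δA := P.δB, δB := P.δA }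

/-- The assumptions on the excluded set which concern the geometry of the beads. -/
structure Prm.Ok (P : Prm d) : Prop where
  ne : P.i0 ≠ P.i1
  α_pos : 0 < P.α
  δA_nonneg : 0 ≤ P.δA
  δB_nonneg : 0 ≤ P.δB
  small : 4 * (P.δA + P.δB) < P.α
  mA_pos : 0 < P.mA
  mB_pos : 0 < P.mB
  βA : P.α / 2 + 3 * P.δA + P.δB ≤ P.β
  βB : P.α / 2 + P.δA + 3 * P.δB ≤ P.β
  E_neg : ∀ u, u ∈ P.E → -u ∈ P.E
  near : ∀ u ∈ P.N, u ∉ P.E → Win P.i0 P.α P.δA P.mA u ∨ Win P.i1 P.α P.δB P.mB u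
  far : ∀ u, u ∉ P.N → ‖u‖ ≤ P.R → Near P.β (P.mA * P.α) (u P.i0) →
    Near P.β (P.mB * P.α) (u P.i1) → u ∈ P.E

theorem Prm.Ok.swap {P : Prm d} (h : P.Ok) : P.swap.Ok where
  ne := h.ne.symm
  α_pos := h.α_pos
  δA_nonneg := h.δB_nonneg
  δB_nonneg := h.δA_nonneg
  small := by
    show 4 * (P.δB + P.δA) < P.α
    rw [add_comm P.δB]
    exact h.small
  mA_pos := h.mB_pos
  mB_pos := h.mA_pos
  βA := by
    show P.α / 2 + 3 * P.δB + P.δA ≤ P.β
    linarith [h.βB]
  βB := by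
    show P.α / 2 + P.δB + 3 * P.δA ≤ P.β
    linarith [h.βA]
  E_neg := h.E_neg
  near := fun u h1 h2 => (h.near u h1 h2).symm
  far := fun u h1 h2 h3 h4 => h.far u h1 h2 h4 h3

theorem Win.neg {i : Fin d} {α δ : ℝ} {m : ℕ} {u : Fin d → ℝ} (h : Win i α δ m u) :
    Win i α δ m (-u) := by
  obtain ⟨k, h1, h2, h3, h4⟩ := h
  refine ⟨-k, by simpa using h1, by rwa [abs_neg], ?_, fun j hj => ?_⟩
  · rw [Pi.neg_apply, show -u i - ((-k : ℤ) : ℝ) * α = -(u i - k * α) by push_cast; ring, abs_neg]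
    exact h3
  · rw [Pi.neg_apply, abs_neg]
    exact h4 j hj

theorem Win.sub_symm {i : Fin d} {α δ : ℝ} {m : ℕ} {x y : Fin d → ℝ} (h : Win i α δ m (x - y)) :
    Win i α δ m (y - x) := by
  have := h.neg
  rwa [neg_sub] at this

/-- In a window the distinguished coordinate is at least `α - δ`. -/
theorem Win.le_abs {i : Fin d} {α δ : ℝ} {m : ℕ} {u : Fin d → ℝ} (hα : 0 ≤ α)
    (h : Win i α δ m u) : α - δ ≤ |u i| := by
  obtain ⟨k, h1, -, h3, -⟩ := h
  have h5 : (1 : ℝ) ≤ |(k : ℝ)| := by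
    have : 1 ≤ |k| := Int.one_le_abs h1
    exact_mod_cast this
  have h6 : α ≤ |(k : ℝ) * α| := by
    rw [abs_mul, abs_of_nonneg hα]
    nlinarith
  have h7 : |(k : ℝ) * α| ≤ |u i| + |u i - k * α| := by
    have := abs_sub_abs_le_abs_sub ((k : ℝ) * α) (u i)
    rw [abs_sub_comm ((k : ℝ) * α)] at this
    linarith
  linarith

theorem Win.other {i j : Fin d} {α δ : ℝ} {m : ℕ} {u : Fin d → ℝ} (h : Win i α δ m u)
    (hj : j ≠ i) : |u j| ≤ δ := by
  obtain ⟨k, -, -, -, h4⟩ := h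
  exact h4 j hj

section Cluster

variable {P : Prm d} (hP : P.Ok)

include hP

theorem not_both {u : Fin d → ℝ} (h0 : Win P.i0 P.α P.δA P.mA u)
    (h1 : Win P.i1 P.α P.δB P.mB u) : False := by
  have h2 := h0.le_abs hP.α_pos.le
  have h3 := h1.other hP.ne
  have := hP.small
  have := hP.δA_nonneg
  have := hP.δB_nonneg
  linarith

theorem no_corner {x y z : Fin d → ℝ} (hxy : Win P.i0 P.α P.δA P.mA (x - y))
    (hyz : Win P.i1 P.α P.δB P.mB (y - z)) (hxz : x - z ∈ P.N) : x - z ∈ P.E := by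
  by_contra h
  have h1 := hP.small
  have h2 := hP.δA_nonneg
  have h3 := hP.δB_nonneg
  rcases hP.near _ hxz h with hw | hw
  · -- the coordinate i1 of x - z is large
    have h4 := hw.other hP.ne.symm
    have h5 := hyz.le_abs hP.α_pos.le
    have h6 := hxy.other hP.ne.symm
    have h7 : |(y - z) P.i1| ≤ |(x - z) P.i1| + |(x - y) P.i1| := by
      have e : (y - z) P.i1 = (x - z) P.i1 - (x - y) P.i1 := by simp
      rw [e]
      exact abs_sub _ _
    linarith
  · have h4 := hw.other hP.ne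
    have h5 := hxy.le_abs hP.α_pos.le
    have h6 := hyz.other hP.ne
    have h7 : |(x - y) P.i0| ≤ |(x - z) P.i0| + |(y - z) P.i0| := by
      have e : (x - y) P.i0 = (x - z) P.i0 - (y - z) P.i0 := by simp
      rw [e]
      exact abs_sub _ _
    linarith

/-- Compatible beads with differences in the near field form a row or a column. -/
theorem row_or_col {ι : Type*} (x : ι → Fin d → ℝ)
    (hc : ∀ i j, i ≠ j → x i - x j ∉ P.E) (hn : ∀ i j, x i - x j ∈ P.N) :
    (∀ i j, i ≠ j → Win P.i0 P.α P.δA P.mA (x i - x j)) ∨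
      ∀ i j, i ≠ j → Win P.i1 P.α P.δB P.mB (x i - x j) := by
  by_cases h0 : ∀ i j, i ≠ j → Win P.i0 P.α P.δA P.mA (x i - x j)
  · exact Or.inl h0
  right
  push Not at h0
  obtain ⟨a, b, hab, hw⟩ := h0
  have hT : ∀ i j, i ≠ j → Win P.i0 P.α P.δA P.mA (x i - x j) ∨
      Win P.i1 P.α P.δB P.mB (x i - x j) := fun i j hij => hP.near _ (hn i j) (hc i j hij)
  have hab1 : Win P.i1 P.α P.δB P.mB (x a - x b) := (hT a b hab).resolve_left hw
  -- all pairs at a point of a pair of the second kind are of the second kind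
  have key : ∀ p q r, p ≠ q → q ≠ r → Win P.i1 P.α P.δB P.mB (x p - x q) →
      Win P.i1 P.α P.δB P.mB (x q - x r) := by
    intro p q r hpq hqr h
    rcases hT q r hqr with h1 | h1
    · exfalso
      by_cases hpr : r = p
      · subst hpr
        exact not_both hP h1 h.sub_symm
      · exact hc r p hpr (no_corner hP h1.sub_symm h.sub_symm (hn r p))
    · exact h1
  intro i j hij
  by_cases hbi : b = i
  · subst hbi
    exact key a b j hab hij hab1
  · exact key b i j hbi hij (key a b i hab hbi hab1)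

end Cluster

/-- The beads of a row (or column) and their slots. -/
theorem slots {i : Fin d} {α δ : ℝ} {m : ℕ} (hα : 0 < α) (hδ : 0 ≤ δ) (h3 : 3 * δ < α)
    (hm : 0 < m) {ι : Type*} [Finite ι] [Nonempty ι] (x : ι → Fin d → ℝ)
    (hx : ∀ a b, a ≠ b → Win i α δ m (x a - x b)) :
    ∃ (o : ι) (k : ι → ℕ), k o = 0 ∧ Function.Injective k ∧ (∀ a, k a < m) ∧
      (∀ a, |x a i - x o i - k a * α| ≤ δ) ∧ ∀ a, ∀ j, j ≠ i → |x a j - x o j| ≤ δ := by
  classical
  obtain ⟨o, ho⟩ := Finite.exists_min fun a => x a i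
  have h1 : ∀ a, ∃ k : ℕ, (a = o → k = 0) ∧ k < m ∧ |x a i - x o i - k * α| ≤ δ ∧
      ∀ j, j ≠ i → |x a j - x o j| ≤ δ := by
    intro a
    by_cases hao : a = o
    · subst hao
      exact ⟨0, fun _ => rfl, hm, by simpa using hδ, fun j _ => by simpa using hδ⟩
    obtain ⟨k, hk0, hkm, hk, hj⟩ := hx a o hao
    have hkn : 0 ≤ k := by
      by_contra hneg
      push Not at hneg
      have h4 : (k : ℝ) ≤ -1 := by exact_mod_cast (by omega : k ≤ -1)
      have h5 : 0 ≤ (x a - x o) i := by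
        have := ho a
        simp only [Pi.sub_apply]
        linarith
      have h6 := (abs_le.1 hk).2
      nlinarith
    refine ⟨k.toNat, fun h => absurd h hao, ?_, ?_, fun j hji => hj j hji⟩
    · rw [abs_of_nonneg hkn] at hkm
      omega
    · have e : ((k.toNat : ℕ) : ℝ) = (k : ℝ) := by
        exact_mod_cast congrArg (Int.cast (R := ℝ)) (Int.toNat_of_nonneg hkn)
      rw [e]
      exact hk
  choose k hk using h1
  refine ⟨o, k, (hk o).1 rfl, ?_, fun a => (hk a).2.1, fun a => (hk a).2.2.1,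
    fun a => (hk a).2.2.2⟩
  intro a b hab
  by_contra hne
  have h4 := (hx a b hne).le_abs hα.le
  have h5 := (hk a).2.2.1
  have h6 := (hk b).2.2.1
  rw [hab] at h5
  have h7 : |(x a - x b) i| ≤ 2 * δ := by
    have e : (x a - x b) i = (x a i - x o i - k b * α) - (x b i - x o i - k b * α) := by
      simp only [Pi.sub_apply]
      ring
    rw [e]
    exact (abs_sub _ _).trans (by linarith)
  linarith

end Pool.Agent.RC.Bd
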