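import Pool.Agent.Lib.MP_09cbbd_rc.Cells

/-!
# Energies of the cells and counts in blocks

A content of a cell is a pair `x`: `x.1` beads at the positions `x.2 k`, `k < x.1`.
-/

set_option autoImplicit false

namespace Pool.Agent.RC.Bd

open Finset

variable {d : ℕ}

/-- A row: at least two beads, all differences in the windows of rows. -/
def IsA (P : Prm d) (x : ℕ × (ℕ → Fin d → ℝ)) : Prop :=
  2 ≤ x.1 ∧ ∀ k < x.1, ∀ l < x.1, k ≠ l → Win P.i0 P.α P.δA P.mA (x.2 k - x.2 l)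

/-- A column. -/
def IsB (P : Prm d) (x : ℕ × (ℕ → Fin d → ℝ)) : Prop :=
  2 ≤ x.1 ∧ ∀ k < x.1, ∀ l < x.1, k ≠ l → Win P.i1 P.α P.δB P.mB (x.2 k - x.2 l)

/-- Admissible content of a unit cell. -/
structure Val (P : Prm d) (x : ℕ × (ℕ → Fin d → ℝ)) : Prop where
  cube : ∀ k < x.1, ∀ j, 0 ≤ x.2 k j ∧ x.2 k j < 1
  comp : ∀ k < x.1, ∀ l < x.1, k ≠ l → x.2 k - x.2 l ∉ P.E

theorem Val.norm_lt {P : Prm d} {x : ℕ × (ℕ → Fin d → ℝ)} (h : Val P x) {k l : ℕ} (hk : k < x.1)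
    (hl : l < x.1) : ‖x.2 k - x.2 l‖ < 1 := by
  refine (pi_norm_lt_iff one_pos).2 fun j => ?_
  have h1 := h.cube k hk j
  have h2 := h.cube l hl j
  rw [Real.norm_eq_abs, Pi.sub_apply, abs_lt]
  constructor <;> linarith

theorem Val.cases {P : Prm d} (hP : P.Ok) (hz : P.Sz) {x : ℕ × (ℕ → Fin d → ℝ)} (h : Val P x) :
    x.1 = 0 ∨ x.1 = 1 ∨ IsA P x ∨ IsB P x := by
  by_cases h2 : 2 ≤ x.1
  · right
    right
    rcases row_or_col hP (fun k : Fin x.1 => x.2 k)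
        (fun i j hij => h.comp i i.2 j j.2 fun e => hij (Fin.ext e))
        (fun i j => hz.one _ (h.norm_lt i.2 j.2)) with h1 | h1
    · exact Or.inl ⟨h2, fun k hk l hl hkl => h1 ⟨k, hk⟩ ⟨l, hl⟩ fun e => hkl (Fin.ext_iff.1 e)⟩
    · exact Or.inr ⟨h2, fun k hk l hl hkl => h1 ⟨k, hk⟩ ⟨l, hl⟩ fun e => hkl (Fin.ext_iff.1 e)⟩
  · omega

theorem not_A_B {P : Prm d} (hP : P.Ok) {x : ℕ × (ℕ → Fin d → ℝ)} (hA : IsA P x) (hB : IsB P x) :
    False := by
  have h2 := hA.1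
  exact not_both hP (hA.2 0 (by omega) 1 (by omega) (by omega))
    (hB.2 0 (by omega) 1 (by omega) (by omega))

theorem IsA.le {P : Prm d} (hP : P.Ok) {x : ℕ × (ℕ → Fin d → ℝ)} (h : IsA P x) : x.1 ≤ P.mA := by
  have hA := hP.δA_nonneg
  have hB := hP.δB_nonneg
  have hsm := hP.small
  have h1 := card_le hP.α_pos hA (by linarith) hP.mA_pos (fun k : Fin x.1 => x.2 k)
    fun a b hab => h.2 a a.2 b b.2 fun e => hab (Fin.ext e)
  rwa [Fintype.card_fin] at h1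

theorem IsB.le {P : Prm d} (hP : P.Ok) {x : ℕ × (ℕ → Fin d → ℝ)} (h : IsB P x) : x.1 ≤ P.mB :=
  IsA.le (P := P.swap) hP.swap h

open Classical in
/-- The number of the missing beads of a non-empty content. -/
noncomputable def miss (P : Prm d) (x : ℕ × (ℕ → Fin d → ℝ)) : ℕ :=
  if x.1 = 0 then 0 else if IsB P x then P.mB - x.1 else P.mA - x.1

open Classical in
/-- The number of missing beads compared with a full column; rows are compared with full rows. -/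
noncomputable def miss' (P : Prm d) (x : ℕ × (ℕ → Fin d → ℝ)) : ℕ :=
  if IsA P x then P.mA - x.1 else P.mB - x.1

theorem miss_A {P : Prm d} (hP : P.Ok) {x : ℕ × (ℕ → Fin d → ℝ)} (h : IsA P x) :
    miss P x = P.mA - x.1 := by
  unfold miss
  rw [if_neg (by have := h.1; omega), if_neg fun hB => not_A_B hP h hB]

theorem miss_B {P : Prm d} {x : ℕ × (ℕ → Fin d → ℝ)} (h : IsB P x) :
    miss P x = P.mB - x.1 := by
  unfold miss
  rw [if_neg (by have := h.1; omega), if_pos h]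

theorem miss_one {P : Prm d} {x : ℕ × (ℕ → Fin d → ℝ)} (h : x.1 = 1) :
    miss P x = P.mA - 1 := by
  unfold miss
  rw [if_neg (by omega), if_neg fun hB => by have := hB.1; omega, h]

/-- A compatible family of contents in cells with corners `pos`. -/
structure Conf (P : Prm d) {ι : Type*} (S : Finset ι) (pos : ι → Fin d → ℝ)
    (ω : ι → ℕ × (ℕ → Fin d → ℝ)) : Prop where
  val : ∀ i ∈ S, Val P (ω i)
  comp : ∀ i ∈ S, ∀ j ∈ S, i ≠ j → ∀ k < (ω i).1, ∀ l < (ω j).1,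
    ((ω i).2 k + pos i) - ((ω j).2 l + pos j) ∉ P.E

theorem Conf.mono {P : Prm d} {ι : Type*} {S T : Finset ι} {pos : ι → Fin d → ℝ}
    {ω : ι → ℕ × (ℕ → Fin d → ℝ)} (h : Conf P T pos ω) (hST : S ⊆ T) : Conf P S pos ω :=
  ⟨fun i hi => h.val i (hST hi), fun i hi j hj => h.comp i (hST hi) j (hST hj)⟩

open Classical in
/-- The rows in `S`. -/
noncomputable def cA (P : Prm d) {ι : Type*} (S : Finset ι) (ω : ι → ℕ × (ℕ → Fin d → ℝ)) :
    Finset ι := S.filter fun i => IsA P (ω i)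

open Classical in
/-- The columns in `S`. -/
noncomputable def cB (P : Prm d) {ι : Type*} (S : Finset ι) (ω : ι → ℕ × (ℕ → Fin d → ℝ)) :
    Finset ι := S.filter fun i => IsB P (ω i)

theorem mem_cA {P : Prm d} {ι : Type*} {S : Finset ι} {ω : ι → ℕ × (ℕ → Fin d → ℝ)} {i : ι} :
    i ∈ cA P S ω ↔ i ∈ S ∧ IsA P (ω i) := by
  classical
  exact mem_filter

theorem mem_cB {P : Prm d} {ι : Type*} {S : Finset ι} {ω : ι → ℕ × (ℕ → Fin d → ℝ)} {i : ι} :
    i ∈ cB P S ω ↔ i ∈ S ∧ IsB P (ω i) := by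
  classical
  exact mem_filter

theorem sz_of {i₁ i₂ : Fin d} {m : ℕ} {R α a b β β' τ ε : ℝ} {N E : Set (Fin d → ℝ)}
    (h : Geo d i₁ i₂ m R α a b β β' τ ε N E) : (prm i₁ i₂ m R α a b β N E).Sz where
  one := fun u hu => h.cube u fun j => by
    have := norm_le_pi_norm u j
    rw [Real.norm_eq_abs] at this
    exact this.trans_lt hu
  sA := by
    show 2 * (m : ℝ) * α ≤ 1
    have h1 := h.hα
    have h2 : 0 < α := by linarith [h.hb, h.hba, h.ha]
    nlinarith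
  sB := by
    show 2 * ((m + 1 : ℕ) : ℝ) * α ≤ 1
    have h1 := h.hα
    have h2 : 0 < α := by linarith [h.hb, h.hba, h.ha]
    push_cast
    nlinarith

/-- **Rows times columns** in a set of cells. -/
theorem count_cells {P : Prm d} (hP : P.Ok) (hs : P.Sz) {ι : Type*} {S : Finset ι}
    {pos : ι → Fin d → ℝ} {ω : ι → ℕ × (ℕ → Fin d → ℝ)} (hC : Conf P S pos ω)
    (hR : ∀ i ∈ S, ∀ j ∈ S, ∀ c, |pos i c - pos j c| + 1 ≤ P.R)
    (hA : 4 * (cA P S ω).card ≤ P.mB) (hB : 4 * (cB P S ω).card ≤ P.mA) :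
    (cA P S ω).card * (cB P S ω).card ≤ 2 * ∑ i ∈ S, miss P (ω i) := by
  classical
  have hdist : ∀ i ∈ S, ∀ j ∈ S, ∀ k < (ω i).1, ∀ l < (ω j).1,
      ‖((ω i).2 k + pos i) - ((ω j).2 l + pos j)‖ ≤ P.R := by
    intro i hi j hj k hk l hl
    have hR0 : 0 ≤ P.R := by
      have h1 := hR i hi j hj P.i0
      have h2 := abs_nonneg (pos i P.i0 - pos j P.i0)
      linarith
    refine (pi_norm_le_iff_of_nonneg hR0).2 fun c => ?_
    have h1 := (hC.val i hi).cube k hk c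
    have h2 := (hC.val j hj).cube l hl c
    have h3 := hR i hi j hj c
    have h4 := abs_le.1 (show |pos i c - pos j c| ≤ P.R - 1 by linarith)
    rw [Real.norm_eq_abs]
    simp only [Pi.sub_apply, Pi.add_apply]
    rw [abs_le]
    constructor <;> linarith [h4.1, h4.2]
  have e : ∀ i : ι, ∀ k l : ℕ, (ω i).2 k + pos i - ((ω i).2 l + pos i) = (ω i).2 k - (ω i).2 l := by
    intro i k l
    abel
  have hA' : ∀ i ∈ cA P S ω, i ∈ S ∧ IsA P (ω i) := fun i hi => mem_cA.1 hi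
  have hB' : ∀ i ∈ cB P S ω, i ∈ S ∧ IsB P (ω i) := fun i hi => mem_cB.1 hi
  have h := count_all hP hs (cA P S ω) (cB P S ω)
    (σ := fun i => Fin (ω i).1) (τ := fun i => Fin (ω i).1)
    (fun i k => (ω i).2 k + pos i) (fun i k => (ω i).2 k + pos i)
    (fun i hi k l hkl => by
      rw [e]
      exact (hA' i hi).2.2 k k.2 l l.2 fun h => hkl (Fin.ext h))
    (fun i hi k l hkl => by
      rw [e]
      exact (hB' i hi).2.2 k k.2 l l.2 fun h => hkl (Fin.ext h))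
    (fun i hi => by
      rw [Fintype.card_fin]
      exact (hA' i hi).2.1)
    (fun i hi => by
      rw [Fintype.card_fin]
      exact (hB' i hi).2.1) hA hB
    (fun i hi j hj hij k l => ⟨hdist i (hA' i hi).1 j (hA' j hj).1 k k.2 l l.2,
      hC.comp i (hA' i hi).1 j (hA' j hj).1 hij k k.2 l l.2⟩)
    (fun i hi j hj hij k l => ⟨hdist i (hB' i hi).1 j (hB' j hj).1 k k.2 l l.2,
      hC.comp i (hB' i hi).1 j (hB' j hj).1 hij k k.2 l l.2⟩)
    (fun i hi j hj k l => ⟨hdist i (hA' i hi).1 j (hB' j hj).1 k k.2 l l.2,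
      hC.comp i (hA' i hi).1 j (hB' j hj).1 (fun hij => not_A_B hP (hA' i hi).2
        (hij ▸ (hB' j hj).2)) k k.2 l l.2⟩)
  refine h.trans (Nat.mul_le_mul_left 2 ?_)
  have h1 : ∑ i ∈ cA P S ω, (P.mA - Fintype.card (Fin (ω i).1)) =
      ∑ i ∈ cA P S ω, miss P (ω i) :=
    sum_congr rfl fun i hi => by rw [Fintype.card_fin, miss_A hP (hA' i hi).2]
  have h2 : ∑ i ∈ cB P S ω, (P.mB - Fintype.card (Fin (ω i).1)) =
      ∑ i ∈ cB P S ω, miss P (ω i) :=
    sum_congr rfl fun i hi => by rw [Fintype.card_fin, miss_B (hB' i hi).2]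
  rw [h1, h2, ← sum_union]
  · refine sum_le_sum_of_subset fun i hi => ?_
    rcases mem_union.1 hi with h | h
    · exact (hA' i h).1
    · exact (hB' i h).1
  · exact disjoint_left.2 fun i h1 h2 => not_A_B hP (hA' i h1).2 (hB' i h2).2

/-- Energies of the cells. -/
structure En (P : Prm d) {ι : Type*} (M lam : ℝ) (S : Finset ι)
    (ω : ι → ℕ × (ℕ → Fin d → ℝ)) (e : ι → ℝ) : Prop where
  nonneg : ∀ i ∈ S, 0 ≤ e i
  empty : ∀ i ∈ S, (ω i).1 = 0 → M ≤ e i
  miss : ∀ i ∈ S, lam * miss P (ω i) ≤ e i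

theorem En.mono {P : Prm d} {ι : Type*} {M lam : ℝ} {S T : Finset ι}
    {ω : ι → ℕ × (ℕ → Fin d → ℝ)} {e : ι → ℝ} (h : En P M lam T ω e) (hST : S ⊆ T) :
    En P M lam S ω e :=
  ⟨fun i hi => h.nonneg i (hST hi), fun i hi => h.empty i (hST hi), fun i hi => h.miss i (hST hi)⟩

/-- Rows times columns and the energy. -/
theorem count_en {P : Prm d} (hP : P.Ok) (hs : P.Sz) {ι : Type*} {S : Finset ι}
    {pos : ι → Fin d → ℝ} {ω : ι → ℕ × (ℕ → Fin d → ℝ)} (hC : Conf P S pos ω)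
    (hR : ∀ i ∈ S, ∀ j ∈ S, ∀ c, |pos i c - pos j c| + 1 ≤ P.R)
    (hA : 4 * S.card ≤ P.mB) (hB : 4 * S.card ≤ P.mA) {M lam : ℝ} (hl : 0 ≤ lam) {e : ι → ℝ}
    (he : En P M lam S ω e) :
    lam * ((cA P S ω).card * (cB P S ω).card) ≤ 2 * ∑ i ∈ S, e i := by
  classical
  have c1 : (cA P S ω).card ≤ S.card := card_le_card fun i hi => (mem_cA.1 hi).1
  have c2 : (cB P S ω).card ≤ S.card := card_le_card fun i hi => (mem_cB.1 hi).1
  have h := count_cells hP hs hC hR (by omega) (by omega)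
  have h1 : (((cA P S ω).card * (cB P S ω).card : ℕ) : ℝ) ≤
      ((2 * ∑ i ∈ S, Bd.miss P (ω i) : ℕ) : ℝ) := by exact_mod_cast h
  push_cast at h1
  have h2 : ∑ i ∈ S, lam * (Bd.miss P (ω i) : ℝ) ≤ ∑ i ∈ S, e i :=
    sum_le_sum fun i hi => he.miss i hi
  rw [← mul_sum] at h2
  nlinarith

/-- The product of the number of rows in `S` and the number of columns in `T`. -/
theorem count_two {P : Prm d} (hP : P.Ok) (hs : P.Sz) {ι : Type*} {U : Finset ι}
    {pos : ι → Fin d → ℝ} {ω : ι → ℕ × (ℕ → Fin d → ℝ)} (hC : Conf P U pos ω)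
    (hR : ∀ i ∈ U, ∀ j ∈ U, ∀ c, |pos i c - pos j c| + 1 ≤ P.R)
    (hA : 4 * U.card ≤ P.mB) (hB : 4 * U.card ≤ P.mA) {M lam : ℝ} (hl : 0 ≤ lam) {e : ι → ℝ}
    (he : En P M lam U ω e) {S T : Finset ι} (hS : S ⊆ U) (hT : T ⊆ U) :
    lam * ((cA P S ω).card * (cB P T ω).card) ≤ 2 * ∑ i ∈ U, e i := by
  refine le_trans (mul_le_mul_of_nonneg_left ?_ hl) (count_en hP hs hC hR hA hB hl he)
  have h1 : (cA P S ω).card ≤ (cA P U ω).card :=
    card_le_card fun i hi => mem_cA.2 ⟨hS (mem_cA.1 hi).1, (mem_cA.1 hi).2⟩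
  have h2 : (cB P T ω).card ≤ (cB P U ω).card :=
    card_le_card fun i hi => mem_cB.2 ⟨hT (mem_cB.1 hi).1, (mem_cB.1 hi).2⟩
  have h3 := Nat.mul_le_mul h1 h2
  exact_mod_cast h3

/-- **Untyped blocks.** -/
theorem en_untyped {P : Prm d} (hP : P.Ok) (hs : P.Sz) {ι : Type*} {S : Finset ι}
    {pos : ι → Fin d → ℝ} {ω : ι → ℕ × (ℕ → Fin d → ℝ)} (hC : Conf P S pos ω)
    (hR : ∀ i ∈ S, ∀ j ∈ S, ∀ c, |pos i c - pos j c| + 1 ≤ P.R)
    (hAB : P.mA ≤ P.mB) (hB : 4 * S.card ≤ P.mA) {M lam : ℝ} (hl : 0 ≤ lam)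
    (hM : lam * (P.mA - 1) ≤ M) {e : ι → ℝ} (he : En P M lam S ω e)
    (hnA : 4 * (cA P S ω).card ≤ 3 * S.card) (hnB : 4 * (cB P S ω).card ≤ 3 * S.card) :
    3 / 64 * lam * (S.card : ℝ) ^ 2 ≤ ∑ i ∈ S, e i := by
  classical
  rcases S.eq_empty_or_nonempty with hS | hS
  · subst hS
    simp
  have hN : 1 ≤ S.card := hS.card_pos
  have hN' : (1 : ℝ) ≤ S.card := by exact_mod_cast hN
  set V := S.filter fun i => (ω i).1 ≤ 1 with hV
  have hcov : S.card ≤ V.card + (cA P S ω).card + (cB P S ω).card := by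
    refine le_trans (card_le_card (t := V ∪ cA P S ω ∪ cB P S ω) ?_)
      ((card_union_le _ _).trans (Nat.add_le_add_right (card_union_le _ _) _))
    intro i hi
    rw [mem_union, mem_union, mem_cA, mem_cB, hV, mem_filter]
    rcases (hC.val i hi).cases hP hs with h | h | h | h
    · exact Or.inl (Or.inl ⟨hi, by omega⟩)
    · exact Or.inl (Or.inl ⟨hi, by omega⟩)
    · exact Or.inl (Or.inr ⟨hi, h⟩)
    · exact Or.inr ⟨hi, h⟩
  have hVe : (V.card : ℝ) * (lam * (P.mA - 1)) ≤ ∑ i ∈ S, e i := by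
    have h1 : ∑ i ∈ V, e i ≤ ∑ i ∈ S, e i :=
      sum_le_sum_of_subset_of_nonneg (filter_subset _ _) fun i hi _ => he.nonneg i hi
    refine le_trans ?_ h1
    rw [← nsmul_eq_mul]
    refine card_nsmul_le_sum _ _ _ fun i hi => ?_
    obtain ⟨hi1, hi2⟩ := mem_filter.1 hi
    by_cases h0 : (ω i).1 = 0
    · exact hM.trans (he.empty i hi1 h0)
    · have h2 := he.miss i hi1
      rw [miss_one (by omega), Nat.cast_sub hP.mA_pos, Nat.cast_one] at h2
      exact h2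
  by_cases h8 : S.card ≤ 8 * V.card
  · have h3 : (S.card : ℝ) ≤ 8 * V.card := by exact_mod_cast h8
    have h4 : (4 : ℝ) * S.card ≤ P.mA := by exact_mod_cast hB
    have h5 : lam * (3 * S.card) ≤ lam * (P.mA - 1) := mul_le_mul_of_nonneg_left (by linarith) hl
    have h6 : (S.card : ℝ) / 8 * (lam * (3 * S.card)) ≤ V.card * (lam * (P.mA - 1)) :=
      mul_le_mul (by linarith) h5 (by positivity) (by positivity)
    refine le_trans ?_ (h6.trans hVe)
    nlinarith [mul_nonneg hl (sq_nonneg (S.card : ℝ))]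
  · have h3 := count_en hP hs hC hR (by omega) hB hl he
    have a1 : (4 : ℝ) * (cA P S ω).card ≤ 3 * S.card := by exact_mod_cast hnA
    have a2 : (4 : ℝ) * (cB P S ω).card ≤ 3 * S.card := by exact_mod_cast hnB
    have a3 : (8 : ℝ) * V.card ≤ S.card := by exact_mod_cast (by omega : 8 * V.card ≤ S.card)
    have a4 : (S.card : ℝ) ≤ V.card + (cA P S ω).card + (cB P S ω).card := by
      exact_mod_cast hcov
    generalize ((cA P S ω).card : ℝ) = x at *
    generalize ((cB P S ω).card : ℝ) = y at *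
    generalize ((S.card : ℕ) : ℝ) = n at *
    have a5 : 7 / 8 * n ≤ x + y := by linarith
    have a6 : 3 / 32 * n ^ 2 ≤ x * y := by
      nlinarith [mul_nonneg (show 0 ≤ x - n / 8 by linarith) (show 0 ≤ 3 / 4 * n - x by linarith),
        mul_nonneg (show 0 ≤ x - n / 8 by linarith) (show 0 ≤ x + y - 7 / 8 * n by linarith),
        mul_nonneg (show 0 ≤ n by linarith) (show 0 ≤ x + y - 7 / 8 * n by linarith)]
    have a7 := mul_le_mul_of_nonneg_left a6 hl
    linarith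

/-- **Adjacent blocks of opposite types.** -/
theorem en_opposite {P : Prm d} (hP : P.Ok) (hs : P.Sz) {ι : Type*} {U : Finset ι}
    {pos : ι → Fin d → ℝ} {ω : ι → ℕ × (ℕ → Fin d → ℝ)} (hC : Conf P U pos ω)
    (hR : ∀ i ∈ U, ∀ j ∈ U, ∀ c, |pos i c - pos j c| + 1 ≤ P.R)
    (hAB : P.mA ≤ P.mB) (hB : 4 * U.card ≤ P.mA) {M lam : ℝ} (hl : 0 ≤ lam) {e : ι → ℝ}
    (he : En P M lam U ω e) {S T : Finset ι} (hS : S ⊆ U) (hT : T ⊆ U)
    (hSA : 3 * S.card ≤ 4 * (cA P S ω).card) (hTB : 3 * T.card ≤ 4 * (cB P T ω).card) :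
    9 / 32 * lam * (S.card * T.card) ≤ ∑ i ∈ U, e i := by
  have h := count_two hP hs hC hR (by omega) hB hl he hS hT
  have a1 : (3 : ℝ) * S.card ≤ 4 * (cA P S ω).card := by exact_mod_cast hSA
  have a2 : (3 : ℝ) * T.card ≤ 4 * (cB P T ω).card := by exact_mod_cast hTB
  have a3 : (3 : ℝ) * S.card * (3 * T.card) ≤ (4 * (cA P S ω).card) * (4 * (cB P T ω).card) :=
    mul_le_mul a1 a2 (by positivity) (by positivity)
  have a4 := mul_le_mul_of_nonneg_left a3 hl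
  linarith

/-- **Columns among many rows.** -/
theorem en_minority {P : Prm d} (hP : P.Ok) (hs : P.Sz) {ι : Type*} {U : Finset ι}
    {pos : ι → Fin d → ℝ} {ω : ι → ℕ × (ℕ → Fin d → ℝ)} (hC : Conf P U pos ω)
    (hR : ∀ i ∈ U, ∀ j ∈ U, ∀ c, |pos i c - pos j c| + 1 ≤ P.R)
    (hAB : P.mA ≤ P.mB) (hB : 4 * U.card ≤ P.mA) {M lam : ℝ} (hl : 0 ≤ lam) {e : ι → ℝ}
    (he : En P M lam U ω e) {S T : Finset ι} (hS : S ⊆ U) (hT : T ⊆ U)
    (hSA : 3 * S.card ≤ 4 * (cA P S ω).card) :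
    3 / 8 * lam * (S.card * (cB P T ω).card) ≤ ∑ i ∈ U, e i := by
  have h := count_two hP hs hC hR (by omega) hB hl he hS hT
  have a1 : (3 : ℝ) * S.card ≤ 4 * (cA P S ω).card := by exact_mod_cast hSA
  have a3 : (3 : ℝ) * S.card * (cB P T ω).card ≤ (4 * (cA P S ω).card) * (cB P T ω).card :=
    mul_le_mul_of_nonneg_right a1 (by positivity)
  have a4 := mul_le_mul_of_nonneg_left a3 hl
  linarith

/-- **Rows among many columns.** -/
theorem en_minority' {P : Prm d} (hP : P.Ok) (hs : P.Sz) {ι : Type*} {U : Finset ι}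
    {pos : ι → Fin d → ℝ} {ω : ι → ℕ × (ℕ → Fin d → ℝ)} (hC : Conf P U pos ω)
    (hR : ∀ i ∈ U, ∀ j ∈ U, ∀ c, |pos i c - pos j c| + 1 ≤ P.R)
    (hAB : P.mA ≤ P.mB) (hB : 4 * U.card ≤ P.mA) {M lam : ℝ} (hl : 0 ≤ lam) {e : ι → ℝ}
    (he : En P M lam U ω e) {S T : Finset ι} (hS : S ⊆ U) (hT : T ⊆ U)
    (hTB : 3 * T.card ≤ 4 * (cB P T ω).card) :
    3 / 8 * lam * (T.card * (cA P S ω).card) ≤ ∑ i ∈ U, e i := by
  have h := count_two hP hs hC hR (by omega) hB hl he hS hT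
  have a1 : (3 : ℝ) * T.card ≤ 4 * (cB P T ω).card := by exact_mod_cast hTB
  have a3 : (3 : ℝ) * T.card * (cA P S ω).card ≤ (4 * (cB P T ω).card) * (cA P S ω).card :=
    mul_le_mul_of_nonneg_right a1 (by positivity)
  have a4 := mul_le_mul_of_nonneg_left a3 hl
  linarith

/-! ### Numbers of beads -/

theorem beads_le {P : Prm d} (hP : P.Ok) (hs : P.Sz) (hm : P.mB = P.mA + 1) {ι : Type*} {S : Finset ι}
    {ω : ι → ℕ × (ℕ → Fin d → ℝ)} (hC : ∀ i ∈ S, Val P (ω i)) :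
    ∑ i ∈ S, (ω i).1 ≤ P.mA * S.card + (cB P S ω).card := by
  classical
  have h1 : (cB P S ω).card = ∑ i ∈ S, if IsB P (ω i) then 1 else 0 := by
    unfold cB
    rw [card_filter]
  rw [h1, mul_comm, ← smul_eq_mul, ← sum_const, ← sum_add_distrib]
  refine sum_le_sum fun i hi => ?_
  have hA := hP.mA_pos
  rcases (hC i hi).cases hP hs with h | h | h | h
  · omega
  · omega
  · have := h.le hP
    omega
  · have := h.le hP
    rw [if_pos h]
    omega

theorem le_beads {P : Prm d} (hP : P.Ok) (hm : P.mB = P.mA + 1) {ι : Type*} (S : Finset ι)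
    (ω : ι → ℕ × (ℕ → Fin d → ℝ)) :
    P.mB * S.card ≤ ∑ i ∈ S, (ω i).1 + (cA P S ω).card + ∑ i ∈ S, miss' P (ω i) := by
  classical
  have h1 : (cA P S ω).card = ∑ i ∈ S, if IsA P (ω i) then 1 else 0 := by
    unfold cA
    rw [card_filter]
  rw [h1, mul_comm, ← smul_eq_mul, ← sum_const, ← sum_add_distrib, ← sum_add_distrib]
  refine sum_le_sum fun i hi => ?_
  unfold miss'
  by_cases hA : IsA P (ω i)
  · rw [if_pos hA, if_pos hA]
    have := hA.le hP
    omega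
  · rw [if_neg hA, if_neg hA]
    omega

theorem miss'_le {P : Prm d} (hP : P.Ok) (hs : P.Sz) (hm : P.mB = P.mA + 1) (h3 : 3 ≤ P.mA) {ι : Type*}
    {S : Finset ι} {ω : ι → ℕ × (ℕ → Fin d → ℝ)} (hC : ∀ i ∈ S, Val P (ω i)) {M lam : ℝ}
    (hl : 0 ≤ lam) (hM : lam * (P.mA - 1) ≤ M) {e : ι → ℝ} (he : En P M lam S ω e) :
    lam * ∑ i ∈ S, (miss' P (ω i) : ℝ) ≤ 2 * ∑ i ∈ S, e i := by
  classical
  rw [mul_sum, mul_sum]
  refine sum_le_sum fun i hi => ?_
  have hmR : (3 : ℝ) ≤ P.mA := by exact_mod_cast h3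
  rcases (hC i hi).cases hP hs with h | h | h | h
  · have h1 := he.empty i hi h
    have h2 : miss' P (ω i) = P.mA + 1 := by
      unfold miss'
      rw [if_neg fun hA => by have := hA.1; omega]
      omega
    rw [h2]
    push_cast
    nlinarith
  · have h1 := he.miss i hi
    rw [miss_one h, Nat.cast_sub hP.mA_pos, Nat.cast_one] at h1
    have h2 : miss' P (ω i) = P.mA := by
      unfold miss'
      rw [if_neg fun hA => by have := hA.1; omega]
      omega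
    rw [h2]
    nlinarith
  · have h1 := he.miss i hi
    have h0 := he.nonneg i hi
    rw [miss_A hP h] at h1
    have h2 : miss' P (ω i) = P.mA - (ω i).1 := by
      unfold miss'
      rw [if_pos h]
    rw [h2]
    linarith
  · have h1 := he.miss i hi
    have h0 := he.nonneg i hi
    rw [miss_B h] at h1
    have h2 : miss' P (ω i) = P.mB - (ω i).1 := by
      unfold miss'
      rw [if_neg fun hA => not_A_B hP hA h]
    rw [h2]
    linarith

end Pool.Agent.RC.Bd
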