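import Pool.Agent.Lib.MP_09cbbd_rc.InstJ
import Pool.Agent.Lib.MP_09cbbd_rc.Pack

/-!
# Rows and columns: the body `K`

`K` is a finite union of closed cubes; the difference set `K - K` satisfies the axioms `Geo`.
-/

set_option autoImplicit false

namespace Pool.Agent.RC

open MeasureTheory Pointwise

/-- a finite nonempty union of closed cubes of the same size -/
def IsBody (d : ℕ) (K : Set (Fin d → ℝ)) : Prop :=
  ∃ (s : Finset (Fin d → ℝ)) (δ : ℝ), 0 < δ ∧ s.Nonempty ∧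
    K = ⋃ p ∈ s, Set.Icc p (fun j => p j + δ)

theorem IsBody.isCompact {d : ℕ} {K : Set (Fin d → ℝ)} (h : IsBody d K) : IsCompact K := by
  obtain ⟨s, δ, -, -, rfl⟩ := h
  exact s.isCompact_biUnion fun p _ => isCompact_Icc

namespace IPar

variable {X : IPar} {d : ℕ} {G : (Fin d → ℤ) → Prop} {i₁ i₂ : Fin d}

/-- the body -/
def body (X : IPar) (G : (Fin d → ℤ) → Prop) (i₁ i₂ : Fin d) (δ : ℝ) : Set (Fin d → ℝ) :=
  {x | ∃ p : Fin d → ℤ, X.P G i₁ i₂ p ∧ ∀ j, δ * p j ≤ x j ∧ x j ≤ δ * p j + 3 / 4 * δ}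

theorem isBody (hne : i₁ ≠ i₂) (hρ : X.Lg ≤ X.ρ) (hρρ : X.ρ ≤ X.ρ₂)
    (hGb : ∀ q, G q → ∀ j, |q j| ≤ X.ρ₂) {δ : ℝ} (hδ : 0 < δ) :
    IsBody d (X.body G i₁ i₂ δ) := by
  classical
  refine ⟨(P_finite hne hρ hρρ hGb).toFinset.image fun p => fun j => δ * (p j : ℝ), 3 / 4 * δ,
    by positivity, ⟨_, Finset.mem_image_of_mem _ ((Set.Finite.mem_toFinset _).mpr P_zero)⟩, ?_⟩
  ext x
  rw [Set.mem_iUnion₂]
  constructor
  · rintro ⟨p, hp, hx⟩
    exact ⟨_, Finset.mem_image_of_mem _ ((Set.Finite.mem_toFinset _).mpr hp),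
      fun j => (hx j).1, fun j => (hx j).2⟩
  · rintro ⟨y, hy, hx1, hx2⟩
    obtain ⟨p, hp, rfl⟩ := Finset.mem_image.mp hy
    have hp' := (Set.Finite.mem_toFinset _).mp hp
    exact ⟨p, hp', fun j => ⟨hx1 j, hx2 j⟩⟩

theorem mem_sub_iff {δ : ℝ} (hδ : 0 < δ) {u : Fin d → ℝ} :
    u ∈ X.body G i₁ i₂ δ - X.body G i₁ i₂ δ ↔ ∃ p p', X.P G i₁ i₂ p ∧ X.P G i₁ i₂ p' ∧
      ∀ j, |u j - δ * (p j - p' j : ℤ)| ≤ 3 / 4 * δ := by
  constructor
  · rintro ⟨x, ⟨p, hp, hx⟩, y, ⟨p', hp', hy⟩, rfl⟩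
    refine ⟨p, p', hp, hp', fun j => ?_⟩
    have h1 := hx j
    have h2 := hy j
    push_cast
    rw [Pi.sub_apply, abs_le]
    constructor <;> nlinarith [h1.1, h1.2, h2.1, h2.2]
  · rintro ⟨p, p', hp, hp', h⟩
    obtain ⟨w, hw⟩ : ∃ w : Fin d → ℝ, w = fun j => u j - δ * (p j - p' j : ℤ) := ⟨_, rfl⟩
    refine ⟨fun j => δ * p j + max 0 (w j), ⟨p, hp, fun j => ?_⟩,
      fun j => δ * p' j + max 0 (-w j), ⟨p', hp', fun j => ?_⟩, ?_⟩
    · have h1 := h j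
      have h2 : w j = u j - δ * (p j - p' j : ℤ) := by rw [hw]
      rw [← h2, abs_le] at h1
      have h3 : max 0 (w j) ≤ 3 / 4 * δ := max_le (by positivity) h1.2
      have h4 := le_max_left 0 (w j)
      constructor <;> linarith
    · have h1 := h j
      have h2 : w j = u j - δ * (p j - p' j : ℤ) := by rw [hw]
      rw [← h2, abs_le] at h1
      have h3 : max 0 (-w j) ≤ 3 / 4 * δ := max_le (by positivity) (by linarith)
      have h4 := le_max_left 0 (-w j)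
      constructor <;> linarith
    · funext j
      have h2 : w j = u j - δ * (p j - p' j : ℤ) := by rw [hw]
      push_cast at h2
      have h3 : max 0 (w j) - max 0 (-w j) = w j := by
        rcases le_total 0 (w j) with h | h
        · rw [max_eq_right h, max_eq_left (by linarith), sub_zero]
        · rw [max_eq_left h, max_eq_right (by linarith)]; ring
      change δ * (p j : ℝ) + max 0 (w j) - (δ * (p' j : ℝ) + max 0 (-w j)) = u j
      linarith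

/-- `E` is between the difference sets of the bodies with cubes of side `3/4` and `7/8` -/
structure Btw (X : IPar) (G : (Fin d → ℤ) → Prop) (i₁ i₂ : Fin d) (δ : ℝ)
    (E : Set (Fin d → ℝ)) : Prop where
  meas : MeasurableSet E
  sym : ∀ u ∈ E, -u ∈ E
  lo : ∀ (u : Fin d → ℝ) (p p' : Fin d → ℤ), X.P G i₁ i₂ p → X.P G i₁ i₂ p' →
    (∀ j, |u j - δ * (p j - p' j : ℤ)| ≤ 3 / 4 * δ) → u ∈ E
  up : ∀ u ∈ E, ∃ p p', X.P G i₁ i₂ p ∧ X.P G i₁ i₂ p' ∧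
    ∀ j, |u j - δ * (p j - p' j : ℤ)| ≤ 7 / 8 * δ

/-- every compact body which is a little larger -/
theorem btw_body (hne : i₁ ≠ i₂) (hρ : X.Lg ≤ X.ρ) (hρρ : X.ρ ≤ X.ρ₂)
    (hGb : ∀ q, G q → ∀ j, |q j| ≤ X.ρ₂) {δ : ℝ} (hδ : 0 < δ) {K : Set (Fin d → ℝ)}
    (hK : IsCompact K) (h1 : X.body G i₁ i₂ δ ⊆ K)
    (h2 : K ⊆ Metric.cthickening (δ / 16) (X.body G i₁ i₂ δ)) :
    Btw X G i₁ i₂ δ (K - K) := by
  refine ⟨?_, ?_, ?_, ?_⟩
  · rw [sub_eq_add_neg]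
    exact (hK.add hK.neg).measurableSet
  · rintro _ ⟨x, hx, y, hy, rfl⟩
    exact ⟨y, hy, x, hx, (neg_sub x y).symm⟩
  · intro u p p' hp hp' h
    obtain ⟨x, hx, y, hy, e⟩ := (mem_sub_iff hδ).mpr ⟨p, p', hp, hp', h⟩
    exact ⟨x, h1 hx, y, h1 hy, e⟩
  · rintro _ ⟨x, hx, y, hy, rfl⟩
    have hc := (isBody (X := X) (G := G) hne hρ hρρ hGb hδ).isCompact
    have key : ∀ x ∈ K, ∃ p, X.P G i₁ i₂ p ∧ ∀ j, δ * p j - δ / 16 ≤ x j ∧
        x j ≤ δ * p j + 3 / 4 * δ + δ / 16 := by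
      intro x hx
      have h3 := h2 hx
      rw [hc.cthickening_eq_biUnion_closedBall (by positivity)] at h3
      obtain ⟨z, ⟨p, hp, hz⟩, h4⟩ := Set.mem_iUnion₂.mp h3
      refine ⟨p, hp, fun j => ?_⟩
      rw [Metric.mem_closedBall] at h4
      have h5 := (dist_le_pi_dist x z j).trans h4
      rw [Real.dist_eq, abs_le] at h5
      have h6 := hz j
      constructor <;> linarith [h5.1, h5.2, h6.1, h6.2]
    obtain ⟨p, hp, hx'⟩ := key x hx
    obtain ⟨p', hp', hy'⟩ := key y hy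
    refine ⟨p, p', hp, hp', fun j => ?_⟩
    have h3 := hx' j
    have h4 := hy' j
    change |x j - y j - _| ≤ _
    push_cast
    rw [abs_le]
    constructor <;> linarith [h3.1, h3.2, h4.1, h4.2]

/-- the nearest integer vector -/
theorem exists_round (δ : ℝ) (hδ : 0 < δ) (u : Fin d → ℝ) :
    ∃ q : Fin d → ℤ, (∀ j, |u j - δ * q j| ≤ 1 / 2 * δ) ∧
      (∀ (j : Fin d) (R : ℤ), |u j| ≤ δ * R → |q j| ≤ R) ∧
      (∀ (j : Fin d) (R : ℤ), δ * R ≤ |u j| → R ≤ |q j|) := by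
  have key : ∀ j, |u j - δ * (round (u j / δ) : ℤ)| ≤ 1 / 2 * δ := fun j => by
    have h1 := abs_sub_round (u j / δ)
    have h2 : u j - δ * (round (u j / δ) : ℤ) = δ * (u j / δ - (round (u j / δ) : ℤ)) := by
      field_simp
    rw [h2, abs_mul, abs_of_pos hδ]
    nlinarith
  refine ⟨fun j => round (u j / δ), key, fun j R hR => ?_, fun j R hR => ?_⟩
  · have h1 := key j
    obtain ⟨z, hz⟩ : ∃ z : ℤ, z = round (u j / δ) := ⟨_, rfl⟩
    change |round (u j / δ)| ≤ R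
    rw [← hz] at h1 ⊢
    rw [abs_le] at h1 hR ⊢
    constructor
    · by_contra h2
      have h3 : (z : ℝ) ≤ -R - 1 := by exact_mod_cast (by omega : z ≤ -R - 1)
      nlinarith
    · by_contra h2
      have h3 : (R : ℝ) + 1 ≤ z := by exact_mod_cast (by omega : R + 1 ≤ z)
      nlinarith
  · have h1 := key j
    obtain ⟨z, hz⟩ : ∃ z : ℤ, z = round (u j / δ) := ⟨_, rfl⟩
    change R ≤ |round (u j / δ)|
    rw [← hz] at h1 ⊢
    rw [abs_le] at h1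
    rcases le_abs.mp hR with h | h
    · refine le_abs.mpr (Or.inl ?_)
      by_contra h2
      have h3 : (z : ℝ) ≤ R - 1 := by exact_mod_cast (by omega : z ≤ R - 1)
      nlinarith
    · refine le_abs.mpr (Or.inr ?_)
      by_contra h2
      have h3 : -(R : ℝ) + 1 ≤ z := by exact_mod_cast (by omega : -R + 1 ≤ z)
      nlinarith

/-- the zone of the hard core: the lattice points within half a step -/
def Gz (Nh : Set (Fin d → ℝ)) (δ : ℝ) (q : Fin d → ℤ) : Prop :=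
  ∃ u ∈ Nh, ∀ j, |u j - δ * q j| ≤ 1 / 2 * δ

theorem Gz_neg {Nh : Set (Fin d → ℝ)} (hs : ∀ u ∈ Nh, -u ∈ Nh) {δ : ℝ} (q : Fin d → ℤ)
    (h : Gz Nh δ q) : Gz Nh δ (-q) := by
  obtain ⟨u, hu, h1⟩ := h
  refine ⟨-u, hs u hu, fun j => ?_⟩
  have h2 := h1 j
  rw [Pi.neg_apply, Pi.neg_apply, ← abs_neg]
  push_cast
  rw [show -(-u j - δ * -(q j : ℝ)) = u j - δ * q j by ring]
  exact h2

theorem Gz_cube {Nh : Set (Fin d → ℝ)} (hc : ∀ u : Fin d → ℝ, (∀ j, |u j| < 1) → u ∈ Nh)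
    {δ : ℝ} (hδ : 0 < δ) (hδ1 : δ ≤ 1) {ρ : ℤ} (h1 : δ * ρ = 1) (q : Fin d → ℤ)
    (h : ∀ j, |q j| ≤ ρ) : Gz Nh δ q := by
  have h2 : ∀ j, δ * |(q j : ℝ)| ≤ 1 := fun j => by
    rw [← h1]
    have : |(q j : ℝ)| ≤ ρ := by exact_mod_cast h j
    exact mul_le_mul_of_nonneg_left this hδ.le
  refine ⟨fun j => δ * q j * (1 - δ / 2), hc _ fun j => ?_, fun j => ?_⟩
  · rw [abs_mul, abs_mul, abs_of_pos hδ, abs_of_pos (by linarith : 0 < 1 - δ / 2)]
    have h3 := h2 j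
    have h4 : 0 ≤ δ * |(q j : ℝ)| := by positivity
    nlinarith
  · have e : δ * (q j : ℝ) * (1 - δ / 2) - δ * q j = -(δ * q j * (δ / 2)) := by ring
    rw [e, abs_neg, abs_mul, abs_mul, abs_of_pos hδ, abs_of_pos (by linarith : 0 < δ / 2)]
    have h3 := h2 j
    nlinarith

theorem Gz_bdd {Nh : Set (Fin d → ℝ)} {D : ℕ} (hb : ∀ u ∈ Nh, ∀ j, |u j| < D) {δ : ℝ}
    (hδ : 0 < δ) {ρ₂ : ℤ} (h2 : (D : ℝ) ≤ δ * ρ₂) (q : Fin d → ℤ) (h : Gz Nh δ q) (j : Fin d) :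
    |q j| ≤ ρ₂ := by
  obtain ⟨u, hu, h1⟩ := h
  have h3 := hb u hu j
  have h4 := h1 j
  have h5 : δ * |(q j : ℝ)| < δ * (ρ₂ + 1 / 2) := by
    have h6 := abs_sub (u j) (u j - δ * q j)
    rw [sub_sub_cancel, abs_mul, abs_of_pos hδ] at h6
    linarith
  have h6 : |(q j : ℝ)| < ρ₂ + 1 / 2 := lt_of_mul_lt_mul_left h5 hδ.le
  have h7 : |(q j : ℝ)| < ((ρ₂ + 1 : ℤ) : ℝ) := by push_cast; linarith
  have h8 : |q j| < ρ₂ + 1 := by exact_mod_cast h7
  omega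

theorem ctr_cast (δ : ℝ) (t : Bool) (k : ℤ) (j : Fin d) :
    δ * (X.ctr i₁ i₂ t k j : ℤ) = if j = ii i₁ i₂ t then k * (δ * X.N) else 0 := by
  unfold ctr
  split_ifs
  · push_cast; ring
  · simp only [Int.cast_zero, mul_zero]

/-- the near field -/
theorem near_out (hne : i₁ ≠ i₂) (hρ : X.Lg ≤ X.ρ) {Nh E : Set (Fin d → ℝ)} {δ : ℝ} (hδ : 0 < δ)
    (hG : ∀ q, Gz Nh δ q → Gz Nh δ (-q))
    (hGρ : ∀ q : Fin d → ℤ, (∀ j, |q j| ≤ X.ρ) → Gz Nh δ q) (hB : Btw X (Gz Nh δ) i₁ i₂ δ E)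
    {u : Fin d → ℝ} (hu : u ∈ Nh) (hE : u ∉ E) :
    ∃ (t : Bool) (k : ℤ), 1 ≤ |k| ∧ |k| < X.mm t ∧
      ∀ j, |u j - δ * (X.ctr i₁ i₂ t k j : ℤ)| < δ * (X.bb t + 1 / 4) := by
  obtain ⟨b1, b2, b3, b4, b5, b6, b7⟩ := X.basic
  have eL : X.Lg = (2 * X.m + 4) * X.σ := rfl
  have hm := X.hm
  have hσ0 : 0 ≤ X.σ := by omega
  have hLσ : 8 * X.σ ≤ X.Lg := by
    rw [eL]; exact mul_le_mul_of_nonneg_right (by omega) hσ0
  obtain ⟨q, hq1, hq2, -⟩ := exists_round δ hδ u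
  have hqρ : Gz Nh δ q := ⟨u, hu, hq1⟩
  have hW : X.W i₁ i₂ q := by
    by_contra hW
    obtain ⟨p, p', hp, hp', e⟩ := cover_near (X := X) (i₁ := i₁) (i₂ := i₂) hG hqρ hW
    refine hE (hB.lo u p p' hp hp' fun j => ?_)
    have h2 := hq1 j
    rw [e] at h2
    refine h2.trans ?_
    linarith
  obtain ⟨t, k, hk1, hk2, hk3⟩ := hW
  refine ⟨t, k, hk1, hk2, fun j => ?_⟩
  by_contra hj
  rw [not_lt] at hj
  -- the neighbour
  have key : ∃ y : ℤ, |y| = X.bb t + 1 ∧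
      |u j - δ * (X.ctr i₁ i₂ t k j + y : ℤ)| ≤ 3 / 4 * δ := by
    have h2 := hk3 j
    have h3 := hq1 j
    have h4 : (0 : ℝ) ≤ X.bb t := by exact_mod_cast X.bb_nonneg t
    have h5 := X.bb_nonneg t
    have h6 : |(q j : ℝ) - (X.ctr i₁ i₂ t k j : ℤ)| ≤ X.bb t := by exact_mod_cast h2
    rw [abs_le] at h2 h3 h6
    rcases le_abs.mp hj with h | h
    · refine ⟨X.bb t + 1, abs_of_nonneg (by omega), ?_⟩
      have h7 : (q j : ℤ) = X.ctr i₁ i₂ t k j + X.bb t := by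
        have h8 : ((X.ctr i₁ i₂ t k j + X.bb t - 1 : ℤ) : ℝ) < (q j : ℤ) := by
          push_cast
          by_contra h9
          rw [not_lt] at h9
          nlinarith
        have h10 := Int.cast_lt.mp h8
        omega
      have h8 : (q j : ℝ) = (X.ctr i₁ i₂ t k j : ℤ) + (X.bb t : ℤ) := by exact_mod_cast h7
      push_cast
      rw [h8] at h3
      rw [abs_le]
      constructor <;> nlinarith [h3.1, h3.2]
    · refine ⟨-(X.bb t + 1), by rw [abs_neg, abs_of_nonneg (by omega)], ?_⟩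
      have h7 : (q j : ℤ) = X.ctr i₁ i₂ t k j - X.bb t := by
        have h8 : ((q j : ℤ) : ℝ) < ((X.ctr i₁ i₂ t k j - X.bb t + 1 : ℤ) : ℝ) := by
          push_cast
          by_contra h9
          rw [not_lt] at h9
          nlinarith
        have h10 := Int.cast_lt.mp h8
        omega
      have h8 : (q j : ℝ) = (X.ctr i₁ i₂ t k j : ℤ) - (X.bb t : ℤ) := by exact_mod_cast h7
      push_cast
      rw [h8] at h3
      rw [abs_le]
      constructor <;> nlinarith [h3.1, h3.2]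
  obtain ⟨y, hy1, hy2⟩ := key
  obtain ⟨x, hx⟩ : ∃ x : Fin d → ℤ, x = fun l => if l = j then y else
    q l - X.ctr i₁ i₂ t k l := ⟨_, rfl⟩
  have hxj : x j = y := by rw [hx]; simp only [if_true]
  have hxl : ∀ l, l ≠ j → x l = q l - X.ctr i₁ i₂ t k l := fun l hl => by
    rw [hx]; simp only [if_neg hl]
  have hxb : ∀ l, |x l| ≤ X.bb t + 1 := fun l => by
    by_cases hl : l = j
    · rw [hl, hxj]; omega
    · rw [hxl l hl]
      have := hk3 l
      omega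
  have hbb := X.bb_le t
  have hnW := not_W_ctr (X := X) hne hk1 (t := t) (x := x)
    (fun l => (hxb l).trans (by omega)) ⟨j, by rw [hxj]; omega⟩
  obtain ⟨p, p', hp, hp', e⟩ := cover_near (X := X) (i₁ := i₁) (i₂ := i₂) hG
    (q := fun l => X.ctr i₁ i₂ t k l + x l) (hGρ _ fun l => by
      have h2 := abs_ctr_le (i₁ := i₁) (i₂ := i₂) hk2 l
      have h3 := hxb l
      have h4 := abs_add_le (X.ctr i₁ i₂ t k l) (x l)
      omega) hnW
  refine hE (hB.lo u p p' hp hp' fun l => ?_)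
  have e' : p l - p' l = X.ctr i₁ i₂ t k l + x l := (congrFun e l).symm
  rw [e']
  by_cases hl : l = j
  · rw [hl, hxj]; exact hy2
  · rw [hxl l hl, add_sub_cancel]
    refine (hq1 l).trans ?_
    linarith

theorem near_in (hne : i₁ ≠ i₂) (hρ : X.Lg ≤ X.ρ) {E : Set (Fin d → ℝ)} {δ : ℝ} (hδ : 0 < δ)
    (hB : Btw X G i₁ i₂ δ E) {u : Fin d → ℝ} {t : Bool} {k : ℤ} (hk1 : 1 ≤ |k|)
    (hk2 : |k| < X.mm t)
    (hk3 : ∀ j, |u j - δ * (X.ctr i₁ i₂ t k j : ℤ)| < δ * (X.bb t + 1 / 4) / 2) : u ∉ E := by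
  intro hE
  obtain ⟨p, p', hp, hp', h⟩ := hB.up u hE
  refine avoid hne hρ hp hp' ⟨t, k, hk1, hk2, fun j => ?_⟩
  have h2 := hk3 j
  have h3 := h j
  rw [Pi.sub_apply]
  have hb0 : (0 : ℝ) ≤ X.bb t := by exact_mod_cast X.bb_nonneg t
  have h4 : 2 * |((p j - p' j : ℤ) : ℝ) - (X.ctr i₁ i₂ t k j : ℤ)| < X.bb t + 2 := by
    have h5 : |((p j - p' j : ℤ) : ℝ) - (X.ctr i₁ i₂ t k j : ℤ)| < X.bb t / 2 + 1 := by
      rw [abs_lt] at h2 ⊢
      rw [abs_le] at h3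
      constructor
      · by_contra h5
        rw [not_lt] at h5
        nlinarith [h2.1, h2.2, h3.1, h3.2]
      · by_contra h5
        rw [not_lt] at h5
        nlinarith [h2.1, h2.2, h3.1, h3.2]
    linarith
  have h5 : 2 * |(p j - p' j) - X.ctr i₁ i₂ t k j| < X.bb t + 2 := by exact_mod_cast h4
  have := X.bb_nonneg t
  omega

/-- **The axioms for the difference set of the body.** -/
theorem geo_body (hne : i₁ ≠ i₂) (hρ : X.Lg ≤ X.ρ) (hρρ : X.ρ ≤ X.ρ₂) {m : ℕ} (hXm : X.m = m)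
    {Nh : Set (Fin d → ℝ)} {c : ℝ} {D : ℕ} (hN : Core Nh c D) {E : Set (Fin d → ℝ)}
    {δ R ε : ℝ} (hDR : (D : ℝ) ≤ R) (hc : δ * (X.Lg + 2) ≤ c) (hδ : 0 < δ) (h1 : δ * X.ρ = 1)
    (hR : R ≤ δ * X.ρ₂) (hR' : δ * X.ρ₂ ≤ R + δ)
    (hα : 2 * (m + 2) * (δ * X.N) ≤ 1)
    (hε : (7 / X.r + 21 * (4 * X.m + 3) * (2 * X.m + 1) / X.c : ℝ) ≤ ε / 2)
    (hB : Btw X (Gz Nh δ) i₁ i₂ δ E) :
    Geo d i₁ i₂ m R (δ * X.N) (δ * (X.b + 1 / 4)) (δ * (1 / 4)) (δ * (X.N / 2 + X.n' - 1 / 2))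
      (δ * (X.N / 2 + 5 * X.n' + 1)) (δ * (X.Lg + 2) / c) ε Nh E := by
  have hbasic := X.basic
  obtain ⟨b1, b2, b3, b4, b5, b6, b7⟩ := X.basic
  have hn' := X.n'_pos
  have eL : X.Lg = (2 * X.m + 4) * X.σ := rfl
  have hm := X.hm
  have hσ0 : 0 ≤ X.σ := by omega
  have hLσ : 8 * X.σ ≤ X.Lg := by
    rw [eL]; exact mul_le_mul_of_nonneg_right (by omega) hσ0
  have b1' : (0 : ℝ) ≤ X.b := by exact_mod_cast b1
  have b2' : 2 * (X.b : ℝ) + 4 ≤ X.r := by exact_mod_cast b2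
  have b3' : 3 * (X.r : ℝ) ≤ X.n := by exact_mod_cast b3
  have b4' : (X.n : ℝ) ≤ X.n' := by exact_mod_cast b4
  have b5' : 60 * (X.n' : ℝ) + X.r ≤ X.N := by exact_mod_cast b5
  have hρ' : (X.Lg : ℝ) ≤ X.ρ := by exact_mod_cast hρ
  have hLσ' : 8 * (X.σ : ℝ) ≤ X.Lg := by exact_mod_cast hLσ
  have hσ1 : (1 : ℝ) ≤ X.σ := by exact_mod_cast (by omega : (1 : ℤ) ≤ X.σ)
  have hmm : (X.m : ℝ) = m := by rw [hXm]; simp only [Int.cast_natCast]
  have hLg0 : (0 : ℝ) ≤ X.Lg := by linarith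
  have hc0 := hN.c_pos
  have hτ : 0 ≤ δ * ((X.Lg : ℝ) + 2) / c := by positivity
  have hδ1 : δ ≤ 1 := by
    have h2 : δ * 1 ≤ δ * X.ρ := mul_le_mul_of_nonneg_left (by linarith) hδ.le
    linarith
  have hG : ∀ q : Fin d → ℤ, Gz Nh δ q → Gz Nh δ (-q) := Gz_neg hN.sym
  have hGρ : ∀ q : Fin d → ℤ, (∀ j, |q j| ≤ X.ρ) → Gz Nh δ q := Gz_cube hN.cube hδ hδ1 h1
  have hGb : ∀ q : Fin d → ℤ, Gz Nh δ q → ∀ j, |q j| ≤ X.ρ₂ :=
    Gz_bdd hN.bdd hδ (hDR.trans hR)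
  refine ⟨hne, ?_, by positivity, ?_, ?_, hα, ?_, ?_, ?_, hτ, hB.meas, hB.sym, ?_, hN.cube, ?_, ?_,
    ?_, ?_⟩
  · -- hm
    rw [hXm] at hm
    exact_mod_cast hm
  · -- hba
    refine mul_le_mul_of_nonneg_left ?_ hδ.le
    linarith
  · -- ha
    rw [← mul_assoc, mul_comm 40 δ, mul_assoc]
    refine mul_le_mul_of_nonneg_left ?_ hδ.le
    linarith
  · -- hβ
    have e : δ * X.N / 2 + 4 * (δ * (X.b + 1 / 4)) = δ * (X.N / 2 + 4 * (X.b + 1 / 4)) := by ring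
    rw [e]
    refine mul_le_mul_of_nonneg_left ?_ hδ.le
    linarith
  · -- hββ
    refine mul_le_mul_of_nonneg_left ?_ hδ.le
    linarith
  · -- hβ'
    rw [← mul_assoc, mul_comm 5 δ, mul_assoc, ← mul_assoc 3 δ, mul_comm 3 δ, mul_assoc]
    refine mul_le_mul_of_nonneg_left ?_ hδ.le
    linarith
  · -- bdd
    intro u hu j
    obtain ⟨p, p', hp, hp', h⟩ := hB.up u hu
    have h2 := h j
    have h3 := P.le hne hρ hρρ hGb hp j
    have h4 := P.le hne hρ hρρ hGb hp' j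
    have h5 : |p j - p' j| ≤ 2 * X.ρ₂ + 4 * X.σ := by
      have := abs_sub (p j) (p' j)
      omega
    have h6 : |((p j - p' j : ℤ) : ℝ)| ≤ 2 * X.ρ₂ + 4 * X.σ := by exact_mod_cast h5
    have h7 : |u j| ≤ |u j - δ * (p j - p' j : ℤ)| + |δ * (p j - p' j : ℤ)| := by
      have := abs_add_le (u j - δ * (p j - p' j : ℤ)) (δ * (p j - p' j : ℤ))
      rwa [sub_add_cancel] at this
    rw [abs_mul, abs_of_pos hδ] at h7
    have h8 : δ * |((p j - p' j : ℤ) : ℝ)| ≤ δ * (2 * X.ρ₂ + 4 * X.σ) :=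
      mul_le_mul_of_nonneg_left h6 hδ.le
    have h9 : δ * (8 * X.σ) ≤ 1 := by
      rw [← h1]; exact mul_le_mul_of_nonneg_left (hLσ'.trans hρ') hδ.le
    have h10 : δ * 1 ≤ δ * X.σ := mul_le_mul_of_nonneg_left hσ1 hδ.le
    nlinarith
  · -- near
    intro u hu hE
    obtain ⟨t, k, hk1, hk2, hk3⟩ := near_out hne hρ hδ hG hGρ hB hu hE
    cases t
    · refine Or.inr ⟨k, hk1, ?_, fun j => ?_⟩
      · change |k| < X.m + 1 at hk2
        rwa [hXm] at hk2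
      · have h2 := hk3 j
        rw [ctr_cast] at h2
        change |u j - (if j = i₂ then k * (δ * X.N) else 0)| < δ * (((0 : ℤ) : ℝ) + 1 / 4) at h2
        rwa [Int.cast_zero, zero_add] at h2
    · refine Or.inl ⟨k, hk1, ?_, fun j => ?_⟩
      · change |k| < X.m at hk2
        rwa [hXm] at hk2
      · have h2 := hk3 j
        rw [ctr_cast] at h2
        exact h2
  · -- near_in
    rintro u (⟨k, hk1, hk2, hk3⟩ | ⟨k, hk1, hk2, hk3⟩)
    · refine near_in hne hρ hδ hB (t := true) hk1 ?_ fun j => ?_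
      · change |k| < X.m
        rwa [hXm]
      · rw [ctr_cast]
        exact hk3 j
    · refine near_in hne hρ hδ hB (t := false) hk1 ?_ fun j => ?_
      · change |k| < X.m + 1
        rwa [hXm]
      · rw [ctr_cast]
        change |u j - (if j = i₂ then k * (δ * X.N) else 0)| < δ * (((0 : ℤ) : ℝ) + 1 / 4) / 2
        rw [Int.cast_zero, zero_add]
        exact hk3 j
  · -- far
    rintro u hu1 hu ⟨i, hi⟩ ⟨j, hj⟩
    obtain ⟨l, hl⟩ := not_mem_Cub fun h => hu1 (hN.cube u h)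
    obtain ⟨q, hq1, hq2, hq3⟩ := exists_round δ hδ u
    have hql : X.ρ ≤ |q l| := hq3 l X.ρ (by rw [h1]; exact hl)
    have hqR : ∀ l, |q l| ≤ X.ρ₂ := fun l => hq2 l X.ρ₂ ((hu l).trans hR)
    have e1 : 2 * |q i₁ - X.m * X.N * i| ≤ X.N + 2 * X.n' := by
      have h2 := hq1 i₁
      have h3 : 2 * |(q i₁ : ℝ) - X.m * X.N * i| ≤ X.N + 2 * X.n' := by
        rw [← hmm] at hi
        rw [abs_le] at h2 hi
        have h4 : |(q i₁ : ℝ) - X.m * X.N * i| ≤ X.N / 2 + X.n' := by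
          rw [abs_le]
          constructor
          · by_contra h5
            rw [not_le] at h5
            nlinarith [h2.1, h2.2, hi.1, hi.2]
          · by_contra h5
            rw [not_le] at h5
            nlinarith [h2.1, h2.2, hi.1, hi.2]
        linarith
      exact_mod_cast h3
    have e2 : 2 * |q i₂ - (X.m + 1) * X.N * j| ≤ X.N + 2 * X.n' := by
      have h2 := hq1 i₂
      have h3 : 2 * |(q i₂ : ℝ) - (X.m + 1) * X.N * j| ≤ X.N + 2 * X.n' := by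
        rw [← hmm] at hj
        rw [abs_le] at h2 hj
        have h4 : |(q i₂ : ℝ) - (X.m + 1) * X.N * j| ≤ X.N / 2 + X.n' := by
          rw [abs_le]
          constructor
          · by_contra h5
            rw [not_le] at h5
            nlinarith [h2.1, h2.2, hj.1, hj.2]
          · by_contra h5
            rw [not_le] at h5
            nlinarith [h2.1, h2.2, hj.1, hj.2]
        linarith
      exact_mod_cast h3
    obtain ⟨p, p', hp, hp', e⟩ := cover_far hne ⟨l, hql⟩ hqR e1 e2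
    refine hB.lo u p p' hp hp' fun j => ?_
    have h2 := hq1 j
    rw [e] at h2
    refine h2.trans ?_
    linarith
  · -- junk
    obtain ⟨t₁, ht₁⟩ : ∃ t₁, X.N = X.r * t₁ := X.r_dvd_N
    have ht₁0 : 1 ≤ t₁ := by
      by_contra h2
      have h3 := X.N_pos
      have h4 := X.r_pos
      have h5 : t₁ ≤ 0 := by omega
      have h6 : X.r * t₁ ≤ 0 := mul_nonpos_of_nonneg_of_nonpos h4.le h5
      omega
    obtain ⟨J₁, hJ₁, hJ₁'⟩ := thin_S (X := X) hδ (M := X.m) (t := X.m * t₁)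
      (by rw [ht₁]; ring) (by nlinarith) (by omega) hε
    obtain ⟨J₂, hJ₂, hJ₂'⟩ := thin_S (X := X) hδ (M := X.m + 1) (t := (X.m + 1) * t₁)
      (by rw [ht₁]; ring) (by nlinarith) (by omega) hε
    refine ⟨fun _ => J₁, fun _ => J₂, ∅, fun _ => ?_, fun _ => ?_,
      ⟨MeasurableSet.empty, fun x => by simp⟩, ?_⟩
    · rw [show (m : ℝ) * (δ * X.N) = δ * (X.m * X.N : ℤ) by push_cast; rw [hmm]; ring]
      exact hJ₁
    · rw [show ((m : ℝ) + 1) * (δ * X.N) = δ * ((X.m + 1) * X.N : ℤ) by push_cast; rw [hmm]; ring]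
      exact hJ₂
    · intro u hu hu1
      obtain ⟨p, p', hp, hp', h⟩ := hB.up u hu
      have hl' : ∀ q', Gz Nh δ q' → ∃ l, X.Lg < |p l - p' l - q' l| := by
        intro q' hq'
        by_contra hcon
        push Not at hcon
        obtain ⟨u', hu', h2⟩ := hq'
        have e0 : 0 < 1 + δ * ((X.Lg : ℝ) + 2) / c := by linarith
        obtain ⟨τ, hτe⟩ : ∃ τ, τ = δ * ((X.Lg : ℝ) + 2) / c := ⟨_, rfl⟩
        rw [← hτe] at hu1 hτ e0
        have hcτ : c * τ = δ * (X.Lg + 2) := by rw [hτe]; field_simp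
        have h3 : (1 + τ)⁻¹ • u ∉ Nh := fun h4 =>
          hu1 ((Set.mem_smul_set_iff_inv_smul_mem₀ e0.ne' _ _).mpr h4)
        refine hN.exp _ h3 τ hτ ?_ (u' - u) (fun j => ?_) ?_
        · rw [hτe, div_le_one hc0]; exact hc
        · rw [hcτ, Pi.sub_apply]
          have h5 := h j
          have h6 := h2 j
          have h7 : |((p j - p' j - q' j : ℤ) : ℝ)| ≤ X.Lg := by exact_mod_cast hcon j
          push_cast at h5 h7
          rw [abs_le] at h5 h6 h7 ⊢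
          constructor <;> nlinarith [h5.1, h5.2, h6.1, h6.2, h7.1, h7.2]
        · rw [smul_inv_smul₀ e0.ne', add_sub_cancel]
          exact hu'
      rcases junk hne hρ hG hGρ hp hp' hl' with ⟨⟨i, hi⟩, ⟨j, hj⟩⟩ | ⟨hS1, hS2⟩
      · refine Or.inl ⟨⟨i, ?_⟩, ⟨j, ?_⟩⟩
        · have h2 := h i₁
          have h3 : 2 * |((p i₁ - p' i₁ : ℤ) : ℝ) - X.m * X.N * i| ≤ X.N + 10 * X.n' := by
            exact_mod_cast hi
          have h4 : |((p i₁ - p' i₁ : ℤ) : ℝ) - X.m * X.N * i| ≤ X.N / 2 + 5 * X.n' := by linarith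
          rw [← hmm]
          rw [abs_le] at h2 h4 ⊢
          constructor <;> nlinarith [h2.1, h2.2, h4.1, h4.2]
        · have h2 := h i₂
          have h3 : 2 * |((p i₂ - p' i₂ : ℤ) : ℝ) - (X.m + 1) * X.N * j| ≤ X.N + 10 * X.n' := by
            exact_mod_cast hj
          have h4 : |((p i₂ - p' i₂ : ℤ) : ℝ) - (X.m + 1) * X.N * j| ≤ X.N / 2 + 5 * X.n' := by
            linarith
          rw [← hmm]
          rw [abs_le] at h2 h4 ⊢
          constructor <;> nlinarith [h2.1, h2.2, h4.1, h4.2]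
      · exact Or.inr (Or.inl ⟨hJ₁' _ hS1 _ (h i₁), hJ₂' _ hS2 _ (h i₂)⟩)

end IPar

end Pool.Agent.RC
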