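import Pool.Agent.Lib.MP_09cbbd_rc.BodyDef
import Pool.Agent.Lib.MP_09cbbd_ex.Def
import Pool.Agent.Lib.MP_09cbbd_rc.InstK

/-!
# A gas of identical hard bodies: the exclusion set is `K - K`
-/

set_option autoImplicit false

namespace Pool.Agent.HardBodies

open MeasureTheory Pointwise

theorem disjoint_iff {d : ℕ} {K : Set (Fin d → ℝ)} {x y : Fin d → ℝ} :
    Disjoint (x +ᵥ K) (y +ᵥ K) ↔ x - y ∉ K - K := by
  rw [Set.disjoint_left]
  constructor
  · rintro h ⟨k, hk, k', hk', e⟩
    refine h (a := x + k') ⟨k', hk', rfl⟩ ⟨k, hk, ?_⟩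
    change y + k = x + k'
    have e' : k - k' = x - y := e
    linear_combination (exp := 1) e'
  · rintro h _ ⟨k, hk, rfl⟩ ⟨k', hk', e⟩
    refine h ⟨k', hk', k, hk, ?_⟩
    change k' - k = x - y
    have e' : y + k' = x + k := e
    linear_combination (exp := 1) e'

theorem Z_eq (d : ℕ) (K : Set (Fin d → ℝ)) (ℓ : ℝ) (N : ℕ) : Z d K ℓ N = ExGas.Z d (K - K) ℓ N := by
  unfold Z ExGas.Z
  congr 2
  ext x
  refine and_congr Iff.rfl (forall_congr' fun i => forall_congr' fun j => forall_congr' fun _ => ?_)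
  exact disjoint_iff

theorem transition_iff (d : ℕ) (K : Set (Fin d → ℝ)) :
    Transition d K ↔ ExGas.Transition d (K - K) := by
  unfold Transition ExGas.Transition
  simp only [Z_eq]

theorem isCubeUnion_iff (d : ℕ) (K : Set (Fin d → ℝ)) : IsCubeUnion d K ↔ RC.IsBody d K := Iff.rfl

end Pool.Agent.HardBodies
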