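import Pool.Agent.Lib.MP_09cbbd_mix.Bas

/-!
# A gas on cells: the abstract lattice model with near field thresholds

`nf k v x y`: the content `x` of a cell `i` and the content `y` of the cell `i + v` respect the near
field exclusion with the margin `k`; `far v x y`: they respect the far field exclusion.
-/

set_option autoImplicit false

namespace Pool.Agent.RC

open MeasureTheory Finset Filter Topology Pool.Agent.StableGas Pool.Agent.SquareWell
open Pool.Agent.Kac (Tor cst)
open Pool.Agent.Mix (Qr mem_Qr)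

/-- The data of a gas on cells. `E` are the contents of a cell, `π` the a priori measure, `e0` the
empty content, `q` the range of the near field and `r` the range of the far field. -/
structure CG (d : ℕ) (E : Type) [MeasurableSpace E] where
  π : Measure E
  e0 : E
  nf : ℕ → Zd d → E → E → Prop
  far : Zd d → E → E → Prop
  q : ℕ
  r : ℕ
  hq : q ≤ r
  π_fin : π Set.univ ≠ ⊤
  π_e0 : π {e0} = 1
  e0_meas : MeasurableSet ({e0} : Set E)
  nf_meas : ∀ k v, MeasurableSet {p : E × E | nf k v p.1 p.2}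
  far_meas : ∀ v, MeasurableSet {p : E × E | far v p.1 p.2}
  nf_symm : ∀ k v x y, nf k v x y → nf k (-v) y x
  far_symm : ∀ v x y, far v x y → far (-v) y x
  nf_anti : ∀ k v x y, nf (k + 1) v x y → nf k v x y
  nf_e0 : ∀ k v y, nf k v e0 y
  far_e0 : ∀ v y, far v e0 y
  nf_r : ∀ k v x y, k ≤ 2 → v ∉ Qr d q → nf k v x y
  far_r : ∀ v x y, v ∉ Qr d r → far v x y

namespace CG

variable {d : ℕ} {E : Type} [MeasurableSpace E] (M : CG d E)

/-- The range of the near field. -/
abbrev rn : ℕ := M.q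

/-- Compatibility. -/
def okc (v : Zd d) (x y : E) : Prop := M.nf 0 v x y ∧ M.far v x y

/-- The contents of the cells of `A` are compatible, for an index group `Γ` with a map `φ` from the
lattice. -/
def cp {Γ : Type} [AddCommGroup Γ] (φ : Zd d → Γ) (A : Finset Γ) (ω : Γ → E) : Prop :=
  ∀ v ∈ Qr d M.r, v ≠ 0 → ∀ i ∈ A, i + φ v ∈ A → M.okc v (ω i) (ω (i + φ v))

open Classical in
/-- Weight of a configuration in `A` with the fields `h`. -/
noncomputable def wG {Γ : Type} [AddCommGroup Γ] (φ : Zd d → Γ) (h : Γ → E → ℝ)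
    (A : Finset Γ) (ω : Γ → E) : ENNReal :=
  (∏ i ∈ A, ex (h i (ω i))) * if M.cp φ A ω then 1 else 0

/-- Weight of a configuration in `A` with a constant field. -/
noncomputable def w (h : E → ℝ) (A : Finset (Zd d)) (ω : Zd d → E) : ENNReal :=
  M.wG id (fun _ => h) A ω

/-- Integral over the contents of the cells of `A` (the other cells are empty). -/
noncomputable def int (A : Finset (Zd d)) (f : (Zd d → E) → ENNReal) : ENNReal :=
  lmarginal (fun _ : Zd d => M.π) A f fun _ => M.e0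

/-- Partition function. -/
noncomputable def xi (h : E → ℝ) (A : Finset (Zd d)) : ENNReal := M.int A (M.w h A)

/-- `p` is the pressure for the field `h`. -/
def IsP (h : E → ℝ) (p : ℝ) : Prop :=
  Tendsto (fun L : ℕ => Real.log (M.xi h (bx d L)).toReal / (L : ℝ) ^ d) atTop (𝓝 p)

/-- Partition function of the torus. -/
noncomputable def ZT (L : ℕ) (h : E → ℝ) : ENNReal :=
  ∫⁻ ω : Tor d L → E, M.wG (cst L) (fun _ => h) univ ω ∂(Measure.pi fun _ => M.π)

/-- Partition function of the complement of `A` in the torus, with fields. -/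
noncomputable def ZC (L : ℕ) (A : Finset (Tor d L)) (h : Tor d L → E → ℝ) : ENNReal :=
  lmarginal (fun _ : Tor d L => M.π) (univ \ A) (M.wG (cst L) h (univ \ A)) fun _ => M.e0

/-- Admissible fields. -/
structure Fld (h : E → ℝ) : Prop where
  meas : Measurable h
  e0 : h M.e0 = 0
  fin : ∫⁻ x, ex (h x) ∂M.π ≠ ⊤

/-- The shift inequality for the contents of the set `Cl`: the threshold of the near field is
relaxed by one for the cells of `S1`, and the far field exclusion with the cells of `S2` is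
gained. Here the cells are relative to the moved cell `0`. -/
def SH (h : E → ℝ) (RA Cl : Set E) (c : ENNReal) : Prop :=
  ∀ (S1 S2 : Finset (Zd d)) (k : Zd d → ℕ) (y : Zd d → E), S1 ⊆ (Qr d M.r).erase 0 →
    S2 ⊆ (Qr d M.r).erase 0 → (∀ v ∈ S1, k v ≤ 1) → (∀ v ∈ S1 ∪ S2, y v ∈ RA) →
    (∀ v ∈ S2, v ∉ Qr d M.q) →
    c * ∫⁻ x in Cl, ex (h x) * {x | ∀ v ∈ S1, M.far v x (y v) ∧
        M.nf (k v + 1) v x (y v)}.indicator 1 x ∂M.π ≤
      ∫⁻ x in Cl, ex (h x) * {x | (∀ v ∈ S1, M.far v x (y v) ∧ M.nf (k v) v x (y v)) ∧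
        ∀ v ∈ S2, M.far v x (y v)}.indicator 1 x ∂M.π

/-! ### Elementary facts -/

theorem fin_π : IsFiniteMeasure M.π := ⟨lt_top_iff_ne_top.2 M.π_fin⟩

theorem nf_le {k l : ℕ} (h : k ≤ l) {v : Zd d} {x y : E} (hxy : M.nf l v x y) :
    M.nf k v x y := by
  induction l with
  | zero =>
    obtain rfl : k = 0 := by omega
    exact hxy
  | succ l ih =>
    rcases Nat.eq_or_lt_of_le h with h1 | h1
    · rw [h1]
      exact hxy
    · exact ih (by omega) (M.nf_anti l v x y hxy)

theorem nf_e0' (k : ℕ) (v : Zd d) (x : E) : M.nf k v x M.e0 := by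
  have := M.nf_symm k (-v) _ _ (M.nf_e0 k (-v) x)
  rwa [neg_neg] at this

theorem far_e0' (v : Zd d) (x : E) : M.far v x M.e0 := by
  have := M.far_symm (-v) _ _ (M.far_e0 (-v) x)
  rwa [neg_neg] at this

theorem okc_e0 (v : Zd d) (y : E) : M.okc v M.e0 y := ⟨M.nf_e0 0 v y, M.far_e0 v y⟩

theorem okc_e0' (v : Zd d) (x : E) : M.okc v x M.e0 := ⟨M.nf_e0' 0 v x, M.far_e0' v x⟩

theorem okc_symm {v : Zd d} {x y : E} (h : M.okc v x y) : M.okc (-v) y x :=
  ⟨M.nf_symm 0 v x y h.1, M.far_symm v x y h.2⟩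

theorem Qrq_r : Qr d M.q ⊆ Qr d M.r := Mix.Bas.Qr_mono M.hq

theorem okc_r {v : Zd d} {x y : E} (h : v ∉ Qr d M.r) : M.okc v x y :=
  ⟨M.nf_r 0 v x y (by omega) fun h1 => h (M.Qrq_r h1), M.far_r v x y h⟩

theorem okc_meas (v : Zd d) : MeasurableSet {p : E × E | M.okc v p.1 p.2} :=
  (M.nf_meas 0 v).inter (M.far_meas v)

section Gen

variable {Γ : Type} [AddCommGroup Γ] (φ : Zd d → Γ)

theorem measurableSet_cp (A : Finset Γ) : MeasurableSet {ω : Γ → E | M.cp φ A ω} := by
  classical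
  have e : {ω : Γ → E | M.cp φ A ω} = ⋂ v ∈ (Qr d M.r).erase 0,
      ⋂ i ∈ A.filter (fun i => i + φ v ∈ A), {ω : Γ → E | M.okc v (ω i) (ω (i + φ v))} := by
    ext ω
    simp only [cp, Set.mem_ofPred_eq, Set.mem_iInter, mem_erase, mem_filter]
    constructor
    · intro h v hv i hi
      exact h v hv.2 hv.1 i hi.1 hi.2
    · intro h v hv h0 i hi hi2
      exact h v ⟨h0, hv⟩ i ⟨hi, hi2⟩
  rw [e]
  refine Finset.measurableSet_biInter _ fun v _ => Finset.measurableSet_biInter _ fun i _ => ?_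
  have h : Measurable fun a : Γ → E => (a i, a (i + φ v)) :=
    (measurable_pi_apply i).prodMk (measurable_pi_apply (i + φ v))
  exact h (M.okc_meas v)

theorem wG_of_cp {h : Γ → E → ℝ} {A : Finset Γ} {ω : Γ → E} (hc : M.cp φ A ω) :
    M.wG φ h A ω = ∏ i ∈ A, ex (h i (ω i)) := by
  unfold wG
  rw [if_pos hc, mul_one]

theorem wG_of_not {h : Γ → E → ℝ} {A : Finset Γ} {ω : Γ → E} (hc : ¬ M.cp φ A ω) :
    M.wG φ h A ω = 0 := by
  unfold wG
  rw [if_neg hc, mul_zero]

theorem wG_eq_indicator (h : Γ → E → ℝ) (A : Finset Γ) : M.wG φ h A =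
    {ω : Γ → E | M.cp φ A ω}.indicator fun ω => ∏ i ∈ A, ex (h i (ω i)) := by
  funext ω
  by_cases hc : M.cp φ A ω
  · rw [M.wG_of_cp φ hc, Set.indicator_of_mem (show ω ∈ {ω : Γ → E | M.cp φ A ω} from hc)]
  · rw [M.wG_of_not φ hc, Set.indicator_of_notMem (show ω ∉ {ω : Γ → E | M.cp φ A ω} from hc)]

theorem measurable_ex {α : Type} [MeasurableSpace α] {F : α → ℝ} (hF : Measurable F) :
    Measurable fun x => ex (F x) := Mix.Bas.measurable_ex hF

theorem measurable_wG {h : Γ → E → ℝ} (hh : ∀ i, Measurable (h i)) (A : Finset Γ) :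
    Measurable (M.wG φ h A) := by
  rw [wG_eq_indicator]
  exact (Finset.measurable_prod _ fun i _ => (measurable_ex (hh i)).comp
    (measurable_pi_apply i)).indicator (M.measurableSet_cp φ A)

theorem cp_dep {A : Finset Γ} {x y : Γ → E} (h : ∀ i ∈ A, x i = y i) :
    M.cp φ A x ↔ M.cp φ A y := by
  unfold cp
  constructor
  · intro g v hv h0 i hi hi2
    rw [← h i hi, ← h _ hi2]
    exact g v hv h0 i hi hi2
  · intro g v hv h0 i hi hi2
    rw [h i hi, h _ hi2]
    exact g v hv h0 i hi hi2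

theorem cp_mono {A B : Finset Γ} (hAB : A ⊆ B) {ω : Γ → E} (h : M.cp φ B ω) : M.cp φ A ω :=
  fun v hv h0 i hi hi2 => h v hv h0 i (hAB hi) (hAB hi2)

theorem wG_dep (h : Γ → E → ℝ) (A : Finset Γ) {x y : Γ → E} (hxy : ∀ i ∈ A, x i = y i) :
    M.wG φ h A x = M.wG φ h A y := by
  by_cases hx : M.cp φ A x
  · rw [M.wG_of_cp φ hx, M.wG_of_cp φ ((M.cp_dep φ hxy).1 hx)]
    exact prod_congr rfl fun i hi => by rw [hxy i hi]
  · rw [M.wG_of_not φ hx, M.wG_of_not φ fun hy => hx ((M.cp_dep φ hxy).2 hy)]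

theorem wG_congr {h h' : Γ → E → ℝ} {A : Finset Γ} (hh : ∀ i ∈ A, h i = h' i) (ω : Γ → E) :
    M.wG φ h A ω = M.wG φ h' A ω := by
  unfold wG
  congr 1
  exact prod_congr rfl fun i hi => by rw [hh i hi]

theorem wG_mono {h h' : Γ → E → ℝ} {A : Finset Γ} (hh : ∀ i ∈ A, ∀ x, h i x ≤ h' i x)
    (ω : Γ → E) : M.wG φ h A ω ≤ M.wG φ h' A ω := by
  unfold wG
  exact mul_le_mul' (Mix.Bas.prod_mono fun i hi => ex_le_ex.2 (hh i hi _)) le_rfl

theorem wG_le {h : Γ → E → ℝ} {A : Finset Γ} (ω : Γ → E) :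
    M.wG φ h A ω ≤ ∏ i ∈ A, ex (h i (ω i)) := by
  by_cases hc : M.cp φ A ω
  · rw [M.wG_of_cp φ hc]
  · rw [M.wG_of_not φ hc]
    exact zero_le

/-- Change of the field. -/
theorem wG_add (h f : Γ → E → ℝ) (A : Finset Γ) (ω : Γ → E) :
    M.wG φ (fun i x => h i x + f i x) A ω = M.wG φ h A ω * ex (∑ i ∈ A, f i (ω i)) := by
  by_cases hc : M.cp φ A ω
  · rw [M.wG_of_cp φ hc, M.wG_of_cp φ hc, prod_ex, prod_ex, ← ex_add, sum_add_distrib]
  · rw [M.wG_of_not φ hc, M.wG_of_not φ hc, zero_mul]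

/-- A disjoint union: the weights factorise up to the compatibility. -/
theorem wG_union_le [DecidableEq Γ] (h : Γ → E → ℝ) {A B : Finset Γ} (hAB : Disjoint A B)
    (ω : Γ → E) : M.wG φ h (A ∪ B) ω ≤ M.wG φ h A ω * M.wG φ h B ω := by
  by_cases hc : M.cp φ (A ∪ B) ω
  · rw [M.wG_of_cp φ hc, M.wG_of_cp φ (M.cp_mono φ subset_union_left hc),
      M.wG_of_cp φ (M.cp_mono φ subset_union_right hc), prod_union hAB]
  · rw [M.wG_of_not φ hc]
    exact zero_le

end Gen

/-! ### Marginals -/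

section Lm

variable {Γ : Type} [DecidableEq Γ]

theorem lm_mono (s : Finset Γ) {f g : (Γ → E) → ENNReal}
    (h : ∀ x, f x ≤ g x) (x : Γ → E) :
    lmarginal (fun _ : Γ => M.π) s f x ≤ lmarginal (fun _ : Γ => M.π) s g x :=
  lintegral_mono fun _ => h _

theorem lm_const_mul (s : Finset Γ) {f : (Γ → E) → ENNReal}
    (hf : Measurable f) (C : ENNReal) (x : Γ → E) :
    lmarginal (fun _ : Γ => M.π) s (fun ω => C * f ω) x =
      C * lmarginal (fun _ : Γ => M.π) s f x :=
  lintegral_const_mul C (hf.comp measurable_updateFinset)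

theorem lm_add (s : Finset Γ) {f g : (Γ → E) → ENNReal} (hf : Measurable f) (x : Γ → E) :
    lmarginal (fun _ : Γ => M.π) s (fun ω => f ω + g ω) x =
      lmarginal (fun _ : Γ => M.π) s f x + lmarginal (fun _ : Γ => M.π) s g x :=
  lintegral_add_left (hf.comp measurable_updateFinset) _

/-- Lower bound of a marginal by the empty contents. -/
theorem le_lm (s : Finset Γ) {f : (Γ → E) → ENNReal}
    (hf : Measurable f) (x : Γ → E) :
    f (fun i => if i ∈ s then M.e0 else x i) ≤ lmarginal (fun _ : Γ => M.π) s f x := by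
  have := M.fin_π
  have h := mul_meas_ge_le_lintegral (μ := Measure.pi fun _ : s => M.π)
    (hf.comp (measurable_updateFinset (x := x) (s := s)))
    (f (fun i => if i ∈ s then M.e0 else x i))
  refine le_trans ?_ h
  have h1 : ({fun _ => M.e0} : Set (s → E)) ⊆ {y | f (fun i => if i ∈ s then M.e0 else x i) ≤
      (f ∘ Function.updateFinset x s) y} := by
    intro y hy
    rw [Set.mem_singleton_iff] at hy
    subst hy
    show f _ ≤ f _
    refine le_of_eq ?_
    congr 1
  have h2 : (1 : ENNReal) ≤ (Measure.pi fun _ : s => M.π)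
      {y | f (fun i => if i ∈ s then M.e0 else x i) ≤ (f ∘ Function.updateFinset x s) y} := by
    refine le_trans ?_ (measure_mono h1)
    rw [← Set.univ_pi_singleton, Measure.pi_pi]
    simp [M.π_e0]
  calc _ = f (fun i => if i ∈ s then M.e0 else x i) * 1 := (mul_one _).symm
    _ ≤ _ := mul_le_mul' le_rfl h2

theorem lm_dep {s : Finset Γ} {f : (Γ → E) → ENNReal}
    (hf : ∀ x y : Γ → E, (∀ i ∈ s, x i = y i) → f x = f y) (x y : Γ → E) :
    lmarginal (fun _ : Γ => M.π) s f x = lmarginal (fun _ : Γ => M.π) s f y := by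
  unfold lmarginal
  refine lintegral_congr fun z => hf _ _ fun i hi => ?_
  rw [Function.updateFinset_def, Function.updateFinset_def]
  simp [hi]

/-- A function depending on fewer coordinates: the other coordinates contribute at least one. -/
theorem lm_le_of_subset {s t : Finset Γ} (hst : s ⊆ t) {f : (Γ → E) → ENNReal} (hf : Measurable f)
    (x : Γ → E) (hdep : ∀ y z : Γ → E, (∀ i ∈ s, y i = z i) → f y = f z) :
    lmarginal (fun _ : Γ => M.π) s f x ≤ lmarginal (fun _ : Γ => M.π) t f x := by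
  have := M.fin_π
  have e : lmarginal (fun _ : Γ => M.π) t f x = lmarginal (fun _ : Γ => M.π) s
      (lmarginal (fun _ : Γ => M.π) (t \ s) f) x := by
    rw [← lmarginal_union _ _ hf disjoint_sdiff, union_sdiff_of_subset hst]
  rw [e]
  refine M.lm_mono s (fun ω => ?_) x
  refine le_trans (le_of_eq ?_) (M.le_lm (t \ s) hf ω)
  refine hdep _ _ fun i hi => ?_
  simp [hi]

theorem lm_one (s : Finset Γ) (x : Γ → E) :
    lmarginal (fun _ : Γ => M.π) s (fun _ => 1) x = M.π Set.univ ^ s.card := by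
  have := M.fin_π
  unfold lmarginal
  rw [lintegral_const, one_mul, Measure.pi_univ, prod_const, card_univ, Fintype.card_coe]

/-- Factorisation. -/
theorem lm_mul {A B : Finset Γ} (hAB : Disjoint A B) {f g : (Γ → E) → ENNReal}
    (hf : Measurable f) (hg : Measurable g) (df : ∀ x y, (∀ i ∈ A, x i = y i) → f x = f y)
    (dg : ∀ x y, (∀ i ∈ B, x i = y i) → g x = g y) (z : Γ → E) :
    lmarginal (fun _ : Γ => M.π) (A ∪ B) (fun ω => f ω * g ω) z =
      lmarginal (fun _ : Γ => M.π) A f z * lmarginal (fun _ : Γ => M.π) B g z := by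
  have := M.fin_π
  rw [lmarginal_union _ (fun ω => f ω * g ω) (hf.mul hg) hAB]
  have e1 : lmarginal (fun _ : Γ => M.π) B (fun ω => f ω * g ω) = fun x =>
      lmarginal (fun _ : Γ => M.π) B g z * f x := by
    funext x
    rw [← M.lm_dep dg x z, mul_comm]
    refine Eq.trans ?_ (lintegral_const_mul (f x)
      (hg.comp (measurable_updateFinset (x := x) (s := B))))
    refine lintegral_congr fun z => ?_
    show f _ * g _ = f x * g _
    congr 1
    refine df _ _ fun i hi => ?_
    rw [Function.updateFinset_def]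
    simp [disjoint_left.1 hAB hi]
  rw [e1, M.lm_const_mul A hf, mul_comm]

/-- A product of functions of the sites. -/
theorem lm_prod (s : Finset Γ) {f : Γ → E → ENNReal} (hf : ∀ i, Measurable (f i)) (x : Γ → E) :
    lmarginal (fun _ : Γ => M.π) s (fun ω => ∏ i ∈ s, f i (ω i)) x = ∏ i ∈ s, ∫⁻ e, f i e ∂M.π := by
  have := M.fin_π
  have hm : ∀ s : Finset Γ, Measurable fun ω : Γ → E => ∏ i ∈ s, f i (ω i) := fun s =>
    Finset.measurable_prod _ fun i _ => (hf i).comp (measurable_pi_apply i)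
  induction s using Finset.induction_on with
  | empty => simp [lmarginal_empty]
  | insert a s ha ih =>
    rw [prod_insert ha, ← ih]
    have h1 : ∫⁻ e, f a e ∂M.π = lmarginal (fun _ : Γ => M.π) {a} (fun ω => f a (ω a)) x := by
      rw [lmarginal_singleton]
      refine lintegral_congr fun e => ?_
      simp
    have hg : Measurable fun ω : Γ → E => f a (ω a) := (hf a).comp (measurable_pi_apply a)
    have h2 := M.lm_mul (disjoint_singleton_left.2 ha) hg (hm s)
      (fun x y h => by rw [h a (mem_singleton_self a)])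
      (fun x y h => prod_congr rfl fun i hi => by rw [h i hi]) x
    rw [h1, ← h2, ← insert_eq]
    congr 1
    funext ω
    rw [prod_insert ha]

end Lm

/-! ### The lattice -/

theorem measurable_w {h : E → ℝ} (hh : Measurable h) (A : Finset (Zd d)) : Measurable (M.w h A) :=
  M.measurable_wG id (fun _ => hh) A

theorem w_dep (h : E → ℝ) (A : Finset (Zd d)) (x y : Zd d → E) (hxy : ∀ i ∈ A, x i = y i) :
    M.w h A x = M.w h A y := M.wG_dep id _ A hxy

theorem w_of_cp {h : E → ℝ} {A : Finset (Zd d)} {ω : Zd d → E} (hc : M.cp id A ω) :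
    M.w h A ω = ∏ i ∈ A, ex (h (ω i)) := M.wG_of_cp id hc

theorem w_of_not {h : E → ℝ} {A : Finset (Zd d)} {ω : Zd d → E} (hc : ¬ M.cp id A ω) :
    M.w h A ω = 0 := M.wG_of_not id hc

/-- Compatibility of all pairs of cells of a finite set of the lattice. -/
theorem cp_id {A : Finset (Zd d)} {ω : Zd d → E} :
    M.cp id A ω ↔ ∀ i ∈ A, ∀ j ∈ A, i ≠ j → M.okc (j - i) (ω i) (ω j) := by
  constructor
  · intro h i hi j hj hij
    by_cases hv : j - i ∈ Qr d M.r
    · have h1 := h (j - i) hv (sub_ne_zero.2 (Ne.symm hij)) i hi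
      simp only [id, add_sub_cancel] at h1
      exact h1 hj
    · exact M.okc_r hv
  · intro h v _ h0 i hi hi2
    have h1 := h i hi (i + id v) hi2 (by
      simp only [id]
      intro h2
      exact h0 (by simpa using h2))
    simp only [id, add_sub_cancel_left] at h1
    exact h1

theorem int_mono (A : Finset (Zd d)) {f g : (Zd d → E) → ENNReal} (h : ∀ x, f x ≤ g x) :
    M.int A f ≤ M.int A g := M.lm_mono A h _

theorem int_const_mul (A : Finset (Zd d)) {f : (Zd d → E) → ENNReal}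
    (hf : Measurable f) (C : ENNReal) : M.int A (fun ω => C * f ω) = C * M.int A f :=
  M.lm_const_mul A hf C _

theorem int_add (A : Finset (Zd d)) {f g : (Zd d → E) → ENNReal} (hf : Measurable f) :
    M.int A (fun ω => f ω + g ω) = M.int A f + M.int A g := M.lm_add A hf _

theorem int_sum {ι : Type} (F : Finset ι) {A : Finset (Zd d)} {f : ι → (Zd d → E) → ENNReal}
    (hf : ∀ j ∈ F, Measurable (f j)) :
    M.int A (fun ω => ∑ j ∈ F, f j ω) = ∑ j ∈ F, M.int A (f j) := by
  unfold int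
  simp only [lmarginal]
  exact lintegral_finsetSum _ fun j hj => (hf j hj).comp measurable_updateFinset

theorem int_mul {A B : Finset (Zd d)} (hAB : Disjoint A B) {f g : (Zd d → E) → ENNReal}
    (hf : Measurable f) (hg : Measurable g) (df : ∀ x y, (∀ i ∈ A, x i = y i) → f x = f y)
    (dg : ∀ x y, (∀ i ∈ B, x i = y i) → g x = g y) :
    M.int (A ∪ B) (fun ω => f ω * g ω) = M.int A f * M.int B g :=
  M.lm_mul hAB hf hg df dg _

/-- A product of functions of the sites. -/
theorem int_prod (A : Finset (Zd d)) {f : Zd d → E → ENNReal} (hf : ∀ i, Measurable (f i)) :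
    M.int A (fun ω => ∏ i ∈ A, f i (ω i)) = ∏ i ∈ A, ∫⁻ e, f i e ∂M.π :=
  M.lm_prod A hf _

variable {M} in
theorem Fld.ex_meas {h : E → ℝ} (hh : M.Fld h) : Measurable fun x => ex (h x) :=
  measurable_ex hh.meas

variable {M} in
theorem Fld.one_le {h : E → ℝ} (hh : M.Fld h) : 1 ≤ ∫⁻ x, ex (h x) ∂M.π := by
  have h1 := mul_meas_ge_le_lintegral (μ := M.π) hh.ex_meas 1
  refine le_trans ?_ h1
  rw [one_mul]
  refine M.π_e0.symm.le.trans (measure_mono fun x hx => ?_)
  rw [Set.mem_singleton_iff] at hx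
  subst hx
  show 1 ≤ ex (h M.e0)
  rw [hh.e0, ex_zero]

theorem one_le_xi {h : E → ℝ} (hh : M.Fld h) (A : Finset (Zd d)) : 1 ≤ M.xi h A := by
  refine le_trans ?_ (M.le_lm A (M.measurable_w hh.meas A) _)
  have hc : M.cp id A (fun i => if i ∈ A then M.e0 else M.e0) := by
    intro v _ _ i _ _
    simp only [ite_self]
    exact M.okc_e0 v _
  rw [M.w_of_cp hc]
  simp [hh.e0, ex_zero]

theorem xi_le {h : E → ℝ} (hh : M.Fld h) (A : Finset (Zd d)) :
    M.xi h A ≤ (∫⁻ x, ex (h x) ∂M.π) ^ A.card := by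
  unfold xi
  calc M.int A (M.w h A) ≤ M.int A (fun ω => ∏ i ∈ A, ex (h (ω i))) :=
        M.int_mono A fun ω => M.wG_le id ω
    _ = _ := by
        rw [M.int_prod A (f := fun _ x => ex (h x)) fun _ => hh.ex_meas, prod_const]

theorem xi_ne_top {h : E → ℝ} (hh : M.Fld h) (A : Finset (Zd d)) : M.xi h A ≠ ⊤ :=
  ne_top_of_le_ne_top (ENNReal.pow_ne_top hh.fin) (M.xi_le hh A)

theorem xi_pos {h : E → ℝ} (hh : M.Fld h) (A : Finset (Zd d)) : 0 < (M.xi h A).toReal :=
  ENNReal.toReal_pos (lt_of_lt_of_le one_pos (M.one_le_xi hh A)).ne' (M.xi_ne_top hh A)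

theorem log_xi_nonneg {h : E → ℝ} (hh : M.Fld h) (A : Finset (Zd d)) :
    0 ≤ Real.log (M.xi h A).toReal := by
  refine Real.log_nonneg ?_
  have := ENNReal.toReal_mono (M.xi_ne_top hh A) (M.one_le_xi hh A)
  simpa using this

theorem xi_eq_ex {h : E → ℝ} (hh : M.Fld h) (A : Finset (Zd d)) :
    ex (Real.log (M.xi h A).toReal) = M.xi h A :=
  ex_log (lt_of_lt_of_le one_pos (M.one_le_xi hh A)).ne' (M.xi_ne_top hh A)

end CG

end Pool.Agent.RC
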