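import Pool.Agent.Lib.MP_09cbbd_rc.CGT
import Pool.Agent.Lib.MP_09cbbd_rc.PCell
import Pool.Agent.Lib.MP_09cbbd_rc.GlueS
import Pool.Agent.Lib.MP_09cbbd_mix.GlueA

/-!
# Gluing a region into the torus
-/

set_option autoImplicit false

namespace Pool.Agent.RC

open MeasureTheory Finset Filter Topology Pool.Agent.StableGas
open Pool.Agent.SquareWell hiding Md cut
open Pool.Agent.Kac (Tor cst)
open Pool.Agent.Mix (Qr mem_Qr)
open Pool.Agent.Kac.TorP (cst_add)

namespace CG

variable {d : ℕ} {E : Type} [MeasurableSpace E] (M : CG d E)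

/-! ### The gas on an index group -/

section Gs

variable {Γ : Type} [AddCommGroup Γ]

/-- The gas on an index group. -/
noncomputable def toGas (φ : Zd d → Γ) (hφ : ∀ v, φ (-v) = -φ v) {h : E → ℝ} (hh : M.Fld h) :
    Gas Γ E where
  π := M.π
  e0 := M.e0
  st := fun _ x => ex (h x)
  nf := fun k i j x y => ∀ v ∈ (Qr d M.r).erase 0, i + φ v = j → M.nf k v x y
  far := fun i j x y => ∀ v ∈ (Qr d M.r).erase 0, i + φ v = j → M.far v x y
  π_fin := M.fin_π
  π_e0 := M.π_e0.symm.le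
  st_meas := fun _ => hh.ex_meas
  st_e0 := fun _ => by rw [hh.e0, ex_zero]
  nf_meas := fun k i j => by
    classical
    have e : {p : E × E | ∀ v ∈ (Qr d M.r).erase 0, i + φ v = j → M.nf k v p.1 p.2} =
        ⋂ v ∈ ((Qr d M.r).erase 0).filter (fun v => i + φ v = j),
          {p : E × E | M.nf k v p.1 p.2} := by
      ext p
      simp only [Set.mem_ofPred_eq, Set.mem_iInter, mem_filter, and_imp]
    rw [e]
    exact Finset.measurableSet_biInter _ fun v _ => M.nf_meas k v
  far_meas := fun i j => by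
    classical
    have e : {p : E × E | ∀ v ∈ (Qr d M.r).erase 0, i + φ v = j → M.far v p.1 p.2} =
        ⋂ v ∈ ((Qr d M.r).erase 0).filter (fun v => i + φ v = j),
          {p : E × E | M.far v p.1 p.2} := by
      ext p
      simp only [Set.mem_ofPred_eq, Set.mem_iInter, mem_filter, and_imp]
    rw [e]
    exact Finset.measurableSet_biInter _ fun v _ => M.far_meas v
  nf_symm := fun k i j x y H v hv hij => by
    have hv' : -v ∈ (Qr d M.r).erase 0 := by
      rw [mem_erase] at hv ⊢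
      exact ⟨neg_ne_zero.2 hv.1, Mix.Bas.Qr_neg.2 hv.2⟩
    have h1 := M.nf_symm k (-v) x y (H (-v) hv' (by rw [hφ, ← hij]; abel))
    rwa [neg_neg] at h1
  far_symm := fun i j x y H v hv hij => by
    have hv' : -v ∈ (Qr d M.r).erase 0 := by
      rw [mem_erase] at hv ⊢
      exact ⟨neg_ne_zero.2 hv.1, Mix.Bas.Qr_neg.2 hv.2⟩
    have h1 := M.far_symm (-v) x y (H (-v) hv' (by rw [hφ, ← hij]; abel))
    rwa [neg_neg] at h1
  nf_anti := fun k i j x y H v hv hij => M.nf_anti k v x y (H v hv hij)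
  nf_e0 := fun k i j y v _ _ => M.nf_e0 k v y
  far_e0 := fun i j y v _ _ => M.far_e0 v y

theorem toGas_ok {φ : Zd d → Γ} {hφ : ∀ v, φ (-v) = -φ v} {h : E → ℝ} {hh : M.Fld h}
    (hφ0 : ∀ v ∈ Qr d M.r, φ v = 0 → v = 0) (A : Finset Γ) (ω : Γ → E) :
    (M.toGas φ hφ hh).ok A ω ↔ M.cp φ A ω := by
  constructor
  · intro H v hv h0 i hi hi2
    have hne : i ≠ i + φ v := by
      intro h1
      exact h0 (hφ0 v hv (by simpa using h1.symm))
    have h1 := H i hi (i + φ v) hi2 hne
    exact ⟨h1.1 v (mem_erase.2 ⟨h0, hv⟩) rfl, h1.2 v (mem_erase.2 ⟨h0, hv⟩) rfl⟩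
  · intro H i hi j hj _
    constructor
    · intro v hv hij
      have h1 := H v (mem_erase.1 hv).2 (mem_erase.1 hv).1 i hi (by rw [hij]; exact hj)
      rw [hij] at h1
      exact h1.1
    · intro v hv hij
      have h1 := H v (mem_erase.1 hv).2 (mem_erase.1 hv).1 i hi (by rw [hij]; exact hj)
      rw [hij] at h1
      exact h1.2

theorem toGas_w {φ : Zd d → Γ} {hφ : ∀ v, φ (-v) = -φ v} {h : E → ℝ} {hh : M.Fld h}
    (hφ0 : ∀ v ∈ Qr d M.r, φ v = 0 → v = 0) (A : Finset Γ) (ω : Γ → E) :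
    (M.toGas φ hφ hh).w A ω = M.wG φ (fun _ => h) A ω := by
  by_cases hc : M.cp φ A ω
  · rw [M.wG_of_cp φ hc, Gas.w_of_ok _ ((M.toGas_ok hφ0 A ω).2 hc)]
    rfl
  · rw [M.wG_of_not φ hc, Gas.w_of_not _ fun h1 => hc ((M.toGas_ok hφ0 A ω).1 h1)]

/-- The shift inequality on an index group. -/
noncomputable def toShf [DecidableEq Γ] (φ : Zd d → Γ) (hφ : ∀ v, φ (-v) = -φ v) {h : E → ℝ}
    (hh : M.Fld h) {RA Cl : Set E} {c : ENNReal} (hc : c ≠ ⊤) (hRA : MeasurableSet RA)
    (hCl : MeasurableSet Cl) (e0_Cl : M.e0 ∈ Cl) (Cl_RA : Cl ⊆ RA) (hSH : M.SH h RA Cl c) :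
    Shf (M.toGas φ hφ hh) where
  RA := RA
  Cl := Cl
  rg := fun i => (Qr d M.r).image fun v => i + φ v
  nr := fun i => (Qr d M.q).image fun v => i + φ v
  c := c
  c_ne := hc
  RA_meas := hRA
  Cl_meas := hCl
  e0_meas := M.e0_meas
  e0_Cl := e0_Cl
  Cl_RA := Cl_RA
  far_rg := fun i j x y hj v hv hij =>
    absurd (mem_image.2 ⟨v, (mem_erase.1 hv).2, hij⟩) hj
  nf_nr := fun k i j x y hk hj v _ hij =>
    M.nf_r k v x y hk fun h1 => hj (mem_image.2 ⟨v, h1, hij⟩)
  rg_symm := fun i j hj => by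
    obtain ⟨v, hv, rfl⟩ := mem_image.1 hj
    exact mem_image.2 ⟨-v, Mix.Bas.Qr_neg.2 hv, by rw [hφ]; abel⟩
  nr_symm := fun i j hj => by
    obtain ⟨v, hv, rfl⟩ := mem_image.1 hj
    exact mem_image.2 ⟨-v, Mix.Bas.Qr_neg.2 hv, by rw [hφ]; abel⟩
  SH := by
    intro j S1 S2 k y _ _ hk hRA' hnr
    have h1 := hSH (((Qr d M.r).erase 0).filter fun v => j + φ v ∈ S1)
      (((Qr d M.r).erase 0).filter fun v => j + φ v ∈ S2) (fun v => k (j + φ v))
      (fun v => y (j + φ v)) (filter_subset _ _) (filter_subset _ _)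
      (fun v hv => hk _ (mem_filter.1 hv).2)
      (fun v hv => by
        rcases mem_union.1 hv with h2 | h2
        · rw [mem_filter, mem_erase] at h2
          exact hRA' _ (mem_union_left _ h2.2) (mem_image.2 ⟨v, h2.1.2, rfl⟩)
        · rw [mem_filter, mem_erase] at h2
          exact hRA' _ (mem_union_right _ h2.2) (mem_image.2 ⟨v, h2.1.2, rfl⟩))
      (fun v hv h2 => hnr _ (mem_filter.1 hv).2 (mem_image.2 ⟨v, h2, rfl⟩))
    have e1 : {x | ∀ l ∈ S1, (M.toGas φ hφ hh).far j l x (y l) ∧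
        (M.toGas φ hφ hh).nf (k l + 1) j l x (y l)} =
        {x | ∀ v ∈ ((Qr d M.r).erase 0).filter (fun v => j + φ v ∈ S1),
          M.far v x (y (j + φ v)) ∧ M.nf (k (j + φ v) + 1) v x (y (j + φ v))} := by
      ext x
      constructor
      · intro H v hv
        rw [mem_filter] at hv
        have h2 := H _ hv.2
        exact ⟨h2.1 v hv.1 rfl, h2.2 v hv.1 rfl⟩
      · intro H l hl
        constructor
        · intro v hv hjl
          have h2 := H v (mem_filter.2 ⟨hv, by rw [hjl]; exact hl⟩)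
          rw [hjl] at h2
          exact h2.1
        · intro v hv hjl
          have h2 := H v (mem_filter.2 ⟨hv, by rw [hjl]; exact hl⟩)
          rw [hjl] at h2
          exact h2.2
    have e2 : {x | (∀ l ∈ S1, (M.toGas φ hφ hh).far j l x (y l) ∧
        (M.toGas φ hφ hh).nf (k l) j l x (y l)) ∧
          ∀ l ∈ S2, (M.toGas φ hφ hh).far j l x (y l)} =
        {x | (∀ v ∈ ((Qr d M.r).erase 0).filter (fun v => j + φ v ∈ S1),
          M.far v x (y (j + φ v)) ∧ M.nf (k (j + φ v)) v x (y (j + φ v))) ∧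
          ∀ v ∈ ((Qr d M.r).erase 0).filter (fun v => j + φ v ∈ S2),
            M.far v x (y (j + φ v))} := by
      ext x
      constructor
      · intro H
        constructor
        · intro v hv
          rw [mem_filter] at hv
          have h2 := H.1 _ hv.2
          exact ⟨h2.1 v hv.1 rfl, h2.2 v hv.1 rfl⟩
        · intro v hv
          rw [mem_filter] at hv
          exact H.2 _ hv.2 v hv.1 rfl
      · intro H
        constructor
        · intro l hl
          constructor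
          · intro v hv hjl
            have h2 := H.1 v (mem_filter.2 ⟨hv, by rw [hjl]; exact hl⟩)
            rw [hjl] at h2
            exact h2.1
          · intro v hv hjl
            have h2 := H.1 v (mem_filter.2 ⟨hv, by rw [hjl]; exact hl⟩)
            rw [hjl] at h2
            exact h2.2
        · intro l hl v hv hjl
          have h2 := H.2 v (mem_filter.2 ⟨hv, by rw [hjl]; exact hl⟩)
          rw [hjl] at h2
          exact h2
    rw [e1, e2]
    exact h1

end Gs

/-! ### The layers -/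

theorem mem_LI {s : ℕ} {X : Finset (Zd d)} {i : Zd d} :
    i ∈ LI s X ↔ i ∈ X ∧ ∃ j, j ∉ X ∧ j - i ∈ Qr d s := by
  classical
  unfold LI
  rw [mem_filter]

theorem mem_LO {s : ℕ} {X : Finset (Zd d)} {j : Zd d} :
    j ∈ LO s X ↔ j ∉ X ∧ ∃ i ∈ X, j - i ∈ Qr d s := by
  classical
  unfold LO
  rw [Finset.mem_sdiff, mem_biUnion, and_comm]
  refine and_congr_right fun _ => ⟨?_, ?_⟩
  · rintro ⟨i, hi, h1⟩
    obtain ⟨v, hv, rfl⟩ := mem_image.1 h1
    exact ⟨i, hi, by rw [add_sub_cancel_left]; exact hv⟩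
  · rintro ⟨i, hi, hv⟩
    exact ⟨i, hi, mem_image.2 ⟨j - i, hv, by abel⟩⟩

theorem LI_mono {s t : ℕ} (hst : s ≤ t) (X : Finset (Zd d)) : LI s X ⊆ LI t X := by
  intro i hi
  rw [mem_LI] at hi ⊢
  obtain ⟨h1, j, hj, h2⟩ := hi
  exact ⟨h1, j, hj, Mix.Bas.Qr_mono hst h2⟩

theorem measurableSet_Un {S : Set E} (hS : MeasurableSet S) (X : Finset (Zd d)) (i : Zd d) :
    MeasurableSet {ω : Zd d → E | M.Un S X ω i} := by
  classical
  have e : {ω : Zd d → E | M.Un S X ω i} = {ω : Zd d → E | ω i ∈ ({M.e0} : Set E)}ᶜ ∩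
      ({ω : Zd d → E | ω i ∈ S}ᶜ ∪ ⋃ l ∈ X.erase i,
        {ω : Zd d → E | M.nf 2 (l - i) (ω i) (ω l)}ᶜ) := by
    ext ω
    simp only [Un, Set.mem_ofPred_eq, Set.mem_union, Set.mem_compl_iff, Set.mem_iUnion, mem_erase,
      exists_prop, Set.mem_inter_iff, Set.mem_singleton_iff]
    refine and_congr_right fun _ => or_congr_right ?_
    constructor
    · rintro ⟨l, h1, h2, h3⟩
      exact ⟨l, ⟨h2, h1⟩, h3⟩
    · rintro ⟨l, ⟨h2, h1⟩, h3⟩
      exact ⟨l, h1, h2, h3⟩
  rw [e]
  have h : Measurable fun ω : Zd d → E => ω i := measurable_pi_apply i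
  refine MeasurableSet.inter (h M.e0_meas).compl (MeasurableSet.union (h hS).compl
    (Finset.measurableSet_biUnion _ fun l _ => MeasurableSet.compl ?_))
  have h : Measurable fun ω : Zd d → E => (ω i, ω l) :=
    (measurable_pi_apply i).prodMk (measurable_pi_apply l)
  exact h (M.nf_meas 2 (l - i))

theorem measurable_un {S : Set E} (hS : MeasurableSet S) (X T : Finset (Zd d)) (κ : ℝ) :
    Measurable fun ω : Zd d → E => ex (-(κ * M.un S X T ω)) := by
  classical
  have e : (fun ω : Zd d → E => ex (-(κ * M.un S X T ω))) = fun ω => ∏ i ∈ T,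
      if M.Un S X ω i then ex (-κ) else 1 := by
    funext ω
    rw [prod_ite, prod_const_one, mul_one, prod_const, ex_pow]
    congr 1
    unfold un
    ring
  rw [e]
  exact Finset.measurable_prod _ fun i _ =>
    Measurable.ite (M.measurableSet_Un hS X i) measurable_const measurable_const

theorem Un_dep {S : Set E} {X : Finset (Zd d)} {x y : Zd d → E} (hxy : ∀ i ∈ X, x i = y i)
    {i : Zd d} (hi : i ∈ X) : M.Un S X x i ↔ M.Un S X y i := by
  unfold Un
  rw [hxy i hi]
  refine and_congr_right fun _ => or_congr_right ⟨?_, ?_⟩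
  · rintro ⟨l, h1, h2, h3⟩
    exact ⟨l, h1, h2, by rw [← hxy l h1]; exact h3⟩
  · rintro ⟨l, h1, h2, h3⟩
    exact ⟨l, h1, h2, by rw [hxy l h1]; exact h3⟩

theorem un_dep {S : Set E} {X T : Finset (Zd d)} (hT : T ⊆ X) {x y : Zd d → E}
    (hxy : ∀ i ∈ X, x i = y i) : M.un S X T x = M.un S X T y := by
  classical
  unfold un
  congr 1
  exact filter_congr fun i hi => M.Un_dep hxy (hT hi)

/-! ### Gluing into the torus -/

theorem cst_neg (L : ℕ) (v : Zd d) : cst L (-v) = -cst L v := by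
  funext k
  simp [cst]

theorem ex_inv (κ : ℝ) : (ex κ)⁻¹ = ex (-κ) :=
  (ENNReal.eq_inv_of_mul_eq_one_left (by rw [← ex_add, neg_add_cancel, ex_zero])).symm

theorem ex_log_two : ex (Real.log 2) = 2 := by
  unfold ex
  rw [Real.exp_log two_pos]
  simp

theorem ST_mul (L : ℕ) {h f : E → ℝ} (hh : M.Fld h) (hf : Measurable f) {s : ℝ} (hs : 0 ≤ s) :
    M.ST L h (fun x => s * f x) = ENNReal.ofReal s * M.ST L h f := by
  unfold ST
  have hWm : Measurable (M.wG (cst L) (fun _ => h) univ) :=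
    M.measurable_wG (cst L) (fun _ => hh.meas) univ
  have hVm : Measurable fun ω : Tor d L → E => M.wG (cst L) (fun _ => h) univ ω *
      ENNReal.ofReal (∑ i, f (ω i)) := hWm.mul (measurable_ofsum hf)
  rw [← lintegral_const_mul _ hVm]
  refine lintegral_congr fun ω => ?_
  rw [← mul_sum, ENNReal.ofReal_mul hs]
  ring

theorem alg1 {a b c e : ℝ} (ha : a ≠ 0) : (a * b - c * e) / a = b - c / a * e := by
  field_simp

theorem alg2 {a b : ℝ} (ha : a ≠ 0) (hb : b ≠ 0) : b / a * (a / b) = 1 := by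
  field_simp

theorem alg3 {V y lz κ ρ D : ℝ} (ha : V - y ≠ 0) (hb : V ≠ 0) :
    lz * ((V - y) / V) - κ * ρ * D = (-(κ * D / (V - y) * ρ * V) + lz) * ((V - y) / V) := by
  field_simp
  ring

theorem alg4 {V y lz : ℝ} (hb : V ≠ 0) : lz - lz * ((V - y) / V) = y * (lz / V) := by
  field_simp
  ring

theorem gl_torus (L : ℕ) (X : Finset (Zd d)) (hX : ∀ i ∈ X, ∀ k, |i k| + 2 * M.r ≤ L)
    (hr : 2 * M.r ≤ L) (hL : X.card < (2 * L + 1) ^ d) {S : Set E} (hS : MeasurableSet S)
    {h : E → ℝ} (hh : M.Fld h) {γ κ ρ : ℝ} (hγ : 0 ≤ γ)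
    (hSH : M.SH h (insert M.e0 S) (insert M.e0 S) (ex (-γ)))
    (hκ0 : 0 ≤ κ) (hκ : ∫⁻ x, ex (h x) ∂M.π ≤ ex κ) (hρ : 0 ≤ ρ)
    (hden : M.ST L h ((insert M.e0 S)ᶜ.indicator 1) ≤
      ENNReal.ofReal (ρ * (2 * L + 1 : ℝ) ^ d) * M.ZT L h) :
    M.int X (fun ω => M.w h X ω * ex (-(κ * M.un S X (LI (2 * M.r) X) ω))) ≤
      ex (X.card * (Real.log (M.ZT L h).toReal / (2 * L + 1 : ℝ) ^ d) +
        κ * ρ * (LO (2 * M.r) X).card + κ * (LI M.q X).card +
        (Real.log 2 + γ) * ((LI (2 * M.r) X).card + (LO (2 * M.r) X).card)) := by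
  classical
  have := M.fin_π
  set Cl : Set E := insert M.e0 S with hCl
  have hClm : MeasurableSet Cl := M.e0_meas.union hS
  have hφ : ∀ v : Zd d, cst L (-v) = -cst L v := cst_neg L
  have hφ0 : ∀ v ∈ Qr d M.r, cst L v = 0 → v = 0 := by
    intro v hv h0
    rw [mem_Qr] at hv
    have h1 : cst L v = cst L 0 := by
      rw [h0]
      funext k
      simp [cst]
    exact Kac.TorP.cst_inj h1 fun k => by
      have := hv k
      simp only [Pi.zero_apply, sub_zero]
      omega
  set N := M.toShf (cst L) hφ hh (RA := Cl) (Cl := Cl) (c := ex (-γ)) (ex_ne_top _) hClm hClm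
    (Set.mem_insert _ _) subset_rfl hSH with hN
  set Y : Finset (Tor d L) := X.image (cst L) with hY
  set Z : Finset (Tor d L) := univ \ Y with hZ
  have hYZ : Disjoint Y Z := disjoint_sdiff
  have hYZu : Y ∪ Z = univ := union_sdiff_of_subset (subset_univ Y)
  -- injectivity
  have hinj : ∀ x ∈ X, ∀ v ∈ Qr d (2 * M.r), ∀ y ∈ X, cst L (x + v) = cst L y → x + v = y := by
    intro x hx v hv y hy h1
    rw [mem_Qr] at hv
    refine Kac.TorP.cst_inj h1 fun k => ?_
    have h2 := hX x hx k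
    have h3 := hX y hy k
    have h4 := hv k
    push_cast at h4
    rw [Pi.add_apply, abs_le]
    have h5 := abs_le.1 (show |x k| ≤ L - 2 * M.r by omega)
    have h6 := abs_le.1 (show |y k| ≤ L - 2 * M.r by omega)
    have h7 := abs_le.1 h4
    constructor <;> omega
  have hXL : ∀ i ∈ X, ∀ k, |i k| ≤ L := fun i hi k => by
    have := hX i hi k
    omega
  have hinjX : ∀ x ∈ X, ∀ y ∈ X, cst L x = cst L y → x = y := by
    intro x hx y hy h1
    have := hinj x hx 0 (Mix.Bas.zero_mem_Qr _) y hy (by rw [add_zero]; exact h1)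
    rwa [add_zero] at this
  have hYc : Y.card = X.card := card_image_of_injOn fun i hi j hj h => hinjX i hi j hj h
  have hq2 : M.q ≤ 2 * M.r := by have := M.hq; omega
  -- the layers
  have out : ∀ x ∈ X, ∀ v : Zd d, cst L x + cst L v ∈ Z → x + v ∉ X := by
    intro x _ v h1 h2
    rw [← cst_add] at h1
    exact (Finset.mem_sdiff.1 h1).2 (mem_image_of_mem _ h2)
  have hNN : N.NN Y Z ⊆ (LI M.q X).image (cst L) := by
    intro i hi
    obtain ⟨h1, h2⟩ := N.mem_NN.1 hi
    obtain ⟨x, hx, rfl⟩ := mem_image.1 h1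
    obtain ⟨l, hl⟩ := h2
    obtain ⟨h3, h4⟩ := mem_inter.1 hl
    obtain ⟨v, hv, rfl⟩ := mem_image.1 h3
    refine mem_image_of_mem _ (mem_LI.2 ⟨hx, x + v, out x hx v h4, ?_⟩)
    rw [add_sub_cancel_left]
    exact hv
  have hJJ : N.JJ Y Z ⊆ (LI (2 * M.r) X).image (cst L) := by
    intro i hi
    obtain ⟨h1, _, h2⟩ := N.mem_JJ.1 hi
    obtain ⟨x, hx, rfl⟩ := mem_image.1 h1
    obtain ⟨l, hl⟩ := h2
    obtain ⟨h3, h4⟩ := mem_inter.1 hl
    obtain ⟨v, hv, rfl⟩ := mem_image.1 h3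
    refine mem_image_of_mem _ (mem_LI.2 ⟨hx, x + v, out x hx v h4, ?_⟩)
    rw [add_sub_cancel_left]
    exact Mix.Bas.Qr_mono (by omega) hv
  have hLLY : ∀ i ∈ N.LL Y Z, i ∈ Y → i ∈ (LI (2 * M.r) X).image (cst L) := by
    intro i hi hiY
    obtain ⟨_, l, hl⟩ := N.mem_LL.1 hi
    obtain ⟨h3, h4⟩ := mem_inter.1 hl
    obtain ⟨u, hu, rfl⟩ := mem_image.1 h3
    obtain ⟨x, hx, rfl⟩ := mem_image.1 hiY
    obtain ⟨_, _, h2⟩ := N.mem_JJ.1 h4
    obtain ⟨l', hl'⟩ := h2
    obtain ⟨h5, h6⟩ := mem_inter.1 hl'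
    obtain ⟨v, hv, rfl⟩ := mem_image.1 h5
    have h7 : x + (u + v) ∉ X := out x hx (u + v) (by
      rw [cst_add, ← add_assoc]
      exact h6)
    refine mem_image_of_mem _ (mem_LI.2 ⟨hx, x + (u + v), h7, ?_⟩)
    rw [add_sub_cancel_left, two_mul]
    exact Mix.Bas.add_mem_Qr hu hv
  set D : Finset (Tor d L) := (N.LL Y Z).filter fun l => l ∈ Z with hD
  have hDZ : D ⊆ Z := fun l hl => (mem_filter.1 hl).2
  have hDc : D.card ≤ (LO (2 * M.r) X).card := by
    refine (card_le_card (t := (LO (2 * M.r) X).image (cst L)) ?_).trans card_image_le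
    intro i hi
    obtain ⟨h1, h2⟩ := mem_filter.1 hi
    obtain ⟨_, l, hl⟩ := N.mem_LL.1 h1
    obtain ⟨h3, h4⟩ := mem_inter.1 hl
    obtain ⟨u, hu, rfl⟩ := mem_image.1 h3
    obtain ⟨h5, _⟩ := N.mem_JJ.1 h4
    obtain ⟨x, hx, h6⟩ := mem_image.1 h5
    have h7 : i = cst L (x + -u) := by
      rw [cst_add, cst_neg, h6]
      abel
    rw [h7]
    refine mem_image_of_mem _ (mem_LO.2 ⟨?_, x, hx, ?_⟩)
    · have h8 : cst L x + cst L (-u) ∈ Z := by rw [← cst_add, ← h7]; exact h2
      exact out x hx (-u) h8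
    · rw [add_sub_cancel_left, Mix.Bas.Qr_neg]
      exact Mix.Bas.Qr_mono (by omega) hu
  have hlay : (N.lay Y Z).card ≤ (LI (2 * M.r) X).card + (LO (2 * M.r) X).card := by
    refine (card_le_card (t := (LI (2 * M.r) X).image (cst L) ∪ D) ?_).trans
      ((card_union_le _ _).trans (add_le_add card_image_le hDc))
    intro i hi
    unfold Shf.lay at hi
    rw [mem_union, mem_union] at hi
    rw [mem_union]
    rcases hi with (h1 | h1) | h1
    · obtain ⟨x, hx, rfl⟩ := mem_image.1 (hNN h1)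
      exact Or.inl (mem_image_of_mem _ (LI_mono hq2 X hx))
    · exact Or.inl (hJJ h1)
    · by_cases h2 : i ∈ Y
      · exact Or.inl (hLLY i h1 h2)
      · exact Or.inr (mem_filter.2 ⟨h1, Finset.mem_sdiff.2 ⟨mem_univ _, h2⟩⟩)
  -- the bad cells
  have hBd : ∀ ω : Tor d L → E, ((N.Bd Y Z ω).card : ℝ) ≤ (LI M.q X).card +
      M.un S X (LI (2 * M.r) X) (fun i => ω (cst L i)) +
      (D.filter fun j => ω j ∉ Cl).card := by
    intro ω
    have h1 : N.Bd Y Z ω ⊆ (LI M.q X).image (cst L) ∪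
        (((LI (2 * M.r) X).filter fun i => M.Un S X (fun i => ω (cst L i)) i).image (cst L)) ∪
        (D.filter fun j => ω j ∉ Cl) := by
      intro i hi
      have hb := N.mem_Bd.1 hi
      rw [mem_union, mem_union]
      -- a content outside `Cl`
      have hout : ∀ x, ω (cst L x) ∉ Cl → M.Un S X (fun i => ω (cst L i)) x := by
        intro x hx
        refine ⟨fun h1 => hx ?_, Or.inl fun h1 => hx (Set.mem_insert_of_mem _ h1)⟩
        have h1' : ω (cst L x) = M.e0 := h1
        rw [h1']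
        exact Set.mem_insert _ _
      rcases hb with ⟨h1, _⟩ | ⟨h1, h2⟩ | ⟨h1, h2⟩
      · exact Or.inl (Or.inl (hNN h1))
      · refine Or.inl (Or.inr ?_)
        obtain ⟨x, hx, rfl⟩ := mem_image.1 (hJJ h1)
        refine mem_image_of_mem _ (mem_filter.2 ⟨hx, ?_⟩)
        rcases h2 with h2 | ⟨l, hl, hli, h2⟩
        · exact hout x h2
        · obtain ⟨y, hy, rfl⟩ := mem_image.1 hl
          have hxX := (mem_LI.1 hx).1
          have h3 : ∃ v ∈ (Qr d M.r).erase 0, cst L x + cst L v = cst L y ∧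
              ¬ M.nf 2 v (ω (cst L x)) (ω (cst L y)) := by
            by_contra hcon
            push Not at hcon
            exact h2 fun v hv h4 => hcon v hv h4
          obtain ⟨v, hv, h4, h5⟩ := h3
          rw [← cst_add] at h4
          have h6 := hinj x hxX v (Mix.Bas.Qr_mono (by omega) (mem_erase.1 hv).2) y hy h4
          have h7 : v = y - x := by rw [← h6]; abel
          subst h7
          have h8 : y ≠ x := fun h9 => (mem_erase.1 hv).1 (by rw [h9, sub_self])
          refine ⟨?_, Or.inr ⟨y, hy, h8, h5⟩⟩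
          intro h9
          have h9' : ω (cst L x) = M.e0 := h9
          rw [h9'] at h5
          exact h5 (M.nf_e0 2 _ _)
      · by_cases h3 : i ∈ Y
        · refine Or.inl (Or.inr ?_)
          obtain ⟨x, hx, rfl⟩ := mem_image.1 (hLLY i h1 h3)
          exact mem_image_of_mem _ (mem_filter.2 ⟨hx, hout x h2⟩)
        · exact Or.inr (mem_filter.2 ⟨mem_filter.2 ⟨h1, Finset.mem_sdiff.2 ⟨mem_univ _, h3⟩⟩, h2⟩)
    have h2 : (N.Bd Y Z ω).card ≤ (LI M.q X).card +
        M.un S X (LI (2 * M.r) X) (fun i => ω (cst L i)) +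
        (D.filter fun j => ω j ∉ Cl).card := by
      refine (card_le_card h1).trans ((card_union_le _ _).trans (add_le_add
        ((card_union_le _ _).trans (add_le_add card_image_le ?_)) le_rfl))
      refine card_image_le.trans (le_of_eq ?_)
      unfold un
      congr 1
    exact_mod_cast h2
  -- the functions
  set G : (Zd d → E) → ENNReal := fun ω => M.w h X ω *
    ex (-(κ * M.un S X (LI (2 * M.r) X) ω)) with hG
  have hGm : Measurable G := (M.measurable_w hh.meas X).mul (M.measurable_un hS X _ κ)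
  have hGd : ∀ x y : Zd d → E, (∀ i ∈ X, x i = y i) → G x = G y := by
    intro x y hxy
    simp only [hG]
    rw [M.w_dep h X x y hxy, M.un_dep (fun i hi => (mem_LI.1 hi).1) hxy]
  have htr := M.transfer Kac.Gl.vm_inj (B := X) (fun i hi => Kac.Gl.vm_cst (hXL i hi)) hGm hGd
  have hG1m : Measurable fun ω : Tor d L → E => G fun i => ω (cst L i) :=
    hGm.comp (measurable_pi_iff.2 fun i => measurable_pi_apply _)
  have hG1d : ∀ x y : Tor d L → E, (∀ i ∈ Y, x i = y i) →
      (fun ω : Tor d L → E => G fun i => ω (cst L i)) x =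
      (fun ω : Tor d L → E => G fun i => ω (cst L i)) y := by
    intro x y hxy
    exact hGd _ _ fun i hi => hxy _ (mem_image_of_mem _ hi)
  set f : E → ℝ := Clᶜ.indicator 1 with hf
  have hfm : Measurable f := measurable_one.indicator hClm.compl
  have hf0 : ∀ x, 0 ≤ f x := fun x => Set.indicator_nonneg (fun _ _ => zero_le_one) x
  set g : Tor d L → E → ℝ := fun j x => h x + (if j ∈ D then -κ else 0) * f x with hg
  have hgm : ∀ j, Measurable (g j) := fun j => hh.meas.add (hfm.const_mul _)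
  have hWm : Measurable (M.wG (cst L) g Z) := M.measurable_wG (cst L) hgm Z
  -- the weights of the two parts
  have hwY : ∀ ω : Tor d L → E, M.w h X (fun i => ω (cst L i)) ≤
      (M.toGas (cst L) hφ hh).w Y ω := by
    intro ω
    rw [M.toGas_w hφ0]
    by_cases hc : M.cp id X fun i => ω (cst L i)
    · have hc' : M.cp (cst L) Y ω := by
        intro v hv h0 i hi hi2
        obtain ⟨x, hx, rfl⟩ := mem_image.1 hi
        obtain ⟨y, hy, hy2⟩ := mem_image.1 hi2
        have h1 : x + v = y := hinj x hx v (Mix.Bas.Qr_mono (by omega) hv) y hy (by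
          rw [cst_add, hy2])
        have h2 := hc v hv h0 x hx (show x + id v ∈ X by simp only [id]; rw [h1]; exact hy)
        simp only [id] at h2
        rw [cst_add] at h2
        exact h2
      rw [M.w_of_cp hc, M.wG_of_cp _ hc', prod_image fun i hi j hj h => hinjX i hi j hj h]
    · rw [M.w_of_not hc]
      exact zero_le
  have hwZ : ∀ ω : Tor d L → E, M.wG (cst L) g Z ω = (M.toGas (cst L) hφ hh).w Z ω *
      ex (-(κ * (D.filter fun j => ω j ∉ Cl).card)) := by
    intro ω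
    rw [M.toGas_w hφ0]
    have h1 := M.wG_add (cst L) (fun _ => h) (fun j x => (if j ∈ D then -κ else 0) * f x) Z ω
    rw [h1]
    congr 2
    have h2 : ∀ j ∈ Z, (if j ∈ D then -κ else 0) * f (ω j) =
        if j ∈ D.filter (fun j => ω j ∉ Cl) then -κ else 0 := by
      intro j _
      by_cases hj : j ∈ D
      · by_cases hj2 : ω j ∈ Cl
        · have : f (ω j) = 0 := Set.indicator_of_notMem (Set.notMem_compl_iff.2 hj2) _
          simp [hj, hj2, this]
        · have : f (ω j) = 1 := Set.indicator_of_mem (show ω j ∈ Clᶜ from hj2) _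
          simp [hj, hj2, this]
      · simp [hj]
    rw [sum_congr rfl h2, sum_ite, sum_const_zero, add_zero, sum_const, nsmul_eq_mul]
    have h3 : Z.filter (fun j => j ∈ D.filter (fun j => ω j ∉ Cl)) =
        D.filter (fun j => ω j ∉ Cl) := by
      ext j
      rw [mem_filter]
      exact ⟨fun h => h.2, fun h => ⟨hDZ (mem_filter.1 h).1, h⟩⟩
    rw [h3]
    ring
  -- the pointwise inequality
  have hpt : ∀ ω : Tor d L → E, ex (-(κ * (LI M.q X).card)) *
      ((G fun i => ω (cst L i)) * M.wG (cst L) g Z ω) ≤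
      (M.toGas (cst L) hφ hh).w Y ω * (M.toGas (cst L) hφ hh).w Z ω *
        (ex κ)⁻¹ ^ (N.Bd Y Z ω).card := by
    intro ω
    rw [hwZ, ex_inv, ex_pow]
    simp only [hG]
    have h1 : ex (-(κ * (LI M.q X).card)) *
        (M.w h X (fun i => ω (cst L i)) *
          ex (-(κ * M.un S X (LI (2 * M.r) X) (fun i => ω (cst L i)))) *
          ((M.toGas (cst L) hφ hh).w Z ω * ex (-(κ * (D.filter fun j => ω j ∉ Cl).card)))) =
        M.w h X (fun i => ω (cst L i)) * (M.toGas (cst L) hφ hh).w Z ω *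
          (ex (-(κ * (LI M.q X).card)) *
          ex (-(κ * M.un S X (LI (2 * M.r) X) (fun i => ω (cst L i)))) *
          ex (-(κ * (D.filter fun j => ω j ∉ Cl).card))) := by ring
    rw [h1, ← ex_add, ← ex_add]
    refine mul_le_mul' (mul_le_mul' (hwY ω) le_rfl) (ex_le_ex.2 ?_)
    have h2 := mul_le_mul_of_nonneg_left (hBd ω) hκ0
    linarith
  -- integration
  have hint : ex (-(κ * (LI M.q X).card)) * (M.int X G * M.ZC L Y g) ≤
      lmarginal (fun _ : Tor d L => M.π) (Y ∪ Z) (fun ω => (M.toGas (cst L) hφ hh).w Y ω *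
        (M.toGas (cst L) hφ hh).w Z ω * (ex κ)⁻¹ ^ (N.Bd Y Z ω).card) (fun _ => M.e0) := by
    have h1 : M.int X G * M.ZC L Y g = lmarginal (fun _ : Tor d L => M.π) (Y ∪ Z)
        (fun ω => (G fun i => ω (cst L i)) * M.wG (cst L) g Z ω) (fun _ => M.e0) := by
      rw [M.lm_mul hYZ hG1m hWm hG1d (fun x y hxy => M.wG_dep (cst L) g Z hxy), htr]
      rfl
    have h2 : Measurable fun ω : Tor d L → E => (G fun i => ω (cst L i)) *
        M.wG (cst L) g Z ω := hG1m.mul hWm
    rw [h1, ← M.lm_const_mul (Y ∪ Z) h2]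
    exact M.lm_mono _ hpt _
  have hglue := N.glue hYZ (K := ex κ) (ex_ne_zero κ) (ex_ne_top κ) (fun _ => hκ) (fun _ => M.e0)
  have hZT : lmarginal (fun _ : Tor d L => M.π) (Y ∪ Z) ((M.toGas (cst L) hφ hh).w (Y ∪ Z))
      (fun _ => M.e0) = M.ZT L h := by
    rw [hYZu]
    unfold ZT
    rw [lintegral_eq_lmarginal_univ (fun _ => M.e0)]
    congr 1
    funext ω
    exact M.toGas_w hφ0 univ ω
  -- the lower bound of the other factor
  set V : ℝ := (2 * L + 1 : ℝ) ^ d with hV
  have hV0 : 0 < V := by rw [hV]; positivity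
  have hYV : (Y.card : ℝ) < V := by
    rw [hYc, hV]
    exact_mod_cast hL
  have hVY : 0 < V - Y.card := by linarith
  set lz : ℝ := Real.log (M.ZT L h).toReal with hlz
  have hlz0 : M.ZT L h = ex lz := (M.ZT_eq_ex L hh).symm
  have hZC : ex (lz * ((V - Y.card) / V) - κ * ρ * D.card) ≤ M.ZC L Y g := by
    set s : ℝ := κ * D.card / (V - Y.card) with hs
    have hs0 : 0 ≤ s := div_nonneg (mul_nonneg hκ0 (Nat.cast_nonneg _)) hVY.le
    have h1 := M.torus_lower L Y (by rw [hYc]; exact hL) hgm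
    have e1 : (fun x => (∑ j ∈ univ \ Y, g j x) / ((2 * L + 1 : ℝ) ^ d - Y.card)) =
        fun x => h x - s * f x := by
      funext x
      have h2 : ((univ \ Y).card : ℝ) = V - Y.card := by
        rw [card_sdiff_of_subset (subset_univ Y), card_univ, Fintype.card_fun, ZMod.card,
          Fintype.card_fin, Nat.cast_sub (by rw [hYc]; exact hL.le), hV]
        push_cast
        ring
      have h3 : ∑ j ∈ univ \ Y, g j x = (V - Y.card) * h x - κ * D.card * f x := by
        simp only [hg]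
        rw [sum_add_distrib, sum_const, nsmul_eq_mul, h2, ← sum_mul, sum_ite, sum_const_zero,
          add_zero, sum_const, nsmul_eq_mul]
        have h4 : (univ \ Y).filter (fun j => j ∈ D) = D := by
          ext j
          rw [mem_filter]
          exact ⟨fun h => h.2, fun h => ⟨hDZ h, h⟩⟩
        rw [h4]
        ring
      rw [h3, ← hV, hs]
      exact alg1 hVY.ne'
    rw [e1] at h1
    have h2 : ex (-(s * ρ * V)) * M.ZT L h ≤ M.ZT L (fun x => h x - s * f x) := by
      refine M.jensen_sub L hh (hfm.const_mul s) (fun x => mul_nonneg hs0 (hf0 x))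
        (mul_nonneg (mul_nonneg hs0 hρ) hV0.le) ?_
      rw [M.ST_mul L hh hfm hs0, show s * ρ * V = s * (ρ * V) by ring, ENNReal.ofReal_mul hs0,
        mul_assoc]
      exact mul_le_mul' le_rfl hden
    have h3 := h2.trans h1
    have h0 : 0 ≤ (V - Y.card) / V := div_nonneg hVY.le hV0.le
    have h4 := ENNReal.rpow_le_rpow h3 h0
    rw [← ENNReal.rpow_mul, ← hV] at h4
    rw [alg2 hVY.ne' hV0.ne', ENNReal.rpow_one, hlz0, ← ex_add, ex_rpow] at h4
    refine le_trans (ex_le_ex.2 (le_of_eq ?_)) h4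
    rw [hs]
    exact alg3 hVY.ne' hV0.ne'
  -- conclusion
  set I := M.int X G with hI
  set c : ℝ := -(γ * (N.JJ Y Z).card) - κ * (LI M.q X).card +
    (lz * ((V - Y.card) / V) - κ * ρ * D.card) with hc
  have h5 : ex c * I ≤ ex ((N.lay Y Z).card * Real.log 2 + lz) := by
    have e1 : N.c = ex (-γ) := rfl
    have h6 : N.c ^ (N.JJ Y Z).card = ex (-(γ * (N.JJ Y Z).card)) := by
      rw [e1, ex_pow]
      congr 1
      ring
    have h7 : (2 : ENNReal) ^ (N.lay Y Z).card = ex ((N.lay Y Z).card * Real.log 2) := by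
      rw [← ex_pow, ex_log_two]
    calc ex c * I = ex (-(γ * (N.JJ Y Z).card)) * (ex (-(κ * (LI M.q X).card)) *
          (I * ex (lz * ((V - Y.card) / V) - κ * ρ * D.card))) := by
          rw [hc, ex_add, sub_eq_add_neg, ex_add]
          ring
      _ ≤ ex (-(γ * (N.JJ Y Z).card)) * (ex (-(κ * (LI M.q X).card)) * (I * M.ZC L Y g)) :=
          mul_le_mul' le_rfl (mul_le_mul' le_rfl (mul_le_mul' le_rfl hZC))
      _ ≤ N.c ^ (N.JJ Y Z).card * lmarginal (fun _ : Tor d L => M.π) (Y ∪ Z)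
          (fun ω => (M.toGas (cst L) hφ hh).w Y ω * (M.toGas (cst L) hφ hh).w Z ω *
            (ex κ)⁻¹ ^ (N.Bd Y Z ω).card) (fun _ => M.e0) := by
          rw [h6]
          exact mul_le_mul' le_rfl hint
      _ ≤ 2 ^ (N.lay Y Z).card * lmarginal (fun _ : Tor d L => M.π) (Y ∪ Z)
          ((M.toGas (cst L) hφ hh).w (Y ∪ Z)) (fun _ => M.e0) := hglue
      _ = _ := by rw [hZT, h7, hlz0, ← ex_add]
  have h6 : I ≤ ex ((N.lay Y Z).card * Real.log 2 + lz - c) := by
    have h7 := mul_le_mul' (le_refl (ex (-c))) h5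
    rw [← mul_assoc, ← ex_add, neg_add_cancel, ex_zero, one_mul, ← ex_add] at h7
    refine h7.trans (ex_le_ex.2 (le_of_eq ?_))
    ring
  refine h6.trans (ex_le_ex.2 ?_)
  have hlay' : ((N.lay Y Z).card : ℝ) ≤ (LI (2 * M.r) X).card + (LO (2 * M.r) X).card := by
    exact_mod_cast hlay
  have hJc : ((N.JJ Y Z).card : ℝ) ≤ (LI (2 * M.r) X).card + (LO (2 * M.r) X).card := by
    have h7 : ((N.JJ Y Z).card : ℝ) ≤ (LI (2 * M.r) X).card := by
      exact_mod_cast (card_le_card hJJ).trans card_image_le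
    have h8 : (0 : ℝ) ≤ (LO (2 * M.r) X).card := Nat.cast_nonneg _
    linarith
  have hDc' : (D.card : ℝ) ≤ (LO (2 * M.r) X).card := by exact_mod_cast hDc
  have hl2 : 0 ≤ Real.log 2 := Real.log_nonneg one_le_two
  have e2 : lz - lz * ((V - Y.card) / V) = Y.card * (lz / V) := alg4 hV0.ne'
  rw [hc, ← hYc]
  have g1 := mul_le_mul_of_nonneg_left hlay' hl2
  have g2 := mul_le_mul_of_nonneg_left hJc hγ
  have g3 := mul_le_mul_of_nonneg_left hDc' (mul_nonneg hκ0 hρ)
  nlinarith [g1, g2, g3, e2]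

/-- **The gluing inequality.** -/
theorem gl_of_sh (hd : 1 ≤ d) {S : Set E} (hS : MeasurableSet S) {h : E → ℝ} (hh : M.Fld h)
    {p : ℝ} (hp : M.IsP h p) {γ κ ρ : ℝ} (hγ : 0 ≤ γ)
    (hSH : M.SH h (insert M.e0 S) (insert M.e0 S) (ex (-γ)))
    (hκ : ∫⁻ x, ex (h x) ∂M.π ≤ ex κ) (hρ : 0 ≤ ρ)
    (hden : ∀ᶠ L : ℕ in atTop, M.ST L h ((insert M.e0 S)ᶜ.indicator 1) ≤
      ENNReal.ofReal (ρ * (2 * L + 1 : ℝ) ^ d) * M.ZT L h) :
    M.Gl S h κ ρ (Real.log 2 + γ) p := by
  intro X
  have hκ0 : 0 ≤ κ := one_le_ex.1 (hh.one_le.trans hκ)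
  have hlim : Tendsto (fun L : ℕ =>
      X.card * (Real.log (M.ZT L h).toReal / (2 * L + 1 : ℝ) ^ d) +
        κ * ρ * (LO (2 * M.r) X).card + κ * (LI M.q X).card +
        (Real.log 2 + γ) * ((LI (2 * M.r) X).card + (LO (2 * M.r) X).card)) atTop
      (𝓝 (X.card * p + κ * ρ * (LO (2 * M.r) X).card + κ * (LI M.q X).card +
        (Real.log 2 + γ) * ((LI (2 * M.r) X).card + (LO (2 * M.r) X).card))) :=
    ((((IsP.torus hh hp).const_mul _).add_const _).add_const _).add_const _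
  refine ge_of_tendsto (Mix.GLrow.tendsto_ex hlim) ?_
  filter_upwards [Mix.GLrow.eventually_torus hd X M.r, eventually_ge_atTop (2 * M.r), hden]
    with L hL hL2 hL3
  exact M.gl_torus L X hL.1 hL2 hL.2 hS hh hγ hSH hκ0 hκ hρ hL3

end CG

end Pool.Agent.RC
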