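import Pool.Agent.Lib.MP_09cbbd_rc.CGM
import Pool.Agent.Lib.MP_09cbbd_ex.Blk

/-!
# Lower bound for the pressure by sequential choice

In each cell `i` of `A` a set `D i` of movable contents is given, invariant under the moves; the near
field conditions between these sets hold automatically. Then the cells can be filled one after the
other, and each of them loses at most the factor `1 - N e₁`. With a periodic pattern of cells this
gives a lower bound for the pressure.
-/

set_option autoImplicit false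

namespace Pool.Agent.RC

open MeasureTheory Finset Filter Topology Pool.Agent.StableGas Pool.Agent.SquareWell
open Pool.Agent.Kac (Tor cst)
open Pool.Agent.Mix (Qr mem_Qr)

namespace CG

variable {d : ℕ} {E : Type} [MeasurableSpace E] (M : CG d E)

/-- The weight restricted to the configurations with `ω i ∈ D i`. -/
noncomputable def wD (h : E → ℝ) (D : Zd d → Set E) (A : Finset (Zd d)) (ω : Zd d → E) : ENNReal :=
  {ω : Zd d → E | ∀ i ∈ A, ω i ∈ D i}.indicator (M.w h A) ω

theorem wD_le (h : E → ℝ) (D : Zd d → Set E) (A : Finset (Zd d)) (ω : Zd d → E) :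
    M.wD h D A ω ≤ M.w h A ω :=
  Set.indicator_le_self _ _ _

theorem measurable_wD {h : E → ℝ} (hh : Measurable h) {D : Zd d → Set E} {A : Finset (Zd d)}
    (hD : ∀ i ∈ A, MeasurableSet (D i)) : Measurable (M.wD h D A) := by
  have e : {ω : Zd d → E | ∀ i ∈ A, ω i ∈ D i} = ⋂ i ∈ A, (fun ω : Zd d → E => ω i) ⁻¹' D i := by
    ext ω
    simp only [Set.mem_ofPred_eq, Set.mem_iInter, Set.mem_preimage]
  have h : MeasurableSet {ω : Zd d → E | ∀ i ∈ A, ω i ∈ D i} := by
    rw [e]
    exact Finset.measurableSet_biInter _ fun i hi => (measurable_pi_apply i) (hD i hi)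
  exact (M.measurable_w hh A).indicator h

theorem wD_of {h : E → ℝ} {D : Zd d → Set E} {A : Finset (Zd d)} {ω : Zd d → E}
    (hD : ∀ i ∈ A, ω i ∈ D i) : M.wD h D A ω = M.w h A ω :=
  Set.indicator_of_mem (s := {ω : Zd d → E | ∀ i ∈ A, ω i ∈ D i}) hD _

theorem wD_of_not {h : E → ℝ} {D : Zd d → Set E} {A : Finset (Zd d)} {ω : Zd d → E}
    (hD : ¬ ∀ i ∈ A, ω i ∈ D i) : M.wD h D A ω = 0 :=
  Set.indicator_of_notMem (s := {ω : Zd d → E | ∀ i ∈ A, ω i ∈ D i}) hD _

section Mover

variable {Θ : Type} [MeasurableSpace Θ] {h : E → ℝ} (hh : Measurable h) {RA Cl : Set E}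
  (hCl : MeasurableSet Cl) (ν : Measure Θ) [IsProbabilityMeasure ν] {T : Θ → E → E}
  (hT : Measurable (Function.uncurry T))
  (hpres : ∀ θ, MeasurePreserving (T θ) (M.π.restrict Cl) (M.π.restrict Cl))
  (h_T : ∀ θ, ∀ x ∈ Cl, h (T θ x) = h x)
  {e1 : ENNReal} (far_T : ∀ v ∈ (Qr d M.r).erase 0, ∀ x ∈ Cl, ∀ y ∈ RA,
      ν {θ | ¬ M.far v (T θ x) y} ≤ e1)
  {D : Zd d → Set E}

include hh hCl hT hpres h_T far_T

/-- One more cell. -/
theorem low_step {A : Finset (Zd d)} {j : Zd d} (hj : j ∉ A)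
    (hDm : ∀ i ∈ insert j A, MeasurableSet (D i)) (hDC : D j ⊆ Cl) (hDR : ∀ i ∈ A, D i ⊆ RA)
    (hDT : ∀ θ, ∀ x ∈ D j, T θ x ∈ D j)
    (hnf : ∀ i ∈ insert j A, ∀ l ∈ insert j A, i ≠ l → ∀ x ∈ D i, ∀ y ∈ D l,
      M.nf 0 (l - i) x y) (ω : Zd d → E) :
    ((1 - ((2 * M.r + 1) ^ d : ℕ) * e1) * ∫⁻ x in D j, ex (h x) ∂M.π) * M.wD h D A ω ≤
      ∫⁻ x, M.wD h D (insert j A) (Function.update ω j x) ∂M.π := by
  classical
  have := M.fin_π
  have hne : ∀ i ∈ A, i ≠ j := fun i hi h => hj (h ▸ hi)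
  have hjm : MeasurableSet (D j) := hDm j (mem_insert_self j A)
  have hc : (1 - ((2 * M.r + 1) ^ d : ℕ) * e1) ≠ ⊤ :=
    ne_top_of_le_ne_top ENNReal.one_ne_top tsub_le_self
  have hF' : Measurable fun x : E => M.wD h D (insert j A) (Function.update ω j x) :=
    (M.measurable_wD hh hDm).comp (measurable_update ω (a := j))
  by_cases hS : (∀ i ∈ A, ω i ∈ D i) ∧ M.cp id A ω
  · obtain ⟨hSD, hSok⟩ := hS
    set P : ENNReal := ∏ i ∈ A, ex (h (ω i)) with hP
    have e0 : M.wD h D A ω = P := by rw [M.wD_of hSD, M.w_of_cp hSok]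
    rw [e0]
    rw [M.cp_id] at hSok
    -- the new weight of a good content
    have key : ∀ x ∈ D j, (∀ l ∈ A, M.far (l - j) x (ω l)) →
        M.wD h D (insert j A) (Function.update ω j x) = ex (h x) * P := by
      intro x hx hfar
      have h1 : ∀ i ∈ insert j A, Function.update ω j x i ∈ D i := by
        intro i hi
        rcases mem_insert.1 hi with hi | hi
        · rw [hi, Function.update_self]
          exact hx
        · rw [Function.update_of_ne (hne i hi)]
          exact hSD i hi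
      have h2 : M.cp id (insert j A) (Function.update ω j x) := by
        rw [M.cp_id]
        intro i hi l hl hil
        refine ⟨hnf i hi l hl hil _ (h1 i hi) _ (h1 l hl), ?_⟩
        rcases mem_insert.1 hi with hi' | hi'
        · rcases mem_insert.1 hl with hl' | hl'
          · exact absurd (hi'.trans hl'.symm) hil
          · rw [hi', Function.update_self, Function.update_of_ne (hne l hl')]
            exact hfar l hl'
        · rcases mem_insert.1 hl with hl' | hl'
          · rw [hl', Function.update_self, Function.update_of_ne (hne i hi')]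
            have := M.far_symm _ _ _ (hfar i hi')
            rwa [neg_sub] at this
          · rw [Function.update_of_ne (hne i hi'), Function.update_of_ne (hne l hl')]
            exact (hSok i hi' l hl' hil).2
      rw [M.wD_of h1, M.w_of_cp h2, prod_insert hj, Function.update_self]
      congr 1
      refine prod_congr rfl fun i hi => ?_
      rw [Function.update_of_ne (hne i hi)]
    -- the union bound
    have hgood : ∀ x ∈ Cl, 1 - ((2 * M.r + 1) ^ d : ℕ) * e1 ≤
        ν {θ | ∀ l ∈ A, M.far (l - j) (T θ x) (ω l)} := by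
      intro x hx
      rw [tsub_le_iff_right]
      set S : Finset (Zd d) := A.filter fun l => l - j ∈ Qr d M.r with hSdef
      have h1 : (Set.univ : Set Θ) ⊆ {θ | ∀ l ∈ A, M.far (l - j) (T θ x) (ω l)} ∪
          ⋃ l ∈ S, {θ | ¬ M.far (l - j) (T θ x) (ω l)} := by
        intro θ _
        by_cases hg : ∀ l ∈ A, M.far (l - j) (T θ x) (ω l)
        · exact Or.inl hg
        · right
          push Not at hg
          obtain ⟨l, hl, hf⟩ := hg
          simp only [Set.mem_iUnion]
          refine ⟨l, mem_filter.2 ⟨hl, ?_⟩, hf⟩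
          by_contra hcon
          exact hf (M.far_r _ _ _ hcon)
      calc (1 : ENNReal) = ν Set.univ := measure_univ.symm
        _ ≤ ν {θ | ∀ l ∈ A, M.far (l - j) (T θ x) (ω l)} +
            ν (⋃ l ∈ S, {θ | ¬ M.far (l - j) (T θ x) (ω l)}) :=
            (measure_mono h1).trans (measure_union_le _ _)
        _ ≤ ν {θ | ∀ l ∈ A, M.far (l - j) (T θ x) (ω l)} + ((2 * M.r + 1) ^ d : ℕ) * e1 := by
            refine add_le_add le_rfl ((measure_biUnion_finset_le _ _).trans ?_)
            have h2 : ∀ l ∈ S, ν {θ | ¬ M.far (l - j) (T θ x) (ω l)} ≤ e1 := by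
              intro l hl
              rw [hSdef, mem_filter] at hl
              refine far_T (l - j) (mem_erase.2 ⟨sub_ne_zero.2 (hne l hl.1), hl.2⟩) x hx (ω l) ?_
              exact hDR l hl.1 (hSD l hl.1)
            refine (sum_le_sum h2).trans ?_
            rw [sum_const, nsmul_eq_mul]
            refine mul_le_mul_left ?_ _
            have h4 : S.card ≤ (2 * M.r + 1) ^ d := by
              rw [← Mix.Bas.card_Qr (d := d) M.r]
              refine card_le_card_of_injOn (fun l => l - j) (fun l hl => ?_) ?_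
              · have := mem_filter.1 (Finset.mem_coe.1 hl)
                exact this.2
              · intro a _ b _ hab
                exact sub_left_injective hab
            exact_mod_cast h4
    -- the average
    have h1 : (1 - ((2 * M.r + 1) ^ d : ℕ) * e1) *
        ∫⁻ x in Cl, 1 * (D j).indicator (fun x => ex (h x) * P) x ∂M.π ≤
        ∫⁻ x in Cl, 1 * M.wD h D (insert j A) (Function.update ω j x) ∂M.π := by
      refine shift_avg M.π ν hT hCl hpres (g := fun _ => 1) measurable_const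
        (fun _ _ _ => rfl) hF' hc fun x hx => ?_
      by_cases hxD : x ∈ D j
      · rw [Set.indicator_of_mem hxD]
        have hmT : Measurable fun θ : Θ =>
            M.wD h D (insert j A) (Function.update ω j (T θ x)) :=
          hF'.comp (hT.comp (measurable_id.prodMk measurable_const))
        have h4 := mul_meas_ge_le_lintegral (μ := ν) hmT (ex (h x) * P)
        refine le_trans ?_ h4
        rw [mul_comm]
        refine mul_le_mul_right ((hgood x hx).trans (measure_mono fun θ hθ => ?_)) _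
        have h5 := key (T θ x) (hDT θ x hxD) (fun l hl => hθ l hl)
        rw [h_T θ x hx] at h5
        exact h5.ge
      · rw [Set.indicator_of_notMem hxD, mul_zero]
        exact zero_le
    have h2 : ∫⁻ x in Cl, 1 * (D j).indicator (fun x => ex (h x) * P) x ∂M.π =
        (∫⁻ x in D j, ex (h x) ∂M.π) * P := by
      simp only [one_mul]
      rw [← lintegral_mul_const _ (measurable_ex hh), setLIntegral_indicator hjm,
        Set.inter_eq_left.2 hDC]
    rw [h2] at h1
    calc ((1 - ((2 * M.r + 1) ^ d : ℕ) * e1) * ∫⁻ x in D j, ex (h x) ∂M.π) * P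
        = (1 - ((2 * M.r + 1) ^ d : ℕ) * e1) * ((∫⁻ x in D j, ex (h x) ∂M.π) * P) := by ring
      _ ≤ ∫⁻ x in Cl, 1 * M.wD h D (insert j A) (Function.update ω j x) ∂M.π := h1
      _ ≤ ∫⁻ x, M.wD h D (insert j A) (Function.update ω j x) ∂M.π := by
          simp only [one_mul]
          exact setLIntegral_le_lintegral _ _
  · have e0 : M.wD h D A ω = 0 := by
      by_cases h1 : ∀ i ∈ A, ω i ∈ D i
      · rw [M.wD_of h1, M.w_of_not fun h2 => hS ⟨h1, h2⟩]
      · exact M.wD_of_not h1
    rw [e0, mul_zero]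
    exact zero_le

/-- **Lower bound by sequential choice.** -/
theorem low {A : Finset (Zd d)} (hDm : ∀ i ∈ A, MeasurableSet (D i))
    (hDC : ∀ i ∈ A, D i ⊆ Cl) (hDR : ∀ i ∈ A, D i ⊆ RA)
    (hDT : ∀ i ∈ A, ∀ θ, ∀ x ∈ D i, T θ x ∈ D i)
    (hnf : ∀ i ∈ A, ∀ l ∈ A, i ≠ l → ∀ x ∈ D i, ∀ y ∈ D l, M.nf 0 (l - i) x y) :
    ∏ i ∈ A, ((1 - ((2 * M.r + 1) ^ d : ℕ) * e1) * ∫⁻ x in D i, ex (h x) ∂M.π) ≤
      M.xi h A := by
  classical
  have := M.fin_π
  suffices H : ∀ ω0 : Zd d → E,
      ∏ i ∈ A, ((1 - ((2 * M.r + 1) ^ d : ℕ) * e1) * ∫⁻ x in D i, ex (h x) ∂M.π) ≤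
      lmarginal (fun _ : Zd d => M.π) A (M.wD h D A) ω0 from
    (H _).trans (M.int_mono A fun ω => M.wD_le h D A ω)
  induction A using Finset.induction_on with
  | empty =>
    intro ω0
    rw [prod_empty, lmarginal_empty, M.wD_of (by simp), M.w_of_cp, prod_empty]
    intro v _ _ i hi
    simp at hi
  | insert j A hj ih =>
    intro ω0
    have ih' := ih (fun i hi => hDm i (mem_insert_of_mem hi))
      (fun i hi => hDC i (mem_insert_of_mem hi)) (fun i hi => hDR i (mem_insert_of_mem hi))
      (fun i hi => hDT i (mem_insert_of_mem hi))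
      (fun i hi l hl => hnf i (mem_insert_of_mem hi) l (mem_insert_of_mem hl)) ω0
    rw [prod_insert hj, lmarginal_insert' _ (M.measurable_wD hh hDm) hj]
    have h1 := M.lm_mono A (fun ω => M.low_step hh hCl ν hT hpres h_T far_T hj hDm
      (hDC j (mem_insert_self j A)) (fun i hi => hDR i (mem_insert_of_mem hi))
      (hDT j (mem_insert_self j A)) hnf ω) ω0
    refine le_trans ?_ h1
    rw [M.lm_const_mul A (M.measurable_wD hh fun i hi => hDm i (mem_insert_of_mem hi))]
    exact mul_le_mul_right ih' _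

end Mover

/-- The partition function is monotone in the region. -/
theorem xi_mono {h : E → ℝ} (hh : M.Fld h) {A B : Finset (Zd d)} (hAB : A ⊆ B) :
    M.xi h A ≤ M.xi h B := by
  classical
  have := M.fin_π
  have e : M.xi h B = lmarginal (fun _ : Zd d => M.π) A
      (lmarginal (fun _ : Zd d => M.π) (B \ A) (M.w h B)) fun _ => M.e0 := by
    unfold xi int
    rw [← lmarginal_union _ _ (M.measurable_w hh.meas B) disjoint_sdiff,
      union_sdiff_of_subset hAB]
  rw [e]
  refine M.lm_mono A (fun ω => ?_) _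
  refine le_trans ?_ (M.le_lm (B \ A) (M.measurable_w hh.meas B) ω)
  by_cases hc : M.cp id A ω
  · have hc2 : M.cp id B (fun i => if i ∈ B \ A then M.e0 else ω i) := by
      rw [M.cp_id] at hc ⊢
      intro i hi l hl hil
      by_cases h1 : i ∈ B \ A
      · simp only [h1, if_true]
        exact M.okc_e0 _ _
      · by_cases h2 : l ∈ B \ A
        · simp only [h2, if_true]
          exact M.okc_e0' _ _
        · simp only [h1, h2, if_false]
          have hi' : i ∈ A := by
            by_contra hcon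
            exact h1 (mem_sdiff.2 ⟨hi, hcon⟩)
          have hl' : l ∈ A := by
            by_contra hcon
            exact h2 (mem_sdiff.2 ⟨hl, hcon⟩)
          exact hc i hi' l hl' hil
    rw [M.w_of_cp hc, M.w_of_cp hc2, ← prod_sdiff hAB]
    have h3 : ∏ i ∈ B \ A, ex (h (if i ∈ B \ A then M.e0 else ω i)) = 1 := by
      refine prod_eq_one fun i hi => ?_
      rw [if_pos hi, hh.e0, ex_zero]
    rw [h3, one_mul]
    refine (prod_congr rfl fun i hi => ?_).le
    rw [if_neg fun h4 => (Finset.mem_sdiff.1 h4).2 hi]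
  · rw [M.w_of_not hc]
    exact zero_le

/-- The cells of the periodic pattern `F` of period `n` in the box with `K ^ d` periods. -/
noncomputable def pat (n K : ℕ) (F : Finset (Zd d)) : Finset (Zd d) := by
  classical exact (bx d K ×ˢ F).image fun q k => (n : ℤ) * q.1 k + q.2 k

theorem pat_inj {n : ℕ} (hn : 0 < n) {F : Finset (Zd d)} (hF : F ⊆ bx d n) {q q' f f' : Zd d}
    (hf : f ∈ F) (hf' : f' ∈ F) (h : ∀ k, (n : ℤ) * q k + f k = n * q' k + f' k) :
    q = q' ∧ f = f' := by
  have hb : ∀ k, 0 ≤ f k ∧ f k < n := by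
    intro k
    have := hF hf
    unfold bx at this
    rw [Fintype.mem_piFinset] at this
    exact mem_Ico.1 (this k)
  have hb' : ∀ k, 0 ≤ f' k ∧ f' k < n := by
    intro k
    have := hF hf'
    unfold bx at this
    rw [Fintype.mem_piFinset] at this
    exact mem_Ico.1 (this k)
  have hn' : (0 : ℤ) < n := by exact_mod_cast hn
  have hq : ∀ k, q k = q' k := by
    intro k
    have h1 := h k
    have h2 := hb k
    have h3 := hb' k
    by_contra hcon
    rcases lt_or_gt_of_ne hcon with h4 | h4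
    · have : (n : ℤ) * (q k + 1) ≤ n * q' k := mul_le_mul_of_nonneg_left (by omega) hn'.le
      nlinarith
    · have : (n : ℤ) * (q' k + 1) ≤ n * q k := mul_le_mul_of_nonneg_left (by omega) hn'.le
      nlinarith
  refine ⟨funext hq, funext fun k => ?_⟩
  have h1 := h k
  rw [hq k] at h1
  linarith

theorem card_bx (L : ℕ) : (bx d L).card = L ^ d := by
  unfold bx
  rw [Fintype.card_piFinset]
  simp

theorem card_pat {n : ℕ} (hn : 0 < n) (K : ℕ) {F : Finset (Zd d)} (hF : F ⊆ bx d n) :
    (pat n K F).card = K ^ d * F.card := by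
  classical
  unfold pat
  rw [card_image_of_injOn, card_product, card_bx]
  rintro ⟨q, f⟩ hq ⟨q', f'⟩ hq' h
  have h1 := (mem_product.1 (Finset.mem_coe.1 hq)).2
  have h2 := (mem_product.1 (Finset.mem_coe.1 hq')).2
  obtain ⟨h3, h4⟩ := pat_inj hn hF h1 h2 fun k => congrFun h k
  exact Prod.ext h3 h4

theorem pat_sub {n : ℕ} (hn : 0 < n) (K : ℕ) {F : Finset (Zd d)} (hF : F ⊆ bx d n) :
    pat n K F ⊆ bx d (n * K) := by
  classical
  intro i hi
  unfold pat at hi
  obtain ⟨⟨q, f⟩, hqf, rfl⟩ := mem_image.1 hi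
  have h1 := (mem_product.1 hqf).1
  have h2 := hF (mem_product.1 hqf).2
  unfold bx at h1 h2 ⊢
  rw [Fintype.mem_piFinset] at h1 h2 ⊢
  intro k
  have h3 := mem_Ico.1 (h1 k)
  have h4 := mem_Ico.1 (h2 k)
  simp only at h3 h4
  rw [mem_Ico]
  push_cast
  have hn' : (0 : ℤ) < n := by exact_mod_cast hn
  have h5 : (0 : ℤ) ≤ n * q k := mul_nonneg hn'.le h3.1
  have h6 : (n : ℤ) * (q k + 1) ≤ n * K := mul_le_mul_of_nonneg_left (by omega) hn'.le
  refine ⟨by linarith, by nlinarith⟩

/-- **Lower bound for the pressure** from a periodic pattern of cells. -/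
theorem low_period {h : E → ℝ} (hh : M.Fld h) {p : ℝ} (hp : M.IsP h p) {n : ℕ} (hn : 0 < n)
    {F : Finset (Zd d)} (hF : F ⊆ bx d n) {c : ℝ}
    (H : ∀ K : ℕ, ex (c * (K ^ d * F.card : ℕ)) ≤ M.xi h (pat n K F)) :
    F.card * c ≤ n ^ d * p := by
  have h1 : Tendsto (fun K : ℕ => Real.log (M.xi h (bx d (n * K))).toReal / ((n * K : ℕ) : ℝ) ^ d)
      atTop (𝓝 p) := by
    have h2 : Tendsto (fun K : ℕ => n * K) atTop atTop :=
      tendsto_atTop_mono (fun K => Nat.le_mul_of_pos_left K hn) tendsto_id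
    exact hp.comp h2
  have hn' : (0 : ℝ) < n := by exact_mod_cast hn
  have h3 : ∀ K : ℕ, 1 ≤ K → F.card * c / (n : ℝ) ^ d ≤
      Real.log (M.xi h (bx d (n * K))).toReal / ((n * K : ℕ) : ℝ) ^ d := by
    intro K hK
    have hK' : (0 : ℝ) < K := by exact_mod_cast hK
    have h4 : ex (c * (K ^ d * F.card : ℕ)) ≤ M.xi h (bx d (n * K)) :=
      (H K).trans (M.xi_mono hh (pat_sub hn K hF))
    have h5 : c * (K ^ d * F.card : ℕ) ≤ Real.log (M.xi h (bx d (n * K))).toReal := by
      have h6 := ENNReal.toReal_mono (M.xi_ne_top hh _) h4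
      rw [ex_toReal] at h6
      rw [← Real.log_exp (c * (K ^ d * F.card : ℕ))]
      exact Real.log_le_log (Real.exp_pos _) h6
    rw [div_le_div_iff₀ (by positivity) (by positivity)]
    push_cast at h5 ⊢
    calc F.card * c * ((n : ℝ) * K) ^ d = c * (K ^ d * F.card) * (n : ℝ) ^ d := by ring
      _ ≤ _ := mul_le_mul_of_nonneg_right h5 (by positivity)
  have h7 : F.card * c / (n : ℝ) ^ d ≤ p :=
    ge_of_tendsto h1 ((eventually_ge_atTop 1).mono h3)
  rw [div_le_iff₀ (by positivity)] at h7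
  linarith

theorem mem_pat {n : ℕ} {K : ℕ} {F : Finset (Zd d)} (hF : F ⊆ bx d n) {i : Zd d}
    (hi : i ∈ pat n K F) : (fun k => i k % (n : ℤ)) ∈ F := by
  classical
  unfold pat at hi
  obtain ⟨⟨q, f⟩, hqf, rfl⟩ := mem_image.1 hi
  have h2 := (mem_product.1 hqf).2
  have h3 := hF h2
  unfold bx at h3
  rw [Fintype.mem_piFinset] at h3
  have e : (fun k => ((n : ℤ) * q k + f k) % (n : ℤ)) = f := by
    funext k
    have h4 := mem_Ico.1 (h3 k)
    rw [Int.add_comm, Int.add_mul_emod_self_left, Int.emod_eq_of_lt h4.1 h4.2]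
  show (fun k => ((n : ℤ) * q k + f k) % (n : ℤ)) ∈ F
  rw [e]
  exact h2

/-- **Lower bound for the pressure.** `D f` are sets of movable contents, invariant under the moves,
for the cells `f` of a pattern of period `n`; between different cells of the periodic pattern the
near field conditions hold automatically. -/
theorem low_press {Θ : Type} [MeasurableSpace Θ] {h : E → ℝ} (hh : M.Fld h) {RA Cl : Set E}
    (hCl : MeasurableSet Cl) (ν : Measure Θ) [IsProbabilityMeasure ν] {T : Θ → E → E}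
    (hT : Measurable (Function.uncurry T))
    (hpres : ∀ θ, MeasurePreserving (T θ) (M.π.restrict Cl) (M.π.restrict Cl))
    (h_T : ∀ θ, ∀ x ∈ Cl, h (T θ x) = h x)
    {e1 : ENNReal} (far_T : ∀ v ∈ (Qr d M.r).erase 0, ∀ x ∈ Cl, ∀ y ∈ RA,
      ν {θ | ¬ M.far v (T θ x) y} ≤ e1) {n : ℕ} (hn : 0 < n) {F : Finset (Zd d)}
    (hF : F ⊆ bx d n) {D : Zd d → Set E} (hDm : ∀ f ∈ F, MeasurableSet (D f))
    (hDC : ∀ f ∈ F, D f ⊆ Cl) (hDR : ∀ f ∈ F, D f ⊆ RA)
    (hDT : ∀ f ∈ F, ∀ θ, ∀ x ∈ D f, T θ x ∈ D f)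
    (hnf : ∀ i j : Zd d, i ≠ j → (fun k => i k % (n : ℤ)) ∈ F → (fun k => j k % (n : ℤ)) ∈ F →
      ∀ x ∈ D fun k => i k % (n : ℤ), ∀ y ∈ D fun k => j k % (n : ℤ), M.nf 0 (j - i) x y)
    {c : ℝ} (hc : ∀ f ∈ F, ex c ≤ (1 - ((2 * M.r + 1) ^ d : ℕ) * e1) *
      ∫⁻ x in D f, ex (h x) ∂M.π) {p : ℝ} (hp : M.IsP h p) : F.card * c ≤ n ^ d * p := by
  refine M.low_period hh hp hn hF fun K => ?_
  have h1 := M.low hh.meas hCl ν hT hpres h_T far_T (D := fun i => D fun k => i k % (n : ℤ))
    (A := pat n K F) (fun i hi => hDm _ (mem_pat hF hi)) (fun i hi => hDC _ (mem_pat hF hi))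
    (fun i hi => hDR _ (mem_pat hF hi)) (fun i hi => hDT _ (mem_pat hF hi))
    (fun i hi j hj hij => hnf i j hij (mem_pat hF hi) (mem_pat hF hj))
  refine le_trans ?_ h1
  calc ex (c * (K ^ d * F.card : ℕ)) = ∏ _i ∈ pat n K F, ex c := by
        rw [prod_const, card_pat hn K hF, ex_pow]
        congr 1
        ring
    _ ≤ _ := Mix.Bas.prod_mono fun i hi => hc _ (mem_pat hF hi)

end CG

end Pool.Agent.RC
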