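import Mathlib.MeasureTheory.Integral.Marginal
import Mathlib.MeasureTheory.Measure.Prod

/-!
# The shift lemma

A content is moved by a family of measure preserving maps; if the average over the maps of the
new indicator is at least `c` times the old indicator, then the integral only loses the factor `c`.
The cells are treated one after the other.
-/

set_option autoImplicit false

namespace Pool.Agent.RC

open MeasureTheory Finset

/-- **One cell.** -/
theorem shift_avg {E Θ : Type*} [MeasurableSpace E] [MeasurableSpace Θ] (π : Measure E)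
    [SFinite π] (ν : Measure Θ) [IsProbabilityMeasure ν] {T : Θ → E → E}
    (hT : Measurable (Function.uncurry T)) {Cl : Set E} (hCl : MeasurableSet Cl)
    (hpres : ∀ θ, MeasurePreserving (T θ) (π.restrict Cl) (π.restrict Cl)) {g φ ψ : E → ENNReal}
    (hg : Measurable g) (hgT : ∀ θ, ∀ x ∈ Cl, g (T θ x) = g x) (hψ : Measurable ψ) {c : ENNReal}
    (hc : c ≠ ⊤) (h : ∀ x ∈ Cl, c * φ x ≤ ∫⁻ θ, ψ (T θ x) ∂ν) :
    c * ∫⁻ x in Cl, g x * φ x ∂π ≤ ∫⁻ x in Cl, g x * ψ x ∂π := by
  have e1 : ∀ θ, ∫⁻ x in Cl, g x * ψ x ∂π = ∫⁻ x in Cl, g x * ψ (T θ x) ∂π := by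
    intro θ
    have h3 := (hpres θ).lintegral_comp (hg.mul hψ)
    simp only [Pi.mul_apply] at h3
    rw [← h3]
    refine setLIntegral_congr_fun hCl fun x hx => ?_
    rw [hgT θ x hx]
  have e2 : ∫⁻ x in Cl, g x * ψ x ∂π = ∫⁻ x in Cl, g x * ∫⁻ θ, ψ (T θ x) ∂ν ∂π := by
    calc ∫⁻ x in Cl, g x * ψ x ∂π = ∫⁻ _θ, (∫⁻ x in Cl, g x * ψ x ∂π) ∂ν := by
          rw [lintegral_const, measure_univ, mul_one]
      _ = ∫⁻ θ, ∫⁻ x in Cl, g x * ψ (T θ x) ∂π ∂ν := lintegral_congr e1
      _ = ∫⁻ x in Cl, ∫⁻ θ, g x * ψ (T θ x) ∂ν ∂π := by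
          rw [lintegral_lintegral_swap]
          exact ((hg.comp measurable_snd).mul (hψ.comp hT)).aemeasurable
      _ = _ := by
          refine lintegral_congr fun x => ?_
          rw [lintegral_const_mul]
          exact hψ.comp (hT.comp (measurable_id.prodMk measurable_const))
  rw [e2, ← lintegral_const_mul' _ _ hc]
  refine setLIntegral_mono' hCl fun x hx => ?_
  calc c * (g x * φ x) = g x * (c * φ x) := by ring
    _ ≤ g x * ∫⁻ θ, ψ (T θ x) ∂ν := mul_le_mul_right (h x hx) _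

/-- The average of an indicator. -/
theorem avg_indicator {E Θ : Type*} [MeasurableSpace E] [MeasurableSpace Θ] (ν : Measure Θ)
    {T : Θ → E → E} (hT : Measurable (Function.uncurry T)) {A : Set E} (hA : MeasurableSet A)
    (x : E) : ∫⁻ θ, A.indicator 1 (T θ x) ∂ν = ν {θ | T θ x ∈ A} := by
  have h3 : (fun θ => A.indicator (1 : E → ENNReal) (T θ x)) = {θ | T θ x ∈ A}.indicator 1 := by
    funext θ
    by_cases h : T θ x ∈ A
    · rw [Set.indicator_of_mem h, Set.indicator_of_mem (show θ ∈ {θ | T θ x ∈ A} from h)]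
      rfl
    · rw [Set.indicator_of_notMem h, Set.indicator_of_notMem (show θ ∉ {θ | T θ x ∈ A} from h)]
  rw [h3, lintegral_indicator_one]
  exact (hT.comp (measurable_id.prodMk measurable_const)) hA

/-- **One cell, sets.**  `N` is the near field condition before the move, `N'` after it, `S` the far
field compatibility, `C` the set of the contents with a conflict. -/
theorem shift_one {E Θ : Type*} [MeasurableSpace E] [MeasurableSpace Θ] (π : Measure E)
    [SFinite π] (ν : Measure Θ) [IsProbabilityMeasure ν] {T : Θ → E → E}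
    (hT : Measurable (Function.uncurry T)) {Cl : Set E} (hCl : MeasurableSet Cl)
    (hpres : ∀ θ, MeasurePreserving (T θ) (π.restrict Cl) (π.restrict Cl)) {g : E → ENNReal}
    (hg : Measurable g) (hgT : ∀ θ, ∀ x ∈ Cl, g (T θ x) = g x) {N N' S C : Set E}
    (hN' : MeasurableSet N') (hS : MeasurableSet S) (hC : MeasurableSet C) {c : ENNReal}
    (hc : c ≠ ⊤) (hNN : ∀ θ, ∀ x ∈ Cl, x ∈ N → T θ x ∈ N')
    (h : ∀ x ∈ Cl, x ∈ N → x ∈ S → c ≤ ν {θ | T θ x ∈ S \ C}) :
    c * ∫⁻ x in Cl, g x * (N ∩ S).indicator 1 x ∂π ≤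
      ∫⁻ x in Cl, g x * (N' ∩ (S \ C)).indicator 1 x ∂π := by
  refine shift_avg π ν hT hCl hpres hg hgT (measurable_one.indicator (hN'.inter (hS.diff hC))) hc
    fun x hx => ?_
  by_cases hx1 : x ∈ N ∩ S
  · rw [Set.indicator_of_mem hx1, Pi.one_apply, mul_one,
      avg_indicator ν hT (hN'.inter (hS.diff hC))]
    refine (h x hx hx1.1 hx1.2).trans (measure_mono fun θ hθ => ?_)
    exact ⟨hNN θ x hx hx1.1, hθ⟩
  · rw [Set.indicator_of_notMem hx1, mul_zero]
    exact zero_le

/-- From the two measures of bad maps to the constant. -/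
theorem good_maps {Θ : Type*} [MeasurableSpace Θ] (ν : Measure Θ) [IsProbabilityMeasure ν]
    {P Q : Θ → Prop} {ε : ENNReal} (h1 : ν {θ | ¬ P θ} ≤ ε) (h2 : ν {θ | Q θ} ≤ ε) :
    1 - 2 * ε ≤ ν {θ | P θ ∧ ¬ Q θ} := by
  rw [tsub_le_iff_right]
  calc (1 : ENNReal) = ν Set.univ := measure_univ.symm
    _ ≤ ν ({θ | P θ ∧ ¬ Q θ} ∪ ({θ | ¬ P θ} ∪ {θ | Q θ})) := by
        refine measure_mono fun θ _ => ?_
        simp only [Set.mem_union, Set.mem_ofPred_eq]
        tauto
    _ ≤ ν {θ | P θ ∧ ¬ Q θ} + (ν {θ | ¬ P θ} + ν {θ | Q θ}) :=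
        (measure_union_le _ _).trans (add_le_add le_rfl (measure_union_le _ _))
    _ ≤ ν {θ | P θ ∧ ¬ Q θ} + 2 * ε := by
        rw [two_mul]
        exact add_le_add le_rfl (add_le_add h1 h2)

/-- One step in a product space. -/
theorem shift_step {Γ E : Type*} [DecidableEq Γ] [MeasurableSpace E] (π : Measure E)
    [SigmaFinite π] {A : Finset Γ} {j : Γ} (hj : j ∈ A) {F G : (Γ → E) → ENNReal}
    (hF : Measurable F) (hG : Measurable G) {c : ENNReal}
    (h : ∀ ω : Γ → E, c * ∫⁻ x, F (Function.update ω j x) ∂π ≤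
      ∫⁻ x, G (Function.update ω j x) ∂π) (ω0 : Γ → E) :
    c * lmarginal (fun _ : Γ => π) A F ω0 ≤ lmarginal (fun _ : Γ => π) A G ω0 := by
  rw [lmarginal_erase' (μ := fun _ : Γ => π) _ hF hj, lmarginal_erase' (μ := fun _ : Γ => π) _ hG hj]
  have hin : Measurable fun x : Γ → E => ∫⁻ xi, F (Function.update x j xi) ∂π :=
    (hF.comp measurable_update').lintegral_prod_right'
  have e2 : c * lmarginal (fun _ : Γ => π) (A.erase j)
      (fun x => ∫⁻ xi, F (Function.update x j xi) ∂π) ω0 =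
      lmarginal (fun _ : Γ => π) (A.erase j)
        (fun x => c * ∫⁻ xi, F (Function.update x j xi) ∂π) ω0 := by
    unfold lmarginal
    rw [lintegral_const_mul]
    exact hin.comp measurable_updateFinset
  rw [e2]
  exact lmarginal_mono (fun x => h x) ω0

/-- **Many cells**, one after the other. -/
theorem shift_seq {Γ E : Type*} [DecidableEq Γ] [MeasurableSpace E] (π : Measure E)
    [SigmaFinite π] {A : Finset Γ} {n : ℕ} {j : ℕ → Γ} (hj : ∀ k < n, j k ∈ A)
    {F : ℕ → (Γ → E) → ENNReal} (hF : ∀ k, Measurable (F k)) {c : ENNReal}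
    (h : ∀ k < n, ∀ ω : Γ → E, c * ∫⁻ x, F k (Function.update ω (j k) x) ∂π ≤
      ∫⁻ x, F (k + 1) (Function.update ω (j k) x) ∂π) (ω0 : Γ → E) :
    c ^ n * lmarginal (fun _ : Γ => π) A (F 0) ω0 ≤
      lmarginal (fun _ : Γ => π) A (F n) ω0 := by
  induction n with
  | zero => simp
  | succ n ih =>
    have ih' := ih (fun k hk => hj k (by omega)) fun k hk => h k (by omega)
    have h1 := shift_step π (hj n (by omega)) (hF n) (hF (n + 1)) (h n (by omega)) ω0
    calc c ^ (n + 1) * lmarginal (fun _ : Γ => π) A (F 0) ω0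
        = c * (c ^ n * lmarginal (fun _ : Γ => π) A (F 0) ω0) := by rw [pow_succ]; ring
      _ ≤ c * lmarginal (fun _ : Γ => π) A (F n) ω0 := mul_le_mul_right ih' c
      _ ≤ _ := h1

end Pool.Agent.RC
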