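import Pool.Agent.Lib.MP_09cbbd_rc.CG
import Pool.Agent.Lib.MP_09cbbd_rc.Shift

/-!
# The shift inequality from measure preserving moves
-/

set_option autoImplicit false

namespace Pool.Agent.RC

open MeasureTheory Finset Filter Topology Pool.Agent.StableGas Pool.Agent.SquareWell
open Pool.Agent.Kac (Tor cst)
open Pool.Agent.Mix (Qr mem_Qr)

namespace CG

variable {d : ℕ} {E : Type} [MeasurableSpace E] (M : CG d E)

theorem meas_far_all (S : Finset (Zd d)) (y : Zd d → E) :
    MeasurableSet {x | ∀ v ∈ S, M.far v x (y v)} := by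
  have e : {x | ∀ v ∈ S, M.far v x (y v)} = ⋂ v ∈ S, {x | M.far v x (y v)} := by
    ext x
    simp only [Set.mem_ofPred_eq, Set.mem_iInter]
  rw [e]
  refine Finset.measurableSet_biInter _ fun v _ => ?_
  have h : Measurable fun x : E => (x, y v) := measurable_id.prodMk measurable_const
  exact h (M.far_meas v)

theorem meas_nf_all (S : Finset (Zd d)) (k : Zd d → ℕ) (y : Zd d → E) :
    MeasurableSet {x | ∀ v ∈ S, M.nf (k v) v x (y v)} := by
  have e : {x | ∀ v ∈ S, M.nf (k v) v x (y v)} = ⋂ v ∈ S, {x | M.nf (k v) v x (y v)} := by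
    ext x
    simp only [Set.mem_ofPred_eq, Set.mem_iInter]
  rw [e]
  refine Finset.measurableSet_biInter _ fun v _ => ?_
  have h : Measurable fun x : E => (x, y v) := measurable_id.prodMk measurable_const
  exact h (M.nf_meas (k v) v)

/-- **The shift inequality from measure preserving moves.** -/
theorem sh_of_mover {Θ : Type} [MeasurableSpace Θ] {h : E → ℝ} (hh : Measurable h) {RA Cl : Set E}
    (hCl : MeasurableSet Cl) (ν : Measure Θ) [IsProbabilityMeasure ν] {T : Θ → E → E}
    (hT : Measurable (Function.uncurry T))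
    (hpres : ∀ θ, MeasurePreserving (T θ) (M.π.restrict Cl) (M.π.restrict Cl))
    (h_T : ∀ θ, ∀ x ∈ Cl, h (T θ x) = h x)
    (nf_T : ∀ k v θ x y, k ≤ 1 → x ∈ Cl → M.nf (k + 1) v x y → M.nf k v (T θ x) y)
    {e1 : ENNReal} (far_T : ∀ v ∈ (Qr d M.r).erase 0, ∀ x ∈ Cl, ∀ y ∈ RA,
      ν {θ | ¬ M.far v (T θ x) y} ≤ e1) :
    M.SH h RA Cl (1 - ((2 * M.r + 1) ^ d : ℕ) * e1) := by
  classical
  have := M.fin_π
  intro S1 S2 k y hS1 hS2 hk hy _
  set N : Set E := {x | ∀ v ∈ S1, M.nf (k v + 1) v x (y v)} with hN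
  set N' : Set E := {x | ∀ v ∈ S1, M.nf (k v) v x (y v)} with hN'
  set G : Set E := {x | ∀ v ∈ S1 ∪ S2, M.far v x (y v)} with hG
  have hGm : MeasurableSet G := M.meas_far_all _ y
  have key := shift_one M.π ν (T := T) hT hCl hpres (g := fun x => ex (h x)) (measurable_ex hh)
    (fun θ x hx => by
      show ex (h (T θ x)) = ex (h x)
      rw [h_T θ x hx]) (N := N) (N' := N') (S := Set.univ) (C := Gᶜ)
    (M.meas_nf_all S1 k y) MeasurableSet.univ hGm.compl
    (c := 1 - ((2 * M.r + 1) ^ d : ℕ) * e1)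
    (ne_top_of_le_ne_top ENNReal.one_ne_top tsub_le_self)
    (fun θ x hx hxN v hv => nf_T (k v) v θ x (y v) (hk v hv) hx (hxN v hv))
    (fun x hx _ _ => by
      have e : (Set.univ : Set E) \ Gᶜ = G := by
        ext x
        simp
      rw [e, tsub_le_iff_right]
      have h1 : (Set.univ : Set Θ) ⊆ {θ | T θ x ∈ G} ∪
          ⋃ v ∈ S1 ∪ S2, {θ | ¬ M.far v (T θ x) (y v)} := by
        intro θ _
        by_cases hg : T θ x ∈ G
        · exact Or.inl hg
        · right
          have hg' : ¬ ∀ v ∈ S1 ∪ S2, M.far v (T θ x) (y v) := hg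
          push Not at hg'
          obtain ⟨v, hv, hf⟩ := hg'
          simp only [Set.mem_iUnion]
          exact ⟨v, hv, hf⟩
      calc (1 : ENNReal) = ν Set.univ := measure_univ.symm
        _ ≤ ν {θ | T θ x ∈ G} + ν (⋃ v ∈ S1 ∪ S2, {θ | ¬ M.far v (T θ x) (y v)}) :=
            (measure_mono h1).trans (measure_union_le _ _)
        _ ≤ ν {θ | T θ x ∈ G} + ((2 * M.r + 1) ^ d : ℕ) * e1 := by
            refine add_le_add le_rfl ((measure_biUnion_finset_le _ _).trans ?_)
            have h2 : ∀ v ∈ S1 ∪ S2, ν {θ | ¬ M.far v (T θ x) (y v)} ≤ e1 := by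
              intro v hv
              refine far_T v ?_ x hx (y v) (hy v hv)
              rcases mem_union.1 hv with h3 | h3
              · exact hS1 h3
              · exact hS2 h3
            refine (sum_le_sum h2).trans ?_
            rw [sum_const, nsmul_eq_mul]
            refine mul_le_mul_left ?_ _
            have h4 : (S1 ∪ S2).card ≤ (2 * M.r + 1) ^ d := by
              rw [← Mix.Bas.card_Qr (d := d) M.r]
              exact card_le_card ((union_subset hS1 hS2).trans (erase_subset _ _))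
            exact_mod_cast h4)
  refine le_trans (mul_le_mul_right (lintegral_mono fun x => ?_) _)
    (key.trans (lintegral_mono fun x => ?_))
  · refine mul_le_mul_right ?_ _
    refine Set.indicator_le_indicator_of_subset ?_ (fun _ => zero_le) x
    intro x hx
    exact ⟨fun v hv => (hx v hv).2, Set.mem_univ _⟩
  · refine mul_le_mul_right ?_ _
    refine Set.indicator_le_indicator_of_subset ?_ (fun _ => zero_le) x
    rintro x ⟨h1, -, h2⟩
    have h2' : x ∈ G := by
      by_contra hcon
      exact h2 hcon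
    exact ⟨fun v hv => ⟨h2' v (mem_union_left _ hv), h1 v hv⟩,
      fun v hv => h2' v (mem_union_right _ hv)⟩

end CG

end Pool.Agent.RC
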