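import Pool.Agent.Lib.MP_09cbbd_rc.CG
import Pool.Agent.Lib.MP_09cbbd_mix.Tor
import Pool.Agent.Lib.MP_09cbbd_mix.TorP

/-!
# The torus: Finner's inequality, the pressure, Jensen's inequality
-/

set_option autoImplicit false

namespace Pool.Agent.RC

open MeasureTheory Finset Filter Topology Pool.Agent.StableGas Pool.Agent.SquareWell
open Pool.Agent.Kac (Tor cst)
open Pool.Agent.Mix (Qr mem_Qr)

namespace CG

variable {d : ℕ} {E : Type} [MeasurableSpace E] (M : CG d E)

/-! ### Finner's inequality -/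

section Fin

variable {Γ : Type} [AddCommGroup Γ] [DecidableEq Γ] [Fintype Γ] (φ : Zd d → Γ)

omit [DecidableEq Γ] in
theorem fin_pointwise (B : Finset Γ) (h : Γ → E → ℝ) (ω : Γ → E) :
    M.wG φ (fun _ x => (∑ j ∈ B, h j x) / (B.card : ℝ)) univ ω ≤
      ∏ t : Γ, M.wG φ h B (fun j => ω (j + t)) ^ (1 / ((B.card : ℕ) : ℝ)) := by
  by_cases hc : M.cp φ univ ω
  · have hr : (0 : ℝ) ≤ 1 / ((B.card : ℕ) : ℝ) := by positivity
    have hc' : ∀ t, M.cp φ B (fun j => ω (j + t)) := by
      intro t v hv h0 i _ _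
      have h1 := hc v hv h0 (i + t) (mem_univ _) (mem_univ _)
      rw [add_right_comm] at h1
      exact h1
    have h1 : ∀ t, M.wG φ h B (fun j => ω (j + t)) ^ (1 / ((B.card : ℕ) : ℝ)) =
        ∏ i ∈ B, ex (h i (ω (i + t))) ^ (1 / ((B.card : ℕ) : ℝ)) := by
      intro t
      rw [M.wG_of_cp φ (hc' t), ENNReal.prod_rpow_of_nonneg hr]
    rw [M.wG_of_cp φ hc, prod_congr rfl fun t _ => h1 t,
      Pool.Agent.Kac.Tor.prod_shift B
        (fun i j => ex (h i (ω j)) ^ (1 / ((B.card : ℕ) : ℝ))), Finset.prod_comm]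
    refine le_of_eq (prod_congr rfl fun j _ => ?_)
    simp only [ex_rpow]
    rw [prod_ex, ← sum_mul]
    congr 1
    ring
  · rw [M.wG_of_not φ hc]
    exact zero_le

theorem fin_lower (B : Finset Γ) (hB : B.card ≠ 0) {h : Γ → E → ℝ} (hh : ∀ i, Measurable (h i)) :
    ∫⁻ ω : Γ → E, M.wG φ (fun _ x => (∑ j ∈ B, h j x) / (B.card : ℝ)) univ ω
        ∂(Measure.pi fun _ => M.π) ≤
      (lmarginal (fun _ : Γ => M.π) B (M.wG φ h B) fun _ => M.e0) ^
        ((Fintype.card Γ : ℝ) / (B.card : ℝ)) := by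
  have : IsFiniteMeasure M.π := M.fin_π
  set k : ℕ := B.card with hk
  have hk0 : (0:ℝ) < k := by exact_mod_cast Nat.pos_of_ne_zero hB
  refine (lintegral_mono fun ω => M.fin_pointwise φ B h ω).trans ?_
  have hinj : ∀ t : Γ, Function.Injective fun j : Γ => j + t := fun t => add_left_injective t
  have hm : ∀ t : Γ, Measurable fun ω : Γ → E => M.wG φ h B fun j => ω (j + t) := fun t =>
    (M.measurable_wG φ hh B).comp
      (measurable_pi_lambda _ fun j => measurable_pi_apply (j + t))
  have h1 := finner M.π (univ : Finset Γ) (fun t => B.image fun j => j + t)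
    (fun _ => 1 / (k : ℝ)) (fun _ _ => by positivity) (fun j => by
      have h2 : (univ.filter fun t : Γ => j ∈ B.image fun j => j + t).card = k := by
        rw [hk]
        refine card_bij (fun t _ => j - t) (fun t ht => ?_) (fun t _ t' _ h => ?_) fun i hi => ?_
        · obtain ⟨i, hi, rfl⟩ := mem_image.mp (mem_filter.mp ht).2
          simpa using hi
        · exact sub_right_injective h
        · refine ⟨j - i, ?_, by simp⟩
          rw [mem_filter]
          exact ⟨mem_univ _, mem_image.mpr ⟨i, hi, by simp⟩⟩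
      rw [← sum_filter, sum_const, h2, nsmul_eq_mul]
      field_simp)
    (fun t ω => M.wG φ h B fun j => ω (j + t)) (fun t _ => hm t)
    (fun t _ ω ω' h' => M.wG_dep φ h B fun j hj => h' (j + t) (mem_image_of_mem _ hj))
    (fun _ => M.e0)
  refine h1.trans (le_of_eq ?_)
  have h3 : ∀ t : Γ, lmarginal (fun _ : Γ => M.π) (B.image fun j => j + t)
      (fun ω => M.wG φ h B fun j => ω (j + t)) (fun _ => M.e0) =
      lmarginal (fun _ : Γ => M.π) B (M.wG φ h B) fun _ => M.e0 := fun t =>
    lmarginal_image (X := fun _ : Γ => E) (μ := fun _ : Γ => M.π) (hinj t) B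
      (M.measurable_wG φ hh B) fun _ => M.e0
  simp only [h3]
  rw [prod_const, card_univ, ← ENNReal.rpow_natCast, ← ENNReal.rpow_mul]
  congr 1
  ring

end Fin

/-- **Finner's inequality on the torus.** -/
theorem torus_lower (L : ℕ) (A : Finset (Tor d L)) (hA : A.card < (2 * L + 1) ^ d)
    {h : Tor d L → E → ℝ} (hh : ∀ i, Measurable (h i)) :
    M.ZT L (fun x => (∑ j ∈ univ \ A, h j x) / ((2 * L + 1 : ℝ) ^ d - A.card)) ≤
      M.ZC L A h ^ ((2 * L + 1 : ℝ) ^ d / ((2 * L + 1 : ℝ) ^ d - A.card)) := by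
  have hcard : Fintype.card (Tor d L) = (2 * L + 1) ^ d := by
    rw [Fintype.card_fun, ZMod.card, Fintype.card_fin]
  have h1 : (univ \ A).card = (2 * L + 1) ^ d - A.card := by
    rw [card_sdiff_of_subset (subset_univ A), card_univ, hcard]
  have h2 : (univ \ A).card ≠ 0 := by omega
  have h3 := M.fin_lower (cst L) (univ \ A) h2 hh
  have h4 : (((univ \ A).card : ℕ) : ℝ) = (2 * L + 1 : ℝ) ^ d - A.card := by
    rw [h1, Nat.cast_sub hA.le]
    push_cast
    ring
  have h5 : ((Fintype.card (Tor d L) : ℕ) : ℝ) = (2 * L + 1 : ℝ) ^ d := by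
    rw [hcard]
    push_cast
    ring
  rw [h4, h5] at h3
  exact h3

/-! ### Bounds -/

theorem ZT_ne_top (L : ℕ) {h : E → ℝ} (hh : M.Fld h) : M.ZT L h ≠ ⊤ := by
  have := M.fin_π
  unfold ZT
  have h1 : ∫⁻ ω : Tor d L → E, M.wG (cst L) (fun _ => h) univ ω ∂(Measure.pi fun _ => M.π) ≤
      (∫⁻ x, ex (h x) ∂M.π) ^ (univ : Finset (Tor d L)).card := by
    refine (lintegral_mono fun ω => M.wG_le (cst L) ω).trans (le_of_eq ?_)
    rw [lintegral_eq_lmarginal_univ (fun _ => M.e0),
      M.lm_prod univ (f := fun _ x => ex (h x)) (fun _ => hh.ex_meas), prod_const]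
  exact ne_top_of_le_ne_top (ENNReal.pow_ne_top hh.fin) h1

theorem one_le_ZT (L : ℕ) {h : E → ℝ} (hh : M.Fld h) : 1 ≤ M.ZT L h := by
  have := M.fin_π
  have h0 := mul_meas_ge_le_lintegral (μ := Measure.pi fun _ : Tor d L => M.π)
    (M.measurable_wG (cst L) (fun _ => hh.meas) univ) 1
  refine le_trans ?_ h0
  rw [one_mul]
  have h1 : ({fun _ => M.e0} : Set (Tor d L → E)) ⊆
      {ω | 1 ≤ M.wG (cst L) (fun _ => h) univ ω} := by
    intro ω hω
    rw [Set.mem_singleton_iff] at hω
    subst hω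
    show 1 ≤ M.wG (cst L) (fun _ => h) univ _
    rw [M.wG_of_cp (cst L) (fun v _ _ i _ _ => M.okc_e0 v _)]
    simp [hh.e0, ex_zero]
  refine le_trans ?_ (measure_mono h1)
  rw [← Set.univ_pi_singleton, Measure.pi_pi]
  simp [M.π_e0]

theorem ZT_pos (L : ℕ) {h : E → ℝ} (hh : M.Fld h) : 0 < (M.ZT L h).toReal :=
  ENNReal.toReal_pos (lt_of_lt_of_le one_pos (M.one_le_ZT L hh)).ne' (M.ZT_ne_top L hh)

theorem ZT_eq_ex (L : ℕ) {h : E → ℝ} (hh : M.Fld h) :
    ex (Real.log (M.ZT L h).toReal) = M.ZT L h :=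
  ex_log (lt_of_lt_of_le one_pos (M.one_le_ZT L hh)).ne' (M.ZT_ne_top L hh)

/-! ### Transfer between the torus and the lattice -/

/-- Transfer of marginals between the torus and the lattice. -/
theorem transfer {L : ℕ} {B : Finset (Zd d)} {e : Tor d L → Zd d} (he : Function.Injective e)
    (hB : ∀ i ∈ B, e (cst L i) = i) {F : (Zd d → E) → ENNReal} (hF : Measurable F)
    (hdep : ∀ x y : Zd d → E, (∀ i ∈ B, x i = y i) → F x = F y) :
    lmarginal (fun _ : Tor d L => M.π) (B.image (cst L)) (fun ω => F fun i => ω (cst L i))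
      (fun _ => M.e0) = M.int B F := by
  have := M.fin_π
  have h1 : (B.image (cst L)).image e = B := by
    ext i
    constructor
    · intro hi
      obtain ⟨t, ht, rfl⟩ := mem_image.1 hi
      obtain ⟨j, hj, rfl⟩ := mem_image.1 ht
      rw [hB j hj]
      exact hj
    · intro hi
      exact mem_image.2 ⟨cst L i, mem_image_of_mem _ hi, hB i hi⟩
  have hm : Measurable fun ω : Tor d L → E => F fun i => ω (cst L i) :=
    hF.comp (measurable_pi_iff.2 fun i => measurable_pi_apply _)
  have h := lmarginal_image (μ := fun _ : Zd d => M.π) (X := fun _ => E) he (B.image (cst L))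
    hm (fun _ => M.e0)
  refine h.symm.trans ?_
  rw [h1]
  unfold int
  congr 1
  funext ω
  refine hdep _ _ fun i hi => ?_
  show ω (e (cst L i)) = ω i
  rw [hB i hi]

open Pool.Agent.Kac.TorP (cst_add cst_inj mem_bx vl vl_inj vl_cst cst_vl vl_mem)

theorem ZT_le_xi (L : ℕ) {h : E → ℝ} (hh : M.Fld h) : M.ZT L h ≤ M.xi h (bx d (2 * L + 1)) := by
  classical
  have := M.fin_π
  set B := bx d (2 * L + 1) with hB
  have hB1 : ∀ i ∈ B, ∀ k, 0 ≤ i k ∧ i k < 2 * L + 1 := fun i hi k => by
    have := mem_bx.1 hi k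
    push_cast at this
    exact this
  have hB2 : ∀ i ∈ B, vl (cst L i) = i := fun i hi => vl_cst (hB1 i hi)
  have hinj : ∀ i ∈ B, ∀ j ∈ B, cst L i = cst L j → i = j := fun i hi j hj h => by
    rw [← hB2 i hi, ← hB2 j hj, h]
  have hA : (univ : Finset (Tor d L)) = B.image (cst L) := by
    ext t
    simp only [mem_univ, true_iff]
    exact mem_image.2 ⟨vl t, vl_mem t, cst_vl t⟩
  unfold ZT xi
  rw [lintegral_eq_lmarginal_univ (fun _ => M.e0),
    ← M.transfer vl_inj hB2 (M.measurable_w hh.meas B) (M.w_dep h B), ← hA]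
  refine M.lm_mono univ (fun ω => ?_) _
  by_cases hc : M.cp (cst L) univ ω
  · have h' : M.cp id B fun i => ω (cst L i) := fun v hv h0 i hi hi2 => by
      have := hc v hv h0 (cst L i) (mem_univ _) (mem_univ _)
      rw [← cst_add] at this
      exact this
    rw [M.wG_of_cp _ hc, M.w_of_cp h', hA, prod_image hinj]
  · rw [M.wG_of_not _ hc]
    exact zero_le

theorem xi_le_ZT (L : ℕ) (hL : M.r ≤ 2 * L + 1) {h : E → ℝ} (hh : M.Fld h) :
    M.xi h (bx d (2 * L + 1 - M.r)) ≤ M.ZT L h := by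
  classical
  have := M.fin_π
  set B := bx d (2 * L + 1 - M.r) with hB
  set A := B.image (cst L) with hA
  have hB1 : ∀ i ∈ B, ∀ k, 0 ≤ i k ∧ i k + M.r < 2 * L + 1 := fun i hi k => by
    have := mem_bx.1 hi k
    omega
  have hB2 : ∀ i ∈ B, vl (cst L i) = i := fun i hi => vl_cst fun k => by
    have := hB1 i hi k
    omega
  have hinj : ∀ i ∈ B, ∀ j ∈ B, cst L i = cst L j → i = j := fun i hi j hj h => by
    rw [← hB2 i hi, ← hB2 j hj, h]
  have hm := M.measurable_wG (cst L) (fun _ => hh.meas) (univ : Finset (Tor d L))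
  have e1 : M.ZT L h = lmarginal (fun _ : Tor d L => M.π) A
      (lmarginal (fun _ : Tor d L => M.π) (univ \ A)
        (M.wG (cst L) (fun _ => h) univ)) (fun _ => M.e0) := by
    unfold ZT
    rw [lintegral_eq_lmarginal_univ (fun _ => M.e0), ← lmarginal_union _ _ hm disjoint_sdiff,
      union_sdiff_of_subset (subset_univ A)]
  rw [e1]
  unfold xi
  rw [← M.transfer vl_inj hB2 (M.measurable_w hh.meas B) (M.w_dep h B)]
  refine M.lm_mono A (fun ω => ?_) _
  refine le_trans ?_ (M.le_lm (univ \ A) hm ω)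
  set ω' : Tor d L → E := fun t => if t ∈ univ \ A then M.e0 else ω t with hω'
  have hω1 : ∀ i ∈ B, ω' (cst L i) = ω (cst L i) := fun i hi => by
    have : cst L i ∈ A := mem_image_of_mem _ hi
    simp [hω', this]
  have hω2 : ∀ t, t ∉ A → ω' t = M.e0 := fun t ht => by simp [hω', ht]
  by_cases hc : M.cp id B fun i => ω (cst L i)
  · have h' : M.cp (cst L) univ ω' := fun v hv h0 s _ _ => by
      by_cases h1 : s ∈ A
      · by_cases h2 : s + cst L v ∈ A
        · obtain ⟨i, hi, rfl⟩ := mem_image.1 h1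
          obtain ⟨j, hj, hj2⟩ := mem_image.1 h2
          rw [mem_Qr] at hv
          rw [← cst_add] at hj2
          have h3 : i + v = j := (cst_inj hj2.symm fun k => by
            have h4 := hB1 i hi k
            have h5 := hB1 j hj k
            have h6 := abs_le.1 (hv k)
            simp only [Pi.add_apply]
            rw [abs_le]
            constructor <;> omega)
          have h7 : i + v ∈ B := h3 ▸ hj
          have h8 := hc v (mem_Qr.2 hv) h0 i hi h7
          rw [← cst_add, hω1 i hi, hω1 _ h7]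
          exact h8
        · rw [hω2 _ h2]
          exact M.okc_e0' v _
      · rw [hω2 s h1]
        exact M.okc_e0 v _
    rw [M.w_of_cp hc, M.wG_of_cp _ h', ← prod_subset (subset_univ A), hA, prod_image hinj]
    · exact le_of_eq (prod_congr rfl fun i hi => by rw [hω1 i hi])
    · intro s _ hs
      rw [hω2 s hs, hh.e0, ex_zero]
  · rw [M.w_of_not hc]
    exact zero_le

variable {M} in
/-- The pressure is the limit on the torus. -/
theorem IsP.torus {h : E → ℝ} {p : ℝ} (hh : M.Fld h) (hp : M.IsP h p) :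
    Tendsto (fun L : ℕ => Real.log (M.ZT L h).toReal / (2 * L + 1 : ℝ) ^ d) atTop (𝓝 p) := by
  have hT : Tendsto (fun L : ℕ => (2 * L + 1 : ℝ)) atTop atTop := by
    refine tendsto_atTop_mono (fun L => ?_) (tendsto_natCast_atTop_atTop (R := ℝ))
    have : (0 : ℝ) ≤ L := Nat.cast_nonneg L
    show (L : ℝ) ≤ 2 * L + 1
    linarith
  have hc : ∀ c : ℝ, Tendsto (fun L : ℕ => (1 - c / (2 * L + 1 : ℝ)) ^ d) atTop (𝓝 1) := fun c => by
    have h1 := (tendsto_const_nhds (x := (1 : ℝ))).sub ((tendsto_const_nhds (x := c)).div_atTop hT)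
    have h2 := h1.pow d
    simpa using h2
  have h2L : Tendsto (fun L : ℕ => 2 * L + 1 - M.r) atTop atTop := by
    refine tendsto_atTop.2 fun b => ?_
    filter_upwards [eventually_ge_atTop (b + M.r)] with L hL
    omega
  have h2L1 : Tendsto (fun L : ℕ => 2 * L + 1) atTop atTop :=
    tendsto_atTop_mono (fun L => show L ≤ 2 * L + 1 by omega) tendsto_id
  have hlow : Tendsto (fun L : ℕ => Real.log (M.xi h (bx d (2 * L + 1 - M.r))).toReal /
      ((2 * L + 1 - M.r : ℕ) : ℝ) ^ d * (1 - M.r / (2 * L + 1 : ℝ)) ^ d) atTop (𝓝 p) := by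
    have h1 := (hp.comp h2L).mul (hc M.r)
    rw [mul_one] at h1
    exact h1
  have hup : Tendsto (fun L : ℕ => Real.log (M.xi h (bx d (2 * L + 1))).toReal /
      ((2 * L + 1 : ℕ) : ℝ) ^ d) atTop (𝓝 p) := hp.comp h2L1
  have hxi0 : ∀ n : ℕ, 0 < (M.xi h (bx d n)).toReal := fun n => M.xi_pos hh _
  have hZ0 : ∀ L : ℕ, 0 < (M.ZT L h).toReal := fun L => M.ZT_pos L hh
  refine tendsto_of_tendsto_of_tendsto_of_le_of_le' hlow hup ?_ ?_
  · filter_upwards [eventually_ge_atTop M.r] with L hL
    have h1 : Real.log (M.xi h (bx d (2 * L + 1 - M.r))).toReal ≤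
        Real.log (M.ZT L h).toReal :=
      Real.log_le_log (hxi0 _) (ENNReal.toReal_mono (M.ZT_ne_top L hh)
        (M.xi_le_ZT L (by omega) hh))
    have hr1 : M.r < 2 * L + 1 := by omega
    have e0 : ((2 * L + 1 - M.r : ℕ) : ℝ) = 2 * L + 1 - M.r := by
      rw [Nat.cast_sub hr1.le]
      push_cast
      ring
    have hpos : (0 : ℝ) < 2 * L + 1 - M.r := by
      have : (M.r : ℝ) < 2 * L + 1 := by exact_mod_cast hr1
      linarith
    have hpos2 : (0 : ℝ) < 2 * L + 1 := by positivity
    have e1 : (1 - M.r / (2 * L + 1 : ℝ)) = (2 * L + 1 - M.r) / (2 * L + 1) := by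
      field_simp
    rw [e1, div_pow, e0]
    have h3 : (0 : ℝ) < (2 * L + 1 - M.r : ℝ) ^ d := by positivity
    have h4 : (0 : ℝ) < (2 * L + 1 : ℝ) ^ d := by positivity
    rw [div_mul_div_comm, mul_comm ((2 * L + 1 - M.r : ℝ) ^ d) ((2 * L + 1 : ℝ) ^ d),
      mul_div_mul_right _ _ h3.ne']
    exact div_le_div_of_nonneg_right h1 h4.le
  · filter_upwards with L
    have h4 : (0 : ℝ) < (2 * L + 1 : ℝ) ^ d := by positivity
    have h1 : Real.log (M.ZT L h).toReal ≤ Real.log (M.xi h (bx d (2 * L + 1))).toReal :=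
      Real.log_le_log (hZ0 L) (ENNReal.toReal_mono (M.xi_ne_top hh _) (M.ZT_le_xi L hh))
    have e2 : (((2 * L + 1 : ℕ) : ℝ)) = 2 * L + 1 := by push_cast; ring
    rw [e2]
    exact div_le_div_of_nonneg_right h1 h4.le

/-! ### Jensen's inequality -/

/-- Integral of a sum over the sites of the torus. -/
noncomputable def ST (L : ℕ) (h f : E → ℝ) : ENNReal :=
  ∫⁻ ω : Tor d L → E, M.wG (cst L) (fun _ => h) univ ω * ENNReal.ofReal (∑ i, f (ω i))
    ∂(Measure.pi fun _ => M.π)

theorem measurable_ofsum {Γ : Type} [Fintype Γ] {f : E → ℝ} (hf : Measurable f) :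
    Measurable fun ω : Γ → E => ENNReal.ofReal (∑ i, f (ω i)) :=
  (Finset.measurable_sum _ fun i _ => hf.comp (measurable_pi_apply i)).ennreal_ofReal

/-- **Jensen's inequality**, lowering the field: if the mean of `∑ f` is at most `a`, then lowering
the field by `f` costs at most the factor `exp (-a)`. -/
theorem jensen_sub (L : ℕ) {h f : E → ℝ} (hh : M.Fld h) (hf : Measurable f) (hf0 : ∀ x, 0 ≤ f x)
    {a : ℝ} (ha : 0 ≤ a) (hS : M.ST L h f ≤ ENNReal.ofReal a * M.ZT L h) :
    ex (-a) * M.ZT L h ≤ M.ZT L (fun x => h x - f x) := by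
  have := M.fin_π
  have hZ := M.ZT_ne_top L hh
  set W : (Tor d L → E) → ENNReal := M.wG (cst L) (fun _ => h) univ with hW
  have hWm : Measurable W := M.measurable_wG (cst L) (fun _ => hh.meas) univ
  have hNm := measurable_ofsum (Γ := Tor d L) hf
  have hVm : Measurable fun ω : Tor d L → E => W ω * ENNReal.ofReal (∑ i, f (ω i)) :=
    hWm.mul hNm
  -- pointwise
  have key : ∀ ω : Tor d L → E, ENNReal.ofReal (Real.exp (-a) * (1 + a)) * W ω ≤
      M.wG (cst L) (fun _ x => h x - f x) univ ω +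
        ex (-a) * (W ω * ENNReal.ofReal (∑ i, f (ω i))) := by
    intro ω
    have e1 : M.wG (cst L) (fun _ x => h x - f x) univ ω = W ω * ex (-∑ i, f (ω i)) := by
      have := M.wG_add (cst L) (fun _ => h) (fun _ x => -f x) univ ω
      simp only [← sub_eq_add_neg] at this
      rw [this, sum_neg_distrib]
    rw [e1]
    set N : ℝ := ∑ i, f (ω i) with hN
    have hN0 : 0 ≤ N := sum_nonneg fun i _ => hf0 _
    have h1 : Real.exp (-a) * (1 + a) ≤ Real.exp (-N) + Real.exp (-a) * N := by
      have h2 : Real.exp (-N) = Real.exp (-a) * Real.exp (a - N) := by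
        rw [← Real.exp_add]
        congr 1
        ring
      rw [h2]
      have h3 := Real.add_one_le_exp (a - N)
      have h4 := Real.exp_pos (-a)
      nlinarith
    have h5 : ENNReal.ofReal (Real.exp (-a) * (1 + a)) ≤
        ex (-N) + ex (-a) * ENNReal.ofReal N := by
      unfold ex
      rw [← ENNReal.ofReal_mul (Real.exp_pos _).le, ← ENNReal.ofReal_add (Real.exp_pos _).le
        (mul_nonneg (Real.exp_pos _).le hN0)]
      exact ENNReal.ofReal_le_ofReal h1
    calc ENNReal.ofReal (Real.exp (-a) * (1 + a)) * W ω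
        ≤ (ex (-N) + ex (-a) * ENNReal.ofReal N) * W ω := mul_le_mul' h5 le_rfl
      _ = W ω * ex (-N) + ex (-a) * (W ω * ENNReal.ofReal N) := by ring
  have h2 : ENNReal.ofReal (Real.exp (-a) * (1 + a)) * M.ZT L h ≤
      M.ZT L (fun x => h x - f x) + ex (-a) * M.ST L h f := by
    have h3 := lintegral_mono (μ := Measure.pi fun _ : Tor d L => M.π) key
    rw [lintegral_const_mul _ hWm, lintegral_add_right _ (hVm.const_mul _),
      lintegral_const_mul _ hVm] at h3
    exact h3
  have h4 : ENNReal.ofReal (Real.exp (-a) * (1 + a)) = ex (-a) + ex (-a) * ENNReal.ofReal a := by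
    unfold ex
    rw [← ENNReal.ofReal_mul (Real.exp_pos _).le, ← ENNReal.ofReal_add (Real.exp_pos _).le
      (mul_nonneg (Real.exp_pos _).le ha)]
    congr 1
    ring
  rw [h4, add_mul] at h2
  have h5 : ex (-a) * M.ST L h f ≤ ex (-a) * ENNReal.ofReal a * M.ZT L h := by
    rw [mul_assoc]
    exact mul_le_mul' le_rfl hS
  have h6 := h2.trans (add_le_add le_rfl h5)
  exact (ENNReal.add_le_add_iff_right (ENNReal.mul_ne_top (ENNReal.mul_ne_top (ex_ne_top _)
    ENNReal.ofReal_ne_top) hZ)).1 h6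

/-- **Jensen's inequality**, raising the field: if raising the field by `f` multiplies the partition
function by at most `exp a`, then the mean of `∑ f` is at most `a`. -/
theorem jensen_add (L : ℕ) {h f : E → ℝ} (hh : M.Fld h) (hf : Measurable f) (hf0 : ∀ x, 0 ≤ f x)
    {a : ℝ} (ha : 0 ≤ a) (hZf : M.ZT L (fun x => h x + f x) ≤ ex a * M.ZT L h) :
    M.ST L h f ≤ ENNReal.ofReal a * M.ZT L h := by
  have := M.fin_π
  have hZ := M.ZT_ne_top L hh
  set W : (Tor d L → E) → ENNReal := M.wG (cst L) (fun _ => h) univ with hW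
  have hWm : Measurable W := M.measurable_wG (cst L) (fun _ => hh.meas) univ
  have hNm := measurable_ofsum (Γ := Tor d L) hf
  have hVm : Measurable fun ω : Tor d L → E => W ω * ENNReal.ofReal (∑ i, f (ω i)) :=
    hWm.mul hNm
  have key : ∀ ω : Tor d L → E, ex a * W ω + ex a * (W ω * ENNReal.ofReal (∑ i, f (ω i))) ≤
      M.wG (cst L) (fun _ x => h x + f x) univ ω + ENNReal.ofReal (Real.exp a * a) * W ω := by
    intro ω
    have e1 : M.wG (cst L) (fun _ x => h x + f x) univ ω = W ω * ex (∑ i, f (ω i)) :=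
      M.wG_add (cst L) (fun _ => h) (fun _ x => f x) univ ω
    rw [e1]
    set N : ℝ := ∑ i, f (ω i) with hN
    have hN0 : 0 ≤ N := sum_nonneg fun i _ => hf0 _
    have h1 : Real.exp a + Real.exp a * N ≤ Real.exp N + Real.exp a * a := by
      have h2 : Real.exp N = Real.exp a * Real.exp (N - a) := by
        rw [← Real.exp_add]
        congr 1
        ring
      rw [h2]
      have h3 := Real.add_one_le_exp (N - a)
      have h4 := Real.exp_pos a
      nlinarith
    have h5 : ex a + ex a * ENNReal.ofReal N ≤ ex N + ENNReal.ofReal (Real.exp a * a) := by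
      unfold ex
      rw [← ENNReal.ofReal_mul (Real.exp_pos _).le, ← ENNReal.ofReal_add (Real.exp_pos _).le
        (mul_nonneg (Real.exp_pos _).le hN0), ← ENNReal.ofReal_add (Real.exp_pos _).le
        (mul_nonneg (Real.exp_pos _).le ha)]
      exact ENNReal.ofReal_le_ofReal h1
    calc ex a * W ω + ex a * (W ω * ENNReal.ofReal N)
        = (ex a + ex a * ENNReal.ofReal N) * W ω := by ring
      _ ≤ (ex N + ENNReal.ofReal (Real.exp a * a)) * W ω := mul_le_mul' h5 le_rfl
      _ = W ω * ex N + ENNReal.ofReal (Real.exp a * a) * W ω := by ring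
  have h2 : ex a * M.ZT L h + ex a * M.ST L h f ≤
      M.ZT L (fun x => h x + f x) + ENNReal.ofReal (Real.exp a * a) * M.ZT L h := by
    have h3 := lintegral_mono (μ := Measure.pi fun _ : Tor d L => M.π) key
    rw [lintegral_add_left (hWm.const_mul _), lintegral_const_mul _ hWm,
      lintegral_const_mul _ hVm, lintegral_add_right _ (hWm.const_mul _),
      lintegral_const_mul _ hWm] at h3
    exact h3
  have h3 : ex a * M.ZT L h + ex a * M.ST L h f ≤
      ex a * M.ZT L h + ex a * (ENNReal.ofReal a * M.ZT L h) := by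
    refine h2.trans (add_le_add hZf (le_of_eq ?_))
    unfold ex
    rw [ENNReal.ofReal_mul (Real.exp_pos _).le, mul_assoc]
  have h4 := (ENNReal.add_le_add_iff_left (ENNReal.mul_ne_top (ex_ne_top a) hZ)).1 h3
  exact (ENNReal.mul_le_mul_iff_right (ex_ne_zero a) (ex_ne_top a)).1 h4

end CG

end Pool.Agent.RC
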