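import Pool.Agent.Lib.MP_09cbbd_rc.Cell

/-!
# Masses of the pieces of the molecules
-/

set_option autoImplicit false

namespace Pool.Agent.RC.Cell

open MeasureTheory Finset
open Pool.Agent.Exg Pool.Agent.Mix Pool.Agent.SquareWell Pool.Agent.ExGas Pool.Agent.SquareWellGas
  Pool.Agent.StableGas

variable {d : ℕ} {i₁ i₂ : Fin d} {m : ℕ} {R α a b β β' τ ε : ℝ} {N E : Set (Fin d → ℝ)}

/-! ### Contents of one direction -/

/-- Number of the beads of a content of direction `i`. -/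
theorem card_dir {i : Fin d} {α δ : ℝ} {M : ℕ} (hα : 0 < α) (hδ : 0 ≤ δ) (h3 : 3 * δ < α)
    (hM : 0 < M) {x : Ct (Fin d → ℝ)} (hx : InDir i α δ M x) : x.1 ≤ M := by
  have h := Bd.card_le (i := i) (α := α) (δ := δ) (m := M) hα hδ h3 hM (bd x) fun k l hkl =>
    hx k k.2 l l.2 fun h => hkl (Fin.ext h)
  simpa using h

/-- Integrals over the contents of direction `i`, for any excluded set. -/
theorem lint_dir (hE : MeasurableSet E) {i : Fin d} {α δ : ℝ} {M : ℕ} (hα : 0 < α) (hδ : 0 ≤ δ)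
    (h3 : 3 * δ < α) (hM : 0 < M) {F : Ct (Fin d → ℝ) → ENNReal} (hF : Measurable F)
    {S : Set (Fin d → ℝ)} (hS : MeasurableSet S) (f : ℕ → ENNReal)
    (hFS : ∀ x, Vx E x → F x ≠ 0 → x.1 ≠ 0 ∧ x.2 0 ∈ S ∧ InDir i α δ M x)
    (hf : ∀ x, Vx E x → F x ≠ 0 → F x ≤ f x.1) :
    ∫⁻ x, F x ∂(sys hE).pg ≤
      ∑ n ∈ range M, f (n + 1) * ((2 * M) ^ n * (volume S * (ENNReal.ofReal (2 * δ) ^ d) ^ n)) := by
  rw [lint_pg hE hF, tsum_eq_zero_add' ENNReal.summable]
  have e0' : ∀ u : Fin 0 → Fin d → ℝ, F (Ct.pad (0 : Fin d → ℝ) u) = 0 := fun u => by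
    rw [pad_zero_eq]
    by_contra hne
    exact (hFS e0 Vx_e0 hne).1 rfl
  rw [lintegral_congr e0', lintegral_zero, mul_zero, zero_add]
  have key : ∀ n : ℕ, (((n + 1).factorial : ENNReal))⁻¹ *
      ∫⁻ u in Cf E (Fin (n + 1)) (Box d 1), F (Ct.pad (0 : Fin d → ℝ) u) ≤
      if n < M then f (n + 1) * ((2 * M) ^ n *
        (volume S * (ENNReal.ofReal (2 * δ) ^ d) ^ n)) else 0 := by
    intro n
    have h1 : (((n + 1).factorial : ENNReal))⁻¹ ≤ 1 := by
      rw [ENNReal.inv_le_one]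
      exact_mod_cast Nat.one_le_iff_ne_zero.2 (Nat.factorial_ne_zero _)
    refine le_trans (mul_le_mul' h1 le_rfl) ?_
    rw [one_mul]
    have hpt : ∀ u ∈ Cf E (Fin (n + 1)) (Box d 1), F (Ct.pad (0 : Fin d → ℝ) u) ≤
        (Dir i α δ M n S).indicator (fun _ => if n < M then f (n + 1) else 0) u := by
      intro u hu
      have hx : Vx E (Ct.pad (0 : Fin d → ℝ) u) := (Vx_pad_iff u).2 hu
      by_cases h0 : F (Ct.pad (0 : Fin d → ℝ) u) = 0
      · rw [h0]
        exact zero_le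
      obtain ⟨hn, hSu, hr⟩ := hFS _ hx h0
      have hc := card_dir hα hδ h3 hM hr
      have hnM : n < M := hc
      have hmem : u ∈ Dir i α δ M n S := by
        refine ⟨?_, fun l => ?_⟩
        · rwa [show (Ct.pad (0 : Fin d → ℝ) u).2 0 = u 0 from Ct.pad_snd _ u 0] at hSu
        · have := hr l.succ l.succ.2 0 (Nat.succ_pos n) (Nat.succ_ne_zero l)
          rw [Ct.pad_snd _ u l.succ, show (Ct.pad (0 : Fin d → ℝ) u).2 0 = u 0 from
            Ct.pad_snd _ u 0] at this
          exact this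
      rw [Set.indicator_of_mem hmem, if_pos hnM]
      exact hf _ hx h0
    obtain ⟨A, hA⟩ : ∃ A, A = toMeasurable volume (Dir i α δ M n S) := ⟨_, rfl⟩
    have mA : MeasurableSet A := by rw [hA]; exact measurableSet_toMeasurable _ _
    have vA : volume A = volume (Dir i α δ M n S) := by rw [hA]; exact measure_toMeasurable _
    have sA : Dir i α δ M n S ⊆ A := by rw [hA]; exact subset_toMeasurable _ _
    have h2 : ∫⁻ u in Cf E (Fin (n + 1)) (Box d 1), F (Ct.pad (0 : Fin d → ℝ) u) ≤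
        ∫⁻ u, A.indicator (fun _ => if n < M then f (n + 1) else 0) u :=
      (setLIntegral_mono' (measurableSet_Cf hE (CanM.measurableSet_Box 1))
        (fun u hu => (hpt u hu).trans
          (Set.indicator_le_indicator_of_subset sA (fun _ => zero_le) u))).trans
        (setLIntegral_le_lintegral _ _)
    refine h2.trans ?_
    rw [lintegral_indicator_const mA, vA]
    split_ifs with h4
    · exact mul_le_mul' le_rfl (vol_Dir_le i α δ M n hS)
    · rw [zero_mul]
  refine (ENNReal.tsum_le_tsum key).trans ?_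
  rw [tsum_eq_sum (s := range M)]
  · refine sum_le_sum fun n hn => ?_
    rw [if_pos (mem_range.1 hn)]
  · intro n hn
    rw [if_neg (by simpa using hn)]

/-- The sum of the powers. -/
theorem sum_pow_le {M : ℕ} (hM : 0 < M) {C : ENNReal} {g : ℕ → ENNReal}
    (hg : ∀ n < M, g n ≤ (2 * M) ^ n * C) : ∑ n ∈ range M, g n ≤ (2 * M) ^ M * C := by
  obtain ⟨k, rfl⟩ : ∃ k, M = k + 1 := ⟨M - 1, by omega⟩
  have h1 : (1 : ENNReal) ≤ 2 * ((k + 1 : ℕ) : ENNReal) := by
    calc (1 : ENNReal) ≤ 2 * 1 := by norm_num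
      _ ≤ 2 * ((k + 1 : ℕ) : ENNReal) := mul_le_mul' le_rfl (by
          push_cast
          exact le_add_self)
  calc ∑ n ∈ range (k + 1), g n ≤ ∑ _n ∈ range (k + 1), (2 * ((k + 1 : ℕ) : ENNReal)) ^ k * C := by
        refine sum_le_sum fun n hn => (hg n (mem_range.1 hn)).trans (mul_le_mul' ?_ le_rfl)
        exact pow_le_pow_right₀ h1 (by have := mem_range.1 hn; omega)
    _ = ((k + 1 : ℕ) : ENNReal) * ((2 * ((k + 1 : ℕ) : ENNReal)) ^ k * C) := by
        rw [sum_const, card_range, nsmul_eq_mul]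
    _ ≤ (2 * ((k + 1 : ℕ) : ENNReal)) * ((2 * ((k + 1 : ℕ) : ENNReal)) ^ k * C) := by
        refine mul_le_mul' ?_ le_rfl
        calc ((k + 1 : ℕ) : ENNReal) = 1 * ((k + 1 : ℕ) : ENNReal) := (one_mul _).symm
          _ ≤ 2 * ((k + 1 : ℕ) : ENNReal) := mul_le_mul' (by norm_num) le_rfl
    _ = _ := by rw [← mul_assoc, ← pow_succ']

/-- **(ML)**: a piece of a molecule with the first bead in `W`, the missing beads being counted with
the weight `ex lam` each. -/
theorem ML (hE : MeasurableSet E) {i : Fin d} {α δ ζ : ℝ} {M : ℕ} (hα : 0 < α) (hδ : 0 < δ)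
    (h3 : 3 * δ < α) (hM : 0 < M) {W : Set (Fin d → ℝ)} (hW : MeasurableSet W)
    {A : Set (Ct (Fin d → ℝ))} (hA : MeasurableSet A)
    (hAW : ∀ x ∈ A, Vx E x → x.1 ≠ 0 ∧ x.2 0 ∈ W ∧ InDir i α δ M x) :
    ∫⁻ x in A, ex (ζ * x.1 + (M - x.1) * (ζ + d * Real.log (2 * δ))) ∂(sys hE).pg ≤
      (2 * M) ^ M * (volume W * ex (M * ζ + (M - 1) * (d * Real.log (2 * δ)))) := by
  have h1 : Measurable fun x : Ct (Fin d → ℝ) => (x.1 : ℝ) :=
    (measurable_of_countable fun n : ℕ => (n : ℝ)).comp measurable_fst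
  have hm : Measurable fun x : Ct (Fin d → ℝ) =>
      ex (ζ * x.1 + (M - x.1) * (ζ + d * Real.log (2 * δ))) := by
    unfold ex
    exact ((h1.const_mul ζ).add ((h1.const_sub _).mul_const _)).exp.ennreal_ofReal
  rw [← lintegral_indicator hA]
  refine (lint_dir hE (i := i) hα hδ.le h3 hM (hm.indicator hA) hW
    (fun n => ex (ζ * n + (M - n) * (ζ + d * Real.log (2 * δ)))) (fun x hx h0 => ?_)
    (fun x _ _ => Set.indicator_le_self' (fun _ _ => zero_le) x)).trans ?_
  · by_cases hxA : x ∈ A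
    · exact hAW x hxA hx
    · exact absurd (Set.indicator_of_notMem hxA _) h0
  · refine sum_pow_le hM fun n _ => ?_
    rw [ofReal_pow_eq hδ]
    calc ex (ζ * (n + 1 : ℕ) + (M - (n + 1 : ℕ)) * (ζ + d * Real.log (2 * δ))) *
          ((2 * (M : ENNReal)) ^ n * (volume W * ex (n * (d * Real.log (2 * δ)))))
        = (2 * (M : ENNReal)) ^ n * (volume W *
          (ex (ζ * (n + 1 : ℕ) + (M - (n + 1 : ℕ)) * (ζ + d * Real.log (2 * δ))) *
            ex (n * (d * Real.log (2 * δ))))) := by ring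
      _ = (2 * (M : ENNReal)) ^ n * (volume W *
          ex (M * ζ + (M - 1) * (d * Real.log (2 * δ)))) := by
          rw [← ex_add]
          congr 3
          push_cast
          ring
      _ ≤ _ := le_rfl

/-- The volume of the windows of direction `i`. -/
theorem vol_Win_le (i : Fin d) (α δ : ℝ) (M : ℕ) :
    volume {u : Fin d → ℝ | Bd.Win i α δ M u} ≤ (2 * M) * ENNReal.ofReal (2 * δ) ^ d := by
  classical
  have h1 : {u : Fin d → ℝ | Bd.Win i α δ M u} ⊆ ⋃ k ∈ Finset.Ioo (-(M : ℤ)) M,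
      {u : Fin d → ℝ | ∀ j, |u j - (if j = i then (k : ℝ) * α else 0)| ≤ δ} := by
    rintro u ⟨k, -, h2, h3, h4⟩
    rw [Set.mem_iUnion₂]
    refine ⟨k, Finset.mem_Ioo.2 (abs_lt.1 h2), fun j => ?_⟩
    by_cases hj : j = i
    · subst hj
      rw [if_pos rfl]
      exact h3
    · rw [if_neg hj, sub_zero]
      exact h4 j hj
  refine (measure_mono h1).trans ((measure_biUnion_finset_le _ _).trans ?_)
  rw [Finset.sum_congr rfl fun k _ => vol_cube (fun j => if j = i then ((k : ℤ) : ℝ) * α else 0) δ,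
    sum_const, nsmul_eq_mul]
  refine mul_le_mul' ?_ le_rfl
  have hc : (Finset.Ioo (-(M : ℤ)) M).card ≤ 2 * M := by
    rw [Int.card_Ioo]
    omega
  calc ((Finset.Ioo (-(M : ℤ)) M).card : ENNReal) ≤ ((2 * M : ℕ) : ENNReal) := by exact_mod_cast hc
    _ = _ := by push_cast; rfl

/-- **(MO)**: a piece of a molecule with the first bead in a window of the first bead of `y`, the
beads being counted with the weight `(2 δ) ^ (- d)` each. -/
theorem MO (hE : MeasurableSet E) {i : Fin d} {α δ : ℝ} {M : ℕ} (hα : 0 < α) (hδ : 0 < δ)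
    (h3 : 3 * δ < α) (hM : 0 < M) (z : Fin d → ℝ) {A : Set (Ct (Fin d → ℝ))} (hA : MeasurableSet A)
    (hAW : ∀ x ∈ A, Vx E x → x.1 ≠ 0 ∧ Bd.Win i α δ M (x.2 0 - z) ∧ InDir i α δ M x) :
    ∫⁻ x in A, ex (-(x.1 * (d * Real.log (2 * δ)))) ∂(sys hE).pg ≤ (2 * M) ^ (M + 1) := by
  have h1 : Measurable fun x : Ct (Fin d → ℝ) => (x.1 : ℝ) :=
    (measurable_of_countable fun n : ℕ => (n : ℝ)).comp measurable_fst
  have hm : Measurable fun x : Ct (Fin d → ℝ) => ex (-(x.1 * (d * Real.log (2 * δ)))) := by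
    unfold ex
    exact (h1.mul_const _).neg.exp.ennreal_ofReal
  have hS : MeasurableSet ((fun u : Fin d → ℝ => u - z) ⁻¹' {u | Bd.Win i α δ M u}) :=
    (measurable_id.sub_const z) (measurable_Win i α δ M)
  have hV : volume ((fun u : Fin d → ℝ => u - z) ⁻¹' {u | Bd.Win i α δ M u}) ≤
      (2 * M) * ENNReal.ofReal (2 * δ) ^ d := by
    have e : volume ((fun u : Fin d → ℝ => u - z) ⁻¹' {u | Bd.Win i α δ M u}) =
        volume {u : Fin d → ℝ | Bd.Win i α δ M u} := by
      simp only [sub_eq_add_neg]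
      exact measure_preimage_add_right _ _ _
    rw [e]
    exact vol_Win_le i α δ M
  rw [← lintegral_indicator hA]
  refine (lint_dir hE (i := i) hα hδ.le h3 hM (hm.indicator hA) hS
    (fun n => ex (-(n * (d * Real.log (2 * δ))))) (fun x hx h0 => ?_)
    (fun x _ _ => Set.indicator_le_self' (fun _ _ => zero_le) x)).trans ?_
  · by_cases hxA : x ∈ A
    · obtain ⟨g1, g2, g3⟩ := hAW x hxA hx
      exact ⟨g1, g2, g3⟩
    · exact absurd (Set.indicator_of_notMem hxA _) h0
  · have h4 : ENNReal.ofReal (2 * δ) ^ d = ex (d * Real.log (2 * δ)) := by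
      have := ofReal_pow_eq (d := d) hδ 1
      rw [pow_one] at this
      rw [this]
      congr 1
      push_cast
      ring
    refine (sum_pow_le hM (C := 2 * M) fun n _ => ?_).trans (le_of_eq (pow_succ _ _).symm)
    rw [ofReal_pow_eq hδ]
    rw [h4] at hV
    calc ex (-((n + 1 : ℕ) * (d * Real.log (2 * δ)))) * ((2 * (M : ENNReal)) ^ n *
          (volume ((fun u : Fin d → ℝ => u - z) ⁻¹' {u | Bd.Win i α δ M u}) *
            ex (n * (d * Real.log (2 * δ)))))
        ≤ ex (-((n + 1 : ℕ) * (d * Real.log (2 * δ)))) * ((2 * (M : ENNReal)) ^ n *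
          (((2 * M) * ex (d * Real.log (2 * δ))) * ex (n * (d * Real.log (2 * δ))))) :=
          mul_le_mul' le_rfl (mul_le_mul' le_rfl (mul_le_mul' hV le_rfl))
      _ = (2 * (M : ENNReal)) ^ n * ((2 * M) * (ex (-((n + 1 : ℕ) * (d * Real.log (2 * δ)))) *
          (ex (d * Real.log (2 * δ)) * ex (n * (d * Real.log (2 * δ)))))) := by ring
      _ = (2 * (M : ENNReal)) ^ n * (2 * M) := by
          rw [← ex_add, ← ex_add]
          have e : -((n + 1 : ℕ) * (d * Real.log (2 * δ))) + ((d * Real.log (2 * δ)) +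
              n * (d * Real.log (2 * δ))) = 0 := by
            push_cast
            ring
          rw [e]
          have : ex 0 = 1 := by simp [ex]
          rw [this, mul_one]

/-- All beads in row windows of `y`: the content is a row. -/
theorem row_of (h : Geo d i₁ i₂ m R α a b β β' τ ε N E) {x : Ct (Fin d → ℝ)} (hx : Vx E x) {z : Fin d → ℝ}
    (hz : ∀ k, k < x.1 → ∀ j, j ≠ i₁ → |(x.2 k - z) j| ≤ a) : InDir i₁ α a m x := by
  have g1 := h.hb
  have g2 := h.hba
  have g3 := h.ha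
  rcases dir h hx with hr | hc
  · exact hr
  · intro k hk l hl hkl
    exfalso
    obtain ⟨q, hq0, -, h5, -⟩ := hc k hk l hl hkl
    have e1 := hz k hk i₂ h.ne.symm
    have e2 := hz l hl i₂ h.ne.symm
    have h6 : (1 : ℝ) ≤ |(q : ℝ)| := by
      have : 1 ≤ |q| := Int.one_le_abs hq0
      exact_mod_cast this
    have h7 : α ≤ |(q : ℝ) * α| := by
      rw [abs_mul, abs_of_pos (show 0 < α by linarith)]
      nlinarith
    have h8 : |(x.2 k - x.2 l) i₂| ≤ 2 * a := by
      have e : (x.2 k - x.2 l) i₂ = (x.2 k - z) i₂ - (x.2 l - z) i₂ := by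
        simp only [Pi.sub_apply]
        ring
      rw [e]
      exact (abs_sub _ _).trans (by linarith)
    have h9 := abs_sub_abs_le_abs_sub ((q : ℝ) * α) ((x.2 k - x.2 l) i₂)
    rw [abs_sub_comm] at h9
    linarith

/-- All beads in column windows of `y`: the content is a column. -/
theorem col_of (h : Geo d i₁ i₂ m R α a b β β' τ ε N E) {x : Ct (Fin d → ℝ)} (hx : Vx E x) {z : Fin d → ℝ}
    (hz : ∀ k, k < x.1 → ∀ j, j ≠ i₂ → |(x.2 k - z) j| ≤ b) : InDir i₂ α b (m + 1) x := by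
  have g1 := h.hb
  have g2 := h.hba
  have g3 := h.ha
  rcases dir h hx with hr | hc
  · intro k hk l hl hkl
    exfalso
    obtain ⟨q, hq0, -, h5, -⟩ := hr k hk l hl hkl
    have e1 := hz k hk i₁ h.ne
    have e2 := hz l hl i₁ h.ne
    have h6 : (1 : ℝ) ≤ |(q : ℝ)| := by
      have : 1 ≤ |q| := Int.one_le_abs hq0
      exact_mod_cast this
    have h7 : α ≤ |(q : ℝ) * α| := by
      rw [abs_mul, abs_of_pos (show 0 < α by linarith)]
      nlinarith
    have h8 : |(x.2 k - x.2 l) i₁| ≤ 2 * b := by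
      have e : (x.2 k - x.2 l) i₁ = (x.2 k - z) i₁ - (x.2 l - z) i₁ := by
        simp only [Pi.sub_apply]
        ring
      rw [e]
      exact (abs_sub _ _).trans (by linarith)
    have h9 := abs_sub_abs_le_abs_sub ((q : ℝ) * α) ((x.2 k - x.2 l) i₁)
    rw [abs_sub_comm] at h9
    linarith
  · exact hc

end Pool.Agent.RC.Cell
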