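import Pool.Agent.Lib.MP_09cbbd_rc.Lad

/-!
# Rows and columns in a set of cells

Contents of unit cells with at least two beads are rows or columns; the product of the numbers of
the rows and of the columns is at most twice the number of the missing beads.
-/

set_option autoImplicit false

namespace Pool.Agent.RC.Bd

open Finset

variable {d : ℕ}

theorem Win.norm_lt {i : Fin d} {α δ : ℝ} {m : ℕ} {u : Fin d → ℝ} (hα : 0 < α)
    (hδα : 3 * δ < α) (h : Win i α δ m u) : ‖u‖ < m * α := by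
  obtain ⟨k, h1, h2, h3, h4⟩ := h
  have hk : |(k : ℝ)| ≤ (m : ℝ) - 1 := by
    have : |k| ≤ (m : ℤ) - 1 := by omega
    exact_mod_cast this
  have hk1 : (1 : ℝ) ≤ |(k : ℝ)| := by
    have : 1 ≤ |k| := Int.one_le_abs h1
    exact_mod_cast this
  have hm : (2 : ℝ) ≤ m := by linarith
  have hpos : 0 < (m : ℝ) * α := by positivity
  refine (pi_norm_lt_iff hpos).2 fun j => ?_
  rw [Real.norm_eq_abs]
  by_cases hj : j = i
  · subst hj
    have e1 : |u j| ≤ |u j - k * α| + |(k : ℝ) * α| := by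
      have := abs_add_le (u j - k * α) (k * α)
      simpa using this
    rw [abs_mul, abs_of_pos hα] at e1
    nlinarith
  · have := h4 j hj
    nlinarith

/-- The sum of two differences in a row is not in a column. -/
theorem no_sum {P : Prm d} (hP : P.Ok) {u v : Fin d → ℝ} (hu : Win P.i0 P.α P.δA P.mA u)
    (hv : Win P.i0 P.α P.δA P.mA v) : ¬ Win P.i1 P.α P.δB P.mB (u + v) := by
  intro h
  have h1 := hu.other hP.ne.symm
  have h2 := hv.other hP.ne.symm
  have h3 := h.le_abs hP.α_pos.le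
  have h4 : |(u + v) P.i1| ≤ |u P.i1| + |v P.i1| := abs_add_le _ _
  have := hP.small
  have := hP.δA_nonneg
  have := hP.δB_nonneg
  linarith

/-- The size conditions: the near field contains the open unit ball of the sup norm. -/
structure Prm.Sz (P : Prm d) : Prop where
  one : ∀ u, ‖u‖ < 1 → u ∈ P.N
  sA : 2 * P.mA * P.α ≤ 1
  sB : 2 * P.mB * P.α ≤ 1

theorem Prm.Sz.swap {P : Prm d} (h : P.Sz) : P.swap.Sz := ⟨h.one, h.sB, h.sA⟩

/-- A bead of a row and a bead of a column are not in the near field. -/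
theorem apart_AB {P : Prm d} (hP : P.Ok) (hz : P.Sz) {x x' y y' : Fin d → ℝ}
    (hx : Win P.i0 P.α P.δA P.mA (x - x')) (hy : Win P.i1 P.α P.δB P.mB (y - y'))
    (h1 : x - y ∉ P.E) (h2 : x - y' ∉ P.E) (h3 : x' - y ∉ P.E) : x - y ∉ P.N := by
  intro hlt
  have hs : (P.mA + P.mB) * P.α ≤ 1 := by linarith [hz.sA, hz.sB]
  have hA := hP.δA_nonneg
  have hB := hP.δB_nonneg
  have hsm := hP.small
  have n1 := hx.norm_lt hP.α_pos (by linarith)
  have n2 := hy.norm_lt hP.α_pos (by linarith)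
  rcases hP.near _ hlt h1 with h | h
  · have n3 := h.norm_lt hP.α_pos (by linarith)
    refine h2 (no_corner hP h hy (hz.one _ ?_))
    have e : x - y' = (x - y) + (y - y') := by abel
    rw [e]
    refine (norm_add_le _ _).trans_lt ?_
    linarith
  · have n3 := h.norm_lt hP.α_pos (by linarith)
    refine h3 (no_corner hP hx.sub_symm h (hz.one _ ?_))
    have e : x' - y = -(x - x') + (x - y) := by abel
    rw [e]
    refine (norm_add_le _ _).trans_lt ?_
    rw [norm_neg]
    linarith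

/-- Two rows with two beads in the near field are pieces of one row. -/
theorem one_row {P : Prm d} (hP : P.Ok) (hz : P.Sz) {σ τ : Type*} [Fintype σ]
    [Fintype τ] (x : σ → Fin d → ℝ) (y : τ → Fin d → ℝ)
    (hx : ∀ s t, s ≠ t → Win P.i0 P.α P.δA P.mA (x s - x t))
    (hy : ∀ s t, s ≠ t → Win P.i0 P.α P.δA P.mA (y s - y t))
    (hxy : ∀ s t, x s - y t ∉ P.E) (hσ : 2 ≤ Fintype.card σ) {s : σ} {t : τ}
    (hst : x s - y t ∈ P.N) : Fintype.card σ + Fintype.card τ ≤ P.mA := by
  have hs := hz.sA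
  have hs' : (P.mA + P.mB) * P.α ≤ 1 := by linarith [hz.sA, hz.sB]
  have hA := hP.δA_nonneg
  have hB := hP.δB_nonneg
  have hsm := hP.small
  have hα := hP.α_pos
  have nW : ∀ {u : Fin d → ℝ}, Win P.i0 P.α P.δA P.mA u → ‖u‖ < P.mA * P.α :=
    fun h => h.norm_lt hα (by linarith)
  have nW1 : ∀ {u : Fin d → ℝ}, Win P.i1 P.α P.δB P.mB u → ‖u‖ < P.mB * P.α :=
    fun h => h.norm_lt hα (by linarith)
  have hst0 : Win P.i0 P.α P.δA P.mA (x s - y t) := by
    rcases hP.near _ hst (hxy s t) with h | h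
    · exact h
    · exfalso
      obtain ⟨s', hs'1⟩ := Fintype.exists_ne_of_one_lt_card hσ s
      refine hxy s' t (no_corner hP (hx s' s hs'1) h (hz.one _ ?_))
      have e : x s' - y t = (x s' - x s) + (x s - y t) := by abel
      rw [e]
      refine (norm_add_le _ _).trans_lt ?_
      have := nW (hx s' s hs'1)
      have := nW1 h
      linarith
  have h2 : ∀ s', Win P.i0 P.α P.δA P.mA (x s' - y t) := by
    intro s'
    by_cases h : s' = s
    · rw [h]
      exact hst0
    have e : x s' - y t = (x s' - x s) + (x s - y t) := by abel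
    have hn : x s' - y t ∈ P.N := by
      refine hz.one _ ?_
      rw [e]
      refine (norm_add_le _ _).trans_lt ?_
      have := nW (hx s' s h)
      have := nW hst0
      linarith
    rcases hP.near _ hn (hxy s' t) with h1 | h1
    · exact h1
    · exfalso
      rw [e] at h1
      exact no_sum hP (hx s' s h) hst0 h1
  have h3 : ∀ s' t', Win P.i0 P.α P.δA P.mA (x s' - y t') := by
    intro s' t'
    by_cases h : t = t'
    · rw [← h]
      exact h2 s'
    have e : x s' - y t' = (x s' - y t) + (y t - y t') := by abel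
    have hn : x s' - y t' ∈ P.N := by
      refine hz.one _ ?_
      rw [e]
      refine (norm_add_le _ _).trans_lt ?_
      have := nW (hy t t' h)
      have := nW (h2 s')
      linarith
    rcases hP.near _ hn (hxy s' t') with h1 | h1
    · exact h1
    · exfalso
      rw [e] at h1
      exact no_sum hP (h2 s') (hy t t' h) h1
  have h4 := card_le hα hA (by linarith) hP.mA_pos (Sum.elim x y) (by
    rintro (a | a) (b | b) hab
    · exact hx a b fun h => hab (by rw [h])
    · exact h3 a b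
    · have := (h3 b a).sub_symm
      exact this
    · exact hy a b fun h => hab (by rw [h]))
  rwa [Fintype.card_sum] at h4

theorem far_AA {P : Prm d} (hP : P.Ok) (hz : P.Sz) {σ τ : Type*} [Fintype σ]
    [Fintype τ] (x : σ → Fin d → ℝ) (y : τ → Fin d → ℝ)
    (hx : ∀ s t, s ≠ t → Win P.i0 P.α P.δA P.mA (x s - x t))
    (hy : ∀ s t, s ≠ t → Win P.i0 P.α P.δA P.mA (y s - y t))
    (hxy : ∀ s t, x s - y t ∉ P.E) (hσ2 : 2 ≤ Fintype.card σ)
    (hσ : P.mA < 2 * Fintype.card σ) (hτ : P.mA < 2 * Fintype.card τ) (s : σ) (t : τ) :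
    x s - y t ∉ P.N := by
  intro h
  have h1 := one_row hP hz x y hx hy hxy hσ2 h
  have := hP.mA_pos
  omega

/-- **Rows times columns** for all contents with at least two beads. -/
theorem count_all {P : Prm d} (hP : P.Ok) (hz : P.Sz) {ι κ : Type*} (A : Finset ι) (B : Finset κ)
    {σ : ι → Type*} {τ : κ → Type*} [∀ a, Fintype (σ a)] [∀ b, Fintype (τ b)]
    (x : (a : ι) → σ a → Fin d → ℝ) (y : (b : κ) → τ b → Fin d → ℝ)
    (hx : ∀ a ∈ A, ∀ s t, s ≠ t → Win P.i0 P.α P.δA P.mA (x a s - x a t))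
    (hy : ∀ b ∈ B, ∀ s t, s ≠ t → Win P.i1 P.α P.δB P.mB (y b s - y b t))
    (hxc : ∀ a ∈ A, 2 ≤ Fintype.card (σ a)) (hyc : ∀ b ∈ B, 2 ≤ Fintype.card (τ b))
    (hA : 4 * A.card ≤ P.mB) (hB : 4 * B.card ≤ P.mA)
    (hxx : ∀ a ∈ A, ∀ b ∈ A, a ≠ b → ∀ s t, ‖x a s - x b t‖ ≤ P.R ∧ x a s - x b t ∉ P.E)
    (hyy : ∀ a ∈ B, ∀ b ∈ B, a ≠ b → ∀ s t, ‖y a s - y b t‖ ≤ P.R ∧ y a s - y b t ∉ P.E)
    (hxy : ∀ a ∈ A, ∀ b ∈ B, ∀ s t, ‖x a s - y b t‖ ≤ P.R ∧ x a s - y b t ∉ P.E) :
    A.card * B.card ≤ 2 * (∑ a ∈ A, (P.mA - Fintype.card (σ a)) +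
      ∑ b ∈ B, (P.mB - Fintype.card (τ b))) := by
  classical
  set A' := A.filter fun a => P.mA < 2 * Fintype.card (σ a) with hA'
  set A'' := A.filter fun a => ¬ P.mA < 2 * Fintype.card (σ a) with hA''
  set B' := B.filter fun b => P.mB < 2 * Fintype.card (τ b) with hB'
  set B'' := B.filter fun b => ¬ P.mB < 2 * Fintype.card (τ b) with hB''
  have hmA : ∀ a ∈ A', a ∈ A := fun a ha => (mem_filter.1 ha).1
  have hmB : ∀ b ∈ B', b ∈ B := fun b hb => (mem_filter.1 hb).1
  have h := count_beads hP A' B' x y (fun a ha => hx a (hmA a ha)) (fun b hb => hy b (hmB b hb))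
    (fun a ha => (mem_filter.1 ha).2) (fun b hb => (mem_filter.1 hb).2)
    (fun a ha b hb hab s t => by
      obtain ⟨h1, h2⟩ := hxx a (hmA a ha) b (hmA b hb) hab s t
      refine ⟨?_, h1, h2⟩
      exact far_AA hP hz (x a) (x b) (hx a (hmA a ha)) (hx b (hmA b hb))
        (fun s t => (hxx a (hmA a ha) b (hmA b hb) hab s t).2) (hxc a (hmA a ha))
        (mem_filter.1 ha).2 (mem_filter.1 hb).2 s t)
    (fun a ha b hb hab s t => by
      obtain ⟨h1, h2⟩ := hyy a (hmB a ha) b (hmB b hb) hab s t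
      refine ⟨?_, h1, h2⟩
      exact far_AA hP.swap hz.swap (y a) (y b) (hy a (hmB a ha)) (hy b (hmB b hb))
        (fun s t => (hyy a (hmB a ha) b (hmB b hb) hab s t).2) (hyc a (hmB a ha))
        (mem_filter.1 ha).2 (mem_filter.1 hb).2 s t)
    (fun a ha b hb s t => by
      obtain ⟨h1, h2⟩ := hxy a (hmA a ha) b (hmB b hb) s t
      refine ⟨?_, h1, h2⟩
      obtain ⟨s', hs'⟩ := Fintype.exists_ne_of_one_lt_card (hxc a (hmA a ha)) s
      obtain ⟨t', ht'⟩ := Fintype.exists_ne_of_one_lt_card (hyc b (hmB b hb)) t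
      exact apart_AB hP hz (hx a (hmA a ha) s s' hs'.symm) (hy b (hmB b hb) t t' ht'.symm)
        h2 (hxy a (hmA a ha) b (hmB b hb) s t').2 (hxy a (hmA a ha) b (hmB b hb) s' t).2)
  have eA : A'.card + A''.card = A.card := card_filter_add_card_filter_not _
  have eB : B'.card + B''.card = B.card := card_filter_add_card_filter_not _
  have sA : ∑ a ∈ A', (P.mA - Fintype.card (σ a)) + ∑ a ∈ A'', (P.mA - Fintype.card (σ a)) =
      ∑ a ∈ A, (P.mA - Fintype.card (σ a)) := sum_filter_add_sum_filter_not _ _ _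
  have sB : ∑ b ∈ B', (P.mB - Fintype.card (τ b)) + ∑ b ∈ B'', (P.mB - Fintype.card (τ b)) =
      ∑ b ∈ B, (P.mB - Fintype.card (τ b)) := sum_filter_add_sum_filter_not _ _ _
  have tA : A''.card * B.card ≤ ∑ a ∈ A'', (P.mA - Fintype.card (σ a)) := by
    rw [← smul_eq_mul]
    refine card_nsmul_le_sum _ _ _ fun a ha => ?_
    have := (mem_filter.1 ha).2
    omega
  have tB : B''.card * A.card ≤ ∑ b ∈ B'', (P.mB - Fintype.card (τ b)) := by
    rw [← smul_eq_mul]
    refine card_nsmul_le_sum _ _ _ fun b hb => ?_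
    have := (mem_filter.1 hb).2
    omega
  have e : A.card * B.card = A'.card * B'.card + A''.card * B.card + A'.card * B''.card := by
    rw [← eA, ← eB]
    ring
  have f : A'.card * B''.card ≤ B''.card * A.card := by
    rw [mul_comm]
    exact Nat.mul_le_mul_left _ (by omega)
  omega

end Pool.Agent.RC.Bd
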