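import Pool.Agent.Lib.MP_09cbbd_rc.Blk
import Pool.Agent.Lib.MP_09cbbd_rc.Pack

/-!
# Rows and columns round a general hard core: the classes of the cell contents

The contents of two cells are in the same class if they are pieces of one molecule: a difference of
their beads is in the near field. A content is new if no previous content is in its class. The
number of the new contents of a cube is at most the packing number of the cube.
-/

set_option autoImplicit false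

namespace Pool.Agent.RC.Bd

open Finset

variable {d : ℕ}

/-- The smallness conditions. -/
structure Prm.Sm (P : Prm d) : Prop extends P.Sz where
  le : P.mA ≤ P.mB
  s8 : 8 * P.mB * P.α ≤ 1
  N_neg : ∀ u, u ∈ P.N → -u ∈ P.N

section Class

variable {P : Prm d} {ι : Type*} {S : Finset ι} {pos : ι → Fin d → ℝ}
  {ω : ι → ℕ × (ℕ → Fin d → ℝ)}

/-- The bead `k` of the cell `i`. -/
def bd (pos : ι → Fin d → ℝ) (ω : ι → ℕ × (ℕ → Fin d → ℝ)) (i : ι) (k : ℕ) : Fin d → ℝ :=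
  (ω i).2 k + pos i

/-- The contents of the cells `i` and `j` have beads in the near field of one another. -/
def sc (P : Prm d) (pos : ι → Fin d → ℝ) (ω : ι → ℕ × (ℕ → Fin d → ℝ)) (i j : ι) : Prop :=
  ∃ k < (ω i).1, ∃ l < (ω j).1, bd pos ω i k - bd pos ω j l ∈ P.N

variable (hP : P.Ok) (hm : P.Sm)

include hP hm

theorem mα_pos : 0 < P.mB * P.α := by
  have h1 : (0 : ℝ) < P.mB := by exact_mod_cast hP.mB_pos
  have := hP.α_pos
  positivity

theorem win_lt {u : Fin d → ℝ} (h1 : u ∈ P.N) (h2 : u ∉ P.E) : ‖u‖ < P.mB * P.α := by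
  have hA := hP.δA_nonneg
  have hB := hP.δB_nonneg
  have hsm := hP.small
  have hα := hP.α_pos
  rcases hP.near u h1 h2 with h | h
  · have h3 := h.norm_lt hα (by linarith)
    have h4 : (P.mA : ℝ) ≤ P.mB := by exact_mod_cast hm.le
    nlinarith
  · exact h.norm_lt hα (by linarith)

theorem same_lt (hC : Conf P S pos ω) {i : ι} (hi : i ∈ S) {k l : ℕ} (hk : k < (ω i).1)
    (hl : l < (ω i).1) : ‖bd pos ω i k - bd pos ω i l‖ < P.mB * P.α := by
  have e : bd pos ω i k - bd pos ω i l = (ω i).2 k - (ω i).2 l := by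
    unfold bd
    abel
  rw [e]
  by_cases hkl : k = l
  · rw [hkl, sub_self, norm_zero]
    exact mα_pos hP hm
  · exact win_lt hP hm (hm.one _ ((hC.val i hi).norm_lt hk hl)) ((hC.val i hi).comp k hk l hl hkl)

theorem sc_lt (hC : Conf P S pos ω) {i j : ι} (hi : i ∈ S) (hj : j ∈ S) (hij : i ≠ j)
    (h : sc P pos ω i j) {k l : ℕ} (hk : k < (ω i).1) (hl : l < (ω j).1) :
    ‖bd pos ω i k - bd pos ω j l‖ < 3 * (P.mB * P.α) := by
  obtain ⟨k', hk', l', hl', hN⟩ := h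
  have h1 := same_lt hP hm hC hi hk hk'
  have h2 := same_lt hP hm hC hj hl' hl
  have h3 := win_lt hP hm hN (hC.comp i hi j hj hij k' hk' l' hl')
  have e : bd pos ω i k - bd pos ω j l = (bd pos ω i k - bd pos ω i k') +
      (bd pos ω i k' - bd pos ω j l') + (bd pos ω j l' - bd pos ω j l) := by abel
  rw [e]
  refine (norm_add_le _ _).trans_lt ?_
  have h4 := norm_add_le (bd pos ω i k - bd pos ω i k') (bd pos ω i k' - bd pos ω j l')
  linarith

omit hP in
theorem sc_symm {i j : ι} (h : sc P pos ω i j) : sc P pos ω j i := by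
  obtain ⟨k, hk, l, hl, hN⟩ := h
  refine ⟨l, hl, k, hk, ?_⟩
  have := hm.N_neg _ hN
  rwa [neg_sub] at this

theorem mem_N {u : Fin d → ℝ} (h : ‖u‖ < 8 * (P.mB * P.α)) : u ∈ P.N := by
  refine hm.one u (h.trans_le ?_)
  have := hm.s8
  linarith

theorem sc_mem (hC : Conf P S pos ω) {i j : ι} (hi : i ∈ S) (hj : j ∈ S) (hij : i ≠ j)
    (h : sc P pos ω i j) {k l : ℕ} (hk : k < (ω i).1) (hl : l < (ω j).1) :
    bd pos ω i k - bd pos ω j l ∈ P.N := by
  have h1 := sc_lt hP hm hC hi hj hij h hk hl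
  have h2 := mα_pos hP hm
  exact mem_N hP hm (by linarith)

theorem sc_trans (hC : Conf P S pos ω) {i j l : ι} (hi : i ∈ S) (hj : j ∈ S) (hl : l ∈ S)
    (hij : i ≠ j) (hjl : j ≠ l) (h1 : sc P pos ω i j) (h2 : sc P pos ω j l) :
    sc P pos ω i l := by
  obtain ⟨a, ha, b, hb, -⟩ := id h1
  obtain ⟨-, -, c, hc, -⟩ := id h2
  refine ⟨a, ha, c, hc, mem_N hP hm ?_⟩
  have h3 := sc_lt hP hm hC hi hj hij h1 ha hb
  have h4 := sc_lt hP hm hC hj hl hjl h2 hb hc
  have e : bd pos ω i a - bd pos ω l c = (bd pos ω i a - bd pos ω j b) +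
      (bd pos ω j b - bd pos ω l c) := by abel
  rw [e]
  refine (norm_add_le _ _).trans_lt ?_
  have := mα_pos hP hm
  linarith

/-- The beads of a set of cells of one class form a row or a column. -/
theorem cls_total (hC : Conf P S pos ω) {T : Finset ι} (hT : T ⊆ S)
    (hsc : ∀ i ∈ T, ∀ j ∈ T, i ≠ j → sc P pos ω i j) :
    ((∀ i ∈ T, ∀ j ∈ T, ∀ k < (ω i).1, ∀ l < (ω j).1, (i ≠ j ∨ k ≠ l) →
        Win P.i0 P.α P.δA P.mA (bd pos ω i k - bd pos ω j l)) ∧ ∑ i ∈ T, (ω i).1 ≤ P.mA) ∨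
      ((∀ i ∈ T, ∀ j ∈ T, ∀ k < (ω i).1, ∀ l < (ω j).1, (i ≠ j ∨ k ≠ l) →
        Win P.i1 P.α P.δB P.mB (bd pos ω i k - bd pos ω j l)) ∧ ∑ i ∈ T, (ω i).1 ≤ P.mB) := by
  classical
  have hA := hP.δA_nonneg
  have hB := hP.δB_nonneg
  have hsm := hP.small
  have hα := hP.α_pos
  set x : (Σ i : T, Fin (ω i).1) → Fin d → ℝ := fun p => bd pos ω p.1 p.2 with hx
  have hcard : Fintype.card (Σ i : T, Fin (ω i).1) = ∑ i ∈ T, (ω i).1 := by
    rw [Fintype.card_sigma]
    simp only [Fintype.card_fin]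
    exact sum_coe_sort T fun i => (ω i).1
  have hne : ∀ p q : (Σ i : T, Fin (ω i).1), p ≠ q → ((p.1 : ι) ≠ q.1 ∨ (p.2 : ℕ) ≠ q.2) := by
    rintro ⟨⟨i, hi⟩, k⟩ ⟨⟨j, hj⟩, l⟩ hpq
    by_cases hij : i = j
    · subst hij
      right
      intro hkl
      exact hpq (by
        have : k = l := Fin.ext hkl
        rw [this])
    · exact Or.inl hij
  have hc : ∀ p q : (Σ i : T, Fin (ω i).1), p ≠ q → x p - x q ∉ P.E := by
    intro p q hpq
    by_cases hij : (p.1 : ι) = q.1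
    · obtain ⟨⟨i, hi⟩, k⟩ := p
      obtain ⟨⟨j, hj⟩, l⟩ := q
      simp only at hij
      subst hij
      have h1 : (k : ℕ) ≠ l := (hne _ _ hpq).resolve_left fun h => h rfl
      have e : x ⟨⟨i, hi⟩, k⟩ - x ⟨⟨i, hi⟩, l⟩ = (ω i).2 k - (ω i).2 l := by
        simp only [hx, bd]
        abel
      rw [e]
      exact (hC.val i (hT hi)).comp k k.2 l l.2 h1
    · exact hC.comp _ (hT p.1.2) _ (hT q.1.2) hij _ p.2.2 _ q.2.2
  have hn : ∀ p q : (Σ i : T, Fin (ω i).1), x p - x q ∈ P.N := by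
    intro p q
    by_cases hij : (p.1 : ι) = q.1
    · obtain ⟨⟨i, hi⟩, k⟩ := p
      obtain ⟨⟨j, hj⟩, l⟩ := q
      simp only at hij
      subst hij
      refine mem_N hP hm ((same_lt hP hm hC (hT hi) k.2 l.2).trans ?_)
      have := mα_pos hP hm
      linarith
    · exact sc_mem hP hm hC (hT p.1.2) (hT q.1.2) hij (hsc _ p.1.2 _ q.1.2 hij) p.2.2 q.2.2
  rcases row_or_col hP x hc hn with h | h
  · left
    refine ⟨fun i hi j hj k hk l hl hkl => h ⟨⟨i, hi⟩, ⟨k, hk⟩⟩ ⟨⟨j, hj⟩, ⟨l, hl⟩⟩ ?_, ?_⟩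
    · rintro heq
      rcases hkl with h1 | h1
      · exact h1 (congrArg (fun p : (Σ i : T, Fin (ω i).1) => (p.1 : ι)) heq)
      · exact h1 (congrArg (fun p : (Σ i : T, Fin (ω i).1) => (p.2 : ℕ)) heq)
    · rw [← hcard]
      exact card_le hα hA (by linarith) hP.mA_pos x h
  · right
    refine ⟨fun i hi j hj k hk l hl hkl => h ⟨⟨i, hi⟩, ⟨k, hk⟩⟩ ⟨⟨j, hj⟩, ⟨l, hl⟩⟩ ?_, ?_⟩
    · rintro heq
      rcases hkl with h1 | h1
      · exact h1 (congrArg (fun p : (Σ i : T, Fin (ω i).1) => (p.1 : ι)) heq)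
      · exact h1 (congrArg (fun p : (Σ i : T, Fin (ω i).1) => (p.2 : ℕ)) heq)
    · rw [← hcard]
      exact card_le hα hB (by linarith) hP.mB_pos x h

end Class

end Pool.Agent.RC.Bd
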