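import Pool.Agent.Lib.MP_09cbbd_rc.Bead

/-!
# Rows and columns: conflicts and the number of missing beads
-/

set_option autoImplicit false

namespace Pool.Agent.RC.Bd

open Finset

variable {d : ℕ}

/-- A (partial) ladder: base point, occupied slots, positions of the beads. -/
structure Lad (d : ℕ) where
  b : Fin d → ℝ
  S : Finset ℕ
  p : ℕ → Fin d → ℝ

/-- `L` is a ladder in direction `i` with spacing `α`, at most `m` beads, wiggle `δ`. -/
structure Lad.Is (L : Lad d) (i : Fin d) (α δ : ℝ) (m : ℕ) : Prop where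
  lt : ∀ k ∈ L.S, k < m
  main : ∀ k ∈ L.S, |L.p k i - L.b i - k * α| ≤ δ
  other : ∀ k ∈ L.S, ∀ j, j ≠ i → |L.p k j - L.b j| ≤ δ

/-- Two contents are compatible and all their beads are in the far range. -/
def Far (P : Prm d) (L L' : Lad d) : Prop :=
  ∀ k ∈ L.S, ∀ l ∈ L'.S, L.p k - L'.p l ∉ P.N ∧ ‖L.p k - L'.p l‖ ≤ P.R ∧
    L.p k - L'.p l ∉ P.E

theorem Near.add {β β' p t s : ℝ} (h : Near β p t) (hs : |s| ≤ β') : Near (β + β') p (t + s) := by
  obtain ⟨n, hn⟩ := h
  refine ⟨n, ?_⟩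
  have : t + s - n * p = (t - n * p) + s := by ring
  rw [this]
  exact (abs_add_le _ _).trans (add_le_add hn hs)

theorem Near.mono {β β' p t : ℝ} (h : Near β p t) (hs : β ≤ β') : Near β' p t := by
  obtain ⟨n, hn⟩ := h
  exact ⟨n, hn.trans hs⟩

theorem Near.neg {β p t : ℝ} (h : Near β p t) : Near β p (-t) := by
  obtain ⟨n, hn⟩ := h
  refine ⟨-n, ?_⟩
  push_cast
  rw [show -t - -(n : ℝ) * p = -(t - n * p) by ring, abs_neg]
  exact hn

/-- Every residue modulo `m α` is within `α / 2` of some `-k α`, `k < m`. -/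
theorem exists_slot {α : ℝ} (hα : 0 < α) {m : ℕ} (hm : 0 < m) (U : ℝ) :
    ∃ k : ℕ, k < m ∧ Near (α / 2) (m * α) (U + k * α) := by
  set K : ℤ := round (-(U / α)) with hK
  have h1 : |-(U / α) - K| ≤ 1 / 2 := abs_sub_round _
  have hm' : (0 : ℤ) < m := by exact_mod_cast hm
  refine ⟨(K % m).toNat, ?_, -(K / m), ?_⟩
  · have h2 := Int.emod_lt_of_pos K hm'
    have h3 := Int.emod_nonneg K hm'.ne'
    omega
  · have h3 := Int.emod_nonneg K hm'.ne'
    have e1 : (((K % m).toNat : ℕ) : ℝ) = ((K % m : ℤ) : ℝ) := by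
      exact_mod_cast congrArg (Int.cast (R := ℝ)) (Int.toNat_of_nonneg h3)
    have e2 : ((K % m : ℤ) : ℝ) = (K : ℝ) - (m : ℝ) * ((K / m : ℤ) : ℝ) := by
      have := Int.emod_add_mul_ediv K m
      have h4 : (K % m : ℤ) = K - m * (K / m) := by linarith
      rw [h4]
      push_cast
      ring
    rw [e1, e2]
    push_cast
    have e3 : U + ((K : ℝ) - m * ((K / m : ℤ) : ℝ)) * α - -((K / m : ℤ) : ℝ) * (m * α) =
        -(α * (-(U / α) - K)) := by
      field_simp
      ring
    rw [e3, abs_neg, abs_mul, abs_of_pos hα]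
    nlinarith

/-- The slot of a row which has to be empty if the column has its partner. -/
noncomputable def slot (α : ℝ) (m : ℕ) (U : ℝ) : ℕ := by
  classical exact if h : ∃ k : ℕ, k < m ∧ Near (α / 2) (m * α) (U + k * α) then h.choose else 0

theorem slot_lt {α : ℝ} (hα : 0 < α) {m : ℕ} (hm : 0 < m) (U : ℝ) : slot α m U < m := by
  have h := exists_slot hα hm U
  unfold slot
  rw [dif_pos h]
  exact h.choose_spec.1

theorem slot_near {α : ℝ} (hα : 0 < α) {m : ℕ} (hm : 0 < m) (U : ℝ) :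
    Near (α / 2) (m * α) (U + slot α m U * α) := by
  have h := exists_slot hα hm U
  unfold slot
  rw [dif_pos h]
  exact h.choose_spec.2

section Conf

variable {P : Prm d} (hP : P.Ok)

include hP

/-- A row and a column in the far range: one of the two beads of the conflicting pair is missing. -/
theorem conflict {X Y : Lad d} (hX : X.Is P.i0 P.α P.δA P.mA) (hY : Y.Is P.i1 P.α P.δB P.mB)
    (hf : Far P X Y) :
    slot P.α P.mA (X.b P.i0 - Y.b P.i0) ∉ X.S ∨ slot P.α P.mB (Y.b P.i1 - X.b P.i1) ∉ Y.S := by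
  by_contra hcon
  push Not at hcon
  obtain ⟨hk, hl⟩ := hcon
  set k := slot P.α P.mA (X.b P.i0 - Y.b P.i0) with hkdef
  set l := slot P.α P.mB (Y.b P.i1 - X.b P.i1) with hldef
  obtain ⟨h1, h2, h3⟩ := hf k hk l hl
  have n0 : Near (P.α / 2) (P.mA * P.α) (X.b P.i0 - Y.b P.i0 + k * P.α) :=
    slot_near hP.α_pos hP.mA_pos _
  have n1 : Near (P.α / 2) (P.mB * P.α) (Y.b P.i1 - X.b P.i1 + l * P.α) :=
    slot_near hP.α_pos hP.mB_pos _
  have hA := hP.δA_nonneg
  have hB := hP.δB_nonneg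
  have hβ := hP.βA
  have hβ2 := hP.βB
  refine h3 (hP.far _ h1 h2 ?_ ?_)
  · have e : (X.p k - Y.p l) P.i0 = (X.b P.i0 - Y.b P.i0 + k * P.α) +
        ((X.p k P.i0 - X.b P.i0 - k * P.α) - (Y.p l P.i0 - Y.b P.i0)) := by
      simp only [Pi.sub_apply]
      ring
    rw [e]
    refine (n0.add ((abs_sub _ _).trans (add_le_add (hX.main k hk)
      (hY.other l hl P.i0 hP.ne)))).mono ?_
    linarith
  · have e : (X.p k - Y.p l) P.i1 = -((Y.b P.i1 - X.b P.i1 + l * P.α) +
        ((Y.p l P.i1 - Y.b P.i1 - l * P.α) - (X.p k P.i1 - X.b P.i1))) := by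
      simp only [Pi.sub_apply]
      ring
    rw [e]
    refine ((n1.add ((abs_sub _ _).trans (add_le_add (hY.main l hl)
      (hX.other k hk P.i1 hP.ne.symm)))).mono ?_).neg
    linarith

/-- Two good columns in the far range have different registries. -/
theorem sep {Y Z : Lad d} (hY : Y.Is P.i1 P.α P.δB P.mB) (hZ : Z.Is P.i1 P.α P.δB P.mB)
    (hYc : P.mB < 2 * Y.S.card) (hZc : P.mB < 2 * Z.S.card) (hf : Far P Y Z) :
    ¬ Near (P.α / 2 + P.δA + P.δB) (P.mA * P.α) (Y.b P.i0 - Z.b P.i0) := by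
  classical
  intro hn
  have : NeZero P.mB := ⟨hP.mB_pos.ne'⟩
  have hA := hP.δA_nonneg
  have hB := hP.δB_nonneg
  have hβ := hP.βA
  have hβ2 := hP.βB
  have hα := hP.α_pos
  set s : ℤ := round ((Y.b P.i1 - Z.b P.i1) / P.α) with hs
  have hs1 : |(Y.b P.i1 - Z.b P.i1) - s * P.α| ≤ P.α / 2 := by
    have h1 : |(Y.b P.i1 - Z.b P.i1) / P.α - s| ≤ 1 / 2 := abs_sub_round _
    have e : (Y.b P.i1 - Z.b P.i1) - s * P.α =
        P.α * ((Y.b P.i1 - Z.b P.i1) / P.α - s) := by
      field_simp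
    rw [e, abs_mul, abs_of_pos hα]
    nlinarith
  -- occupied slots as residues
  let f : ℕ → ZMod P.mB := fun l => (l : ZMod P.mB)
  have hinj : ∀ {L : Lad d}, L.Is P.i1 P.α P.δB P.mB → Set.InjOn f L.S := by
    intro L hL a ha b hb hab
    have h1 := hL.lt a ha
    have h2 := hL.lt b hb
    have h3 := (ZMod.natCast_eq_natCast_iff' a b P.mB).1 hab
    rwa [Nat.mod_eq_of_lt h1, Nat.mod_eq_of_lt h2] at h3
  let SY : Finset (ZMod P.mB) := (Y.S.image f).image fun r => r + (s : ZMod P.mB)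
  let SZ : Finset (ZMod P.mB) := Z.S.image f
  have cY : SY.card = Y.S.card := by
    show ((Y.S.image f).image _).card = _
    rw [card_image_of_injective _ (add_left_injective _), card_image_of_injOn (hinj hY)]
  have cZ : SZ.card = Z.S.card := card_image_of_injOn (hinj hZ)
  have hdis : Disjoint SY SZ := by
    rw [disjoint_left]
    intro r hr hr'
    simp only [SY, SZ, mem_image] at hr hr'
    obtain ⟨r1, ⟨l, hl, rfl⟩, rfl⟩ := hr
    obtain ⟨l', hl', he⟩ := hr'
    obtain ⟨h1, h2, h3⟩ := hf l hl l' hl'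
    -- l + s - l' is a multiple of mB
    have h4 : ((l + s - l' : ℤ) : ZMod P.mB) = 0 := by
      push_cast
      have h5 : (f l' : ZMod P.mB) = f l + s := he
      simp only [f] at h5
      rw [h5]
      ring
    obtain ⟨q, hq⟩ := (ZMod.intCast_zmod_eq_zero_iff_dvd _ _).1 h4
    refine h3 (hP.far _ h1 h2 ?_ ?_)
    · have e : (Y.p l - Z.p l') P.i0 = (Y.b P.i0 - Z.b P.i0) +
          ((Y.p l P.i0 - Y.b P.i0) - (Z.p l' P.i0 - Z.b P.i0)) := by
        simp only [Pi.sub_apply]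
        ring
      rw [e]
      refine (hn.add ((abs_sub _ _).trans (add_le_add (hY.other l hl P.i0 hP.ne)
        (hZ.other l' hl' P.i0 hP.ne)))).mono ?_
      linarith
    · have hq' : (l : ℝ) + s - l' = P.mB * q := by exact_mod_cast hq
      have n1 : Near (P.α / 2) (P.mB * P.α)
          (Y.b P.i1 - Z.b P.i1 + (l - l') * P.α) := by
        refine ⟨q, ?_⟩
        have e : Y.b P.i1 - Z.b P.i1 + ((l : ℝ) - l') * P.α - q * (P.mB * P.α) =
            (Y.b P.i1 - Z.b P.i1) - s * P.α := by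
          have : (l : ℝ) - l' = P.mB * q - s := by linarith
          rw [this]
          ring
        rw [e]
        exact hs1
      have e : (Y.p l - Z.p l') P.i1 = (Y.b P.i1 - Z.b P.i1 + (l - l') * P.α) +
          ((Y.p l P.i1 - Y.b P.i1 - l * P.α) - (Z.p l' P.i1 - Z.b P.i1 - l' * P.α)) := by
        simp only [Pi.sub_apply]
        ring
      rw [e]
      refine (n1.add ((abs_sub _ _).trans (add_le_add (hY.main l hl)
        (hZ.main l' hl')))).mono ?_
      linarith
  have h6 : SY.card + SZ.card ≤ P.mB := by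
    rw [← card_union_of_disjoint hdis]
    refine (card_le_univ _).trans (le_of_eq ?_)
    exact ZMod.card P.mB
  rw [cY, cZ] at h6
  have := hP.mB_pos
  omega

/-- For a given slot of a row at most two good columns have it as conflicting slot. -/
theorem fiber {ι : Type*} (T : Finset ι) (Y : ι → Lad d) (X : Lad d)
    (hT : ∀ a ∈ T, ∀ b ∈ T, a ≠ b →
      ¬ Near (P.α / 2 + P.δA + P.δB) (P.mA * P.α) ((Y a).b P.i0 - (Y b).b P.i0)) (k : ℕ)
    (hk : ∀ a ∈ T, slot P.α P.mA (X.b P.i0 - (Y a).b P.i0) = k) : T.card ≤ 2 := by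
  by_contra hcon
  push Not at hcon
  obtain ⟨a, ha, b, hb, c, hc, hab, hac, hbc⟩ := two_lt_card.1 hcon
  have hα := hP.α_pos
  have hA := hP.δA_nonneg
  have hB := hP.δB_nonneg
  have hn : ∀ e ∈ T, ∃ n : ℤ, |X.b P.i0 - (Y e).b P.i0 + k * P.α - n * (P.mA * P.α)| ≤
      P.α / 2 := by
    intro e he
    have := slot_near hα hP.mA_pos (X.b P.i0 - (Y e).b P.i0)
    rw [hk e he] at this
    exact this
  obtain ⟨na, hna⟩ := hn a ha
  obtain ⟨nb, hnb⟩ := hn b hb
  obtain ⟨nc, hnc⟩ := hn c hc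
  have key : ∀ e f : ι, ∀ ne nf : ℤ, e ∈ T → f ∈ T → e ≠ f →
      P.α / 2 < |(X.b P.i0 - (Y e).b P.i0 + k * P.α - ne * (P.mA * P.α)) -
        (X.b P.i0 - (Y f).b P.i0 + k * P.α - nf * (P.mA * P.α))| := by
    intro e f ne nf he hf hef
    by_contra h
    push Not at h
    refine hT e he f hf hef ⟨nf - ne, ?_⟩
    push_cast
    have e1 : (Y e).b P.i0 - (Y f).b P.i0 - ((nf : ℝ) - ne) * (P.mA * P.α) =
        -((X.b P.i0 - (Y e).b P.i0 + k * P.α - ne * (P.mA * P.α)) -
        (X.b P.i0 - (Y f).b P.i0 + k * P.α - nf * (P.mA * P.α))) := by ring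
    rw [e1, abs_neg]
    linarith
  have h1 := key a b na nb ha hb hab
  have h2 := key a c na nc ha hc hac
  have h3 := key b c nb nc hb hc hbc
  generalize X.b P.i0 - (Y a).b P.i0 + k * P.α - na * (P.mA * P.α) = ta at *
  generalize X.b P.i0 - (Y b).b P.i0 + k * P.α - nb * (P.mA * P.α) = tb at *
  generalize X.b P.i0 - (Y c).b P.i0 + k * P.α - nc * (P.mA * P.α) = tc at *
  rw [abs_le] at hna hnb hnc
  rcases lt_abs.1 h1 with h1 | h1 <;> rcases lt_abs.1 h2 with h2 | h2 <;>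
    rcases lt_abs.1 h3 with h3 | h3 <;> linarith [hna.1, hna.2, hnb.1, hnb.2, hnc.1, hnc.2]

/-- Half of the count: the pairs whose conflicting slot of the row is empty. -/
theorem count_half {ι κ : Type*} (A : Finset ι) (B : Finset κ) (X : ι → Lad d) (Y : κ → Lad d)
    (hX : ∀ a ∈ A, (X a).Is P.i0 P.α P.δA P.mA)
    (hT : ∀ a ∈ B, ∀ b ∈ B, a ≠ b →
      ¬ Near (P.α / 2 + P.δA + P.δB) (P.mA * P.α) ((Y a).b P.i0 - (Y b).b P.i0)) :
    ((A ×ˢ B).filter fun q => slot P.α P.mA ((X q.1).b P.i0 - (Y q.2).b P.i0) ∉ (X q.1).S).card ≤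
      2 * ∑ a ∈ A, (P.mA - (X a).S.card) := by
  classical
  have h1 : ∀ a ∈ A, (B.filter fun b =>
      slot P.α P.mA ((X a).b P.i0 - (Y b).b P.i0) ∉ (X a).S).card ≤
      2 * (P.mA - (X a).S.card) := by
    intro a ha
    set M : Finset ℕ := range P.mA \ (X a).S with hM
    have hMc : M.card = P.mA - (X a).S.card := by
      rw [hM, card_sdiff_of_subset, card_range]
      intro k hk
      exact mem_range.2 ((hX a ha).lt k hk)
    rw [← hMc]
    have h2 : (B.filter fun b =>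
        slot P.α P.mA ((X a).b P.i0 - (Y b).b P.i0) ∉ (X a).S).card ≤ 2 * M.card := by
      refine card_le_mul_card_image_of_maps_to
        (f := fun b => slot P.α P.mA ((X a).b P.i0 - (Y b).b P.i0)) ?_ 2 ?_
      · intro b hb
        rw [mem_filter] at hb
        rw [hM, mem_sdiff, mem_range]
        exact ⟨slot_lt hP.α_pos hP.mA_pos _, hb.2⟩
      · intro k _
        refine fiber hP _ Y (X a) ?_ k ?_
        · intro b hb c hc
          rw [mem_filter, mem_filter] at hb hc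
          exact hT b hb.1.1 c hc.1.1
        · intro b hb
          exact (mem_filter.1 hb).2
    exact h2
  have h3 : ((A ×ˢ B).filter fun q =>
      slot P.α P.mA ((X q.1).b P.i0 - (Y q.2).b P.i0) ∉ (X q.1).S).card =
      ∑ a ∈ A, (B.filter fun b =>
        slot P.α P.mA ((X a).b P.i0 - (Y b).b P.i0) ∉ (X a).S).card := by
    rw [card_filter, sum_product]
    refine sum_congr rfl fun a _ => ?_
    rw [card_filter]
  rw [h3, mul_sum]
  exact sum_le_sum h1

end Conf

/-- The number of the missing beads of `#A` good rows and `#B` good columns in the far range of each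
other is at least `#A #B / 2`. -/
theorem count {P : Prm d} (hP : P.Ok) {ι κ : Type*} (A : Finset ι) (B : Finset κ)
    (X : ι → Lad d) (Y : κ → Lad d)
    (hX : ∀ a ∈ A, (X a).Is P.i0 P.α P.δA P.mA) (hY : ∀ b ∈ B, (Y b).Is P.i1 P.α P.δB P.mB)
    (hXc : ∀ a ∈ A, P.mA < 2 * (X a).S.card) (hYc : ∀ b ∈ B, P.mB < 2 * (Y b).S.card)
    (hXX : ∀ a ∈ A, ∀ b ∈ A, a ≠ b → Far P (X a) (X b))
    (hYY : ∀ a ∈ B, ∀ b ∈ B, a ≠ b → Far P (Y a) (Y b))
    (hXY : ∀ a ∈ A, ∀ b ∈ B, Far P (X a) (Y b)) :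
    A.card * B.card ≤
      2 * (∑ a ∈ A, (P.mA - (X a).S.card) + ∑ b ∈ B, (P.mB - (Y b).S.card)) := by
  classical
  have h1 := count_half hP A B X Y hX fun a ha b hb hab =>
    sep hP (hY a ha) (hY b hb) (hYc a ha) (hYc b hb) (hYY a ha b hb hab)
  have h2 := count_half hP.swap B A Y X hY fun a ha b hb hab =>
    sep hP.swap (Y := X a) (Z := X b) (hX a ha) (hX b hb) (hXc a ha) (hXc b hb) (by
      intro k hk l hl
      exact hXX a ha b hb hab k hk l hl)
  have h3 : (A ×ˢ B).card ≤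
      ((A ×ˢ B).filter fun q => slot P.α P.mA ((X q.1).b P.i0 - (Y q.2).b P.i0) ∉ (X q.1).S).card +
      ((B ×ˢ A).filter fun q =>
        slot P.swap.α P.swap.mA ((Y q.1).b P.swap.i0 - (X q.2).b P.swap.i0) ∉ (Y q.1).S).card := by
    have e : ((B ×ˢ A).filter fun q =>
        slot P.swap.α P.swap.mA ((Y q.1).b P.swap.i0 - (X q.2).b P.swap.i0) ∉ (Y q.1).S).card =
        ((A ×ˢ B).filter fun q =>
          slot P.α P.mB ((Y q.2).b P.i1 - (X q.1).b P.i1) ∉ (Y q.2).S).card := by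
      refine card_bij (fun q _ => (q.2, q.1)) ?_ ?_ ?_
      · intro q hq
        rw [mem_filter, mem_product] at hq ⊢
        exact ⟨⟨hq.1.2, hq.1.1⟩, hq.2⟩
      · intro q _ q' _ h
        rw [Prod.mk.injEq] at h
        exact Prod.ext h.2 h.1
      · intro q hq
        rw [mem_filter, mem_product] at hq
        refine ⟨(q.2, q.1), ?_, rfl⟩
        rw [mem_filter, mem_product]
        exact ⟨⟨hq.1.2, hq.1.1⟩, hq.2⟩
    rw [e]
    refine le_trans (card_le_card ?_) (card_union_le _ _)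
    intro q hq
    have hq' := hq
    rw [mem_product] at hq
    rw [mem_union, mem_filter, mem_filter]
    rcases conflict hP (hX q.1 hq.1) (hY q.2 hq.2) (hXY q.1 hq.1 q.2 hq.2) with h | h
    · exact Or.inl ⟨hq', h⟩
    · exact Or.inr ⟨hq', h⟩
  rw [card_product] at h3
  have h2' : ((B ×ˢ A).filter fun q =>
        slot P.swap.α P.swap.mA ((Y q.1).b P.swap.i0 - (X q.2).b P.swap.i0) ∉ (Y q.1).S).card ≤
      2 * ∑ b ∈ B, (P.mB - (Y b).S.card) := h2
  rw [mul_add]
  exact h3.trans (add_le_add h1 h2')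

end Pool.Agent.RC.Bd
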