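import Pool.Agent.Lib.MP_09cbbd_rc.Pack

/-!
# Rows and columns: convex hard cores

A bounded open convex symmetric set, scaled so that it contains the open unit cube, satisfies the
axioms `Core` of the hard core.
-/

set_option autoImplicit false

namespace Pool.Agent.RC

open MeasureTheory Pointwise Finset

variable {d : ℕ}

/-- A bounded open convex symmetric set which contains the open unit cube is a hard core. -/
theorem core_of_convex_cube {N : Set (Fin d → ℝ)} (ho : IsOpen N) (hc : Convex ℝ N)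
    (hb : Bornology.IsBounded N) (hs : ∀ u ∈ N, -u ∈ N)
    (hcube : ∀ u : Fin d → ℝ, (∀ j, |u j| < 1) → u ∈ N) : ∃ D : ℕ, Core N (1 / 2) D := by
  obtain ⟨C, hC⟩ := hb.exists_norm_le
  obtain ⟨D, hD⟩ := exists_nat_gt C
  refine ⟨D, ho.measurableSet, hs, hcube, fun u hu j => ?_, by norm_num, ?_⟩
  · calc |u j| = ‖u j‖ := (Real.norm_eq_abs _).symm
      _ ≤ ‖u‖ := norm_le_pi_norm u j
      _ ≤ C := hC u hu
      _ < D := hD
  · intro u hu e he0 _ v hv hw
    apply hu
    rcases he0.eq_or_lt with he | he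
    · have hv0 : v = 0 := by
        ext j
        have h := hv j
        rw [← he, mul_zero] at h
        exact abs_eq_zero.1 (le_antisymm h (abs_nonneg _))
      rw [← he, hv0, add_zero, add_zero, one_smul] at hw
      exact hw
    · have h1 : (-e⁻¹) • v ∈ N := by
        apply hcube
        intro j
        have h := hv j
        rw [Pi.smul_apply, smul_eq_mul, abs_mul, abs_neg, abs_of_pos (inv_pos.2 he)]
        calc e⁻¹ * |v j| ≤ e⁻¹ * (1 / 2 * e) :=
              mul_le_mul_of_nonneg_left h (inv_pos.2 he).le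
          _ = 1 / 2 := by field_simp
          _ < 1 := by norm_num
      have h2 : (0 : ℝ) < 1 + e := by linarith
      have h3 := hc hw h1 (a := (1 + e)⁻¹) (b := e * (1 + e)⁻¹) (inv_pos.2 h2).le
        (mul_nonneg he.le (inv_pos.2 h2).le) (by field_simp)
      have h4 : (1 + e)⁻¹ • ((1 + e) • u + v) + (e * (1 + e)⁻¹) • ((-e⁻¹) • v) = u := by
        ext j
        simp only [Pi.add_apply, Pi.smul_apply, smul_eq_mul]
        field_simp
        ring
      rwa [h4] at h3

/-- **A bounded open convex symmetric set is a hard core, up to a scaling.** -/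
theorem core_of_convex {N : Set (Fin d → ℝ)} (ho : IsOpen N) (hc : Convex ℝ N)
    (hb : Bornology.IsBounded N) (hs : ∀ u ∈ N, -u ∈ N) (hne : N.Nonempty) :
    ∃ l : ℝ, 0 < l ∧ ∃ D : ℕ, Core (l • N) (1 / 2) D := by
  have h0 : (0 : Fin d → ℝ) ∈ N := by
    obtain ⟨u, hu⟩ := hne
    have h := hc hu (hs u hu) (a := 1 / 2) (b := 1 / 2) (by norm_num) (by norm_num) (by norm_num)
    rwa [smul_neg, add_neg_cancel] at h
  obtain ⟨r, hr, hball⟩ := Metric.isOpen_iff.1 ho 0 h0
  refine ⟨r⁻¹, inv_pos.2 hr, core_of_convex_cube (ho.smul₀ (inv_pos.2 hr).ne') (hc.smul _)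
    (hb.smul₀ _) ?_ ?_⟩
  · intro u hu
    rw [Set.mem_inv_smul_set_iff₀ hr.ne'] at hu ⊢
    rw [smul_neg]
    exact hs _ hu
  · intro u hu
    rw [Set.mem_inv_smul_set_iff₀ hr.ne']
    apply hball
    rw [mem_ball_zero_iff, pi_norm_lt_iff hr]
    intro j
    rw [Pi.smul_apply, smul_eq_mul, Real.norm_eq_abs, abs_mul, abs_of_pos hr]
    calc r * |u j| < r * 1 := mul_lt_mul_of_pos_left (hu j) hr
      _ = r := mul_one r

/-- The volume of the symmetric difference of scaled sets. -/
theorem volume_smul_symmDiff_pos {l : ℝ} (hl : 0 < l) (A B : Set (Fin d → ℝ)) :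
    volume (symmDiff (l • A) (l • B)) = ENNReal.ofReal (l ^ d) * volume (symmDiff A B) := by
  rw [← Set.smul_set_symmDiff₀ hl.ne', Measure.addHaar_smul, Module.finrank_fin_fun,
    abs_of_pos (pow_pos hl d)]

end Pool.Agent.RC
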