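import Pool.Agent.Lib.MP_09cbbd_rc.Blk
import Pool.Agent.Lib.MP_09cbbd_ex.Mod

/-!
# Rows times columns for the contents of the gas on cells
-/

set_option autoImplicit false

namespace Pool.Agent.RC.Bd

open Finset Pool.Agent.StableGas Pool.Agent.SquareWellGas Pool.Agent.SquareWell Pool.Agent.Exg
  Pool.Agent.Mix Pool.Agent.Mix.Ct

variable {d : ℕ}

/-- Good rows: more than half of the beads. -/
structure Good (P : Prm d) (A : Set (ℕ × (ℕ → Fin d → ℝ))) : Prop where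
  row : ∀ x ∈ A, IsA P x
  box : ∀ x ∈ A, ∀ k < x.1, ∀ j, 0 ≤ x.2 k j ∧ x.2 k j < 1
  many : ∀ x ∈ A, P.mA < 2 * x.1

open Classical in
/-- **Rows times columns.** -/
theorem count_good {P : Prm d} (hP : P.Ok) (hz : P.Sz) {A B : Set (ℕ × (ℕ → Fin d → ℝ))}
    (hA : Good P A) (hB : Good P.swap B) {S : Finset (Zd d)}
    {ω : Zd d → ℕ × (ℕ → Fin d → ℝ)}
    (hC : ∀ i ∈ S, ∀ j ∈ S, i ≠ j → okc P.E (j - i) (ω i) (ω j)) {rc : ℕ}
    (hr : ∀ i ∈ S, ∀ j ∈ S, ∀ k, |i k - j k| ≤ rc) (hR : (rc : ℝ) + 1 ≤ P.R) :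
    (S.filter fun i => ω i ∈ A).card * (S.filter fun i => ω i ∈ B).card ≤
      2 * (∑ i ∈ S.filter (fun i => ω i ∈ A), (P.mA - (ω i).1) +
        ∑ i ∈ S.filter (fun i => ω i ∈ B), (P.mB - (ω i).1)) := by
  set SA := S.filter fun i => ω i ∈ A with hSA
  set SB := S.filter fun i => ω i ∈ B with hSB
  have hAS : ∀ i ∈ SA, i ∈ S ∧ ω i ∈ A := fun i hi => mem_filter.1 hi
  have hBS : ∀ i ∈ SB, i ∈ S ∧ ω i ∈ B := fun i hi => mem_filter.1 hi
  let X : (i : Zd d) → Fin (ω i).1 → Fin d → ℝ := fun i k => (ω i).2 k + fun j => (i j : ℝ)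
  have eX : ∀ (i j : Zd d) (k : Fin (ω i).1) (l : Fin (ω j).1),
      X i k - X j l = (ω i).2 k - Exg.tr (j - i) ((ω j).2 l) := by
    intro i j k l
    funext c
    simp only [X, Exg.tr, Pi.sub_apply, Pi.add_apply, Int.cast_sub]
    ring
  have eS : ∀ (i : Zd d) (k l : Fin (ω i).1), X i k - X i l = (ω i).2 k - (ω i).2 l := by
    intro i k l
    funext c
    simp only [X, Pi.sub_apply, Pi.add_apply]
    ring
  have hnE : ∀ i ∈ S, ∀ j ∈ S, i ≠ j → ∀ k l, X i k - X j l ∉ P.E := by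
    intro i hi j hj hij k l
    rw [eX]
    exact hC i hi j hj hij k k.2 l l.2
  have hdist : ∀ i ∈ S, ∀ j ∈ S, (∀ k < (ω i).1, ∀ c, 0 ≤ (ω i).2 k c ∧ (ω i).2 k c < 1) →
      (∀ k < (ω j).1, ∀ c, 0 ≤ (ω j).2 k c ∧ (ω j).2 k c < 1) → ∀ k l,
      ‖X i k - X j l‖ ≤ P.R := by
    intro i hi j hj bi bj k l
    have hR0 : 0 ≤ P.R := by
      have : (0 : ℝ) ≤ rc := Nat.cast_nonneg _
      linarith
    refine (pi_norm_le_iff_of_nonneg hR0).2 fun c => ?_
    have h1 := bi k k.2 c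
    have h2 := bj l l.2 c
    have h3 := hr i hi j hj c
    have h4 : |(i c : ℝ) - j c| ≤ rc := by exact_mod_cast h3
    have h5 := abs_le.1 h4
    rw [Real.norm_eq_abs]
    simp only [X, Pi.sub_apply, Pi.add_apply]
    rw [abs_le]
    constructor <;> linarith [h5.1, h5.2]
  have rowA : ∀ i ∈ SA, ∀ s t, s ≠ t → Win P.i0 P.α P.δA P.mA (X i s - X i t) := by
    intro i hi s t hst
    rw [eS]
    exact (hA.row _ (hAS i hi).2).2 s s.2 t t.2 fun h => hst (Fin.ext h)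
  have rowB : ∀ i ∈ SB, ∀ s t, s ≠ t → Win P.i1 P.α P.δB P.mB (X i s - X i t) := by
    intro i hi s t hst
    rw [eS]
    exact (hB.row _ (hBS i hi).2).2 s s.2 t t.2 fun h => hst (Fin.ext h)
  have twoA : ∀ i ∈ SA, 2 ≤ Fintype.card (Fin (ω i).1) := fun i hi => by
    rw [Fintype.card_fin]
    exact (hA.row _ (hAS i hi).2).1
  have twoB : ∀ i ∈ SB, 2 ≤ Fintype.card (Fin (ω i).1) := fun i hi => by
    rw [Fintype.card_fin]
    exact (hB.row _ (hBS i hi).2).1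
  have manyA : ∀ i ∈ SA, P.mA < 2 * Fintype.card (Fin (ω i).1) := fun i hi => by
    rw [Fintype.card_fin]
    exact hA.many _ (hAS i hi).2
  have manyB : ∀ i ∈ SB, P.mB < 2 * Fintype.card (Fin (ω i).1) := fun i hi => by
    rw [Fintype.card_fin]
    exact hB.many _ (hBS i hi).2
  have ne_AB : ∀ i ∈ SA, ∀ j ∈ SB, i ≠ j := by
    intro i hi j hj hij
    subst hij
    exact not_A_B hP (hA.row _ (hAS i hi).2) (hB.row _ (hBS i hj).2)
  have h := count_beads hP SA SB (σ := fun i => Fin (ω i).1) (τ := fun i => Fin (ω i).1) X X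
    rowA rowB manyA manyB
    (fun i hi j hj hij s t => ⟨far_AA hP hz (X i) (X j) (rowA i hi) (rowA j hj)
      (hnE i (hAS i hi).1 j (hAS j hj).1 hij) (twoA i hi) (manyA i hi) (manyA j hj) s t,
      hdist i (hAS i hi).1 j (hAS j hj).1 (hA.box _ (hAS i hi).2) (hA.box _ (hAS j hj).2) s t,
      hnE i (hAS i hi).1 j (hAS j hj).1 hij s t⟩)
    (fun i hi j hj hij s t => ⟨far_AA hP.swap hz.swap (X i) (X j) (rowB i hi) (rowB j hj)
      (hnE i (hBS i hi).1 j (hBS j hj).1 hij) (twoB i hi) (manyB i hi) (manyB j hj) s t,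
      hdist i (hBS i hi).1 j (hBS j hj).1 (hB.box _ (hBS i hi).2) (hB.box _ (hBS j hj).2) s t,
      hnE i (hBS i hi).1 j (hBS j hj).1 hij s t⟩)
    (fun i hi j hj s t => by
      have hij := ne_AB i hi j hj
      obtain ⟨s', hs'⟩ := Fintype.exists_ne_of_one_lt_card (twoA i hi) s
      obtain ⟨t', ht'⟩ := Fintype.exists_ne_of_one_lt_card (twoB j hj) t
      exact ⟨apart_AB hP hz (rowA i hi s s' hs'.symm) (rowB j hj t t' ht'.symm)
        (hnE i (hAS i hi).1 j (hBS j hj).1 hij s t) (hnE i (hAS i hi).1 j (hBS j hj).1 hij s t')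
        (hnE i (hAS i hi).1 j (hBS j hj).1 hij s' t),
        hdist i (hAS i hi).1 j (hBS j hj).1 (hA.box _ (hAS i hi).2) (hB.box _ (hBS j hj).2) s t,
        hnE i (hAS i hi).1 j (hBS j hj).1 hij s t⟩)
  simpa only [Fintype.card_fin] using h

end Pool.Agent.RC.Bd
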