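import Pool.Agent.Lib.MP_09cbbd_rc.Prs
import Pool.Agent.Lib.MP_09cbbd_ex.Ens
import Pool.Agent.Lib.MP_09cbbd_ex.Mod
import Pool.Agent.Lib.MP_09cbbd_ex.Scale

/-!
# The exclusion gas as a gas on cells

The contents of a cell are finite sequences of points; `Nk k` is the near field with the margin
number `k`. The near field compatibility `nfp` with the margin `k ≥ 1` demands in addition that no
difference is in `Nk k`.
-/

set_option autoImplicit false

namespace Pool.Agent.RC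

open MeasureTheory Finset Filter Topology
open Pool.Agent.StableGas hiding tr
open Pool.Agent.SquareWell hiding Md cut
open Pool.Agent.SquareWell.ModA
open Pool.Agent.Mix (Qr mem_Qr Trans Ct)
open Pool.Agent.Exg

variable {d : ℕ}

/-- Near field compatibility with the margin number `k`. -/
def nfp (E : Set (Fin d → ℝ)) (Nk : ℕ → Set (Fin d → ℝ)) (k : ℕ) (v : Zd d)
    (x y : Ct (Fin d → ℝ)) : Prop :=
  (∀ a, a < x.1 → ∀ b, b < y.1 → x.2 a - tr v (y.2 b) ∈ Nk 0 → x.2 a - tr v (y.2 b) ∉ E) ∧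
    (1 ≤ k → ∀ a, a < x.1 → ∀ b, b < y.1 → x.2 a - tr v (y.2 b) ∉ Nk k)

/-- Far field compatibility. -/
def farp (E : Set (Fin d → ℝ)) (Nk : ℕ → Set (Fin d → ℝ)) (v : Zd d)
    (x y : Ct (Fin d → ℝ)) : Prop :=
  ∀ a, a < x.1 → ∀ b, b < y.1 → x.2 a - tr v (y.2 b) ∉ Nk 0 → x.2 a - tr v (y.2 b) ∉ E

/-- The near fields with margins, and the ranges. -/
structure Ng (d : ℕ) (E : Set (Fin d → ℝ)) where
  Nk : ℕ → Set (Fin d → ℝ)
  q : ℕ
  r : ℕ
  hE : MeasurableSet E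
  hn : ∀ u ∈ E, -u ∈ E
  meas : ∀ k, MeasurableSet (Nk k)
  sym : ∀ k, ∀ u ∈ Nk k, -u ∈ Nk k
  mono : ∀ k, Nk k ⊆ Nk (k + 1)
  hNq : ∀ k ≤ 2, ∀ u ∈ Nk k, ∀ j, |u j| ≤ q
  hEr : ∀ u ∈ E, ∀ j, |u j| ≤ r
  hqr : q ≤ r

variable {E : Set (Fin d → ℝ)} {Nk : ℕ → Set (Fin d → ℝ)}

theorem okc_iff {v : Zd d} {x y : Ct (Fin d → ℝ)} :
    Exg.okc E v x y ↔ nfp E Nk 0 v x y ∧ farp E Nk v x y := by
  constructor
  · intro h
    exact ⟨⟨fun a ha b hb _ => h a ha b hb, fun h0 => absurd h0 (by omega)⟩,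
      fun a ha b hb _ => h a ha b hb⟩
  · rintro ⟨h1, h2⟩ a ha b hb
    by_cases h : x.2 a - tr v (y.2 b) ∈ Nk 0
    · exact h1.1 a ha b hb h
    · exact h2 a ha b hb h

theorem diff_neg (v : Zd d) (x y : Fin d → ℝ) : y - tr (-v) x = -(x - tr v y) := by
  funext j
  simp only [tr, Pi.sub_apply, Pi.neg_apply, Int.cast_neg]
  ring

/-- Differences of far cells. -/
theorem diff_far {q : ℕ} {v : Zd d} (hv : v ∉ Qr d q) {x y : Fin d → ℝ}
    (hx : x ∈ SquareWellGas.Box d 1) (hy : y ∈ SquareWellGas.Box d 1) :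
    ∃ j, (q : ℝ) < |(x - tr v y) j| := by
  rw [mem_Qr] at hv
  push Not at hv
  obtain ⟨j, hj⟩ := hv
  refine ⟨j, ?_⟩
  have h2 := hx j
  have h3 := hy j
  have h4 : (q : ℝ) + 1 ≤ |(v j : ℝ)| := by
    have : (q : ℤ) + 1 ≤ |v j| := hj
    exact_mod_cast this
  simp only [Set.mem_Ico] at h2 h3
  rw [Pi.sub_apply]
  unfold tr
  rw [lt_abs]
  rcases abs_cases (v j : ℝ) with ⟨e, _⟩ | ⟨e, _⟩ <;> rw [e] at h4
  · right
    linarith
  · left
    linarith

theorem measurable_pairs {P : (Fin d → ℝ) → Prop} (hP : MeasurableSet {u | P u}) (v : Zd d) :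
    Measurable fun p : Ct (Fin d → ℝ) × Ct (Fin d → ℝ) =>
      ∀ a, a < p.1.1 → ∀ b, b < p.2.1 → P (p.1.2 a - tr v (p.2.2 b)) := by
  refine Measurable.forall fun k =>
    (measurable_lt_fst k (measurable_fst.comp measurable_fst)).imp ?_
  refine Measurable.forall fun l =>
    (measurable_lt_fst l (measurable_fst.comp measurable_snd)).imp ?_
  have h1 : Measurable fun p : Ct (Fin d → ℝ) × Ct (Fin d → ℝ) => p.1.2 k :=
    (measurable_at k).comp measurable_fst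
  have h2 : Measurable fun p : Ct (Fin d → ℝ) × Ct (Fin d → ℝ) => tr v (p.2.2 l) :=
    (mp_tr v).measurable.comp ((measurable_at l).comp measurable_snd)
  rw [← measurableSet_setOfPred]
  exact (h1.sub h2) hP

theorem measurable_nfp (hE : MeasurableSet E) (hN : ∀ k, MeasurableSet (Nk k)) (k : ℕ) (v : Zd d) :
    Measurable fun p : Ct (Fin d → ℝ) × Ct (Fin d → ℝ) => nfp E Nk k v p.1 p.2 := by
  have h1 := measurable_pairs (P := fun u => u ∈ Nk 0 → u ∉ E) (by
    have e : {u | u ∈ Nk 0 → u ∉ E} = (Nk 0 ∩ E)ᶜ := by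
      ext u
      simp
    rw [e]
    exact ((hN 0).inter hE).compl) v
  have h2 := measurable_pairs (P := fun u => u ∉ Nk k) (hN k).compl v
  exact h1.and (measurable_const.imp h2)

theorem measurable_farp (hE : MeasurableSet E) (hN : MeasurableSet (Nk 0)) (v : Zd d) :
    Measurable fun p : Ct (Fin d → ℝ) × Ct (Fin d → ℝ) => farp E Nk v p.1 p.2 :=
  measurable_pairs (P := fun u => u ∉ Nk 0 → u ∉ E) (by
    have e : {u | u ∉ Nk 0 → u ∉ E} = Nk 0 ∪ Eᶜ := by
      ext u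
      simp only [Set.mem_ofPred_eq, Set.mem_union, Set.mem_compl_iff]
      tauto
    rw [e]
    exact hN.union hE.compl) v

theorem nfp_symm (hn : ∀ u ∈ E, -u ∈ E) (hN : ∀ k, ∀ u ∈ Nk k, -u ∈ Nk k) {k : ℕ} {v : Zd d}
    {x y : Ct (Fin d → ℝ)} (h : nfp E Nk k v x y) : nfp E Nk k (-v) y x := by
  refine ⟨fun a ha b hb h1 h2 => ?_, fun hk a ha b hb h1 => ?_⟩
  · rw [diff_neg] at h1 h2
    have h3 := hN 0 _ h1
    have h4 := hn _ h2
    rw [neg_neg] at h3 h4
    exact h.1 b hb a ha h3 h4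
  · rw [diff_neg] at h1
    have h3 := hN k _ h1
    rw [neg_neg] at h3
    exact h.2 hk b hb a ha h3

theorem farp_symm (hn : ∀ u ∈ E, -u ∈ E) (hN : ∀ u ∈ Nk 0, -u ∈ Nk 0) {v : Zd d}
    {x y : Ct (Fin d → ℝ)} (h : farp E Nk v x y) : farp E Nk (-v) y x := by
  intro a ha b hb h1 h2
  rw [diff_neg] at h1 h2
  have h4 := hn _ h2
  rw [neg_neg] at h4
  exact h b hb a ha (fun h3 => h1 (hN _ h3)) h4

theorem nfp_anti (hN : ∀ k, Nk k ⊆ Nk (k + 1)) {k : ℕ} {v : Zd d} {x y : Ct (Fin d → ℝ)}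
    (h : nfp E Nk (k + 1) v x y) : nfp E Nk k v x y :=
  ⟨h.1, fun _ a ha b hb h1 => h.2 (by omega) a ha b hb (hN k h1)⟩

namespace Ng

variable (G : Ng d E)

open Classical in
/-- The exclusion gas as a gas on cells. -/
noncomputable def cg : CG d (Ct (Fin d → ℝ)) where
  π := (sys G.hE).pg
  e0 := e0
  nf := fun k v x y => Vx E x → Vx E y → nfp E G.Nk k v x y
  far := fun v x y => Vx E x → Vx E y → farp E G.Nk v x y
  q := G.q
  r := G.r
  hq := G.hqr
  π_fin := pg_univ_ne_top G.hE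
  π_e0 := pg_e0 G.hE
  e0_meas := measurableSet_singleton _
  nf_meas := fun k v => by
    have h := ((measurable_Vx G.hE).comp measurable_fst).imp
      (((measurable_Vx G.hE).comp measurable_snd).imp (measurable_nfp G.hE G.meas k v))
    exact measurableSet_setOfPred.2 h
  far_meas := fun v => by
    have h := ((measurable_Vx G.hE).comp measurable_fst).imp
      (((measurable_Vx G.hE).comp measurable_snd).imp (measurable_farp G.hE (G.meas 0) v))
    exact measurableSet_setOfPred.2 h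
  nf_symm := fun k v x y h hy hx => nfp_symm G.hn G.sym (h hx hy)
  far_symm := fun v x y h hy hx => farp_symm G.hn (G.sym 0) (h hx hy)
  nf_anti := fun k v x y h hx hy => nfp_anti G.mono (h hx hy)
  nf_e0 := fun k v y _ _ => ⟨fun a ha => absurd ha (Nat.not_lt_zero a),
    fun _ a ha => absurd ha (Nat.not_lt_zero a)⟩
  far_e0 := fun v y _ _ a ha => absurd ha (Nat.not_lt_zero a)
  nf_r := fun k v x y hk hv hx hy => by
    have h : ∀ k ≤ 2, ∀ a, a < x.1 → ∀ b, b < y.1 → x.2 a - tr v (y.2 b) ∉ G.Nk k := by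
      intro k hk a ha b hb h1
      obtain ⟨j, hj⟩ := diff_far hv (hx.1 a ha) (hy.1 b hb)
      exact absurd (G.hNq k hk _ h1 j) (not_le.2 hj)
    exact ⟨fun a ha b hb h1 => absurd h1 (h 0 (by omega) a ha b hb), fun _ => h k hk⟩
  far_r := fun v x y hv hx hy a ha b hb _ h1 => by
    obtain ⟨j, hj⟩ := diff_far hv (hx.1 a ha) (hy.1 b hb)
    exact absurd (G.hEr _ h1 j) (not_le.2 hj)

theorem okc_iff {v : Zd d} {x y : Ct (Fin d → ℝ)} (hx : Vx E x) (hy : Vx E y) :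
    G.cg.okc v x y ↔ Exg.okc E v x y := by
  rw [RC.okc_iff (Nk := G.Nk)]
  exact ⟨fun h => ⟨h.1 hx hy, h.2 hx hy⟩, fun h => ⟨fun _ _ => h.1, fun _ _ => h.2⟩⟩

/-! ### Only the valid contents matter -/

theorem int_mono_Vx {A : Finset (Zd d)} {f g : (Zd d → Ct (Fin d → ℝ)) → ENNReal}
    (h : ∀ ω, (∀ i, Vx E (ω i)) → f ω ≤ g ω) : G.cg.int A f ≤ G.cg.int A g := by
  have := G.cg.fin_π
  unfold CG.int lmarginal
  refine lintegral_mono_ae ?_
  have h1 : ∀ᵐ z ∂(Measure.pi fun _ : A => G.cg.π), ∀ i, Vx E (z i) := by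
    rw [ae_all_iff]
    intro i
    exact (Measure.tendsto_eval_ae_ae (μ := fun _ : A => G.cg.π)).eventually (ae_Vx G.hE)
  filter_upwards [h1] with z hz
  refine h _ fun i => ?_
  rw [Function.updateFinset_def]
  dsimp only
  split_ifs with hi
  · exact hz ⟨i, hi⟩
  · exact Vx_e0

theorem int_congr_Vx {A : Finset (Zd d)} {f g : (Zd d → Ct (Fin d → ℝ)) → ENNReal}
    (h : ∀ ω, (∀ i, Vx E (ω i)) → f ω = g ω) : G.cg.int A f = G.cg.int A g :=
  le_antisymm (G.int_mono_Vx fun ω hω => (h ω hω).le) (G.int_mono_Vx fun ω hω => (h ω hω).ge)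

theorem cp_iff {A : Finset (Zd d)} {ω : Zd d → Ct (Fin d → ℝ)} (hω : ∀ i, Vx E (ω i)) :
    G.cg.cp id A ω ↔ Comp E A ω := by
  rw [CG.cp_id]
  unfold Comp
  refine forall_congr' fun i => forall_congr' fun _ => forall_congr' fun j =>
    forall_congr' fun _ => forall_congr' fun _ => ?_
  exact G.okc_iff (hω i) (hω j)

/-! ### The link with the partition functions of the gas -/

/-- The number of beads as a field. -/
def bf (d : ℕ) (ζ : ℝ) (x : Ct (Fin d → ℝ)) : ℝ := ζ * x.1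

theorem fld (ζ : ℝ) : G.cg.Fld (bf d ζ) := by
  refine ⟨?_, ?_, ?_⟩
  · unfold bf
    exact ((measurable_from_top (f := fun n : ℕ => (n : ℝ))).comp measurable_fst).const_mul ζ
  · show ζ * (((0 : ℕ) : ℕ) : ℝ) = 0
    simp
  · exact ne_top_of_le_ne_top ENNReal.ofReal_ne_top (lint_pg_le G.hE ζ)

/-- **The link.** -/
theorem xi_eq (ζ : ℝ) (L : ℕ) : G.cg.xi (bf d ζ) (bx d L) =
    ∑' n : ℕ, ex (ζ * n) * ENNReal.ofReal (ExGas.Z d E L n) := by
  classical
  rw [link G.hE ζ L (fun _ => e0)]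
  refine G.int_congr_Vx fun ω hω => ?_
  by_cases hc : G.cg.cp id (bx d L) ω
  · rw [G.cg.w_of_cp hc, if_pos ((G.cp_iff hω).1 hc), mul_one]
    rfl
  · rw [G.cg.w_of_not hc, if_neg (fun h => hc ((G.cp_iff hω).2 h)), mul_zero]

/-- The pressure as a function of the chemical potential. -/
noncomputable def q0 (ζ : ℝ) : ℝ := G.cg.prs (bf d ζ)

/-- **A kink of the pressure gives a transition.** -/
theorem transition_of_kink (hd : 1 ≤ d) {a R : ℝ} (P : Exg.Ex E a R) {w n1 n2 : ℝ}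
    (hn : n1 < n2) (hw1 : ∀ h : ℝ, 0 < h → G.q0 w + h * n2 ≤ G.q0 (w + h))
    (hw2 : ∀ h : ℝ, 0 < h → G.q0 w - h * n1 ≤ G.q0 (w - h)) : ExGas.Transition d E := by
  obtain ⟨K, hK⟩ := exists_nat_gt R
  have hR := P.R_pos hd
  have hK0 : 1 ≤ K := by
    have : (0 : ℝ) < K := hR.trans hK
    exact_mod_cast this
  refine transition_of_trans (trans_of_kink hd P (l0 := 1) hK0 (by simpa using hK) (q := G.q0)
    (fun μ => ?_) hn hw1 hw2)
  have h1 := CG.isP_prs hd (G.fld μ)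
  unfold CG.IsP at h1
  simp only [mul_one]
  simpa only [G.xi_eq, q0] using h1

end Ng

end Pool.Agent.RC
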