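import Pool.Agent.Lib.MP_09cbbd_rc.Count
import Pool.Agent.Lib.MP_09cbbd_rc.CubT
import Pool.Agent.Lib.MP_09cbbd_rc.Inst

/-!
# Rows times columns: the instance
-/

set_option autoImplicit false

namespace Pool.Agent.RC

open MeasureTheory Finset Pool.Agent.StableGas
open Pool.Agent.Mix (Qr mem_Qr)

variable {d : ℕ}

/-- **The count for the exclusion gas.** -/
theorem cub_of_good {P : Bd.Prm d} (hP : P.Ok) (hz : P.Sz) (G : Ng d P.E)
    {A B : Set (ℕ × (ℕ → Fin d → ℝ))} (hA : Bd.Good P A) (hB : Bd.Good P.swap B)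
    (hAV : ∀ x ∈ A, Exg.Vx P.E x) (hBV : ∀ x ∈ B, Exg.Vx P.E x)
    (mA : MeasurableSet A) (mB : MeasurableSet B) {ms : ℕ × (ℕ → Fin d → ℝ) → ℕ}
    (hms : Measurable ms) (msA : ∀ x ∈ A, ms x = P.mA - x.1) (msB : ∀ x ∈ B, ms x = P.mB - x.1)
    {rc : ℕ} (hR : (rc : ℝ) + 1 ≤ P.R) : Cub G.cg A B ms rc where
  SA_meas := mA
  SB_meas := mB
  ms_meas := hms
  e0_A := fun h => by
    have h1 := (hA.row _ h).1
    change 2 ≤ 0 at h1
    omega
  e0_B := fun h => by
    have h1 := (hB.row _ h).1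
    change 2 ≤ 0 at h1
    omega
  disj := Set.disjoint_left.2 fun x h1 h2 => Bd.not_A_B hP (hA.row x h1) (hB.row x h2)
  count := by
    classical
    intro S ω hω hS
    set S' := S.filter fun i => ω i ∈ A ∪ B with hS'
    have hV : ∀ i ∈ S', i ∈ S ∧ Exg.Vx P.E (ω i) := by
      intro i hi
      obtain ⟨h1, h2⟩ := mem_filter.1 hi
      exact ⟨h1, h2.elim (hAV _) (hBV _)⟩
    have h := Bd.count_good hP hz hA hB (S := S') (ω := ω)
      (fun i hi j hj hij => (G.okc_iff (hV i hi).2 (hV j hj).2).1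
        (G.cg.cp_id.1 hω i (hV i hi).1 j (hV j hj).1 hij)) (rc := rc)
      (fun i hi j hj k => by
        have h1 := mem_Qr.1 (hS i (hV i hi).1 j (hV j hj).1) k
        rw [abs_sub_comm]
        exact h1) hR
    have eA : (S'.filter fun i => ω i ∈ A) = S.filter fun i => ω i ∈ A := by
      ext i
      simp only [hS', mem_filter, Set.mem_union]
      tauto
    have eB : (S'.filter fun i => ω i ∈ B) = S.filter fun i => ω i ∈ B := by
      ext i
      simp only [hS', mem_filter, Set.mem_union]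
      tauto
    rw [eA, eB] at h
    have cA : cnt A S ω = (S.filter fun i => ω i ∈ A).card :=
      mem_of_cnt fun i => by rw [mem_filter]
    have cB : cnt B S ω = (S.filter fun i => ω i ∈ B).card :=
      mem_of_cnt fun i => by rw [mem_filter]
    rw [cA, cB]
    refine h.trans ?_
    have e : ∑ i ∈ S, (A ∪ B).indicator ms (ω i) =
        ∑ i ∈ S.filter (fun i => ω i ∈ A), (P.mA - (ω i).1) +
          ∑ i ∈ S.filter (fun i => ω i ∈ B), (P.mB - (ω i).1) := by
      rw [sum_filter, sum_filter, ← sum_add_distrib]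
      refine sum_congr rfl fun i _ => ?_
      by_cases h1 : ω i ∈ A
      · have h2 : ω i ∉ B := fun h2 => Bd.not_A_B hP (hA.row _ h1) (hB.row _ h2)
        rw [if_pos h1, if_neg h2, Set.indicator_of_mem (Set.mem_union_left B h1), msA _ h1, add_zero]
      · by_cases h2 : ω i ∈ B
        · rw [if_neg h1, if_pos h2, Set.indicator_of_mem (Set.mem_union_right A h2), msB _ h2, zero_add]
        · rw [if_neg h1, if_neg h2, Set.indicator_of_notMem fun h => h.elim h1 h2, add_zero]
    rw [e]
    omega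

end Pool.Agent.RC
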