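import Pool.Agent.Lib.MP_09cbbd_rc.CubC
import Pool.Agent.Lib.MP_09cbbd_rc.AB

/-!
# Rows times columns: the good contents of the gas
-/

set_option autoImplicit false

namespace Pool.Agent.RC

variable {d : ℕ} {h w : ℝ} {i₁ i₂ : Fin d} {m : ℕ} {R α a b β β' τ ε : ℝ}
  {N E : Set (Fin d → ℝ)}

theorem Geo.good_A (hG : Geo d i₁ i₂ m R α a b β β' τ ε N E) (hh : 0 < h) (haw : a < w) :
    Bd.Good (Bd.prm i₁ i₂ m R α a b β N E) (GA E i₁ i₂ m α a h w) where
  row := fun x hx => ⟨hG.two_le (GA_few hx), GA_dir hx⟩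
  box := fun x hx k hk j => (hG.Vx_A hh haw hx).1 k hk j
  many := fun x hx => by
    have h1 := GA_few hx
    have h2 := hG.hm
    show m < 2 * x.1
    omega

theorem Geo.good_B (hG : Geo d i₁ i₂ m R α a b β β' τ ε N E) (hh : 0 < h) (haw : a < w)
    (hm : 3 ≤ m) :
    Bd.Good (Bd.prm i₁ i₂ m R α a b β N E).swap (GB E i₁ i₂ m α b h w) where
  row := fun x hx => ⟨hG.two_le (GB_few hx), GB_dir hx⟩
  box := fun x hx k hk j => (hG.Vx_B hh haw hx).1 k hk j
  many := fun x hx => by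
    have h1 := GB_few hx
    show m + 1 < 2 * x.1
    omega

/-- **Rows times columns** for the good contents of the gas. -/
theorem Geo.cub (hG : Geo d i₁ i₂ m R α a b β β' τ ε N E) (G : Ng d E) (hh : 0 < h) (haw : a < w)
    (hm : 3 ≤ m) {rc : ℕ} (hR : (rc : ℝ) + 1 ≤ R) :
    Cub G.cg (GA E i₁ i₂ m α a h w) (GB E i₁ i₂ m α b h w) (gms E i₁ i₂ m α a h w) rc :=
  cub_of_good (P := Bd.prm i₁ i₂ m R α a b β N E) (Bd.ok_of hG) (Bd.sz_of hG) G
    (hG.good_A hh haw) (hG.good_B hh haw hm) (fun _ hx => hG.Vx_A hh haw hx)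
    (fun _ hx => hG.Vx_B hh haw hx) (measurableSet_GA hG.meas) (measurableSet_GB hG.meas)
    (measurable_gms hG.meas) (fun _ hx => gms_A hx) (fun _ hx => hG.gms_B hx) hR

end Pool.Agent.RC
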