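import Pool.Agent.Lib.MP_09cbbd_rc.Cub

/-!
# Rows and columns: the crude bound, cubic core
-/

set_option autoImplicit false

namespace Pool.Agent.RC

open MeasureTheory Finset Filter Topology Pool.Agent.StableGas
open Pool.Agent.SquareWell hiding Md cut
open Pool.Agent.Vdw (blk lift ball Lk Yk Wk Kc)
open Pool.Agent.Mix (Qr mem_Qr)

variable {d : ℕ} {E : Type} [MeasurableSpace E]

section

variable {M : CG d E} {SA SB : Set E} {ms : E → ℕ} {m : ℕ} {c1 ε μ : ℝ} {h : E → ℝ}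

theorem measurable_en (hA : MeasurableSet SA) (hB : MeasurableSet SB) (hm : Measurable ms) :
    Measurable (en SA SB ms m c1 μ) := by
  unfold en
  refine Measurable.ite (hA.union hB) ?_ measurable_const
  exact ((measurable_of_countable fun n : ℕ => (n : ℝ)).comp hm).const_mul _

theorem measurableSet_Lt (X : Finset (Zd d)) (i : Zd d) :
    MeasurableSet {ω : Zd d → E | Lt M X ω i} := by
  classical
  have e : {ω : Zd d → E | Lt M X ω i} = ⋃ j ∈ X.filter fun j => toLex j < toLex i,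
      ({ω : Zd d → E | M.nf 0 (j - i) (ω i) (ω j)} \ {ω : Zd d → E | M.nf 2 (j - i) (ω i) (ω j)}) := by
    ext ω
    simp only [Lt, Set.mem_ofPred_eq, Set.mem_iUnion, Set.mem_sdiff, mem_filter, exists_prop]
    constructor
    · rintro ⟨j, h1, h2, h3, h4⟩
      exact ⟨j, ⟨h1, h2⟩, h3, h4⟩
    · rintro ⟨j, ⟨h1, h2⟩, h3, h4⟩
      exact ⟨j, h1, h2, h3, h4⟩
  rw [e]
  refine Finset.measurableSet_biUnion _ fun j _ => ?_
  have hp : Measurable fun ω : Zd d → E => (ω i, ω j) :=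
    (measurable_pi_apply i).prodMk (measurable_pi_apply j)
  exact (hp (M.nf_meas 0 (j - i))).diff (hp (M.nf_meas 2 (j - i)))

theorem measurable_ce (hA : MeasurableSet SA) (hB : MeasurableSet SB) (hm : Measurable ms)
    (X : Finset (Zd d)) (i : Zd d) : Measurable fun ω => ce M SA SB ms m c1 μ X ω i := by
  unfold ce
  refine ((measurable_en hA hB hm).comp (measurable_pi_apply i)).add ?_
  exact Measurable.ite (measurableSet_Lt X i) measurable_const measurable_const

theorem Lt_congr {X : Finset (Zd d)} {ω ω' : Zd d → E} {i : Zd d} (hi : ω i = ω' i)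
    (h : ∀ j ∈ X, toLex j < toLex i → ω j = ω' j) : Lt M X ω i ↔ Lt M X ω' i := by
  unfold Lt
  refine exists_congr fun j => and_congr_right fun hj => and_congr_right fun hlt => ?_
  rw [hi, h j hj hlt]

/-- The maximal cell does not influence the energies of the other cells. -/
theorem ce_insert {X : Finset (Zd d)} {i : Zd d} (hmax : ∀ j ∈ X, toLex j < toLex i)
    {ω : Zd d → E} {j : Zd d} (hj : j ∈ X) :
    ce M SA SB ms m c1 μ (insert i X) ω j = ce M SA SB ms m c1 μ X ω j := by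
  classical
  have e : Lt M (insert i X) ω j ↔ Lt M X ω j := by
    unfold Lt
    constructor
    · rintro ⟨l, hl, hlt, h1⟩
      rcases mem_insert.1 hl with rfl | hl
      · exact absurd hlt (not_lt_of_gt (hmax j hj))
      · exact ⟨l, hl, hlt, h1⟩
    · rintro ⟨l, hl, hlt, h1⟩
      exact ⟨l, mem_insert_of_mem hl, hlt, h1⟩
  unfold ce
  by_cases hl : Lt M X ω j
  · rw [if_pos hl, if_pos (e.2 hl)]
  · rw [if_neg hl, if_neg fun h => hl (e.1 h)]

/-- Weight and energies of the cells of `X`. -/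
noncomputable def Psi (M : CG d E) (SA SB : Set E) (ms : E → ℕ) (m : ℕ) (c1 μ : ℝ) (h : E → ℝ)
    (X : Finset (Zd d)) (ω : Zd d → E) : ENNReal :=
  M.w h X ω * ex (1 / 2 * ∑ i ∈ X, ce M SA SB ms m c1 μ X ω i)

theorem measurable_Psi (hh : Measurable h) (hA : MeasurableSet SA) (hB : MeasurableSet SB)
    (hm : Measurable ms) (X : Finset (Zd d)) : Measurable (Psi M SA SB ms m c1 μ h X) := by
  unfold Psi
  refine (M.measurable_w hh X).mul (CG.measurable_ex ?_)
  exact (Finset.measurable_sum _ fun i _ => measurable_ce hA hB hm X i).const_mul _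

/-- One more cell. -/
theorem Psi_insert (X : Finset (Zd d)) {i : Zd d} (hi : i ∉ X)
    (hmax : ∀ j ∈ X, toLex j < toLex i) (ω : Zd d → E) (x : E) :
    Psi M SA SB ms m c1 μ h (insert i X) (Function.update ω i x) ≤
      Psi M SA SB ms m c1 μ h X ω * (ex (h x + 1 / 2 * en SA SB ms m c1 μ x) +
        ∑ j ∈ X.filter (fun j => j - i ∈ (Qr d M.q).erase 0), ex (c1 * μ / 2) *
          {x | M.nf 0 (j - i) x (ω j) ∧ ¬ M.nf 2 (j - i) x (ω j)}.indicator
            (fun x => ex (h x + 1 / 2 * en SA SB ms m c1 μ x)) x) := by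
  classical
  set ω' := Function.update ω i x with hω'
  have hne : ∀ j ∈ X, j ≠ i := fun j hj h => hi (h ▸ hj)
  have hωj : ∀ j ∈ X, ω' j = ω j := fun j hj => Function.update_of_ne (hne j hj) _ _
  have hωi : ω' i = x := Function.update_self _ _ _
  by_cases hc : M.cp id (insert i X) ω'
  swap
  · unfold Psi
    rw [M.w_of_not hc, zero_mul]
    exact zero_le
  have hcX : M.cp id X ω' := M.cp_mono id (subset_insert i X) hc
  have hcX' : M.cp id X ω := (M.cp_dep id fun j hj => hωj j hj).1 hcX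
  have e1 : ∏ j ∈ X, ex (h (ω' j)) = ∏ j ∈ X, ex (h (ω j)) :=
    prod_congr rfl fun j hj => by rw [hωj j hj]
  have e2 : ∀ j ∈ X, ce M SA SB ms m c1 μ (insert i X) ω' j = ce M SA SB ms m c1 μ X ω j := by
    intro j hj
    rw [ce_insert hmax hj]
    have e : Lt M X ω' j ↔ Lt M X ω j := Lt_congr (hωj j hj) fun l hl _ => hωj l hl
    unfold ce
    rw [hωj j hj]
    by_cases hl : Lt M X ω j
    · rw [if_pos hl, if_pos (e.2 hl)]
    · rw [if_neg hl, if_neg fun h => hl (e.1 h)]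
  have e3 : Psi M SA SB ms m c1 μ h (insert i X) ω' = Psi M SA SB ms m c1 μ h X ω *
      (ex (h x) * ex (1 / 2 * ce M SA SB ms m c1 μ (insert i X) ω' i)) := by
    unfold Psi
    rw [M.w_of_cp hc, M.w_of_cp hcX', prod_insert hi, e1, sum_insert hi, sum_congr rfl e2,
      mul_add, ex_add, hωi]
    ring
  rw [e3]
  refine mul_le_mul' le_rfl ?_
  by_cases hL : Lt M (insert i X) ω' i
  · obtain ⟨j, hj, hlt, hn0, hn2⟩ := hL
    have hjX : j ∈ X := by
      rcases mem_insert.1 hj with h | h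
      · rw [h] at hlt
        exact absurd hlt (lt_irrefl _)
      · exact h
    rw [hωi, hωj j hjX] at hn0 hn2
    have hv : j - i ∈ (Qr d M.q).erase 0 := by
      refine mem_erase.2 ⟨sub_ne_zero.2 (hne j hjX), ?_⟩
      by_contra hv
      exact hn2 (M.nf_r 2 _ _ _ le_rfl hv)
    refine le_trans ?_ le_add_self
    refine le_trans ?_ (single_le_sum (f := fun j => ex (c1 * μ / 2) *
          {x | M.nf 0 (j - i) x (ω j) ∧ ¬ M.nf 2 (j - i) x (ω j)}.indicator
            (fun x => ex (h x + 1 / 2 * en SA SB ms m c1 μ x)) x) (fun _ _ => zero_le)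
        (mem_filter.2 ⟨hjX, hv⟩))
    rw [Set.indicator_of_mem (show x ∈ {x | M.nf 0 (j - i) x (ω j) ∧ ¬ M.nf 2 (j - i) x (ω j)}
      from ⟨hn0, hn2⟩), ← ex_add, ← ex_add, ex_le_ex]
    unfold ce
    rw [hωi]
    split_ifs with h1
    · linarith
    · exact absurd ⟨j, hj, hlt, by rwa [hωi, hωj j hjX], by rwa [hωi, hωj j hjX]⟩ h1
  · refine le_trans (le_of_eq ?_) le_self_add
    rw [← ex_add]
    unfold ce
    rw [if_neg hL, hωi, add_zero]

theorem Psi_step (hh : Measurable h) (hA : MeasurableSet SA) (hB : MeasurableSet SB)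
    (hm : Measurable ms) (hc1 : 0 ≤ c1 * μ) {K : ENNReal}
    (hK : ex ((1 + ε) * μ) + (2 * M.q + 1 : ENNReal) ^ d * ex ((1 - c1 / 2) * μ) ≤ K)
    (m1 : ∫⁻ x, ex (h x + 1 / 2 * en SA SB ms m c1 μ x) ∂M.π ≤ ex ((1 + ε) * μ))
    (X : Finset (Zd d)) {i : Zd d} (hi : i ∉ X) (hmax : ∀ j ∈ X, toLex j < toLex i)
    (ω : Zd d → E)
    (m2 : ∀ j ∈ X, j - i ∈ (Qr d M.q).erase 0 →
      ∫⁻ x in {x | M.nf 0 (j - i) x (ω j) ∧ ¬ M.nf 2 (j - i) x (ω j)},
        ex (h x + 1 / 2 * en SA SB ms m c1 μ x) ∂M.π ≤ ex ((1 - c1) * μ)) :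
    ∫⁻ x, Psi M SA SB ms m c1 μ h (insert i X) (Function.update ω i x) ∂M.π ≤
      K * Psi M SA SB ms m c1 μ h X ω := by
  classical
  have hms : ∀ j : Zd d, MeasurableSet
      {x | M.nf 0 (j - i) x (ω j) ∧ ¬ M.nf 2 (j - i) x (ω j)} := by
    intro j
    have hp : Measurable fun x : E => (x, ω j) := measurable_id.prodMk measurable_const
    exact (hp (M.nf_meas 0 (j - i))).inter (hp (M.nf_meas 2 (j - i))).compl
  have hF : Measurable fun x : E => ex (h x + 1 / 2 * en SA SB ms m c1 μ x) :=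
    CG.measurable_ex (hh.add ((measurable_en hA hB hm).const_mul _))
  refine (lintegral_mono fun x => Psi_insert X hi hmax ω x).trans ?_
  have hS : Measurable fun x : E => ex (h x + 1 / 2 * en SA SB ms m c1 μ x) +
      ∑ j ∈ X.filter (fun j => j - i ∈ (Qr d M.q).erase 0), ex (c1 * μ / 2) *
        {x | M.nf 0 (j - i) x (ω j) ∧ ¬ M.nf 2 (j - i) x (ω j)}.indicator
          (fun x => ex (h x + 1 / 2 * en SA SB ms m c1 μ x)) x :=
    hF.add (Finset.measurable_fun_sum _ fun j _ => (hF.indicator (hms j)).const_mul _)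
  rw [lintegral_const_mul _ hS, mul_comm]
  refine mul_le_mul' ?_ le_rfl
  rw [lintegral_add_left hF, lintegral_finsetSum _ fun j _ => (hF.indicator (hms j)).const_mul _]
  refine (add_le_add m1 ?_).trans hK
  have h1 : ∀ j ∈ X.filter (fun j => j - i ∈ (Qr d M.q).erase 0), ∫⁻ x, ex (c1 * μ / 2) *
      {x | M.nf 0 (j - i) x (ω j) ∧ ¬ M.nf 2 (j - i) x (ω j)}.indicator
        (fun x => ex (h x + 1 / 2 * en SA SB ms m c1 μ x)) x ∂M.π ≤ ex ((1 - c1 / 2) * μ) := by
    intro j hj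
    rw [mem_filter] at hj
    rw [lintegral_const_mul _ (hF.indicator (hms j)), lintegral_indicator (hms j)]
    refine (mul_le_mul' le_rfl (m2 j hj.1 hj.2)).trans ?_
    rw [← ex_add, ex_le_ex]
    linarith
  refine (sum_le_sum h1).trans ?_
  rw [sum_const, nsmul_eq_mul]
  refine mul_le_mul' ?_ le_rfl
  have h2 : (X.filter (fun j => j - i ∈ (Qr d M.q).erase 0)).card ≤ (2 * M.q + 1) ^ d := by
    rw [← Mix.Bas.card_Qr M.q]
    refine card_le_card_of_injOn (fun j => j - i) ?_ ?_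
    · intro j hj
      exact mem_of_mem_erase (mem_filter.1 hj).2
    · intro j _ j' _ hjj
      exact sub_left_injective hjj
  calc ((X.filter (fun j => j - i ∈ (Qr d M.q).erase 0)).card : ENNReal)
      ≤ (((2 * M.q + 1) ^ d : ℕ) : ENNReal) := by exact_mod_cast h2
    _ = _ := by push_cast; rfl

open Classical in
/-- All contents of `X` avoid `N`. -/
noncomputable def av (N : Set E) (X : Finset (Zd d)) (ω : Zd d → E) : ENNReal :=
  if ∀ j ∈ X, ω j ∉ N then 1 else 0

theorem measurable_av {N : Set E} (hN : MeasurableSet N) (X : Finset (Zd d)) :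
    Measurable (av N X) := by
  classical
  unfold av
  refine Measurable.ite ?_ measurable_const measurable_const
  have e : {ω : Zd d → E | ∀ j ∈ X, ω j ∉ N} = ⋂ j ∈ X, {ω : Zd d → E | ω j ∉ N} := by
    ext
    simp
  rw [e]
  refine Finset.measurableSet_biInter _ fun j _ => ?_
  have h1 : Measurable fun ω : Zd d → E => ω j := measurable_pi_apply j
  exact h1 hN.compl

/-- Null sets of contents play no role. -/
theorem int_av {N : Set E} (hN0 : M.π N = 0) (X : Finset (Zd d)) (f : (Zd d → E) → ENNReal) :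
    M.int X f = M.int X fun ω => f ω * av N X ω := by
  classical
  have := M.fin_π
  unfold CG.int lmarginal
  refine lintegral_congr_ae ?_
  have h1 : ∀ᵐ y ∂(Measure.pi fun _ : X => M.π), ∀ j : X, y j ∉ N := by
    rw [ae_all_iff]
    intro j
    have h2 : ∀ᵐ e ∂M.π, e ∉ N := by
      rw [ae_iff]
      simpa using hN0
    exact (Measure.tendsto_eval_ae_ae (μ := fun _ : X => M.π) (i := j)).eventually h2
  filter_upwards [h1] with y hy
  have e : av N X (Function.updateFinset (fun _ : Zd d => M.e0) X y) = 1 := by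
    unfold av
    rw [if_pos]
    intro j hj
    rw [Function.updateFinset_def]
    simp only [hj, dif_pos]
    exact hy ⟨j, hj⟩
  rw [e, mul_one]

theorem int_Psi_av (hh : Measurable h) (hA : MeasurableSet SA) (hB : MeasurableSet SB)
    (hm : Measurable ms) (hc1 : 0 ≤ c1 * μ) {K : ENNReal}
    (hK : ex ((1 + ε) * μ) + (2 * M.q + 1 : ENNReal) ^ d * ex ((1 - c1 / 2) * μ) ≤ K)
    (m1 : ∫⁻ x, ex (h x + 1 / 2 * en SA SB ms m c1 μ x) ∂M.π ≤ ex ((1 + ε) * μ))
    {N : Set E} (hN : MeasurableSet N)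
    (m2 : ∀ v ∈ (Qr d M.q).erase 0, ∀ y, y ∉ N →
      ∫⁻ x in {x | M.nf 0 v x y ∧ ¬ M.nf 2 v x y},
        ex (h x + 1 / 2 * en SA SB ms m c1 μ x) ∂M.π ≤ ex ((1 - c1) * μ))
    (X : Finset (Zd d)) :
    M.int X (fun ω => Psi M SA SB ms m c1 μ h X ω * av N X ω) ≤ K ^ X.card := by
  classical
  have := M.fin_π
  unfold CG.int
  induction X using Finset.induction_on_max_value (f := fun i : Zd d => toLex i) with
  | empty =>
    rw [lmarginal_empty]
    unfold Psi av
    have hc : M.cp id (∅ : Finset (Zd d)) (fun _ => M.e0) := fun v _ _ i hi => absurd hi (by simp)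
    rw [M.w_of_cp hc]
    simp [ex]
  | insert i X hi hle ih =>
    have hmax : ∀ j ∈ X, toLex j < toLex i := by
      intro j hj
      refine lt_of_le_of_ne (hle j hj) fun h => hi ?_
      rw [← toLex.injective h]
      exact hj
    have hF : ∀ X : Finset (Zd d),
        Measurable fun ω => Psi M SA SB ms m c1 μ h X ω * av N X ω := fun X =>
      (measurable_Psi hh hA hB hm X).mul (measurable_av hN X)
    rw [lmarginal_insert' _ (hF _) hi]
    have h1 : ∀ ω : Zd d → E, ∫⁻ x, Psi M SA SB ms m c1 μ h (insert i X)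
        (Function.update ω i x) * av N (insert i X) (Function.update ω i x) ∂M.π ≤
        K * (Psi M SA SB ms m c1 μ h X ω * av N X ω) := by
      intro ω
      by_cases hg : ∀ j ∈ X, ω j ∉ N
      · have e : av N X ω = 1 := if_pos hg
        rw [e, mul_one]
        refine le_trans (lintegral_mono fun x => ?_) (Psi_step hh hA hB hm hc1 hK m1 X hi hmax ω
          fun j hj hv => m2 _ hv _ (hg j hj))
        calc _ ≤ Psi M SA SB ms m c1 μ h (insert i X) (Function.update ω i x) * 1 := by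
              refine mul_le_mul' le_rfl ?_
              unfold av
              split_ifs
              · exact le_rfl
              · exact zero_le
          _ = _ := mul_one _
      · have e : ∀ x, av N (insert i X) (Function.update ω i x) = 0 := by
          intro x
          refine if_neg fun h2 => hg fun j hj => ?_
          have h3 := h2 j (mem_insert_of_mem hj)
          have h4 : j ≠ i := fun h4 => hi (by rw [← h4]; exact hj)
          rwa [Function.update_of_ne h4] at h3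
        simp only [e, mul_zero, lintegral_zero]
        exact zero_le
    refine (lmarginal_mono h1 _).trans ?_
    have h2 : lmarginal (fun _ : Zd d => M.π) X
        (fun ω => K * (Psi M SA SB ms m c1 μ h X ω * av N X ω)) (fun _ => M.e0) =
        K * lmarginal (fun _ : Zd d => M.π) X
          (fun ω => Psi M SA SB ms m c1 μ h X ω * av N X ω) (fun _ => M.e0) :=
      M.lm_const_mul X (hF X) K _
    rw [h2, card_insert_of_notMem hi, pow_succ, mul_comm]
    exact mul_le_mul' ih le_rfl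

/-- **The crude bound.** -/
theorem int_Psi_le (hA : MeasurableSet SA) (hB : MeasurableSet SB)
    (hm : Measurable ms) (hc1 : 0 ≤ c1 * μ) (H : Mas M SA SB ms m c1 ε μ h) {ε' : ℝ}
    (hK : ex ((1 + ε) * μ) + (2 * M.q + 1 : ENNReal) ^ d * ex ((1 - c1 / 2) * μ) ≤
      ex ((1 + ε') * μ)) (X : Finset (Zd d)) :
    M.int X (Psi M SA SB ms m c1 μ h X) ≤ ex ((1 + ε') * μ * X.card) := by
  classical
  have h1 : ∀ᵐ y ∂M.π, ∀ v ∈ (Qr d M.q).erase 0,
      ∫⁻ x in {x | M.nf 0 v x y ∧ ¬ M.nf 2 v x y},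
        ex (h x + 1 / 2 * en SA SB ms m c1 μ x) ∂M.π ≤ ex ((1 - c1) * μ) := by
    rw [eventually_all_finset]
    exact H.m2
  obtain ⟨N, hN1, hN, hN0⟩ := exists_measurable_superset_of_null (ae_iff.1 h1)
  have m2 : ∀ v ∈ (Qr d M.q).erase 0, ∀ y, y ∉ N →
      ∫⁻ x in {x | M.nf 0 v x y ∧ ¬ M.nf 2 v x y},
        ex (h x + 1 / 2 * en SA SB ms m c1 μ x) ∂M.π ≤ ex ((1 - c1) * μ) := by
    intro v hv y hy
    by_contra hcon
    exact hy (hN1 fun h => hcon (h v hv))
  rw [int_av hN0 X]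
  refine (int_Psi_av H.fld.meas hA hB hm hc1 hK H.m1 hN m2 X).trans ?_
  rw [ex_pow, mul_comm]

end

/-- **The crude bound**, row CR. -/
theorem cub_cr {c1 ε : ℝ} (hc1 : 0 < c1) (hc1' : c1 ≤ 1) (hε : 0 < ε) (q : ℕ) :
    ∃ μ0 : ℝ, ∀ (E : Type) (_ : MeasurableSpace E) (M : CG d E) (SA SB : Set E) (ms : E → ℕ)
      (m rc : ℕ) (h : E → ℝ) (μ : ℝ),
      Cub M SA SB ms rc → Mas M SA SB ms m c1 ε μ h → M.q ≤ q → μ0 ≤ μ →
      ∀ X, M.int X (fun ω => M.w h X ω * ex (1 / 2 * ∑ i ∈ X, ce M SA SB ms m c1 μ X ω i)) ≤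
        ex ((1 + 2 * ε) * μ * X.card) := by
  refine ⟨Real.log (1 + (2 * q + 1 : ℝ) ^ d) / ε, ?_⟩
  intro E _ M SA SB ms m rc h μ hC H hq hμ X
  have h0 : (1 : ℝ) ≤ 1 + (2 * q + 1 : ℝ) ^ d := by
    have : (0 : ℝ) ≤ (2 * q + 1 : ℝ) ^ d := by positivity
    linarith
  have hμ0 : 0 ≤ μ := (div_nonneg (Real.log_nonneg h0) hε.le).trans hμ
  have h1 : Real.log (1 + (2 * q + 1 : ℝ) ^ d) ≤ ε * μ := by
    rw [div_le_iff₀ hε] at hμ
    linarith
  refine int_Psi_le hC.SA_meas hC.SB_meas hC.ms_meas (by positivity) H ?_ X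
  have h2 : (2 * M.q + 1 : ENNReal) ^ d ≤ (2 * q + 1 : ENNReal) ^ d := by
    refine pow_le_pow_left' (add_le_add (mul_le_mul' le_rfl ?_) le_rfl) d
    exact_mod_cast hq
  have h3 : ex ((1 - c1 / 2) * μ) ≤ ex ((1 + ε) * μ) := by
    rw [ex_le_ex]
    have := mul_nonneg hc1.le hμ0
    have := mul_nonneg hε.le hμ0
    linarith
  have h4 : (1 : ENNReal) + (2 * q + 1 : ENNReal) ^ d ≤ ex (ε * μ) := by
    unfold ex
    have e : (1 : ENNReal) + (2 * q + 1 : ENNReal) ^ d =
        ENNReal.ofReal (1 + (2 * q + 1 : ℝ) ^ d) := by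
      rw [ENNReal.ofReal_add zero_le_one (by positivity), ENNReal.ofReal_one,
        ENNReal.ofReal_pow (by positivity), ENNReal.ofReal_add (by positivity) zero_le_one,
        ENNReal.ofReal_one, ENNReal.ofReal_mul (by norm_num), ENNReal.ofReal_natCast]
      norm_num
    rw [e]
    refine ENNReal.ofReal_le_ofReal ?_
    rw [← Real.exp_log (lt_of_lt_of_le one_pos h0)]
    exact Real.exp_le_exp.2 h1
  calc ex ((1 + ε) * μ) + (2 * M.q + 1 : ENNReal) ^ d * ex ((1 - c1 / 2) * μ)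
      ≤ ex ((1 + ε) * μ) + (2 * q + 1 : ENNReal) ^ d * ex ((1 + ε) * μ) :=
        add_le_add le_rfl (mul_le_mul' h2 h3)
    _ = (1 + (2 * q + 1 : ENNReal) ^ d) * ex ((1 + ε) * μ) := by ring
    _ ≤ ex (ε * μ) * ex ((1 + ε) * μ) := mul_le_mul' h4 le_rfl
    _ = ex ((1 + 2 * ε) * μ) := by
        rw [← ex_add]
        congr 1
        ring

/-! ### The energies of the blocks -/

theorem en_nonneg {SA SB : Set E} {ms : E → ℕ} {m : ℕ} {c1 μ : ℝ} (hc1 : 0 ≤ c1) (hμ : 0 ≤ μ)
    (x : E) : 0 ≤ en SA SB ms m c1 μ x := by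
  unfold en
  split_ifs
  · positivity
  · positivity

theorem ce_nonneg {M : CG d E} {SA SB : Set E} {ms : E → ℕ} {m : ℕ} {c1 μ : ℝ} (hc1 : 0 ≤ c1)
    (hμ : 0 ≤ μ) (X : Finset (Zd d)) (ω : Zd d → E) (i : Zd d) :
    0 ≤ ce M SA SB ms m c1 μ X ω i := by
  unfold ce
  refine add_nonneg (en_nonneg hc1 hμ _) ?_
  split_ifs
  · positivity
  · exact le_rfl

theorem ebc_nonneg {M : CG d E} {SA SB : Set E} {ms : E → ℕ} {m : ℕ} {c1 μ : ℝ} (hc1 : 0 ≤ c1)
    (hμ : 0 ≤ μ) (k : ℕ) (L : Finset (Zd d)) (ω : Zd d → E) (q : Zd d) :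
    0 ≤ ebc M SA SB ms m c1 μ k L ω q := by
  unfold ebc
  exact div_nonneg (Finset.sum_nonneg fun i _ => ce_nonneg hc1 hμ _ _ _) (by positivity)

theorem measurable_ebc {M : CG d E} {SA SB : Set E} {ms : E → ℕ} {m : ℕ} {c1 μ : ℝ}
    (hA : MeasurableSet SA) (hB : MeasurableSet SB) (hm : Measurable ms) (k : ℕ)
    (L : Finset (Zd d)) (q : Zd d) : Measurable fun ω => ebc M SA SB ms m c1 μ k L ω q := by
  unfold ebc
  exact (Finset.measurable_sum _ fun i _ => measurable_ce hA hB hm _ i).div_const _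

theorem ce_congr {M : CG d E} {SA SB : Set E} {ms : E → ℕ} {m : ℕ} {c1 μ : ℝ}
    {X : Finset (Zd d)} {ω ω' : Zd d → E} (h : ∀ i ∈ X, ω i = ω' i) {i : Zd d} (hi : i ∈ X) :
    ce M SA SB ms m c1 μ X ω i = ce M SA SB ms m c1 μ X ω' i := by
  have e : Lt M X ω i ↔ Lt M X ω' i := Lt_congr (h i hi) fun j hj _ => h j hj
  unfold ce
  rw [h i hi]
  by_cases hl : Lt M X ω' i
  · rw [if_pos hl, if_pos (e.2 hl)]
  · rw [if_neg hl, if_neg fun h => hl (e.1 h)]

theorem ebc_dep {M : CG d E} {SA SB : Set E} {ms : E → ℕ} {m : ℕ} {c1 μ : ℝ} {k : ℕ}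
    {L : Finset (Zd d)} {q : Zd d} (hq : q ∈ L) {ω ω' : Zd d → E}
    (h : ∀ i ∈ lift k L, ω i = ω' i) :
    ebc M SA SB ms m c1 μ k L ω q = ebc M SA SB ms m c1 μ k L ω' q := by
  unfold ebc
  rw [sum_congr rfl fun i hi => ce_congr h (Vdw.mem_lift.2 ⟨q, hq, hi⟩)]

theorem sum_ebc {M : CG d E} {SA SB : Set E} {ms : E → ℕ} {m : ℕ} {c1 μ : ℝ} (hμ : 0 < μ) {k : ℕ}
    (hk : 1 ≤ k) (L : Finset (Zd d)) (ω : Zd d → E) :
    μ * (k : ℝ) ^ d * ∑ q ∈ L, ebc M SA SB ms m c1 μ k L ω q =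
      ∑ i ∈ lift k L, ce M SA SB ms m c1 μ (lift k L) ω i := by
  have hk0 : (0 : ℝ) < μ * (k : ℝ) ^ d := by
    have : (0 : ℝ) < k := by exact_mod_cast hk
    positivity
  have hdis : (L : Set (Zd d)).PairwiseDisjoint (blk k) := by
    intro p _ q _ hpq
    show Disjoint (blk k p) (blk k q)
    rw [disjoint_left]
    intro i hp hq
    exact hpq (Vdw.blk_unique hp hq)
  have e : lift k L = L.biUnion (blk k) := rfl
  have e2 : ∑ i ∈ lift k L, ce M SA SB ms m c1 μ (lift k L) ω i =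
      ∑ q ∈ L, ∑ i ∈ blk k q, ce M SA SB ms m c1 μ (lift k L) ω i := by
    conv_lhs => enter [1]; rw [e]
    exact sum_biUnion hdis
  rw [mul_sum, e2]
  refine sum_congr rfl fun q _ => ?_
  unfold ebc
  rw [mul_div_cancel₀ _ hk0.ne']

/-- The field `cr` of the assumptions on the blocks. -/
theorem ebc_cr {M : CG d E} {SA SB : Set E} {ms : E → ℕ} {m : ℕ} {c1 μ ε' : ℝ} {h : E → ℝ}
    (hμ : 0 < μ) {k : ℕ} (hk : 1 ≤ k)
    (H : ∀ X, M.int X (fun ω => M.w h X ω * ex (1 / 2 * ∑ i ∈ X, ce M SA SB ms m c1 μ X ω i)) ≤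
        ex ((1 + ε') * μ * X.card)) (L : Finset (Zd d)) :
    M.int (lift k L) (fun ω => M.w h (lift k L) ω *
      ex (1 / 2 * μ * (k : ℝ) ^ d * ∑ q ∈ L, ebc M SA SB ms m c1 μ k L ω q)) ≤
      ex ((1 + ε') * μ * (k : ℝ) ^ d * L.card) := by
  refine le_trans (le_of_eq ?_) ((H (lift k L)).trans (le_of_eq ?_))
  · congr 1
    funext ω
    rw [← sum_ebc hμ hk L ω]
    congr 2
    ring
  · rw [Vdw.card_lift]
    congr 1
    push_cast
    ring

end Pool.Agent.RC
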