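import Pool.Agent.Lib.MP_09cbbd_rc.Cell
import Pool.Agent.Lib.MP_09cbbd_rc.AB
import Pool.Agent.Lib.MP_09cbbd_rc.CubR

/-!
# Rows and columns: the masses of one cell for the exclusion gas with a cubic near field
-/

set_option autoImplicit false
set_option linter.unusedSectionVars false

namespace Pool.Agent.RC

open MeasureTheory Finset Pool.Agent.SquareWellGas
open Pool.Agent.StableGas hiding tr
open Pool.Agent.SquareWell hiding Md cut
open Pool.Agent.SquareWell.ModA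
open Pool.Agent.Exg
open Pool.Agent.Mix

variable {d : ℕ} {i₁ i₂ : Fin d} {m : ℕ} {R α a b β β' τ ε : ℝ} {N E : Set (Fin d → ℝ)}

/-- The windows are small. -/
theorem Win_norm {i : Fin d} {δ : ℝ} {M : ℕ} (hα : 0 < α) (hδ : δ ≤ α) (hM : M ≤ m + 1)
    {u : Fin d → ℝ} (hu : Bd.Win i α δ M u) (j : Fin d) : |u j| ≤ (m + 1) * α := by
  obtain ⟨q, hq0, hq, h5, h6⟩ := hu
  by_cases hj : j = i
  · subst hj
    have h7 : |(q : ℝ)| ≤ m := by
      have : |q| ≤ m := by omega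
      exact_mod_cast this
    have h8 : |(q : ℝ) * α| ≤ m * α := by
      rw [abs_mul, abs_of_pos hα]
      exact mul_le_mul_of_nonneg_right h7 hα.le
    have h9 : |u j| ≤ |u j - q * α| + |(q : ℝ) * α| := by
      have := abs_add_le (u j - q * α) (q * α)
      rwa [sub_add_cancel] at this
    linarith
  · have := h6 j hj
    have h7 : (0 : ℝ) ≤ m * α := by positivity
    linarith

/-- The set of windows `Q` of a type, up to excluded differences. -/
structure IsQ (E : Set (Fin d → ℝ)) (i : Fin d) (α δ : ℝ) (M : ℕ) (Q : Set (Fin d → ℝ)) :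
    Prop where
  win : ∀ u ∈ Q, Bd.Win i α δ M u
  mem : ∀ u, u ∉ E → Bd.Win i α δ M u → u ∈ Q

/-- A content of one direction with many beads which is not good is near the walls. -/
theorem wall_of_not {i j₀ : Fin d} {M : ℕ} {δ h w t : ℝ} {Q : Set (Fin d → ℝ)} (hα : 0 < α)
    (hδ : δ ≤ α) (hM : M ≤ m + 1) (hh : 0 < h) (ht : w + h ≤ t) (ht' : w + (m + 1) * α ≤ t)
    (hQ : IsQ E i α δ M Q) {x : Ct (Fin d → ℝ)} (hx : Vx E x) {t₀ : ℕ} (h1 : t₀ ≤ 4 * x.1)
    (h2 : x.1 ≤ M) (hn : x.1 ≠ 0) (hd : Cell.InDir i α δ M x) (hT : x ∉ Ty j₀ t₀ M Q h w) :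
    x.2 0 ∈ Cell.wall d t := by
  have hx0 : 0 < x.1 := Nat.pos_of_ne_zero hn
  refine ⟨hx.1 0 hx0, ?_⟩
  by_contra hc
  push Not at hc
  refine hT ⟨h1, h2, fun k hk l hl hkl => hQ.mem _ (hx.2 k hk l hl hkl) (hd k hk l hl hkl),
    fun k hk => ?_, fun j _ => ?_⟩
  · have h3 : |x.2 k j₀ - x.2 0 j₀| ≤ (m + 1) * α := by
      by_cases hk0 : k = 0
      · rw [hk0, sub_self, abs_zero]
        positivity
      · exact Win_norm hα hδ hM (hd k hk 0 hx0 hk0) j₀
    have h4 := abs_le.1 h3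
    have h5 := hc j₀
    constructor
    · linarith [h4.1, h5.1]
    · linarith [h4.2, h5.2]
  · have h5 := hc j
    have h6 := base_add hh (x.2 0 j)
    have h7 := fract_bds hh (x.2 0 j)
    constructor
    · linarith [h5.1]
    · linarith [h5.2]

/-- The assumptions on the good rows and columns and on the number of the missing beads. -/
structure Tys (E : Set (Fin d → ℝ)) (i₁ i₂ : Fin d) (m : ℕ) (α a b h w : ℝ)
    (SA SB : Set (Ct (Fin d → ℝ))) (ms : Ct (Fin d → ℝ) → ℕ) : Prop where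
  A : ∃ t₀ Q, t₀ ≤ 3 * m ∧ 5 ≤ t₀ ∧ IsQ E i₁ α a m Q ∧ SA = Ty i₁ t₀ m Q h w
  B : ∃ t₀ Q, t₀ ≤ 3 * m ∧ 5 ≤ t₀ ∧ IsQ E i₂ α b (m + 1) Q ∧ SB = Ty i₂ t₀ (m + 1) Q h w
  msA : ∀ x ∈ SA, x.1 + ms x = m
  msB : ∀ x ∈ SB, x.1 + ms x = m + 1

/-- The energies of the contents. -/
theorem enr (hG : Geo d i₁ i₂ m R α a b β β' τ ε N E) {h w t c1 μ : ℝ} (hh : 0 < h)
    (ht : w + h ≤ t) (ht' : w + (m + 1) * α ≤ t) {SA SB : Set (Ct (Fin d → ℝ))}
    {ms : Ct (Fin d → ℝ) → ℕ} (H : Tys E i₁ i₂ m α a b h w SA SB ms) :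
    Cell.Enr E i₁ i₂ m α a b (μ / (2 * m)) (c1 * μ) (Cell.wall d t) (en SA SB ms m c1 μ) := by
  have g1 := hG.hb
  have g2 := hG.hba
  have g3 := hG.ha
  have g4 : 0 < α := by linarith
  obtain ⟨tA, QA, hA1, hA2, hA3, rfl⟩ := H.A
  obtain ⟨tB, QB, hB1, hB2, hB3, rfl⟩ := H.B
  have hOk := Bd.ok_of hG
  have hboth : ∀ x : Ct (Fin d → ℝ), 2 ≤ x.1 → Cell.InDir i₁ α a m x →
      Cell.InDir i₂ α b (m + 1) x → False := fun x h2 h3 h4 =>
    Bd.not_both hOk (h3 0 (by omega) 1 (by omega) (by omega))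
      (h4 0 (by omega) 1 (by omega) (by omega))
  intro x hx hn
  constructor
  · intro hr
    have hc := Cell.card_row hG hr
    by_cases h1 : x ∈ Ty i₁ tA m QA h w
    · left
      unfold en
      rw [if_pos (Set.mem_union_left _ h1)]
      have h2 := H.msA x h1
      have h3 : (ms x : ℝ) = m - x.1 := by
        have : ((x.1 + ms x : ℕ) : ℝ) = m := by rw [h2]
        push_cast at this
        linarith
      rw [h3]
    · right
      by_cases h2 : x ∈ Ty i₂ tB (m + 1) QB h w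
      · have h3 := h2.1
        exact (hboth x (by omega) hr fun k hk l hl hkl => hB3.win _ (h2.2.2.1 k hk l hl hkl)).elim
      · have h3 : en (Ty i₁ tA m QA h w) (Ty i₂ tB (m + 1) QB h w) ms m c1 μ x = c1 * μ := by
          unfold en
          rw [if_neg]
          rintro (h | h)
          · exact h1 h
          · exact h2 h
        rw [h3]
        by_cases h4 : 4 * x.1 < 3 * m
        · exact Or.inl ⟨h4, le_rfl⟩
        · exact Or.inr ⟨wall_of_not g4 (by linarith) (by omega) hh ht ht' hA3 hx (by omega) hc hn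
            hr h1, le_rfl⟩
  · intro hr
    have hc := Cell.card_col hG hr
    by_cases h1 : x ∈ Ty i₂ tB (m + 1) QB h w
    · left
      unfold en
      rw [if_pos (Set.mem_union_right _ h1)]
      have h2 := H.msB x h1
      have h3 : (ms x : ℝ) = m + 1 - x.1 := by
        have : ((x.1 + ms x : ℕ) : ℝ) = m + 1 := by
          rw [h2]
          push_cast
          rfl
        push_cast at this
        linarith
      rw [h3]
    · right
      by_cases h2 : x ∈ Ty i₁ tA m QA h w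
      · have h3 := h2.1
        exact (hboth x (by omega) (fun k hk l hl hkl => hA3.win _ (h2.2.2.1 k hk l hl hkl))
          hr).elim
      · have h3 : en (Ty i₁ tA m QA h w) (Ty i₂ tB (m + 1) QB h w) ms m c1 μ x = c1 * μ := by
          unfold en
          rw [if_neg]
          rintro (h | h)
          · exact h2 h
          · exact h1 h
        rw [h3]
        by_cases h4 : 4 * x.1 < 3 * m
        · exact Or.inl ⟨h4, le_rfl⟩
        · exact Or.inr ⟨wall_of_not g4 (by linarith) le_rfl hh ht ht' hB3 hx (by omega) hc hn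
            hr h1, le_rfl⟩

theorem Vx_card (hG : Geo d i₁ i₂ m R α a b β β' τ ε N E) {x : Ct (Fin d → ℝ)} (hx : Vx E x) :
    x.1 ≤ m + 1 := by
  rcases Cell.dir hG hx with h | h
  · exact (Cell.card_row hG h).trans (Nat.le_succ m)
  · exact Cell.card_col hG h

/-- The numbers for the masses. -/
structure MNum (d m : ℕ) (a b α τ h t ζ lam X c1 ε₀ μ : ℝ) : Prop where
  par : Cell.Par d m a b ζ lam X
  μ0 : 0 ≤ μ
  c1_0 : 0 ≤ c1
  κ : μ / (2 * m) ≤ 2 * lam
  c : 2 * (c1 * μ) ≤ m * lam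
  small : τ + 2 * h + (m + 1) * α ≤ 1
  n1 : Real.exp (c1 * μ / 2) + (2 * ((m : ℝ) + 1)) ^ (m + 1) *
    (Real.exp X + 2 * d * t * Real.exp (X + c1 * μ / 2)) ≤ Real.exp ((1 + ε₀) * μ)
  n2 : (2 * ((m : ℝ) + 1)) ^ (m + 2) * (4 ^ d * d * (τ + 2 * h + 3 * ((m + 1) * α)) *
    Real.exp (X + c1 * μ / 2)) ≤ Real.exp ((1 - c1) * μ)

theorem pow_cast (m n : ℕ) : (2 * ((m : ENNReal) + 1)) ^ n =
    ENNReal.ofReal ((2 * ((m : ℝ) + 1)) ^ n) := by
  rw [ENNReal.ofReal_pow (by positivity), ENNReal.ofReal_mul (by norm_num),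
    ENNReal.ofReal_add (Nat.cast_nonneg m) zero_le_one, ENNReal.ofReal_natCast,
    ENNReal.ofReal_one, ENNReal.ofReal_ofNat]

/-- **The masses of one cell.** -/
theorem mas_of (hd : 1 ≤ d) (hG : Geo d i₁ i₂ m R α a b β β' τ ε N E) (G : Ng d E)
    {h w t ζ lam X c1 ε₀ μ : ℝ} (h0 : G.Nk 0 = {u | ∀ j, |u j| < 1 + τ})
    (h2 : G.Nk 2 = {u | ∀ j, |u j| < 1 + τ + 2 * h}) (hh : 0 < h) (hw : 0 ≤ w)
    (ht : w + h ≤ t) (ht' : w + (m + 1) * α ≤ t) {SA SB : Set (Ct (Fin d → ℝ))}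
    {ms : Ct (Fin d → ℝ) → ℕ} (hSA : MeasurableSet SA) (hSB : MeasurableSet SB)
    (hms : Measurable ms) (H : Tys E i₁ i₂ m α a b h w SA SB ms)
    (Q : MNum d m a b α τ h t ζ lam X c1 ε₀ μ) : Mas G.cg SA SB ms m c1 ε₀ μ (Ng.bf d ζ) := by
  have hE := enr hG (c1 := c1) (μ := μ) hh ht ht' H
  have hen : Measurable (en SA SB ms m c1 μ) := measurable_en hSA hSB hms
  have hκ0 : 0 ≤ μ / (2 * m) := div_nonneg Q.μ0 (by positivity)
  have hc0 : 0 ≤ c1 * μ := mul_nonneg Q.c1_0 Q.μ0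
  have ht0 : 0 ≤ t := by linarith
  have he0A : (e0 : Ct (Fin d → ℝ)) ∉ SA := by
    obtain ⟨tA, QA, hA1, hA2, hA3, rfl⟩ := H.A
    intro h1
    have h3 := h1.1
    rw [show (e0 : Ct (Fin d → ℝ)).1 = 0 from rfl] at h3
    omega
  have he0B : (e0 : Ct (Fin d → ℝ)) ∉ SB := by
    obtain ⟨tA, QA, hA1, hA2, hA3, rfl⟩ := H.B
    intro h1
    have h3 := h1.1
    rw [show (e0 : Ct (Fin d → ℝ)).1 = 0 from rfl] at h3
    omega
  have hene0 : en SA SB ms m c1 μ e0 = c1 * μ := by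
    unfold en
    rw [if_neg]
    rintro (h1 | h1)
    · exact he0A h1
    · exact he0B h1
  have hfun : ∀ x : Ct (Fin d → ℝ), ex (Ng.bf d ζ x + 1 / 2 * en SA SB ms m c1 μ x) =
      ex (ζ * x.1 + en SA SB ms m c1 μ x / 2) := fun x => by
    unfold Ng.bf
    congr 1
    ring
  refine ⟨G.fld ζ, ?_, ?_⟩
  · rw [lintegral_congr hfun]
    refine (Cell.M1 hG Q.par hκ0 Q.κ hc0 Q.c (Cell.measurableSet_wall t) hen hE).trans ?_
    rw [hene0, pow_cast]
    calc ex (c1 * μ / 2) + ENNReal.ofReal ((2 * ((m : ℝ) + 1)) ^ (m + 1)) *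
          (ex X + volume (Cell.wall d t) * ex (X + c1 * μ / 2))
        ≤ ex (c1 * μ / 2) + ENNReal.ofReal ((2 * ((m : ℝ) + 1)) ^ (m + 1)) *
          (ex X + ENNReal.ofReal (2 * d * t) * ex (X + c1 * μ / 2)) :=
          add_le_add le_rfl (mul_le_mul' le_rfl (add_le_add le_rfl
            (mul_le_mul' (Cell.vol_wall ht0) le_rfl)))
      _ = ENNReal.ofReal (Real.exp (c1 * μ / 2) + (2 * ((m : ℝ) + 1)) ^ (m + 1) *
          (Real.exp X + 2 * d * t * Real.exp (X + c1 * μ / 2))) := by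
          unfold ex
          rw [← ENNReal.ofReal_mul (by positivity), ← ENNReal.ofReal_add (by positivity)
            (by positivity), ← ENNReal.ofReal_mul (by positivity), ← ENNReal.ofReal_add
            (by positivity) (by positivity)]
      _ ≤ _ := ENNReal.ofReal_le_ofReal Q.n1
  · intro v _
    refine Filter.Eventually.of_forall fun y => ?_
    rw [lintegral_congr hfun]
    by_cases hy : Vx E y
    · have hA : MeasurableSet {x | G.cg.nf 0 v x y ∧ ¬ G.cg.nf 2 v x y} := by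
        have h3 := (G.cg.nf_meas 0 v).inter (G.cg.nf_meas 2 v).compl
        exact (measurable_id.prodMk (measurable_const (a := y))) h3
      refine (Cell.M2_cube hd hG Q.par hκ0 Q.κ hc0 Q.c hen hE (t := τ + 2 * h) hG.hτ
        (by have := hG.hτ; positivity) Q.small v (Vx_card hG hy) hA ?_).trans ?_
      · rintro x ⟨h3, h4⟩ hx
        have h5 : nfp E G.Nk 0 v x y := h3 hx hy
        have h6 : ¬ nfp E G.Nk 2 v x y := fun h7 => h4 fun _ _ => h7
        have h7 : ∃ k < x.1, ∃ l < y.1, x.2 k - tr v (y.2 l) ∈ G.Nk 2 := by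
          by_contra h8
          push Not at h8
          exact h6 ⟨h5.1, fun _ => h8⟩
        obtain ⟨k, hk, l, hl, h8⟩ := h7
        refine ⟨k, hk, l, hl, ?_, fun h9 => ?_⟩
        · rw [h2] at h8
          intro j
          have := h8 j
          linarith
        · refine h5.1 k hk l hl ?_
          rw [h0]
          exact h9
      · rw [pow_cast]
        unfold ex
        have hτ := hG.hτ
        have hα : 0 < α := by linarith [hG.hb, hG.hba, hG.ha]
        rw [← ENNReal.ofReal_mul (by positivity), ← ENNReal.ofReal_mul (by positivity)]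
        exact ENNReal.ofReal_le_ofReal Q.n2
    · have h3 : {x | G.cg.nf 0 v x y ∧ ¬ G.cg.nf 2 v x y} = ∅ := by
        ext x
        simp only [Set.mem_ofPred_eq, Set.mem_empty_iff_false, iff_false]
        rintro ⟨-, h4⟩
        exact h4 fun _ h5 => absurd h5 hy
      rw [h3, Measure.restrict_empty, lintegral_zero_measure]
      exact zero_le

/-! ### The good rows and columns of the cubic near field -/

theorem cNk_OCub {τ h : ℝ} (hτ : 0 ≤ τ) (hh : 0 ≤ h) (k : ℕ) :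
    cNk (OCub d) 1 τ h k = {u | ∀ j, |u j| < 1 + τ + k * h} := by
  ext u
  unfold cNk
  rw [div_one, mem_smul_Cub (by positivity)]
  rfl

theorem isQ_QW {i : Fin d} {δ : ℝ} {M : ℕ} : IsQ E i α δ M (QW E i α δ M) :=
  ⟨fun _ hu => hu.2, fun _ h1 h2 => ⟨h1, h2⟩⟩

theorem tys_GAB (hG : Geo d i₁ i₂ m R α a b β β' τ ε N E) {h w : ℝ} :
    Tys E i₁ i₂ m α a b h w (GA E i₁ i₂ m α a h w) (GB E i₁ i₂ m α b h w)
      (gms E i₁ i₂ m α a h w) where
  A := ⟨3 * m, QW E i₁ α a m, le_rfl, by have := hG.hm; omega, isQ_QW, rfl⟩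
  B := ⟨3 * m, QW E i₂ α b (m + 1), le_rfl, by have := hG.hm; omega, isQ_QW, rfl⟩
  msA := fun x hx => by
    rw [gms_A hx]
    have := GA_le hx
    omega
  msB := fun x hx => by
    rw [hG.gms_B hx]
    have := GB_le hx
    omega

/-- **The masses of one cell for the good rows and columns.** -/
theorem Geo.mas (hd : 1 ≤ d) (hG : Geo d i₁ i₂ m R α a b β β' τ ε (OCub d) E)
    (hC : Core (OCub d) 1 1) {h w ζ lam X c1 ε₀ μ : ℝ} (hh : 0 < h) (hhc : h ≤ 1) (hw : 0 ≤ w)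
    (hα : (m + 1) * α ≤ h) {q r : ℕ} (hq : (1 + τ + 2 * (h / 1)) * (1 : ℕ) ≤ q)
    (hr : 2 * R + 3 ≤ r) (hqr : q ≤ r) (Q : MNum d m a b α τ h (w + h) ζ lam X c1 ε₀ μ) :
    Mas (hG.ng hC hh.le hhc hq hr hqr).cg (GA E i₁ i₂ m α a h w)
      (GB E i₁ i₂ m α b h w) (gms E i₁ i₂ m α a h w) m c1 ε₀ μ (fun x => ζ * x.1) := by
  refine mas_of hd hG (hG.ng hC hh.le hhc hq hr hqr) ?_ ?_ hh hw le_rfl (by linarith)
    (measurableSet_GA hG.meas) (measurableSet_GB hG.meas) (measurable_gms hG.meas) (tys_GAB hG) Q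
  · show cNk (OCub d) 1 τ h 0 = _
    rw [cNk_OCub hG.hτ hh.le]
    norm_num
  · show cNk (OCub d) 1 τ h 2 = _
    rw [cNk_OCub hG.hτ hh.le]
    norm_num

end Pool.Agent.RC
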