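import Pool.Agent.Lib.MP_09cbbd_rc.Inst
import Pool.Agent.Lib.MP_09cbbd_rc.PCell

/-!
# Convexity of the pressure in the fields
-/

set_option autoImplicit false

namespace Pool.Agent.RC

open MeasureTheory Finset Filter Topology
open Pool.Agent.StableGas hiding tr
open Pool.Agent.SquareWell hiding Md cut
open Pool.Agent.Mix (Qr mem_Qr Ct)

variable {d : ℕ} {E : Type} [MeasurableSpace E] {M : CG d E} {h f : E → ℝ} {S : Set E}

namespace CG

/-- A bounded change of the field. -/
theorem Fld.add (H : M.Fld h) (hf : Measurable f) (hf0 : f M.e0 = 0) {c : ℝ} (hc : ∀ x, f x ≤ c) :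
    M.Fld fun x => h x + f x := by
  refine ⟨H.meas.add hf, ?_, ?_⟩
  · show h M.e0 + f M.e0 = 0
    rw [H.e0, hf0, add_zero]
  · have h1 : ∫⁻ x, ex (h x + f x) ∂M.π ≤ ∫⁻ x, ex c * ex (h x) ∂M.π :=
      lintegral_mono fun x => by
        rw [← ex_add, ex_le_ex]
        linarith [hc x]
    rw [lintegral_const_mul _ H.ex_meas] at h1
    exact ne_top_of_le_ne_top (ENNReal.mul_ne_top ENNReal.ofReal_ne_top H.fin) h1

theorem Fld.fa (H : M.Fld h) (hS : MeasurableSet S) (hS0 : M.e0 ∉ S) (a : ℝ) :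
    M.Fld (fa h S a) := by
  refine H.add (f := fun x => a * S.indicator 1 x) ((measurable_one.indicator hS).const_mul a) ?_
    (c := |a|) fun x => ?_
  · show a * S.indicator 1 M.e0 = 0
    rw [Set.indicator_of_notMem hS0, mul_zero]
  · by_cases hx : x ∈ S
    · rw [Set.indicator_of_mem hx, Pi.one_apply, mul_one]
      exact le_abs_self a
    · rw [Set.indicator_of_notMem hx, mul_zero]
      exact abs_nonneg a

/-- The pressure is convex along a line of fields. -/
theorem convexOn_line (hd : 1 ≤ d) {g : ℝ → E → ℝ} (hg : ∀ a, M.Fld (g a))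
    (haff : ∀ a b s t : ℝ, s + t = 1 → ∀ x, g (s * a + t * b) x = s * g a x + t * g b x) :
    ConvexOn ℝ Set.univ fun a => M.prs (g a) := by
  refine ⟨convex_univ, fun a _ b _ s t hs ht hst => ?_⟩
  have h1 := prs_convex hd (hg a) (hg b) hs ht hst
  have e : g (s • a + t • b) = fun x => s * g a x + t * g b x :=
    funext fun x => haff a b s t hst x
  show M.prs (g (s • a + t • b)) ≤ s * M.prs (g a) + t * M.prs (g b)
  rw [e]
  exact h1

theorem convexOn_fa (hd : 1 ≤ d) (H : M.Fld h) (hS : MeasurableSet S) (hS0 : M.e0 ∉ S) :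
    ConvexOn ℝ Set.univ fun a => M.prs (RC.fa h S a) :=
  convexOn_line hd (fun a => H.fa hS hS0 a) fun a b s t hst x => by
    show h x + (s * a + t * b) * S.indicator 1 x =
      s * (h x + a * S.indicator 1 x) + t * (h x + b * S.indicator 1 x)
    linear_combination -h x * hst

theorem convexOn_isP_fa (hd : 1 ≤ d) (H : M.Fld h) (hS : MeasurableSet S) (hS0 : M.e0 ∉ S)
    {p : ℝ → ℝ} (hp : ∀ a, M.IsP (RC.fa h S a) (p a)) : ConvexOn ℝ Set.univ p := by
  have e : p = fun a => M.prs (RC.fa h S a) :=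
    funext fun a => (IsP.eq_prs hd (H.fa hS hS0 a) (hp a)).symm
  rw [e]
  exact convexOn_fa hd H hS hS0

theorem isP_fa (hd : 1 ≤ d) (H : M.Fld h) (hS : MeasurableSet S) (hS0 : M.e0 ∉ S) (a : ℝ) :
    M.IsP (RC.fa h S a) (M.prs (RC.fa h S a)) := isP_prs hd (H.fa hS hS0 a)

theorem prs_fa_mono (hd : 1 ≤ d) (H : M.Fld h) (hS : MeasurableSet S) (hS0 : M.e0 ∉ S) :
    Monotone fun a => M.prs (RC.fa h S a) := fun a b hab =>
  prs_mono hd (H.fa hS hS0 a) (H.fa hS hS0 b) fun x => by
    show h x + a * S.indicator 1 x ≤ h x + b * S.indicator 1 x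
    have : (0 : ℝ) ≤ S.indicator 1 x := Set.indicator_nonneg (fun _ _ => zero_le_one) x
    nlinarith

/-- Convexity in the chemical potential. -/
theorem convexOn_nb (hd : 1 ≤ d) {nb : E → ℕ} (H : ∀ z : ℝ, M.Fld fun x => z * nb x) :
    ConvexOn ℝ Set.univ fun z : ℝ => M.prs fun x => z * nb x :=
  convexOn_line hd (g := fun (z : ℝ) (x : E) => z * nb x) H fun a b s t _ x => by ring

/-- Convexity in the chemical potential. -/
theorem convexOn_isP_nb (hd : 1 ≤ d) {nb : E → ℕ} (H : ∀ z : ℝ, M.Fld fun x => z * nb x)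
    {F : ℝ → ℝ} (hF : ∀ z : ℝ, M.IsP (fun x => z * nb x) (F z)) : ConvexOn ℝ Set.univ F := by
  have e : F = fun z : ℝ => M.prs fun x => z * nb x :=
    funext fun z => (IsP.eq_prs hd (H z) (hF z)).symm
  rw [e]
  exact convexOn_nb hd H

omit [MeasurableSpace E] in
theorem fa_zero : RC.fa h S 0 = h := by
  funext x
  simp [RC.fa]

end CG

/-- The pressure of the gas is convex in the chemical potential. -/
theorem Ng.convexOn_q0 (hd : 1 ≤ d) {E : Set (Fin d → ℝ)} (G : Ng d E) :
    ConvexOn ℝ Set.univ G.q0 :=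
  CG.convexOn_line hd (fun z => G.fld z) fun a b s t _ x => by
    show (s * a + t * b) * x.1 = s * (a * x.1) + t * (b * x.1)
    ring

end Pool.Agent.RC
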