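import Mathlib

/-!
# A kink from a dichotomy of the one-sided slopes
-/

set_option autoImplicit false

namespace Pool.Agent.RC

open Set Filter Topology

/-- If at every point of an interval the left slopes are at most `n1` or the right slopes are at
least `n2`, the second fails at the left end and the first fails at the right end, then both hold
at some point. -/
theorem exists_kink {p : ℝ → ℝ} (hp : Continuous p) {z1 z2 n1 n2 : ℝ} (h12 : z1 ≤ z2)
    (hdi : ∀ t ∈ Icc z1 z2, (∀ h : ℝ, 0 < h → p t - h * n1 ≤ p (t - h)) ∨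
      ∀ h : ℝ, 0 < h → p t + h * n2 ≤ p (t + h))
    (h1 : ∃ h : ℝ, 0 < h ∧ p (z1 + h) < p z1 + h * n2)
    (h2 : ∃ h : ℝ, 0 < h ∧ p (z2 - h) < p z2 - h * n1) :
    ∃ w ∈ Icc z1 z2, (∀ h : ℝ, 0 < h → p w - h * n1 ≤ p (w - h)) ∧
      ∀ h : ℝ, 0 < h → p w + h * n2 ≤ p (w + h) := by
  have cA : IsClosed {t : ℝ | ∀ h : ℝ, 0 < h → p t - h * n1 ≤ p (t - h)} := by
    have e : {t : ℝ | ∀ h : ℝ, 0 < h → p t - h * n1 ≤ p (t - h)} =
        ⋂ (h : ℝ) (_ : 0 < h), {t : ℝ | p t - h * n1 ≤ p (t - h)} := by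
      ext t
      simp only [mem_ofPred_eq, mem_iInter]
    rw [e]
    refine isClosed_iInter fun h => isClosed_iInter fun _ => isClosed_le ?_ ?_
    · exact hp.sub continuous_const
    · exact hp.comp (continuous_id.sub continuous_const)
  have cB : IsClosed {t : ℝ | ∀ h : ℝ, 0 < h → p t + h * n2 ≤ p (t + h)} := by
    have e : {t : ℝ | ∀ h : ℝ, 0 < h → p t + h * n2 ≤ p (t + h)} =
        ⋂ (h : ℝ) (_ : 0 < h), {t : ℝ | p t + h * n2 ≤ p (t + h)} := by
      ext t
      simp only [mem_ofPred_eq, mem_iInter]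
    rw [e]
    refine isClosed_iInter fun h => isClosed_iInter fun _ => isClosed_le ?_ ?_
    · exact hp.add continuous_const
    · exact hp.comp (continuous_id.add continuous_const)
  have hc : IsPreconnected (Icc z1 z2) := isPreconnected_Icc
  rw [isPreconnected_closed_iff] at hc
  obtain ⟨w, hw, hwA, hwB⟩ := hc _ _ cA cB (fun t ht => hdi t ht) (by
    refine ⟨z1, left_mem_Icc.2 h12, ?_⟩
    rcases hdi z1 (left_mem_Icc.2 h12) with h | h
    · exact h
    · obtain ⟨s, hs, hs1⟩ := h1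
      exact absurd (h s hs) (not_le.2 hs1)) (by
    refine ⟨z2, right_mem_Icc.2 h12, ?_⟩
    rcases hdi z2 (right_mem_Icc.2 h12) with h | h
    · obtain ⟨s, hs, hs1⟩ := h2
      exact absurd (h s hs) (not_le.2 hs1)
    · exact h)
  exact ⟨w, hw, hwA, hwB⟩

/-- From the phases to a kink of the pressure. -/
theorem kink_of (F : ℝ → ℝ) (hF : ConvexOn ℝ Set.univ F) {z1 z2 φ : ℝ} {m : ℕ} (hφ : 0 < φ)
    (hz : z1 < z2)
    (h1 : ∃ t > 0, z1 + t ≤ z2 ∧ F (z1 + t) ≤ F z1 + t * ((m + 1 / 4) * φ))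
    (h2 : ∃ t > 0, z1 ≤ z2 - t ∧ F (z2 - t) ≤ F z2 - t * ((m + 3 / 4) * φ))
    (hP : ∀ z ∈ Set.Icc z1 z2, ∃ p : ℝ → ℝ, ConvexOn ℝ Set.univ p ∧ p 0 = F z ∧
      (∀ D, 0 ≤ D → p D ≤ F (z - D) + (m + 1) * φ * D) ∧
      (∃ D0 > 0, ∀ D, 0 ≤ D → D ≤ D0 →
        p (-D) ≤ F (z + D) - (m + 1) * φ * D + φ / 16 * D) ∧
      ((∀ t, 0 ≤ t → p 0 - t * (φ / 8) ≤ p (-t)) ∨
        (∀ t, 0 ≤ t → p 0 + t * (7 / 8 * φ) ≤ p t))) :
    ∃ w n1 n2 : ℝ, n1 < n2 ∧ (∀ t > 0, F w + t * n2 ≤ F (w + t)) ∧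
      ∀ t > 0, F w - t * n1 ≤ F (w - t) := by
  have hc : Continuous F := by
    rw [← continuousOn_univ]
    exact hF.continuousOn isOpen_univ
  obtain ⟨t1, ht1, -, h1⟩ := h1
  obtain ⟨t2, ht2, -, h2⟩ := h2
  obtain ⟨w, -, hw1, hw2⟩ := exists_kink hc (n1 := (m + 1 / 4) * φ) (n2 := (m + 3 / 4) * φ)
    hz.le (fun z hzz => by
      obtain ⟨p, -, p0, hup, ⟨D0, hD0, hlo⟩, hdi⟩ := hP z hzz
      rcases hdi with hd | hd
      · right
        intro h hh
        obtain ⟨D, hD, hDh, hDD⟩ : ∃ D, 0 < D ∧ D ≤ h ∧ D ≤ D0 :=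
          ⟨min h D0, lt_min hh hD0, min_le_left _ _, min_le_right _ _⟩
        have k1 := hd D hD.le
        have k2 := hlo D hD.le hDD
        rw [p0] at k1
        have k3 : F z + D * ((m + 3 / 4) * φ) ≤ F (z + D) := by
          have : 0 < D * φ := mul_pos hD hφ
          nlinarith
        have k4 := hF.2 (Set.mem_univ z) (Set.mem_univ (z + h))
          (sub_nonneg.2 ((div_le_one hh).2 hDh)) (div_nonneg hD.le hh.le) (by ring)
        have e1 : (1 - D / h) • z + (D / h) • (z + h) = z + D := by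
          simp only [smul_eq_mul]
          field_simp
          ring
        rw [e1] at k4
        simp only [smul_eq_mul] at k4
        have k5 : D / h * (F z + h * ((m + 3 / 4) * φ)) ≤ D / h * F (z + h) := by
          have e2 : D / h * (h * ((m + 3 / 4) * φ)) = D * ((m + 3 / 4) * φ) := by
            field_simp
          rw [mul_add, e2]
          nlinarith
        exact le_of_mul_le_mul_left k5 (div_pos hD hh)
      · left
        intro h hh
        have k1 := hd h hh.le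
        have k2 := hup h hh.le
        rw [p0] at k1
        have : 0 < h * φ := mul_pos hh hφ
        nlinarith)
    ⟨t1, ht1, by
      have : 0 < t1 * φ := mul_pos ht1 hφ
      nlinarith⟩
    ⟨t2, ht2, by
      have : 0 < t2 * φ := mul_pos ht2 hφ
      nlinarith⟩
  exact ⟨w, (m + 1 / 4) * φ, (m + 3 / 4) * φ, by nlinarith, fun t ht => hw2 t ht,
    fun t ht => hw1 t ht⟩

end Pool.Agent.RC
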