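import Pool.Agent.Lib.MP_09cbbd_rc.Den
import Pool.Agent.Lib.MP_09cbbd_vw.Blk

/-!
# The gluing inequalities of the two phases
-/

set_option autoImplicit false

namespace Pool.Agent.RC

open MeasureTheory Finset Filter Topology Pool.Agent.StableGas
open Pool.Agent.SquareWell hiding Md cut
open Pool.Agent.Vdw (blk lift ball mem_ball card_ball mem_lift lift_bx blk_unique card_lift)
open Pool.Agent.Kac (Tor cst)
open Pool.Agent.Mix (Qr mem_Qr)

variable {d : ℕ}

namespace PGl

/-- The cells outside the largest box of blocks are few. -/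
theorem rest_small {k : ℕ} (hk : 1 ≤ k) {η : ℝ} (hη : 0 < η) : ∀ᶠ L : ℕ in atTop,
    (2 * L + 1 : ℝ) ^ d - ((k * ((2 * L + 1) / k) : ℕ) : ℝ) ^ d ≤ η * (2 * L + 1 : ℝ) ^ d := by
  have hT : Tendsto (fun L : ℕ => (2 * L + 1 : ℝ)) atTop atTop := by
    refine tendsto_atTop_mono (fun L => ?_) (tendsto_natCast_atTop_atTop (R := ℝ))
    have : (0 : ℝ) ≤ L := Nat.cast_nonneg L
    show (L : ℝ) ≤ 2 * L + 1
    linarith
  have h1 : Tendsto (fun L : ℕ => (1 - k / (2 * L + 1 : ℝ)) ^ d) atTop (𝓝 1) := by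
    have h1 := (tendsto_const_nhds (x := (1 : ℝ))).sub
      ((tendsto_const_nhds (x := (k : ℝ))).div_atTop hT)
    have h2 := h1.pow d
    simpa using h2
  have h2 := h1.eventually_const_lt (show 1 - η < 1 by linarith)
  filter_upwards [h2, eventually_ge_atTop k] with L hL hLk
  have hm : (0 : ℝ) < 2 * L + 1 := by positivity
  have h3 : ((2 * L + 1 : ℝ) - k) ≤ ((k * ((2 * L + 1) / k) : ℕ) : ℝ) := by
    have h4 := Nat.div_add_mod (2 * L + 1) k
    have h5 := Nat.mod_lt (2 * L + 1) (show 0 < k by omega)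
    have h6 : (2 * L + 1 : ℕ) ≤ k * ((2 * L + 1) / k) + k := by omega
    have h7 : ((2 * L + 1 : ℕ) : ℝ) ≤ ((k * ((2 * L + 1) / k) : ℕ) : ℝ) + k := by
      exact_mod_cast h6
    push_cast at h7 ⊢
    linarith
  have h4 : 0 ≤ (2 * L + 1 : ℝ) - k := by
    have : (k : ℝ) ≤ L := by exact_mod_cast hLk
    have h0 : (0 : ℝ) ≤ L := Nat.cast_nonneg L
    linarith
  have h5 := pow_le_pow_left₀ h4 h3 d
  have h6 : (1 - k / (2 * L + 1 : ℝ)) ^ d * (2 * L + 1 : ℝ) ^ d = ((2 * L + 1 : ℝ) - k) ^ d := by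
    rw [← mul_pow]
    congr 1
    field_simp
  have h7 : (1 - η) * (2 * L + 1 : ℝ) ^ d ≤ ((2 * L + 1 : ℝ) - k) ^ d := by
    rw [← h6]
    exact mul_le_mul_of_nonneg_right hL.le (by positivity)
  linarith

variable {E : Type} [MeasurableSpace E] {M : CG d E}

/-- A function of the cells of a box of the torus. -/
theorem torus_box (L : ℕ) {h : E → ℝ} (hh : M.Fld h) {B : Finset (Zd d)}
    (hB : ∀ i ∈ B, ∀ k, 0 ≤ i k ∧ i k < 2 * L + 1) {F : (Zd d → E) → ENNReal}
    (hF : Measurable F) (hFd : ∀ x y : Zd d → E, (∀ i ∈ B, x i = y i) → F x = F y) :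
    ∫⁻ ω : Tor d L → E, M.wG (cst L) (fun _ => h) univ ω * F (fun i => ω (cst L i))
      ∂(Measure.pi fun _ => M.π) ≤
    M.int B (fun ω => M.w h B ω * F ω) *
      (∫⁻ x, ex (h x) ∂M.π) ^ (univ \ B.image (cst L)).card := by
  classical
  have := M.fin_π
  set A := B.image (cst L) with hA
  have hB2 : ∀ i ∈ B, Kac.TorP.vl (cst L i) = i := fun i hi => Kac.TorP.vl_cst (hB i hi)
  have hinj : ∀ i ∈ B, ∀ j ∈ B, cst L i = cst L j → i = j := fun i hi j hj h => by
    rw [← hB2 i hi, ← hB2 j hj, h]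
  set G : (Zd d → E) → ENNReal := fun ω => M.w h B ω * F ω with hG
  have hGm : Measurable G := (M.measurable_w hh.meas B).mul hF
  have hGd : ∀ x y : Zd d → E, (∀ i ∈ B, x i = y i) → G x = G y := by
    intro x y hxy
    simp only [hG]
    rw [M.w_dep h B x y hxy, hFd x y hxy]
  have hG1m : Measurable fun ω : Tor d L → E => G fun i => ω (cst L i) :=
    hGm.comp (measurable_pi_iff.2 fun i => measurable_pi_apply _)
  have hG1d : ∀ x y : Tor d L → E, (∀ i ∈ A, x i = y i) →
      (fun ω : Tor d L → E => G fun i => ω (cst L i)) x =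
      (fun ω : Tor d L → E => G fun i => ω (cst L i)) y :=
    fun x y hxy => hGd _ _ fun i hi => hxy _ (mem_image_of_mem _ hi)
  have hPm : Measurable fun ω : Tor d L → E => ∏ i ∈ univ \ A, ex (h (ω i)) :=
    Finset.measurable_prod _ fun i _ => hh.ex_meas.comp (measurable_pi_apply i)
  have hPd : ∀ x y : Tor d L → E, (∀ i ∈ univ \ A, x i = y i) →
      ∏ i ∈ univ \ A, ex (h (x i)) = ∏ i ∈ univ \ A, ex (h (y i)) :=
    fun x y hxy => prod_congr rfl fun i hi => by rw [hxy i hi]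
  have e1 : M.int B G * (∫⁻ x, ex (h x) ∂M.π) ^ (univ \ A).card =
      lmarginal (fun _ : Tor d L => M.π) (A ∪ univ \ A)
        (fun ω => (G fun i => ω (cst L i)) * ∏ i ∈ univ \ A, ex (h (ω i))) (fun _ => M.e0) := by
    rw [M.lm_mul disjoint_sdiff hG1m hPm hG1d hPd,
      M.lm_prod (univ \ A) (f := fun _ x => ex (h x)) (fun _ => hh.ex_meas), prod_const,
      M.transfer Kac.TorP.vl_inj hB2 hGm hGd]
  rw [e1, union_sdiff_of_subset (subset_univ A), lintegral_eq_lmarginal_univ (fun _ => M.e0)]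
  refine M.lm_mono univ (fun ω => ?_) _
  by_cases hc : M.cp (cst L) univ ω
  · have h' : M.cp id B fun i => ω (cst L i) := fun v hv h0 i hi hi2 => by
      have := hc v hv h0 (cst L i) (mem_univ _) (mem_univ _)
      rw [← Kac.TorP.cst_add] at this
      exact this
    have e2 : M.wG (cst L) (fun _ => h) univ ω = M.w h B (fun i => ω (cst L i)) *
        ∏ i ∈ univ \ A, ex (h (ω i)) := by
      rw [M.wG_of_cp _ hc, M.w_of_cp h', ← prod_image (f := fun t => ex (h (ω t)))
        (fun i hi j hj h => hinj i hi j hj h), ← hA,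
        ← prod_sdiff (subset_univ A) (f := fun i => ex (h (ω i)))]
      exact mul_comm _ _
    rw [e2]
    simp only [hG]
    exact le_of_eq (by ring)
  · rw [M.wG_of_not _ hc, zero_mul]
    exact zero_le

omit [MeasurableSpace E] in
theorem cnt_eq_sum (S : Set E) (X : Finset (Zd d)) (ω : Zd d → E) :
    (cnt S X ω : ℝ) = ∑ i ∈ X, S.indicator (1 : E → ℝ) (ω i) := by
  classical
  unfold cnt
  rw [card_filter]
  push_cast
  refine sum_congr rfl fun i _ => ?_
  by_cases h : ω i ∈ S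
  · rw [if_pos h, Set.indicator_of_mem h, Pi.one_apply]
  · rw [if_neg h, Set.indicator_of_notMem h]

theorem w_fa (h : E → ℝ) (SA : Set E) (a : ℝ) (B : Finset (Zd d)) (ω : Zd d → E) :
    M.w (fa h SA a) B ω = M.w h B ω * ex (a * cnt SA B ω) := by
  have h1 := M.wG_add id (fun _ => h) (fun _ x => a * SA.indicator 1 x) B ω
  rw [← mul_sum, ← cnt_eq_sum] at h1
  exact h1

theorem fa_meas {h : E → ℝ} (hh : Measurable h) {S : Set E} (hS : MeasurableSet S) (a : ℝ) :
    Measurable (fa h S a) := hh.add ((measurable_one.indicator hS).const_mul a)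

omit [MeasurableSpace E] in
theorem ind_nonneg (S : Set E) (x : E) : 0 ≤ S.indicator (1 : E → ℝ) x :=
  Set.indicator_nonneg (fun _ _ => zero_le_one) x

omit [MeasurableSpace E] in
theorem ind_le_one (S : Set E) (x : E) : S.indicator (1 : E → ℝ) x ≤ 1 :=
  Set.indicator_le_self' (fun _ _ => zero_le_one) x

theorem lint_fa {h : E → ℝ} (hh : M.Fld h) {S : Set E} {a κ : ℝ}
    (hK : ∫⁻ x, ex (h x) ∂M.π ≤ ex κ) : ∫⁻ x, ex (fa h S a x) ∂M.π ≤ ex (|a| + κ) := by
  calc ∫⁻ x, ex (fa h S a x) ∂M.π ≤ ∫⁻ x, ex |a| * ex (h x) ∂M.π := by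
        refine lintegral_mono fun x => ?_
        rw [← ex_add, ex_le_ex]
        unfold fa
        have h1 : a * S.indicator 1 x ≤ |a| := by
          calc a * S.indicator 1 x ≤ |a| * S.indicator 1 x :=
                mul_le_mul_of_nonneg_right (le_abs_self a) (ind_nonneg S x)
            _ ≤ |a| * 1 := mul_le_mul_of_nonneg_left (ind_le_one S x) (abs_nonneg a)
            _ = |a| := mul_one _
        linarith
    _ = ex |a| * ∫⁻ x, ex (h x) ∂M.π := lintegral_const_mul _ hh.ex_meas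
    _ ≤ ex |a| * ex κ := mul_le_mul' le_rfl hK
    _ = _ := (ex_add _ _).symm

theorem fld_fa {h : E → ℝ} (hh : M.Fld h) {S : Set E} (hS : MeasurableSet S) (he : M.e0 ∉ S)
    (a : ℝ) : M.Fld (fa h S a) where
  meas := fa_meas hh.meas hS a
  e0 := by
    unfold fa
    rw [hh.e0, Set.indicator_of_notMem he, mul_zero, add_zero]
  fin := by
    have h1 : ∫⁻ x, ex (h x) ∂M.π ≤ ex (Real.log (∫⁻ x, ex (h x) ∂M.π).toReal) := by
      rw [ex_log (lt_of_lt_of_le one_pos hh.one_le).ne' hh.fin]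
    exact ne_top_of_le_ne_top (ex_ne_top _) (lint_fa hh h1)

/-- Double counting of the neighbours. -/
theorem sum_ball_le (Q : Finset (Zd d)) {e : Zd d → ℝ} (he : ∀ z, 0 ≤ e z) :
    ∑ q ∈ Q, ∑ z ∈ ball 1 q ∩ Q, e z ≤ 3 ^ d * ∑ z ∈ Q, e z := by
  classical
  have h1 : ∀ q ∈ Q, ∑ z ∈ ball 1 q ∩ Q, e z = ∑ z ∈ Q, if z ∈ ball 1 q then e z else 0 := by
    intro q _
    rw [← sum_filter]
    refine sum_congr ?_ fun _ _ => rfl
    ext z
    rw [mem_inter, mem_filter, and_comm]
  rw [sum_congr rfl h1, sum_comm, mul_sum]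
  refine sum_le_sum fun z _ => ?_
  rw [← sum_filter, sum_const, nsmul_eq_mul]
  refine mul_le_mul_of_nonneg_right ?_ (he z)
  have h2 : (Q.filter fun q => z ∈ ball 1 q) ⊆ ball 1 z := by
    intro q hq
    have h3 := (mem_filter.1 hq).2
    rw [mem_ball] at h3 ⊢
    intro l
    have h4 := h3 l
    rw [abs_le] at h4 ⊢
    constructor <;> linarith [h4.1, h4.2]
  have h3 := card_le_card h2
  rw [card_ball] at h3
  have h4 : ((Q.filter fun q => z ∈ ball 1 q).card : ℝ) ≤ ((2 * 1 + 1 : ℕ) : ℝ) ^ d := by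
    exact_mod_cast h3
  norm_num at h4
  exact h4

theorem sum_blk (k : ℕ) (Q : Finset (Zd d)) (f : Zd d → ℝ) :
    ∑ i ∈ lift k Q, f i = ∑ q ∈ Q, ∑ i ∈ blk k q, f i := by
  classical
  unfold lift
  rw [sum_biUnion]
  intro p _ q _ hpq
  rw [Function.onFun, disjoint_left]
  intro i hi hj
  exact hpq (blk_unique hi hj)

/-! ### The average energy on the torus -/

section

variable {SA SB : Set E} {h : E → ℝ} {p : ℝ → ℝ} {φ c2 C1 ε μ : ℝ} {k : ℕ}
    {eb : Finset (Zd d) → (Zd d → E) → Zd d → ℝ}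

/-- The contents of neither phase. -/
def Oth (M : CG d E) (SA SB : Set E) : Set E := (SA ∪ SB ∪ {M.e0})ᶜ

/-- The number of blocks in one direction. -/
def nL (k L : ℕ) : ℕ := (2 * L + 1) / k

theorem nL_le (k L : ℕ) : k * nL k L ≤ 2 * L + 1 := Nat.mul_div_le _ _

/-- The exponential moment in a box. -/
theorem box_exp (B : Blk M SA SB h p φ c2 C1 ε μ k eb) (Q : Finset (Zd d)) (a : ℝ) : M.int (lift k Q) (fun ω => M.w (fa h SA a) (lift k Q) ω *
      ex (1 / 2 * μ * (k : ℝ) ^ d * ∑ q ∈ Q, eb Q ω q)) ≤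
      ex ((φ + ε) * (μ + max a 0) * (k : ℝ) ^ d * Q.card) := by
  have hXm : Measurable fun ω : Zd d → E =>
      ex (1 / 2 * μ * (k : ℝ) ^ d * ∑ q ∈ Q, eb Q ω q) :=
    CG.measurable_ex ((Finset.measurable_sum _ fun q _ => B.eb_meas Q q).const_mul _)
  have h1 : ∀ ω : Zd d → E, M.w (fa h SA a) (lift k Q) ω *
      ex (1 / 2 * μ * (k : ℝ) ^ d * ∑ q ∈ Q, eb Q ω q) ≤
      ex (max a 0 * ((φ + ε) * (k : ℝ) ^ d * Q.card)) * (M.w h (lift k Q) ω *
        ex (1 / 2 * μ * (k : ℝ) ^ d * ∑ q ∈ Q, eb Q ω q)) := by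
    intro ω
    by_cases hc : M.cp id (lift k Q) ω
    · rw [w_fa]
      have h2 : ex (a * cnt SA (lift k Q) ω) ≤
          ex (max a 0 * ((φ + ε) * (k : ℝ) ^ d * Q.card)) := by
        rw [ex_le_ex]
        have h3 := B.pack Q ω hc
        have h4 : (0 : ℝ) ≤ cnt SA (lift k Q) ω := Nat.cast_nonneg _
        have h5 : (0 : ℝ) ≤ cnt SB (lift k Q) ω := Nat.cast_nonneg _
        calc a * cnt SA (lift k Q) ω ≤ max a 0 * cnt SA (lift k Q) ω :=
              mul_le_mul_of_nonneg_right (le_max_left _ _) h4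
          _ ≤ _ := mul_le_mul_of_nonneg_left (by linarith) (le_max_right _ _)
      calc M.w h (lift k Q) ω * ex (a * cnt SA (lift k Q) ω) *
            ex (1 / 2 * μ * (k : ℝ) ^ d * ∑ q ∈ Q, eb Q ω q)
          = ex (a * cnt SA (lift k Q) ω) * (M.w h (lift k Q) ω *
            ex (1 / 2 * μ * (k : ℝ) ^ d * ∑ q ∈ Q, eb Q ω q)) := by ring
        _ ≤ _ := mul_le_mul' h2 le_rfl
    · rw [M.w_of_not hc, zero_mul]
      exact zero_le
  refine (M.int_mono _ h1).trans ?_
  have hWX : Measurable fun ω : Zd d → E => M.w h (lift k Q) ω *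
      ex (1 / 2 * μ * (k : ℝ) ^ d * ∑ q ∈ Q, eb Q ω q) :=
    (M.measurable_w B.fld.meas _).mul hXm
  rw [M.int_const_mul _ hWX]
  refine (mul_le_mul' le_rfl (B.cr Q)).trans ?_
  rw [← ex_add, ex_le_ex]
  apply le_of_eq
  ring

/-- The exponential moment on the torus. -/
theorem torus_exp (B : Blk M SA SB h p φ c2 C1 ε μ k eb) {κ : ℝ} (a : ℝ)
    (hK : ∫⁻ x, ex (fa h SA a x) ∂M.π ≤ ex κ) (L : ℕ) :
    ∫⁻ ω : Tor d L → E, M.wG (cst L) (fun _ => fa h SA a) univ ω *
      ex (1 / 2 * μ * (k : ℝ) ^ d * ∑ q ∈ bx d (nL k L), eb (bx d (nL k L))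
        (fun i => ω (cst L i)) q) ∂(Measure.pi fun _ => M.π) ≤
      ex ((φ + ε) * (μ + max a 0) * ((k * nL k L : ℕ) : ℝ) ^ d +
        κ * ((2 * L + 1 : ℝ) ^ d - ((k * nL k L : ℕ) : ℝ) ^ d)) := by
  classical
  set Q := bx d (nL k L) with hQ
  have hlift : lift k Q = bx d (k * nL k L) := lift_bx k (nL k L)
  have hB : ∀ i ∈ lift k Q, ∀ l, 0 ≤ i l ∧ i l < 2 * L + 1 := by
    intro i hi l
    rw [hlift] at hi
    have h1 := Kac.TorP.mem_bx.1 hi l
    have h2 := nL_le k L
    constructor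
    · exact h1.1
    · have h3 : ((k * nL k L : ℕ) : ℤ) ≤ 2 * L + 1 := by exact_mod_cast h2
      omega
  have hF : Measurable fun ω : Zd d → E =>
      ex (1 / 2 * μ * (k : ℝ) ^ d * ∑ q ∈ Q, eb Q ω q) :=
    CG.measurable_ex ((Finset.measurable_sum _ fun q _ => B.eb_meas Q q).const_mul _)
  have hFd : ∀ x y : Zd d → E, (∀ i ∈ lift k Q, x i = y i) →
      ex (1 / 2 * μ * (k : ℝ) ^ d * ∑ q ∈ Q, eb Q x q) =
      ex (1 / 2 * μ * (k : ℝ) ^ d * ∑ q ∈ Q, eb Q y q) := by
    intro x y hxy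
    rw [sum_congr rfl fun q hq => B.eb_dep Q q hq x y hxy]
  have h1 := torus_box L (fld_fa B.fld B.SA_meas B.e0_A a) hB hF hFd
  refine h1.trans ((mul_le_mul' (box_exp B Q a) (pow_le_pow_left' hK _)).trans ?_)
  have hinj : ∀ i ∈ lift k Q, ∀ j ∈ lift k Q, cst L i = cst L j → i = j := fun i hi j hj h => by
    rw [← Kac.TorP.vl_cst (hB i hi), ← Kac.TorP.vl_cst (hB j hj), h]
  have hcard : (univ \ (lift k Q).image (cst L)).card = (2 * L + 1) ^ d - (k * nL k L) ^ d := by
    rw [card_sdiff_of_subset (subset_univ _), card_univ, Fintype.card_fun, ZMod.card,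
      Fintype.card_fin, card_image_of_injOn fun i hi j hj h => hinj i hi j hj h, hlift,
      Kac.TorP.card_bx]
  have hle : (k * nL k L) ^ d ≤ (2 * L + 1) ^ d := Nat.pow_le_pow_left (nL_le k L) d
  have hcard' : ((univ \ (lift k Q).image (cst L)).card : ℝ) =
      (2 * L + 1 : ℝ) ^ d - ((k * nL k L : ℕ) : ℝ) ^ d := by
    rw [hcard, Nat.cast_sub hle]
    push_cast
    ring
  have hQc : (Q.card : ℝ) = (nL k L : ℝ) ^ d := by
    rw [hQ, Kac.TorP.card_bx]
    push_cast
    ring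
  rw [ex_pow, ← ex_add, ex_le_ex, hcard', hQc]
  apply le_of_eq
  push_cast
  rw [mul_pow]
  ring

omit [MeasurableSpace E] in
theorem sum_tor_le (L : ℕ) {B : Finset (Zd d)} (hB : ∀ i ∈ B, ∀ k, 0 ≤ i k ∧ i k < 2 * L + 1)
    {f : E → ℝ} (hf1 : ∀ x, f x ≤ 1) (ω : Tor d L → E) :
    ∑ i, f (ω i) ≤ ∑ i ∈ B, f (ω (cst L i)) + ((2 * L + 1 : ℝ) ^ d - B.card) := by
  classical
  have hinj : ∀ i ∈ B, ∀ j ∈ B, cst L i = cst L j → i = j := fun i hi j hj h => by
    rw [← Kac.TorP.vl_cst (hB i hi), ← Kac.TorP.vl_cst (hB j hj), h]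
  have h1 : ∑ i ∈ B, f (ω (cst L i)) = ∑ t ∈ B.image (cst L), f (ω t) :=
    (sum_image (f := fun t => f (ω t)) fun i hi j hj h => hinj i hi j hj h).symm
  have h2 : ∑ i, f (ω i) = ∑ t ∈ univ \ B.image (cst L), f (ω t) +
      ∑ t ∈ B.image (cst L), f (ω t) :=
    (sum_sdiff (subset_univ (B.image (cst L)))).symm
  have h3 : ∑ t ∈ univ \ B.image (cst L), f (ω t) ≤ (univ \ B.image (cst L)).card := by
    have := sum_le_card_nsmul (univ \ B.image (cst L)) (fun t => f (ω t)) 1 fun t _ => hf1 _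
    rwa [nsmul_eq_mul, mul_one] at this
  have h4 : ((univ \ B.image (cst L)).card : ℝ) = (2 * L + 1 : ℝ) ^ d - B.card := by
    have h5 : (B.image (cst L)).card = B.card := card_image_of_injOn fun i hi j hj h =>
      hinj i hi j hj h
    have h6 : (B.image (cst L)).card ≤ (2 * L + 1) ^ d := by
      have := card_le_univ (B.image (cst L))
      rwa [Fintype.card_fun, ZMod.card, Fintype.card_fin] at this
    rw [card_sdiff_of_subset (subset_univ _), card_univ, Fintype.card_fun, ZMod.card,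
      Fintype.card_fin, Nat.cast_sub h6, h5]
    push_cast
    ring
  rw [h2, h1, ← h4]
  linarith

/-- The contents of neither phase are controlled by the energy. -/
theorem oth_le (B : Blk M SA SB h p φ c2 C1 ε μ k eb) (hC1 : 0 < C1) (L : ℕ) {ω : Tor d L → E}
    (hω : M.cp (cst L) univ ω) :
    ∑ i, (Oth M SA SB).indicator (1 : E → ℝ) (ω i) ≤
      C1 * 3 ^ d * ((k : ℝ) ^ d * ∑ q ∈ bx d (nL k L), eb (bx d (nL k L))
        (fun i => ω (cst L i)) q) +
      ((2 * L + 1 : ℝ) ^ d - ((k * nL k L : ℕ) : ℝ) ^ d) := by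
  classical
  set Q := bx d (nL k L) with hQ
  have hlift : lift k Q = bx d (k * nL k L) := lift_bx k (nL k L)
  have hB : ∀ i ∈ lift k Q, ∀ l, 0 ≤ i l ∧ i l < 2 * L + 1 := by
    intro i hi l
    rw [hlift] at hi
    have h1 := Kac.TorP.mem_bx.1 hi l
    have h2 := nL_le k L
    constructor
    · exact h1.1
    · have h3 : ((k * nL k L : ℕ) : ℤ) ≤ 2 * L + 1 := by exact_mod_cast h2
      omega
  have hcp : M.cp id (lift k Q) fun i => ω (cst L i) := fun v hv h0 i _ _ => by
    have := hω v hv h0 (cst L i) (mem_univ _) (mem_univ _)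
    rw [← Kac.TorP.cst_add] at this
    exact this
  have h1 := sum_tor_le L hB (f := (Oth M SA SB).indicator (1 : E → ℝ)) (ind_le_one _) ω
  have hc : ((lift k Q).card : ℝ) = ((k * nL k L : ℕ) : ℝ) ^ d := by
    rw [hlift, Kac.TorP.card_bx]
    push_cast
    ring
  rw [hc] at h1
  refine h1.trans (add_le_add ?_ le_rfl)
  rw [sum_blk k Q fun i => (Oth M SA SB).indicator (1 : E → ℝ) (ω (cst L i))]
  have h2 : ∀ q ∈ Q, ∑ i ∈ blk k q, (Oth M SA SB).indicator (1 : E → ℝ) (ω (cst L i)) ≤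
      C1 * (k : ℝ) ^ d * ∑ z ∈ ball 1 q ∩ Q, eb Q (fun i => ω (cst L i)) z := by
    intro q hq
    have h3 := B.other Q _ hcp q hq
    rw [cnt_eq_sum] at h3
    exact h3
  refine (sum_le_sum h2).trans ?_
  rw [← mul_sum]
  have h3 := sum_ball_le Q (e := fun z => eb Q (fun i => ω (cst L i)) z)
    fun z => B.eb_nonneg Q _ z
  have h4 : 0 ≤ C1 * (k : ℝ) ^ d := by positivity
  calc C1 * (k : ℝ) ^ d * ∑ q ∈ Q, ∑ z ∈ ball 1 q ∩ Q, eb Q (fun i => ω (cst L i)) z
      ≤ C1 * (k : ℝ) ^ d * (3 ^ d * ∑ z ∈ Q, eb Q (fun i => ω (cst L i)) z) :=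
        mul_le_mul_of_nonneg_left h3 h4
    _ = _ := by ring

/-- The contents of the two phases are packed. -/
theorem pack_le (B : Blk M SA SB h p φ c2 C1 ε μ k eb) (L : ℕ) {ω : Tor d L → E}
    (hω : M.cp (cst L) univ ω) :
    ∑ i, (SA.indicator (1 : E → ℝ) (ω i) + SB.indicator (1 : E → ℝ) (ω i)) ≤
      (φ + ε) * ((k * nL k L : ℕ) : ℝ) ^ d +
      ((2 * L + 1 : ℝ) ^ d - ((k * nL k L : ℕ) : ℝ) ^ d) := by
  classical
  set Q := bx d (nL k L) with hQ
  have hlift : lift k Q = bx d (k * nL k L) := lift_bx k (nL k L)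
  have hB : ∀ i ∈ lift k Q, ∀ l, 0 ≤ i l ∧ i l < 2 * L + 1 := by
    intro i hi l
    rw [hlift] at hi
    have h1 := Kac.TorP.mem_bx.1 hi l
    have h2 := nL_le k L
    constructor
    · exact h1.1
    · have h3 : ((k * nL k L : ℕ) : ℤ) ≤ 2 * L + 1 := by exact_mod_cast h2
      omega
  have hcp : M.cp id (lift k Q) fun i => ω (cst L i) := fun v hv h0 i _ _ => by
    have := hω v hv h0 (cst L i) (mem_univ _) (mem_univ _)
    rw [← Kac.TorP.cst_add] at this
    exact this
  have hf1 : ∀ x, SA.indicator (1 : E → ℝ) x + SB.indicator (1 : E → ℝ) x ≤ 1 := by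
    intro x
    by_cases hx : x ∈ SA
    · rw [Set.indicator_of_mem hx, Set.indicator_of_notMem (Set.disjoint_left.1 B.disj hx)]
      simp
    · rw [Set.indicator_of_notMem hx, zero_add]
      exact ind_le_one _ _
  have h1 := sum_tor_le L hB hf1 ω
  have hc : ((lift k Q).card : ℝ) = ((k * nL k L : ℕ) : ℝ) ^ d := by
    rw [hlift, Kac.TorP.card_bx]
    push_cast
    ring
  rw [hc] at h1
  refine h1.trans (add_le_add ?_ le_rfl)
  have h2 := B.pack Q _ hcp
  rw [cnt_eq_sum, cnt_eq_sum, ← sum_add_distrib] at h2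
  refine h2.trans (le_of_eq ?_)
  rw [hQ, Kac.TorP.card_bx]
  push_cast
  rw [mul_pow]
  ring

/-- **The density of the contents of neither phase.** -/
theorem dens_oth (B : Blk M SA SB h p φ c2 C1 ε μ k eb) (hφ : 0 < φ) (hC1 : 0 < C1)
    (hε : 0 ≤ ε) (hK : ∫⁻ x, ex (h x) ∂M.π ≤ ex (3 / 2 * μ))
    (hgrow : ∀ a, 0 ≤ a → a ≤ μ → φ * a + (φ - ε) * μ ≤ p a) {a : ℝ} (ha : |a| ≤ μ / 2) {η : ℝ}
    (hη : 0 < η) : ∀ᶠ L : ℕ in atTop, M.ST L (fa h SA a) ((Oth M SA SB).indicator 1) ≤
      ENNReal.ofReal ((5 * 3 ^ d * C1 * ε + η) * (2 * L + 1 : ℝ) ^ d) *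
        M.ZT L (fa h SA a) := by
  have hμ := B.μ_pos
  have hF := fld_fa B.fld B.SA_meas B.e0_A a
  have hOm : MeasurableSet (Oth M SA SB) :=
    ((B.SA_meas.union B.SB_meas).union M.e0_meas).compl
  have hKa : ∫⁻ x, ex (fa h SA a x) ∂M.π ≤ ex (2 * μ) := by
    refine (lint_fa B.fld hK).trans (ex_le_ex.2 ?_)
    linarith
  -- the constants
  set q : ℝ := C1 * 3 ^ d with hq
  have hq0 : 0 < q := by positivity
  set η2 : ℝ := η * μ / (4 * q) with hη2
  have hη20 : 0 < η2 := by positivity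
  set η3 : ℝ := min (η / 2) (η2 / (4 * μ)) with hη3
  have hη30 : 0 < η3 := by positivity
  have hη3a : η3 ≤ η / 2 := min_le_left _ _
  have hη3b : 2 * μ * η3 ≤ η2 / 2 := by
    have h1 : η3 ≤ η2 / (4 * μ) := min_le_right _ _
    rw [le_div_iff₀ (by positivity)] at h1
    linarith
  have h1 := (CG.IsP.torus hF (B.isP a)).eventually_const_lt
    (show p a - η2 / 2 < p a by linarith)
  filter_upwards [h1, rest_small (d := d) B.k_pos hη30] with L hL1 hL2
  set V : ℝ := (2 * L + 1 : ℝ) ^ d with hV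
  have hV0 : 0 < V := by positivity
  set v : ℝ := ((k * nL k L : ℕ) : ℝ) ^ d with hv
  have hv0 : 0 ≤ v := by positivity
  have hvV : v ≤ V := by
    rw [hv, hV]
    refine pow_le_pow_left₀ (Nat.cast_nonneg _) ?_ d
    have := nL_le k L
    exact_mod_cast this
  have hL2' : V - v ≤ η3 * V := hL2
  set lz : ℝ := Real.log (M.ZT L (fa h SA a)).toReal with hlz
  have hZ : M.ZT L (fa h SA a) = ex lz := (M.ZT_eq_ex L hF).symm
  rw [lt_div_iff₀ hV0] at hL1
  -- the lower bound of the pressure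
  have hpa : φ * max a 0 + (φ - ε) * μ ≤ p a := by
    rcases le_total 0 a with h2 | h2
    · rw [max_eq_left h2]
      exact hgrow a h2 (by linarith [le_abs_self a])
    · rw [max_eq_right h2, mul_zero, zero_add]
      exact B.lo a
  have hmax0 : 0 ≤ max a 0 := le_max_right _ _
  have hmax1 : max a 0 ≤ μ / 2 := max_le ((le_abs_self a).trans ha) (by linarith)
  set aL : ℝ := V * (5 / 2 * ε * μ + η2) with haL
  have haL0 : 0 ≤ aL := by positivity
  have hexp : (φ + ε) * (μ + max a 0) * v + 2 * μ * (V - v) ≤ aL + lz := by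
    have g1 : (φ + ε) * (μ + max a 0) * v ≤ (φ + ε) * (μ + max a 0) * V :=
      mul_le_mul_of_nonneg_left hvV (by positivity)
    have g2 : 2 * μ * (V - v) ≤ 2 * μ * (η3 * V) :=
      mul_le_mul_of_nonneg_left hL2' (by positivity)
    have g3 : 2 * μ * (η3 * V) ≤ η2 / 2 * V := by
      have := mul_le_mul_of_nonneg_right hη3b hV0.le
      linarith
    have g4 : (φ * max a 0 + (φ - ε) * μ) * V ≤ p a * V :=
      mul_le_mul_of_nonneg_right hpa hV0.le
    have g5 : ε * max a 0 * V ≤ ε * (μ / 2) * V :=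
      mul_le_mul_of_nonneg_right (mul_le_mul_of_nonneg_left hmax1 hε) hV0.le
    rw [haL]
    nlinarith [g1, g2, g3, g4, g5, hL1]
  -- Jensen
  set Q := bx d (nL k L) with hQ
  set X : (Tor d L → E) → ℝ := fun ω => 1 / 2 * μ * (k : ℝ) ^ d *
    ∑ q ∈ Q, eb Q (fun i => ω (cst L i)) q with hX
  have hXm : Measurable X := by
    refine Measurable.const_mul (Finset.measurable_sum _ fun q _ => ?_) _
    exact (B.eb_meas Q q).comp (measurable_pi_iff.2 fun i => measurable_pi_apply _)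
  have hX0 : ∀ ω, 0 ≤ X ω := fun ω => mul_nonneg (by positivity)
    (sum_nonneg fun q _ => B.eb_nonneg Q _ q)
  have hWm : Measurable (M.wG (cst L) (fun _ => fa h SA a) univ) :=
    M.measurable_wG (cst L) (fun _ => hF.meas) (univ : Finset (Tor d L))
  have h2 := torus_exp B a hKa L
  have h3 : ∫⁻ ω : Tor d L → E, M.wG (cst L) (fun _ => fa h SA a) univ ω * ex (X ω)
      ∂(Measure.pi fun _ => M.π) ≤ ex aL * M.ZT L (fa h SA a) := by
    refine h2.trans ?_
    rw [hZ, ← ex_add, ex_le_ex]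
    exact hexp
  have h4 := jensen_gen (Measure.pi fun _ : Tor d L => M.π) hWm hXm hX0 haL0
    (M.ZT_ne_top L hF) h3
  -- conclusion
  have hc0 : 0 ≤ 2 * q / μ := by positivity
  have h5 : M.ST L (fa h SA a) ((Oth M SA SB).indicator 1) ≤
      ENNReal.ofReal (2 * q / μ) * ∫⁻ ω : Tor d L → E,
        M.wG (cst L) (fun _ => fa h SA a) univ ω * ENNReal.ofReal (X ω)
        ∂(Measure.pi fun _ => M.π) + ENNReal.ofReal (V - v) * M.ZT L (fa h SA a) := by
    have hWX : Measurable fun ω : Tor d L → E =>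
        M.wG (cst L) (fun _ => fa h SA a) univ ω * ENNReal.ofReal (X ω) :=
      hWm.mul hXm.ennreal_ofReal
    unfold CG.ST CG.ZT
    rw [← lintegral_const_mul _ hWX, ← lintegral_const_mul _ hWm,
      ← lintegral_add_right _ (hWm.const_mul _)]
    refine lintegral_mono fun ω => ?_
    by_cases hc : M.cp (cst L) univ ω
    · have h6 := oth_le B hC1 L hc
      have h7 : ENNReal.ofReal (∑ i, (Oth M SA SB).indicator (1 : E → ℝ) (ω i)) ≤
          ENNReal.ofReal (2 * q / μ) * ENNReal.ofReal (X ω) + ENNReal.ofReal (V - v) := by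
        rw [← ENNReal.ofReal_mul hc0, ← ENNReal.ofReal_add (mul_nonneg hc0 (hX0 ω))
          (by linarith)]
        refine ENNReal.ofReal_le_ofReal (h6.trans (le_of_eq ?_))
        congr 1
        simp only [hX, hq]
        field_simp
        rfl
      calc M.wG (cst L) (fun _ => fa h SA a) univ ω *
            ENNReal.ofReal (∑ i, (Oth M SA SB).indicator (1 : E → ℝ) (ω i))
          ≤ M.wG (cst L) (fun _ => fa h SA a) univ ω *
            (ENNReal.ofReal (2 * q / μ) * ENNReal.ofReal (X ω) + ENNReal.ofReal (V - v)) :=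
            mul_le_mul' le_rfl h7
        _ = _ := by ring
    · rw [M.wG_of_not _ hc, zero_mul]
      exact zero_le
  refine h5.trans ((add_le_add (mul_le_mul' le_rfl h4) le_rfl).trans ?_)
  have e1 : ∫⁻ ω : Tor d L → E, M.wG (cst L) (fun _ => fa h SA a) univ ω
      ∂(Measure.pi fun _ => M.π) = M.ZT L (fa h SA a) := rfl
  rw [e1, ← mul_assoc, ← add_mul, ← ENNReal.ofReal_mul hc0,
    ← ENNReal.ofReal_add (mul_nonneg hc0 haL0) (by linarith)]
  refine mul_le_mul' (ENNReal.ofReal_le_ofReal ?_) le_rfl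
  have e2 : 2 * q / μ * aL = (5 * q * ε + η / 2) * V := by
    rw [haL, hη2]
    field_simp
    ring
  rw [e2]
  have g1 : V - v ≤ η / 2 * V := hL2'.trans (mul_le_mul_of_nonneg_right hη3a hV0.le)
  have e3 : 5 * 3 ^ d * C1 * ε = 5 * q * ε := by
    rw [hq]
    ring
  rw [e3]
  linarith

/-- **The density of the contents of the two phases.** -/
theorem dens_pack (B : Blk M SA SB h p φ c2 C1 ε μ k eb) (hφ : 0 < φ) (hε : 0 ≤ ε) (a : ℝ) {η : ℝ}
    (hη : 0 < η) : ∀ᶠ L : ℕ in atTop, M.ST L (fa h SA a) (SA.indicator 1) +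
      M.ST L (fa h SA a) (SB.indicator 1) ≤
      ENNReal.ofReal ((φ + ε + η) * (2 * L + 1 : ℝ) ^ d) * M.ZT L (fa h SA a) := by
  have hF := fld_fa B.fld B.SA_meas B.e0_A a
  filter_upwards [rest_small (d := d) B.k_pos hη] with L hL2
  set V : ℝ := (2 * L + 1 : ℝ) ^ d with hV
  have hV0 : 0 < V := by positivity
  set v : ℝ := ((k * nL k L : ℕ) : ℝ) ^ d with hv
  have hvV : v ≤ V := by
    rw [hv, hV]
    refine pow_le_pow_left₀ (Nat.cast_nonneg _) ?_ d
    have := nL_le k L
    exact_mod_cast this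
  have hL2' : V - v ≤ η * V := hL2
  rw [← CG.ST_add L hF (measurable_one.indicator B.SA_meas) (ind_nonneg SA) (ind_nonneg SB)]
  have hWm : Measurable (M.wG (cst L) (fun _ => fa h SA a) univ) :=
    M.measurable_wG (cst L) (fun _ => hF.meas) (univ : Finset (Tor d L))
  unfold CG.ST CG.ZT
  rw [← lintegral_const_mul _ hWm]
  refine lintegral_mono fun ω => ?_
  by_cases hc : M.cp (cst L) univ ω
  · have h6 := pack_le B L hc
    rw [mul_comm]
    refine mul_le_mul' (ENNReal.ofReal_le_ofReal (h6.trans ?_)) le_rfl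
    have g1 : (φ + ε) * v ≤ (φ + ε) * V := mul_le_mul_of_nonneg_left hvV (by positivity)
    linarith
  · rw [M.wG_of_not _ hc, zero_mul]
    exact zero_le

theorem p_mono (B : Blk M SA SB h p φ c2 C1 ε μ k eb) : Monotone p := by
  intro a b hab
  refine le_of_tendsto_of_tendsto' (CG.IsP.torus (fld_fa B.fld B.SA_meas B.e0_A a) (B.isP a))
    (CG.IsP.torus (fld_fa B.fld B.SA_meas B.e0_A b) (B.isP b)) fun L => ?_
  refine div_le_div_of_nonneg_right (Real.log_le_log (M.ZT_pos L
    (fld_fa B.fld B.SA_meas B.e0_A a)) (ENNReal.toReal_mono (M.ZT_ne_top L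
    (fld_fa B.fld B.SA_meas B.e0_A b)) (CG.ZT_mono L fun x => ?_))) (by positivity)
  unfold fa
  have := mul_le_mul_of_nonneg_right hab (ind_nonneg SA x)
  linarith

theorem half_eq : (1 / 2 : ENNReal) = ex (-Real.log 2) := by
  rw [← CG.ex_inv, CG.ex_log_two, one_div]

end

end PGl

section

open PGl

variable {E : Type} [MeasurableSpace E]

/-- The gluing inequalities for the phase `B`. -/
theorem glue_B (hd : 1 ≤ d) {φ c2 C1 : ℝ} (hφ : 0 < φ) (hC1 : 0 < C1) {M : CG d E}
    {SA SB : Set E} {h : E → ℝ} {p : ℝ → ℝ} {ε μ : ℝ} {k : ℕ}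
    {eb : Finset (Zd d) → (Zd d → E) → Zd d → ℝ} (B : Blk M SA SB h p φ c2 C1 ε μ k eb)
    (hε : 0 ≤ ε) (hK : ∫⁻ x, ex (h x) ∂M.π ≤ ex (3 / 2 * μ))
    (hgrow : ∀ a, 0 ≤ a → a ≤ μ → φ * a + (φ - ε) * μ ≤ p a)
    (hSH : ∀ a, M.SH (fa h SA a) (SB ∪ {M.e0}) (SB ∪ {M.e0}) (1 / 2)) :
    ∀ a t : ℝ, |a| ≤ μ / 2 → 0 < t →
      M.Gl SB (fa h SA a) (2 * μ) ((p (a + t) - p a) / t + 6 * 3 ^ d * C1 * ε)
        (2 * Real.log 2) (p a) := by
  intro a t ha ht
  have hμ := B.μ_pos
  have hF := fld_fa B.fld B.SA_meas B.e0_A a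
  have hq0 : 0 ≤ 3 ^ d * C1 * ε := by positivity
  have hs0 : 0 ≤ (p (a + t) - p a) / t :=
    div_nonneg (sub_nonneg.2 (p_mono B (by linarith))) ht.le
  refine CG.Gl.of_add fun η hη => ?_
  have h1 : M.Gl SB (fa h SA a) (2 * μ) ((p (a + t) - p a) / t + 6 * 3 ^ d * C1 * ε + η)
      (Real.log 2 + Real.log 2) (p a) := by
    have hs := hSH a
    rw [half_eq, Set.union_singleton] at hs
    refine M.gl_of_sh hd B.SB_meas hF (B.isP a) (Real.log_nonneg one_le_two) hs ?_ ?_ ?_
    · refine (lint_fa B.fld hK).trans (ex_le_ex.2 ?_)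
      linarith
    · nlinarith
    · have hF' : M.Fld fun x => fa h SA a x + t * SA.indicator 1 x := by
        have h2 := fld_fa B.fld B.SA_meas B.e0_A (a + t)
        have e : fa h SA (a + t) = fun x => fa h SA a x + t * SA.indicator 1 x := by
          funext x
          unfold fa
          ring
        rwa [e] at h2
      have hP' : M.IsP (fun x => fa h SA a x + t * SA.indicator 1 x) (p (a + t)) := by
        have h2 := B.isP (a + t)
        have e : fa h SA (a + t) = fun x => fa h SA a x + t * SA.indicator 1 x := by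
          funext x
          unfold fa
          ring
        rwa [e] at h2
      have h2 := CG.den_up hF (measurable_one.indicator B.SA_meas) (ind_nonneg SA) ht hF'
        (B.isP a) hP' (half_pos hη)
      have h3 := dens_oth B hφ hC1 hε hK hgrow ha (half_pos hη)
      filter_upwards [h2, h3] with L h2 h3
      have h4 : M.ST L (fa h SA a) ((insert M.e0 SB)ᶜ.indicator 1) ≤
          M.ST L (fa h SA a) (SA.indicator 1) +
            M.ST L (fa h SA a) ((Oth M SA SB).indicator 1) := by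
        rw [← CG.ST_add L hF (measurable_one.indicator B.SA_meas) (ind_nonneg SA)
          (ind_nonneg _)]
        refine CG.ST_mono L _ fun x => ?_
        by_cases hx : x ∈ insert M.e0 SB
        · rw [Set.indicator_of_notMem (Set.notMem_compl_iff.2 hx)]
          exact add_nonneg (ind_nonneg _ _) (ind_nonneg _ _)
        · by_cases hxA : x ∈ SA
          · rw [Set.indicator_of_mem (Set.mem_compl hx), Set.indicator_of_mem hxA]
            have := ind_nonneg (Oth M SA SB) x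
            linarith
          · have hxO : x ∈ Oth M SA SB := by
              intro h5
              rcases h5 with (h5 | h5) | h5
              · exact hxA h5
              · exact hx (Set.mem_insert_of_mem _ h5)
              · exact hx (by rw [Set.mem_singleton_iff.1 h5]; exact Set.mem_insert _ _)
            rw [Set.indicator_of_mem (Set.mem_compl hx), Set.indicator_of_mem hxO]
            have := ind_nonneg SA x
            linarith
      refine h4.trans ((add_le_add h2 h3).trans ?_)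
      rw [← add_mul, ← ENNReal.ofReal_add (by positivity) (by positivity)]
      refine mul_le_mul' (ENNReal.ofReal_le_ofReal ?_) le_rfl
      rw [← add_mul]
      refine mul_le_mul_of_nonneg_right ?_ (by positivity)
      nlinarith
  have e : (2 : ℝ) * Real.log 2 = Real.log 2 + Real.log 2 := by ring
  rw [e]
  exact h1

/-- The gluing inequalities for the phase `A`. -/
theorem glue_A (hd : 1 ≤ d) {φ c2 C1 : ℝ} (hφ : 0 < φ) (hC1 : 0 < C1) {M : CG d E}
    {SA SB : Set E} {h : E → ℝ} {p : ℝ → ℝ} {ε μ : ℝ} {k : ℕ}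
    {eb : Finset (Zd d) → (Zd d → E) → Zd d → ℝ} (B : Blk M SA SB h p φ c2 C1 ε μ k eb)
    (hε : 0 ≤ ε) (hK : ∫⁻ x, ex (h x) ∂M.π ≤ ex (3 / 2 * μ))
    (hgrow : ∀ a, 0 ≤ a → a ≤ μ → φ * a + (φ - ε) * μ ≤ p a)
    (hSH : ∀ a, M.SH (fa h SA a) (SA ∪ {M.e0}) (SA ∪ {M.e0}) (1 / 2)) :
    ∀ a t : ℝ, |a| ≤ μ / 2 → 0 < t →
      M.Gl SA (fa h SA a) (2 * μ) (φ + ε - (p a - p (a - t)) / t + 6 * 3 ^ d * C1 * ε)
        (2 * Real.log 2) (p a) := by
  intro a t ha ht
  have hμ := B.μ_pos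
  have hF := fld_fa B.fld B.SA_meas B.e0_A a
  have hq0 : 0 ≤ 3 ^ d * C1 * ε := by positivity
  set sl : ℝ := (p a - p (a - t)) / t with hsl
  have hP' : M.IsP (fun x => fa h SA a x - t * SA.indicator 1 x) (p (a - t)) := by
    have h2 := B.isP (a - t)
    have e : fa h SA (a - t) = fun x => fa h SA a x - t * SA.indicator 1 x := by
      funext x
      unfold fa
      ring
    rwa [e] at h2
  have hlo := fun η (hη : 0 < η) => CG.den_lo hF (measurable_one.indicator B.SA_meas)
    (ind_nonneg SA) (Set.indicator_of_notMem B.e0_A _) ht (B.isP a) hP' hη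
  -- the slope is at most `φ + ε`
  have hslope : sl ≤ φ + ε := by
    refine le_of_forall_pos_le_add fun η hη => ?_
    obtain ⟨L, h1, h2⟩ := ((hlo (η / 2) (half_pos hη)).and
      (dens_pack B hφ hε a (half_pos hη))).exists
    have h3 : ENNReal.ofReal ((sl - η / 2) * (2 * L + 1 : ℝ) ^ d) * M.ZT L (fa h SA a) ≤
        ENNReal.ofReal ((φ + ε + η / 2) * (2 * L + 1 : ℝ) ^ d) * M.ZT L (fa h SA a) :=
      h1.trans (le_self_add.trans h2)
    have h4 := (ENNReal.mul_le_mul_iff_left (lt_of_lt_of_le one_pos (M.one_le_ZT L hF)).ne'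
      (M.ZT_ne_top L hF)).1 h3
    rw [ENNReal.ofReal_le_ofReal_iff (by positivity)] at h4
    have h5 := le_of_mul_le_mul_right h4 (by positivity)
    linarith
  refine CG.Gl.of_add fun η hη => ?_
  have h1 : M.Gl SA (fa h SA a) (2 * μ) (φ + ε - sl + 6 * 3 ^ d * C1 * ε + η)
      (Real.log 2 + Real.log 2) (p a) := by
    have hs := hSH a
    rw [half_eq, Set.union_singleton] at hs
    refine M.gl_of_sh hd B.SA_meas hF (B.isP a) (Real.log_nonneg one_le_two) hs ?_ ?_ ?_
    · refine (lint_fa B.fld hK).trans (ex_le_ex.2 ?_)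
      linarith
    · nlinarith
    · have hη4 : 0 < η / 4 := by positivity
      have h2 := hlo (η / 4) hη4
      have h3 := dens_oth B hφ hC1 hε hK hgrow ha hη4
      have h5 := dens_pack B hφ hε a hη4
      filter_upwards [h2, h3, h5] with L h2 h3 h5
      have h4 : M.ST L (fa h SA a) ((insert M.e0 SA)ᶜ.indicator 1) ≤
          M.ST L (fa h SA a) (SB.indicator 1) +
            M.ST L (fa h SA a) ((Oth M SA SB).indicator 1) := by
        rw [← CG.ST_add L hF (measurable_one.indicator B.SB_meas) (ind_nonneg SB)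
          (ind_nonneg _)]
        refine CG.ST_mono L _ fun x => ?_
        by_cases hx : x ∈ insert M.e0 SA
        · rw [Set.indicator_of_notMem (Set.notMem_compl_iff.2 hx)]
          exact add_nonneg (ind_nonneg _ _) (ind_nonneg _ _)
        · by_cases hxB : x ∈ SB
          · rw [Set.indicator_of_mem (Set.mem_compl hx), Set.indicator_of_mem hxB]
            have := ind_nonneg (Oth M SA SB) x
            linarith
          · have hxO : x ∈ Oth M SA SB := by
              intro h5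
              rcases h5 with (h5 | h5) | h5
              · exact hx (Set.mem_insert_of_mem _ h5)
              · exact hxB h5
              · exact hx (by rw [Set.mem_singleton_iff.1 h5]; exact Set.mem_insert _ _)
            rw [Set.indicator_of_mem (Set.mem_compl hx), Set.indicator_of_mem hxO]
            have := ind_nonneg SB x
            linarith
      set V : ℝ := (2 * L + 1 : ℝ) ^ d with hV
      have hV0 : 0 < V := by positivity
      -- the density of the phase `B`
      have h6 : M.ST L (fa h SA a) (SB.indicator 1) ≤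
          ENNReal.ofReal ((φ + ε - sl + η / 2) * V) * M.ZT L (fa h SA a) := by
        have h7 : ENNReal.ofReal ((sl - η / 4) * V) * M.ZT L (fa h SA a) +
            M.ST L (fa h SA a) (SB.indicator 1) ≤
            ENNReal.ofReal ((φ + ε + η / 4) * V) * M.ZT L (fa h SA a) :=
          (add_le_add h2 le_rfl).trans h5
        have h8 : ENNReal.ofReal ((φ + ε + η / 4) * V) * M.ZT L (fa h SA a) ≤
            ENNReal.ofReal ((sl - η / 4) * V) * M.ZT L (fa h SA a) +
            ENNReal.ofReal ((φ + ε - sl + η / 2) * V) * M.ZT L (fa h SA a) := by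
          rw [← add_mul]
          refine mul_le_mul' ?_ le_rfl
          refine le_trans (ENNReal.ofReal_le_ofReal (le_of_eq ?_)) ENNReal.ofReal_add_le
          ring
        exact (ENNReal.add_le_add_iff_left (ENNReal.mul_ne_top ENNReal.ofReal_ne_top
          (M.ZT_ne_top L hF))).1 (h7.trans h8)
      refine h4.trans ((add_le_add h6 h3).trans ?_)
      rw [← add_mul, ← ENNReal.ofReal_add (mul_nonneg (by linarith) hV0.le) (by positivity)]
      refine mul_le_mul' (ENNReal.ofReal_le_ofReal ?_) le_rfl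
      rw [← add_mul]
      refine mul_le_mul_of_nonneg_right ?_ hV0.le
      nlinarith
  have e : (2 : ℝ) * Real.log 2 = Real.log 2 + Real.log 2 := by ring
  rw [e]
  exact h1

end

end Pool.Agent.RC
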