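import Pool.Agent.Lib.MP_09cbbd_rc.CGT
import Pool.Agent.Lib.MP_09cbbd_mix.TorP

/-!
# The pressure of the gas on cells
-/

set_option autoImplicit false

namespace Pool.Agent.RC

open MeasureTheory Finset Filter Topology Pool.Agent.StableGas Pool.Agent.SquareWell
open Pool.Agent.Kac (Tor cst)
open Pool.Agent.Mix (Qr mem_Qr P1b.mem_bx P1b.card_bx P1b.lim_exists)
open Pool.Agent.Mix

namespace CG

variable {d : ℕ} {E : Type} [MeasurableSpace E] {M : CG d E}

/-- Interpolation of the fields. -/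
theorem wG_interp (M : CG d E) {Γ : Type} [AddCommGroup Γ] (φ : Zd d → Γ) {h h' : Γ → E → ℝ}
    {A : Finset Γ} {ω : Γ → E} {s t : ℝ} (hs : 0 ≤ s) (ht : 0 ≤ t) (hst : s + t = 1) :
    M.wG φ (fun i x => s * h i x + t * h' i x) A ω = M.wG φ h A ω ^ s * M.wG φ h' A ω ^ t := by
  by_cases hc : M.cp φ A ω
  · rw [M.wG_of_cp φ hc, M.wG_of_cp φ hc, M.wG_of_cp φ hc, ← ENNReal.prod_rpow_of_nonneg hs,
      ← ENNReal.prod_rpow_of_nonneg ht, ← prod_mul_distrib]
    refine prod_congr rfl fun i _ => ?_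
    rw [ex_rpow, ex_rpow, ← ex_add]
    congr 1
    ring
  · rw [M.wG_of_not φ hc, M.wG_of_not φ hc, M.wG_of_not φ hc]
    rcases hs.lt_or_eq with h1 | h1
    · rw [ENNReal.zero_rpow_of_pos h1, zero_mul]
    · have h2 : t = 1 := by linarith
      rw [h2, ENNReal.rpow_one, mul_zero]

variable {h h' : E → ℝ}

theorem xi_mono_set (H : M.Fld h) {A B : Finset (Zd d)} (hAB : A ⊆ B) : M.xi h A ≤ M.xi h B := by
  classical
  have := M.fin_π
  have e1 : M.xi h B = lmarginal (fun _ : Zd d => M.π) A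
      (lmarginal (fun _ : Zd d => M.π) (B \ A) (M.w h B)) (fun _ => M.e0) := by
    unfold xi int
    rw [← lmarginal_union _ _ (M.measurable_w H.meas B) disjoint_sdiff, union_sdiff_of_subset hAB]
  rw [e1]
  refine M.int_mono A fun ω => ?_
  refine le_trans ?_ (M.le_lm (B \ A) (M.measurable_w H.meas B) ω)
  set ω' : Zd d → E := fun i => if i ∈ B \ A then M.e0 else ω i with hω'
  have hω1 : ∀ i ∈ A, ω' i = ω i := fun i hi => by simp [hω', hi]
  have hω2 : ∀ i ∈ B, i ∉ A → ω' i = M.e0 := fun i hi hA => by simp [hω', hi, hA]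
  rw [← M.w_dep h A _ _ hω1]
  by_cases hc : M.cp id A ω'
  · have hcB : M.cp id B ω' := by
      intro v hv hv0 i hi hiv
      by_cases h1 : i ∈ A
      · by_cases h2 : i + id v ∈ A
        · exact hc v hv hv0 i h1 h2
        · rw [hω2 _ hiv h2]
          exact M.okc_e0' _ _
      · rw [hω2 _ hi h1]
        exact M.okc_e0 _ _
    rw [M.w_of_cp hc, M.w_of_cp hcB]
    refine le_of_eq (prod_subset hAB fun i hi hA => ?_)
    rw [hω2 i hi hA, H.e0, ex_zero]
  · rw [M.w_of_not hc]
    exact zero_le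

/-- Submultiplicativity. -/
theorem xi_union_le (H : M.Fld h) {A B : Finset (Zd d)} (hAB : Disjoint A B) :
    M.xi h (A ∪ B) ≤ M.xi h A * M.xi h B := by
  unfold xi
  rw [← M.int_mul hAB (M.measurable_w H.meas A) (M.measurable_w H.meas B) (M.w_dep h A) (M.w_dep h B)]
  exact M.int_mono _ fun ω => M.wG_union_le id _ hAB ω

/-- Superadditivity. -/
theorem xi_union (H : M.Fld h) {A B : Finset (Zd d)} (hAB : Disjoint A B)
    (hs : ∀ i ∈ A, ∀ j ∈ B, j - i ∉ Qr d M.r) : M.xi h A * M.xi h B ≤ M.xi h (A ∪ B) := by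
  classical
  unfold xi
  rw [← M.int_mul hAB (M.measurable_w H.meas A) (M.measurable_w H.meas B) (M.w_dep h A) (M.w_dep h B)]
  refine M.int_mono _ fun ω => ?_
  by_cases hA : M.cp id A ω
  · by_cases hB : M.cp id B ω
    · have hc : M.cp id (A ∪ B) ω := by
        intro v hv hv0 i hi hj
        rw [mem_union] at hi hj
        rcases hi with hi | hi <;> rcases hj with hj | hj
        · exact hA v hv hv0 i hi hj
        · exact absurd hv (by
            have h := hs i hi _ hj
            simpa using h)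
        · exact absurd hv (by
            have h := hs _ hj i hi
            have e : i - (i + id v) = -v := by simp
            rw [e] at h
            rwa [Bas.Qr_neg] at h)
        · exact hB v hv hv0 i hi hj
      rw [M.w_of_cp hA, M.w_of_cp hB, M.w_of_cp hc, prod_union hAB]
    · rw [M.w_of_not hB, mul_zero]
      exact zero_le
  · rw [M.w_of_not hA, zero_mul]
    exact zero_le

theorem w_shift (h : E → ℝ) (A : Finset (Zd d)) (u : Zd d) (ω : Zd d → E) :
    M.w h (A.image fun i => i + u) ω =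
      M.w h A fun i => ω (i + u) := by
  classical
  have hinj : Function.Injective fun i : Zd d => i + u := add_left_injective u
  have hcp : M.cp id (A.image fun i => i + u) ω ↔ M.cp id A fun i => ω (i + u) := by
    constructor
    · intro h v hv hv0 i hi hj
      have h1 := h v hv hv0 (i + u) (mem_image_of_mem _ hi) (by
        have e : i + u + id v = (i + id v) + u := by abel
        rw [e]
        exact mem_image_of_mem _ hj)
      have e : i + u + id v = (i + id v) + u := by abel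
      rwa [e] at h1
    · intro h v hv hv0 i hi hj
      obtain ⟨k, hk, rfl⟩ := mem_image.1 hi
      obtain ⟨l, hl, hle⟩ := mem_image.1 hj
      have e : l = k + id v := by
        have h1 : l + u = (k + id v) + u := by
          rw [hle]
          abel
        exact add_right_cancel h1
      have h1 := h v hv hv0 k hk (by rw [← e]; exact hl)
      have e2 : k + u + id v = (k + id v) + u := by abel
      rw [e2]
      exact h1
  by_cases hc : M.cp id A fun i => ω (i + u)
  · rw [M.w_of_cp hc, M.w_of_cp (hcp.2 hc), prod_image fun i _ j _ h => hinj h]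
  · rw [M.w_of_not hc, M.w_of_not fun h' => hc (hcp.1 h')]

theorem xi_shift (H : M.Fld h) (A : Finset (Zd d)) (u : Zd d) :
    M.xi h (A.image fun i => i + u) = M.xi h A := by
  classical
  have := M.fin_π
  have hinj : Function.Injective fun i : Zd d => i + u := add_left_injective u
  have h1 := lmarginal_image (μ := fun _ : Zd d => M.π) (X := fun _ => E) hinj A
    (M.measurable_w H.meas A) (fun _ => M.e0)
  unfold xi int
  refine Eq.trans ?_ h1
  congr 1
  funext ω
  exact w_shift h A u ω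

theorem xi_biUnion (H : M.Fld h) {ι : Type} [DecidableEq ι] (T : Finset ι)
    (B : ι → Finset (Zd d))
    (hs : ∀ u ∈ T, ∀ u' ∈ T, u ≠ u' → ∀ i ∈ B u, ∀ j ∈ B u', j - i ∉ Qr d M.r) :
    ∏ u ∈ T, M.xi h (B u) ≤ M.xi h (T.biUnion B) := by
  classical
  induction T using Finset.induction_on with
  | empty => rw [prod_empty]; exact M.one_le_xi H _
  | insert a T ha ih =>
    rw [prod_insert ha, biUnion_insert]
    refine (mul_le_mul' le_rfl (ih fun u hu u' hu' => hs u (mem_insert_of_mem hu) u'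
      (mem_insert_of_mem hu'))).trans ?_
    have hsep : ∀ i ∈ B a, ∀ j ∈ T.biUnion B, j - i ∉ Qr d M.r := by
      intro i hi j hj
      obtain ⟨u, hu, hju⟩ := mem_biUnion.1 hj
      exact hs a (mem_insert_self a T) u (mem_insert_of_mem hu) (fun h => ha (h ▸ hu)) i hi j hju
    refine xi_union H ?_ hsep
    rw [disjoint_left]
    intro i hi hj
    refine hsep i hi i hj ?_
    rw [sub_self]
    exact Bas.zero_mem_Qr _

theorem xi_box (H : M.Fld h) (k L : ℕ) :
    M.xi h (bx d L) ^ (k ^ d) ≤ M.xi h (bx d (k * (L + M.r))) := by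
  classical
  set B : Zd d → Finset (Zd d) := fun u => (bx d L).image fun i => i + ((L : ℤ) + M.r) • u with hB
  have hmem : ∀ u i, i ∈ B u → ∀ q, (L + M.r) * u q ≤ i q ∧ i q < (L + M.r) * u q + L := by
    intro u i hi q
    obtain ⟨j, hj, rfl⟩ := mem_image.1 hi
    have := P1b.mem_bx.1 hj q
    simp only [Pi.add_apply, Pi.smul_apply, smul_eq_mul]
    constructor <;> linarith [this.1, this.2]
  have h1 := xi_biUnion H (bx d k) B (by
    intro u _ u' _ huu i hi j hj hij
    apply huu
    funext q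
    have h2 := hmem u i hi q
    have h3 := hmem u' j hj q
    have h4 := abs_le.1 (mem_Qr.1 hij q)
    simp only [Pi.sub_apply] at h4
    rcases lt_trichotomy (u q) (u' q) with h | h | h
    · exfalso
      have h5 : ((L : ℤ) + M.r) * (u q + 1) ≤ (L + M.r) * u' q :=
        mul_le_mul_of_nonneg_left (by omega) (by positivity)
      linarith [h4.1, h4.2, h2.1, h2.2, h3.1, h3.2]
    · exact h
    · exfalso
      have h5 : ((L : ℤ) + M.r) * (u' q + 1) ≤ (L + M.r) * u q :=
        mul_le_mul_of_nonneg_left (by omega) (by positivity)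
      linarith [h4.1, h4.2, h2.1, h2.2, h3.1, h3.2])
  have h2 : ∏ u ∈ bx d k, M.xi h (B u) = M.xi h (bx d L) ^ (k ^ d) := by
    rw [prod_congr rfl fun u _ => xi_shift H (bx d L) (((L : ℤ) + M.r) • u), prod_const,
      P1b.card_bx]
  rw [← h2]
  refine h1.trans (xi_mono_set H ?_)
  intro i hi
  obtain ⟨u, hu, hiu⟩ := mem_biUnion.1 hi
  rw [P1b.mem_bx] at hu ⊢
  intro q
  have h3 := hmem u i hiu q
  have h4 := hu q
  push_cast
  constructor
  · have : (0 : ℤ) ≤ (L + M.r) * u q := mul_nonneg (by positivity) h4.1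
    linarith
  · have h5 : ((L : ℤ) + M.r) * (u q + 1) ≤ (L + M.r) * k :=
      mul_le_mul_of_nonneg_left (by omega) (by positivity)
    linarith

theorem log_xi_le (H : M.Fld h) (A : Finset (Zd d)) : Real.log (M.xi h A).toReal ≤
    Real.log (∫⁻ x, ex (h x) ∂M.π).toReal * A.card := by
  have h1 := ENNReal.toReal_mono (ENNReal.pow_ne_top H.fin) (M.xi_le H A)
  rw [ENNReal.toReal_pow] at h1
  have h2 := Real.log_le_log (M.xi_pos H A) h1
  rw [Real.log_pow] at h2
  linarith

/-- The pressure exists. -/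
theorem exists_isP (hd : 1 ≤ d) (H : M.Fld h) : ∃ p, M.IsP h p := by
  refine P1b.lim_exists hd (r := M.r + 1) (by omega) _ (fun L => M.log_xi_nonneg H _)
    (fun L L' hL => ?_) (fun k L => ?_) (Real.log (∫⁻ x, ex (h x) ∂M.π).toReal) (fun L => ?_)
  · refine Real.log_le_log (M.xi_pos H _) (ENNReal.toReal_mono (M.xi_ne_top H _)
      (xi_mono_set H fun i hi => ?_))
    rw [P1b.mem_bx] at hi ⊢
    intro k
    have := hi k
    constructor <;> omega
  · have h1 := ENNReal.toReal_mono (M.xi_ne_top H _) ((xi_box H k L).trans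
      (xi_mono_set H (B := bx d (k * (L + (M.r + 1)))) fun i hi => by
        rw [P1b.mem_bx] at hi ⊢
        intro q
        have h3 : k * (L + M.r) ≤ k * (L + (M.r + 1)) := Nat.mul_le_mul_left k (by omega)
        have h4 := hi q
        constructor <;> omega))
    rw [ENNReal.toReal_pow] at h1
    have h2 := Real.log_le_log (pow_pos (M.xi_pos H _) _) h1
    rw [Real.log_pow] at h2
    push_cast at h2
    exact h2
  · have h1 := log_xi_le H (bx d L)
    rw [P1b.card_bx] at h1
    push_cast at h1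
    exact h1

variable (M) in
/-- The pressure. -/
noncomputable def prs (h : E → ℝ) : ℝ := by
  classical exact if H : ∃ p, M.IsP h p then H.choose else 0

theorem isP_prs (hd : 1 ≤ d) (H : M.Fld h) : M.IsP h (M.prs h) := by
  classical
  have h1 := exists_isP hd H
  unfold prs
  rw [dif_pos h1]
  exact h1.choose_spec

theorem IsP.uniq {p p' : ℝ} (hp : M.IsP h p) (hp' : M.IsP h p') : p = p' :=
  tendsto_nhds_unique hp hp'

theorem IsP.eq_prs (hd : 1 ≤ d) (H : M.Fld h) {p : ℝ} (hp : M.IsP h p) : M.prs h = p :=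
  (isP_prs hd H).uniq hp

theorem prs_nonneg (hd : 1 ≤ d) (H : M.Fld h) : 0 ≤ M.prs h :=
  ge_of_tendsto' (isP_prs hd H) fun _ => div_nonneg (M.log_xi_nonneg H _) (by positivity)

/-- Upper bound by the mass of a cell. -/
theorem prs_le (hd : 1 ≤ d) (H : M.Fld h) : M.prs h ≤ Real.log (∫⁻ x, ex (h x) ∂M.π).toReal := by
  refine le_of_tendsto (isP_prs hd H) ?_
  filter_upwards [eventually_ge_atTop 1] with L hL
  have hL' : (0 : ℝ) < L := by exact_mod_cast hL
  have h1 := log_xi_le H (bx d L)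
  rw [P1b.card_bx] at h1
  rw [div_le_iff₀ (by positivity)]
  push_cast at h1
  exact h1

/-- Lower bound by the partition function of a box. -/
theorem le_prs (hd : 1 ≤ d) (H : M.Fld h) (L : ℕ) :
    Real.log (M.xi h (bx d L)).toReal ≤ M.prs h * ((L : ℝ) + M.r) ^ d := by
  rcases Nat.eq_zero_or_pos (L + M.r) with h0 | h0
  · have h1 := log_xi_le H (bx d L)
    rw [P1b.card_bx, show L = 0 by omega, zero_pow (by omega)] at h1
    have h2 : 0 ≤ M.prs h * (((0 : ℕ) : ℝ) + M.r) ^ d := mul_nonneg (prs_nonneg hd H) (by positivity)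
    rw [show L = 0 by omega]
    simpa using h1.trans (by simpa using h2)
  have hpos : (0 : ℝ) < ((L : ℝ) + M.r) ^ d := by
    have : (0 : ℝ) < (L : ℝ) + M.r := by exact_mod_cast h0
    positivity
  rw [← div_le_iff₀ hpos]
  have hk : Tendsto (fun k : ℕ => k * (L + M.r)) atTop atTop :=
    tendsto_id.atTop_mul_const' (by omega)
  refine ge_of_tendsto ((isP_prs hd H).comp hk) ?_
  filter_upwards [eventually_ge_atTop 1] with k hk1
  have hk' : (0 : ℝ) < k := by exact_mod_cast hk1
  simp only [Function.comp]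
  have h1 := ENNReal.toReal_mono (M.xi_ne_top H _) (xi_box H k L)
  rw [ENNReal.toReal_pow] at h1
  have h2 := Real.log_le_log (pow_pos (M.xi_pos H _) _) h1
  rw [Real.log_pow] at h2
  push_cast at h2
  rw [div_le_div_iff₀ hpos (by positivity)]
  push_cast
  calc Real.log (M.xi h (bx d L)).toReal * ((k : ℝ) * ((L : ℝ) + M.r)) ^ d
      = ((k : ℝ) ^ d * Real.log (M.xi h (bx d L)).toReal) * ((L : ℝ) + M.r) ^ d := by
        rw [mul_pow]
        ring
    _ ≤ _ := mul_le_mul_of_nonneg_right h2 hpos.le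

/-- Interpolation. -/
theorem xi_interp (H : M.Fld h) (H' : M.Fld h') (A : Finset (Zd d)) {s t : ℝ} (hs : 0 ≤ s)
    (ht : 0 ≤ t) (hst : s + t = 1) :
    M.xi (fun x => s * h x + t * h' x) A ≤ M.xi h A ^ s * M.xi h' A ^ t := by
  have := M.fin_π
  have hm := fun {h : E → ℝ} (H : M.Fld h) => (M.measurable_w H.meas A).comp
    (measurable_updateFinset (x := fun _ => M.e0) (s := A))
  have h1 := ENNReal.lintegral_mul_norm_pow_le (μ := Measure.pi fun _ : A => M.π)
      (hm H).aemeasurable (hm H').aemeasurable hs ht hst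
  refine le_trans (le_of_eq ?_) h1
  unfold xi int lmarginal
  exact lintegral_congr fun z => M.wG_interp id hs ht hst

theorem Fld.interp (H : M.Fld h) (H' : M.Fld h') {s t : ℝ} (hs : 0 ≤ s)
    (ht : 0 ≤ t) (hst : s + t = 1) : M.Fld (fun x => s * h x + t * h' x) := by
  refine ⟨(H.meas.const_mul s).add (H'.meas.const_mul t), ?_, ?_⟩
  · show s * h M.e0 + t * h' M.e0 = 0
    rw [H.e0, H'.e0]
    ring
  · have h1 := ENNReal.lintegral_mul_norm_pow_le (μ := M.π)
      (H.ex_meas).aemeasurable (H'.ex_meas).aemeasurable hs ht hst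
    have h2 : ∫⁻ x, ex (s * h x + t * h' x) ∂M.π ≤
        (∫⁻ x, ex (h x) ∂M.π) ^ s * (∫⁻ x, ex (h' x) ∂M.π) ^ t := by
      refine le_trans (le_of_eq (lintegral_congr fun x => ?_)) h1
      rw [ex_rpow, ex_rpow, ← ex_add]
      congr 1
      ring
    exact ne_top_of_le_ne_top (ENNReal.mul_ne_top (ENNReal.rpow_ne_top_of_nonneg hs H.fin)
      (ENNReal.rpow_ne_top_of_nonneg ht H'.fin)) h2

theorem log_interp {x y z : ENNReal} (hx : 1 ≤ x) (hx' : x ≠ ⊤) (hy : 1 ≤ y) (hy' : y ≠ ⊤)
    (hz : 1 ≤ z) {s t : ℝ} (hs : 0 ≤ s) (ht : 0 ≤ t)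
    (hle : z ≤ x ^ s * y ^ t) :
    Real.log z.toReal ≤ s * Real.log x.toReal + t * Real.log y.toReal := by
  have hx0 : 0 < x.toReal := ENNReal.toReal_pos (lt_of_lt_of_le one_pos hx).ne' hx'
  have hy0 : 0 < y.toReal := ENNReal.toReal_pos (lt_of_lt_of_le one_pos hy).ne' hy'
  have hne : x ^ s * y ^ t ≠ ⊤ := ENNReal.mul_ne_top
    (ENNReal.rpow_ne_top_of_nonneg hs hx') (ENNReal.rpow_ne_top_of_nonneg ht hy')
  have hz' : z ≠ ⊤ := ne_top_of_le_ne_top hne hle
  have hz0 : 0 < z.toReal := ENNReal.toReal_pos (lt_of_lt_of_le one_pos hz).ne' hz'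
  have h1 := ENNReal.toReal_mono hne hle
  rw [ENNReal.toReal_mul, ← ENNReal.toReal_rpow, ← ENNReal.toReal_rpow] at h1
  have h2 := Real.log_le_log hz0 h1
  rwa [Real.log_mul (Real.rpow_pos_of_pos hx0 s).ne' (Real.rpow_pos_of_pos hy0 t).ne',
    Real.log_rpow hx0, Real.log_rpow hy0] at h2

/-- Convexity of the pressure. -/
theorem prs_convex (hd : 1 ≤ d) (H : M.Fld h) (H' : M.Fld h') {s t : ℝ} (hs : 0 ≤ s)
    (ht : 0 ≤ t) (hst : s + t = 1) :
    M.prs (fun x => s * h x + t * h' x) ≤ s * M.prs h + t * M.prs h' := by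
  have H2 := H.interp H' hs ht hst
  have h1 := ((isP_prs hd H).const_mul s).add ((isP_prs hd H').const_mul t)
  refine le_of_tendsto_of_tendsto (isP_prs hd H2) h1 ?_
  filter_upwards [eventually_ge_atTop 1] with L hL
  have hL' : (0 : ℝ) < L := by exact_mod_cast hL
  have h2 := log_interp (M.one_le_xi H (bx d L)) (M.xi_ne_top H _) (M.one_le_xi H' (bx d L))
    (M.xi_ne_top H' _) (M.one_le_xi H2 (bx d L)) hs ht (xi_interp H H' (bx d L) hs ht hst)
  have h3 : (0 : ℝ) < (L : ℝ) ^ d := by positivity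
  rw [← mul_div_assoc, ← mul_div_assoc, ← add_div]
  exact div_le_div_of_nonneg_right h2 h3.le

theorem xi_mono_fld (A : Finset (Zd d)) (hh : ∀ x, h x ≤ h' x) :
    M.xi h A ≤ M.xi h' A := M.int_mono A fun ω => M.wG_mono id (fun _ _ => hh) ω

theorem prs_mono (hd : 1 ≤ d) (H : M.Fld h) (H' : M.Fld h') (hh : ∀ x, h x ≤ h' x) :
    M.prs h ≤ M.prs h' := by
  refine le_of_tendsto_of_tendsto' (isP_prs hd H) (isP_prs hd H') fun L => ?_
  refine div_le_div_of_nonneg_right (Real.log_le_log (M.xi_pos H _) ?_) (by positivity)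
  exact ENNReal.toReal_mono (M.xi_ne_top H' _) (xi_mono_fld _ hh)


/-! ### The torus -/

theorem ZT_interp (H : M.Fld h) (H' : M.Fld h') (L : ℕ) {s t : ℝ} (hs : 0 ≤ s)
    (ht : 0 ≤ t) (hst : s + t = 1) :
    M.ZT L (fun x => s * h x + t * h' x) ≤ M.ZT L h ^ s * M.ZT L h' ^ t := by
  have := M.fin_π
  have h1 := ENNReal.lintegral_mul_norm_pow_le (μ := Measure.pi fun _ : Tor d L => M.π)
      (M.measurable_wG (cst L) (h := fun _ => h) (fun _ => H.meas) univ).aemeasurable
      (M.measurable_wG (cst L) (h := fun _ => h') (fun _ => H'.meas) univ).aemeasurable hs ht hst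
  refine le_trans (le_of_eq ?_) h1
  unfold ZT
  exact lintegral_congr fun z => M.wG_interp (cst L) hs ht hst

theorem log_ZT_convex (H : M.Fld h) (H' : M.Fld h') (L : ℕ) {s t : ℝ} (hs : 0 ≤ s)
    (ht : 0 ≤ t) (hst : s + t = 1) :
    Real.log (M.ZT L (fun x => s * h x + t * h' x)).toReal ≤
      s * Real.log (M.ZT L h).toReal + t * Real.log (M.ZT L h').toReal :=
  log_interp (M.one_le_ZT L H) (M.ZT_ne_top L H) (M.one_le_ZT L H') (M.ZT_ne_top L H')
    (M.one_le_ZT L (H.interp H' hs ht hst)) hs ht (ZT_interp H H' L hs ht hst)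

end CG

end Pool.Agent.RC
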