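import Pool.Agent.Lib.MP_09cbbd_rc.PCell
import Pool.Agent.Lib.MP_09cbbd_rc.Prs
import Pool.Agent.Lib.MP_09cbbd_vw.Blk

/-!
# The slopes of the pressure at `0` are not both in the middle
-/

set_option autoImplicit false

namespace Pool.Agent.RC

open MeasureTheory Finset Filter Topology Pool.Agent.StableGas
open Pool.Agent.SquareWell hiding Md cut
open Pool.Agent.Vdw (blk lift ball Lk Yk Wk Kc)
open Pool.Agent.Mix (Qr mem_Qr)

variable {d : ℕ} {E : Type} [MeasurableSpace E]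

omit [MeasurableSpace E] in
theorem Ph.fa_zero (h : E → ℝ) (S : Set E) : fa h S 0 = h := by
  funext x
  simp [fa]

theorem Ph.continuous_ex : Continuous ex := ENNReal.continuous_ofReal.comp Real.continuous_exp

theorem Ph.w_fa_le (M : CG d E) (h : E → ℝ) (SA : Set E) (a a' : ℝ) (X : Finset (Zd d))
    (ω : Zd d → E) :
    M.w (fa h SA a) X ω ≤ ex (|a - a'| * X.card) * M.w (fa h SA a') X ω := by
  by_cases hc : M.cp id X ω
  · rw [M.w_of_cp hc, M.w_of_cp hc, prod_ex, prod_ex, ← ex_add, ex_le_ex]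
    have h1 : ∀ i ∈ X, fa h SA a (ω i) ≤ |a - a'| + fa h SA a' (ω i) := by
      intro i _
      unfold fa
      by_cases hi : ω i ∈ SA
      · rw [Set.indicator_of_mem hi]
        simp only [Pi.one_apply, mul_one]
        linarith [le_abs_self (a - a')]
      · rw [Set.indicator_of_notMem hi]
        linarith [abs_nonneg (a - a')]
    have h2 := sum_le_sum h1
    rw [sum_add_distrib, sum_const, nsmul_eq_mul] at h2
    linarith
  · rw [M.w_of_not hc]
    exact zero_le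

theorem Ph.gl_mono {M : CG d E} {S : Set E} {h : E → ℝ} {K ρ ρ' C P : ℝ}
    (hG : M.Gl S h K ρ C P) (hK : 0 ≤ K) (hρ : ρ ≤ ρ') : M.Gl S h K ρ' C P := by
  intro X
  refine (hG X).trans (ex_le_ex.2 ?_)
  have h1 : K * ρ * (LO (2 * M.r) X).card ≤ K * ρ' * (LO (2 * M.r) X).card :=
    mul_le_mul_of_nonneg_right (mul_le_mul_of_nonneg_left hρ hK) (Nat.cast_nonneg _)
  linarith

/-- Limit of the gluing inequalities. -/
theorem Ph.gl_lim {M : CG d E} {SA S : Set E} {h : E → ℝ} {p : ℝ → ℝ} {K ρ C a0 : ℝ}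
    {l : Filter ℝ} [l.NeBot] (hl : l ≤ 𝓝 a0) (hp : Tendsto p l (𝓝 (p a0)))
    (hG : ∀ᶠ a in l, M.Gl S (fa h SA a) K ρ C (p a)) : M.Gl S (fa h SA a0) K ρ C (p a0) := by
  intro X
  have t1 : Tendsto (fun a : ℝ => ex (|a0 - a| * X.card + (X.card * p a +
      K * ρ * (LO (2 * M.r) X).card + K * (LI M.q X).card +
      C * ((LI (2 * M.r) X).card + (LO (2 * M.r) X).card)))) l
      (𝓝 (ex (|a0 - a0| * X.card + (X.card * p a0 +
      K * ρ * (LO (2 * M.r) X).card + K * (LI M.q X).card +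
      C * ((LI (2 * M.r) X).card + (LO (2 * M.r) X).card))))) := by
    refine (Ph.continuous_ex.tendsto _).comp ?_
    have ha : Tendsto (fun a : ℝ => a) l (𝓝 a0) := hl
    refine Tendsto.add ?_ ?_
    · exact ((tendsto_const_nhds.sub ha).abs).mul_const _
    · exact (((hp.const_mul _).add_const _).add_const _).add_const _
  rw [sub_self, abs_zero, zero_mul, zero_add] at t1
  refine ge_of_tendsto t1 ?_
  filter_upwards [hG] with a ha
  have h1 := ha X
  have h2 : M.int X (fun ω => M.w (fa h SA a0) X ω *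
      ex (-(K * M.un S X (LI (2 * M.r) X) ω))) ≤
      ex (|a0 - a| * X.card) * M.int X (fun ω => M.w (fa h SA a) X ω *
      ex (-(K * M.un S X (LI (2 * M.r) X) ω))) := by
    have e : ex (|a0 - a| * X.card) * M.int X (fun ω => M.w (fa h SA a) X ω *
      ex (-(K * M.un S X (LI (2 * M.r) X) ω))) = M.int X (fun ω => ex (|a0 - a| * X.card) *
        (M.w (fa h SA a) X ω * ex (-(K * M.un S X (LI (2 * M.r) X) ω)))) :=
      (lintegral_const_mul' _ _ (ex_ne_top _)).symm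
    rw [e]
    refine M.int_mono X fun ω => ?_
    rw [← mul_assoc]
    exact mul_le_mul' (Ph.w_fa_le M h SA a0 a X ω) le_rfl
  refine h2.trans ?_
  rw [ex_add]
  exact mul_le_mul' le_rfl h1

/-- Upper bound of the pressure at `0`. -/
theorem Ph.p_zero_le {M : CG d E} {SA SB : Set E} {h : E → ℝ} {p : ℝ → ℝ} {φ c2 C1 ε μ : ℝ}
    {k : ℕ} {eb : Finset (Zd d) → (Zd d → E) → Zd d → ℝ}
    (B : Blk M SA SB h p φ c2 C1 ε μ k eb) : p 0 ≤ (φ + ε) * μ := by
  have hk : Tendsto (fun n : ℕ => k * n) atTop atTop :=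
    tendsto_id.const_mul_atTop' B.k_pos
  have h0 := B.isP 0
  rw [Ph.fa_zero] at h0
  refine le_of_tendsto (h0.comp hk) ?_
  filter_upwards [eventually_ge_atTop 1] with n hn
  have hn' : (0 : ℝ) < n := by exact_mod_cast hn
  have hk' : (0 : ℝ) < k := by exact_mod_cast B.k_pos
  simp only [Function.comp]
  have hpos : (0 : ℝ) < (((k * n : ℕ) : ℝ)) ^ d := by
    push_cast
    positivity
  rw [div_le_iff₀ hpos]
  have h1 : M.xi h (bx d (k * n)) ≤ ex ((φ + ε) * μ * (k : ℝ) ^ d * (bx d n).card) := by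
    rw [← Vdw.lift_bx]
    refine le_trans ?_ (B.cr (bx d n))
    refine M.int_mono _ fun ω => ?_
    refine le_mul_of_one_le_right' ?_
    rw [← ex_zero, ex_le_ex]
    have := sum_nonneg fun q (_ : q ∈ bx d n) => B.eb_nonneg (bx d n) ω q
    have hμ := B.μ_pos
    positivity
  have h2 := ENNReal.toReal_mono (ex_ne_top _) h1
  rw [ex_toReal] at h2
  have h3 := Real.log_le_log (M.xi_pos B.fld _) h2
  rw [Real.log_exp, Mix.P1b.card_bx] at h3
  refine h3.trans (le_of_eq ?_)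
  push_cast
  rw [mul_pow]
  ring

/-- A slope of a function which grows on both sides. -/
theorem Ph.exists_sub {p : ℝ → ℝ} (hp : Continuous p) {x B φ : ℝ} (hx : 0 < x) (hxφ : x < φ)
    (lo : ∀ a, B ≤ p a) (gr : ∀ a, 0 ≤ a → φ * a + B ≤ p a) : ∃ a, Sub p a x := by
  obtain ⟨a, ha⟩ := Continuous.exists_forall_le (f := fun a => p a - a * x)
    (hp.sub (continuous_id.mul continuous_const)) (by
      have hc : 0 < min x (φ - x) := lt_min hx (by linarith)
      have t1 : Tendsto (fun a : ℝ => B + min x (φ - x) * ‖a‖) (cocompact ℝ) atTop :=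
        tendsto_atTop_add_const_left _ _ ((tendsto_norm_cocompact_atTop).const_mul_atTop hc)
      refine tendsto_atTop_mono (fun a => ?_) t1
      rw [Real.norm_eq_abs]
      rcases le_total 0 a with h | h
      · rw [abs_of_nonneg h]
        have h1 := gr a h
        have h2 : min x (φ - x) * a ≤ (φ - x) * a :=
          mul_le_mul_of_nonneg_right (min_le_right _ _) h
        linarith
      · rw [abs_of_nonpos h]
        have h1 := lo a
        have h2 : min x (φ - x) * -a ≤ x * -a :=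
          mul_le_mul_of_nonneg_right (min_le_left _ _) (by linarith)
        linarith)
  refine ⟨a, fun y => ?_⟩
  have h1 := ha y
  linarith

/-- The growth for `a ≥ 0` from the growth on `[0, μ]`. -/
theorem Ph.grow {p : ℝ → ℝ} (hp : ConvexOn ℝ Set.univ p) {φ ε μ : ℝ} (hμ : 0 < μ)
    (lo : ∀ a, (φ - ε) * μ ≤ p a) (p0 : p 0 ≤ (φ + ε) * μ)
    (gr : ∀ a, 0 ≤ a → a ≤ μ → φ * a + (φ - ε) * μ ≤ p a) :
    ∀ a, 0 ≤ a → (φ - 2 * ε) * a + (φ - ε) * μ ≤ p a := by
  intro a ha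
  have hε : 0 ≤ ε := by
    have h1 : 0 ≤ ε * μ := by linarith [lo 0]
    exact nonneg_of_mul_nonneg_left h1 hμ
  rcases le_total a μ with h | h
  · have h1 := gr a ha h
    have h2 : 0 ≤ ε * a := mul_nonneg hε ha
    linarith
  · have ha' : 0 < a := hμ.trans_le h
    have k2 := hp.2 (Set.mem_univ 0) (Set.mem_univ a)
      (show 0 ≤ (a - μ) / a from div_nonneg (by linarith) ha) (show 0 ≤ μ / a by positivity) (by
        rw [← add_div, sub_add_cancel, div_self ha'.ne'])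
    have e : ((a - μ) / a) • (0 : ℝ) + (μ / a) • a = μ := by
      simp only [smul_eq_mul]
      field_simp
      ring
    rw [e] at k2
    simp only [smul_eq_mul] at k2
    have k3 : a * p μ ≤ (a - μ) * p 0 + μ * p a := by
      have k4 := mul_le_mul_of_nonneg_left k2 ha
      have e2 : a * ((a - μ) / a * p 0 + μ / a * p a) = (a - μ) * p 0 + μ * p a := by
        field_simp
      rwa [e2] at k4
    have k5 : a * (φ * μ + (φ - ε) * μ) ≤ a * p μ := mul_le_mul_of_nonneg_left (gr μ hμ.le le_rfl) ha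
    have k6 : (a - μ) * p 0 ≤ (a - μ) * ((φ + ε) * μ) :=
      mul_le_mul_of_nonneg_left p0 (by linarith)
    have k7 : μ * ((φ - 2 * ε) * a + (φ - ε) * μ) ≤ μ * p a := by
      have k8 : 0 ≤ μ * (ε * μ) := by positivity
      nlinarith
    exact le_of_mul_le_mul_left k7 hμ

/-- ROW PH, from ROW NG. -/
theorem phases_of {φ c2 C1 : ℝ} (hφ : 0 < φ) (hφ1 : φ ≤ 1) {st : ℕ} (rn : ℕ)
    (hNG : ∃ δ0 : ℝ, 0 < δ0 ∧ ∀ δ, 0 < δ → δ ≤ δ0 → ∃ ε0 : ℝ, 0 < ε0 ∧ ∃ k0 : ℕ,
      ∀ k : ℕ, k0 ≤ k → ∀ C : ℝ, 0 ≤ C → ∃ μ0 : ℝ,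
      ∀ (E : Type) (_ : MeasurableSpace E) (M : CG d E) (SA SB : Set E) (h : E → ℝ)
      (p : ℝ → ℝ) (ε μ : ℝ) (eb : Finset (Zd d) → (Zd d → E) → Zd d → ℝ),
      Blk M SA SB h p φ c2 C1 ε μ k eb → ε ≤ ε0 → μ0 ≤ μ → M.q ≤ rn → 2 * M.r ≤ st * k →
      ∀ a1 a2 : ℝ, a1 < a2 → |a1| ≤ ε0 * μ → |a2| ≤ ε0 * μ →
      Sub p a1 (δ * φ) → Sub p a2 ((1 - δ) * φ) →
      M.Gl SB (fa h SA a1) (2 * μ) (2 * δ) C (p a1) →
      M.Gl SA (fa h SA a2) (2 * μ) (2 * δ) C (p a2) → False) :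
    ∃ ε0 : ℝ, 0 < ε0 ∧ ∃ k0 : ℕ, ∀ k : ℕ, k0 ≤ k → ∀ C : ℝ, 0 ≤ C → ∃ μ0 : ℝ,
      ∀ (E : Type) (_ : MeasurableSpace E) (M : CG d E) (SA SB : Set E) (h : E → ℝ)
      (p : ℝ → ℝ) (ε μ : ℝ) (eb : Finset (Zd d) → (Zd d → E) → Zd d → ℝ),
      Blk M SA SB h p φ c2 C1 ε μ k eb → ε ≤ ε0 → μ0 ≤ μ → M.q ≤ rn → 2 * M.r ≤ st * k →
      ConvexOn ℝ Set.univ p → (∀ a, 0 ≤ a → a ≤ μ → φ * a + (φ - ε) * μ ≤ p a) →
      (∀ a t : ℝ, |a| ≤ μ / 2 → 0 < t →
        M.Gl SB (fa h SA a) (2 * μ) ((p (a + t) - p a) / t + ε0) C (p a)) →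
      (∀ a t : ℝ, |a| ≤ μ / 2 → 0 < t →
        M.Gl SA (fa h SA a) (2 * μ) (φ - (p a - p (a - t)) / t + ε0) C (p a)) →
      (∀ t, 0 ≤ t → p 0 - t * (φ / 8) ≤ p (-t)) ∨ (∀ t, 0 ≤ t → p 0 + t * (7 / 8 * φ) ≤ p t) := by
  obtain ⟨δ0, hδ0, hNG⟩ := hNG
  obtain ⟨δ, hδ, hδδ, hδ8⟩ : ∃ δ, 0 < δ ∧ δ ≤ δ0 ∧ δ ≤ 1 / 8 :=
    ⟨min δ0 (1 / 8), lt_min hδ0 (by norm_num), min_le_left _ _, min_le_right _ _⟩
  obtain ⟨ε1, hε1, k0, hNG⟩ := hNG δ hδ hδδ
  obtain ⟨c, hc, hc1, hc4⟩ : ∃ c, 0 < c ∧ c ≤ ε1 ∧ c ≤ 1 / 4 :=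
    ⟨min ε1 (1 / 4), lt_min hε1 (by norm_num), min_le_left _ _, min_le_right _ _⟩
  have hδφ : 0 < δ * φ := mul_pos hδ hφ
  obtain ⟨ε0, hε0, h0δ, h01, h0c⟩ : ∃ ε0, 0 < ε0 ∧ ε0 ≤ δ ∧ ε0 ≤ ε1 ∧ ε0 ≤ δ * φ * c / 4 :=
    ⟨min δ (min ε1 (δ * φ * c / 4)), lt_min hδ (lt_min hε1 (by positivity)), min_le_left _ _,
      (min_le_right _ _).trans (min_le_left _ _), (min_le_right _ _).trans (min_le_right _ _)⟩
  refine ⟨ε0, hε0, k0, fun k hk C hC => ?_⟩
  obtain ⟨μ0, hNG⟩ := hNG k hk C hC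
  refine ⟨μ0, fun E _ M SA SB h p ε μ eb B hε hμ hq hr hp gr gB gA => ?_⟩
  have hμ' := B.μ_pos
  have hcont : Continuous p := by
    rw [← continuousOn_univ]
    exact hp.continuousOn isOpen_univ
  have hx : δ * φ ≤ φ / 8 := by nlinarith
  have hxφ : δ * φ < φ := by nlinarith
  have hy0 : 0 < (1 - δ) * φ := mul_pos (by linarith) hφ
  have hyφ : (1 - δ) * φ < φ := by nlinarith
  have hy : 7 / 8 * φ ≤ (1 - δ) * φ := by nlinarith
  have p0 := Ph.p_zero_le B
  have hεc : ε ≤ δ * φ * c / 4 := hε.trans h0c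
  have hδc : δ * φ * c ≤ δ * φ * (1 / 4) := mul_le_mul_of_nonneg_left hc4 hδφ.le
  have hgap : δ * φ / 2 ≤ (φ - 2 * ε) - (1 - δ) * φ := by linarith
  have gr' := Ph.grow hp hμ' B.lo p0 gr
  have hxφ' : δ * φ < φ - 2 * ε := by linarith
  have hyφ' : (1 - δ) * φ < φ - 2 * ε := by linarith
  obtain ⟨a1, ha1⟩ := Ph.exists_sub hcont hδφ hxφ' B.lo gr'
  obtain ⟨a2, ha2⟩ := Ph.exists_sub hcont hy0 hyφ' B.lo gr'
  have s1 := ha1 0
  have s2 := ha2 0
  have l1 := B.lo a1
  by_contra hcon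
  rw [not_or] at hcon
  obtain ⟨n1, n2⟩ := hcon
  have ha1' : a1 < 0 := by
    by_contra h0
    rw [not_lt] at h0
    refine n1 fun t ht => ?_
    rcases ht.lt_or_eq with ht | ht
    · have k1 : p 0 - t * (δ * φ) ≤ p (-t) := by
        have k2 := hp.2 (Set.mem_univ (-t)) (Set.mem_univ a1)
          (show 0 ≤ a1 / (a1 + t) by positivity) (show 0 ≤ t / (a1 + t) by positivity) (by
            rw [← add_div, div_self (by positivity)])
        have e : (a1 / (a1 + t)) • (-t) + (t / (a1 + t)) • a1 = 0 := by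
          simp only [smul_eq_mul]
          field_simp
          ring
        rw [e] at k2
        simp only [smul_eq_mul] at k2
        have k3 : (a1 + t) * p 0 ≤ a1 * p (-t) + t * p a1 := by
          have k4 := mul_le_mul_of_nonneg_left k2 (show 0 ≤ a1 + t by positivity)
          have e2 : (a1 + t) * (a1 / (a1 + t) * p (-t) + t / (a1 + t) * p a1) =
              a1 * p (-t) + t * p a1 := by
            field_simp
          rwa [e2] at k4
        rcases h0.lt_or_eq with h0 | h0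
        · have k5 : a1 * (p 0 - t * (δ * φ)) ≤ a1 * p (-t) := by
            nlinarith
          exact le_of_mul_le_mul_left k5 h0
        · have := ha1 (-t)
          rw [← h0] at this
          linarith
      nlinarith
    · rw [← ht]
      simp
  have ha2' : 0 < a2 := by
    by_contra h0
    rw [not_lt] at h0
    refine n2 fun t ht => ?_
    rcases ht.lt_or_eq with ht | ht
    · have k1 : p 0 + t * ((1 - δ) * φ) ≤ p t := by
        have hpos : 0 < t - a2 := by linarith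
        have k2 := hp.2 (Set.mem_univ a2) (Set.mem_univ t)
          (show 0 ≤ t / (t - a2) by positivity)
          (show 0 ≤ (-a2) / (t - a2) from div_nonneg (by linarith) hpos.le) (by
            rw [← add_div, ← sub_eq_add_neg, div_self hpos.ne'])
        have e : (t / (t - a2)) • a2 + ((-a2) / (t - a2)) • t = 0 := by
          simp only [smul_eq_mul]
          field_simp
          ring
        rw [e] at k2
        simp only [smul_eq_mul] at k2
        have k3 : (t - a2) * p 0 ≤ t * p a2 + (-a2) * p t := by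
          have k4 := mul_le_mul_of_nonneg_left k2 hpos.le
          have e2 : (t - a2) * (t / (t - a2) * p a2 + (-a2) / (t - a2) * p t) =
              t * p a2 + (-a2) * p t := by
            field_simp
          rwa [e2] at k4
        rcases h0.lt_or_eq with h0 | h0
        · have k5 : (-a2) * (p 0 + t * ((1 - δ) * φ)) ≤ (-a2) * p t := by
            nlinarith
          exact le_of_mul_le_mul_left k5 (by linarith)
        · have := ha2 t
          rw [h0] at this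
          linarith
      nlinarith
    · rw [← ht]
      simp
  -- the bounds
  have b1 : -a1 ≤ c * μ := by
    have k1 : -a1 * (δ * φ) ≤ 2 * ε * μ := by nlinarith
    have k2 : 2 * ε * μ ≤ δ * φ * c / 2 * μ := mul_le_mul_of_nonneg_right (by linarith) hμ'.le
    have k4 : 0 < δ * φ * c * μ := by positivity
    have k3 : (δ * φ) * -a1 ≤ (δ * φ) * (c * μ) := by linarith
    exact le_of_mul_le_mul_left k3 hδφ
  have b2 : a2 ≤ c * μ := by
    have g2 := gr' a2 ha2'.le
    have k0 : a2 * (δ * φ / 2) ≤ a2 * ((φ - 2 * ε) - (1 - δ) * φ) :=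
      mul_le_mul_of_nonneg_left hgap ha2'.le
    have k1 : a2 * (δ * φ / 2) ≤ 2 * ε * μ := by linarith
    have k2 : 2 * ε * μ ≤ δ * φ * c / 2 * μ := mul_le_mul_of_nonneg_right (by linarith) hμ'.le
    have k3 : (δ * φ) * a2 ≤ (δ * φ) * (c * μ) := by linarith
    exact le_of_mul_le_mul_left k3 hδφ
  have hcμ : c * μ ≤ ε1 * μ := mul_le_mul_of_nonneg_right hc1 hμ'.le
  have hcμ4 : c * μ ≤ μ / 4 := by nlinarith
  refine hNG E _ M SA SB h p ε μ eb B (hε.trans h01) hμ hq hr a1 a2 (ha1'.trans ha2') ?_ ?_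
    ha1 ha2 ?_ ?_
  · rw [abs_of_neg ha1']
    exact b1.trans hcμ
  · rw [abs_of_pos ha2']
    exact b2.trans hcμ
  · -- limit from the left at `a1`
    refine Ph.gl_lim (l := 𝓝[<] a1) nhdsWithin_le_nhds
      (hcont.continuousAt.tendsto.mono_left nhdsWithin_le_nhds) ?_
    have hev : ∀ᶠ a in 𝓝[<] a1, a1 - μ / 4 < a :=
      nhdsWithin_le_nhds (Ioi_mem_nhds (by linarith))
    filter_upwards [hev, self_mem_nhdsWithin] with a ha haa
    rw [Set.mem_Iio] at haa
    have hab : |a| ≤ μ / 2 := by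
      rw [abs_of_neg (haa.trans ha1')]
      linarith
    refine Ph.gl_mono (gB a (a1 - a) hab (by linarith)) (by positivity) ?_
    rw [add_sub_cancel]
    have k1 : (p a1 - p a) / (a1 - a) ≤ δ * φ := by
      rw [div_le_iff₀ (by linarith)]
      have := ha1 a
      linarith
    nlinarith
  · refine Ph.gl_lim (l := 𝓝[>] a2) nhdsWithin_le_nhds
      (hcont.continuousAt.tendsto.mono_left nhdsWithin_le_nhds) ?_
    have hev : ∀ᶠ a in 𝓝[>] a2, a < a2 + μ / 4 :=
      nhdsWithin_le_nhds (Iio_mem_nhds (by linarith))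
    filter_upwards [hev, self_mem_nhdsWithin] with a ha haa
    rw [Set.mem_Ioi] at haa
    have hab : |a| ≤ μ / 2 := by
      rw [abs_of_pos (ha2'.trans haa)]
      linarith
    refine Ph.gl_mono (gA a (a - a2) hab (by linarith)) (by positivity) ?_
    rw [sub_sub_cancel]
    have k1 : (1 - δ) * φ ≤ (p a - p a2) / (a - a2) := by
      rw [le_div_iff₀ (by linarith)]
      have := ha2 a
      linarith
    nlinarith

end Pool.Agent.RC
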