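import Pool.Agent.Lib.MP_09cbbd_rc.PNg
import Pool.Agent.Lib.MP_09cbbd_rc.PPh
import Pool.Agent.Lib.MP_09cbbd_rc.PGl
import Pool.Agent.Lib.MP_09cbbd_rc.PKb
import Pool.Agent.Lib.MP_09cbbd_rc.KK
import Pool.Agent.Lib.MP_09cbbd_rc.CubT
import Pool.Agent.Lib.MP_09cbbd_rc.Cvx

/-!
# Rows and columns, Peierls argument: the phases for the cubic core
-/

set_option autoImplicit false

namespace Pool.Agent.RC

open MeasureTheory Finset Filter Topology Pool.Agent.StableGas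
open Pool.Agent.SquareWell hiding Md cut
open Pool.Agent.Vdw (blk lift ball Lk Yk Wk Kc)
open Pool.Agent.Mix (Qr mem_Qr)

variable {d : ℕ}

/-- The slopes at `0` are not both in the middle. -/
theorem phases (hd : 2 ≤ d) {φ c2 C1 : ℝ} (hφ : 0 < φ) (hφ1 : φ ≤ 1) (hc2 : 0 < c2)
    (hC1 : 0 < C1) {st : ℕ} (hst : 2 ≤ st) (rn : ℕ) :
    ∃ ε0 : ℝ, 0 < ε0 ∧ ∃ k0 : ℕ, ∀ k : ℕ, k0 ≤ k → ∀ C : ℝ, 0 ≤ C → ∃ μ0 : ℝ,
      ∀ (E : Type) (_ : MeasurableSpace E) (M : CG d E) (SA SB : Set E) (h : E → ℝ)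
      (p : ℝ → ℝ) (ε μ : ℝ) (eb : Finset (Zd d) → (Zd d → E) → Zd d → ℝ),
      Blk M SA SB h p φ c2 C1 ε μ k eb → ε ≤ ε0 → μ0 ≤ μ → M.q ≤ rn → 2 * M.r ≤ st * k →
      ConvexOn ℝ Set.univ p → (∀ a, 0 ≤ a → a ≤ μ → φ * a + (φ - ε) * μ ≤ p a) →
      (∀ a t : ℝ, |a| ≤ μ / 2 → 0 < t →
        M.Gl SB (fa h SA a) (2 * μ) ((p (a + t) - p a) / t + ε0) C (p a)) →
      (∀ a t : ℝ, |a| ≤ μ / 2 → 0 < t →
        M.Gl SA (fa h SA a) (2 * μ) (φ - (p a - p (a - t)) / t + ε0) C (p a)) →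
      (∀ t, 0 ≤ t → p 0 - t * (φ / 8) ≤ p (-t)) ∨ (∀ t, 0 ≤ t → p 0 + t * (7 / 8 * φ) ≤ p t) :=
  phases_of hφ hφ1 rn (no_gap hd hφ hφ1 hc2 hC1 hst rn)

/-- **The phases for general blocks.** -/
theorem blk_phases (hd : 2 ≤ d) {φ c2 C1 : ℝ} (hφ : 0 < φ) (hφ1 : φ ≤ 1) (hc2 : 0 < c2)
    (hC1 : 0 < C1) {st : ℕ} (hst : 2 ≤ st) (rn : ℕ) :
    ∃ ε0 : ℝ, 0 < ε0 ∧ ∃ k0 : ℕ, ∀ k : ℕ, k0 ≤ k → ∃ μ0 : ℝ,
      ∀ (E : Type) (_ : MeasurableSpace E) (M : CG d E) (SA SB : Set E) (h : E → ℝ)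
      (p : ℝ → ℝ) (ε μ : ℝ) (eb : Finset (Zd d) → (Zd d → E) → Zd d → ℝ),
      Blk M SA SB h p φ c2 C1 ε μ k eb → 0 ≤ ε → ε ≤ ε0 → μ0 ≤ μ → M.q ≤ rn →
      2 * M.r ≤ st * k → ∫⁻ x, ex (h x) ∂M.π ≤ ex (3 / 2 * μ) →
      (∀ a, 0 ≤ a → a ≤ μ → φ * a + (φ - ε) * μ ≤ p a) →
      (∀ a, M.SH (fa h SA a) (insert M.e0 SA) (insert M.e0 SA) (1 / 2)) →
      (∀ a, M.SH (fa h SA a) (insert M.e0 SB) (insert M.e0 SB) (1 / 2)) →
      (∀ t, 0 ≤ t → p 0 - t * (φ / 8) ≤ p (-t)) ∨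
        (∀ t, 0 ≤ t → p 0 + t * (7 / 8 * φ) ≤ p t) := by
  have hd1 : 1 ≤ d := by omega
  obtain ⟨ε0, hε0, k0, hph⟩ := phases (d := d) hd hφ hφ1 hc2 hC1 hst rn
  refine ⟨ε0 / (1 + 6 * 3 ^ d * C1), by positivity, k0, fun k hk => ?_⟩
  obtain ⟨μ0, hμ0⟩ := hph k hk (2 * Real.log 2)
    (by have := Real.log_nonneg (show (1 : ℝ) ≤ 2 by norm_num); positivity)
  refine ⟨μ0, ?_⟩
  intro E _ M SA SB h p ε μ eb B hε hε0' hμ hq hr hK hgrow hA hB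
  have hμp := B.μ_pos
  rw [le_div_iff₀ (by positivity)] at hε0'
  have hsix : 0 ≤ 6 * 3 ^ d * C1 * ε := by positivity
  have hsum : ε + 6 * 3 ^ d * C1 * ε ≤ ε0 := by linarith
  have hconv : ConvexOn ℝ Set.univ p := CG.convexOn_isP_fa hd1 B.fld B.SA_meas B.e0_A B.isP
  have hglB := glue_B hd1 hφ hC1 B hε hK hgrow (fun a => by
    rw [Set.union_singleton]
    exact hB a)
  have hglA := glue_A hd1 hφ hC1 B hε hK hgrow (fun a => by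
    rw [Set.union_singleton]
    exact hA a)
  have hmono : ∀ (S : Set E) (f : E → ℝ) (ρ ρ' P : ℝ), ρ ≤ ρ' →
      M.Gl S f (2 * μ) ρ (2 * Real.log 2) P → M.Gl S f (2 * μ) ρ' (2 * Real.log 2) P := by
    intro S f ρ ρ' P hρ hG X
    refine (hG X).trans (ex_le_ex.2 ?_)
    have h1 : 2 * μ * ρ * (LO (2 * M.r) X).card ≤ 2 * μ * ρ' * (LO (2 * M.r) X).card :=
      mul_le_mul_of_nonneg_right (mul_le_mul_of_nonneg_left hρ (by positivity))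
        (Nat.cast_nonneg _)
    linarith
  exact hμ0 E _ M SA SB h p ε μ eb B (by linarith) hμ hq hr hconv hgrow
    (fun a t ha ht => hmono _ _ _ _ _ (by linarith) (hglB a t ha ht))
    (fun a t ha ht => hmono _ _ _ _ _ (by linarith) (hglA a t ha ht))

/-- **Assumptions for the cubic core**, at the activity `z`. -/
structure CubOk {E : Type} [MeasurableSpace E] (M : CG d E) (SA SB : Set E) (ms nb : E → ℕ)
    (m rc : ℕ) (c1 ε μ z : ℝ) : Prop where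
  cub : Cub M SA SB ms rc
  nb_meas : Measurable nb
  nb_e0 : nb M.e0 = 0
  nb_le : ∀ᵐ x ∂M.π, nb x + SA.indicator 1 x ≤ m + 1
  nb_A : ∀ x ∈ SA, nb x + ms x = m
  nb_B : ∀ x ∈ SB, nb x + ms x = m + 1
  mas : Mas M SA SB ms m c1 ε μ (fun x => z * nb x)
  shA : ∀ a, M.SH (fa (fun x => z * nb x) SA a) (insert M.e0 SA) (insert M.e0 SA) (1 / 2)
  shB : ∀ a, M.SH (fa (fun x => z * nb x) SA a) (insert M.e0 SB) (insert M.e0 SB) (1 / 2)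
  lo : ∀ a, (1 - ε) * μ ≤ M.prs (fa (fun x => z * nb x) SA a)
  grow : ∀ a, 0 ≤ a → a ≤ μ → a + (1 - ε) * μ ≤ M.prs (fa (fun x => z * nb x) SA a)

section

variable {E : Type} [MeasurableSpace E] {M : CG d E}

theorem fld_beads {nb : E → ℕ} (hn : Measurable nb) (h0 : nb M.e0 = 0) {N : ℕ}
    (hN : ∀ᵐ x ∂M.π, nb x ≤ N) (z : ℝ) : M.Fld (fun x => z * nb x) := by
  have hm : Measurable fun x => z * (nb x : ℝ) :=
    ((measurable_of_countable (fun n : ℕ => (n : ℝ))).comp hn).const_mul z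
  refine ⟨hm, by simp [h0], ?_⟩
  refine ne_top_of_le_ne_top (b := ex (|z| * N) * M.π Set.univ)
    (ENNReal.mul_ne_top ENNReal.ofReal_ne_top M.π_fin) ?_
  rw [← lintegral_const]
  refine lintegral_mono_ae ?_
  filter_upwards [hN] with x hx
  refine ex_le_ex.2 ?_
  have h1 : (nb x : ℝ) ≤ N := by exact_mod_cast hx
  calc z * nb x ≤ |z| * nb x := mul_le_mul_of_nonneg_right (le_abs_self z) (Nat.cast_nonneg _)
    _ ≤ |z| * N := mul_le_mul_of_nonneg_left h1 (abs_nonneg z)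

theorem Mas.mono {SA SB : Set E} {ms : E → ℕ} {m : ℕ} {c1 ε ε' μ : ℝ} {h : E → ℝ}
    (H : Mas M SA SB ms m c1 ε μ h) (hε : ε ≤ ε') (hμ : 0 ≤ μ) : Mas M SA SB ms m c1 ε' μ h :=
  ⟨H.fld, H.m1.trans (ex_le_ex.2 (mul_le_mul_of_nonneg_right (by linarith) hμ)), H.m2⟩

end

/-- **The phases for the cubic core.** -/
theorem cube_hP (hd : 2 ≤ d) {c1 Cm : ℝ} (hc1 : 0 < c1) (hc1' : c1 ≤ 1) (hCm : 1 ≤ Cm) {st : ℕ}
    (hst : 2 ≤ st) (q : ℕ) :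
    ∃ k0 : ℕ, ∀ k m : ℕ, k0 ≤ k → 1 ≤ m → (m : ℝ) ≤ Cm * (k : ℝ) ^ d →
      ∃ ε : ℝ, 0 < ε ∧ ∃ μ0 : ℝ, ∀ (E : Type) (_ : MeasurableSpace E) (M : CG d E)
      (SA SB : Set E) (ms nb : E → ℕ) (rc : ℕ) (μ z : ℝ), 2 * k ≤ rc → M.q ≤ q →
      2 * M.r ≤ st * k → μ0 ≤ μ → CubOk M SA SB ms nb m rc c1 ε μ z →
      ∃ p : ℝ → ℝ, ConvexOn ℝ Set.univ p ∧ p 0 = M.prs (fun x => z * nb x) ∧
      (∀ D, 0 ≤ D → p D ≤ M.prs (fun x => (z - D) * nb x) + (m + 1) * 1 * D) ∧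
      (∃ D0 > 0, ∀ D, 0 ≤ D → D ≤ D0 →
        p (-D) ≤ M.prs (fun x => (z + D) * nb x) - (m + 1) * 1 * D + 1 / 16 * D) ∧
      ((∀ t, 0 ≤ t → p 0 - t * (1 / 8) ≤ p (-t)) ∨
        (∀ t, 0 ≤ t → p 0 + t * (7 / 8 * 1) ≤ p t)) := by
  have hd1 : 1 ≤ d := by omega
  obtain ⟨c2, C1, hc2, hC1, hblk⟩ := Cub.blk (d := d) hd1 hc1 hc1' hCm q
  obtain ⟨ε0, hε0, k0, hph⟩ := blk_phases (d := d) hd (φ := 1) one_pos le_rfl hc2 hC1 hst q
  refine ⟨max k0 (2 * q + 1), fun k m hk hm hmk => ?_⟩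
  obtain ⟨ε, hε, hε1, hε2⟩ : ∃ ε : ℝ, 0 < ε ∧ ε ≤ 1 / 4 ∧ ε ≤ ε0 :=
    ⟨min (1 / 4) ε0, by positivity, min_le_left _ _, min_le_right _ _⟩
  obtain ⟨μa, hμa⟩ := hblk ε hε k m ((le_max_right _ _).trans hk) hm hmk
  obtain ⟨μb, hμb⟩ := hph k ((le_max_left _ _).trans hk)
  obtain ⟨εc, hεc, μc, hμc⟩ := beads_lo (d := d) hc1 hc1' hm
  refine ⟨min (ε / 2) εc, lt_min (by positivity) hεc, max (max μa μb) (max μc 1), ?_⟩
  intro E _ M SA SB ms nb rc μ z hrc hq hr hμ H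
  have hμ1 : μa ≤ μ := ((le_max_left _ _).trans (le_max_left _ _)).trans hμ
  have hμ2 : μb ≤ μ := ((le_max_right _ _).trans (le_max_left _ _)).trans hμ
  have hμ3 : μc ≤ μ := ((le_max_left _ _).trans (le_max_right _ _)).trans hμ
  have hμ4 : 1 ≤ μ := ((le_max_right _ _).trans (le_max_right _ _)).trans hμ
  have hμ0 : 0 < μ := by linarith
  set h : E → ℝ := fun x => z * nb x with hh
  have H0 : M.Fld h := H.mas.fld
  have hSA := H.cub.SA_meas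
  have hSB := H.cub.SB_meas
  have he := H.cub.e0_A
  have hε1' : min (ε / 2) εc ≤ ε / 2 := min_le_left _ _
  have hεc' : min (ε / 2) εc ≤ εc := min_le_right _ _
  have hfa : ∀ a, M.IsP (fa h SA a) (M.prs (fa h SA a)) := fun a =>
    CG.isP_prs hd1 (H0.fa hSA he a)
  have hfa0 : fa h SA 0 = h := by
    funext x
    simp [fa]
  have hB := hμa E _ M SA SB ms rc h (fun a => M.prs (fa h SA a)) μ H.cub hrc hq hμ1
    (H.mas.mono hε1' hμ0.le) hfa (fun a => le_trans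
      (mul_le_mul_of_nonneg_right (by linarith) hμ0.le) (H.lo a))
  have hgrow : ∀ a, 0 ≤ a → a ≤ μ → 1 * a + (1 - ε) * μ ≤ M.prs (fa h SA a) := fun a ha ha' => by
    have h1 := H.grow a ha ha'
    have h2 : (1 - ε) * μ ≤ (1 - min (ε / 2) εc) * μ :=
      mul_le_mul_of_nonneg_right (by linarith) hμ0.le
    linarith
  have hK : ∫⁻ x, ex (h x) ∂M.π ≤ ex (3 / 2 * μ) := by
    have h1 : ∫⁻ x, ex (h x) ∂M.π ≤ ∫⁻ x, ex (h x + 1 / 2 * en SA SB ms m c1 μ x) ∂M.π := by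
      refine lintegral_mono fun x => ex_le_ex.2 ?_
      have : 0 ≤ en SA SB ms m c1 μ x := by
        unfold en
        split_ifs
        · positivity
        · positivity
      linarith
    refine h1.trans (H.mas.m1.trans (ex_le_ex.2 ?_))
    have : (1 + min (ε / 2) εc) * μ ≤ 3 / 2 * μ :=
      mul_le_mul_of_nonneg_right (by linarith) hμ0.le
    exact this
  have hdis := hμb E _ M SA SB h (fun a => M.prs (fa h SA a)) ε μ (ebc M SA SB ms m c1 μ k) hB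
    hε.le hε2 hμ2 hq hr hK hgrow H.shA H.shB
  have hnbm : ∀ᵐ x ∂M.π, nb x ≤ m + 1 := by
    filter_upwards [H.nb_le] with x hx
    omega
  have hbe : ∀ y, M.Fld (fun x => y * nb x) := fun y => fld_beads H.nb_meas H.nb_e0 hnbm y
  refine ⟨fun a => M.prs (fa h SA a), CG.convexOn_fa hd1 H0 hSA he, ?_, ?_, ?_, hdis⟩
  · simp only [hfa0]
  · intro D hD
    rw [mul_one]
    exact beads_up hSA he H.nb_meas H.nb_e0 H.nb_le hD (hfa D) (CG.isP_prs hd1 (hbe (z - D)))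
  · refine ⟨1, one_pos, fun D hD0 hD1 => ?_⟩
    rw [mul_one]
    have hF0 : (1 - εc) * μ ≤ M.prs (fun x => z * nb x) := by
      have h1 := H.lo 0
      have h2 : fa (fun x => z * nb x) SA 0 = fun x => z * nb x := hfa0
      rw [h2] at h1
      refine le_trans ?_ h1
      exact mul_le_mul_of_nonneg_right (by linarith) hμ0.le
    exact hμc E _ M SA SB ms nb μ z (fun y => M.prs (fun x => y * nb x))
      (fun a => M.prs (fa h SA a)) hμ3 hSA hSB H.nb_meas H.cub.ms_meas he H.nb_e0 hnbm H.nb_A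
      H.nb_B (H.mas.mono hεc' hμ0.le) (fun y => CG.isP_prs hd1 (hbe y)) hfa hF0 D hD0 hD1

/-- **The kink for the cubic core.** -/
theorem cube_kink (hd : 2 ≤ d) {c1 Cm : ℝ} (hc1 : 0 < c1) (hc1' : c1 ≤ 1) (hCm : 1 ≤ Cm)
    {st : ℕ} (hst : 2 ≤ st) (q : ℕ) :
    ∃ k0 : ℕ, ∀ k m : ℕ, k0 ≤ k → 1 ≤ m → (m : ℝ) ≤ Cm * (k : ℝ) ^ d →
      ∃ ε : ℝ, 0 < ε ∧ ∃ μ0 : ℝ, ∀ (E : Type) (_ : MeasurableSpace E) (M : CG d E)
      (SA SB : Set E) (ms nb : E → ℕ) (rc : ℕ) (μ z1 z2 : ℝ), 2 * k ≤ rc → M.q ≤ q →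
      2 * M.r ≤ st * k → μ0 ≤ μ → z1 < z2 →
      (∀ z ∈ Set.Icc z1 z2, CubOk M SA SB ms nb m rc c1 ε μ z) →
      (∃ t > 0, z1 + t ≤ z2 ∧ M.prs (fun x => (z1 + t) * nb x) ≤
        M.prs (fun x => z1 * nb x) + t * (m + 1 / 4)) →
      (∃ t > 0, z1 ≤ z2 - t ∧ M.prs (fun x => (z2 - t) * nb x) ≤
        M.prs (fun x => z2 * nb x) - t * (m + 3 / 4)) →
      ∃ w n1 n2 : ℝ, n1 < n2 ∧
        (∀ t > 0, M.prs (fun x => w * nb x) + t * n2 ≤ M.prs (fun x => (w + t) * nb x)) ∧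
        ∀ t > 0, M.prs (fun x => w * nb x) - t * n1 ≤ M.prs (fun x => (w - t) * nb x) := by
  have hd1 : 1 ≤ d := by omega
  obtain ⟨k0, hk0⟩ := cube_hP hd hc1 hc1' hCm hst q
  refine ⟨k0, fun k m hk hm hmk => ?_⟩
  obtain ⟨ε, hε, μ0, hμ0⟩ := hk0 k m hk hm hmk
  refine ⟨ε, hε, μ0, ?_⟩
  intro E _ M SA SB ms nb rc μ z1 z2 hrc hq hr hμ hz H h1 h2
  have HH := H z1 (Set.left_mem_Icc.2 hz.le)
  have hnbm : ∀ᵐ x ∂M.π, nb x ≤ m + 1 := by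
    filter_upwards [HH.nb_le] with x hx
    omega
  have hbe : ∀ y, M.Fld (fun x => y * nb x) := fun y => fld_beads HH.nb_meas HH.nb_e0 hnbm y
  have hconv : ConvexOn ℝ Set.univ fun z : ℝ => M.prs (fun x => z * nb x) := by
    refine ⟨convex_univ, fun a _ b _ s t hs ht hst => ?_⟩
    have h1 := CG.prs_convex hd1 (hbe a) (hbe b) hs ht hst
    simp only [smul_eq_mul]
    refine le_trans (le_of_eq ?_) h1
    congr 1
    funext x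
    ring
  refine kink_of (fun z => M.prs (fun x => z * nb x)) hconv (φ := 1) (m := m) one_pos hz ?_ ?_
    fun z hz' => ?_
  · obtain ⟨t, ht, h3, h4⟩ := h1
    exact ⟨t, ht, h3, by rw [mul_one]; exact h4⟩
  · obtain ⟨t, ht, h3, h4⟩ := h2
    exact ⟨t, ht, h3, by rw [mul_one]; exact h4⟩
  · exact hμ0 E _ M SA SB ms nb rc μ z hrc hq hr hμ (H z hz')

end Pool.Agent.RC
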