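import Pool.Agent.Lib.MP_09cbbd_rc.NbI
import Pool.Agent.Lib.MP_09cbbd_rc.ABS
import Pool.Agent.Lib.MP_09cbbd_rc.CubG
import Pool.Agent.Lib.MP_09cbbd_rc.MasI
import Pool.Agent.Lib.MP_09cbbd_rc.PMain

/-!
# The assumptions of the Peierls argument for the gas with a cubic core
-/

set_option autoImplicit false

namespace Pool.Agent.RC

open MeasureTheory Finset Pool.Agent.SquareWellGas Pool.Agent.SquareWell.ModA
open Pool.Agent.StableGas hiding tr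
open Pool.Agent.Exg
open Pool.Agent.Mix Ct

variable {d : ℕ} {h w : ℝ} {i₁ i₂ : Fin d} {m : ℕ} {R α a b β β' τ ε : ℝ}
  {N E : Set (Fin d → ℝ)}

/-- **The assumptions of the Peierls argument**, from the masses and the lower bounds. -/
theorem Geo.cubOk (hG : Geo d i₁ i₂ m R α a b β β' τ ε N E) {c : ℝ} {D : ℕ} (hC : Core N c D)
    (hh : 0 < h) (hhc : h ≤ c) {q r : ℕ} (hq : (1 + τ + 2 * (h / c)) * D ≤ q)
    (hr : 2 * R + 3 ≤ r) (hqr : q ≤ r) (hε : 0 ≤ ε) (haw : a < w)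
    (hhα : h = m * (m + 1) * α) (hm3 : 3 ≤ m) (hm8 : 8 * (2 * r + 1) ^ d ≤ m)
    (hε' : 4 * (2 * (r : ℝ) + 1) ^ d * (m + 1) ^ 2 * ε ≤ 1) {rc : ℕ} (hR : (rc : ℝ) + 1 ≤ R)
    {c1 η μ z : ℝ}
    (hmas : Mas (hG.ng hC hh.le hhc hq hr hqr).cg (GA E i₁ i₂ m α a h w) (GB E i₁ i₂ m α b h w)
      (gms E i₁ i₂ m α a h w) m c1 η μ fun x => z * x.1)
    (hlo : ∀ t, (1 - η) * μ ≤ (hG.ng hC hh.le hhc hq hr hqr).cg.prs
      (fa (fun x => z * x.1) (GA E i₁ i₂ m α a h w) t))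
    (hgrow : ∀ t, 0 ≤ t → t ≤ μ → t + (1 - η) * μ ≤ (hG.ng hC hh.le hhc hq hr hqr).cg.prs
      (fa (fun x => z * x.1) (GA E i₁ i₂ m α a h w) t)) :
    CubOk (hG.ng hC hh.le hhc hq hr hqr).cg (GA E i₁ i₂ m α a h w) (GB E i₁ i₂ m α b h w)
      (gms E i₁ i₂ m α a h w) (fun x => x.1) m rc c1 η μ z where
  cub := hG.cub _ hh haw hm3 hR
  nb_meas := measurable_fst
  nb_e0 := rfl
  nb_le := hG.ae_beads hG.meas
  nb_A := fun _ hx => beads_A hx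
  nb_B := fun _ hx => hG.beads_B hx
  mas := hmas
  shA := fun t => hG.shA hC hh hhc hq hr hqr hε haw (n := m) (by rw [hhα]; ring) hm8 hε' z t
  shB := fun t => hG.shB hC hh hhc hq hr hqr hε haw (n := m + 1) (by rw [hhα]; push_cast; ring)
    hm8 hε' z t
  lo := hlo
  grow := hgrow

/-- **The assumptions of the Peierls argument for the cubic core.** -/
theorem Geo.cubOk_cube (hd : 1 ≤ d) (hG : Geo d i₁ i₂ m R α a b β β' τ ε (OCub d) E)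
    (hC : Core (OCub d) 1 1) (hh : 0 < h) (hhc : h ≤ 1) {q r : ℕ}
    (hq : (1 + τ + 2 * (h / 1)) * (1 : ℕ) ≤ q) (hr : 2 * R + 3 ≤ r) (hqr : q ≤ r) (hε : 0 ≤ ε)
    (haw : a < w) (hhα : h = m * (m + 1) * α) (hm3 : 3 ≤ m) (hm8 : 8 * (2 * r + 1) ^ d ≤ m)
    (hε' : 4 * (2 * (r : ℝ) + 1) ^ d * (m + 1) ^ 2 * ε ≤ 1) {rc : ℕ} (hR : (rc : ℝ) + 1 ≤ R)
    {lam X c1 η μ z : ℝ} (Q : MNum d m a b α τ h (w + h) z lam X c1 η μ)
    (hlo : ∀ t, (1 - η) * μ ≤ (hG.ng hC hh.le hhc hq hr hqr).cg.prs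
      (fa (fun x => z * x.1) (GA E i₁ i₂ m α a h w) t))
    (hgrow : ∀ t, 0 ≤ t → t ≤ μ → t + (1 - η) * μ ≤ (hG.ng hC hh.le hhc hq hr hqr).cg.prs
      (fa (fun x => z * x.1) (GA E i₁ i₂ m α a h w) t)) :
    CubOk (hG.ng hC hh.le hhc hq hr hqr).cg (GA E i₁ i₂ m α a h w) (GB E i₁ i₂ m α b h w)
      (gms E i₁ i₂ m α a h w) (fun x => x.1) m rc c1 η μ z := by
  have hα := hG.α_pos
  have hm : (3 : ℝ) ≤ m := by exact_mod_cast hm3
  refine hG.cubOk hC hh hhc hq hr hqr hε haw hhα hm3 hm8 hε' hR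
    (hG.mas hd hC hh hhc (hG.a_pos.le.trans haw.le) ?_ hq hr hqr Q) hlo hgrow
  rw [hhα]
  have h1 : 0 ≤ (m + 1 : ℝ) * α := by positivity
  calc (m + 1 : ℝ) * α = 1 * ((m + 1) * α) := by ring
    _ ≤ m * ((m + 1) * α) := mul_le_mul_of_nonneg_right (by linarith) h1
    _ = m * (m + 1) * α := by ring

end Pool.Agent.RC
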