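import Pool.Agent.Lib.MP_09cbbd_rc.CGG

/-!
# Densities on the torus and slopes of the pressure
-/

set_option autoImplicit false

namespace Pool.Agent.RC

open MeasureTheory Finset Filter Topology Pool.Agent.StableGas
open Pool.Agent.SquareWell hiding Md cut
open Pool.Agent.Kac (Tor cst)
open Pool.Agent.Mix (Qr mem_Qr)

/-- **Jensen's inequality** for a weight: if `∫ W exp X ≤ exp a ∫ W`, then `∫ W X ≤ a ∫ W`. -/
theorem jensen_gen {Ω : Type} [MeasurableSpace Ω] (μ : Measure Ω) {W : Ω → ENNReal}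
    (hW : Measurable W) {X : Ω → ℝ} (hX : Measurable X) (hX0 : ∀ ω, 0 ≤ X ω) {a : ℝ} (ha : 0 ≤ a)
    (hfin : ∫⁻ ω, W ω ∂μ ≠ ⊤)
    (h : ∫⁻ ω, W ω * ex (X ω) ∂μ ≤ ex a * ∫⁻ ω, W ω ∂μ) :
    ∫⁻ ω, W ω * ENNReal.ofReal (X ω) ∂μ ≤ ENNReal.ofReal a * ∫⁻ ω, W ω ∂μ := by
  have hVm : Measurable fun ω => W ω * ENNReal.ofReal (X ω) := hW.mul hX.ennreal_ofReal
  have key : ∀ ω, ex a * W ω + ex a * (W ω * ENNReal.ofReal (X ω)) ≤
      W ω * ex (X ω) + ENNReal.ofReal (Real.exp a * a) * W ω := by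
    intro ω
    have h1 : Real.exp a + Real.exp a * X ω ≤ Real.exp (X ω) + Real.exp a * a := by
      have h2 : Real.exp (X ω) = Real.exp a * Real.exp (X ω - a) := by
        rw [← Real.exp_add]
        congr 1
        ring
      rw [h2]
      have h3 := Real.add_one_le_exp (X ω - a)
      have h4 := Real.exp_pos a
      nlinarith
    have h5 : ex a + ex a * ENNReal.ofReal (X ω) ≤
        ex (X ω) + ENNReal.ofReal (Real.exp a * a) := by
      unfold ex
      rw [← ENNReal.ofReal_mul (Real.exp_pos _).le, ← ENNReal.ofReal_add (Real.exp_pos _).le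
        (mul_nonneg (Real.exp_pos _).le (hX0 ω)), ← ENNReal.ofReal_add (Real.exp_pos _).le
        (mul_nonneg (Real.exp_pos _).le ha)]
      exact ENNReal.ofReal_le_ofReal h1
    calc ex a * W ω + ex a * (W ω * ENNReal.ofReal (X ω))
        = (ex a + ex a * ENNReal.ofReal (X ω)) * W ω := by ring
      _ ≤ (ex (X ω) + ENNReal.ofReal (Real.exp a * a)) * W ω := mul_le_mul' h5 le_rfl
      _ = _ := by ring
  have h2 : ex a * ∫⁻ ω, W ω ∂μ + ex a * ∫⁻ ω, W ω * ENNReal.ofReal (X ω) ∂μ ≤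
      ∫⁻ ω, W ω * ex (X ω) ∂μ + ENNReal.ofReal (Real.exp a * a) * ∫⁻ ω, W ω ∂μ := by
    have h3 := lintegral_mono (μ := μ) key
    rw [lintegral_add_left (hW.const_mul _), lintegral_const_mul _ hW,
      lintegral_const_mul _ hVm, lintegral_add_right _ (hW.const_mul _),
      lintegral_const_mul _ hW] at h3
    exact h3
  have h3 : ex a * ∫⁻ ω, W ω ∂μ + ex a * ∫⁻ ω, W ω * ENNReal.ofReal (X ω) ∂μ ≤
      ex a * ∫⁻ ω, W ω ∂μ + ex a * (ENNReal.ofReal a * ∫⁻ ω, W ω ∂μ) := by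
    refine h2.trans (add_le_add h (le_of_eq ?_))
    unfold ex
    rw [ENNReal.ofReal_mul (Real.exp_pos _).le, mul_assoc]
  have h4 := (ENNReal.add_le_add_iff_left (ENNReal.mul_ne_top (ex_ne_top a) hfin)).1 h3
  exact (ENNReal.mul_le_mul_iff_right (ex_ne_zero a) (ex_ne_top a)).1 h4

namespace CG

variable {d : ℕ} {E : Type} [MeasurableSpace E] {M : CG d E}

theorem ST_mono (L : ℕ) (h : E → ℝ) {f g : E → ℝ} (hfg : ∀ x, f x ≤ g x) :
    M.ST L h f ≤ M.ST L h g :=
  lintegral_mono fun ω => mul_le_mul' le_rfl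
    (ENNReal.ofReal_le_ofReal (sum_le_sum fun i _ => hfg (ω i)))

theorem ST_add (L : ℕ) {h f g : E → ℝ} (hh : M.Fld h) (hf : Measurable f) (hf0 : ∀ x, 0 ≤ f x)
    (hg0 : ∀ x, 0 ≤ g x) : M.ST L h (fun x => f x + g x) = M.ST L h f + M.ST L h g := by
  unfold ST
  have hVm : Measurable fun ω : Tor d L → E => M.wG (cst L) (fun _ => h) univ ω *
      ENNReal.ofReal (∑ i, f (ω i)) :=
    (M.measurable_wG (cst L) (fun _ => hh.meas) univ).mul (measurable_ofsum hf)
  rw [← lintegral_add_left hVm]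
  refine lintegral_congr fun ω => ?_
  rw [sum_add_distrib, ENNReal.ofReal_add (sum_nonneg fun i _ => hf0 _)
    (sum_nonneg fun i _ => hg0 _), mul_add]

theorem ZT_mono (L : ℕ) {h h' : E → ℝ} (hh : ∀ x, h x ≤ h' x) : M.ZT L h ≤ M.ZT L h' :=
  lintegral_mono fun ω => M.wG_mono (cst L) (fun _ _ => hh) ω

/-- Lowering an admissible field. -/
theorem Fld.sub {h f : E → ℝ} (hh : M.Fld h) (hf : Measurable f) (hf0 : ∀ x, 0 ≤ f x)
    (hfe : f M.e0 = 0) : M.Fld fun x => h x - f x where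
  meas := hh.meas.sub hf
  e0 := by rw [hh.e0, hfe, sub_zero]
  fin := ne_top_of_le_ne_top hh.fin (lintegral_mono fun x => ex_le_ex.2 (by linarith [hf0 x]))

theorem tend_V (hd : 1 ≤ d) : Tendsto (fun L : ℕ => (2 * L + 1 : ℝ) ^ d) atTop atTop := by
  have hT : Tendsto (fun L : ℕ => (2 * L + 1 : ℝ)) atTop atTop := by
    refine tendsto_atTop_mono (fun L => ?_) (tendsto_natCast_atTop_atTop (R := ℝ))
    have : (0 : ℝ) ≤ L := Nat.cast_nonneg L
    show (L : ℝ) ≤ 2 * L + 1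
    linarith
  exact (tendsto_pow_atTop (by omega)).comp hT

/-- **Upper bound of a density.** -/
theorem den_up {h f : E → ℝ} (hh : M.Fld h) (hf : Measurable f) (hf0 : ∀ x, 0 ≤ f x) {t : ℝ}
    (ht : 0 < t) (hh' : M.Fld fun x => h x + t * f x) {p p' : ℝ} (hp : M.IsP h p)
    (hp' : M.IsP (fun x => h x + t * f x) p') {η : ℝ} (hη : 0 < η) :
    ∀ᶠ L : ℕ in atTop, M.ST L h f ≤
      ENNReal.ofReal (((p' - p) / t + η) * (2 * L + 1 : ℝ) ^ d) * M.ZT L h := by
  have h1 := (IsP.torus hh' hp').sub (IsP.torus hh hp)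
  have h2 := h1.eventually_lt_const (show p' - p < p' - p + t * η by
    have := mul_pos ht hη
    linarith)
  filter_upwards [h2] with L hL
  set V : ℝ := (2 * L + 1 : ℝ) ^ d with hV
  have hV0 : 0 < V := by positivity
  set lz := Real.log (M.ZT L h).toReal with hlz
  set lz' := Real.log (M.ZT L fun x => h x + t * f x).toReal with hlz'
  have htf0 : ∀ x, 0 ≤ t * f x := fun x => mul_nonneg ht.le (hf0 x)
  have ha : 0 ≤ lz' - lz := sub_nonneg.2 (Real.log_le_log (M.ZT_pos L hh)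
    (ENNReal.toReal_mono (M.ZT_ne_top L hh') (ZT_mono L fun x => by linarith [htf0 x])))
  have h3 : M.ZT L (fun x => h x + t * f x) ≤ ex (lz' - lz) * M.ZT L h := by
    have e1 : M.ZT L h = ex lz := (M.ZT_eq_ex L hh).symm
    have e2 : M.ZT L (fun x => h x + t * f x) = ex lz' := (M.ZT_eq_ex L hh').symm
    rw [e1, e2, ← ex_add, sub_add_cancel]
  have h4 := M.jensen_add L hh (hf.const_mul t) htf0 ha h3
  rw [M.ST_mul L hh hf ht.le] at h4
  have h5 : lz' - lz ≤ t * (((p' - p) / t + η) * V) := by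
    rw [← sub_div, div_lt_iff₀ hV0] at hL
    have e3 : t * (((p' - p) / t + η) * V) = (p' - p + t * η) * V := by
      field_simp
    rw [e3]
    exact hL.le
  have h6 : ENNReal.ofReal t * M.ST L h f ≤
      ENNReal.ofReal t * (ENNReal.ofReal (((p' - p) / t + η) * V) * M.ZT L h) := by
    refine h4.trans ?_
    rw [← mul_assoc, ← ENNReal.ofReal_mul ht.le]
    exact mul_le_mul' (ENNReal.ofReal_le_ofReal h5) le_rfl
  exact (ENNReal.mul_le_mul_iff_right (ENNReal.ofReal_pos.2 ht).ne' ENNReal.ofReal_ne_top).1 h6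

/-- **Lower bound of a density.** -/
theorem den_lo {h f : E → ℝ} (hh : M.Fld h) (hf : Measurable f) (hf0 : ∀ x, 0 ≤ f x)
    (hfe : f M.e0 = 0) {t : ℝ} (ht : 0 < t) {p p' : ℝ} (hp : M.IsP h p)
    (hp' : M.IsP (fun x => h x - t * f x) p') {η : ℝ} (hη : 0 < η) :
    ∀ᶠ L : ℕ in atTop, ENNReal.ofReal (((p - p') / t - η) * (2 * L + 1 : ℝ) ^ d) * M.ZT L h ≤
      M.ST L h f := by
  have hh' : M.Fld fun x => h x - t * f x := hh.sub (hf.const_mul t)
    (fun x => mul_nonneg ht.le (hf0 x)) (by rw [hfe, mul_zero])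
  have h1 := (IsP.torus hh hp).sub (IsP.torus hh' hp')
  have h2 := h1.eventually_const_lt (show p - p' - t * η < p - p' by
    have := mul_pos ht hη
    linarith)
  filter_upwards [h2] with L hL
  set V : ℝ := (2 * L + 1 : ℝ) ^ d with hV
  have hV0 : 0 < V := by positivity
  set lz := Real.log (M.ZT L h).toReal with hlz
  set lz' := Real.log (M.ZT L fun x => h x - t * f x).toReal with hlz'
  have htf0 : ∀ x, 0 ≤ t * f x := fun x => mul_nonneg ht.le (hf0 x)
  set b : ℝ := ((p - p') / t - η) * V with hb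
  by_contra hcon
  push Not at hcon
  have hb0 : 0 ≤ b := by
    by_contra h3
    rw [ENNReal.ofReal_of_nonpos (not_le.1 h3).le, zero_mul] at hcon
    exact not_lt_zero hcon
  have h3 : M.ST L h (fun x => t * f x) ≤ ENNReal.ofReal (t * b) * M.ZT L h := by
    rw [M.ST_mul L hh hf ht.le, ENNReal.ofReal_mul ht.le, mul_assoc]
    exact mul_le_mul' le_rfl hcon.le
  have h4 := M.jensen_sub L hh (hf.const_mul t) htf0 (mul_nonneg ht.le hb0) h3
  have e1 : M.ZT L h = ex lz := (M.ZT_eq_ex L hh).symm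
  have e2 : M.ZT L (fun x => h x - t * f x) = ex lz' := (M.ZT_eq_ex L hh').symm
  rw [e1, e2, ← ex_add, ex_le_ex] at h4
  rw [← sub_div, lt_div_iff₀ hV0] at hL
  have e3 : t * b = (p - p' - t * η) * V := by
    rw [hb]
    field_simp
  linarith

/-- The gluing inequality is closed in the density. -/
theorem Gl.of_add {S : Set E} {h : E → ℝ} {K ρ C P : ℝ}
    (H : ∀ η : ℝ, 0 < η → M.Gl S h K (ρ + η) C P) : M.Gl S h K ρ C P := by
  intro X
  have hlim : Tendsto (fun η : ℝ => (X.card : ℝ) * P + K * (ρ + η) * (LO (2 * M.r) X).card +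
      K * (LI M.q X).card + C * ((LI (2 * M.r) X).card + (LO (2 * M.r) X).card)) (𝓝[>] 0)
      (𝓝 ((X.card : ℝ) * P + K * (ρ + 0) * (LO (2 * M.r) X).card +
      K * (LI M.q X).card + C * ((LI (2 * M.r) X).card + (LO (2 * M.r) X).card))) := by
    refine Tendsto.mono_left ?_ nhdsWithin_le_nhds
    exact ((((((tendsto_id.const_add ρ).const_mul K).mul_const _).const_add _).add_const
      _).add_const _)
  rw [add_zero] at hlim
  have h2 : Tendsto (fun η : ℝ => ex ((X.card : ℝ) * P + K * (ρ + η) * (LO (2 * M.r) X).card +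
      K * (LI M.q X).card + C * ((LI (2 * M.r) X).card + (LO (2 * M.r) X).card))) (𝓝[>] 0)
      (𝓝 (ex ((X.card : ℝ) * P + K * ρ * (LO (2 * M.r) X).card +
      K * (LI M.q X).card + C * ((LI (2 * M.r) X).card + (LO (2 * M.r) X).card)))) := by
    unfold ex
    exact ENNReal.tendsto_ofReal ((Real.continuous_exp.tendsto _).comp hlim)
  refine ge_of_tendsto h2 ?_
  filter_upwards [self_mem_nhdsWithin] with η hη
  exact H η hη X

/-- The gluing inequality is monotone in the density and in the constant. -/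
theorem Gl.mono {S : Set E} {h : E → ℝ} {K ρ ρ' C C' P : ℝ} (H : M.Gl S h K ρ C P) (hK : 0 ≤ K)
    (hρ : ρ ≤ ρ') (hC : C ≤ C') : M.Gl S h K ρ' C' P := by
  intro X
  refine (H X).trans (ex_le_ex.2 ?_)
  have h1 : K * ρ * (LO (2 * M.r) X).card ≤ K * ρ' * (LO (2 * M.r) X).card :=
    mul_le_mul_of_nonneg_right (mul_le_mul_of_nonneg_left hρ hK) (Nat.cast_nonneg _)
  have h2 : C * ((LI (2 * M.r) X).card + (LO (2 * M.r) X).card) ≤
      C' * ((LI (2 * M.r) X).card + (LO (2 * M.r) X).card) :=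
    mul_le_mul_of_nonneg_right hC (by positivity)
  linarith

end CG

end Pool.Agent.RC
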