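import Pool.Agent.Lib.MP_09cbbd_rc.InstK

/-!
# Rows and columns: the family of bodies
-/

set_option autoImplicit false

namespace Pool.Agent.RC

open MeasureTheory Pointwise

theorem core_OCub (d : ℕ) : Core (OCub d) 1 1 where
  meas := by
    have : OCub d = ⋂ j, {u : Fin d → ℝ | |u j| < 1} := by
      ext u
      rw [Set.mem_iInter]
      exact Iff.rfl
    rw [this]
    exact MeasurableSet.iInter fun j =>
      measurableSet_lt (measurable_pi_apply j).abs measurable_const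
  sym := fun u hu j => by
    rw [Pi.neg_apply, abs_neg]
    exact hu j
  cube := fun u hu => hu
  bdd := fun u hu j => by
    rw [Nat.cast_one]
    exact hu j
  c_pos := one_pos
  exp := fun u hu e he _ v hv h => by
    obtain ⟨j, hj⟩ := not_mem_Cub hu
    have h1 : |(1 + e) * u j + v j| < 1 := h j
    have h2 := hv j
    rw [one_mul] at h2
    have h3 : (1 + e) * |u j| ≤ |(1 + e) * u j + v j| + |v j| := by
      have h4 := abs_sub ((1 + e) * u j + v j) (v j)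
      rw [add_sub_cancel_right, abs_mul, abs_of_pos (by linarith : 0 < 1 + e)] at h4
      exact h4
    nlinarith

theorem Core.one_le {d : ℕ} (i : Fin d) {Nh : Set (Fin d → ℝ)} {c : ℝ} {D : ℕ}
    (hN : Core Nh c D) : 1 ≤ D := by
  have h1 := hN.bdd (fun _ => 1 / 2) (hN.cube _ fun j => by norm_num) i
  by_contra h2
  have h3 : D = 0 := by omega
  rw [h3, Nat.cast_zero] at h1
  have := abs_nonneg ((1 : ℝ) / 2)
  linarith

/-- **The bodies with a general hard core.** For given `m`, `R`, `ε` there is a constant `C` such that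
for all large `b₁` and all large `H` there is a body `K` such that the difference set of every compact
set between `K` and a neighbourhood of `K` satisfies the axioms, with
`α = 1 / (m (m + 1) H)`, `a = α (b₁ + 1/4) / (C (b₁ + 2))`, `b = α (1/4) / (C (b₁ + 2))`. -/
theorem instKN {d : ℕ} {i₁ i₂ : Fin d} (hne : i₁ ≠ i₂) {Nh : Set (Fin d → ℝ)} {c₀ : ℝ} {D : ℕ}
    (hCr : Core Nh c₀ D) (m : ℕ) (hm : 2 ≤ m) (R : ℝ) (hDR : (D : ℝ) ≤ R) (ε : ℝ) (hε : 0 < ε) :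
    ∃ C b₀ : ℕ, 0 < C ∧ ∀ b₁ : ℕ, b₀ ≤ b₁ → ∀ H : ℕ, 7 ≤ H → 7 ≤ c₀ * H →
      ∀ α : ℝ, α * (m * (m + 1) * H) = 1 →
      ∃ (K : Set (Fin d → ℝ)) (η β β' τ : ℝ), IsBody d K ∧ 0 < η ∧
        τ ≤ 5 * (m + 2) ^ 2 * α / c₀ ∧
        ∀ K₁ : Set (Fin d → ℝ), IsCompact K₁ → K ⊆ K₁ → K₁ ⊆ Metric.cthickening η K →
        Geo d i₁ i₂ m R α (α * ((b₁ + 1 / 4) / (C * (b₁ + 2)))) (α * (1 / 4 / (C * (b₁ + 2))))
          β β' τ ε Nh (K₁ - K₁) := by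
  have hR : 1 ≤ R := le_trans (by exact_mod_cast hCr.one_le i₁) hDR
  obtain ⟨c, hc⟩ : ∃ c : ℕ, c = ⌈84 * (4 * (m : ℝ) + 3) * (2 * m + 1) / ε⌉₊ + 1 := ⟨_, rfl⟩
  obtain ⟨b₀, hb₀⟩ : ∃ b₀ : ℕ, b₀ = ⌈14 / ε⌉₊ := ⟨_, rfl⟩
  have hm' : (2 : ℝ) ≤ m := by exact_mod_cast hm
  have hc1 : 84 * (4 * (m : ℝ) + 3) * (2 * m + 1) / ε ≤ c := by
    rw [hc]; push_cast
    have := Nat.le_ceil (84 * (4 * (m : ℝ) + 3) * (2 * m + 1) / ε)
    linarith
  have hc0 : 1 ≤ c := by omega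
  refine ⟨2 * (60 * c * (m + 1) + 1), b₀, by omega, fun b₁ hb₁ H hH hcH α hα => ?_⟩
  have hH' : (7 : ℝ) ≤ H := by exact_mod_cast hH
  have hb₁' : 14 / ε ≤ b₁ := by
    have h1 := Nat.le_ceil (14 / ε)
    rw [← hb₀] at h1
    have h2 : (b₀ : ℝ) ≤ b₁ := by exact_mod_cast hb₁
    linarith
  -- the integer parameters
  obtain ⟨N, hN⟩ : ∃ N : ℤ, N = 2 * (60 * c * (m + 1) + 1) * (b₁ + 2) := ⟨_, rfl⟩
  obtain ⟨ρ, hρ⟩ : ∃ ρ : ℤ, ρ = m * (m + 1) * H * N := ⟨_, rfl⟩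
  obtain ⟨X, hX⟩ : ∃ X : IPar, X = ⟨m, b₁, b₁ + 2, c, 60, ρ, ⌈R * ρ⌉, by exact_mod_cast hm,
    by omega, le_rfl, by exact_mod_cast hc0, le_rfl⟩ := ⟨_, rfl⟩
  have Xm : X.m = m := by rw [hX]
  have Xb : X.b = b₁ := by rw [hX]
  have Xc : X.c = c := by rw [hX]
  have Xρ : X.ρ = ρ := by rw [hX]
  have Xρ₂ : X.ρ₂ = ⌈R * ρ⌉ := by rw [hX]
  have Xr : X.r = 2 * (b₁ + 2) := by rw [hX]; rfl
  have XN : X.N = N := by
    rw [hN, hX]
    change 60 * (c * ((m + 1) * (2 * (b₁ + 2)))) + 2 * ((b₁ : ℤ) + 2) = _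
    ring
  have hN0 : 0 < N := by rw [← XN]; exact X.N_pos
  obtain ⟨b1, b2, b3, b4, b5, b6, b7⟩ := X.basic
  have hσ : X.σ ≤ (2 * X.m + 1) * X.N := by
    have e : (2 * X.m + 1) * X.N = 2 * (X.m * X.N) + X.N := by ring
    omega
  have hmz : (2 : ℤ) ≤ m := by exact_mod_cast hm
  have hHz : (7 : ℤ) ≤ H := by exact_mod_cast hH
  have hLg0 : X.Lg ≤ (2 * m + 4) * ((2 * m + 1) * N) := by
    have e : X.Lg = (2 * X.m + 4) * X.σ := rfl
    rw [e]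
    refine (mul_le_mul_of_nonneg_left hσ (by have := X.hm; omega)).trans ?_
    rw [Xm, XN]
  have hLg : X.Lg ≤ X.ρ := by
    rw [Xρ, hρ]
    refine hLg0.trans ?_
    rw [← mul_assoc]
    refine mul_le_mul_of_nonneg_right ?_ hN0.le
    have h1 : (m : ℤ) * (m + 1) * 7 ≤ m * (m + 1) * H :=
      mul_le_mul_of_nonneg_left hHz (by positivity)
    nlinarith
  have hN' : (0 : ℝ) < N := by exact_mod_cast hN0
  have hρ' : (ρ : ℝ) = m * (m + 1) * H * N := by rw [hρ]; push_cast; ring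
  have hρ0 : (0 : ℝ) < ρ := by rw [hρ']; positivity
  have hρρ : X.ρ ≤ X.ρ₂ := by
    rw [Xρ, Xρ₂]
    have h1 : (ρ : ℝ) ≤ ⌈R * ρ⌉ := by
      refine le_trans ?_ (Int.le_ceil _)
      nlinarith
    exact_mod_cast h1
  have hα0 : 0 < α := by
    by_contra h
    rw [not_lt] at h
    have : α * (m * (m + 1) * H) ≤ 0 := mul_nonpos_of_nonpos_of_nonneg h (by positivity)
    linarith
  obtain ⟨δ, hδ⟩ : ∃ δ : ℝ, δ = α / N := ⟨_, rfl⟩
  have hδ0 : 0 < δ := by rw [hδ]; positivity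
  have hδN : δ * N = α := by rw [hδ]; field_simp
  have hδρ : δ * ρ = 1 := by
    calc δ * ρ = (δ * N) * (m * (m + 1) * H) := by rw [hρ']; ring
      _ = 1 := by rw [hδN, hα]
  have hNC : (N : ℝ) = (2 * (60 * c * (m + 1) + 1) : ℕ) * ((b₁ : ℝ) + 2) := by
    rw [hN]; push_cast; ring
  have hb2 : (0 : ℝ) < (b₁ : ℝ) + 2 := by positivity
  have hεX : (7 / X.r + 21 * (4 * X.m + 3) * (2 * X.m + 1) / X.c : ℝ) ≤ ε / 2 := by
    rw [Xr, Xm, Xc]
    push_cast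
    have hc' : (0 : ℝ) < c := by exact_mod_cast hc0
    have h1 : 7 / (2 * ((b₁ : ℝ) + 2)) ≤ ε / 4 := by
      rw [div_le_iff₀ (by positivity)]
      rw [div_le_iff₀ hε] at hb₁'
      nlinarith
    have h2 : 21 * (4 * (m : ℝ) + 3) * (2 * m + 1) / c ≤ ε / 4 := by
      rw [div_le_iff₀ hε] at hc1
      rw [div_le_iff₀ hc']
      linarith
    linarith
  have hN1 : (1 : ℝ) ≤ N := by exact_mod_cast hN0
  have hLg2 : (X.Lg : ℝ) + 2 ≤ (7 * (m * (m + 1))) * N := by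
    have h1 : (X.Lg : ℝ) ≤ (2 * m + 4) * ((2 * m + 1) * N) := by exact_mod_cast hLg0
    have h4 : (2 : ℝ) ≤ 3 * m ^ 2 - 3 * m - 4 := by nlinarith
    have h5 : (2 : ℝ) * 1 ≤ (3 * m ^ 2 - 3 * m - 4) * N :=
      mul_le_mul h4 hN1 zero_le_one (by linarith)
    linarith
  have hcL : δ * ((X.Lg : ℝ) + 2) ≤ c₀ := by
    have h1 : δ * ((7 * (m * (m + 1))) * N) ≤ c₀ := by
      have h2 : δ * ((7 * (m * (m + 1))) * N) = 7 * (α * (m * (m + 1))) := by rw [← hδN]; ring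
      rw [h2]
      have h3 : 0 ≤ α * (m * (m + 1)) := by positivity
      have h4 : 7 * (α * (m * (m + 1))) ≤ c₀ * H * (α * (m * (m + 1))) :=
        mul_le_mul_of_nonneg_right hcH h3
      have h5 : c₀ * H * (α * (m * (m + 1))) = c₀ := by
        rw [show c₀ * H * (α * (m * (m + 1))) = c₀ * (α * (m * (m + 1) * H)) by ring, hα, mul_one]
      linarith
    exact (mul_le_mul_of_nonneg_left hLg2 hδ0.le).trans h1
  have hGb : ∀ q, IPar.Gz Nh δ q → ∀ j, |q j| ≤ X.ρ₂ := IPar.Gz_bdd hCr.bdd hδ0 (by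
    rw [Xρ₂]
    have h1 := mul_le_mul_of_nonneg_left (Int.le_ceil (R * ρ)) hδ0.le
    have h2 : δ * (R * ρ) = R := by rw [mul_left_comm, hδρ, mul_one]
    rw [h2] at h1
    exact hDR.trans h1)
  have key := fun E => IPar.geo_body (X := X) (d := d) (E := E) hne hLg hρρ Xm hCr (δ := δ) (R := R)
    (ε := ε) hDR hcL hδ0
    (by rw [Xρ]; exact hδρ)
    (by
      rw [Xρ₂]
      have h1 := mul_le_mul_of_nonneg_left (Int.le_ceil (R * ρ)) hδ0.le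
      have h2 : δ * (R * ρ) = R := by rw [mul_left_comm, hδρ, mul_one]
      rwa [h2] at h1)
    (by
      rw [Xρ₂]
      have h1 := (Int.ceil_lt_add_one (R * ρ)).le
      have h2 : δ * (R * ρ) = R := by rw [mul_left_comm, hδρ, mul_one]
      have h3 := mul_le_mul_of_nonneg_left h1 hδ0.le
      rw [mul_add, h2, mul_one] at h3
      exact h3)
    (by
      rw [XN, hδN]
      refine le_trans ?_ hα.le
      rw [mul_comm α]
      refine mul_le_mul_of_nonneg_right ?_ hα0.le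
      have h1 : (m : ℝ) * (m + 1) * 7 ≤ m * (m + 1) * H :=
        mul_le_mul_of_nonneg_left hH' (by positivity)
      nlinarith)
    hεX
  have ea : δ * (X.b + 1 / 4) = α * ((b₁ + 1 / 4) / ((2 * (60 * c * (m + 1) + 1) : ℕ) *
      ((b₁ : ℝ) + 2))) := by
    rw [← hNC, hδ, Xb]
    push_cast
    ring
  have eb : δ * (1 / 4) = α * (1 / 4 / ((2 * (60 * c * (m + 1) + 1) : ℕ) *
      ((b₁ : ℝ) + 2))) := by
    rw [← hNC, hδ]
    ring
  rw [ea, eb, XN, hδN] at key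
  refine ⟨X.body (IPar.Gz Nh δ) i₁ i₂ δ, δ / 16, _, _, _, IPar.isBody hne hLg hρρ hGb hδ0,
    by positivity, ?_, fun K₁ hK₁ h1 h2 => key _ (IPar.btw_body hne hLg hρρ hGb hδ0 hK₁ h1 h2)⟩
  -- the size of the grey zone
  have h1 : (X.Lg : ℝ) ≤ (2 * m + 4) * ((2 * m + 1) * N) := by exact_mod_cast hLg0
  have h3 : (X.Lg : ℝ) + 2 ≤ 5 * (m + 2) ^ 2 * N := by nlinarith
  refine div_le_div_of_nonneg_right ?_ hCr.c_pos.le
  calc δ * ((X.Lg : ℝ) + 2) ≤ δ * (5 * (m + 2) ^ 2 * N) := mul_le_mul_of_nonneg_left h3 hδ0.le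
    _ = 5 * (m + 2) ^ 2 * α := by rw [← hδN]; ring

/-- **The bodies**, the hard core is the cube. -/
theorem instK {d : ℕ} {i₁ i₂ : Fin d} (hne : i₁ ≠ i₂) (m : ℕ) (hm : 2 ≤ m) (R : ℝ) (hR : 1 ≤ R)
    (ε : ℝ) (hε : 0 < ε) :
    ∃ C b₀ : ℕ, 0 < C ∧ ∀ b₁ : ℕ, b₀ ≤ b₁ → ∀ H : ℕ, 7 ≤ H → ∀ α : ℝ, α * (m * (m + 1) * H) = 1 →
      ∃ (K : Set (Fin d → ℝ)) (β β' τ : ℝ), IsBody d K ∧ τ ≤ 5 * (m + 2) ^ 2 * α ∧
        Geo d i₁ i₂ m R α (α * ((b₁ + 1 / 4) / (C * (b₁ + 2)))) (α * (1 / 4 / (C * (b₁ + 2))))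
          β β' τ ε (OCub d) (K - K) := by
  obtain ⟨C, b₀, hC, h⟩ := instKN hne (core_OCub d) m hm R (by rwa [Nat.cast_one]) ε hε
  refine ⟨C, b₀, hC, fun b₁ hb₁ H hH α hα => ?_⟩
  have hH' : (7 : ℝ) ≤ H := by exact_mod_cast hH
  obtain ⟨K, η, β, β', τ, h1, h2, h3, h4⟩ := h b₁ hb₁ H hH (by rwa [one_mul]) α hα
  exact ⟨K, β, β', τ, h1, by rwa [div_one] at h3,
    h4 K h1.isCompact subset_rfl (Metric.self_subset_cthickening K)⟩

end Pool.Agent.RC
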