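import Pool.Agent.Lib.MP_09cbbd_rc.EndN
import Pool.Agent.Lib.MP_09cbbd_rc.CubI
import Pool.Agent.Lib.MP_09cbbd_rc.InstC

/-!
# Rows and columns: the transition for the cubic core
-/

set_option autoImplicit false

namespace Pool.Agent.RC

open MeasureTheory Finset Filter Topology Pointwise
open Pool.Agent.StableGas hiding tr
open Pool.Agent.SquareWell hiding Md cut
open Pool.Agent.SquareWell.ModA
open Pool.Agent.Exg

variable {d : ℕ}

section

variable {i₁ i₂ : Fin d} {m : ℕ} {R α a b β β' τ ε : ℝ} {N E : Set (Fin d → ℝ)} {h w : ℝ}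

/-- Elementary properties of the excluded set. -/
theorem Geo.ex (hG : Geo d i₁ i₂ m R α a b β β' τ ε N E) : Exg.Ex E (α / 2) (2 * R + 4) where
  ha := half_pos hG.α_pos
  meas := hG.meas
  neg := hG.sym
  near := fun u hu => by
    by_contra hE
    have hα := hG.α_pos
    have h1 : u ∈ N := hG.cube u fun j => by
      refine (hu j).trans ?_
      have h2 := hG.hα
      have h3 : (0 : ℝ) ≤ m := Nat.cast_nonneg m
      nlinarith
    have key : ∀ (i : Fin d) (δ : ℝ) (M : ℕ), 2 * δ < α → ¬ Bd.Win i α δ M u := by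
      rintro i δ M hδ ⟨k, hk, -, h3, -⟩
      have h4 : (1 : ℝ) ≤ |(k : ℝ)| := by
        have : (1 : ℤ) ≤ |k| := Int.one_le_abs hk
        exact_mod_cast this
      have h5 : α ≤ |(k : ℝ) * α| := by
        rw [abs_mul, abs_of_pos hα]
        nlinarith
      have h6 := abs_sub_abs_le_abs_sub ((k : ℝ) * α) (u i)
      rw [abs_sub_comm] at h6
      have h7 := hu i
      linarith
    have h2 := hG.hb
    have h3 := hG.hba
    have h4 := hG.ha
    rcases (Bd.ok_of hG).near u h1 hE with h5 | h5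
    · exact key i₁ a m (by linarith) h5
    · exact key i₂ b (m + 1) (by linarith) h5
  far := fun u hu j => (hG.bdd u hu j).trans_lt (by linarith)

end

/-- **The transition for the cubic core.** -/
theorem cube_end (hd : 2 ≤ d) {i₁ i₂ : Fin d} (hne : i₁ ≠ i₂) : ∃ k0 : ℕ, ∀ k : ℕ, k0 ≤ k →
    ∀ δ : ℝ, 0 < δ → ∃ (α a b β β' τ ε : ℝ) (K : Set (Fin d → ℝ)), IsBody d K ∧
      Geo d i₁ i₂ (8 * (8 * k + 11) ^ d) (2 * k + 1) α a b β β' τ ε (OCub d) (K - K) ∧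
      α ≤ δ ∧ τ ≤ δ ∧ 0 < ε ∧ ε ≤ δ ∧ ExGas.Transition d (K - K) := by
  have hd1 : 1 ≤ d := by omega
  have hd' : (1 : ℝ) ≤ d := by exact_mod_cast hd1
  have hc1 : (0 : ℝ) < 1 / (32 * d) := by positivity
  have hc1' : (1 : ℝ) / (32 * d) ≤ 1 := by
    rw [div_le_one (by positivity)]
    linarith
  obtain ⟨k0, hk0⟩ := cube_kink (d := d) hd hc1 hc1' (Cm := 8 * 12 ^ d)
    (by have : (1 : ℝ) ≤ 12 ^ d := one_le_pow₀ (by norm_num); linarith) (st := 10) (by norm_num) 2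
  refine ⟨max k0 5, fun k hk δ hδ => ?_⟩
  have hkk : k0 ≤ k := (le_max_left _ _).trans hk
  have hk5 : 5 ≤ k := (le_max_right _ _).trans hk
  obtain ⟨m, hm⟩ : ∃ m : ℕ, m = 8 * (8 * k + 11) ^ d := ⟨_, rfl⟩
  rw [← hm]
  have hm64 : 64 ≤ m := by
    have h1 : (8 * k + 11) ^ 1 ≤ (8 * k + 11) ^ d := Nat.pow_le_pow_right (by omega) hd1
    rw [pow_one] at h1
    omega
  have hmk : (m : ℝ) ≤ 8 * 12 ^ d * (k : ℝ) ^ d := by
    have h1 : (8 * k + 11) ^ d ≤ (12 * k) ^ d := Nat.pow_le_pow_left (by omega) d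
    have h2 : (m : ℝ) ≤ 8 * ((12 * k : ℕ) : ℝ) ^ d := by
      rw [hm]
      exact_mod_cast Nat.mul_le_mul_left 8 h1
    push_cast at h2
    rw [mul_pow] at h2
    linarith
  obtain ⟨ε', hε', μ0, hμ0⟩ := hk0 k m hkk (by omega) hmk
  -- the window
  obtain ⟨ε, hε, hεa, hεb, hεc⟩ : ∃ ε : ℝ, 0 < ε ∧ ε ≤ 1 ∧ ε ≤ 1 / (8 * d) ∧ ε ≤ ε' := by
    refine ⟨min 1 (min (1 / (8 * d)) ε'), by positivity, min_le_left _ _,
      (min_le_right _ _).trans (min_le_left _ _), (min_le_right _ _).trans (min_le_right _ _)⟩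
  have hm' : (64 : ℝ) ≤ m := by exact_mod_cast hm64
  obtain ⟨ε₂, hε₂e⟩ : ∃ ε₂ : ℝ, ε₂ = ε / (400 * (m + 1)) := ⟨_, rfl⟩
  have hε₂ : 0 < ε₂ := by rw [hε₂e]; positivity
  have hε2 : 400 * (m + 1) * ε₂ ≤ ε := by
    rw [hε₂e]
    exact le_of_eq (by field_simp)
  have hε2' : ε₂ ≤ ε / 8 := by
    have : 8 * ε₂ ≤ 400 * (m + 1) * ε₂ := mul_le_mul_of_nonneg_right (by linarith) hε₂.le
    linarith
  obtain ⟨n, hn1, hθ⟩ : ∃ n : ℕ, 1 ≤ n ∧ (d : ℝ) ≤ ε₂ * (n + 1) := by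
    refine ⟨⌈(d : ℝ) / ε₂⌉₊ + 1, by omega, ?_⟩
    have h1 := Nat.le_ceil ((d : ℝ) / ε₂)
    rw [div_le_iff₀' hε₂] at h1
    refine h1.trans (mul_le_mul_of_nonneg_left ?_ hε₂.le)
    push_cast
    linarith
  obtain ⟨Kc, hKc, hK⟩ := exists_KcBig d m n hε₂ (max μ0 (6 / δ))
  -- the junk
  obtain ⟨r, hr⟩ : ∃ r : ℕ, r = 4 * k + 5 := ⟨_, rfl⟩
  obtain ⟨εJ, hεJ, hεJδ, hεJ'⟩ : ∃ εJ : ℝ, 0 < εJ ∧ εJ ≤ δ ∧
      4 * (2 * (r : ℝ) + 1) ^ d * (m + 1) ^ 2 * εJ ≤ 1 := by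
    have hp : 0 < 4 * (2 * (r : ℝ) + 1) ^ d * (m + 1) ^ 2 := by positivity
    refine ⟨min δ (1 / (4 * (2 * (r : ℝ) + 1) ^ d * (m + 1) ^ 2)), by positivity,
      min_le_left _ _, ?_⟩
    calc _ ≤ 4 * (2 * (r : ℝ) + 1) ^ d * (m + 1) ^ 2 *
          (1 / (4 * (2 * (r : ℝ) + 1) ^ d * (m + 1) ^ 2)) :=
          mul_le_mul_of_nonneg_left (min_le_right _ _) hp.le
      _ = 1 := by field_simp
  obtain ⟨C, b₀, hC, hI⟩ := instK hne m (by omega) (2 * (k : ℝ) + 1)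
    (by have : (0 : ℝ) ≤ k := Nat.cast_nonneg k; linarith) εJ hεJ
  obtain ⟨b₁, H, hb₁, hH, hNum⟩ := exists_num (d := d) (m := m) hd1 hm64 hC hεa Kc b₀
  have hH' : (7 : ℝ) ≤ H := by exact_mod_cast hH
  obtain ⟨α, hα⟩ : ∃ α : ℝ, α * (m * (m + 1) * H) = 1 :=
    ⟨1 / (m * (m + 1) * H), by field_simp⟩
  obtain ⟨K, β, β', τ, hKb, hτ, hG⟩ := hI b₁ hb₁ H hH α hα
  obtain ⟨h, ζ, M, lam, HN⟩ := hNum α hα
  refine ⟨α, _, _, β, β', τ, εJ, K, hKb, hG, ?_⟩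
  generalize α * ((b₁ + 1 / 4) / (C * (b₁ + 2))) = a at *
  generalize α * (1 / 4 / (C * (b₁ + 2))) = b at *
  have hh := HN.h_pos
  have hM1 := HN.M_pos hK
  have hKc0 : 0 < Kc := by linarith [hK.k5]
  have hKh := HN.h_le hd1 hK
  obtain ⟨hl1, hl2⟩ := HN.lengths hm64 hτ
  have hα0 := hG.α_pos
  have hhc : h ≤ 1 := by
    have h1 : 1 * h ≤ Kc * h := mul_le_mul_of_nonneg_right hK.k5 hh.le
    linarith
  have h6 : 6 * h ≤ δ := by
    have h1 : 6 / δ ≤ Kc := (le_max_right _ _).trans hKc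
    have h2 : 6 / δ * h ≤ 1 := (mul_le_mul_of_nonneg_right h1 hh.le).trans hKh
    rw [div_mul_eq_mul_div, div_le_one hδ] at h2
    exact h2
  have hαh : α ≤ h := by
    refine le_trans ?_ hl1
    have : 1 * α ≤ (m + 1) * α := mul_le_mul_of_nonneg_right (by linarith) hα0.le
    linarith
  refine ⟨by linarith, by linarith, hεJ, hεJδ, ?_⟩
  have hq : (1 + τ + 2 * (h / 1)) * (1 : ℕ) ≤ (2 : ℕ) := by
    rw [div_one]
    push_cast
    have h1 : 100 * (n : ℝ) * h ≤ 1 := (mul_le_mul_of_nonneg_right hK.k4 hh.le).trans hKh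
    have h2 : (1 : ℝ) ≤ n := by exact_mod_cast hn1
    have h3 : 100 * 1 * h ≤ 100 * (n : ℝ) * h :=
      mul_le_mul_of_nonneg_right (by linarith) hh.le
    linarith
  have hr' : 2 * (2 * (k : ℝ) + 1) + 3 ≤ r := by
    rw [hr]
    push_cast
    linarith
  have hqr : 2 ≤ r := by omega
  have haw : a < h := by
    have h1 := hG.ha
    have h2 := hG.a_pos
    linarith
  have hnA : h = m * ((m + 1) * α) := by
    rw [HN.h_eq]
    ring
  have hnB : h = (m + 1 : ℕ) * (m * α) := by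
    rw [HN.h_eq]
    push_cast
    ring
  have hm8 : 8 * (2 * r + 1) ^ d ≤ m := by
    rw [hm, hr]
    exact le_of_eq (by congr 2; ring)
  have hP := HN.patN hd1 hm64 hK hn1 hG.hτ hτ
  have hN0 : ∀ u ∈ (hG.ng (core_OCub d) hh.le hhc hq hr' hqr).Nk 0, ∀ j, |u j| < 1 + τ := by
    intro u hu
    change u ∈ cNk (OCub d) 1 τ h 0 at hu
    rw [cNk_zero, mem_smul_Cub (by linarith [hG.hτ])] at hu
    exact hu
  have hMA := hG.mvr_A (core_OCub d) hh hhc hq hr' hqr hεJ.le haw hnA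
  have hMB := hG.mvr_B (core_OCub d) hh hhc hq hr' hqr hεJ.le haw hnB
  have heA : ((2 * (hG.ng (core_OCub d) hh.le hhc hq hr' hqr).r + 1) ^ d : ℕ) *
      (ENNReal.ofReal (2 * (β' + 2 * a) / ((m + 1) * α) + m ^ 2 * εJ)) ≤ 1 / 2 := by
    have h2 := e1_le (d := d) (β' := β') (M := m + 1) (n := m) (r := r) hG.α_pos hG.ha
      hG.hβ' (by omega) (Nat.le_succ m) (Nat.le_succ m) hεJ.le hm8 hεJ'
    push_cast at h2 ⊢
    exact h2
  have heB : ((2 * (hG.ng (core_OCub d) hh.le hhc hq hr' hqr).r + 1) ^ d : ℕ) *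
      (ENNReal.ofReal (2 * (β' + 2 * b) / (m * α) + ((m + 1 : ℕ) : ℝ) ^ 2 * εJ)) ≤ 1 / 2 := by
    have hba := hG.hba
    have ha := hG.ha
    exact e1_le (d := d) (β' := β') (M := m) (n := m + 1) (r := r) hG.α_pos
      (by linarith) hG.hβ' (by omega) le_rfl le_rfl hεJ.le hm8 hεJ'
  set G := hG.ng (core_OCub d) hh.le hhc hq hr' hqr with hGdef
  have hfld : ∀ z a' : ℝ, G.cg.Fld (fa (fun x => z * (x.1 : ℝ))
      (GA (K - K) i₁ i₂ m α a h h) a') := fun z a' =>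
    CG.Fld.fa (G.fld z) (measurableSet_GA hG.meas) hG.e0_A a'
  have hloB : ∀ z a' : ℝ, _ := fun z a' => hG.lo_B hN0 hMB heB hP (z := z) (a' := a')
    (CG.isP_prs hd1 (hfld z a'))
  have hloA : ∀ z a' : ℝ, _ := fun z a' => hG.lo_A hN0 hMA heA hP (z := z) (a' := a')
    (CG.isP_prs hd1 (hfld z a'))
  have hfa0 : ∀ z : ℝ, fa (fun x => z * (x.1 : ℝ)) (GA (K - K) i₁ i₂ m α a h h) 0 =
      fun x => z * (x.1 : ℝ) := fun z => by
    funext x
    simp [fa]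
  obtain ⟨t0, ht0⟩ : ∃ t0 : ℝ, t0 = ε / (8 * (m + 1)) * M := ⟨_, rfl⟩
  have ht0pos : 0 < t0 := by rw [ht0]; positivity
  have het : (m + 1) * t0 = ε / 8 * M := by
    rw [ht0]
    field_simp
  have hed : ε / 8 ≤ 1 / (64 * d) := by
    have e : (1 : ℝ) / (64 * d) = 1 / (8 * d) / 8 := by
      field_simp
      norm_num
    rw [e]
    linarith
  have hQ : ∀ z, |z - ζ| ≤ t0 → MNum d m a b α τ h (h + h) z lam ((1 + ε / 8) * M)
      (1 / (32 * d)) ε' M := fun z hz =>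
    HN.mnum hd1 hm64 hK hε.le hε₂.le hG.hτ hτ (e := ε / 8) (by positivity) hed (by linarith)
      (by rw [← ht0]; exact hz) (by
        rw [← het]
        exact mul_le_mul_of_nonneg_left hz (by positivity))
  have hQ0 : MNum d m a b α τ h (h + h) ζ lam ((1 + 0) * M) (1 / (32 * d)) ε₂ M :=
    HN.mnum hd1 hm64 hK hε.le hε₂.le hG.hτ hτ (e := 0) le_rfl (by positivity) (by linarith)
      (by
        rw [sub_self, abs_zero]
        positivity) (by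
        rw [sub_self, abs_zero, mul_zero, zero_mul])
  have hOk : ∀ z ∈ Set.Icc (ζ - t0) (ζ + t0), CubOk G.cg (GA (K - K) i₁ i₂ m α a h h)
      (GB (K - K) i₁ i₂ m α b h h) (gms (K - K) i₁ i₂ m α a h h) (fun x => x.1) m (2 * k)
      (1 / (32 * d)) ε' M z := by
    intro z hz
    have hz' : |z - ζ| ≤ t0 := abs_le.2 ⟨by linarith [hz.1], by linarith [hz.2]⟩
    refine Geo.cubOk_cube hd1 hG (core_OCub d) hh hhc hq hr' hqr hεJ.le haw HN.h_eq (by omega) hm8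
      hεJ' (by push_cast; linarith) (hQ z hz') (fun a' => ?_) (fun a' ha0 ha1 => ?_)
    · refine le_trans (mul_le_mul_of_nonneg_right (by linarith) (by linarith)) (HN.lo hK hεa hε
        hε₂.le hε2 hθ (z := z) (by rw [← ht0]; exact hz') (hloB z a'))
    · have h1 := HN.grow hK hεa hε hε₂.le hε2 hθ (z := z) (by rw [← ht0]; exact hz') ha0 ha1
        (hloA z a')
      have h2 : (1 - ε') * M ≤ (1 - ε) * M :=
        mul_le_mul_of_nonneg_right (by linarith) (by linarith)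
      exact le_trans (by linarith) h1
  -- the upper bound in the middle
  have hmid : G.cg.prs (fun x => ζ * (x.1 : ℝ)) ≤ (1 + ε₂) * M := by
    have hMas := Geo.mas hd1 hG (core_OCub d) hh hhc (hG.a_pos.le.trans haw.le) hl1 hq hr' hqr hQ0
    have h1 := CG.prs_le hd1 hMas.fld
    refine h1.trans ?_
    have h2 : ∫⁻ x, ex (ζ * (x.1 : ℝ)) ∂G.cg.π ≤ ex ((1 + ε₂) * M) := by
      refine le_trans (lintegral_mono fun x => ex_le_ex.2 ?_) hMas.m1
      have : 0 ≤ en (GA (K - K) i₁ i₂ m α a h h) (GB (K - K) i₁ i₂ m α b h h)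
          (gms (K - K) i₁ i₂ m α a h h) m (1 / (32 * d)) M x := by
        unfold en
        split_ifs <;> positivity
      linarith
    have h3 : (∫⁻ x, ex (ζ * (x.1 : ℝ)) ∂G.cg.π).toReal ≤ Real.exp ((1 + ε₂) * M) :=
      ENNReal.toReal_le_of_le_ofReal (Real.exp_pos _).le h2
    have h4 : 1 ≤ ∫⁻ x, ex (ζ * (x.1 : ℝ)) ∂G.cg.π := hMas.fld.one_le
    have h5 : 0 < (∫⁻ x, ex (ζ * (x.1 : ℝ)) ∂G.cg.π).toReal :=
      ENNReal.toReal_pos (by
        intro h0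
        rw [h0] at h4
        exact absurd h4 (by simp)) (ne_top_of_le_ne_top ENNReal.ofReal_ne_top h2)
    rw [← Real.log_exp ((1 + ε₂) * M)]
    exact Real.log_le_log h5 h3
  have hμ : μ0 ≤ M := ((le_max_left _ _).trans hKc).trans HN.Kc_le
  have hE1 : G.cg.prs (fun x => (ζ - t0 + t0) * (x.1 : ℝ)) ≤
      G.cg.prs (fun x => (ζ - t0) * (x.1 : ℝ)) + t0 * (m + 1 / 4) := by
    have h1 := hloA (ζ - t0) 0
    have h2 := HN.end1 hK hεa hε hε₂.le hε2 hθ ht0 hmid h1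
    rw [hfa0 (ζ - t0)] at h2
    rw [sub_add_cancel]
    exact h2
  have hE2 : G.cg.prs (fun x => (ζ + t0 - t0) * (x.1 : ℝ)) ≤
      G.cg.prs (fun x => (ζ + t0) * (x.1 : ℝ)) - t0 * (m + 3 / 4) := by
    have h1 := hloB (ζ + t0) 0
    have h2 := HN.end2 hK hεa hε hε₂.le hε2 hθ ht0 hmid h1
    rw [hfa0 (ζ + t0)] at h2
    rw [add_sub_cancel_right]
    exact h2
  obtain ⟨w, n1, n2, hn12, hw1, hw2⟩ := hμ0 (Mix.Ct (Fin d → ℝ)) _ G.cg
    (GA (K - K) i₁ i₂ m α a h h) (GB (K - K) i₁ i₂ m α b h h) (gms (K - K) i₁ i₂ m α a h h)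
    (fun x => x.1)
    (2 * k) M (ζ - t0) (ζ + t0) le_rfl le_rfl (by
      show 2 * r ≤ 10 * k
      omega) hμ (by linarith) hOk ⟨t0, ht0pos, by linarith, hE1⟩ ⟨t0, ht0pos, by linarith, hE2⟩
  exact G.transition_of_kink hd1 hG.ex hn12 (fun t ht => hw1 t ht) (fun t ht => hw2 t ht)

end Pool.Agent.RC
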