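import Pool.Agent.Lib.MP_09cbbd_rc.Vol

/-!
# The volume of the difference for small parameters
-/

set_option autoImplicit false

namespace Pool.Agent.RC

open MeasureTheory Pointwise

variable {d : ℕ}

theorem Geo.vol_small (hd : 1 ≤ d) {N : Set (Fin d → ℝ)} {c : ℝ} {D : ℕ} (hN : Core N c D) {m : ℕ}
    {R δ : ℝ} (hR : 0 ≤ R) (hm : 8 * (4 * R + 7) ^ d ≤ m) (hδ : 0 < δ) (hmδ : 1 ≤ m * δ) :
    ∃ δ' : ℝ, 0 < δ' ∧ ∀ (i₁ i₂ : Fin d) (α a b β β' τ ε : ℝ) (E : Set (Fin d → ℝ)),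
      α ≤ δ' → τ ≤ δ' → 0 ≤ ε → ε ≤ δ' → Geo d i₁ i₂ m R α a b β β' τ ε N E →
      volume (symmDiff E N) ≤ ENNReal.ofReal δ := by
  obtain ⟨V, hV⟩ : ∃ V : ℝ, V = (volume N).toReal := ⟨_, rfl⟩
  have hV0 : 0 ≤ V := by rw [hV]; exact ENNReal.toReal_nonneg
  have hm0 : (0 : ℝ) < m := lt_of_lt_of_le (by positivity) hm
  obtain ⟨S, hS⟩ : ∃ S : ℝ, S = 2 * m + 2 + 2 ^ d * V := ⟨_, rfl⟩
  have hS0 : 0 < S := by rw [hS]; positivity
  refine ⟨min 1 (3 / 4 * δ / S), lt_min one_pos (by positivity), ?_⟩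
  intro i₁ i₂ α a b β β' τ ε E hα hτ hε0 hε hG
  obtain ⟨δ', hδ'⟩ : ∃ δ' : ℝ, δ' = min 1 (3 / 4 * δ / S) := ⟨_, rfl⟩
  rw [← hδ'] at hα hτ hε
  have h1 : δ' ≤ 1 := by rw [hδ']; exact min_le_left _ _
  have h2 : δ' * S ≤ 3 / 4 * δ := by
    rw [← le_div_iff₀ hS0, hδ']; exact min_le_right _ _
  refine (hG.vol_symmDiff hN hR hε0 (hτ.trans h1)).trans (ENNReal.ofReal_le_ofReal ?_)
  rw [← hV]
  have ha0 : 0 < a := hG.hb.trans_le hG.hba
  have ha := hG.ha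
  have hτ0 := hG.hτ
  have e1 : 4 * ((m : ℝ) + 1) * (2 * a) ^ d ≤ (m + 1) * δ' := by
    have h3 : (2 * a) ^ d ≤ 2 * a := by
      calc (2 * a) ^ d ≤ (2 * a) ^ 1 :=
            pow_le_pow_of_le_one (by positivity) (by linarith) hd
        _ = 2 * a := pow_one _
    have h4 : 2 * a ≤ δ' / 4 := by linarith
    have h5 : (0 : ℝ) ≤ 4 * ((m : ℝ) + 1) := by positivity
    calc 4 * ((m : ℝ) + 1) * (2 * a) ^ d ≤ 4 * ((m : ℝ) + 1) * (δ' / 4) :=
          mul_le_mul_of_nonneg_left (h3.trans h4) h5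
      _ = (m + 1) * δ' := by ring
  have e2 : ((1 + τ) ^ d - 1) * V ≤ 2 ^ d * V * δ' := by
    have h3 := VolG.pow_le d hτ0 (hτ.trans h1)
    have h4 : (1 + τ) ^ d - 1 ≤ 2 ^ d * δ' := by
      have h5 : ((2 : ℝ) ^ d - 1) * τ ≤ 2 ^ d * τ := by nlinarith
      have h6 : (2 : ℝ) ^ d * τ ≤ 2 ^ d * δ' := mul_le_mul_of_nonneg_left hτ (by positivity)
      linarith
    calc ((1 + τ) ^ d - 1) * V ≤ 2 ^ d * δ' * V := mul_le_mul_of_nonneg_right h4 hV0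
      _ = 2 ^ d * V * δ' := by ring
  have e3 : (4 * R + 7) ^ d * (2 / (m : ℝ) ^ 2 + ε) ≤ δ / 4 + m * δ' := by
    have h3 : (4 * R + 7) ^ d ≤ m / 8 := by linarith
    have h5 : (m : ℝ) / 8 * (2 / (m : ℝ) ^ 2) ≤ δ / 4 := by
      have e : (m : ℝ) / 8 * (2 / (m : ℝ) ^ 2) = 1 / (4 * m) := by field_simp; norm_num
      rw [e, div_le_iff₀ (by positivity)]
      linarith
    have h6 : (m : ℝ) / 8 * ε ≤ m * δ' := by
      have h7 : (m : ℝ) / 8 * ε ≤ m / 8 * δ' := mul_le_mul_of_nonneg_left hε (by positivity)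
      nlinarith [mul_nonneg hm0.le (hτ0.trans hτ)]
    calc (4 * R + 7) ^ d * (2 / (m : ℝ) ^ 2 + ε) ≤ m / 8 * (2 / (m : ℝ) ^ 2 + ε) :=
          mul_le_mul_of_nonneg_right h3 (by positivity)
      _ = m / 8 * (2 / (m : ℝ) ^ 2) + m / 8 * ε := by ring
      _ ≤ _ := add_le_add h5 h6
  have e4 : δ' * S = (m + 1) * δ' + 2 ^ d * V * δ' + m * δ' + δ' := by rw [hS]; ring
  have h7 : 0 ≤ δ' := hτ0.trans hτ
  linarith

/-- the excluded set contains the hard core except a small neighbourhood of the origin -/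
theorem Geo.core_sub {N E : Set (Fin d → ℝ)} {m : ℕ} {R : ℝ} {i₁ i₂ : Fin d}
    {α a b β β' τ ε : ℝ} (hG : Geo d i₁ i₂ m R α a b β β' τ ε N E) {u : Fin d → ℝ} (hu : u ∈ N)
    (h : (m + 2) * α ≤ ‖u‖) : u ∈ E := by
  by_contra hE
  have h1 := hG.hb
  have h2 := hG.hba
  have h3 := hG.ha
  have hα : 0 < α := by linarith
  have key : ∀ (i : Fin d) (k : ℤ) (r : ℝ), |k| ≤ m → r ≤ a →
      (∀ j, |u j - (if j = i then k * α else 0)| < r) → ‖u‖ < (m + 2) * α := by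
    intro i k r hk hr h5
    rw [pi_norm_lt_iff (by positivity)]
    intro j
    have h6 : |(if j = i then (k : ℝ) * α else 0)| ≤ m * α := by
      split_ifs
      · rw [abs_mul, abs_of_pos hα]
        have : |(k : ℝ)| ≤ m := by exact_mod_cast hk
        exact mul_le_mul_of_nonneg_right this hα.le
      · rw [abs_zero]
        positivity
    have h7 := abs_add_le (u j - (if j = i then (k : ℝ) * α else 0))
      (if j = i then (k : ℝ) * α else 0)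
    rw [sub_add_cancel] at h7
    have h8 := h5 j
    rw [Real.norm_eq_abs]
    linarith
  rcases hG.near u hu hE with ⟨k, -, hk, h5⟩ | ⟨k, -, hk, h5⟩
  · exact absurd (key i₁ k a hk.le le_rfl h5) (not_lt.mpr h)
  · exact absurd (key i₂ k b (by omega) h2 h5) (not_lt.mpr h)

end Pool.Agent.RC
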