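import Pool.Agent.Lib.MP_09cbbd_rc.Fin
import Pool.Agent.Lib.MP_09cbbd_rc.FinV
import Pool.Agent.Lib.MP_09cbbd_rc.InstC

/-!
# Identical hard bodies: from the parametric theorem to `MainCore`
-/

set_option autoImplicit false

namespace Pool.Agent.RC

open MeasureTheory Pointwise

/-- the parametric theorem (`EndG`) -/
def EndStmt (d : ℕ) : Prop :=
  ∀ (N : Set (Fin d → ℝ)) (c : ℝ) (D : ℕ), Core N c D → ∀ i₁ i₂ : Fin d, i₁ ≠ i₂ →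
    ∃ k0 : ℕ, ∀ k : ℕ, k0 ≤ k → ∀ δ : ℝ, 0 < δ →
    ∃ (α a b β β' τ ε : ℝ) (K : Set (Fin d → ℝ)) (η : ℝ), IsBody d K ∧ 0 < η ∧
      α ≤ δ ∧ τ ≤ δ ∧ 0 < ε ∧ ε ≤ δ ∧
      ∀ K₁ : Set (Fin d → ℝ), IsCompact K₁ → K ⊆ K₁ → K₁ ⊆ Metric.cthickening η K →
      Geo d i₁ i₂ (8 * (8 * k + 11) ^ d) (2 * k + 1) α a b β β' τ ε N (K₁ - K₁) ∧
      ExGas.Transition d (K₁ - K₁)

theorem mainCore_of {d : ℕ} (hd : 2 ≤ d) (H : EndStmt d) : MainCore d := by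
  intro N c D hN δ hδ
  have hne : (⟨0, by omega⟩ : Fin d) ≠ ⟨1, by omega⟩ := fun h => by
    have := congrArg Fin.val h
    simp at this
  obtain ⟨k0, hk0⟩ := H N c D hN _ _ hne
  obtain ⟨k, hk⟩ : ∃ k : ℕ, k = max k0 ⌈1 / δ⌉₊ := ⟨_, rfl⟩
  have h1 : k0 ≤ k := by rw [hk]; exact le_max_left _ _
  have h2 : 1 / δ ≤ k := by
    rw [hk]
    refine (Nat.le_ceil _).trans ?_
    exact_mod_cast le_max_right _ _
  obtain ⟨m, hm⟩ : ∃ m : ℕ, m = 8 * (8 * k + 11) ^ d := ⟨_, rfl⟩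
  have h3 : (k : ℝ) ≤ m := by
    have h4 : 8 * k + 11 ≤ (8 * k + 11) ^ d := Nat.le_self_pow (by omega) _
    exact_mod_cast (by omega : k ≤ m)
  obtain ⟨δ', hδ', h⟩ := Geo.vol_small (m := m) (R := 2 * k + 1) (δ := δ)
    (by omega) hN (by positivity) (by
      rw [hm]
      push_cast
      rw [show 4 * (2 * (k : ℝ) + 1) + 7 = 8 * k + 11 by ring]) hδ (by
      rw [div_le_iff₀ hδ] at h2
      nlinarith)
  obtain ⟨α, a, b, β, β', τ, ε, K, η, hK, hη, hα, hτ, hε0, hε, hT⟩ :=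
    hk0 k h1 (min δ' (δ / (m + 2))) (lt_min hδ' (by positivity))
  refine ⟨K, η, hK, hη, fun K₁ hK₁ g1 g2 => ?_⟩
  obtain ⟨hG, hTr⟩ := hT K₁ hK₁ g1 g2
  rw [← hm] at hG
  refine ⟨fun u hu hn => hG.core_sub hu (le_trans ?_ hn),
    h _ _ _ _ _ _ _ _ _ _ (hα.trans (min_le_left _ _)) (hτ.trans (min_le_left _ _)) hε0.le
      (hε.trans (min_le_left _ _)) hG, hTr⟩
  have h4 : α ≤ δ / (m + 2) := hα.trans (min_le_right _ _)
  rw [le_div_iff₀ (by positivity)] at h4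
  linarith

end Pool.Agent.RC
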