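import Pool.Agent.Lib.MP_09cbbd_rc.GKb
import Pool.Agent.Lib.MP_09cbbd_rc.BalD
import Pool.Agent.Lib.MP_09cbbd_rc.PMain

/-!
# Rows and columns round a general hard core: the kink
-/

set_option autoImplicit false

namespace Pool.Agent.RC

open MeasureTheory Finset Filter Topology
open Pool.Agent.StableGas hiding tr
open Pool.Agent.SquareWell hiding Md cut
open Pool.Agent.SquareWell.ModA
open Pool.Agent.Vdw (blk lift ball Lk Yk Wk Kc)
open Pool.Agent.Mix (Qr mem_Qr Trans Ct)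
open Pool.Agent.Exg

variable {d : ℕ}

/-- A smaller error is enough. -/
theorem GenOk.mono {E : Type} [MeasurableSpace E] {M : CG d E} {SA SB od : Set E} {ms nb : E → ℕ}
    {Mx : ℕ → ℕ} {nw : Finset (Zd d) → (Zd d → E) → Finset (Zd d)} {m rc : ℕ}
    {φ c1 ε ε' μ z : ℝ} (H : GenOk M SA SB od ms nb Mx nw m rc φ c1 ε μ z) (hε : ε ≤ ε')
    (hμ : 0 ≤ μ) : GenOk M SA SB od ms nb Mx nw m rc φ c1 ε' μ z :=
  { H with
    cr := fun k L => (H.cr k L).trans (ex_le_ex.2 (by gcongr))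
    lo := fun a => (mul_le_mul_of_nonneg_right (by linarith) hμ).trans (H.lo a)
    grow := fun a h0 h1 =>
      (add_le_add le_rfl (mul_le_mul_of_nonneg_right (by linarith) hμ)).trans (H.grow a h0 h1) }

/-- **The kink for a general hard core.** -/
theorem gen_kink (hd : 2 ≤ d) {c1 Cm φ : ℝ} (hc1 : 0 < c1) (hc1' : c1 ≤ 1) (hCm : 1 ≤ Cm)
    (hφ : 0 < φ) (hφ1 : φ ≤ 1) {Mx : ℕ → ℕ} (hMx : ∀ k : ℕ, φ * (k : ℝ) ^ d ≤ Mx k)
    (hMx' : ∀ η > 0, ∀ᶠ k : ℕ in atTop, (Mx k : ℝ) ≤ (φ + η) * (k : ℝ) ^ d)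
    {st : ℕ} (hst : 2 ≤ st) (q : ℕ) :
    ∃ k0 : ℕ, ∀ k m : ℕ, k0 ≤ k → 1 ≤ m → (m : ℝ) ≤ Cm * (k : ℝ) ^ d →
      ∃ ε : ℝ, 0 < ε ∧ ∃ μ0 : ℝ, ∀ (E : Type) (_ : MeasurableSpace E) (M : CG d E)
      (SA SB od : Set E) (ms nb : E → ℕ) (nw : Finset (Zd d) → (Zd d → E) → Finset (Zd d))
      (rc : ℕ) (μ z1 z2 : ℝ), 2 * k ≤ rc → M.q ≤ q →
      2 * M.r ≤ st * k → μ0 ≤ μ → z1 < z2 →
      (∀ z ∈ Set.Icc z1 z2, GenOk M SA SB od ms nb Mx nw m rc φ c1 ε μ z) →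
      (∃ t > 0, z1 + t ≤ z2 ∧ M.prs (fun x => (z1 + t) * nb x) ≤
        M.prs (fun x => z1 * nb x) + t * ((m + 1 / 4) * φ)) →
      (∃ t > 0, z1 ≤ z2 - t ∧ M.prs (fun x => (z2 - t) * nb x) ≤
        M.prs (fun x => z2 * nb x) - t * ((m + 3 / 4) * φ)) →
      ∃ w n1 n2 : ℝ, n1 < n2 ∧
        (∀ t > 0, M.prs (fun x => w * nb x) + t * n2 ≤ M.prs (fun x => (w + t) * nb x)) ∧
        ∀ t > 0, M.prs (fun x => w * nb x) - t * n1 ≤ M.prs (fun x => (w - t) * nb x) := by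
  have hd1 : 1 ≤ d := by omega
  obtain ⟨c2, C1, hc2, hC1, hblk⟩ := Ldr.blk (d := d) hc1 hc1' hCm hφ hφ1 q
  obtain ⟨ε0, hε0, k0, hph⟩ := blk_phases (d := d) hd hφ hφ1 hc2 hC1 hst q
  obtain ⟨ε, hε, hε1, hε2⟩ : ∃ ε : ℝ, 0 < ε ∧ ε ≤ 1 ∧ ε ≤ ε0 :=
    ⟨min 1 ε0, by positivity, min_le_left _ _, min_le_right _ _⟩
  obtain ⟨k1, hk1⟩ := eventually_atTop.1 (hMx' (ε / 4) (by positivity))
  refine ⟨max (max k0 k1) (2 * q + 1), fun k m hk hm hmk => ?_⟩
  have hk0' : k0 ≤ k := ((le_max_left _ _).trans (le_max_left _ _)).trans hk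
  have hk1' : k1 ≤ k := ((le_max_right _ _).trans (le_max_left _ _)).trans hk
  have hkq : 2 * q + 1 ≤ k := (le_max_right _ _).trans hk
  have hkpos : (0 : ℝ) < (k : ℝ) ^ d := by
    have : (0 : ℝ) < k := by
      have : 0 < k := by omega
      exact_mod_cast this
    positivity
  have hMk := hk1 k hk1'
  obtain ⟨μb, hμb⟩ := hph k hk0'
  obtain ⟨εc, hεc, μc, hμc⟩ := GenOk.low (d := d) hd1 hφ hc1 hc1' hm hMx hMx'
  refine ⟨min (ε / 8) εc, lt_min (by positivity) hεc, max (max μb μc) 1, ?_⟩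
  intro E _ M SA SB od ms nb nw rc μ z1 z2 hrc hq hr hμ hz H h1 h2
  have hμ2 : μb ≤ μ := ((le_max_left _ _).trans (le_max_left _ _)).trans hμ
  have hμ3 : μc ≤ μ := ((le_max_right _ _).trans (le_max_left _ _)).trans hμ
  have hμ4 : 1 ≤ μ := (le_max_right _ _).trans hμ
  have hμ0 : 0 < μ := by linarith
  have hεe : min (ε / 8) εc ≤ ε / 8 := min_le_left _ _
  have hεc' : min (ε / 8) εc ≤ εc := min_le_right _ _
  have HH := H z1 (Set.left_mem_Icc.2 hz.le)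
  have hnbm : ∀ᵐ x ∂M.π, nb x ≤ m + 1 := HH.nb_le
  have hbe : ∀ y : ℝ, M.Fld (fun x => y * nb x) := fun y =>
    fld_beads HH.nb_meas HH.nb_e0 hnbm y
  refine kink_of (fun z => M.prs (fun x => z * nb x)) (CG.convexOn_nb hd1 hbe) (φ := φ) (m := m)
    hφ hz h1 h2 fun z hz' => ?_
  have G := H z hz'
  have hSA := G.cub.SA_meas
  have he := G.cub.e0_A
  have hfa : ∀ a, M.IsP (fa (fun x => z * nb x) SA a)
      (M.prs (fa (fun x => z * nb x) SA a)) := fun a =>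
    CG.isP_prs hd1 ((hbe z).fa hSA he a)
  have hbp : ∀ y : ℝ, M.IsP (fun x => y * nb x) (M.prs (fun x => y * nb x)) := fun y =>
    CG.isP_prs hd1 (hbe y)
  have Gε := G.mono (ε' := ε) (by linarith) hμ0.le
  have B : Blk M SA SB (fun x => z * nb x) (fun a => M.prs (fa (fun x => z * nb x) SA a))
      φ c2 C1 ε μ k (ebN M SA SB od ms m c1 μ nw Mx k) := by
    refine hblk k m hkq hm hmk E _ M SA SB od ms rc Mx nw (fun x => z * nb x) _ ε μ hμ0 G.cub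
      G.ldr hrc hq (hMx k) ?_ (hbe z) hfa Gε.lo fun L => ?_
    · exact hMk.trans (mul_le_mul_of_nonneg_right (by linarith) hkpos.le)
    · have e : ∀ ω, 1 / 2 * μ * (k : ℝ) ^ d * ∑ q ∈ L, ebN M SA SB od ms m c1 μ nw Mx k L ω q =
          1 / 2 * ∑ q ∈ L, GN M SA SB od ms m c1 μ nw Mx k (lift k L) ω q := fun ω => by
        rw [← sum_ebN hμ0 (by omega)]
        ring
      simp only [e]
      refine (G.cr k L).trans (ex_le_ex.2 ?_)
      have h3 : (1 + min (ε / 8) εc) * μ * Mx k + min (ε / 8) εc * μ * (k : ℝ) ^ d ≤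
          (φ + ε) * μ * (k : ℝ) ^ d := by
        have h4 : (1 + min (ε / 8) εc) * μ * Mx k ≤
            (1 + ε / 8) * μ * ((φ + ε / 4) * (k : ℝ) ^ d) := by
          refine mul_le_mul (mul_le_mul_of_nonneg_right (by linarith) hμ0.le) hMk
            (Nat.cast_nonneg _) (by positivity)
        have h5 : min (ε / 8) εc * μ * (k : ℝ) ^ d ≤ ε / 8 * μ * (k : ℝ) ^ d :=
          mul_le_mul_of_nonneg_right (mul_le_mul_of_nonneg_right hεe hμ0.le) hkpos.le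
        refine (add_le_add h4 h5).trans ?_
        have h6 : (1 + ε / 8) * (φ + ε / 4) + ε / 8 ≤ φ + ε := by nlinarith
        have h7 := mul_le_mul_of_nonneg_right h6 (mul_pos hμ0 hkpos).le
        nlinarith
      have h8 := mul_le_mul_of_nonneg_right h3 (Nat.cast_nonneg (α := ℝ) L.card)
      linarith
  refine ⟨fun a => M.prs (fa (fun x => z * nb x) SA a),
    CG.convexOn_fa hd1 (hbe z) hSA he, ?_, fun D hD => ?_, ?_, ?_⟩
  · have hfa0 : fa (fun x => z * nb x) SA 0 = fun x => z * nb x := by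
      funext x
      simp [fa]
    simp only [hfa0]
  · exact GenOk.up hd1 G hMx' hD (hfa D) (hbp (z - D))
  · refine ⟨1, one_pos, fun D hD0 hD1 => ?_⟩
    exact hμc E _ M SA SB od ms nb nw rc μ z (fun y => M.prs (fun x => y * nb x))
      (fun a => M.prs (fa (fun x => z * nb x) SA a)) hμ3 (G.mono hεc' hμ0.le) hbp hfa D hD0 hD1
  · exact hμb E _ M SA SB _ _ ε μ _ B hε.le hε2 hμ2 hq hr G.one Gε.grow G.shA G.shB

end Pool.Agent.RC
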