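import Pool.Agent.Lib.MP_09cbbd_rc.BalC

/-!
# Rows and columns round a general hard core: the crude bound for large `μ`
-/

set_option autoImplicit false

namespace Pool.Agent.RC

open MeasureTheory Finset Filter Topology Pool.Agent.StableGas
open Pool.Agent.SquareWell hiding Md cut
open Pool.Agent.Vdw (blk lift ball Lk Yk Wk Kc)
open Pool.Agent.Mix (Qr mem_Qr)

variable {d : ℕ}

/-- The constant of the crude bound. -/
theorem exists_K (q : ℕ) (C : ℝ) : ∃ K : ℝ, 0 ≤ K ∧ ∀ q' : ℕ, q' ≤ q →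
    4 + (2 * q' + 1 : ENNReal) ^ d + 2 * (3 ^ d * ex C) ≤ ex K := by
  have h0 : (1 : ℝ) ≤ 4 + (2 * q + 1 : ℝ) ^ d + 2 * (3 ^ d * Real.exp C) := by
    have h1 : (0 : ℝ) ≤ (2 * q + 1 : ℝ) ^ d := by positivity
    have h2 : (0 : ℝ) ≤ 2 * (3 ^ d * Real.exp C) := by positivity
    linarith
  refine ⟨Real.log (4 + (2 * q + 1 : ℝ) ^ d + 2 * (3 ^ d * Real.exp C)), Real.log_nonneg h0,
    fun q' hq' => ?_⟩
  have e1 : ex (Real.log (4 + (2 * q + 1 : ℝ) ^ d + 2 * (3 ^ d * Real.exp C))) =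
      4 + (2 * q + 1 : ENNReal) ^ d + 2 * (3 ^ d * ex C) := by
    unfold ex
    rw [Real.exp_log (by linarith), ENNReal.ofReal_add (by positivity) (by positivity),
      ENNReal.ofReal_add (by positivity) (by positivity), ENNReal.ofReal_mul (by positivity),
      ENNReal.ofReal_mul (by positivity), ENNReal.ofReal_pow (by positivity),
      ENNReal.ofReal_pow (by positivity), ENNReal.ofReal_add (by positivity) (by positivity),
      ENNReal.ofReal_mul (by positivity), ENNReal.ofReal_natCast]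
    norm_num
  rw [e1]
  refine add_le_add (add_le_add le_rfl (pow_le_pow_left' (add_le_add (mul_le_mul' le_rfl ?_)
    le_rfl) d)) le_rfl
  exact_mod_cast hq'

/-- The crude bound for large `μ`. -/
theorem MasN.cr' {c1 C ε : ℝ} (hc1 : 0 ≤ c1) (hε : 0 < ε) (q : ℕ) :
    ∃ μ0 : ℝ, ∀ (E : Type) (_ : MeasurableSpace E) (M : CG d E) (SA SB od : Set E) (ms : E → ℕ)
      (m rc : ℕ) (Mx : ℕ → ℕ) (nw : Finset (Zd d) → (Zd d → E) → Finset (Zd d)) (h : E → ℝ)
      (LS : Bool → Set E) (OS : Bool → Zd d → Set (E × E)) (tl tO : Bool → E → ℝ) (μ : ℝ),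
      M.q ≤ q → μ0 ≤ μ → Cub M SA SB ms rc → Ldr M SA SB od Mx nw →
      Pcs M SA SB od nw LS OS tl tO → MasN M SA SB od ms m c1 ε μ C h LS OS tl tO →
      ∀ k L, M.int (lift k L) (fun ω => M.w h (lift k L) ω *
        ex (1 / 2 * ∑ q ∈ L, GN M SA SB od ms m c1 μ nw Mx k (lift k L) ω q)) ≤
        ex ((1 + ε) * μ * Mx k * L.card + ε * μ * (k : ℝ) ^ d * L.card) := by
  obtain ⟨K, hK0, hK⟩ := exists_K (d := d) q C
  refine ⟨K / ε, ?_⟩
  intro E _ M SA SB od ms m rc Mx nw h LS OS tl tO μ hq hμ hC HL HP HM k L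
  have hμ0 : 0 ≤ μ := (div_nonneg hK0 hε.le).trans hμ
  have hKμ : K ≤ ε * μ := by
    rw [div_le_iff₀ hε] at hμ
    linarith
  refine (MasN.cr (k := k) hC.SA_meas hC.SB_meas hC.ms_meas HL HP hε.le hμ0 hc1 HM
    (hK M.q hq) L).trans (ex_le_ex.2 ?_)
  have h1 : K * ((k : ℝ) ^ d * L.card) ≤ ε * μ * ((k : ℝ) ^ d * L.card) :=
    mul_le_mul_of_nonneg_right hKμ (by positivity)
  linarith

end Pool.Agent.RC
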