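import Pool.Agent.Lib.MP_09cbbd_rc.GDef

/-!
# Rows and columns round a general hard core: the assumptions on the gas
-/

set_option autoImplicit false

namespace Pool.Agent.RC

open MeasureTheory Finset Filter Topology
open Pool.Agent.StableGas hiding tr
open Pool.Agent.SquareWell hiding Md cut
open Pool.Agent.SquareWell.ModA
open Pool.Agent.Vdw (blk lift ball Lk Yk Wk Kc)
open Pool.Agent.Mix (Qr mem_Qr Trans Ct)
open Pool.Agent.Exg

variable {d : ℕ}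

/-- **Assumptions for a general core**, at the activity `z`. `Mx k` is the packing number of the cube
of side `k`. -/
structure GenOk {E : Type} [MeasurableSpace E] (M : CG d E) (SA SB od : Set E) (ms nb : E → ℕ)
    (Mx : ℕ → ℕ) (nw : Finset (Zd d) → (Zd d → E) → Finset (Zd d)) (m rc : ℕ)
    (φ c1 ε μ z : ℝ) : Prop where
  cub : Cub M SA SB ms rc
  ldr : Ldr M SA SB od Mx nw
  od0 : M.π od = 0
  nb_meas : Measurable nb
  nb_e0 : nb M.e0 = 0
  nb_le : ∀ᵐ x ∂M.π, nb x ≤ m + 1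
  nb_A : ∀ x ∈ SA, nb x + ms x = m
  nb_B : ∀ x ∈ SB, nb x + ms x = m + 1
  beads : ∀ S ω, M.cp id S ω → (∀ i ∈ S, ω i ∉ od) →
    ∑ i ∈ S, nb (ω i) + cnt SA S ω ≤ (m + 1) * (nw S ω).card
  one : ∫⁻ x, ex (z * nb x) ∂M.π ≤ ex (3 / 2 * μ)
  cr : ∀ k L, M.int (lift k L) (fun ω => M.w (fun x => z * nb x) (lift k L) ω *
      ex (1 / 2 * ∑ q ∈ L, GN M SA SB od ms m c1 μ nw Mx k (lift k L) ω q)) ≤
      ex ((1 + ε) * μ * Mx k * L.card + ε * μ * (k : ℝ) ^ d * L.card)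
  shA : ∀ a, M.SH (fa (fun x => z * nb x) SA a) (insert M.e0 SA) (insert M.e0 SA) (1 / 2)
  shB : ∀ a, M.SH (fa (fun x => z * nb x) SA a) (insert M.e0 SB) (insert M.e0 SB) (1 / 2)
  lo : ∀ a, (φ - ε) * μ ≤ M.prs (fa (fun x => z * nb x) SA a)
  grow : ∀ a, 0 ≤ a → a ≤ μ → φ * a + (φ - ε) * μ ≤ M.prs (fa (fun x => z * nb x) SA a)

end Pool.Agent.RC
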