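import Pool.Agent.Lib.MP_09cbbd_rc.MasI

/-!
# Rows and columns: the masses of one cell for a general hard core
-/

set_option autoImplicit false
set_option linter.unusedSectionVars false

namespace Pool.Agent.RC

open MeasureTheory Finset Pointwise Pool.Agent.SquareWellGas
open Pool.Agent.StableGas hiding tr
open Pool.Agent.SquareWell hiding Md cut
open Pool.Agent.SquareWell.ModA
open Pool.Agent.Exg
open Pool.Agent.Mix

variable {d : ℕ}

/-! ### Rings round the hard core -/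

section Ring

variable {N : Set (Fin d → ℝ)} {c : ℝ} {D : ℕ} (hN : Core N c D)

/-- A ring which contains the boundary of the hard core and the boundary of its blow-up. -/
def rgS (N : Set (Fin d → ℝ)) (kap e : ℝ) : Set (Fin d → ℝ) :=
  (((1 + kap) * (1 + e)) • N) \ ((1 + e)⁻¹ • N)

include hN

theorem Core.mem_smul {s : ℝ} (h0 : 0 ≤ s) (h1 : s ≤ 1) {u : Fin d → ℝ} (hu : (1 + s) • u ∈ N) :
    u ∈ N := by
  by_contra h
  refine hN.exp u h s h0 h1 0 (fun j => ?_) ?_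
  · rw [Pi.zero_apply, abs_zero]
    exact mul_nonneg hN.c_pos.le h0
  · rwa [add_zero]

theorem Core.meas_ring (kap e : ℝ) : MeasurableSet (rgS N kap e) :=
  (hN.meas.const_smul₀ _).diff (hN.meas.const_smul₀ _)

theorem Core.mem_ring {kap e t : ℝ} (hk : 0 ≤ kap) (he0 : 0 ≤ e) (he1 : e ≤ 1)
    (ht : 2 * t ≤ c * e) {z w : Fin d → ℝ} (hw : ∀ j, |w j| ≤ t)
    (h1 : z + w ∈ (1 + kap) • N) (h2 : z + w ∉ N) : z ∈ rgS N kap e := by
  have k0 : 0 < 1 + kap := by linarith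
  have e0 : 0 < 1 + e := by linarith
  have hce : 0 ≤ c * e := mul_nonneg hN.c_pos.le he0
  constructor
  · rw [Set.mem_smul_set_iff_inv_smul_mem₀ (mul_pos k0 e0).ne']
    by_contra h3
    refine hN.exp _ h3 e he0 he1 ((1 + kap)⁻¹ • w) (fun j => ?_) ?_
    · rw [Pi.smul_apply, smul_eq_mul, abs_mul, abs_of_pos (inv_pos.2 k0)]
      have h4 : (1 + kap)⁻¹ ≤ 1 := inv_le_one_of_one_le₀ (by linarith)
      have h5 : (1 + kap)⁻¹ * |w j| ≤ 1 * |w j| :=
        mul_le_mul_of_nonneg_right h4 (abs_nonneg _)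
      have h6 := abs_nonneg (w j)
      have h7 := hw j
      linarith
    · rw [Set.mem_smul_set_iff_inv_smul_mem₀ k0.ne'] at h1
      have e1 : (1 + e) • ((1 + kap) * (1 + e))⁻¹ • z + (1 + kap)⁻¹ • w =
          (1 + kap)⁻¹ • (z + w) := by
        rw [smul_add, smul_smul]
        congr 2
        field_simp
      rwa [e1]
  · rw [Set.mem_smul_set_iff_inv_smul_mem₀ (inv_pos.2 e0).ne', inv_inv]
    intro h3
    refine hN.exp _ h2 e he0 he1 (-(1 + e) • w) (fun j => ?_) ?_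
    · rw [Pi.smul_apply, smul_eq_mul, abs_mul, abs_neg, abs_of_pos e0]
      have h5 : (1 + e) * |w j| ≤ 2 * |w j| :=
        mul_le_mul_of_nonneg_right (by linarith) (abs_nonneg _)
      have h7 := hw j
      linarith
    · have e1 : (1 + e) • (z + w) + -(1 + e) • w = (1 + e) • z := by
        rw [smul_add, neg_smul, add_neg_cancel_right]
      rwa [e1]

theorem Core.vol_le : volume N ≤ ENNReal.ofReal ((2 * D) ^ d) := by
  have h1 : N ⊆ {z : Fin d → ℝ | ∀ j, |z j| < D} := fun u hu j => hN.bdd u hu j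
  refine (measure_mono h1).trans (le_of_eq ?_)
  rw [Cell.vol_abs_lt]
  rw [ENNReal.ofReal_pow (by positivity)]

theorem Core.vol_ring {kap e : ℝ} (hk : 0 ≤ kap) (hk1 : kap ≤ 1) (he0 : 0 ≤ e) (he1 : e ≤ 1) :
    volume (rgS N kap e) ≤ ENNReal.ofReal ((8 * D) ^ d * d * (kap + 3 * e)) := by
  have k0 : 0 < 1 + kap := by linarith
  have e0 : 0 < 1 + e := by linarith
  obtain ⟨x, hx⟩ : ∃ x, x = (1 + kap) * (1 + e) := ⟨_, rfl⟩
  obtain ⟨y, hy⟩ : ∃ y, y = (1 + e)⁻¹ := ⟨_, rfl⟩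
  have hx0 : 0 < x := by
    rw [hx]
    positivity
  have hy0 : 0 < y := by
    rw [hy]
    positivity
  have hy1 : y ≤ 1 := by
    rw [hy]
    exact inv_le_one_of_one_le₀ (by linarith)
  have hy2 : 1 - e ≤ y := by
    rw [hy, ← one_div, le_div_iff₀ e0]
    nlinarith
  have hx4 : x ≤ 4 := by
    rw [hx]
    nlinarith
  have hx1 : 1 ≤ x := by
    rw [hx]
    nlinarith
  have hxy : x - y ≤ kap + 3 * e := by
    rw [hx]
    nlinarith
  have hsub : y • N ⊆ x • N := by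
    rintro u hu
    rw [Set.mem_smul_set_iff_inv_smul_mem₀ hy0.ne'] at hu
    rw [Set.mem_smul_set_iff_inv_smul_mem₀ hx0.ne']
    have h1 : u ∈ N := by
      refine hN.mem_smul he0 he1 ?_
      rw [hy, inv_inv] at hu
      exact hu
    have h2 : (1 + kap)⁻¹ • u ∈ N := by
      refine hN.mem_smul hk hk1 ?_
      rwa [smul_smul, mul_inv_cancel₀ k0.ne', one_smul]
    refine hN.mem_smul he0 he1 ?_
    have e1 : (1 + e) • x⁻¹ • u = (1 + kap)⁻¹ • u := by
      rw [smul_smul, hx]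
      congr 1
      field_simp
    rwa [e1]
  have hV := hN.vol_le
  have hVf : volume N ≠ ⊤ := ne_top_of_le_ne_top ENNReal.ofReal_ne_top hV
  have hs : ∀ s : ℝ, 0 ≤ s → volume (s • N) = ENNReal.ofReal (s ^ d) * volume N := by
    intro s hs
    rw [Measure.addHaar_smul, Module.finrank_fin_fun, abs_of_nonneg (pow_nonneg hs d)]
  unfold rgS
  rw [← hx, ← hy, measure_sdiff hsub (hN.meas.const_smul₀ _).nullMeasurableSet
    (by
      rw [hs y hy0.le]
      exact ENNReal.mul_ne_top ENNReal.ofReal_ne_top hVf), hs x hx0.le, hs y hy0.le,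
    ← ENNReal.sub_mul (fun _ _ => hVf), ← ENNReal.ofReal_sub _ (pow_nonneg hy0.le d)]
  have h1 := Cell.pow_sub_le hy0.le (hy1.trans hx1) d
  have h2 : x ^ d - y ^ d ≤ 4 ^ d * d * (kap + 3 * e) := by
    refine h1.trans ?_
    have h3 : x ^ (d - 1) ≤ 4 ^ d := by
      calc x ^ (d - 1) ≤ x ^ d := pow_le_pow_right₀ hx1 (Nat.sub_le d 1)
        _ ≤ 4 ^ d := pow_le_pow_left₀ hx0.le hx4 d
    have h4 : 0 ≤ kap + 3 * e := by positivity
    have h5 : 0 ≤ x - y := by linarith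
    calc (d : ℝ) * x ^ (d - 1) * (x - y) ≤ d * 4 ^ d * (x - y) :=
          mul_le_mul_of_nonneg_right (mul_le_mul_of_nonneg_left h3 (Nat.cast_nonneg d)) h5
      _ ≤ d * 4 ^ d * (kap + 3 * e) := mul_le_mul_of_nonneg_left hxy (by positivity)
      _ = _ := by ring
  calc ENNReal.ofReal (x ^ d - y ^ d) * volume N
      ≤ ENNReal.ofReal (4 ^ d * d * (kap + 3 * e)) * ENNReal.ofReal ((2 * D) ^ d) :=
        mul_le_mul' (ENNReal.ofReal_le_ofReal h2) hV
    _ = _ := by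
        rw [← ENNReal.ofReal_mul (by positivity)]
        congr 1
        rw [show (8 : ℝ) * D = 4 * (2 * D) by ring, mul_pow 4]
        ring

end Ring

/-! ### The masses -/

variable {i₁ i₂ : Fin d} {m : ℕ} {R α a b β β' τ ε : ℝ} {N E : Set (Fin d → ℝ)}

/-- The numbers for the masses: `t` is the thickness of the walls, `V` is the volume of the ring. -/
structure MNumG (d m : ℕ) (a b t V ζ lam X c1 ε₀ μ : ℝ) : Prop where
  par : Cell.Par d m a b ζ lam X
  μ0 : 0 ≤ μ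
  c1_0 : 0 ≤ c1
  κ : μ / (2 * m) ≤ 2 * lam
  c : 2 * (c1 * μ) ≤ m * lam
  V0 : 0 ≤ V
  n1 : Real.exp (c1 * μ / 2) + (2 * ((m : ℝ) + 1)) ^ (m + 1) *
    (Real.exp X + 2 * d * t * Real.exp (X + c1 * μ / 2)) ≤ Real.exp ((1 + ε₀) * μ)
  n2 : (2 * ((m : ℝ) + 1)) ^ (m + 2) * (V * Real.exp (X + c1 * μ / 2)) ≤ Real.exp ((1 - c1) * μ)

/-- **The masses of one cell**, general near field. -/
theorem mas_gen (hG : Geo d i₁ i₂ m R α a b β β' τ ε N E) (G : Ng d E)
    {h w t V ζ lam X c1 ε₀ μ : ℝ} (hh : 0 < h) (hw : 0 ≤ w)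
    (ht : w + h ≤ t) (ht' : w + (m + 1) * α ≤ t) {SA SB : Set (Ct (Fin d → ℝ))}
    {ms : Ct (Fin d → ℝ) → ℕ} (hSA : MeasurableSet SA) (hSB : MeasurableSet SB)
    (hms : Measurable ms) (H : Tys E i₁ i₂ m α a b h w SA SB ms) {D' : Set (Fin d → ℝ)}
    (hDm : MeasurableSet D') (hV : volume D' ≤ ENNReal.ofReal V)
    (hD : ∀ z w : Fin d → ℝ, (∀ j, |w j| ≤ (m + 1) * α) → z + w ∈ G.Nk 2 →
      (z + w ∈ G.Nk 0 → z + w ∉ E) → z ∈ D')
    (Q : MNumG d m a b t V ζ lam X c1 ε₀ μ) : Mas G.cg SA SB ms m c1 ε₀ μ (Ng.bf d ζ) := by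
  have hE := enr hG (c1 := c1) (μ := μ) hh ht ht' H
  have hen : Measurable (en SA SB ms m c1 μ) := measurable_en hSA hSB hms
  have hκ0 : 0 ≤ μ / (2 * m) := div_nonneg Q.μ0 (by positivity)
  have hc0 : 0 ≤ c1 * μ := mul_nonneg Q.c1_0 Q.μ0
  have ht0 : 0 ≤ t := by linarith
  have hV0 := Q.V0
  have he0A : (e0 : Ct (Fin d → ℝ)) ∉ SA := by
    obtain ⟨tA, QA, hA1, hA2, hA3, rfl⟩ := H.A
    intro h1
    have h3 := h1.1
    rw [show (e0 : Ct (Fin d → ℝ)).1 = 0 from rfl] at h3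
    omega
  have he0B : (e0 : Ct (Fin d → ℝ)) ∉ SB := by
    obtain ⟨tA, QA, hA1, hA2, hA3, rfl⟩ := H.B
    intro h1
    have h3 := h1.1
    rw [show (e0 : Ct (Fin d → ℝ)).1 = 0 from rfl] at h3
    omega
  have hene0 : en SA SB ms m c1 μ e0 = c1 * μ := by
    unfold en
    rw [if_neg]
    rintro (h1 | h1)
    · exact he0A h1
    · exact he0B h1
  have hfun : ∀ x : Ct (Fin d → ℝ), ex (Ng.bf d ζ x + 1 / 2 * en SA SB ms m c1 μ x) =
      ex (ζ * x.1 + en SA SB ms m c1 μ x / 2) := fun x => by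
    unfold Ng.bf
    congr 1
    ring
  refine ⟨G.fld ζ, ?_, ?_⟩
  · rw [lintegral_congr hfun]
    refine (Cell.M1 hG Q.par hκ0 Q.κ hc0 Q.c (Cell.measurableSet_wall t) hen hE).trans ?_
    rw [hene0, pow_cast]
    calc ex (c1 * μ / 2) + ENNReal.ofReal ((2 * ((m : ℝ) + 1)) ^ (m + 1)) *
          (ex X + volume (Cell.wall d t) * ex (X + c1 * μ / 2))
        ≤ ex (c1 * μ / 2) + ENNReal.ofReal ((2 * ((m : ℝ) + 1)) ^ (m + 1)) *
          (ex X + ENNReal.ofReal (2 * d * t) * ex (X + c1 * μ / 2)) :=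
          add_le_add le_rfl (mul_le_mul' le_rfl (add_le_add le_rfl
            (mul_le_mul' (Cell.vol_wall ht0) le_rfl)))
      _ = ENNReal.ofReal (Real.exp (c1 * μ / 2) + (2 * ((m : ℝ) + 1)) ^ (m + 1) *
          (Real.exp X + 2 * d * t * Real.exp (X + c1 * μ / 2))) := by
          unfold ex
          rw [← ENNReal.ofReal_mul (by positivity), ← ENNReal.ofReal_add (by positivity)
            (by positivity), ← ENNReal.ofReal_mul (by positivity), ← ENNReal.ofReal_add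
            (by positivity) (by positivity)]
      _ ≤ _ := ENNReal.ofReal_le_ofReal Q.n1
  · intro v _
    refine Filter.Eventually.of_forall fun y => ?_
    rw [lintegral_congr hfun]
    by_cases hy : Vx E y
    · have hA : MeasurableSet {x | G.cg.nf 0 v x y ∧ ¬ G.cg.nf 2 v x y} := by
        have h3 := (G.cg.nf_meas 0 v).inter (G.cg.nf_meas 2 v).compl
        exact (measurable_id.prodMk (measurable_const (a := y))) h3
      refine (Cell.M2 hG Q.par hκ0 Q.κ hc0 Q.c hen hE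
        (D := {u | u ∈ G.Nk 2 ∧ (u ∈ G.Nk 0 → u ∉ E)}) hDm (fun z w hw hz => hD z w hw hz.1 hz.2)
        v (Vx_card hG hy) hA ?_).trans ?_
      · rintro x ⟨h3, h4⟩ hx
        have h5 : nfp E G.Nk 0 v x y := h3 hx hy
        have h6 : ¬ nfp E G.Nk 2 v x y := fun h7 => h4 fun _ _ => h7
        have h7 : ∃ k < x.1, ∃ l < y.1, x.2 k - tr v (y.2 l) ∈ G.Nk 2 := by
          by_contra h8
          push Not at h8
          exact h6 ⟨h5.1, fun _ => h8⟩
        obtain ⟨k, hk, l, hl, h8⟩ := h7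
        exact ⟨k, hk, l, hl, h8, h5.1 k hk l hl⟩
      · rw [pow_cast]
        refine (mul_le_mul' le_rfl (mul_le_mul' hV le_rfl)).trans ?_
        unfold ex
        rw [← ENNReal.ofReal_mul (by positivity), ← ENNReal.ofReal_mul (by positivity)]
        exact ENNReal.ofReal_le_ofReal Q.n2
    · have h3 : {x | G.cg.nf 0 v x y ∧ ¬ G.cg.nf 2 v x y} = ∅ := by
        ext x
        simp only [Set.mem_ofPred_eq, Set.mem_empty_iff_false, iff_false]
        rintro ⟨-, h4⟩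
        exact h4 fun _ h5 => absurd h5 hy
      rw [h3, Measure.restrict_empty, lintegral_zero_measure]
      exact zero_le

/-- The volume of the ring for the near field with margins. -/
noncomputable def Vrg (d D m : ℕ) (c α τ h : ℝ) : ℝ :=
  (8 * D) ^ d * d * (τ + 2 * (h / c) + 6 * ((m + 1) * α / c)) + (4 * ((m + 1) * α)) ^ d

/-- The set of the first beads of the contents which are too near. -/
def Dg (N : Set (Fin d → ℝ)) (m : ℕ) (c α τ h : ℝ) : Set (Fin d → ℝ) :=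
  rgS N (τ + 2 * (h / c)) (2 * ((m + 1) * α) / c) ∪ {z | ∀ j, |z j| ≤ 2 * ((m + 1) * α)}

theorem measurableSet_Dg {c : ℝ} {D : ℕ} (hC : Core N c D) (h : ℝ) :
    MeasurableSet (Dg N m c α τ h) := by
  refine (hC.meas_ring _ _).union ?_
  have e : {z : Fin d → ℝ | ∀ j, |z j| ≤ 2 * ((m + 1) * α)} =
      ⋂ j, {z : Fin d → ℝ | |z j| ≤ 2 * ((m + 1) * α)} := by
    ext z
    simp
  rw [e]
  exact MeasurableSet.iInter fun j =>
    measurableSet_le (measurable_pi_apply j).abs measurable_const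

theorem volume_Dg {c : ℝ} {D : ℕ} (hC : Core N c D) {h : ℝ} (hh : 0 ≤ h) (hα : 0 ≤ α)
    (hτ : 0 ≤ τ) (h1 : τ + 2 * (h / c) ≤ 1) (h2 : 2 * ((m + 1) * α) ≤ c) :
    volume (Dg N m c α τ h) ≤ ENNReal.ofReal (Vrg d D m c α τ h) := by
  have hc := hC.c_pos
  have h3 : 0 ≤ 2 * (((m : ℝ) + 1) * α) / c := by positivity
  have h4 : 2 * (((m : ℝ) + 1) * α) / c ≤ 1 := (div_le_one hc).2 h2
  have h5 : 0 ≤ τ + 2 * (h / c) := by positivity
  unfold Dg
  refine (measure_union_le _ _).trans ?_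
  have h6 := hC.vol_ring h5 h1 h3 h4
  have h7 : volume {z : Fin d → ℝ | ∀ j, |z j| ≤ 2 * (((m : ℝ) + 1) * α)} =
      ENNReal.ofReal ((4 * ((m + 1) * α)) ^ d) := by
    have := Cell.vol_cube (d := d) (fun _ => 0) (2 * (((m : ℝ) + 1) * α))
    simp only [sub_zero] at this
    rw [this, ← ENNReal.ofReal_pow (by positivity)]
    congr 2
    ring
  rw [h7]
  refine (add_le_add h6 le_rfl).trans ?_
  rw [← ENNReal.ofReal_add (by positivity) (by positivity)]
  refine ENNReal.ofReal_le_ofReal (le_of_eq ?_)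
  unfold Vrg
  congr 2
  ring

/-- **The masses of one cell for the good rows and columns**, general hard core. -/
theorem Geo.masN (hG : Geo d i₁ i₂ m R α a b β β' τ ε N E) {c : ℝ} {D : ℕ} (hC : Core N c D)
    {h w ζ lam X c1 ε₀ μ : ℝ} (hh : 0 < h) (hhc : h ≤ c) (hw : 0 ≤ w)
    (hα : (m + 1) * α ≤ h) (h1 : τ + 2 * (h / c) ≤ 1) (h2 : 2 * ((m + 1) * α) ≤ c) {q r : ℕ}
    (hq : (1 + τ + 2 * (h / c)) * D ≤ q) (hr : 2 * R + 3 ≤ r) (hqr : q ≤ r)
    (Q : MNumG d m a b (w + h) (Vrg d D m c α τ h) ζ lam X c1 ε₀ μ) :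
    Mas (hG.ng hC hh.le hhc hq hr hqr).cg (GA E i₁ i₂ m α a h w)
      (GB E i₁ i₂ m α b h w) (gms E i₁ i₂ m α a h w) m c1 ε₀ μ (fun x => ζ * x.1) := by
  have hα0 := hG.α_pos
  have hc := hC.c_pos
  have hτ := hG.hτ
  have g1 := hG.hb
  have g2 := hG.hba
  have g3 := hG.ha
  refine mas_gen hG (hG.ng hC hh.le hhc hq hr hqr) hh hw le_rfl (by linarith)
    (measurableSet_GA hG.meas) (measurableSet_GB hG.meas) (measurable_gms hG.meas) (tys_GAB hG)
    (measurableSet_Dg hC h) (volume_Dg hC hh.le hα0.le hτ h1 h2) ?_ Q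
  intro z u hu hz hz'
  have hz2 : z + u ∈ cNk N c τ h 2 := hz
  have hz0 : z + u ∈ cNk N c τ h 0 → z + u ∉ E := hz'
  unfold cNk at hz2
  by_cases hN : z + u ∈ N
  · right
    have h3 : z + u ∈ cNk N c τ h 0 := by
      rw [cNk_zero, Set.mem_smul_set_iff_inv_smul_mem₀ (by linarith : (1 : ℝ) + τ ≠ 0)]
      have hh0 : 0 ≤ h / c := by positivity
      refine hC.mem_smul hτ (by linarith) ?_
      rwa [smul_smul, mul_inv_cancel₀ (by linarith : (1 : ℝ) + τ ≠ 0), one_smul]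
    have h4 := hG.near _ hN (hz0 h3)
    intro j
    have h5 : |(z + u) j| ≤ (m + 1) * α := by
      rcases Bd.win_of h4 with h6 | h6
      · exact Win_norm hα0 (by linarith) (Nat.le_succ m) h6 j
      · exact Win_norm hα0 (by linarith) le_rfl h6 j
    have h6 : |z j| ≤ |(z + u) j| + |u j| := by
      have := abs_sub (z j + u j) (u j)
      rwa [add_sub_cancel_right] at this
    have h7 := hu j
    linarith
  · left
    have e1 : (1 : ℝ) + τ + ((2 : ℕ) : ℝ) * (h / c) = 1 + (τ + 2 * (h / c)) := by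
      push_cast
      ring
    rw [e1] at hz2
    refine hC.mem_ring (t := (m + 1) * α) (by positivity) (by positivity) ((div_le_one hc).2 h2)
      ?_ hu hz2 hN
    rw [mul_div_cancel₀ _ hc.ne']

end Pool.Agent.RC
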