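import Pool.Agent.Lib.MP_09cbbd_rc.PcsI
import Pool.Agent.Lib.MP_09cbbd_rc.MasG

/-!
# Rows and columns round a general hard core: the masses of the pieces of the molecules
-/

set_option autoImplicit false

namespace Pool.Agent.RC

open MeasureTheory Finset Filter Topology
open Pool.Agent.StableGas hiding tr
open Pool.Agent.SquareWell hiding Md cut
open Pool.Agent.SquareWellGas
open Pool.Agent.SquareWell.ModA
open Pool.Agent.Vdw (blk lift ball Lk Yk Wk Kc)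
open Pool.Agent.Mix (Qr mem_Qr Trans Ct)
open Pool.Agent.Exg

variable {d : ℕ}

theorem mm_pos {P : Bd.Prm d} (hP : P.Ok) (t : Bool) : 0 < P.mm t := by
  cases t
  · exact hP.mB_pos
  · exact hP.mA_pos

/-- **The masses of the leaders.** -/
theorem mL_I {P : Bd.Prm d} (hP : P.Ok) (hE : MeasurableSet P.E) (h0 : ∀ t, 0 < P.dl t)
    (h3 : ∀ t, 3 * P.dl t < P.α) {W : Set (Fin d → ℝ)} (hW : MeasurableSet W) (ζ : ℝ)
    (G : Ng d P.E) (t : Bool) :
    ∫⁻ x in LSI P W t, ex (ζ * x.1 + tlI P ζ t x) ∂G.cg.π ≤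
      (2 * P.mm t) ^ P.mm t * (volume W *
        ex (P.mm t * ζ + (P.mm t - 1) * (d * Real.log (2 * P.dl t)))) :=
  Cell.ML hE hP.α_pos (h0 t) (h3 t) (mm_pos hP t) hW (measurableSet_LSI hE hW t)
    fun x hx _ => ⟨hx.2.1, hx.2.2.1, hx.2.2.2⟩

/-- **The masses of the old pieces.** -/
theorem mO_I {P : Bd.Prm d} (hP : P.Ok) (hE : MeasurableSet P.E) (h0 : ∀ t, 0 < P.dl t)
    (h3 : ∀ t, 3 * P.dl t < P.α) (ζ : ℝ) (G : Ng d P.E) (t : Bool) (v : Zd d)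
    (y : Ct (Fin d → ℝ)) :
    ∫⁻ x in {x | (x, y) ∈ OSI P t v}, ex (ζ * x.1 + tOI P ζ t x) ∂G.cg.π ≤
      (2 * P.mm t) ^ (P.mm t + 1) := by
  have hA : MeasurableSet {x : Ct (Fin d → ℝ) | (x, y) ∈ OSI P t v} :=
    (measurable_id.prodMk measurable_const : Measurable fun x : Ct (Fin d → ℝ) => (x, y))
      (measurableSet_OSI hE t v)
  have e : ∀ x : Ct (Fin d → ℝ), ex (ζ * x.1 + tOI P ζ t x) =
      ex (-(x.1 * (d * Real.log (2 * P.dl t)))) := by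
    intro x
    congr 1
    unfold tOI
    ring
  rw [lintegral_congr e]
  exact Cell.MO hE hP.α_pos (h0 t) (h3 t) (mm_pos hP t) (Exg.tr v (y.2 0)) hA
    fun x hx _ => ⟨hx.2.1, hx.2.2.2.2, hx.2.2.2.1⟩

theorem odI_null {E : Set (Fin d → ℝ)} (hE : MeasurableSet E) : (sys hE).pg (odI E) = 0 := by
  rw [pg_apply hE (measurableSet_odI hE), ENNReal.tsum_eq_zero]
  intro n
  have e : {u ∈ Cf E (Fin n) (Box d 1) | Ct.pad (0 : Fin d → ℝ) u ∈ odI E} = ∅ := by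
    rw [Set.eq_empty_iff_forall_notMem]
    rintro u ⟨h1, h2, h3⟩
    rcases h3 with h3 | h3
    · exact h3 ((Vx_pad_iff u).2 h1)
    · have h5 : n = 0 := h3
      subst h5
      exact h2 (pad_zero_eq u)
  rw [e, measure_empty, mul_zero]

/-- **The null set.** -/
theorem od_null {P : Bd.Prm d} (G : Ng d P.E) : G.cg.π (odI P.E) = 0 := odI_null G.hE

/-! ### The gas -/

/-- The numbers for the masses of the pieces: `t` is the thickness of the walls. -/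
structure PNum (d m : ℕ) (t X c1 μ C : ℝ) : Prop where
  nL : (2 * ((m : ℝ) + 1)) ^ (m + 1) * (2 * d * t * Real.exp X) ≤ Real.exp ((1 - c1) * μ)
  nO : (2 * ((m : ℝ) + 1)) ^ (m + 2) ≤ Real.exp C

section

variable {i₁ i₂ : Fin d} {m : ℕ} {R α a b β β' τ ε : ℝ} {N E : Set (Fin d → ℝ)}

theorem mm_pow_le (t : Bool) {n k : ℕ} (hn : n ≤ k) :
    (2 * ((Bd.prm i₁ i₂ m R α a b β N E).mm t : ENNReal)) ^ n ≤
      ENNReal.ofReal ((2 * ((m : ℝ) + 1)) ^ k) := by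
  rw [← pow_cast]
  have h1 : (2 * ((Bd.prm i₁ i₂ m R α a b β N E).mm t : ENNReal)) ≤ 2 * ((m : ENNReal) + 1) := by
    refine mul_le_mul' le_rfl ?_
    cases t
    · show (((m + 1 : ℕ) : ℕ) : ENNReal) ≤ _
      push_cast
      exact le_rfl
    · show (m : ENNReal) ≤ _
      exact le_self_add
  refine (pow_le_pow_left' h1 n).trans (pow_le_pow_right₀ ?_ hn)
  calc (1 : ENNReal) ≤ 2 * 1 := by norm_num
    _ ≤ 2 * ((m : ENNReal) + 1) := mul_le_mul' le_rfl le_add_self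

theorem Geo.dl_facts (hG : Geo d i₁ i₂ m R α a b β β' τ ε N E) (t : Bool) :
    0 < (Bd.prm i₁ i₂ m R α a b β N E).dl t ∧
      3 * (Bd.prm i₁ i₂ m R α a b β N E).dl t < (Bd.prm i₁ i₂ m R α a b β N E).α ∧
      (Bd.prm i₁ i₂ m R α a b β N E).mm t ≤ m + 1 := by
  have h1 := hG.hb
  have h2 := hG.hba
  have h3 := hG.ha
  cases t
  · exact ⟨h1, by show 3 * b < α; linarith, le_rfl⟩
  · exact ⟨h1.trans_le h2, by show 3 * a < α; linarith, Nat.le_succ m⟩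

theorem Par_ty {ζ lam X : ℝ} (h : Cell.Par d m a b ζ lam X) (t : Bool) :
    ((Bd.prm i₁ i₂ m R α a b β N E).mm t : ℝ) * ζ + ((Bd.prm i₁ i₂ m R α a b β N E).mm t - 1) *
      (d * Real.log (2 * (Bd.prm i₁ i₂ m R α a b β N E).dl t)) ≤ X ∧
      0 ≤ ζ + d * Real.log (2 * (Bd.prm i₁ i₂ m R α a b β N E).dl t) := by
  cases t
  · have h1 := h.muB
    have h2 := h.lamB
    have h3 := h.lam0
    constructor
    · show (((m + 1 : ℕ) : ℕ) : ℝ) * ζ + (((m + 1 : ℕ) : ℝ) - 1) * (d * Real.log (2 * b)) ≤ X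
      push_cast
      rw [add_sub_cancel_right]
      exact h1
    · show 0 ≤ ζ + d * Real.log (2 * b)
      linarith
  · have h1 := h.muA
    have h2 := h.lamA
    have h3 := h.lam0
    constructor
    · exact h1
    · show 0 ≤ ζ + d * Real.log (2 * a)
      linarith

/-- **The masses for a general hard core.** -/
theorem Geo.masNI (hG : Geo d i₁ i₂ m R α a b β β' τ ε N E) {c : ℝ} {D : ℕ} (hC : Core N c D)
    {h w t ζ lam X c1 ε₀ μ C : ℝ} (hh : 0 < h) (hhc : h ≤ c) (hw : 0 ≤ w) (ht : 0 ≤ t)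
    (hα : (m + 1) * α ≤ h) (h1 : τ + 2 * (h / c) ≤ 1) (h2 : 2 * ((m + 1) * α) ≤ c) {q r : ℕ}
    (hq : (1 + τ + 2 * (h / c)) * D ≤ q) (hr : 2 * R + 3 ≤ r) (hqr : q ≤ r)
    (Q : MNumG d m a b (w + h) (Vrg d D m c α τ h) ζ lam X c1 ε₀ μ)
    (Q' : PNum d m t X c1 μ C) :
    MasN (hG.ng hC hh.le hhc hq hr hqr).cg (GA E i₁ i₂ m α a h w)
      (GB E i₁ i₂ m α b h w) (odI E) (gms E i₁ i₂ m α a h w) m c1 ε₀ μ C (fun x => ζ * x.1)
      (LSI (Bd.prm i₁ i₂ m R α a b β N E) (Cell.wall d t))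
      (OSI (Bd.prm i₁ i₂ m R α a b β N E)) (tlI (Bd.prm i₁ i₂ m R α a b β N E) ζ)
      (tOI (Bd.prm i₁ i₂ m R α a b β N E) ζ) := by
  have hM := hG.masN hC hh hhc hw hα h1 h2 hq hr hqr Q
  have hP := Bd.ok_of hG
  refine ⟨hM.fld, odI_null hG.meas, hM.m1, hM.m2, fun t' => ?_,
    fun t' v _ => Filter.Eventually.of_forall fun y => ?_⟩
  · refine (mL_I hP hG.meas (fun t => (hG.dl_facts t).1) (fun t => (hG.dl_facts t).2.1)
      (Cell.measurableSet_wall t) ζ (hG.ng hC hh.le hhc hq hr hqr) t').trans ?_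
    refine (mul_le_mul' (mm_pow_le t' (hG.dl_facts t').2.2) (mul_le_mul' (Cell.vol_wall ht)
      (ex_le_ex.2 (Par_ty Q.par t').1))).trans ?_
    unfold ex
    rw [← ENNReal.ofReal_mul (by positivity), ← ENNReal.ofReal_mul (by positivity)]
    exact ENNReal.ofReal_le_ofReal Q'.nL
  · refine (mO_I hP hG.meas (fun t => (hG.dl_facts t).1) (fun t => (hG.dl_facts t).2.1) ζ
      (hG.ng hC hh.le hhc hq hr hqr) t' v y).trans ?_
    have h3 := (hG.dl_facts t').2.2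
    exact (mm_pow_le t' (by omega)).trans (ENNReal.ofReal_le_ofReal Q'.nO)

/-- **The pieces for a general hard core.** -/
theorem Geo.pcsN (hG : Geo d i₁ i₂ m R α a b β β' τ ε N E) (hN : ∀ u ∈ N, -u ∈ N)
    (h8 : 8 * ((m + 1) * α) ≤ 1) (G : Ng d E) {A B : Set (Ct (Fin d → ℝ))} {w t ζ lam X : ℝ}
    (hA : Awy E A w) (hB : Awy E B w) (hw : (m + 1) * α ≤ w) (ht : (m + 1) * α ≤ t)
    (Q : Cell.Par d m a b ζ lam X) :
    Pcs G.cg A B (odI E) (nwI (Bd.prm i₁ i₂ m R α a b β N E))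
      (LSI (Bd.prm i₁ i₂ m R α a b β N E) (Cell.wall d t))
      (OSI (Bd.prm i₁ i₂ m R α a b β N E)) (tlI (Bd.prm i₁ i₂ m R α a b β N E) ζ)
      (tOI (Bd.prm i₁ i₂ m R α a b β N E) ζ) := by
  have hm : (Bd.prm i₁ i₂ m R α a b β N E).Sm :=
    { toSz := Bd.sz_of hG
      le := Nat.le_succ m
      s8 := by
        show 8 * ((m + 1 : ℕ) : ℝ) * α ≤ 1
        push_cast
        linarith
      N_neg := hN }
  have e1 : (((Bd.prm i₁ i₂ m R α a b β N E).mB : ℕ) : ℝ) *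
      (Bd.prm i₁ i₂ m R α a b β N E).α = (m + 1) * α := by
    show ((m + 1 : ℕ) : ℝ) * α = _
    push_cast
    ring
  refine pcsI (P := Bd.prm i₁ i₂ m R α a b β N E) (Bd.ok_of hG) hm G hA hB (by rw [e1]; exact hw)
    (Cell.measurableSet_wall t) ?_ fun t => (Par_ty Q t).2
  rintro z hz ⟨j, hj⟩
  rw [e1] at hj
  refine ⟨fun j => ⟨(hz j).1, (hz j).2⟩, j, ?_⟩
  rcases hj with hj | hj
  · exact Or.inl (hj.trans_le ht)
  · exact Or.inr (by linarith)

end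

end Pool.Agent.RC
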