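import Pool.Agent.Lib.MP_09cbbd_rc.NbI
import Pool.Agent.Lib.MP_09cbbd_rc.ABS
import Pool.Agent.Lib.MP_09cbbd_rc.CubG
import Pool.Agent.Lib.MP_09cbbd_rc.MasP
import Pool.Agent.Lib.MP_09cbbd_rc.BalT
import Pool.Agent.Lib.MP_09cbbd_rc.GOk
import Pool.Agent.Lib.MP_09cbbd_rc.GCr

/-!
# The assumptions of the Peierls argument for the gas with a general hard core
-/

set_option autoImplicit false

namespace Pool.Agent.RC

open MeasureTheory Finset Filter Topology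
open Pool.Agent.StableGas hiding tr
open Pool.Agent.SquareWell hiding Md cut
open Pool.Agent.SquareWell.ModA
open Pool.Agent.Vdw (blk lift ball Lk Yk Wk Kc)
open Pool.Agent.Mix (Qr mem_Qr Trans Ct)
open Pool.Agent.Exg

variable {d : ℕ} {h w : ℝ} {i₁ i₂ : Fin d} {m : ℕ} {R α a b β β' τ ε : ℝ}
  {N E : Set (Fin d → ℝ)}

/-- The good rows are away from the walls. -/
theorem Geo.awy_A (hG : Geo d i₁ i₂ m R α a b β β' τ ε N E) (hh : 0 < h) (haw : a < w) :
    Awy E (GA E i₁ i₂ m α a h w) (w - a) := by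
  intro x hx
  have h2 := hG.two_le (GA_few hx)
  have hm := hG.hm
  refine ⟨hG.Vx_A hh haw hx, by omega, fun k hk j => ?_⟩
  have h3 := Ty_wall (by omega) hh hG.a_pos.le QW_others hx hk j
  constructor <;> linarith [h3.1, h3.2]

/-- The good columns are away from the walls. -/
theorem Geo.awy_B (hG : Geo d i₁ i₂ m R α a b β β' τ ε N E) (hh : 0 < h) (haw : a < w) :
    Awy E (GB E i₁ i₂ m α b h w) (w - a) := by
  intro x hx
  have h2 := hG.two_le (GB_few hx)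
  have hm := hG.hm
  have hba := hG.hba
  refine ⟨hG.Vx_B hh haw hx, by omega, fun k hk j => ?_⟩
  have h3 := Ty_wall (by omega) hh hG.hb.le QW_others hx hk j
  constructor <;> linarith [h3.1, h3.2]

/-- The number of the patterns of one molecule. -/
noncomputable def Cpt (m : ℕ) : ℝ := (m + 2) * Real.log (2 * (m + 1))

theorem pow_le_Cpt (m : ℕ) : (2 * ((m : ℝ) + 1)) ^ (m + 2) ≤ Real.exp (Cpt m) := by
  unfold Cpt
  rw [show ((m : ℝ) + 2) = ((m + 2 : ℕ) : ℝ) by push_cast; ring, ← Real.log_pow,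
    Real.exp_log (by positivity)]

/-- **The assumptions of the Peierls argument for a general hard core.** -/
theorem genOk_exists (d m q : ℕ) {c1 η : ℝ} (hc1 : 0 ≤ c1) (hη : 0 < η) (hη' : η ≤ 1 / 2) :
    ∃ μ0 : ℝ, ∀ (N E : Set (Fin d → ℝ)) (i₁ i₂ : Fin d) (R α a b β β' τ ε : ℝ)
      (hG : Geo d i₁ i₂ m R α a b β β' τ ε N E) (c : ℝ) (D : ℕ) (hC : Core N c D) (h w : ℝ)
      (hh : 0 < h) (hhc : h ≤ c) (r : ℕ) (hq : (1 + τ + 2 * (h / c)) * D ≤ q)
      (hr : 2 * R + 3 ≤ r) (hqr : q ≤ r), 0 ≤ ε → h = m * (m + 1) * α → (m + 1) * α + a ≤ w →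
      3 ≤ m → 8 * (2 * r + 1) ^ d ≤ m → 4 * (2 * (r : ℝ) + 1) ^ d * (m + 1) ^ 2 * ε ≤ 1 →
      8 * ((m + 1) * α) ≤ 1 → τ + 2 * (h / c) ≤ 1 → 2 * ((m + 1) * α) ≤ c →
      ∀ rc : ℕ, (rc : ℝ) + 1 ≤ R → ∀ lam X μ z φ : ℝ, μ0 ≤ μ →
      MNumG d m a b (w + h) (Vrg d D m c α τ h) z lam X c1 η μ →
      (2 * ((m : ℝ) + 1)) ^ (m + 1) * (2 * d * ((m + 1) * α) * Real.exp X) ≤
        Real.exp ((1 - c1) * μ) →
      (∀ t, (φ - η) * μ ≤ (hG.ng hC hh.le hhc hq hr hqr).cg.prs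
        (fa (fun x => z * x.1) (GA E i₁ i₂ m α a h w) t)) →
      (∀ t, 0 ≤ t → t ≤ μ → φ * t + (φ - η) * μ ≤ (hG.ng hC hh.le hhc hq hr hqr).cg.prs
        (fa (fun x => z * x.1) (GA E i₁ i₂ m α a h w) t)) →
      GenOk (hG.ng hC hh.le hhc hq hr hqr).cg (GA E i₁ i₂ m α a h w) (GB E i₁ i₂ m α b h w)
        (odI E) (gms E i₁ i₂ m α a h w) (fun x => x.1) (fun k => Mx N k)
        (nwI (Bd.prm i₁ i₂ m R α a b β N E)) m rc φ c1 η μ z := by
  obtain ⟨μ0, hμ0⟩ := MasN.cr' (d := d) (C := Cpt m) hc1 hη q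
  refine ⟨μ0, ?_⟩
  intro N E i₁ i₂ R α a b β β' τ ε hG c D hC h w hh hhc r hq hr hqr hε hhα hw hm3 hm8 hε' h8 hτ1
    hα2 rc hR lam X μ z φ hμ Q hn3 hlo hgrow
  have hα := hG.α_pos
  have ha := hG.a_pos
  have hb := hG.hb
  have hba := hG.hba
  have h40 := hG.ha
  have hm3' : (3 : ℝ) ≤ m := by exact_mod_cast hm3
  have hmα : 0 < (m + 1 : ℝ) * α := by positivity
  have haw : a < w := by linarith
  set G := hG.ng hC hh.le hhc hq hr hqr with hGdef
  set P := Bd.prm i₁ i₂ m R α a b β N E with hPdef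
  have hOk : P.Ok := Bd.ok_of hG
  have hSm : P.Sm := sm_of hG hC.sym h8
  have hA : Awy P.E (GA E i₁ i₂ m α a h w) (w - a) := hG.awy_A hh haw
  have hB : Awy P.E (GB E i₁ i₂ m α b h w) (w - a) := hG.awy_B hh haw
  have hwP : (P.mB : ℝ) * P.α ≤ w - a := by
    show ((m + 1 : ℕ) : ℝ) * α ≤ w - a
    push_cast
    linarith
  have hcub := hG.cub (h := h) (w := w) G hh haw hm3 hR
  have hldr : Ldr G.cg (GA E i₁ i₂ m α a h w) (GB E i₁ i₂ m α b h w) (odI E) (fun k => Mx N k)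
      (nwI P) := ldrI hOk hSm hC.meas G hA hB hwP
  have hmE : (m + 1 : ℝ) * α ≤ h := by
    rw [hhα]
    calc (m + 1 : ℝ) * α = 1 * ((m + 1) * α) := by ring
      _ ≤ m * ((m + 1) * α) := mul_le_mul_of_nonneg_right (by linarith) hmα.le
      _ = m * (m + 1) * α := by ring
  have hmas : MasN G.cg (GA E i₁ i₂ m α a h w) (GB E i₁ i₂ m α b h w) (odI E)
      (gms E i₁ i₂ m α a h w) m c1 η μ (Cpt m) (fun x => z * x.1)
      (LSI P (Cell.wall d ((m + 1 : ℝ) * α))) (OSI P) (tlI P z) (tOI P z) :=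
    hG.masNI hC hh hhc (by linarith) hmα.le hmE hτ1 hα2 hq hr hqr Q ⟨hn3, pow_le_Cpt m⟩
  have hpcs : Pcs G.cg (GA E i₁ i₂ m α a h w) (GB E i₁ i₂ m α b h w) (odI E) (nwI P)
      (LSI P (Cell.wall d ((m + 1 : ℝ) * α))) (OSI P) (tlI P z) (tOI P z) :=
    hG.pcsN hC.sym h8 G hA hB (by linarith) le_rfl Q.par
  have hen : ∀ x, 0 ≤ en (GA E i₁ i₂ m α a h w) (GB E i₁ i₂ m α b h w) (gms E i₁ i₂ m α a h w) m
      c1 μ x := fun x => en_nonneg hc1 Q.μ0 x
  exact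
    { cub := hcub
      ldr := hldr
      od0 := hmas.od0
      nb_meas := measurable_fst
      nb_e0 := rfl
      nb_le := hG.ae_beads' hG.meas
      nb_A := fun _ hx => beads_A hx
      nb_B := fun _ hx => hG.beads_B hx
      beads := fun S ω hω hod => beadsI hOk hSm G rfl hA
        (fun x hx => ⟨hG.two_le (GA_few hx), GA_dir hx⟩) hwP S ω hω hod
      one := by
        refine (lintegral_mono fun x => ?_).trans (hmas.m1.trans ?_)
        · rw [ex_le_ex]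
          linarith [hen x]
        · rw [ex_le_ex]
          exact mul_le_mul_of_nonneg_right (by linarith) Q.μ0
      cr := hμ0 _ _ G.cg _ _ _ _ m rc _ _ _ _ _ _ _ μ le_rfl hμ hcub hldr hpcs hmas
      shA := fun t => hG.shA hC hh hhc hq hr hqr hε haw (n := m) (by rw [hhα]; ring) hm8 hε' z t
      shB := fun t => hG.shB hC hh hhc hq hr hqr hε haw (n := m + 1)
        (by rw [hhα]; push_cast; ring) hm8 hε' z t
      lo := hlo
      grow := hgrow }

end Pool.Agent.RC
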