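import Pool.Agent.Lib.MP_09cbbd_rc.Pack

/-!
# Rows and columns round a general hard core: the density of the close packings
-/

set_option autoImplicit false

namespace Pool.Agent.RC

open Finset Filter Topology

variable {d : ℕ}

/-- The packing constant is the density of the close packings. -/
theorem tendsto_Mx (hd : 1 ≤ d) {N : Set (Fin d → ℝ)} {c : ℝ} {D : ℕ} (hN : Core N c D) :
    Tendsto (fun n : ℕ => (Mx N n : ℝ) / (n : ℝ) ^ d) atTop (𝓝 (pk N)) := by
  have h1 : Tendsto (fun n : ℕ => pk N + (1 + D : ℝ) ^ d / (n : ℝ)) atTop (𝓝 (pk N)) := by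
    have := (tendsto_const_div_atTop_nhds_zero_nat ((1 + D : ℝ) ^ d)).const_add (pk N)
    rwa [add_zero] at this
  refine tendsto_of_tendsto_of_tendsto_of_le_of_le' tendsto_const_nhds h1 ?_ ?_
  · filter_upwards [eventually_ge_atTop 1] with n hn
    have hn' : (0 : ℝ) < (n : ℝ) ^ d := by
      have : (0 : ℝ) < n := by exact_mod_cast hn
      positivity
    rw [le_div_iff₀ hn']
    exact pk_le hn
  · filter_upwards [eventually_ge_atTop 1] with n hn
    have hn0 : (0 : ℝ) < n := by exact_mod_cast hn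
    have hn' : (0 : ℝ) < (n : ℝ) ^ d := by positivity
    rw [div_le_iff₀ hn']
    refine (Mx_le_surf hN hd hn).trans (le_of_eq ?_)
    rw [add_mul]
    congr 1
    obtain ⟨e, rfl⟩ : ∃ e, d = e + 1 := ⟨d - 1, by omega⟩
    rw [Nat.add_sub_cancel, pow_succ (n : ℝ) e]
    field_simp

theorem pk_mul_le (hd : 1 ≤ d) (N : Set (Fin d → ℝ)) (n : ℕ) : pk N * (n : ℝ) ^ d ≤ Mx N n := by
  rcases Nat.eq_zero_or_pos n with hn | hn
  · subst hn
    rw [Nat.cast_zero, zero_pow (by omega), mul_zero]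
    exact Nat.cast_nonneg _
  · exact pk_le hn

/-- **ROW G5**: the packing numbers. -/
theorem Core.Mx_lim {N : Set (Fin d → ℝ)} {c : ℝ} {D : ℕ} (hC : Core N c D) (hd : 1 ≤ d) :
    0 < pk N ∧ pk N ≤ 1 ∧ (∀ k : ℕ, pk N * (k : ℝ) ^ d ≤ Mx N k) ∧
      ∀ η > 0, ∀ᶠ k : ℕ in atTop, (Mx N k : ℝ) ≤ (pk N + η) * (k : ℝ) ^ d := by
  refine ⟨pk_pos hC, pk_le_one hC, pk_mul_le hd N, fun η hη => ?_⟩
  filter_upwards [(tendsto_Mx hd hC).eventually (Iic_mem_nhds (show pk N < pk N + η by linarith)),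
    eventually_ge_atTop 1] with k hk hk1
  have hk' : (0 : ℝ) < (k : ℝ) ^ d := by
    have : (0 : ℝ) < k := by exact_mod_cast hk1
    positivity
  exact (div_le_iff₀ hk').1 hk

end Pool.Agent.RC
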