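import Pool.Agent.Lib.MP_09cbbd_rc.GCr
import Pool.Agent.Lib.MP_09cbbd_rc.BalK
import Pool.Agent.Lib.MP_09cbbd_rc.GPk

/-!
# Rows and columns round a general hard core: the sharp upper bound of the pressure

The number of the new contents of a box is at most the packing number, hence the pressure is at most
`φ` times the logarithm of the mass of the contents of one cell, up to a constant.
-/

set_option autoImplicit false

namespace Pool.Agent.RC

open MeasureTheory Finset Filter Topology Pool.Agent.StableGas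
open Pool.Agent.SquareWell hiding Md cut
open Pool.Agent.Vdw (blk lift ball Lk Yk Wk Kc)
open Pool.Agent.Mix (Qr mem_Qr)

variable {d : ℕ}

section

variable {E : Type} [MeasurableSpace E] {M : CG d E} {SA SB od : Set E} {ms : E → ℕ} {m : ℕ}
  {c1 ε μ C : ℝ} {nw : Finset (Zd d) → (Zd d → E) → Finset (Zd d)} {Mx : ℕ → ℕ} {h : E → ℝ}
  {LS : Bool → Set E} {OS : Bool → Zd d → Set (E × E)} {tl tO : Bool → E → ℝ}

/-- The partition function of a cube. -/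
theorem MasN.xi_le (hA : MeasurableSet SA) (hB : MeasurableSet SB) (hm : Measurable ms)
    (H : Ldr M SA SB od Mx nw) (hP : Pcs M SA SB od nw LS OS tl tO) (hε : 0 ≤ ε) (hμ : 0 ≤ μ)
    (hc1 : 0 ≤ c1) (HM : MasN M SA SB od ms m c1 ε μ C h LS OS tl tO) {K : ℝ}
    (hK : 4 + (2 * M.q + 1 : ENNReal) ^ d + 2 * (3 ^ d * ex C) ≤ ex K) (k : ℕ) :
    M.xi h (bx d k) ≤ ex ((1 + ε) * μ * Mx k + K * (k : ℝ) ^ d) := by
  have h1 := MasN.cr (k := k) hA hB hm H hP hε hμ hc1 HM hK {0}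
  rw [card_singleton, Nat.cast_one, mul_one, mul_one, lift_zero_eq] at h1
  refine le_trans (M.int_mono _ fun ω => ?_) h1
  have h2 : (1 : ENNReal) ≤
      ex (1 / 2 * ∑ q ∈ ({0} : Finset (Zd d)), GN M SA SB od ms m c1 μ nw Mx k (bx d k) ω q) := by
    rw [← ex_zero, ex_le_ex, sum_singleton]
    exact mul_nonneg (by norm_num) (GN_nonneg hc1 hμ _ ω 0)
  calc M.w h (bx d k) ω = M.w h (bx d k) ω * 1 := (mul_one _).symm
    _ ≤ _ := mul_le_mul' le_rfl h2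

/-- **The sharp upper bound of the pressure.** -/
theorem MasN.isP_le (hA : MeasurableSet SA) (hB : MeasurableSet SB) (hm : Measurable ms)
    (H : Ldr M SA SB od Mx nw) (hP : Pcs M SA SB od nw LS OS tl tO) (hε : 0 ≤ ε) (hμ : 0 ≤ μ)
    (hc1 : 0 ≤ c1) (HM : MasN M SA SB od ms m c1 ε μ C h LS OS tl tO) {K : ℝ}
    (hK : 4 + (2 * M.q + 1 : ENNReal) ^ d + 2 * (3 ^ d * ex C) ≤ ex K) {φ : ℝ}
    (hMx : Tendsto (fun n : ℕ => (Mx n : ℝ) / (n : ℝ) ^ d) atTop (𝓝 φ)) {p : ℝ}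
    (hp : M.IsP h p) : p ≤ (1 + ε) * μ * φ + K := by
  refine le_of_tendsto_of_tendsto hp ((hMx.const_mul ((1 + ε) * μ)).add_const K) ?_
  filter_upwards [eventually_ge_atTop 1] with n hn
  have hn' : (0 : ℝ) < (n : ℝ) ^ d := by
    have : (0 : ℝ) < n := by exact_mod_cast hn
    positivity
  have h1 := MasN.xi_le hA hB hm H hP hε hμ hc1 HM hK n
  have h2 := Real.log_le_log (M.xi_pos HM.fld _) (ENNReal.toReal_mono (ex_ne_top _) h1)
  rw [ex_toReal, Real.log_exp] at h2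
  rw [div_le_iff₀ hn']
  refine h2.trans (le_of_eq ?_)
  have e : (Mx n : ℝ) = Mx n / (n : ℝ) ^ d * (n : ℝ) ^ d := (div_mul_cancel₀ _ hn'.ne').symm
  generalize (Mx n : ℝ) / (n : ℝ) ^ d = x at e ⊢
  rw [e]
  ring

end

/-- **The sharp upper bound for large `μ`**. -/
theorem MasN.prs_le' (hd : 1 ≤ d) {c1 C ε : ℝ} (hc1 : 0 ≤ c1) (hε : 0 < ε) (q : ℕ) :
    ∃ μ0 : ℝ, ∀ (E : Type) (_ : MeasurableSpace E) (M : CG d E) (SA SB od : Set E) (ms : E → ℕ)
      (m rc : ℕ) (Mx : ℕ → ℕ) (nw : Finset (Zd d) → (Zd d → E) → Finset (Zd d)) (h : E → ℝ)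
      (LS : Bool → Set E) (OS : Bool → Zd d → Set (E × E)) (tl tO : Bool → E → ℝ) (μ φ : ℝ),
      M.q ≤ q → μ0 ≤ μ → φ ≤ 1 → Cub M SA SB ms rc → Ldr M SA SB od Mx nw →
      Pcs M SA SB od nw LS OS tl tO → MasN M SA SB od ms m c1 ε μ C h LS OS tl tO →
      Tendsto (fun n : ℕ => (Mx n : ℝ) / (n : ℝ) ^ d) atTop (𝓝 φ) →
      M.prs h ≤ (φ + 2 * ε) * μ := by
  obtain ⟨K, hK0, hK⟩ := exists_K (d := d) q C
  refine ⟨K / ε, ?_⟩
  intro E _ M SA SB od ms m rc Mx nw h LS OS tl tO μ φ hq hμ hφ hC HL HP HM hMx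
  have hμ0 : 0 ≤ μ := (div_nonneg hK0 hε.le).trans hμ
  have hKμ : K ≤ ε * μ := by
    rw [div_le_iff₀ hε] at hμ
    linarith
  refine (MasN.isP_le hC.SA_meas hC.SB_meas hC.ms_meas HL HP hε.le hμ0 hc1 HM (hK M.q hq) hMx
    (CG.isP_prs hd HM.fld)).trans ?_
  have h1 : ε * μ * φ ≤ ε * μ * 1 := mul_le_mul_of_nonneg_left hφ (by positivity)
  linarith

end Pool.Agent.RC
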