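import Pool.Agent.Lib.MP_09cbbd_rc.Pack
import Pool.Agent.Lib.MP_09cbbd_rc.CG

/-!
# Periodic patterns of molecules with a general hard core

A packing of a large cube which is nearly optimal is expanded a little, the points are moved away
from the walls of the unit cells, and the result is repeated periodically.
-/

set_option autoImplicit false

namespace Pool.Agent.RC

open Finset Pool.Agent.StableGas Pool.Agent.SquareWell
open scoped Pointwise

variable {d : ℕ} {N : Set (Fin d → ℝ)} {c : ℝ} {D : ℕ}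

/-- The fractional part, moved away from `0` and `1`. -/
noncomputable def clp (δ t : ℝ) : ℝ := max δ (min (1 - δ) (Int.fract t))

theorem clp_bds {δ : ℝ} (h : 2 * δ ≤ 1) (t : ℝ) : δ ≤ clp δ t ∧ clp δ t ≤ 1 - δ :=
  ⟨le_max_left _ _, max_le (by linarith) (min_le_left _ _)⟩

theorem abs_clp {δ : ℝ} (h0 : 0 ≤ δ) (h : 2 * δ ≤ 1) (t : ℝ) : |(⌊t⌋ : ℝ) + clp δ t - t| ≤ δ := by
  have e : (⌊t⌋ : ℝ) + clp δ t - t = clp δ t - Int.fract t := by
    have := Int.floor_add_fract t
    linarith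
  have h1 := Int.fract_nonneg t
  have h2 := Int.fract_lt_one t
  rw [e, abs_le]
  unfold clp
  rcases le_total (1 - δ) (Int.fract t) with h3 | h3
  · rw [min_eq_left h3, max_eq_right (by linarith)]
    constructor <;> linarith
  · rw [min_eq_right h3]
    rcases le_total δ (Int.fract t) with h4 | h4
    · rw [max_eq_right h4]
      constructor <;> linarith
    · rw [max_eq_left h4]
      constructor <;> linarith

/-- Expansion of a difference outside the core. -/
theorem Core.exp' (hC : Core N c D) {u : Fin d → ℝ} (hu : u ∉ N) {e τ : ℝ} (hτ : 0 ≤ τ)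
    (hτe : τ ≤ e) (he : e ≤ 1) {v : Fin d → ℝ} (hv : ∀ j, |v j| ≤ c * (e - τ)) :
    (1 + e) • u + v ∉ (1 + τ) • N := by
  have h1 : 0 < 1 + τ := by linarith
  intro h2
  rw [Set.mem_smul_set_iff_inv_smul_mem₀ h1.ne'] at h2
  refine hC.exp u hu ((e - τ) / (1 + τ)) (div_nonneg (by linarith) h1.le)
    ((div_le_one h1).2 (by linarith)) ((1 + τ)⁻¹ • v) (fun j => ?_) ?_
  · rw [Pi.smul_apply, smul_eq_mul, abs_mul, abs_of_pos (inv_pos.2 h1)]
    have h3 : c * ((e - τ) / (1 + τ)) = (1 + τ)⁻¹ * (c * (e - τ)) := by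
      field_simp
    rw [h3]
    exact mul_le_mul_of_nonneg_left (hv j) (inv_pos.2 h1).le
  · have e1 : (1 + (e - τ) / (1 + τ)) • u + (1 + τ)⁻¹ • v = (1 + τ)⁻¹ • ((1 + e) • u + v) := by
      rw [smul_add, smul_smul]
      congr 2
      field_simp
      ring
    rw [e1]
    exact h2

/-- **The pattern.** -/
theorem Core.pattern (hC : Core N c D) {η : ℝ} (hη : 0 < η) :
    ∃ (n : ℕ) (F : Finset (Zd d)) (o : Zd d → Fin d → ℝ) (δ : ℝ), 0 < n ∧ F ⊆ bx d n ∧ 0 < δ ∧
      δ ≤ 1 / 8 ∧ (pk N - η) * (n : ℝ) ^ d ≤ F.card ∧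
      (∀ f ∈ F, ∀ j, δ ≤ o f j ∧ o f j ≤ 1 - δ) ∧
      ∀ τ, 0 ≤ τ → τ ≤ δ → ∀ i j : Zd d, i ≠ j → (fun k => i k % (n : ℤ)) ∈ F →
        (fun k => j k % (n : ℤ)) ∈ F → ∀ v : Fin d → ℝ, (∀ k, |v k| ≤ δ) →
          (fun k => ((i k : ℝ) + o (fun k => i k % (n : ℤ)) k) -
            ((j k : ℝ) + o (fun k => j k % (n : ℤ)) k) + v k) ∉ (1 + τ) • N := by
  classical
  -- the parameters
  obtain ⟨s, hs⟩ := exists_nat_gt ((d : ℝ) * (2 * D + 2) / η)
  have hD0 : (0 : ℝ) ≤ D := Nat.cast_nonneg _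
  have hs0 : (0 : ℝ) < s := lt_of_le_of_lt (by positivity) hs
  have hs1 : 1 ≤ s := by
    have : 0 < s := by exact_mod_cast hs0
    omega
  have hs1' : (1 : ℝ) ≤ s := by exact_mod_cast hs1
  obtain ⟨e, he⟩ : ∃ e : ℝ, e = 1 / s := ⟨_, rfl⟩
  have he0 : 0 < e := by rw [he]; positivity
  have he1 : e ≤ 1 := by
    rw [he, div_le_one hs0]
    exact hs1'
  obtain ⟨δ, hδ⟩ : ∃ δ : ℝ, δ = min c 1 * e / 8 := ⟨_, rfl⟩
  have hc := hC.c_pos
  have hm0 : 0 < min c 1 := lt_min hc one_pos
  have hδ0 : 0 < δ := by rw [hδ]; positivity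
  have hδe : 8 * δ ≤ e := by
    rw [hδ]
    have := mul_le_mul_of_nonneg_right (min_le_right c 1) he0.le
    linarith
  have hδc : 8 * δ ≤ c * e := by
    rw [hδ]
    have := mul_le_mul_of_nonneg_right (min_le_left c 1) he0.le
    linarith
  obtain ⟨l, hl⟩ : ∃ l : ℕ, l = s * s := ⟨_, rfl⟩
  obtain ⟨n, hn⟩ : ∃ n : ℕ, n = s * s + s + 2 * D + 1 := ⟨_, rfl⟩
  have hl' : (l : ℝ) = s * s := by rw [hl]; push_cast; ring
  have hn' : (n : ℝ) = s * s + s + 2 * D + 1 := by rw [hn]; push_cast; ring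
  have hel : (1 + e) * l = s * s + s := by
    rw [hl', he]
    field_simp
  have hn0 : (0 : ℝ) < n := by rw [hn']; positivity
  have hl1 : 1 ≤ l := by rw [hl]; exact Nat.mul_pos hs1 hs1
  obtain ⟨S, hS, hSc⟩ := exists_Mx hC.cube l
  have hx : ∀ x ∈ S, ∀ j, 0 ≤ (1 + e) * x j ∧ (1 + e) * x j < s * s + s := by
    intro x hx j
    have h1 := hS.lo x hx j
    have h2 := hS.hi x hx j
    simp only [Pi.zero_apply, zero_add] at h1 h2
    have h3 : 0 < 1 + e := by linarith
    exact ⟨mul_nonneg h3.le h1, hel ▸ mul_lt_mul_of_pos_left h2 h3⟩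
  -- the cells
  set idx : (Fin d → ℝ) → Zd d := fun x k => ⌊(1 + e) * x k⌋ with hidx
  have hinj : Set.InjOn idx S := by
    intro x hx1 y hy1 hxy
    by_contra hne
    refine hS.sep x hx1 y hy1 hne (hC.cube _ fun j => ?_)
    have h1 : ⌊(1 + e) * x j⌋ = ⌊(1 + e) * y j⌋ := congrFun hxy j
    have h2 := Int.floor_le ((1 + e) * x j)
    have h3 := Int.lt_floor_add_one ((1 + e) * x j)
    have h4 := Int.floor_le ((1 + e) * y j)
    have h5 := Int.lt_floor_add_one ((1 + e) * y j)
    rw [h1] at h2 h3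
    have h6 : |(1 + e) * (x j - y j)| < 1 := by
      rw [abs_lt]
      constructor <;> linarith
    rw [abs_mul, abs_of_pos (by linarith : (0 : ℝ) < 1 + e)] at h6
    rw [Pi.sub_apply]
    nlinarith [abs_nonneg (x j - y j)]
  set o : Zd d → Fin d → ℝ := fun f k => clp δ ((1 + e) * Function.invFunOn idx S f k) with ho
  have hoi : ∀ x ∈ S, ∀ k, o (idx x) k = clp δ ((1 + e) * x k) := by
    intro x hx1 k
    simp only [ho]
    rw [hinj.leftInvOn_invFunOn hx1]
  have hpos : ∀ x ∈ S, ∀ k, |((idx x k : ℤ) : ℝ) + o (idx x) k - (1 + e) * x k| ≤ δ := by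
    intro x hx1 k
    rw [hoi x hx1 k]
    exact abs_clp hδ0.le (by linarith) _
  refine ⟨n, S.image idx, o, δ, by omega, ?_, hδ0, by linarith, ?_, ?_, ?_⟩
  · intro f hf
    obtain ⟨x, hx1, rfl⟩ := mem_image.1 hf
    unfold bx
    rw [Fintype.mem_piFinset]
    intro j
    have h1 := hx x hx1 j
    rw [mem_Ico]
    refine ⟨Int.floor_nonneg.2 h1.1, ?_⟩
    have h2 : ((⌊(1 + e) * x j⌋ : ℤ) : ℝ) < n := by
      refine lt_of_le_of_lt (Int.floor_le _) (h1.2.trans_le ?_)
      rw [hn']
      linarith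
    exact_mod_cast h2
  · -- the density
    rw [card_image_of_injOn hinj, hSc]
    refine le_trans ?_ (pk_le (N := N) hl1)
    have h1 : (n : ℝ) - l ≤ η / d * n ∨ d = 0 := by
      rcases Nat.eq_zero_or_pos d with hd | hd
      · exact Or.inr hd
      left
      have hd' : (0 : ℝ) < d := by exact_mod_cast hd
      rw [div_lt_iff₀ hη] at hs
      have h2 : (n : ℝ) - l = s + 2 * D + 1 := by
        rw [hn', hl']
        ring
      have h3 : (s : ℝ) + 2 * D + 1 ≤ (2 * D + 2) * s := by nlinarith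
      have h4 : (s : ℝ) * s ≤ n := by
        rw [hn']
        linarith
      rw [h2, div_mul_eq_mul_div, le_div_iff₀ hd']
      calc ((s : ℝ) + 2 * D + 1) * d ≤ (2 * D + 2) * s * d :=
            mul_le_mul_of_nonneg_right h3 hd'.le
        _ = (d * (2 * D + 2)) * s := by ring
        _ ≤ (s * η) * s := mul_le_mul_of_nonneg_right hs.le hs0.le
        _ = η * (s * s) := by ring
        _ ≤ η * n := mul_le_mul_of_nonneg_left h4 hη.le
    rcases h1 with h1 | h1
    · have hd0 : d ≠ 0 := by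
        rintro rfl
        simp only [Nat.cast_zero, div_zero, zero_mul] at h1
        rw [hn', hl'] at h1
        linarith
      have hd' : (0 : ℝ) < d := by
        have : 0 < d := Nat.pos_of_ne_zero hd0
        exact_mod_cast this
      have h2 : (1 - η) * (n : ℝ) ^ d ≤ (l : ℝ) ^ d := by
        have h3 : 1 + (d : ℝ) * ((l : ℝ) / n - 1) ≤ ((l : ℝ) / n) ^ d := by
          have h4 := one_add_mul_le_pow (a := (l : ℝ) / n - 1) (by
            have : 0 ≤ (l : ℝ) / n := by positivity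
            linarith) d
          rwa [add_sub_cancel] at h4
        have h5 : 1 - η ≤ 1 + (d : ℝ) * ((l : ℝ) / n - 1) := by
          have h6 : (d : ℝ) * (1 - (l : ℝ) / n) ≤ η := by
            have h7 : 1 - (l : ℝ) / n = (n - l) / n := by field_simp
            rw [h7, mul_div_assoc', div_le_iff₀ hn0]
            have h8 := mul_le_mul_of_nonneg_left h1 hd'.le
            have h9 : (d : ℝ) * (η / d * n) = η * n := by field_simp
            linarith
          linarith
        have h10 : (l : ℝ) ^ d = ((l : ℝ) / n) ^ d * (n : ℝ) ^ d := by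
          rw [← mul_pow, div_mul_cancel₀ _ hn0.ne']
        rw [h10]
        exact mul_le_mul_of_nonneg_right (h5.trans h3) (by positivity)
      have h11 := pk_le_one hC
      have h12 := pk_nonneg (N := N)
      calc (pk N - η) * (n : ℝ) ^ d ≤ (pk N * (1 - η)) * (n : ℝ) ^ d := by
            refine mul_le_mul_of_nonneg_right ?_ (by positivity)
            nlinarith
        _ = pk N * ((1 - η) * (n : ℝ) ^ d) := by ring
        _ ≤ pk N * (l : ℝ) ^ d := mul_le_mul_of_nonneg_left h2 h12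
    · subst h1
      simp only [pow_zero, mul_one]
      linarith
  · intro f hf j
    obtain ⟨x, hx1, rfl⟩ := mem_image.1 hf
    rw [hoi x hx1 j]
    exact clp_bds (by linarith) _
  · -- the separation
    intro τ hτ hτδ i j hij hi hj v hv hmem
    obtain ⟨x, hx1, hxi⟩ := mem_image.1 hi
    obtain ⟨y, hy1, hyj⟩ := mem_image.1 hj
    rw [← hxi, ← hyj] at hmem
    have hdi : ∀ k, (i k : ℝ) = n * ((i k / (n : ℤ) : ℤ) : ℝ) + (idx x k : ℤ) := by
      intro k
      have h1 : i k % (n : ℤ) = idx x k := (congrFun hxi k).symm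
      have h2 := Int.mul_ediv_add_emod (i k) n
      rw [h1] at h2
      exact_mod_cast h2.symm
    have hdj : ∀ k, (j k : ℝ) = n * ((j k / (n : ℤ) : ℤ) : ℝ) + (idx y k : ℤ) := by
      intro k
      have h1 : j k % (n : ℤ) = idx y k := (congrFun hyj k).symm
      have h2 := Int.mul_ediv_add_emod (j k) n
      rw [h1] at h2
      exact_mod_cast h2.symm
    by_cases hq : ∀ k, i k / (n : ℤ) = j k / (n : ℤ)
    · have hxy : x ≠ y := by
        rintro rfl
        refine hij (funext fun k => ?_)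
        have h1 := hdi k
        have h2 := hdj k
        rw [hq k] at h1
        have h3 : (i k : ℝ) = j k := h1.trans h2.symm
        exact_mod_cast h3
      refine hC.exp' (hS.sep x hx1 y hy1 hxy) hτ (hτδ.trans (by linarith)) he1
        (v := fun k => (((i k : ℝ) + o (idx x) k) - ((j k : ℝ) + o (idx y) k) + v k) -
          (1 + e) * (x k - y k)) (fun k => ?_) ?_
      · have h1 := abs_le.1 (hpos x hx1 k)
        have h2 := abs_le.1 (hpos y hy1 k)
        have h3 := abs_le.1 (hv k)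
        have h4 : 3 * δ ≤ c * (e - τ) := by nlinarith
        rw [hdi k, hdj k, hq k, abs_le]
        constructor
        · linarith [h1.1, h1.2, h2.1, h2.2, h3.1, h3.2]
        · linarith [h1.1, h1.2, h2.1, h2.2, h3.1, h3.2]
      · convert hmem using 1
        funext k
        simp only [Pi.add_apply, Pi.smul_apply, Pi.sub_apply, smul_eq_mul]
        ring
    · push Not at hq
      obtain ⟨k, hk⟩ := hq
      obtain ⟨z, hz, hzz⟩ := hmem
      have h1 := hC.bdd z hz k
      have h2 := congrFun hzz k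
      simp only [Pi.smul_apply, smul_eq_mul] at h2
      have h3 : |(1 + τ) * z k| < 2 * D := by
        rw [abs_mul, abs_of_pos (by linarith : (0 : ℝ) < 1 + τ)]
        have h4 : 0 ≤ |z k| := abs_nonneg _
        nlinarith
      rw [h2, hdi k, hdj k] at h3
      have h5 := abs_le.1 (hpos x hx1 k)
      have h6 := abs_le.1 (hpos y hy1 k)
      have h7 := abs_le.1 (hv k)
      have h8 := hx x hx1 k
      have h9 := hx y hy1 k
      rw [abs_lt] at h3
      rcases lt_or_gt_of_ne hk with h10 | h10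
      · have h11 : ((i k / (n : ℤ) : ℤ) : ℝ) + 1 ≤ ((j k / (n : ℤ) : ℤ) : ℝ) := by
          exact_mod_cast h10
        have h12 := mul_le_mul_of_nonneg_left h11 hn0.le
        linarith [h3.1, h5.1, h5.2, h6.1, h6.2, h7.1, h7.2, h8.1, h8.2, h9.1, h9.2]
      · have h11 : ((j k / (n : ℤ) : ℤ) : ℝ) + 1 ≤ ((i k / (n : ℤ) : ℤ) : ℝ) := by
          exact_mod_cast h10
        have h12 := mul_le_mul_of_nonneg_left h11 hn0.le
        linarith [h3.2, h5.1, h5.2, h6.1, h6.2, h7.1, h7.2, h8.1, h8.2, h9.1, h9.2]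

end Pool.Agent.RC
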