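import Pool.Agent.Lib.MP_09cbbd_rc.LowB
import Pool.Agent.Lib.MP_09cbbd_rc.Pat

/-!
# Lower bounds for the pressure of the gas of rows and columns, for a general hard core
-/

set_option autoImplicit false

namespace Pool.Agent.RC

open MeasureTheory Finset Filter Topology
open Pool.Agent.StableGas hiding tr
open Pool.Agent.SquareWell hiding Md cut
open Pool.Agent.SquareWell.ModA
open Pool.Agent.Mix (Qr mem_Qr Trans Ct)
open Pool.Agent.Exg Pool.Agent.RC.Cell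
open scoped Pointwise

variable {d : ℕ}

/-- A periodic pattern for the hard core `N`: the first beads are at the distance at least `δ` from
the walls of the cells, and moving them by `δ` they are still separated. -/
structure PatG (N : Set (Fin d → ℝ)) (n : ℕ) (F : Finset (Zd d)) (o : Zd d → Fin d → ℝ)
    (δ : ℝ) : Prop where
  n_pos : 0 < n
  sub : F ⊆ bx d n
  δ_pos : 0 < δ
  δ_le : δ ≤ 1 / 8
  wall : ∀ f ∈ F, ∀ j, δ ≤ o f j ∧ o f j ≤ 1 - δ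
  sep : ∀ τ, 0 ≤ τ → τ ≤ δ → ∀ i j : Zd d, i ≠ j → (fun k => i k % (n : ℤ)) ∈ F →
    (fun k => j k % (n : ℤ)) ∈ F → ∀ v : Fin d → ℝ, (∀ k, |v k| ≤ δ) →
      (fun k => ((i k : ℝ) + o (fun k => i k % (n : ℤ)) k) -
        ((j k : ℝ) + o (fun k => j k % (n : ℤ)) k) + v k) ∉ (1 + τ) • N

/-- The corner of the box of the first bead. -/
noncomputable def oN (o : Zd d → Fin d → ℝ) (δ : ℝ) (f : Zd d) (k : Fin d) : ℝ := o f k - δ / 8

section Facts

variable {N : Set (Fin d → ℝ)} {n : ℕ} {F : Finset (Zd d)} {o : Zd d → Fin d → ℝ} {δ : ℝ}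
  (P : PatG N n F o δ)

include P

theorem PatG.corner {w ρ : ℝ} (hw : 4 * (w + ρ) ≤ δ) {u : Zd d} (hu : u ∈ F) (j : Fin d) :
    w + ρ ≤ oN o δ u j ∧ oN o δ u j + δ / 4 ≤ 1 - w - ρ := by
  have h1 := P.wall u hu j
  have h2 := P.δ_pos
  unfold oN
  constructor
  · linarith [h1.1]
  · linarith [h1.2]

theorem PatG.box {w ρ h : ℝ} {i' : Fin d} (hw0 : 0 ≤ w) (hw : 4 * (w + ρ) ≤ δ) {u : Zd d}
    (hu : u ∈ F) {z v : Fin d → ℝ} (hz : z ∈ Sbx (oN o δ u) (δ / 4) h i')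
    (hv : ∀ j, |v j| ≤ ρ) : z + v ∈ SquareWellGas.Box d 1 := by
  intro j
  have h1 := P.corner hw hu j
  have h2 := hz.1 j
  have h3 := abs_le.1 (hv j)
  rw [Pi.add_apply]
  constructor
  · linarith [h1.1, h2.1, h3.1]
  · linarith [h1.2, h2.2, h3.2]

theorem PatG.sepN {τ ρ h : ℝ} {i' : Fin d} (hτ : 0 ≤ τ) (hτδ : τ ≤ δ) (hρ : 4 * ρ ≤ δ)
    {u v : Zd d} (huv : u ≠ v) (hu : (fun k => u k % (n : ℤ)) ∈ F)
    (hv : (fun k => v k % (n : ℤ)) ∈ F) {z z' w : Fin d → ℝ}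
    (hz : z ∈ Sbx (oN o δ fun k => u k % (n : ℤ)) (δ / 4) h i')
    (hz' : z' ∈ Sbx (oN o δ fun k => v k % (n : ℤ)) (δ / 4) h i')
    (hw : ∀ j, |w j| ≤ 2 * ρ) : z - tr (v - u) z' + w ∉ (1 + τ) • N := by
  have h1 := P.sep τ hτ hτδ u v huv hu hv (fun k => (z - tr (v - u) z' + w) k -
    (((u k : ℝ) + o (fun k => u k % (n : ℤ)) k) - ((v k : ℝ) + o (fun k => v k % (n : ℤ)) k)))
    (fun k => ?_)
  · intro h2
    apply h1
    convert h2 using 1
    funext k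
    ring
  · have h2 := hz.1 k
    have h3 := hz'.1 k
    have h4 := abs_le.1 (hw k)
    unfold oN at h2 h3
    simp only [tr, Pi.add_apply, Pi.sub_apply, Int.cast_sub]
    have h5 := P.δ_pos
    rw [abs_le]
    constructor
    · linarith [h2.1, h2.2, h3.1, h3.2, h4.1, h4.2]
    · linarith [h2.1, h2.2, h3.1, h3.2, h4.1, h4.2]

theorem PatG.vol {h : ℝ} (hh : 0 < h) (hh16 : 16 * h ≤ δ) (u : Zd d) (i : Fin d) :
    ex (-(d * Real.log (8 / δ))) ≤ volume (Sbx (oN o δ u) (δ / 4) h i) := by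
  have h1 := P.δ_pos
  refine le_trans ?_ (vol_Sbx hh (by linarith) i)
  unfold ex
  refine ENNReal.ofReal_le_ofReal ?_
  have e : Real.exp (-(d * Real.log (8 / δ))) = (δ / 8) ^ d := by
    rw [← mul_neg, mul_comm, Real.exp_mul, ← Real.log_inv, Real.exp_log (by positivity),
      Real.rpow_natCast, inv_div]
  rw [e]
  exact pow_le_pow_left₀ (by positivity) (by linarith) d

end Facts

section Geo

variable {i₁ i₂ : Fin d} {m : ℕ} {R α a b β β' τ ε : ℝ} {N E : Set (Fin d → ℝ)} {h w : ℝ}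
  {n : ℕ} {F : Finset (Zd d)} {o : Zd d → Fin d → ℝ} {δ : ℝ}

/-- **Lower bound of the pressure from the columns.** -/
theorem Geo.loN_B (hG : Geo d i₁ i₂ m R α a b β β' τ ε N E) {G : Ng d E}
    (hN0 : G.Nk 0 ⊆ (1 + τ) • N) {e1 : ENNReal}
    (hM : Mvr G (insert Exg.e0 (GB E i₁ i₂ m α b h w)) i₂ h e1)
    (he : ((2 * G.r + 1) ^ d : ℕ) * e1 ≤ 1 / 2) (P : PatG N n F o δ) (hτδ : τ ≤ δ)
    (hw0 : 0 ≤ w) (hw : 4 * (w + (m + 1) * α) ≤ δ) (hh16 : 16 * h ≤ δ)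
    {z a' p : ℝ} (hp : G.cg.IsP (fa (fun x => z * x.1) (GA E i₁ i₂ m α a h w) a') p) :
    F.card * ((m + 1) * z + m * (d * Real.log (2 * b)) - lowC d m - d * Real.log (8 / δ) -
      Real.log 2) ≤ (n : ℝ) ^ d * p := by
  have hα := hG.α_pos
  have hρ0 : 0 ≤ ((m : ℝ) + 1) * α := by positivity
  have hρ : ∀ x, Vx E x → ∀ k, k < x.1 → ∀ j, |x.2 k j - x.2 0 j| ≤ ((m : ℝ) + 1) * α :=
    fun x hx k hk j => Cell.near_zero hG hx hk j
  have hf : G.cg.Fld (fa (fun x => z * x.1) (GA E i₁ i₂ m α a h w) a') :=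
    CG.Fld.fa (G.fld z) (measurableSet_GA hG.meas) hG.e0_A a'
  have hDC : ∀ u ∈ F, Full E i₂ α b (m + 1) (Sbx (oN o δ u) (δ / 4) h i₂) ⊆
      GB E i₁ i₂ m α b h w := fun u hu =>
    Full_Ty (ρ := (m + 1) * α) (by omega) hρ0 hρ (P.corner hw hu)
  refine hM.low_full he (i := i₂) (α := α) (δ := b) (ρ := (m + 1) * α) (s := δ / 4)
    (M := m + 1) (by omega) hf (fun θ x hx => hG.fa_T_B hM θ hx) P.n_pos P.sub
    (o := oN o δ) (fun u hu => (hDC u hu).trans (Set.subset_insert _ _)) hρ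
    (fun u hu z' hz w' hw' => P.box hw0 hw hu hz hw')
    (fun u v huv hu hv z' hz z'' hz' w' hw' hmem =>
      P.sepN hG.hτ hτδ (by linarith) huv hu hv hz hz' hw' (hN0 hmem))
    (c := (m + 1) * z + m * (d * Real.log (2 * b)) - lowC d m - d * Real.log (8 / δ))
    (fun u hu => ?_) hp
  have h1 := Cell.low_col hG (S := Sbx (oN o δ u) (δ / 4) h i₂)
    (measurableSet_Sbx _ _ _ _) (fun z' hz w' hw' => P.box hw0 hw hu hz hw') z
  have h2 : ∫⁻ x in Full E i₂ α b (m + 1) (Sbx (oN o δ u) (δ / 4) h i₂),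
      ex (z * x.1) ∂(sys G.hE).pg =
      ∫⁻ x in Full E i₂ α b (m + 1) (Sbx (oN o δ u) (δ / 4) h i₂),
      ex (fa (fun x => z * x.1) (GA E i₁ i₂ m α a h w) a' x) ∂(sys G.hE).pg := by
    refine setLIntegral_congr_fun (measurable_Full G.hE _ _ _ _ (measurableSet_Sbx _ _ _ _))
      fun x hx => ?_
    have h3 : x ∉ GA E i₁ i₂ m α a h w := fun h3 =>
      Set.disjoint_left.1 hG.disj h3 (hDC u hu hx)
    show ex (z * x.1) = ex (z * x.1 + a' * Set.indicator _ 1 x)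
    rw [Set.indicator_of_notMem h3, mul_zero, add_zero]
  refine le_trans ?_ (h1.trans (le_of_eq h2))
  have h3 := P.vol hM.hh hh16 u i₂
  refine le_trans (le_of_eq ?_) (mul_le_mul' h3 le_rfl)
  rw [← ex_add]
  congr 1
  ring

/-- **Lower bound of the pressure from the rows.** -/
theorem Geo.loN_A (hG : Geo d i₁ i₂ m R α a b β β' τ ε N E) {G : Ng d E}
    (hN0 : G.Nk 0 ⊆ (1 + τ) • N) {e1 : ENNReal}
    (hM : Mvr G (insert Exg.e0 (GA E i₁ i₂ m α a h w)) i₁ h e1)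
    (he : ((2 * G.r + 1) ^ d : ℕ) * e1 ≤ 1 / 2) (P : PatG N n F o δ) (hτδ : τ ≤ δ)
    (hw0 : 0 ≤ w) (hw : 4 * (w + (m + 1) * α) ≤ δ) (hh16 : 16 * h ≤ δ)
    {z a' p : ℝ} (hp : G.cg.IsP (fa (fun x => z * x.1) (GA E i₁ i₂ m α a h w) a') p) :
    F.card * (a' + (m * z + (m - 1) * (d * Real.log (2 * a)) - lowC d m -
      d * Real.log (8 / δ) - Real.log 2)) ≤ (n : ℝ) ^ d * p := by
  have hα := hG.α_pos
  have hρ0 : 0 ≤ ((m : ℝ) + 1) * α := by positivity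
  have hρ : ∀ x, Vx E x → ∀ k, k < x.1 → ∀ j, |x.2 k j - x.2 0 j| ≤ ((m : ℝ) + 1) * α :=
    fun x hx k hk j => Cell.near_zero hG hx hk j
  have hf : G.cg.Fld (fa (fun x => z * x.1) (GA E i₁ i₂ m α a h w) a') :=
    CG.Fld.fa (G.fld z) (measurableSet_GA hG.meas) hG.e0_A a'
  have hDC : ∀ u ∈ F, Full E i₁ α a m (Sbx (oN o δ u) (δ / 4) h i₁) ⊆
      GA E i₁ i₂ m α a h w := fun u hu =>
    Full_Ty (ρ := (m + 1) * α) (by omega) hρ0 hρ (P.corner hw hu)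
  have := hM.low_full he (i := i₁) (α := α) (δ := a) (ρ := (m + 1) * α) (s := δ / 4)
    (M := m) (by have := hG.hm; omega) hf (fun θ x hx => hG.fa_T_A hM θ hx) P.n_pos P.sub
    (o := oN o δ) (fun u hu => (hDC u hu).trans (Set.subset_insert _ _)) hρ
    (fun u hu z' hz w' hw' => P.box hw0 hw hu hz hw')
    (fun u v huv hu hv z' hz z'' hz' w' hw' hmem =>
      P.sepN hG.hτ hτδ (by linarith) huv hu hv hz hz' hw' (hN0 hmem))
    (c := a' + (m * z + (m - 1) * (d * Real.log (2 * a)) - lowC d m - d * Real.log (8 / δ)))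
    (fun u hu => ?_) hp
  · refine le_trans (le_of_eq ?_) this
    ring
  have h1 := Cell.low_row hG (S := Sbx (oN o δ u) (δ / 4) h i₁)
    (measurableSet_Sbx _ _ _ _) (fun z' hz w' hw' => P.box hw0 hw hu hz hw') z
  have h2 : ∫⁻ x in Full E i₁ α a m (Sbx (oN o δ u) (δ / 4) h i₁),
      ex a' * ex (z * x.1) ∂(sys G.hE).pg =
      ∫⁻ x in Full E i₁ α a m (Sbx (oN o δ u) (δ / 4) h i₁),
      ex (fa (fun x => z * x.1) (GA E i₁ i₂ m α a h w) a' x) ∂(sys G.hE).pg := by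
    refine setLIntegral_congr_fun (measurable_Full G.hE _ _ _ _ (measurableSet_Sbx _ _ _ _))
      fun x hx => ?_
    show ex a' * ex (z * x.1) = ex (z * x.1 + a' * Set.indicator _ 1 x)
    rw [Set.indicator_of_mem (hDC u hu hx), Pi.one_apply, mul_one, ← ex_add, add_comm]
  have h3 := P.vol hM.hh hh16 u i₁
  have h4 : Measurable fun x : Ct (Fin d → ℝ) => ex (z * x.1) := (G.fld z).ex_meas
  rw [← h2, lintegral_const_mul _ h4]
  refine le_trans ?_ (mul_le_mul' le_rfl ((mul_le_mul' h3 le_rfl).trans h1))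
  rw [← ex_add, ← ex_add]
  refine le_of_eq ?_
  congr 1
  ring

/-- **The lower bounds for a general hard core.** -/
theorem Core.low {c : ℝ} {D : ℕ} (hC : Core N c D) {η : ℝ} (hη : 0 < η) :
    ∃ δ : ℝ, 0 < δ ∧ δ ≤ 1 / 8 ∧ ∀ (i₁ i₂ : Fin d) (m : ℕ) (R α a b β β' τ ε h w : ℝ)
      (E : Set (Fin d → ℝ)) (_ : Geo d i₁ i₂ m R α a b β β' τ ε N E) (G : Ng d E),
      G.Nk 0 ⊆ (1 + τ) • N → τ ≤ δ → 0 ≤ w → 4 * (w + (m + 1) * α) ≤ δ → 16 * h ≤ δ →
      ∀ e1 : ENNReal, ((2 * G.r + 1) ^ d : ℕ) * e1 ≤ 1 / 2 →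
      (Mvr G (insert Exg.e0 (GA E i₁ i₂ m α a h w)) i₁ h e1 → ∀ z a' p : ℝ,
        G.cg.IsP (fa (fun x => z * x.1) (GA E i₁ i₂ m α a h w) a') p →
        0 ≤ a' + (m * z + (m - 1) * (d * Real.log (2 * a)) - lowC d m -
          d * Real.log (8 / δ) - Real.log 2) →
        (pk N - η) * (a' + (m * z + (m - 1) * (d * Real.log (2 * a)) - lowC d m -
          d * Real.log (8 / δ) - Real.log 2)) ≤ p) ∧
      (Mvr G (insert Exg.e0 (GB E i₁ i₂ m α b h w)) i₂ h e1 → ∀ z a' p : ℝ,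
        G.cg.IsP (fa (fun x => z * x.1) (GA E i₁ i₂ m α a h w) a') p →
        0 ≤ (m + 1) * z + m * (d * Real.log (2 * b)) - lowC d m - d * Real.log (8 / δ) -
          Real.log 2 →
        (pk N - η) * ((m + 1) * z + m * (d * Real.log (2 * b)) - lowC d m -
          d * Real.log (8 / δ) - Real.log 2) ≤ p) := by
  obtain ⟨n, F, o, δ, hn, hF, hδ, hδ8, hcard, hwall, hsep⟩ := hC.pattern hη
  have P : PatG N n F o δ := ⟨hn, hF, hδ, hδ8, hwall, hsep⟩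
  have hn' : (0 : ℝ) < n := by exact_mod_cast hn
  have hnd : (0 : ℝ) < (n : ℝ) ^ d := by positivity
  have key : ∀ c p : ℝ, 0 ≤ c → F.card * c ≤ (n : ℝ) ^ d * p → (pk N - η) * c ≤ p := by
    intro c p hc h1
    have h2 := mul_le_mul_of_nonneg_right hcard hc
    have h3 : (n : ℝ) ^ d * ((pk N - η) * c) ≤ (n : ℝ) ^ d * p := by
      refine le_trans (le_of_eq ?_) (h2.trans h1)
      ring
    exact le_of_mul_le_mul_left h3 hnd
  refine ⟨δ, hδ, hδ8, fun i₁ i₂ m R α a b β β' τ ε h w E hG G hN0 hτδ hw0 hw hh16 e1 he =>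
    ⟨fun hM z a' p hp hc => key _ _ hc ?_, fun hM z a' p hp hc => key _ _ hc ?_⟩⟩
  · exact hG.loN_A hN0 hM he P hτδ hw0 hw hh16 hp
  · exact hG.loN_B hN0 hM he P hτδ hw0 hw hh16 hp

end Geo

end Pool.Agent.RC
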