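import Pool.Agent.Lib.MP_09cbbd_rc.EndN
import Pool.Agent.Lib.MP_09cbbd_rc.MasG

/-!
# Rows and columns: the numbers for a general hard core

`φ` is the packing constant of the hard core `N`, `η` the accuracy of the pattern, `dl` its margin.
-/

set_option autoImplicit false

namespace Pool.Agent.RC

open Real

/-- How large the constant `Kc` has to be for a general hard core. -/
structure KcBigG (d m D : ℕ) (c dl ε₂ Kc : ℝ) : Prop where
  g1 : (2 * ((m : ℝ) + 1)) ^ (m + 2) * ((8 * D) ^ d * d * (14 / c) + 4 ^ d) ≤ Kc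
  g2 : 8 / c ≤ Kc
  g3 : 16 / dl ≤ Kc
  g4 : 6 / (c * dl) ≤ Kc
  g5 : Cell.lowC d m + d * log (8 / dl) + log 2 ≤ ε₂ * Kc

theorem KcBig.mono {d m n : ℕ} {ε₂ Kc Kc' : ℝ} (h : KcBig d m n ε₂ Kc) (hK : Kc ≤ Kc')
    (hε : 0 ≤ ε₂) : KcBig d m n ε₂ Kc' := by
  have h1 := mul_le_mul_of_nonneg_left hK hε
  exact ⟨h.k1.trans h1, h.k2.trans hK, h.k3.trans h1, h.k4.trans hK, h.k5.trans hK⟩

/-- The constant can be chosen for both. -/
theorem exists_KcBigG (d m n D : ℕ) (c dl : ℝ) {ε₂ : ℝ} (hε : 0 < ε₂) (K0 : ℝ) :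
    ∃ Kc, K0 ≤ Kc ∧ KcBig d m n ε₂ Kc ∧ KcBigG d m D c dl ε₂ Kc := by
  obtain ⟨Kc, -, hK⟩ := exists_KcBig d m n hε 0
  obtain ⟨A, hA⟩ : ∃ A : ℝ, A =
    |(2 * ((m : ℝ) + 1)) ^ (m + 2) * ((8 * D) ^ d * d * (14 / c) + 4 ^ d)| := ⟨_, rfl⟩
  obtain ⟨B, hB⟩ : ∃ B : ℝ, B = |Cell.lowC d m + d * log (8 / dl) + log 2| / ε₂ := ⟨_, rfl⟩
  have hA0 : 0 ≤ A := by rw [hA]; exact abs_nonneg _
  have hB0 : 0 ≤ B := by rw [hB]; positivity
  have h8 := abs_nonneg (8 / c)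
  have h16 := abs_nonneg (16 / dl)
  have h6 := abs_nonneg (6 / (c * dl))
  have hK0 := abs_nonneg Kc
  have hK1 := abs_nonneg K0
  refine ⟨|Kc| + |K0| + A + |8 / c| + |16 / dl| + |6 / (c * dl)| + B, ?_,
    hK.mono ?_ hε.le, ?_, ?_, ?_, ?_, ?_⟩
  · have := le_abs_self K0
    linarith
  · have := le_abs_self Kc
    linarith
  · refine (le_abs_self _).trans ?_
    rw [← hA]
    linarith
  · have := le_abs_self (8 / c)
    linarith
  · have := le_abs_self (16 / dl)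
    linarith
  · have := le_abs_self (6 / (c * dl))
    linarith
  · refine (le_abs_self _).trans ?_
    rw [← div_le_iff₀' hε, ← hB]
    linarith

section

variable {d m n D : ℕ} {ε ε₂ Kc α a b h ζ M lam τ c dl : ℝ}

theorem Num.lengthsG (hm : 64 ≤ m) (H : Num d m ε Kc α a b h ζ M lam) (hc : 0 < c)
    (hτ : τ ≤ 5 * (m + 2) ^ 2 * α / c) : (m + 1) * α ≤ h ∧ τ ≤ 6 * h / c := by
  obtain ⟨h1, h2⟩ := H.lengths hm (τ := 5 * (m + 2) ^ 2 * α) le_rfl
  exact ⟨h1, hτ.trans (div_le_div_of_nonneg_right h2 hc.le)⟩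

/-- **All the lengths are small.** -/
theorem Num.smallG (hd : 1 ≤ d) (hm : 64 ≤ m) (H : Num d m ε Kc α a b h ζ M lam)
    (hK : KcBig d m n ε₂ Kc) (hG : KcBigG d m D c dl ε₂ Kc) (hc : 0 < c) (hdl : 0 < dl)
    (hτ : τ ≤ 5 * (m + 2) ^ 2 * α / c) :
    (8 * h ≤ c ∧ τ + 2 * (h / c) ≤ 1) ∧ (2 * ((m + 1) * α) ≤ c ∧ 8 * ((m + 1) * α) ≤ 1) ∧
      (τ ≤ dl ∧ 4 * (h + (m + 1) * α) ≤ dl ∧ 16 * h ≤ dl) := by
  have hh := H.h_pos
  have hh1 := H.h_le hd hK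
  obtain ⟨hl1, hl2⟩ := H.lengthsG hm hc hτ
  have h8 : 8 / c * h ≤ 1 := (mul_le_mul_of_nonneg_right hG.g2 hh.le).trans hh1
  have h16 : 16 / dl * h ≤ 1 := (mul_le_mul_of_nonneg_right hG.g3 hh.le).trans hh1
  have h6 : 6 / (c * dl) * h ≤ 1 := (mul_le_mul_of_nonneg_right hG.g4 hh.le).trans hh1
  have e8 : 8 * h ≤ c := by
    have e : 8 / c * h = 8 * h / c := by ring
    rw [e, div_le_one hc] at h8
    exact h8
  have e16 : 16 * h ≤ dl := by
    have e : 16 / dl * h = 16 * h / dl := by ring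
    rw [e, div_le_one hdl] at h16
    exact h16
  have h20 : (8 : ℝ) ≤ Kc := by
    refine le_trans ?_ hK.k2
    have hd' : (1 : ℝ) ≤ d := by exact_mod_cast hd
    have h1 : (1 : ℝ) ≤ (2 * ((m : ℝ) + 1)) ^ (m + 2) :=
      one_le_pow₀ (by have : (0 : ℝ) ≤ m := Nat.cast_nonneg m; linarith)
    have h2 : (1 : ℝ) ≤ 4 ^ d := one_le_pow₀ (by norm_num)
    have h3 : (1 : ℝ) ≤ 4 ^ d * d := by nlinarith
    nlinarith
  have e1 : 8 * h ≤ 1 := (mul_le_mul_of_nonneg_right h20 hh.le).trans hh1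
  refine ⟨⟨e8, ?_⟩, ⟨by linarith, by linarith⟩, ?_, by linarith, e16⟩
  · have e : 6 * h / c + 2 * (h / c) = 8 / c * h := by ring
    linarith
  · refine hl2.trans ?_
    rw [div_le_iff₀ hc]
    have e : 6 / (c * dl) * h = 6 * h / (dl * c) := by ring
    rw [e, div_le_one (by positivity)] at h6
    exact h6

/-- **The numbers for the masses of one cell.** -/
theorem Num.mnumG (hd : 1 ≤ d) (hm : 64 ≤ m) (H : Num d m ε Kc α a b h ζ M lam)
    (hK : KcBig d m n ε₂ Kc) (hG : KcBigG d m D c dl ε₂ Kc) (hc : 0 < c) (hε0 : 0 ≤ ε)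
    (hε₂ : 0 ≤ ε₂) (hτ0 : 0 ≤ τ) (hτ : τ ≤ 5 * (m + 2) ^ 2 * α / c) {e ε₀ z : ℝ} (he0 : 0 ≤ e)
    (he1 : e ≤ 1 / (64 * d)) (hε₀ : e + ε₂ ≤ ε₀) (hz : |z - ζ| ≤ ε / (8 * (m + 1)) * M)
    (hz' : (m + 1) * |z - ζ| ≤ e * M) :
    MNumG d m a b (h + h) (Vrg d D m c α τ h) z lam ((1 + e) * M) (1 / (32 * d)) ε₀ M := by
  have hd' : (1 : ℝ) ≤ d := by exact_mod_cast hd
  have hm' : (64 : ℝ) ≤ m := by exact_mod_cast hm
  have hM1 := H.M_pos hK
  have hh := H.h_pos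
  have hα := H.α_pos hm
  have hh1 := H.h_le hd hK
  obtain ⟨hl1, hl2⟩ := H.lengthsG hm hc hτ
  have hQ := H.mnum hd hm hK hε0 hε₂ (τ := 0) le_rfl (by positivity) he0 he1 hε₀ hz hz'
  have hV0 : 0 ≤ Vrg d D m c α τ h := by
    unfold Vrg
    positivity
  refine ⟨hQ.par, hQ.μ0, hQ.c1_0, hQ.κ, hQ.c, hV0, hQ.n1, ?_⟩
  have hh2 : h ≤ 1 := by
    have h5 := hK.k5
    have := mul_le_mul_of_nonneg_right h5 hh.le
    linarith
  have hx1 : (m + 1) * α ≤ 1 := hl1.trans hh2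
  have hx0 : 0 ≤ (m + 1) * α := by positivity
  have hV : Vrg d D m c α τ h ≤ ((8 * D) ^ d * d * (14 / c) + 4 ^ d) * h := by
    unfold Vrg
    have e1 : (4 * ((m + 1) * α)) ^ d ≤ 4 ^ d * h := by
      rw [mul_pow]
      refine mul_le_mul_of_nonneg_left ?_ (by positivity)
      calc ((m + 1) * α) ^ d ≤ ((m + 1) * α) ^ 1 := pow_le_pow_of_le_one hx0 hx1 hd
        _ = (m + 1) * α := pow_one _
        _ ≤ h := hl1
    have e2 : τ + 2 * (h / c) + 6 * ((m + 1) * α / c) ≤ 14 / c * h := by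
      have e3 : (m + 1) * α / c ≤ h / c := div_le_div_of_nonneg_right hl1 hc.le
      have e4 : 6 * h / c = 6 * (h / c) := by ring
      have e5 : 14 / c * h = 14 * (h / c) := by ring
      rw [e4] at hl2
      rw [e5]
      linarith
    calc (8 * (D : ℝ)) ^ d * d * (τ + 2 * (h / c) + 6 * ((m + 1) * α / c)) +
          (4 * ((m + 1) * α)) ^ d
        ≤ (8 * (D : ℝ)) ^ d * d * (14 / c * h) + 4 ^ d * h :=
          add_le_add (mul_le_mul_of_nonneg_left e2 (by positivity)) e1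
      _ = _ := by ring
  have e1 : 1 / (32 * (d : ℝ)) * M / 2 = M / (64 * d) := by
    field_simp
    norm_num
  rw [e1]
  have hE : 0 < exp ((1 + e) * M + M / (64 * d)) := exp_pos _
  calc (2 * ((m : ℝ) + 1)) ^ (m + 2) * (Vrg d D m c α τ h * exp ((1 + e) * M + M / (64 * d)))
      ≤ (2 * ((m : ℝ) + 1)) ^ (m + 2) * ((((8 * D) ^ d * d * (14 / c) + 4 ^ d) * h) *
        exp ((1 + e) * M + M / (64 * d))) :=
        mul_le_mul_of_nonneg_left (mul_le_mul_of_nonneg_right hV hE.le) (by positivity)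
    _ = (2 * ((m : ℝ) + 1)) ^ (m + 2) * ((8 * D) ^ d * d * (14 / c) + 4 ^ d) * h *
        exp ((1 + e) * M + M / (64 * d)) := by ring
    _ ≤ Kc * h * exp ((1 + e) * M + M / (64 * d)) :=
        mul_le_mul_of_nonneg_right (mul_le_mul_of_nonneg_right hG.g1 hh.le) hE.le
    _ ≤ exp (-(M / (16 * d))) * exp ((1 + e) * M + M / (64 * d)) :=
        mul_le_mul_of_nonneg_right H.thin hE.le
    _ = exp (-(M / (16 * d)) + ((1 + e) * M + M / (64 * d))) := by rw [← exp_add]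
    _ ≤ _ := by
        refine exp_le_exp.2 ?_
        have h2 : e * M ≤ 1 / (64 * d) * M := mul_le_mul_of_nonneg_right he1 (by linarith)
        have e2 : M / (16 * d) = 4 * (1 / (64 * d) * M) := by
          field_simp
          norm_num
        have e3 : M / (64 * d) = 1 / (64 * d) * M := by ring
        have e4 : 1 / (32 * (d : ℝ)) = 2 * (1 / (64 * d)) := by
          field_simp
          norm_num
        rw [e2, e3, e4]
        nlinarith

/-- **The masses of the leaders.** -/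
theorem Num.wallG (hd : 1 ≤ d) (H : Num d m ε Kc α a b h ζ M lam) (hK : KcBig d m n ε₂ Kc)
    {e t : ℝ} (he1 : e ≤ 1 / (64 * d)) (ht1 : t ≤ 3 * h) :
    (2 * ((m : ℝ) + 1)) ^ (m + 1) * (2 * d * t * exp ((1 + e) * M)) ≤
      exp ((1 - 1 / (32 * d)) * M) := by
  have hd' : (1 : ℝ) ≤ d := by exact_mod_cast hd
  have hM1 := H.M_pos hK
  have hh := H.h_pos
  have hm0 : (0 : ℝ) ≤ m := Nat.cast_nonneg m
  have hE : 0 < exp ((1 + e) * M) := exp_pos _
  have h1 : (2 * ((m : ℝ) + 1)) ^ (m + 1) * (6 * d) ≤ Kc := by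
    refine le_trans ?_ hK.k2
    have h2 : (2 * ((m : ℝ) + 1)) ^ (m + 1) ≤ (2 * ((m : ℝ) + 1)) ^ (m + 2) :=
      pow_le_pow_right₀ (by linarith) (by omega)
    have h3 : (1 : ℝ) ≤ 4 ^ d := one_le_pow₀ (by norm_num)
    have h4 : (6 : ℝ) * d ≤ 20 * (4 ^ d * d) := by nlinarith
    calc (2 * ((m : ℝ) + 1)) ^ (m + 1) * (6 * d)
        ≤ (2 * ((m : ℝ) + 1)) ^ (m + 2) * (20 * (4 ^ d * d)) :=
          mul_le_mul h2 h4 (by positivity) (by positivity)
      _ = _ := by ring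
  calc (2 * ((m : ℝ) + 1)) ^ (m + 1) * (2 * d * t * exp ((1 + e) * M))
      ≤ (2 * ((m : ℝ) + 1)) ^ (m + 1) * (2 * d * (3 * h) * exp ((1 + e) * M)) := by
        refine mul_le_mul_of_nonneg_left (mul_le_mul_of_nonneg_right
          (mul_le_mul_of_nonneg_left ht1 (by positivity)) hE.le) (by positivity)
    _ = (2 * ((m : ℝ) + 1)) ^ (m + 1) * (6 * d) * h * exp ((1 + e) * M) := by ring
    _ ≤ Kc * h * exp ((1 + e) * M) :=
        mul_le_mul_of_nonneg_right (mul_le_mul_of_nonneg_right h1 hh.le) hE.le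
    _ ≤ exp (-(M / (16 * d))) * exp ((1 + e) * M) := mul_le_mul_of_nonneg_right H.thin hE.le
    _ = exp (-(M / (16 * d)) + (1 + e) * M) := by rw [← exp_add]
    _ ≤ _ := by
        refine exp_le_exp.2 ?_
        have h2 : e * M ≤ 1 / (64 * d) * M := mul_le_mul_of_nonneg_right he1 (by linarith)
        have e2 : M / (16 * d) = 4 * (1 / (64 * d) * M) := by
          field_simp
          norm_num
        have e4 : 1 / (32 * (d : ℝ)) = 2 * (1 / (64 * d)) := by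
          field_simp
          norm_num
        have h5 : 0 ≤ 1 / (64 * (d : ℝ)) * M := by positivity
        rw [e2, e4]
        linarith

/-! ### The lower bounds -/

/-- The lower bound by the columns, and its constant. -/
theorem Num.colG (H : Num d m ε Kc α a b h ζ M lam) (hG : KcBigG d m D c dl ε₂ Kc)
    (hε₂ : 0 ≤ ε₂) (z : ℝ) : M + (m + 1) * (z - ζ) - ε₂ * M ≤ (m + 1) * z +
      m * (d * log (2 * b)) - Cell.lowC d m - d * log (8 / dl) - log 2 := by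
  have hC := hG.g5.trans (mul_le_mul_of_nonneg_left H.Kc_le hε₂)
  have hcol := H.col
  linarith

theorem Num.rowG (H : Num d m ε Kc α a b h ζ M lam) (hG : KcBigG d m D c dl ε₂ Kc)
    (hε₂ : 0 ≤ ε₂) (z : ℝ) : M + m * (z - ζ) - ε₂ * M ≤ m * z +
      (m - 1) * (d * log (2 * a)) - Cell.lowC d m - d * log (8 / dl) - log 2 := by
  have hC := hG.g5.trans (mul_le_mul_of_nonneg_left H.Kc_le hε₂)
  have hrow := H.row
  linarith

theorem Num.e2_le {φ : ℝ} (hφ0 : 0 < φ) (hφ1 : φ ≤ 1) (hε0 : 0 < ε)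
    (hε2 : 400 * (m + 1) * ε₂ ≤ φ * ε) : ε₂ ≤ ε / 400 := by
  have hm0 : (0 : ℝ) ≤ m := Nat.cast_nonneg m
  rcases le_or_gt ε₂ 0 with h | h
  · have : 0 ≤ ε / 400 := by positivity
    linarith
  · have h1 : 400 * 1 * ε₂ ≤ 400 * (m + 1) * ε₂ :=
      mul_le_mul_of_nonneg_right (by linarith) h.le
    have h2 : φ * ε ≤ 1 * ε := mul_le_mul_of_nonneg_right hφ1 hε0.le
    linarith

/-- **Lower bound by the columns** in the window. -/
theorem Num.loG {φ η : ℝ} (H : Num d m ε Kc α a b h ζ M lam) (hK : KcBig d m n ε₂ Kc)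
    (hG : KcBigG d m D c dl ε₂ Kc) (hφ0 : 0 < φ) (hφ1 : φ ≤ 1) (hη0 : 0 ≤ η)
    (hη : 100 * (m + 1) * η ≤ φ * ε) (hε1 : ε ≤ 1) (hε0 : 0 < ε) (hε₂ : 0 ≤ ε₂)
    (hε2 : 400 * (m + 1) * ε₂ ≤ φ * ε) {z p : ℝ} (hz : |z - ζ| ≤ ε / (8 * (m + 1)) * M)
    (hp : 0 ≤ (m + 1) * z + m * (d * log (2 * b)) - Cell.lowC d m - d * log (8 / dl) - log 2 →
      (φ - η) * ((m + 1) * z + m * (d * log (2 * b)) - Cell.lowC d m - d * log (8 / dl) -
        log 2) ≤ p) : (φ - ε) * M ≤ p := by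
  have hM := H.M_pos hK
  have hm0 : (0 : ℝ) ≤ m := Nat.cast_nonneg m
  have e2 := Num.e2_le hφ0 hφ1 hε0 hε2
  have hη4 : 4 * η ≤ φ * ε := by
    have : 4 * 1 * η ≤ 100 * (m + 1) * η := mul_le_mul_of_nonneg_right (by linarith) hη0
    linarith
  have hφε : φ * ε ≤ φ := mul_le_of_le_one_right hφ0.le hε1
  have hφε' : φ * ε ≤ ε := mul_le_of_le_one_left hε0.le hφ1
  have hz1 := abs_le.1 hz
  have h1 : (m + 1) * (z - ζ) ≥ -(ε / 8 * M) := by
    have h2 : (m + 1) * -(ε / (8 * (m + 1)) * M) ≤ (m + 1) * (z - ζ) :=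
      mul_le_mul_of_nonneg_left hz1.1 (by positivity)
    have e : ((m : ℝ) + 1) * -(ε / (8 * (m + 1)) * M) = -(ε / 8 * M) := by
      field_simp
    rw [e] at h2
    exact h2
  have h3 := H.colG hG hε₂ z
  have h4 : (1 - ε / 8 - ε₂) * M ≤ (m + 1) * z + m * (d * log (2 * b)) - Cell.lowC d m -
      d * log (8 / dl) - log 2 := by linarith
  have h5 : 0 ≤ (1 - ε / 8 - ε₂) * M := mul_nonneg (by linarith) (by linarith)
  refine le_trans ?_ (hp (h5.trans h4))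
  refine le_trans ?_ (mul_le_mul_of_nonneg_left h4 (by linarith : 0 ≤ φ - η))
  have h7 : φ - ε ≤ (φ - η) * (1 - ε / 8 - ε₂) := by
    have h8 : 0 ≤ ε / 8 + ε₂ := by positivity
    have h9 : (φ - η) * (ε / 8 + ε₂) ≤ 1 * (ε / 8 + ε₂) :=
      mul_le_mul_of_nonneg_right (by linarith) h8
    have h10 : (φ - η) * (1 - ε / 8 - ε₂) = φ - η - (φ - η) * (ε / 8 + ε₂) := by ring
    rw [h10]
    linarith
  calc (φ - ε) * M ≤ (φ - η) * (1 - ε / 8 - ε₂) * M :=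
        mul_le_mul_of_nonneg_right h7 (by linarith)
    _ = _ := by ring

/-- **Lower bound by the rows** in the window. -/
theorem Num.growG {φ η : ℝ} (H : Num d m ε Kc α a b h ζ M lam) (hK : KcBig d m n ε₂ Kc)
    (hG : KcBigG d m D c dl ε₂ Kc) (hφ0 : 0 < φ) (hφ1 : φ ≤ 1) (hη0 : 0 ≤ η)
    (hη : 100 * (m + 1) * η ≤ φ * ε) (hε1 : ε ≤ 1) (hε0 : 0 < ε) (hε₂ : 0 ≤ ε₂)
    (hε2 : 400 * (m + 1) * ε₂ ≤ φ * ε) {z p a' : ℝ} (hz : |z - ζ| ≤ ε / (8 * (m + 1)) * M)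
    (ha0 : 0 ≤ a') (ha1 : a' ≤ M)
    (hp : 0 ≤ a' + (m * z + (m - 1) * (d * log (2 * a)) - Cell.lowC d m - d * log (8 / dl) -
      log 2) → (φ - η) * (a' + (m * z + (m - 1) * (d * log (2 * a)) - Cell.lowC d m -
        d * log (8 / dl) - log 2)) ≤ p) : φ * a' + (φ - ε) * M ≤ p := by
  have hM := H.M_pos hK
  have hm0 : (0 : ℝ) ≤ m := Nat.cast_nonneg m
  have e2 := Num.e2_le hφ0 hφ1 hε0 hε2
  have hη4 : 4 * η ≤ φ * ε := by
    have : 4 * 1 * η ≤ 100 * (m + 1) * η := mul_le_mul_of_nonneg_right (by linarith) hη0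
    linarith
  have hφε : φ * ε ≤ φ := mul_le_of_le_one_right hφ0.le hε1
  have hφε' : φ * ε ≤ ε := mul_le_of_le_one_left hε0.le hφ1
  have hz1 := abs_le.1 hz
  have h1 : m * (z - ζ) ≥ -(ε / 8 * M) := by
    have h2 : (m : ℝ) * -(ε / (8 * (m + 1)) * M) ≤ m * (z - ζ) :=
      mul_le_mul_of_nonneg_left hz1.1 hm0
    have e : ((m : ℝ) + 1) * -(ε / (8 * (m + 1)) * M) = -(ε / 8 * M) := by
      field_simp
    have h3 : 0 ≤ ε / (8 * (m + 1)) * M := by positivity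
    nlinarith
  have h3 := H.rowG hG hε₂ z
  have h4 : a' + (1 - ε / 8 - ε₂) * M ≤ a' + (m * z + (m - 1) * (d * log (2 * a)) -
      Cell.lowC d m - d * log (8 / dl) - log 2) := by linarith
  have h5 : 0 ≤ (1 - ε / 8 - ε₂) * M := mul_nonneg (by linarith) (by linarith)
  refine le_trans ?_ (hp ((add_nonneg ha0 h5).trans h4))
  refine le_trans ?_ (mul_le_mul_of_nonneg_left h4 (by linarith : 0 ≤ φ - η))
  have h7 : φ - ε + η ≤ (φ - η) * (1 - ε / 8 - ε₂) := by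
    have h8 : 0 ≤ ε / 8 + ε₂ := by positivity
    have h9 : (φ - η) * (ε / 8 + ε₂) ≤ 1 * (ε / 8 + ε₂) :=
      mul_le_mul_of_nonneg_right (by linarith) h8
    have h10 : (φ - η) * (1 - ε / 8 - ε₂) = φ - η - (φ - η) * (ε / 8 + ε₂) := by ring
    rw [h10]
    linarith
  have h11 := mul_le_mul_of_nonneg_right h7 (show 0 ≤ M by linarith)
  have h12 : η * a' ≤ η * M := mul_le_mul_of_nonneg_left ha1 hη0
  have h13 : (φ - η) * (a' + (1 - ε / 8 - ε₂) * M) = φ * a' - η * a' +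
      (φ - η) * (1 - ε / 8 - ε₂) * M := by ring
  rw [h13]
  linarith

/-- **The lower end of the window**: the rows win. -/
theorem Num.end1G {φ η : ℝ} (H : Num d m ε Kc α a b h ζ M lam) (hK : KcBig d m n ε₂ Kc)
    (hG : KcBigG d m D c dl ε₂ Kc) (hφ0 : 0 < φ) (hφ1 : φ ≤ 1) (hη0 : 0 ≤ η)
    (hη : 100 * (m + 1) * η ≤ φ * ε) (hε1 : ε ≤ 1) (hε0 : 0 < ε) (hε₂ : 0 ≤ ε₂)
    (hε2 : 400 * (m + 1) * ε₂ ≤ φ * ε) {t p p' : ℝ} (ht : t = ε / (8 * (m + 1)) * M)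
    (hp' : p' ≤ (φ + ε₂) * M)
    (hp : 0 ≤ 0 + (m * (ζ - t) + (m - 1) * (d * log (2 * a)) - Cell.lowC d m -
      d * log (8 / dl) - log 2) → (φ - η) * (0 + (m * (ζ - t) + (m - 1) * (d * log (2 * a)) -
        Cell.lowC d m - d * log (8 / dl) - log 2)) ≤ p) :
    p' ≤ p + t * ((m + 1 / 4) * φ) := by
  have hM := H.M_pos hK
  have hm0 : (0 : ℝ) ≤ m := Nat.cast_nonneg m
  have e2 := Num.e2_le hφ0 hφ1 hε0 hε2
  have hη4 : 4 * η ≤ φ * ε := by
    have : 4 * 1 * η ≤ 100 * (m + 1) * η := mul_le_mul_of_nonneg_right (by linarith) hη0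
    linarith
  have hφε : φ * ε ≤ φ := mul_le_of_le_one_right hφ0.le hε1
  have ht0 : 0 ≤ t := by rw [ht]; positivity
  have e1 : (m + 1) * t = ε / 8 * M := by
    rw [ht]
    field_simp
  have hεM : ε * M ≤ M := by nlinarith
  have e2M : ε₂ * M ≤ ε / 400 * M := mul_le_mul_of_nonneg_right e2 (by linarith)
  have h3 := H.rowG hG hε₂ (ζ - t)
  have e3 : (m : ℝ) * (ζ - t - ζ) = -(m * t) := by ring
  rw [e3] at h3
  have hc : M - m * t - ε₂ * M ≤ 0 + (m * (ζ - t) + (m - 1) * (d * log (2 * a)) -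
      Cell.lowC d m - d * log (8 / dl) - log 2) := by linarith
  have hc0 : 0 ≤ M - m * t - ε₂ * M := by linarith
  have h6 := (mul_le_mul_of_nonneg_left hc (by linarith : 0 ≤ φ - η)).trans (hp (hc0.trans hc))
  have h7 : η * (M - m * t - ε₂ * M) ≤ η * M := by
    refine mul_le_mul_of_nonneg_left ?_ hη0
    have h8 : 0 ≤ m * t := by positivity
    have h9 : 0 ≤ ε₂ * M := by positivity
    linarith
  have h8 : (m + 1) * (2 * (ε₂ * M) + 2 * (η * M)) ≤ (m + 1) * (φ * t / 4) := by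
    have h9 : 400 * (m + 1) * ε₂ * M ≤ φ * ε * M := mul_le_mul_of_nonneg_right hε2 (by linarith)
    have h10 : 100 * (m + 1) * η * M ≤ φ * ε * M := mul_le_mul_of_nonneg_right hη (by linarith)
    have h11 : (m + 1) * (φ * t / 4) = φ * ε * M / 32 := by
      have : (m + 1) * (φ * t / 4) = φ / 4 * ((m + 1) * t) := by ring
      rw [this, e1]
      ring
    have h12 : 0 ≤ φ * ε * M := by positivity
    rw [h11]
    linarith
  have h9 : 2 * (ε₂ * M) + 2 * (η * M) ≤ φ * t / 4 :=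
    le_of_mul_le_mul_left h8 (by positivity)
  have h10 : φ * (ε₂ * M) ≤ 1 * (ε₂ * M) := mul_le_mul_of_nonneg_right hφ1 (by positivity)
  have h11 : 0 ≤ η * M := by positivity
  have h12 : (φ - η) * (M - m * t - ε₂ * M) = φ * M - φ * (m * t) - φ * (ε₂ * M) -
      η * (M - m * t - ε₂ * M) := by ring
  rw [h12] at h6
  have h13 : t * ((m + 1 / 4) * φ) = φ * (m * t) + φ * t / 4 := by ring
  rw [h13]
  linarith

/-- **The upper end of the window**: the columns win. -/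
theorem Num.end2G {φ η : ℝ} (H : Num d m ε Kc α a b h ζ M lam) (hK : KcBig d m n ε₂ Kc)
    (hG : KcBigG d m D c dl ε₂ Kc) (hφ0 : 0 < φ) (hφ1 : φ ≤ 1) (hη0 : 0 ≤ η)
    (hη : 100 * (m + 1) * η ≤ φ * ε) (hε1 : ε ≤ 1) (hε0 : 0 < ε) (hε₂ : 0 ≤ ε₂)
    (hε2 : 400 * (m + 1) * ε₂ ≤ φ * ε) {t p p' : ℝ} (ht : t = ε / (8 * (m + 1)) * M)
    (hp' : p' ≤ (φ + ε₂) * M)
    (hp : 0 ≤ (m + 1) * (ζ + t) + m * (d * log (2 * b)) - Cell.lowC d m - d * log (8 / dl) -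
      log 2 → (φ - η) * ((m + 1) * (ζ + t) + m * (d * log (2 * b)) - Cell.lowC d m -
        d * log (8 / dl) - log 2) ≤ p) :
    p' ≤ p - t * ((m + 3 / 4) * φ) := by
  have hM := H.M_pos hK
  have hm0 : (0 : ℝ) ≤ m := Nat.cast_nonneg m
  have e2 := Num.e2_le hφ0 hφ1 hε0 hε2
  have hη4 : 4 * η ≤ φ * ε := by
    have : 4 * 1 * η ≤ 100 * (m + 1) * η := mul_le_mul_of_nonneg_right (by linarith) hη0
    linarith
  have hφε : φ * ε ≤ φ := mul_le_of_le_one_right hφ0.le hε1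
  have ht0 : 0 ≤ t := by rw [ht]; positivity
  have e1 : (m + 1) * t = ε / 8 * M := by
    rw [ht]
    field_simp
  have hεM : ε * M ≤ M := by nlinarith
  have e2M : ε₂ * M ≤ ε / 400 * M := mul_le_mul_of_nonneg_right e2 (by linarith)
  have h3 := H.colG hG hε₂ (ζ + t)
  have e3 : ((m : ℝ) + 1) * (ζ + t - ζ) = (m + 1) * t := by ring
  rw [e3] at h3
  have hc0 : 0 ≤ M + (m + 1) * t - ε₂ * M := by
    have : 0 ≤ (m + 1) * t := by positivity
    linarith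
  have h6 := (mul_le_mul_of_nonneg_left h3 (by linarith : 0 ≤ φ - η)).trans (hp (hc0.trans h3))
  have h7 : η * (M + (m + 1) * t - ε₂ * M) ≤ η * (2 * M) := by
    refine mul_le_mul_of_nonneg_left ?_ hη0
    have h9 : 0 ≤ ε₂ * M := by positivity
    rw [e1]
    linarith
  have h8 : (m + 1) * (2 * (ε₂ * M) + 2 * (η * M)) ≤ (m + 1) * (φ * t / 4) := by
    have h9 : 400 * (m + 1) * ε₂ * M ≤ φ * ε * M := mul_le_mul_of_nonneg_right hε2 (by linarith)
    have h10 : 100 * (m + 1) * η * M ≤ φ * ε * M := mul_le_mul_of_nonneg_right hη (by linarith)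
    have h11 : (m + 1) * (φ * t / 4) = φ * ε * M / 32 := by
      have : (m + 1) * (φ * t / 4) = φ / 4 * ((m + 1) * t) := by ring
      rw [this, e1]
      ring
    have h12 : 0 ≤ φ * ε * M := by positivity
    rw [h11]
    linarith
  have h9 : 2 * (ε₂ * M) + 2 * (η * M) ≤ φ * t / 4 :=
    le_of_mul_le_mul_left h8 (by positivity)
  have h10 : φ * (ε₂ * M) ≤ 1 * (ε₂ * M) := mul_le_mul_of_nonneg_right hφ1 (by positivity)
  have h12 : (φ - η) * (M + (m + 1) * t - ε₂ * M) = φ * M + φ * ((m + 1) * t) - φ * (ε₂ * M) -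
      η * (M + (m + 1) * t - ε₂ * M) := by ring
  rw [h12] at h6
  have h13 : φ * ((m + 1) * t) - t * ((m + 3 / 4) * φ) = φ * t / 4 := by ring
  linarith

end

end Pool.Agent.RC
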