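import Pool.Agent.Lib.MP_09cbbd_rc.EndC
import Pool.Agent.Lib.MP_09cbbd_rc.GOkI
import Pool.Agent.Lib.MP_09cbbd_rc.GMain
import Pool.Agent.Lib.MP_09cbbd_rc.GPk
import Pool.Agent.Lib.MP_09cbbd_rc.LowN
import Pool.Agent.Lib.MP_09cbbd_rc.NumG
import Pool.Agent.Lib.MP_09cbbd_rc.GUp
import Pool.Agent.Lib.MP_09cbbd_rc.FinM

/-!
# Rows and columns: the transition for a general hard core
-/

set_option autoImplicit false

namespace Pool.Agent.RC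

open MeasureTheory Finset Filter Topology Pointwise
open Pool.Agent.StableGas hiding tr
open Pool.Agent.SquareWell hiding Md cut
open Pool.Agent.SquareWell.ModA
open Pool.Agent.Exg

variable {d : ℕ}

theorem KcBig.weaken {m n : ℕ} {ε₃ ε₂ Kc : ℝ} (h : KcBig d m n ε₃ Kc) (hε : ε₃ ≤ ε₂) :
    KcBig d m n ε₂ Kc := by
  have h1 := mul_le_mul_of_nonneg_right hε (show (0 : ℝ) ≤ Kc by linarith [h.k5])
  exact ⟨h.k1.trans h1, h.k2, h.k3.trans h1, h.k4, h.k5⟩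

theorem KcBigG.weaken {m D : ℕ} {c dl ε₃ ε₂ Kc : ℝ} (h : KcBigG d m D c dl ε₃ Kc)
    (hK : 0 ≤ Kc) (hε : ε₃ ≤ ε₂) : KcBigG d m D c dl ε₂ Kc := by
  have h1 := mul_le_mul_of_nonneg_right hε hK
  exact ⟨h.g1, h.g2, h.g3, h.g4, h.g5.trans h1⟩

/-- **The transition for a general hard core**, when all the numbers are chosen. -/
theorem gen_step (hd : 2 ≤ d) {N : Set (Fin d → ℝ)} {c : ℝ} {D : ℕ} (hC : Core N c D) :
    ∃ k0 : ℕ, ∀ k : ℕ, k0 ≤ k → ∀ m : ℕ, m = 8 * (8 * k + 11) ^ d →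
    ∃ ε : ℝ, 0 < ε ∧ ε ≤ 1 ∧ ∃ (dl ε₂ K0 : ℝ), 0 < dl ∧ 0 < ε₂ ∧
    ∀ (i₁ i₂ : Fin d) (α a b β β' τ εJ Kc h ζ M lam : ℝ) (E : Set (Fin d → ℝ)), K0 ≤ Kc →
      KcBig d m 1 (ε₂ / 2) Kc → KcBigG d m D c dl (ε₂ / 2) Kc → Num d m ε Kc α a b h ζ M lam →
      τ ≤ 5 * (m + 2) ^ 2 * α / c → 0 ≤ εJ →
      4 * (2 * ((4 * k + 5 : ℕ) : ℝ) + 1) ^ d * (m + 1) ^ 2 * εJ ≤ 1 →
      Geo d i₁ i₂ m (2 * k + 1) α a b β β' τ εJ N E → ExGas.Transition d E := by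
  have hd1 : 1 ≤ d := by omega
  have hd' : (1 : ℝ) ≤ d := by exact_mod_cast hd1
  have hc0 := hC.c_pos
  have hc1 : (0 : ℝ) < 1 / (32 * d) := by positivity
  have hc1' : (1 : ℝ) / (32 * d) ≤ 1 := by
    rw [div_le_one (by positivity)]
    linarith
  obtain ⟨hφ, hφ1, hMx, hMx'⟩ := hC.Mx_lim hd1
  obtain ⟨k0, hk0⟩ := gen_kink (d := d) hd hc1 hc1' (Cm := 8 * 12 ^ d)
    (by have : (1 : ℝ) ≤ 12 ^ d := one_le_pow₀ (by norm_num); linarith) hφ hφ1 hMx hMx'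
    (st := 10) (by norm_num) (2 * D)
  refine ⟨max k0 (max 5 D), fun k hk m hm => ?_⟩
  have hkk : k0 ≤ k := (le_max_left _ _).trans hk
  have hk5 : 5 ≤ k := ((le_max_left _ _).trans (le_max_right _ _)).trans hk
  have hkD : D ≤ k := ((le_max_right _ _).trans (le_max_right _ _)).trans hk
  have hm64 : 64 ≤ m := by
    have h1 : (8 * k + 11) ^ 1 ≤ (8 * k + 11) ^ d := Nat.pow_le_pow_right (by omega) hd1
    rw [pow_one] at h1
    omega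
  have hmk : (m : ℝ) ≤ 8 * 12 ^ d * (k : ℝ) ^ d := by
    have h1 : (8 * k + 11) ^ d ≤ (12 * k) ^ d := Nat.pow_le_pow_left (by omega) d
    have h2 : (m : ℝ) ≤ 8 * ((12 * k : ℕ) : ℝ) ^ d := by
      rw [hm]
      exact_mod_cast Nat.mul_le_mul_left 8 h1
    push_cast at h2
    rw [mul_pow] at h2
    linarith
  obtain ⟨ε', hε', μ0, hμ0⟩ := hk0 k m hkk (by omega) hmk
  obtain ⟨ηk, hηk, hηk1, hηk2⟩ : ∃ ηk : ℝ, 0 < ηk ∧ ηk ≤ 1 / 2 ∧ ηk ≤ ε' :=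
    ⟨min (1 / 2) ε', by positivity, min_le_left _ _, min_le_right _ _⟩
  obtain ⟨μ1, hμ1⟩ := genOk_exists d m (2 * D) hc1.le hηk hηk1
  -- the window
  obtain ⟨ε, hε, hεa, hεb, hεc⟩ : ∃ ε : ℝ, 0 < ε ∧ ε ≤ 1 ∧ ε ≤ 1 / (8 * d) ∧ ε ≤ ηk := by
    refine ⟨min 1 (min (1 / (8 * d)) ηk), by positivity, min_le_left _ _,
      (min_le_right _ _).trans (min_le_left _ _), (min_le_right _ _).trans (min_le_right _ _)⟩
  have hm' : (64 : ℝ) ≤ m := by exact_mod_cast hm64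
  obtain ⟨ε₂, hε₂e⟩ : ∃ ε₂ : ℝ, ε₂ = pk N * ε / (400 * (m + 1)) := ⟨_, rfl⟩
  have hε₂ : 0 < ε₂ := by rw [hε₂e]; positivity
  have hε2 : 400 * (m + 1) * ε₂ ≤ pk N * ε := by
    rw [hε₂e]
    exact le_of_eq (by field_simp)
  have hη2 : 100 * (m + 1) * ε₂ ≤ pk N * ε := by
    refine le_trans ?_ hε2
    have : 0 ≤ ((m : ℝ) + 1) * ε₂ := by positivity
    linarith
  have hε2' : ε₂ ≤ ε / 16 := by
    have h1 : 16 * ε₂ ≤ 400 * (m + 1) * ε₂ := mul_le_mul_of_nonneg_right (by linarith) hε₂.le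
    have h2 : pk N * ε ≤ 1 * ε := mul_le_mul_of_nonneg_right hφ1 hε.le
    linarith
  obtain ⟨μ2, hμ2⟩ := MasN.prs_le' (d := d) (C := Cpt m) hd1 hc1.le (ε := ε₂ / 2) (by positivity)
    (2 * D)
  obtain ⟨dl, hdl, hdl8, hlow⟩ := hC.low hε₂
  refine ⟨ε, hε, hεa, dl, ε₂, max μ0 (max μ1 μ2), hdl, hε₂, ?_⟩
  intro i₁ i₂ α a b β β' τ εJ Kc h ζ M lam E hKc hK3 hKG3 HN hτ hεJ hεJ' hG
  obtain ⟨r, hr⟩ : ∃ r : ℕ, r = 4 * k + 5 := ⟨_, rfl⟩
  rw [← hr] at hεJ'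
  have hh := HN.h_pos
  have hKc1 := hK3.k5
  have hM1 : 1 ≤ M := hKc1.trans HN.Kc_le
  have hK := hK3.weaken (show ε₂ / 2 ≤ ε₂ by linarith)
  have hKG := hKG3.weaken (show 0 ≤ Kc by linarith) (show ε₂ / 2 ≤ ε₂ by linarith)
  have hα0 := hG.α_pos
  obtain ⟨hl1, hl2⟩ := HN.lengthsG hm64 hc0 hτ
  obtain ⟨⟨hs1, hs2⟩, ⟨hs3, hs4⟩, hs5, hs6, hs7⟩ := HN.smallG hd1 hm64 hK hKG hc0 hdl hτ
  have hhc : h ≤ c := by linarith
  have hτ0 := hG.hτ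
  have hq : (1 + τ + 2 * (h / c)) * D ≤ (2 * D : ℕ) := by
    push_cast
    exact mul_le_mul_of_nonneg_right (by linarith) (Nat.cast_nonneg _)
  have hr' : 2 * (2 * (k : ℝ) + 1) + 3 ≤ r := by
    rw [hr]
    push_cast
    linarith
  have hqr : 2 * D ≤ r := by omega
  have hαh : α ≤ h := by
    refine le_trans ?_ hl1
    have : 1 * α ≤ (m + 1) * α := mul_le_mul_of_nonneg_right (by linarith) hα0.le
    linarith
  have haw : a < h := by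
    have h1 := hG.ha
    have h2 := hG.a_pos
    linarith
  have haw' : (m + 1) * α + a ≤ h := by
    have h1 := hG.ha
    have h2 := hG.a_pos
    rw [HN.h_eq]
    have h3 : 64 * ((m + 1) * α) ≤ m * ((m + 1) * α) :=
      mul_le_mul_of_nonneg_right hm' (by positivity)
    have h4 : 1 * α ≤ (m + 1) * α := mul_le_mul_of_nonneg_right (by linarith) hα0.le
    linarith
  have hnA : h = m * ((m + 1) * α) := by
    rw [HN.h_eq]
    ring
  have hnB : h = (m + 1 : ℕ) * (m * α) := by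
    rw [HN.h_eq]
    push_cast
    ring
  have hm8 : 8 * (2 * r + 1) ^ d ≤ m := by
    rw [hm, hr]
    exact le_of_eq (by congr 2; ring)
  have hRrc : ((2 * k : ℕ) : ℝ) + 1 ≤ 2 * (k : ℝ) + 1 := by
    push_cast
    exact le_rfl
  have hMA := hG.mvr_A hC hh hhc hq hr' hqr hεJ haw hnA
  have hMB := hG.mvr_B hC hh hhc hq hr' hqr hεJ haw hnB
  have heA : ((2 * (hG.ng hC hh.le hhc hq hr' hqr).r + 1) ^ d : ℕ) *
      (ENNReal.ofReal (2 * (β' + 2 * a) / ((m + 1) * α) + m ^ 2 * εJ)) ≤ 1 / 2 := by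
    have h2 := e1_le (d := d) (β' := β') (M := m + 1) (n := m) (r := r) hG.α_pos hG.ha
      hG.hβ' (by omega) (Nat.le_succ m) (Nat.le_succ m) hεJ hm8 hεJ'
    push_cast at h2 ⊢
    exact h2
  have heB : ((2 * (hG.ng hC hh.le hhc hq hr' hqr).r + 1) ^ d : ℕ) *
      (ENNReal.ofReal (2 * (β' + 2 * b) / (m * α) + ((m + 1 : ℕ) : ℝ) ^ 2 * εJ)) ≤ 1 / 2 := by
    have hba := hG.hba
    have ha := hG.ha
    exact e1_le (d := d) (β' := β') (M := m) (n := m + 1) (r := r) hG.α_pos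
      (by linarith) hG.hβ' (by omega) le_rfl le_rfl hεJ hm8 hεJ'
  have hN0 : (hG.ng hC hh.le hhc hq hr' hqr).Nk 0 ⊆ (1 + τ) • N := by
    change cNk N c τ h 0 ⊆ _
    rw [cNk_zero]
  have hloA := fun z a' p => (hlow i₁ i₂ m _ α a b β β' τ εJ h h E hG
    (hG.ng hC hh.le hhc hq hr' hqr) hN0 hs5 hh.le hs6 hs7 _ heA).1 hMA z a' p
  have hloB := fun z a' p => (hlow i₁ i₂ m _ α a b β β' τ εJ h h E hG
    (hG.ng hC hh.le hhc hq hr' hqr) hN0 hs5 hh.le hs6 hs7 _ heB).2 hMB z a' p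
  set G := hG.ng hC hh.le hhc hq hr' hqr with hGdef
  have hfld : ∀ z a' : ℝ, G.cg.Fld (fa (fun x => z * (x.1 : ℝ))
      (GA E i₁ i₂ m α a h h) a') := fun z a' =>
    CG.Fld.fa (G.fld z) (measurableSet_GA hG.meas) hG.e0_A a'
  have hfa0 : ∀ z : ℝ, fa (fun x => z * (x.1 : ℝ)) (GA E i₁ i₂ m α a h h) 0 =
      fun x => z * (x.1 : ℝ) := fun z => by
    funext x
    simp [fa]
  obtain ⟨t0, ht0⟩ : ∃ t0 : ℝ, t0 = ε / (8 * (m + 1)) * M := ⟨_, rfl⟩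
  have ht0pos : 0 < t0 := by rw [ht0]; positivity
  have het : (m + 1) * t0 = ε / 8 * M := by
    rw [ht0]
    field_simp
  have hed : ε / 8 ≤ 1 / (64 * d) := by
    have e : (1 : ℝ) / (64 * d) = 1 / (8 * d) / 8 := by
      field_simp
      norm_num
    rw [e]
    linarith
  have hQ : ∀ z, |z - ζ| ≤ t0 → MNumG d m a b (h + h) (Vrg d D m c α τ h) z lam
      ((1 + ε / 8) * M) (1 / (32 * d)) ηk M := fun z hz =>
    HN.mnumG hd1 hm64 hK hKG hc0 hε.le hε₂.le hτ0 hτ (e := ε / 8) (by positivity) hed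
      (by linarith) (by rw [← ht0]; exact hz) (by
        rw [← het]
        exact mul_le_mul_of_nonneg_left hz (by positivity))
  have hQ0 : MNumG d m a b (h + h) (Vrg d D m c α τ h) ζ lam ((1 + 0) * M) (1 / (32 * d))
      (ε₂ / 2) M :=
    HN.mnumG hd1 hm64 hK3 hKG3 hc0 hε.le (by positivity) hτ0 hτ (e := 0) le_rfl (by positivity)
      (by linarith) (by
        rw [sub_self, abs_zero]
        positivity) (by
        rw [sub_self, abs_zero, mul_zero, zero_mul])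
  have hOk : ∀ z ∈ Set.Icc (ζ - t0) (ζ + t0), GenOk G.cg (GA E i₁ i₂ m α a h h)
      (GB E i₁ i₂ m α b h h) (odI E) (gms E i₁ i₂ m α a h h) (fun x => x.1) (fun k => Mx N k)
      (nwI (Bd.prm i₁ i₂ m (2 * k + 1) α a b β N E)) m (2 * k) (pk N)
      (1 / (32 * d)) ε' M z := by
    intro z hz
    have hz' : |z - ζ| ≤ t0 := abs_le.2 ⟨by linarith [hz.1], by linarith [hz.2]⟩
    refine GenOk.mono (ε := ηk) ?_ hηk2 (by linarith)
    refine hμ1 N E i₁ i₂ (2 * (k : ℝ) + 1) α a b β β' τ εJ hG c D hC h h hh hhc r hq hr' hqr hεJ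
      HN.h_eq haw' (by omega) hm8 hεJ' hs4 hs2 hs3 (2 * k) hRrc lam _ M z (pk N)
      (((le_max_left _ _).trans ((le_max_right _ _).trans hKc)).trans HN.Kc_le) (hQ z hz')
      (HN.wallG hd1 hK hed (by linarith)) (fun t => ?_) (fun t ht1 ht2 => ?_)
    · refine le_trans (mul_le_mul_of_nonneg_right (by linarith) (by linarith))
        (HN.loG hK hKG hφ hφ1 hε₂.le hη2 hεa hε hε₂.le hε2 (z := z) (by rw [← ht0]; exact hz')
        (hloB z t _ (CG.isP_prs hd1 (hfld z t))))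
    · have h1 := HN.growG hK hKG hφ hφ1 hε₂.le hη2 hεa hε hε₂.le hε2 (z := z)
        (by rw [← ht0]; exact hz') ht1 ht2 (hloA z t _ (CG.isP_prs hd1 (hfld z t)))
      have h2 : (pk N - ηk) * M ≤ (pk N - ε) * M :=
        mul_le_mul_of_nonneg_right (by linarith) (by linarith)
      exact le_trans (by linarith) h1
  -- the upper bound in the middle
  have hmid : G.cg.prs (fun x => ζ * (x.1 : ℝ)) ≤ (pk N + ε₂) * M := by
    have hA : Awy E (GA E i₁ i₂ m α a h h) (h - a) := hG.awy_A hh haw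
    have hB : Awy E (GB E i₁ i₂ m α b h h) (h - a) := hG.awy_B hh haw
    have hO := hOk ζ ⟨by linarith, by linarith⟩
    have hP := hG.pcsN hC.sym hs4 G (t := (m + 1) * α) (ζ := ζ) hA hB (by linarith) le_rfl hQ0.par
    have hMN := hG.masNI hC hh hhc hh.le (t := (m + 1) * α) (by positivity) hl1 hs2 hs3 hq hr' hqr
      hQ0 ⟨HN.wallG hd1 hK (by positivity) (by linarith), pow_le_Cpt m⟩
    have h1 := hμ2 _ _ G.cg _ _ _ _ m _ _ _ _ _ _ _ _ M (pk N) le_rfl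
      (((le_max_right _ _).trans ((le_max_right _ _).trans hKc)).trans HN.Kc_le) hφ1 hO.cub
      hO.ldr hP hMN (tendsto_Mx hd1 hC)
    refine h1.trans (le_of_eq ?_)
    ring
  have hμ : μ0 ≤ M := ((le_max_left _ _).trans hKc).trans HN.Kc_le
  have hE1 : G.cg.prs (fun x => (ζ - t0 + t0) * (x.1 : ℝ)) ≤
      G.cg.prs (fun x => (ζ - t0) * (x.1 : ℝ)) + t0 * ((m + 1 / 4) * pk N) := by
    have h1 := hloA (ζ - t0) 0 _ (CG.isP_prs hd1 (hfld (ζ - t0) 0))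
    rw [hfa0 (ζ - t0)] at h1
    have h2 := HN.end1G hK hKG hφ hφ1 hε₂.le hη2 hεa hε hε₂.le hε2 ht0 hmid h1
    rw [sub_add_cancel]
    exact h2
  have hE2 : G.cg.prs (fun x => (ζ + t0 - t0) * (x.1 : ℝ)) ≤
      G.cg.prs (fun x => (ζ + t0) * (x.1 : ℝ)) - t0 * ((m + 3 / 4) * pk N) := by
    have h1 := hloB (ζ + t0) 0 _ (CG.isP_prs hd1 (hfld (ζ + t0) 0))
    rw [hfa0 (ζ + t0)] at h1
    have h2 := HN.end2G hK hKG hφ hφ1 hε₂.le hη2 hεa hε hε₂.le hε2 ht0 hmid h1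
    rw [add_sub_cancel_right]
    exact h2
  obtain ⟨w, n1, n2, hn12, hw1, hw2⟩ := hμ0 (Mix.Ct (Fin d → ℝ)) _ G.cg
    (GA E i₁ i₂ m α a h h) (GB E i₁ i₂ m α b h h) (odI E) (gms E i₁ i₂ m α a h h)
    (fun x => x.1) (nwI (Bd.prm i₁ i₂ m (2 * k + 1) α a b β N E))
    (2 * k) M (ζ - t0) (ζ + t0) le_rfl le_rfl (by
      show 2 * r ≤ 10 * k
      omega) hμ (by linarith) hOk ⟨t0, ht0pos, by linarith, hE1⟩ ⟨t0, ht0pos, by linarith, hE2⟩
  exact G.transition_of_kink hd1 hG.ex hn12 (fun t ht => hw1 t ht) (fun t ht => hw2 t ht)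

/-- **The transition for a general hard core.** -/
theorem end_stmt (hd : 2 ≤ d) : EndStmt d := by
  intro N c D hC i₁ i₂ hne
  have hd1 : 1 ≤ d := by omega
  have hd' : (1 : ℝ) ≤ d := by exact_mod_cast hd1
  have hc0 := hC.c_pos
  obtain ⟨k0, hk0⟩ := gen_step hd hC
  refine ⟨max k0 D, fun k hk δ hδ => ?_⟩
  have hkD : D ≤ k := (le_max_right _ _).trans hk
  obtain ⟨m, hm⟩ : ∃ m : ℕ, m = 8 * (8 * k + 11) ^ d := ⟨_, rfl⟩
  obtain ⟨ε, hε, hεa, dl, ε₂, K0, hdl, hε₂, hfin⟩ := hk0 k ((le_max_left _ _).trans hk) m hm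
  rw [← hm]
  have hm64 : 64 ≤ m := by
    have h1 : (8 * k + 11) ^ 1 ≤ (8 * k + 11) ^ d := Nat.pow_le_pow_right (by omega) hd1
    rw [pow_one] at h1
    omega
  have hm' : (64 : ℝ) ≤ m := by exact_mod_cast hm64
  obtain ⟨Kc, hKc, hK, hKG⟩ := exists_KcBigG d m 1 D c dl (ε₂ := ε₂ / 2) (by positivity)
    (max K0 (max (6 / (c * δ)) (max (7 / c) (6 / δ))))
  -- the junk
  obtain ⟨r, hr⟩ : ∃ r : ℕ, r = 4 * k + 5 := ⟨_, rfl⟩
  obtain ⟨εJ, hεJ, hεJδ, hεJ'⟩ : ∃ εJ : ℝ, 0 < εJ ∧ εJ ≤ δ ∧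
      4 * (2 * (r : ℝ) + 1) ^ d * (m + 1) ^ 2 * εJ ≤ 1 := by
    have hp : 0 < 4 * (2 * (r : ℝ) + 1) ^ d * (m + 1) ^ 2 := by positivity
    refine ⟨min δ (1 / (4 * (2 * (r : ℝ) + 1) ^ d * (m + 1) ^ 2)), by positivity,
      min_le_left _ _, ?_⟩
    calc _ ≤ 4 * (2 * (r : ℝ) + 1) ^ d * (m + 1) ^ 2 *
          (1 / (4 * (2 * (r : ℝ) + 1) ^ d * (m + 1) ^ 2)) :=
          mul_le_mul_of_nonneg_left (min_le_right _ _) hp.le
      _ = 1 := by field_simp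
  have hDR : (D : ℝ) ≤ 2 * (k : ℝ) + 1 := by
    have h1 : (D : ℝ) ≤ k := by exact_mod_cast hkD
    have h2 : (0 : ℝ) ≤ k := Nat.cast_nonneg k
    linarith
  obtain ⟨C, b₀, hCC, hI⟩ := instKN hne hC m (by omega) (2 * (k : ℝ) + 1) hDR εJ hεJ
  obtain ⟨b₁, H, hb₁, hH, hNum⟩ := exists_num (d := d) (m := m) hd1 hm64 hCC hεa Kc b₀
  have hH' : (7 : ℝ) ≤ H := by exact_mod_cast hH
  obtain ⟨α, hα⟩ : ∃ α : ℝ, α * (m * (m + 1) * H) = 1 :=
    ⟨1 / (m * (m + 1) * H), by field_simp⟩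
  obtain ⟨h, ζ, M, lam, HN⟩ := hNum α hα
  have hh := HN.h_pos
  have hKc1 := hK.k5
  have hKh := HN.h_le hd1 hK
  have hhH : h * H = 1 := by
    rw [HN.h_eq]
    linarith
  have hKcH : Kc ≤ H := by
    have h1 : Kc * h ≤ H * h := by linarith
    exact le_of_mul_le_mul_right h1 hh
  have hcH : 7 ≤ c * H := by
    have h1 : 7 / c ≤ Kc :=
      (((le_max_left _ _).trans (le_max_right _ _)).trans (le_max_right _ _)).trans hKc
    rw [div_le_iff₀' hc0] at h1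
    exact h1.trans (mul_le_mul_of_nonneg_left hKcH hc0.le)
  obtain ⟨K, η, β, β', τ, hKb, hη, hτ, hG⟩ := hI b₁ hb₁ H hH hcH α hα
  have hα0 := HN.α_pos hm64
  obtain ⟨hl1, hl2⟩ := HN.lengths hm64 (le_refl (5 * ((m : ℝ) + 2) ^ 2 * α))
  have hαh : α ≤ h := by
    refine le_trans ?_ hl1
    have : 1 * α ≤ (m + 1) * α := mul_le_mul_of_nonneg_right (by linarith) hα0.le
    linarith
  have h6 : h ≤ δ := by
    have h1 : 6 / δ ≤ Kc :=
      (((le_max_right _ _).trans (le_max_right _ _)).trans (le_max_right _ _)).trans hKc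
    have h2 : 6 / δ * h ≤ 1 := (mul_le_mul_of_nonneg_right h1 hh.le).trans hKh
    rw [div_mul_eq_mul_div, div_le_one hδ] at h2
    linarith
  have h7 : τ ≤ δ := by
    have h1 : 6 / (c * δ) ≤ Kc := ((le_max_left _ _).trans (le_max_right _ _)).trans hKc
    have h2 : 6 / (c * δ) * h ≤ 1 := (mul_le_mul_of_nonneg_right h1 hh.le).trans hKh
    rw [div_mul_eq_mul_div, div_le_one (by positivity)] at h2
    refine hτ.trans ?_
    rw [div_le_iff₀ hc0]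
    linarith
  refine ⟨α, _, _, β, β', τ, εJ, K, η, hKb, hη, by linarith, h7, hεJ, hεJδ,
    fun K₁ h1 h2 h3 => ⟨hG K₁ h1 h2 h3, ?_⟩⟩
  exact hfin i₁ i₂ α _ _ β β' τ εJ Kc h ζ M lam (K₁ - K₁) ((le_max_left _ _).trans hKc) hK hKG HN
    hτ hεJ.le (by rw [← hr]; exact hεJ') (hG K₁ h1 h2 h3)

end Pool.Agent.RC
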