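import Pool.Agent.Lib.MP_09cbbd_rc.LowC
import Pool.Agent.Lib.MP_09cbbd_rc.AB
import Pool.Agent.Lib.MP_09cbbd_rc.PCell
import Pool.Agent.Lib.MP_09cbbd_rc.Cvx

/-!
# Lower bounds for the pressure of the gas of rows and columns
-/

set_option autoImplicit false

namespace Pool.Agent.RC

open MeasureTheory Finset Filter Topology
open Pool.Agent.StableGas hiding tr
open Pool.Agent.SquareWell hiding Md cut
open Pool.Agent.SquareWell.ModA
open Pool.Agent.Mix (Qr mem_Qr Trans Ct)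
open Pool.Agent.Exg Pool.Agent.RC.Cell

variable {d : ℕ}

/-- **Lower bound from full molecules at the positions of a periodic pattern**, for any hard core.
`o f` is the corner of the box of the first bead in the cell `f`, `s` the side of the box. -/
theorem Mvr.low_full {E : Set (Fin d → ℝ)} {G : Ng d E} {Cl : Set (Ct (Fin d → ℝ))}
    {i i' : Fin d} {h : ℝ} {e1 : ENNReal} (hM : Mvr G Cl i' h e1)
    (he : ((2 * G.r + 1) ^ d : ℕ) * e1 ≤ 1 / 2) {α δ ρ s : ℝ} {M : ℕ} (hM1 : 1 ≤ M)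
    {f : Ct (Fin d → ℝ) → ℝ} (hf : G.cg.Fld f)
    (hfT : ∀ θ, ∀ x ∈ Cl, f (TT h i' (cl h θ) x) = f x) {n : ℕ} (hn : 0 < n)
    {F : Finset (Zd d)} (hF : F ⊆ bx d n) {o : Zd d → Fin d → ℝ}
    (hDC : ∀ u ∈ F, Full E i α δ M (Sbx (o u) s h i') ⊆ Cl)
    (hρ : ∀ x, Vx E x → ∀ k, k < x.1 → ∀ j, |x.2 k j - x.2 0 j| ≤ ρ)
    (hB : ∀ u ∈ F, ∀ z ∈ Sbx (o u) s h i', ∀ w : Fin d → ℝ, (∀ j, |w j| ≤ ρ) →
      z + w ∈ SquareWellGas.Box d 1)
    (hsep : ∀ u v : Zd d, u ≠ v → (fun k => u k % (n : ℤ)) ∈ F → (fun k => v k % (n : ℤ)) ∈ F →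
      ∀ z ∈ Sbx (o fun k => u k % (n : ℤ)) s h i',
      ∀ z' ∈ Sbx (o fun k => v k % (n : ℤ)) s h i', ∀ w : Fin d → ℝ, (∀ j, |w j| ≤ 2 * ρ) →
      z - tr (v - u) z' + w ∉ G.Nk 0) {c : ℝ}
    (hc : ∀ u ∈ F, ex c ≤ ∫⁻ x in Full E i α δ M (Sbx (o u) s h i'), ex (f x) ∂(sys G.hE).pg)
    {p : ℝ} (hp : G.cg.IsP f p) : F.card * (c - Real.log 2) ≤ n ^ d * p := by
  have := hM.prob
  have hhalf : (1 / 2 : ENNReal) ≤ 1 - ((2 * G.r + 1) ^ d : ℕ) * e1 := by
    rw [ENNReal.le_sub_iff_add_le_right]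
    · exact (add_le_add le_rfl he).trans (le_of_eq (ENNReal.add_halves 1))
    · exact ne_top_of_le_ne_top (by norm_num) he
    · exact he.trans (by norm_num)
  refine G.cg.low_press hf hM.Cl_meas (nu h) hM.T_meas hM.pres hfT hM.far_T hn hF
    (D := fun u => Full E i α δ M (Sbx (o u) s h i'))
    (fun u _ => measurable_Full G.hE i α δ M (measurableSet_Sbx _ _ _ _)) hDC hDC
    (fun u hu θ x hx => ?_) (fun u v huv hu hv x hx y hy => ?_) (fun u hu => ?_) hp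
  · -- the sets are invariant
    have hx0 : 0 < x.1 := by rw [hx.1]; omega
    refine Full_move hM1 hM.hh hx (hρ x hx.2.1) (hB u hu) rfl
      (t := dv h i' (cl h θ) (x.2 0)) (if_pos rfl) (fun k hk j => ?_)
      (fun j hj => TT_floor (cl_nonneg h θ) (cl_lt hM.hh θ) hj hx0)
    rw [TT_snd hk]
    rfl
  · exact nf_Full G hx hy (hρ x hx.2.1) (hρ y hy.2.1) (hsep u v huv hu hv)
  · have e : ex (c - Real.log 2) = 1 / 2 * ex c := by
      have h1 : ex (-Real.log 2) = 1 / 2 := by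
        unfold ex
        rw [Real.exp_neg, Real.exp_log (by norm_num), ENNReal.ofReal_inv_of_pos (by norm_num)]
        simp
      rw [sub_eq_add_neg, ex_add, h1, mul_comm]
    rw [e]
    exact mul_le_mul' hhalf (hc u hu)

/-- Full molecules in the boxes of the pattern are good. -/
theorem Full_Ty {E : Set (Fin d → ℝ)} {i i' : Fin d} {α δ ρ s h w : ℝ} {M t₀ : ℕ}
    (ht : t₀ ≤ 4 * M) {o : Fin d → ℝ} (hρ0 : 0 ≤ ρ)
    (hρ : ∀ x, Vx E x → ∀ k, k < x.1 → ∀ j, |x.2 k j - x.2 0 j| ≤ ρ)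
    (ho : ∀ j, w + ρ ≤ o j ∧ o j + s ≤ 1 - w - ρ) :
    Full E i α δ M (Sbx o s h i') ⊆ Ty i' t₀ M (QW E i α δ M) h w := by
  rintro x ⟨h1, h2, h3, h4⟩
  refine ⟨by omega, h1.le, fun k hk l hl hkl => ⟨h2.2 k hk l hl hkl, h3 k hk l hl hkl⟩,
    fun k hk => ?_, fun j hj => ?_⟩
  · have h5 := abs_le.1 (hρ x h2 k hk i')
    have h6 := ho i'
    have h7 := h4.1 i'
    constructor
    · linarith [h5.1]
    · linarith [h5.2]
  · have h6 := ho j
    have h7 := (h4.2 j hj).2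
    rw [mul_add, mul_one] at h7
    constructor
    · linarith [(h4.2 j hj).1, h6.1]
    · linarith [h6.2]

section Geo

variable {i₁ i₂ : Fin d} {m : ℕ} {R α a b β β' τ ε : ℝ} {N E : Set (Fin d → ℝ)} {h w : ℝ}

/-- Numerical conditions on the pattern. -/
structure PatN (m n : ℕ) (α τ h w : ℝ) : Prop where
  n_pos : 1 ≤ n
  τ_nonneg : 0 ≤ τ
  sep : 2 * ((m + 1) * α) + τ ≤ 3 / (4 * (n : ℝ))
  wall : w + (m + 1) * α ≤ 1 / (4 * (n : ℝ))
  w_nonneg : 0 ≤ w
  h_le : 2 * h ≤ 1 / (8 * (n : ℝ))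

theorem bx_mono_succ (n : ℕ) : bx d n ⊆ bx d (n + 1) := by
  intro f hf
  unfold bx at hf ⊢
  rw [Fintype.mem_piFinset] at hf ⊢
  intro j
  have := mem_Ico.1 (hf j)
  refine mem_Ico.2 ⟨this.1, this.2.trans ?_⟩
  push_cast
  omega

theorem PatN.off_wall {n : ℕ} (hP : PatN m n α τ h w) {u : Zd d}
    (hu : u ∈ bx d n) (j : Fin d) : w + ((m : ℝ) + 1) * α ≤ off n (u j) ∧
      off n (u j) + 1 / (4 * n) ≤ 1 - w - ((m : ℝ) + 1) * α := by
  have hn' : (0 : ℝ) < n := by exact_mod_cast hP.n_pos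
  unfold bx at hu
  rw [Fintype.mem_piFinset] at hu
  have h1 := mem_Ico.1 (hu j)
  have h2 := off_nonneg hP.n_pos h1.1
  have h3 := off_le hP.n_pos h1.2
  have h4 := hP.wall
  have h6 : (1 : ℝ) / (2 * n) = 1 / (4 * n) + 1 / (4 * n) := by
    field_simp
    norm_num
  have h7 : (0 : ℝ) < 1 / (4 * n) := by positivity
  constructor <;> linarith

theorem PatN.mem_Box {n : ℕ} (hP : PatN m n α τ h w) {u : Zd d} (hu : u ∈ bx d n) {i' : Fin d}
    {z w' : Fin d → ℝ} (hz : z ∈ Sbx (fun k => off n (u k)) (1 / (4 * n)) h i')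
    (hw : ∀ j, |w' j| ≤ ((m : ℝ) + 1) * α) : z + w' ∈ SquareWellGas.Box d 1 := by
  intro j
  have h1 := marg_cube hP.n_pos hu hz hw j
  have h4 := hP.wall
  have h5 := hP.w_nonneg
  exact ⟨by linarith [h1.1], by linarith [h1.2]⟩

theorem ofReal_le_vol_Sbx (hh : 0 < h) {n : ℕ} (hn : 1 ≤ n) (hh4 : 2 * h ≤ 1 / (8 * (n : ℝ)))
    (o : Fin d → ℝ) (i : Fin d) :
    ex (-(d * Real.log (8 * n))) ≤ volume (Sbx o (1 / (4 * n)) h i) := by
  have hn' : (0 : ℝ) < n := by exact_mod_cast hn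
  have e4 : (1 : ℝ) / (4 * n) = 1 / (8 * n) + 1 / (8 * n) := by
    field_simp
    norm_num
  have h8 : (0 : ℝ) < 1 / (8 * n) := by positivity
  refine le_trans ?_ (vol_Sbx hh (by linarith) i)
  unfold ex
  refine ENNReal.ofReal_le_ofReal ?_
  have e : Real.exp (-(d * Real.log (8 * n))) = (1 / (8 * n)) ^ d := by
    rw [← mul_neg, mul_comm, Real.exp_mul, ← Real.log_inv, Real.exp_log (by positivity),
      Real.rpow_natCast, one_div]
  rw [e]
  exact pow_le_pow_left₀ h8.le (by linarith) d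

/-- The columns do not meet the rows: the field of the rows is constant along the moves. -/
theorem Geo.fa_T_B (hG : Geo d i₁ i₂ m R α a b β β' τ ε N E) {z a' : ℝ} {G : Ng d E}
    {e1 : ENNReal} (hM : Mvr G (insert Exg.e0 (GB E i₁ i₂ m α b h w)) i₂ h e1) (θ : ℝ)
    {x : Ct (Fin d → ℝ)} (hx : x ∈ insert Exg.e0 (GB E i₁ i₂ m α b h w)) :
    fa (fun x => z * x.1) (GA E i₁ i₂ m α a h w) a' (TT h i₂ (cl h θ) x) =
      fa (fun x => z * x.1) (GA E i₁ i₂ m α a h w) a' x := by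
  have key : ∀ y ∈ insert Exg.e0 (GB E i₁ i₂ m α b h w), y ∉ GA E i₁ i₂ m α a h w := by
    rintro y (rfl | hy)
    · exact hG.e0_A
    · exact fun h1 => Set.disjoint_left.1 hG.disj h1 hy
  show z * ((TT h i₂ (cl h θ) x).1 : ℝ) + a' * Set.indicator _ 1 _ =
    z * (x.1 : ℝ) + a' * Set.indicator _ 1 _
  rw [Set.indicator_of_notMem (key x hx), Set.indicator_of_notMem
    (key _ ((hM.T_Cl θ x).2 hx)), TT_fst]

theorem Geo.fa_T_A (hG : Geo d i₁ i₂ m R α a b β β' τ ε N E) {z a' : ℝ} {G : Ng d E}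
    {e1 : ENNReal} (hM : Mvr G (insert Exg.e0 (GA E i₁ i₂ m α a h w)) i₁ h e1) (θ : ℝ)
    {x : Ct (Fin d → ℝ)} (hx : x ∈ insert Exg.e0 (GA E i₁ i₂ m α a h w)) :
    fa (fun x => z * x.1) (GA E i₁ i₂ m α a h w) a' (TT h i₁ (cl h θ) x) =
      fa (fun x => z * x.1) (GA E i₁ i₂ m α a h w) a' x := by
  show z * ((TT h i₁ (cl h θ) x).1 : ℝ) + a' * Set.indicator _ 1 _ =
    z * (x.1 : ℝ) + a' * Set.indicator _ 1 _
  rw [TT_fst]
  rcases hx with rfl | hx
  · rw [TT_e0]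
  · have h1 := (hM.T_Cl θ x).2 (Or.inr hx)
    rcases h1 with h1 | h1
    · exfalso
      have h2 : x.1 = 0 := by
        have := congrArg Prod.fst h1
        rw [TT_fst] at this
        exact this
      have h3 := hG.two_le (GA_few hx)
      omega
    · rw [Set.indicator_of_mem hx, Set.indicator_of_mem h1]
      rfl

/-- **Lower bound of the pressure from the columns.** -/
theorem Geo.lo_B (hG : Geo d i₁ i₂ m R α a b β β' τ ε N E) {G : Ng d E}
    (hN0 : ∀ u ∈ G.Nk 0, ∀ j, |u j| < 1 + τ) {e1 : ENNReal}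
    (hM : Mvr G (insert Exg.e0 (GB E i₁ i₂ m α b h w)) i₂ h e1)
    (he : ((2 * G.r + 1) ^ d : ℕ) * e1 ≤ 1 / 2) {n : ℕ} (hP : PatN m n α τ h w)
    {z a' p : ℝ} (hp : G.cg.IsP (fa (fun x => z * x.1) (GA E i₁ i₂ m α a h w) a') p) :
    n ^ d * ((m + 1) * z + m * (d * Real.log (2 * b)) - lowC d m - d * Real.log (8 * n) -
      Real.log 2) ≤ ((n : ℝ) + 1) ^ d * p := by
  have hα := hG.α_pos
  have hn' : (0 : ℝ) < n := by exact_mod_cast hP.n_pos
  have hρ0 : 0 ≤ ((m : ℝ) + 1) * α := by positivity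
  have hρ : ∀ x, Vx E x → ∀ k, k < x.1 → ∀ j, |x.2 k j - x.2 0 j| ≤ ((m : ℝ) + 1) * α :=
    fun x hx k hk j => Cell.near_zero hG hx hk j
  have hf : G.cg.Fld (fa (fun x => z * x.1) (GA E i₁ i₂ m α a h w) a') :=
    CG.Fld.fa (G.fld z) (measurableSet_GA hG.meas) hG.e0_A a'
  have hDC : ∀ u ∈ bx d n, Full E i₂ α b (m + 1) (Sbx (fun k => off n (u k)) (1 / (4 * n)) h i₂) ⊆
      GB E i₁ i₂ m α b h w := fun u hu =>
    Full_Ty (ρ := (m + 1) * α) (by omega) hρ0 hρ (hP.off_wall hu)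
  have := hM.low_full he (i := i₂) (α := α) (δ := b) (ρ := (m + 1) * α) (s := 1 / (4 * n))
    (M := m + 1) (by omega) hf (fun θ x hx => hG.fa_T_B hM θ hx) (n := n + 1) (by omega)
    (bx_mono_succ n)
    (o := fun f k => off n (f k)) (fun u hu => (hDC u hu).trans (Set.subset_insert _ _)) hρ
    (fun u hu z' hz w' hw => hP.mem_Box hu hz hw)
    (fun u v huv hu hv z' hz z'' hz' w' hw => ?_)
    (c := (m + 1) * z + m * (d * Real.log (2 * b)) - lowC d m - d * Real.log (8 * n))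
    (fun u hu => ?_) hp
  · rw [CG.card_bx] at this
    push_cast at this
    exact this
  · obtain ⟨k, hk⟩ := sep_cube hP.n_pos huv hu hv (ρ := (m + 1) * α) (τ := τ) hP.sep hz hz' hw
    intro hmem
    have := hN0 _ hmem k
    linarith
  · have h1 := Cell.low_col hG (S := Sbx (fun k => off n (u k)) (1 / (4 * n)) h i₂)
      (measurableSet_Sbx _ _ _ _) (fun z' hz w' hw => hP.mem_Box hu hz hw) z
    have h2 : ∫⁻ x in Full E i₂ α b (m + 1) (Sbx (fun k => off n (u k)) (1 / (4 * n)) h i₂),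
        ex (z * x.1) ∂(sys G.hE).pg =
        ∫⁻ x in Full E i₂ α b (m + 1) (Sbx (fun k => off n (u k)) (1 / (4 * n)) h i₂),
        ex (fa (fun x => z * x.1) (GA E i₁ i₂ m α a h w) a' x) ∂(sys G.hE).pg := by
      refine setLIntegral_congr_fun (measurable_Full G.hE _ _ _ _ (measurableSet_Sbx _ _ _ _))
        fun x hx => ?_
      have h3 : x ∉ GA E i₁ i₂ m α a h w := fun h3 =>
        Set.disjoint_left.1 hG.disj h3 (hDC u hu hx)
      show ex (z * x.1) = ex (z * x.1 + a' * Set.indicator _ 1 x)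
      rw [Set.indicator_of_notMem h3, mul_zero, add_zero]
    refine le_trans ?_ (h1.trans (le_of_eq h2))
    have h3 := ofReal_le_vol_Sbx hM.hh hP.n_pos hP.h_le (fun k => off n (u k)) i₂
    refine le_trans (le_of_eq ?_) (mul_le_mul' h3 le_rfl)
    rw [← ex_add]
    congr 1
    ring

/-- **Lower bound of the pressure from the rows.** -/
theorem Geo.lo_A (hG : Geo d i₁ i₂ m R α a b β β' τ ε N E) {G : Ng d E}
    (hN0 : ∀ u ∈ G.Nk 0, ∀ j, |u j| < 1 + τ) {e1 : ENNReal}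
    (hM : Mvr G (insert Exg.e0 (GA E i₁ i₂ m α a h w)) i₁ h e1)
    (he : ((2 * G.r + 1) ^ d : ℕ) * e1 ≤ 1 / 2) {n : ℕ} (hP : PatN m n α τ h w)
    {z a' p : ℝ} (hp : G.cg.IsP (fa (fun x => z * x.1) (GA E i₁ i₂ m α a h w) a') p) :
    n ^ d * (a' + (m * z + (m - 1) * (d * Real.log (2 * a)) - lowC d m - d * Real.log (8 * n) -
      Real.log 2)) ≤ ((n : ℝ) + 1) ^ d * p := by
  have hα := hG.α_pos
  have hn' : (0 : ℝ) < n := by exact_mod_cast hP.n_pos
  have hρ0 : 0 ≤ ((m : ℝ) + 1) * α := by positivity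
  have hρ : ∀ x, Vx E x → ∀ k, k < x.1 → ∀ j, |x.2 k j - x.2 0 j| ≤ ((m : ℝ) + 1) * α :=
    fun x hx k hk j => Cell.near_zero hG hx hk j
  have hf : G.cg.Fld (fa (fun x => z * x.1) (GA E i₁ i₂ m α a h w) a') :=
    CG.Fld.fa (G.fld z) (measurableSet_GA hG.meas) hG.e0_A a'
  have hDC : ∀ u ∈ bx d n, Full E i₁ α a m (Sbx (fun k => off n (u k)) (1 / (4 * n)) h i₁) ⊆
      GA E i₁ i₂ m α a h w := fun u hu =>
    Full_Ty (ρ := (m + 1) * α) (by omega) hρ0 hρ (hP.off_wall hu)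
  have := hM.low_full he (i := i₁) (α := α) (δ := a) (ρ := (m + 1) * α) (s := 1 / (4 * n))
    (M := m) (by have := hG.hm; omega) hf (fun θ x hx => hG.fa_T_A hM θ hx) (n := n + 1) (by omega)
    (bx_mono_succ n)
    (o := fun f k => off n (f k)) (fun u hu => (hDC u hu).trans (Set.subset_insert _ _)) hρ
    (fun u hu z' hz w' hw => hP.mem_Box hu hz hw)
    (fun u v huv hu hv z' hz z'' hz' w' hw => ?_)
    (c := a' + (m * z + (m - 1) * (d * Real.log (2 * a)) - lowC d m - d * Real.log (8 * n)))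
    (fun u hu => ?_) hp
  · rw [CG.card_bx] at this
    push_cast at this
    linarith
  · obtain ⟨k, hk⟩ := sep_cube hP.n_pos huv hu hv (ρ := (m + 1) * α) (τ := τ) hP.sep hz hz' hw
    intro hmem
    have := hN0 _ hmem k
    linarith
  · have h1 := Cell.low_row hG (S := Sbx (fun k => off n (u k)) (1 / (4 * n)) h i₁)
      (measurableSet_Sbx _ _ _ _) (fun z' hz w' hw => hP.mem_Box hu hz hw) z
    have h2 : ∫⁻ x in Full E i₁ α a m (Sbx (fun k => off n (u k)) (1 / (4 * n)) h i₁),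
        ex a' * ex (z * x.1) ∂(sys G.hE).pg =
        ∫⁻ x in Full E i₁ α a m (Sbx (fun k => off n (u k)) (1 / (4 * n)) h i₁),
        ex (fa (fun x => z * x.1) (GA E i₁ i₂ m α a h w) a' x) ∂(sys G.hE).pg := by
      refine setLIntegral_congr_fun (measurable_Full G.hE _ _ _ _ (measurableSet_Sbx _ _ _ _))
        fun x hx => ?_
      show ex a' * ex (z * x.1) = ex (z * x.1 + a' * Set.indicator _ 1 x)
      rw [Set.indicator_of_mem (hDC u hu hx), Pi.one_apply, mul_one, ← ex_add, add_comm]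
    have h3 := ofReal_le_vol_Sbx hM.hh hP.n_pos hP.h_le (fun k => off n (u k)) i₁
    have h4 : Measurable fun x : Ct (Fin d → ℝ) => ex (z * x.1) := (G.fld z).ex_meas
    rw [← h2, lintegral_const_mul _ h4]
    refine le_trans ?_ (mul_le_mul' le_rfl ((mul_le_mul' h3 le_rfl).trans h1))
    rw [← ex_add, ← ex_add]
    refine le_of_eq ?_
    congr 1
    ring

end Geo

end Pool.Agent.RC
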