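import Pool.Agent.Lib.MP_09cbbd_rc.Num
import Pool.Agent.Lib.MP_09cbbd_rc.MasI
import Pool.Agent.Lib.MP_09cbbd_rc.LowB

/-!
# Rows and columns: the numbers give all estimates

The chemical potential is in the window `|z - ζ| ≤ t0`, `t0 = ε / (8 (m + 1)) * M`.
-/

set_option autoImplicit false

namespace Pool.Agent.RC

open Real

/-- How large the constant `Kc` has to be. `n` is the size of the pattern, `ε₂` the accuracy. -/
structure KcBig (d m n : ℕ) (ε₂ Kc : ℝ) : Prop where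
  k1 : log (3 * (2 * ((m : ℝ) + 1)) ^ (m + 1)) ≤ ε₂ * Kc
  k2 : 20 * ((2 * ((m : ℝ) + 1)) ^ (m + 2) * (4 ^ d * d)) ≤ Kc
  k3 : Cell.lowC d m + d * log (8 * n) + log 2 ≤ ε₂ * Kc
  k4 : 100 * (n : ℝ) ≤ Kc
  k5 : 1 ≤ Kc

theorem exists_KcBig (d m n : ℕ) {ε₂ : ℝ} (hε : 0 < ε₂) (K0 : ℝ) :
    ∃ Kc, K0 ≤ Kc ∧ KcBig d m n ε₂ Kc := by
  refine ⟨|K0| + |log (3 * (2 * ((m : ℝ) + 1)) ^ (m + 1))| / ε₂ +
    20 * ((2 * ((m : ℝ) + 1)) ^ (m + 2) * (4 ^ d * d)) +
    |Cell.lowC d m + d * log (8 * n) + log 2| / ε₂ + 100 * n + 1, ?_, ?_, ?_, ?_, ?_, ?_⟩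
  all_goals
    have h1 := abs_nonneg K0
    have h2 : 0 ≤ |log (3 * (2 * ((m : ℝ) + 1)) ^ (m + 1))| / ε₂ := by positivity
    have h3 : 0 ≤ 20 * ((2 * ((m : ℝ) + 1)) ^ (m + 2) * (4 ^ d * d)) := by positivity
    have h4 : 0 ≤ |Cell.lowC d m + d * log (8 * n) + log 2| / ε₂ := by positivity
    have h5 : (0 : ℝ) ≤ 100 * n := by positivity
  · have := le_abs_self K0
    linarith
  · refine (le_abs_self _).trans ?_
    rw [← div_le_iff₀' hε]
    linarith
  · linarith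
  · refine (le_abs_self _).trans ?_
    rw [← div_le_iff₀' hε]
    linarith
  · linarith
  · linarith

section

variable {d m n : ℕ} {ε ε₂ Kc α a b h ζ M lam τ : ℝ}

theorem Num.M_pos (H : Num d m ε Kc α a b h ζ M lam) (hK : KcBig d m n ε₂ Kc) : 1 ≤ M :=
  hK.k5.trans H.Kc_le

theorem Num.h_le (hd : 1 ≤ d) (H : Num d m ε Kc α a b h ζ M lam) (hK : KcBig d m n ε₂ Kc) :
    Kc * h ≤ 1 := by
  refine H.thin.trans ?_
  rw [exp_le_one_iff]
  have h1 := H.M_pos hK
  have hd' : (1 : ℝ) ≤ d := by exact_mod_cast hd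
  have : 0 ≤ M / (16 * d) := by positivity
  linarith

/-- All the lengths are small. -/
theorem Num.lengths (hm : 64 ≤ m) (H : Num d m ε Kc α a b h ζ M lam)
    (hτ : τ ≤ 5 * (m + 2) ^ 2 * α) : (m + 1) * α ≤ h ∧ τ ≤ 6 * h := by
  have hm' : (64 : ℝ) ≤ m := by exact_mod_cast hm
  have h1 := H.h_eq
  have h2 := H.h_pos
  have hα : 0 < α := by
    by_contra hcon
    push Not at hcon
    have : m * (m + 1) * α ≤ 0 := mul_nonpos_of_nonneg_of_nonpos (by positivity) hcon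
    linarith
  constructor
  · rw [h1]
    have : 1 * ((m + 1) * α) ≤ m * ((m + 1) * α) :=
      mul_le_mul_of_nonneg_right (by linarith) (by positivity)
    linarith
  · refine hτ.trans ?_
    rw [h1]
    have : 5 * ((m : ℝ) + 2) ^ 2 ≤ 6 * (m * (m + 1)) := by nlinarith
    calc 5 * ((m : ℝ) + 2) ^ 2 * α ≤ 6 * (m * (m + 1)) * α :=
          mul_le_mul_of_nonneg_right this hα.le
      _ = _ := by ring

theorem Num.α_pos (hm : 64 ≤ m) (H : Num d m ε Kc α a b h ζ M lam) : 0 < α := by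
  have h1 := H.h_eq
  have h2 := H.h_pos
  by_contra hcon
  push Not at hcon
  have : m * (m + 1) * α ≤ 0 := mul_nonpos_of_nonneg_of_nonpos (by positivity) hcon
  linarith

/-- **The numbers for the masses of one cell.** -/
theorem Num.mnum (hd : 1 ≤ d) (hm : 64 ≤ m) (H : Num d m ε Kc α a b h ζ M lam)
    (hK : KcBig d m n ε₂ Kc) (hε0 : 0 ≤ ε) (hε₂ : 0 ≤ ε₂) (hτ0 : 0 ≤ τ)
    (hτ : τ ≤ 5 * (m + 2) ^ 2 * α) {e ε₀ z : ℝ} (he0 : 0 ≤ e) (he1 : e ≤ 1 / (64 * d))
    (hε₀ : e + ε₂ ≤ ε₀) (hz : |z - ζ| ≤ ε / (8 * (m + 1)) * M)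
    (hz' : (m + 1) * |z - ζ| ≤ e * M) :
    MNum d m a b α τ h (h + h) z lam ((1 + e) * M) (1 / (32 * d)) ε₀ M := by
  have hd' : (1 : ℝ) ≤ d := by exact_mod_cast hd
  have hm' : (64 : ℝ) ≤ m := by exact_mod_cast hm
  have hM1 := H.M_pos hK
  have hh := H.h_pos
  have hh1 := H.h_le hd hK
  have hα := H.α_pos hm
  obtain ⟨hl1, hl2⟩ := H.lengths hm hτ
  have hz1 := abs_le.1 hz
  have hA : m * z + (m - 1) * (d * log (2 * a)) = M + m * (z - ζ) := by
    have := H.row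
    linarith
  have hB : (m + 1) * z + m * (d * log (2 * b)) = M + (m + 1) * (z - ζ) := by
    have := H.col
    linarith
  have hzz : z - ζ ≤ |z - ζ| := le_abs_self _
  have hz0 : 0 ≤ |z - ζ| := abs_nonneg _
  have hk2 := hK.k2
  have h20 : (20 : ℝ) * (4 ^ d * d) ≤ Kc := by
    refine le_trans ?_ hk2
    have h1 : (1 : ℝ) ≤ (2 * ((m : ℝ) + 1)) ^ (m + 2) := one_le_pow₀ (by linarith)
    have h2 : (0 : ℝ) ≤ 4 ^ d * d := by positivity
    nlinarith
  have h4d : (1 : ℝ) ≤ 4 ^ d := one_le_pow₀ (by norm_num)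
  have h20' : (20 : ℝ) * d ≤ Kc := by
    refine le_trans ?_ h20
    nlinarith
  have h20'' : (20 : ℝ) ≤ Kc := by nlinarith
  refine ⟨⟨H.lam_nonneg, ?_, ?_, ?_, ?_⟩, by linarith, by positivity, H.lam1, ?_, ?_, ?_, ?_⟩
  · have := H.rowlam
    linarith [hz1.1]
  · have := H.collam
    linarith [hz1.1]
  · rw [hA]
    nlinarith
  · rw [hB]
    nlinarith
  · have := H.lam2
    have e1 : 2 * (1 / (32 * (d : ℝ)) * M) = M / (16 * d) := by
      field_simp
      norm_num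
    rw [e1]
    exact this
  · -- small
    have : 20 * h ≤ 1 := (mul_le_mul_of_nonneg_right h20'' hh.le).trans hh1
    linarith
  · -- n1
    have e1 : 1 / (32 * (d : ℝ)) * M / 2 = M / (64 * d) := by
      field_simp
      norm_num
    have hX : M / (64 * d) ≤ (1 + e) * M := by
      rw [div_le_iff₀ (by positivity)]
      have h1 : 1 ≤ (1 + e) * (64 * d) := by nlinarith
      have h2 := mul_le_mul_of_nonneg_left h1 (show 0 ≤ M by linarith)
      linarith
    have h5 : 2 * d * (h + h) * exp (M / (64 * d)) ≤ 1 := by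
      have h6 : M / (64 * d) ≤ M / (16 * d) :=
        div_le_div_of_nonneg_left (by linarith) (by positivity) (by linarith)
      have h7 : Kc * h * exp (M / (16 * d)) ≤ 1 := by
        refine (mul_le_mul_of_nonneg_right H.thin (exp_pos _).le).trans (le_of_eq ?_)
        rw [← exp_add, neg_add_cancel, exp_zero]
      calc 2 * d * (h + h) * exp (M / (64 * d)) = 4 * d * h * exp (M / (64 * d)) := by ring
        _ ≤ Kc * h * exp (M / (16 * d)) := by
            refine mul_le_mul (mul_le_mul_of_nonneg_right (by linarith) hh.le)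
              (exp_le_exp.2 h6) (exp_pos _).le (by positivity)
        _ ≤ 1 := h7
    rw [e1, exp_add]
    have h8 : exp (M / (64 * d)) ≤ exp ((1 + e) * M) := exp_le_exp.2 hX
    have hE : 0 < exp ((1 + e) * M) := exp_pos _
    have hP : (1 : ℝ) ≤ (2 * ((m : ℝ) + 1)) ^ (m + 1) := one_le_pow₀ (by linarith)
    have h9 : 2 * d * (h + h) * (exp ((1 + e) * M) * exp (M / (64 * d))) ≤ exp ((1 + e) * M) := by
      calc 2 * d * (h + h) * (exp ((1 + e) * M) * exp (M / (64 * d))) =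
          2 * d * (h + h) * exp (M / (64 * d)) * exp ((1 + e) * M) := by ring
        _ ≤ 1 * exp ((1 + e) * M) := mul_le_mul_of_nonneg_right h5 hE.le
        _ = _ := one_mul _
    calc exp (M / (64 * d)) + (2 * ((m : ℝ) + 1)) ^ (m + 1) * (exp ((1 + e) * M) +
          2 * d * (h + h) * (exp ((1 + e) * M) * exp (M / (64 * d))))
        ≤ exp ((1 + e) * M) + (2 * ((m : ℝ) + 1)) ^ (m + 1) *
          (exp ((1 + e) * M) + exp ((1 + e) * M)) :=
          add_le_add h8 (mul_le_mul_of_nonneg_left (add_le_add le_rfl h9) (by positivity))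
      _ ≤ 3 * (2 * ((m : ℝ) + 1)) ^ (m + 1) * exp ((1 + e) * M) := by nlinarith
      _ ≤ exp (ε₂ * M) * exp ((1 + e) * M) := by
          refine mul_le_mul_of_nonneg_right ?_ hE.le
          rw [← log_le_iff_le_exp (by positivity)]
          exact hK.k1.trans (mul_le_mul_of_nonneg_left H.Kc_le hε₂)
      _ = exp ((1 + e + ε₂) * M) := by
          rw [← exp_add]
          congr 1
          ring
      _ ≤ exp ((1 + ε₀) * M) := exp_le_exp.2 (mul_le_mul_of_nonneg_right (by linarith)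
          (by linarith))
  · -- n2
    have e1 : 1 / (32 * (d : ℝ)) * M / 2 = M / (64 * d) := by
      field_simp
      norm_num
    have h1 : τ + 2 * h + 3 * ((m + 1) * α) ≤ 20 * h := by linarith
    have h0 : 0 ≤ τ + 2 * h + 3 * ((m + 1) * α) := by positivity
    rw [e1]
    have hE : 0 < exp ((1 + e) * M + M / (64 * d)) := exp_pos _
    calc (2 * ((m : ℝ) + 1)) ^ (m + 2) * (4 ^ d * d * (τ + 2 * h + 3 * ((m + 1) * α)) *
          exp ((1 + e) * M + M / (64 * d)))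
        ≤ (2 * ((m : ℝ) + 1)) ^ (m + 2) * (4 ^ d * d * (20 * h) *
          exp ((1 + e) * M + M / (64 * d))) := by
          refine mul_le_mul_of_nonneg_left (mul_le_mul_of_nonneg_right
            (mul_le_mul_of_nonneg_left h1 (by positivity)) hE.le) (by positivity)
      _ = 20 * ((2 * ((m : ℝ) + 1)) ^ (m + 2) * (4 ^ d * d)) * h *
          exp ((1 + e) * M + M / (64 * d)) := by ring
      _ ≤ Kc * h * exp ((1 + e) * M + M / (64 * d)) := by
          refine mul_le_mul_of_nonneg_right (mul_le_mul_of_nonneg_right hk2 hh.le) hE.le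
      _ ≤ exp (-(M / (16 * d))) * exp ((1 + e) * M + M / (64 * d)) :=
          mul_le_mul_of_nonneg_right H.thin hE.le
      _ = exp (-(M / (16 * d)) + ((1 + e) * M + M / (64 * d))) := by rw [← exp_add]
      _ ≤ _ := by
          refine exp_le_exp.2 ?_
          have h2 : e * M ≤ 1 / (64 * d) * M := mul_le_mul_of_nonneg_right he1 (by linarith)
          have e2 : M / (16 * d) = 4 * (1 / (64 * d) * M) := by
            field_simp
            norm_num
          have e3 : M / (64 * d) = 1 / (64 * d) * M := by ring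
          have e4 : 1 / (32 * (d : ℝ)) = 2 * (1 / (64 * d)) := by
            field_simp
            norm_num
          rw [e2, e3, e4]
          nlinarith

/-- The pattern fits. -/
theorem Num.patN (hd : 1 ≤ d) (hm : 64 ≤ m) (H : Num d m ε Kc α a b h ζ M lam)
    (hK : KcBig d m n ε₂ Kc) (hn : 1 ≤ n) (hτ0 : 0 ≤ τ) (hτ : τ ≤ 5 * (m + 2) ^ 2 * α) :
    PatN m n α τ h h := by
  have hn' : (0 : ℝ) < n := by exact_mod_cast hn
  have hh := H.h_pos
  have hh1 := H.h_le hd hK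
  obtain ⟨hl1, hl2⟩ := H.lengths hm hτ
  have h1 : 100 * n * h ≤ 1 := (mul_le_mul_of_nonneg_right hK.k4 hh.le).trans hh1
  refine ⟨hn, hτ0, ?_, ?_, hh.le, ?_⟩
  · rw [le_div_iff₀ (by positivity)]
    have h2 : 2 * ((m + 1) * α) + τ ≤ 8 * h := by linarith
    have h3 := mul_le_mul_of_nonneg_right h2 (show 0 ≤ 4 * (n : ℝ) by positivity)
    nlinarith
  · rw [le_div_iff₀ (by positivity)]
    have h2 : h + (m + 1) * α ≤ 2 * h := by linarith
    have h3 := mul_le_mul_of_nonneg_right h2 (show 0 ≤ 4 * (n : ℝ) by positivity)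
    nlinarith
  · rw [le_div_iff₀ (by positivity)]
    nlinarith

/-- The boundary cells of the pattern cost little. -/
theorem theta_le {c p : ℝ} (hc : 0 ≤ c) (hθ : (d : ℝ) ≤ ε₂ * (n + 1))
    (h : (n : ℝ) ^ d * c ≤ ((n : ℝ) + 1) ^ d * p) : (1 - ε₂) * c ≤ p := by
  have hn : (0 : ℝ) < n + 1 := by positivity
  have h1 : 1 - (d : ℝ) / (n + 1) ≤ (n / (n + 1)) ^ d := by
    have h2 := one_add_mul_le_pow (R := ℝ) (a := -(1 / ((n : ℝ) + 1))) (by
      have : 1 / ((n : ℝ) + 1) ≤ 1 := by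
        rw [div_le_one hn]
        have : (0 : ℝ) ≤ n := Nat.cast_nonneg n
        linarith
      linarith) d
    have e1 : (1 : ℝ) + -(1 / ((n : ℝ) + 1)) = n / (n + 1) := by
      field_simp
      ring
    rw [e1] at h2
    refine le_trans (le_of_eq ?_) h2
    ring
  have h3 : 1 - ε₂ ≤ (n / (n + 1)) ^ d := by
    refine le_trans ?_ h1
    have : (d : ℝ) / (n + 1) ≤ ε₂ := by
      rw [div_le_iff₀ hn]
      exact hθ
    linarith
  calc (1 - ε₂) * c ≤ (n / (n + 1)) ^ d * c := mul_le_mul_of_nonneg_right h3 hc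
    _ = ((n : ℝ) + 1) ^ d * p / ((n : ℝ) + 1) ^ d - (((n : ℝ) + 1) ^ d * p - n ^ d * c) /
        ((n : ℝ) + 1) ^ d := by
        rw [div_pow]
        field_simp
        ring
    _ ≤ ((n : ℝ) + 1) ^ d * p / ((n : ℝ) + 1) ^ d := by
        have : 0 ≤ (((n : ℝ) + 1) ^ d * p - n ^ d * c) / ((n : ℝ) + 1) ^ d :=
          div_nonneg (by linarith) (by positivity)
        linarith
    _ = p := by field_simp

/-- **Lower bound by the columns** in the window. -/
theorem Num.lo (H : Num d m ε Kc α a b h ζ M lam) (hK : KcBig d m n ε₂ Kc) (hε1 : ε ≤ 1)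
    (hε0 : 0 < ε) (hε₂ : 0 ≤ ε₂) (hε2 : 400 * (m + 1) * ε₂ ≤ ε) (hθ : (d : ℝ) ≤ ε₂ * (n + 1))
    {z p : ℝ} (hz : |z - ζ| ≤ ε / (8 * (m + 1)) * M)
    (hp : (n : ℝ) ^ d * ((m + 1) * z + m * (d * log (2 * b)) - Cell.lowC d m -
      d * log (8 * n) - log 2) ≤ ((n : ℝ) + 1) ^ d * p) : (1 - ε) * M ≤ p := by
  have hM := H.M_pos hK
  have hm0 : (0 : ℝ) ≤ m := Nat.cast_nonneg m
  have hC := hK.k3.trans (mul_le_mul_of_nonneg_left H.Kc_le hε₂)
  have hz1 := abs_le.1 hz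
  have hcol := H.col
  have e2 : ε₂ ≤ ε / 400 := by
    have : 400 * 1 * ε₂ ≤ 400 * (m + 1) * ε₂ :=
      mul_le_mul_of_nonneg_right (by linarith) hε₂
    linarith
  have h1 : (m + 1) * (z - ζ) ≥ -(ε / 8 * M) := by
    have h2 : (m + 1) * -(ε / (8 * (m + 1)) * M) ≤ (m + 1) * (z - ζ) :=
      mul_le_mul_of_nonneg_left hz1.1 (by positivity)
    have e : ((m : ℝ) + 1) * -(ε / (8 * (m + 1)) * M) = -(ε / 8 * M) := by
      field_simp
    rw [e] at h2
    exact h2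
  have h3 : (1 - ε / 8 - ε₂) * M ≤ (m + 1) * z + m * (d * log (2 * b)) - Cell.lowC d m -
      d * log (8 * n) - log 2 := by linarith
  have h4 : 0 ≤ (1 - ε / 8 - ε₂) * M := mul_nonneg (by linarith) (by linarith)
  have h5 := theta_le (h4.trans h3) hθ hp
  have h6 : (1 - ε₂) * ((1 - ε / 8 - ε₂) * M) ≤ p :=
    (mul_le_mul_of_nonneg_left h3 (by linarith)).trans h5
  refine le_trans ?_ h6
  have h7 : (1 - ε) ≤ (1 - ε₂) * (1 - ε / 8 - ε₂) := by nlinarith
  calc (1 - ε) * M ≤ (1 - ε₂) * (1 - ε / 8 - ε₂) * M :=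
        mul_le_mul_of_nonneg_right h7 (by linarith)
    _ = _ := by ring

/-- **Lower bound by the rows** in the window. -/
theorem Num.grow (H : Num d m ε Kc α a b h ζ M lam) (hK : KcBig d m n ε₂ Kc) (hε1 : ε ≤ 1)
    (hε0 : 0 < ε) (hε₂ : 0 ≤ ε₂) (hε2 : 400 * (m + 1) * ε₂ ≤ ε) (hθ : (d : ℝ) ≤ ε₂ * (n + 1))
    {z p a' : ℝ} (hz : |z - ζ| ≤ ε / (8 * (m + 1)) * M) (ha0 : 0 ≤ a') (ha1 : a' ≤ M)
    (hp : (n : ℝ) ^ d * (a' + (m * z + (m - 1) * (d * log (2 * a)) - Cell.lowC d m -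
      d * log (8 * n) - log 2)) ≤ ((n : ℝ) + 1) ^ d * p) : a' + (1 - ε) * M ≤ p := by
  have hM := H.M_pos hK
  have hm0 : (0 : ℝ) ≤ m := Nat.cast_nonneg m
  have hC := hK.k3.trans (mul_le_mul_of_nonneg_left H.Kc_le hε₂)
  have hz1 := abs_le.1 hz
  have hrow := H.row
  have e2 : ε₂ ≤ ε / 400 := by
    have : 400 * 1 * ε₂ ≤ 400 * (m + 1) * ε₂ :=
      mul_le_mul_of_nonneg_right (by linarith) hε₂
    linarith
  have h1 : m * (z - ζ) ≥ -(ε / 8 * M) := by
    have h2 : (m : ℝ) * -(ε / (8 * (m + 1)) * M) ≤ m * (z - ζ) :=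
      mul_le_mul_of_nonneg_left hz1.1 (by positivity)
    have e : ((m : ℝ) + 1) * -(ε / (8 * (m + 1)) * M) = -(ε / 8 * M) := by
      field_simp
    have h3 : 0 ≤ ε / (8 * (m + 1)) * M := by positivity
    nlinarith
  have h3 : a' + (1 - ε / 8 - ε₂) * M ≤ a' + (m * z + (m - 1) * (d * log (2 * a)) -
      Cell.lowC d m - d * log (8 * n) - log 2) := by linarith
  have h4 : 0 ≤ (1 - ε / 8 - ε₂) * M := mul_nonneg (by linarith) (by linarith)
  have h5 := theta_le ((add_nonneg ha0 h4).trans h3) hθ hp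
  have h6 : (1 - ε₂) * (a' + (1 - ε / 8 - ε₂) * M) ≤ p :=
    (mul_le_mul_of_nonneg_left h3 (by linarith)).trans h5
  refine le_trans ?_ h6
  have h8 : ε₂ * a' ≤ ε₂ * M := mul_le_mul_of_nonneg_left ha1 hε₂
  have h7 : (1 - ε) ≤ (1 - ε₂) * (1 - ε / 8 - ε₂) - ε₂ := by nlinarith
  have h9 : (1 - ε) * M ≤ ((1 - ε₂) * (1 - ε / 8 - ε₂) - ε₂) * M :=
    mul_le_mul_of_nonneg_right h7 (by linarith)
  have e3 : (1 - ε₂) * (a' + (1 - ε / 8 - ε₂) * M) = a' - ε₂ * a' +
    ((1 - ε₂) * (1 - ε / 8 - ε₂)) * M := by ring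
  rw [e3]
  linarith

/-- **The lower end of the window**: the rows win. -/
theorem Num.end1 (H : Num d m ε Kc α a b h ζ M lam) (hK : KcBig d m n ε₂ Kc) (hε1 : ε ≤ 1)
    (hε0 : 0 < ε) (hε₂ : 0 ≤ ε₂) (hε2 : 400 * (m + 1) * ε₂ ≤ ε) (hθ : (d : ℝ) ≤ ε₂ * (n + 1))
    {t p p' : ℝ} (ht : t = ε / (8 * (m + 1)) * M) (hp' : p' ≤ (1 + ε₂) * M)
    (hp : (n : ℝ) ^ d * (0 + (m * (ζ - t) + (m - 1) * (d * log (2 * a)) - Cell.lowC d m -
      d * log (8 * n) - log 2)) ≤ ((n : ℝ) + 1) ^ d * p) : p' ≤ p + t * (m + 1 / 4) := by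
  have hM := H.M_pos hK
  have hm0 : (0 : ℝ) ≤ m := Nat.cast_nonneg m
  have hC := hK.k3.trans (mul_le_mul_of_nonneg_left H.Kc_le hε₂)
  have hrow := H.row
  have ht0 : 0 ≤ t := by rw [ht]; positivity
  have e1 : (m + 1) * t = ε / 8 * M := by
    rw [ht]
    field_simp
  have e2 : 50 * (ε₂ * M) ≤ t := by
    have h1 : 400 * (m + 1) * ε₂ * M ≤ ε * M := mul_le_mul_of_nonneg_right hε2 (by linarith)
    have h2 : (m + 1) * (50 * (ε₂ * M)) ≤ (m + 1) * t := by
      rw [e1]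
      linarith
    exact le_of_mul_le_mul_left h2 (by positivity)
  have hεM : ε * M ≤ M := by nlinarith
  have hc : M - m * t - ε₂ * M ≤ 0 + (m * (ζ - t) + (m - 1) * (d * log (2 * a)) -
      Cell.lowC d m - d * log (8 * n) - log 2) := by linarith
  have hc0 : 0 ≤ M - m * t - ε₂ * M := by linarith
  have h5 := theta_le (hc0.trans hc) hθ hp
  have hε21 : ε₂ ≤ 1 := by
    by_contra hcon
    push Not at hcon
    nlinarith
  have h6 : (1 - ε₂) * (M - m * t - ε₂ * M) ≤ p :=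
    (mul_le_mul_of_nonneg_left hc (by linarith)).trans h5
  have h7 : ε₂ * (M - m * t - ε₂ * M) ≤ ε₂ * M := by
    refine mul_le_mul_of_nonneg_left ?_ hε₂
    have h8 : 0 ≤ m * t := by positivity
    have h9 : 0 ≤ ε₂ * M := by positivity
    linarith
  linarith

/-- **The upper end of the window**: the columns win. -/
theorem Num.end2 (H : Num d m ε Kc α a b h ζ M lam) (hK : KcBig d m n ε₂ Kc) (hε1 : ε ≤ 1)
    (hε0 : 0 < ε) (hε₂ : 0 ≤ ε₂) (hε2 : 400 * (m + 1) * ε₂ ≤ ε) (hθ : (d : ℝ) ≤ ε₂ * (n + 1))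
    {t p p' : ℝ} (ht : t = ε / (8 * (m + 1)) * M) (hp' : p' ≤ (1 + ε₂) * M)
    (hp : (n : ℝ) ^ d * ((m + 1) * (ζ + t) + m * (d * log (2 * b)) - Cell.lowC d m -
      d * log (8 * n) - log 2) ≤ ((n : ℝ) + 1) ^ d * p) : p' ≤ p - t * (m + 3 / 4) := by
  have hM := H.M_pos hK
  have hm0 : (0 : ℝ) ≤ m := Nat.cast_nonneg m
  have hC := hK.k3.trans (mul_le_mul_of_nonneg_left H.Kc_le hε₂)
  have hcol := H.col
  have ht0 : 0 ≤ t := by rw [ht]; positivity
  have e1 : (m + 1) * t = ε / 8 * M := by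
    rw [ht]
    field_simp
  have e2 : 50 * (ε₂ * M) ≤ t := by
    have h1 : 400 * (m + 1) * ε₂ * M ≤ ε * M := mul_le_mul_of_nonneg_right hε2 (by linarith)
    have h2 : (m + 1) * (50 * (ε₂ * M)) ≤ (m + 1) * t := by
      rw [e1]
      linarith
    exact le_of_mul_le_mul_left h2 (by positivity)
  have hεM : ε * M ≤ M := by nlinarith
  have hc : M + (m + 1) * t - ε₂ * M ≤ (m + 1) * (ζ + t) + m * (d * log (2 * b)) -
      Cell.lowC d m - d * log (8 * n) - log 2 := by linarith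
  have hε21 : ε₂ ≤ 1 := by
    by_contra hcon
    push Not at hcon
    nlinarith
  have h9 : ε₂ * M ≤ M := by nlinarith
  have hc0 : 0 ≤ M + (m + 1) * t - ε₂ * M := by
    have : 0 ≤ (m + 1) * t := by positivity
    linarith
  have h5 := theta_le (hc0.trans hc) hθ hp
  have h6 : (1 - ε₂) * (M + (m + 1) * t - ε₂ * M) ≤ p :=
    (mul_le_mul_of_nonneg_left hc (by linarith)).trans h5
  have h7 : ε₂ * (M + (m + 1) * t - ε₂ * M) ≤ ε₂ * (2 * M) := by
    refine mul_le_mul_of_nonneg_left ?_ hε₂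
    have h9 : 0 ≤ ε₂ * M := by positivity
    rw [e1]
    linarith
  linarith

end

end Pool.Agent.RC
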