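import Pool.Agent.Lib.MP_09cbbd_ex.Scale
import Pool.Agent.Lib.MP_09cbbd_rc.InstK

/-!
# Scaling of the gas and of the body
-/

set_option autoImplicit false

namespace Pool.Agent.RC

open MeasureTheory Pointwise Pool.Agent.ExGas

variable {d : ℕ}

/-- Scaling of the exclusion set. -/
theorem transition_smul {l : ℝ} (hl : 0 < l) {E : Set (Fin d → ℝ)} (h : Transition d E) :
    Transition d (l • E) := by
  have h1 := Exg.transition_scl hl h
  have e : Exg.scl l E = l • E := by
    ext u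
    rw [Set.mem_smul_set_iff_inv_smul_mem₀ hl.ne']
    rfl
  rwa [e] at h1

theorem smul_sub_self (l : ℝ) (K : Set (Fin d → ℝ)) : l • (K - K) = l • K - l • K := by
  ext u
  constructor
  · rintro ⟨_, ⟨x, hx, y, hy, rfl⟩, rfl⟩
    exact ⟨l • x, ⟨x, hx, rfl⟩, l • y, ⟨y, hy, rfl⟩, (smul_sub l x y).symm⟩
  · rintro ⟨_, ⟨x, hx, rfl⟩, _, ⟨y, hy, rfl⟩, rfl⟩
    exact ⟨x - y, ⟨x, hx, y, hy, rfl⟩, smul_sub l x y⟩

/-- Scaling of the body. -/
theorem transition_body {l : ℝ} (hl : 0 < l) {K : Set (Fin d → ℝ)} (h : Transition d (K - K)) :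
    Transition d (l • K - l • K) := by
  rw [← smul_sub_self]
  exact transition_smul hl h

theorem IsBody.smul {l : ℝ} (hl : 0 < l) {K : Set (Fin d → ℝ)} (h : IsBody d K) :
    IsBody d (l • K) := by
  classical
  obtain ⟨s, δ, hδ, hs, rfl⟩ := h
  refine ⟨s.image fun p => l • p, l * δ, mul_pos hl hδ, hs.image _, ?_⟩
  ext x
  rw [Set.mem_smul_set_iff_inv_smul_mem₀ hl.ne', Set.mem_iUnion₂, Set.mem_iUnion₂]
  have key : ∀ p : Fin d → ℝ, l⁻¹ • x ∈ Set.Icc p (fun j => p j + δ) ↔
      x ∈ Set.Icc (l • p) (fun j => (l • p) j + l * δ) := by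
    intro p
    simp only [Set.mem_Icc, Pi.le_def, Pi.smul_apply, smul_eq_mul]
    refine and_congr (forall_congr' fun j => ?_) (forall_congr' fun j => ?_)
    · rw [← div_eq_inv_mul, le_div_iff₀ hl, mul_comm]
    · rw [← div_eq_inv_mul, div_le_iff₀ hl]
      constructor <;> intro h <;> linarith
  constructor
  · rintro ⟨p, hp, hx⟩
    exact ⟨l • p, Finset.mem_image_of_mem _ hp, (key p).1 hx⟩
  · rintro ⟨q, hq, hx⟩
    obtain ⟨p, hp, rfl⟩ := Finset.mem_image.1 hq
    exact ⟨p, hp, (key p).2 hx⟩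

/-- Volumes of differences after scaling. -/
theorem volume_smul_symmDiff {l : ℝ} (hl : 0 ≤ l) (A B : Set (Fin d → ℝ)) :
    volume (symmDiff (l • A) (l • B)) = ENNReal.ofReal (l ^ d) * volume (symmDiff A B) := by
  rcases hl.lt_or_eq with hl | rfl
  · have e : symmDiff (l • A) (l • B) = l • symmDiff A B := by
      ext u
      simp only [Set.mem_symmDiff, Set.mem_smul_set_iff_inv_smul_mem₀ hl.ne']
    rw [e, Measure.addHaar_smul, Module.finrank_fin_fun, abs_of_nonneg (by positivity)]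
  · rcases Nat.eq_zero_or_pos d with h0 | h0
    · subst h0
      have e : ∀ A : Set (Fin 0 → ℝ), (0 : ℝ) • A = A := by
        intro A
        ext u
        constructor
        · rintro ⟨v, hv, rfl⟩
          have e1 : (fun x : Fin 0 → ℝ => (0 : ℝ) • x) v = v := Subsingleton.elim _ _
          rw [e1]
          exact hv
        · intro hu
          exact ⟨u, hu, Subsingleton.elim _ _⟩
      simp [e]
    · rw [zero_pow (by omega), ENNReal.ofReal_zero, zero_mul]
      refine measure_mono_null (t := {0}) ?_ ?_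
      · intro u hu
        rcases hu with ⟨⟨v, -, rfl⟩, -⟩ | ⟨⟨v, -, rfl⟩, -⟩
        · simp
        · simp
      · have : Nonempty (Fin d) := ⟨⟨0, h0⟩⟩
        exact measure_singleton _

end Pool.Agent.RC
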