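import Pool.Agent.Lib.MP_09cbbd_rc.BodyBr
import Pool.Agent.Lib.MP_09cbbd_rc.Conv
import Pool.Agent.Lib.MP_09cbbd_rc.Fsc

/-!
# Identical hard bodies: from the hard cores to the convex sets
-/

set_option autoImplicit false

namespace Pool.Agent.RC

open MeasureTheory Pointwise

/-- the theorem for hard cores in normal form -/
def MainCore (d : ℕ) : Prop :=
  ∀ (Nh : Set (Fin d → ℝ)) (c : ℝ) (D : ℕ), Core Nh c D → ∀ δ : ℝ, 0 < δ →
    ∃ (K : Set (Fin d → ℝ)) (η : ℝ), IsBody d K ∧ 0 < η ∧ ∀ K₁ : Set (Fin d → ℝ), IsCompact K₁ →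
      K ⊆ K₁ → K₁ ⊆ Metric.cthickening η K →
      (∀ u ∈ Nh, δ ≤ ‖u‖ → u ∈ K₁ - K₁) ∧
      volume (symmDiff (K₁ - K₁) Nh) ≤ ENNReal.ofReal δ ∧ ExGas.Transition d (K₁ - K₁)

theorem final_of {d : ℕ} (H : MainCore d) (N : Set (Fin d → ℝ)) (ho : IsOpen N)
    (hc : Convex ℝ N) (hb : Bornology.IsBounded N) (hs : ∀ u ∈ N, -u ∈ N) (hne : N.Nonempty)
    (δ : ℝ) (hδ : 0 < δ) :
    ∃ (K : Set (Fin d → ℝ)) (η : ℝ), HardBodies.IsCubeUnion d K ∧ 0 < η ∧
      ∀ K₁ : Set (Fin d → ℝ), IsCompact K₁ → K ⊆ K₁ → K₁ ⊆ Metric.cthickening η K →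
      (∀ u ∈ N, δ ≤ ‖u‖ → u ∈ K₁ - K₁) ∧
      volume (symmDiff (K₁ - K₁) N) ≤ ENNReal.ofReal δ ∧ HardBodies.Transition d K₁ := by
  obtain ⟨l, hl, D, hD⟩ := core_of_convex ho hc hb hs hne
  have hl' := inv_pos.mpr hl
  obtain ⟨K, η, hK, hη, h⟩ := H (l • N) (1 / 2) D hD (min (δ * l ^ d) (l * δ))
    (lt_min (by positivity) (by positivity))
  refine ⟨l⁻¹ • K, l⁻¹ * η, IsBody.smul hl' hK, by positivity, fun K₁ hK₁ h1 h2 => ?_⟩
  have hKc : IsCompact (l⁻¹ • K) := hK.isCompact.smul l⁻¹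
  obtain ⟨g1, g2, g3⟩ := h (l • K₁) (hK₁.smul l)
    (by
      rintro x hx
      exact ⟨l⁻¹ • x, h1 ⟨x, hx, rfl⟩, smul_inv_smul₀ hl.ne' x⟩)
    (by
      rintro _ ⟨x, hx, rfl⟩
      have h3 := h2 hx
      rw [hKc.cthickening_eq_biUnion_closedBall (by positivity)] at h3
      obtain ⟨z, ⟨y, hy, rfl⟩, h4⟩ := Set.mem_iUnion₂.mp h3
      rw [Metric.mem_closedBall] at h4
      refine Metric.mem_cthickening_of_dist_le _ y η K hy ?_
      have e : dist (l • x) y = l * dist x (l⁻¹ • y) := by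
        rw [dist_eq_norm, dist_eq_norm, ← abs_of_pos hl, ← Real.norm_eq_abs l, ← norm_smul,
          Real.norm_eq_abs, abs_of_pos hl, smul_sub, smul_inv_smul₀ hl.ne']
      change dist (l • x) y ≤ η
      rw [e]
      calc l * dist x (l⁻¹ • y) ≤ l * (l⁻¹ * η) := mul_le_mul_of_nonneg_left h4 hl.le
        _ = η := by field_simp)
  have e1 : l⁻¹ • (l • K₁) = K₁ := inv_smul_smul₀ hl.ne' K₁
  refine ⟨fun u hu hn => ?_, ?_, ?_⟩
  · have h3 : l • u ∈ l • K₁ - l • K₁ := by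
      refine g1 _ ⟨u, hu, rfl⟩ ?_
      rw [norm_smul, Real.norm_eq_abs, abs_of_pos hl]
      exact (min_le_right _ _).trans (mul_le_mul_of_nonneg_left hn hl.le)
    rw [← smul_sub_self] at h3
    obtain ⟨v, hv, e⟩ := h3
    have e2 : v = u := smul_right_injective _ hl.ne' e
    rwa [e2] at hv
  · have e : N = l⁻¹ • (l • N) := (inv_smul_smul₀ hl.ne' N).symm
    rw [← e1, ← smul_sub_self, e, volume_smul_symmDiff hl'.le]
    calc ENNReal.ofReal (l⁻¹ ^ d) * volume (symmDiff (l • K₁ - l • K₁) (l • N)) ≤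
          ENNReal.ofReal (l⁻¹ ^ d) * ENNReal.ofReal (δ * l ^ d) :=
          mul_le_mul_right (g2.trans (ENNReal.ofReal_le_ofReal (min_le_left _ _))) _
      _ = ENNReal.ofReal δ := by
        rw [← ENNReal.ofReal_mul (by positivity)]
        congr 1
        rw [inv_pow]
        field_simp
  · rw [HardBodies.transition_iff, ← e1]
    exact transition_body hl' g3

end Pool.Agent.RC
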