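import Pool.Agent.Lib.MP_09cbbd_rc.EndC
import Pool.Agent.Lib.MP_09cbbd_rc.FinV
import Pool.Agent.Lib.MP_09cbbd_rc.BodyBr

/-!
# Identical hard bodies: the cube
-/

set_option autoImplicit false

namespace Pool.Agent.RC

open MeasureTheory Pointwise

theorem cube_final {d : ℕ} (hd : 2 ≤ d) (δ : ℝ) (hδ : 0 < δ) :
    ∃ K : Set (Fin d → ℝ), HardBodies.IsCubeUnion d K ∧
      volume (symmDiff (K - K) (OCub d)) ≤ ENNReal.ofReal δ ∧ HardBodies.Transition d K := by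
  have hne : (⟨0, by omega⟩ : Fin d) ≠ ⟨1, by omega⟩ := fun h => by
    have := congrArg Fin.val h
    simp at this
  obtain ⟨k0, hk0⟩ := cube_end hd hne
  obtain ⟨k, hk⟩ : ∃ k : ℕ, k = max k0 ⌈1 / δ⌉₊ := ⟨_, rfl⟩
  have h1 : k0 ≤ k := by rw [hk]; exact le_max_left _ _
  have h2 : 1 / δ ≤ k := by
    rw [hk]
    refine (Nat.le_ceil _).trans ?_
    exact_mod_cast le_max_right _ _
  have h3 : (k : ℝ) ≤ ((8 * (8 * k + 11) ^ d : ℕ) : ℝ) := by
    have h4 : 8 * k + 11 ≤ (8 * k + 11) ^ d := Nat.le_self_pow (by omega) _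
    exact_mod_cast (by omega : k ≤ 8 * (8 * k + 11) ^ d)
  obtain ⟨δ', hδ', h⟩ := Geo.vol_small (m := 8 * (8 * k + 11) ^ d) (R := 2 * k + 1) (δ := δ)
    (by omega) (core_OCub d) (by positivity) (by
      push_cast
      rw [show 4 * (2 * (k : ℝ) + 1) + 7 = 8 * k + 11 by ring]) hδ (by
      rw [div_le_iff₀ hδ] at h2
      nlinarith)
  obtain ⟨α, a, b, β, β', τ, ε, K, hK, hG, hα, hτ, hε0, hε, hT⟩ := hk0 k h1 δ' hδ'
  exact ⟨K, hK, h _ _ _ _ _ _ _ _ _ _ hα hτ hε0.le hε hG, (HardBodies.transition_iff d K).mpr hT⟩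

end Pool.Agent.RC
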