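import Pool.Agent.Lib.MP_09cbbd_rc.BalC
import Pool.Agent.Lib.MP_09cbbd_rc.Led
import Pool.Agent.Lib.MP_09cbbd_rc.AB
import Pool.Agent.Lib.MP_09cbbd_rc.CellN

/-!
# Rows and columns round a general hard core: definitions

The instance: `odI` is the null set of contents, `nwI` are the new contents, `LSI`, `OSI`, `tlI`,
`tOI` are the leaders, the old pieces and the tilts (`true` = rows, `false` = columns).
-/

set_option autoImplicit false

namespace Pool.Agent.RC

open MeasureTheory Finset Filter Topology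
open Pool.Agent.StableGas hiding tr
open Pool.Agent.SquareWell hiding Md cut
open Pool.Agent.SquareWell.ModA
open Pool.Agent.Vdw (blk lift ball Lk Yk Wk Kc)
open Pool.Agent.Mix (Qr mem_Qr Trans Ct)
open Pool.Agent.Exg

variable {d : ℕ}

/-- Contents which do not occur. -/
def odI (E : Set (Fin d → ℝ)) : Set (Ct (Fin d → ℝ)) := {x | x ≠ e0 ∧ (¬ Vx E x ∨ x.1 = 0)}

/-- The corner of a cell. -/
def posI (i : Zd d) : Fin d → ℝ := fun j => (i j : ℝ)

open Classical in
/-- The cells with a non-empty valid content. -/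
noncomputable def occ (E : Set (Fin d → ℝ)) (S : Finset (Zd d)) (ω : Zd d → Ct (Fin d → ℝ)) :
    Finset (Zd d) := S.filter fun i => Vx E (ω i) ∧ (ω i).1 ≠ 0

/-- The new contents. -/
noncomputable def nwI (P : Bd.Prm d) (S : Finset (Zd d)) (ω : Zd d → Ct (Fin d → ℝ)) :
    Finset (Zd d) :=
  Bd.nw P (toLex : Zd d → Lex (Zd d)) posI ω (occ P.E S ω)

/-- The direction of a type. -/
def Bd.Prm.dr (P : Bd.Prm d) (t : Bool) : Fin d := if t then P.i0 else P.i1

/-- The half side of the windows of a type. -/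
def Bd.Prm.dl (P : Bd.Prm d) (t : Bool) : ℝ := if t then P.δA else P.δB

/-- The number of the beads of a full molecule of a type. -/
def Bd.Prm.mm (P : Bd.Prm d) (t : Bool) : ℕ := if t then P.mA else P.mB

/-- The leaders of type `t`. -/
def LSI (P : Bd.Prm d) (W : Set (Fin d → ℝ)) (t : Bool) : Set (Ct (Fin d → ℝ)) :=
  {x | Vx P.E x ∧ x.1 ≠ 0 ∧ x.2 0 ∈ W ∧ Cell.InDir (P.dr t) P.α (P.dl t) (P.mm t) x}

/-- The pairs (old piece, leader). -/
def OSI (P : Bd.Prm d) (t : Bool) (v : Zd d) : Set (Ct (Fin d → ℝ) × Ct (Fin d → ℝ)) :=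
  {p | Vx P.E p.1 ∧ p.1.1 ≠ 0 ∧ p.2.1 ≠ 0 ∧
    Cell.InDir (P.dr t) P.α (P.dl t) (P.mm t) p.1 ∧
    Bd.Win (P.dr t) P.α (P.dl t) (P.mm t) (p.1.2 0 - tr v (p.2.2 0))}

/-- The tilt of a leader. -/
noncomputable def tlI (P : Bd.Prm d) (ζ : ℝ) (t : Bool) (x : Ct (Fin d → ℝ)) : ℝ :=
  (P.mm t - x.1) * (ζ + d * Real.log (2 * P.dl t))

/-- The tilt of an old piece. -/
noncomputable def tOI (P : Bd.Prm d) (ζ : ℝ) (t : Bool) (x : Ct (Fin d → ℝ)) : ℝ :=
  -(x.1 * (ζ + d * Real.log (2 * P.dl t)))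

end Pool.Agent.RC
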