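import Pool.Agent.Lib.MP_09cbbd_rc.GOk
import Pool.Agent.Lib.MP_09cbbd_rc.BalK
import Pool.Agent.Lib.MP_09cbbd_rc.PGl
import Pool.Agent.Lib.MP_09cbbd_rc.PKb
import Pool.Agent.Lib.MP_09cbbd_rc.PPh
import Pool.Agent.Lib.MP_09cbbd_rc.KK

/-!
# Rows and columns round a general hard core: beads and new contents
-/

set_option autoImplicit false

namespace Pool.Agent.RC

open MeasureTheory Finset Filter Topology
open Pool.Agent.StableGas hiding tr
open Pool.Agent.SquareWell hiding Md cut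
open Pool.Agent.SquareWell.ModA
open Pool.Agent.Vdw (blk lift ball Lk Yk Wk Kc)
open Pool.Agent.Mix (Qr mem_Qr Trans Ct)
open Pool.Agent.Exg

variable {d : ℕ}

theorem tendsto_exc {Mx : ℕ → ℕ} {φ : ℝ}
    (hMx : ∀ η > 0, ∀ᶠ k : ℕ in atTop, (Mx k : ℝ) ≤ (φ + η) * (k : ℝ) ^ d) (A : ℝ) :
    Tendsto (fun L : ℕ => A * max ((Mx L : ℝ) - φ * (L : ℝ) ^ d) 0 / (L : ℝ) ^ d) atTop
      (𝓝 0) := by
  have h1 : Tendsto (fun L : ℕ => max ((Mx L : ℝ) - φ * (L : ℝ) ^ d) 0 / (L : ℝ) ^ d) atTop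
      (𝓝 0) := by
    refine tendsto_order.2 ⟨fun a ha => ?_, fun a ha => ?_⟩
    · filter_upwards with L
      exact ha.trans_le (div_nonneg (le_max_right _ _) (by positivity))
    · filter_upwards [hMx (a / 2) (by positivity), eventually_ge_atTop 1] with L hL hL1
      have hL' : (0 : ℝ) < (L : ℝ) ^ d := by
        have : (0 : ℝ) < L := by exact_mod_cast hL1
        positivity
      rw [div_lt_iff₀ hL']
      refine (max_le (b := (0 : ℝ)) (c := a / 2 * (L : ℝ) ^ d) ?_ (by positivity)).trans_lt ?_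
      · linarith
      · exact mul_lt_mul_of_pos_right (by linarith) hL'
  have h2 := h1.const_mul A
  rw [mul_zero] at h2
  refine h2.congr fun L => ?_
  ring

/-- Upper bound of the pressure with a field on the rows. -/
theorem GenOk.up (hd : 1 ≤ d) {E : Type} [MeasurableSpace E] {M : CG d E} {SA SB od : Set E}
    {ms nb : E → ℕ} {Mx : ℕ → ℕ} {nw : Finset (Zd d) → (Zd d → E) → Finset (Zd d)} {m rc : ℕ}
    {φ c1 ε μ z : ℝ} (H : GenOk M SA SB od ms nb Mx nw m rc φ c1 ε μ z)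
    (hMx : ∀ η > 0, ∀ᶠ k : ℕ in atTop, (Mx k : ℝ) ≤ (φ + η) * (k : ℝ) ^ d) {D P P' : ℝ}
    (hD : 0 ≤ D) (hP : M.IsP (fa (fun x => z * nb x) SA D) P)
    (hP' : M.IsP (fun x => (z - D) * nb x) P') : P ≤ P' + (m + 1) * φ * D := by
  have hV : ∀ᵐ x ∂M.π, x ∈ odᶜ := by
    rw [ae_iff]
    simpa using H.od0
  refine isP_le_err (Kb.fld_fa H.cub.SA_meas H.cub.e0_A H.nb_meas H.nb_e0 H.nb_le z D)
    (Kb.fld_nb H.nb_meas H.nb_e0 H.nb_le (z - D)) hV H.ldr.e0_od
    (o := fun L => D * (m + 1) * max ((Mx L : ℝ) - φ * (L : ℝ) ^ d) 0)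
    (tendsto_exc hMx _) (fun L hL ω hω hc => ?_) hP hP'
  have h1 := H.beads (bx d L) ω hc fun i _ => hω i
  have h2 : (nw (bx d L) ω).card ≤ Mx L := by
    have := H.ldr.pack L 0 ω (by rwa [blk_zero_eq])
    rwa [blk_zero_eq] at this
  have h3 : (∑ i ∈ bx d L, (nb (ω i) : ℝ)) + cnt SA (bx d L) ω ≤ (m + 1) * Mx L := by
    have h4 : ((∑ i ∈ bx d L, nb (ω i) + cnt SA (bx d L) ω : ℕ) : ℝ) ≤
        (((m + 1) * Mx L : ℕ) : ℝ) := by
      exact_mod_cast h1.trans (Nat.mul_le_mul le_rfl h2)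
    push_cast at h4
    exact h4
  have h5 : (m + 1) * (Mx L : ℝ) ≤
      (m + 1) * (φ * (L : ℝ) ^ d + max ((Mx L : ℝ) - φ * (L : ℝ) ^ d) 0) := by
    refine mul_le_mul_of_nonneg_left ?_ (by positivity)
    have := le_max_left ((Mx L : ℝ) - φ * (L : ℝ) ^ d) 0
    linarith
  have e1 : ∑ i ∈ bx d L, fa (fun x => z * nb x) SA D (ω i) =
      ∑ i ∈ bx d L, (z - D) * (nb (ω i) : ℝ) +
        D * ((∑ i ∈ bx d L, (nb (ω i) : ℝ)) + cnt SA (bx d L) ω) := by
    rw [Kb.cnt_eq, mul_add, mul_sum, mul_sum, ← sum_add_distrib, ← sum_add_distrib]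
    refine sum_congr rfl fun i _ => ?_
    unfold fa
    ring
  rw [e1]
  have h6 := mul_le_mul_of_nonneg_left (h3.trans h5) hD
  refine add_le_add le_rfl (h6.trans (le_of_eq ?_))
  ring

/-- **Lower bound for beads and good rows.** -/
theorem GenOk.low (hd : 1 ≤ d) {φ c1 : ℝ} (hφ : 0 < φ) (hc1 : 0 < c1) (hc1' : c1 ≤ 1) {m : ℕ}
    (hm : 1 ≤ m) {Mx : ℕ → ℕ} (hMx : ∀ k : ℕ, φ * (k : ℝ) ^ d ≤ Mx k)
    (hMx' : ∀ η > 0, ∀ᶠ k : ℕ in atTop, (Mx k : ℝ) ≤ (φ + η) * (k : ℝ) ^ d) :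
    ∃ ε0 : ℝ, 0 < ε0 ∧ ∃ μ0 : ℝ, ∀ (E : Type) (_ : MeasurableSpace E) (M : CG d E)
      (SA SB od : Set E) (ms nb : E → ℕ) (nw : Finset (Zd d) → (Zd d → E) → Finset (Zd d))
      (rc : ℕ) (μ z : ℝ) (F P : ℝ → ℝ), μ0 ≤ μ →
      GenOk M SA SB od ms nb Mx nw m rc φ c1 ε0 μ z →
      (∀ y, M.IsP (fun x => y * nb x) (F y)) →
      (∀ D, M.IsP (fa (fun x => z * nb x) SA D) (P D)) →
      ∀ D, 0 ≤ D → D ≤ 1 → P (-D) ≤ F (z + D) - (m + 1) * φ * D + φ / 16 * D := by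
  obtain ⟨ε1, hε1, μ1, H⟩ := beads_lo_gen (d := d) hφ
    (Cm := 2 * (m + 1) / c1) (by positivity) (m + 1)
  refine ⟨ε1 / (2 + φ), by positivity, max μ1 1, ?_⟩
  intro E _ M SA SB od ms nb nw rc μ z F P hμ G hF hP
  set ε := ε1 / (2 + φ) with hε
  have hε0 : 0 < ε := by positivity
  have hε' : (2 + φ) * ε = ε1 := by
    rw [hε]
    field_simp
  have hμ1 : μ1 ≤ μ := (le_max_left _ _).trans hμ
  have hμ2 : 1 ≤ μ := (le_max_right _ _).trans hμ
  have hμ0 : 0 < μ := by linarith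
  have hm' : (0 : ℝ) < m := by exact_mod_cast hm
  have h90 : 1 ≤ (m + 1 : ℝ) / (c1 * m) := by
    rw [le_div_iff₀ (by positivity)]
    nlinarith
  have HL := G.ldr
  have hfa0 : fa (fun x => z * nb x) SA 0 = fun x => z * (nb x : ℝ) := by
    funext x
    simp [fa]
  have hFz : (φ - ε) * μ ≤ F z := by
    have h1 := G.lo 0
    rw [hfa0] at h1
    have h2 := CG.isP_prs hd (Kb.fld_nb G.nb_meas G.nb_e0 G.nb_le z)
    have h3 : F z = M.prs fun x => z * nb x := tendsto_nhds_unique (hF z) h2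
    rw [h3]
    exact h1
  refine H E _ M SA (odᶜ ∩ {x | nb x ≤ m + 1}) nb ((m + 1) * φ) ((2 + φ) * ε) μ z F P
    (fun n => n + 1)
    (fun n ω => GN M SA SB od ms m c1 μ nw Mx (n + 1) (bx d (n + 1)) ω 0) (fun _ => 0)
    (fun n => (1 + ε) * μ * max ((Mx (n + 1) : ℝ) - φ * ((n + 1 : ℕ) : ℝ) ^ d) 0) (by linarith)
    hμ1 G.cub.SA_meas G.cub.e0_A G.nb_meas G.nb_e0 ?_ ⟨HL.e0_od, by
      show nb M.e0 ≤ m + 1
      have := G.nb_e0
      omega⟩ (fun x hx => hx.2) (tendsto_add_atTop_nat 1) ?_ ?_ ?_ ?_ hF hP ?_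
  · have hod : ∀ᵐ x ∂M.π, x ∈ odᶜ := by
      rw [ae_iff]
      simpa using G.od0
    filter_upwards [hod, G.nb_le] with x h1 h2
    exact ⟨h1, h2⟩
  · -- the pointwise bound
    intro n ω hω hc
    obtain ⟨k, hk⟩ : ∃ k, k = n + 1 := ⟨_, rfl⟩
    rw [← hk] at hc ⊢
    have hk1 : 1 ≤ k := by omega
    have h1 := hMx k
    have h2 : (nw (bx d k) ω).card ≤ Mx k := by
      have := HL.pack k 0 ω (by rwa [blk_zero_eq])
      rwa [blk_zero_eq] at this
    have hsub := HL.sub (bx d k) ω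
    -- sums over the new contents
    have h3 : ∑ i ∈ nw (bx d k) ω, ((nb (ω i) : ℝ) + SA.indicator (1 : E → ℝ) (ω i)) ≤
        ∑ i ∈ bx d k, (nb (ω i) : ℝ) + cnt SA (bx d k) ω := by
      rw [Kb.cnt_eq, ← sum_add_distrib]
      exact sum_le_sum_of_subset_of_nonneg hsub fun i _ _ =>
        add_nonneg (Nat.cast_nonneg _) (Kb.ind_nonneg SA _)
    have h4 : ∀ i ∈ nw (bx d k) ω, (m + 1 : ℝ) - ((nb (ω i) : ℝ) +
        SA.indicator (1 : E → ℝ) (ω i)) ≤
        2 * (m + 1) / c1 / μ * ceN M SA SB od ms m c1 μ nw (bx d k) (bx d k) ω i := by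
      intro i hi
      have h5 : en SA SB ms m c1 μ (ω i) ≤ ceN M SA SB od ms m c1 μ nw (bx d k) (bx d k) ω i := by
        unfold ceN
        rw [if_pos hi]
        have := mul_nonneg hc1.le hμ0.le
        split_ifs <;> linarith
      refine le_trans ?_ (mul_le_mul_of_nonneg_left h5 (by positivity))
      unfold en
      by_cases hiA : ω i ∈ SA
      · have h6 : ((nb (ω i) : ℝ)) + ms (ω i) = m := by exact_mod_cast G.nb_A _ hiA
        rw [if_pos (Set.mem_union_left SB hiA), Set.indicator_of_mem hiA, Pi.one_apply]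
        have hm0 : (0 : ℝ) ≤ m := Nat.cast_nonneg _
        have hms0 : (0 : ℝ) ≤ ms (ω i) := Nat.cast_nonneg _
        have e : (m + 1 : ℝ) - ((nb (ω i) : ℝ) + 1) = ms (ω i) := by linarith
        rw [e]
        have h8 : 2 * (m + 1) / c1 / μ * (μ / (2 * m) * (ms (ω i) : ℝ)) =
            ((m + 1) / (c1 * m)) * ms (ω i) := by
          field_simp
        rw [h8]
        have := mul_le_mul_of_nonneg_right h90 hms0
        linarith
      · rw [Set.indicator_of_notMem hiA, add_zero]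
        by_cases hiB : ω i ∈ SB
        · have h6 : ((nb (ω i) : ℝ)) + ms (ω i) = m + 1 := by exact_mod_cast G.nb_B _ hiB
          rw [if_pos (Set.mem_union_right SA hiB)]
          have hm0 : (0 : ℝ) ≤ m := Nat.cast_nonneg _
          have hms0 : (0 : ℝ) ≤ ms (ω i) := Nat.cast_nonneg _
          have e : (m + 1 : ℝ) - (nb (ω i) : ℝ) = ms (ω i) := by linarith
          rw [e]
          have h8 : 2 * (m + 1) / c1 / μ * (μ / (2 * m) * (ms (ω i) : ℝ)) =
              ((m + 1) / (c1 * m)) * ms (ω i) := by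
            field_simp
          rw [h8]
          have := mul_le_mul_of_nonneg_right h90 hms0
          linarith
        · rw [if_neg (by
            rintro (h | h)
            exacts [hiA h, hiB h])]
          have h7 : 2 * (m + 1) / c1 / μ * (c1 * μ) = 2 * ((m : ℝ) + 1) := by
            field_simp
          rw [h7]
          have : (0 : ℝ) ≤ nb (ω i) := Nat.cast_nonneg _
          have hm0 : (0 : ℝ) ≤ m := Nat.cast_nonneg _
          linarith
    have h5 := sum_le_sum h4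
    rw [sum_sub_distrib, sum_const, nsmul_eq_mul, ← mul_sum] at h5
    have h6 : ∑ i ∈ nw (bx d k) ω, ceN M SA SB od ms m c1 μ nw (bx d k) (bx d k) ω i ≤
        ∑ i ∈ bx d k, ceN M SA SB od ms m c1 μ nw (bx d k) (bx d k) ω i :=
      sum_le_sum_of_subset_of_nonneg hsub fun i _ _ => ceN_nonneg hc1.le hμ0.le _ _ _ _
    have h7 : (0 : ℝ) ≤ 2 * (m + 1) / c1 / μ := by positivity
    have h8 := mul_le_mul_of_nonneg_left h6 h7
    unfold GN
    rw [blk_zero_eq, Nat.cast_sub h2, mul_add]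
    have h9 : ((m : ℝ) + 1) * (Mx k - (nw (bx d k) ω).card) ≤
        2 * (m + 1) / c1 / μ * (μ * (Mx k - (nw (bx d k) ω).card)) := by
      have e : 2 * (m + 1) / c1 / μ * (μ * ((Mx k : ℝ) - (nw (bx d k) ω).card)) =
          (2 * (m + 1) / c1) * (Mx k - (nw (bx d k) ω).card) := by
        field_simp
      rw [e]
      have h10 : (0 : ℝ) ≤ Mx k - (nw (bx d k) ω).card := by
        rw [sub_nonneg]
        exact_mod_cast h2
      refine mul_le_mul_of_nonneg_right ?_ h10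
      rw [le_div_iff₀ hc1]
      have hm0 : (0 : ℝ) ≤ m := Nat.cast_nonneg _
      nlinarith
    have h11 : (m + 1 : ℝ) * φ * (k : ℝ) ^ d ≤ (m + 1) * Mx k := by
      rw [mul_assoc]
      exact mul_le_mul_of_nonneg_left h1 (by positivity)
    nlinarith
  · simp
  · intro n
    have h1 := G.cr (n + 1) {0}
    rw [lift_zero_eq] at h1
    simp only [sum_singleton, card_singleton, Nat.cast_one, mul_one] at h1
    refine h1.trans (ex_le_ex.2 ?_)
    have h2 : (Mx (n + 1) : ℝ) ≤ φ * ((n + 1 : ℕ) : ℝ) ^ d +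
        max ((Mx (n + 1) : ℝ) - φ * ((n + 1 : ℕ) : ℝ) ^ d) 0 := by
      have := le_max_left ((Mx (n + 1) : ℝ) - φ * ((n + 1 : ℕ) : ℝ) ^ d) 0
      linarith
    have h3 := mul_le_mul_of_nonneg_left h2 (show 0 ≤ (1 + ε) * μ by positivity)
    have h4 : 0 ≤ ε * μ * ((n + 1 : ℕ) : ℝ) ^ d := by positivity
    nlinarith
  · have h1 := (tendsto_exc hMx' ((1 + ε) * μ)).comp (tendsto_add_atTop_nat 1)
    exact h1
  · have h4 : 0 ≤ ε * μ := by positivity
    have h5 : 0 ≤ φ * (ε * μ) := by positivity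
    nlinarith

end Pool.Agent.RC
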