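import Pool.Agent.Lib.MP_09cbbd_rc.PMain

/-!
# Rows and columns, Peierls argument: the kink for a general hard core
-/

set_option autoImplicit false

namespace Pool.Agent.RC

open MeasureTheory Finset Filter Topology Pool.Agent.StableGas
open Pool.Agent.SquareWell hiding Md cut
open Pool.Agent.Vdw (blk lift ball Lk Yk Wk Kc)
open Pool.Agent.Mix (Qr mem_Qr)

variable {d : ℕ}

/-- **Assumptions for a general hard core** with the packing constant `φ`, at the activity `z`: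
the assumptions on the blocks, the shift inequalities for the two phases, and the two inequalities
between the numbers of beads and of good rows. -/
structure BlkOk {E : Type} [MeasurableSpace E] (M : CG d E) (SA SB : Set E) (nb : E → ℕ)
    (φ c2 C1 ε μ z : ℝ) (k m : ℕ) : Prop where
  blk : ∃ eb, Blk M SA SB (fun x => z * nb x) (fun a => M.prs (fa (fun x => z * nb x) SA a))
    φ c2 C1 ε μ k eb
  mass : ∫⁻ x, ex (z * nb x) ∂M.π ≤ ex (3 / 2 * μ)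
  grow : ∀ a, 0 ≤ a → a ≤ μ → φ * a + (φ - ε) * μ ≤ M.prs (fa (fun x => z * nb x) SA a)
  shA : ∀ a, M.SH (fa (fun x => z * nb x) SA a) (insert M.e0 SA) (insert M.e0 SA) (1 / 2)
  shB : ∀ a, M.SH (fa (fun x => z * nb x) SA a) (insert M.e0 SB) (insert M.e0 SB) (1 / 2)
  up : ∀ D, 0 ≤ D → M.prs (fa (fun x => z * nb x) SA D) ≤
    M.prs (fun x => (z - D) * nb x) + (m + 1) * φ * D
  lo : ∃ D0 > 0, ∀ D, 0 ≤ D → D ≤ D0 → M.prs (fa (fun x => z * nb x) SA (-D)) ≤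
    M.prs (fun x => (z + D) * nb x) - (m + 1) * φ * D + φ / 16 * D

/-- **The kink for a general hard core.** -/
theorem blk_kink (hd : 2 ≤ d) {φ c2 C1 : ℝ} (hφ : 0 < φ) (hφ1 : φ ≤ 1) (hc2 : 0 < c2)
    (hC1 : 0 < C1) {st : ℕ} (hst : 2 ≤ st) (q : ℕ) :
    ∃ ε0 : ℝ, 0 < ε0 ∧ ∃ k0 : ℕ, ∀ k : ℕ, k0 ≤ k → ∃ μ0 : ℝ,
      ∀ (E : Type) (_ : MeasurableSpace E) (M : CG d E) (SA SB : Set E) (nb : E → ℕ) (m : ℕ)
      (ε μ z1 z2 : ℝ), 0 ≤ ε → ε ≤ ε0 → M.q ≤ q → 2 * M.r ≤ st * k → μ0 ≤ μ → z1 < z2 →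
      (∀ y : ℝ, M.Fld (fun x => y * nb x)) →
      (∀ z ∈ Set.Icc z1 z2, BlkOk M SA SB nb φ c2 C1 ε μ z k m) →
      (∃ t > 0, z1 + t ≤ z2 ∧ M.prs (fun x => (z1 + t) * nb x) ≤
        M.prs (fun x => z1 * nb x) + t * ((m + 1 / 4) * φ)) →
      (∃ t > 0, z1 ≤ z2 - t ∧ M.prs (fun x => (z2 - t) * nb x) ≤
        M.prs (fun x => z2 * nb x) - t * ((m + 3 / 4) * φ)) →
      ∃ w n1 n2 : ℝ, n1 < n2 ∧
        (∀ t > 0, M.prs (fun x => w * nb x) + t * n2 ≤ M.prs (fun x => (w + t) * nb x)) ∧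
        ∀ t > 0, M.prs (fun x => w * nb x) - t * n1 ≤ M.prs (fun x => (w - t) * nb x) := by
  have hd1 : 1 ≤ d := by omega
  obtain ⟨ε0, hε0, k0, hk0⟩ := blk_phases (d := d) hd hφ hφ1 hc2 hC1 hst q
  refine ⟨ε0, hε0, k0, fun k hk => ?_⟩
  obtain ⟨μ0, hμ0⟩ := hk0 k hk
  refine ⟨μ0, ?_⟩
  intro E _ M SA SB nb m ε μ z1 z2 hε hε' hq hr hμ hz hbe H h1 h2
  refine kink_of (fun z => M.prs (fun x => z * nb x)) (CG.convexOn_nb hd1 hbe) (φ := φ) (m := m)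
    hφ hz h1 h2 fun z hz' => ?_
  have G := H z hz'
  obtain ⟨eb, B⟩ := G.blk
  refine ⟨fun a => M.prs (fa (fun x => z * nb x) SA a),
    CG.convexOn_fa hd1 (hbe z) B.SA_meas B.e0_A, ?_, G.up, G.lo, ?_⟩
  · have hfa0 : fa (fun x => z * nb x) SA 0 = fun x => z * nb x := by
      funext x
      simp [fa]
    simp only [hfa0]
  · exact hμ0 E _ M SA SB _ _ ε μ eb B hε hε' hμ hq hr G.mass G.grow G.shA G.shB

end Pool.Agent.RC
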