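import Pool.Agent.Lib.MP_09cbbd_rc.BalD
import Pool.Agent.Lib.MP_09cbbd_rc.BalK
import Pool.Agent.Lib.MP_09cbbd_rc.PGen
import Pool.Agent.Lib.MP_09cbbd_rc.GCr

/-!
# Rows and columns round a general hard core: the kink
-/

set_option autoImplicit false

namespace Pool.Agent.RC

open MeasureTheory Finset Filter Topology Pool.Agent.StableGas
open Pool.Agent.SquareWell hiding Md cut
open Pool.Agent.Vdw (blk lift ball Lk Yk Wk Kc)
open Pool.Agent.Mix (Qr mem_Qr)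

variable {d : ℕ}

/-- **All assumptions on the gas on cells for a general hard core**, at the activity `z`. `Mx k` is the
packing number of the cube of side `k`. -/
structure GenH {E : Type} [MeasurableSpace E] (M : CG d E) (SA SB od : Set E) (ms nb : E → ℕ)
    (Mx : ℕ → ℕ) (nw : Finset (Zd d) → (Zd d → E) → Finset (Zd d)) (m rc : ℕ)
    (φ c1 ε μ C z : ℝ) : Prop where
  cub : Cub M SA SB ms rc
  ldr : Ldr M SA SB od Mx nw
  pm : ∃ (LS : Bool → Set E) (OS : Bool → Zd d → Set (E × E)) (tl tO : Bool → E → ℝ),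
    Pcs M SA SB od nw LS OS tl tO ∧ MasN M SA SB od ms m c1 ε μ C (fun x => z * nb x) LS OS tl tO
  nb_meas : Measurable nb
  nb_e0 : nb M.e0 = 0
  nb_le : ∀ᵐ x ∂M.π, nb x ≤ m + 1
  nb_A : ∀ x ∈ SA, nb x + ms x = m
  nb_B : ∀ x ∈ SB, nb x + ms x = m + 1
  tot : ∀ S ω, M.cp id S ω → (∀ i ∈ S, ω i ∉ od) →
    ∑ i ∈ S, nb (ω i) + cnt SA S ω ≤ (m + 1) * (nw S ω).card
  shA : ∀ a, M.SH (fa (fun x => z * nb x) SA a) (insert M.e0 SA) (insert M.e0 SA) (1 / 2)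
  shB : ∀ a, M.SH (fa (fun x => z * nb x) SA a) (insert M.e0 SB) (insert M.e0 SB) (1 / 2)
  lo : ∀ a, (φ - ε) * μ ≤ M.prs (fa (fun x => z * nb x) SA a)
  grow : ∀ a, 0 ≤ a → a ≤ μ → φ * a + (φ - ε) * μ ≤ M.prs (fa (fun x => z * nb x) SA a)

/-- **The kink for a general hard core.** -/
theorem genH_kink (hd : 2 ≤ d) {c1 Cm φ A : ℝ} (hc1 : 0 < c1) (hc1' : c1 ≤ 1) (hCm : 1 ≤ Cm)
    (hφ : 0 < φ) (hφ1 : φ ≤ 1) {Mx : ℕ → ℕ}
    (hMx : ∀ k : ℕ, 1 ≤ k → φ * (k : ℝ) ^ d ≤ Mx k ∧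
      (Mx k : ℝ) ≤ φ * (k : ℝ) ^ d + A * (k : ℝ) ^ (d - 1)) {st : ℕ} (hst : 2 ≤ st) (q : ℕ) :
    ∃ k0 : ℕ, ∀ k m : ℕ, k0 ≤ k → 1 ≤ m → (m : ℝ) ≤ Cm * (k : ℝ) ^ d → ∀ C : ℝ,
      ∃ ε : ℝ, 0 < ε ∧ ∃ μ0 : ℝ, ∀ (E : Type) (_ : MeasurableSpace E) (M : CG d E)
      (SA SB od : Set E) (ms nb : E → ℕ) (nw : Finset (Zd d) → (Zd d → E) → Finset (Zd d))
      (rc : ℕ) (μ z1 z2 : ℝ), 2 * k ≤ rc → M.q ≤ q → 2 * M.r ≤ st * k → μ0 ≤ μ → z1 < z2 →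
      (∀ z ∈ Set.Icc z1 z2, GenH M SA SB od ms nb Mx nw m rc φ c1 ε μ C z) →
      (∃ t > 0, z1 + t ≤ z2 ∧ M.prs (fun x => (z1 + t) * nb x) ≤
        M.prs (fun x => z1 * nb x) + t * ((m + 1 / 4) * φ)) →
      (∃ t > 0, z1 ≤ z2 - t ∧ M.prs (fun x => (z2 - t) * nb x) ≤
        M.prs (fun x => z2 * nb x) - t * ((m + 3 / 4) * φ)) →
      ∃ w n1 n2 : ℝ, n1 < n2 ∧
        (∀ t > 0, M.prs (fun x => w * nb x) + t * n2 ≤ M.prs (fun x => (w + t) * nb x)) ∧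
        ∀ t > 0, M.prs (fun x => w * nb x) - t * n1 ≤ M.prs (fun x => (w - t) * nb x) := by
  have hd1 : 1 ≤ d := by omega
  obtain ⟨c2, C1, hc2, hC1, hblk⟩ := Ldr.blk (d := d) hc1 hc1' hCm hφ hφ1 q
  obtain ⟨ε0, hε0, k0, hkk⟩ := blk_kink (d := d) hd hφ hφ1 hc2 hC1 hst q
  obtain ⟨ε1, hε1, hε1', hε1''⟩ : ∃ ε1 : ℝ, 0 < ε1 ∧ ε1 ≤ ε0 ∧ ε1 ≤ 1 :=
    ⟨min ε0 1, lt_min hε0 one_pos, min_le_left _ _, min_le_right _ _⟩
  obtain ⟨k1, hk1⟩ := exists_nat_ge (4 * |A| / ε1)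
  refine ⟨max (max k0 k1) (2 * q + 1), fun k m hk hm hmk C => ?_⟩
  have hkk0 : k0 ≤ k := ((le_max_left _ _).trans (le_max_left _ _)).trans hk
  have hkk1 : k1 ≤ k := ((le_max_right _ _).trans (le_max_left _ _)).trans hk
  have hkq : 2 * q + 1 ≤ k := (le_max_right _ _).trans hk
  have hk1' : 1 ≤ k := by omega
  have hkR : (1 : ℝ) ≤ k := by exact_mod_cast hk1'
  have hkd : (0 : ℝ) < (k : ℝ) ^ d := by positivity
  obtain ⟨μ1, hμ1⟩ := hkk k hkk0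
  obtain ⟨ε2, hε2, μ2, hlo⟩ := lo_gen (d := d) (φ := φ) (c1 := c1) hd1 hφ hφ1 hc1 hc1' hm
  obtain ⟨K, hK0, hK⟩ := exists_K (d := d) q C
  obtain ⟨ε, hε, he1, he2⟩ : ∃ ε : ℝ, 0 < ε ∧ ε ≤ ε1 / 4 ∧ ε ≤ ε2 :=
    ⟨min (ε1 / 4) ε2, lt_min (by positivity) hε2, min_le_left _ _, min_le_right _ _⟩
  -- the packing numbers
  have hMk1 := (hMx k hk1').1
  have hMk2 : (Mx k : ℝ) ≤ (φ + ε1 / 4) * (k : ℝ) ^ d := by
    refine (hMx k hk1').2.trans ?_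
    have h1 : 4 * |A| ≤ ε1 * k := by
      have h2 : 4 * |A| / ε1 ≤ k := hk1.trans (by exact_mod_cast hkk1)
      rw [div_le_iff₀ hε1] at h2
      linarith
    obtain ⟨n, rfl⟩ : ∃ n, d = n + 1 := ⟨d - 1, by omega⟩
    rw [Nat.add_sub_cancel, pow_succ]
    have h3 : (0 : ℝ) < (k : ℝ) ^ n := by positivity
    have h4 : A * (k : ℝ) ^ n ≤ |A| * (k : ℝ) ^ n :=
      mul_le_mul_of_nonneg_right (le_abs_self A) h3.le
    have h5 : 4 * |A| * (k : ℝ) ^ n ≤ ε1 * k * (k : ℝ) ^ n :=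
      mul_le_mul_of_nonneg_right h1 h3.le
    linarith
  refine ⟨ε, hε, max (max μ1 μ2) (max 1 (K / ε)), ?_⟩
  intro E _ M SA SB od ms nb nw rc μ z1 z2 hrc hq hr hμ hz H he1' he2'
  have m1 : μ1 ≤ μ := ((le_max_left _ _).trans (le_max_left _ _)).trans hμ
  have m2 : μ2 ≤ μ := ((le_max_right _ _).trans (le_max_left _ _)).trans hμ
  have m3 : 1 ≤ μ := ((le_max_left _ _).trans (le_max_right _ _)).trans hμ
  have m4 : K / ε ≤ μ := ((le_max_right _ _).trans (le_max_right _ _)).trans hμ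
  have hμ0 : 0 < μ := by linarith
  have hKμ : K ≤ ε * μ := by
    rw [div_le_iff₀ hε] at m4
    linarith
  have HH := H z1 (Set.left_mem_Icc.2 hz.le)
  have hbe : ∀ y : ℝ, M.Fld (fun x => y * nb x) := fun y =>
    Kb.fld_nb HH.nb_meas HH.nb_e0 HH.nb_le y
  refine hμ1 E _ M SA SB nb m ε1 μ z1 z2 hε1.le hε1' hq hr m1 hz hbe (fun z hz' => ?_) he1' he2'
  have G := H z hz'
  obtain ⟨LS, OS, tl, tO, HP, HM⟩ := G.pm
  have hSA := G.cub.SA_meas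
  have hSB := G.cub.SB_meas
  have heA := G.cub.e0_A
  have hfld : ∀ a, M.Fld (fa (fun x => z * nb x) SA a) := fun a =>
    Kb.fld_fa hSA heA G.nb_meas G.nb_e0 G.nb_le z a
  have hfa : ∀ a, M.IsP (fa (fun x => z * nb x) SA a) (M.prs (fa (fun x => z * nb x) SA a)) :=
    fun a => CG.isP_prs hd1 (hfld a)
  have hIP : ∀ y : ℝ, M.IsP (fun x => y * nb x) (M.prs fun x => y * nb x) := fun y =>
    CG.isP_prs hd1 (hbe y)
  have hεμ : (φ - ε1) * μ ≤ (φ - ε) * μ := mul_le_mul_of_nonneg_right (by linarith) hμ0.le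
  have hKq := hK M.q hq
  refine ⟨⟨ebN M SA SB od ms m c1 μ nw Mx k, ?_⟩, ?_, ?_, G.shA, G.shB, ?_, ?_⟩
  · refine hblk k m hkq hm hmk E _ M SA SB od ms rc Mx nw _ _ ε1 μ hμ0 G.cub G.ldr hrc hq hMk1
      (hMk2.trans (mul_le_mul_of_nonneg_right (by linarith) hkd.le)) (hbe z) hfa
      (fun a => hεμ.trans (G.lo a)) fun L => ?_
    have h1 := MasN.cr (k := k) hSA hSB G.cub.ms_meas G.ldr HP hε.le hμ0.le hc1.le HM hKq L
    refine le_trans (le_of_eq ?_) (h1.trans (ex_le_ex.2 ?_))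
    · congr 1
      funext ω
      have h2 := sum_ebN (M := M) (SA := SA) (SB := SB) (od := od) (ms := ms) (m := m) (c1 := c1)
        (nw := nw) (Mx := Mx) hμ0 hk1' L ω
      rw [← h2]
      congr 2
      ring
    · have hL : (0 : ℝ) ≤ L.card := Nat.cast_nonneg _
      have h3 : (1 + ε) * μ * Mx k + K * (k : ℝ) ^ d ≤ (φ + ε1) * μ * (k : ℝ) ^ d := by
        have h4 : (1 + ε) * μ * Mx k ≤ (1 + ε) * μ * ((φ + ε1 / 4) * (k : ℝ) ^ d) :=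
          mul_le_mul_of_nonneg_left hMk2 (by positivity)
        have h5 : K * (k : ℝ) ^ d ≤ ε * μ * (k : ℝ) ^ d := mul_le_mul_of_nonneg_right hKμ hkd.le
        have h6 : (1 + ε) * (φ + ε1 / 4) + ε ≤ φ + ε1 := by
          have h7 : ε * (φ + ε1 / 4) ≤ ε * 2 := mul_le_mul_of_nonneg_left (by linarith) hε.le
          linarith
        have h8 : ((1 + ε) * (φ + ε1 / 4) + ε) * (μ * (k : ℝ) ^ d) ≤
            (φ + ε1) * (μ * (k : ℝ) ^ d) := mul_le_mul_of_nonneg_right h6 (by positivity)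
        linarith
      have h9 := mul_le_mul_of_nonneg_right h3 hL
      linarith
  · have h1 : ∫⁻ x, ex (z * nb x) ∂M.π ≤
        ∫⁻ x, ex (z * nb x + 1 / 2 * en SA SB ms m c1 μ x) ∂M.π := by
      refine lintegral_mono fun x => ex_le_ex.2 ?_
      have := en_nonneg (SA := SA) (SB := SB) (ms := ms) (m := m) hc1.le hμ0.le x
      linarith
    refine h1.trans (HM.m1.trans (ex_le_ex.2 (mul_le_mul_of_nonneg_right ?_ hμ0.le)))
    linarith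
  · intro a ha ha'
    have := G.grow a ha ha'
    linarith
  · intro D hD
    exact Ldr.up hd1 G.ldr HM.od0 hSA heA G.nb_meas G.nb_e0 G.nb_le G.tot
      (fun k hk => (hMx k hk).2) hD (hfa D) (hIP (z - D))
  · refine ⟨1, one_pos, fun D hD0 hD1 => ?_⟩
    have hF : (φ - ε) * μ ≤ M.prs fun x => z * nb x := by
      have h1 := G.lo 0
      have hfa0 : fa (fun x => z * nb x) SA 0 = fun x => z * nb x := by
        funext x
        simp [fa]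
      rwa [hfa0] at h1
    exact hlo E _ M SA SB od ms nb Mx nw LS OS tl tO A C K ε μ z
      (fun y => M.prs (fun x => y * nb x)) (fun a => M.prs (fa (fun x => z * nb x) SA a)) hε.le he2
      m2 hKμ hSA hSB G.cub.ms_meas heA G.cub.disj G.nb_meas G.nb_e0 G.nb_le G.nb_A G.nb_B G.ldr
      HP HM hKq hMx hIP hfa hF D hD0 hD1

end Pool.Agent.RC
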