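import Pool.Agent.Lib.MP_09cbbd_rc.GUp
import Pool.Agent.Lib.MP_09cbbd_rc.GOkI

/-!
# The sharp upper bound of the pressure for the gas with a general hard core
-/

set_option autoImplicit false

namespace Pool.Agent.RC

open MeasureTheory Finset Filter Topology
open Pool.Agent.StableGas hiding tr
open Pool.Agent.SquareWell hiding Md cut
open Pool.Agent.SquareWell.ModA
open Pool.Agent.Vdw (blk lift ball Lk Yk Wk Kc)
open Pool.Agent.Mix (Qr mem_Qr Trans Ct)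
open Pool.Agent.Exg

variable {d : ℕ}

/-- **The sharp upper bound of the pressure.** -/
theorem prs_up (hd : 1 ≤ d) (m q : ℕ) {c1 η : ℝ} (hc1 : 0 ≤ c1) (hη : 0 < η) :
    ∃ μ0 : ℝ, ∀ (N E : Set (Fin d → ℝ)) (i₁ i₂ : Fin d) (R α a b β β' τ ε : ℝ)
      (hG : Geo d i₁ i₂ m R α a b β β' τ ε N E) (c : ℝ) (D : ℕ) (hC : Core N c D) (h w : ℝ)
      (hh : 0 < h) (hhc : h ≤ c) (r : ℕ) (hq : (1 + τ + 2 * (h / c)) * D ≤ q)
      (hr : 2 * R + 3 ≤ r) (hqr : q ≤ r), h = m * (m + 1) * α → (m + 1) * α + a ≤ w →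
      3 ≤ m → 8 * ((m + 1) * α) ≤ 1 → τ + 2 * (h / c) ≤ 1 → 2 * ((m + 1) * α) ≤ c →
      ∀ rc : ℕ, (rc : ℝ) + 1 ≤ R → ∀ lam X μ z : ℝ, μ0 ≤ μ →
      MNumG d m a b (w + h) (Vrg d D m c α τ h) z lam X c1 η μ →
      (2 * ((m : ℝ) + 1)) ^ (m + 1) * (2 * d * ((m + 1) * α) * Real.exp X) ≤
        Real.exp ((1 - c1) * μ) →
      (hG.ng hC hh.le hhc hq hr hqr).cg.prs (fun x => z * x.1) ≤ (pk N + 2 * η) * μ := by
  obtain ⟨μ0, hμ0⟩ := MasN.prs_le' (d := d) hd (C := Cpt m) hc1 hη q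
  refine ⟨μ0, ?_⟩
  intro N E i₁ i₂ R α a b β β' τ ε hG c D hC h w hh hhc r hq hr hqr hhα hw hm3 h8 hτ1
    hα2 rc hR lam X μ z hμ Q hn3
  have hα := hG.α_pos
  have ha := hG.a_pos
  have hm3' : (3 : ℝ) ≤ m := by exact_mod_cast hm3
  have hmα : 0 < (m + 1 : ℝ) * α := by positivity
  have haw : a < w := by linarith
  set G := hG.ng hC hh.le hhc hq hr hqr with hGdef
  set P := Bd.prm i₁ i₂ m R α a b β N E with hPdef
  have hOk : P.Ok := Bd.ok_of hG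
  have hSm : P.Sm := sm_of hG hC.sym h8
  have hA : Awy P.E (GA E i₁ i₂ m α a h w) (w - a) := hG.awy_A hh haw
  have hB : Awy P.E (GB E i₁ i₂ m α b h w) (w - a) := hG.awy_B hh haw
  have hwP : (P.mB : ℝ) * P.α ≤ w - a := by
    show ((m + 1 : ℕ) : ℝ) * α ≤ w - a
    push_cast
    linarith
  have hcub := hG.cub (h := h) (w := w) G hh haw hm3 hR
  have hldr : Ldr G.cg (GA E i₁ i₂ m α a h w) (GB E i₁ i₂ m α b h w) (odI E) (fun k => Mx N k)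
      (nwI P) := ldrI hOk hSm hC.meas G hA hB hwP
  have hmE : (m + 1 : ℝ) * α ≤ h := by
    rw [hhα]
    calc (m + 1 : ℝ) * α = 1 * ((m + 1) * α) := by ring
      _ ≤ m * ((m + 1) * α) := mul_le_mul_of_nonneg_right (by linarith) hmα.le
      _ = m * (m + 1) * α := by ring
  have hmas : MasN G.cg (GA E i₁ i₂ m α a h w) (GB E i₁ i₂ m α b h w) (odI E)
      (gms E i₁ i₂ m α a h w) m c1 η μ (Cpt m) (fun x => z * x.1)
      (LSI P (Cell.wall d ((m + 1 : ℝ) * α))) (OSI P) (tlI P z) (tOI P z) :=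
    hG.masNI hC hh hhc (by linarith) hmα.le hmE hτ1 hα2 hq hr hqr Q ⟨hn3, pow_le_Cpt m⟩
  have hpcs : Pcs G.cg (GA E i₁ i₂ m α a h w) (GB E i₁ i₂ m α b h w) (odI E) (nwI P)
      (LSI P (Cell.wall d ((m + 1 : ℝ) * α))) (OSI P) (tlI P z) (tOI P z) :=
    hG.pcsN hC.sym h8 G hA hB (by linarith) le_rfl Q.par
  exact hμ0 _ _ G.cg _ _ _ _ m rc _ _ _ _ _ _ _ μ (pk N) le_rfl hμ (pk_le_one hC) hcub hldr hpcs
    hmas (tendsto_Mx hd hC)

end Pool.Agent.RC
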