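import Pool.Agent.Lib.MP_09cbbd_rc.Shift

/-!
# A gas of cell contents with near field thresholds

`nf k i j x y`: the contents `x` of the cell `i` and `y` of the cell `j` respect the near field
exclusion with the margin `k`; `far i j x y`: they respect the far field exclusion.
-/

set_option autoImplicit false

namespace Pool.Agent.RC

open MeasureTheory Finset

/-- The gas. -/
structure Gas (Γ E : Type) [MeasurableSpace E] where
  π : Measure E
  e0 : E
  st : Γ → E → ENNReal
  nf : ℕ → Γ → Γ → E → E → Prop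
  far : Γ → Γ → E → E → Prop
  π_fin : IsFiniteMeasure π
  π_e0 : 1 ≤ π {e0}
  st_meas : ∀ i, Measurable (st i)
  st_e0 : ∀ i, st i e0 = 1
  nf_meas : ∀ k i j, MeasurableSet {p : E × E | nf k i j p.1 p.2}
  far_meas : ∀ i j, MeasurableSet {p : E × E | far i j p.1 p.2}
  nf_symm : ∀ k i j x y, nf k i j x y → nf k j i y x
  far_symm : ∀ i j x y, far i j x y → far j i y x
  nf_anti : ∀ k i j x y, nf (k + 1) i j x y → nf k i j x y
  nf_e0 : ∀ k i j y, nf k i j e0 y
  far_e0 : ∀ i j y, far i j e0 y

namespace Gas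

variable {Γ E : Type} [MeasurableSpace E] (G : Gas Γ E)

/-- The contents of the cells of `A` are compatible. -/
def ok (A : Finset Γ) (ω : Γ → E) : Prop :=
  ∀ i ∈ A, ∀ j ∈ A, i ≠ j → G.nf 0 i j (ω i) (ω j) ∧ G.far i j (ω i) (ω j)

/-- Weight of a configuration in `A`. -/
noncomputable def w (A : Finset Γ) (ω : Γ → E) : ENNReal := by
  classical exact (∏ i ∈ A, G.st i (ω i)) * if G.ok A ω then 1 else 0

/-- Integral over the contents of the cells of `A` (the other cells are empty). -/
noncomputable def int (A : Finset Γ) (f : (Γ → E) → ENNReal) : ENNReal := by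
  classical exact lmarginal (fun _ : Γ => G.π) A f fun _ => G.e0

/-- Partition function. -/
noncomputable def xi (A : Finset Γ) : ENNReal := G.int A (G.w A)

theorem nf_le {k l : ℕ} (h : k ≤ l) {i j : Γ} {x y : E} (hxy : G.nf l i j x y) :
    G.nf k i j x y := by
  induction l with
  | zero =>
    obtain rfl : k = 0 := by omega
    exact hxy
  | succ l ih =>
    rcases Nat.eq_or_lt_of_le h with h1 | h1
    · rw [h1]
      exact hxy
    · exact ih (by omega) (G.nf_anti l i j x y hxy)

theorem nf_e0' (k : ℕ) (i j : Γ) (x : E) : G.nf k i j x G.e0 :=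
  G.nf_symm k j i _ _ (G.nf_e0 k j i x)

theorem far_e0' (i j : Γ) (x : E) : G.far i j x G.e0 := G.far_symm j i _ _ (G.far_e0 j i x)

theorem measurableSet_nf (k : ℕ) (i j a b : Γ) :
    MeasurableSet {ω : Γ → E | G.nf k i j (ω a) (ω b)} := by
  have h : Measurable fun ω : Γ → E => (ω a, ω b) :=
    (measurable_pi_apply a).prodMk (measurable_pi_apply b)
  exact h (G.nf_meas k i j)

theorem measurableSet_far (i j a b : Γ) :
    MeasurableSet {ω : Γ → E | G.far i j (ω a) (ω b)} := by
  have h : Measurable fun ω : Γ → E => (ω a, ω b) :=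
    (measurable_pi_apply a).prodMk (measurable_pi_apply b)
  exact h (G.far_meas i j)

theorem measurableSet_ok (A : Finset Γ) : MeasurableSet {ω : Γ → E | G.ok A ω} := by
  have e : {ω : Γ → E | G.ok A ω} = ⋂ i ∈ A, ⋂ j ∈ A, {ω : Γ → E | i ≠ j →
      G.nf 0 i j (ω i) (ω j) ∧ G.far i j (ω i) (ω j)} := by
    ext ω
    simp only [ok, Set.mem_ofPred_eq, Set.mem_iInter]
  rw [e]
  refine Finset.measurableSet_biInter _ fun i _ => Finset.measurableSet_biInter _ fun j _ => ?_
  by_cases h : i = j
  · have : {ω : Γ → E | i ≠ j → G.nf 0 i j (ω i) (ω j) ∧ G.far i j (ω i) (ω j)} = Set.univ := by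
      ext ω
      simp [h]
    rw [this]
    exact MeasurableSet.univ
  · have : {ω : Γ → E | i ≠ j → G.nf 0 i j (ω i) (ω j) ∧ G.far i j (ω i) (ω j)} =
        {ω : Γ → E | G.nf 0 i j (ω i) (ω j)} ∩ {ω : Γ → E | G.far i j (ω i) (ω j)} := by
      ext ω
      simp [h]
    rw [this]
    exact (G.measurableSet_nf 0 i j i j).inter (G.measurableSet_far i j i j)

theorem measurable_stp (A : Finset Γ) : Measurable fun ω : Γ → E => ∏ i ∈ A, G.st i (ω i) :=
  Finset.measurable_prod _ fun i _ => (G.st_meas i).comp (measurable_pi_apply i)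

theorem w_eq (A : Finset Γ) : G.w A = {ω | G.ok A ω}.indicator fun ω => ∏ i ∈ A, G.st i (ω i) := by
  classical
  funext ω
  unfold w
  by_cases h : G.ok A ω
  · rw [if_pos h, mul_one, Set.indicator_of_mem (show ω ∈ {ω | G.ok A ω} from h)]
  · rw [if_neg h, mul_zero, Set.indicator_of_notMem (show ω ∉ {ω | G.ok A ω} from h)]

theorem measurable_w (A : Finset Γ) : Measurable (G.w A) := by
  rw [w_eq]
  exact (G.measurable_stp A).indicator (G.measurableSet_ok A)

theorem w_of_ok {A : Finset Γ} {ω : Γ → E} (h : G.ok A ω) : G.w A ω = ∏ i ∈ A, G.st i (ω i) := by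
  rw [w_eq, Set.indicator_of_mem (show ω ∈ {ω | G.ok A ω} from h)]

theorem w_of_not {A : Finset Γ} {ω : Γ → E} (h : ¬ G.ok A ω) : G.w A ω = 0 := by
  rw [w_eq, Set.indicator_of_notMem (show ω ∉ {ω | G.ok A ω} from h)]

end Gas

/-! ### General facts on `lmarginal` -/

section Gen

variable {Γ E : Type} [DecidableEq Γ] [MeasurableSpace E]

theorem step_le (π : Measure E) [SigmaFinite π] {A : Finset Γ} {j : Γ} (hj : j ∈ A)
    {F H : (Γ → E) → ENNReal} (hF : Measurable F) (hH : Measurable H) {K : ENNReal}
    (h : ∀ ω : Γ → E, ∫⁻ x, F (Function.update ω j x) ∂π ≤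
      K * ∫⁻ x, H (Function.update ω j x) ∂π) (ω0 : Γ → E) :
    lmarginal (fun _ : Γ => π) A F ω0 ≤ K * lmarginal (fun _ : Γ => π) A H ω0 := by
  rw [lmarginal_erase' (μ := fun _ : Γ => π) _ hF hj,
    lmarginal_erase' (μ := fun _ : Γ => π) _ hH hj]
  have hin : Measurable fun x : Γ → E => ∫⁻ xi, H (Function.update x j xi) ∂π :=
    (hH.comp measurable_update').lintegral_prod_right'
  have e2 : K * lmarginal (fun _ : Γ => π) (A.erase j)
      (fun x => ∫⁻ xi, H (Function.update x j xi) ∂π) ω0 =
      lmarginal (fun _ : Γ => π) (A.erase j)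
        (fun x => K * ∫⁻ xi, H (Function.update x j xi) ∂π) ω0 := by
    unfold lmarginal
    rw [lintegral_const_mul]
    exact hin.comp measurable_updateFinset
  rw [e2]
  exact lmarginal_mono (fun x => h x) ω0

theorem lmarginal_const_mul (π : Measure E) [SigmaFinite π] (A : Finset Γ)
    {F : (Γ → E) → ENNReal} (hF : Measurable F) (K : ENNReal) (ω0 : Γ → E) :
    lmarginal (fun _ : Γ => π) A (fun ω => K * F ω) ω0 =
      K * lmarginal (fun _ : Γ => π) A F ω0 := by
  unfold lmarginal
  rw [lintegral_const_mul]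
  exact hF.comp measurable_updateFinset

theorem lmarginal_finset_sum {ι : Type} (π : Measure E) [SigmaFinite π] (A : Finset Γ)
    (s : Finset ι) {F : ι → (Γ → E) → ENNReal} (hF : ∀ i, Measurable (F i)) (ω0 : Γ → E) :
    lmarginal (fun _ : Γ => π) A (fun ω => ∑ i ∈ s, F i ω) ω0 =
      ∑ i ∈ s, lmarginal (fun _ : Γ => π) A (F i) ω0 := by
  unfold lmarginal
  rw [lintegral_finsetSum]
  exact fun i _ => (hF i).comp measurable_updateFinset

/-- The configuration with the cells of `U` emptied. -/
def emp (e0 : E) (U : Finset Γ) (ω : Γ → E) : Γ → E := fun i => if i ∈ U then e0 else ω i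

omit [MeasurableSpace E] in
theorem emp_of_mem {e0 : E} {U : Finset Γ} {ω : Γ → E} {i : Γ} (h : i ∈ U) :
    emp e0 U ω i = e0 := if_pos h

omit [MeasurableSpace E] in
theorem emp_of_not {e0 : E} {U : Finset Γ} {ω : Γ → E} {i : Γ} (h : i ∉ U) :
    emp e0 U ω i = ω i := if_neg h

theorem measurable_emp (e0 : E) (U : Finset Γ) : Measurable (emp (Γ := Γ) e0 U) := by
  refine measurable_pi_lambda _ fun i => ?_
  unfold emp
  by_cases h : i ∈ U
  · simp only [h, if_true]
    exact measurable_const
  · simp only [h, if_false]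
    exact measurable_pi_apply i

end Gen

/-! ### Deletion -/

namespace Gas

variable {Γ E : Type} [DecidableEq Γ] [MeasurableSpace E] (G : Gas Γ E)

/-- The function with the cells of `U` emptied and their weights in front. -/
noncomputable def del (F : (Γ → E) → ENNReal) (U : Finset Γ) (ω : Γ → E) : ENNReal :=
  (∏ i ∈ U, G.st i (ω i)) * F (emp G.e0 U ω)

theorem measurable_del {F : (Γ → E) → ENNReal} (hF : Measurable F) (U : Finset Γ) :
    Measurable (G.del F U) :=
  (G.measurable_stp U).mul (hF.comp (measurable_emp G.e0 U))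

/-- Integral of the emptied function. -/
theorem del_le {F : (Γ → E) → ENNReal} (hF : Measurable F) {K : ENNReal}
    (hK : ∀ i, ∫⁻ x, G.st i x ∂G.π ≤ K) {A U : Finset Γ} (hU : U ⊆ A) (ω0 : Γ → E) :
    lmarginal (fun _ : Γ => G.π) A (G.del F U) ω0 ≤
      K ^ U.card * lmarginal (fun _ : Γ => G.π) A F ω0 := by
  have := G.π_fin
  induction U using Finset.induction_on with
  | empty =>
    have e : G.del F ∅ = F := by
      funext ω
      unfold del
      rw [prod_empty, one_mul]
      congr 1
    rw [e, card_empty, pow_zero, one_mul]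
  | insert i U hi ih =>
    have hiA : i ∈ A := hU (mem_insert_self i U)
    have ih' := ih fun j hj => hU (mem_insert_of_mem hj)
    have hdm := G.measurable_del hF U
    have h1 : lmarginal (fun _ : Γ => G.π) A (G.del F (insert i U)) ω0 ≤
        K * lmarginal (fun _ : Γ => G.π) A (G.del F U) ω0 := by
      refine step_le G.π hiA (G.measurable_del hF _) hdm (fun ω => ?_) ω0
      -- the dependence on the content of `i`
      have e1 : ∀ x, G.del F (insert i U) (Function.update ω i x) =
          G.st i x * G.del F U (Function.update ω i G.e0) := by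
        intro x
        unfold del
        rw [prod_insert hi, Function.update_self, mul_assoc]
        congr 1
        have e2 : ∏ j ∈ U, G.st j (Function.update ω i x j) =
            ∏ j ∈ U, G.st j (Function.update ω i G.e0 j) := by
          refine prod_congr rfl fun j hj => ?_
          have hji : j ≠ i := fun h => hi (by rw [← h]; exact hj)
          rw [Function.update_of_ne hji, Function.update_of_ne hji]
        rw [e2]
        congr 2
        funext j
        by_cases hj : j = i
        · subst hj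
          rw [emp_of_mem (mem_insert_self j U), emp_of_not hi, Function.update_self]
        · by_cases hjU : j ∈ U
          · rw [emp_of_mem (mem_insert_of_mem hjU), emp_of_mem hjU]
          · rw [emp_of_not (by simp [hj, hjU]), emp_of_not hjU, Function.update_of_ne hj,
              Function.update_of_ne hj]
      have e3 : ∫⁻ x, G.del F (insert i U) (Function.update ω i x) ∂G.π ≤
          K * G.del F U (Function.update ω i G.e0) := by
        rw [lintegral_congr e1, lintegral_mul_const _ (G.st_meas i)]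
        exact mul_le_mul_left (hK i) _
      refine e3.trans (mul_le_mul_right ?_ K)
      have h2 := mul_meas_ge_le_lintegral (μ := G.π) (hdm.comp (measurable_update ω (a := i)))
        (G.del F U (Function.update ω i G.e0))
      refine le_trans ?_ h2
      have h3 : (1 : ENNReal) ≤ G.π {a | G.del F U (Function.update ω i G.e0) ≤
          (G.del F U ∘ Function.update ω i) a} := by
        refine G.π_e0.trans (measure_mono (fun a ha => ?_))
        rw [Set.mem_singleton_iff] at ha
        rw [ha]
        exact le_refl (G.del F U (Function.update ω i G.e0))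
      calc G.del F U (Function.update ω i G.e0)
          = G.del F U (Function.update ω i G.e0) * 1 := (mul_one _).symm
        _ ≤ _ := mul_le_mul_right h3 _
    rw [card_insert_of_notMem hi, pow_succ]
    calc lmarginal (fun _ : Γ => G.π) A (G.del F (insert i U)) ω0
        ≤ K * lmarginal (fun _ : Γ => G.π) A (G.del F U) ω0 := h1
      _ ≤ K * (K ^ U.card * lmarginal (fun _ : Γ => G.π) A F ω0) := mul_le_mul_right ih' K
      _ = K ^ U.card * K * lmarginal (fun _ : Γ => G.π) A F ω0 := by ring

/-- **Deletion of the bad cells.**  `F ω` is at most `F'` of the configuration with the bad cells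
emptied, times the weights of the bad cells. -/
theorem delete {F F' : (Γ → E) → ENNReal} (hF' : Measurable F') {K : ENNReal} (hK1 : K ≠ 0)
    (hK2 : K ≠ ⊤) (hK : ∀ i, ∫⁻ x, G.st i x ∂G.π ≤ K) {A L : Finset Γ} (hL : L ⊆ A)
    (Bd : (Γ → E) → Finset Γ) (hBd : ∀ ω, Bd ω ⊆ L)
    (h : ∀ ω, F ω ≤ G.del F' (Bd ω) ω) (ω0 : Γ → E) :
    lmarginal (fun _ : Γ => G.π) A (fun ω => F ω * K⁻¹ ^ (Bd ω).card) ω0 ≤
      2 ^ L.card * lmarginal (fun _ : Γ => G.π) A F' ω0 := by
  have := G.π_fin
  have h1 : ∀ ω, F ω * K⁻¹ ^ (Bd ω).card ≤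
      ∑ U ∈ L.powerset, K⁻¹ ^ U.card * G.del F' U ω := by
    intro ω
    refine le_trans ?_ (single_le_sum (f := fun U => K⁻¹ ^ U.card * G.del F' U ω)
      (fun _ _ => zero_le) (mem_powerset.2 (hBd ω)))
    rw [mul_comm]
    exact mul_le_mul_right (h ω) _
  refine (lmarginal_mono h1 ω0).trans ?_
  rw [lmarginal_finset_sum G.π A _ (fun U => (G.measurable_del hF' U).const_mul _)]
  have h2 : ∀ U ∈ L.powerset, lmarginal (fun _ : Γ => G.π) A
      (fun ω => K⁻¹ ^ U.card * G.del F' U ω) ω0 ≤ lmarginal (fun _ : Γ => G.π) A F' ω0 := by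
    intro U hU
    rw [lmarginal_const_mul G.π A (G.measurable_del hF' U)]
    have h3 := G.del_le hF' hK ((mem_powerset.1 hU).trans hL) ω0
    calc K⁻¹ ^ U.card * lmarginal (fun _ : Γ => G.π) A (G.del F' U) ω0
        ≤ K⁻¹ ^ U.card * (K ^ U.card * lmarginal (fun _ : Γ => G.π) A F' ω0) :=
          mul_le_mul_right h3 _
      _ = (K⁻¹ * K) ^ U.card * lmarginal (fun _ : Γ => G.π) A F' ω0 := by
          rw [mul_pow, mul_assoc]
      _ = _ := by rw [ENNReal.inv_mul_cancel hK1 hK2, one_pow, one_mul]
  refine (sum_le_sum h2).trans ?_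
  rw [sum_const, card_powerset, nsmul_eq_mul]
  push_cast
  exact le_refl _

end Gas

end Pool.Agent.RC
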