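import Pool.Agent.Lib.MP_09cbbd_rc.Gas

/-!
# Gluing two regions

The cells of `Y` next to `Z` are emptied, the bad cells of a layer are emptied, and the remaining
contents of `Y` near `Z` are moved so that they respect the far field exclusion with `Z`.
-/

set_option autoImplicit false

namespace Pool.Agent.RC

open MeasureTheory Finset

/-- Measure preserving moves of the contents of one type. -/
structure Mover {Γ E : Type} [MeasurableSpace E] (G : Gas Γ E) (Θ : Type) [MeasurableSpace Θ] where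
  ν : Measure Θ
  T : Θ → E → E
  RA : Set E
  Cl : Set E
  rg : Γ → Finset Γ
  nr : Γ → Finset Γ
  N : ℕ
  e1 : ENNReal
  prob : IsProbabilityMeasure ν
  T_meas : Measurable (Function.uncurry T)
  RA_meas : MeasurableSet RA
  Cl_meas : MeasurableSet Cl
  e0_meas : MeasurableSet {G.e0}
  e0_Cl : G.e0 ∈ Cl
  Cl_RA : Cl ⊆ RA
  pres : ∀ θ, MeasurePreserving (T θ) (G.π.restrict Cl) (G.π.restrict Cl)
  T_Cl : ∀ θ, ∀ x ∈ Cl, T θ x ∈ Cl
  st_T : ∀ i θ, ∀ x ∈ Cl, G.st i (T θ x) = G.st i x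
  nf_T : ∀ k i j θ x y, k ≤ 1 → x ∈ Cl → G.nf (k + 1) i j x y → G.nf k i j (T θ x) y
  far_rg : ∀ i j x y, j ∉ rg i → G.far i j x y
  nf_nr : ∀ k i j x y, k ≤ 2 → j ∉ nr i → G.nf k i j x y
  rg_symm : ∀ i j, j ∈ rg i → i ∈ rg j
  nr_symm : ∀ i j, j ∈ nr i → i ∈ nr j
  card_rg : ∀ i, (rg i).card ≤ N
  far_T : ∀ i, ∀ j ∈ rg i, i ≠ j → ∀ x ∈ Cl, ∀ y ∈ RA, ν {θ | ¬ G.far i j (T θ x) y} ≤ e1

namespace Mover

variable {Γ E Θ : Type} [DecidableEq Γ] [MeasurableSpace E] [MeasurableSpace Θ] {G : Gas Γ E}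
  (M : Mover G Θ)

/-- The cells of `Y` which are emptied. -/
def NN (Y Z : Finset Γ) : Finset Γ := Y.filter fun i => (M.nr i ∩ Z).Nonempty

/-- The cells of `Y` whose contents are moved. -/
def JJ (Y Z : Finset Γ) : Finset Γ :=
  Y.filter fun i => ¬ (M.nr i ∩ Z).Nonempty ∧ (M.rg i ∩ Z).Nonempty

/-- The other cells whose contents have to be of the right type. -/
def LL (Y Z : Finset Γ) : Finset Γ :=
  (Y ∪ Z).filter fun l => (M.rg l ∩ M.JJ Y Z).Nonempty

theorem mem_NN {Y Z : Finset Γ} {i : Γ} : i ∈ M.NN Y Z ↔ i ∈ Y ∧ (M.nr i ∩ Z).Nonempty :=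
  mem_filter

theorem mem_JJ {Y Z : Finset Γ} {i : Γ} :
    i ∈ M.JJ Y Z ↔ i ∈ Y ∧ ¬ (M.nr i ∩ Z).Nonempty ∧ (M.rg i ∩ Z).Nonempty := mem_filter

theorem mem_LL {Y Z : Finset Γ} {i : Γ} :
    i ∈ M.LL Y Z ↔ i ∈ Y ∪ Z ∧ (M.rg i ∩ M.JJ Y Z).Nonempty := mem_filter

/-- The content of a moved cell is bad. -/
def bad1 (Y : Finset Γ) (i : Γ) (ω : Γ → E) : Prop :=
  ω i ∉ M.Cl ∨ ∃ l ∈ Y, l ≠ i ∧ ¬ G.nf 2 i l (ω i) (ω l)

/-- The content of a cell has to be removed. -/
def bad (Y Z : Finset Γ) (i : Γ) (ω : Γ → E) : Prop :=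
  (i ∈ M.NN Y Z ∧ ω i ≠ G.e0) ∨ (i ∈ M.JJ Y Z ∧ M.bad1 Y i ω) ∨ (i ∈ M.LL Y Z ∧ ω i ∉ M.RA)

/-- The layer. -/
def lay (Y Z : Finset Γ) : Finset Γ := M.NN Y Z ∪ M.JJ Y Z ∪ M.LL Y Z

open Classical in
/-- The set of the cells to be emptied. -/
noncomputable def Bd (Y Z : Finset Γ) (ω : Γ → E) : Finset Γ :=
  (M.lay Y Z).filter fun i => M.bad Y Z i ω

theorem lay_subset (Y Z : Finset Γ) : M.lay Y Z ⊆ Y ∪ Z := by
  intro i hi
  unfold lay at hi
  rw [mem_union, mem_union] at hi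
  rcases hi with (h | h) | h
  · exact mem_union_left _ (M.mem_NN.1 h).1
  · exact mem_union_left _ (M.mem_JJ.1 h).1
  · exact (M.mem_LL.1 h).1

theorem Bd_subset (Y Z : Finset Γ) (ω : Γ → E) : M.Bd Y Z ω ⊆ M.lay Y Z := by
  classical
  unfold Bd
  exact filter_subset _ _

theorem mem_Bd {Y Z : Finset Γ} {ω : Γ → E} {i : Γ} : i ∈ M.Bd Y Z ω ↔ M.bad Y Z i ω := by
  classical
  unfold Bd
  rw [mem_filter]
  refine ⟨fun h => h.2, fun h => ⟨?_, h⟩⟩
  unfold lay
  rw [mem_union, mem_union]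
  rcases h with h | h | h
  · exact Or.inl (Or.inl h.1)
  · exact Or.inl (Or.inr h.1)
  · exact Or.inr h.1

/-- No bad cells. -/
def clean (Y Z : Finset Γ) (ω : Γ → E) : Prop := ∀ i, ¬ M.bad Y Z i ω

theorem nf_emp (U : Finset Γ) {k : ℕ} {i j : Γ} {ω : Γ → E} (h : G.nf k i j (ω i) (ω j)) :
    G.nf k i j (emp G.e0 U ω i) (emp G.e0 U ω j) := by
  by_cases hi : i ∈ U
  · rw [emp_of_mem hi]
    exact G.nf_e0 _ _ _ _
  · by_cases hj : j ∈ U
    · rw [emp_of_mem hj]
      exact G.nf_e0' _ _ _ _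
    · rw [emp_of_not hi, emp_of_not hj]
      exact h

theorem far_emp (U : Finset Γ) {i j : Γ} {ω : Γ → E} (h : G.far i j (ω i) (ω j)) :
    G.far i j (emp G.e0 U ω i) (emp G.e0 U ω j) := by
  by_cases hi : i ∈ U
  · rw [emp_of_mem hi]
    exact G.far_e0 _ _ _
  · by_cases hj : j ∈ U
    · rw [emp_of_mem hj]
      exact G.far_e0' _ _ _
    · rw [emp_of_not hi, emp_of_not hj]
      exact h

theorem clean_emp (Y Z : Finset Γ) (ω : Γ → E) : M.clean Y Z (emp G.e0 (M.Bd Y Z ω) ω) := by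
  intro i hi
  by_cases hB : i ∈ M.Bd Y Z ω
  · -- an empty cell is not bad
    rcases hi with h | h | h
    · exact h.2 (emp_of_mem hB)
    · rcases h.2 with h1 | ⟨l, -, -, h1⟩
      · rw [emp_of_mem hB] at h1
        exact h1 M.e0_Cl
      · rw [emp_of_mem hB] at h1
        exact h1 (G.nf_e0 _ _ _ _)
    · have h1 := h.2
      rw [emp_of_mem hB] at h1
      exact h1 (M.Cl_RA M.e0_Cl)
  · have hn : ¬ M.bad Y Z i ω := fun h => hB (M.mem_Bd.2 h)
    apply hn
    rcases hi with h | h | h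
    · refine Or.inl ⟨h.1, ?_⟩
      have h1 := h.2
      rwa [emp_of_not hB] at h1
    · refine Or.inr (Or.inl ⟨h.1, ?_⟩)
      rcases h.2 with h1 | ⟨l, hl, hli, h1⟩
      · left
        rwa [emp_of_not hB] at h1
      · right
        exact ⟨l, hl, hli, fun h2 => h1 (nf_emp _ h2)⟩
    · refine Or.inr (Or.inr ⟨h.1, ?_⟩)
      have h1 := h.2
      rwa [emp_of_not hB] at h1

/-- Emptying cells. -/
theorem w_le_emp (A U : Finset Γ) (ω : Γ → E) :
    G.w A ω ≤ (∏ i ∈ A ∩ U, G.st i (ω i)) * G.w A (emp G.e0 U ω) := by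
  by_cases h : G.ok A ω
  · have h1 : G.ok A (emp G.e0 U ω) := fun i hi j hj hij =>
      ⟨nf_emp U (h i hi j hj hij).1, far_emp U (h i hi j hj hij).2⟩
    rw [G.w_of_ok h, G.w_of_ok h1]
    have h2 : ∏ i ∈ A, G.st i (ω i) = (∏ i ∈ A ∩ U, G.st i (ω i)) *
        ∏ i ∈ A, G.st i (emp G.e0 U ω i) := by
      have h3 : ∏ i ∈ A, G.st i (emp G.e0 U ω i) = ∏ i ∈ A \ U, G.st i (ω i) := by
        rw [← prod_inter_mul_prod_sdiff A U fun i => G.st i (emp G.e0 U ω i)]
        have h4 : ∏ i ∈ A ∩ U, G.st i (emp G.e0 U ω i) = 1 := by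
          refine prod_eq_one fun i hi => ?_
          rw [emp_of_mem (mem_inter.1 hi).2, G.st_e0]
        rw [h4, one_mul]
        refine prod_congr rfl fun i hi => ?_
        rw [emp_of_not (mem_sdiff.1 hi).2]
      rw [h3, prod_inter_mul_prod_sdiff]
    exact h2.le
  · rw [G.w_of_not h]
    exact zero_le

/-! ### The sequence of the integrands -/

/-- The integrand after the cells of `D` have been moved. -/
def St (Y Z D : Finset Γ) (ω : Γ → E) : Prop :=
  (∀ i ∈ Y, ∀ l ∈ Y, i ≠ l → G.far i l (ω i) (ω l) ∧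
    G.nf ((if i ∈ M.JJ Y Z ∧ i ∉ D then 1 else 0) + (if l ∈ M.JJ Y Z ∧ l ∉ D then 1 else 0)) i l
      (ω i) (ω l)) ∧
  G.ok Z ω ∧ (∀ i ∈ M.NN Y Z, ω i = G.e0) ∧ (∀ i ∈ M.JJ Y Z, ω i ∈ M.Cl) ∧
  (∀ l ∈ M.LL Y Z, ω l ∈ M.RA) ∧ (∀ i ∈ D, ∀ l ∈ Z, G.far i l (ω i) (ω l))

open Classical in
/-- The weight after the cells of `D` have been moved. -/
noncomputable def FD (Y Z D : Finset Γ) (ω : Γ → E) : ENNReal :=
  (∏ i ∈ Y ∪ Z, G.st i (ω i)) * if M.St Y Z D ω then 1 else 0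

theorem measurableSet_St (Y Z D : Finset Γ) : MeasurableSet {ω : Γ → E | M.St Y Z D ω} := by
  have e : {ω : Γ → E | M.St Y Z D ω} =
      (⋂ i ∈ Y, ⋂ l ∈ Y, {ω : Γ → E | i ≠ l → G.far i l (ω i) (ω l) ∧
        G.nf ((if i ∈ M.JJ Y Z ∧ i ∉ D then 1 else 0) +
          (if l ∈ M.JJ Y Z ∧ l ∉ D then 1 else 0)) i l (ω i) (ω l)}) ∩
      ({ω : Γ → E | G.ok Z ω} ∩ ((⋂ i ∈ M.NN Y Z, {ω : Γ → E | ω i = G.e0}) ∩
      ((⋂ i ∈ M.JJ Y Z, {ω : Γ → E | ω i ∈ M.Cl}) ∩
      ((⋂ l ∈ M.LL Y Z, {ω : Γ → E | ω l ∈ M.RA}) ∩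
      (⋂ i ∈ D, ⋂ l ∈ Z, {ω : Γ → E | G.far i l (ω i) (ω l)}))))) := by
    ext ω
    simp only [St, Set.mem_ofPred_eq, Set.mem_inter_iff, Set.mem_iInter]
  rw [e]
  refine (Finset.measurableSet_biInter _ fun i _ => Finset.measurableSet_biInter _ fun l _ => ?_).inter
    ((G.measurableSet_ok Z).inter ((Finset.measurableSet_biInter _ fun i _ => ?_).inter
    ((Finset.measurableSet_biInter _ fun i _ => ?_).inter
    ((Finset.measurableSet_biInter _ fun l _ => ?_).inter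
    (Finset.measurableSet_biInter _ fun i _ => Finset.measurableSet_biInter _ fun l _ => ?_)))))
  · by_cases h : i = l
    · have : {ω : Γ → E | i ≠ l → G.far i l (ω i) (ω l) ∧
          G.nf ((if i ∈ M.JJ Y Z ∧ i ∉ D then 1 else 0) +
            (if l ∈ M.JJ Y Z ∧ l ∉ D then 1 else 0)) i l (ω i) (ω l)} = Set.univ := by
        ext ω
        simp [h]
      rw [this]
      exact MeasurableSet.univ
    · have : {ω : Γ → E | i ≠ l → G.far i l (ω i) (ω l) ∧
          G.nf ((if i ∈ M.JJ Y Z ∧ i ∉ D then 1 else 0) +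
            (if l ∈ M.JJ Y Z ∧ l ∉ D then 1 else 0)) i l (ω i) (ω l)} =
          {ω : Γ → E | G.far i l (ω i) (ω l)} ∩ {ω : Γ → E |
          G.nf ((if i ∈ M.JJ Y Z ∧ i ∉ D then 1 else 0) +
            (if l ∈ M.JJ Y Z ∧ l ∉ D then 1 else 0)) i l (ω i) (ω l)} := by
        ext ω
        simp [h]
      rw [this]
      exact (G.measurableSet_far i l i l).inter (G.measurableSet_nf _ i l i l)
  · have h : Measurable fun ω : Γ → E => ω i := measurable_pi_apply i
    exact h M.e0_meas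
  · have h : Measurable fun ω : Γ → E => ω i := measurable_pi_apply i
    exact h M.Cl_meas
  · have h : Measurable fun ω : Γ → E => ω l := measurable_pi_apply l
    exact h M.RA_meas
  · exact G.measurableSet_far i l i l

theorem FD_eq (Y Z D : Finset Γ) : M.FD Y Z D =
    {ω | M.St Y Z D ω}.indicator fun ω => ∏ i ∈ Y ∪ Z, G.st i (ω i) := by
  funext ω
  unfold FD
  by_cases h : M.St Y Z D ω
  · rw [if_pos h, mul_one, Set.indicator_of_mem (show ω ∈ {ω | M.St Y Z D ω} from h)]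
  · rw [if_neg h, mul_zero, Set.indicator_of_notMem (show ω ∉ {ω | M.St Y Z D ω} from h)]

theorem measurable_FD (Y Z D : Finset Γ) : Measurable (M.FD Y Z D) := by
  rw [FD_eq]
  exact (G.measurable_stp _).indicator (M.measurableSet_St Y Z D)

theorem FD_of {Y Z D : Finset Γ} {ω : Γ → E} (h : M.St Y Z D ω) :
    M.FD Y Z D ω = ∏ i ∈ Y ∪ Z, G.st i (ω i) := by
  rw [FD_eq, Set.indicator_of_mem (show ω ∈ {ω | M.St Y Z D ω} from h)]

theorem FD_of_not {Y Z D : Finset Γ} {ω : Γ → E} (h : ¬ M.St Y Z D ω) : M.FD Y Z D ω = 0 := by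
  rw [FD_eq, Set.indicator_of_notMem (show ω ∉ {ω | M.St Y Z D ω} from h)]

/-- The union bound over the neighbours. -/
theorem good_measure {Y Z : Finset Γ} {ω : Γ → E} {j : Γ} {x : E} (hx : x ∈ M.Cl)
    (hRA : ∀ l ∈ Y ∪ Z, l ∈ M.rg j → l ≠ j → ω l ∈ M.RA) :
    1 - M.N * M.e1 ≤ M.ν {θ | ∀ l ∈ Y ∪ Z, l ≠ j → G.far j l (M.T θ x) (ω l)} := by
  classical
  have := M.prob
  rw [tsub_le_iff_right]
  have h1 : (Set.univ : Set Θ) ⊆ {θ | ∀ l ∈ Y ∪ Z, l ≠ j → G.far j l (M.T θ x) (ω l)} ∪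
      ⋃ l ∈ (M.rg j).filter (fun l => l ∈ Y ∪ Z ∧ l ≠ j), {θ | ¬ G.far j l (M.T θ x) (ω l)} := by
    intro θ _
    by_cases h : ∀ l ∈ Y ∪ Z, l ≠ j → G.far j l (M.T θ x) (ω l)
    · exact Or.inl h
    · right
      push Not at h
      obtain ⟨l, hl, hlj, hf⟩ := h
      have hlr : l ∈ M.rg j := by
        by_contra hcon
        exact hf (M.far_rg _ _ _ _ hcon)
      simp only [Set.mem_iUnion]
      exact ⟨l, mem_filter.2 ⟨hlr, hl, hlj⟩, hf⟩
  calc (1 : ENNReal) = M.ν Set.univ := measure_univ.symm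
    _ ≤ M.ν {θ | ∀ l ∈ Y ∪ Z, l ≠ j → G.far j l (M.T θ x) (ω l)} +
        M.ν (⋃ l ∈ (M.rg j).filter (fun l => l ∈ Y ∪ Z ∧ l ≠ j),
          {θ | ¬ G.far j l (M.T θ x) (ω l)}) :=
        (measure_mono h1).trans (measure_union_le _ _)
    _ ≤ M.ν {θ | ∀ l ∈ Y ∪ Z, l ≠ j → G.far j l (M.T θ x) (ω l)} + M.N * M.e1 := by
        refine add_le_add le_rfl ((measure_biUnion_finset_le _ _).trans ?_)
        have h2 : ∀ l ∈ (M.rg j).filter (fun l => l ∈ Y ∪ Z ∧ l ≠ j),
            M.ν {θ | ¬ G.far j l (M.T θ x) (ω l)} ≤ M.e1 := by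
          intro l hl
          rw [mem_filter] at hl
          exact M.far_T j l hl.1 (Ne.symm hl.2.2) x hx (ω l) (hRA l hl.2.1 hl.1 hl.2.2)
        refine (sum_le_sum h2).trans ?_
        rw [sum_const, nsmul_eq_mul]
        refine mul_le_mul_left ?_ _
        exact_mod_cast (card_filter_le _ _).trans (M.card_rg j)

/-- **One step.** -/
theorem FD_step {Y Z D : Finset Γ} {j : Γ} (hYZ : Disjoint Y Z) (hj : j ∈ M.JJ Y Z)
    (hjD : j ∉ D) (ω : Γ → E) :
    (1 - M.N * M.e1) * ∫⁻ x, M.FD Y Z D (Function.update ω j x) ∂G.π ≤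
      ∫⁻ x, M.FD Y Z (insert j D) (Function.update ω j x) ∂G.π := by
  classical
  have := M.prob
  have := G.π_fin
  have hjY : j ∈ Y := (M.mem_JJ.1 hj).1
  have hjZ : j ∉ Z := fun h => (disjoint_left.1 hYZ) hjY h
  have hjN : j ∉ M.NN Y Z := fun h => (M.mem_JJ.1 hj).2.1 (M.mem_NN.1 h).2
  have hc : (1 - M.N * M.e1) ≠ ⊤ := ne_top_of_le_ne_top ENNReal.one_ne_top tsub_le_self
  have hF : Measurable fun x : E => M.FD Y Z D (Function.update ω j x) :=
    (M.measurable_FD Y Z D).comp (measurable_update ω (a := j))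
  have hF' : Measurable fun x : E => M.FD Y Z (insert j D) (Function.update ω j x) :=
    (M.measurable_FD Y Z (insert j D)).comp (measurable_update ω (a := j))
  -- outside `Cl` the left side vanishes
  have h1 : ∫⁻ x, M.FD Y Z D (Function.update ω j x) ∂G.π =
      ∫⁻ x in M.Cl, 1 * M.FD Y Z D (Function.update ω j x) ∂G.π := by
    rw [← lintegral_indicator M.Cl_meas]
    refine lintegral_congr fun x => ?_
    by_cases hx : x ∈ M.Cl
    · rw [Set.indicator_of_mem hx, one_mul]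
    · rw [Set.indicator_of_notMem hx]
      refine M.FD_of_not fun h => hx ?_
      have := h.2.2.2.1 j hj
      rwa [Function.update_self] at this
  have h2 : ∫⁻ x in M.Cl, 1 * M.FD Y Z (insert j D) (Function.update ω j x) ∂G.π ≤
      ∫⁻ x, M.FD Y Z (insert j D) (Function.update ω j x) ∂G.π := by
    simp only [one_mul]
    exact setLIntegral_le_lintegral _ _
  rw [h1]
  refine le_trans ?_ h2
  refine shift_avg G.π M.ν M.T_meas M.Cl_meas M.pres (g := fun _ => 1) measurable_const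
    (fun _ _ _ => rfl) hF' hc fun x hx => ?_
  by_cases hS : M.St Y Z D (Function.update ω j x)
  · rw [M.FD_of hS]
    obtain ⟨hS1, hS2, hS3, hS4, hS5, hS6⟩ := hS
    -- the neighbours are of the right type
    have hRA : ∀ l ∈ Y ∪ Z, l ∈ M.rg j → l ≠ j → ω l ∈ M.RA := by
      intro l hl hlj hne
      have h3 : l ∈ M.LL Y Z := by
        rw [M.mem_LL]
        exact ⟨hl, j, mem_inter.2 ⟨M.rg_symm j l hlj, hj⟩⟩
      have h4 := hS5 l h3
      rwa [Function.update_of_ne hne] at h4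
    have hgood := M.good_measure (Y := Y) (Z := Z) (ω := ω) hx hRA
    -- the good maps
    have h3 : ∀ θ, (∀ l ∈ Y ∪ Z, l ≠ j → G.far j l (M.T θ x) (ω l)) →
        M.FD Y Z (insert j D) (Function.update ω j (M.T θ x)) =
          ∏ i ∈ Y ∪ Z, G.st i (Function.update ω j x i) := by
      intro θ hθ
      have hSt : M.St Y Z (insert j D) (Function.update ω j (M.T θ x)) := by
        refine ⟨?_, ?_, ?_, ?_, ?_, ?_⟩
        · intro i hi l hl hil
          obtain ⟨h4, h5⟩ := hS1 i hi l hl hil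
          by_cases hij : i = j
          · subst hij
            have hli : l ≠ i := Ne.symm hil
            rw [Function.update_self, Function.update_of_ne hli] at h4 h5 ⊢
            refine ⟨hθ l (mem_union_left _ hl) hli, ?_⟩
            rw [if_pos ⟨hj, hjD⟩] at h5
            rw [if_neg (fun h => h.2 (mem_insert_self i D)), zero_add]
            have e1 : (if l ∈ M.JJ Y Z ∧ l ∉ insert i D then 1 else 0) =
                (if l ∈ M.JJ Y Z ∧ l ∉ D then 1 else 0) := by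
              simp [hli]
            rw [e1]
            refine M.nf_T _ i l θ x (ω l) ?_ hx ?_
            · split_ifs <;> omega
            · rw [add_comm]
              exact h5
          · by_cases hlj : l = j
            · subst hlj
              rw [Function.update_self, Function.update_of_ne hij] at h4 h5 ⊢
              refine ⟨G.far_symm _ _ _ _ (hθ i (mem_union_left _ hi) hij), ?_⟩
              rw [if_pos (show l ∈ M.JJ Y Z ∧ l ∉ D from ⟨hj, hjD⟩)] at h5
              rw [if_neg (show ¬ (l ∈ M.JJ Y Z ∧ l ∉ insert l D) from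
                fun h => h.2 (mem_insert_self l D)), add_zero]
              have e1 : (if i ∈ M.JJ Y Z ∧ i ∉ insert l D then 1 else 0) =
                  (if i ∈ M.JJ Y Z ∧ i ∉ D then 1 else 0) := by
                simp [hij]
              rw [e1]
              refine G.nf_symm _ _ _ _ _ (M.nf_T _ l i θ x (ω i) ?_ hx (G.nf_symm _ _ _ _ _ h5))
              split_ifs <;> omega
            · rw [Function.update_of_ne hij, Function.update_of_ne hlj] at h4 h5 ⊢
              refine ⟨h4, ?_⟩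
              have e1 : (if i ∈ M.JJ Y Z ∧ i ∉ insert j D then 1 else 0) =
                  (if i ∈ M.JJ Y Z ∧ i ∉ D then 1 else 0) := by
                simp [hij]
              have e2 : (if l ∈ M.JJ Y Z ∧ l ∉ insert j D then 1 else 0) =
                  (if l ∈ M.JJ Y Z ∧ l ∉ D then 1 else 0) := by
                simp [hlj]
              rw [e1, e2]
              exact h5
        · intro i hi l hl hil
          have hij : i ≠ j := fun h => hjZ (h ▸ hi)
          have hlj : l ≠ j := fun h => hjZ (h ▸ hl)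
          have h4 := hS2 i hi l hl hil
          rw [Function.update_of_ne hij, Function.update_of_ne hlj] at h4 ⊢
          exact h4
        · intro i hi
          have hij : i ≠ j := fun h => hjN (h ▸ hi)
          have h4 := hS3 i hi
          rw [Function.update_of_ne hij] at h4 ⊢
          exact h4
        · intro i hi
          by_cases hij : i = j
          · subst hij
            rw [Function.update_self]
            exact M.T_Cl θ x hx
          · have h4 := hS4 i hi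
            rw [Function.update_of_ne hij] at h4 ⊢
            exact h4
        · intro l hl
          by_cases hlj : l = j
          · subst hlj
            rw [Function.update_self]
            exact M.Cl_RA (M.T_Cl θ x hx)
          · have h4 := hS5 l hl
            rw [Function.update_of_ne hlj] at h4 ⊢
            exact h4
        · intro i hi l hl
          have hlj : l ≠ j := fun h => hjZ (h ▸ hl)
          rcases mem_insert.1 hi with h4 | h4
          · subst h4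
            rw [Function.update_self, Function.update_of_ne hlj]
            exact hθ l (mem_union_right _ hl) hlj
          · have hij : i ≠ j := fun h => hjD (h ▸ h4)
            have h5 := hS6 i h4 l hl
            rw [Function.update_of_ne hij, Function.update_of_ne hlj] at h5 ⊢
            exact h5
      rw [M.FD_of hSt]
      refine prod_congr rfl fun i _ => ?_
      by_cases hij : i = j
      · subst hij
        rw [Function.update_self, Function.update_self]
        exact M.st_T i θ x hx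
      · rw [Function.update_of_ne hij, Function.update_of_ne hij]
    -- the average
    set A : Set Θ := {θ | ∀ l ∈ Y ∪ Z, l ≠ j → G.far j l (M.T θ x) (ω l)} with hA
    set P : ENNReal := ∏ i ∈ Y ∪ Z, G.st i (Function.update ω j x i) with hP
    have hmT : Measurable fun θ : Θ => M.FD Y Z (insert j D) (Function.update ω j (M.T θ x)) :=
      hF'.comp (M.T_meas.comp (measurable_id.prodMk measurable_const))
    have h4 := mul_meas_ge_le_lintegral (μ := M.ν) hmT P
    refine le_trans ?_ h4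
    rw [mul_comm]
    refine mul_le_mul_right (hgood.trans (measure_mono fun θ hθ => ?_)) P
    exact (h3 θ hθ).ge
  · rw [M.FD_of_not hS, mul_zero]
    exact zero_le

/-- All steps. -/
theorem FD_all {Y Z : Finset Γ} (hYZ : Disjoint Y Z) (ω0 : Γ → E) :
    (1 - M.N * M.e1) ^ (M.JJ Y Z).card *
      lmarginal (fun _ : Γ => G.π) (Y ∪ Z) (M.FD Y Z ∅) ω0 ≤
        lmarginal (fun _ : Γ => G.π) (Y ∪ Z) (M.FD Y Z (M.JJ Y Z)) ω0 := by
  have := G.π_fin
  have key : ∀ D : Finset Γ, D ⊆ M.JJ Y Z → (1 - M.N * M.e1) ^ D.card *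
      lmarginal (fun _ : Γ => G.π) (Y ∪ Z) (M.FD Y Z ∅) ω0 ≤
        lmarginal (fun _ : Γ => G.π) (Y ∪ Z) (M.FD Y Z D) ω0 := by
    intro D
    induction D using Finset.induction_on with
    | empty =>
      intro _
      rw [card_empty, pow_zero, one_mul]
    | insert j D hjD ih =>
      intro hD
      have hj : j ∈ M.JJ Y Z := hD (mem_insert_self j D)
      have hDJ : D ⊆ M.JJ Y Z := fun i hi => hD (mem_insert_of_mem hi)
      have h1 := shift_step G.π (A := Y ∪ Z) (mem_union_left _ (M.mem_JJ.1 hj).1)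
        (M.measurable_FD Y Z D) (M.measurable_FD Y Z (insert j D))
        (fun ω => M.FD_step hYZ hj hjD ω) ω0
      rw [card_insert_of_notMem hjD, pow_succ]
      calc (1 - M.N * M.e1) ^ D.card * (1 - M.N * M.e1) *
            lmarginal (fun _ : Γ => G.π) (Y ∪ Z) (M.FD Y Z ∅) ω0
          = (1 - M.N * M.e1) * ((1 - M.N * M.e1) ^ D.card *
            lmarginal (fun _ : Γ => G.π) (Y ∪ Z) (M.FD Y Z ∅) ω0) := by ring
        _ ≤ (1 - M.N * M.e1) * lmarginal (fun _ : Γ => G.π) (Y ∪ Z) (M.FD Y Z D) ω0 :=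
            mul_le_mul_right (ih hDJ) _
        _ ≤ _ := h1
  exact key _ (Finset.Subset.refl _)

/-- At the end the configuration is compatible. -/
theorem FD_le_w {Y Z : Finset Γ} (ω : Γ → E) :
    M.FD Y Z (M.JJ Y Z) ω ≤ G.w (Y ∪ Z) ω := by
  by_cases h : M.St Y Z (M.JJ Y Z) ω
  · rw [M.FD_of h]
    obtain ⟨hS1, hS2, hS3, hS4, hS5, hS6⟩ := h
    have cross : ∀ i ∈ Y, ∀ l ∈ Z, G.nf 0 i l (ω i) (ω l) ∧ G.far i l (ω i) (ω l) := by
      intro i hi l hl
      by_cases hN : (M.nr i ∩ Z).Nonempty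
      · rw [hS3 i (M.mem_NN.2 ⟨hi, hN⟩)]
        exact ⟨G.nf_e0 _ _ _ _, G.far_e0 _ _ _⟩
      · constructor
        · refine M.nf_nr 0 i l _ _ (by omega) fun h => hN ⟨l, mem_inter.2 ⟨h, hl⟩⟩
        · by_cases hr : (M.rg i ∩ Z).Nonempty
          · exact hS6 i (M.mem_JJ.2 ⟨hi, hN, hr⟩) l hl
          · exact M.far_rg i l _ _ fun h => hr ⟨l, mem_inter.2 ⟨h, hl⟩⟩
    have hok : G.ok (Y ∪ Z) ω := by
      intro i hi l hl hil
      rcases mem_union.1 hi with hi | hi <;> rcases mem_union.1 hl with hl | hl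
      · exact ⟨G.nf_le (Nat.zero_le _) (hS1 i hi l hl hil).2, (hS1 i hi l hl hil).1⟩
      · exact cross i hi l hl
      · have h1 := cross l hl i hi
        exact ⟨G.nf_symm _ _ _ _ _ h1.1, G.far_symm _ _ _ _ h1.2⟩
      · exact hS2 i hi l hl hil
    rw [G.w_of_ok hok]
  · rw [M.FD_of_not h]
    exact zero_le

/-- A clean configuration. -/
theorem w_clean_le {Y Z : Finset Γ} (hYZ : Disjoint Y Z) {ω : Γ → E} (hc : M.clean Y Z ω) :
    G.w Y ω * G.w Z ω ≤ M.FD Y Z ∅ ω := by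
  by_cases hY : G.ok Y ω
  · by_cases hZ : G.ok Z ω
    · have hS : M.St Y Z ∅ ω := by
        have hJ2 : ∀ i ∈ M.JJ Y Z, ∀ l ∈ Y, l ≠ i → G.nf 2 i l (ω i) (ω l) := by
          intro i hi l hl hli
          by_contra hcon
          exact hc i (Or.inr (Or.inl ⟨hi, Or.inr ⟨l, hl, hli, hcon⟩⟩))
        refine ⟨?_, hZ, ?_, ?_, ?_, ?_⟩
        · intro i hi l hl hil
          refine ⟨(hY i hi l hl hil).2, ?_⟩
          by_cases h1 : i ∈ M.JJ Y Z
          · refine G.nf_le ?_ (hJ2 i h1 l hl (Ne.symm hil))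
            split_ifs <;> omega
          · by_cases h2 : l ∈ M.JJ Y Z
            · refine G.nf_le ?_ (G.nf_symm _ _ _ _ _ (hJ2 l h2 i hi hil))
              split_ifs <;> omega
            · rw [if_neg (fun h => h1 h.1), if_neg (fun h => h2 h.1)]
              exact (hY i hi l hl hil).1
        · intro i hi
          by_contra hcon
          exact hc i (Or.inl ⟨hi, hcon⟩)
        · intro i hi
          by_contra hcon
          exact hc i (Or.inr (Or.inl ⟨hi, Or.inl hcon⟩))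
        · intro i hi
          by_contra hcon
          exact hc i (Or.inr (Or.inr ⟨hi, hcon⟩))
        · intro i hi
          exact absurd hi (notMem_empty i)
      rw [M.FD_of hS, G.w_of_ok hY, G.w_of_ok hZ, prod_union hYZ]
    · rw [G.w_of_not hZ, mul_zero]
      exact zero_le
  · rw [G.w_of_not hY, zero_mul]
    exact zero_le

/-- **Gluing two regions.** -/
theorem glue {Y Z : Finset Γ} (hYZ : Disjoint Y Z) {K : ENNReal} (hK1 : K ≠ 0) (hK2 : K ≠ ⊤)
    (hK : ∀ i, ∫⁻ x, G.st i x ∂G.π ≤ K) (ω0 : Γ → E) :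
    (1 - M.N * M.e1) ^ (M.JJ Y Z).card * lmarginal (fun _ : Γ => G.π) (Y ∪ Z)
      (fun ω => G.w Y ω * G.w Z ω * K⁻¹ ^ (M.Bd Y Z ω).card) ω0 ≤
      2 ^ (M.lay Y Z).card * lmarginal (fun _ : Γ => G.π) (Y ∪ Z) (G.w (Y ∪ Z)) ω0 := by
  have := G.π_fin
  have h1 : lmarginal (fun _ : Γ => G.π) (Y ∪ Z)
      (fun ω => G.w Y ω * G.w Z ω * K⁻¹ ^ (M.Bd Y Z ω).card) ω0 ≤
      2 ^ (M.lay Y Z).card * lmarginal (fun _ : Γ => G.π) (Y ∪ Z) (M.FD Y Z ∅) ω0 := by
    refine G.delete (M.measurable_FD Y Z ∅) hK1 hK2 hK (M.lay_subset Y Z) (M.Bd Y Z)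
      (fun ω => M.Bd_subset Y Z ω) (fun ω => ?_) ω0
    have h2 := w_le_emp (G := G) Y (M.Bd Y Z ω) ω
    have h3 := w_le_emp (G := G) Z (M.Bd Y Z ω) ω
    have h4 := M.w_clean_le hYZ (M.clean_emp Y Z ω)
    have hBsub : M.Bd Y Z ω ⊆ Y ∪ Z := (M.Bd_subset Y Z ω).trans (M.lay_subset Y Z)
    have h5 : (∏ i ∈ Y ∩ M.Bd Y Z ω, G.st i (ω i)) * ∏ i ∈ Z ∩ M.Bd Y Z ω, G.st i (ω i) =
        ∏ i ∈ M.Bd Y Z ω, G.st i (ω i) := by
      rw [← prod_union]
      · congr 1
        rw [← union_inter_distrib_right, inter_eq_right]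
        exact hBsub
      · exact (hYZ.mono inter_subset_left inter_subset_left)
    unfold Gas.del
    calc G.w Y ω * G.w Z ω ≤ ((∏ i ∈ Y ∩ M.Bd Y Z ω, G.st i (ω i)) *
          G.w Y (emp G.e0 (M.Bd Y Z ω) ω)) * ((∏ i ∈ Z ∩ M.Bd Y Z ω, G.st i (ω i)) *
          G.w Z (emp G.e0 (M.Bd Y Z ω) ω)) := mul_le_mul' h2 h3
      _ = (∏ i ∈ M.Bd Y Z ω, G.st i (ω i)) * (G.w Y (emp G.e0 (M.Bd Y Z ω) ω) *
          G.w Z (emp G.e0 (M.Bd Y Z ω) ω)) := by rw [← h5]; ring
      _ ≤ _ := mul_le_mul_right h4 _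
  have h2 := M.FD_all hYZ ω0
  have h3 : lmarginal (fun _ : Γ => G.π) (Y ∪ Z) (M.FD Y Z (M.JJ Y Z)) ω0 ≤
      lmarginal (fun _ : Γ => G.π) (Y ∪ Z) (G.w (Y ∪ Z)) ω0 :=
    lmarginal_mono (fun ω => M.FD_le_w ω) ω0
  calc (1 - M.N * M.e1) ^ (M.JJ Y Z).card * lmarginal (fun _ : Γ => G.π) (Y ∪ Z)
        (fun ω => G.w Y ω * G.w Z ω * K⁻¹ ^ (M.Bd Y Z ω).card) ω0
      ≤ (1 - M.N * M.e1) ^ (M.JJ Y Z).card * (2 ^ (M.lay Y Z).card *
        lmarginal (fun _ : Γ => G.π) (Y ∪ Z) (M.FD Y Z ∅) ω0) := mul_le_mul_right h1 _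
    _ = 2 ^ (M.lay Y Z).card * ((1 - M.N * M.e1) ^ (M.JJ Y Z).card *
        lmarginal (fun _ : Γ => G.π) (Y ∪ Z) (M.FD Y Z ∅) ω0) := by ring
    _ ≤ _ := mul_le_mul_right (h2.trans h3) _

end Mover

end Pool.Agent.RC
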