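import Pool.Agent.Lib.MP_09cbbd_rc.IntK

/-!
# Rows and columns: the integer part of the body `K`, the remaining differences
-/

set_option autoImplicit false

namespace Pool.Agent.RC

namespace IPar

variable (X : IPar)

/-- the size of the central part -/
def Lg : ℤ := (2 * X.m + 4) * X.σ

def Sres (x : ℤ) : Prop := ∃ o : ℤ, (o = 0 ∨ o = X.σ ∨ o = -X.σ ∨ o = X.s) ∧ X.r ∣ x - o

def Sgrp (M x : ℤ) : Prop := ∃ κ k i c : ℤ, |κ| ≤ 2 * X.m + 1 ∧ |k| ≤ X.m ∧ |c| ≤ X.a ∧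
  |x - (κ * X.σ + k * X.N + M * X.N * i + X.n' * c)| ≤ 3 * X.n

/-- **the thin sets** -/
def S (M x : ℤ) : Prop := X.Sres x ∨ X.Sgrp M x

variable {X}

theorem Sres.neg {x : ℤ} (h : X.Sres x) : X.Sres (-x) := by
  obtain ⟨o, ho, h1⟩ := h
  have hr : X.r = 2 * X.s := rfl
  rcases ho with rfl | rfl | rfl | rfl
  · exact ⟨0, Or.inl rfl, by rw [show -x - 0 = -(x - 0) by ring]; exact (dvd_neg.mpr h1)⟩
  · exact ⟨-X.σ, Or.inr (Or.inr (Or.inl rfl)), by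
      rw [show -x - -X.σ = -(x - X.σ) by ring]; exact (dvd_neg.mpr h1)⟩
  · exact ⟨X.σ, Or.inr (Or.inl rfl), by
      rw [show -x - X.σ = -(x - -X.σ) by ring]; exact (dvd_neg.mpr h1)⟩
  · refine ⟨X.s, Or.inr (Or.inr (Or.inr rfl)), ?_⟩
    rw [show -x - X.s = -(x - X.s) - X.r by rw [hr]; ring]
    exact dvd_sub (dvd_neg.mpr h1) dvd_rfl

theorem Sgrp.neg {M x : ℤ} (h : X.Sgrp M x) : X.Sgrp M (-x) := by
  obtain ⟨κ, k, i, c, h1, h2, h3, h4⟩ := h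
  refine ⟨-κ, -k, -i, -c, by rwa [abs_neg], by rwa [abs_neg], by rwa [abs_neg], ?_⟩
  rw [← abs_neg]
  convert h4 using 2
  ring

theorem S.neg {M x : ℤ} (h : X.S M x) : X.S M (-x) := by
  rcases h with h | h
  · exact Or.inl h.neg
  · exact Or.inr h.neg

variable {d : ℕ} {G : (Fin d → ℤ) → Prop} {i₁ i₂ : Fin d}

/-- what the far differences look like -/
def Jk (X : IPar) (i₁ i₂ : Fin d) (q : Fin d → ℤ) : Prop :=
  ((∃ i : ℤ, 2 * |q i₁ - X.m * X.N * i| ≤ X.N + 10 * X.n') ∧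
    ∃ j : ℤ, 2 * |q i₂ - (X.m + 1) * X.N * j| ≤ X.N + 10 * X.n') ∨
  (X.S X.m (q i₁) ∧ X.S (X.m + 1) (q i₂))

theorem Jk.neg {q : Fin d → ℤ} (h : X.Jk i₁ i₂ q) : X.Jk i₁ i₂ (-q) := by
  rcases h with ⟨⟨i, hi⟩, ⟨j, hj⟩⟩ | ⟨h1, h2⟩
  · refine Or.inl ⟨⟨-i, ?_⟩, ⟨-j, ?_⟩⟩
    · rw [Pi.neg_apply, show -q i₁ - X.m * X.N * -i = -(q i₁ - X.m * X.N * i) by ring, abs_neg]
      exact hi
    · rw [Pi.neg_apply, show -q i₂ - (X.m + 1) * X.N * -j = -(q i₂ - (X.m + 1) * X.N * j) by ring,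
        abs_neg]
      exact hj
  · exact Or.inr ⟨h1.neg, h2.neg⟩

theorem c_le {c : ℤ} (h : 2 * |X.n' * c| ≤ X.N + 6 * X.n') : |c| ≤ X.a := by
  obtain ⟨b1, b2, b3, b4, b5, b6, b7⟩ := X.basic
  have hn' := X.n'_pos
  have ha := X.ha
  have h1 : X.N = X.a * X.n' + X.r := rfl
  rw [abs_mul, abs_of_pos hn'] at h
  by_contra h2
  have h3 : X.a + 1 ≤ |c| := by omega
  nlinarith

theorem junk_FG (hne : i₁ ≠ i₂) {κ : ℤ} {p q : Fin d → ℤ} (hp : X.PF i₁ i₂ p)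
    (hq : X.Grp G i₁ i₂ κ q) : X.Jk i₁ i₂ (p - q) := by
  obtain ⟨b1, b2, b3, b4, b5, b6, b7⟩ := X.basic
  have hn' := X.n'_pos
  have hs := X.hs
  have hrs : X.r = 2 * X.s := rfl
  have hm := X.hm
  have h0 := hq.nonneg
  obtain ⟨i, j, c₁, c₂, p1, p2, p3, p4, -⟩ := hp
  have hc₁ := c_le p2
  have hc₂ := c_le p4
  rcases hq with ⟨rfl, h | h⟩ | ⟨rfl, h⟩ | ⟨t, k, hk, h1, h2, h⟩
  · refine Or.inr ⟨Or.inr ⟨-1, 0, i, c₁, ?_, ?_, hc₁, ?_⟩, Or.inr ⟨0, 0, j, c₂, ?_, ?_, hc₂, ?_⟩⟩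
    · rw [abs_neg, abs_one]; omega
    · rw [abs_zero]; omega
    · have := h i₁
      rw [Pi.sub_apply, p1, show -X.σ + (X.m * X.N * i + X.n' * c₁) - q i₁ -
        (-1 * X.σ + 0 * X.N + X.m * X.N * i + X.n' * c₁) = -q i₁ by ring, abs_le]
      omega
    · rw [abs_zero]; omega
    · rw [abs_zero]; omega
    · have := h i₂
      rw [Pi.sub_apply, p3, show X.s + ((X.m + 1) * X.N * j + X.n' * c₂) - q i₂ -
        (0 * X.σ + 0 * X.N + (X.m + 1) * X.N * j + X.n' * c₂) = X.s - q i₂ by ring, abs_le]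
      omega
  · refine Or.inr ⟨Or.inl ⟨-X.σ, Or.inr (Or.inr (Or.inl rfl)), ?_⟩,
      Or.inl ⟨X.s, Or.inr (Or.inr (Or.inr rfl)), ?_⟩⟩
    · have e : (p - q) i₁ - -X.σ = (X.m * i) * X.N + X.n' * c₁ - q i₁ := by
        rw [Pi.sub_apply, p1]; ring
      rw [e]
      exact dvd_sub (dvd_add (X.r_dvd_N.mul_left _) (X.r_dvd_n'.mul_right _))
        (X.r_dvd_n.trans (h.1 _))
    · have e : (p - q) i₂ - X.s = ((X.m + 1) * j) * X.N + X.n' * c₂ - q i₂ := by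
        rw [Pi.sub_apply, p3]; ring
      rw [e]
      exact dvd_sub (dvd_add (X.r_dvd_N.mul_left _) (X.r_dvd_n'.mul_right _))
        (X.r_dvd_n.trans (h.1 _))
  · refine Or.inl ⟨⟨i, ?_⟩, ⟨j, ?_⟩⟩
    · have h3 := h i₁
      rw [gpos_self] at h3
      rw [Pi.sub_apply, p1, show -X.σ + (X.m * X.N * i + X.n' * c₁) - q i₁ - X.m * X.N * i =
        X.n' * c₁ - (q i₁ + X.σ) by ring]
      have h4 := abs_sub (X.n' * c₁) (q i₁ + X.σ)
      have h5 : |q i₁ + X.σ| ≤ X.n' := by rw [abs_le]; omega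
      omega
    · have h3 := h i₂
      rw [gpos_ne 1 hne.symm] at h3
      rw [Pi.sub_apply, p3, show X.s + ((X.m + 1) * X.N * j + X.n' * c₂) - q i₂ -
        (X.m + 1) * X.N * j = X.n' * c₂ - (q i₂ - X.s) by ring]
      have h4 := abs_sub (X.n' * c₂) (q i₂ - X.s)
      have h5 : |q i₂ - X.s| ≤ 2 * X.n' := by rw [abs_le]; omega
      omega
  · have hkm : k ≤ X.m := by
      cases t
      · change k < X.m + 1 at h2
        omega
      · change k < X.m at h2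
        omega
    subst hk
    have key : ∃ (k₁ k₂ : ℤ) (x : Fin d → ℤ), |k₁| ≤ X.m ∧ |k₂| ≤ X.m ∧ (∀ l, |x l| ≤ 2 * X.n) ∧
        q i₁ = -(kap t k * X.σ) + k₁ * X.N + x i₁ ∧ q i₂ = k₂ * X.N + x i₂ := by
      rcases h with rfl | ⟨x, hx1, hx2, rfl⟩
      · refine ⟨0, 0, 0, ?_, ?_, ?_, ?_, ?_⟩
        · rw [abs_zero]; omega
        · rw [abs_zero]; omega
        · intro l; rw [Pi.zero_apply, abs_zero]; omega
        · rw [gpos_self, Pi.zero_apply]; ring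
        · rw [gpos_ne _ hne.symm, Pi.zero_apply]; ring
      · refine ⟨if i₁ = ii i₁ i₂ t then k else 0, if i₂ = ii i₁ i₂ t then k else 0, x, ?_, ?_, hx1,
          ?_, ?_⟩
        · split_ifs
          · rw [abs_of_pos (by omega)]; exact hkm
          · rw [abs_zero]; omega
        · split_ifs
          · rw [abs_of_pos (by omega)]; exact hkm
          · rw [abs_zero]; omega
        · simp only [gpos_self]
          unfold ctr
          split_ifs <;> ring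
        · simp only [gpos_ne _ hne.symm]
          unfold ctr
          split_ifs <;> ring
    obtain ⟨k₁, k₂, x, hk₁, hk₂, hx, q1, q2⟩ := key
    refine Or.inr ⟨Or.inr ⟨kap t k - 1, -k₁, i, c₁, ?_, ?_, hc₁, ?_⟩,
      Or.inr ⟨0, -k₂, j, c₂, ?_, ?_, hc₂, ?_⟩⟩
    · rw [abs_le]; omega
    · rwa [abs_neg]
    · have := hx i₁
      rw [Pi.sub_apply, p1, q1, show -X.σ + (X.m * X.N * i + X.n' * c₁) -
        (-(kap t k * X.σ) + k₁ * X.N + x i₁) -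
        ((kap t k - 1) * X.σ + -k₁ * X.N + X.m * X.N * i + X.n' * c₁) = -x i₁ by ring, abs_neg]
      omega
    · rw [abs_zero]; omega
    · rwa [abs_neg]
    · have := hx i₂
      rw [Pi.sub_apply, p3, q2, show X.s + ((X.m + 1) * X.N * j + X.n' * c₂) -
        (k₂ * X.N + x i₂) -
        (0 * X.σ + -k₂ * X.N + (X.m + 1) * X.N * j + X.n' * c₂) = X.s - x i₂ by ring, abs_le]
      rw [abs_le] at this
      omega

theorem junk_FF {p q : Fin d → ℤ} (hp : X.PF i₁ i₂ p) (hq : X.PF i₁ i₂ q) :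
    X.Jk i₁ i₂ (p - q) := by
  obtain ⟨i, j, c₁, c₂, p1, p2, p3, p4, -⟩ := hp
  obtain ⟨i', j', c₁', c₂', q1, q2, q3, q4, -⟩ := hq
  refine Or.inr ⟨Or.inl ⟨0, Or.inl rfl, ?_⟩, Or.inl ⟨0, Or.inl rfl, ?_⟩⟩
  · have e : (p - q) i₁ - 0 = (X.m * (i - i')) * X.N + X.n' * (c₁ - c₁') := by
      rw [Pi.sub_apply, p1, q1]; ring
    rw [e]
    exact dvd_add (X.r_dvd_N.mul_left _) (X.r_dvd_n'.mul_right _)
  · have e : (p - q) i₂ - 0 = ((X.m + 1) * (j - j')) * X.N + X.n' * (c₂ - c₂') := by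
      rw [Pi.sub_apply, p3, q3]; ring
    rw [e]
    exact dvd_add (X.r_dvd_N.mul_left _) (X.r_dvd_n'.mul_right _)

theorem junk_BB {p q : Fin d → ℤ} (hp : X.PB G i₁ i₂ p) (hq : X.PB G i₁ i₂ q) :
    X.Jk i₁ i₂ (p - q) := by
  refine Or.inr ⟨Or.inl ⟨0, Or.inl rfl, ?_⟩, Or.inl ⟨0, Or.inl rfl, ?_⟩⟩
  · rw [sub_zero, Pi.sub_apply]
    exact X.r_dvd_n.trans (dvd_sub (hp.1 _) (hq.1 _))
  · rw [sub_zero, Pi.sub_apply]
    exact X.r_dvd_n.trans (dvd_sub (hp.1 _) (hq.1 _))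

theorem gpos1_le (j : Fin d) : |X.gpos i₁ 1 j| ≤ X.σ := by
  obtain ⟨b1, b2, b3, b4, b5, b6, b7⟩ := X.basic
  unfold gpos
  split_ifs
  · rw [one_mul, abs_neg, abs_of_nonneg (by omega)]
  · rw [abs_zero]; omega

theorem junk_GG (hne : i₁ ≠ i₂) (hρ : X.Lg ≤ X.ρ) (hG : ∀ q, G q → G (-q))
    (hGρ : ∀ q : Fin d → ℤ, (∀ j, |q j| ≤ X.ρ) → G q) {κ κ' : ℤ} {p q : Fin d → ℤ}
    (hp : X.Grp G i₁ i₂ κ p) (hq : X.Grp G i₁ i₂ κ' q)
    (hl : ∀ q', G q' → ∃ l, X.Lg < |p l - q l - q' l|) :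
    X.Jk i₁ i₂ (p - q) := by
  obtain ⟨b1, b2, b3, b4, b5, b6, b7⟩ := X.basic
  have hm := X.hm
  have e : X.Lg = (2 * X.m + 2) * X.σ + 2 * X.σ := by unfold Lg; ring
  have e2 : 6 * X.σ ≤ (2 * X.m + 2) * X.σ := mul_le_mul_of_nonneg_right (by omega) (by omega)
  rcases hp.le hne with h | h
  · rcases hq.le hne with h' | h'
    · exact junk_BB h h'
    · exfalso
      obtain ⟨q', hq', h1⟩ := h.2.2.1
      obtain ⟨l, hl⟩ := hl q' hq'
      have h0 := gpos1_le (X := X) (i₁ := i₁) l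
      have h1 := h1 l
      have h2 := h' l
      rw [abs_le] at h0 h1 h2
      rw [lt_abs] at hl
      omega
  · exfalso
    rcases hq.le hne with h' | h'
    · obtain ⟨q', hq', h1⟩ := h'.2.2.1
      obtain ⟨l, hl⟩ := hl (-q') (hG q' hq')
      have h0 := gpos1_le (X := X) (i₁ := i₁) l
      have h1 := h1 l
      have h2 := h l
      rw [Pi.neg_apply, lt_abs] at hl
      rw [abs_le] at h0 h1 h2
      omega
    · obtain ⟨q', hq'⟩ : ∃ q' : Fin d → ℤ, q' = fun l => max (-X.ρ) (min X.ρ (p l - q l)) :=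
        ⟨_, rfl⟩
      obtain ⟨l, hl⟩ := hl q' (hGρ q' fun j => by
        rw [hq', abs_le]
        simp only
        omega)
      have h1 := h l
      have h2 := h' l
      have h3 : q' l = max (-X.ρ) (min X.ρ (p l - q l)) := by rw [hq']
      rw [abs_le] at h1 h2
      rw [lt_abs, h3] at hl
      omega

/-- **The far differences.** -/
theorem junk (hne : i₁ ≠ i₂) (hρ : X.Lg ≤ X.ρ) (hG : ∀ q, G q → G (-q))
    (hGρ : ∀ q : Fin d → ℤ, (∀ j, |q j| ≤ X.ρ) → G q) {p q : Fin d → ℤ}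
    (hp : X.P G i₁ i₂ p) (hq : X.P G i₁ i₂ q)
    (hl : ∀ q', G q' → ∃ l, X.Lg < |p l - q l - q' l|) :
    X.Jk i₁ i₂ (p - q) := by
  rcases P_iff.mp hp with ⟨κ, hp⟩ | hp
  · rcases P_iff.mp hq with ⟨κ', hq⟩ | hq
    · exact junk_GG hne hρ hG hGρ hp hq hl
    · have := (junk_FG hne hq hp).neg
      rwa [neg_sub] at this
  · rcases P_iff.mp hq with ⟨κ', hq⟩ | hq
    · exact junk_FG hne hp hq
    · exact junk_FF hp hq

/-- all points of `P` are bounded -/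
theorem P.le (hne : i₁ ≠ i₂) (hρ : X.Lg ≤ X.ρ) (hρρ : X.ρ ≤ X.ρ₂)
    (hGb : ∀ q, G q → ∀ j, |q j| ≤ X.ρ₂) {p : Fin d → ℤ}
    (hp : X.P G i₁ i₂ p) (l : Fin d) : |p l| ≤ X.ρ₂ + 2 * X.σ := by
  obtain ⟨b1, b2, b3, b4, b5, b6, b7⟩ := X.basic
  have e : X.Lg = (2 * X.m + 2) * X.σ + 2 * X.σ := by unfold Lg; ring
  have h0 := gpos1_le (X := X) (i₁ := i₁) l
  have h4 := abs_add_le (p l - X.gpos i₁ 1 l) (X.gpos i₁ 1 l)
  rw [sub_add_cancel] at h4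
  rcases P_iff.mp hp with ⟨κ, hp⟩ | hp
  · rcases hp.le hne with h | h
    · obtain ⟨q', hq', h1⟩ := h.2.2.1
      have h1 := h1 l
      have h2 := hGb q' hq' l
      rw [abs_le] at h1 h2 ⊢
      omega
    · have := h l
      omega
  · obtain ⟨i, j, c₁, c₂, -, -, -, -, -, -, h⟩ := hp
    have := h l
    omega

theorem P_finite (hne : i₁ ≠ i₂) (hρ : X.Lg ≤ X.ρ) (hρρ : X.ρ ≤ X.ρ₂)
    (hGb : ∀ q, G q → ∀ j, |q j| ≤ X.ρ₂) :
    {p : Fin d → ℤ | X.P G i₁ i₂ p}.Finite := by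
  refine (Set.finite_Icc (fun _ : Fin d => -(X.ρ₂ + 2 * X.σ))
    (fun _ : Fin d => X.ρ₂ + 2 * X.σ)).subset fun p hp => ?_
  refine ⟨fun l => ?_, fun l => ?_⟩
  · have := P.le hne hρ hρρ hGb hp l
    rw [abs_le] at this
    exact this.1
  · have := P.le hne hρ hρρ hGb hp l
    rw [abs_le] at this
    exact this.2

theorem P_zero : X.P G i₁ i₂ 0 := by
  refine Or.inl fun j => ?_
  have := X.n_pos
  rw [Pi.zero_apply]
  omega

end IPar

end Pool.Agent.RC
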