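import Pool.Agent.Lib.MP_09cbbd_rc.Thin
import Pool.Agent.Lib.MP_09cbbd_rc.IntJ

/-!
# Rows and columns: the thin sets of the body `K`
-/

set_option autoImplicit false

namespace Pool.Agent.RC

open MeasureTheory

namespace IPar

variable {X : IPar}

/-- the residues -/
theorem thin_res {δ : ℝ} (hδ : 0 < δ) {M t : ℤ} (hM : M * X.N = X.r * t) (ht : 1 ≤ t) :
    ∃ J : Set ℝ, Thin (δ * (M * X.N : ℤ)) (7 / X.r) J ∧
      ∀ z : ℤ, X.Sres z → ∀ x : ℝ, |x - δ * z| ≤ 7 / 8 * δ → x ∈ J := by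
  classical
  have hr := X.r_pos
  have hr' : (0 : ℝ) < X.r := by exact_mod_cast hr
  have ht' : (1 : ℝ) ≤ t := by exact_mod_cast ht
  have hMN : (0 : ℝ) < (M * X.N : ℤ) := by
    rw [hM]; push_cast; positivity
  have hh : (0 : ℝ) < δ * (M * X.N : ℤ) := mul_pos hδ hMN
  obtain ⟨O, hO⟩ : ∃ O : Finset ℤ, O = {0, X.σ, -X.σ, X.s} := ⟨_, rfl⟩
  have hOc : O.card ≤ 4 := by rw [hO]; exact Finset.card_le_four
  obtain ⟨T, hT⟩ : ∃ T : Finset (ℤ × ℤ), T = O ×ˢ Finset.Ico 0 t := ⟨_, rfl⟩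
  have hTc : (T.card : ℝ) ≤ 4 * t := by
    rw [hT, Finset.card_product, Int.card_Ico, sub_zero]
    push_cast
    have h1 : ((t.toNat : ℕ) : ℝ) = t := by
      have : ((t.toNat : ℕ) : ℤ) = t := Int.toNat_of_nonneg (by omega)
      exact_mod_cast this
    rw [h1]
    have h2 : (O.card : ℝ) ≤ 4 := by exact_mod_cast hOc
    nlinarith
  refine ⟨⋃ i ∈ T, Per (δ * (M * X.N : ℤ)) (δ * (i.1 + X.r * i.2 : ℤ) - 7 / 8 * δ) (7 / 4 * δ),
    ?_, ?_⟩
  · refine Thin.mono hh.le ?_ (Thin.biUnion hh.le T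
      (ε := fun _ => 7 / 4 * δ / (δ * (M * X.N : ℤ))) (fun _ _ => by positivity)
      (fun _ _ => thin_per hh (by positivity)))
    rw [Finset.sum_const, nsmul_eq_mul]
    have e : 7 / 4 * δ / (δ * (M * X.N : ℤ)) = 7 / 4 / (X.r * t) := by
      rw [hM]; push_cast; field_simp
    rw [e]
    calc (T.card : ℝ) * (7 / 4 / (X.r * t)) ≤ 4 * t * (7 / 4 / (X.r * t)) :=
          mul_le_mul_of_nonneg_right hTc (by positivity)
      _ = 7 / X.r := by field_simp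
  · rintro z ⟨o, ho, y, hy⟩ x hx
    have hoO : o ∈ O := by
      rw [hO]
      simp only [Finset.mem_insert, Finset.mem_singleton]
      exact ho
    rw [Set.mem_iUnion₂]
    refine ⟨(o, y % t), ?_, y / t, ?_, ?_⟩
    · rw [hT, Finset.mem_product, Finset.mem_Ico]
      exact ⟨hoO, Int.emod_nonneg _ (by omega), Int.emod_lt_of_pos _ (by omega)⟩
    all_goals
      have e1 : (z : ℝ) = (o + X.r * (y % t) : ℤ) + (M * X.N : ℤ) * (y / t : ℤ) := by
        have h1 : z = (o + X.r * (y % t)) + (M * X.N) * (y / t) := by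
          have h2 := Int.emod_add_mul_ediv y t
          rw [hM]
          linear_combination hy - X.r * h2
        exact_mod_cast h1
      rw [abs_le, e1] at hx
      simp only
      nlinarith [hx.1, hx.2]

/-- the groups -/
theorem thin_grp {δ : ℝ} (hδ : 0 < δ) {M : ℤ} (hM : 1 ≤ M) :
    ∃ J : Set ℝ, Thin (δ * (M * X.N : ℤ)) (21 * (4 * X.m + 3) * (2 * X.m + 1) / X.c) J ∧
      ∀ z : ℤ, X.Sgrp M z → ∀ x : ℝ, |x - δ * z| ≤ 7 / 8 * δ → x ∈ J := by
  classical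
  have hN := X.N_pos
  have hn := X.n_pos
  have hm := X.hm
  have ha := X.ha
  have hc := X.hc
  have hc' : (1 : ℝ) ≤ X.c := by exact_mod_cast hc
  have ha' : (60 : ℝ) ≤ X.a := by exact_mod_cast ha
  have hm' : (2 : ℝ) ≤ X.m := by exact_mod_cast hm
  have hn'' : (1 : ℝ) ≤ X.n := by exact_mod_cast hn
  have hn2 : (2 : ℝ) ≤ X.n := by
    have := X.n_ge
    have := X.r_ge
    have := X.hb
    exact_mod_cast (by omega : (2 : ℤ) ≤ X.n)
  have hN' : (0 : ℝ) < X.N := by exact_mod_cast hN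
  have hM' : (1 : ℝ) ≤ M := by exact_mod_cast hM
  have hMN : (0 : ℝ) < (M * X.N : ℤ) := by push_cast; positivity
  have hh : (0 : ℝ) < δ * (M * X.N : ℤ) := mul_pos hδ hMN
  obtain ⟨T, hT⟩ : ∃ T : Finset (ℤ × ℤ × ℤ), T = Finset.Icc (-(2 * X.m + 1)) (2 * X.m + 1) ×ˢ
    Finset.Icc (-X.m) X.m ×ˢ Finset.Icc (-X.a) X.a := ⟨_, rfl⟩
  have hTc : (T.card : ℝ) = (4 * X.m + 3) * ((2 * X.m + 1) * (2 * X.a + 1)) := by
    rw [hT, Finset.card_product, Finset.card_product, Int.card_Icc, Int.card_Icc, Int.card_Icc]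
    have e1 : (2 * X.m + 1 + 1 - -(2 * X.m + 1)).toNat = (4 * X.m + 3).toNat := by congr 1; ring
    have e2 : (X.m + 1 - -X.m).toNat = (2 * X.m + 1).toNat := by congr 1; ring
    have e3 : (X.a + 1 - -X.a).toNat = (2 * X.a + 1).toNat := by congr 1; ring
    rw [e1, e2, e3]
    have h1 : (((4 * X.m + 3).toNat : ℕ) : ℤ) = 4 * X.m + 3 := Int.toNat_of_nonneg (by omega)
    have h2 : (((2 * X.m + 1).toNat : ℕ) : ℤ) = 2 * X.m + 1 := Int.toNat_of_nonneg (by omega)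
    have h3 : (((2 * X.a + 1).toNat : ℕ) : ℤ) = 2 * X.a + 1 := Int.toNat_of_nonneg (by omega)
    have h4 : ((((4 * X.m + 3).toNat * ((2 * X.m + 1).toNat * (2 * X.a + 1).toNat) : ℕ)) : ℤ) =
        (4 * X.m + 3) * ((2 * X.m + 1) * (2 * X.a + 1)) := by
      rw [Nat.cast_mul, Nat.cast_mul, h1, h2, h3]
    exact_mod_cast h4
  refine ⟨⋃ i ∈ T, Per (δ * (M * X.N : ℤ))
    (δ * (i.1 * X.σ + i.2.1 * X.N + X.n' * i.2.2 - 3 * X.n : ℤ) - 7 / 8 * δ)
    ((6 * X.n + 7 / 4) * δ), ?_, ?_⟩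
  · refine Thin.mono hh.le ?_ (Thin.biUnion hh.le T
      (ε := fun _ => (6 * X.n + 7 / 4) * δ / (δ * (M * X.N : ℤ))) (fun _ _ => by positivity)
      (fun _ _ => thin_per hh (by positivity)))
    rw [Finset.sum_const, nsmul_eq_mul, hTc]
    have hNge : X.a * (X.c * X.n) ≤ (X.N : ℝ) := by
      have h1 : X.a * (X.c * X.n) ≤ X.N := by
        change X.a * (X.c * X.n) ≤ X.a * (X.c * X.n) + X.r
        have := X.r_pos
        omega
      exact_mod_cast h1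
    have e : (6 * X.n + 7 / 4) * δ / (δ * (M * X.N : ℤ)) = (6 * X.n + 7 / 4) / (M * X.N) := by
      push_cast; field_simp
    rw [e]
    have h1 : (6 * (X.n : ℝ) + 7 / 4) / (M * X.N) ≤ 7 * X.n / (X.a * (X.c * X.n)) := by
      refine div_le_div₀ (by positivity) (by linarith) (by positivity) ?_
      nlinarith
    have h2 : 7 * (X.n : ℝ) / (X.a * (X.c * X.n)) = 7 / (X.a * X.c) := by field_simp
    rw [h2] at h1
    calc ((4 * X.m + 3) * ((2 * X.m + 1) * (2 * X.a + 1)) : ℝ) *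
          ((6 * (X.n : ℝ) + 7 / 4) / (M * X.N)) ≤
          ((4 * X.m + 3) * ((2 * X.m + 1) * (3 * X.a)) : ℝ) * (7 / (X.a * X.c)) := by
          refine mul_le_mul ?_ h1 (by positivity) (by positivity)
          refine mul_le_mul_of_nonneg_left ?_ (by positivity)
          refine mul_le_mul_of_nonneg_left ?_ (by positivity)
          linarith
      _ = 21 * (4 * X.m + 3) * (2 * X.m + 1) / X.c := by field_simp; ring
  · rintro z ⟨κ, k, i, c, h1, h2, h3, h4⟩ x hx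
    rw [Set.mem_iUnion₂]
    refine ⟨(κ, k, c), ?_, i, ?_, ?_⟩
    · rw [hT, Finset.mem_product, Finset.mem_product, Finset.mem_Icc, Finset.mem_Icc,
        Finset.mem_Icc]
      exact ⟨abs_le.mp h1, abs_le.mp h2, abs_le.mp h3⟩
    all_goals
      have h5 : |(z : ℝ) - (κ * X.σ + k * X.N + M * X.N * i + X.n' * c)| ≤ 3 * X.n := by
        exact_mod_cast h4
      rw [abs_le] at h5 hx
      push_cast
      nlinarith [h5.1, h5.2, hx.1, hx.2]

/-- **the thin set** -/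
theorem thin_S {δ : ℝ} (hδ : 0 < δ) {M t : ℤ} (hM : M * X.N = X.r * t) (ht : 1 ≤ t) (hM1 : 1 ≤ M)
    {ε : ℝ} (hε : (7 / X.r + 21 * (4 * X.m + 3) * (2 * X.m + 1) / X.c : ℝ) ≤ ε) :
    ∃ J : Set ℝ, Thin (δ * (M * X.N : ℤ)) ε J ∧
      ∀ z : ℤ, X.S M z → ∀ x : ℝ, |x - δ * z| ≤ 7 / 8 * δ → x ∈ J := by
  obtain ⟨J, hJ1, hJ2⟩ := thin_res hδ hM ht
  obtain ⟨J', hJ1', hJ2'⟩ := thin_grp (X := X) hδ hM1
  have hr := X.r_pos
  have hr' : (0 : ℝ) < X.r := by exact_mod_cast hr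
  have hc' : (1 : ℝ) ≤ X.c := by exact_mod_cast X.hc
  have hm' : (2 : ℝ) ≤ X.m := by exact_mod_cast X.hm
  have hN' : (0 : ℝ) < X.N := by exact_mod_cast X.N_pos
  have hM' : (1 : ℝ) ≤ M := by exact_mod_cast hM1
  have hh : (0 : ℝ) ≤ δ * (M * X.N : ℤ) := by push_cast; positivity
  refine ⟨J ∪ J', Thin.mono hh hε (Thin.union hh (by positivity) (by positivity) hJ1 hJ1'),
    fun z hz x hx => ?_⟩
  rcases hz with hz | hz
  · exact Or.inl (hJ2 z hz x hx)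
  · exact Or.inr (hJ2' z hz x hx)

end IPar

end Pool.Agent.RC
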