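import Mathlib

/-!
# Rows and columns: the integer part of the body `K`

`G` is the zone of the hard core. A finite set `P ⊆ ℤ^d` such that `P - P` contains all small vectors except the windows round
`k N e₁` (`1 ≤ |k| < m`, half side `b`) and the points `k N e₂` (`1 ≤ |k| ≤ m`), and all vectors of medium
size whose first two coordinates are near `m N ℤ` and `(m + 1) N ℤ`.
-/

set_option autoImplicit false

namespace Pool.Agent.RC

/-- integer parameters -/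
structure IPar where
  (m b s c a ρ ρ₂ : ℤ)
  hm : 2 ≤ m
  hb : 0 ≤ b
  hs : b + 2 ≤ s
  hc : 1 ≤ c
  ha : 60 ≤ a

namespace IPar

variable (X : IPar)

def r : ℤ := 2 * X.s
def n : ℤ := (X.m + 1) * X.r
def n' : ℤ := X.c * X.n
def N : ℤ := X.a * X.n' + X.r
def σ : ℤ := 2 * (X.m * X.N) + 8 * X.n' + X.b + 1

theorem r_ge : 2 * X.b + 4 ≤ X.r := by have := X.hs; unfold r; omega

theorem r_pos : 0 < X.r := by have := X.r_ge; have := X.hb; omega

theorem n_ge : 3 * X.r ≤ X.n := by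
  have h := X.r_pos; have h2 := X.hm; unfold n; nlinarith

theorem n_pos : 0 < X.n := by have := X.r_pos; have := X.n_ge; omega

theorem n'_ge : X.n ≤ X.n' := by
  have h := X.n_pos; have h2 := X.hc; unfold n'; nlinarith

theorem n'_pos : 0 < X.n' := by have := X.n_pos; have := X.n'_ge; omega

theorem N_ge : 60 * X.n' + X.r ≤ X.N := by
  have h := X.n'_pos; have h2 := X.ha; unfold N; nlinarith

theorem N_pos : 0 < X.N := by have := X.N_ge; have := X.n'_pos; have := X.r_pos; omega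

theorem mN_ge : 2 * X.N ≤ X.m * X.N := by
  have h := X.N_pos; have h2 := X.hm; nlinarith

theorem m1N : (X.m + 1) * X.N = X.m * X.N + X.N := by ring

/-- all the basic inequalities -/
theorem basic : 0 ≤ X.b ∧ 2 * X.b + 4 ≤ X.r ∧ 3 * X.r ≤ X.n ∧ X.n ≤ X.n' ∧
    60 * X.n' + X.r ≤ X.N ∧ 2 * X.N ≤ X.m * X.N ∧ X.σ = 2 * (X.m * X.N) + 8 * X.n' + X.b + 1 :=
  ⟨X.hb, X.r_ge, X.n_ge, X.n'_ge, X.N_ge, X.mN_ge, rfl⟩

theorem r_dvd_n : X.r ∣ X.n := ⟨X.m + 1, by unfold n; ring⟩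

theorem n_dvd_n' : X.n ∣ X.n' := ⟨X.c, by unfold n'; ring⟩

theorem r_dvd_n' : X.r ∣ X.n' := X.r_dvd_n.trans X.n_dvd_n'

theorem r_dvd_N : X.r ∣ X.N := by
  unfold N; exact dvd_add (X.r_dvd_n'.mul_left _) dvd_rfl

variable {d : ℕ} (G : (Fin d → ℤ) → Prop) (i₁ i₂ : Fin d)

def mm (t : Bool) : ℤ := cond t X.m (X.m + 1)
def bb (t : Bool) : ℤ := cond t X.b 0
def ii (t : Bool) : Fin d := cond t i₁ i₂
def ctr (t : Bool) (k : ℤ) (j : Fin d) : ℤ := if j = ii i₁ i₂ t then k * X.N else 0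

theorem bb_nonneg (t : Bool) : 0 ≤ X.bb t := by
  cases t
  · exact le_rfl
  · exact X.hb

theorem bb_le (t : Bool) : X.bb t ≤ X.b := by
  cases t
  · exact X.hb
  · exact le_rfl

theorem ctr_self (t : Bool) (k : ℤ) : X.ctr i₁ i₂ t k (ii i₁ i₂ t) = k * X.N := by
  unfold ctr; rw [if_pos rfl]

theorem ctr_neg (t : Bool) (k : ℤ) (j : Fin d) :
    X.ctr i₁ i₂ t (-k) j = - X.ctr i₁ i₂ t k j := by
  unfold ctr; split_ifs <;> ring

/-- the windows -/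
def W (q : Fin d → ℤ) : Prop := ∃ (t : Bool) (k : ℤ), 1 ≤ |k| ∧ |k| < X.mm t ∧
  ∀ j, |q j - X.ctr i₁ i₂ t k j| ≤ X.bb t

def gpos (κ : ℤ) (j : Fin d) : ℤ := if j = i₁ then -(κ * X.σ) else 0
def kap (t : Bool) (k : ℤ) : ℤ := 2 * k + cond t 0 1

def PA (q : Fin d → ℤ) : Prop := ∀ j, 0 ≤ q j ∧ q j < X.n
def PB (q : Fin d → ℤ) : Prop := (∀ j, X.n ∣ q j) ∧ 0 ≤ q i₁ ∧
  (∃ q', G q' ∧ ∀ j, |q j - q' j| ≤ X.n) ∧ ∀ w, X.W i₁ i₂ w → ¬ X.PA (q - w)
def PC (q : Fin d → ℤ) : Prop := ∀ j, 0 ≤ q j - X.gpos i₁ 1 j ∧ q j - X.gpos i₁ 1 j < X.n'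
def PG (t : Bool) (k : ℤ) (q : Fin d → ℤ) : Prop := q = X.gpos i₁ (kap t k) ∨
  ∃ x : Fin d → ℤ, (∀ j, |x j| ≤ 2 * X.n) ∧ (∃ j, X.bb t < |x j|) ∧
    q = fun j => X.gpos i₁ (kap t k) j + X.ctr i₁ i₂ t k j + x j
def PF (q : Fin d → ℤ) : Prop := ∃ i j c₁ c₂ : ℤ,
  q i₁ = -X.σ + (X.m * X.N * i + X.n' * c₁) ∧ 2 * |X.n' * c₁| ≤ X.N + 6 * X.n' ∧
  q i₂ = X.s + ((X.m + 1) * X.N * j + X.n' * c₂) ∧ 2 * |X.n' * c₂| ≤ X.N + 6 * X.n' ∧
  (∀ l, l ≠ i₁ → l ≠ i₂ → X.n' ∣ q l) ∧ (∃ l, X.ρ - X.n' ≤ |q l - X.gpos i₁ 1 l|) ∧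
  ∀ l, |q l - X.gpos i₁ 1 l| ≤ X.ρ₂ + X.n'

/-- **the set `P`** -/
def P (q : Fin d → ℤ) : Prop := X.PA q ∨ X.PB G i₁ i₂ q ∨ X.PC i₁ q ∨
  (∃ (t : Bool) (k : ℤ), 1 ≤ k ∧ k < X.mm t ∧ X.PG i₁ i₂ t k q) ∨ X.PF i₁ i₂ q

/-! ### Windows -/

variable {X G i₁ i₂}

theorem W.neg {q : Fin d → ℤ} (h : X.W i₁ i₂ q) : X.W i₁ i₂ (-q) := by
  obtain ⟨t, k, h1, h2, h3⟩ := h
  refine ⟨t, -k, by rwa [abs_neg], by rwa [abs_neg], fun j => ?_⟩
  have := h3 j
  rw [X.ctr_neg i₁ i₂, Pi.neg_apply]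
  rw [show -q j - -X.ctr i₁ i₂ t k j = -(q j - X.ctr i₁ i₂ t k j) by ring, abs_neg]
  exact this

theorem W.neg_iff {q : Fin d → ℤ} : X.W i₁ i₂ (-q) ↔ X.W i₁ i₂ q :=
  ⟨fun h => by simpa using h.neg, fun h => h.neg⟩

theorem W.sub_comm {p q : Fin d → ℤ} (h : X.W i₁ i₂ (p - q)) : X.W i₁ i₂ (q - p) := by
  have := h.neg
  rwa [neg_sub] at this

theorem kN_le {t : Bool} {k : ℤ} (h : |k| < X.mm t) : |k * X.N| + X.bb t ≤ X.m * X.N + X.b := by
  have hN := X.N_pos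
  obtain ⟨b1, b2, b3, b4, b5, b6, -⟩ := X.basic
  rw [abs_mul, abs_of_pos hN]
  have hk := abs_nonneg k
  cases t
  · change |k| < X.m + 1 at h
    change |k| * X.N + 0 ≤ _
    have : |k| * X.N ≤ X.m * X.N := mul_le_mul_of_nonneg_right (by omega) hN.le
    omega
  · change |k| < X.m at h
    change |k| * X.N + X.b ≤ _
    have : |k| * X.N ≤ X.m * X.N := mul_le_mul_of_nonneg_right (by omega) hN.le
    omega

theorem kN_ge {k : ℤ} (h : 1 ≤ |k|) : X.N ≤ |k * X.N| := by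
  have hN := X.N_pos
  rw [abs_mul, abs_of_pos hN]
  nlinarith

theorem abs_ctr_le {t : Bool} {k : ℤ} (h : |k| < X.mm t) (j : Fin d) :
    |X.ctr i₁ i₂ t k j| + X.bb t ≤ X.m * X.N + X.b := by
  unfold ctr
  split_ifs
  · exact kN_le h
  · have := X.bb_le t
    have := X.mN_ge
    have := X.N_pos
    rw [abs_zero]
    omega

theorem W.le {q : Fin d → ℤ} (h : X.W i₁ i₂ q) (j : Fin d) : |q j| ≤ X.m * X.N + X.b := by
  obtain ⟨t, k, h1, h2, h3⟩ := h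
  have h4 := h3 j
  have h5 := abs_ctr_le (i₁ := i₁) (i₂ := i₂) h2 j
  have h6 : |q j| ≤ |q j - X.ctr i₁ i₂ t k j| + |X.ctr i₁ i₂ t k j| := by
    have := abs_add_le (q j - X.ctr i₁ i₂ t k j) (X.ctr i₁ i₂ t k j)
    rwa [sub_add_cancel] at this
  omega

theorem W.ge {q : Fin d → ℤ} (h : X.W i₁ i₂ q) : ∃ j, X.N - X.b ≤ |q j| := by
  obtain ⟨t, k, h1, h2, h3⟩ := h
  refine ⟨ii i₁ i₂ t, ?_⟩
  have h4 := h3 (ii i₁ i₂ t)
  rw [X.ctr_self i₁ i₂] at h4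
  have h5 := kN_ge (X := X) h1
  have h6 : |k * X.N| ≤ |q (ii i₁ i₂ t) - k * X.N| + |q (ii i₁ i₂ t)| := by
    have := abs_sub (q (ii i₁ i₂ t)) (q (ii i₁ i₂ t) - k * X.N)
    rw [show q (ii i₁ i₂ t) - (q (ii i₁ i₂ t) - k * X.N) = k * X.N by ring] at this
    omega
  have := X.bb_le t
  omega

/-- no small vector is in a window -/
theorem not_W_small {q : Fin d → ℤ} (h : ∀ j, |q j| < X.N - X.b) : ¬ X.W i₁ i₂ q := fun hw => by
  obtain ⟨j, hj⟩ := hw.ge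
  have := h j
  omega

/-! ### Differences inside one group -/

theorem PA_sub_PA {p q : Fin d → ℤ} (hp : X.PA p) (hq : X.PA q) : ¬ X.W i₁ i₂ (p - q) := by
  obtain ⟨b1, b2, b3, b4, b5, b6, -⟩ := X.basic
  refine not_W_small fun j => ?_
  have h1 := hp j
  have h2 := hq j
  rw [Pi.sub_apply, abs_lt]
  omega

theorem PC_sub_PC {p q : Fin d → ℤ} (hp : X.PC i₁ p) (hq : X.PC i₁ q) : ¬ X.W i₁ i₂ (p - q) := by
  obtain ⟨b1, b2, b3, b4, b5, b6, -⟩ := X.basic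
  refine not_W_small fun j => ?_
  have h1 := hp j
  have h2 := hq j
  rw [Pi.sub_apply, abs_lt]
  omega

theorem PB_sub_PA {p q : Fin d → ℤ} (hp : X.PB G i₁ i₂ p) (hq : X.PA q) :
    ¬ X.W i₁ i₂ (p - q) := fun h => by
  refine hp.2.2.2 _ h ?_
  rwa [sub_sub_cancel]

/-- no vector with all coordinates divisible by `n` is in a window -/
theorem not_W_dvd {q : Fin d → ℤ} (h : ∀ j, X.n ∣ q j) : ¬ X.W i₁ i₂ q := by
  rintro ⟨t, k, h1, h2, h3⟩
  obtain ⟨b1, b2, b3, b4, b5, b6, -⟩ := X.basic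
  have h4 := h3 (ii i₁ i₂ t)
  rw [X.ctr_self i₁ i₂] at h4
  obtain ⟨v, hv⟩ : ∃ v, v = q (ii i₁ i₂ t) - k * X.N := ⟨_, rfl⟩
  rw [← hv] at h4
  have hr := X.r_pos
  -- `k r + v` is divisible by `n`
  have h5 : X.n ∣ k * X.r + v := by
    have e : k * X.r + v = q (ii i₁ i₂ t) - (k * X.a) * X.n' := by rw [hv]; unfold N; ring
    rw [e]
    exact dvd_sub (h _) (X.n_dvd_n'.mul_left _)
  have h6 : |k * X.r + v| < X.n := by
    have h7 : |k * X.r + v| ≤ |k| * X.r + |v| := by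
      have := abs_add_le (k * X.r) v
      rwa [abs_mul, abs_of_pos hr] at this
    have h8 : |k| * X.r + X.bb t < X.n := by
      cases t
      · change |k| < X.m + 1 at h2
        change |k| * X.r + 0 < (X.m + 1) * X.r
        have : |k| * X.r ≤ X.m * X.r := mul_le_mul_of_nonneg_right (by omega) hr.le
        linarith
      · change |k| < X.m at h2
        change |k| * X.r + X.b < (X.m + 1) * X.r
        have : |k| * X.r ≤ X.m * X.r := mul_le_mul_of_nonneg_right (by omega) hr.le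
        linarith
    omega
  have h9 := Int.eq_zero_of_abs_lt_dvd h5 h6
  have h10 : X.r ≤ |k * X.r| := by
    rw [abs_mul, abs_of_pos hr]; nlinarith
  have h11 : |k * X.r| = |v| := by
    rw [show k * X.r = -v by omega, abs_neg]
  have := X.bb_le t
  omega

theorem PB_sub_PB {p q : Fin d → ℤ} (hp : X.PB G i₁ i₂ p) (hq : X.PB G i₁ i₂ q) :
    ¬ X.W i₁ i₂ (p - q) := by
  refine not_W_dvd fun j => ?_
  rw [Pi.sub_apply]
  exact dvd_sub (hp.1 j) (hq.1 j)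

/-- `ctr + x` is not in a window -/
theorem not_W_ctr (hne : i₁ ≠ i₂) {t : Bool} {k : ℤ} (hk : 1 ≤ |k|) {x : Fin d → ℤ}
    (hx : ∀ j, |x j| ≤ 2 * X.n) (hb : ∃ j, X.bb t < |x j|) :
    ¬ X.W i₁ i₂ (fun j => X.ctr i₁ i₂ t k j + x j) := by
  rintro ⟨t', k', h1, h2, h3⟩
  obtain ⟨b1, b2, b3, b4, b5, b6, -⟩ := X.basic
  by_cases he : t = t' ∧ k = k'
  · obtain ⟨rfl, rfl⟩ := he
    obtain ⟨j, hj⟩ := hb
    have := h3 j
    rw [add_sub_cancel_left] at this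
    omega
  · -- the two centres are `N` apart
    have h4 : ∃ j, X.N ≤ |X.ctr i₁ i₂ t k j - X.ctr i₁ i₂ t' k' j| := by
      by_cases ht : t = t'
      · subst ht
        have hkk : k ≠ k' := fun h => he ⟨rfl, h⟩
        refine ⟨ii i₁ i₂ t, ?_⟩
        rw [X.ctr_self i₁ i₂, X.ctr_self i₁ i₂, ← sub_mul]
        refine kN_ge ?_
        have : k - k' ≠ 0 := sub_ne_zero.mpr hkk
        exact Int.one_le_abs this
      · refine ⟨ii i₁ i₂ t, ?_⟩
        rw [X.ctr_self i₁ i₂]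
        have : X.ctr i₁ i₂ t' k' (ii i₁ i₂ t) = 0 := by
          unfold ctr
          rw [if_neg]
          intro h
          cases t <;> cases t'
          · exact ht rfl
          · exact hne h.symm
          · exact hne h
          · exact ht rfl
        rw [this, sub_zero]
        exact kN_ge hk
    obtain ⟨j, hj⟩ := h4
    have h5 : |X.ctr i₁ i₂ t k j + x j - X.ctr i₁ i₂ t' k' j| ≤ X.bb t' := h3 j
    have h6 := hx j
    have h7 : |X.ctr i₁ i₂ t k j - X.ctr i₁ i₂ t' k' j| ≤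
        |X.ctr i₁ i₂ t k j + x j - X.ctr i₁ i₂ t' k' j| + |x j| := by
      have := abs_sub (X.ctr i₁ i₂ t k j + x j - X.ctr i₁ i₂ t' k' j) (x j)
      rwa [show X.ctr i₁ i₂ t k j + x j - X.ctr i₁ i₂ t' k' j - x j =
        X.ctr i₁ i₂ t k j - X.ctr i₁ i₂ t' k' j by ring] at this
    have := X.bb_le t'
    omega

theorem PG_sub_PG (hne : i₁ ≠ i₂) {t : Bool} {k : ℤ} (hk : 1 ≤ k) {p q : Fin d → ℤ}
    (hp : X.PG i₁ i₂ t k p) (hq : X.PG i₁ i₂ t k q) : ¬ X.W i₁ i₂ (p - q) := by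
  obtain ⟨b1, b2, b3, b4, b5, b6, -⟩ := X.basic
  have hk1 : 1 ≤ |k| := by rw [abs_of_pos (by omega)]; exact hk
  rcases hp with rfl | ⟨x, hx1, hx2, rfl⟩
  · rcases hq with rfl | ⟨y, hy1, hy2, rfl⟩
    · refine not_W_small fun j => ?_
      rw [sub_self, Pi.zero_apply, abs_zero]
      omega
    · intro h
      refine not_W_ctr (X := X) hne hk1 hy1 hy2 ?_
      have := h.neg
      convert this using 1
      funext j
      simp only [Pi.neg_apply, Pi.sub_apply]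
      ring
  · rcases hq with rfl | ⟨y, hy1, hy2, rfl⟩
    · intro h
      refine not_W_ctr (X := X) hne hk1 hx1 hx2 ?_
      convert h using 1
      funext j
      simp only [Pi.sub_apply]
      ring
    · refine not_W_small fun j => ?_
      have h1 := hx1 j
      have h2 := hy1 j
      simp only [Pi.sub_apply]
      rw [show X.gpos i₁ (kap t k) j + X.ctr i₁ i₂ t k j + x j -
        (X.gpos i₁ (kap t k) j + X.ctr i₁ i₂ t k j + y j) = x j - y j by ring]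
      have h3 := abs_sub (x j) (y j)
      omega

/-- the differences of the far points, one coordinate -/
theorem FF_aux {M k i c v : ℤ} (hM : |k| < M) (hk : 1 ≤ |k|) (hv : |v| ≤ X.b)
    (h : M * X.N * i + X.n' * c = k * X.N + v) (hc : |X.n' * c| ≤ X.N + 6 * X.n') : False := by
  obtain ⟨b1, b2, b3, b4, b5, b6, -⟩ := X.basic
  have hn' := X.n'_pos
  have hN := X.N_pos
  have hr := X.r_pos
  -- `v = 0`
  have h1 : X.r ∣ v := by
    have e : v = (M * i - k) * X.N + X.n' * c := by linear_combination -h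
    rw [e]
    exact dvd_add (X.r_dvd_N.mul_left _) (X.r_dvd_n'.mul_right _)
  have h2 : v = 0 := Int.eq_zero_of_abs_lt_dvd h1 (by omega)
  subst h2
  obtain ⟨u, hu⟩ : ∃ u, u = k - M * i := ⟨_, rfl⟩
  have h3 : X.n' * c = u * X.N := by rw [hu]; linear_combination h
  have h4 : |u| ≤ 1 := by
    by_contra h5
    have h6 : 2 ≤ |u| := by omega
    rw [h3, abs_mul, abs_of_pos hN] at hc
    nlinarith
  have h5 : X.n' ∣ u * X.r := by
    have e : u * X.r = X.n' * (c - u * X.a) := by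
      have : u * X.N = u * X.a * X.n' + u * X.r := by unfold N; ring
      linear_combination -h3 - this
    exact ⟨_, e⟩
  have h6 : u * X.r = 0 := by
    refine Int.eq_zero_of_abs_lt_dvd h5 ?_
    rw [abs_mul, abs_of_pos hr]
    nlinarith
  have h7 : u = 0 := by
    rcases mul_eq_zero.mp h6 with h | h
    · exact h
    · omega
  have h8 : k = M * i := by omega
  have h9 : |k| = 0 := by
    have : M ∣ k := ⟨i, h8⟩
    rw [Int.eq_zero_of_abs_lt_dvd this hM, abs_zero]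
  omega

theorem PF_sub_PF {p q : Fin d → ℤ} (hp : X.PF i₁ i₂ p) (hq : X.PF i₁ i₂ q) :
    ¬ X.W i₁ i₂ (p - q) := by
  rintro ⟨t, k, h1, h2, h3⟩
  obtain ⟨i, j, c₁, c₂, p1, p2, p3, p4, -⟩ := hp
  obtain ⟨i', j', c₁', c₂', q1, q2, q3, q4, -⟩ := hq
  have h4 := h3 (ii i₁ i₂ t)
  rw [X.ctr_self i₁ i₂, Pi.sub_apply] at h4
  cases t
  · change |p i₂ - q i₂ - k * X.N| ≤ 0 at h4
    change |k| < X.m + 1 at h2
    have h5 : p i₂ - q i₂ = k * X.N := by
      have := abs_nonneg (p i₂ - q i₂ - k * X.N)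
      have h6 : p i₂ - q i₂ - k * X.N = 0 := abs_eq_zero.mp (by omega)
      omega
    refine FF_aux (X := X) (M := X.m + 1) (k := k) (i := j - j') (c := c₂ - c₂') (v := 0) h2 h1
      (by rw [abs_zero]; exact X.hb) ?_ ?_
    · rw [p3, q3] at h5; linear_combination h5
    · have h7 := abs_sub (X.n' * c₂) (X.n' * c₂')
      rw [mul_sub]
      omega
  · change |p i₁ - q i₁ - k * X.N| ≤ X.b at h4
    change |k| < X.m at h2
    refine FF_aux (X := X) (M := X.m) (k := k) (i := i - i') (c := c₁ - c₁')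
      (v := p i₁ - q i₁ - k * X.N) h2 h1 h4 ?_ ?_
    · rw [p1, q1]; ring
    · have h7 := abs_sub (X.n' * c₁) (X.n' * c₁')
      rw [mul_sub]
      omega

theorem PF_sub_PB (hne : i₁ ≠ i₂) {p q : Fin d → ℤ} (hp : X.PF i₁ i₂ p)
    (hq : X.PB G i₁ i₂ q) : ¬ X.W i₁ i₂ (p - q) := by
  rintro ⟨t, k, h1, h2, h3⟩
  obtain ⟨b1, b2, b3, b4, b5, b6, -⟩ := X.basic
  obtain ⟨i, j, c₁, c₂, p1, p2, p3, p4, -⟩ := hp
  have hs := X.hs
  have hrs : X.r = 2 * X.s := rfl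
  have h4 := h3 i₂
  rw [Pi.sub_apply] at h4
  have hd : X.r ∣ p i₂ - q i₂ - X.s := by
    have e : p i₂ - q i₂ - X.s = ((X.m + 1) * j) * X.N + X.n' * c₂ - q i₂ := by rw [p3]; ring
    rw [e]
    exact dvd_sub (dvd_add (X.r_dvd_N.mul_left _) (X.r_dvd_n'.mul_right _))
      (X.r_dvd_n.trans (hq.1 _))
  cases t
  · have h5 : X.ctr i₁ i₂ false k i₂ = k * X.N := X.ctr_self i₁ i₂ false k
    rw [h5] at h4
    change |p i₂ - q i₂ - k * X.N| ≤ 0 at h4
    have h6 : p i₂ - q i₂ - k * X.N = 0 := abs_eq_zero.mp (by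
      have := abs_nonneg (p i₂ - q i₂ - k * X.N); omega)
    have h7 : X.r ∣ X.s := by
      have e : X.s = k * X.N - (p i₂ - q i₂ - X.s) := by omega
      rw [e]
      exact dvd_sub (X.r_dvd_N.mul_left _) hd
    have h8 := Int.eq_zero_of_abs_lt_dvd h7 (by rw [abs_of_pos (by omega)]; omega)
    omega
  · have h5 : X.ctr i₁ i₂ true k i₂ = 0 := by
      unfold ctr
      rw [if_neg]
      exact fun h => hne h.symm
    rw [h5, sub_zero] at h4
    change |p i₂ - q i₂| ≤ X.b at h4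
    have h6 := Int.eq_zero_of_abs_lt_dvd hd (by rw [abs_lt]; rw [abs_le] at h4; omega)
    rw [abs_le] at h4
    omega

/-! ### Groups -/

/-- the part of the body with number `κ` -/
def Grp (X : IPar) (G : (Fin d → ℤ) → Prop) (i₁ i₂ : Fin d) (κ : ℤ) (q : Fin d → ℤ) : Prop :=
  (κ = 0 ∧ (X.PA q ∨ X.PB G i₁ i₂ q)) ∨ (κ = 1 ∧ X.PC i₁ q) ∨
  ∃ (t : Bool) (k : ℤ), κ = kap t k ∧ 1 ≤ k ∧ k < X.mm t ∧ X.PG i₁ i₂ t k q

theorem P_iff {q : Fin d → ℤ} : X.P G i₁ i₂ q ↔ (∃ κ, X.Grp G i₁ i₂ κ q) ∨ X.PF i₁ i₂ q := by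
  unfold P Grp
  constructor
  · rintro (h | h | h | ⟨t, k, h1, h2, h3⟩ | h)
    · exact Or.inl ⟨0, Or.inl ⟨rfl, Or.inl h⟩⟩
    · exact Or.inl ⟨0, Or.inl ⟨rfl, Or.inr h⟩⟩
    · exact Or.inl ⟨1, Or.inr (Or.inl ⟨rfl, h⟩)⟩
    · exact Or.inl ⟨_, Or.inr (Or.inr ⟨t, k, rfl, h1, h2, h3⟩)⟩
    · exact Or.inr h
  · rintro (⟨κ, ⟨-, h | h⟩ | ⟨-, h⟩ | ⟨t, k, -, h1, h2, h3⟩⟩ | h)
    · exact Or.inl h
    · exact Or.inr (Or.inl h)
    · exact Or.inr (Or.inr (Or.inl h))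
    · exact Or.inr (Or.inr (Or.inr (Or.inl ⟨t, k, h1, h2, h3⟩)))
    · exact Or.inr (Or.inr (Or.inr (Or.inr h)))

theorem gpos_self (κ : ℤ) : X.gpos i₁ κ i₁ = -(κ * X.σ) := by unfold gpos; rw [if_pos rfl]

theorem gpos_ne (κ : ℤ) {j : Fin d} (h : j ≠ i₁) : X.gpos i₁ κ j = 0 := by
  unfold gpos; rw [if_neg h]

theorem Grp.lo {κ : ℤ} {q : Fin d → ℤ} (h : X.Grp G i₁ i₂ κ q) : -(κ * X.σ) - 2 * X.n' ≤ q i₁ := by
  obtain ⟨b1, b2, b3, b4, b5, b6, -⟩ := X.basic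
  rcases h with ⟨rfl, h | h⟩ | ⟨rfl, h⟩ | ⟨t, k, rfl, h1, h2, rfl | ⟨x, hx1, hx2, rfl⟩⟩
  · have := (h i₁).1
    omega
  · have := h.2.1
    omega
  · have := (h i₁).1
    rw [gpos_self] at this
    omega
  · rw [gpos_self]
    omega
  · have h3 := hx1 i₁
    have h4 : 0 ≤ X.ctr i₁ i₂ t k i₁ := by
      unfold ctr
      split_ifs
      · exact mul_nonneg (by omega) X.N_pos.le
      · exact le_rfl
    simp only [gpos_self]
    rw [abs_le] at h3
    omega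

theorem Grp.hi {κ : ℤ} {q : Fin d → ℤ} (h : X.Grp G i₁ i₂ κ q) (hκ : 1 ≤ κ) :
    q i₁ ≤ -(κ * X.σ) + X.m * X.N + 2 * X.n' := by
  obtain ⟨b1, b2, b3, b4, b5, b6, -⟩ := X.basic
  rcases h with ⟨rfl, h | h⟩ | ⟨rfl, h⟩ | ⟨t, k, rfl, h1, h2, rfl | ⟨x, hx1, hx2, rfl⟩⟩
  · omega
  · omega
  · have := (h i₁).2
    rw [gpos_self] at this
    omega
  · rw [gpos_self]
    omega
  · have h3 := hx1 i₁
    have h4 : X.ctr i₁ i₂ t k i₁ ≤ X.m * X.N := by
      unfold ctr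
      split_ifs with h
      · refine mul_le_mul_of_nonneg_right ?_ X.N_pos.le
        cases t
        · change k < X.m + 1 at h2
          omega
        · change k < X.m at h2
          omega
      · omega
    simp only [gpos_self]
    rw [abs_le] at h3
    omega

theorem Grp.nonneg {κ : ℤ} {q : Fin d → ℤ} (h : X.Grp G i₁ i₂ κ q) : 0 ≤ κ ∧ κ ≤ 2 * X.m + 1 := by
  have := X.hm
  rcases h with ⟨rfl, -⟩ | ⟨rfl, -⟩ | ⟨t, k, rfl, h1, h2, -⟩
  · omega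
  · omega
  · unfold kap
    cases t
    · change k < X.m + 1 at h2
      change 0 ≤ 2 * k + 1 ∧ 2 * k + 1 ≤ _
      omega
    · change k < X.m at h2
      change 0 ≤ 2 * k + 0 ∧ 2 * k + 0 ≤ _
      omega

theorem kap_inj {t t' : Bool} {k k' : ℤ} (h : kap t k = kap t' k') : t = t' ∧ k = k' := by
  unfold kap at h
  cases t <;> cases t' <;> simp only [cond_true, cond_false] at h
  · exact ⟨rfl, by omega⟩
  · omega
  · omega
  · exact ⟨rfl, by omega⟩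

theorem Grp.same (hne : i₁ ≠ i₂) {κ : ℤ} {p q : Fin d → ℤ} (hp : X.Grp G i₁ i₂ κ p)
    (hq : X.Grp G i₁ i₂ κ q) : ¬ X.W i₁ i₂ (p - q) := by
  rcases hp with ⟨rfl, hp | hp⟩ | ⟨rfl, hp⟩ | ⟨t, k, h0, h1, h2, hp⟩
  · rcases hq with ⟨-, hq | hq⟩ | ⟨h, hq⟩ | ⟨t', k', h0', h1', h2', hq⟩
    · exact PA_sub_PA hp hq
    · exact fun h => PB_sub_PA hq hp h.sub_comm
    · omega
    · exfalso
      unfold kap at h0'
      cases t' <;> simp only [cond_true, cond_false] at h0' <;> omega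
  · rcases hq with ⟨-, hq | hq⟩ | ⟨h, hq⟩ | ⟨t', k', h0', h1', h2', hq⟩
    · exact PB_sub_PA hp hq
    · exact PB_sub_PB hp hq
    · omega
    · exfalso
      unfold kap at h0'
      cases t' <;> simp only [cond_true, cond_false] at h0' <;> omega
  · rcases hq with ⟨h, -⟩ | ⟨-, hq⟩ | ⟨t', k', h0', h1', h2', hq⟩
    · omega
    · exact PC_sub_PC hp hq
    · exfalso
      unfold kap at h0'
      cases t' <;> simp only [cond_true, cond_false] at h0' <;> omega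
  · rcases hq with ⟨rfl, -⟩ | ⟨rfl, -⟩ | ⟨t', k', h0', h1', h2', hq⟩
    · exfalso
      unfold kap at h0
      cases t <;> simp only [cond_true, cond_false] at h0 <;> omega
    · exfalso
      unfold kap at h0
      cases t <;> simp only [cond_true, cond_false] at h0 <;> omega
    · obtain ⟨rfl, rfl⟩ := kap_inj (h0.symm.trans h0')
      exact PG_sub_PG hne h1 hp hq

theorem Grp.sub_lt {κ κ' : ℤ} (h : κ < κ') {p q : Fin d → ℤ} (hp : X.Grp G i₁ i₂ κ p)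
    (hq : X.Grp G i₁ i₂ κ' q) : ¬ X.W i₁ i₂ (p - q) := fun hw => by
  obtain ⟨b1, b2, b3, b4, b5, b6, b7⟩ := X.basic
  have h1 := hw.le i₁
  have h2 := hp.lo
  have h3 := hq.hi (by have := hp.nonneg; omega)
  rw [Pi.sub_apply] at h1
  have h4 : (κ + 1) * X.σ ≤ κ' * X.σ := by
    refine mul_le_mul_of_nonneg_right (by omega) ?_
    omega
  have h5 : (κ + 1) * X.σ = κ * X.σ + X.σ := by ring
  rw [abs_le] at h1
  omega

theorem Grp.avoid (hne : i₁ ≠ i₂) {κ κ' : ℤ} {p q : Fin d → ℤ} (hp : X.Grp G i₁ i₂ κ p)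
    (hq : X.Grp G i₁ i₂ κ' q) : ¬ X.W i₁ i₂ (p - q) := by
  rcases lt_trichotomy κ κ' with h | rfl | h
  · exact hp.sub_lt h hq
  · exact hp.same hne hq
  · exact fun hw => hq.sub_lt h hp hw.sub_comm

/-- the groups except `PB` are near the origin -/
theorem Grp.le (hne : i₁ ≠ i₂) {κ : ℤ} {q : Fin d → ℤ} (h : X.Grp G i₁ i₂ κ q) :
    X.PB G i₁ i₂ q ∨ ∀ j, |q j - X.gpos i₁ 1 j| ≤ (2 * X.m + 2) * X.σ := by
  obtain ⟨b1, b2, b3, b4, b5, b6, b7⟩ := X.basic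
  have hm := X.hm
  have h0 := h.nonneg
  have hσ : 0 ≤ X.σ := by omega
  have hlo := h.lo
  have e1 : (2 * X.m + 2) * X.σ = (2 * X.m + 1) * X.σ + X.σ := by ring
  have e2 : κ * X.σ ≤ (2 * X.m + 1) * X.σ := mul_le_mul_of_nonneg_right h0.2 hσ
  have e3 : 0 ≤ κ * X.σ := mul_nonneg h0.1 hσ
  have e4 : 5 * X.σ ≤ (2 * X.m + 1) * X.σ := mul_le_mul_of_nonneg_right (by omega) hσ
  by_cases hB : X.PB G i₁ i₂ q
  · exact Or.inl hB
  refine Or.inr fun j => ?_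
  by_cases hj : j = i₁
  · subst hj
    rw [gpos_self, abs_le]
    have hup : q j ≤ X.n + X.m * X.N + 2 * X.n' := by
      by_cases hκ : 1 ≤ κ
      · have := h.hi hκ
        omega
      · rcases h with ⟨rfl, h | h⟩ | ⟨rfl, h⟩ | ⟨t, k, h1, h2, h3⟩
        · have := (h j).2
          omega
        · exact absurd h hB
        · omega
        · exfalso
          unfold kap at h1
          cases t <;> simp only [cond_true, cond_false] at h1 <;> omega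
    constructor
    · omega
    · omega
  · rw [gpos_ne 1 hj, sub_zero]
    rcases h with ⟨rfl, h | h⟩ | ⟨rfl, h⟩ | ⟨t, k, h1, h2, h3, rfl | ⟨x, hx1, hx2, rfl⟩⟩
    · have := h j
      rw [abs_le]
      omega
    · exact absurd h hB
    · have := h j
      rw [gpos_ne 1 hj, sub_zero] at this
      rw [abs_le]
      omega
    · rw [gpos_ne _ hj, abs_zero]
      omega
    · have h4 := hx1 j
      have h5 := abs_ctr_le (i₁ := i₁) (i₂ := i₂) (X := X) (t := t) (k := k)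
        (by rw [abs_of_pos (by omega)]; exact h3) j
      have h6 := X.bb_nonneg t
      simp only [gpos_ne _ hj, zero_add]
      have h7 := abs_add_le (X.ctr i₁ i₂ t k j) (x j)
      omega

theorem PF_sub_Grp (hne : i₁ ≠ i₂) (hρ : (2 * X.m + 4) * X.σ ≤ X.ρ) {κ : ℤ} {p q : Fin d → ℤ}
    (hp : X.PF i₁ i₂ p) (hq : X.Grp G i₁ i₂ κ q) : ¬ X.W i₁ i₂ (p - q) := by
  rcases hq.le hne with h | h
  · exact PF_sub_PB hne hp h
  · intro hw
    obtain ⟨b1, b2, b3, b4, b5, b6, b7⟩ := X.basic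
    obtain ⟨i, j, c₁, c₂, -, -, -, -, -, ⟨l, hl⟩, -⟩ := hp
    have h1 := hw.le l
    have h2 := h l
    rw [Pi.sub_apply] at h1
    have h3 : |p l - X.gpos i₁ 1 l| ≤ |p l - q l| + |q l - X.gpos i₁ 1 l| := by
      have := abs_add_le (p l - q l) (q l - X.gpos i₁ 1 l)
      rwa [sub_add_sub_cancel] at this
    have e1 : (2 * X.m + 4) * X.σ = (2 * X.m + 2) * X.σ + 2 * X.σ := by ring
    omega

/-- **No difference of `P` is in a window.** -/
theorem avoid (hne : i₁ ≠ i₂) (hρ : (2 * X.m + 4) * X.σ ≤ X.ρ) {p q : Fin d → ℤ}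
    (hp : X.P G i₁ i₂ p) (hq : X.P G i₁ i₂ q) : ¬ X.W i₁ i₂ (p - q) := by
  rcases P_iff.mp hp with ⟨κ, hp⟩ | hp
  · rcases P_iff.mp hq with ⟨κ', hq⟩ | hq
    · exact hp.avoid hne hq
    · exact fun hw => PF_sub_Grp hne hρ hq hp hw.sub_comm
  · rcases P_iff.mp hq with ⟨κ', hq⟩ | hq
    · exact PF_sub_Grp hne hρ hp hq
    · exact PF_sub_PF hp hq

/-! ### Coverage -/

theorem cover_pos {q : Fin d → ℤ} (h0 : 0 ≤ q i₁) (hq : G q)
    (hW : ¬ X.W i₁ i₂ q) : ∃ p p', X.P G i₁ i₂ p ∧ X.P G i₁ i₂ p' ∧ q = p - p' := by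
  have hn := X.n_pos
  obtain ⟨b1, b2, b3, b4, b5, b6, b7⟩ := X.basic
  obtain ⟨a, ha⟩ : ∃ a : Fin d → ℤ, a = fun j => (-q j) % X.n := ⟨_, rfl⟩
  have ha0 : ∀ j, 0 ≤ a j ∧ a j < X.n := fun j => by
    rw [ha]
    exact ⟨Int.emod_nonneg _ hn.ne', Int.emod_lt_of_pos _ hn⟩
  have hdv : ∀ j, X.n ∣ q j + a j := fun j => by
    have h1 := Int.emod_add_mul_ediv (-q j) X.n
    refine ⟨-((-q j) / X.n), ?_⟩
    rw [ha]
    simp only
    linear_combination h1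
  by_cases hB : X.PB G i₁ i₂ (q + a)
  · exact ⟨q + a, a, Or.inr (Or.inl hB), Or.inl ha0, (add_sub_cancel_right _ _).symm⟩
  · have h1 : ∃ w, X.W i₁ i₂ w ∧ X.PA (q + a - w) := by
      by_contra h1
      push Not at h1
      refine hB ⟨fun j => hdv j, ?_, ⟨q, hq, fun j => ?_⟩, h1⟩
      · have := ha0 i₁
        rw [Pi.add_apply]
        omega
      · have := ha0 j
        rw [Pi.add_apply, add_sub_cancel_left, abs_le]
        omega
    obtain ⟨w, ⟨t, k, hk1, hk2, hk3⟩, hw⟩ := h1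
    obtain ⟨x, hx⟩ : ∃ x : Fin d → ℤ, x = fun j => q j - X.ctr i₁ i₂ t k j := ⟨_, rfl⟩
    have hxn : ∀ j, |x j| ≤ 2 * X.n := fun j => by
      have h2 := hk3 j
      have h3 := hw j
      have h4 := ha0 j
      have h5 := X.bb_le t
      rw [hx]
      simp only [Pi.sub_apply, Pi.add_apply] at h3 ⊢
      rw [abs_le] at h2 ⊢
      omega
    have hxb : ∃ j, X.bb t < |x j| := by
      by_contra h2
      push Not at h2
      refine hW ⟨t, k, hk1, hk2, fun j => ?_⟩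
      have := h2 j
      rwa [hx] at this
    have hqx : ∀ j, q j = X.ctr i₁ i₂ t k j + x j := fun j => by rw [hx]; ring
    rcases le_or_gt 0 k with hk | hk
    · rw [abs_of_nonneg hk] at hk1 hk2
      refine ⟨fun j => X.gpos i₁ (kap t k) j + X.ctr i₁ i₂ t k j + x j, X.gpos i₁ (kap t k),
        Or.inr (Or.inr (Or.inr (Or.inl ⟨t, k, hk1, hk2, Or.inr ⟨x, hxn, hxb, rfl⟩⟩))),
        Or.inr (Or.inr (Or.inr (Or.inl ⟨t, k, hk1, hk2, Or.inl rfl⟩))), ?_⟩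
      funext j
      rw [Pi.sub_apply, hqx j]
      ring
    · rw [abs_of_neg hk] at hk1 hk2
      refine ⟨X.gpos i₁ (kap t (-k)),
        fun j => X.gpos i₁ (kap t (-k)) j + X.ctr i₁ i₂ t (-k) j + (-x j),
        Or.inr (Or.inr (Or.inr (Or.inl ⟨t, -k, hk1, hk2, Or.inl rfl⟩))),
        Or.inr (Or.inr (Or.inr (Or.inl ⟨t, -k, hk1, hk2, Or.inr ⟨fun j => -x j, ?_, ?_, rfl⟩⟩))),
        ?_⟩
      · intro j
        rw [abs_neg]
        exact hxn j
      · obtain ⟨j, hj⟩ := hxb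
        exact ⟨j, by rwa [abs_neg]⟩
      · funext j
        rw [Pi.sub_apply, hqx j, X.ctr_neg i₁ i₂]
        ring

/-- **All small vectors outside the windows are differences.** -/
theorem cover_near (hG : ∀ q, G q → G (-q)) {q : Fin d → ℤ} (hq : G q)
    (hW : ¬ X.W i₁ i₂ q) :
    ∃ p p', X.P G i₁ i₂ p ∧ X.P G i₁ i₂ p' ∧ q = p - p' := by
  rcases le_total 0 (q i₁) with h | h
  · exact cover_pos h hq hW
  · obtain ⟨p, p', h1, h2, h3⟩ := cover_pos (X := X) (G := G) (i₁ := i₁) (i₂ := i₂) (q := -q)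
      (by rw [Pi.neg_apply]; omega) (hG q hq)
      (fun h => hW (W.neg_iff.mp h))
    exact ⟨p', p, h2, h1, by rw [← neg_sub, ← h3, neg_neg]⟩

/-- **The solid part of the far field.** -/
theorem cover_far (hne : i₁ ≠ i₂) {q : Fin d → ℤ} (h1 : ∃ l, X.ρ ≤ |q l|)
    (h2 : ∀ l, |q l| ≤ X.ρ₂) {i j : ℤ} (hi : 2 * |q i₁ - X.m * X.N * i| ≤ X.N + 2 * X.n')
    (hj : 2 * |q i₂ - (X.m + 1) * X.N * j| ≤ X.N + 2 * X.n') :
    ∃ p p', X.P G i₁ i₂ p ∧ X.P G i₁ i₂ p' ∧ q = p - p' := by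
  have hn' := X.n'_pos
  obtain ⟨b1, b2, b3, b4, b5, b6, b7⟩ := X.basic
  have hs := X.hs
  have hrs : X.r = 2 * X.s := rfl
  -- the target residue
  obtain ⟨v, hv⟩ : ∃ v : Fin d → ℤ, v = fun l => if l = i₁ then X.m * X.N * i else
    if l = i₂ then X.s + (X.m + 1) * X.N * j else 0 := ⟨_, rfl⟩
  obtain ⟨y, hy⟩ : ∃ y : Fin d → ℤ, y = fun l => (v l - q l) % X.n' := ⟨_, rfl⟩
  have hy0 : ∀ l, 0 ≤ y l ∧ y l < X.n' := fun l => by
    rw [hy]
    exact ⟨Int.emod_nonneg _ hn'.ne', Int.emod_lt_of_pos _ hn'⟩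
  have hdv : ∀ l, ∃ c, q l + y l = v l + X.n' * c := fun l => by
    have h1 := Int.emod_add_mul_ediv (v l - q l) X.n'
    refine ⟨-((v l - q l) / X.n'), ?_⟩
    rw [hy]
    simp only
    linear_combination h1
  have hv1 : v i₁ = X.m * X.N * i := by rw [hv]; simp only [if_true]
  have hv2 : v i₂ = X.s + (X.m + 1) * X.N * j := by
    rw [hv]
    simp only [if_neg hne.symm, if_true]
  obtain ⟨c₁, hc₁⟩ := hdv i₁
  obtain ⟨c₂, hc₂⟩ := hdv i₂
  rw [hv1] at hc₁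
  rw [hv2] at hc₂
  refine ⟨fun l => X.gpos i₁ 1 l + (q l + y l), fun l => X.gpos i₁ 1 l + y l,
    Or.inr (Or.inr (Or.inr (Or.inr ⟨i, j, c₁, c₂, ?_, ?_, ?_, ?_, ?_, ?_, ?_⟩))),
    Or.inr (Or.inr (Or.inl fun l => ?_)), ?_⟩
  · simp only [gpos_self]
    rw [hc₁]
    ring
  · have h3 := hy0 i₁
    have h4 : X.n' * c₁ = (q i₁ - X.m * X.N * i) + y i₁ := by linarith
    rw [h4]
    have := abs_add_le (q i₁ - X.m * X.N * i) (y i₁)
    rw [abs_of_nonneg h3.1] at this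
    omega
  · simp only [gpos_ne 1 hne.symm]
    rw [hc₂]
    ring
  · have h3 := hy0 i₂
    have h4 : X.n' * c₂ = (q i₂ - (X.m + 1) * X.N * j) + (y i₂ - X.s) := by linarith
    rw [h4]
    have h5 := abs_add_le (q i₂ - (X.m + 1) * X.N * j) (y i₂ - X.s)
    have h6 : |y i₂ - X.s| ≤ X.n' := by rw [abs_le]; omega
    omega
  · intro l hl1 hl2
    obtain ⟨c, hc⟩ := hdv l
    have : v l = 0 := by rw [hv]; simp only [if_neg hl1, if_neg hl2]
    simp only [gpos_ne 1 hl1]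
    rw [hc, this]
    exact ⟨c, by ring⟩
  · obtain ⟨l, hl⟩ := h1
    refine ⟨l, ?_⟩
    have h3 := hy0 l
    simp only [add_sub_cancel_left]
    have h4 := abs_sub (q l + y l) (y l)
    rw [add_sub_cancel_right, abs_of_nonneg h3.1] at h4
    omega
  · intro l
    have h3 := hy0 l
    have h4 := h2 l
    simp only [add_sub_cancel_left]
    have h5 := abs_add_le (q l) (y l)
    rw [abs_of_nonneg h3.1] at h5
    omega
  · simp only [add_sub_cancel_left]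
    exact hy0 l
  · funext l
    rw [Pi.sub_apply]
    ring

end IPar

end Pool.Agent.RC
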