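import Pool.Agent.Lib.MP_09cbbd_rc.GDef

/-!
# Rows and columns round a general hard core: the new contents of the gas
-/

set_option autoImplicit false

namespace Pool.Agent.RC

open MeasureTheory Finset Filter Topology
open Pool.Agent.StableGas hiding tr
open Pool.Agent.SquareWell hiding Md cut
open Pool.Agent.SquareWell.ModA
open Pool.Agent.Vdw (blk lift ball Lk Yk Wk Kc)
open Pool.Agent.Mix (Qr mem_Qr Trans Ct)
open Pool.Agent.Exg

variable {d : ℕ}

/-- The contents of `A` are non-empty, valid and away from the walls. -/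
def Awy (E : Set (Fin d → ℝ)) (A : Set (Ct (Fin d → ℝ))) (w : ℝ) : Prop :=
  ∀ x ∈ A, Vx E x ∧ x.1 ≠ 0 ∧ ∀ k < x.1, ∀ j, w ≤ x.2 k j ∧ x.2 k j ≤ 1 - w

theorem mem_occ {E : Set (Fin d → ℝ)} {S : Finset (Zd d)} {ω : Zd d → Ct (Fin d → ℝ)}
    {i : Zd d} : i ∈ occ E S ω ↔ i ∈ S ∧ Vx E (ω i) ∧ (ω i).1 ≠ 0 := by
  classical
  exact mem_filter

theorem occ_of {E : Set (Fin d → ℝ)} {S : Finset (Zd d)} {ω : Zd d → Ct (Fin d → ℝ)}
    {i : Zd d} (hi : i ∈ S) (h0 : ω i ≠ e0) (hod : ω i ∉ odI E) : i ∈ occ E S ω := by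
  rw [mem_occ]
  refine ⟨hi, ?_, ?_⟩
  · by_contra h
    exact hod ⟨h0, Or.inl h⟩
  · intro h
    exact hod ⟨h0, Or.inr h⟩

theorem bd_sub {i j : Zd d} {ω : Zd d → Ct (Fin d → ℝ)} (k l : ℕ) :
    Bd.bd posI ω i k - Bd.bd posI ω j l = (ω i).2 k - tr (j - i) ((ω j).2 l) := by
  funext c
  simp only [Bd.bd, posI, tr, Pi.sub_apply, Pi.add_apply, Int.cast_sub]
  ring

/-- A compatible configuration. -/
theorem conf_of_cp {P : Bd.Prm d} (G : Ng d P.E) {S : Finset (Zd d)}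
    {ω : Zd d → Ct (Fin d → ℝ)} (hω : G.cg.cp id S ω) : Bd.Conf P (occ P.E S ω) posI ω where
  val := fun i hi => by
    obtain ⟨-, h1, -⟩ := mem_occ.1 hi
    exact ⟨fun k hk j => h1.1 k hk j, h1.2⟩
  comp := fun i hi j hj hij k hk l hl => by
    obtain ⟨hi1, hi2, -⟩ := mem_occ.1 hi
    obtain ⟨hj1, hj2, -⟩ := mem_occ.1 hj
    have h1 := (G.okc_iff hi2 hj2).1 (G.cg.cp_id.1 hω i hi1 j hj1 hij) k hk l hl
    have h2 := bd_sub (i := i) (j := j) (ω := ω) k l
    unfold Bd.bd at h2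
    rw [h2]
    exact h1

theorem occ_congr {E : Set (Fin d → ℝ)} {S : Finset (Zd d)} {ω ω' : Zd d → Ct (Fin d → ℝ)}
    (h : ∀ i ∈ S, ω i = ω' i) : occ E S ω = occ E S ω' := by
  ext i
  rw [mem_occ, mem_occ]
  constructor
  · rintro ⟨h1, h2⟩
    rw [h i h1] at h2
    exact ⟨h1, h2⟩
  · rintro ⟨h1, h2⟩
    rw [← h i h1] at h2
    exact ⟨h1, h2⟩

theorem mem_nwI {P : Bd.Prm d} {S : Finset (Zd d)} {ω : Zd d → Ct (Fin d → ℝ)} {i : Zd d} :
    i ∈ nwI P S ω ↔ i ∈ occ P.E S ω ∧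
      ¬ ∃ j ∈ occ P.E S ω, toLex j < toLex i ∧ Bd.sc P posI ω j i := by
  unfold nwI
  rw [Bd.mem_nw]
  rfl

theorem sc_congr {P : Bd.Prm d} {ω ω' : Zd d → Ct (Fin d → ℝ)} {i j : Zd d} (hi : ω i = ω' i)
    (hj : ω j = ω' j) : Bd.sc P posI ω j i ↔ Bd.sc P posI ω' j i := by
  unfold Bd.sc Bd.bd
  rw [hi, hj]

theorem measurable_sc {P : Bd.Prm d} (hN : MeasurableSet P.N) (i j : Zd d) :
    Measurable fun ω : Zd d → Ct (Fin d → ℝ) => Bd.sc P posI ω j i := by
  have h1 : ∀ l : Zd d, ∀ k : ℕ, Measurable fun ω : Zd d → Ct (Fin d → ℝ) => k < (ω l).1 :=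
    fun l k => measurable_lt_fst k (measurable_fst.comp (measurable_pi_apply l))
  have h2 : ∀ l : Zd d, ∀ k : ℕ, Measurable fun ω : Zd d → Ct (Fin d → ℝ) => Bd.bd posI ω l k :=
    fun l k => ((measurable_at k).comp (measurable_pi_apply l)).add_const _
  unfold Bd.sc
  refine Measurable.exists fun k => (h1 j k).and (Measurable.exists fun l => (h1 i l).and ?_)
  exact measurableSet_setOfPred.1 (((h2 j k).sub (h2 i l)) hN)

theorem measurable_mem_occ {E : Set (Fin d → ℝ)} (hE : MeasurableSet E) (S : Finset (Zd d))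
    (i : Zd d) : Measurable fun ω : Zd d → Ct (Fin d → ℝ) => i ∈ occ E S ω := by
  simp only [mem_occ]
  refine measurable_const.and (((measurable_Vx hE).comp (measurable_pi_apply i)).and ?_)
  have h1 : Measurable fun ω : Zd d → Ct (Fin d → ℝ) => (ω i).1 :=
    measurable_fst.comp (measurable_pi_apply i)
  exact measurableSet_setOfPred.1 (h1 (MeasurableSet.of_discrete (s := {n : ℕ | n ≠ 0})))

theorem measurableSet_odI {E : Set (Fin d → ℝ)} (hE : MeasurableSet E) :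
    MeasurableSet (odI E) := by
  have h1 : MeasurableSet {x : Ct (Fin d → ℝ) | ¬ Vx E x} :=
    (measurableSet_setOfPred.2 (measurable_Vx hE)).compl
  have h2 : MeasurableSet {x : Ct (Fin d → ℝ) | x.1 = 0} :=
    measurable_fst (MeasurableSet.of_discrete (s := {n : ℕ | n = 0}))
  have e : odI E = ({e0} : Set (Ct (Fin d → ℝ)))ᶜ ∩
      ({x : Ct (Fin d → ℝ) | ¬ Vx E x} ∪ {x : Ct (Fin d → ℝ) | x.1 = 0}) := by
    ext x
    simp [odI]
  rw [e]
  exact (measurableSet_singleton _).compl.inter (h1.union h2)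

/-- Beads of different cells, one of which is away from the walls. -/
theorem far_wall {ω : Zd d → Ct (Fin d → ℝ)} {i j : Zd d} (hij : i ≠ j) {k l : ℕ} {w : ℝ}
    (hi : ∀ c, w ≤ (ω i).2 k c ∧ (ω i).2 k c ≤ 1 - w)
    (hj : ∀ c, 0 ≤ (ω j).2 l c ∧ (ω j).2 l c < 1) :
    w ≤ ‖Bd.bd posI ω i k - Bd.bd posI ω j l‖ := by
  obtain ⟨c, hc⟩ : ∃ c, i c ≠ j c := by
    by_contra h
    push Not at h
    exact hij (funext h)
  refine le_trans ?_ (norm_le_pi_norm _ c)
  rw [Real.norm_eq_abs]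
  simp only [Bd.bd, posI, Pi.sub_apply, Pi.add_apply]
  have h1 := hi c
  have h2 := hj c
  rcases lt_or_gt_of_ne hc with h | h
  · have h3 : (i c : ℝ) + 1 ≤ j c := by exact_mod_cast h
    rw [abs_sub_comm]
    exact le_trans (by linarith) (le_abs_self _)
  · have h3 : (j c : ℝ) + 1 ≤ i c := by exact_mod_cast h
    exact le_trans (by linarith) (le_abs_self _)

/-- A content away from the walls is alone in its class. -/
theorem not_sc {P : Bd.Prm d} (hP : P.Ok) (hm : P.Sm) {T : Finset (Zd d)}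
    {ω : Zd d → Ct (Fin d → ℝ)} (hC : Bd.Conf P T posI ω) {A : Set (Ct (Fin d → ℝ))} {w : ℝ}
    (hA : Awy P.E A w) (hw : P.mB * P.α ≤ w) {i j : Zd d} (hi : i ∈ T) (hj : j ∈ T)
    (hij : i ≠ j) (hiA : ω i ∈ A) : ¬ Bd.sc P posI ω i j := by
  rintro ⟨k, hk, l, hl, hN⟩
  have h1 := Bd.win_lt hP hm hN (hC.comp i hi j hj hij k hk l hl)
  have h2 := far_wall hij (fun c => (hA _ hiA).2.2 k hk c) fun c => (hC.val j hj).cube l hl c
  linarith

/-- Two pieces of one molecule are in neighbouring cells. -/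
theorem sc_Qr {P : Bd.Prm d} (hP : P.Ok) (hm : P.Sm) {T : Finset (Zd d)}
    {ω : Zd d → Ct (Fin d → ℝ)} (hC : Bd.Conf P T posI ω) {i j : Zd d} (hi : i ∈ T) (hj : j ∈ T)
    (hij : i ≠ j) (h : Bd.sc P posI ω i j) : j - i ∈ Qr d 1 := by
  obtain ⟨k, hk, l, hl, -⟩ := id h
  have h1 := Bd.sc_lt hP hm hC hi hj hij h hk hl
  have h2 := hm.s8
  have h0 := Bd.mα_pos hP hm
  rw [mem_Qr]
  intro c
  have h3 := (norm_le_pi_norm (Bd.bd posI ω i k - Bd.bd posI ω j l) c).trans_lt h1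
  rw [Real.norm_eq_abs] at h3
  simp only [Bd.bd, posI, Pi.sub_apply, Pi.add_apply] at h3
  have h4 := (hC.val i hi).cube k hk c
  have h5 := (hC.val j hj).cube l hl c
  have h6 : |((j c - i c : ℤ) : ℝ)| < 2 := by
    push_cast
    rw [abs_lt] at h3 ⊢
    constructor <;> linarith [h3.1, h3.2]
  have h7 : |j c - i c| < 2 := by exact_mod_cast h6
  rw [Pi.sub_apply]
  push_cast
  omega

/-- **The new contents of the gas.** -/
theorem ldrI {P : Bd.Prm d} (hP : P.Ok) (hm : P.Sm) (hN : MeasurableSet P.N) (G : Ng d P.E)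
    {A B : Set (Ct (Fin d → ℝ))} {w : ℝ} (hA : Awy P.E A w) (hB : Awy P.E B w)
    (hw : P.mB * P.α ≤ w) : Ldr G.cg A B (odI P.E) (fun k => Mx P.N k) (nwI P) where
  od_meas := measurableSet_odI G.hE
  e0_od := fun h => h.1 rfl
  od_nf := fun v x y hx hVx hVy => by
    rcases hx.2 with h | h
    · exact absurd hVx h
    · exact ⟨fun a ha => by omega, fun _ a ha => by omega⟩
  meas := fun S i => by
    simp only [mem_nwI]
    refine measurableSet_setOfPred.2 ((measurable_mem_occ G.hE S i).and (Measurable.not ?_))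
    have e : (fun ω : Zd d → Ct (Fin d → ℝ) => ∃ j ∈ occ P.E S ω, toLex j < toLex i ∧
        Bd.sc P posI ω j i) = fun ω => ∃ j : Zd d, j ∈ occ P.E S ω ∧ toLex j < toLex i ∧
        Bd.sc P posI ω j i := rfl
    rw [e]
    exact Measurable.exists fun j => (measurable_mem_occ G.hE S j).and
      (measurable_const.and (measurable_sc hN i j))
  dep := fun S ω ω' h => by
    ext i
    rw [mem_nwI, mem_nwI, occ_congr h]
    refine and_congr_right fun hi => not_congr (exists_congr fun j => and_congr_right fun hj => ?_)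
    rw [sc_congr (h i (mem_occ.1 hi).1) (h j (mem_occ.1 hj).1)]
  sub := fun S ω i hi => (mem_occ.1 (mem_nwI.1 hi).1).1
  ne := fun S ω i hi => by
    obtain ⟨-, h1, h2⟩ := mem_occ.1 (mem_nwI.1 hi).1
    refine ⟨fun h => h2 (by rw [h]; rfl), fun h => ?_⟩
    rcases h.2 with h | h
    · exact h h1
    · exact h2 h
  AB := fun S ω hω i hi hAB => by
    have hC := conf_of_cp G hω
    have hio : i ∈ occ P.E S ω := by
      rw [mem_occ]
      rcases hAB with h | h
      · exact ⟨hi, (hA _ h).1, (hA _ h).2.1⟩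
      · exact ⟨hi, (hB _ h).1, (hB _ h).2.1⟩
    rw [mem_nwI]
    refine ⟨hio, ?_⟩
    rintro ⟨j, hj, hlt, hsc⟩
    have hij : i ≠ j := fun h => by
      rw [h] at hlt
      exact lt_irrefl _ hlt
    have hsc' := Bd.sc_symm hm hsc
    rcases hAB with h | h
    · exact not_sc hP hm hC hA hw hio hj hij h hsc'
    · exact not_sc hP hm hC hB hw hio hj hij h hsc'
  lead := fun S ω hω i hi h0 hod hn => by
    have hC := conf_of_cp G hω
    have hio := occ_of hi h0 hod
    obtain ⟨l, hl, hil⟩ := Bd.exists_leader hP hm hC (toLex : Zd d → Lex (Zd d)) hio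
    have hl' : l ∈ nwI P S ω := hl
    have hlo := (mem_nwI.1 hl').1
    have hli : i ≠ l := fun h => hn (h ▸ hl')
    have hsc : Bd.sc P posI ω l i := (Bd.mem_cl.1 hil).2.resolve_left hli
    refine ⟨l, hl', ?_, ?_⟩
    · exact sc_Qr hP hm hC hio hlo hli (Bd.sc_symm hm hsc)
    · rintro (h | h)
      · exact not_sc hP hm hC hA hw hlo hio hli.symm h hsc
      · exact not_sc hP hm hC hB hw hlo hio hli.symm h hsc
  pack := fun k z ω hω => by
    have hC := conf_of_cp G hω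
    refine Bd.card_nw_le hP hm hC (o := (toLex : Zd d → Lex (Zd d))) toLex.injective
      (fun i hi => Nat.one_le_iff_ne_zero.2 (mem_occ.1 hi).2.2) (k := k)
      (c := fun j => (k : ℝ) * z j) fun i hi j => ?_
    obtain ⟨h1, h2, h3⟩ := mem_occ.1 hi
    have h4 := Vdw.mem_blk.1 h1 j
    have h5 := h2.1 0 (Nat.pos_of_ne_zero h3) j
    rw [Set.mem_Ico] at h5
    have h6 : (k : ℝ) * z j ≤ i j := by exact_mod_cast h4.1
    have h7 : (i j : ℝ) + 1 ≤ k * z j + k := by exact_mod_cast h4.2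
    simp only [Bd.bd, posI, Pi.add_apply]
    constructor <;> linarith

end Pool.Agent.RC
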