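import Pool.Agent.Lib.MP_09cbbd_rc.Posn
import Pool.Agent.Lib.MP_09cbbd_rc.Inst
import Pool.Agent.Lib.MP_09cbbd_rc.Cell

/-!
# Full molecules at prescribed positions

The sets `Full E i α δ M (Sbx o s h i')` are invariant under the moves of all beads in the directions
`j ≠ i'` which keep the first bead in its intervals of length `h`, and separated positions give the
near field compatibility.
-/

set_option autoImplicit false

namespace Pool.Agent.RC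

open MeasureTheory Finset Filter Topology
open Pool.Agent.StableGas hiding tr
open Pool.Agent.SquareWell hiding Md cut
open Pool.Agent.SquareWell.ModA
open Pool.Agent.Mix (Qr mem_Qr Trans Ct)
open Pool.Agent.Exg Pool.Agent.RC.Cell

variable {d : ℕ} {E : Set (Fin d → ℝ)}

/-- A move of a full molecule. -/
theorem Full_move {i i' : Fin d} {α δ h ρ s : ℝ} {M : ℕ} (hM : 1 ≤ M) (hh : 0 < h)
    {o : Fin d → ℝ} {x y : Ct (Fin d → ℝ)} (hx : x ∈ Full E i α δ M (Sbx o s h i'))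
    (hρ : ∀ k, k < x.1 → ∀ j, |x.2 k j - x.2 0 j| ≤ ρ)
    (hB : ∀ z ∈ Sbx o s h i', ∀ w : Fin d → ℝ, (∀ j, |w j| ≤ ρ) →
      z + w ∈ SquareWellGas.Box d 1) (hy : y.1 = x.1) {t : Fin d → ℝ} (ht0 : t i' = 0)
    (ht : ∀ k, k < x.1 → ∀ j, y.2 k j = x.2 k j + t j)
    (hf : ∀ j, j ≠ i' → ⌊y.2 0 j / h⌋ = ⌊x.2 0 j / h⌋) :
    y ∈ Full E i α δ M (Sbx o s h i') := by
  obtain ⟨h1, h2, h3, h4⟩ := hx
  have h0 : 0 < x.1 := by omega
  have hdiff : ∀ k, k < x.1 → ∀ l, l < x.1 → y.2 k - y.2 l = x.2 k - x.2 l := by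
    intro k hk l hl
    funext j
    rw [Pi.sub_apply, Pi.sub_apply, ht k hk, ht l hl]
    ring
  have hy0 : y.2 0 ∈ Sbx o s h i' := by
    refine Sbx_move hh h4 ?_ hf
    rw [ht 0 h0, ht0, add_zero]
  refine ⟨hy.trans h1, ⟨fun k hk => ?_, fun k hk l hl hkl => ?_⟩, fun k hk l hl hkl => ?_, hy0⟩
  · rw [hy] at hk
    have e : y.2 k = y.2 0 + (x.2 k - x.2 0) := by
      rw [← hdiff k hk 0 h0]
      abel
    rw [e]
    exact hB _ hy0 _ fun j => by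
      rw [Pi.sub_apply]
      exact hρ k hk j
  · rw [hy] at hk hl
    rw [hdiff k hk l hl]
    exact h2.2 k hk l hl hkl
  · rw [hy] at hk hl
    rw [hdiff k hk l hl]
    exact h3 k hk l hl hkl

/-- Separated positions give the near field compatibility. -/
theorem nf_Full (G : Ng d E) {i : Fin d} {α δ ρ : ℝ} {M : ℕ} {S S' : Set (Fin d → ℝ)}
    {v : Zd d} {x y : Ct (Fin d → ℝ)} (hx : x ∈ Full E i α δ M S) (hy : y ∈ Full E i α δ M S')
    (hρx : ∀ k, k < x.1 → ∀ j, |x.2 k j - x.2 0 j| ≤ ρ)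
    (hρy : ∀ k, k < y.1 → ∀ j, |y.2 k j - y.2 0 j| ≤ ρ)
    (hsep : ∀ z ∈ S, ∀ z' ∈ S', ∀ w : Fin d → ℝ, (∀ j, |w j| ≤ 2 * ρ) →
      z - tr v z' + w ∉ G.Nk 0) : G.cg.nf 0 v x y := by
  intro _ _
  refine ⟨fun a ha b hb h1 => ?_, fun h0 => absurd h0 (by omega)⟩
  exfalso
  refine hsep _ hx.2.2.2 _ hy.2.2.2
    ((x.2 a - x.2 0) - (y.2 b - y.2 0)) (fun j => ?_) ?_
  · rw [Pi.sub_apply, Pi.sub_apply, Pi.sub_apply]
    have h2 := abs_sub (x.2 a j - x.2 0 j) (y.2 b j - y.2 0 j)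
    have h3 := hρx a ha j
    have h4 := hρy b hb j
    linarith
  · have e : x.2 0 - tr v (y.2 0) + ((x.2 a - x.2 0) - (y.2 b - y.2 0)) =
        x.2 a - tr v (y.2 b) := by
      funext j
      simp only [tr, Pi.sub_apply, Pi.add_apply]
      ring
    rw [e]
    exact h1

/-- Separation of the boxes of the cubic pattern. -/
theorem sep_cube {n : ℕ} (hn : 1 ≤ n) {i j : Zd d} (hij : i ≠ j)
    (hi : (fun k => i k % ((n + 1 : ℕ) : ℤ)) ∈ bx d n)
    (hj : (fun k => j k % ((n + 1 : ℕ) : ℤ)) ∈ bx d n) {h ρ τ : ℝ} {i' : Fin d}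
    (hρ : 2 * ρ + τ ≤ 3 / (4 * (n : ℝ))) {z z' w : Fin d → ℝ}
    (hz : z ∈ Sbx (fun k => off n (i k % ((n + 1 : ℕ) : ℤ))) (1 / (4 * n)) h i')
    (hz' : z' ∈ Sbx (fun k => off n (j k % ((n + 1 : ℕ) : ℤ))) (1 / (4 * n)) h i')
    (hw : ∀ j, |w j| ≤ 2 * ρ) : ∃ k, 1 + τ ≤ |(z - tr (j - i) z' + w) k| := by
  have hb : ∀ l : Zd d, (fun k => l k % ((n + 1 : ℕ) : ℤ)) ∈ bx d n → ∀ k,
      l k % ((n + 1 : ℕ) : ℤ) < n := by
    intro l hl k
    unfold bx at hl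
    rw [Fintype.mem_piFinset] at hl
    exact (mem_Ico.1 (hl k)).2
  obtain ⟨k, hk⟩ := off_sep hn hij (hb i hi) (hb j hj)
    (fun k => ⟨(hz.1 k).1, (hz.1 k).2.le⟩) (fun k => ⟨(hz'.1 k).1, (hz'.1 k).2.le⟩)
  refine ⟨k, ?_⟩
  have e : (z - tr (j - i) z' + w) k = (z k - (z' k + ((j - i) k : ℤ))) + w k := by
    simp only [tr, Pi.sub_apply, Pi.add_apply]
  rw [e]
  have h2 := hw k
  have h3 := abs_sub_abs_le_abs_sub (z k - (z' k + ((j - i) k : ℤ))) (-(w k))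
  rw [abs_neg, sub_neg_eq_add] at h3
  linarith

/-- The boxes of the cubic pattern are away from the walls. -/
theorem marg_cube {n : ℕ} (hn : 1 ≤ n) {f : Zd d} (hf : f ∈ bx d n) {h q : ℝ} {i' : Fin d}
    {z w : Fin d → ℝ}
    (hz : z ∈ Sbx (fun k => off n (f k)) (1 / (4 * n)) h i') (hw : ∀ j, |w j| ≤ q) (j : Fin d) :
    1 / (4 * (n : ℝ)) - q ≤ (z + w) j ∧ (z + w) j < 1 - (1 / (4 * (n : ℝ)) - q) := by
  have hn' : (0 : ℝ) < n := by exact_mod_cast hn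
  unfold bx at hf
  rw [Fintype.mem_piFinset] at hf
  have h1 := mem_Ico.1 (hf j)
  have h2 := off_nonneg hn h1.1
  have h3 := off_le hn h1.2
  have h4 := hz.1 j
  have h5 := abs_le.1 (hw j)
  rw [Pi.add_apply]
  have h6 : (1 : ℝ) / (2 * n) = 1 / (4 * n) + 1 / (4 * n) := by
    field_simp
    norm_num
  have h7 : (0 : ℝ) < 1 / (4 * n) := by positivity
  constructor <;> linarith

end Pool.Agent.RC
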