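import Pool.Agent.Lib.MP_09cbbd_rc.Rot
import Pool.Agent.Lib.MP_09cbbd_rc.Geo
import Pool.Agent.Lib.MP_09cbbd_rc.Inst
import Pool.Agent.Lib.MP_09cbbd_rc.CGM

/-!
# Rows and columns: measure preserving moves of the contents, and the far field
-/

set_option autoImplicit false

namespace Pool.Agent.RC

open MeasureTheory Finset Pool.Agent.SquareWellGas Pool.Agent.SquareWell.ModA
open Pool.Agent.StableGas hiding tr
open Pool.Agent.Exg
open Pool.Agent.Mix Ct

variable {d : ℕ} {h θ : ℝ}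

/-! ### The move -/

/-- The displacement: all coordinates except `i` are rotated in their `h`-intervals. -/
noncomputable def dv (h : ℝ) (i : Fin d) (θ : ℝ) (z : Fin d → ℝ) : Fin d → ℝ :=
  fun j => if j = i then 0 else rs h θ (z j)

/-- Move of a content in all directions except `i`. -/
noncomputable def TT (h : ℝ) (i : Fin d) (θ : ℝ) (x : Ct (Fin d → ℝ)) : Ct (Fin d → ℝ) :=
  (x.1, fun k => if k < x.1 then x.2 k + dv h i θ (x.2 0) else x.2 k)

theorem TT_fst (h : ℝ) (i : Fin d) (θ : ℝ) (x : Ct (Fin d → ℝ)) : (TT h i θ x).1 = x.1 := rfl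

theorem TT_snd {h : ℝ} {i : Fin d} {θ : ℝ} {x : Ct (Fin d → ℝ)} {k : ℕ} (hk : k < x.1) :
    (TT h i θ x).2 k = x.2 k + dv h i θ (x.2 0) := if_pos hk

theorem TT_apply {h : ℝ} {i j : Fin d} {θ : ℝ} {x : Ct (Fin d → ℝ)} {k : ℕ} (hk : k < x.1)
    (hj : j ≠ i) : (TT h i θ x).2 k j = x.2 k j + rs h θ (x.2 0 j) := by
  rw [TT_snd hk, Pi.add_apply]
  unfold dv
  rw [if_neg hj]

theorem TT_apply_self {h : ℝ} {i : Fin d} {θ : ℝ} {x : Ct (Fin d → ℝ)} {k : ℕ} (hk : k < x.1) :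
    (TT h i θ x).2 k i = x.2 k i := by
  rw [TT_snd hk, Pi.add_apply]
  unfold dv
  rw [if_pos rfl, add_zero]

theorem TT_sub {h : ℝ} {i : Fin d} {θ : ℝ} {x : Ct (Fin d → ℝ)} {k l : ℕ} (hk : k < x.1)
    (hl : l < x.1) : (TT h i θ x).2 k - (TT h i θ x).2 l = x.2 k - x.2 l := by
  rw [TT_snd hk, TT_snd hl, add_sub_add_right_eq_sub]

theorem TT_e0 (h : ℝ) (i : Fin d) (θ : ℝ) : TT h i θ (e0 : Ct (Fin d → ℝ)) = e0 := by
  unfold TT e0
  simp

theorem measurable_TT (h : ℝ) (i : Fin d) :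
    Measurable (Function.uncurry (TT (d := d) h i)) := by
  have h1 : Measurable fun p : ℝ × Ct (Fin d → ℝ) => p.2.1 := measurable_fst.comp measurable_snd
  refine h1.prodMk (measurable_pi_lambda _ fun k => ?_)
  have h2 : Measurable fun p : ℝ × Ct (Fin d → ℝ) => p.2.2 k :=
    (measurable_at k).comp measurable_snd
  have h3 : ∀ j, Measurable fun p : ℝ × Ct (Fin d → ℝ) => p.2.2 0 j := fun j =>
    (measurable_pi_apply j).comp ((measurable_at 0).comp measurable_snd)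
  refine Measurable.ite ?_ (h2.add ?_) h2
  · exact measurableSet_setOfPred.2 (measurable_lt_fst k h1)
  · refine measurable_pi_lambda _ fun j => ?_
    unfold dv
    by_cases hj : j = i
    · simp only [if_pos hj]
      exact measurable_const
    · simp only [if_neg hj]
      exact (measurable_rs h).comp (measurable_fst.prodMk (h3 j))

theorem TT_pad (h : ℝ) (i : Fin d) (θ : ℝ) {n : ℕ} (u : Fin (n + 1) → Fin d → ℝ) :
    TT h i θ (Ct.pad (0 : Fin d → ℝ) u) = Ct.pad 0 (TS h (univ.erase i) θ u) := by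
  have e0 : (Ct.pad (0 : Fin d → ℝ) u).2 0 = u 0 := pad_snd 0 u 0
  unfold TT
  rw [e0]
  refine Prod.ext rfl ?_
  funext k
  show (if k < n + 1 then (Ct.pad (0 : Fin d → ℝ) u).2 k + dv h i θ (u 0)
    else (Ct.pad (0 : Fin d → ℝ) u).2 k) =
      (Ct.pad (0 : Fin d → ℝ) (TS h (univ.erase i) θ u)).2 k
  by_cases hk : k < n + 1
  · rw [if_pos hk]
    have e1 := pad_snd (0 : Fin d → ℝ) u ⟨k, hk⟩
    have e2 := pad_snd (0 : Fin d → ℝ) (TS h (univ.erase i) θ u) ⟨k, hk⟩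
    simp only at e1 e2
    rw [e1, e2]
    funext j
    show u ⟨k, hk⟩ j + dv h i θ (u 0) j =
      u ⟨k, hk⟩ j + (if j ∈ univ.erase i then rs h θ (u 0 j) else 0)
    unfold dv
    by_cases hj : j = i
    · rw [if_pos hj, if_neg (fun h => (mem_erase.1 h).1 hj)]
    · rw [if_neg hj, if_pos (mem_erase.2 ⟨hj, mem_univ j⟩)]
  · rw [if_neg hk]
    unfold Ct.pad
    simp only [dif_neg hk]

/-- **The moves preserve the measure** on every set of contents which is invariant. -/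
theorem mp_TT {E : Set (Fin d → ℝ)} (hE : MeasurableSet E) (h0 : 0 ≤ θ) (h1 : θ < h) (i : Fin d)
    {Cl : Set (Ct (Fin d → ℝ))} (hCl : MeasurableSet Cl) (hV : ∀ x ∈ Cl, Vx E x)
    (hinv : ∀ x, TT h i θ x ∈ Cl ↔ x ∈ Cl) :
    MeasurePreserving (TT h i θ) ((sys hE).pg.restrict Cl) ((sys hE).pg.restrict Cl) := by
  have hm : Measurable (TT (d := d) h i θ) :=
    (measurable_TT h i).comp (measurable_const.prodMk measurable_id)
  refine ⟨hm, ?_⟩
  ext B hB
  rw [Measure.map_apply hm hB, Measure.restrict_apply (hm hB), Measure.restrict_apply hB,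
    pg_apply hE ((hm hB).inter hCl), pg_apply hE (hB.inter hCl)]
  refine tsum_congr fun n => ?_
  congr 1
  rcases n with _ | n
  · congr 1
  · have hsub : ∀ B' : Set (Ct (Fin d → ℝ)),
        {u ∈ Cf E (Fin (n + 1)) (Box d 1) | Ct.pad (0 : Fin d → ℝ) u ∈ B' ∩ Cl} =
        {u | Ct.pad (0 : Fin d → ℝ) u ∈ B' ∩ Cl} := by
      intro B'
      ext u
      simp only [Set.mem_ofPred_eq]
      exact ⟨fun h => h.2, fun h => ⟨(Vx_pad_iff u).1 (hV _ h.2), h⟩⟩
    rw [hsub, hsub]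
    have e : {u : Fin (n + 1) → Fin d → ℝ | Ct.pad (0 : Fin d → ℝ) u ∈ TT h i θ ⁻¹' B ∩ Cl} =
        TS h (univ.erase i) θ ⁻¹' {u | Ct.pad (0 : Fin d → ℝ) u ∈ B ∩ Cl} := by
      ext u
      simp only [Set.mem_ofPred_eq, Set.mem_inter_iff, Set.mem_preimage]
      rw [← TT_pad, hinv]
    have hms : MeasurableSet {u : Fin (n + 1) → Fin d → ℝ | Ct.pad (0 : Fin d → ℝ) u ∈ B ∩ Cl} :=
      measurable_pad _ _ (hB.inter hCl)
    rw [e, (mp_TS h0 h1 (univ.erase i) n).measure_preimage hms.nullMeasurableSet]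

/-! ### Near field and far field -/

/-- A vector outside `Nk (k + 1)` moved by at most `h` in every coordinate is outside `Nk k`. -/
structure Nest (d : ℕ) (h : ℝ) (Nk : ℕ → Set (Fin d → ℝ)) : Prop where
  mono : ∀ k, Nk k ⊆ Nk (k + 1)
  shift : ∀ k, ∀ u v : Fin d → ℝ, u ∉ Nk (k + 1) → (∀ j, |v j| ≤ h) → u + v ∉ Nk k

/-- **Moves and near fields.** -/
theorem nfp_TT {E : Set (Fin d → ℝ)} {Nk : ℕ → Set (Fin d → ℝ)} (hN : Nest d h Nk)
    (h0 : 0 ≤ θ) (h1 : θ < h) (i : Fin d) {k : ℕ} {v : Zd d} {x y : Ct (Fin d → ℝ)}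
    (hxy : nfp E Nk (k + 1) v x y) : nfp E Nk k v (TT h i θ x) y := by
  have hh : 0 < h := h0.trans_lt h1
  have hmove : ∀ p, p < x.1 → ∀ q, q < y.1 → (TT h i θ x).2 p - tr v (y.2 q) ∉ Nk k := by
    intro p hp q hq
    have e : (TT h i θ x).2 p - tr v (y.2 q) =
        (x.2 p - tr v (y.2 q)) + dv h i θ (x.2 0) := by
      rw [TT_snd hp]
      abel
    rw [e]
    refine hN.shift k _ _ (hxy.2 (by omega) p hp q hq) fun j => ?_
    unfold dv
    split_ifs
    · rw [abs_zero]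
      exact hh.le
    · exact abs_rs_le hh h0 h1 _
  have hmono : ∀ k, Nk 0 ⊆ Nk k := by
    intro k
    induction k with
    | zero => exact fun _ h => h
    | succ k ih => exact fun u hu => hN.mono k (ih hu)
  exact ⟨fun p hp q hq h2 => absurd (hmono k h2) (hmove p hp q hq),
    fun _ p hp q hq => hmove p hp q hq⟩

/-! ### Good contents of one type -/

/-- Good contents of one type, along the direction `i`: `t₀ ≤ 4 · (number of beads)`, at most `n`
beads, all differences in `Q`, away from the walls; the conditions on the coordinates `j ≠ i` of the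
moves are conditions on the `h`-intervals. -/
def Ty (i : Fin d) (t₀ n : ℕ) (Q : Set (Fin d → ℝ)) (h w : ℝ) : Set (Ct (Fin d → ℝ)) :=
  {x | t₀ ≤ 4 * x.1 ∧ x.1 ≤ n ∧
    (∀ k, k < x.1 → ∀ l, l < x.1 → k ≠ l → x.2 k - x.2 l ∈ Q) ∧
    (∀ k, k < x.1 → w ≤ x.2 k i ∧ x.2 k i ≤ 1 - w) ∧
    ∀ j, j ≠ i → w ≤ h * ⌊x.2 0 j / h⌋ ∧ h * ⌊x.2 0 j / h⌋ + h ≤ 1 - w}

theorem measurable_base (h : ℝ) (i : Fin d) :
    Measurable fun x : Ct (Fin d → ℝ) => h * (⌊x.2 0 i / h⌋ : ℝ) := by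
  have h1 : Measurable fun x : Ct (Fin d → ℝ) => ⌊x.2 0 i / h⌋ :=
    (((measurable_pi_apply i).comp (measurable_at 0)).div_const h).floor
  have h2 : Measurable fun z : ℤ => (z : ℝ) := measurable_of_countable _
  exact (h2.comp h1).const_mul h

theorem measurableSet_Ty (i : Fin d) (t₀ n : ℕ) {Q : Set (Fin d → ℝ)} (hQ : MeasurableSet Q)
    (h w : ℝ) : MeasurableSet (Ty i t₀ n Q h w) := by
  refine measurableSet_setOfPred.2 ?_
  have hn : ∀ P : ℕ → Prop, Measurable fun x : Ct (Fin d → ℝ) => P x.1 := fun P =>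
    measurableSet_setOfPred.1 (measurable_fst (MeasurableSet.of_discrete (s := {n | P n})))
  refine (hn fun k => t₀ ≤ 4 * k).and ((hn fun k => k ≤ n).and
    (Measurable.and ?_ (Measurable.and ?_ ?_)))
  · refine Measurable.forall fun k => (measurable_lt_fst k measurable_fst).imp ?_
    refine Measurable.forall fun l => (measurable_lt_fst l measurable_fst).imp ?_
    exact measurable_const.imp (measurableSet_setOfPred.1
      (((measurable_at k).sub (measurable_at l)) hQ))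
  · refine Measurable.forall fun k => (measurable_lt_fst k measurable_fst).imp ?_
    have hkj : Measurable fun x : Ct (Fin d → ℝ) => x.2 k i :=
      (measurable_pi_apply i).comp (measurable_at k)
    exact (measurableSet_setOfPred.1 (measurableSet_le measurable_const hkj)).and
      (measurableSet_setOfPred.1 (measurableSet_le hkj measurable_const))
  · refine Measurable.forall fun j => measurable_const.imp ?_
    have hfl := measurable_base (d := d) h j
    exact (measurableSet_setOfPred.1 (measurableSet_le measurable_const hfl)).and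
      (measurableSet_setOfPred.1 (measurableSet_le (hfl.add_const h) measurable_const))

/-- The moves respect the `h`-intervals. -/
theorem TT_floor (h0 : 0 ≤ θ) (h1 : θ < h) {i j : Fin d} (hj : j ≠ i) {x : Ct (Fin d → ℝ)}
    (hx : 0 < x.1) : ⌊(TT h i θ x).2 0 j / h⌋ = ⌊x.2 0 j / h⌋ := by
  rw [TT_apply hx hj, floor_rs h0 h1]

theorem TT_mem_Ty (h0 : 0 ≤ θ) (h1 : θ < h) {i : Fin d} {t₀ n : ℕ} {Q : Set (Fin d → ℝ)} {w : ℝ}
    (ht : 1 ≤ t₀) (x : Ct (Fin d → ℝ)) :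
    TT h i θ x ∈ Ty i t₀ n Q h w ↔ x ∈ Ty i t₀ n Q h w := by
  unfold Ty
  simp only [Set.mem_ofPred_eq, TT_fst]
  constructor
  · rintro ⟨h2, h3, h4, h5, h6⟩
    have hx : 0 < x.1 := by omega
    refine ⟨h2, h3, fun k hk l hl hkl => ?_, fun k hk => ?_, fun j hj => ?_⟩
    · have h8 := h4 k hk l hl hkl
      rwa [TT_sub hk hl] at h8
    · have h8 := h5 k hk
      rwa [TT_apply_self hk] at h8
    · have h8 := h6 j hj
      rwa [TT_floor h0 h1 hj hx] at h8
  · rintro ⟨h2, h3, h4, h5, h6⟩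
    have hx : 0 < x.1 := by omega
    refine ⟨h2, h3, fun k hk l hl hkl => ?_, fun k hk => ?_, fun j hj => ?_⟩
    · rw [TT_sub hk hl]
      exact h4 k hk l hl hkl
    · rw [TT_apply_self hk]
      exact h5 k hk
    · rw [TT_floor h0 h1 hj hx]
      exact h6 j hj

/-- In the directions of the moves the beads agree up to `a`. -/
theorem Ty_close {i : Fin d} {t₀ n : ℕ} {Q : Set (Fin d → ℝ)} {a w : ℝ} (ha : 0 ≤ a) {j : Fin d}
    (hQ : ∀ u ∈ Q, |u j| ≤ a) {x : Ct (Fin d → ℝ)} (hx : x ∈ Ty i t₀ n Q h w) {k l : ℕ}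
    (hk : k < x.1) (hl : l < x.1) : |x.2 k j - x.2 l j| ≤ a := by
  by_cases hkl : k = l
  · rw [hkl, sub_self, abs_zero]
    exact ha
  · exact hQ _ (hx.2.2.1 k hk l hl hkl)

/-- The good contents are away from the walls. -/
theorem Ty_wall {i : Fin d} {t₀ n : ℕ} {Q : Set (Fin d → ℝ)} {a w : ℝ} (ht : 1 ≤ t₀)
    (hh : 0 < h) (ha : 0 ≤ a) (hQ : ∀ u ∈ Q, ∀ j, j ≠ i → |u j| ≤ a) {x : Ct (Fin d → ℝ)}
    (hx : x ∈ Ty i t₀ n Q h w) {k : ℕ} (hk : k < x.1) (j : Fin d) :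
    w - a ≤ x.2 k j ∧ x.2 k j ≤ 1 - (w - a) := by
  by_cases hj : j = i
  · subst hj
    have h8 := hx.2.2.2.1 k hk
    exact ⟨by linarith [h8.1], by linarith [h8.2]⟩
  · have hx0 : 0 < x.1 := by omega
    have hb := base_add hh (x.2 0 j)
    have hf := fract_bds hh (x.2 0 j)
    have h6 := hx.2.2.2.2 j hj
    have h8 := abs_le.1 (Ty_close ha (fun u hu => hQ u hu j hj) hx hk hx0)
    constructor
    · linarith [h8.1, h6.1, hf.1]
    · linarith [h8.2, h6.2, hf.2]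

/-- The good contents are valid. -/
theorem Ty_Vx {E : Set (Fin d → ℝ)} {i : Fin d} {t₀ n : ℕ} {Q : Set (Fin d → ℝ)} {a w : ℝ}
    (ht : 1 ≤ t₀) (hh : 0 < h) (ha : 0 ≤ a) (haw : a < w)
    (hQ : ∀ u ∈ Q, ∀ j, j ≠ i → |u j| ≤ a)
    (hE : ∀ u ∈ Q, u ∉ E) {x : Ct (Fin d → ℝ)} (hx : x ∈ Ty i t₀ n Q h w) : Vx E x := by
  refine ⟨fun k hk j => ?_, fun k hk l hl hkl => hE _ (hx.2.2.1 k hk l hl hkl)⟩
  have h8 := Ty_wall ht hh ha hQ hx hk j
  exact ⟨by linarith [h8.1], by linarith [h8.2]⟩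

/-! ### Thin sets -/

theorem Thin.multi {p ε : ℝ} (hp : 0 ≤ p) (hε : 0 ≤ ε) {J : Set ℝ} (hJ : Thin p ε J) (N : ℕ)
    (x : ℝ) : volume (J ∩ Set.Ico x (x + N * p)) ≤ ENNReal.ofReal (N * (ε * p)) := by
  induction N with
  | zero => simp
  | succ N ih =>
    have h1 : J ∩ Set.Ico x (x + ((N + 1 : ℕ) : ℝ) * p) ⊆
        (J ∩ Set.Ico x (x + N * p)) ∪ (J ∩ Set.Ico (x + N * p) (x + N * p + p)) := by
      rintro y ⟨h2, h3, h4⟩
      push_cast at h4
      by_cases h5 : y < x + N * p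
      · exact Or.inl ⟨h2, h3, h5⟩
      · exact Or.inr ⟨h2, not_lt.1 h5, by linarith⟩
    refine (measure_mono h1).trans ((measure_union_le _ _).trans
      ((add_le_add ih (hJ.vol (x + N * p))).trans (le_of_eq ?_)))
    rw [← ENNReal.ofReal_add (by positivity) (by positivity)]
    congr 1
    push_cast
    ring

theorem measurableSet_Nr (p r : ℝ) : MeasurableSet {x : ℝ | Nr p r x} := by
  have e : {x : ℝ | Nr p r x} = ⋃ i : ℤ, {x : ℝ | |x - i * p| ≤ r} := by
    ext x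
    simp [Nr]
  rw [e]
  exact MeasurableSet.iUnion fun i =>
    measurableSet_le ((measurable_id.sub_const _).abs) measurable_const

theorem thin_Nr {p r : ℝ} (hp : 0 < p) :
    Thin p (2 * r / p) {x : ℝ | Nr p r x} := by
  refine ⟨measurableSet_Nr p r, fun x => ?_⟩
  have e1 : 2 * r / p * p = 2 * r := div_mul_cancel₀ _ hp.ne'
  rw [e1]
  set i0 : ℤ := ⌈(x - r) / p⌉ with hi0
  have h1 : x - r ≤ i0 * p := by
    have := Int.le_ceil ((x - r) / p)
    rwa [div_le_iff₀ hp] at this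
  have h2 : (i0 : ℝ) * p < x - r + p := by
    have h3 := Int.ceil_lt_add_one ((x - r) / p)
    have h4 : (i0 : ℝ) * p < ((x - r) / p + 1) * p := mul_lt_mul_of_pos_right h3 hp
    rwa [add_mul, div_mul_cancel₀ _ hp.ne', one_mul] at h4
  have hsub : {x : ℝ | Nr p r x} ∩ Set.Ico x (x + p) ⊆
      Set.Icc (max x (i0 * p - r)) (i0 * p + r) ∪ Set.Ico ((i0 + 1) * p - r) (x + p) := by
    rintro y ⟨⟨i, hi⟩, h3, h4⟩
    rw [abs_le] at hi
    have h5 : i0 ≤ i := by
      by_contra h6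
      push Not at h6
      have h7 : (i : ℝ) ≤ i0 - 1 := by
        have : i ≤ i0 - 1 := by omega
        exact_mod_cast this
      have h8 : (i : ℝ) * p ≤ (i0 - 1) * p := mul_le_mul_of_nonneg_right h7 hp.le
      linarith [hi.2]
    rcases eq_or_lt_of_le h5 with h6 | h6
    · left
      rw [← h6] at hi
      exact ⟨max_le h3 (by linarith [hi.1]), by linarith [hi.2]⟩
    · right
      have h7 : (i0 : ℝ) + 1 ≤ i := by
        have : i0 + 1 ≤ i := h6
        exact_mod_cast this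
      have h8 : ((i0 : ℝ) + 1) * p ≤ i * p := mul_le_mul_of_nonneg_right h7 hp.le
      exact ⟨by linarith [hi.1], h4⟩
  refine (measure_mono hsub).trans ((measure_union_le _ _).trans ?_)
  rw [Real.volume_Icc, Real.volume_Ico]
  rcases le_total x (i0 * p - r) with h3 | h3
  · rw [max_eq_right h3]
    have e2 : ENNReal.ofReal (x + p - ((i0 + 1) * p - r)) = 0 :=
      ENNReal.ofReal_of_nonpos (by linarith)
    rw [e2, add_zero]
    exact ENNReal.ofReal_le_ofReal (by linarith)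
  · rw [max_eq_left h3, ← ENNReal.ofReal_add (by linarith) (by linarith)]
    exact ENNReal.ofReal_le_ofReal (by linarith)

/-! ### The far field after a move -/

/-- The uniform distribution on `[0, h)`. -/
noncomputable def nu (h : ℝ) : Measure ℝ :=
  (ENNReal.ofReal h)⁻¹ • (volume : Measure ℝ).restrict (Set.Ico 0 h)

theorem prob_nu (hh : 0 < h) : IsProbabilityMeasure (nu h) := by
  refine ⟨?_⟩
  unfold nu
  rw [Measure.smul_apply, Measure.restrict_apply_univ, Real.volume_Ico, sub_zero, smul_eq_mul]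
  exact ENNReal.inv_mul_cancel (ENNReal.ofReal_pos.2 hh).ne' ENNReal.ofReal_ne_top

theorem nu_le (hh : 0 < h) {P : ℝ → Prop} {c : ℝ} (hP : MeasurableSet {θ | P θ})
    (hc : volume {θ : ℝ | θ ∈ Set.Ico 0 h ∧ P θ} ≤ ENNReal.ofReal (c * h)) :
    nu h {θ | P θ} ≤ ENNReal.ofReal c := by
  unfold nu
  rw [Measure.smul_apply, Measure.restrict_apply hP, smul_eq_mul]
  have e1 : {θ | P θ} ∩ Set.Ico 0 h = {θ : ℝ | θ ∈ Set.Ico 0 h ∧ P θ} := by
    ext θ
    simp only [Set.mem_inter_iff, Set.mem_ofPred_eq]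
    tauto
  rw [e1]
  calc (ENNReal.ofReal h)⁻¹ * volume {θ : ℝ | θ ∈ Set.Ico 0 h ∧ P θ}
      ≤ (ENNReal.ofReal h)⁻¹ * ENNReal.ofReal (c * h) := mul_le_mul_right hc _
    _ = ENNReal.ofReal c := by
        rw [ENNReal.ofReal_mul' hh.le, mul_comm, mul_assoc, ENNReal.mul_inv_cancel
          (ENNReal.ofReal_pos.2 hh).ne' ENNReal.ofReal_ne_top, mul_one]

/-- The set of the moves which bring a coordinate into a thin set. -/
theorem nu_thin {p ε : ℝ} (hp : 0 < p) (hε : 0 ≤ ε) {J : Set ℝ} (hJ : Thin p ε J) {N : ℕ}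
    (hN : h = N * p) (hh : 0 < h) (t c : ℝ) :
    nu h {θ | t + rs h θ t + c ∈ J} ≤ ENNReal.ofReal ε := by
  have hm : Measurable fun θ : ℝ => rs h θ t :=
    (measurable_rs h).comp (measurable_id.prodMk measurable_const)
  refine nu_le hh ?_ ?_
  · exact ((hm.const_add t).add_const c) hJ.meas
  · have hG : MeasurableSet ((fun y : ℝ => y + c) ⁻¹' J) := (measurable_add_const c) hJ.meas
    have h1 := volume_rot hh t hG
    have e1 : {θ : ℝ | θ ∈ Set.Ico 0 h ∧ t + rs h θ t + c ∈ J} =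
        {θ : ℝ | θ ∈ Set.Ico 0 h ∧ t + rs h θ t ∈ (fun y : ℝ => y + c) ⁻¹' J} := rfl
    rw [e1, h1]
    set b : ℝ := h * ⌊t / h⌋ with hb
    have e2 : (fun y : ℝ => y + c) ⁻¹' J ∩ Set.Ico b (b + h) =
        (fun y : ℝ => y + c) ⁻¹' (J ∩ Set.Ico (b + c) (b + c + N * p)) := by
      ext y
      simp only [Set.mem_inter_iff, Set.mem_preimage, Set.mem_Ico]
      rw [← hN]
      constructor
      · rintro ⟨h2, h3, h4⟩
        exact ⟨h2, by linarith, by linarith⟩
      · rintro ⟨h2, h3, h4⟩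
        exact ⟨h2, by linarith, by linarith⟩
    rw [e2, measure_preimage_add_right]
    refine (hJ.multi hp.le hε N (b + c)).trans (ENNReal.ofReal_le_ofReal (le_of_eq ?_))
    rw [hN]
    ring

/-- The probability of a conflict in one coordinate. -/
theorem nu_pairs {p ε : ℝ} (hp : 0 < p) (hε : 0 ≤ ε) {N : ℕ} (hN : h = N * p) (hh : 0 < h)
    {n A B : ℕ} (hA : A ≤ n) (hB : B ≤ n) (t : ℝ) (c : ℕ → ℕ → ℝ) {J : ℕ → ℕ → Set ℝ}
    (hJ : ∀ k l, Thin p ε (J k l)) :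
    nu h (⋃ k ∈ range A, ⋃ l ∈ range B, {θ | t + rs h θ t + c k l ∈ J k l}) ≤
      ENNReal.ofReal (n ^ 2 * ε) := by
  calc nu h (⋃ k ∈ range A, ⋃ l ∈ range B, {θ | t + rs h θ t + c k l ∈ J k l})
      ≤ ∑ k ∈ range A, nu h (⋃ l ∈ range B, {θ | t + rs h θ t + c k l ∈ J k l}) :=
        measure_biUnion_finset_le _ _
    _ ≤ ∑ _k ∈ range A, ∑ _l ∈ range B, ENNReal.ofReal ε := by
        refine sum_le_sum fun k _ => (measure_biUnion_finset_le _ _).trans ?_
        exact sum_le_sum fun l _ => nu_thin hp hε (hJ k l) hN hh t _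
    _ = ENNReal.ofReal ((A : ℝ) * (B : ℝ) * ε) := by
        rw [sum_const, sum_const, card_range, card_range, nsmul_eq_mul, nsmul_eq_mul,
          ← mul_assoc, ENNReal.ofReal_mul (by positivity), ENNReal.ofReal_mul (by positivity),
          ENNReal.ofReal_natCast, ENNReal.ofReal_natCast]
    _ ≤ _ := by
        refine ENNReal.ofReal_le_ofReal (mul_le_mul_of_nonneg_right ?_ hε)
        have h3 : (A : ℝ) ≤ n := by exact_mod_cast hA
        have h4 : (B : ℝ) ≤ n := by exact_mod_cast hB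
        calc (A : ℝ) * B ≤ n * n := mul_le_mul h3 h4 (by positivity) (by positivity)
          _ = n ^ 2 := by ring

/-- **The far field after a move**: for two good contents of the same type the moves which lead to a
conflict have small probability. `p` is the period in the direction `i'` of the moves. -/
theorem farp_TT {E : Set (Fin d → ℝ)} {Nk : ℕ → Set (Fin d → ℝ)} {i i' : Fin d} (hi : i' ≠ i)
    {t₀ n : ℕ} {Q : Set (Fin d → ℝ)} {a w β' p α ε : ℝ} (ha : 0 ≤ a) (hβ : 0 ≤ β') (hp : 0 < p)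
    (hα : 0 < α) (hQ : ∀ u ∈ Q, ∀ j, j ≠ i → |u j| ≤ a) (hε : 0 ≤ ε) {J : ℝ → Set ℝ}
    (hJ : ∀ t, Thin p (ε / 2) (J t)) {J₃ : Set ℝ} (hJ₃ : Thin α (ε / (2 * d)) J₃)
    (hjunk : ∀ u ∈ E, u ∉ Nk 0 → Nr p β' (u i') ∨ u i' ∈ J (u i) ∨
      ∃ l, l ≠ i ∧ l ≠ i' ∧ u l ∈ J₃) {N : ℕ} (hN : h = N * p) {N₃ : ℕ} (hN₃ : h = N₃ * α)
    (hh : 0 < h) {x y : Ct (Fin d → ℝ)} (hx : x ∈ Ty i t₀ n Q h w)
    (hy : y ∈ Ty i t₀ n Q h w) (v : Zd d) :
    nu h {θ | ¬ farp E Nk v (TT h i θ x) y} ≤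
      ENNReal.ofReal (2 * (β' + 2 * a) / p + n ^ 2 * ε) := by
  classical
  have hd : 0 < d := (Nat.zero_le _).trans_lt i.2
  have hd' : (0 : ℝ) < d := by exact_mod_cast hd
  set t : ℝ := x.2 0 i' with ht
  have hx0 : ∀ k, k < x.1 → 0 < x.1 := fun k hk => by omega
  have hsub : {θ | ¬ farp E Nk v (TT h i θ x) y} ⊆
      {θ | t + rs h θ t + (-(y.2 0 i' + v i')) ∈ {z : ℝ | Nr p (β' + 2 * a) z}} ∪
      ((⋃ k ∈ range x.1, ⋃ l ∈ range y.1,
        {θ | t + rs h θ t + (x.2 k i' - t - (y.2 l i' + v i')) ∈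
          J (x.2 k i - (y.2 l i + v i))}) ∪
      ⋃ j ∈ (univ : Finset (Fin d)), ⋃ k ∈ range x.1, ⋃ l ∈ range y.1,
        {θ | x.2 0 j + rs h θ (x.2 0 j) + (x.2 k j - x.2 0 j - (y.2 l j + v j)) ∈ J₃}) := by
    intro θ hθ
    simp only [Set.mem_ofPred_eq] at hθ
    unfold farp at hθ
    push Not at hθ
    obtain ⟨k, hk, l, hl, h1, h2⟩ := hθ
    have hk' : k < x.1 := hk
    have e1 : ∀ j, j ≠ i → ((TT h i θ x).2 k - Exg.tr v (y.2 l)) j =
        x.2 0 j + rs h θ (x.2 0 j) + (x.2 k j - x.2 0 j - (y.2 l j + v j)) := by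
      intro j hj
      rw [Pi.sub_apply, TT_apply hk' hj]
      unfold Exg.tr
      ring
    have e2 : ((TT h i θ x).2 k - Exg.tr v (y.2 l)) i = x.2 k i - (y.2 l i + v i) := by
      rw [Pi.sub_apply, TT_apply_self hk']
      rfl
    rcases hjunk _ h2 h1 with h3 | h3 | h3
    · left
      obtain ⟨c, hc⟩ := h3
      refine ⟨c, ?_⟩
      rw [e1 i' hi, ← ht] at hc
      have h4 := abs_le.1 (Ty_close ha (fun u hu => hQ u hu i' hi) hx hk' (hx0 k hk'))
      have h5 := abs_le.1 (Ty_close ha (fun u hu => hQ u hu i' hi) hy hl (show 0 < y.1 by omega))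
      rw [← ht] at h4
      rw [abs_le] at hc ⊢
      constructor
      · linarith [hc.1, h4.2, h5.1, h4.1, h5.2]
      · linarith [hc.2, h4.1, h5.2, h4.2, h5.1]
    · right
      left
      rw [e1 i' hi, e2, ← ht] at h3
      simp only [Set.mem_iUnion, mem_range]
      exact ⟨k, hk', l, hl, h3⟩
    · right
      right
      obtain ⟨j, hj, -, h4⟩ := h3
      rw [e1 j hj] at h4
      simp only [Set.mem_iUnion, mem_range]
      exact ⟨j, mem_univ j, k, hk', l, hl, h4⟩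
  refine (measure_mono hsub).trans ((measure_union_le _ _).trans
    ((add_le_add le_rfl (measure_union_le _ _)).trans ?_))
  have h1 := nu_thin hp (by positivity) (thin_Nr (r := β' + 2 * a) hp) hN hh t
    (-(y.2 0 i' + v i'))
  have h2 := nu_pairs (ε := ε / 2) hp (by positivity) hN hh hx.2.1 hy.2.1 t
    (fun k l => x.2 k i' - t - (y.2 l i' + v i'))
    (J := fun k l => J (x.2 k i - (y.2 l i + v i))) (fun k l => hJ _)
  have h3 : nu h (⋃ j ∈ (univ : Finset (Fin d)), ⋃ k ∈ range x.1, ⋃ l ∈ range y.1,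
        {θ | x.2 0 j + rs h θ (x.2 0 j) + (x.2 k j - x.2 0 j - (y.2 l j + v j)) ∈ J₃}) ≤
      ENNReal.ofReal (n ^ 2 * (ε / 2)) := by
    refine (measure_biUnion_finset_le _ _).trans ?_
    have h4 : ∀ j : Fin d, nu h (⋃ k ∈ range x.1, ⋃ l ∈ range y.1,
        {θ | x.2 0 j + rs h θ (x.2 0 j) + (x.2 k j - x.2 0 j - (y.2 l j + v j)) ∈ J₃}) ≤
        ENNReal.ofReal (n ^ 2 * (ε / (2 * d))) := fun j =>
      nu_pairs (ε := ε / (2 * d)) hα (by positivity) hN₃ hh hx.2.1 hy.2.1 (x.2 0 j)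
        (fun k l => x.2 k j - x.2 0 j - (y.2 l j + v j)) (J := fun _ _ => J₃) (fun _ _ => hJ₃)
    refine (sum_le_sum fun j _ => h4 j).trans (le_of_eq ?_)
    rw [sum_const, card_univ, Fintype.card_fin, nsmul_eq_mul, ← ENNReal.ofReal_natCast,
      ← ENNReal.ofReal_mul (by positivity)]
    congr 1
    field_simp
  have e3 : 2 * (β' + 2 * a) / p + n ^ 2 * ε =
      2 * (β' + 2 * a) / p + (n ^ 2 * (ε / 2) + n ^ 2 * (ε / 2)) := by ring
  rw [e3, ENNReal.ofReal_add (by positivity) (by positivity),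
    ENNReal.ofReal_add (by positivity) (by positivity)]
  exact add_le_add h1 (add_le_add h2 h3)

/-! ### The shift inequality -/

/-- The parameter of the moves. -/
noncomputable def cl (h θ : ℝ) : ℝ := if 0 ≤ θ ∧ θ < h then θ else 0

theorem cl_nonneg (h θ : ℝ) : 0 ≤ cl h θ := by
  unfold cl
  split_ifs with h1
  · exact h1.1
  · exact le_rfl

theorem cl_lt (hh : 0 < h) (θ : ℝ) : cl h θ < h := by
  unfold cl
  split_ifs with h1
  · exact h1.2
  · exact hh

theorem measurable_cl (h : ℝ) : Measurable (cl h) := by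
  unfold cl
  refine Measurable.ite ?_ measurable_id measurable_const
  exact (measurableSet_le measurable_const measurable_id).inter
    (measurableSet_lt measurable_id measurable_const)

theorem nu_cl (P : ℝ → Prop) : nu h {θ | P (cl h θ)} ≤ nu h {θ | P θ} := by
  unfold nu
  rw [Measure.smul_apply, Measure.smul_apply, smul_eq_mul, smul_eq_mul]
  refine mul_le_mul_right ?_ _
  have h1 : ∀ S : Set ℝ, (volume : Measure ℝ).restrict (Set.Ico 0 h) S =
      volume (S ∩ Set.Ico 0 h) := fun S => Measure.restrict_apply' measurableSet_Ico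
  rw [h1, h1]
  refine measure_mono ?_
  rintro θ ⟨h2, h3⟩
  refine ⟨?_, h3⟩
  have e : cl h θ = θ := if_pos h3
  simp only [Set.mem_ofPred_eq] at h2 ⊢
  rwa [e] at h2

theorem sh_mono {E : Type} [MeasurableSpace E] {M : CG d E} {f : E → ℝ} {RA Cl : Set E}
    {c c' : ENNReal} (hc : c ≤ c') (h : M.SH f RA Cl c') : M.SH f RA Cl c :=
  fun S1 S2 k y h1 h2 h3 h4 h5 =>
    (mul_le_mul_left hc _).trans (h S1 S2 k y h1 h2 h3 h4 h5)

variable {E : Set (Fin d → ℝ)}

/-- The moves of the good contents: all facts for `CG.sh_of_mover` and for the lower bounds. -/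
structure Mvr (G : Ng d E) (Cl : Set (Ct (Fin d → ℝ))) (i : Fin d) (h : ℝ) (e1 : ENNReal) :
    Prop where
  hh : 0 < h
  prob : IsProbabilityMeasure (nu h)
  Cl_meas : MeasurableSet Cl
  T_meas : Measurable (Function.uncurry fun (θ : ℝ) (x : Ct (Fin d → ℝ)) => TT h i (cl h θ) x)
  pres : ∀ θ, MeasurePreserving (TT h i (cl h θ)) (G.cg.π.restrict Cl) (G.cg.π.restrict Cl)
  T_Cl : ∀ θ x, TT h i (cl h θ) x ∈ Cl ↔ x ∈ Cl
  nf_T : ∀ k v θ x y, k ≤ 1 → x ∈ Cl → G.cg.nf (k + 1) v x y →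
    G.cg.nf k v (TT h i (cl h θ) x) y
  far_T : ∀ v ∈ (Qr d G.cg.r).erase 0, ∀ x ∈ Cl, ∀ y ∈ Cl,
    nu h {θ | ¬ G.cg.far v (TT h i (cl h θ) x) y} ≤ e1

/-- **The mover.** -/
theorem Ng.mvr (G : Ng d E) (hN : Nest d h G.Nk) {i i' : Fin d} (hi : i' ≠ i) {t₀ n : ℕ}
    {Q : Set (Fin d → ℝ)}
    {a w β' p α ε : ℝ} (ht : 1 ≤ t₀) (ha : 0 ≤ a) (haw : a < w) (hβ : 0 ≤ β') (hp : 0 < p)
    (hα : 0 < α) (hQm : MeasurableSet Q) (hQ : ∀ u ∈ Q, ∀ j, j ≠ i → |u j| ≤ a)
    (hQE : ∀ u ∈ Q, u ∉ E) (hε : 0 ≤ ε)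
    {J : ℝ → Set ℝ} (hJ : ∀ t, Thin p (ε / 2) (J t)) {J₃ : Set ℝ}
    (hJ₃ : Thin α (ε / (2 * d)) J₃)
    (hjunk : ∀ u ∈ E, u ∉ G.Nk 0 → Nr p β' (u i') ∨ u i' ∈ J (u i) ∨
      ∃ l, l ≠ i ∧ l ≠ i' ∧ u l ∈ J₃) {N : ℕ} (hNp : h = N * p) {N₃ : ℕ} (hN₃ : h = N₃ * α)
    (hh : 0 < h) : Mvr G (insert Exg.e0 (Ty i t₀ n Q h w)) i h
      (ENNReal.ofReal (2 * (β' + 2 * a) / p + n ^ 2 * ε)) := by
  have hm := measurableSet_Ty i t₀ n hQm h w
  have hV : ∀ x ∈ insert Exg.e0 (Ty i t₀ n Q h w), Vx E x := by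
    intro x hx
    rcases hx with rfl | hx
    · exact Vx_e0
    · exact Ty_Vx ht hh ha haw hQ hQE hx
  have hmem : ∀ θ x, TT h i (cl h θ) x ∈ insert Exg.e0 (Ty i t₀ n Q h w) ↔
      x ∈ insert Exg.e0 (Ty i t₀ n Q h w) := by
    intro θ x
    rw [Set.mem_insert_iff, Set.mem_insert_iff, TT_mem_Ty (cl_nonneg h θ) (cl_lt hh θ) ht]
    refine or_congr ?_ Iff.rfl
    constructor
    · intro h1
      have h2 : x.1 = 0 := congrArg Prod.fst h1
      have h3 : TT h i (cl h θ) x = x := by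
        unfold TT
        refine Prod.ext rfl ?_
        funext k
        rw [h2]
        simp
      rwa [h3] at h1
    · rintro rfl
      exact TT_e0 h i _
  refine ⟨hh, prob_nu hh, hm.insert _, ?_, fun θ => ?_, hmem, ?_, ?_⟩
  · exact (measurable_TT h i).comp (((measurable_cl h).comp measurable_fst).prodMk measurable_snd)
  · exact mp_TT G.hE (cl_nonneg h θ) (cl_lt hh θ) i (hm.insert _) hV (hmem θ)
  · intro k v θ x y _ hx hxy _ hy
    exact nfp_TT hN (cl_nonneg h θ) (cl_lt hh θ) i (hxy (hV x hx) hy)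
  · intro v _ x hx y hy
    have h1 : nu h {θ | ¬ G.cg.far v (TT h i (cl h θ) x) y} ≤
        nu h {θ | ¬ farp E G.Nk v (TT h i θ x) y} := by
      refine le_trans (measure_mono ?_) (nu_cl fun θ => ¬ farp E G.Nk v (TT h i θ x) y)
      intro θ hθ h2
      exact hθ fun _ _ => h2
    refine h1.trans ?_
    rcases hx with rfl | hx
    · have e : {θ | ¬ farp E G.Nk v (TT h i θ (e0 : Ct (Fin d → ℝ))) y} = ∅ := by
        ext θ
        simp only [Set.mem_ofPred_eq, Set.mem_empty_iff_false, iff_false, not_not]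
        rw [TT_e0]
        exact fun k hk => absurd hk (Nat.not_lt_zero k)
      rw [e, measure_empty]
      exact bot_le
    · rcases hy with rfl | hy
      · have e : {θ | ¬ farp E G.Nk v (TT h i θ x) (e0 : Ct (Fin d → ℝ))} = ∅ := by
          ext θ
          simp only [Set.mem_ofPred_eq, Set.mem_empty_iff_false, iff_false, not_not]
          exact fun k _ l hl => absurd hl (Nat.not_lt_zero l)
        rw [e, measure_empty]
        exact bot_le
      · exact farp_TT hi ha hβ hp hα hQ hε hJ hJ₃ hjunk hNp hN₃ hh hx hy v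

/-- **The shift inequality.** -/
theorem Mvr.sh {G : Ng d E} {Cl : Set (Ct (Fin d → ℝ))} {i : Fin d} {e1 : ENNReal}
    (hM : Mvr G Cl i h e1) {f : Ct (Fin d → ℝ) → ℝ} (hf : Measurable f)
    (hfT : ∀ θ, ∀ x ∈ Cl, f (TT h i (cl h θ) x) = f x) :
    G.cg.SH f Cl Cl (1 - ((2 * G.r + 1) ^ d : ℕ) * e1) := by
  have := hM.prob
  exact G.cg.sh_of_mover hf hM.Cl_meas (nu h) hM.T_meas hM.pres hfT hM.nf_T hM.far_T

theorem Mvr.sh_half {G : Ng d E} {Cl : Set (Ct (Fin d → ℝ))} {i : Fin d} {e1 : ENNReal}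
    (hM : Mvr G Cl i h e1) {f : Ct (Fin d → ℝ) → ℝ} (hf : Measurable f)
    (hfT : ∀ θ, ∀ x ∈ Cl, f (TT h i (cl h θ) x) = f x)
    (he : ((2 * G.r + 1) ^ d : ℕ) * e1 ≤ 1 / 2) : G.cg.SH f Cl Cl (1 / 2) := by
  refine sh_mono ?_ (hM.sh hf hfT)
  rw [ENNReal.le_sub_iff_add_le_right]
  · exact (add_le_add le_rfl he).trans (le_of_eq (ENNReal.add_halves 1))
  · exact ne_top_of_le_ne_top (by norm_num) he
  · exact he.trans (by norm_num)

end Pool.Agent.RC
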