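import Pool.Agent.Lib.MP_09cbbd_rc.AB

/-!
# The number of beads of the contents
-/

set_option autoImplicit false

namespace Pool.Agent.RC

open MeasureTheory Finset Pool.Agent.SquareWellGas Pool.Agent.SquareWell.ModA
open Pool.Agent.StableGas hiding tr
open Pool.Agent.Exg
open Pool.Agent.Mix Ct

variable {d : ℕ} {h w : ℝ} {i₁ i₂ : Fin d} {m : ℕ} {R α a b β β' τ ε : ℝ}
  {N E : Set (Fin d → ℝ)}

/-- A valid content has at most `m + 1` beads. -/
theorem Geo.beads_le (hG : Geo d i₁ i₂ m R α a b β β' τ ε N E) {x : Ct (Fin d → ℝ)}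
    (hx : Vx E x) : x.1 ≤ m + 1 := by
  rcases Cell.dir hG hx with h1 | h1
  · exact (Cell.card_row hG h1).trans (by omega)
  · exact Cell.card_col hG h1

theorem Geo.beads_ind (hG : Geo d i₁ i₂ m R α a b β β' τ ε N E) {x : Ct (Fin d → ℝ)}
    (hx : Vx E x) : x.1 + (GA E i₁ i₂ m α a h w).indicator 1 x ≤ m + 1 := by
  by_cases hA : x ∈ GA E i₁ i₂ m α a h w
  · rw [Set.indicator_of_mem hA, Pi.one_apply]
    have := GA_le hA
    omega
  · rw [Set.indicator_of_notMem hA]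
    exact hG.beads_le hx

theorem Geo.ae_beads (hG : Geo d i₁ i₂ m R α a b β β' τ ε N E) (hE : MeasurableSet E) :
    ∀ᵐ x ∂(sys hE).pg, x.1 + (GA E i₁ i₂ m α a h w).indicator 1 x ≤ m + 1 := by
  filter_upwards [ae_Vx hE] with x hx
  exact hG.beads_ind hx

theorem Geo.ae_beads' (hG : Geo d i₁ i₂ m R α a b β β' τ ε N E) (hE : MeasurableSet E) :
    ∀ᵐ x ∂(sys hE).pg, x.1 ≤ m + 1 := by
  filter_upwards [ae_Vx hE] with x hx
  exact hG.beads_le hx

theorem beads_A {x : Ct (Fin d → ℝ)} (hx : x ∈ GA E i₁ i₂ m α a h w) :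
    x.1 + gms E i₁ i₂ m α a h w x = m := by
  rw [gms_A hx]
  have := GA_le hx
  omega

theorem Geo.beads_B (hG : Geo d i₁ i₂ m R α a b β β' τ ε N E) {x : Ct (Fin d → ℝ)}
    (hx : x ∈ GB E i₁ i₂ m α b h w) : x.1 + gms E i₁ i₂ m α a h w x = m + 1 := by
  rw [hG.gms_B hx]
  have := GB_le hx
  omega

end Pool.Agent.RC
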