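import Pool.Agent.Lib.MP_09cbbd_rc.Geo

/-!
# The excluded set contains the hard core outside a small ball

`Geo.mem_of_le_norm`: a point `u` of the hard core `N` with `(m + 2) α ≤ ‖u‖` is excluded.
-/

set_option autoImplicit false

namespace Pool.Agent.RC

theorem VolG.norm_lt_of_win {d : ℕ} {i₁ i₂ : Fin d} {m : ℕ} {α a b : ℝ} (hα : 0 ≤ α) (ha : 0 < a)
    (hba : b ≤ a) {u : Fin d → ℝ} (h : Win d i₁ i₂ m α a b u) : ‖u‖ < (m + 1) * α + a := by
  have hm0 : (0 : ℝ) ≤ m := Nat.cast_nonneg m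
  rw [pi_norm_lt_iff (by positivity)]
  intro j
  rw [Real.norm_eq_abs]
  rcases h with ⟨k, -, hk, hj⟩ | ⟨k, -, hk, hj⟩
  · have h1 := hj j
    have h2 : |(if j = i₁ then (k : ℝ) * α else 0)| ≤ (m + 1) * α := by
      split_ifs
      · rw [abs_mul, abs_of_nonneg hα]
        refine mul_le_mul_of_nonneg_right ?_ hα
        have h3 : |(k : ℝ)| < m := by exact_mod_cast hk
        linarith
      · rw [abs_zero]
        positivity
    have h4 := abs_sub_abs_le_abs_sub (u j) (if j = i₁ then (k : ℝ) * α else 0)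
    linarith
  · have h1 := hj j
    have h2 : |(if j = i₂ then (k : ℝ) * α else 0)| ≤ (m + 1) * α := by
      split_ifs
      · rw [abs_mul, abs_of_nonneg hα]
        refine mul_le_mul_of_nonneg_right ?_ hα
        have h3 : |(k : ℝ)| < m + 1 := by exact_mod_cast hk
        linarith
      · rw [abs_zero]
        positivity
    have h4 := abs_sub_abs_le_abs_sub (u j) (if j = i₂ then (k : ℝ) * α else 0)
    linarith

/-- the excluded set contains every point of the hard core with norm at least `(m + 2) α` -/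
theorem Geo.mem_of_le_norm {d : ℕ} {i₁ i₂ : Fin d} {m : ℕ} {R α a b β β' τ ε : ℝ}
    {N E : Set (Fin d → ℝ)} (hE : Geo d i₁ i₂ m R α a b β β' τ ε N E) {u : Fin d → ℝ} (hu : u ∈ N)
    (h : (m + 2) * α ≤ ‖u‖) : u ∈ E := by
  by_contra h1
  have ha : 0 < a := lt_of_lt_of_le hE.hb hE.hba
  have hα : 0 ≤ α := by linarith [hE.ha]
  have h2 := VolG.norm_lt_of_win hα ha hE.hba (hE.near u hu h1)
  have h3 := hE.ha
  nlinarith

/-- the form with a given radius -/
theorem Geo.mem_of_radius {d : ℕ} {i₁ i₂ : Fin d} {m : ℕ} {R α a b β β' τ ε δ : ℝ}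
    {N E : Set (Fin d → ℝ)} (hE : Geo d i₁ i₂ m R α a b β β' τ ε N E) (hδ : (m + 2) * α ≤ δ) :
    ∀ u ∈ N, δ ≤ ‖u‖ → u ∈ E := fun _ hu h => hE.mem_of_le_norm hu (hδ.trans h)

end Pool.Agent.RC
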