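import Mathlib

/-!
# Rows and columns: the numbers

`α`, `a`, `b` are the parameters of the body, `h` the length of the intervals of the moves, `ζ` the
chemical potential at which the full rows and the full columns have the same weight `exp M`.
-/

set_option autoImplicit false

namespace Pool.Agent.RC

open Real

/-- All inequalities between the parameters. -/
structure Num (d m : ℕ) (ε Kc α a b h ζ M lam : ℝ) : Prop where
  h_pos : 0 < h
  h_eq : h = m * (m + 1) * α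
  h_inv : ∃ H : ℕ, 7 ≤ H ∧ h * H = 1
  Kc_le : Kc ≤ M
  thin : Kc * h ≤ exp (-(M / (16 * d)))
  lam_nonneg : 0 ≤ lam
  lam1 : M / (2 * m) ≤ 2 * lam
  lam2 : M / (16 * d) ≤ m * lam
  rowlam : lam + ε / (8 * (m + 1)) * M ≤ ζ + d * log (2 * a)
  collam : lam + ε / (8 * (m + 1)) * M ≤ ζ + d * log (2 * b)
  row : m * ζ + (m - 1) * (d * log (2 * a)) = M
  col : (m + 1) * ζ + m * (d * log (2 * b)) = M

/-- **Choice of the parameters.** -/
theorem exists_num {d m : ℕ} (hd : 1 ≤ d) (hm : 64 ≤ m) {C : ℕ} (hC : 0 < C) {ε : ℝ}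
    (hε1 : ε ≤ 1) (Kc : ℝ) (b₀ : ℕ) :
    ∃ b₁ H : ℕ, b₀ ≤ b₁ ∧ 7 ≤ H ∧ ∀ α : ℝ, α * (m * (m + 1) * H) = 1 →
      ∃ h ζ M lam : ℝ, Num d m ε Kc α (α * ((b₁ + 1 / 4) / (C * (b₁ + 2))))
        (α * (1 / 4 / (C * (b₁ + 2)))) h ζ M lam := by
  have hd' : (1 : ℝ) ≤ d := by exact_mod_cast hd
  have hm' : (64 : ℝ) ≤ m := by exact_mod_cast hm
  have hC' : (1 : ℝ) ≤ C := by exact_mod_cast hC
  -- the exponent
  obtain ⟨P, hP⟩ : ∃ P : ℕ, P = m ^ 2 / 8 + 1 := ⟨_, rfl⟩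
  have hP1 : (m : ℝ) ^ 2 ≤ 8 * P := by
    have : m ^ 2 ≤ 8 * P := by rw [hP]; omega
    exact_mod_cast this
  have hP2 : 8 * (P : ℝ) ≤ (m : ℝ) ^ 2 + 8 := by
    have : 8 * P ≤ m ^ 2 + 8 := by rw [hP]; omega
    exact_mod_cast this
  have hP0 : (1 : ℝ) ≤ P := by
    have : 1 ≤ P := by rw [hP]; omega
    exact_mod_cast this
  obtain ⟨K1, hK1⟩ : ∃ K1 : ℝ, K1 = log (m * (m + 1) * (2 * C)) := ⟨_, rfl⟩
  have hK1' : 0 ≤ K1 := by
    rw [hK1]
    refine log_nonneg ?_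
    nlinarith
  -- the large parameter
  obtain ⟨L0, hL0⟩ : ∃ L0 : ℝ, L0 = K1 + |Kc| + log (|Kc| + 1) * 3 + 1 := ⟨_, rfl⟩
  have hlK : 0 ≤ log (|Kc| + 1) := log_nonneg (by linarith [abs_nonneg Kc])
  obtain ⟨b₁, hb₁, hb₂, hb₃⟩ : ∃ b₁ : ℕ, b₀ ≤ b₁ ∧ 2 ≤ b₁ ∧ exp L0 ≤ 4 * b₁ + 1 := by
    refine ⟨max b₀ (max 2 ⌈exp L0⌉₊), le_max_left _ _,
      (le_max_left _ _).trans (le_max_right _ _), ?_⟩
    have h1 := Nat.le_ceil (exp L0)
    have h2 : ((⌈exp L0⌉₊ : ℕ) : ℝ) ≤ ((max b₀ (max 2 ⌈exp L0⌉₊) : ℕ) : ℝ) := by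
      exact_mod_cast (le_max_right _ _).trans (le_max_right _ _)
    have h3 : (0 : ℝ) ≤ ((max b₀ (max 2 ⌈exp L0⌉₊) : ℕ) : ℝ) := Nat.cast_nonneg _
    linarith
  have hb2 : (2 : ℝ) ≤ b₁ := by exact_mod_cast hb₂
  obtain ⟨L, hL⟩ : ∃ L : ℝ, L = log (4 * b₁ + 1) := ⟨_, rfl⟩
  have hLL : L0 ≤ L := by
    rw [hL, Real.le_log_iff_exp_le (by positivity)]
    exact hb₃
  have hL1 : 1 ≤ L := by
    have := abs_nonneg Kc
    linarith
  have hLK : K1 ≤ L := by
    have := abs_nonneg Kc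
    linarith
  have hLKc : |Kc| ≤ L := by linarith
  have hLlog : 3 * log (|Kc| + 1) ≤ L - K1 := by
    have := abs_nonneg Kc
    linarith
  refine ⟨b₁, (4 * b₁ + 1) ^ P, hb₁, ?_, ?_⟩
  · calc 7 ≤ 4 * b₁ + 1 := by omega
      _ = (4 * b₁ + 1) ^ 1 := (pow_one _).symm
      _ ≤ (4 * b₁ + 1) ^ P := Nat.pow_le_pow_right (by omega) (by rw [hP]; omega)
  intro α hα
  have hH : (0 : ℝ) < (((4 * b₁ + 1) ^ P : ℕ) : ℝ) := by positivity
  have hα0 : 0 < α := by
    by_contra hcon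
    rw [not_lt] at hcon
    have : α * (m * (m + 1) * (((4 * b₁ + 1) ^ P : ℕ) : ℝ)) ≤ 0 :=
      mul_nonpos_of_nonpos_of_nonneg hcon (by positivity)
    linarith
  have hlogH : log (((4 * b₁ + 1) ^ P : ℕ) : ℝ) = P * L := by
    push_cast
    rw [log_pow, hL]
  have hlogα : log α = -(log (m * (m + 1)) + P * L) := by
    have h1 : log (α * (m * (m + 1) * (((4 * b₁ + 1) ^ P : ℕ) : ℝ))) = 0 := by rw [hα, log_one]
    rw [log_mul hα0.ne' (by positivity), log_mul (by positivity) hH.ne', hlogH] at h1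
    linarith
  set a : ℝ := α * ((b₁ + 1 / 4) / (C * (b₁ + 2))) with ha
  set b : ℝ := α * (1 / 4 / (C * (b₁ + 2))) with hb
  have hb0 : 0 < b := by positivity
  -- the logarithm of `b`
  obtain ⟨κ, hκ⟩ : ∃ κ : ℝ, κ = -log (2 * b) - (P + 1) * L := ⟨_, rfl⟩
  have h2b : log (2 * b) = log α - log (2 * C) - log (b₁ + 2) := by
    have e : 2 * b = α / (2 * C) / (b₁ + 2) := by
      rw [hb]
      field_simp
      ring
    rw [e, log_div (by positivity) (by positivity), log_div hα0.ne' (by positivity)]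
  have hKsum : K1 = log (m * (m + 1)) + log (2 * C) := by
    rw [hK1, log_mul (by positivity) (by positivity)]
  have hκ1 : κ ≤ K1 := by
    rw [hκ, h2b, hlogα, hKsum]
    have h1 : log ((b₁ : ℝ) + 2) ≤ L := by
      rw [hL]
      exact log_le_log (by positivity) (by linarith)
    linarith
  have hκ0 : 0 ≤ κ := by
    rw [hκ, h2b, hlogα]
    have h1 : L ≤ log ((b₁ : ℝ) + 2) + log 4 := by
      rw [hL, ← log_mul (by positivity) (by norm_num)]
      exact log_le_log (by positivity) (by linarith)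
    have h2 : log 4 ≤ log (m * (m + 1)) := by
      refine log_le_log (by norm_num) ?_
      nlinarith
    have h3 : 0 ≤ log (2 * (C : ℝ)) := log_nonneg (by linarith)
    linarith
  have hlogb : log (2 * b) = -((P + 1) * L + κ) := by linarith
  have hloga : log (2 * a) = log (2 * b) + L := by
    have e : 2 * a = 2 * b * (4 * b₁ + 1) := by
      rw [ha, hb]
      field_simp
    rw [e, log_mul (by positivity) (by positivity), hL]
  -- the weight
  obtain ⟨M, hM⟩ : ∃ M : ℝ, M = d * ((m ^ 2 + P) * L + κ) := ⟨_, rfl⟩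
  have hL0' : 0 ≤ L := by linarith
  have hMlo : d * ((m ^ 2 + P) * L) ≤ M := by
    rw [hM]
    exact mul_le_mul_of_nonneg_left (by linarith) (by linarith)
  have hMnn : 0 ≤ M := le_trans (by positivity) hMlo
  have hMhi : M ≤ d * L * (9 / 8 * m ^ 2 + 2) := by
    rw [hM, mul_assoc]
    refine mul_le_mul_of_nonneg_left ?_ (by linarith)
    nlinarith
  obtain ⟨lam, hlam⟩ : ∃ lam : ℝ, lam = d * (m - 1) * L - ε / (8 * (m + 1)) * M := ⟨_, rfl⟩
  have ht0 : ε / (8 * (m + 1)) * M ≤ d * L * (10 / 64 * m) := by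
    have h1 : ε / (8 * (m + 1)) * M ≤ 1 / (8 * (m + 1)) * M := by
      refine mul_le_mul_of_nonneg_right ?_ hMnn
      exact div_le_div_of_nonneg_right hε1 (by positivity)
    have h2 : 1 / (8 * ((m : ℝ) + 1)) * M ≤ d * L * (10 / 64 * m) := by
      rw [one_div, inv_mul_le_iff₀ (by positivity)]
      refine hMhi.trans ?_
      have h3 : (0 : ℝ) ≤ d * L := by positivity
      have h4 : (9 / 8 * (m : ℝ) ^ 2 + 2) ≤ 8 * (m + 1) * (10 / 64 * m) := by nlinarith
      calc d * L * (9 / 8 * (m : ℝ) ^ 2 + 2) ≤ d * L * (8 * (m + 1) * (10 / 64 * m)) :=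
            mul_le_mul_of_nonneg_left h4 h3
        _ = _ := by ring
    exact h1.trans h2
  have hlamlo : d * L * (3 / 4 * m) ≤ lam := by
    rw [hlam]
    have h3 : (0 : ℝ) ≤ d * L := by positivity
    have h4 : 3 / 4 * (m : ℝ) + 10 / 64 * m ≤ m - 1 := by linarith
    have h5 := mul_le_mul_of_nonneg_left h4 h3
    nlinarith
  have hdL : (1 : ℝ) ≤ d * L := by nlinarith
  refine ⟨1 / (((4 * b₁ + 1) ^ P : ℕ) : ℝ), d * (m - 1) * L - d * log (2 * b), M, lam,
    by positivity, ?_, ⟨(4 * b₁ + 1) ^ P, ?_, ?_⟩, ?_, ?_, ?_, ?_, ?_, ?_, ?_, ?_, ?_⟩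
  · -- h_eq
    rw [div_eq_iff hH.ne']
    linarith
  · calc 7 ≤ 4 * b₁ + 1 := by omega
      _ = (4 * b₁ + 1) ^ 1 := (pow_one _).symm
      _ ≤ (4 * b₁ + 1) ^ P := Nat.pow_le_pow_right (by omega) (by rw [hP]; omega)
  · rw [one_div, inv_mul_cancel₀ hH.ne']
  · -- Kc_le
    have h1 : L ≤ M := by
      refine le_trans ?_ hMlo
      have h2 : (1 : ℝ) ≤ m ^ 2 + P := by nlinarith
      calc L = 1 * (1 * L) := by ring
        _ ≤ d * ((m ^ 2 + P) * L) := mul_le_mul hd'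
            (mul_le_mul_of_nonneg_right h2 hL0') (by linarith) (by linarith)
    exact (le_abs_self Kc).trans (hLKc.trans h1)
  · -- thin
    have h1 : M / (16 * d) ≤ 9 / 16 * (P * L) + K1 / 16 := by
      rw [div_le_iff₀ (by positivity), hM]
      have h2 : ((m : ℝ) ^ 2 + P) * L ≤ 9 * P * L := mul_le_mul_of_nonneg_right (by linarith) hL0'
      have h3 : (m ^ 2 + P) * L + κ ≤ (9 / 16 * (P * L) + K1 / 16) * 16 := by linarith
      calc d * ((m ^ 2 + P) * L + κ) ≤ d * ((9 / 16 * (P * L) + K1 / 16) * 16) :=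
            mul_le_mul_of_nonneg_left h3 (by linarith)
        _ = _ := by ring
    have h2 : Kc ≤ exp (log (|Kc| + 1)) := by
      rw [exp_log (by linarith [abs_nonneg Kc])]
      linarith [le_abs_self Kc]
    have h3 : 1 / (((4 * b₁ + 1) ^ P : ℕ) : ℝ) = exp (-(P * L)) := by
      rw [← hlogH, exp_neg, exp_log hH, one_div]
    rw [h3]
    calc Kc * exp (-(P * L)) ≤ exp (log (|Kc| + 1)) * exp (-(P * L)) :=
          mul_le_mul_of_nonneg_right h2 (exp_pos _).le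
      _ = exp (log (|Kc| + 1) - P * L) := by rw [← exp_add]; congr 1
      _ ≤ _ := by
          refine exp_le_exp.2 ?_
          have h4 : L ≤ P * L := le_mul_of_one_le_left hL0' hP0
          linarith
  · -- lam_nonneg
    exact le_trans (by positivity) hlamlo
  · -- lam1
    refine le_trans ?_ (mul_le_mul_of_nonneg_left hlamlo (by norm_num))
    rw [div_le_iff₀ (by positivity)]
    refine hMhi.trans ?_
    have h3 : (0 : ℝ) ≤ d * L := by positivity
    have h4 : (9 / 8 * (m : ℝ) ^ 2 + 2) ≤ 2 * (3 / 4 * m) * (2 * m) := by nlinarith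
    calc d * L * (9 / 8 * (m : ℝ) ^ 2 + 2) ≤ d * L * (2 * (3 / 4 * m) * (2 * m)) :=
          mul_le_mul_of_nonneg_left h4 h3
      _ = _ := by ring
  · -- lam2
    refine le_trans ?_ (mul_le_mul_of_nonneg_left hlamlo (by positivity))
    rw [div_le_iff₀ (by positivity)]
    refine hMhi.trans ?_
    have h3 : (0 : ℝ) ≤ d * L := by positivity
    have h4 : (9 / 8 * (m : ℝ) ^ 2 + 2) ≤ m * (3 / 4 * m) * (16 * d) := by
      have h5 : m * (3 / 4 * m) * (16 * 1) ≤ m * (3 / 4 * m) * (16 * (d : ℝ)) :=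
        mul_le_mul_of_nonneg_left (by linarith) (by positivity)
      nlinarith
    calc d * L * (9 / 8 * (m : ℝ) ^ 2 + 2) ≤ d * L * (m * (3 / 4 * m) * (16 * d)) :=
          mul_le_mul_of_nonneg_left h4 h3
      _ = _ := by ring
  · -- rowlam
    rw [hlam, hloga]
    have h3 : (0 : ℝ) ≤ d * L := by positivity
    linarith
  · -- collam
    rw [hlam]
    linarith
  · -- row
    rw [hloga, hlogb, hM]
    ring
  · -- col
    rw [hlogb, hM]
    ring

end Pool.Agent.RC
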