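import Pool.Agent.Lib.MP_09cbbd_rc.PDef

/-!
# Selection of a layer
-/

set_option autoImplicit false

namespace Pool.Agent.RC

open MeasureTheory Finset Filter Topology Pool.Agent.StableGas
open Pool.Agent.SquareWell hiding Md cut
open Pool.Agent.Vdw (blk lift ball Lk Yk Wk Kc)

variable {d : ℕ}

namespace DetA

theorem mem_rim {A : Finset (Zd d)} {p : Zd d} :
    p ∈ rim A ↔ p ∈ A ∧ ∃ q ∈ ball 1 p, q ∉ A := by
  classical
  unfold rim
  rw [mem_filter]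

/-- Exponential against polynomial. -/
private theorem exists_m {η : ℝ} (hη : 0 < η) (B : ℝ) (d s0 : ℕ) :
    ∃ m : ℕ, B * (2 * ((2 * m + 5) * s0 : ℕ) + 1 : ℝ) ^ d < (1 + η) ^ m := by
  have h1 := tendsto_pow_const_div_const_pow_of_one_lt d (r := 1 + η) (by linarith)
  have h2 : (0 : ℝ) < 1 / ((|B| + 1) * (14 * s0 + 1) ^ d) := by positivity
  obtain ⟨m, hm1, hm⟩ := ((Filter.eventually_ge_atTop 1).and
    (h1.eventually_lt_const h2)).exists
  refine ⟨m, ?_⟩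
  have hm1' : (1 : ℝ) ≤ m := by exact_mod_cast hm1
  have h3 : (0 : ℝ) < (1 + η) ^ m := by positivity
  rw [div_lt_div_iff₀ h3 (by positivity), one_mul] at hm
  refine lt_of_le_of_lt ?_ hm
  have h4 : (2 * ((2 * m + 5) * s0 : ℕ) + 1 : ℝ) ≤ (14 * s0 + 1) * m := by
    push_cast
    have : (0 : ℝ) ≤ s0 := by positivity
    nlinarith
  have h5 : (2 * ((2 * m + 5) * s0 : ℕ) + 1 : ℝ) ^ d ≤ ((14 * s0 + 1) * m) ^ d :=
    pow_le_pow_left₀ (by positivity) h4 d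
  calc B * (2 * ((2 * m + 5) * s0 : ℕ) + 1 : ℝ) ^ d
      ≤ (|B| + 1) * ((14 * s0 + 1) * m) ^ d :=
        mul_le_mul (by linarith [le_abs_self B]) h5 (by positivity) (by positivity)
    _ = (m : ℝ) ^ d * ((|B| + 1) * (14 * s0 + 1) ^ d) := by rw [mul_pow]; ring

theorem ball_mono {s t : ℕ} (h : s ≤ t) {p q : Zd d} (hq : q ∈ ball s p) : q ∈ ball t p := by
  rw [Vdw.mem_ball] at *
  exact Vdw.ball_near_trans hq (Vdw.lnear_self 0 q) (by omega)

theorem self_mem_ball (s : ℕ) (p : Zd d) : p ∈ ball s p := Vdw.mem_ball.2 (Vdw.lnear_self s p)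

theorem ball_symm {s : ℕ} {p q : Zd d} (h : q ∈ ball s p) : p ∈ ball s q :=
  Vdw.mem_ball.2 (Vdw.lnear_symm (Vdw.mem_ball.1 h))

theorem Lk_mono {s0 κ κ' : ℕ} (h : κ ≤ κ') (L DL OL : Finset (Zd d)) :
    Lk s0 κ L DL OL ⊆ Lk s0 κ' L DL OL := by
  intro p hp
  unfold Lk at *
  rw [mem_biUnion] at *
  obtain ⟨z, hz, hp⟩ := hp
  exact ⟨z, hz, ball_mono (Nat.mul_le_mul_right _ h) hp⟩

theorem ball_Lk {s0 κ : ℕ} {L DL OL : Finset (Zd d)} {p q : Zd d}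
    (hp : p ∈ Lk s0 κ L DL OL) (hq : q ∈ ball s0 p) : q ∈ Lk s0 (κ + 1) L DL OL := by
  unfold Lk at *
  rw [mem_biUnion] at *
  obtain ⟨z, hz, hp⟩ := hp
  exact ⟨z, hz, Vdw.mem_ball.2 (Vdw.ball_near_trans (Vdw.mem_ball.1 hp) (Vdw.mem_ball.1 hq) (by ring_nf; rfl))⟩

/-- Every block is near few blocks. -/
theorem sum_balls (A F S : Finset (Zd d)) {f : Zd d → ℝ} (hf : ∀ q, 0 ≤ f q)
    (h : ∀ p ∈ F, ball 1 p ∩ A ⊆ S) :
    ∑ p ∈ F, ∑ q ∈ ball 1 p ∩ A, f q ≤ 3 ^ d * ∑ q ∈ S, f q := by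
  classical
  have h1 : ∀ p ∈ F, ∑ q ∈ ball 1 p ∩ A, f q ≤ ∑ q ∈ S, if q ∈ ball 1 p then f q else 0 := by
    intro p hp
    rw [← sum_filter]
    refine sum_le_sum_of_subset_of_nonneg (fun q hq => ?_) fun q _ _ => hf q
    exact mem_filter.2 ⟨h p hp hq, (mem_inter.1 hq).1⟩
  refine (sum_le_sum h1).trans ?_
  rw [sum_comm, mul_sum]
  refine sum_le_sum fun q _ => ?_
  rw [← sum_filter, sum_const, nsmul_eq_mul]
  refine mul_le_mul_of_nonneg_right ?_ (hf q)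
  have h2 : (F.filter fun p => q ∈ ball 1 p).card ≤ (ball 1 q).card :=
    card_le_card fun p hp => ball_symm (mem_filter.1 hp).2
  rw [Vdw.card_ball] at h2
  exact_mod_cast h2

end DetA

open DetA

/-- Selection of a layer, with an energy for the blocks of one phase next to the outside. -/
private theorem det_aux {c C K : ℝ} (hc : 0 < c) (hC : 0 < C) (hK : 0 < K) {s0 : ℕ}
    (hs0 : 1 ≤ s0) :
    ∃ (m Mr : ℕ) (c4 : ℝ), 1 ≤ m ∧ 1 ≤ Mr ∧ (m + 2) * s0 ≤ Mr ∧ 0 < c4 ∧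
      ∀ (A : Finset (Zd d)) (D V : Zd d → Prop)
      (e : Finset (Zd d) → Zd d → ℝ) (tA tB : Zd d → ℝ), Ben c C A D V e tA tB →
      (∀ S ⊆ A, ∀ p ∈ A, ball 1 p ∩ A ⊆ S → D p → (∃ q ∈ ball 1 p, V q) →
        c ≤ ∑ q ∈ ball 1 p ∩ A, e S q) →
      ∀ (s : ℕ) (L Y DL OL : Finset (Zd d)), Cut Mr A D V s L Y →
      (∀ i, i ∈ DL ↔ i ∈ L ∧ D i) → (∀ i, i ∈ OL ↔ i ∈ L ∧ ¬ D i ∧ ¬ V i) →
      ∃ κ, 1 ≤ κ ∧ κ ≤ m ∧
        c4 * L.card + K * ∑ p ∈ (Lk s0 (κ + 1) L DL OL \ Lk s0 κ L DL OL) ∩ A,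
            (if p ∈ DL then tA p else tB p) ≤
          ∑ p ∈ Lk s0 κ L DL OL ∩ A, e (Lk s0 κ L DL OL ∩ A) p := by
  classical
  obtain ⟨C', hC'⟩ : ∃ C' : ℝ, C' = C * 3 ^ d := ⟨_, rfl⟩
  have hC'pos : 0 < C' := by rw [hC']; positivity
  obtain ⟨η, hη⟩ : ∃ η : ℝ, η = 1 / (4 * K * C') := ⟨_, rfl⟩
  have hηpos : 0 < η := by rw [hη]; positivity
  obtain ⟨ms, hms⟩ := exists_m hηpos (4 * K * 3 ^ d / c) d s0
  obtain ⟨m, hm⟩ : ∃ m : ℕ, m = 2 * ms + 3 := ⟨_, rfl⟩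
  obtain ⟨r, hr⟩ : ∃ r : ℕ, r = (m + 2) * s0 := ⟨_, rfl⟩
  have hr5 : r = (2 * ms + 5) * s0 := by rw [hr, hm]
  obtain ⟨b, hb⟩ : ∃ b : ℝ, b = (2 * (r : ℝ) + 1) ^ d := ⟨_, rfl⟩
  have hbpos : 0 < b := by rw [hb]; positivity
  obtain ⟨c', hc'⟩ : ∃ c' : ℝ, c' = c / (3 ^ d * b) := ⟨_, rfl⟩
  have hc'pos : 0 < c' := by rw [hc']; positivity
  obtain ⟨ξ, hξ⟩ : ∃ ξ : ℝ, ξ = c' / (4 * K) := ⟨_, rfl⟩
  have hξpos : 0 < ξ := by rw [hξ]; positivity
  have hR : 1 < (1 + η) ^ ms * ξ := by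
    have h1 : 4 * K * 3 ^ d / c * b < (1 + η) ^ ms := by
      rw [hb, hr5]
      exact hms
    have h2 : (1 : ℝ) = 4 * K * 3 ^ d / c * b * ξ := by
      rw [hξ, hc']
      field_simp
    calc (1 : ℝ) = 4 * K * 3 ^ d / c * b * ξ := h2
      _ < _ := mul_lt_mul_of_pos_right h1 hξpos
  refine ⟨m, r, c' / 2, by omega, ?_, hr.ge, by positivity, ?_⟩
  · rw [hr]
    exact Nat.one_le_iff_ne_zero.2 (by positivity)
  intro A D V e tA tB hP hopp s L Y DL OL hcut hDL hOL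
  have hDA := hP.D_sub
  have hVA := hP.V_out
  have hDV := hP.D_not_V
  -- the layers
  obtain ⟨Lx, hLx⟩ : ∃ Lx : ℕ → Finset (Zd d), Lx = fun i => Lk s0 i L DL OL := ⟨_, rfl⟩
  have hLx' : ∀ i, Lk s0 i L DL OL = Lx i := fun i => by rw [hLx]
  have hmono : ∀ {i j : ℕ}, i ≤ j → Lx i ⊆ Lx j := by
    intro i j h
    rw [← hLx', ← hLx']
    exact Lk_mono h _ _ _
  obtain ⟨t, ht⟩ : ∃ t : Zd d → ℝ, t = fun p => if p ∈ DL then tA p else tB p := ⟨_, rfl⟩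
  have ht0 : ∀ p, 0 ≤ t p := by
    intro p
    rw [ht]
    simp only
    split_ifs
    · exact hP.tA_nonneg p
    · exact hP.tB_nonneg p
  have htX : ∀ p, t p ≤ 1 := by
    intro p
    rw [ht]
    simp only
    split_ifs
    · exact hP.tA_le p
    · exact hP.tB_le p
  obtain ⟨Ti, hTi⟩ : ∃ Ti : ℕ → ℝ, Ti = fun i => ∑ p ∈ (Lx (i + 1) \ Lx i) ∩ A, t p := ⟨_, rfl⟩
  have hTi0 : ∀ i, 0 ≤ Ti i := fun i => by
    rw [hTi]
    exact sum_nonneg fun p _ => ht0 p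
  have hdisj : ∀ i i', i ≠ i' →
      Disjoint ((Lx (i + 1) \ Lx i) ∩ A) ((Lx (i' + 1) \ Lx i') ∩ A) := by
    have key : ∀ i i', i < i' →
        Disjoint ((Lx (i + 1) \ Lx i) ∩ A) ((Lx (i' + 1) \ Lx i') ∩ A) := by
      intro i i' h
      rw [disjoint_left]
      intro p hp hp'
      simp only [mem_inter, Finset.mem_sdiff] at hp hp'
      exact hp'.1.2 (hmono (by omega) hp.1.1)
    intro i i' h
    rcases lt_or_gt_of_ne h with h | h
    · exact key i i' h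
    · exact (key i' i h).symm
  have hsubL : ∀ i, i ≤ m → Lx (i + 1) ⊆ L := by
    intro i hi
    rw [← hLx']
    refine Vdw.Lk_sub hcut hDA hVA hDV hDL hOL hs0 (κ := i) ?_
    rw [hr]
    exact Nat.mul_le_mul_right _ (by omega)
  have hsum : ∑ i ∈ range (2 * ms + 4), Ti i ≤ 1 * (L.card : ℝ) := by
    rw [hTi]
    simp only
    rw [← sum_biUnion (fun i _ i' _ h => hdisj i i' h), one_mul]
    refine (sum_le_sum fun p _ => htX p).trans ?_
    rw [sum_const, nsmul_eq_mul, mul_one]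
    exact_mod_cast card_le_card (by
      intro p hp
      rw [mem_biUnion] at hp
      obtain ⟨i, hi, hp⟩ := hp
      rw [mem_range] at hi
      exact hsubL i (by omega) (Finset.mem_sdiff.1 (mem_inter.1 hp).1).1)
  obtain ⟨κ, hκ1, hκm, hκ⟩ := Vdw.select hηpos hξpos hR Ti hTi0
    (X := (L.card : ℝ)) (by positivity) hsum
  refine ⟨κ, hκ1, by omega, ?_⟩
  rw [hLx', hLx']
  obtain ⟨S, hS⟩ : ∃ S : Finset (Zd d), S = Lx κ ∩ A := ⟨_, rfl⟩
  rw [← hS]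
  have hSA : S ⊆ A := by rw [hS]; exact inter_subset_right
  obtain ⟨E, hE⟩ : ∃ E : ℝ, E = ∑ p ∈ S, e S p := ⟨_, rfl⟩
  rw [← hE]
  have hbS : ∀ p, (∀ q ∈ ball s0 p, q ∈ Lx κ) → ball 1 p ∩ A ⊆ S := by
    intro p hp q hq
    rw [hS]
    rw [mem_inter] at hq ⊢
    exact ⟨hp q (ball_mono hs0 hq.1), hq.2⟩
  -- the previous layers
  have hprev : ∑ i ∈ range (κ - 1), Ti i ≤ C' * E := by
    rw [hTi]
    simp only
    rw [← sum_biUnion (fun i _ i' _ h => hdisj i i' h)]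
    obtain ⟨F, hF⟩ : ∃ F : Finset (Zd d),
        F = (range (κ - 1)).biUnion fun i => (Lx (i + 1) \ Lx i) ∩ A := ⟨_, rfl⟩
    rw [← hF]
    have hFm : ∀ p ∈ F, ∃ i, i + 1 ≤ κ - 1 ∧ p ∈ Lx (i + 1) ∧ p ∉ Lx i ∧ p ∈ A := by
      intro p hp
      rw [hF, mem_biUnion] at hp
      obtain ⟨i, hi, hp⟩ := hp
      rw [mem_range] at hi
      simp only [mem_inter, Finset.mem_sdiff] at hp
      exact ⟨i, by omega, hp.1.1, hp.1.2, hp.2⟩
    have hFb : ∀ p ∈ F, ball 1 p ∩ A ⊆ S := by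
      intro p hp
      obtain ⟨i, hi, hp1, hp2, hpA⟩ := hFm p hp
      refine hbS p fun q hq => hmono (show i + 1 + 1 ≤ κ by omega) ?_
      rw [← hLx'] at hp1 ⊢
      exact ball_Lk hp1 hq
    have h1 : ∀ p ∈ F, t p ≤ C * ∑ q ∈ ball 1 p ∩ A, e S q := by
      intro p hp
      obtain ⟨i, hi, hp1, hp2, hpA⟩ := hFm p hp
      have hpL := hsubL i (by omega) hp1
      have hri : (i + 2) * s0 ≤ r := by
        rw [hr]
        exact Nat.mul_le_mul_right _ (by omega)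
      rw [← hLx'] at hp2
      rw [ht]
      simp only
      by_cases hpD : p ∈ DL
      · rw [if_pos hpD]
        exact hP.cleanA S hSA p hpA (hFb p hp)
          (Vdw.lay_D hcut hDA hVA hDV hDL hOL hs0 hri hpL hp2 hpD)
      · rw [if_neg hpD]
        exact hP.cleanB S hSA p hpA (hFb p hp)
          (Vdw.lay_V hcut hDA hVA hDV hDL hOL hs0 hri hpL hp2 hpD)
    refine (sum_le_sum h1).trans ?_
    rw [← mul_sum, hC', mul_assoc]
    refine mul_le_mul_of_nonneg_left ?_ hC.le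
    rw [hE]
    exact sum_balls A F S (hP.nonneg S) hFb
  -- the core
  have hcore : c' * L.card ≤ E := by
    obtain ⟨D', hD'⟩ : ∃ D' : Finset (Zd d), D' = A.filter fun i => D i := ⟨_, rfl⟩
    obtain ⟨V', hV'⟩ : ∃ V' : Finset (Zd d), V' = (fatr r A).filter fun i => V i := ⟨_, rfl⟩
    have hsize := hcut.size D' V' (fun i => by
      rw [hD', mem_filter]
      exact ⟨fun h => h.2, fun h => ⟨hDA i h, h⟩⟩) (fun i hi => by
      rw [hV', mem_filter]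
      exact ⟨fun h => h.2, fun h => ⟨hi, h⟩⟩)
    obtain ⟨G, hG⟩ : ∃ G : Finset (Zd d),
      G = ((L ∩ D').filter fun i => ∃ j ∈ Nb i, j ∈ L ∧ j ∈ V') ∪ ((L \ D') \ V') := ⟨_, rfl⟩
    have hLfat : ∀ i ∈ L, i ∈ fatr r A := by
      intro i hi
      have h1 := ((hcut.mem_L i).1 hi).1
      unfold bad at h1
      exact (mem_filter.1 h1).1
    have hGcard : (L.card : ℝ) ≤ b * G.card := by
      have h1 : ((L ∩ D').filter fun i => ∃ j ∈ Nb i, j ∈ L ∧ j ∈ V').card +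
          ((L \ D') \ V').card = G.card := by
        rw [hG, card_union_of_disjoint]
        rw [disjoint_left]
        intro p hp hp'
        rw [mem_filter, mem_inter] at hp
        rw [Finset.mem_sdiff, Finset.mem_sdiff] at hp'
        exact hp'.1.2 hp.1.2
      rw [h1] at hsize
      have h2 : (L.card : ℝ) ≤ (((2 * r + 1) ^ d * G.card : ℕ) : ℝ) := by exact_mod_cast hsize
      rw [hb]
      push_cast at h2
      exact h2
    have hGp : ∀ p ∈ G, (p ∈ L ∧ p ∈ A) ∧ ((¬ D p ∧ ¬ V p) ∨ (D p ∧ ∃ q ∈ ball 1 p, V q)) := by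
      intro p hp
      rw [hG, mem_union] at hp
      rcases hp with hp | hp
      · rw [mem_filter, mem_inter, hD', mem_filter] at hp
        obtain ⟨⟨h1, h2, h3⟩, q, h4, h5, h6⟩ := hp
        rw [hV', mem_filter] at h6
        refine ⟨⟨h1, h2⟩, Or.inr ⟨h3, q, ?_, h6.2⟩⟩
        rw [Vdw.mem_ball]
        intro l
        rw [mem_Nb] at h4
        have := h4 l
        rw [abs_le]
        push_cast
        omega
      · rw [Finset.mem_sdiff, Finset.mem_sdiff] at hp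
        obtain ⟨⟨h1, h2⟩, h3⟩ := hp
        have hnV : ¬ V p := fun h => h3 (by
          rw [hV', mem_filter]
          exact ⟨hLfat p h1, h⟩)
        have hpA : p ∈ A := by
          by_contra h
          exact hnV (hVA p h)
        have hnD : ¬ D p := fun h => h2 (by
          rw [hD', mem_filter]
          exact ⟨hpA, h⟩)
        exact ⟨⟨h1, hpA⟩, Or.inl ⟨hnD, hnV⟩⟩
    have hGK : ∀ p ∈ G, ball 1 p ∩ A ⊆ S := by
      intro p hp
      refine hbS p fun q hq => ?_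
      obtain ⟨⟨hpL, hpA⟩, h1⟩ := hGp p hp
      have hK : p ∈ Kc s0 L DL OL := Vdw.mem_Kc_of hcut hDA hVA hDV hDL hOL hs0 (κ := 0)
        (by rw [hr]; exact Nat.mul_le_mul_right _ (by omega)) hpL h1
      rw [← hLx']
      unfold Lk
      rw [mem_biUnion]
      exact ⟨p, hK, ball_mono (Nat.le_mul_of_pos_left _ (by omega)) hq⟩
    have h1 : ∀ p ∈ G, c ≤ ∑ q ∈ ball 1 p ∩ A, e S q := by
      intro p hp
      obtain ⟨⟨hpL, hpA⟩, h1⟩ := hGp p hp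
      rcases h1 with h1 | ⟨h1, h4⟩
      · exact hP.none S hSA p hpA (hGK p hp) h1.1 h1.2
      · exact hopp S hSA p hpA (hGK p hp) h1 h4
    have h2 := sum_balls A G S (hP.nonneg S) hGK
    rw [← hE] at h2
    have h3 : (G.card : ℝ) * c ≤ 3 ^ d * E := by
      refine le_trans ?_ h2
      rw [← nsmul_eq_mul, ← sum_const]
      exact sum_le_sum h1
    have h4 : (0 : ℝ) < 3 ^ d := by positivity
    calc c' * L.card ≤ c' * (b * G.card) := mul_le_mul_of_nonneg_left hGcard hc'pos.le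
      _ = (G.card : ℝ) * c / 3 ^ d := by
          rw [hc']
          field_simp
      _ ≤ E := by
          rw [div_le_iff₀ h4]
          linarith
  have hT : ∑ p ∈ (Lx (κ + 1) \ Lx κ) ∩ A, (if p ∈ DL then tA p else tB p) = Ti κ := by
    rw [hTi, ht]
  rw [hT]
  have h1 : K * Ti κ ≤ K * (η * (C' * E) + ξ * L.card) := by
    refine mul_le_mul_of_nonneg_left (hκ.trans ?_) hK.le
    linarith [mul_le_mul_of_nonneg_left hprev hηpos.le]
  have h2 : K * (η * (C' * E) + ξ * L.card) = E / 4 + c' * L.card / 4 := by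
    rw [hη, hξ]
    field_simp
  have h3 : c' / 2 * L.card = c' * L.card / 2 := by ring
  rw [h3]
  linarith

/-- **Selection of a layer.** -/
theorem det (hd : 2 ≤ d) {c2 C1 K1 : ℝ} (hc2 : 0 < c2) (hC1 : 0 < C1) (hK1 : 0 < K1) {s0 : ℕ}
    (hs0 : 2 ≤ s0) :
    ∃ (m Mr : ℕ) (c4 C4 : ℝ), 1 ≤ m ∧ 1 ≤ Mr ∧ (m + 2) * s0 ≤ Mr ∧ 0 < c4 ∧ 0 ≤ C4 ∧
      ∀ (A : Finset (Zd d)) (D V : Zd d → Prop) (e : Finset (Zd d) → Zd d → ℝ)
      (tA tB : Zd d → ℝ), Ben c2 C1 A D V e tA tB →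
      ∀ (s : ℕ) (L Y DL OL : Finset (Zd d)), Cut Mr A D V s L Y →
      (∀ i, i ∈ DL ↔ i ∈ L ∧ D i) → (∀ i, i ∈ OL ↔ i ∈ L ∧ ¬ D i ∧ ¬ V i) →
      ∃ κ, 1 ≤ κ ∧ κ ≤ m ∧
        c4 * L.card - C4 * (rim A).card ≤ QB K1 s0 κ A e tA tB L DL OL := by
  classical
  obtain ⟨m, Mr, c4, h1, h2, h3, h4, h⟩ := det_aux (d := d) hc2 hC1
    (K := 2 * K1) (by linarith) (s0 := s0) (by omega)
  refine ⟨m, Mr, c4 / 2, c2 / 2, h1, h2, h3, by linarith, by linarith, ?_⟩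
  intro A D V e tA tB hP s L Y DL OL hcut hDL hOL
  obtain ⟨ι, hι⟩ : ∃ ι : Zd d → ℝ, ι = fun p => if p ∈ rim A then c2 else 0 := ⟨_, rfl⟩
  have hι0 : ∀ p, 0 ≤ ι p := by
    intro p
    rw [hι]
    simp only
    split_ifs
    · exact hc2.le
    · exact le_rfl
  have hle : ∀ (S : Finset (Zd d)) (p : Zd d), ∑ q ∈ ball 1 p ∩ A, e S q ≤
      ∑ q ∈ ball 1 p ∩ A, (e S q + ι q) := fun S p =>
    sum_le_sum fun q _ => by linarith [hι0 q]
  have hP' : Ben c2 C1 A D V (fun S p => e S p + ι p) tA tB :=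
    { D_sub := hP.D_sub
      V_out := hP.V_out
      D_not_V := hP.D_not_V
      nonneg := fun S p => add_nonneg (hP.nonneg S p) (hι0 p)
      tA_nonneg := hP.tA_nonneg
      tB_nonneg := hP.tB_nonneg
      tA_le := hP.tA_le
      tB_le := hP.tB_le
      none := fun S a1 p a2 a3 a4 a5 => (hP.none S a1 p a2 a3 a4 a5).trans (hle S p)
      jump := fun S a1 p a2 a3 a4 a5 => (hP.jump S a1 p a2 a3 a4 a5).trans (hle S p)
      cleanA := fun S a1 p a2 a3 a4 => (hP.cleanA S a1 p a2 a3 a4).trans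
        (mul_le_mul_of_nonneg_left (hle S p) hC1.le)
      cleanB := fun S a1 p a2 a3 a4 => (hP.cleanB S a1 p a2 a3 a4).trans
        (mul_le_mul_of_nonneg_left (hle S p) hC1.le) }
  obtain ⟨κ, k1, k2, k3⟩ := h A D V _ tA tB hP' (by
    intro S a1 p a2 a3 a4 a5
    obtain ⟨q, hq1, hq2⟩ := a5
    by_cases hq : q ∈ A
    · exact (hP.jump S a1 p a2 a3 a4 ⟨q, mem_inter.2 ⟨hq1, hq⟩, hq2⟩).trans (hle S p)
    · have hp : p ∈ ball 1 p ∩ A := mem_inter.2 ⟨self_mem_ball 1 p, a2⟩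
      have h5 : ι p = c2 := by
        rw [hι]
        simp only
        rw [if_pos (mem_rim.2 ⟨a2, q, hq1, hq⟩)]
      have h6 : e S p + ι p ≤ ∑ q ∈ ball 1 p ∩ A, (e S q + ι q) :=
        single_le_sum (f := fun q => e S q + ι q)
          (fun q _ => add_nonneg (hP.nonneg S q) (hι0 q)) hp
      have h7 := hP.nonneg S p
      linarith) s L Y DL OL hcut hDL hOL
  refine ⟨κ, k1, k2, ?_⟩
  unfold QB layer
  rw [sum_add_distrib] at k3
  have h5 : ∑ p ∈ Lk s0 κ L DL OL ∩ A, ι p ≤ c2 * (rim A).card := by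
    rw [hι, ← sum_filter, sum_const, nsmul_eq_mul, mul_comm]
    refine mul_le_mul_of_nonneg_left ?_ hc2.le
    exact_mod_cast card_le_card fun p hp => (mem_filter.1 hp).2
  linarith

end Pool.Agent.RC
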