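import Pool.Agent.Lib.MP_09cbbd_rc.PCbG
import Pool.Agent.Lib.MP_09cbbd_rc.PDet

/-!
# The weight of a class of configurations
-/

set_option autoImplicit false
set_option linter.unusedSectionVars false

namespace Pool.Agent.RC

open MeasureTheory Finset Filter Topology Pool.Agent.StableGas
open Pool.Agent.SquareWell hiding Md cut
open Pool.Agent.Vdw (blk lift ball Lk Yk Wk Kc)
open Pool.Agent.Mix (Qr mem_Qr)

variable {d : ℕ}

namespace Cb

theorem sum_lift (k : ℕ) (F : Finset (Zd d)) (f : Zd d → ℝ) :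
    ∑ i ∈ lift k F, f i = ∑ p ∈ F, ∑ i ∈ blk k p, f i := by
  classical
  unfold lift
  apply Finset.sum_biUnion
  intro p _ q _ hpq
  rw [Function.onFun, Finset.disjoint_left]
  intro i h1 h2
  exact hpq (Vdw.blk_unique h1 h2)

theorem card_lift (k : ℕ) (F : Finset (Zd d)) : ((lift k F).card : ℝ) = (k : ℝ) ^ d * F.card := by
  rw [Vdw.card_lift]
  push_cast
  ring

section

variable {E : Type} [MeasurableSpace E]

theorem cnt_eq (S : Set E) (X : Finset (Zd d)) (ω : Zd d → E) :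
    (cnt S X ω : ℝ) = ∑ i ∈ X, S.indicator (1 : E → ℝ) (ω i) := by
  classical
  unfold cnt
  rw [card_filter]
  push_cast
  refine sum_congr rfl fun i _ => ?_
  by_cases h : ω i ∈ S
  · rw [if_pos h, Set.indicator_of_mem h, Pi.one_apply]
  · rw [if_neg h, Set.indicator_of_notMem h]

theorem cnt_le (S : Set E) (X : Finset (Zd d)) (ω : Zd d → E) : (cnt S X ω : ℝ) ≤ X.card := by
  classical
  unfold cnt
  exact_mod_cast card_filter_le _ _

theorem cnt_lift (S : Set E) (k : ℕ) (F : Finset (Zd d)) (ω : Zd d → E) :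
    (cnt S (lift k F) ω : ℝ) = ∑ p ∈ F, (cnt S (blk k p) ω : ℝ) := by
  rw [cnt_eq, sum_lift]
  exact sum_congr rfl fun p _ => (cnt_eq S (blk k p) ω).symm

theorem fa_add (h : E → ℝ) (S : Set E) (a b : ℝ) :
    fa h S (a + b) = fun x => fa h S a x + b * S.indicator 1 x := by
  funext x
  unfold fa
  ring

theorem fa_zero (h : E → ℝ) (S : Set E) : fa h S 0 = h := by
  funext x
  unfold fa
  ring

theorem measurable_fa {h : E → ℝ} (hh : Measurable h) {S : Set E} (hS : MeasurableSet S) (a : ℝ) :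
    Measurable (fa h S a) := by
  unfold fa
  exact hh.add ((measurable_one.indicator hS).const_mul a)

theorem w_fa (M : CG d E) (h : E → ℝ) (S : Set E) (a b : ℝ) (X : Finset (Zd d)) (ω : Zd d → E) :
    M.w (fa h S (a + b)) X ω = M.w (fa h S a) X ω * ex (b * cnt S X ω) := by
  unfold CG.w
  rw [fa_add, M.wG_add id (fun _ => fa h S a) (fun _ x => b * S.indicator 1 x) X ω, ← mul_sum,
    cnt_eq]

theorem Un_mono (M : CG d E) {S : Set E} {X X' : Finset (Zd d)} (hX : X ⊆ X') {ω : Zd d → E}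
    {i : Zd d} (h : M.Un S X ω i) : M.Un S X' ω i := by
  refine ⟨h.1, h.2.imp id ?_⟩
  rintro ⟨l, hl, h1, h2⟩
  exact ⟨l, hX hl, h1, h2⟩

theorem un_le (M : CG d E) (S : Set E) {k : ℕ} {X X' T P : Finset (Zd d)} (hX : X ⊆ X')
    (hT : T ⊆ lift k P) (ω : Zd d → E) :
    (M.un S X T ω : ℝ) ≤ ∑ p ∈ P, (M.un S X' (blk k p) ω : ℝ) := by
  classical
  have h1 : (T.filter fun i => M.Un S X ω i) ⊆
      P.biUnion fun p => (blk k p).filter fun i => M.Un S X' ω i := by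
    intro i hi
    rw [mem_filter] at hi
    obtain ⟨p, hp, hip⟩ := Vdw.mem_lift.1 (hT hi.1)
    exact mem_biUnion.2 ⟨p, hp, mem_filter.2 ⟨hip, Un_mono M hX hi.2⟩⟩
  have h2 := (card_le_card h1).trans card_biUnion_le
  unfold CG.un
  exact_mod_cast h2

theorem un_blk_le (M : CG d E) (S : Set E) {k : ℕ} {X : Finset (Zd d)} (p : Zd d)
    (ω : Zd d → E) : (M.un S X (blk k p) ω : ℝ) ≤ (k : ℝ) ^ d := by
  classical
  unfold CG.un
  have h := card_filter_le (blk k p) fun i => M.Un S X ω i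
  rw [Vdw.card_blk] at h
  exact_mod_cast h

theorem measurableSet_Un (M : CG d E) {S : Set E} (hS : MeasurableSet S) (X : Finset (Zd d))
    (i : Zd d) : MeasurableSet {ω : Zd d → E | M.Un S X ω i} := by
  classical
  have e : {ω : Zd d → E | M.Un S X ω i} = {ω | ω i ∈ ({M.e0} : Set E)ᶜ} ∩
      ({ω | ω i ∈ Sᶜ} ∪ ⋃ l ∈ X.filter (fun l => l ≠ i),
        {ω | ¬ M.nf 2 (l - i) (ω i) (ω l)}) := by
    ext ω
    simp only [CG.Un, Set.mem_ofPred_eq, Set.mem_inter_iff, Set.mem_compl_iff,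
      Set.mem_singleton_iff, Set.mem_union, Set.mem_iUnion, mem_filter]
    constructor
    · rintro ⟨h1, h2⟩
      refine ⟨h1, h2.imp id ?_⟩
      rintro ⟨l, hl, h3, h4⟩
      exact ⟨l, ⟨hl, h3⟩, h4⟩
    · rintro ⟨h1, h2⟩
      refine ⟨h1, h2.imp id ?_⟩
      rintro ⟨l, ⟨hl, h3⟩, h4⟩
      exact ⟨l, hl, h3, h4⟩
  rw [e]
  refine (measurable_pi_apply i M.e0_meas.compl).inter
    ((measurable_pi_apply i hS.compl).union ?_)
  refine Finset.measurableSet_biUnion _ fun l _ => ?_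
  have h : Measurable fun ω : Zd d → E => (ω i, ω l) :=
    (measurable_pi_apply i).prodMk (measurable_pi_apply l)
  exact (h (M.nf_meas 2 (l - i))).compl

theorem measurable_un (M : CG d E) {S : Set E} (hS : MeasurableSet S) (X T : Finset (Zd d)) :
    Measurable fun ω : Zd d → E => (M.un S X T ω : ℝ) := by
  classical
  have e : (fun ω : Zd d → E => (M.un S X T ω : ℝ)) = fun ω =>
      ∑ i ∈ T, {ω : Zd d → E | M.Un S X ω i}.indicator (fun _ => (1 : ℝ)) ω := by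
    funext ω
    unfold CG.un
    rw [card_filter]
    push_cast
    refine sum_congr rfl fun i _ => ?_
    by_cases h : M.Un S X ω i
    · rw [if_pos h, Set.indicator_of_mem (show ω ∈ {ω : Zd d → E | M.Un S X ω i} from h)]
    · rw [if_neg h, Set.indicator_of_notMem (show ω ∉ {ω : Zd d → E | M.Un S X ω i} from h)]
  rw [e]
  exact Finset.measurable_fun_sum _ fun i _ =>
    measurable_const.indicator (measurableSet_Un M hS X i)

theorem un_dep (M : CG d E) (S : Set E) {X T : Finset (Zd d)} (hT : T ⊆ X) {ω ω' : Zd d → E}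
    (h : ∀ i ∈ X, ω i = ω' i) : M.un S X T ω = M.un S X T ω' := by
  classical
  unfold CG.un
  congr 1
  refine filter_congr fun i hi => ?_
  unfold CG.Un
  rw [h i (hT hi)]
  refine and_congr_right fun _ => or_congr_right ?_
  constructor
  · rintro ⟨l, hl, h1, h2⟩
    exact ⟨l, hl, h1, by rwa [← h l hl]⟩
  · rintro ⟨l, hl, h1, h2⟩
    exact ⟨l, hl, h1, by rwa [h l hl]⟩

/-- The number of the cells of the phase `A` in the region of this phase. -/
theorem lower {M : CG d E} {SA SB : Set E} {h : E → ℝ} {p : ℝ → ℝ} {φ c2 C1 ε μ : ℝ} {k : ℕ}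
    {eb : Finset (Zd d) → (Zd d → E) → Zd d → ℝ} (B : Blk M SA SB h p φ c2 C1 ε μ k eb)
    (hφ : 0 ≤ φ) (hC1 : 0 ≤ C1) {Q F : Finset (Zd d)} {ω : Zd d → E}
    (hω : M.cp id (lift k Q) ω) (hF : F ⊆ Q) {τ c0 : ℝ} (hτ : ∑ q ∈ Q, eb Q ω q ≤ τ * Q.card)
    (h2 : ∀ D' : Finset (Zd d), (∀ i, i ∈ D' ↔ DA SA φ k Q ω i) →
      ((F \ D').card : ℝ) ≤ c0 * Q.card) :
    φ * (lift k F).card - (φ * c0 + 3 ^ d * C1 * τ) * (lift k Q).card ≤
      cnt SA (lift k F) ω := by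
  classical
  obtain ⟨D', hD'⟩ : ∃ D' : Finset (Zd d), D' = Q.filter fun q => DA SA φ k Q ω q := ⟨_, rfl⟩
  have hD : ∀ i, i ∈ D' ↔ DA SA φ k Q ω i := by
    intro i
    rw [hD', mem_filter]
    exact ⟨fun h => h.2, fun h => ⟨h.1, h⟩⟩
  have h3 := h2 D' hD
  have hk : (0 : ℝ) ≤ (k : ℝ) ^ d := by positivity
  have h4 : ∑ q ∈ F ∩ D', (φ * (k : ℝ) ^ d -
      C1 * (k : ℝ) ^ d * ∑ z ∈ ball 1 q ∩ Q, eb Q ω z) ≤ ∑ q ∈ F ∩ D', (cnt SA (blk k q) ω : ℝ) := by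
    refine sum_le_sum fun q hq => ?_
    rw [mem_inter] at hq
    have := B.full Q ω hω q (hF hq.1) ((hD q).1 hq.2)
    linarith
  have h5 : ∑ q ∈ F ∩ D', (cnt SA (blk k q) ω : ℝ) ≤ ∑ q ∈ F, (cnt SA (blk k q) ω : ℝ) :=
    sum_le_sum_of_subset_of_nonneg inter_subset_left fun _ _ _ => Nat.cast_nonneg _
  rw [sum_sub_distrib, sum_const, nsmul_eq_mul, ← mul_sum] at h4
  have h6 := DetA.sum_balls Q (F ∩ D') Q (f := fun z => eb Q ω z) (B.eb_nonneg Q ω)
    fun q _ => inter_subset_right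
  have h7 : C1 * (k : ℝ) ^ d * ∑ q ∈ F ∩ D', ∑ z ∈ ball 1 q ∩ Q, eb Q ω z ≤
      C1 * (k : ℝ) ^ d * (3 ^ d * (τ * Q.card)) := by
    refine mul_le_mul_of_nonneg_left (h6.trans ?_) (by positivity)
    exact mul_le_mul_of_nonneg_left hτ (by positivity)
  have h8 : (F.card : ℝ) = (F ∩ D').card + (F \ D').card := by
    have := card_inter_add_card_sdiff F D'
    exact_mod_cast this.symm
  rw [cnt_lift, card_lift, card_lift, h8]
  have h9 : φ * (k : ℝ) ^ d * (F \ D').card ≤ φ * (k : ℝ) ^ d * (c0 * Q.card) :=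
    mul_le_mul_of_nonneg_left h3 (by positivity)
  nlinarith

/-- The number of the cells of the phase `A` in the region of the other phase. -/
theorem upper {M : CG d E} {SA SB : Set E} {h : E → ℝ} {p : ℝ → ℝ} {φ c2 C1 ε μ : ℝ} {k : ℕ}
    {eb : Finset (Zd d) → (Zd d → E) → Zd d → ℝ} (B : Blk M SA SB h p φ c2 C1 ε μ k eb)
    (hC1 : 0 ≤ C1) {Q F : Finset (Zd d)} {ω : Zd d → E}
    (hω : M.cp id (lift k Q) ω) (hF : F ⊆ Q) {τ c0 : ℝ} (hτ : ∑ q ∈ Q, eb Q ω q ≤ τ * Q.card)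
    (h2 : ∀ V' : Finset (Zd d), (∀ i ∈ Q, i ∈ V' ↔ DB SA SB φ k Q ω i) →
      ((F \ V').card : ℝ) ≤ c0 * Q.card) :
    (cnt SA (lift k F) ω : ℝ) ≤ (c0 + 3 ^ d * C1 * τ) * (lift k Q).card := by
  classical
  obtain ⟨V', hV'⟩ : ∃ V' : Finset (Zd d), V' = Q.filter fun q => DB SA SB φ k Q ω q := ⟨_, rfl⟩
  have hV : ∀ i ∈ Q, i ∈ V' ↔ DB SA SB φ k Q ω i := by
    intro i hi
    rw [hV', mem_filter]
    exact ⟨fun h => h.2, fun h => ⟨hi, h⟩⟩
  have h3 := h2 V' hV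
  have hk : (0 : ℝ) ≤ (k : ℝ) ^ d := by positivity
  have h4 : ∑ q ∈ F ∩ V', (cnt SA (blk k q) ω : ℝ) ≤
      ∑ q ∈ F ∩ V', C1 * (k : ℝ) ^ d * ∑ z ∈ ball 1 q ∩ Q, eb Q ω z := by
    refine sum_le_sum fun q hq => ?_
    rw [mem_inter] at hq
    exact B.rare Q ω hω q (hF hq.1) ((hV q (hF hq.1)).1 hq.2)
  rw [← mul_sum] at h4
  have h6 := DetA.sum_balls Q (F ∩ V') Q (f := fun z => eb Q ω z) (B.eb_nonneg Q ω)
    fun q _ => inter_subset_right
  have h7 : C1 * (k : ℝ) ^ d * ∑ q ∈ F ∩ V', ∑ z ∈ ball 1 q ∩ Q, eb Q ω z ≤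
      C1 * (k : ℝ) ^ d * (3 ^ d * (τ * Q.card)) := by
    refine mul_le_mul_of_nonneg_left (h6.trans ?_) (by positivity)
    exact mul_le_mul_of_nonneg_left hτ (by positivity)
  have h5 : ∑ q ∈ F \ V', (cnt SA (blk k q) ω : ℝ) ≤ (k : ℝ) ^ d * (F \ V').card := by
    refine (sum_le_sum fun q _ => cnt_le SA (blk k q) ω).trans ?_
    simp only [Vdw.card_blk, sum_const, nsmul_eq_mul]
    push_cast
    rw [mul_comm]
  have h8 : ∑ q ∈ F, (cnt SA (blk k q) ω : ℝ) = ∑ q ∈ F ∩ V', (cnt SA (blk k q) ω : ℝ) +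
      ∑ q ∈ F \ V', (cnt SA (blk k q) ω : ℝ) := by
    rw [sum_inter_add_sum_sdiff]
  rw [cnt_lift, card_lift, h8]
  have h9 : (k : ℝ) ^ d * (F \ V').card ≤ (k : ℝ) ^ d * (c0 * Q.card) :=
    mul_le_mul_of_nonneg_left h3 hk
  nlinarith

end

theorem three (x y z : ℝ) (A B C : ENNReal) :
    (A * ex x) * (B * ex y) * (C * ex z) = ex (x + y + z) * ((A * B) * C) := by
  rw [ex_add, ex_add]
  ring

theorem arith {k D δ φ y o w Q L pa pb pm ε0 ε μ c4 C C4 rim rimm i1 i2 l1 l2 j1 j2 dq g : ℝ}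
    (hD0 : 0 ≤ D) (hDμ : D ≤ 2 * (ε0 * μ)) (hδ : 0 ≤ δ) (hφ : 0 ≤ φ)
    (hδφ : δ * φ ≤ 1) (hpa : pa ≤ pm - D / 2 * (δ * φ)) (hpb : pb ≤ pm + D / 2 * ((1 - δ) * φ))
    (hlo : (φ - ε) * μ ≤ pa) (hε : ε ≤ ε0) (hμ : 0 < μ) (hε0 : 0 ≤ ε0) (hy : 0 ≤ y) (ho : 0 ≤ o)
    (hw : 0 ≤ w) (hk : 0 ≤ k) (hL : 0 ≤ L) (hsum : Q = y + o + w) (hoL : o ≤ k * L)
    (hC : 0 ≤ C) (hC4 : 0 ≤ C4) (hrim : rim ≤ rimm)
    (hi1 : i1 ≤ k * L) (hi2 : i2 ≤ k * (L + rimm)) (hl1 : l1 ≤ o) (hl2 : l2 ≤ o + g * k * rimm)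
    (hj1 : j1 ≤ dq * L) (hj2 : j2 ≤ dq * (L + rimm))
    (e1 : 4 * ε0 ≤ c4 / 8) (e2 : 8 * δ ≤ c4 / 8) (e3 : 4 * dq ≤ c4 / 8 * k)
    (e4 : 4 * C ≤ c4 / 8 * μ) :
    (-(D / 2 * (φ * y - δ * φ / 4 * Q)) + D / 2 * (δ * φ / 4 * Q) + ε0 * μ * o -
      c4 * μ * k * L + C4 * μ * k * rim + 2 * μ * k * rimm) +
      (y * pb + 2 * μ * (2 * δ) * l1 + 2 * μ * j1 + C * (i1 + l1)) +
      (φ + ε) * μ * o +
      (w * pa + 2 * μ * (2 * δ) * l2 + 2 * μ * j2 + C * (i2 + l2)) ≤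
      pm * Q - D / 2 / 2 * (δ * φ) * Q + (C4 * μ * k + 2 * μ * k + 4 * μ * δ * (g * k) +
        2 * μ * dq + C * (k + g * k)) * rimm - c4 / 4 * μ * k * L := by
  have hkL : 0 ≤ k * L := mul_nonneg hk hL
  have k1 : y * pb ≤ y * (pm + D / 2 * ((1 - δ) * φ)) := mul_le_mul_of_nonneg_left hpb hy
  have k2 : w * pa ≤ w * (pm - D / 2 * (δ * φ)) := mul_le_mul_of_nonneg_left hpa hw
  have hpm : (φ - ε0) * μ ≤ pm := by
    have h1 : 0 ≤ D / 2 * (δ * φ) := by positivity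
    have h2 : (φ - ε0) * μ ≤ (φ - ε) * μ := mul_le_mul_of_nonneg_right (by linarith) hμ.le
    linarith
  have k3 : (φ + ε) * μ * o ≤ (pm + 2 * ε0 * μ) * o := by
    refine mul_le_mul_of_nonneg_right ?_ ho
    have h1 : ε * μ ≤ ε0 * μ := mul_le_mul_of_nonneg_right hε hμ.le
    linarith
  have k4 : D / 2 * (δ * φ) * o ≤ ε0 * μ * o := by
    refine mul_le_mul_of_nonneg_right ?_ ho
    have h1 : D / 2 * (δ * φ) ≤ D / 2 * 1 := mul_le_mul_of_nonneg_left hδφ (by linarith)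
    linarith
  have k5 : ε0 * μ * o ≤ ε0 * μ * (k * L) := mul_le_mul_of_nonneg_left hoL (by positivity)
  have k6 : 2 * μ * (2 * δ) * l1 ≤ 2 * μ * (2 * δ) * (k * L) :=
    mul_le_mul_of_nonneg_left (hl1.trans hoL) (by positivity)
  have k7 : 2 * μ * (2 * δ) * l2 ≤ 2 * μ * (2 * δ) * (k * L + g * k * rimm) :=
    mul_le_mul_of_nonneg_left (hl2.trans (by linarith)) (by positivity)
  have k8 : 2 * μ * j1 ≤ 2 * μ * (dq * L) := mul_le_mul_of_nonneg_left hj1 (by positivity)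
  have k9 : 2 * μ * j2 ≤ 2 * μ * (dq * (L + rimm)) := mul_le_mul_of_nonneg_left hj2 (by positivity)
  have k10 : C * (i1 + l1) ≤ C * (2 * (k * L)) := mul_le_mul_of_nonneg_left (by linarith) hC
  have k11 : C * (i2 + l2) ≤ C * (2 * (k * L) + k * rimm + g * k * rimm) :=
    mul_le_mul_of_nonneg_left (by linarith) hC
  have k12 : C4 * μ * k * rim ≤ C4 * μ * k * rimm := mul_le_mul_of_nonneg_left hrim (by positivity)
  have k13 : 4 * ε0 * (μ * (k * L)) ≤ c4 / 8 * (μ * (k * L)) :=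
    mul_le_mul_of_nonneg_right e1 (by positivity)
  have k14 : 8 * δ * (μ * (k * L)) ≤ c4 / 8 * (μ * (k * L)) :=
    mul_le_mul_of_nonneg_right e2 (by positivity)
  have k15 : 4 * dq * (μ * L) ≤ c4 / 8 * k * (μ * L) :=
    mul_le_mul_of_nonneg_right e3 (by positivity)
  have k16 : 4 * C * (k * L) ≤ c4 / 8 * μ * (k * L) :=
    mul_le_mul_of_nonneg_right e4 hkL
  have k17 : 0 ≤ c4 * (μ * (k * L)) := by
    have h1 : 0 ≤ c4 := by linarith
    positivity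
  subst hsum
  nlinarith only [k1, k2, k3, k4, k5, k6, k7, k8, k9, k10, k11, k12, k13, k14, k15, k16, k17]

end Cb

open Cb in
/-- **The weight of a class of configurations.** -/
theorem cls_bound (hd : 2 ≤ d) {φ c2 C1 c4 C4 : ℝ} (hφ : 0 < φ) (hφ1 : φ ≤ 1) (hC1 : 0 < C1)
    (hc4 : 0 < c4) (hC4 : 0 ≤ C4) {st m Mr : ℕ} (hst : 2 ≤ st) (hm : 1 ≤ m)
    (hM : (m + 2) * st ≤ Mr) (rn : ℕ) :
    ∃ δ0 : ℝ, 0 < δ0 ∧ ∀ δ, 0 < δ → δ ≤ δ0 → ∃ τ c0 ε0 : ℝ, 0 < τ ∧ 0 < c0 ∧ 0 < ε0 ∧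
      ε0 ≤ 1 ∧ 16 * ε0 ≤ τ ∧ ∃ k0 : ℕ, ∀ k : ℕ, k0 ≤ k → ∀ C : ℝ, 0 ≤ C → ∃ μ0 : ℝ,
      ∀ (E : Type) (_ : MeasurableSpace E) (M : CG d E) (SA SB : Set E) (h : E → ℝ)
      (p : ℝ → ℝ) (ε μ : ℝ) (eb : Finset (Zd d) → (Zd d → E) → Zd d → ℝ),
      Blk M SA SB h p φ c2 C1 ε μ k eb → ε ≤ ε0 → μ0 ≤ μ → M.q ≤ rn → 2 * M.r ≤ st * k →
      ∀ a1 a2 pm : ℝ, a1 < a2 → |a1| ≤ ε0 * μ → |a2| ≤ ε0 * μ →
      M.Gl SB (fa h SA a1) (2 * μ) (2 * δ) C (p a1) →
      M.Gl SA (fa h SA a2) (2 * μ) (2 * δ) C (p a2) →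
      p a1 ≤ pm - (a2 - a1) / 2 * (δ * φ) → p a2 ≤ pm + (a2 - a1) / 2 * ((1 - δ) * φ) →
      ∃ C' : ℝ, 0 ≤ C' ∧ ∀ Q s κ L Y DL OL, 1 ≤ κ → κ ≤ m → M.int (lift k Q)
        ((Cls M SA SB φ eb τ c0 c4 C4 k Mr st Q s κ L Y DL OL).indicator
          (M.w (fa h SA ((a1 + a2) / 2)) (lift k Q))) ≤
        ex (pm * (lift k Q).card - (a2 - a1) / 4 * (δ * φ) * (lift k Q).card +
          C' * (rimm st Q).card - c4 / 4 * μ * (k : ℝ) ^ d * L.card) := by
  classical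
  have hd0 : 1 ≤ d := by omega
  refine ⟨min 1 (c4 / 64), by positivity, fun δ hδ hδ' => ?_⟩
  have hδ1 : δ ≤ 1 := hδ'.trans (min_le_left _ _)
  have hδ2 : 8 * δ ≤ c4 / 8 := by
    have := hδ'.trans (min_le_right _ _)
    linarith
  have hδφ : δ * φ ≤ 1 := by nlinarith
  obtain ⟨τ, hτ⟩ : ∃ τ : ℝ, τ = δ * φ / (8 * 3 ^ d * C1) := ⟨_, rfl⟩
  have hτ0 : 0 < τ := by rw [hτ]; positivity
  obtain ⟨c0, hc0⟩ : ∃ c0 : ℝ, c0 = δ * φ / 8 := ⟨_, rfl⟩
  have hc00 : 0 < c0 := by rw [hc0]; positivity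
  have hτC : 3 ^ d * C1 * τ = δ * φ / 8 := by
    rw [hτ]
    field_simp
  obtain ⟨ε0, hε0⟩ : ∃ ε0 : ℝ, ε0 = min (min 1 (c4 / 32)) (τ / 16) := ⟨_, rfl⟩
  have hε00 : 0 < ε0 := by rw [hε0]; positivity
  have hε1 : ε0 ≤ 1 := by rw [hε0]; exact (min_le_left _ _).trans (min_le_left _ _)
  have hε2 : 4 * ε0 ≤ c4 / 8 := by
    have : ε0 ≤ c4 / 32 := by rw [hε0]; exact (min_le_left _ _).trans (min_le_right _ _)
    linarith
  have hε3 : 16 * ε0 ≤ τ := by
    have : ε0 ≤ τ / 16 := by rw [hε0]; exact min_le_right _ _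
    linarith
  refine ⟨τ, c0, ε0, hτ0, hc00, hε00, hε1, hε3, ⌈64 * d * rn / c4⌉₊, fun k hk0 C hC =>
    ⟨32 * C / c4, ?_⟩⟩
  intro E _ M SA SB h p ε μ eb B hε hμ0 hq hr a1 a2 pm ha ha1 ha2 Ga Gb hpa hpb
  have hk1 := B.k_pos
  have hμ := B.μ_pos
  have hkR : (1 : ℝ) ≤ k := by exact_mod_cast hk1
  have hkd : (0 : ℝ) < (k : ℝ) ^ d := by positivity
  have hk64 : 64 * d * rn / c4 ≤ k := (Nat.le_ceil _).trans (by exact_mod_cast hk0)
  rw [div_le_iff₀ hc4] at hk64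
  have hμ1 : 4 * C ≤ c4 / 8 * μ := by
    rw [div_le_iff₀ hc4] at hμ0
    linarith
  obtain ⟨dq, hdq⟩ : ∃ dq : ℝ, dq = 2 * d * M.q * (k : ℝ) ^ (d - 1) := ⟨_, rfl⟩
  have hdq0 : 0 ≤ dq := by rw [hdq]; positivity
  have hdq1 : 4 * dq ≤ c4 / 8 * (k : ℝ) ^ d := by
    have e1 : (k : ℝ) ^ d = k * (k : ℝ) ^ (d - 1) := by
      rw [← pow_succ']
      congr 1
      omega
    have h1 : (M.q : ℝ) ≤ rn := by exact_mod_cast hq
    have h2 : 64 * d * (M.q : ℝ) ≤ k * c4 :=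
      (mul_le_mul_of_nonneg_left h1 (by positivity)).trans hk64
    have h3 : (0 : ℝ) ≤ (k : ℝ) ^ (d - 1) := by positivity
    have h4 := mul_le_mul_of_nonneg_right h2 h3
    rw [hdq, e1]
    linarith
  obtain ⟨g, hg⟩ : ∃ g : ℝ, g = (2 * st + 1) ^ d := ⟨_, rfl⟩
  have hg0 : 0 ≤ g := by rw [hg]; positivity
  obtain ⟨C', hC'⟩ : ∃ C' : ℝ, C' = C4 * μ * (k : ℝ) ^ d + 2 * μ * (k : ℝ) ^ d +
    4 * μ * δ * (g * (k : ℝ) ^ d) + 2 * μ * dq + C * ((k : ℝ) ^ d + g * (k : ℝ) ^ d) := ⟨_, rfl⟩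
  refine ⟨C', by rw [hC']; positivity, ?_⟩
  intro Q s κ L Y DL OL hκ1 hκm
  rcases Set.eq_empty_or_nonempty (Cls M SA SB φ eb τ c0 c4 C4 k Mr st Q s κ L Y DL OL)
    with he | ⟨ω0, hω0⟩
  · rw [he, Set.indicator_empty]
    refine le_trans (le_of_eq ?_) zero_le
    show M.int (lift k Q) (fun _ => 0) = 0
    unfold CG.int
    simp [lmarginal]
  have hr0 : (κ + 2) * st ≤ Mr := (Nat.mul_le_mul_right _ (by omega)).trans hM
  -- the phases
  have hD : ∀ ω : Zd d → E, ∀ i, DA SA φ k Q ω i → i ∈ Q := fun ω i h => h.1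
  have hV : ∀ ω : Zd d → E, ∀ i, i ∉ Q → DB SA SB φ k Q ω i := fun ω i h => Or.inl h
  have hDV : ∀ ω : Zd d → E, ∀ i, DA SA φ k Q ω i → ¬ DB SA SB φ k Q ω i := by
    rintro ω i h1 (h2 | h2)
    · exact h2 h1.1
    · exact h2.1 h1
  -- the regions
  have R : Regs k st κ M.r M.q Q L Y DL OL := regs hk1 (by omega) hr0 hr M.hq hω0.2.1 (hD ω0)
    (hV ω0) (hDV ω0) hω0.2.2.1 hω0.2.2.2.1
  obtain ⟨XY, hXY⟩ : ∃ XY, XY = lift k (Yk st κ L Y DL OL) := ⟨_, rfl⟩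
  obtain ⟨XO, hXO⟩ : ∃ XO, XO = lift k (Lk st κ L DL OL ∩ Q) := ⟨_, rfl⟩
  obtain ⟨XW, hXW⟩ : ∃ XW, XW = lift k (Wk st κ Q L Y DL OL) := ⟨_, rfl⟩
  have hpart := R.part
  have hdYO := R.disj_YO
  have hdW := R.disj_W
  rw [← hXY, ← hXO] at hdYO
  rw [← hXY, ← hXO, ← hXW] at hpart hdW
  have hYQ : XY ⊆ lift k Q := by rw [hXY]; exact Vdw.lift_subset R.Y_sub
  have hWQ : XW ⊆ lift k Q := by rw [hXW]; exact Vdw.lift_subset R.W_sub
  have hOQ : XO ⊆ lift k Q := by rw [hXO]; exact Vdw.lift_subset inter_subset_right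
  obtain ⟨TY, hTY⟩ : ∃ TY, TY = LI (2 * M.r) XY := ⟨_, rfl⟩
  obtain ⟨TW, hTW⟩ : ∃ TW, TW = LI (2 * M.r) XW := ⟨_, rfl⟩
  have hTYs : TY ⊆ XY := by
    rw [hTY]
    unfold LI
    exact filter_subset _ _
  have hTWs : TW ⊆ XW := by
    rw [hTW]
    unfold LI
    exact filter_subset _ _
  -- the parameters
  obtain ⟨D, hDd⟩ : ∃ D, D = a2 - a1 := ⟨_, rfl⟩
  have hD0 : 0 < D := by rw [hDd]; linarith
  obtain ⟨a, haa⟩ : ∃ a, a = (a1 + a2) / 2 := ⟨_, rfl⟩
  have eY : a = a2 + -(D / 2) := by rw [haa, hDd]; ring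
  have eW : a = a1 + D / 2 := by rw [haa, hDd]; ring
  have eO : a = 0 + a := by ring
  have haμ : |a| ≤ ε0 * μ := by
    rw [abs_le] at ha1 ha2 ⊢
    rw [haa]
    constructor <;> linarith
  have hDμ : D ≤ 2 * (ε0 * μ) := by
    have h1 := (abs_le.1 ha1).1
    have h2 := (abs_le.1 ha2).2
    rw [hDd]
    linarith
  rw [← haa]
  -- the three factors
  obtain ⟨G1, hG1⟩ : ∃ G1 : (Zd d → E) → ENNReal, G1 = fun ω =>
      M.w (fa h SA a2) XY ω * ex (-(2 * μ * M.un SA XY TY ω)) := ⟨_, rfl⟩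
  obtain ⟨G2, hG2⟩ : ∃ G2 : (Zd d → E) → ENNReal, G2 = fun ω =>
      M.w (fa h SA a1) XW ω * ex (-(2 * μ * M.un SB XW TW ω)) := ⟨_, rfl⟩
  obtain ⟨G3, hG3⟩ : ∃ G3 : (Zd d → E) → ENNReal, G3 = fun ω => M.w h XO ω *
      ex (1 / 2 * μ * (k : ℝ) ^ d * ∑ q ∈ Lk st κ L DL OL ∩ Q,
        eb (Lk st κ L DL OL ∩ Q) ω q) := ⟨_, rfl⟩
  have mG1 : Measurable G1 := by
    rw [hG1]
    refine (M.measurable_w (measurable_fa B.fld.meas B.SA_meas a2) XY).mul (CG.measurable_ex ?_)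
    exact ((measurable_un M B.SA_meas XY TY).const_mul (2 * μ)).neg
  have mG2 : Measurable G2 := by
    rw [hG2]
    refine (M.measurable_w (measurable_fa B.fld.meas B.SA_meas a1) XW).mul (CG.measurable_ex ?_)
    exact ((measurable_un M B.SB_meas XW TW).const_mul (2 * μ)).neg
  have mG3 : Measurable G3 := by
    rw [hG3]
    refine (M.measurable_w B.fld.meas XO).mul (CG.measurable_ex ?_)
    exact (Finset.measurable_fun_sum _ fun q _ => B.eb_meas _ q).const_mul _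
  have dG1 : ∀ x y : Zd d → E, (∀ i ∈ XY, x i = y i) → G1 x = G1 y := by
    intro x y hxy
    rw [hG1]
    simp only
    rw [M.w_dep _ XY x y hxy, un_dep M SA hTYs hxy]
  have dG2 : ∀ x y : Zd d → E, (∀ i ∈ XW, x i = y i) → G2 x = G2 y := by
    intro x y hxy
    rw [hG2]
    simp only
    rw [M.w_dep _ XW x y hxy, un_dep M SB hTWs hxy]
  have dG3 : ∀ x y : Zd d → E, (∀ i ∈ XO, x i = y i) → G3 x = G3 y := by
    intro x y hxy
    rw [hG3]
    simp only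
    rw [M.w_dep _ XO x y hxy]
    congr 3
    refine sum_congr rfl fun q hq => ?_
    refine B.eb_dep _ q hq x y fun i hi => hxy i ?_
    rw [hXO]
    exact hi
  have iG1 : M.int XY G1 ≤ ex (XY.card * p a2 + 2 * μ * (2 * δ) * (LO (2 * M.r) XY).card +
      2 * μ * (LI M.q XY).card + C * (TY.card + (LO (2 * M.r) XY).card)) := by
    rw [hG1, hTY]
    exact Gb XY
  have iG2 : M.int XW G2 ≤ ex (XW.card * p a1 + 2 * μ * (2 * δ) * (LO (2 * M.r) XW).card +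
      2 * μ * (LI M.q XW).card + C * (TW.card + (LO (2 * M.r) XW).card)) := by
    rw [hG2, hTW]
    exact Ga XW
  have iG3 : M.int XO G3 ≤ ex ((φ + ε) * μ * XO.card) := by
    rw [hG3, hXO]
    refine (B.cr (Lk st κ L DL OL ∩ Q)).trans (le_of_eq ?_)
    rw [Cb.card_lift]
    congr 1
    ring
  -- the constant
  obtain ⟨cc, hcc⟩ : ∃ cc : ℝ, cc = -(D / 2 * (φ * XY.card - δ * φ / 4 * (lift k Q).card)) +
      D / 2 * (δ * φ / 4 * (lift k Q).card) + ε0 * μ * XO.card -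
      c4 * μ * (k : ℝ) ^ d * L.card + C4 * μ * (k : ℝ) ^ d * (rim Q).card +
      2 * μ * (k : ℝ) ^ d * (rimm st Q).card := ⟨_, rfl⟩
  have hpt : ∀ ω, (Cls M SA SB φ eb τ c0 c4 C4 k Mr st Q s κ L Y DL OL).indicator
      (M.w (fa h SA a) (lift k Q)) ω ≤ ex cc * ((G1 ω * G3 ω) * G2 ω) := by
    intro ω
    by_cases hω : ω ∈ Cls M SA SB φ eb τ c0 c4 C4 k Mr st Q s κ L Y DL OL
    swap
    · rw [Set.indicator_of_notMem hω]
      exact zero_le
    rw [Set.indicator_of_mem hω]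
    obtain ⟨hcp, hcut, hDL, hOL, hsm, hen, hQB⟩ := hω
    -- the numbers of the cells of the phase A
    have n1 : φ * XY.card - δ * φ / 4 * (lift k Q).card ≤ cnt SA XY ω := by
      have h1 := lower B hφ.le hC1.le hcp R.Y_sub hen (c0 := c0) (by
        intro D' hD'
        have h2 := hcut.small D' (Q.filter fun q => DB SA SB φ k Q ω q) hD'
          (by intro i hi; rw [mem_filter]; exact ⟨fun h => h.2, fun h => ⟨hi, h⟩⟩)
        have h3 : (Yk st κ L Y DL OL \ D').card ≤ (Y \ D').card := by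
          apply card_le_card
          intro q hq
          rw [Finset.mem_sdiff] at hq ⊢
          exact ⟨Vdw.Yk_bad hcut (hD ω) (hV ω) (hDV ω) hDL hOL (by omega) hr0 hq.1
            (fun h => hq.2 ((hD' q).2 h)), hq.2⟩
        refine le_trans ?_ hsm
        exact_mod_cast (h3.trans (Nat.le_add_right _ _)).trans h2)
      rw [← hXY] at h1
      refine le_trans ?_ h1
      have h2 : (φ * c0 + 3 ^ d * C1 * τ) * ((lift k Q).card : ℝ) ≤
          δ * φ / 4 * (lift k Q).card := by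
        refine mul_le_mul_of_nonneg_right ?_ (Nat.cast_nonneg _)
        have h3 : φ * c0 ≤ 1 * c0 := mul_le_mul_of_nonneg_right hφ1 hc00.le
        rw [hτC]
        rw [hc0] at h3 ⊢
        linarith
      linarith
    have n2 : (cnt SA XW ω : ℝ) ≤ δ * φ / 4 * (lift k Q).card := by
      have h1 := upper B hC1.le hcp R.W_sub hen (c0 := c0) (by
        intro V' hV'
        have h2 := hcut.small (Q.filter fun q => DA SA φ k Q ω q) V'
          (by intro i; rw [mem_filter]; exact ⟨fun h => h.2, fun h => ⟨h.1, h⟩⟩) hV'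
        have h3 : (Wk st κ Q L Y DL OL \ V').card ≤ ((Q \ (Y ∪ L)) \ V').card := by
          apply card_le_card
          intro q hq
          rw [Finset.mem_sdiff] at hq
          rw [Finset.mem_sdiff]
          exact ⟨Vdw.Wk_bad hcut (hD ω) (hV ω) (hDV ω) hDL hOL (by omega) hr0 hq.1
            (fun h => hq.2 ((hV' q (R.W_sub hq.1)).2 h)), hq.2⟩
        refine le_trans ?_ hsm
        exact_mod_cast (h3.trans (Nat.le_add_left _ _)).trans h2)
      rw [← hXW] at h1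
      refine h1.trans ?_
      refine mul_le_mul_of_nonneg_right ?_ (Nat.cast_nonneg _)
      rw [hτC, hc0]
      linarith
    have n3 : a * cnt SA XO ω ≤ ε0 * μ * XO.card := by
      have h1 := cnt_le SA XO ω
      have h2 : a ≤ ε0 * μ := (le_abs_self a).trans haμ
      calc a * (cnt SA XO ω : ℝ) ≤ ε0 * μ * (cnt SA XO ω : ℝ) :=
            mul_le_mul_of_nonneg_right h2 (Nat.cast_nonneg _)
        _ ≤ _ := mul_le_mul_of_nonneg_left h1 (by positivity)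
    -- the unclean cells
    have u1 : (M.un SA XY TY ω : ℝ) ≤ (k : ℝ) ^ d *
        ∑ q ∈ layer st κ Q L DL OL ∩ DL, tt M SA k Q ω q := by
      have h1 := un_le M SA hYQ (T := TY) (P := layer st κ Q L DL OL ∩ DL)
        (by rw [hTY, hXY]; exact R.LI_Y) ω
      refine h1.trans (le_of_eq ?_)
      rw [mul_sum]
      refine sum_congr rfl fun q _ => ?_
      unfold tt
      field_simp
    have u2 : (M.un SB XW TW ω : ℝ) ≤ (k : ℝ) ^ d *
        ∑ q ∈ layer st κ Q L DL OL \ DL, tt M SB k Q ω q + (k : ℝ) ^ d * (rimm st Q).card := by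
      have h1 := un_le M SB hWQ (T := TW) (P := (layer st κ Q L DL OL \ DL) ∪ rimm st Q)
        (by rw [hTW, hXW]; exact R.LI_W) ω
      refine h1.trans ?_
      have h2 : ∑ q ∈ (layer st κ Q L DL OL \ DL) ∪ rimm st Q,
          (M.un SB (lift k Q) (blk k q) ω : ℝ) ≤
          ∑ q ∈ layer st κ Q L DL OL \ DL, (M.un SB (lift k Q) (blk k q) ω : ℝ) +
          ∑ q ∈ rimm st Q, (M.un SB (lift k Q) (blk k q) ω : ℝ) := by
        rw [← sum_union_inter]
        have : 0 ≤ ∑ q ∈ (layer st κ Q L DL OL \ DL) ∩ rimm st Q,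
          (M.un SB (lift k Q) (blk k q) ω : ℝ) := sum_nonneg fun _ _ => Nat.cast_nonneg _
        linarith
      refine h2.trans (add_le_add (le_of_eq ?_) ?_)
      · rw [mul_sum]
        refine sum_congr rfl fun q _ => ?_
        unfold tt
        field_simp
      · refine (sum_le_sum fun q _ => un_blk_le M SB q ω).trans (le_of_eq ?_)
        rw [sum_const, nsmul_eq_mul, mul_comm]
    have u3 : 2 * μ * (M.un SA XY TY ω : ℝ) + 2 * μ * (M.un SB XW TW ω : ℝ) ≤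
        1 / 2 * μ * (k : ℝ) ^ d * ∑ q ∈ Lk st κ L DL OL ∩ Q, eb (Lk st κ L DL OL ∩ Q) ω q -
        c4 * μ * (k : ℝ) ^ d * L.card + C4 * μ * (k : ℝ) ^ d * (rim Q).card +
        2 * μ * (k : ℝ) ^ d * (rimm st Q).card := by
      unfold QB at hQB
      have h1 : ∑ q ∈ layer st κ Q L DL OL,
          (if q ∈ DL then tt M SA k Q ω q else tt M SB k Q ω q) =
          ∑ q ∈ layer st κ Q L DL OL ∩ DL, tt M SA k Q ω q +
          ∑ q ∈ layer st κ Q L DL OL \ DL, tt M SB k Q ω q := by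
        rw [← sum_inter_add_sum_sdiff (layer st κ Q L DL OL) DL]
        congr 1
        · refine sum_congr rfl fun q hq => ?_
          rw [if_pos (mem_inter.1 hq).2]
        · refine sum_congr rfl fun q hq => ?_
          rw [if_neg (Finset.mem_sdiff.1 hq).2]
      rw [h1] at hQB
      have h2 : 0 ≤ μ * (k : ℝ) ^ d := by positivity
      have h3 := mul_le_mul_of_nonneg_left hQB h2
      have h4 := mul_le_mul_of_nonneg_left u1 (show 0 ≤ 2 * μ by positivity)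
      have h5 := mul_le_mul_of_nonneg_left u2 (show 0 ≤ 2 * μ by positivity)
      linarith
    -- the weights
    have w1 : M.w (fa h SA a) XY ω =
        G1 ω * ex (2 * μ * M.un SA XY TY ω - D / 2 * cnt SA XY ω) := by
      rw [hG1, eY, w_fa]
      simp only
      rw [mul_assoc, ← ex_add]
      congr 2
      ring
    have w2 : M.w (fa h SA a) XW ω =
        G2 ω * ex (2 * μ * M.un SB XW TW ω + D / 2 * cnt SA XW ω) := by
      rw [hG2, eW, w_fa]
      simp only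
      rw [mul_assoc, ← ex_add]
      congr 2
      ring
    have w3 : M.w (fa h SA a) XO ω =
        G3 ω * ex (a * cnt SA XO ω - 1 / 2 * μ * (k : ℝ) ^ d *
          ∑ q ∈ Lk st κ L DL OL ∩ Q, eb (Lk st κ L DL OL ∩ Q) ω q) := by
      rw [hG3]
      nth_rewrite 1 [eO]
      rw [w_fa, fa_zero]
      simp only
      rw [mul_assoc, ← ex_add]
      congr 2
      ring
    have hw : M.w (fa h SA a) (lift k Q) ω ≤
        (M.w (fa h SA a) XY ω * M.w (fa h SA a) XO ω) * M.w (fa h SA a) XW ω := by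
      rw [← hpart]
      refine (M.wG_union_le id (fun _ => fa h SA a) hdW ω).trans ?_
      exact mul_le_mul' (M.wG_union_le id (fun _ => fa h SA a) hdYO ω) le_rfl
    refine hw.trans ?_
    rw [w1, w2, w3]
    rw [three]
    refine mul_le_mul' (ex_le_ex.2 ?_) le_rfl
    have h1 : D / 2 * (φ * XY.card - δ * φ / 4 * (lift k Q).card) ≤
        D / 2 * cnt SA XY ω := mul_le_mul_of_nonneg_left n1 (by positivity)
    have h2 : D / 2 * cnt SA XW ω ≤ D / 2 * (δ * φ / 4 * (lift k Q).card) :=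
      mul_le_mul_of_nonneg_left n2 (by positivity)
    rw [hcc]
    linarith
  -- the integral
  have hint : M.int (lift k Q) ((Cls M SA SB φ eb τ c0 c4 C4 k Mr st Q s κ L Y DL OL).indicator
      (M.w (fa h SA a) (lift k Q))) ≤ ex cc * ((M.int XY G1 * M.int XO G3) * M.int XW G2) := by
    have mG13 : Measurable fun ω => G1 ω * G3 ω := mG1.mul mG3
    have mG132 : Measurable fun ω => G1 ω * G3 ω * G2 ω := mG13.mul mG2
    refine (M.int_mono _ hpt).trans (le_of_eq ?_)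
    refine (M.int_const_mul (lift k Q) mG132 (ex cc)).trans ?_
    rw [← hpart]
    congr 1
    refine (M.int_mul hdW mG13 mG2 (fun x y hxy => ?_) dG2).trans ?_
    · rw [dG1 x y fun i hi => hxy i (mem_union_left _ hi),
        dG3 x y fun i hi => hxy i (mem_union_right _ hi)]
    · congr 1
      exact M.int_mul hdYO mG1 mG3 dG1 dG3
  refine hint.trans ((mul_le_mul' le_rfl (mul_le_mul' (mul_le_mul' iG1 iG3) iG2)).trans ?_)
  rw [← ex_add, ← ex_add, ← ex_add, ex_le_ex]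
  -- the numbers
  have hO : XO.card ≤ k ^ d * L.card := by
    rw [hXO, Vdw.card_lift]
    exact Nat.mul_le_mul_left _ (card_le_card R.O_sub)
  have hQc : ((lift k Q).card : ℝ) = XY.card + XO.card + XW.card := by
    rw [← hpart, card_union_of_disjoint hdW, card_union_of_disjoint hdYO]
    push_cast
    ring
  have hTYc : TY.card ≤ k ^ d * L.card := by
    have h1 : TY ⊆ lift k (layer st κ Q L DL OL ∩ DL) := by rw [hTY, hXY]; exact R.LI_Y
    refine (card_le_card h1).trans ?_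
    rw [Vdw.card_lift]
    exact Nat.mul_le_mul_left _ (card_le_card (inter_subset_left.trans R.layer_sub))
  have hTWc : TW.card ≤ k ^ d * (L.card + (rimm st Q).card) := by
    have h1 : TW ⊆ lift k ((layer st κ Q L DL OL \ DL) ∪ rimm st Q) := by
      rw [hTW, hXW]; exact R.LI_W
    refine (card_le_card h1).trans ?_
    rw [Vdw.card_lift]
    refine Nat.mul_le_mul_left _ ((card_union_le _ _).trans (add_le_add ?_ le_rfl))
    exact card_le_card (sdiff_subset.trans R.layer_sub)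
  have hLOY : (LO (2 * M.r) XY).card ≤ XO.card := by
    rw [hXY, hXO]
    exact card_le_card R.LO_Y
  have hLOW : (LO (2 * M.r) XW).card ≤ XO.card + (2 * st + 1) ^ d * k ^ d * (rimm st Q).card := by
    have h1 := R.LO_W
    rw [← hXW, ← hXO] at h1
    have h2 := card_le_card_sdiff_add_card (s := LO (2 * M.r) XW) (t := XO)
    omega
  have hLqY : (LI M.q XY).card ≤ 2 * d * M.q * k ^ (d - 1) * L.card := by
    rw [hXY]
    exact R.LIq_Y
  have hLqW : (LI M.q XW).card ≤ 2 * d * M.q * k ^ (d - 1) * (L.card + (rimm st Q).card) := by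
    rw [hXW]
    exact R.LIq_W
  have hrimm : (rim Q).card ≤ (rimm st Q).card := by
    refine card_le_card fun q hq => ?_
    unfold rim at hq
    unfold rimm
    rw [mem_filter] at hq ⊢
    obtain ⟨h1, z, h2, h3⟩ := hq
    exact ⟨h1, z, DetA.ball_mono (by omega) h2, h3⟩
  have hlo := B.lo a1
  have key := arith (k := (k : ℝ) ^ d) (D := D) (δ := δ) (φ := φ) (y := XY.card) (o := XO.card)
    (w := XW.card) (Q := (lift k Q).card) (L := L.card) (pa := p a1) (pb := p a2) (pm := pm)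
    (ε0 := ε0) (ε := ε) (μ := μ) (c4 := c4) (C := C) (C4 := C4) (rim := (rim Q).card)
    (rimm := (rimm st Q).card) (i1 := TY.card) (i2 := TW.card) (l1 := (LO (2 * M.r) XY).card)
    (l2 := (LO (2 * M.r) XW).card) (j1 := (LI M.q XY).card) (j2 := (LI M.q XW).card) (dq := dq)
    (g := g) hD0.le hDμ hδ.le hφ.le hδφ (by rw [hDd]; exact hpa) (by rw [hDd]; exact hpb) hlo hε hμ
    hε00.le (Nat.cast_nonneg _) (Nat.cast_nonneg _) (Nat.cast_nonneg _) hkd.le (Nat.cast_nonneg _)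
    hQc (by exact_mod_cast hO) hC hC4 (by exact_mod_cast hrimm) (by exact_mod_cast hTYc)
    (by exact_mod_cast hTWc) (by exact_mod_cast hLOY) (by rw [hg]; exact_mod_cast hLOW)
    (by rw [hdq]; exact_mod_cast hLqY) (by rw [hdq]; exact_mod_cast hLqW) hε2 hδ2 hdq1 hμ1
  rw [hcc, ← hDd]
  refine le_trans (le_of_eq ?_) (key.trans (le_of_eq ?_))
  · ring
  · rw [hC']
    ring

end Pool.Agent.RC
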