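import Pool.Agent.Lib.MP_09cbbd_rc.PCell

/-!
# Rows and columns: geometry for the class bound

Counts of the layers of the regions `lift k (Yk ..)` and `lift k (Wk ..)`.
-/

set_option autoImplicit false
set_option linter.unusedSectionVars false
set_option linter.unusedVariables false

namespace Pool.Agent.RC.CbG

open MeasureTheory Finset Pool.Agent.StableGas
open Pool.Agent.SquareWell hiding Md cut
open Pool.Agent.Vdw (blk lift ball Lk Yk Wk Kc mem_blk card_blk mem_ball card_ball mem_lift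
  exists_blk blk_unique card_lift mem_lift_iff lift_subset lift_union disjoint_lift near_blk
  ball_near_trans lnear_symm lnear_self)
open Pool.Agent.Mix (Qr mem_Qr)

variable {d : ℕ}

theorem mem_rimm {s : ℕ} {A : Finset (Zd d)} {p : Zd d} :
    p ∈ rimm s A ↔ p ∈ A ∧ ∃ q ∈ ball s p, q ∉ A := by
  unfold rimm
  rw [mem_filter]

theorem rimm_sub (s : ℕ) (A : Finset (Zd d)) : rimm s A ⊆ A := fun _ h => (mem_rimm.1 h).1

theorem mem_LI {r : ℕ} {X : Finset (Zd d)} {i : Zd d} :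
    i ∈ LI r X ↔ i ∈ X ∧ ∃ j, j ∉ X ∧ j - i ∈ Qr d r := by
  classical
  unfold LI
  rw [mem_filter]

theorem mem_LO {r : ℕ} {X : Finset (Zd d)} {j : Zd d} :
    j ∈ LO r X ↔ (∃ i ∈ X, j - i ∈ Qr d r) ∧ j ∉ X := by
  unfold LO
  rw [mem_sdiff, mem_biUnion]
  refine and_congr_left fun _ => ?_
  refine exists_congr fun i => and_congr_right fun _ => ?_
  rw [mem_image]
  constructor
  · rintro ⟨v, hv, rfl⟩
    rwa [add_sub_cancel_left]
  · intro h
    exact ⟨j - i, h, add_sub_cancel i j⟩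

/-- The blocks outside near a block of `P`. -/
noncomputable def ob (s : ℕ) (P : Finset (Zd d)) : Finset (Zd d) := P.biUnion (ball s) \ P

theorem mem_ob {s : ℕ} {P : Finset (Zd d)} {q : Zd d} :
    q ∈ ob s P ↔ (∃ p ∈ P, near s p q) ∧ q ∉ P := by
  unfold ob
  rw [mem_sdiff, mem_biUnion]
  simp only [mem_ball]

theorem near_of_Qr {k s r : ℕ} (hr : r ≤ s * k) {p q i j : Zd d} (hp : i ∈ blk k p)
    (hq : j ∈ blk k q) (h : j - i ∈ Qr d r) : near s p q := by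
  apply near_blk hp hq
  intro l
  have h1 := mem_Qr.1 h l
  have h2 : (r : ℤ) ≤ s * k := by exact_mod_cast hr
  exact h1.trans h2

theorem LI_lift {k s r : ℕ} (hk : 1 ≤ k) (hr : r ≤ s * k) (P : Finset (Zd d)) :
    LI r (lift k P) ⊆ lift k (rimm s P) := by
  intro i hi
  obtain ⟨h1, j, h2, h3⟩ := mem_LI.1 hi
  obtain ⟨p, hp, hip⟩ := mem_lift.1 h1
  obtain ⟨q, hjq⟩ := exists_blk hk j
  have hq : q ∉ P := fun h => h2 ((mem_lift_iff hjq).2 h)
  rw [mem_lift]
  exact ⟨p, mem_rimm.2 ⟨hp, q, mem_ball.2 (near_of_Qr hr hip hjq h3), hq⟩, hip⟩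

theorem LO_lift {k s r : ℕ} (hk : 1 ≤ k) (hr : r ≤ s * k) (P : Finset (Zd d)) :
    LO r (lift k P) ⊆ lift k (ob s P) := by
  intro j hj
  obtain ⟨⟨i, h1, h3⟩, h2⟩ := mem_LO.1 hj
  obtain ⟨p, hp, hip⟩ := mem_lift.1 h1
  obtain ⟨q, hjq⟩ := exists_blk hk j
  have hq : q ∉ P := fun h => h2 ((mem_lift_iff hjq).2 h)
  rw [mem_lift]
  exact ⟨q, mem_ob.2 ⟨⟨p, hp, near_of_Qr hr hip hjq h3⟩, hq⟩, hjq⟩

theorem card_LI_lift {k s r : ℕ} (hk : 1 ≤ k) (hr : r ≤ s * k) {P R : Finset (Zd d)}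
    (h : rimm s P ⊆ R) : (LI r (lift k P)).card ≤ k ^ d * R.card := by
  refine (card_le_card (LI_lift hk hr P)).trans ?_
  rw [card_lift]
  exact Nat.mul_le_mul_left _ (card_le_card h)

theorem card_LO_lift {k s r : ℕ} (hk : 1 ≤ k) (hr : r ≤ s * k) {P R : Finset (Zd d)}
    (h : ob s P ⊆ R) : (LO r (lift k P)).card ≤ k ^ d * R.card := by
  refine (card_le_card (LO_lift hk hr P)).trans ?_
  rw [card_lift]
  exact Nat.mul_le_mul_left _ (card_le_card h)

/-- Cells of a block near a face. -/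
theorem card_slab (k q : ℕ) (p : Zd d) (l : Fin d) (a : ℤ) :
    (Fintype.piFinset fun l' => if l' = l then Finset.Ico a (a + q)
      else Finset.Ico ((k : ℤ) * p l') (k * p l' + k)).card = q * k ^ (d - 1) := by
  rw [Fintype.card_piFinset, ← Finset.mul_prod_erase univ _ (mem_univ l)]
  rw [if_pos rfl, Int.card_Ico]
  have h1 : (a + (q : ℤ) - a).toNat = q := by omega
  rw [h1]
  congr 1
  have h2 : ∀ l' ∈ (univ : Finset (Fin d)).erase l,
      (if l' = l then Finset.Ico a (a + q)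
        else Finset.Ico ((k : ℤ) * p l') (k * p l' + k)).card = k := by
    intro l' hl'
    rw [if_neg (ne_of_mem_erase hl'), Int.card_Ico]
    omega
  rw [Finset.prod_congr rfl h2, Finset.prod_const, card_erase_of_mem (mem_univ l), card_univ,
    Fintype.card_fin]

/-- Cells of a block near the outside. -/
theorem card_edge (k q : ℕ) (p : Zd d) (T : Finset (Zd d)) (hT : T ⊆ blk k p)
    (h : ∀ i ∈ T, ∃ j, j ∉ blk k p ∧ j - i ∈ Qr d q) :
    T.card ≤ 2 * d * q * k ^ (d - 1) := by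
  classical
  have hsub : T ⊆ (univ : Finset (Fin d)).biUnion fun l =>
      (Fintype.piFinset fun l' => if l' = l then Finset.Ico ((k : ℤ) * p l) (k * p l + q)
        else Finset.Ico ((k : ℤ) * p l') (k * p l' + k)) ∪
      (Fintype.piFinset fun l' => if l' = l then
          Finset.Ico ((k : ℤ) * p l + k - q) (k * p l + k - q + q)
        else Finset.Ico ((k : ℤ) * p l') (k * p l' + k)) := by
    intro i hi
    obtain ⟨j, hj, hji⟩ := h i hi
    have hib := mem_blk.1 (hT hi)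
    have hq := mem_Qr.1 hji
    rw [mem_blk] at hj
    push Not at hj
    obtain ⟨l, hl⟩ := hj
    rw [mem_biUnion]
    refine ⟨l, mem_univ l, ?_⟩
    rw [mem_union, Fintype.mem_piFinset, Fintype.mem_piFinset]
    have hq1 := abs_le.1 (hq l)
    have hq2 : (j - i) l = j l - i l := rfl
    rw [hq2] at hq1
    obtain ⟨h1, h2⟩ := hib l
    by_cases hlt : (k : ℤ) * p l ≤ j l
    · right
      intro l'
      by_cases hl' : l' = l
      · subst hl'
        rw [if_pos rfl, mem_Ico]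
        have := hl hlt
        constructor <;> omega
      · rw [if_neg hl', mem_Ico]
        exact hib l'
    · left
      intro l'
      by_cases hl' : l' = l
      · subst hl'
        rw [if_pos rfl, mem_Ico]
        constructor <;> omega
      · rw [if_neg hl', mem_Ico]
        exact hib l'
  refine (card_le_card hsub).trans (card_biUnion_le.trans ?_)
  have h1 : ∀ l ∈ (univ : Finset (Fin d)),
      ((Fintype.piFinset fun l' => if l' = l then Finset.Ico ((k : ℤ) * p l) (k * p l + q)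
        else Finset.Ico ((k : ℤ) * p l') (k * p l' + k)) ∪
      (Fintype.piFinset fun l' => if l' = l then
          Finset.Ico ((k : ℤ) * p l + k - q) (k * p l + k - q + q)
        else Finset.Ico ((k : ℤ) * p l') (k * p l' + k))).card ≤ 2 * (q * k ^ (d - 1)) := by
    intro l _
    refine (card_union_le _ _).trans ?_
    rw [card_slab, card_slab]
    omega
  refine (Finset.sum_le_sum h1).trans (le_of_eq ?_)
  rw [Finset.sum_const, card_univ, Fintype.card_fin, smul_eq_mul]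
  ring

theorem card_LIq_lift {k s q : ℕ} (hk : 1 ≤ k) (hq : q ≤ s * k) {P R : Finset (Zd d)}
    (h : rimm s P ⊆ R) : (LI q (lift k P)).card ≤ 2 * d * q * k ^ (d - 1) * R.card := by
  classical
  have hsub : LI q (lift k P) ⊆ (rimm s P).biUnion fun p =>
      (LI q (lift k P)).filter fun i => i ∈ blk k p := by
    intro i hi
    obtain ⟨p, hp, hip⟩ := mem_lift.1 (LI_lift hk hq P hi)
    rw [mem_biUnion]
    exact ⟨p, hp, mem_filter.2 ⟨hi, hip⟩⟩
  refine (card_le_card hsub).trans (card_biUnion_le.trans ?_)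
  have h1 : ∀ p ∈ rimm s P, ((LI q (lift k P)).filter fun i => i ∈ blk k p).card ≤
      2 * d * q * k ^ (d - 1) := by
    intro p hp
    refine card_edge k q p _ (fun i hi => (mem_filter.1 hi).2) fun i hi => ?_
    obtain ⟨h2, h3⟩ := mem_filter.1 hi
    obtain ⟨-, j, hj, hji⟩ := mem_LI.1 h2
    exact ⟨j, fun hjb => hj (mem_lift.2 ⟨p, rimm_sub s P hp, hjb⟩), hji⟩
  refine (Finset.sum_le_sum h1).trans ?_
  rw [Finset.sum_const, smul_eq_mul, mul_comm]
  exact Nat.mul_le_mul_left _ (card_le_card h)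

/-! ### the unclean cells -/

section un

variable {E : Type} [MeasurableSpace E] (M : CG d E)

theorem Un_mono {S : Set E} {X X' : Finset (Zd d)} (h : X ⊆ X') {ω : Zd d → E} {i : Zd d}
    (hu : M.Un S X ω i) : M.Un S X' ω i := by
  refine ⟨hu.1, hu.2.imp id ?_⟩
  rintro ⟨l, hl, h1, h2⟩
  exact ⟨l, h hl, h1, h2⟩

theorem un_le_card (S : Set E) (X T : Finset (Zd d)) (ω : Zd d → E) :
    M.un S X T ω ≤ T.card := by
  classical
  unfold CG.un
  exact card_filter_le _ _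

theorem un_le_sum {k s r : ℕ} (hk : 1 ≤ k) (hr : r ≤ s * k) (S : Set E)
    {P Q R : Finset (Zd d)} (hPQ : P ⊆ Q) (hR : rimm s P ⊆ R) (ω : Zd d → E) :
    M.un S (lift k P) (LI r (lift k P)) ω ≤ ∑ p ∈ R, M.un S (lift k Q) (blk k p) ω := by
  classical
  have h1 : M.un S (lift k P) (LI r (lift k P)) ω ≤
      (R.biUnion fun p => (blk k p).filter fun i => M.Un S (lift k Q) ω i).card := by
    unfold CG.un
    apply card_le_card
    intro i hi
    obtain ⟨h2, h3⟩ := mem_filter.1 hi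
    obtain ⟨p, hp, hip⟩ := mem_lift.1 (LI_lift hk hr P h2)
    rw [mem_biUnion]
    exact ⟨p, hR hp, mem_filter.2 ⟨hip, Un_mono M (lift_subset hPQ) h3⟩⟩
  refine h1.trans (card_biUnion_le.trans (le_of_eq ?_))
  apply Finset.sum_congr rfl
  intro p _
  unfold CG.un
  congr

theorem tt_mul {S : Set E} {k : ℕ} (hk : 1 ≤ k) (Q : Finset (Zd d)) (ω : Zd d → E) (p : Zd d) :
    (M.un S (lift k Q) (blk k p) ω : ℝ) = tt M S k Q ω p * (k : ℝ) ^ d := by
  unfold tt
  rw [div_mul_cancel₀]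
  have : (0 : ℝ) < k := by exact_mod_cast hk
  positivity

theorem tt_le_one {S : Set E} {k : ℕ} (hk : 1 ≤ k) (Q : Finset (Zd d)) (ω : Zd d → E)
    (p : Zd d) : tt M S k Q ω p ≤ 1 := by
  unfold tt
  have : (0 : ℝ) < k := by exact_mod_cast hk
  rw [div_le_one (by positivity)]
  have h := un_le_card M S (lift k Q) (blk k p) ω
  rw [card_blk] at h
  exact_mod_cast h

end un

/-! ### the regions `Yk`, `Wk`, `Lk` -/

theorem QB_eq (K1 : ℝ) (s0 κ : ℕ) (A : Finset (Zd d)) (e : Finset (Zd d) → Zd d → ℝ)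
    (tA tB : Zd d → ℝ) (L DL OL : Finset (Zd d)) :
    QB K1 s0 κ A e tA tB L DL OL = 1 / 2 * ∑ p ∈ Lk s0 κ L DL OL ∩ A,
      e (Lk s0 κ L DL OL ∩ A) p - K1 * (∑ p ∈ layer s0 κ A L DL OL ∩ DL, tA p +
        ∑ p ∈ layer s0 κ A L DL OL \ DL, tB p) := by
  classical
  unfold QB
  congr 2
  rw [Finset.sum_ite, Finset.filter_mem_eq_inter]
  congr 1
  apply Finset.sum_congr _ fun _ _ => rfl
  ext p
  simp only [mem_filter, mem_sdiff]

section Lay

variable {r s : ℕ} {A : Finset (Zd d)} {D V : Zd d → Prop} {L Y DL OL : Finset (Zd d)}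
  (hc : Cut r A D V s L Y) (hD : ∀ i, D i → i ∈ A) (hV : ∀ i, i ∉ A → V i)
  (hDV : ∀ i, D i → ¬ V i) (hDL : ∀ i, i ∈ DL ↔ i ∈ L ∧ D i)
  (hOL : ∀ i, i ∈ OL ↔ i ∈ L ∧ ¬ D i ∧ ¬ V i) {s0 κ : ℕ} (hs0 : 1 ≤ s0)
  (hr : (κ + 2) * s0 ≤ r)

include hc hD hV hDV hDL hOL hs0 hr

theorem rimm_Yk : rimm s0 (Yk s0 κ L Y DL OL) ⊆ layer s0 κ A L DL OL ∩ DL := by
  intro p hp
  obtain ⟨h1, q, h2, h3⟩ := mem_rimm.1 hp
  rcases Vdw.Yk_near hc hD hV hDV hDL hOL hs0 hr h1 (mem_ball.1 h2) with h4 | h4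
  · exact absurd h4 h3
  · have h5 := Vdw.Yk_layer hc hD hV hDV hDL hOL hs0 hr h1 h4.1 (mem_ball.1 h2)
    exact mem_inter.2 ⟨h5.1, h5.2⟩

theorem ob_Yk : ob s0 (Yk s0 κ L Y DL OL) ⊆ Lk s0 κ L DL OL ∩ A := by
  intro q hq
  obtain ⟨⟨p, h1, h2⟩, h3⟩ := mem_ob.1 hq
  rcases Vdw.Yk_near hc hD hV hDV hDL hOL hs0 hr h1 h2 with h4 | h4
  · exact absurd h4 h3
  · exact mem_inter.2 h4

theorem near_Wk {p q : Zd d} (hp : p ∈ Wk s0 κ A L Y DL OL) (hpq : near s0 p q) :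
    q ∈ Wk s0 κ A L Y DL OL ∨ q ∈ Lk s0 κ L DL OL ∩ A ∨ q ∉ A := by
  by_cases hqA : q ∈ A
  · by_cases hqL : q ∈ Lk s0 κ L DL OL
    · exact Or.inr (Or.inl (mem_inter.2 ⟨hqL, hqA⟩))
    · left
      unfold Wk at hp ⊢
      rw [mem_sdiff, mem_union, not_or] at hp ⊢
      refine ⟨hqA, fun hqY => ?_, hqL⟩
      rcases Vdw.Yk_near hc hD hV hDV hDL hOL hs0 hr hqY (lnear_symm hpq) with h4 | h4
      · exact hp.2.1 h4
      · exact hp.2.2 h4.1
  · exact Or.inr (Or.inr hqA)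

theorem rimm_Wk : rimm s0 (Wk s0 κ A L Y DL OL) ⊆ (layer s0 κ A L DL OL \ DL) ∪ rimm s0 A := by
  intro p hp
  obtain ⟨h1, q, h2, h3⟩ := mem_rimm.1 hp
  rcases near_Wk hc hD hV hDV hDL hOL hs0 hr h1 (mem_ball.1 h2) with h4 | h4 | h4
  · exact absurd h4 h3
  · have h5 := Vdw.Wk_layer hc hD hV hDV hDL hOL hs0 hr h1 (mem_inter.1 h4).1 (mem_ball.1 h2)
    exact mem_union.2 (Or.inl (mem_sdiff.2 ⟨h5.1, h5.2⟩))
  · have h5 : p ∈ A := by
      unfold Wk at h1
      exact (mem_sdiff.1 h1).1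
    exact mem_union.2 (Or.inr (mem_rimm.2 ⟨h5, q, h2, h4⟩))

theorem ob_Wk : ob s0 (Wk s0 κ A L Y DL OL) ⊆
    (Lk s0 κ L DL OL ∩ A) ∪ (rimm s0 A).biUnion (ball s0) := by
  intro q hq
  obtain ⟨⟨p, h1, h2⟩, h3⟩ := mem_ob.1 hq
  rcases near_Wk hc hD hV hDV hDL hOL hs0 hr h1 h2 with h4 | h4 | h4
  · exact absurd h4 h3
  · exact mem_union.2 (Or.inl h4)
  · have h5 : p ∈ A := by
      unfold Wk at h1
      exact (mem_sdiff.1 h1).1
    exact mem_union.2 (Or.inr (mem_biUnion.2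
      ⟨p, mem_rimm.2 ⟨h5, q, mem_ball.2 h2, h4⟩, mem_ball.2 h2⟩))

/-- `A` is the disjoint union of the three regions. -/
theorem part_union : Yk s0 κ L Y DL OL ∪ Wk s0 κ A L Y DL OL ∪ (Lk s0 κ L DL OL ∩ A) = A := by
  have h1 := Vdw.Yk_sub hc hD hV hDV hDL hOL hs0 hr
  ext p
  unfold Wk
  simp only [mem_union, mem_sdiff, mem_inter, not_or]
  constructor
  · rintro ((h | h) | h)
    · exact h1 h
    · exact h.1
    · exact h.2
  · intro h
    by_cases h2 : p ∈ Yk s0 κ L Y DL OL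
    · exact Or.inl (Or.inl h2)
    · by_cases h3 : p ∈ Lk s0 κ L DL OL
      · exact Or.inr ⟨h3, h⟩
      · exact Or.inl (Or.inr ⟨h, h2, h3⟩)

theorem part_YW : Disjoint (Yk s0 κ L Y DL OL) (Wk s0 κ A L Y DL OL) := by
  rw [Finset.disjoint_left]
  intro p h1 h2
  unfold Wk at h2
  rw [mem_sdiff, mem_union, not_or] at h2
  exact h2.2.1 h1

theorem part_YWL : Disjoint (Yk s0 κ L Y DL OL ∪ Wk s0 κ A L Y DL OL)
    (Lk s0 κ L DL OL ∩ A) := by
  rw [Finset.disjoint_left]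
  intro p h1 h2
  rw [mem_inter] at h2
  rcases mem_union.1 h1 with h1 | h1
  · exact Finset.disjoint_left.1 (Vdw.Yk_disj hc hD hV hDV hDL hOL hs0 hr) h1 h2.1
  · unfold Wk at h1
    rw [mem_sdiff, mem_union, not_or] at h1
    exact h1.2.2 h2.1

theorem part_card : A.card = (Yk s0 κ L Y DL OL).card + (Wk s0 κ A L Y DL OL).card +
    (Lk s0 κ L DL OL ∩ A).card := by
  rw [← card_union_of_disjoint (part_YW hc hD hV hDV hDL hOL hs0 hr),
    ← card_union_of_disjoint (part_YWL hc hD hV hDV hDL hOL hs0 hr),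
    part_union hc hD hV hDV hDL hOL hs0 hr]

theorem Wk_sub : Wk s0 κ A L Y DL OL ⊆ A := by
  unfold Wk
  exact sdiff_subset

theorem Lk_card : (Lk s0 κ L DL OL ∩ A).card ≤ L.card :=
  card_le_card (inter_subset_left.trans (Vdw.lay_Lk_sub hc hD hV hDV hDL hOL hs0 hr))

theorem layer_card : (layer s0 κ A L DL OL).card ≤ L.card := by
  apply card_le_card
  unfold layer
  exact inter_subset_left.trans (sdiff_subset.trans
    (Vdw.Lk_sub hc hD hV hDV hDL hOL hs0 hr))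

/-! ### the counts -/

variable {k ρ : ℕ} (hk : 1 ≤ k) (hρ : ρ ≤ s0 * k)

include hk hρ

theorem card_LI_Y : (LI ρ (lift k (Yk s0 κ L Y DL OL))).card ≤
    k ^ d * (layer s0 κ A L DL OL ∩ DL).card :=
  card_LI_lift hk hρ (rimm_Yk hc hD hV hDV hDL hOL hs0 hr)

theorem card_LO_Y : (LO ρ (lift k (Yk s0 κ L Y DL OL))).card ≤
    k ^ d * (Lk s0 κ L DL OL ∩ A).card :=
  card_LO_lift hk hρ (ob_Yk hc hD hV hDV hDL hOL hs0 hr)

theorem card_LIq_Y : (LI ρ (lift k (Yk s0 κ L Y DL OL))).card ≤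
    2 * d * ρ * k ^ (d - 1) * (layer s0 κ A L DL OL ∩ DL).card :=
  card_LIq_lift hk hρ (rimm_Yk hc hD hV hDV hDL hOL hs0 hr)

theorem card_LI_W : (LI ρ (lift k (Wk s0 κ A L Y DL OL))).card ≤
    k ^ d * ((layer s0 κ A L DL OL \ DL).card + (rimm s0 A).card) := by
  refine (card_LI_lift hk hρ (rimm_Wk hc hD hV hDV hDL hOL hs0 hr)).trans ?_
  exact Nat.mul_le_mul_left _ (card_union_le _ _)

theorem card_LIq_W : (LI ρ (lift k (Wk s0 κ A L Y DL OL))).card ≤
    2 * d * ρ * k ^ (d - 1) * ((layer s0 κ A L DL OL \ DL).card + (rimm s0 A).card) := by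
  refine (card_LIq_lift hk hρ (rimm_Wk hc hD hV hDV hDL hOL hs0 hr)).trans ?_
  exact Nat.mul_le_mul_left _ (card_union_le _ _)

theorem card_LO_W : (LO ρ (lift k (Wk s0 κ A L Y DL OL))).card ≤
    k ^ d * ((Lk s0 κ L DL OL ∩ A).card + (2 * s0 + 1) ^ d * (rimm s0 A).card) := by
  refine (card_LO_lift hk hρ (ob_Wk hc hD hV hDV hDL hOL hs0 hr)).trans ?_
  refine Nat.mul_le_mul_left _ ((card_union_le _ _).trans (Nat.add_le_add_left ?_ _))
  refine card_biUnion_le.trans (le_of_eq ?_)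
  rw [Finset.sum_congr rfl fun p _ => card_ball s0 p, Finset.sum_const, smul_eq_mul, mul_comm]

section un

variable {E : Type} [MeasurableSpace E] (M : CG d E) (S : Set E) (ω : Zd d → E)

theorem un_Y : (M.un S (lift k (Yk s0 κ L Y DL OL)) (LI ρ (lift k (Yk s0 κ L Y DL OL))) ω : ℝ) ≤
    (k : ℝ) ^ d * ∑ p ∈ layer s0 κ A L DL OL ∩ DL, tt M S k A ω p := by
  have h1 := un_le_sum M hk hρ S (Vdw.Yk_sub hc hD hV hDV hDL hOL hs0 hr)
    (rimm_Yk hc hD hV hDV hDL hOL hs0 hr) ω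
  have h2 : (M.un S (lift k (Yk s0 κ L Y DL OL)) (LI ρ (lift k (Yk s0 κ L Y DL OL))) ω : ℝ) ≤
      ∑ p ∈ layer s0 κ A L DL OL ∩ DL, (M.un S (lift k A) (blk k p) ω : ℝ) := by
    exact_mod_cast h1
  refine h2.trans (le_of_eq ?_)
  rw [Finset.mul_sum]
  exact Finset.sum_congr rfl fun p _ => by rw [tt_mul M hk, mul_comm]

theorem un_W : (M.un S (lift k (Wk s0 κ A L Y DL OL))
      (LI ρ (lift k (Wk s0 κ A L Y DL OL))) ω : ℝ) ≤
    (k : ℝ) ^ d * (∑ p ∈ layer s0 κ A L DL OL \ DL, tt M S k A ω p + (rimm s0 A).card) := by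
  have h1 := un_le_sum M hk hρ S (Wk_sub hc hD hV hDV hDL hOL hs0 hr)
    (rimm_Wk hc hD hV hDV hDL hOL hs0 hr) ω
  have hkd : (0 : ℝ) ≤ (k : ℝ) ^ d := by positivity
  have h2 : (M.un S (lift k (Wk s0 κ A L Y DL OL))
      (LI ρ (lift k (Wk s0 κ A L Y DL OL))) ω : ℝ) ≤
      ∑ p ∈ (layer s0 κ A L DL OL \ DL) ∪ rimm s0 A,
        (M.un S (lift k A) (blk k p) ω : ℝ) := by
    exact_mod_cast h1
  refine h2.trans ?_
  have h3 : ∑ p ∈ (layer s0 κ A L DL OL \ DL) ∪ rimm s0 A,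
      (M.un S (lift k A) (blk k p) ω : ℝ) ≤
      ∑ p ∈ layer s0 κ A L DL OL \ DL, (M.un S (lift k A) (blk k p) ω : ℝ) +
      ∑ p ∈ rimm s0 A, (M.un S (lift k A) (blk k p) ω : ℝ) := by
    rw [← Finset.sum_union_inter]
    have : (0 : ℝ) ≤ ∑ p ∈ (layer s0 κ A L DL OL \ DL) ∩ rimm s0 A,
        (M.un S (lift k A) (blk k p) ω : ℝ) := Finset.sum_nonneg fun _ _ => Nat.cast_nonneg _
    linarith
  refine h3.trans ?_
  rw [mul_add, Finset.mul_sum]
  apply add_le_add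
  · exact le_of_eq (Finset.sum_congr rfl fun p _ => by rw [tt_mul M hk, mul_comm])
  · have h4 : ∀ p ∈ rimm s0 A, (M.un S (lift k A) (blk k p) ω : ℝ) ≤ (k : ℝ) ^ d := by
      intro p _
      have h5 := un_le_card M S (lift k A) (blk k p) ω
      rw [card_blk] at h5
      exact_mod_cast h5
    refine (Finset.sum_le_sum h4).trans (le_of_eq ?_)
    rw [Finset.sum_const, nsmul_eq_mul, mul_comm]

end un

end Lay

end Pool.Agent.RC.CbG

namespace Pool.Agent.RC

open MeasureTheory Finset Filter Topology Pool.Agent.StableGas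
open Pool.Agent.SquareWell hiding Md cut
open Pool.Agent.Vdw (blk lift ball Lk Yk Wk Kc)
open Pool.Agent.Mix (Qr mem_Qr)

variable {d : ℕ}

/-- The regions of the two phases outside the neighbourhood `κ` of the contours, and this
neighbourhood: `r` and `q` are ranges in cells, `k` is the side of the blocks. -/
structure Regs (k st κ r q : ℕ) (Q L Y DL OL : Finset (Zd d)) : Prop where
  part : (lift k (Yk st κ L Y DL OL) ∪ lift k (Lk st κ L DL OL ∩ Q)) ∪
    lift k (Wk st κ Q L Y DL OL) = lift k Q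
  disj_YO : Disjoint (lift k (Yk st κ L Y DL OL)) (lift k (Lk st κ L DL OL ∩ Q))
  disj_W : Disjoint (lift k (Yk st κ L Y DL OL) ∪ lift k (Lk st κ L DL OL ∩ Q))
    (lift k (Wk st κ Q L Y DL OL))
  Y_sub : Yk st κ L Y DL OL ⊆ Q
  W_sub : Wk st κ Q L Y DL OL ⊆ Q
  O_sub : Lk st κ L DL OL ∩ Q ⊆ L
  LI_Y : LI (2 * r) (lift k (Yk st κ L Y DL OL)) ⊆ lift k (layer st κ Q L DL OL ∩ DL)
  LI_W : LI (2 * r) (lift k (Wk st κ Q L Y DL OL)) ⊆
    lift k ((layer st κ Q L DL OL \ DL) ∪ rimm st Q)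
  LO_Y : LO (2 * r) (lift k (Yk st κ L Y DL OL)) ⊆ lift k (Lk st κ L DL OL ∩ Q)
  LO_W : (LO (2 * r) (lift k (Wk st κ Q L Y DL OL)) \ lift k (Lk st κ L DL OL ∩ Q)).card ≤
    (2 * st + 1) ^ d * k ^ d * (rimm st Q).card
  layer_sub : layer st κ Q L DL OL ⊆ L
  LIq_Y : (LI q (lift k (Yk st κ L Y DL OL))).card ≤ 2 * d * q * k ^ (d - 1) * L.card
  LIq_W : (LI q (lift k (Wk st κ Q L Y DL OL))).card ≤
    2 * d * q * k ^ (d - 1) * (L.card + (rimm st Q).card)

theorem regs {k st κ r q Mr s : ℕ} {Q L Y DL OL : Finset (Zd d)} {D V : Zd d → Prop}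
    (hk : 1 ≤ k) (hst : 1 ≤ st) (hM : (κ + 2) * st ≤ Mr) (hr : 2 * r ≤ st * k) (hq : q ≤ r)
    (hcut : Cut Mr Q D V s L Y) (hD : ∀ i, D i → i ∈ Q) (hV : ∀ i, i ∉ Q → V i)
    (hDV : ∀ i, D i → ¬ V i) (hDL : ∀ i, i ∈ DL ↔ i ∈ L ∧ D i)
    (hOL : ∀ i, i ∈ OL ↔ i ∈ L ∧ ¬ D i ∧ ¬ V i) : Regs k st κ r q Q L Y DL OL := by
  have hq' : q ≤ st * k := by omega
  have hYO : Disjoint (Yk st κ L Y DL OL) (Lk st κ L DL OL ∩ Q) :=
    (Vdw.Yk_disj hcut hD hV hDV hDL hOL hst hM).mono_right inter_subset_left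
  have hYW := CbG.part_YW hcut hD hV hDV hDL hOL hst hM
  have hYWL := CbG.part_YWL hcut hD hV hDV hDL hOL hst hM
  have hWO : Disjoint (Lk st κ L DL OL ∩ Q) (Wk st κ Q L Y DL OL) :=
    (hYWL.mono_left subset_union_right).symm
  have hlay : layer st κ Q L DL OL ⊆ L := by
    unfold layer
    exact inter_subset_left.trans (sdiff_subset.trans
      (Vdw.Lk_sub hcut hD hV hDV hDL hOL hst hM))
  refine ⟨?_, Vdw.disjoint_lift hYO, ?_, Vdw.Yk_sub hcut hD hV hDV hDL hOL hst hM,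
    CbG.Wk_sub hcut hD hV hDV hDL hOL hst hM,
    inter_subset_left.trans (Vdw.lay_Lk_sub hcut hD hV hDV hDL hOL hst hM), ?_, ?_, ?_, ?_,
    hlay, ?_, ?_⟩
  · have h0 := CbG.part_union hcut hD hV hDV hDL hOL hst hM
    rw [← Vdw.lift_union, ← Vdw.lift_union, Finset.union_right_comm, h0]
  · rw [← Vdw.lift_union]
    exact Vdw.disjoint_lift (disjoint_union_left.2 ⟨hYW, hWO⟩)
  · exact (CbG.LI_lift hk hr _).trans
      (Vdw.lift_subset (CbG.rimm_Yk hcut hD hV hDV hDL hOL hst hM))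
  · exact (CbG.LI_lift hk hr _).trans
      (Vdw.lift_subset (CbG.rimm_Wk hcut hD hV hDV hDL hOL hst hM))
  · exact (CbG.LO_lift hk hr _).trans
      (Vdw.lift_subset (CbG.ob_Yk hcut hD hV hDV hDL hOL hst hM))
  · have h1 : LO (2 * r) (lift k (Wk st κ Q L Y DL OL)) \ lift k (Lk st κ L DL OL ∩ Q) ⊆
        lift k ((rimm st Q).biUnion (ball st)) := by
      intro i hi
      rw [Finset.mem_sdiff] at hi
      have h2 := Vdw.lift_subset (CbG.ob_Wk hcut hD hV hDV hDL hOL hst hM)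
        (CbG.LO_lift hk hr _ hi.1)
      rw [Vdw.lift_union, mem_union] at h2
      exact h2.resolve_left hi.2
    refine (card_le_card h1).trans ?_
    rw [Vdw.card_lift]
    have h2 : ((rimm st Q).biUnion (ball st)).card ≤ (2 * st + 1) ^ d * (rimm st Q).card := by
      refine card_biUnion_le.trans (le_of_eq ?_)
      rw [Finset.sum_congr rfl fun p _ => Vdw.card_ball st p, Finset.sum_const, smul_eq_mul,
        mul_comm]
    calc k ^ d * ((rimm st Q).biUnion (ball st)).card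
        ≤ k ^ d * ((2 * st + 1) ^ d * (rimm st Q).card) := Nat.mul_le_mul_left _ h2
      _ = (2 * st + 1) ^ d * k ^ d * (rimm st Q).card := by ring
  · refine (CbG.card_LIq_Y hcut hD hV hDV hDL hOL hst hM hk hq').trans ?_
    exact Nat.mul_le_mul_left _ (card_le_card (inter_subset_left.trans hlay))
  · refine (CbG.card_LIq_W hcut hD hV hDV hDL hOL hst hM hk hq').trans ?_
    refine Nat.mul_le_mul_left _ (Nat.add_le_add_right (card_le_card ?_) _)
    exact sdiff_subset.trans hlay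

end Pool.Agent.RC
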