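import Pool.Agent.Lib.MP_09cbbd_rc.PCell
import Pool.Agent.Lib.MP_09cbbd_vw.Ent
import Pool.Agent.Lib.MP_09cbbd_kc.Asm

/-!
# Rows and columns, Peierls argument: summation over the classes
-/

set_option autoImplicit false

namespace Pool.Agent.RC

open MeasureTheory Finset Filter Topology Pool.Agent.StableGas
open Pool.Agent.SquareWell hiding Md cut
open Pool.Agent.Vdw (blk lift ball Lk Yk Wk Kc)
open Pool.Agent.Mix (Qr mem_Qr)

variable {d : ℕ}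

/-- The conclusion of `det` for `K1 = 2`. -/
def Sel (d : ℕ) (c2 C1 : ℝ) (st m Mr : ℕ) (c4 C4 : ℝ) : Prop :=
  ∀ (A : Finset (Zd d)) (D V : Zd d → Prop) (e : Finset (Zd d) → Zd d → ℝ)
    (tA tB : Zd d → ℝ), Ben c2 C1 A D V e tA tB →
    ∀ (s : ℕ) (L Y DL OL : Finset (Zd d)), Cut Mr A D V s L Y →
    (∀ i, i ∈ DL ↔ i ∈ L ∧ D i) → (∀ i, i ∈ OL ↔ i ∈ L ∧ ¬ D i ∧ ¬ V i) →
    ∃ κ, 1 ≤ κ ∧ κ ≤ m ∧ c4 * L.card - C4 * (rim A).card ≤ QB 2 st κ A e tA tB L DL OL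

section

variable {E : Type} [MeasurableSpace E]

namespace ClsP

theorem un_le (M : CG d E) (S : Set E) (X T : Finset (Zd d)) (ω : Zd d → E) :
    M.un S X T ω ≤ T.card := by
  classical
  unfold CG.un
  exact card_filter_le _ _

theorem measurable_cnt {S : Set E} (hS : MeasurableSet S) (X : Finset (Zd d)) :
    Measurable fun ω : Zd d → E => cnt S X ω := by
  classical
  have e : (fun ω : Zd d → E => cnt S X ω) = fun ω => ∑ i ∈ X, if ω i ∈ S then 1 else 0 := by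
    funext ω
    unfold cnt
    rw [card_filter]
  rw [e]
  exact Finset.measurable_fun_sum _ fun i _ => Measurable.ite ((measurable_pi_apply i) hS)
    measurable_const measurable_const

theorem measurableSet_Un (M : CG d E) {S : Set E} (hS : MeasurableSet S) (X : Finset (Zd d))
    (i : Zd d) : MeasurableSet {ω : Zd d → E | M.Un S X ω i} := by
  have e : {ω : Zd d → E | M.Un S X ω i} = {ω : Zd d → E | ω i ∈ ({M.e0} : Set E)ᶜ} ∩
      ({ω : Zd d → E | ω i ∈ Sᶜ} ∪ ⋃ l ∈ X.filter fun l => l ≠ i,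
        {ω : Zd d → E | (ω i, ω l) ∈ {p : E × E | M.nf 2 (l - i) p.1 p.2}ᶜ}) := by
    ext ω
    simp only [CG.Un, Set.mem_ofPred_eq, Set.mem_inter_iff, Set.mem_compl_iff,
      Set.mem_singleton_iff, Set.mem_union, Set.mem_iUnion, mem_filter, exists_prop, ne_eq]
    constructor
    · rintro ⟨h1, h2 | ⟨l, hl, hl2, h3⟩⟩
      · exact ⟨h1, Or.inl h2⟩
      · exact ⟨h1, Or.inr ⟨l, ⟨hl, hl2⟩, h3⟩⟩
    · rintro ⟨h1, h2 | ⟨l, ⟨hl, hl2⟩, h3⟩⟩
      · exact ⟨h1, Or.inl h2⟩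
      · exact ⟨h1, Or.inr ⟨l, hl, hl2, h3⟩⟩
  rw [e]
  refine ((measurable_pi_apply i) M.e0_meas.compl).inter
    (((measurable_pi_apply i) hS.compl).union ?_)
  refine Finset.measurableSet_biUnion _ fun l _ => ?_
  have h : Measurable fun a : Zd d → E => (a i, a l) :=
    (measurable_pi_apply i).prodMk (measurable_pi_apply l)
  exact h (M.nf_meas 2 (l - i)).compl

theorem measurable_un (M : CG d E) {S : Set E} (hS : MeasurableSet S) (X T : Finset (Zd d)) :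
    Measurable fun ω : Zd d → E => M.un S X T ω := by
  classical
  have e : (fun ω : Zd d → E => M.un S X T ω) = fun ω => ∑ i ∈ T, if M.Un S X ω i then 1 else 0 := by
    funext ω
    unfold CG.un
    rw [card_filter]
  rw [e]
  exact Finset.measurable_fun_sum _ fun i _ => Measurable.ite (measurableSet_Un M hS X i)
    measurable_const measurable_const

theorem measurable_tt (M : CG d E) {S : Set E} (hS : MeasurableSet S) (k : ℕ)
    (Q : Finset (Zd d)) (p : Zd d) : Measurable fun ω : Zd d → E => tt M S k Q ω p := by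
  unfold tt
  exact (measurable_from_nat.comp (measurable_un M hS (lift k Q) (blk k p))).div_const _

/-- The numbers of the cells with contents in `SA` and in `SB`, for the blocks of `Q`. -/
noncomputable def nn (SA SB : Set E) (k : ℕ) (Q : Finset (Zd d)) (ω : Zd d → E) : Q → ℕ × ℕ :=
  fun q => (cnt SA (blk k q) ω, cnt SB (blk k q) ω)

theorem measurable_nn {SA SB : Set E} (hA : MeasurableSet SA) (hB : MeasurableSet SB) (k : ℕ)
    (Q : Finset (Zd d)) : Measurable (nn SA SB k Q) :=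
  measurable_pi_lambda _ fun q => (measurable_cnt hA _).prodMk (measurable_cnt hB _)

/-- `DA` as a function of the numbers. -/
def DA' (φ : ℝ) (k : ℕ) (Q : Finset (Zd d)) (g : Q → ℕ × ℕ) (p : Zd d) : Prop :=
  ∃ h : p ∈ Q, 3 / 4 * φ * (k : ℝ) ^ d ≤ (g ⟨p, h⟩).1

/-- `DB` as a function of the numbers. -/
def DB' (φ : ℝ) (k : ℕ) (Q : Finset (Zd d)) (g : Q → ℕ × ℕ) (p : Zd d) : Prop :=
  p ∉ Q ∨ (¬ DA' φ k Q g p ∧ ∃ h : p ∈ Q, 3 / 4 * φ * (k : ℝ) ^ d ≤ (g ⟨p, h⟩).2)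

theorem DA_eq (SA SB : Set E) (φ : ℝ) (k : ℕ) (Q : Finset (Zd d)) (ω : Zd d → E) :
    DA SA φ k Q ω = DA' φ k Q (nn SA SB k Q ω) := by
  funext p
  apply propext
  unfold DA DA' nn
  constructor
  · rintro ⟨h1, h2⟩
    exact ⟨h1, h2⟩
  · rintro ⟨h1, h2⟩
    exact ⟨h1, h2⟩

theorem DB_eq (SA SB : Set E) (φ : ℝ) (k : ℕ) (Q : Finset (Zd d)) (ω : Zd d → E) :
    DB SA SB φ k Q ω = DB' φ k Q (nn SA SB k Q ω) := by
  funext p
  apply propext
  unfold DB DB'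
  rw [DA_eq SA SB φ k Q ω]
  constructor
  · rintro (h | ⟨h1, h2⟩)
    · exact Or.inl h
    · by_cases hp : p ∈ Q
      · exact Or.inr ⟨h1, hp, h2⟩
      · exact Or.inl hp
  · rintro (h | ⟨h1, h2, h3⟩)
    · exact Or.inl h
    · exact Or.inr ⟨h1, h3⟩

theorem measurableSet_nn {SA SB : Set E} (hA : MeasurableSet SA) (hB : MeasurableSet SB) (k : ℕ)
    (Q : Finset (Zd d)) (U : (Q → ℕ × ℕ) → Prop) :
    MeasurableSet {ω : Zd d → E | U (nn SA SB k Q ω)} :=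
  (measurable_nn hA hB k Q) (Set.to_countable {g | U g}).measurableSet

end ClsP

/-- ROW CLS, a. -/
theorem Blk.ben {M : CG d E} {SA SB : Set E} {h : E → ℝ} {p : ℝ → ℝ} {φ c2 C1 ε μ : ℝ} {k : ℕ}
    {eb : Finset (Zd d) → (Zd d → E) → Zd d → ℝ} (B : Blk M SA SB h p φ c2 C1 ε μ k eb)
    {Q : Finset (Zd d)} {ω : Zd d → E} (hω : M.cp id (lift k Q) ω) :
    Ben c2 C1 Q (DA SA φ k Q ω) (DB SA SB φ k Q ω) (fun L q => eb L ω q)
      (tt M SA k Q ω) (tt M SB k Q ω) := by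
  have hk : (0 : ℝ) < (k : ℝ) ^ d := by
    have : (0 : ℝ) < k := by exact_mod_cast B.k_pos
    positivity
  have h1 : ∀ S p, tt M S k Q ω p ≤ 1 := by
    intro S p
    unfold tt
    rw [div_le_one hk]
    have h2 := ClsP.un_le M S (lift k Q) (blk k p) ω
    rw [Pool.Agent.Vdw.card_blk] at h2
    exact_mod_cast h2
  have h0 : ∀ S p, 0 ≤ tt M S k Q ω p := by
    intro S p
    unfold tt
    positivity
  exact
    { D_sub := fun i hi => hi.1
      V_out := fun i hi => Or.inl hi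
      D_not_V := by
        rintro i hi (h | h)
        · exact h hi.1
        · exact h.1 hi
      nonneg := fun L q => B.eb_nonneg L ω q
      tA_nonneg := h0 SA
      tA_le := h1 SA
      tB_nonneg := h0 SB
      tB_le := h1 SB
      none := fun L hL q hq hb h2 h3 => B.none Q ω hω L hL q hq hb h2 h3
      jump := fun L hL q hq hb h2 h3 => B.jump Q ω hω L hL q hq hb h2 h3
      cleanA := fun L hL q hq hb h2 => B.cleanA Q ω hω L hL q hq hb h2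
      cleanB := fun L hL q hq hb h2 => B.cleanB Q ω hω L hL q hq hb h2 }

/-- ROW CLS, b. -/
theorem measurableSet_Cls {M : CG d E} {SA SB : Set E} {h : E → ℝ} {p : ℝ → ℝ}
    {φ c2 C1 ε μ : ℝ} {k : ℕ} {eb : Finset (Zd d) → (Zd d → E) → Zd d → ℝ}
    (B : Blk M SA SB h p φ c2 C1 ε μ k eb) (τ c0 c4 C4 : ℝ) (Mr st : ℕ) (Q : Finset (Zd d))
    (s κ : ℕ) (L Y DL OL : Finset (Zd d)) :
    MeasurableSet (Cls M SA SB φ eb τ c0 c4 C4 k Mr st Q s κ L Y DL OL) := by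
  classical
  set U : (Q → ℕ × ℕ) → Prop := fun g =>
    Cut Mr Q (ClsP.DA' φ k Q g) (ClsP.DB' φ k Q g) s L Y ∧
    (∀ i, i ∈ DL ↔ i ∈ L ∧ ClsP.DA' φ k Q g i) ∧
    (∀ i, i ∈ OL ↔ i ∈ L ∧ ¬ ClsP.DA' φ k Q g i ∧ ¬ ClsP.DB' φ k Q g i) ∧
    ((∑ G ∈ ((bad Mr Q (ClsP.DA' φ k Q g) (ClsP.DB' φ k Q g)).image
      (comp (bad Mr Q (ClsP.DA' φ k Q g) (ClsP.DB' φ k Q g)))).filter
        (fun G => (fill G).card < s), (fill G).card : ℕ) : ℝ) ≤ c0 * Q.card with hU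
  have e : Cls M SA SB φ eb τ c0 c4 C4 k Mr st Q s κ L Y DL OL =
      {ω | M.cp id (lift k Q) ω} ∩ ({ω | U (ClsP.nn SA SB k Q ω)} ∩
      ({ω | ∑ q ∈ Q, eb Q ω q ≤ τ * Q.card} ∩ {ω | c4 * L.card - C4 * (rim Q).card ≤
        QB 2 st κ Q (fun L q => eb L ω q) (tt M SA k Q ω) (tt M SB k Q ω) L DL OL})) := by
    ext ω
    simp only [Cls, Set.mem_inter_iff, Set.mem_ofPred_eq, hU, ← ClsP.DA_eq SA SB φ k Q ω,
      ← ClsP.DB_eq SA SB φ k Q ω]
    tauto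
  rw [e]
  refine (M.measurableSet_cp id (lift k Q)).inter
    ((ClsP.measurableSet_nn B.SA_meas B.SB_meas k Q U).inter (?_ : MeasurableSet _))
  refine (measurableSet_le (Finset.measurable_fun_sum _ fun q _ => B.eb_meas Q q)
    measurable_const).inter (measurableSet_le measurable_const ?_)
  unfold QB
  refine Measurable.sub (Measurable.const_mul (Finset.measurable_fun_sum _ fun q _ =>
    B.eb_meas _ q) _) (Measurable.const_mul (Finset.measurable_fun_sum _ fun q _ => ?_) _)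
  split_ifs
  · exact ClsP.measurable_tt M B.SA_meas k Q q
  · exact ClsP.measurable_tt M B.SB_meas k Q q

namespace ClsP

section

variable (M : CG d E) (SA SB : Set E) (φ : ℝ) (eb : Finset (Zd d) → (Zd d → E) → Zd d → ℝ)
  (τ c0 c4 C4 : ℝ) (k Mr st : ℕ)

/-- Every compatible configuration of low energy lies in a class. -/
theorem exists_class (hd : 2 ≤ d) {h : E → ℝ} {p : ℝ → ℝ} {c2 C1 ε μ : ℝ}
    (B : Blk M SA SB h p φ c2 C1 ε μ k eb) {m : ℕ} (hMr : 1 ≤ Mr)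
    (hdet : Sel d c2 C1 st m Mr c4 C4)
    (hc0 : 0 < c0) {Q : Finset (Zd d)} (hQ : NConn Q) {s0 : ℕ} (hs0 : 1 ≤ s0)
    {ω : Zd d → E} (hcp : M.cp id (lift k Q) ω) (hω : ∑ q ∈ Q, eb Q ω q ≤ τ * Q.card) :
    ∃ s κ L Y DL OL, 1 ≤ κ ∧ κ ≤ m ∧ 1 ≤ s ∧
      (s = s0 ∨ (s < s0 ∧ c0 * Q.card ≤ 2 * s ^ 3 * num L s)) ∧
      L ∈ Fam (fatr Mr Q) s ∧ DL ⊆ L ∧ OL ⊆ L ∧
      ω ∈ Cls M SA SB φ eb τ c0 c4 C4 k Mr st Q s κ L Y DL OL := by
  classical
  set Bd : Finset (Zd d) := bad Mr Q (DA SA φ k Q ω) (DB SA SB φ k Q ω) with hBd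
  have hex : ∃ s, 1 ≤ s ∧ (s = s0 ∨ (s < s0 ∧ c0 * Q.card ≤ 2 * (s : ℝ) ^ 3 * num Bd s)) :=
    ⟨s0, hs0, Or.inl rfl⟩
  set s := Nat.find hex with hs
  obtain ⟨h1, h2⟩ := Nat.find_spec hex
  rw [← hs] at h1 h2
  have hsm : s ≤ s0 := by rcases h2 with h2 | h2 <;> omega
  have hmin : ∀ s', 1 ≤ s' → s' < s → (2 : ℝ) * s' ^ 3 * num Bd s' < c0 * Q.card := by
    intro s' h3 h4
    have h5 := Nat.find_min hex h4
    by_contra hcon
    exact h5 ⟨h3, Or.inr ⟨by omega, not_lt.1 hcon⟩⟩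
  have hfill := Pool.Agent.Vdw.fill_small2 hc0.le Bd s Q.card hmin
  have hben := B.ben hcp
  obtain ⟨L, Y, hcut⟩ := exists_cut (D := DA SA φ k Q ω)
    (V := DB SA SB φ k Q ω) hd hMr hQ hben.D_sub hben.V_out hben.D_not_V s
  have hL : ∀ x, x ∈ L ↔ x ∈ Bd ∧ s ≤ (fill (comp Bd x)).card := hcut.mem_L
  set DL : Finset (Zd d) := L.filter fun i => DA SA φ k Q ω i with hDL
  set OL : Finset (Zd d) := L.filter fun i => ¬ DA SA φ k Q ω i ∧ ¬ DB SA SB φ k Q ω i with hOL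
  have hDL' : ∀ i, i ∈ DL ↔ i ∈ L ∧ DA SA φ k Q ω i := fun i => by rw [hDL, mem_filter]
  have hOL' : ∀ i, i ∈ OL ↔ i ∈ L ∧ ¬ DA SA φ k Q ω i ∧ ¬ DB SA SB φ k Q ω i :=
    fun i => by rw [hOL, mem_filter]
  obtain ⟨κ, hκ1, hκ2, hκ3⟩ := hdet Q _ _ _ _ _ hben s L Y DL OL hcut hDL' hOL'
  refine ⟨s, κ, L, Y, DL, OL, hκ1, hκ2, h1, ?_, ?_, filter_subset _ _, filter_subset _ _,
    hcp, hcut, hDL', hOL', hfill, hω, hκ3⟩
  · rcases h2 with h2 | h2
    · exact Or.inl h2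
    · right
      refine ⟨h2.1, h2.2.trans ?_⟩
      have : (num Bd s : ℝ) ≤ num L s := by exact_mod_cast Pool.Agent.Kac.Asm.num_le hL
      exact mul_le_mul_of_nonneg_left this (by positivity)
  · rw [Pool.Agent.Kac.Asm.mem_Fam]
    constructor
    · intro x hx
      have h3 := ((hL x).1 hx).1
      rw [hBd] at h3
      unfold bad at h3
      exact (mem_filter.1 h3).1
    · intro x hx
      rw [Pool.Agent.Kac.Asm.comp_L hL hx]
      exact ((hL x).1 hx).2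

variable {M SA SB φ eb τ c0 c4 C4 k Mr st}

theorem class_sub (hMr : 1 ≤ Mr) {Q : Finset (Zd d)} {s κ : ℕ}
    {L Y1 Y2 DL OL1 OL2 : Finset (Zd d)} {ω1 ω2 : Zd d → E}
    (h1 : ω1 ∈ Cls M SA SB φ eb τ c0 c4 C4 k Mr st Q s κ L Y1 DL OL1)
    (h2 : ω2 ∈ Cls M SA SB φ eb τ c0 c4 C4 k Mr st Q s κ L Y2 DL OL2) :
    Y2 ⊆ Y1 := by
  obtain ⟨-, c1, d1, _⟩ := h1
  obtain ⟨-, c2, d2, _⟩ := h2
  have hnear : ∀ i j : Zd d, j ∈ Nb i → near Mr i j := by
    intro i j hj k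
    rw [mem_Nb] at hj
    have h3 := hj k
    rw [abs_le]
    constructor <;> omega
  refine c1.uniq Y2 ⟨fun x hx hxL => (Finset.disjoint_left.1 c2.Y_disj) hx hxL, ?_⟩ ?_
  · intro x hx y hyL hxy
    by_contra hy
    exact hyL (c2.nearY x hx y hy (hnear x y hxy.mem_Nb)).2.2
  · intro i hi j hj hij
    have hjY : j ∉ Y2 := fun h => (Finset.disjoint_left.1 c2.Y_disj) h hj
    have h3 := (c2.nearY i hi j hjY (hnear i j hij)).2.1
    exact ((d1 j).1 ((d2 j).2 ⟨hj, h3⟩)).2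

theorem class_uniq (hMr : 1 ≤ Mr) {Q : Finset (Zd d)} {s κ : ℕ}
    {L Y1 Y2 DL OL1 OL2 : Finset (Zd d)} {ω1 ω2 : Zd d → E}
    (h1 : ω1 ∈ Cls M SA SB φ eb τ c0 c4 C4 k Mr st Q s κ L Y1 DL OL1)
    (h2 : ω2 ∈ Cls M SA SB φ eb τ c0 c4 C4 k Mr st Q s κ L Y2 DL OL2) :
    Y1 = Y2 :=
  Subset.antisymm (class_sub hMr h2 h1) (class_sub hMr h1 h2)

variable (M SA SB φ eb τ c0 c4 C4 k Mr st)

/-- The region in the phase `A` of a nonempty class. -/
noncomputable def yy (Q : Finset (Zd d)) (s κ : ℕ) (L DL OL : Finset (Zd d)) :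
    Finset (Zd d) := by
  classical exact
    if h : ∃ Y, (Cls M SA SB φ eb τ c0 c4 C4 k Mr st Q s κ L Y DL OL).Nonempty then
      h.choose else ∅

theorem mem_yy (hMr : 1 ≤ Mr) {Q : Finset (Zd d)} {s κ : ℕ} {L Y DL OL : Finset (Zd d)}
    {ω : Zd d → E} (h : ω ∈ Cls M SA SB φ eb τ c0 c4 C4 k Mr st Q s κ L Y DL OL) :
    ω ∈ Cls M SA SB φ eb τ c0 c4 C4 k Mr st Q s κ L
      (yy M SA SB φ eb τ c0 c4 C4 k Mr st Q s κ L DL OL) DL OL := by
  classical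
  have hex : ∃ Y, (Cls M SA SB φ eb τ c0 c4 C4 k Mr st Q s κ L Y DL OL).Nonempty := ⟨Y, ω, h⟩
  have e : yy M SA SB φ eb τ c0 c4 C4 k Mr st Q s κ L DL OL = hex.choose := by
    unfold yy
    rw [dif_pos hex]
  obtain ⟨ω', hω'⟩ := hex.choose_spec
  rw [← e] at hω'
  rw [← class_uniq hMr h hω']
  exact h

/-- Sum over all classes with given `s` and `L`. -/
noncomputable def gg (f : E → ℝ) (Q : Finset (Zd d)) (κ s : ℕ) (L : Finset (Zd d))
    (ω : Zd d → E) : ENNReal :=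
  ∑ q ∈ L.powerset ×ˢ L.powerset,
    (Cls M SA SB φ eb τ c0 c4 C4 k Mr st Q s κ L
      (yy M SA SB φ eb τ c0 c4 C4 k Mr st Q s κ L q.1 q.2) q.1 q.2).indicator
      (M.w f (lift k Q)) ω

variable {M SA SB φ eb k}

theorem measurable_gg {h : E → ℝ} {p : ℝ → ℝ} {c2 C1 ε μ : ℝ}
    (B : Blk M SA SB h p φ c2 C1 ε μ k eb) {f : E → ℝ} (hf : M.Fld f) (Q : Finset (Zd d))
    (κ s : ℕ) (L : Finset (Zd d)) :
    Measurable (gg M SA SB φ eb τ c0 c4 C4 k Mr st f Q κ s L) := by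
  unfold gg
  exact Finset.measurable_fun_sum _ fun q _ =>
    (M.measurable_w hf.meas (lift k Q)).indicator
      (measurableSet_Cls B τ c0 c4 C4 Mr st Q s κ L _ _ _)

theorem int_gg {h : E → ℝ} {p : ℝ → ℝ} {c2 C1 ε μ : ℝ}
    (B : Blk M SA SB h p φ c2 C1 ε μ k eb) {f : E → ℝ} (hf : M.Fld f) (Q : Finset (Zd d))
    (κ s : ℕ) (L : Finset (Zd d)) {t : ENNReal}
    (hT : ∀ Y DL OL, M.int (lift k Q)
      ((Cls M SA SB φ eb τ c0 c4 C4 k Mr st Q s κ L Y DL OL).indicator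
      (M.w f (lift k Q))) ≤ t) :
    M.int (lift k Q) (gg M SA SB φ eb τ c0 c4 C4 k Mr st f Q κ s L) ≤ 4 ^ L.card * t := by
  unfold gg
  rw [M.int_sum (L.powerset ×ˢ L.powerset) fun q _ =>
    (M.measurable_w hf.meas (lift k Q)).indicator
      (measurableSet_Cls B τ c0 c4 C4 Mr st Q s κ L _ _ _)]
  refine (Finset.sum_le_card_nsmul _ _ t fun q _ => hT _ _ _).trans ?_
  rw [card_product, card_powerset, nsmul_eq_mul]
  refine le_of_eq ?_
  congr 1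
  push_cast
  rw [← mul_pow]
  norm_num

theorem le_gg (hMr : 1 ≤ Mr) {f : E → ℝ} {Q : Finset (Zd d)} {s κ : ℕ}
    {L Y DL OL : Finset (Zd d)} {ω : Zd d → E}
    (h : ω ∈ Cls M SA SB φ eb τ c0 c4 C4 k Mr st Q s κ L Y DL OL) (h1 : DL ⊆ L)
    (h2 : OL ⊆ L) : M.w f (lift k Q) ω ≤ gg M SA SB φ eb τ c0 c4 C4 k Mr st f Q κ s L ω := by
  unfold gg
  have h3 : (DL, OL) ∈ L.powerset ×ˢ L.powerset :=
    mem_product.2 ⟨mem_powerset.2 h1, mem_powerset.2 h2⟩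
  refine le_trans ?_ (Finset.single_le_sum (f := fun q : Finset (Zd d) × Finset (Zd d) =>
    (Cls M SA SB φ eb τ c0 c4 C4 k Mr st Q s κ L
      (yy M SA SB φ eb τ c0 c4 C4 k Mr st Q s κ L q.1 q.2) q.1 q.2).indicator
      (M.w f (lift k Q)) ω) (fun _ _ => zero_le) h3)
  rw [Set.indicator_of_mem (mem_yy M SA SB φ eb τ c0 c4 C4 k Mr st hMr h)]

end

end ClsP

/-- ROW CLS, c: sum over the classes. -/
theorem sum_cls (hd : 2 ≤ d) {M : CG d E} {SA SB : Set E} {h : E → ℝ} {p : ℝ → ℝ}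
    {φ c2 C1 ε μ : ℝ} {k : ℕ} {eb : Finset (Zd d) → (Zd d → E) → Zd d → ℝ}
    (B : Blk M SA SB h p φ c2 C1 ε μ k eb) {st m Mr : ℕ} {c4 C4 : ℝ} (hMr : 1 ≤ Mr)
    (hdet : Sel d c2 C1 st m Mr c4 C4) {τ c0 : ℝ} (hc0 : 0 < c0) {f : E → ℝ}
    (hf : M.Fld f) (Q : Finset (Zd d)) (hQ : NConn Q) (s0 : ℕ) (hs0 : 1 ≤ s0)
    (T : ℕ → Finset (Zd d) → ENNReal)
    (hT : ∀ s κ L Y DL OL, 1 ≤ κ → κ ≤ m → M.int (lift k Q)
      ((Cls M SA SB φ eb τ c0 c4 C4 k Mr st Q s κ L Y DL OL).indicator (M.w f (lift k Q))) ≤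
      T s L) :
    M.xi f (lift k Q) ≤ M.int (lift k Q)
        ({ω | M.cp id (lift k Q) ω ∧ τ * Q.card < ∑ q ∈ Q, eb Q ω q}.indicator
          (M.w f (lift k Q))) +
      m * (∑ s ∈ Finset.Ico 1 s0, ∑ L ∈ (Fam (fatr Mr Q) s).filter
        (fun L => c0 * Q.card ≤ 2 * s ^ 3 * num L s), 4 ^ L.card * T s L +
      ∑ L ∈ Fam (fatr Mr Q) s0, 4 ^ L.card * T s0 L) := by
  classical
  set F : ℕ → Finset (Finset (Zd d)) := fun s => (Fam (fatr Mr Q) s).filter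
    (fun L => c0 * Q.card ≤ 2 * s ^ 3 * num L s) with hF
  set H : Set (Zd d → E) := {ω | M.cp id (lift k Q) ω ∧
    τ * Q.card < ∑ q ∈ Q, eb Q ω q} with hH
  have hHm : MeasurableSet H := (M.measurableSet_cp id (lift k Q)).inter
    (measurableSet_lt measurable_const (Finset.measurable_fun_sum _ fun q _ => B.eb_meas Q q))
  set g : ℕ → ℕ → Finset (Zd d) → (Zd d → E) → ENNReal :=
    fun κ s L => ClsP.gg M SA SB φ eb τ c0 c4 C4 k Mr st f Q κ s L with hg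
  have hgm : ∀ κ s L, Measurable (g κ s L) := fun κ s L =>
    ClsP.measurable_gg τ c0 c4 C4 Mr st B hf Q κ s L
  have hpt : ∀ ω, M.w f (lift k Q) ω ≤ (H.indicator (M.w f (lift k Q)) ω) +
      ∑ κ ∈ Finset.Icc 1 m, (∑ s ∈ Finset.Ico 1 s0, ∑ L ∈ F s, g κ s L ω +
      ∑ L ∈ Fam (fatr Mr Q) s0, g κ s0 L ω) := by
    intro ω
    by_cases hcp : M.cp id (lift k Q) ω
    swap
    · rw [M.w_of_not hcp]
      exact zero_le
    by_cases hω : ω ∈ H
    · rw [Set.indicator_of_mem hω]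
      exact le_self_add
    · have hω' : ∑ q ∈ Q, eb Q ω q ≤ τ * Q.card := by
        by_contra hcon
        exact hω ⟨hcp, not_le.1 hcon⟩
      obtain ⟨s, κ, L, Y, DL, OL, hκ1, hκ2, h1, h2, h3, h4, h5, h6⟩ :=
        ClsP.exists_class M SA SB φ eb τ c0 c4 C4 k Mr st hd B hMr hdet hc0 hQ hs0 hcp hω'
      have hle := ClsP.le_gg τ c0 c4 C4 Mr st hMr (f := f) h6 h4 h5
      refine le_trans ?_ le_add_self
      refine le_trans ?_ (Finset.single_le_sum (f := fun κ =>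
        (∑ s ∈ Finset.Ico 1 s0, ∑ L ∈ F s, g κ s L ω +
        ∑ L ∈ Fam (fatr Mr Q) s0, g κ s0 L ω)) (fun _ _ => zero_le)
        (Finset.mem_Icc.2 ⟨hκ1, hκ2⟩))
      rcases h2 with rfl | ⟨h2, h7⟩
      · refine le_trans ?_ le_add_self
        exact hle.trans (Finset.single_le_sum (f := fun L => g κ s L ω)
          (fun _ _ => zero_le) h3)
      · refine le_trans ?_ le_self_add
        refine hle.trans ?_
        have h8 : L ∈ F s := mem_filter.2 ⟨h3, h7⟩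
        refine (Finset.single_le_sum (f := fun L => g κ s L ω)
          (fun _ _ => zero_le) h8).trans ?_
        exact Finset.single_le_sum (f := fun s => ∑ L ∈ F s, g κ s L ω)
          (fun _ _ => zero_le) (Finset.mem_Ico.2 ⟨h1, h2⟩)
  have hm1 : Measurable (H.indicator (M.w f (lift k Q))) :=
    (M.measurable_w hf.meas (lift k Q)).indicator hHm
  have hm2 : ∀ κ, Measurable fun ω => ∑ s ∈ Finset.Ico 1 s0, ∑ L ∈ F s, g κ s L ω := fun κ =>
    Finset.measurable_fun_sum _ fun s _ => Finset.measurable_fun_sum _ fun L _ => hgm κ s L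
  have hm3 : ∀ κ, Measurable fun ω => ∑ L ∈ Fam (fatr Mr Q) s0, g κ s0 L ω := fun κ =>
    Finset.measurable_fun_sum _ fun L _ => hgm κ s0 L
  unfold CG.xi
  refine (M.int_mono _ hpt).trans ?_
  have hm4 : ∀ κ, Measurable fun ω => ∑ s ∈ Finset.Ico 1 s0, ∑ L ∈ F s, g κ s L ω +
      ∑ L ∈ Fam (fatr Mr Q) s0, g κ s0 L ω := fun κ => (hm2 κ).add (hm3 κ)
  rw [M.int_add _ hm1, M.int_sum (Finset.Icc 1 m) (fun κ _ => hm4 κ)]
  refine add_le_add le_rfl ?_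
  refine (Finset.sum_le_card_nsmul (Finset.Icc 1 m) _ (∑ s ∈ Finset.Ico 1 s0, ∑ L ∈ F s,
      4 ^ L.card * T s L + ∑ L ∈ Fam (fatr Mr Q) s0, 4 ^ L.card * T s0 L) fun κ hκ => ?_).trans ?_
  · rw [Finset.mem_Icc] at hκ
    rw [M.int_add _ (hm2 κ)]
    rw [M.int_sum (Finset.Ico 1 s0) (fun s _ => Finset.measurable_fun_sum _ fun L _ =>
        hgm κ s L),
      M.int_sum (Fam (fatr Mr Q) s0) (fun L _ => hgm κ s0 L)]
    refine add_le_add ?_ ?_
    · refine sum_le_sum fun s _ => ?_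
      rw [M.int_sum (F s) (fun L _ => hgm κ s L)]
      exact sum_le_sum fun L _ => ClsP.int_gg τ c0 c4 C4 Mr st B hf Q κ s L
        fun Y DL OL => hT s κ L Y DL OL hκ.1 hκ.2
    · exact sum_le_sum fun L _ => ClsP.int_gg τ c0 c4 C4 Mr st B hf Q κ s0 L
        fun Y DL OL => hT s0 κ L Y DL OL hκ.1 hκ.2
  · rw [Nat.card_Icc, nsmul_eq_mul, Nat.add_sub_cancel]

end

end Pool.Agent.RC
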