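import Pool.Agent.Lib.MP_09cbbd_rc.PCls
import Pool.Agent.Lib.MP_09cbbd_rc.PCb
import Pool.Agent.Lib.MP_09cbbd_rc.PDet
import Pool.Agent.Lib.MP_09cbbd_mix.BoxA

/-!
# Rows and columns: no gap between two fields
-/

set_option autoImplicit false

namespace Pool.Agent.RC

open MeasureTheory Finset Filter Topology Pool.Agent.StableGas
open Pool.Agent.SquareWell hiding Md cut
open Pool.Agent.Vdw (blk lift ball Lk Yk Wk Kc)
open Pool.Agent.Mix (Qr mem_Qr)

variable {d : ℕ}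

namespace NG

theorem mem_rimm {s : ℕ} {A : Finset (Zd d)} {p : Zd d} :
    p ∈ rimm s A ↔ p ∈ A ∧ ∃ q ∈ ball s p, q ∉ A := by
  unfold rimm
  rw [mem_filter]

theorem card_rimm_le {st n : ℕ} (hn : 2 * st ≤ n) :
    ((rimm st (SquareWell.bx d n)).card : ℝ) ≤ (n : ℝ) ^ d - ((n : ℝ) - 2 * st) ^ d := by
  classical
  have h : rimm st (SquareWell.bx d n) ⊆ SquareWell.bx d n \ Topo.cb d st (n - st) := by
    intro x hx
    rw [mem_rimm] at hx
    obtain ⟨hx, q, hq, hqn⟩ := hx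
    rw [Finset.mem_sdiff]
    refine ⟨hx, fun hc => hqn ?_⟩
    rw [Topo.mem_cb] at hc
    rw [Mix.BX.bx_eq, Topo.mem_cb]
    unfold ball at hq
    rw [Fintype.mem_piFinset] at hq
    intro k
    have h1 := hc k
    have h2 := Finset.mem_Icc.1 (hq k)
    omega
  have hsub : Topo.cb d st (n - st) ⊆ SquareWell.bx d n := by
    intro x hx
    rw [Topo.mem_cb] at hx
    rw [Mix.BX.bx_eq, Topo.mem_cb]
    intro k
    have := hx k
    omega
  have h1 := card_le_card h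
  rw [card_sdiff_of_subset hsub] at h1
  have h2 : (Topo.cb d (st : ℤ) (n - st)).card = (n - 2 * st) ^ d := by
    rw [Mix.BX.card_cb]
    congr 1
    omega
  rw [h2, Mix.BX.card_bx] at h1
  have h4 : (n - 2 * st) ^ d ≤ n ^ d := Nat.pow_le_pow_left (Nat.sub_le _ _) d
  have h5 : (((n ^ d - (n - 2 * st) ^ d : ℕ)) : ℝ) = (n : ℝ) ^ d - ((n : ℝ) - 2 * st) ^ d := by
    rw [Nat.cast_sub h4]
    push_cast [Nat.cast_sub hn]
    ring
  rw [← h5]
  exact_mod_cast h1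

theorem tendsto_rimm (st : ℕ) :
    Tendsto (fun n : ℕ => ((rimm st (SquareWell.bx d n)).card : ℝ) / (n : ℝ) ^ d) atTop (𝓝 0) := by
  have h := Mix.BX.tendsto_ratio (d := d) (-(2 * st))
  have h1 : Tendsto (fun n : ℕ => 1 - (((n : ℝ) + -(2 * st)) / n) ^ d) atTop (𝓝 (1 - 1)) :=
    tendsto_const_nhds.sub h
  rw [sub_self] at h1
  refine tendsto_of_tendsto_of_tendsto_of_le_of_le' tendsto_const_nhds h1 ?_ ?_
  · exact Eventually.of_forall fun n => by positivity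
  · filter_upwards [eventually_ge_atTop 1, eventually_ge_atTop (2 * st)] with n hn1 hn2
    have hn0 : (0 : ℝ) < n := by exact_mod_cast hn1
    have h2 := card_rimm_le (d := d) hn2
    rw [div_le_iff₀ (pow_pos hn0 d), div_pow, sub_mul, div_mul_cancel₀ _ (pow_pos hn0 d).ne',
      one_mul, ← sub_eq_add_neg]
    exact h2

/-- The weights of the classes sum up. -/
theorem sum_T {F : Finset (Finset (Zd d))} {X τ : ℝ} :
    ∑ L ∈ F, 4 ^ L.card * ex (X - τ * L.card) =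
      ex X * ENNReal.ofReal (∑ L ∈ F, (4 * Real.exp (-τ)) ^ L.card) := by
  rw [ENNReal.ofReal_sum_of_nonneg fun L _ => by positivity, mul_sum]
  refine sum_congr rfl fun L _ => ?_
  rw [sub_eq_add_neg, ex_add, mul_left_comm]
  congr 1
  rw [mul_pow, ENNReal.ofReal_mul (by positivity), ENNReal.ofReal_pow (by norm_num)]
  congr 1
  · norm_num
  · unfold ex
    rw [← Real.exp_nat_mul]
    congr 2
    ring

section

variable {E : Type} [MeasurableSpace E]

/-- An upper bound for the partition functions of large cubes of blocks bounds the pressure. -/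
theorem le_of_xi_bound (hd1 : 1 ≤ d) {M : CG d E} {f : E → ℝ} (hf : M.Fld f) {P : ℝ}
    (hp : M.IsP f P) {M0 C' Cst : ℝ} {k st : ℕ} (hk : 1 ≤ k) (hC : 1 ≤ Cst)
    (h : ∀ᶠ n : ℕ in atTop, M.xi f (SquareWell.bx d (k * n)) ≤ ENNReal.ofReal
      (Cst * Real.exp (M0 * ((k * n : ℕ) : ℝ) ^ d +
        C' * (rimm st (SquareWell.bx d n)).card))) : P ≤ M0 := by
  classical
  have hk0 : (0 : ℝ) < k := by exact_mod_cast hk
  have hup : ∀ᶠ n : ℕ in atTop,
      Real.log (M.xi f (SquareWell.bx d (k * n))).toReal / ((k * n : ℕ) : ℝ) ^ d ≤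
      Real.log Cst / ((k * n : ℕ) : ℝ) ^ d + M0 +
        C' / (k : ℝ) ^ d * (((rimm st (SquareWell.bx d n)).card : ℝ) / (n : ℝ) ^ d) := by
    filter_upwards [h, eventually_ge_atTop 1] with n hn hn1
    have hkn : 1 ≤ k * n := Nat.mul_pos hk hn1
    have hn0 : (0 : ℝ) < ((k * n : ℕ) : ℝ) := by exact_mod_cast hkn
    have hnn : (0 : ℝ) < (n : ℝ) := by exact_mod_cast hn1
    have hnd : (0 : ℝ) < ((k * n : ℕ) : ℝ) ^ d := pow_pos hn0 d
    have h7 : (M.xi f (SquareWell.bx d (k * n))).toReal ≤ Cst *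
        Real.exp (M0 * ((k * n : ℕ) : ℝ) ^ d + C' * (rimm st (SquareWell.bx d n)).card) :=
      ENNReal.toReal_le_of_le_ofReal (by positivity) hn
    have h8 : 0 < (M.xi f (SquareWell.bx d (k * n))).toReal := M.xi_pos hf _
    have h9 : Real.log (M.xi f (SquareWell.bx d (k * n))).toReal ≤ Real.log Cst +
        (M0 * ((k * n : ℕ) : ℝ) ^ d + C' * (rimm st (SquareWell.bx d n)).card) := by
      refine (Real.log_le_log h8 h7).trans (le_of_eq ?_)
      rw [Real.log_mul (by positivity) (Real.exp_pos _).ne', Real.log_exp]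
    refine (div_le_div_of_nonneg_right h9 hnd.le).trans (le_of_eq ?_)
    push_cast
    rw [mul_pow]
    field_simp
    ring
  have hkn : Tendsto (fun n : ℕ => k * n) atTop atTop := by
    refine tendsto_atTop_mono (fun n => ?_) tendsto_id
    exact Nat.le_mul_of_pos_left n hk
  have hlim : Tendsto (fun n : ℕ => Real.log Cst / ((k * n : ℕ) : ℝ) ^ d + M0 +
      C' / (k : ℝ) ^ d * (((rimm st (SquareWell.bx d n)).card : ℝ) / (n : ℝ) ^ d)) atTop
      (𝓝 (0 + M0 + C' / (k : ℝ) ^ d * 0)) := by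
    refine Tendsto.add (Tendsto.add ?_ tendsto_const_nhds) ?_
    · refine Tendsto.const_div_atTop ?_ _
      exact ((tendsto_pow_atTop (by omega)).comp tendsto_natCast_atTop_atTop).comp hkn
    · exact (tendsto_rimm st).const_mul _
  have hfinal := le_of_tendsto_of_tendsto (hp.comp hkn) hlim hup
  rwa [zero_add, mul_zero, add_zero] at hfinal

theorem fld_fa {M : CG d E} {SA : Set E} {h : E → ℝ} (hSA : MeasurableSet SA)
    (h0 : M.e0 ∉ SA) (hh : M.Fld h) (a : ℝ) : M.Fld (fa h SA a) where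
  meas := by
    unfold fa
    exact hh.meas.add ((measurable_one.indicator hSA).const_mul a)
  e0 := by
    unfold fa
    rw [hh.e0, Set.indicator_of_notMem h0, mul_zero, add_zero]
  fin := by
    have h1 : ∀ x, ex (fa h SA a x) ≤ ex |a| * ex (h x) := by
      intro x
      rw [← ex_add]
      refine ex_le_ex.2 ?_
      unfold fa
      have h2 : a * SA.indicator 1 x ≤ |a| := by
        by_cases hx : x ∈ SA
        · rw [Set.indicator_of_mem hx, Pi.one_apply, mul_one]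
          exact le_abs_self a
        · rw [Set.indicator_of_notMem hx, mul_zero]
          exact abs_nonneg a
      linarith
    refine ne_top_of_le_ne_top ?_ (lintegral_mono h1)
    rw [lintegral_const_mul _ hh.ex_meas]
    refine ENNReal.mul_ne_top ?_ hh.fin
    unfold ex
    exact ENNReal.ofReal_ne_top

/-- The weight for the additional field. -/
theorem w_fa (M : CG d E) (SA : Set E) (h : E → ℝ) (a : ℝ) (X : Finset (Zd d)) (ω : Zd d → E) :
    M.w (fa h SA a) X ω = M.w h X ω * ex (a * cnt SA X ω) := by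
  classical
  have h1 := M.wG_add id (fun _ => h) (fun _ x => a * SA.indicator 1 x) X ω
  have h2 : ∑ i ∈ X, a * SA.indicator 1 (ω i) = a * cnt SA X ω := by
    rw [← mul_sum]
    congr 1
    unfold cnt
    rw [card_filter]
    push_cast
    refine sum_congr rfl fun i _ => ?_
    by_cases hi : ω i ∈ SA
    · rw [Set.indicator_of_mem hi, if_pos hi, Pi.one_apply]
    · rw [Set.indicator_of_notMem hi, if_neg hi]
  rw [h2] at h1
  exact h1

/-- Configurations with a high energy. -/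
theorem high {M : CG d E} {SA SB : Set E} {h : E → ℝ} {p : ℝ → ℝ} {φ c2 C1 ε μ : ℝ} {k : ℕ}
    {eb : Finset (Zd d) → (Zd d → E) → Zd d → ℝ} (B : Blk M SA SB h p φ c2 C1 ε μ k eb)
    {a b τ : ℝ} (ha : |a| ≤ b) (Q : Finset (Zd d)) :
    M.int (lift k Q) ({ω | M.cp id (lift k Q) ω ∧ τ * Q.card < ∑ q ∈ Q, eb Q ω q}.indicator
      (M.w (fa h SA a) (lift k Q))) ≤
      ex (((φ + ε) * (μ + b) - τ * μ / 2) * ((k : ℝ) ^ d * Q.card)) := by
  classical
  have hμ := B.μ_pos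
  have hkd : (0 : ℝ) ≤ (k : ℝ) ^ d := by positivity
  have hpt : ∀ ω, {ω | M.cp id (lift k Q) ω ∧ τ * Q.card < ∑ q ∈ Q, eb Q ω q}.indicator
      (M.w (fa h SA a) (lift k Q)) ω ≤
      ex ((φ + ε) * b * ((k : ℝ) ^ d * Q.card) - τ * μ / 2 * ((k : ℝ) ^ d * Q.card)) *
      (M.w h (lift k Q) ω * ex (1 / 2 * μ * (k : ℝ) ^ d * ∑ q ∈ Q, eb Q ω q)) := by
    intro ω
    by_cases hω : ω ∈ {ω | M.cp id (lift k Q) ω ∧ τ * Q.card < ∑ q ∈ Q, eb Q ω q}
    · rw [Set.indicator_of_mem hω, w_fa, mul_left_comm, ← ex_add]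
      refine mul_le_mul' le_rfl (ex_le_ex.2 ?_)
      obtain ⟨h1, h2⟩ := hω
      have h3 := B.pack Q ω h1
      have h4 : (0 : ℝ) ≤ cnt SB (lift k Q) ω := Nat.cast_nonneg _
      have h5 : (0 : ℝ) ≤ cnt SA (lift k Q) ω := Nat.cast_nonneg _
      have h6 : a * cnt SA (lift k Q) ω ≤ b * cnt SA (lift k Q) ω :=
        mul_le_mul_of_nonneg_right ((le_abs_self a).trans ha) h5
      have h7 : b * cnt SA (lift k Q) ω ≤ b * ((φ + ε) * (k : ℝ) ^ d * Q.card) :=
        mul_le_mul_of_nonneg_left (by linarith) ((abs_nonneg a).trans ha)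
      have h8 : 1 / 2 * μ * (k : ℝ) ^ d * (τ * Q.card) ≤
          1 / 2 * μ * (k : ℝ) ^ d * ∑ q ∈ Q, eb Q ω q :=
        mul_le_mul_of_nonneg_left h2.le (by positivity)
      have e1 : b * ((φ + ε) * (k : ℝ) ^ d * Q.card) = (φ + ε) * b * ((k : ℝ) ^ d * Q.card) := by
        ring
      have e2 : 1 / 2 * μ * (k : ℝ) ^ d * (τ * Q.card) = τ * μ / 2 * ((k : ℝ) ^ d * Q.card) := by
        ring
      linarith
    · rw [Set.indicator_of_notMem hω]
      exact zero_le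
  refine (M.int_mono _ hpt).trans ?_
  have hm : Measurable fun ω : Zd d → E => M.w h (lift k Q) ω *
      ex (1 / 2 * μ * (k : ℝ) ^ d * ∑ q ∈ Q, eb Q ω q) := by
    refine (M.measurable_w B.fld.meas _).mul (CG.measurable_ex ?_)
    exact (Finset.measurable_fun_sum _ fun q _ => B.eb_meas Q q).const_mul _
  rw [M.int_const_mul _ hm]
  refine (mul_le_mul' le_rfl (B.cr Q)).trans (le_of_eq ?_)
  rw [← ex_add]
  congr 1
  ring

end

end NG

/-- **Main estimate.** There are no two different fields with the densities `δ φ` and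
`(1 - δ) φ`. -/
theorem no_gap (hd : 2 ≤ d) {φ c2 C1 : ℝ} (hφ : 0 < φ) (hφ1 : φ ≤ 1) (hc2 : 0 < c2)
    (hC1 : 0 < C1) {st : ℕ} (hst : 2 ≤ st) (rn : ℕ) :
    ∃ δ0 : ℝ, 0 < δ0 ∧ ∀ δ, 0 < δ → δ ≤ δ0 → ∃ ε0 : ℝ, 0 < ε0 ∧ ∃ k0 : ℕ, ∀ k : ℕ, k0 ≤ k →
      ∀ C : ℝ, 0 ≤ C → ∃ μ0 : ℝ,
      ∀ (E : Type) (_ : MeasurableSpace E) (M : CG d E) (SA SB : Set E) (h : E → ℝ)
      (p : ℝ → ℝ) (ε μ : ℝ) (eb : Finset (Zd d) → (Zd d → E) → Zd d → ℝ),
      Blk M SA SB h p φ c2 C1 ε μ k eb → ε ≤ ε0 → μ0 ≤ μ → M.q ≤ rn → 2 * M.r ≤ st * k →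
      ∀ a1 a2 : ℝ, a1 < a2 → |a1| ≤ ε0 * μ → |a2| ≤ ε0 * μ →
      Sub p a1 (δ * φ) → Sub p a2 ((1 - δ) * φ) →
      M.Gl SB (fa h SA a1) (2 * μ) (2 * δ) C (p a1) →
      M.Gl SA (fa h SA a2) (2 * μ) (2 * δ) C (p a2) → False := by
  classical
  have hd1 : 1 ≤ d := by omega
  obtain ⟨m, Mr, c4, C4, hm, hMr, hM, hc4, hC4, hdet⟩ :=
    det hd hc2 hC1 (K1 := 2) (by norm_num) hst
  obtain ⟨δ0, hδ0, hcls⟩ := cls_bound hd hφ hφ1 hC1 hc4 hC4 hst hm hM rn
  refine ⟨δ0, hδ0, fun δ hδ hδ' => ?_⟩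
  obtain ⟨τ, c0, ε0, hτ, hc0, hε0, hε1, hτε, k0, hcls2⟩ := hcls δ hδ hδ'
  obtain ⟨τ0, hent⟩ := Vdw.entropy2 (d := d) hd hc0
  refine ⟨ε0, hε0, k0, fun k hk C hC => ?_⟩
  obtain ⟨μ0, hcls3⟩ := hcls2 k hk C hC
  refine ⟨max μ0 (4 * |τ0| / c4), ?_⟩
  intro E _ M SA SB h p ε μ eb B hε hμ hq hr a1 a2 hab ha1 ha2 S1 S2 G1 G2
  have hμ1 : μ0 ≤ μ := (le_max_left _ _).trans hμ
  have hμ2 : 4 * |τ0| ≤ c4 * μ := by
    have h1 := (le_max_right _ _).trans hμ
    rw [div_le_iff₀ hc4] at h1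
    linarith
  have hμ0 := B.μ_pos
  have hk1 := B.k_pos
  have hkd : (1 : ℝ) ≤ (k : ℝ) ^ d := one_le_pow₀ (by exact_mod_cast hk1)
  have hΔ : 0 < a2 - a1 := by linarith
  obtain ⟨a, ha⟩ : ∃ a, a = (a1 + a2) / 2 := ⟨_, rfl⟩
  obtain ⟨pm, hpm⟩ : ∃ pm, pm = max (p a1 + (a2 - a1) / 2 * (δ * φ))
    (p a2 - (a2 - a1) / 2 * ((1 - δ) * φ)) := ⟨_, rfl⟩
  have hpm1' : p a1 + (a2 - a1) / 2 * (δ * φ) ≤ pm := by rw [hpm]; exact le_max_left _ _
  have hpm2' : p a2 - (a2 - a1) / 2 * ((1 - δ) * φ) ≤ pm := by rw [hpm]; exact le_max_right _ _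
  have hpm1 : p a1 ≤ pm - (a2 - a1) / 2 * (δ * φ) := by linarith
  have hpm2 : p a2 ≤ pm + (a2 - a1) / 2 * ((1 - δ) * φ) := by linarith
  have hlow : pm ≤ p a := by
    rw [hpm]
    refine max_le ?_ ?_
    · have h1 := S1 a
      have e1 : (a - a1) * (δ * φ) = (a2 - a1) / 2 * (δ * φ) := by
        rw [ha]; ring
      linarith
    · have h1 := S2 a
      have e1 : (a - a2) * ((1 - δ) * φ) = -((a2 - a1) / 2 * ((1 - δ) * φ)) := by
        rw [ha]; ring
      linarith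
  have hpm3 : (φ - ε) * μ ≤ pm := by
    have h1 := B.lo a1
    have h2 : 0 ≤ (a2 - a1) / 2 * (δ * φ) := by positivity
    linarith
  have hac : |a| ≤ ε0 * μ := by
    rw [abs_le] at ha1 ha2 ⊢
    rw [ha]
    constructor <;> linarith
  -- the parameters
  obtain ⟨τ', hτ'⟩ : ∃ τ', τ' = c4 / 4 * μ * (k : ℝ) ^ d := ⟨_, rfl⟩
  have hττ : τ0 ≤ τ' := by
    have h4 : τ0 ≤ c4 / 4 * μ := by
      have := le_abs_self τ0
      linarith
    have h5 : c4 / 4 * μ * 1 ≤ c4 / 4 * μ * (k : ℝ) ^ d :=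
      mul_le_mul_of_nonneg_left hkd (by positivity)
    rw [hτ']
    linarith
  obtain ⟨ζ, hζ⟩ : ∃ ζ, ζ = (a2 - a1) * (δ * φ) * (k : ℝ) ^ d / 16 := ⟨_, rfl⟩
  have hζ0 : 0 < ζ := by rw [hζ]; positivity
  obtain ⟨hent1, hent2⟩ := hent τ' hττ
  obtain ⟨s0, hs0, hent3⟩ := hent2 ζ hζ0
  obtain ⟨M0, hM0⟩ : ∃ M0, M0 = max (pm - τ * μ / 4) (pm - (a2 - a1) * (δ * φ) / 8) := ⟨_, rfl⟩
  have hM1 : pm - τ * μ / 4 ≤ M0 := by rw [hM0]; exact le_max_left _ _
  have hM2 : pm - (a2 - a1) * (δ * φ) / 8 ≤ M0 := by rw [hM0]; exact le_max_right _ _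
  have hM3 : M0 < pm := by
    rw [hM0]
    refine max_lt ?_ ?_
    · have : 0 < τ * μ / 4 := by positivity
      linarith
    · have : 0 < (a2 - a1) * (δ * φ) / 8 := by positivity
      linarith
  obtain ⟨C', hC'0, hcls4⟩ := hcls3 E _ M SA SB h p ε μ eb B hε hμ1 hq hr a1 a2 pm hab ha1 ha2
    G1 G2 hpm1 hpm2
  have hfld : M.Fld (fa h SA a) := NG.fld_fa B.SA_meas B.e0_A B.fld a
  -- high energies
  have hhigh : (φ + ε) * (μ + ε0 * μ) - τ * μ / 2 ≤ M0 := by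
    refine le_trans ?_ hM1
    have h1 : ε * (2 + ε0) ≤ ε0 * (2 + ε0) := mul_le_mul_of_nonneg_right hε (by linarith)
    have h2 : ε0 * ε0 ≤ ε0 * 1 := mul_le_mul_of_nonneg_left hε1 hε0.le
    have h3 : φ * ε0 ≤ 1 * ε0 := mul_le_mul_of_nonneg_right hφ1 hε0.le
    have h4 : (φ + ε) * (1 + ε0) - τ / 2 ≤ (φ - ε) - τ / 4 := by linarith
    have h5 := mul_le_mul_of_nonneg_right h4 hμ0.le
    linarith
  have hmain : p a ≤ M0 := by
    refine NG.le_of_xi_bound hd1 hfld (B.isP a) (C' := C') (Cst := 1 + m * (s0 + 1)) (st := st)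
      hk1 (by have : (0 : ℝ) ≤ m * (s0 + 1) := by positivity
              linarith) ?_
    filter_upwards [Mix.eventually_fatr (d := d) hd1 Mr] with n hn
    obtain ⟨A, hA⟩ : ∃ A : Finset (Zd d), A = SquareWell.bx d n := ⟨_, rfl⟩
    have hlift : lift k A = SquareWell.bx d (k * n) := by rw [hA]; exact Vdw.lift_bx k n
    have hcard : ((lift k A).card : ℝ) = ((k * n : ℕ) : ℝ) ^ d := by
      rw [hlift]; exact Mix.card_bx_real (k * n)
    have hcard2 : ((lift k A).card : ℝ) = (k : ℝ) ^ d * A.card := by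
      rw [Vdw.card_lift]; push_cast; ring
    have hconn : NConn A := by rw [hA]; exact Mix.NConn_bx hd n
    rw [← hA] at hn ⊢
    rw [← hlift, ← hcard]
    have hAc : (0 : ℝ) ≤ A.card := Nat.cast_nonneg _
    have hLc : (0 : ℝ) ≤ (lift k A).card := Nat.cast_nonneg _
    obtain ⟨rr, hrr⟩ : ∃ rr : ℝ, rr = (rimm st A).card := ⟨_, rfl⟩
    have hrr0 : 0 ≤ rr := by rw [hrr]; exact Nat.cast_nonneg _
    rw [← hrr]
    obtain ⟨LL, hLL⟩ : ∃ LL : ℝ, LL = (lift k A).card := ⟨_, rfl⟩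
    obtain ⟨X, hX⟩ : ∃ X, X = pm * LL - (a2 - a1) / 4 * (δ * φ) * LL + C' * rr := ⟨_, rfl⟩
    have hsum := sum_cls hd B (m := m) hMr hdet (τ := τ) hc0 hfld A hconn s0 hs0
      (fun _ L => ex (X - τ' * L.card)) (fun s κ L Y DL OL hκ1 hκ2 => by
        have h1 := hcls4 A s κ L Y DL OL hκ1 hκ2
        rw [← ha, ← hrr, ← hLL, ← hτ', ← hX] at h1
        exact h1)
    have hcc := NG.high B hac (τ := τ) A
    rw [← hcard2, ← hLL] at hcc
    simp only [NG.sum_T] at hsum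
    have h2 : ∑ s ∈ Finset.Ico 1 s0, ex X * ENNReal.ofReal (∑ L ∈ (Fam (fatr Mr A) s).filter
        (fun L => c0 * A.card ≤ 2 * s ^ 3 * num L s), (4 * Real.exp (-τ')) ^ L.card) ≤
        ∑ s ∈ Finset.Ico 1 s0, ex X := by
      refine sum_le_sum fun s hs => ?_
      have h3 := hent1 s (Finset.mem_Ico.1 hs).1 (fatr Mr A) A.card hn
      calc ex X * ENNReal.ofReal _ ≤ ex X * 1 := by
            apply mul_le_mul_right
            exact ENNReal.ofReal_le_one.2 h3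
        _ = ex X := mul_one _
    rw [sum_const, Nat.card_Ico, nsmul_eq_mul] at h2
    have h4 := hent3 (fatr Mr A)
    have h5 : ζ * (fatr Mr A).card ≤ 2 * ζ * A.card := by
      have h7 : ((fatr Mr A).card : ℝ) ≤ 2 * A.card := by exact_mod_cast hn
      have h8 := mul_le_mul_of_nonneg_left h7 hζ0.le
      have h9 : ζ * (2 * (A.card : ℝ)) = 2 * ζ * A.card := by ring
      linarith
    have h6 : ex X * ENNReal.ofReal (∑ L ∈ Fam (fatr Mr A) s0, (4 * Real.exp (-τ')) ^ L.card) ≤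
        ex (X + 2 * ζ * A.card) := by
      rw [ex_add X (2 * ζ * A.card)]
      apply mul_le_mul_right
      unfold ex
      apply ENNReal.ofReal_le_ofReal
      exact h4.trans (Real.exp_le_exp.2 h5)
    obtain ⟨Q, hQ⟩ : ∃ Q, Q = M0 * LL + C' * rr := ⟨_, rfl⟩
    have hLL0 : 0 ≤ LL := by rw [hLL]; exact hLc
    have hCr : 0 ≤ C' * rr := mul_nonneg hC'0 hrr0
    have hXQ : X + 2 * ζ * A.card ≤ Q := by
      have e1 : X + 2 * ζ * A.card = (pm - (a2 - a1) * (δ * φ) / 8) * LL + C' * rr := by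
        rw [hX, hζ, hLL, hcard2]; ring
      rw [e1, hQ]
      have := mul_le_mul_of_nonneg_right hM2 hLL0
      linarith
    have hXQ' : X ≤ Q := by
      have : 0 ≤ 2 * ζ * A.card := by positivity
      linarith
    have hcc2 : ((φ + ε) * (μ + ε0 * μ) - τ * μ / 2) * LL ≤ Q := by
      rw [hQ]
      have g4 := mul_le_mul_of_nonneg_right hhigh hLL0
      linarith
    rw [← hLL, ← hQ]
    have e1 : ENNReal.ofReal ((1 + m * (s0 + 1)) * Real.exp Q) =
        ex Q + m * (s0 * ex Q + ex Q) := by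
      unfold ex
      rw [add_mul, one_mul, ENNReal.ofReal_add (Real.exp_pos _).le (by positivity),
        mul_assoc, ENNReal.ofReal_mul (by positivity), ENNReal.ofReal_natCast, add_mul, one_mul,
        ENNReal.ofReal_add (by positivity) (Real.exp_pos _).le,
        ENNReal.ofReal_mul (by positivity), ENNReal.ofReal_natCast]
    rw [e1]
    refine hsum.trans (add_le_add ?_ ?_)
    · exact hcc.trans (ex_le_ex.2 hcc2)
    · apply mul_le_mul_right
      refine add_le_add ?_ ?_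
      · refine h2.trans ?_
        refine mul_le_mul' ?_ (ex_le_ex.2 hXQ')
        exact_mod_cast Nat.sub_le s0 1
      · exact h6.trans (ex_le_ex.2 hXQ)
  linarith

end Pool.Agent.RC
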