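import Pool.Agent.Lib.MP_09cbbd_rc.LdrI

/-!
# Rows and columns round a general hard core: the pieces of the molecules
-/

set_option autoImplicit false
set_option linter.unusedSectionVars false

namespace Pool.Agent.RC

open MeasureTheory Finset Filter Topology
open Pool.Agent.StableGas hiding tr
open Pool.Agent.SquareWell hiding Md cut
open Pool.Agent.SquareWellGas
open Pool.Agent.SquareWell.ModA
open Pool.Agent.Vdw (blk lift ball Lk Yk Wk Kc)
open Pool.Agent.Mix (Qr mem_Qr Trans Ct)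
open Pool.Agent.Exg

variable {d : ℕ}

theorem diff_Qr {x y : Fin d → ℝ} {v : Zd d} {s : ℝ} (hs : s < 1) (hx : x ∈ Box d 1)
    (hy : y ∈ Box d 1) (h : ∀ j, |(x - Exg.tr v y) j| ≤ s) : v ∈ Qr d 1 := by
  rw [mem_Qr]
  intro j
  have h1 := abs_le.1 (h j)
  have h2 := hx j
  have h3 := hy j
  simp only [Set.mem_Ico] at h2 h3
  simp only [Exg.tr, Pi.sub_apply] at h1
  have h4 : ((-2 : ℤ) : ℝ) < v j := by
    push_cast
    linarith [h1.2, h2.1, h3.2]
  have h5 : ((v j : ℤ) : ℝ) < (2 : ℤ) := by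
    push_cast
    linarith [h1.1, h2.2, h3.1]
  have h6 : -2 < v j := by exact_mod_cast h4
  have h7 : v j < 2 := by exact_mod_cast h5
  rw [abs_le]
  constructor <;> push_cast <;> omega

theorem diff_wall {x y : Fin d → ℝ} {v : Zd d} {s : ℝ} (hv : v ≠ 0) (hy : y ∈ Box d 1)
    (h : ∀ j, |(x - Exg.tr v y) j| < s) : ∃ j, x j < s ∨ 1 - s < x j := by
  obtain ⟨j, hj⟩ := Function.ne_iff.1 hv
  refine ⟨j, ?_⟩
  have h1 := abs_lt.1 (h j)
  have h3 := hy j
  simp only [Set.mem_Ico] at h3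
  simp only [Exg.tr, Pi.sub_apply] at h1
  rcases lt_or_gt_of_ne hj with h4 | h4
  · left
    have h5 : v j ≤ -1 := by
      have : v j < 0 := h4
      omega
    have h6 : (v j : ℝ) ≤ -1 := by exact_mod_cast h5
    linarith [h1.2, h3.2]
  · right
    have h5 : 1 ≤ v j := by
      have : 0 < v j := h4
      omega
    have h6 : (1 : ℝ) ≤ v j := by exact_mod_cast h5
    linarith [h1.1, h3.1]

/-- The windows are small. -/
theorem Win_lt {P : Bd.Prm d} (hP : P.Ok) (hm : P.Sm) {t : Bool} {u : Fin d → ℝ}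
    (hu : Bd.Win (P.dr t) P.α (P.dl t) (P.mm t) u) (j : Fin d) : |u j| < P.mB * P.α := by
  have hA := hP.δA_nonneg
  have hB := hP.δB_nonneg
  have hsm := hP.small
  have hα := hP.α_pos
  have h1 : ‖u‖ < P.mB * P.α := by
    cases t
    · exact hu.norm_lt hα (by show 3 * P.δB < P.α; linarith)
    · have h3 := hu.norm_lt hα (by show 3 * P.δA < P.α; linarith)
      have h4 : (P.mA : ℝ) ≤ P.mB := by exact_mod_cast hm.le
      exact h3.trans_le (mul_le_mul_of_nonneg_right h4 hα.le)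
  have h2 := norm_le_pi_norm u j
  rw [Real.norm_eq_abs] at h2
  exact h2.trans_lt h1

open Classical in
/-- **The pieces of the molecules.** -/
theorem splitI {P : Bd.Prm d} (hP : P.Ok) (hm : P.Sm) (G : Ng d P.E)
    {A B : Set (Ct (Fin d → ℝ))} {w : ℝ} (hA : Awy P.E A w) (hB : Awy P.E B w)
    (hw : P.mB * P.α ≤ w) {W : Set (Fin d → ℝ)}
    (hWw : ∀ z : Fin d → ℝ, (∀ j, 0 ≤ z j ∧ z j < 1) →
      (∃ j, z j < P.mB * P.α ∨ 1 - P.mB * P.α < z j) → z ∈ W)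
    {ζ : ℝ} (hζ : ∀ t, 0 ≤ ζ + d * Real.log (2 * P.dl t))
    (S : Finset (Zd d)) (ω : Zd d → Ct (Fin d → ℝ)) (hω : G.cg.cp id S ω)
    (hod : ∀ i ∈ S, ω i ∉ odI P.E) :
    ∃ (U : Finset (Zd d)) (t : Zd d → Bool), U ⊆ nwI P S ω ∧
    (∀ l ∈ U, ω l ∈ LSI P W (t l) ∧ ω l ∉ A ∪ B) ∧
    (∀ i ∈ S, ω i ≠ e0 → i ∉ nwI P S ω →
      ∃ v ∈ (Qr d 1).erase 0, toLex (i + v) < toLex i ∧ (ω i, ω (i + v)) ∈ OSI P (t i) v) ∧
    0 ≤ ∑ l ∈ U, tlI P ζ (t l) (ω l) +
      ∑ i ∈ S.filter (fun i => ω i ≠ e0 ∧ i ∉ nwI P S ω), tOI P ζ (t i) (ω i) := by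
  obtain ⟨S', hS'⟩ : ∃ S', S' = occ P.E S ω := ⟨_, rfl⟩
  have hmemS' : ∀ i, i ∈ S' ↔ i ∈ S ∧ Vx P.E (ω i) ∧ (ω i).1 ≠ 0 := fun i => by
    rw [hS']
    exact mem_occ
  have hCf : Bd.Conf P S' posI ω := by
    rw [hS']
    exact conf_of_cp G hω
  have ho : Function.Injective (toLex : Zd d → Lex (Zd d)) := fun _ _ h => h
  obtain ⟨nw, hnw⟩ : ∃ nw, nw = Bd.nw P (toLex : Zd d → Lex (Zd d)) posI ω S' := ⟨_, rfl⟩
  have hnwG : nwI P S ω = nw := by
    rw [hnw, hS']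
    rfl
  rw [hnwG]
  have hs1 : (P.mB : ℝ) * P.α < 1 := by
    have h1 := hm.s8
    have h2 := Bd.mα_pos hP hm
    linarith
  have hnwS : ∀ l ∈ nw, l ∈ S' := fun l hl => (Bd.mem_nw.1 (hnw ▸ hl)).1
  have hld : ∀ i ∈ S', ∃ l, l ∈ nw ∧ i ∈ Bd.cl P posI ω S' l := fun i hi => by
    obtain ⟨l, hl, h1⟩ := Bd.exists_leader hP hm hCf (toLex : Zd d → Lex (Zd d)) hi
    exact ⟨l, hnw ▸ hl, h1⟩
  obtain ⟨ld, hld⟩ : ∃ ld : Zd d → Zd d, ∀ i ∈ S', ld i ∈ nw ∧ i ∈ Bd.cl P posI ω S' (ld i) := by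
    choose f hf using hld
    refine ⟨fun i => if h : i ∈ S' then f i h else i, fun i hi => ?_⟩
    simp only [dif_pos hi]
    exact hf i hi
  have huniq : ∀ l ∈ nw, ∀ l' ∈ nw, ∀ i, i ∈ Bd.cl P posI ω S' l →
      i ∈ Bd.cl P posI ω S' l' → l = l' := fun l hl l' hl' i h h' =>
    Bd.leader_unique hP hm hCf ho (hnw ▸ hl) (hnw ▸ hl') h h'
  have hclS : ∀ l i, i ∈ Bd.cl P posI ω S' l → i ∈ S' := fun l i hi => (Bd.mem_cl.1 hi).1
  have hldu : ∀ l ∈ nw, ∀ i ∈ Bd.cl P posI ω S' l, ld i = l := fun l hl i hi =>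
    huniq _ (hld i (hclS l i hi)).1 l hl i (hld i (hclS l i hi)).2 hi
  have hself : ∀ l ∈ S', l ∈ Bd.cl P posI ω S' l := fun l hl => Bd.self_mem_cl hl
  -- the types
  obtain ⟨rw', hrw⟩ : ∃ rw' : Zd d → Prop, ∀ l, rw' l ↔
      ((∀ i ∈ Bd.cl P posI ω S' l, ∀ j ∈ Bd.cl P posI ω S' l, ∀ k < (ω i).1, ∀ n < (ω j).1,
        (i ≠ j ∨ k ≠ n) → Bd.Win P.i0 P.α P.δA P.mA (Bd.bd posI ω i k - Bd.bd posI ω j n)) ∧
        ∑ i ∈ Bd.cl P posI ω S' l, (ω i).1 ≤ P.mA) := ⟨_, fun l => Iff.rfl⟩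
  obtain ⟨t, ht⟩ : ∃ t : Zd d → Bool, t = fun i => decide (rw' (ld i)) := ⟨_, rfl⟩
  have htl : ∀ l ∈ nw, ∀ i ∈ Bd.cl P posI ω S' l, t i = t l := fun l hl i hi => by
    rw [ht]
    simp only
    rw [hldu l hl i hi, hldu l hl l (hself l (hnwS l hl))]
  have key : ∀ l ∈ nw, (∀ i ∈ Bd.cl P posI ω S' l, ∀ j ∈ Bd.cl P posI ω S' l,
      ∀ k < (ω i).1, ∀ n < (ω j).1, (i ≠ j ∨ k ≠ n) →
        Bd.Win (P.dr (t l)) P.α (P.dl (t l)) (P.mm (t l))
          (Bd.bd posI ω i k - Bd.bd posI ω j n)) ∧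
        ∑ i ∈ Bd.cl P posI ω S' l, (ω i).1 ≤ P.mm (t l) := by
    intro l hl
    by_cases h1 : rw' l
    · have e : t l = true := by
        rw [ht]
        simp only
        rw [hldu l hl l (hself l (hnwS l hl))]
        exact decide_eq_true h1
      rw [e]
      exact (hrw l).1 h1
    · have e : t l = false := by
        rw [ht]
        simp only
        rw [hldu l hl l (hself l (hnwS l hl))]
        exact decide_eq_false h1
      rw [e]
      rcases Bd.cl_total hP hm hCf (hnwS l hl) with h2 | h2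
      · exact (h1 ((hrw l).2 h2)).elim
      · exact h2
  have hlt : ∀ l ∈ nw, ∀ i ∈ Bd.cl P posI ω S' l, i ≠ l → toLex l < toLex i := by
    intro l hl i hi hil
    rcases lt_trichotomy (toLex l) (toLex i) with h1 | h1 | h1
    · exact h1
    · exact absurd h1.symm hil
    · exfalso
      have h2 := (Bd.mem_nw.1 (hnw ▸ hl)).2
      refine h2 ⟨i, hclS l i hi, h1, ?_⟩
      exact Bd.sc_symm hm ((Bd.mem_cl.1 hi).2.resolve_left hil)
  have hclose : ∀ l ∈ nw, ∀ i ∈ Bd.cl P posI ω S' l, ∀ j ∈ Bd.cl P posI ω S' l, i ≠ j →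
      Bd.Win (P.dr (t l)) P.α (P.dl (t l)) (P.mm (t l))
        ((ω i).2 0 - Exg.tr (j - i) ((ω j).2 0)) := by
    intro l hl i hi j hj hij
    have h1 := (key l hl).1 i hi j hj 0
      (Nat.pos_of_ne_zero ((hmemS' i).1 (hclS l i hi)).2.2) 0
      (Nat.pos_of_ne_zero ((hmemS' j).1 (hclS l j hj)).2.2) (Or.inl hij)
    rwa [bd_sub] at h1
  have hbox : ∀ i ∈ S', (ω i).2 0 ∈ Box d 1 := fun i hi =>
    ((hmemS' i).1 hi).2.1.1 0 (Nat.pos_of_ne_zero ((hmemS' i).1 hi).2.2)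
  have hInDir : ∀ l ∈ nw, ∀ i ∈ Bd.cl P posI ω S' l,
      Cell.InDir (P.dr (t l)) P.α (P.dl (t l)) (P.mm (t l)) (ω i) := by
    intro l hl i hi k hk n hn hkn
    have h1 := (key l hl).1 i hi i hi k hk n hn (Or.inr hkn)
    rwa [bd_sub, sub_self, show Exg.tr (0 : Zd d) ((ω i).2 n) = (ω i).2 n by
      funext c
      simp [Exg.tr]] at h1
  have hAB : ∀ x : Ct (Fin d → ℝ), (∃ j, x.2 0 j < P.mB * P.α ∨ 1 - P.mB * P.α < x.2 0 j) →
      x ∉ A ∪ B := by
    rintro x ⟨j, hj⟩ hx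
    have h1 : w ≤ x.2 0 j ∧ x.2 0 j ≤ 1 - w := by
      rcases hx with hx | hx
      · obtain ⟨-, h1, h2⟩ := hA x hx
        exact h2 0 (Nat.pos_of_ne_zero h1) j
      · obtain ⟨-, h1, h2⟩ := hB x hx
        exact h2 0 (Nat.pos_of_ne_zero h1) j
    rcases hj with hj | hj <;> linarith [h1.1, h1.2]
  obtain ⟨U, hU⟩ : ∃ U, U = nw.filter fun l => ∃ i ∈ Bd.cl P posI ω S' l, i ≠ l := ⟨_, rfl⟩
  have hmemU : ∀ l, l ∈ U ↔ l ∈ nw ∧ ∃ i ∈ Bd.cl P posI ω S' l, i ≠ l := fun l => by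
    rw [hU]
    exact mem_filter
  refine ⟨U, t, fun l hl => ((hmemU l).1 hl).1, fun l hl => ?_, fun i hi hi0 hin => ?_, ?_⟩
  · obtain ⟨hl1, i, hi, hil⟩ := (hmemU l).1 hl
    have hlS := hnwS l hl1
    have h1 := hclose l hl1 l (hself l hlS) i hi (Ne.symm hil)
    have h2 := diff_wall (sub_ne_zero.2 hil) (hbox i (hclS l i hi)) fun j => Win_lt hP hm h1 j
    exact ⟨⟨((hmemS' l).1 hlS).2.1, ((hmemS' l).1 hlS).2.2, hWw _ (fun j => hbox l hlS j) h2,
      hInDir l hl1 l (hself l hlS)⟩, hAB _ h2⟩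
  · have hiS : i ∈ S' := by
      rw [hS']
      exact occ_of hi hi0 (hod i hi)
    have hv := ((hmemS' i).1 hiS).2
    obtain ⟨hl, hil⟩ := hld i hiS
    obtain ⟨l, hlE⟩ : ∃ l, l = ld i := ⟨_, rfl⟩
    rw [← hlE] at hl hil
    have hne : i ≠ l := fun h => hin (h ▸ hl)
    have h1 := hclose l hl i hil l (hself l (hnwS l hl)) hne
    refine ⟨l - i, mem_erase.2 ⟨sub_ne_zero.2 (Ne.symm hne), diff_Qr hs1 (hbox i hiS)
      (hbox l (hnwS l hl)) fun j => (Win_lt hP hm h1 j).le⟩, ?_, ?_⟩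
    · rw [add_sub_cancel]
      exact hlt l hl i hil hne
    · rw [add_sub_cancel, htl l hl i hil]
      exact ⟨hv.1, hv.2, ((hmemS' l).1 (hnwS l hl)).2.2, hInDir l hl i hil, h1⟩
  · obtain ⟨f, hf⟩ : ∃ f : Zd d → ℝ, f = fun i =>
        (if i ∈ U then tlI P ζ (t i) (ω i) else 0) +
        (if i ∉ nw then tOI P ζ (t i) (ω i) else 0) := ⟨_, rfl⟩
    have e1 : ∑ l ∈ U, tlI P ζ (t l) (ω l) +
        ∑ i ∈ S.filter (fun i => ω i ≠ e0 ∧ i ∉ nw), tOI P ζ (t i) (ω i) =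
        ∑ i ∈ S', f i := by
      rw [hf, sum_add_distrib, ← sum_filter, ← sum_filter]
      congr 1
      · congr 1
        ext l
        rw [mem_filter]
        exact ⟨fun h => ⟨hnwS l ((hmemU l).1 h).1, h⟩, fun h => h.2⟩
      · congr 1
        ext i
        rw [mem_filter, mem_filter, hmemS']
        constructor
        · rintro ⟨h1, h2, h3⟩
          exact ⟨⟨h1, (mem_occ.1 (occ_of h1 h2 (hod i h1))).2⟩, h3⟩
        · rintro ⟨⟨h1, -, h2⟩, h3⟩
          exact ⟨h1, fun h => h2 (by rw [h]; rfl), h3⟩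
    rw [e1, Bd.sum_cl hP hm hCf ho, ← hnw]
    refine sum_nonneg fun l hl => ?_
    obtain ⟨lam, hlamE⟩ : ∃ lam : ℝ, lam = ζ + d * Real.log (2 * P.dl (t l)) := ⟨_, rfl⟩
    have hlam : 0 ≤ lam := by
      rw [hlamE]
      exact hζ (t l)
    have hlS := hnwS l hl
    by_cases hlU : l ∈ U
    · have e2 : ∀ i ∈ Bd.cl P posI ω S' l, f i = (if i = l then P.mm (t l) * lam else 0) -
          ((ω i).1 : ℝ) * lam := by
        intro i hi
        rw [hf, hlamE]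
        simp only
        by_cases hil : i = l
        · subst hil
          rw [if_pos hlU, if_neg (not_not.2 hl), if_pos rfl]
          unfold tlI
          ring
        · have hin : i ∉ nw := fun h => hil (huniq i h l hl i (hself i (hclS l i hi)) hi)
          rw [if_neg fun h => hin ((hmemU i).1 h).1, if_pos hin, if_neg hil, htl l hl i hi]
          unfold tOI
          ring
      rw [sum_congr rfl e2, sum_sub_distrib, sum_ite_eq' _ l, if_pos (hself l hlS), ← sum_mul]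
      have h3 : (∑ i ∈ Bd.cl P posI ω S' l, ((ω i).1 : ℝ)) ≤ P.mm (t l) := by
        exact_mod_cast (key l hl).2
      have h4 := mul_le_mul_of_nonneg_right h3 hlam
      linarith
    · refine le_of_eq (sum_eq_zero fun i hi => ?_).symm
      have hil : i = l := by
        by_contra hne
        exact hlU ((hmemU l).2 ⟨hl, i, hi, hne⟩)
      subst hil
      rw [hf]
      simp only
      rw [if_neg hlU, if_neg (not_not.2 hl), add_zero]

theorem measurable_beads : Measurable fun x : Ct (Fin d → ℝ) => (x.1 : ℝ) :=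
  (measurable_of_countable fun n : ℕ => (n : ℝ)).comp measurable_fst

theorem measurableSet_ne0 : MeasurableSet {x : Ct (Fin d → ℝ) | x.1 ≠ 0} :=
  measurable_fst (MeasurableSet.of_discrete (s := {n : ℕ | n ≠ 0}))

theorem measurableSet_LSI {P : Bd.Prm d} (hE : MeasurableSet P.E) {W : Set (Fin d → ℝ)}
    (hW : MeasurableSet W) (t : Bool) : MeasurableSet (LSI P W t) := by
  have h1 : MeasurableSet {x : Ct (Fin d → ℝ) | Vx P.E x} :=
    measurableSet_setOfPred.2 (measurable_Vx hE)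
  have h2 : MeasurableSet {x : Ct (Fin d → ℝ) | x.2 0 ∈ W} := (measurable_at 0) hW
  exact h1.inter (measurableSet_ne0.inter (h2.inter (Cell.measurable_InDir _ _ _ _)))

theorem measurableSet_OSI {P : Bd.Prm d} (hE : MeasurableSet P.E) (t : Bool) (v : Zd d) :
    MeasurableSet (OSI P t v) := by
  have h1 : MeasurableSet {x : Ct (Fin d → ℝ) | Vx P.E x} :=
    measurableSet_setOfPred.2 (measurable_Vx hE)
  have h2 : Measurable fun p : Ct (Fin d → ℝ) × Ct (Fin d → ℝ) =>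
      p.1.2 0 - Exg.tr v (p.2.2 0) :=
    ((measurable_at 0).comp measurable_fst).sub
      ((mp_tr v).measurable.comp ((measurable_at 0).comp measurable_snd))
  exact (measurable_fst h1).inter ((measurable_fst measurableSet_ne0).inter
    ((measurable_snd measurableSet_ne0).inter
      ((measurable_fst (Cell.measurable_InDir _ _ _ _)).inter (h2 (Cell.measurable_Win _ _ _ _)))))

/-- **ROW G8.** -/
theorem pcsI {P : Bd.Prm d} (hP : P.Ok) (hm : P.Sm) (G : Ng d P.E) {A B : Set (Ct (Fin d → ℝ))}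
    {w : ℝ} (hA : Awy P.E A w) (hB : Awy P.E B w) (hw : P.mB * P.α ≤ w)
    {W : Set (Fin d → ℝ)} (hW : MeasurableSet W)
    (hWw : ∀ z : Fin d → ℝ, (∀ j, 0 ≤ z j ∧ z j < 1) →
      (∃ j, z j < P.mB * P.α ∨ 1 - P.mB * P.α < z j) → z ∈ W)
    {ζ : ℝ} (hζ : ∀ t, 0 ≤ ζ + d * Real.log (2 * P.dl t)) :
    Pcs G.cg A B (odI P.E) (nwI P) (LSI P W) (OSI P) (tlI P ζ) (tOI P ζ) where
  LS_meas := fun t => measurableSet_LSI G.hE hW t
  OS_meas := fun t v => measurableSet_OSI G.hE t v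
  tl_meas := fun t => (measurable_beads.const_sub _).mul_const _
  tO_meas := fun t => (measurable_beads.mul_const _).neg
  split := fun S ω hω hod => by
    obtain ⟨U, t, h1, h2, h3, h4⟩ := splitI hP hm G hA hB hw hWw hζ S ω hω hod
    refine ⟨U, t, h1, h2, h3, le_of_le_of_eq h4 ?_⟩
    congr 1
    refine sum_congr ?_ fun _ _ => rfl
    ext i
    simp only [mem_filter]
    rfl

end Pool.Agent.RC
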