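import Pool.Agent.Lib.MP_09cbbd_rc.CGL

/-!
# Positions of the molecules for the lower bound of the pressure

`Sbx o δ h i`: the boxes for the first bead, saturated with respect to the intervals of length `h` in
the directions `j ≠ i`. For the cube the centres are at the distance `1 + 1 / n`, with `n` molecules in
`n + 1` cells in each direction.
-/

set_option autoImplicit false

namespace Pool.Agent.RC

open MeasureTheory Finset Pool.Agent.StableGas Pool.Agent.SquareWell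

variable {d : ℕ}

/-- Box with corner `o` and side `δ`, saturated in the directions `j ≠ i`. -/
def Sbx (o : Fin d → ℝ) (δ h : ℝ) (i : Fin d) : Set (Fin d → ℝ) :=
  {z | (∀ j, o j ≤ z j ∧ z j < o j + δ) ∧
    ∀ j, j ≠ i → o j ≤ h * ⌊z j / h⌋ ∧ h * (⌊z j / h⌋ + 1) ≤ o j + δ}

theorem measurableSet_Sbx (o : Fin d → ℝ) (δ h : ℝ) (i : Fin d) :
    MeasurableSet (Sbx o δ h i) := by
  have e : Sbx o δ h i = (⋂ j, {z : Fin d → ℝ | o j ≤ z j} ∩ {z : Fin d → ℝ | z j < o j + δ}) ∩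
      ⋂ j, ⋂ (_ : j ≠ i), ({z : Fin d → ℝ | o j ≤ h * (⌊z j / h⌋ : ℤ)} ∩
        {z : Fin d → ℝ | h * ((⌊z j / h⌋ : ℤ) + 1) ≤ o j + δ}) := by
    ext z
    simp only [Sbx, Set.mem_ofPred_eq, Set.mem_inter_iff, Set.mem_iInter]
  rw [e]
  refine (MeasurableSet.iInter fun j => ?_).inter
    (MeasurableSet.iInter fun j => MeasurableSet.iInter fun _ => MeasurableSet.inter ?_ ?_)
  · exact (measurableSet_le measurable_const (measurable_pi_apply j)).inter
      (measurableSet_lt (measurable_pi_apply j) measurable_const)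
  all_goals
    have hf1 : Measurable fun z : Fin d → ℝ => z j := measurable_pi_apply j
    have hf0 : Measurable fun z : Fin d → ℝ => z j / h := hf1.div_const h
    have hf : Measurable fun z : Fin d → ℝ => ((⌊z j / h⌋ : ℤ) : ℝ) :=
      (measurable_from_top (f := fun n : ℤ => (n : ℝ))).comp (Int.measurable_floor.comp hf0)
  · exact measurableSet_le measurable_const (hf.const_mul h)
  · exact measurableSet_le ((hf.add_const 1).const_mul h) measurable_const

/-- The box is invariant under the changes of the coordinates `j ≠ i` which respect the intervals. -/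
theorem Sbx_move {o : Fin d → ℝ} {δ h : ℝ} (hh : 0 < h) {i : Fin d} {z z' : Fin d → ℝ}
    (hz : z ∈ Sbx o δ h i) (h1 : z' i = z i) (h2 : ∀ j, j ≠ i → ⌊z' j / h⌋ = ⌊z j / h⌋) :
    z' ∈ Sbx o δ h i := by
  obtain ⟨ha, hb⟩ := hz
  refine ⟨fun j => ?_, fun j hj => ?_⟩
  · by_cases hj : j = i
    · rw [hj, h1]
      exact ha i
    · have h3 : h * ⌊z' j / h⌋ ≤ z' j := by
        have := Int.floor_le (z' j / h)
        rw [le_div_iff₀ hh] at this
        linarith
      have h4 : z' j < h * (⌊z' j / h⌋ + 1) := by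
        have := Int.lt_floor_add_one (z' j / h)
        rw [div_lt_iff₀ hh] at this
        linarith
      rw [h2 j hj] at h3 h4
      exact ⟨(hb j hj).1.trans h3, h4.trans_le (hb j hj).2⟩
  · rw [h2 j hj]
    exact hb j hj

theorem vol_Sbx {o : Fin d → ℝ} {δ h : ℝ} (hh : 0 < h) (hδ : 2 * h ≤ δ) (i : Fin d) :
    ENNReal.ofReal ((δ - 2 * h) ^ d) ≤ volume (Sbx o δ h i) := by
  have h0 : Set.pi Set.univ (fun j => Set.Ico (o j + h) (o j + δ - h)) ⊆ Sbx o δ h i := by
    intro z hz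
    rw [Set.mem_univ_pi] at hz
    have h1 : ∀ j, o j + h ≤ z j ∧ z j < o j + δ - h := fun j => hz j
    refine ⟨fun j => ⟨by linarith [(h1 j).1], by linarith [(h1 j).2]⟩, fun j _ => ?_⟩
    have h3 : h * ⌊z j / h⌋ ≤ z j := by
      have := Int.floor_le (z j / h)
      rw [le_div_iff₀ hh] at this
      linarith
    have h4 : z j < h * (⌊z j / h⌋ + 1) := by
      have := Int.lt_floor_add_one (z j / h)
      rw [div_lt_iff₀ hh] at this
      linarith
    constructor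
    · have := (h1 j).1
      linarith
    · have := (h1 j).2
      linarith
  refine le_trans (le_of_eq ?_) (measure_mono h0)
  rw [Real.volume_pi_Ico]
  have e : ∀ j, o j + δ - h - (o j + h) = δ - 2 * h := fun j => by ring
  simp only [e]
  rw [prod_const, card_univ, Fintype.card_fin, ENNReal.ofReal_pow (by linarith)]

/-- Offset of the box in the cell `r`. -/
noncomputable def off (n : ℕ) (r : ℤ) : ℝ := r / n + 1 / (4 * n)

theorem off_nonneg {n : ℕ} (hn : 1 ≤ n) {r : ℤ} (hr : 0 ≤ r) : 1 / (4 * (n : ℝ)) ≤ off n r := by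
  have hn' : (0 : ℝ) < n := by exact_mod_cast hn
  have hr' : (0 : ℝ) ≤ r := by exact_mod_cast hr
  unfold off
  have : 0 ≤ (r : ℝ) / n := by positivity
  linarith

theorem off_le {n : ℕ} (hn : 1 ≤ n) {r : ℤ} (hr : r < n) :
    off n r + 1 / (4 * (n : ℝ)) ≤ 1 - 1 / (2 * n) := by
  have hn' : (0 : ℝ) < n := by exact_mod_cast hn
  have hr' : (r : ℝ) ≤ n - 1 := by
    have : r ≤ (n : ℤ) - 1 := by omega
    exact_mod_cast this
  unfold off
  have h1 : (r : ℝ) / n ≤ (n - 1) / n := div_le_div_of_nonneg_right hr' hn'.le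
  have h2 : ((n : ℝ) - 1) / n = 1 - 1 / n := by field_simp
  have h3 : (1 : ℝ) / (4 * n) + 1 / (4 * n) = 1 / n - 1 / (2 * n) := by
    field_simp
    norm_num
  linarith

/-- **The boxes of different cells are far from each other.** -/
theorem off_sep {n : ℕ} (hn : 1 ≤ n) {i j : Zd d} (hij : i ≠ j)
    (hi : ∀ k, i k % ((n + 1 : ℕ) : ℤ) < n) (hj : ∀ k, j k % ((n + 1 : ℕ) : ℤ) < n)
    {z z' : Fin d → ℝ}
    (hz : ∀ k, off n (i k % ((n + 1 : ℕ) : ℤ)) ≤ z k ∧
      z k ≤ off n (i k % ((n + 1 : ℕ) : ℤ)) + 1 / (4 * n))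
    (hz' : ∀ k, off n (j k % ((n + 1 : ℕ) : ℤ)) ≤ z' k ∧
      z' k ≤ off n (j k % ((n + 1 : ℕ) : ℤ)) + 1 / (4 * n)) :
    ∃ k, 1 + 3 / (4 * (n : ℝ)) ≤ |z k - (z' k + ((j - i) k : ℤ))| := by
  have hn' : (0 : ℝ) < n := by exact_mod_cast hn
  -- absolute positions
  have key : ∀ (l : Zd d), (∀ k, l k % ((n + 1 : ℕ) : ℤ) < n) → ∀ k,
      (l k : ℝ) + off n (l k % ((n + 1 : ℕ) : ℤ)) =
      (1 + 1 / n) * ((n * (l k / ((n + 1 : ℕ) : ℤ)) + l k % ((n + 1 : ℕ) : ℤ) : ℤ) : ℝ) +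
        1 / (4 * n) := by
    intro l _ k
    have h1 : (l k : ℝ) = ((n + 1 : ℕ) : ℝ) * ((l k / ((n + 1 : ℕ) : ℤ) : ℤ) : ℝ) +
        ((l k % ((n + 1 : ℕ) : ℤ) : ℤ) : ℝ) := by
      have := Int.mul_ediv_add_emod (l k) ((n + 1 : ℕ) : ℤ)
      exact_mod_cast this.symm
    unfold off
    rw [h1]
    push_cast
    field_simp
    ring
  obtain ⟨k, hk⟩ : ∃ k, i k ≠ j k := by
    by_contra hcon
    push Not at hcon
    exact hij (funext hcon)
  refine ⟨k, ?_⟩
  set J : ℤ := n * (i k / ((n + 1 : ℕ) : ℤ)) + i k % ((n + 1 : ℕ) : ℤ) with hJ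
  set J' : ℤ := n * (j k / ((n + 1 : ℕ) : ℤ)) + j k % ((n + 1 : ℕ) : ℤ) with hJ'
  have hJJ : J ≠ J' := by
    intro h
    have h0 : (0 : ℤ) < ((n + 1 : ℕ) : ℤ) := by positivity
    have a1 := Int.emod_nonneg (i k) h0.ne'
    have a2 := Int.emod_nonneg (j k) h0.ne'
    have a3 := hi k
    have a4 := hj k
    have hn0 : (0 : ℤ) < n := by exact_mod_cast hn
    have hq : i k / ((n + 1 : ℕ) : ℤ) = j k / ((n + 1 : ℕ) : ℤ) := by
      by_contra hne
      rcases lt_or_gt_of_ne hne with hlt | hgt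
      · have : (n : ℤ) * (i k / ((n + 1 : ℕ) : ℤ) + 1) ≤ n * (j k / ((n + 1 : ℕ) : ℤ)) :=
          mul_le_mul_of_nonneg_left (by omega) hn0.le
        rw [hJ, hJ'] at h
        nlinarith
      · have : (n : ℤ) * (j k / ((n + 1 : ℕ) : ℤ) + 1) ≤ n * (i k / ((n + 1 : ℕ) : ℤ)) :=
          mul_le_mul_of_nonneg_left (by omega) hn0.le
        rw [hJ, hJ'] at h
        nlinarith
    have hr : i k % ((n + 1 : ℕ) : ℤ) = j k % ((n + 1 : ℕ) : ℤ) := by
      rw [hJ, hJ', hq] at h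
      linarith
    apply hk
    rw [← Int.mul_ediv_add_emod (i k) ((n + 1 : ℕ) : ℤ),
      ← Int.mul_ediv_add_emod (j k) ((n + 1 : ℕ) : ℤ), hq, hr]
  have hJ1 : (1 : ℝ) ≤ |(J : ℝ) - J'| := by
    have h1 : 1 ≤ |J - J'| := Int.one_le_abs (sub_ne_zero.2 hJJ)
    exact_mod_cast h1
  have e : z k - (z' k + ((j - i) k : ℤ)) = (1 + 1 / n) * ((J : ℝ) - J') +
      ((z k - off n (i k % ((n + 1 : ℕ) : ℤ))) - (z' k - off n (j k % ((n + 1 : ℕ) : ℤ)))) := by
    have h1 := key i hi k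
    have h2 := key j hj k
    rw [← hJ] at h1
    rw [← hJ'] at h2
    rw [Pi.sub_apply, Int.cast_sub]
    linarith
  rw [e]
  have h1 : |(z k - off n (i k % ((n + 1 : ℕ) : ℤ))) - (z' k - off n (j k % ((n + 1 : ℕ) : ℤ)))| ≤
      1 / (4 * n) := by
    have b1 := hz k
    have b2 := hz' k
    rw [abs_le]
    constructor <;> linarith
  have h2 : (1 + 1 / (n : ℝ)) ≤ |(1 + 1 / n) * ((J : ℝ) - J')| := by
    rw [abs_mul, abs_of_pos (by positivity : (0 : ℝ) < 1 + 1 / n)]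
    exact le_mul_of_one_le_right (by positivity) hJ1
  have h3 := abs_sub_abs_le_abs_sub ((1 + 1 / n) * ((J : ℝ) - J'))
    (-((z k - off n (i k % ((n + 1 : ℕ) : ℤ))) - (z' k - off n (j k % ((n + 1 : ℕ) : ℤ)))))
  rw [abs_neg, sub_neg_eq_add] at h3
  have h4 : (1 : ℝ) / n = 3 / (4 * n) + 1 / (4 * n) := by
    field_simp
    norm_num
  linarith

end Pool.Agent.RC
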