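import Pool.Agent.Lib.MP_09cbbd_ex.Mod

/-!
# Moving a content inside its `h`-cell

All beads of a content are translated in the direction `i` by `θ` or `θ - h`, such that the
coordinate of the first bead stays in its interval `[h n, h n + h)`, where it is rotated by `θ`.
-/

set_option autoImplicit false

namespace Pool.Agent.RC

open MeasureTheory Finset Pool.Agent.SquareWellGas Pool.Agent.StableGas Pool.Agent.Exg
  Pool.Agent.SquareWell.ModA Pool.Agent.Mix Ct

/-! ### One dimension -/

/-- The displacement. -/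
noncomputable def rs (h θ t : ℝ) : ℝ := if h * Int.fract (t / h) + θ < h then θ else θ - h

variable {h θ t : ℝ}

theorem fract_bds (hh : 0 < h) (t : ℝ) : 0 ≤ h * Int.fract (t / h) ∧ h * Int.fract (t / h) < h := by
  constructor
  · exact mul_nonneg hh.le (Int.fract_nonneg _)
  · calc h * Int.fract (t / h) < h * 1 := mul_lt_mul_of_pos_left (Int.fract_lt_one _) hh
      _ = h := mul_one h

theorem base_add (hh : 0 < h) (t : ℝ) : h * ⌊t / h⌋ + h * Int.fract (t / h) = t := by
  rw [← mul_add, Int.floor_add_fract]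
  field_simp

theorem abs_rs_le (hh : 0 < h) (h0 : 0 ≤ θ) (h1 : θ < h) (t : ℝ) : |rs h θ t| ≤ h := by
  unfold rs
  split_ifs
  · rw [abs_le]
    constructor <;> linarith
  · rw [abs_le]
    constructor <;> linarith

theorem rs_mem (h0 : 0 ≤ θ) (h1 : θ < h) (t : ℝ) :
    0 ≤ h * Int.fract (t / h) + rs h θ t ∧ h * Int.fract (t / h) + rs h θ t < h := by
  have hh : 0 < h := h0.trans_lt h1
  have h2 := fract_bds hh t
  unfold rs
  split_ifs with h3
  · constructor <;> linarith
  · push Not at h3
    constructor <;> linarith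

theorem floor_rs (h0 : 0 ≤ θ) (h1 : θ < h) (t : ℝ) : ⌊(t + rs h θ t) / h⌋ = ⌊t / h⌋ := by
  have hh : 0 < h := h0.trans_lt h1
  have h2 := rs_mem h0 h1 t
  have h3 := base_add hh t
  rw [Int.floor_eq_iff]
  have h4 : (t + rs h θ t) / h = ⌊t / h⌋ + (h * Int.fract (t / h) + rs h θ t) / h := by
    have h5 : t + rs h θ t = h * ⌊t / h⌋ + (h * Int.fract (t / h) + rs h θ t) := by linarith
    rw [h5, add_div, mul_div_cancel_left₀ _ hh.ne']
  rw [h4]
  constructor
  · have := div_nonneg h2.1 hh.le
    linarith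
  · have := (div_lt_one hh).2 h2.2
    linarith

theorem measurable_rs (h : ℝ) : Measurable fun p : ℝ × ℝ => rs h p.1 p.2 := by
  unfold rs
  have h1 : Measurable fun p : ℝ × ℝ => h * Int.fract (p.2 / h) :=
    (measurable_fract.comp (measurable_snd.div_const h)).const_mul h
  exact Measurable.ite (measurableSet_lt (h1.add measurable_fst) measurable_const) measurable_fst
    (measurable_fst.sub measurable_const)

/-- The rotation preserves the Lebesgue measure of the interval. -/
theorem volume_rot (hh : 0 < h) (t : ℝ) {G : Set ℝ} (hG : MeasurableSet G) :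
    volume {θ : ℝ | θ ∈ Set.Ico 0 h ∧ t + rs h θ t ∈ G} =
      volume (G ∩ Set.Ico (h * ⌊t / h⌋) (h * ⌊t / h⌋ + h)) := by
  set c : ℝ := h * ⌊t / h⌋ with hc
  have h2 := fract_bds hh t
  have h3 := base_add hh t
  rw [← hc] at h3
  have e1 : {θ : ℝ | θ ∈ Set.Ico 0 h ∧ t + rs h θ t ∈ G} =
      (fun θ : ℝ => θ + t) ⁻¹' (G ∩ Set.Ico t (c + h)) ∪
      (fun θ : ℝ => θ + (t - h)) ⁻¹' (G ∩ Set.Ico c t) := by
    ext θ
    simp only [Set.mem_ofPred_eq, Set.mem_union, Set.mem_preimage, Set.mem_inter_iff, Set.mem_Ico]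
    unfold rs
    split_ifs with h4
    · constructor
      · rintro ⟨⟨h5, h6⟩, h7⟩
        left
        rw [add_comm θ t]
        exact ⟨h7, by linarith, by linarith⟩
      · rintro (⟨h5, h6, h7⟩ | ⟨h5, h6, h7⟩)
        · rw [add_comm t θ]
          exact ⟨⟨by linarith, by linarith⟩, h5⟩
        · exfalso
          linarith
    · push Not at h4
      constructor
      · rintro ⟨⟨h5, h6⟩, h7⟩
        right
        have e : θ + (t - h) = t + (θ - h) := by ring
        rw [e]
        exact ⟨h7, by linarith, by linarith⟩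
      · rintro (⟨h5, h6, h7⟩ | ⟨h5, h6, h7⟩)
        · exfalso
          linarith
        · have e : t + (θ - h) = θ + (t - h) := by ring
          rw [e]
          exact ⟨⟨by linarith, by linarith⟩, h5⟩
  have hd : Disjoint ((fun θ : ℝ => θ + t) ⁻¹' (G ∩ Set.Ico t (c + h)))
      ((fun θ : ℝ => θ + (t - h)) ⁻¹' (G ∩ Set.Ico c t)) := by
    rw [Set.disjoint_left]
    rintro θ ⟨_, h5, h6⟩ ⟨_, h7, h8⟩
    linarith
  have hd2 : Disjoint (G ∩ Set.Ico t (c + h)) (G ∩ Set.Ico c t) := by
    rw [Set.disjoint_left]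
    rintro θ ⟨_, h5, h6⟩ ⟨_, h7, h8⟩
    linarith
  have e2 : G ∩ Set.Ico c (c + h) = (G ∩ Set.Ico t (c + h)) ∪ (G ∩ Set.Ico c t) := by
    ext y
    simp only [Set.mem_inter_iff, Set.mem_Ico, Set.mem_union]
    constructor
    · rintro ⟨h5, h6, h7⟩
      by_cases h8 : y < t
      · exact Or.inr ⟨h5, h6, h8⟩
      · exact Or.inl ⟨h5, not_lt.1 h8, h7⟩
    · rintro (⟨h5, h6, h7⟩ | ⟨h5, h6, h7⟩)
      · exact ⟨h5, by linarith, h7⟩
      · exact ⟨h5, h6, by linarith⟩
  rw [e1, e2, measure_union hd ((measurable_add_const (t - h)) (hG.inter measurableSet_Ico)),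
    measure_union hd2 (hG.inter measurableSet_Ico), measure_preimage_add_right,
    measure_preimage_add_right]

/-! ### Contents -/

variable {d : ℕ}

/-- The map on configurations of `n + 1` points. -/
noncomputable def Tn (h : ℝ) (i : Fin d) (θ : ℝ) {n : ℕ} (u : Fin (n + 1) → Fin d → ℝ) :
    Fin (n + 1) → Fin d → ℝ := fun k => u k + Pi.single i (rs h θ (u 0 i))

/-- It preserves the Lebesgue measure. -/
theorem mp_Tn (h0 : 0 ≤ θ) (h1 : θ < h) (i : Fin d) (n : ℕ) :
    MeasurePreserving (Tn h i θ (n := n)) volume volume := by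
  have hh : 0 < h := h0.trans_lt h1
  set c1 : Fin (n + 1) → Fin d → ℝ := fun _ => Pi.single i θ with hc1
  set c2 : Fin (n + 1) → Fin d → ℝ := fun _ => Pi.single i (θ - h) with hc2
  set S : Set (Fin (n + 1) → Fin d → ℝ) := {u | h * Int.fract (u 0 i / h) + θ < h} with hS
  have hm0 : Measurable fun u : Fin (n + 1) → Fin d → ℝ => u 0 i :=
    (measurable_pi_apply i).comp (measurable_pi_apply 0)
  have hmf : Measurable fun u : Fin (n + 1) → Fin d → ℝ => h * Int.fract (u 0 i / h) :=
    (measurable_fract.comp (hm0.div_const h)).const_mul h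
  have hSm : MeasurableSet S := measurableSet_lt (hmf.add_const θ) measurable_const
  have hTm : Measurable (Tn h i θ (n := n)) := by
    unfold Tn
    refine measurable_pi_lambda _ fun k => (measurable_pi_apply k).add ?_
    refine measurable_pi_lambda _ fun j => ?_
    by_cases hj : j = i
    · subst hj
      simp only [Pi.single_eq_same]
      exact (measurable_rs h).comp (measurable_const.prodMk hm0)
    · simp only [Pi.single_eq_of_ne hj]
      exact measurable_const
  refine ⟨hTm, ?_⟩
  ext B hB
  rw [Measure.map_apply hTm hB]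
  set D : Set (Fin (n + 1) → Fin d → ℝ) := {u | θ ≤ h * Int.fract (u 0 i / h)} with hD
  have hDm : MeasurableSet D := measurableSet_le measurable_const hmf
  have e1 : Tn h i θ ⁻¹' B = (fun u => u + c1) ⁻¹' (B ∩ D) ∪ (fun u => u + c2) ⁻¹' (B ∩ Dᶜ) := by
    ext u
    have key : ∀ s : ℝ, h * Int.fract ((u 0 i + s) / h) =
        h * Int.fract (u 0 i / h + s / h) := by
      intro s
      rw [add_div]
    have hu := fract_bds hh (u 0 i)
    have hf1 : (u + c1) 0 i = u 0 i + θ := by
      simp [hc1]
    have hf2 : (u + c2) 0 i = u 0 i + (θ - h) := by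
      simp [hc2]
    have hfr : ∀ s : ℝ, 0 ≤ h * Int.fract (u 0 i / h) + s → h * Int.fract (u 0 i / h) + s < h →
        h * Int.fract ((u 0 i + s) / h) = h * Int.fract (u 0 i / h) + s := by
      intro s hs1 hs2
      have h5 := base_add hh (u 0 i)
      have h6 : (u 0 i + s) / h = ⌊u 0 i / h⌋ + (h * Int.fract (u 0 i / h) + s) / h := by
        rw [eq_comm, eq_div_iff hh.ne', add_mul, div_mul_cancel₀ _ hh.ne']
        linarith
      rw [h6, Int.fract_intCast_add, Int.fract_eq_self.2]
      · field_simp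
      · exact ⟨div_nonneg hs1 hh.le, (div_lt_one hh).2 hs2⟩
    simp only [Set.mem_preimage, Set.mem_union, Set.mem_inter_iff, Set.mem_compl_iff]
    by_cases h4 : h * Int.fract (u 0 i / h) + θ < h
    · have e2 : Tn h i θ u = u + c1 := by
        unfold Tn rs
        rw [if_pos h4]
        rfl
      have e3 : (u + c1) ∈ D := by
        rw [hD, Set.mem_ofPred_eq, hf1, hfr θ (by linarith) h4]
        linarith
      have e4 : (u + c2) ∈ D := by
        rw [hD, Set.mem_ofPred_eq, hf2]
        have e5 : (u 0 i + (θ - h)) / h = (u 0 i + θ) / h - 1 := by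
          field_simp
          ring
        rw [e5, Int.fract_sub_one, hfr θ (by linarith) h4]
        linarith
      rw [e2]
      constructor
      · intro h6
        exact Or.inl ⟨h6, e3⟩
      · rintro (h6 | h6)
        · exact h6.1
        · exact (h6.2 e4).elim
    · have h5 := not_lt.1 h4
      have e2 : Tn h i θ u = u + c2 := by
        unfold Tn rs
        rw [if_neg h4]
        rfl
      have e5 := hfr (θ - h) (by linarith) (by linarith)
      have e3 : (u + c2) ∉ D := by
        rw [hD, Set.mem_ofPred_eq, hf2, e5, not_le]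
        linarith
      have e4 : (u + c1) ∉ D := by
        rw [hD, Set.mem_ofPred_eq, hf1, not_le]
        have e6 : (u 0 i + θ) / h = (u 0 i + (θ - h)) / h + 1 := by
          field_simp
          ring
        rw [e6, Int.fract_add_one, e5]
        linarith
      rw [e2]
      constructor
      · intro h6
        exact Or.inr ⟨h6, e3⟩
      · rintro (h6 | h6)
        · exact (e4 h6.2).elim
        · exact h6.1
  have hd : Disjoint ((fun u => u + c1) ⁻¹' (B ∩ D)) ((fun u => u + c2) ⁻¹' (B ∩ Dᶜ)) := by
    rw [Set.disjoint_left]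
    rintro u ⟨_, h5⟩ ⟨_, h6⟩
    refine h6 ?_
    have e5 : (u + c1) 0 i = u 0 i + θ := by simp [hc1]
    have e6 : (u + c2) 0 i = u 0 i + (θ - h) := by simp [hc2]
    have h5' : θ ≤ h * Int.fract ((u + c1) 0 i / h) := h5
    show θ ≤ h * Int.fract ((u + c2) 0 i / h)
    rw [e5] at h5'
    rw [e6]
    have e7 : (u 0 i + (θ - h)) / h = (u 0 i + θ) / h - 1 := by
      field_simp
      ring
    rw [e7, Int.fract_sub_one]
    exact h5'
  rw [e1, measure_union hd ((measurable_add_const c2) (hB.inter hDm.compl)),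
    measure_preimage_add_right, measure_preimage_add_right,
    ← measure_union (Set.disjoint_left.2 fun u h5 h6 => h6.2 h5.2) (hB.inter hDm.compl)]
  congr 1
  ext u
  simp only [Set.mem_union, Set.mem_inter_iff, Set.mem_compl_iff]
  tauto

/-- The move of several coordinates. -/
noncomputable def TS (h : ℝ) (S : Finset (Fin d)) (θ : ℝ) {n : ℕ} (u : Fin (n + 1) → Fin d → ℝ) :
    Fin (n + 1) → Fin d → ℝ := fun k => u k + fun j => if j ∈ S then rs h θ (u 0 j) else 0

theorem TS_insert (h θ : ℝ) {S : Finset (Fin d)} {i : Fin d} (hi : i ∉ S) {n : ℕ}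
    (u : Fin (n + 1) → Fin d → ℝ) : TS h (insert i S) θ u = Tn h i θ (TS h S θ u) := by
  have e0 : TS h S θ u 0 i = u 0 i := by
    show u 0 i + (if i ∈ S then rs h θ (u 0 i) else 0) = u 0 i
    rw [if_neg hi, add_zero]
  funext k j
  show u k j + (if j ∈ insert i S then rs h θ (u 0 j) else 0) =
    u k j + (if j ∈ S then rs h θ (u 0 j) else 0) +
      (Pi.single i (rs h θ (TS h S θ u 0 i)) : Fin d → ℝ) j
  rw [e0]
  by_cases hj : j = i
  · subst hj
    rw [if_pos (mem_insert_self j S), if_neg hi, Pi.single_eq_same, add_zero]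
  · rw [Pi.single_eq_of_ne hj, add_zero]
    by_cases hj' : j ∈ S
    · rw [if_pos (mem_insert_of_mem hj'), if_pos hj']
    · rw [if_neg (fun h => (mem_insert.1 h).elim hj hj'), if_neg hj']

/-- It preserves the Lebesgue measure. -/
theorem mp_TS (h0 : 0 ≤ θ) (h1 : θ < h) (S : Finset (Fin d)) (n : ℕ) :
    MeasurePreserving (TS h S θ (n := n)) volume volume := by
  induction S using Finset.induction_on with
  | empty =>
    have e : TS h (∅ : Finset (Fin d)) θ (n := n) = id := by
      funext u k j
      show u k j + (if j ∈ (∅ : Finset (Fin d)) then rs h θ (u 0 j) else 0) = u k j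
      rw [if_neg (notMem_empty j), add_zero]
    rw [e]
    exact MeasurePreserving.id _
  | insert i S hi ih =>
    have e : TS h (insert i S) θ (n := n) = Tn h i θ ∘ TS h S θ := by
      funext u
      exact TS_insert h θ hi u
    rw [e]
    exact (mp_Tn h0 h1 i n).comp ih

end Pool.Agent.RC
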