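import Pool.Agent.Lib.MP_09cbbd_rc.CubR

/-!
# Sequential integration

The cells are integrated one after the other, the lexicographically largest cell first.
-/

set_option autoImplicit false

namespace Pool.Agent.RC

open MeasureTheory Finset Filter Topology Pool.Agent.StableGas
open Pool.Agent.SquareWell hiding Md cut

variable {d : ℕ} {E : Type} [MeasurableSpace E] {M : CG d E}

theorem seq_av {N : Set E} (hN : MeasurableSet N) (X : Finset (Zd d))
    {g : Zd d → (Zd d → E) → ENNReal} (hg : ∀ i ∈ X, Measurable (g i))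
    (hdep : ∀ i ∈ X, ∀ ω ω' : Zd d → E,
      (∀ j ∈ X, toLex j ≤ toLex i → ω j = ω' j) → g i ω = g i ω')
    {K : Zd d → ENNReal}
    (hK : ∀ i ∈ X, ∀ ω : Zd d → E, (∀ j ∈ X, toLex j < toLex i → ω j ∉ N) →
      ∫⁻ x, g i (Function.update ω i x) ∂M.π ≤ K i) :
    M.int X (fun ω => (∏ i ∈ X, g i ω) * av N X ω) ≤ ∏ i ∈ X, K i := by
  classical
  have := M.fin_π
  unfold CG.int
  induction X using Finset.induction_on_max_value (f := fun i : Zd d => toLex i) with
  | empty =>
    rw [lmarginal_empty]
    unfold av
    simp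
  | insert i X hi hle ih =>
    have hmax : ∀ j ∈ X, toLex j < toLex i := by
      intro j hj
      refine lt_of_le_of_ne (hle j hj) fun h => hi ?_
      rw [← toLex.injective h]
      exact hj
    have hgX : ∀ j ∈ X, Measurable (g j) := fun j hj => hg j (mem_insert_of_mem hj)
    have hdepX : ∀ j ∈ X, ∀ ω ω' : Zd d → E,
        (∀ l ∈ X, toLex l ≤ toLex j → ω l = ω' l) → g j ω = g j ω' := by
      intro j hj ω ω' h
      refine hdep j (mem_insert_of_mem hj) ω ω' fun l hl hlj => ?_
      rcases mem_insert.1 hl with rfl | hl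
      · exact absurd hlj (not_le.2 (hmax j hj))
      · exact h l hl hlj
    have hKX : ∀ j ∈ X, ∀ ω : Zd d → E, (∀ l ∈ X, toLex l < toLex j → ω l ∉ N) →
        ∫⁻ x, g j (Function.update ω j x) ∂M.π ≤ K j := by
      intro j hj ω h
      refine hK j (mem_insert_of_mem hj) ω fun l hl hlj => ?_
      rcases mem_insert.1 hl with rfl | hl
      · exact absurd hlj (not_lt_of_gt (hmax j hj))
      · exact h l hl hlj
    have ih' := ih hgX hdepX hKX
    have hF : ∀ Y : Finset (Zd d), Y ⊆ insert i X →
        Measurable fun ω => (∏ j ∈ Y, g j ω) * av N Y ω := fun Y hY =>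
      (Finset.measurable_prod _ fun j hj => hg j (hY hj)).mul (measurable_av hN Y)
    rw [lmarginal_insert' _ (hF _ (Finset.Subset.refl _)) hi]
    have h1 : ∀ ω : Zd d → E, ∫⁻ x, (∏ j ∈ insert i X, g j (Function.update ω i x)) *
        av N (insert i X) (Function.update ω i x) ∂M.π ≤
        K i * ((∏ j ∈ X, g j ω) * av N X ω) := by
      intro ω
      by_cases hgood : ∀ j ∈ X, ω j ∉ N
      · have e : av N X ω = 1 := if_pos hgood
        rw [e, mul_one]
        have e2 : ∀ x, ∏ j ∈ X, g j (Function.update ω i x) = ∏ j ∈ X, g j ω := by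
          intro x
          refine prod_congr rfl fun j hj => hdepX j hj _ _ fun l hl _ => ?_
          have hli : l ≠ i := fun h => hi (by rw [← h]; exact hl)
          rw [Function.update_of_ne hli]
        have hgi : Measurable fun x => g i (Function.update ω i x) :=
          (hg i (mem_insert_self i X)).comp (measurable_update ω (a := i))
        calc ∫⁻ x, (∏ j ∈ insert i X, g j (Function.update ω i x)) *
              av N (insert i X) (Function.update ω i x) ∂M.π
            ≤ ∫⁻ x, g i (Function.update ω i x) * ∏ j ∈ X, g j ω ∂M.π := by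
              refine lintegral_mono fun x => ?_
              calc (∏ j ∈ insert i X, g j (Function.update ω i x)) *
                    av N (insert i X) (Function.update ω i x)
                  ≤ (∏ j ∈ insert i X, g j (Function.update ω i x)) * 1 := by
                    refine mul_le_mul' le_rfl ?_
                    unfold av
                    split_ifs
                    · exact le_rfl
                    · exact zero_le
                _ = g i (Function.update ω i x) * ∏ j ∈ X, g j ω := by
                    rw [mul_one, prod_insert hi, e2]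
          _ = (∫⁻ x, g i (Function.update ω i x) ∂M.π) * ∏ j ∈ X, g j ω :=
              lintegral_mul_const _ hgi
          _ ≤ K i * ∏ j ∈ X, g j ω := by
              refine mul_le_mul' (hK i (mem_insert_self i X) ω fun j hj hji => ?_) le_rfl
              rcases mem_insert.1 hj with rfl | hj
              · exact absurd hji (lt_irrefl _)
              · exact hgood j hj
      · have e : ∀ x, av N (insert i X) (Function.update ω i x) = 0 := by
          intro x
          refine if_neg fun h2 => hgood fun j hj => ?_
          have h3 := h2 j (mem_insert_of_mem hj)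
          have h4 : j ≠ i := fun h4 => hi (by rw [← h4]; exact hj)
          rwa [Function.update_of_ne h4] at h3
        simp only [e, mul_zero, lintegral_zero]
        exact zero_le
    refine (lmarginal_mono h1 _).trans ?_
    have h2 : lmarginal (fun _ : Zd d => M.π) X
        (fun ω => K i * ((∏ j ∈ X, g j ω) * av N X ω)) (fun _ => M.e0) =
        K i * lmarginal (fun _ : Zd d => M.π) X
          (fun ω => (∏ j ∈ X, g j ω) * av N X ω) (fun _ => M.e0) :=
      M.lm_const_mul X (hF X (subset_insert i X)) (K i) _
    rw [h2, prod_insert hi]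
    exact mul_le_mul' le_rfl ih'

/-- **Sequential integration.** The factor `g i` depends on the contents of the cells up to `i`, and
its integral over the content of `i` is at most `K i` whenever the contents before are not in the
null set `N`. -/
theorem seq_le {N : Set E} (hN : MeasurableSet N) (hN0 : M.π N = 0) (X : Finset (Zd d))
    {g : Zd d → (Zd d → E) → ENNReal} (hg : ∀ i ∈ X, Measurable (g i))
    (hdep : ∀ i ∈ X, ∀ ω ω' : Zd d → E,
      (∀ j ∈ X, toLex j ≤ toLex i → ω j = ω' j) → g i ω = g i ω')
    {K : Zd d → ENNReal}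
    (hK : ∀ i ∈ X, ∀ ω : Zd d → E, (∀ j ∈ X, toLex j < toLex i → ω j ∉ N) →
      ∫⁻ x, g i (Function.update ω i x) ∂M.π ≤ K i) :
    M.int X (fun ω => ∏ i ∈ X, g i ω) ≤ ∏ i ∈ X, K i := by
  rw [int_av hN0 X]
  exact seq_av hN X hg hdep hK

/-- **Sequential integration with patterns.** -/
theorem seq_pat {N : Set E} (hN : MeasurableSet N) (hN0 : M.π N = 0) (X : Finset (Zd d))
    {τ : Type} (T : Finset τ) {F : (Zd d → E) → ENNReal}
    {g : τ → Zd d → (Zd d → E) → ENNReal} (hg : ∀ t ∈ T, ∀ i ∈ X, Measurable (g t i))
    (hdep : ∀ t ∈ T, ∀ i ∈ X, ∀ ω ω' : Zd d → E,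
      (∀ j ∈ X, toLex j ≤ toLex i → ω j = ω' j) → g t i ω = g t i ω')
    {K : τ → Zd d → ENNReal}
    (hK : ∀ t ∈ T, ∀ i ∈ X, ∀ ω : Zd d → E, (∀ j ∈ X, toLex j < toLex i → ω j ∉ N) →
      ∫⁻ x, g t i (Function.update ω i x) ∂M.π ≤ K t i)
    (hF : ∀ ω : Zd d → E, (∀ j ∈ X, ω j ∉ N) → F ω ≤ ∑ t ∈ T, ∏ i ∈ X, g t i ω) :
    M.int X F ≤ ∑ t ∈ T, ∏ i ∈ X, K t i := by
  classical
  have h1 : ∀ t ∈ T, Measurable fun ω : Zd d → E => (∏ i ∈ X, g t i ω) * av N X ω := fun t ht =>
    (Finset.measurable_prod _ fun i hi => hg t ht i hi).mul (measurable_av hN X)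
  calc M.int X F = M.int X fun ω => F ω * av N X ω := int_av hN0 X F
    _ ≤ M.int X fun ω => ∑ t ∈ T, (∏ i ∈ X, g t i ω) * av N X ω := by
        refine M.int_mono X fun ω => ?_
        by_cases h : ∀ j ∈ X, ω j ∉ N
        · have e : av N X ω = 1 := if_pos h
          simp only [e, mul_one]
          exact hF ω h
        · have e : av N X ω = 0 := if_neg h
          rw [e, mul_zero]
          exact zero_le
    _ = ∑ t ∈ T, M.int X fun ω => (∏ i ∈ X, g t i ω) * av N X ω := M.int_sum T h1
    _ ≤ _ := sum_le_sum fun t ht => seq_av hN X (hg t ht) (hdep t ht) (hK t ht)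

end Pool.Agent.RC
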