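import Pool.Agent.Lib.MP_09cbbd_rc.Geo

/-!
# Thin sets of reals
-/

set_option autoImplicit false

namespace Pool.Agent.RC

open MeasureTheory

theorem Thin.empty (h : ℝ) : Thin h 0 ∅ :=
  ⟨MeasurableSet.empty, fun x => by rw [Set.empty_inter, measure_empty]; exact bot_le⟩

theorem Thin.union {h ε ε' : ℝ} {J J' : Set ℝ} (hh : 0 ≤ h) (h1 : 0 ≤ ε) (h2 : 0 ≤ ε')
    (hJ : Thin h ε J) (hJ' : Thin h ε' J') : Thin h (ε + ε') (J ∪ J') := by
  refine ⟨hJ.meas.union hJ'.meas, fun x => ?_⟩
  rw [Set.union_inter_distrib_right, add_mul,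
    ENNReal.ofReal_add (mul_nonneg h1 hh) (mul_nonneg h2 hh)]
  exact (measure_union_le _ _).trans (add_le_add (hJ.vol x) (hJ'.vol x))

theorem Thin.mono {h ε ε' : ℝ} {J : Set ℝ} (hh : 0 ≤ h) (hε : ε ≤ ε') (hJ : Thin h ε J) :
    Thin h ε' J :=
  ⟨hJ.meas, fun x => (hJ.vol x).trans
    (ENNReal.ofReal_le_ofReal (mul_le_mul_of_nonneg_right hε hh))⟩

theorem Thin.biUnion {ι : Type*} [DecidableEq ι] {h : ℝ} (hh : 0 ≤ h) (s : Finset ι) {ε : ι → ℝ}
    {J : ι → Set ℝ} (h0 : ∀ i ∈ s, 0 ≤ ε i) (hJ : ∀ i ∈ s, Thin h (ε i) (J i)) :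
    Thin h (∑ i ∈ s, ε i) (⋃ i ∈ s, J i) := by
  induction s using Finset.induction_on with
  | empty =>
    simp only [Finset.sum_empty, Finset.notMem_empty, Set.iUnion_of_empty, Set.iUnion_empty]
    exact Thin.empty h
  | insert i s hi ih =>
    rw [Finset.sum_insert hi, Finset.set_biUnion_insert]
    refine Thin.union hh (h0 i (Finset.mem_insert_self i s))
      (Finset.sum_nonneg fun j hj => h0 j (Finset.mem_insert_of_mem hj))
      (hJ i (Finset.mem_insert_self i s))
      (ih (fun j hj => h0 j (Finset.mem_insert_of_mem hj))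
        (fun j hj => hJ j (Finset.mem_insert_of_mem hj)))

/-- the periodic set of intervals -/
def Per (h o w : ℝ) : Set ℝ := {x | ∃ i : ℤ, o + h * i ≤ x ∧ x ≤ o + h * i + w}

theorem thin_per {h o w : ℝ} (hh : 0 < h) (hw : 0 ≤ w) : Thin h (w / h) (Per h o w) := by
  have e0 : w / h * h = w := div_mul_cancel₀ w hh.ne'
  refine ⟨?_, fun x => ?_⟩
  · have : Per h o w = ⋃ i : ℤ, Set.Icc (o + h * i) (o + h * i + w) := by
      ext x
      simp only [Per, Set.mem_ofPred_eq, Set.mem_iUnion, Set.mem_Icc]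
    rw [this]
    exact MeasurableSet.iUnion fun i => measurableSet_Icc
  · rw [e0]
    rcases le_or_gt h w with hw' | hw'
    · refine (measure_mono Set.inter_subset_right).trans ?_
      rw [Real.volume_Ico]
      exact ENNReal.ofReal_le_ofReal (by linarith)
    · obtain ⟨i₀, hi₀⟩ : ∃ i₀ : ℤ, i₀ = ⌈(x - o) / h⌉ := ⟨_, rfl⟩
      have h1 : x - o ≤ h * i₀ := by
        have := Int.le_ceil ((x - o) / h)
        rw [← hi₀, div_le_iff₀ hh] at this
        linarith
      have h2 : h * (i₀ - 1) < x - o := by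
        have := Int.ceil_lt_add_one ((x - o) / h)
        rw [← hi₀] at this
        have h3 : (i₀ : ℝ) - 1 < (x - o) / h := by linarith
        rw [lt_div_iff₀ hh] at h3
        linarith
      have hsub : Per h o w ∩ Set.Ico x (x + h) ⊆
          Set.Icc (o + h * i₀) (min (o + h * i₀ + w) (x + h)) ∪
          Set.Icc x (o + h * (i₀ - 1) + w) := by
        rintro z ⟨⟨i, hi1, hi2⟩, hz1, hz2⟩
        have h3 : i ≤ i₀ := by
          by_contra h4
          have h5 : (i₀ : ℝ) + 1 ≤ i := by exact_mod_cast (by omega : i₀ + 1 ≤ i)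
          nlinarith
        have h4 : i₀ - 1 ≤ i := by
          by_contra h4
          have h5 : (i : ℝ) + 1 ≤ i₀ - 1 := by exact_mod_cast (by omega : i + 1 ≤ i₀ - 1)
          nlinarith
        rcases (by omega : i = i₀ ∨ i = i₀ - 1) with rfl | rfl
        · exact Or.inl ⟨hi1, le_min hi2 hz2.le⟩
        · refine Or.inr ⟨hz1, ?_⟩
          push_cast at hi2
          exact hi2
      refine (measure_mono hsub).trans ((measure_union_le _ _).trans ?_)
      rw [Real.volume_Icc, Real.volume_Icc]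
      obtain ⟨t, ht⟩ : ∃ t, t = o + h * i₀ - x := ⟨_, rfl⟩
      have e1 : min (o + h * i₀ + w) (x + h) - (o + h * i₀) = min w (h - t) := by
        rw [← min_sub_sub_right]
        congr 1
        · ring
        · rw [ht]; ring
      have e2 : o + h * (i₀ - 1) + w - x = t - h + w := by rw [ht]; ring
      have ht0 : 0 ≤ t := by linarith
      have ht1 : t < h := by linarith
      rw [e1, e2]
      rcases le_or_gt (t - h + w) 0 with h5 | h5
      · rw [ENNReal.ofReal_of_nonpos h5, add_zero]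
        exact ENNReal.ofReal_le_ofReal (min_le_left _ _)
      · rw [← ENNReal.ofReal_add (le_min hw (by linarith)) h5.le]
        refine ENNReal.ofReal_le_ofReal ?_
        have := min_le_right w (h - t)
        linarith

end Pool.Agent.RC
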