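import Pool.Agent.Lib.MP_09cbbd_rc.Thin
import Pool.Agent.Lib.MP_09cbbd_rc.Pack

/-!
# Rows and columns: the volume of `E ∆ N`
-/

set_option autoImplicit false

namespace Pool.Agent.RC

open MeasureTheory Pointwise Finset

variable {d : ℕ}

namespace VolG

/-- Volume of an open cube. -/
theorem vol_cube (c : Fin d → ℝ) {a : ℝ} (ha : 0 < a) :
    volume {u : Fin d → ℝ | ∀ j, |u j - c j| < a} = ENNReal.ofReal ((2 * a) ^ d) := by
  have h : {u : Fin d → ℝ | ∀ j, |u j - c j| < a} = Metric.ball c a := by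
    ext u
    rw [Metric.mem_ball, dist_pi_lt_iff ha]
    exact forall_congr' fun j => by rw [Real.dist_eq]
  rw [h, Real.volume_pi_ball c ha, Fintype.card_fin]

/-- Volume of the windows. -/
theorem vol_win {i₁ i₂ : Fin d} {m : ℕ} (hm : 1 ≤ m) {α a b : ℝ} (hb : 0 < b) (hba : b ≤ a) :
    volume {u : Fin d → ℝ | Win d i₁ i₂ m α a b u} ≤
      ENNReal.ofReal (4 * (m + 1) * (2 * a) ^ d) := by
  have ha : 0 < a := lt_of_lt_of_le hb hba
  have hsub : {u : Fin d → ℝ | Win d i₁ i₂ m α a b u} ⊆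
      (⋃ k ∈ Finset.Icc (-(m : ℤ)) m,
        {u : Fin d → ℝ | ∀ j, |u j - (if j = i₁ then k * α else 0)| < a}) ∪
      (⋃ k ∈ Finset.Icc (-(m : ℤ)) m,
        {u : Fin d → ℝ | ∀ j, |u j - (if j = i₂ then k * α else 0)| < a}) := by
    rintro u (⟨k, hk1, hk2, hk3⟩ | ⟨k, hk1, hk2, hk3⟩)
    · refine Or.inl (Set.mem_iUnion₂.2 ⟨k, ?_, hk3⟩)
      rw [Finset.mem_Icc]
      rw [abs_lt] at hk2
      constructor <;> omega
    · refine Or.inr (Set.mem_iUnion₂.2 ⟨k, ?_, fun j => lt_of_lt_of_le (hk3 j) hba⟩)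
      rw [Finset.mem_Icc]
      have h2 := abs_lt.1 hk2
      constructor <;> omega
  have hone : ∀ i : Fin d, volume (⋃ k ∈ Finset.Icc (-(m : ℤ)) m,
      {u : Fin d → ℝ | ∀ j, |u j - (if j = i then k * α else 0)| < a}) ≤
      ENNReal.ofReal ((2 * m + 1) * (2 * a) ^ d) := by
    intro i
    refine (measure_biUnion_finset_le _ _).trans ?_
    have h1 : ∀ k ∈ Finset.Icc (-(m : ℤ)) m,
        volume {u : Fin d → ℝ | ∀ j, |u j - (if j = i then k * α else 0)| < a} =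
        ENNReal.ofReal ((2 * a) ^ d) := fun k _ => vol_cube (fun j => if j = i then k * α else 0) ha
    rw [Finset.sum_congr rfl h1, Finset.sum_const, nsmul_eq_mul, Int.card_Icc]
    have h2 : ((m : ℤ) + 1 - -(m : ℤ)).toNat = 2 * m + 1 := by omega
    rw [h2, ENNReal.ofReal_mul (by positivity)]
    refine mul_le_mul_left ?_ _
    rw [← ENNReal.ofReal_natCast]
    exact ENNReal.ofReal_le_ofReal (by push_cast; exact le_rfl)
  refine (measure_mono hsub).trans ((measure_union_le _ _).trans ?_)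
  refine (add_le_add (hone i₁) (hone i₂)).trans ?_
  rw [← ENNReal.ofReal_add (by positivity) (by positivity)]
  refine ENNReal.ofReal_le_ofReal ?_
  have h3 : (0 : ℝ) ≤ (2 * a) ^ d := by positivity
  have h4 : (1 : ℝ) ≤ m := by exact_mod_cast hm
  nlinarith

/-- The hard core is contained in its multiples. -/
theorem sub_smul {N : Set (Fin d → ℝ)} {c : ℝ} {D : ℕ} (hN : Core N c D) {τ : ℝ} (h0 : 0 ≤ τ)
    (h1 : τ ≤ 1) : N ⊆ (1 + τ) • N := by
  intro w hw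
  have h2 : (1 + τ) ≠ 0 := by linarith
  rw [Set.mem_smul_set_iff_inv_smul_mem₀ h2]
  by_contra h3
  have h4 := hN.exp _ h3 τ h0 h1 0 (fun j => by
    rw [Pi.zero_apply, abs_zero]
    exact mul_nonneg hN.c_pos.le h0)
  rw [add_zero, smul_inv_smul₀ h2] at h4
  exact h4 hw

theorem vol_N_lt {N : Set (Fin d → ℝ)} {c : ℝ} {D : ℕ} (hN : Core N c D) : volume N < ⊤ := by
  refine lt_of_le_of_lt (measure_mono (t := Set.pi Set.univ fun _ => Set.Icc (-(D : ℝ)) D) ?_) ?_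
  · intro u hu j _
    exact ⟨(abs_lt.1 (hN.bdd u hu j)).1.le, (abs_lt.1 (hN.bdd u hu j)).2.le⟩
  · rw [volume_pi_pi]
    refine ENNReal.prod_lt_top fun j _ => ?_
    rw [Real.volume_Icc]
    exact ENNReal.ofReal_lt_top

/-- Volume of the shell. -/
theorem vol_shell {N : Set (Fin d → ℝ)} {c : ℝ} {D : ℕ} (hN : Core N c D) {τ : ℝ} (h0 : 0 ≤ τ)
    (h1 : τ ≤ 1) : volume ((1 + τ) • N \ N) ≤
      ENNReal.ofReal (((1 + τ) ^ d - 1) * (volume N).toReal) := by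
  rw [measure_sdiff (sub_smul hN h0 h1) hN.meas.nullMeasurableSet (vol_N_lt hN).ne,
    Measure.addHaar_smul, Module.finrank_fin_fun, abs_of_nonneg (by positivity)]
  conv_lhs => rw [← ENNReal.ofReal_toReal (vol_N_lt hN).ne]
  rw [← ENNReal.ofReal_mul (by positivity), ← ENNReal.ofReal_sub _ ENNReal.toReal_nonneg]
  refine ENNReal.ofReal_le_ofReal (le_of_eq ?_)
  ring

/-- A thin set in an interval. -/
theorem vol_thin {h ε : ℝ} {J : Set ℝ} (hh : 0 < h) (hε : 0 ≤ ε) (hJ : Thin h ε J) {A : ℝ}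
    (hA : 0 ≤ A) : volume (J ∩ Set.Icc (-A) A) ≤ ENNReal.ofReal ((2 * A + h) * ε) := by
  obtain ⟨n, hn⟩ : ∃ n : ℕ, n = ⌊2 * A / h⌋₊ + 1 := ⟨_, rfl⟩
  have hsub : J ∩ Set.Icc (-A) A ⊆ ⋃ i ∈ Finset.range n,
      (J ∩ Set.Ico (-A + i * h) (-A + i * h + h)) := by
    rintro x ⟨hx, hx1, hx2⟩
    have h1 : 0 ≤ (x + A) / h := div_nonneg (by linarith) hh.le
    obtain ⟨i, hi⟩ : ∃ i : ℕ, i = ⌊(x + A) / h⌋₊ := ⟨_, rfl⟩
    have h2 : (i : ℝ) ≤ (x + A) / h := by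
      rw [hi]
      exact Nat.floor_le h1
    have h3 : (x + A) / h < i + 1 := by
      rw [hi]
      exact Nat.lt_floor_add_one _
    rw [le_div_iff₀ hh] at h2
    rw [div_lt_iff₀ hh] at h3
    refine Set.mem_iUnion₂.2 ⟨i, ?_, hx, ?_, ?_⟩
    · rw [Finset.mem_range, hn, Nat.lt_succ_iff, hi]
      exact Nat.floor_le_floor (div_le_div_of_nonneg_right (by linarith) hh.le)
    · linarith
    · linarith
  refine (measure_mono hsub).trans ((measure_biUnion_finset_le _ _).trans ?_)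
  refine (Finset.sum_le_sum fun i _ => hJ.vol _).trans ?_
  rw [Finset.sum_const, card_range, nsmul_eq_mul, ← ENNReal.ofReal_natCast,
    ← ENNReal.ofReal_mul (by positivity)]
  refine ENNReal.ofReal_le_ofReal ?_
  have h4 : (n : ℝ) ≤ 2 * A / h + 1 := by
    rw [hn]
    push_cast
    have := Nat.floor_le (show (0 : ℝ) ≤ 2 * A / h by positivity)
    linarith
  have h5 : (n : ℝ) * h ≤ 2 * A + h := by
    have h6 := mul_le_mul_of_nonneg_right h4 hh.le
    rw [add_mul, div_mul_cancel₀ _ hh.ne', one_mul] at h6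
    exact h6
  calc (n : ℝ) * (ε * h) = (n * h) * ε := by ring
    _ ≤ _ := mul_le_mul_of_nonneg_right h5 hε

/-- The volume of a set with two thin coordinates. -/
theorem vol_two {i₁ i₂ : Fin d} (hne : i₁ ≠ i₂) {J₁ J₂ : Set ℝ} {A G e₁ e₂ : ℝ} (hG : 0 ≤ G)
    (h1 : 0 ≤ e₁) (h2 : 0 ≤ e₂) (hAG : 2 * A ≤ G)
    (hJ₁ : volume (J₁ ∩ Set.Icc (-A) A) ≤ ENNReal.ofReal (G * e₁))
    (hJ₂ : volume (J₂ ∩ Set.Icc (-A) A) ≤ ENNReal.ofReal (G * e₂)) :
    volume {u : Fin d → ℝ | (∀ j, |u j| ≤ A) ∧ u i₁ ∈ J₁ ∧ u i₂ ∈ J₂} ≤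
      ENNReal.ofReal (G ^ d * (e₁ * e₂)) := by
  have hsub : {u : Fin d → ℝ | (∀ j, |u j| ≤ A) ∧ u i₁ ∈ J₁ ∧ u i₂ ∈ J₂} ⊆
      Set.pi Set.univ fun j => (if j = i₁ then J₁ ∩ Set.Icc (-A) A else
        if j = i₂ then J₂ ∩ Set.Icc (-A) A else Set.Icc (-A) A : Set ℝ) := by
    rintro u ⟨hu, hu1, hu2⟩ j _
    have hj : u j ∈ Set.Icc (-A) A := ⟨(abs_le.1 (hu j)).1, (abs_le.1 (hu j)).2⟩
    dsimp only
    split_ifs with h3 h4
    · subst h3
      exact ⟨hu1, hj⟩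
    · subst h4
      exact ⟨hu2, hj⟩
    · exact hj
  refine (measure_mono hsub).trans ?_
  rw [volume_pi_pi]
  have h3 : ∀ j ∈ (Finset.univ : Finset (Fin d)), volume (if j = i₁ then J₁ ∩ Set.Icc (-A) A else
        if j = i₂ then J₂ ∩ Set.Icc (-A) A else Set.Icc (-A) A : Set ℝ) ≤
      ENNReal.ofReal (G * ((if j = i₁ then e₁ else 1) * (if j = i₂ then e₂ else 1))) := by
    intro j _
    split_ifs with h4 h5 h5
    · exact absurd (h4.symm.trans h5) hne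
    · rw [mul_one]
      exact hJ₁
    · rw [one_mul]
      exact hJ₂
    · rw [Real.volume_Icc]
      exact ENNReal.ofReal_le_ofReal (by linarith)
  refine (Finset.prod_le_prod' h3).trans ?_
  rw [← ENNReal.ofReal_prod_of_nonneg]
  · refine ENNReal.ofReal_le_ofReal (le_of_eq ?_)
    rw [Finset.prod_mul_distrib, Finset.prod_mul_distrib, Finset.prod_const, Finset.prod_ite_eq',
      Finset.prod_ite_eq']
    simp
  · intro j _
    refine mul_nonneg hG (mul_nonneg ?_ ?_)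
    · split_ifs
      · exact h1
      · exact zero_le_one
    · split_ifs
      · exact h2
      · exact zero_le_one

/-- The volume of a set with one coordinate in a thin set which depends on another coordinate. -/
theorem vol_sec {i₁ i₂ : Fin d} (hne : i₂ ≠ i₁) {J : ℝ → Set ℝ} {A G e : ℝ} (hA : 0 ≤ A)
    (he : 0 ≤ e) (hAG : 2 * A ≤ G)
    (hJ : ∀ t, volume (J t ∩ Set.Icc (-A) A) ≤ ENNReal.ofReal (G * e))
    {S : Set (Fin d → ℝ)} (hS : MeasurableSet S)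
    (hSJ : ∀ u ∈ S, (∀ j, |u j| ≤ A) ∧ u i₁ ∈ J (u i₂)) :
    volume S ≤ ENNReal.ofReal (G ^ d * e) := by
  obtain ⟨n, rfl⟩ : ∃ n, d = n + 1 := ⟨d - 1, by have := i₁.2; omega⟩
  obtain ⟨j₂, hj₂⟩ := Fin.exists_succAbove_eq hne
  have hG0 : 0 ≤ G := by linarith
  have mp := (volume_preserving_piFinSuccAbove (fun _ : Fin (n + 1) => ℝ) i₁).symm
  rw [← mp.measure_preimage hS.nullMeasurableSet]
  obtain ⟨T, hT⟩ : ∃ T : Set (ℝ × (Fin n → ℝ)),
      T = (MeasurableEquiv.piFinSuccAbove (fun _ : Fin (n + 1) => ℝ) i₁).symm ⁻¹' S := ⟨_, rfl⟩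
  have hTm : MeasurableSet T := by
    rw [hT]
    exact (MeasurableEquiv.piFinSuccAbove (fun _ : Fin (n + 1) => ℝ) i₁).symm.measurable hS
  have hTJ : ∀ (x : ℝ) (y : Fin n → ℝ), (x, y) ∈ T →
      x ∈ J (y j₂) ∩ Set.Icc (-A) A ∧ ∀ j, y j ∈ Set.Icc (-A) A := by
    intro x y hxy
    rw [hT] at hxy
    have h1 : Fin.insertNth i₁ x y ∈ S := hxy
    obtain ⟨h2, h3⟩ := hSJ _ h1
    rw [← hj₂, Fin.insertNth_apply_same, Fin.insertNth_apply_succAbove] at h3
    have h4 := h2 i₁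
    rw [Fin.insertNth_apply_same] at h4
    refine ⟨⟨h3, abs_le.1 h4⟩, fun j => ?_⟩
    have h5 := h2 (i₁.succAbove j)
    rw [Fin.insertNth_apply_succAbove] at h5
    exact abs_le.1 h5
  rw [← hT, Measure.volume_eq_prod, Measure.prod_apply_symm hTm]
  have h1 : ∀ y : Fin n → ℝ, volume ((fun x : ℝ => (x, y)) ⁻¹' T) ≤
      (Set.pi Set.univ fun _ : Fin n => Set.Icc (-A) A).indicator
        (fun _ => ENNReal.ofReal (G * e)) y := by
    intro y
    by_cases hy : y ∈ Set.pi Set.univ fun _ : Fin n => Set.Icc (-A) A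
    · rw [Set.indicator_of_mem hy]
      exact (measure_mono fun x hx => (hTJ x y hx).1).trans (hJ _)
    · rw [Set.indicator_of_notMem hy]
      have h2 : (fun x : ℝ => (x, y)) ⁻¹' T = ∅ := by
        ext x
        simp only [Set.mem_preimage, Set.mem_empty_iff_false, iff_false]
        intro h3
        exact hy fun j _ => (hTJ x y h3).2 j
      rw [h2, measure_empty]
  refine (lintegral_mono h1).trans ?_
  rw [lintegral_indicator_const (MeasurableSet.univ_pi fun _ => measurableSet_Icc), volume_pi_pi]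
  have h3 : ∏ _j : Fin n, volume (Set.Icc (-A) A) ≤ ENNReal.ofReal (G ^ n) := by
    rw [Finset.prod_const, Finset.card_univ, Fintype.card_fin, Real.volume_Icc,
      ENNReal.ofReal_pow hG0]
    exact pow_le_pow_left' (ENNReal.ofReal_le_ofReal (by linarith)) n
  refine (mul_le_mul' le_rfl h3).trans (le_of_eq ?_)
  rw [← ENNReal.ofReal_mul (by positivity)]
  congr 1
  ring

end VolG

open VolG

/-- **The volume of `E ∆ N`, from the axioms.** -/
theorem Geo.vol_symmDiff {i₁ i₂ : Fin d} {m : ℕ} {R α a b β β' τ ε : ℝ}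
    {N E : Set (Fin d → ℝ)} (hE : Geo d i₁ i₂ m R α a b β β' τ ε N E) {c : ℝ} {D : ℕ}
    (hN : Core N c D) (hR : 0 ≤ R) (hε : 0 ≤ ε) (hτ : τ ≤ 1) :
    volume (symmDiff E N) ≤ ENNReal.ofReal (4 * (m + 1) * (2 * a) ^ d +
      ((1 + τ) ^ d - 1) * (volume N).toReal + (4 * R + 7) ^ d * (2 / (m : ℝ) ^ 2 + ε)) := by
  classical
  obtain ⟨J₁, J₂, J₃, hJ₁, -, hJ₃, hJ⟩ := hE.junk
  have hm : (2 : ℝ) ≤ m := by exact_mod_cast hE.hm
  have ha : 0 < a := lt_of_lt_of_le hE.hb hE.hba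
  have hα : 0 < α := by linarith [hE.ha]
  have hα1 : ((m : ℝ) + 1) * α ≤ 1 := by
    have := hE.hα
    nlinarith
  have hβ' : 0 < β' := by linarith [hE.hβ, hE.hββ]
  have h1 : 0 < (m : ℝ) * α := by positivity
  have h2 : 0 < ((m : ℝ) + 1) * α := by positivity
  have hA : 0 ≤ 2 * R + 3 := by linarith
  obtain ⟨G, hG⟩ : ∃ G : ℝ, G = 4 * R + 7 := ⟨_, rfl⟩
  have hG0 : 0 ≤ G := by linarith
  have hNr : ∀ {h : ℝ}, 0 < h → h ≤ 1 →
      volume ({x | Nr h β' x} ∩ Set.Icc (-(2 * R + 3)) (2 * R + 3)) ≤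
        ENNReal.ofReal (G * (2 * β' / h)) := by
    intro h hh hh1
    have h3 : {x | Nr h β' x} ⊆ Per h (-β') (2 * β') := by
      rintro x ⟨i, hi⟩
      rw [abs_le] at hi
      exact ⟨i, by linarith [hi.1], by linarith [hi.2]⟩
    refine (measure_mono (Set.inter_subset_inter_left _ h3)).trans ?_
    refine (vol_thin hh (by positivity) (thin_per hh (by positivity)) hA).trans ?_
    refine ENNReal.ofReal_le_ofReal (mul_le_mul_of_nonneg_right (by linarith) (by positivity))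
  have hJv : ∀ {h e : ℝ} {J : Set ℝ}, 0 < h → h ≤ 1 → 0 ≤ e → Thin h e J →
      volume (J ∩ Set.Icc (-(2 * R + 3)) (2 * R + 3)) ≤ ENNReal.ofReal (G * e) := by
    intro h e J hh hh1 he hJ'
    refine (vol_thin hh he hJ' hA).trans ?_
    exact ENNReal.ofReal_le_ofReal (mul_le_mul_of_nonneg_right (by linarith) he)
  have hmα : (m : ℝ) * α ≤ 1 := by nlinarith
  have e1 := vol_two hE.ne hG0 (by positivity : 0 ≤ 2 * β' / (m * α))
    (by positivity : 0 ≤ 2 * β' / ((m + 1) * α)) (by linarith : 2 * (2 * R + 3) ≤ G)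
    (hNr h1 hmα) (hNr h2 hα1)
  have hα1' : α ≤ 1 := by nlinarith
  have hd : (0 : ℝ) < d := by
    have : 0 < d := (Nat.zero_le _).trans_lt i₁.2
    exact_mod_cast this
  have mbox : MeasurableSet {u : Fin d → ℝ | ∀ j, |u j| ≤ 2 * R + 3} := by
    have e : {u : Fin d → ℝ | ∀ j, |u j| ≤ 2 * R + 3} =
        ⋂ j, {u : Fin d → ℝ | |u j| ≤ 2 * R + 3} := by
      ext u
      simp only [Set.mem_ofPred_eq, Set.mem_iInter]
    rw [e]
    exact MeasurableSet.iInter fun j =>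
      measurableSet_le (measurable_pi_apply j).abs measurable_const
  have mNr : ∀ (i : Fin d) (h : ℝ), MeasurableSet {u : Fin d → ℝ | Nr h β' (u i)} := by
    intro i h
    have e : {u : Fin d → ℝ | Nr h β' (u i)} =
        ⋃ k : ℤ, {u : Fin d → ℝ | |u i - k * h| ≤ β'} := by
      ext u
      simp only [Nr, Set.mem_ofPred_eq, Set.mem_iUnion]
    rw [e]
    exact MeasurableSet.iUnion fun k =>
      measurableSet_le ((measurable_pi_apply i).sub_const _).abs measurable_const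
  have mJ₃ : ∀ l : Fin d, MeasurableSet {u : Fin d → ℝ | u l ∈ J₃} := fun l =>
    (measurable_pi_apply l) hJ₃.meas
  obtain ⟨S, hS⟩ : ∃ S : Set (Fin d → ℝ), S = ((E \ ((1 + τ) • N)) \
      ({u | Nr (m * α) β' (u i₁)} ∩ {u | Nr ((m + 1) * α) β' (u i₂)})) \
      ⋃ l ∈ (Finset.univ.erase i₁ : Finset (Fin d)), {u | u l ∈ J₃} := ⟨_, rfl⟩
  have mS : MeasurableSet S := by
    rw [hS]
    exact ((hE.meas.diff (hN.meas.const_smul₀ _)).diff ((mNr _ _).inter (mNr _ _))).diff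
      (Finset.measurableSet_biUnion _ fun l _ => mJ₃ l)
  have e2 : volume S ≤ ENNReal.ofReal (G ^ d * (ε / 2)) := by
    refine vol_sec hE.ne.symm hA (by positivity) (by linarith : 2 * (2 * R + 3) ≤ G)
      (fun t => hJv h1 hmα (by positivity) (hJ₁ t)) mS fun u hu => ?_
    rw [hS] at hu
    obtain ⟨⟨⟨hu1, hu2⟩, hu3⟩, hu4⟩ := hu
    refine ⟨hE.bdd u hu1, ?_⟩
    rcases hJ u hu1 hu2 with h4 | h4 | ⟨l, h4, -, h5⟩
    · exact absurd ⟨h4.1, h4.2⟩ hu3
    · exact h4.1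
    · exact absurd (Set.mem_iUnion₂.2 ⟨l, mem_erase.2 ⟨h4, mem_univ l⟩, h5⟩) hu4
  have e5 : ∀ l ∈ (Finset.univ.erase i₁ : Finset (Fin d)),
      volume ({u : Fin d → ℝ | ∀ j, |u j| ≤ 2 * R + 3} ∩ {u | u l ∈ J₃}) ≤
        ENNReal.ofReal (G ^ d * (ε / (2 * d))) := fun l hl =>
    vol_sec (J := fun _ => J₃) (mem_erase.1 hl).1.symm hA (by positivity)
      (by linarith : 2 * (2 * R + 3) ≤ G)
      (fun _ => hJv hα hα1' (by positivity) hJ₃) (mbox.inter (mJ₃ l)) fun u hu => ⟨hu.1, hu.2⟩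
  have e6 : volume (⋃ l ∈ (Finset.univ.erase i₁ : Finset (Fin d)),
      ({u : Fin d → ℝ | ∀ j, |u j| ≤ 2 * R + 3} ∩ {u | u l ∈ J₃})) ≤
        ENNReal.ofReal (G ^ d * (ε / 2)) := by
    refine (measure_biUnion_finset_le _ _).trans ((Finset.sum_le_sum e5).trans ?_)
    rw [Finset.sum_const, nsmul_eq_mul, ← ENNReal.ofReal_natCast,
      ← ENNReal.ofReal_mul (by positivity)]
    refine ENNReal.ofReal_le_ofReal ?_
    have h3 : ((Finset.univ.erase i₁ : Finset (Fin d)).card : ℝ) ≤ d := by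
      have : (Finset.univ.erase i₁ : Finset (Fin d)).card ≤ d := by
        refine (card_le_card (erase_subset _ _)).trans (le_of_eq ?_)
        rw [card_univ, Fintype.card_fin]
      exact_mod_cast this
    calc ((Finset.univ.erase i₁ : Finset (Fin d)).card : ℝ) * (G ^ d * (ε / (2 * d))) ≤
          d * (G ^ d * (ε / (2 * d))) := mul_le_mul_of_nonneg_right h3 (by positivity)
      _ = G ^ d * (ε / 2) := by field_simp
  have e3 := vol_shell hN hE.hτ hτ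
  have e4 := vol_win (d := d) (i₁ := i₁) (i₂ := i₂) (m := m) (α := α) (by linarith [hE.hm])
    hE.hb hE.hba
  have hsub : symmDiff E N ⊆ {u : Fin d → ℝ | Win d i₁ i₂ m α a b u} ∪
      (((1 + τ) • N \ N) ∪
      ({u : Fin d → ℝ | (∀ j, |u j| ≤ 2 * R + 3) ∧ u i₁ ∈ {x | Nr (m * α) β' x} ∧
        u i₂ ∈ {x | Nr ((m + 1) * α) β' x}} ∪
      (S ∪ ⋃ l ∈ (Finset.univ.erase i₁ : Finset (Fin d)),
      ({u : Fin d → ℝ | ∀ j, |u j| ≤ 2 * R + 3} ∩ {u | u l ∈ J₃})))) := by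
    rintro u (⟨hu, hu'⟩ | ⟨hu, hu'⟩)
    · by_cases h3 : u ∈ (1 + τ) • N
      · exact Or.inr (Or.inl ⟨h3, hu'⟩)
      · by_cases h4 : u ∈ ({u | Nr (m * α) β' (u i₁)} ∩ {u | Nr ((m + 1) * α) β' (u i₂)} :
            Set (Fin d → ℝ))
        · exact Or.inr (Or.inr (Or.inl ⟨hE.bdd u hu, h4.1, h4.2⟩))
        · by_cases h5 : u ∈ ⋃ l ∈ (Finset.univ.erase i₁ : Finset (Fin d)),
              {u : Fin d → ℝ | u l ∈ J₃}
          · refine Or.inr (Or.inr (Or.inr (Or.inr ?_)))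
            rw [Set.mem_iUnion₂] at h5 ⊢
            obtain ⟨l, hl, h6⟩ := h5
            exact ⟨l, hl, hE.bdd u hu, h6⟩
          · refine Or.inr (Or.inr (Or.inr (Or.inl ?_)))
            rw [hS]
            exact ⟨⟨⟨hu, h3⟩, h4⟩, h5⟩
    · exact Or.inl (hE.near u hu hu')
  refine (measure_mono hsub).trans ?_
  refine (measure_union_le _ _).trans ((add_le_add e4 ((measure_union_le _ _).trans
    (add_le_add e3 ((measure_union_le _ _).trans (add_le_add e1 ((measure_union_le _ _).trans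
    (add_le_add e2 e6))))))).trans ?_)
  have hτ0 := hE.hτ
  have p1 : 0 ≤ 4 * ((m : ℝ) + 1) * (2 * a) ^ d := by positivity
  have p2 : 0 ≤ ((1 + τ) ^ d - 1) * (volume N).toReal :=
    mul_nonneg (by linarith [one_le_pow₀ (show (1 : ℝ) ≤ 1 + τ by linarith) (n := d)])
      ENNReal.toReal_nonneg
  have p3 : 0 ≤ G ^ d * (2 * β' / (m * α) * (2 * β' / ((m + 1) * α))) := by positivity
  have p5 : 0 ≤ G ^ d * (ε / 2) := by positivity
  have p4 : 0 ≤ G ^ d * (ε / 2) + G ^ d * (ε / 2) := add_nonneg p5 p5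
  rw [← ENNReal.ofReal_add p5 p5, ← ENNReal.ofReal_add p3 p4,
    ← ENNReal.ofReal_add p2 (add_nonneg p3 p4),
    ← ENNReal.ofReal_add p1 (add_nonneg p2 (add_nonneg p3 p4))]
  refine ENNReal.ofReal_le_ofReal ?_
  have h5 : 2 * β' / (m * α) * (2 * β' / ((m + 1) * α)) ≤ 2 / (m : ℝ) ^ 2 := by
    have h6 : 2 * β' / (m * α) ≤ 6 / 5 / m := by
      rw [div_le_div_iff₀ h1 (by positivity)]
      nlinarith [hE.hβ']
    have h7 : 2 * β' / ((m + 1) * α) ≤ 6 / 5 / m := by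
      rw [div_le_div_iff₀ h2 (by positivity)]
      nlinarith [hE.hβ']
    calc 2 * β' / (m * α) * (2 * β' / ((m + 1) * α)) ≤ (6 / 5 / m) * (6 / 5 / m) :=
          mul_le_mul h6 h7 (by positivity) (by positivity)
      _ = 36 / 25 / (m : ℝ) ^ 2 := by ring
      _ ≤ 2 / (m : ℝ) ^ 2 := by
          apply div_le_div_of_nonneg_right (by norm_num) (by positivity)
  have h8 : G ^ d * (2 * β' / (m * α) * (2 * β' / ((m + 1) * α))) ≤ G ^ d * (2 / (m : ℝ) ^ 2) :=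
    mul_le_mul_of_nonneg_left h5 (by positivity)
  rw [← hG]
  nlinarith [h8]

theorem VolG.pow_le (d : ℕ) {τ : ℝ} (h0 : 0 ≤ τ) (h1 : τ ≤ 1) :
    (1 + τ) ^ d ≤ 1 + (2 ^ d - 1) * τ := by
  induction d with
  | zero => simp
  | succ n ih =>
    have h2 : (1 : ℝ) ≤ 2 ^ n := one_le_pow₀ (by norm_num)
    calc (1 + τ) ^ (n + 1) = (1 + τ) ^ n * (1 + τ) := pow_succ _ _
      _ ≤ (1 + (2 ^ n - 1) * τ) * (1 + τ) := mul_le_mul_of_nonneg_right ih (by linarith)
      _ = 1 + 2 ^ n * τ + (2 ^ n - 1) * (τ * τ) := by ring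
      _ ≤ 1 + 2 ^ n * τ + (2 ^ n - 1) * (1 * τ) := by
          have h3 : τ * τ ≤ 1 * τ := mul_le_mul_of_nonneg_right h1 h0
          have h4 := mul_le_mul_of_nonneg_left h3 (show (0 : ℝ) ≤ 2 ^ n - 1 by linarith)
          linarith
      _ = 1 + (2 ^ (n + 1) - 1) * τ := by ring

/-- **The volume of `E ∆ N` is small** if the number of the cells is large, then the junk is thin,
then `α` is small. -/
theorem exists_vol_symmDiff_le {N : Set (Fin d → ℝ)} {c : ℝ} {D : ℕ} (hN : Core N c D) {δ : ℝ}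
    (hδ : 0 < δ) {cm CR : ℝ} (hcm : 0 < cm) (hCR : 0 ≤ CR) :
    ∃ s0 : ℕ, 1 ≤ s0 ∧ ∀ s : ℕ, s0 ≤ s → ∀ (m : ℕ) (R : ℝ), cm * (s : ℝ) ^ d ≤ m → 0 ≤ R →
      R ≤ CR * s → ∃ ε0 : ℝ, 0 < ε0 ∧ ∀ Ct : ℝ, 0 ≤ Ct → ∃ α0 : ℝ, 0 < α0 ∧
      ∀ (ε : ℝ) (i₁ i₂ : Fin d) (α a b β β' τ : ℝ) (E : Set (Fin d → ℝ)),
      0 ≤ ε → ε ≤ ε0 → α ≤ α0 → τ ≤ Ct * α →
      Geo d i₁ i₂ m R α a b β β' τ ε N E → volume (symmDiff E N) ≤ ENNReal.ofReal δ := by
  obtain ⟨B, hB⟩ : ∃ B : ℝ, B = (4 * CR + 7) ^ d := ⟨_, rfl⟩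
  have hB0 : 0 < B := by
    rw [hB]
    positivity
  refine ⟨⌈8 * B / (cm ^ 2 * δ)⌉₊ + 1, by omega, ?_⟩
  intro s hs m R hm hR0 hR
  have hs1 : (1 : ℝ) ≤ s := by
    have : 1 ≤ s := by omega
    exact_mod_cast this
  have hsB : 8 * B / (cm ^ 2 * δ) ≤ s := by
    refine (Nat.le_ceil _).trans ?_
    have : ⌈8 * B / (cm ^ 2 * δ)⌉₊ ≤ s := by omega
    exact_mod_cast this
  obtain ⟨G, hG⟩ : ∃ G : ℝ, G = (4 * R + 7) ^ d := ⟨_, rfl⟩
  have hG1 : 1 ≤ G := by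
    rw [hG]
    exact one_le_pow₀ (by linarith)
  refine ⟨min 1 (δ / (4 * G)), lt_min one_pos (by positivity), ?_⟩
  intro Ct hCt
  obtain ⟨Vn, hVn⟩ : ∃ Vn : ℝ, Vn = (volume N).toReal := ⟨_, rfl⟩
  have hVn0 : 0 ≤ Vn := by
    rw [hVn]
    exact ENNReal.toReal_nonneg
  refine ⟨min (min 1 (1 / (Ct + 1))) (min (δ / (4 * 2 ^ d * (Vn + 1) * (Ct + 1)))
    (δ / (m + 1))), lt_min (lt_min one_pos (by positivity))
    (lt_min (by positivity) (by positivity)), ?_⟩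
  intro ε i₁ i₂ α a b β β' τ E hε0 hε hα hτ hE
  have ha : 0 < a := lt_of_lt_of_le hE.hb hE.hba
  have hα0 : 0 < α := by linarith [hE.ha]
  have hα1 : α ≤ 1 := hα.trans ((min_le_left _ _).trans (min_le_left _ _))
  have hα2 : α ≤ 1 / (Ct + 1) := hα.trans ((min_le_left _ _).trans (min_le_right _ _))
  have hα3 : α ≤ δ / (4 * 2 ^ d * (Vn + 1) * (Ct + 1)) :=
    hα.trans ((min_le_right _ _).trans (min_le_left _ _))
  have hα4 : α ≤ δ / (m + 1) := hα.trans ((min_le_right _ _).trans (min_le_right _ _))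
  have hτ1 : τ ≤ 1 := by
    refine hτ.trans ?_
    rw [le_div_iff₀ (by linarith)] at hα2
    nlinarith
  have hτ0 := hE.hτ
  refine (hE.vol_symmDiff hN hR0 hε0 hτ1).trans (ENNReal.ofReal_le_ofReal ?_)
  rw [← hG, ← hVn]
  have hd : 1 ≤ d := by
    rcases Nat.eq_zero_or_pos d with h | h
    · subst h
      exact i₁.elim0
    · exact h
  -- windows
  have w1 : 4 * ((m : ℝ) + 1) * (2 * a) ^ d ≤ δ / 4 := by
    have h1 : 2 * a ≤ α / 20 := by linarith [hE.ha]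
    have h2 : (2 * a) ^ d ≤ (2 * a) ^ 1 :=
      pow_le_pow_of_le_one (by positivity) (by linarith) hd
    rw [pow_one] at h2
    rw [le_div_iff₀ (by positivity)] at hα4
    have h3 : (0 : ℝ) ≤ m + 1 := by positivity
    calc 4 * ((m : ℝ) + 1) * (2 * a) ^ d ≤ 4 * ((m : ℝ) + 1) * (α / 20) :=
          mul_le_mul_of_nonneg_left (h2.trans h1) (by positivity)
      _ = α * (m + 1) / 5 := by ring
      _ ≤ δ / 4 := by linarith
  -- shell
  have w2 : ((1 + τ) ^ d - 1) * Vn ≤ δ / 4 := by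
    have h1 := VolG.pow_le d hτ0 hτ1
    rw [le_div_iff₀ (by positivity)] at hα3
    have h2 : (0 : ℝ) ≤ 2 ^ d := by positivity
    calc ((1 + τ) ^ d - 1) * Vn ≤ (2 ^ d * τ) * Vn := by
          refine mul_le_mul_of_nonneg_right ?_ hVn0
          nlinarith
      _ ≤ (2 ^ d * (Ct * α)) * Vn :=
          mul_le_mul_of_nonneg_right (mul_le_mul_of_nonneg_left hτ h2) hVn0
      _ ≤ (2 ^ d * ((Ct + 1) * α)) * (Vn + 1) := by
          have h3 : Ct * α ≤ (Ct + 1) * α := by nlinarith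
          have h4 := mul_le_mul_of_nonneg_left h3 h2
          exact mul_le_mul h4 (by linarith) hVn0 (by positivity)
      _ = α * (4 * 2 ^ d * (Vn + 1) * (Ct + 1)) / 4 := by ring
      _ ≤ δ / 4 := by linarith
  -- residues
  have hm0 : 0 < cm * (s : ℝ) ^ d := by positivity
  have hmpos : (0 : ℝ) < m := lt_of_lt_of_le hm0 hm
  have w3 : G * (2 / (m : ℝ) ^ 2) ≤ δ / 4 := by
    have h1 : G ≤ B * (s : ℝ) ^ d := by
      rw [hG, hB, ← mul_pow]
      refine pow_le_pow_left₀ (by positivity) ?_ d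
      nlinarith
    have h2 : (cm * (s : ℝ) ^ d) ^ 2 ≤ (m : ℝ) ^ 2 := pow_le_pow_left₀ hm0.le hm 2
    have h3 : (s : ℝ) ≤ (s : ℝ) ^ d := by
      calc (s : ℝ) = (s : ℝ) ^ 1 := (pow_one _).symm
        _ ≤ (s : ℝ) ^ d := pow_le_pow_right₀ hs1 hd
    rw [div_le_iff₀ (by positivity)] at hsB
    calc G * (2 / (m : ℝ) ^ 2) ≤ (B * (s : ℝ) ^ d) * (2 / (cm * (s : ℝ) ^ d) ^ 2) := by
          refine mul_le_mul h1 ?_ (by positivity) (by positivity)
          exact div_le_div_of_nonneg_left (by norm_num) (by positivity) h2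
      _ = 2 * B / (cm ^ 2 * (s : ℝ) ^ d) := by
          field_simp
      _ ≤ δ / 4 := by
          rw [div_le_div_iff₀ (by positivity) (by norm_num)]
          have h4 : s * (cm ^ 2 * δ) ≤ (s : ℝ) ^ d * (cm ^ 2 * δ) :=
            mul_le_mul_of_nonneg_right h3 (by positivity)
          linarith
  -- junk
  have w4 : G * ε ≤ δ / 4 := by
    have h2 : ε ≤ δ / (4 * G) := hε.trans (min_le_right _ _)
    rw [le_div_iff₀ (by positivity)] at h2
    linarith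
  rw [mul_add]
  linarith

end Pool.Agent.RC
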